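import Pool.Agent.Lib.MP_dd244f_an.Rp.StmtsH

/-!
The sharp Hardy-Littlewood-Paley inequality: the line `p = 2` (module AV1).
-/

set_option autoImplicit false

namespace Pool.Agent.Lib.MP_dd244f_an.Rp

open MeasureTheory Filter Topology
open Pool.Agent.Lib.MP_dd244f_an.Four
open scoped ENNReal

namespace AV1Aux

/-- `|c(1/2 + i y)| = 1` -/
lemma norm_cz_half (y : ℝ) (z : ℂ) (hz : z = 1 / 2 + Complex.I * y) : ‖cz z‖ = 1 := by
  have hre : z.re = 1 / 2 := by
    rw [hz]
    simp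
  have hc : (1 : ℂ) - z = starRingEnd ℂ z := by
    rw [hz]
    simp only [map_add, map_mul, map_div₀, map_one, map_ofNat, Complex.conj_I, Complex.conj_ofReal]
    ring
  have hn : Complex.Gamma z ≠ 0 := Complex.Gamma_ne_zero_of_re_pos (by rw [hre]; norm_num)
  unfold cz
  rw [norm_div, norm_mul, Complex.norm_cpow_eq_rpow_re_of_pos Real.pi_pos, hc, Complex.Gamma_conj,
    Complex.norm_conj]
  have h0 : (1 - 2 * z).re = 0 := by
    simp [hre]
  rw [h0, Real.rpow_zero, one_mul, div_self (norm_ne_zero_iff.mpr hn)]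

/-- the weight of the right-hand side is continuous with compact support -/
lemma wt_cont (u : ℂ → ℝ) (hu : Continuous u)
    (hs : ∃ r R : ℝ, 0 < r ∧ ∀ ξ, u ξ ≠ 0 → r ≤ ‖ξ‖ ∧ ‖ξ‖ ≤ R) :
    Integrable (fun ξ => u ξ / ‖ξ‖ ^ 4) := by
  obtain ⟨r, R, hr, h⟩ := hs
  have hc : Continuous (fun ξ : ℂ => u ξ / ‖ξ‖ ^ 4) := by
    rw [continuous_iff_continuousAt]
    intro ξ
    rcases eq_or_ne ξ 0 with rfl | hξ
    · have he : (fun ξ : ℂ => u ξ / ‖ξ‖ ^ 4) =ᶠ[𝓝 0] fun _ => 0 := by
        filter_upwards [Metric.ball_mem_nhds (0 : ℂ) hr] with ζ hζ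
        have : u ζ = 0 := by
          by_contra hne
          have h1 := (h ζ hne).1
          rw [mem_ball_zero_iff] at hζ
          linarith
        rw [this, zero_div]
      exact (continuousAt_const).congr he.symm
    · refine hu.continuousAt.div (by fun_prop) ?_
      have : 0 < ‖ξ‖ := norm_pos_iff.mpr hξ
      positivity
  refine hc.integrable_of_hasCompactSupport ?_
  refine HasCompactSupport.of_support_subset_isCompact (isCompact_closedBall (0 : ℂ) R) ?_
  intro ξ hξ
  rw [mem_closedBall_zero_iff]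
  refine (h ξ ?_).2
  intro h0
  refine hξ ?_
  change u ξ / ‖ξ‖ ^ 4 = 0
  rw [h0, zero_div]

lemma hz_norm_sq (u α : ℂ → ℝ) (hu : ∀ ξ, 0 ≤ u ξ) (z : ℂ) (hz' : z.re = 1 / 2) (ξ : ℂ) :
    ‖hz u α z ξ‖ ^ 2 = u ξ / ‖ξ‖ ^ 4 := by
  unfold hz
  split_ifs with h
  · rw [h]
    simp
  · have hpos : 0 < u ξ := lt_of_le_of_ne (hu ξ) (Ne.symm h)
    rw [norm_mul, Complex.norm_exp, Complex.norm_real, Real.norm_eq_abs, mul_pow, sq_abs]
    have hre : (z * (Real.log (u ξ) : ℂ) + Complex.I * (α ξ : ℂ)).re = 1 / 2 * Real.log (u ξ) := by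
      simp [hz']
    rw [hre, ← Real.exp_nat_mul]
    have h2 : ((2 : ℕ) : ℝ) * (1 / 2 * Real.log (u ξ)) = Real.log (u ξ) := by
      push_cast
      ring
    rw [h2, Real.exp_log hpos]
    rcases eq_or_ne ξ 0 with rfl | hξ
    · simp
    · have : ‖ξ‖ ≠ 0 := norm_ne_zero_iff.mpr hξ
      field_simp

lemma hz_meas (u α : ℂ → ℝ) (hu : Measurable u) (hα : Measurable α) (z : ℂ) :
    Measurable (hz u α z) := by
  unfold hz
  refine Measurable.ite (measurableSet_eq_fun hu measurable_const) measurable_const ?_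
  refine Measurable.mul ?_ ?_
  · exact Complex.measurable_ofReal.comp ((measurable_norm.pow_const 2).inv)
  · refine Complex.measurable_exp.comp (Measurable.add ?_ ?_)
    · exact (Complex.measurable_ofReal.comp (Real.measurable_log.comp hu)).const_mul z
    · exact (Complex.measurable_ofReal.comp hα).const_mul Complex.I

end AV1Aux

open AV1Aux in
/-- (AV1) -/
theorem av1 (hL2 : Four.StmtL2) (hP : StmtPoi) : StmtAV1 := by
  intro w t hw ht0 ht1 u α hN
  obtain ⟨huc, hu0, hs, hα⟩ := hN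
  have hv := wt_cont u huc hs
  have hU0 : 0 ≤ ∫ ξ, u ξ / ‖ξ‖ ^ 4 := integral_nonneg fun ξ => div_nonneg (hu0 ξ) (by positivity)
  obtain ⟨hpk, hpi, hpt⟩ := hP.1 w t hw ht0 ht1
  have hpint : Integrable (pk w t) := by
    have := hpi 0
    simpa using this
  -- Plancherel
  have key : ∀ y : ℝ, ∫⁻ x : ℂ, ‖iF (hz u α (1 / (2 * ((1 : ℕ) : ℂ)) + Complex.I * y)) x‖ₑ ^ (2 * 1)
      = ENNReal.ofReal (∫ ξ, u ξ / ‖ξ‖ ^ 4) := by
    intro y
    set z : ℂ := 1 / (2 * ((1 : ℕ) : ℂ)) + Complex.I * y with hz'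
    have hre : z.re = 1 / 2 := by
      rw [hz']
      simp
    have hsq : ∀ ξ, ‖hz u α z ξ‖ ^ 2 = u ξ / ‖ξ‖ ^ 4 := hz_norm_sq u α hu0 z hre
    have hm : AEStronglyMeasurable (hz u α z) volume :=
      (hz_meas u α huc.measurable hα z).aestronglyMeasurable
    have hmem : MemLp (hz u α z) 2 volume := by
      rw [memLp_two_iff_integrable_sq_norm hm]
      exact hv.congr (Eventually.of_forall fun ξ => (hsq ξ).symm)
    obtain ⟨r, R, hr, h⟩ := hs
    have hint : Integrable (hz u α z) := by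
      have hb : Integrable (fun ξ : ℂ => (Metric.closedBall (0 : ℂ) R).indicator (fun _ => (1 : ℝ)) ξ
          + u ξ / ‖ξ‖ ^ 4) := by
        refine Integrable.add ?_ hv
        exact (integrableOn_const (isCompact_closedBall (0 : ℂ) R).measure_lt_top.ne).integrable_indicator
          measurableSet_closedBall
      refine hb.mono' hm (Eventually.of_forall fun ξ => ?_)
      rw [← hsq ξ]
      by_cases hξ : u ξ = 0
      · have : hz u α z ξ = 0 := by
          unfold hz
          rw [if_pos hξ]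
        rw [this, norm_zero]
        have : 0 ≤ (Metric.closedBall (0 : ℂ) R).indicator (fun _ => (1 : ℝ)) ξ :=
          Set.indicator_nonneg (fun _ _ => zero_le_one) ξ
        linarith [this]
      · have hmem' : ξ ∈ Metric.closedBall (0 : ℂ) R := by
          rw [mem_closedBall_zero_iff]
          exact (h ξ hξ).2
        rw [Set.indicator_of_mem hmem']
        nlinarith [norm_nonneg (hz u α z ξ), sq_nonneg (‖hz u α z ξ‖ - 1)]
    obtain ⟨hF, hE⟩ := hL2 (hz u α z) hint hmem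
    have hFi : Integrable (fun x => ‖iF (hz u α z) x‖ ^ 2) :=
      (memLp_two_iff_integrable_sq_norm hF.1).mp hF
    have e1 : ∫ ξ, u ξ / ‖ξ‖ ^ 4 = ∫ x, ‖iF (hz u α z) x‖ ^ 2 := by
      rw [hE]
      exact integral_congr_ae (Eventually.of_forall fun ξ => (hsq ξ).symm)
    rw [e1, ofReal_integral_eq_lintegral_ofReal hFi (Eventually.of_forall fun x => sq_nonneg _)]
    refine lintegral_congr fun x => ?_
    rw [mul_one, ENNReal.ofReal_pow (norm_nonneg _), ofReal_norm]
  have hcz : ∀ y : ℝ, ‖cz (1 / (2 * ((1 : ℕ) : ℂ)) + Complex.I * y)‖ ^ (2 * 1) = 1 := by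
    intro y
    rw [norm_cz_half y _ (by push_cast; ring), one_pow]
  simp_rw [key, hcz, div_one]
  rw [lintegral_mul_const'' _ hpint.aemeasurable.ennreal_ofReal,
    ← ofReal_integral_eq_lintegral_ofReal hpint (Eventually.of_forall fun y => (hpk y).le), hpt,
    ← ENNReal.ofReal_mul ht0.le, one_mul]

end Pool.Agent.Lib.MP_dd244f_an.Rp
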