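import Pool.Agent.Lib.MP_dd244f_an.Rp.StmtsH

/-!
# The averaged inequality from positive definiteness (module AVh)
-/

set_option autoImplicit false

namespace Pool.Agent.Lib.MP_dd244f_an.Rp

open MeasureTheory Filter Topology Finset
open Pool.Agent.Lib.MP_dd244f_an.Four
open scoped ENNReal NNReal

namespace AVhAux

/-- the sum of the logarithms over the first group -/
noncomputable def SA {j : ℕ} (v : ℂ → ℝ) (X : XX j) : ℝ := ∑ i, Real.log (v (X.1 i))

/-- the sum of the logarithms over the second group -/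
noncomputable def SB {j : ℕ} (v : ℂ → ℝ) (X : XX j) : ℝ :=
  ∑ i, Real.log (v (X.2 i)) + Real.log (v (xl X))

/-- the difference -/
noncomputable def LL {j : ℕ} (v : ℂ → ℝ) (X : XX j) : ℝ := SA v X - SB v X

/-- the product of the inverse squares -/
noncomputable def DD {j : ℕ} (X : XX j) : ℝ :=
  (∏ i, (‖X.1 i‖ ^ 2)⁻¹) * (∏ i, (‖X.2 i‖ ^ 2)⁻¹) * (‖xl X‖ ^ 2)⁻¹

/-- the reference function -/
noncomputable def u0 (ξ : ℂ) : ℝ := ‖ξ‖ ^ 2

lemma measurable_xl {j : ℕ} : Measurable (fun X : XX j => xl X) := by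
  unfold xl
  fun_prop

lemma measurable_SA {j : ℕ} {v : ℂ → ℝ} (hv : Measurable v) :
    Measurable (fun X : XX j => SA v X) := by
  unfold SA
  refine Finset.measurable_sum _ fun i _ => ?_
  exact Real.measurable_log.comp (hv.comp (by fun_prop))

lemma measurable_SB {j : ℕ} {v : ℂ → ℝ} (hv : Measurable v) :
    Measurable (fun X : XX j => SB v X) := by
  unfold SB
  refine Measurable.add (Finset.measurable_sum _ fun i _ => ?_) ?_
  · exact Real.measurable_log.comp (hv.comp (by fun_prop))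
  · exact Real.measurable_log.comp (hv.comp measurable_xl)

lemma measurable_LL {j : ℕ} {v : ℂ → ℝ} (hv : Measurable v) :
    Measurable (fun X : XX j => LL v X) :=
  (measurable_SA hv).sub (measurable_SB hv)

lemma measurable_DD {j : ℕ} : Measurable (fun X : XX j => DD X) := by
  have h := measurable_xl (j := j)
  unfold DD
  fun_prop

lemma measurable_u0 : Measurable u0 := by
  unfold u0; fun_prop

lemma DD_nonneg {j : ℕ} (X : XX j) : 0 ≤ DD X := by
  unfold DD; positivity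

lemma DD_ne_zero {j : ℕ} {X : XX j} (h : DD X ≠ 0) :
    (∀ i, X.1 i ≠ 0) ∧ (∀ i, X.2 i ≠ 0) ∧ xl X ≠ 0 := by
  unfold DD at h
  have h1 := left_ne_zero_of_mul (left_ne_zero_of_mul h)
  have h2 := right_ne_zero_of_mul (left_ne_zero_of_mul h)
  have h3 := right_ne_zero_of_mul h
  rw [Finset.prod_ne_zero_iff] at h1 h2
  refine ⟨fun i h0 => ?_, fun i h0 => ?_, fun h0 => ?_⟩
  · exact h1 i (Finset.mem_univ i) (by rw [h0]; simp)
  · exact h2 i (Finset.mem_univ i) (by rw [h0]; simp)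
  · exact h3 (by rw [h0]; simp)

/-- the Fubini step -/
lemma fub {j : ℕ} {W : ℝ → ℝ} (hW : Integrable W) {Ω : ℝ → ℝ}
    (hΩ : ∀ r : ℝ, ∫ y : ℝ, ((W y : ℝ) : ℂ) * Complex.exp (Complex.I * (y * r : ℝ)) = (Ω r : ℂ))
    {F : XX j → ℂ} (hF : Integrable F) {Λ : XX j → ℝ} (hΛ : Measurable Λ) :
    Integrable (fun y : ℝ => (W y : ℂ) * ∫ X, F X * Complex.exp (Complex.I * (y * Λ X : ℝ))) ∧
    ∫ y : ℝ, (W y : ℂ) * ∫ X, F X * Complex.exp (Complex.I * (y * Λ X : ℝ))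
      = ∫ X, F X * (Ω (Λ X) : ℂ) := by
  have hint : Integrable (fun q : ℝ × XX j => ((W q.1 : ℂ) * F q.2) *
      Complex.exp (Complex.I * (q.1 * Λ q.2 : ℝ))) (volume.prod volume) := by
    refine Integrable.mul_bdd (c := 1) (hW.ofReal.mul_prod hF) ?_ ?_
    · refine Measurable.aestronglyMeasurable ?_
      fun_prop
    · refine Eventually.of_forall fun q => ?_
      rw [mul_comm, Complex.norm_exp_ofReal_mul_I]
  have h1 : ∀ y : ℝ, (W y : ℂ) * ∫ X, F X * Complex.exp (Complex.I * (y * Λ X : ℝ))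
      = ∫ X, ((W y : ℂ) * F X) * Complex.exp (Complex.I * (y * Λ X : ℝ)) := by
    intro y
    rw [← integral_const_mul]
    refine integral_congr_ae (Eventually.of_forall fun X => ?_)
    simp only [mul_assoc]
  simp_rw [h1]
  refine ⟨hint.integral_prod_left, ?_⟩
  rw [integral_integral_swap hint]
  refine integral_congr_ae (Eventually.of_forall fun X => ?_)
  show ∫ y : ℝ, ((W y : ℂ) * F X) * Complex.exp (Complex.I * (y * Λ X : ℝ)) = F X * (Ω (Λ X) : ℂ)
  rw [← hΩ (Λ X), ← integral_const_mul]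
  refine integral_congr_ae (Eventually.of_forall fun y => ?_)
  show ((W y : ℂ) * F X) * Complex.exp (Complex.I * (y * Λ X : ℝ)) =
    F X * ((W y : ℂ) * Complex.exp (Complex.I * (y * Λ X : ℝ)))
  ring

lemma hz_split (u α : ℂ → ℝ) (x y : ℝ) (ξ : ℂ) :
    hz u α (x + Complex.I * y) ξ = hz u α x ξ *
      Complex.exp (Complex.I * (y * Real.log (u ξ) : ℝ)) := by
  unfold hz
  split_ifs with h
  · simp
  · rw [mul_assoc, ← Complex.exp_add]
    congr 2
    push_cast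
    ring

/-- the integrand of the expansion -/
noncomputable def HH {j : ℕ} (u α : ℂ → ℝ) (z : ℂ) (X : XX j) : ℂ :=
  (∏ i, hz u α z (X.1 i)) * (∏ i, starRingEnd ℂ (hz u α z (X.2 i))) *
    starRingEnd ℂ (hz u α z (xl X))

lemma conj_split (u α : ℂ → ℝ) (x y : ℝ) (ξ : ℂ) :
    starRingEnd ℂ (hz u α (x + Complex.I * y) ξ) = starRingEnd ℂ (hz u α x ξ) *
      Complex.exp (-(Complex.I * (y * Real.log (u ξ) : ℝ))) := by
  rw [hz_split, map_mul, ← Complex.exp_conj]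
  congr 2
  simp

lemma HH_split {j : ℕ} (u α : ℂ → ℝ) (x y : ℝ) (X : XX j) :
    HH u α (x + Complex.I * y) X = HH u α x X * Complex.exp (Complex.I * (y * LL u X : ℝ)) := by
  unfold HH
  simp_rw [conj_split, hz_split, Finset.prod_mul_distrib, ← Complex.exp_sum]
  have : Complex.exp (Complex.I * (y * LL u X : ℝ)) =
      Complex.exp (∑ i, Complex.I * (y * Real.log (u (X.1 i)) : ℝ)) *
      Complex.exp (∑ i, -(Complex.I * (y * Real.log (u (X.2 i)) : ℝ))) *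
      Complex.exp (-(Complex.I * (y * Real.log (u (xl X)) : ℝ))) := by
    rw [← Complex.exp_add, ← Complex.exp_add]
    congr 1
    unfold LL SA SB
    push_cast
    rw [Finset.sum_neg_distrib, ← Finset.mul_sum, ← Finset.mul_sum, ← Finset.mul_sum,
      ← Finset.mul_sum]
    ring
  rw [this]
  ring

/-- the modulus of the integrand -/
lemma norm_hz (u α : ℂ → ℝ) (x : ℝ) (ξ : ℂ) :
    ‖hz u α x ξ‖ = if u ξ = 0 then 0 else (‖ξ‖ ^ 2)⁻¹ * Real.exp (x * Real.log (u ξ)) := by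
  unfold hz
  split_ifs with h
  · simp
  · rw [norm_mul, Complex.norm_exp]
    simp

lemma norm_HH {j : ℕ} (u α : ℂ → ℝ) (x : ℝ) (X : XX j) (h1 : ∀ i, u (X.1 i) ≠ 0)
    (h2 : ∀ i, u (X.2 i) ≠ 0) (h3 : u (xl X) ≠ 0) :
    ‖HH u α x X‖ = DD X * Real.exp (x * (SA u X + SB u X)) := by
  unfold HH
  rw [norm_mul, norm_mul, norm_prod, norm_prod]
  simp_rw [RCLike.norm_conj, norm_hz, if_neg h3, if_neg (h1 _), if_neg (h2 _),
    Finset.prod_mul_distrib, ← Real.exp_sum]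
  have : Real.exp (x * (SA u X + SB u X)) = Real.exp (∑ i, x * Real.log (u (X.1 i))) *
      Real.exp (∑ i, x * Real.log (u (X.2 i))) * Real.exp (x * Real.log (u (xl X))) := by
    rw [← Real.exp_add, ← Real.exp_add]
    congr 1
    unfold SA SB
    rw [← Finset.mul_sum, ← Finset.mul_sum]
    ring
  rw [this]
  unfold DD
  ring

lemma HH_zero {j : ℕ} (u α : ℂ → ℝ) (x : ℝ) (X : XX j)
    (h : ¬ ((∀ i, u (X.1 i) ≠ 0) ∧ (∀ i, u (X.2 i) ≠ 0) ∧ u (xl X) ≠ 0)) :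
    ‖HH u α x X‖ = 0 := by
  unfold HH
  rw [norm_mul, norm_mul, norm_prod, norm_prod]
  simp_rw [RCLike.norm_conj]
  by_cases h1 : ∀ i, u (X.1 i) ≠ 0
  · by_cases h2 : ∀ i, u (X.2 i) ≠ 0
    · have h3 : u (xl X) = 0 := by
        by_contra h3
        exact h ⟨h1, h2, h3⟩
      rw [norm_hz u α x (xl X), if_pos h3, mul_zero]
    · push Not at h2
      obtain ⟨i, hi⟩ := h2
      rw [Finset.prod_eq_zero (i := i) (s := (Finset.univ : Finset (Fin j)))
        (f := fun i => ‖hz u α x (X.2 i)‖) (Finset.mem_univ i) (by rw [norm_hz, if_pos hi])]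
      simp
  · push Not at h1
    obtain ⟨i, hi⟩ := h1
    rw [Finset.prod_eq_zero (i := i) (s := (Finset.univ : Finset (Fin (j + 1))))
      (f := fun i => ‖hz u α x (X.1 i)‖) (Finset.mem_univ i) (by rw [norm_hz, if_pos hi])]
    simp

lemma hz_meas {u α : ℂ → ℝ} (hN : Nice u α) (z : ℂ) : Measurable (hz u α z) := by
  obtain ⟨hu, -, -, hα⟩ := hN
  have hu' := hu.measurable
  unfold hz
  refine Measurable.ite (hu' (measurableSet_singleton 0)) measurable_const ?_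
  fun_prop

lemma nice_bdd {u α : ℂ → ℝ} (hN : Nice u α) : ∃ M : ℝ, 1 ≤ M ∧ ∀ ξ, u ξ ≤ M := by
  obtain ⟨hu, hu0, ⟨r, R, hr, hrR⟩, hα⟩ := hN
  obtain ⟨M, hM⟩ := (isCompact_closedBall (0 : ℂ) R).bddAbove_image hu.continuousOn
  refine ⟨max M 1, le_max_right _ _, fun ξ => ?_⟩
  by_cases h : u ξ = 0
  · rw [h]; exact zero_le_one.trans (le_max_right _ _)
  · refine le_trans (hM ⟨ξ, ?_, rfl⟩) (le_max_left _ _)
    rw [mem_closedBall_zero_iff]
    exact (hrR ξ h).2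

lemma hz_bdd {u α : ℂ → ℝ} (hN : Nice u α) (x y : ℝ) (hx : 0 ≤ x) :
    ∃ B, ∀ ξ, ‖hz u α (x + Complex.I * y) ξ‖ ≤ B := by
  obtain ⟨M, hM1, hM⟩ := nice_bdd hN
  obtain ⟨hu, hu0, ⟨r, R, hr, hrR⟩, hα⟩ := hN
  refine ⟨(r ^ 2)⁻¹ * Real.exp (x * Real.log M), fun ξ => ?_⟩
  rw [hz_split, norm_mul, mul_comm Complex.I, Complex.norm_exp_ofReal_mul_I, mul_one, norm_hz]
  split_ifs with h
  · positivity
  · have h1 := (hrR ξ h).1
    have h2 : Real.log (u ξ) ≤ Real.log M :=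
      Real.log_le_log (lt_of_le_of_ne (hu0 ξ) (Ne.symm h)) (hM ξ)
    have h3 : (‖ξ‖ ^ 2)⁻¹ ≤ (r ^ 2)⁻¹ := by
      apply inv_anti₀ (by positivity)
      exact pow_le_pow_left₀ hr.le h1 2
    have h4 : Real.exp (x * Real.log (u ξ)) ≤ Real.exp (x * Real.log M) :=
      Real.exp_le_exp.2 (mul_le_mul_of_nonneg_left h2 hx)
    exact mul_le_mul h3 h4 (Real.exp_pos _).le (by positivity)

lemma hz_cs {u α : ℂ → ℝ} (hN : Nice u α) (z : ℂ) : HasCompactSupport (hz u α z) := by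
  obtain ⟨hu, hu0, ⟨r, R, hr, hrR⟩, hα⟩ := hN
  refine HasCompactSupport.intro (isCompact_closedBall (0 : ℂ) R) fun ξ hξ => ?_
  unfold hz
  rw [if_pos]
  by_contra h
  exact hξ (mem_closedBall_zero_iff.2 (hrR ξ h).2)

/-- convexity of the exponential -/
lemma amgm {ι : Type} [Fintype ι] [Nonempty ι] (a : ι → ℝ) :
    Real.exp ((1 / (Fintype.card ι : ℝ)) * ∑ i, a i) ≤
      (1 / (Fintype.card ι : ℝ)) * ∑ i, Real.exp (a i) := by
  have hc : (0 : ℝ) < Fintype.card ι := by exact_mod_cast Fintype.card_pos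
  have := convexOn_exp.map_sum_le (t := (Finset.univ : Finset ι))
    (w := fun _ => 1 / (Fintype.card ι : ℝ)) (p := a) (fun i _ => by positivity)
    (by simp [hc.ne']) (fun i _ => Set.mem_univ _)
  simp only [smul_eq_mul, ← Finset.mul_sum] at this
  exact this

/-- the weights -/
noncomputable def VV (u : ℂ → ℝ) (ξ : ℂ) : ℝ := u ξ / ‖ξ‖ ^ 2

lemma exp_log_sub {u : ℂ → ℝ} (hu : ∀ ξ, 0 ≤ u ξ) {ξ : ℂ} (h : u ξ ≠ 0) (hξ : ξ ≠ 0) :
    Real.exp (Real.log (u ξ) - Real.log (u0 ξ)) = VV u ξ := by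
  unfold VV u0
  rw [Real.exp_sub, Real.exp_log (lt_of_le_of_ne (hu ξ) (Ne.symm h)),
    Real.exp_log (by positivity)]

lemma exp_SA {j : ℕ} {u : ℂ → ℝ} (hu : ∀ ξ, 0 ≤ u ξ) (hu' : ∀ ξ, u ξ ≠ 0 → ξ ≠ 0) (X : XX j)
    (h1 : ∀ i, u (X.1 i) ≠ 0) :
    Real.exp (1 / ((j : ℝ) + 1) * SA u X) ≤ (1 / ((j : ℝ) + 1) * ∑ i, VV u (X.1 i)) *
      Real.exp (1 / ((j : ℝ) + 1) * SA u0 X) := by
  have h := amgm (fun i : Fin (j + 1) => Real.log (u (X.1 i)) - Real.log (u0 (X.1 i)))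
  simp only [Fintype.card_fin] at h
  simp_rw [exp_log_sub hu (h1 _) (hu' _ (h1 _))] at h
  push_cast at h
  rw [Finset.sum_sub_distrib] at h
  change Real.exp (1 / ((j : ℝ) + 1) * (SA u X - SA u0 X)) ≤ _ at h
  have h2 : Real.exp (1 / ((j : ℝ) + 1) * SA u X) =
      Real.exp (1 / ((j : ℝ) + 1) * (SA u X - SA u0 X)) * Real.exp (1 / ((j : ℝ) + 1) * SA u0 X) := by
    rw [← Real.exp_add]; congr 1; ring
  rw [h2]
  exact mul_le_mul_of_nonneg_right h (Real.exp_pos _).le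

lemma exp_SB {j : ℕ} {u : ℂ → ℝ} (hu : ∀ ξ, 0 ≤ u ξ) (hu' : ∀ ξ, u ξ ≠ 0 → ξ ≠ 0) (X : XX j)
    (h2 : ∀ i, u (X.2 i) ≠ 0) (h3 : u (xl X) ≠ 0) :
    Real.exp (1 / ((j : ℝ) + 1) * SB u X) ≤
      (1 / ((j : ℝ) + 1) * (∑ i, VV u (X.2 i) + VV u (xl X))) *
      Real.exp (1 / ((j : ℝ) + 1) * SB u0 X) := by
  have h := amgm (fun i : Option (Fin j) => i.elim
    (Real.log (u (xl X)) - Real.log (u0 (xl X)))
    (fun i => Real.log (u (X.2 i)) - Real.log (u0 (X.2 i))))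
  simp only [Fintype.card_option, Fintype.card_fin, Fintype.sum_option, Option.elim] at h
  simp_rw [exp_log_sub hu (h2 _) (hu' _ (h2 _)), exp_log_sub hu h3 (hu' _ h3)] at h
  push_cast at h
  rw [Finset.sum_sub_distrib] at h
  have h4 : (Real.log (u (xl X)) - Real.log (u0 (xl X)) +
      (∑ i, Real.log (u (X.2 i)) - ∑ i, Real.log (u0 (X.2 i)))) = SB u X - SB u0 X := by
    unfold SB; ring
  rw [h4] at h
  have h2 : Real.exp (1 / ((j : ℝ) + 1) * SB u X) =
      Real.exp (1 / ((j : ℝ) + 1) * (SB u X - SB u0 X)) * Real.exp (1 / ((j : ℝ) + 1) * SB u0 X) := by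
    rw [← Real.exp_add]; congr 1; ring
  rw [h2, add_comm (∑ i, VV u (X.2 i))]
  exact mul_le_mul_of_nonneg_right h (Real.exp_pos _).le

lemma VV_nonneg {u : ℂ → ℝ} (hu : ∀ ξ, 0 ≤ u ξ) (ξ : ℂ) : 0 ≤ VV u ξ := by
  unfold VV; exact div_nonneg (hu ξ) (by positivity)

/-- the pointwise bound -/
lemma ptw {j : ℕ} {u α : ℂ → ℝ} (hu : ∀ ξ, 0 ≤ u ξ) (hu' : ∀ ξ, u ξ ≠ 0 → ξ ≠ 0)
    {x : ℝ} (hx : x = 1 / (2 * ((j : ℝ) + 1))) (X : XX j) (s : ℝ) :
    ‖HH u α x X‖ * Real.exp (-(x * |LL u X - s|)) ≤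
      if LL u0 X ≤ s then (1 / ((j : ℝ) + 1) * ∑ i, VV u (X.1 i)) *
          (DD X * Real.exp (1 / ((j : ℝ) + 1) * SA u0 X)) * Real.exp (-(x * s))
        else (1 / ((j : ℝ) + 1) * (∑ i, VV u (X.2 i) + VV u (xl X))) *
          (DD X * Real.exp (1 / ((j : ℝ) + 1) * SB u0 X)) * Real.exp (x * s) := by
  have hx0 : 0 < x := by rw [hx]; positivity
  have hx2 : 2 * x = 1 / ((j : ℝ) + 1) := by
    rw [hx]; field_simp
  have hDD := DD_nonneg X
  have hV := VV_nonneg hu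
  by_cases h : (∀ i, u (X.1 i) ≠ 0) ∧ (∀ i, u (X.2 i) ≠ 0) ∧ u (xl X) ≠ 0
  · obtain ⟨h1, h2, h3⟩ := h
    rw [norm_HH u α x X h1 h2 h3, mul_assoc, ← Real.exp_add]
    split_ifs with hs
    · have e1 : x * (SA u X + SB u X) + -(x * |LL u X - s|) ≤
          1 / ((j : ℝ) + 1) * SA u X + -(x * s) := by
        have := mul_le_mul_of_nonneg_left (neg_abs_le (LL u X - s)) hx0.le
        unfold LL at this ⊢
        rw [← hx2]
        nlinarith
      refine (mul_le_mul_of_nonneg_left (Real.exp_le_exp.2 e1) hDD).trans ?_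
      rw [Real.exp_add]
      have := exp_SA hu hu' X h1
      calc DD X * (Real.exp (1 / ((j : ℝ) + 1) * SA u X) * Real.exp (-(x * s)))
          ≤ DD X * (((1 / ((j : ℝ) + 1) * ∑ i, VV u (X.1 i)) *
            Real.exp (1 / ((j : ℝ) + 1) * SA u0 X)) * Real.exp (-(x * s))) := by gcongr
        _ = _ := by ring
    · have e1 : x * (SA u X + SB u X) + -(x * |LL u X - s|) ≤
          1 / ((j : ℝ) + 1) * SB u X + (x * s) := by
        have := mul_le_mul_of_nonneg_left (le_abs_self (LL u X - s)) hx0.le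
        unfold LL at this ⊢
        rw [← hx2]
        nlinarith
      refine (mul_le_mul_of_nonneg_left (Real.exp_le_exp.2 e1) hDD).trans ?_
      rw [Real.exp_add]
      have := exp_SB hu hu' X h2 h3
      calc DD X * (Real.exp (1 / ((j : ℝ) + 1) * SB u X) * Real.exp (x * s))
          ≤ DD X * (((1 / ((j : ℝ) + 1) * (∑ i, VV u (X.2 i) + VV u (xl X))) *
            Real.exp (1 / ((j : ℝ) + 1) * SB u0 X)) * Real.exp (x * s)) := by gcongr
        _ = _ := by ring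
  · rw [HH_zero u α x X h, zero_mul]
    have hs1 : 0 ≤ ∑ i, VV u (X.1 i) := Finset.sum_nonneg fun i _ => hV _
    have hs2 : 0 ≤ ∑ i, VV u (X.2 i) := Finset.sum_nonneg fun i _ => hV _
    have hs3 := hV (xl X)
    split_ifs <;> positivity

lemma finrank_XX (j : ℕ) : Module.finrank ℂ (XX j) = 2 * j + 1 := by
  simp only [Module.finrank_prod, Module.finrank_fintype_fun_eq_card, Fintype.card_fin]
  omega

/-- dilation of Lebesgue measure -/
lemma map_dil {j : ℕ} {l : ℂ} (hl : l ≠ 0) :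
    Measure.map (fun X : XX j => l • X) volume =
      ENNReal.ofReal ((‖l‖ ^ (2 * (2 * j + 1)))⁻¹) • volume := by
  have hdet : LinearMap.det ((l • (LinearMap.id : XX j →ₗ[ℂ] XX j)).restrictScalars ℝ) =
      ‖l‖ ^ (2 * (2 * j + 1)) := by
    rw [LinearMap.det_restrictScalars, LinearMap.det_smul, LinearMap.det_id, mul_one,
      Algebra.norm_complex_apply, Complex.normSq_eq_norm_sq, norm_pow, finrank_XX, ← pow_mul]
    congr 1
    ring
  have hpos : 0 < ‖l‖ ^ (2 * (2 * j + 1)) := by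
    have := norm_pos_iff.2 hl
    positivity
  have : (volume : Measure (XX j)).IsAddHaarMeasure :=
    Measure.prod.instIsAddHaarMeasure (volume : Measure (Fin (j + 1) → ℂ))
      (volume : Measure (Fin j → ℂ))
  have := Measure.map_linearMap_addHaar_eq_smul_addHaar (volume : Measure (XX j))
    (f := (l • (LinearMap.id : XX j →ₗ[ℂ] XX j)).restrictScalars ℝ) (by rw [hdet]; exact hpos.ne')
  rw [hdet, abs_of_pos (inv_pos.2 hpos)] at this
  exact this

/-- a density homogeneous of the right degree gives an invariant measure -/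
lemma map_inv {j : ℕ} {d : XX j → ℝ≥0∞} (hd : Measurable d) {l : ℂ} (hl : l ≠ 0)
    (hh : ∀ X, d X = ENNReal.ofReal (‖l‖ ^ (2 * (2 * j + 1))) * d (l • X)) :
    Measure.map (fun X : XX j => l • X) (volume.withDensity d) = volume.withDensity d := by
  have hpos : 0 < ‖l‖ ^ (2 * (2 * j + 1)) := by
    have := norm_pos_iff.2 hl
    positivity
  have hm : Measurable (fun X : XX j => l • X) := measurable_const_smul l
  ext A hA
  rw [Measure.map_apply hm hA, withDensity_apply _ (hm hA), withDensity_apply _ hA,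
    ← lintegral_indicator (hm hA), ← lintegral_indicator hA]
  have h1 : ∀ X : XX j, ((fun X : XX j => l • X) ⁻¹' A).indicator d X =
      ENNReal.ofReal (‖l‖ ^ (2 * (2 * j + 1))) * A.indicator d (l • X) := by
    intro X
    by_cases hX : l • X ∈ A
    · rw [Set.indicator_of_mem (show X ∈ (fun X : XX j => l • X) ⁻¹' A from hX),
        Set.indicator_of_mem hX, hh X]
    · rw [Set.indicator_of_notMem (show X ∉ (fun X : XX j => l • X) ⁻¹' A from hX),
        Set.indicator_of_notMem hX, mul_zero]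
  simp_rw [h1]
  have h3 : ∫⁻ X : XX j, ENNReal.ofReal (‖l‖ ^ (2 * (2 * j + 1))) * A.indicator d (l • X) =
      ENNReal.ofReal (‖l‖ ^ (2 * (2 * j + 1))) * ∫⁻ X : XX j, A.indicator d (l • X) :=
    lintegral_const_mul _ ((hd.indicator hA).comp hm)
  rw [h3]
  have h2 : ∫⁻ X : XX j, A.indicator d (l • X) =
      ∫⁻ X, A.indicator d X ∂(Measure.map (fun X : XX j => l • X) volume) :=
    (lintegral_map (hd.indicator hA) hm).symm
  rw [h2, map_dil hl, lintegral_smul_measure, smul_eq_mul, ← mul_assoc,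
    ← ENNReal.ofReal_mul hpos.le, mul_inv_cancel₀ hpos.ne', ENNReal.ofReal_one, one_mul]

lemma xl_smul {j : ℕ} (l : ℂ) (X : XX j) : xl (l • X) = l * xl X := by
  unfold xl
  simp only [Prod.smul_fst, Prod.smul_snd, Pi.smul_apply, smul_eq_mul, ← Finset.mul_sum, mul_sub]

lemma DD_smul {j : ℕ} (l : ℂ) (X : XX j) :
    DD (l • X) = ((‖l‖ ^ 2)⁻¹) ^ (2 * j + 2) * DD X := by
  unfold DD
  rw [xl_smul]
  simp only [Prod.smul_fst, Prod.smul_snd, Pi.smul_apply, smul_eq_mul, norm_mul, mul_pow, mul_inv,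
    Finset.prod_mul_distrib, Finset.prod_const, Finset.card_univ, Fintype.card_fin]
  ring

lemma log_u0_smul {l ξ : ℂ} (hl : l ≠ 0) (hξ : ξ ≠ 0) :
    Real.log (u0 (l * ξ)) = Real.log (‖l‖ ^ 2) + Real.log (u0 ξ) := by
  unfold u0
  rw [norm_mul, mul_pow, Real.log_mul (by positivity) (by positivity)]

lemma SA_smul {j : ℕ} {l : ℂ} (hl : l ≠ 0) {X : XX j} (hX : DD X ≠ 0) :
    SA u0 (l • X) = SA u0 X + ((j : ℝ) + 1) * Real.log (‖l‖ ^ 2) := by
  obtain ⟨h1, h2, h3⟩ := DD_ne_zero hX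
  unfold SA
  simp only [Prod.smul_fst, Pi.smul_apply, smul_eq_mul]
  simp_rw [log_u0_smul hl (h1 _), Finset.sum_add_distrib]
  simp only [Finset.sum_const, Finset.card_univ, Fintype.card_fin, nsmul_eq_mul]
  push_cast
  ring

lemma SB_smul {j : ℕ} {l : ℂ} (hl : l ≠ 0) {X : XX j} (hX : DD X ≠ 0) :
    SB u0 (l • X) = SB u0 X + ((j : ℝ) + 1) * Real.log (‖l‖ ^ 2) := by
  obtain ⟨h1, h2, h3⟩ := DD_ne_zero hX
  unfold SB
  rw [xl_smul]
  simp only [Prod.smul_snd, Pi.smul_apply, smul_eq_mul]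
  simp_rw [log_u0_smul hl (h2 _), log_u0_smul hl h3, Finset.sum_add_distrib]
  simp only [Finset.sum_const, Finset.card_univ, Fintype.card_fin, nsmul_eq_mul]
  ring

/-- the first density -/
noncomputable def dA {j : ℕ} (ρ : Measure ℝ) (x : ℝ) (X : XX j) : ℝ≥0∞ :=
  ENNReal.ofReal (DD X * Real.exp (1 / ((j : ℝ) + 1) * SA u0 X)) *
    ∫⁻ s, (if LL u0 X ≤ s then ENNReal.ofReal (Real.exp (-(x * s))) else 0) ∂ρ

/-- the second density -/
noncomputable def dB {j : ℕ} (ρ : Measure ℝ) (x : ℝ) (X : XX j) : ℝ≥0∞ :=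
  ENNReal.ofReal (DD X * Real.exp (1 / ((j : ℝ) + 1) * SB u0 X)) *
    ∫⁻ s, (if LL u0 X ≤ s then 0 else ENNReal.ofReal (Real.exp (x * s))) ∂ρ

lemma meas_A {j : ℕ} (x : ℝ) : Measurable (fun q : XX j × ℝ =>
    (if LL u0 q.1 ≤ q.2 then ENNReal.ofReal (Real.exp (-(x * q.2))) else 0)) := by
  refine Measurable.ite (measurableSet_le ((measurable_LL measurable_u0).comp measurable_fst)
    measurable_snd) ?_ measurable_const
  fun_prop

lemma meas_B {j : ℕ} (x : ℝ) : Measurable (fun q : XX j × ℝ =>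
    (if LL u0 q.1 ≤ q.2 then 0 else ENNReal.ofReal (Real.exp (x * q.2)))) := by
  refine Measurable.ite (measurableSet_le ((measurable_LL measurable_u0).comp measurable_fst)
    measurable_snd) measurable_const ?_
  fun_prop

lemma measurable_dA {j : ℕ} (ρ : Measure ℝ) [SFinite ρ] (x : ℝ) :
    Measurable (fun X : XX j => dA ρ x X) := by
  unfold dA
  refine Measurable.mul ?_ (meas_A x).lintegral_prod_right'
  exact ENNReal.measurable_ofReal.comp (measurable_DD.mul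
    (Real.measurable_exp.comp ((measurable_SA measurable_u0).const_mul _)))

lemma measurable_dB {j : ℕ} (ρ : Measure ℝ) [SFinite ρ] (x : ℝ) :
    Measurable (fun X : XX j => dB ρ x X) := by
  unfold dB
  refine Measurable.mul ?_ (meas_B x).lintegral_prod_right'
  exact ENNReal.measurable_ofReal.comp (measurable_DD.mul
    (Real.measurable_exp.comp ((measurable_SB measurable_u0).const_mul _)))

lemma hom_core {j : ℕ} {l : ℂ} (hl : l ≠ 0) (D S : ℝ) :
    D * Real.exp (1 / ((j : ℝ) + 1) * S) = ‖l‖ ^ (2 * (2 * j + 1)) *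
      (((‖l‖ ^ 2)⁻¹) ^ (2 * j + 2) * D *
        Real.exp (1 / ((j : ℝ) + 1) * (S + ((j : ℝ) + 1) * Real.log (‖l‖ ^ 2)))) := by
  have hpos := norm_pos_iff.2 hl
  have h1 : 1 / ((j : ℝ) + 1) * (S + ((j : ℝ) + 1) * Real.log (‖l‖ ^ 2)) =
      1 / ((j : ℝ) + 1) * S + Real.log (‖l‖ ^ 2) := by
    field_simp
  rw [h1, Real.exp_add, Real.exp_log (by positivity), inv_pow, ← pow_mul]
  have h2 : ‖l‖ ^ (2 * (2 * j + 2)) = ‖l‖ ^ (2 * (2 * j + 1)) * ‖l‖ ^ 2 := by
    rw [← pow_add]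
    congr 1
  rw [h2]
  field_simp

lemma LL_smul {j : ℕ} {l : ℂ} (hl : l ≠ 0) {X : XX j} (hX : DD X ≠ 0) :
    LL u0 (l • X) = LL u0 X := by
  unfold LL
  rw [SA_smul hl hX, SB_smul hl hX]
  ring

lemma hom_A {j : ℕ} (ρ : Measure ℝ) (x : ℝ) {l : ℂ} (hl : l ≠ 0) (X : XX j) :
    dA ρ x X = ENNReal.ofReal (‖l‖ ^ (2 * (2 * j + 1))) * dA ρ x (l • X) := by
  by_cases hX : DD X = 0
  · have h2 : DD (l • X) = 0 := by rw [DD_smul, hX, mul_zero]
    unfold dA
    rw [hX, h2]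
    simp
  · unfold dA
    rw [LL_smul hl hX, SA_smul hl hX, DD_smul, hom_core (j := j) hl (DD X) (SA u0 X),
      ENNReal.ofReal_mul (by positivity), mul_assoc]

lemma hom_B {j : ℕ} (ρ : Measure ℝ) (x : ℝ) {l : ℂ} (hl : l ≠ 0) (X : XX j) :
    dB ρ x X = ENNReal.ofReal (‖l‖ ^ (2 * (2 * j + 1))) * dB ρ x (l • X) := by
  by_cases hX : DD X = 0
  · have h2 : DD (l • X) = 0 := by rw [DD_smul, hX, mul_zero]
    unfold dB
    rw [hX, h2]
    simp
  · unfold dB
    rw [LL_smul hl hX, SB_smul hl hX, DD_smul, hom_core (j := j) hl (DD X) (SB u0 X),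
      ENNReal.ofReal_mul (by positivity), mul_assoc]

/-- the marginals of a density vanishing with `DD` -/
lemma scl_use (hS : StmtSCL) {j : ℕ} {d : XX j → ℝ≥0∞} (hd : Measurable d)
    (hd0 : ∀ X, DD X = 0 → d X = 0)
    (hh : ∀ l : ℂ, l ≠ 0 → ∀ X, d X = ENNReal.ofReal (‖l‖ ^ (2 * (2 * j + 1))) * d (l • X))
    {ψ φ : ℂ → ℝ≥0∞} (hψ : Measurable ψ) (hφ : Measurable φ) (h1 : ∫⁻ ζ, φ ζ / ‖ζ‖ₑ ^ 2 = 1)
    {v : XX j → ℂ} (hv : Measurable v) (hvl : ∀ (l : ℂ) X, v (l • X) = l * v X)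
    (hv0 : ∀ X, DD X ≠ 0 → v X ≠ 0) :
    ∫⁻ X, d X * ψ (v X) = (∫⁻ X, d X * φ (X.1 0)) * ∫⁻ ζ, ψ ζ / ‖ζ‖ₑ ^ 2 := by
  have hv' : Measurable (fun X : XX j => X.1 0) := by fun_prop
  have := hS j (volume.withDensity d) inferInstance (fun l hl => map_inv hd hl (hh l hl)) v
    (fun X => X.1 0) hv hv' hvl (fun l X => rfl) ?_ ?_ ψ φ hψ hφ h1
  · have e1 : ∫⁻ X, ψ (v X) ∂(volume.withDensity d) = ∫⁻ X, d X * ψ (v X) :=
      lintegral_withDensity_eq_lintegral_mul _ hd (hψ.comp hv)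
    have e2 : ∫⁻ X, φ (X.1 0) ∂(volume.withDensity d) = ∫⁻ X, d X * φ (X.1 0) :=
      lintegral_withDensity_eq_lintegral_mul _ hd (hφ.comp hv')
    rwa [e1, e2] at this
  · rw [ae_withDensity_iff hd]
    refine Eventually.of_forall fun X hX => hv0 X fun h => hX (hd0 X h)
  · rw [ae_withDensity_iff hd]
    refine Eventually.of_forall fun X hX => ?_
    exact (DD_ne_zero fun h => hX (hd0 X h)).1 0

/-- the function of `StmtOm` -/
noncomputable def Omg (ρ : Measure ℝ) (x r : ℝ) : ℝ := ∫ s, Real.exp (-(x * |r - s|)) ∂ρ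

lemma Omg_int (ρ : Measure ℝ) [IsFiniteMeasure ρ] {x : ℝ} (hx : 0 ≤ x) (r : ℝ) :
    Integrable (fun s => Real.exp (-(x * |r - s|))) ρ := by
  refine Integrable.of_bound (C := 1) ?_ ?_
  · refine Measurable.aestronglyMeasurable ?_
    fun_prop
  · refine Eventually.of_forall fun s => ?_
    rw [Real.norm_eq_abs, abs_of_pos (Real.exp_pos _), Real.exp_le_one_iff]
    have := mul_nonneg hx (abs_nonneg (r - s))
    linarith

lemma Omg_lint (ρ : Measure ℝ) [IsFiniteMeasure ρ] {x : ℝ} (hx : 0 ≤ x) (r : ℝ) :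
    ENNReal.ofReal (Omg ρ x r) = ∫⁻ s, ENNReal.ofReal (Real.exp (-(x * |r - s|))) ∂ρ :=
  ofReal_integral_eq_lintegral_ofReal (Omg_int ρ hx r)
    (Eventually.of_forall fun _ => (Real.exp_pos _).le)

lemma Omg_nonneg (ρ : Measure ℝ) (x r : ℝ) : 0 ≤ Omg ρ x r :=
  integral_nonneg fun _ => (Real.exp_pos _).le

lemma Omg_le (ρ : Measure ℝ) [IsFiniteMeasure ρ] {x : ℝ} (hx : 0 ≤ x) (r : ℝ) :
    Omg ρ x r ≤ ρ.real Set.univ := by
  have h : Omg ρ x r ≤ ∫ _s : ℝ, (1 : ℝ) ∂ρ := by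
    refine integral_mono (Omg_int ρ hx r) (integrable_const _) fun s => ?_
    show Real.exp (-(x * |r - s|)) ≤ 1
    rw [Real.exp_le_one_iff]
    have := mul_nonneg hx (abs_nonneg (r - s))
    linarith
  simpa using h

lemma Omg_meas (ρ : Measure ℝ) [IsFiniteMeasure ρ] (x : ℝ) : Measurable (Omg ρ x) := by
  have h : StronglyMeasurable (fun q : ℝ × ℝ => Real.exp (-(x * |q.1 - q.2|))) := by
    refine Measurable.stronglyMeasurable ?_
    fun_prop
  exact h.integral_prod_right'.measurable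

lemma meas_A' {j : ℕ} (x : ℝ) (X : XX j) : Measurable (fun s : ℝ =>
    (if LL u0 X ≤ s then ENNReal.ofReal (Real.exp (-(x * s))) else 0)) := by
  refine Measurable.ite (measurableSet_le measurable_const measurable_id) ?_ measurable_const
  fun_prop

lemma meas_B' {j : ℕ} (x : ℝ) (X : XX j) : Measurable (fun s : ℝ =>
    (if LL u0 X ≤ s then 0 else ENNReal.ofReal (Real.exp (x * s)))) := by
  refine Measurable.ite (measurableSet_le measurable_const measurable_id) measurable_const ?_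
  fun_prop

/-- the two densities bound the expansion -/
lemma bound_int {j : ℕ} {u α : ℂ → ℝ} (hu : ∀ ξ, 0 ≤ u ξ) (hu' : ∀ ξ, u ξ ≠ 0 → ξ ≠ 0)
    (ρ : Measure ℝ) [IsFiniteMeasure ρ] {x : ℝ} (hx : x = 1 / (2 * ((j : ℝ) + 1))) (X : XX j) :
    ‖HH u α x X * (Omg ρ x (LL u X) : ℂ)‖ₑ ≤
      (ENNReal.ofReal (1 / ((j : ℝ) + 1)) * ∑ i, ENNReal.ofReal (VV u (X.1 i))) * dA ρ x X +
      (ENNReal.ofReal (1 / ((j : ℝ) + 1)) *
        (∑ i, ENNReal.ofReal (VV u (X.2 i)) + ENNReal.ofReal (VV u (xl X)))) * dB ρ x X := by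
  have hx0 : 0 < x := by rw [hx]; positivity
  have hV := VV_nonneg hu
  have hj : (0 : ℝ) ≤ 1 / ((j : ℝ) + 1) := by positivity
  have hDD := DD_nonneg X
  have e0 : ‖HH u α x X * (Omg ρ x (LL u X) : ℂ)‖ₑ =
      ∫⁻ s, ENNReal.ofReal (‖HH u α x X‖ * Real.exp (-(x * |LL u X - s|))) ∂ρ := by
    rw [enorm_mul, ← ofReal_norm, ← ofReal_norm, Complex.norm_real,
      Real.norm_eq_abs, abs_of_nonneg (Omg_nonneg _ _ _), Omg_lint ρ hx0.le, ← lintegral_const_mul]
    · simp_rw [ENNReal.ofReal_mul (norm_nonneg _)]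
    · fun_prop
  have e1 : ∀ s, ENNReal.ofReal (‖HH u α x X‖ * Real.exp (-(x * |LL u X - s|))) ≤
      (ENNReal.ofReal (1 / ((j : ℝ) + 1)) * ∑ i, ENNReal.ofReal (VV u (X.1 i))) *
        ENNReal.ofReal (DD X * Real.exp (1 / ((j : ℝ) + 1) * SA u0 X)) *
        (if LL u0 X ≤ s then ENNReal.ofReal (Real.exp (-(x * s))) else 0) +
      (ENNReal.ofReal (1 / ((j : ℝ) + 1)) *
        (∑ i, ENNReal.ofReal (VV u (X.2 i)) + ENNReal.ofReal (VV u (xl X)))) *
        ENNReal.ofReal (DD X * Real.exp (1 / ((j : ℝ) + 1) * SB u0 X)) *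
        (if LL u0 X ≤ s then 0 else ENNReal.ofReal (Real.exp (x * s))) := by
    intro s
    refine (ENNReal.ofReal_le_ofReal (ptw hu hu' hx X s)).trans ?_
    have hs1 : 0 ≤ ∑ i, VV u (X.1 i) := Finset.sum_nonneg fun i _ => hV _
    have hs2 : 0 ≤ ∑ i, VV u (X.2 i) := Finset.sum_nonneg fun i _ => hV _
    split_ifs with h
    · rw [ENNReal.ofReal_mul (by positivity), ENNReal.ofReal_mul (by positivity),
        ENNReal.ofReal_mul hj, ENNReal.ofReal_sum_of_nonneg (fun i _ => hV _)]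
      simp
    · rw [ENNReal.ofReal_mul (mul_nonneg (mul_nonneg hj (add_nonneg hs2 (hV _))) (by positivity)),
        ENNReal.ofReal_mul (mul_nonneg hj (add_nonneg hs2 (hV _))),
        ENNReal.ofReal_mul hj, ENNReal.ofReal_add hs2 (hV _),
        ENNReal.ofReal_sum_of_nonneg (fun i _ => hV _)]
      simp
  rw [e0]
  refine (lintegral_mono e1).trans (le_of_eq ?_)
  have m1 := meas_A' x X
  have m2 := meas_B' x X
  rw [lintegral_add_left (m1.const_mul _), lintegral_const_mul _ m1, lintegral_const_mul _ m2]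
  unfold dA dB
  ring

/-- the two densities add up to the reference -/
lemma dA_add_dB {j : ℕ} (ρ : Measure ℝ) [IsFiniteMeasure ρ] {x : ℝ}
    (hx : x = 1 / (2 * ((j : ℝ) + 1))) (X : XX j) :
    dA ρ x X + dB ρ x X = ENNReal.ofReal
      ((DD X * Real.exp (x * (SA u0 X + SB u0 X))) * Omg ρ x (LL u0 X)) := by
  have hx0 : 0 < x := by rw [hx]; positivity
  have hx2 : 2 * x = 1 / ((j : ℝ) + 1) := by
    rw [hx]; field_simp
  have hDD := DD_nonneg X
  have m1 := meas_A' x X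
  have m2 := meas_B' x X
  unfold dA dB
  have hR : ENNReal.ofReal ((DD X * Real.exp (x * (SA u0 X + SB u0 X))) * Omg ρ x (LL u0 X)) =
      ∫⁻ s, ENNReal.ofReal (DD X * Real.exp (x * (SA u0 X + SB u0 X))) *
        ENNReal.ofReal (Real.exp (-(x * |LL u0 X - s|))) ∂ρ := by
    rw [ENNReal.ofReal_mul (by positivity), Omg_lint ρ hx0.le, lintegral_const_mul]
    fun_prop
  rw [← lintegral_const_mul _ m1, ← lintegral_const_mul _ m2,
    ← lintegral_add_left (m1.const_mul _), hR]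
  refine lintegral_congr fun s => ?_
  split_ifs with h
  · rw [mul_zero, add_zero, ← ENNReal.ofReal_mul (by positivity),
      ← ENNReal.ofReal_mul (by positivity), mul_assoc, ← Real.exp_add, mul_assoc, ← Real.exp_add,
      abs_of_nonpos (sub_nonpos.2 h)]
    congr 3
    rw [← hx2]
    unfold LL
    ring
  · rw [mul_zero, zero_add, ← ENNReal.ofReal_mul (by positivity),
      ← ENNReal.ofReal_mul (by positivity), mul_assoc, ← Real.exp_add, mul_assoc, ← Real.exp_add,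
      abs_of_nonneg (sub_nonneg.2 (not_le.1 h).le)]
    congr 3
    rw [← hx2]
    unfold LL
    ring

lemma hz_u0_real (x : ℝ) (ξ : ℂ) : hz u0 0 x ξ = ((‖hz u0 0 x ξ‖ : ℝ) : ℂ) := by
  rw [norm_hz]
  unfold hz
  split_ifs with h
  · simp
  · simp [Complex.ofReal_exp]

lemma HH_u0_real {j : ℕ} (x : ℝ) (X : XX j) : HH u0 0 x X = ((‖HH u0 0 x X‖ : ℝ) : ℂ) := by
  have h : HH u0 0 x X = (∏ i, ((‖hz u0 0 x (X.1 i)‖ : ℝ) : ℂ)) *
      (∏ i, ((‖hz u0 0 x (X.2 i)‖ : ℝ) : ℂ)) * ((‖hz u0 0 x (xl X)‖ : ℝ) : ℂ) := by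
    unfold HH
    congr 1
    · congr 1
      · exact Finset.prod_congr rfl fun i _ => hz_u0_real x _
      · refine Finset.prod_congr rfl fun i _ => ?_
        rw [hz_u0_real x, Complex.conj_ofReal]
        simp
    · rw [hz_u0_real x, Complex.conj_ofReal]
      simp
  rw [h]
  simp [norm_prod]

lemma HH_u0 {j : ℕ} (x : ℝ) (X : XX j) :
    HH u0 0 x X = ((DD X * Real.exp (x * (SA u0 X + SB u0 X)) : ℝ) : ℂ) := by
  rw [HH_u0_real]
  congr 1
  by_cases h : DD X = 0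
  · rw [h, zero_mul]
    refine HH_zero u0 0 x X ?_
    rintro ⟨h1, h2, h3⟩
    refine absurd h ?_
    unfold DD
    refine mul_ne_zero (mul_ne_zero ?_ ?_) (inv_ne_zero h3)
    · exact Finset.prod_ne_zero_iff.2 fun i _ => inv_ne_zero (h1 i)
    · exact Finset.prod_ne_zero_iff.2 fun i _ => inv_ne_zero (h2 i)
  · obtain ⟨h1, h2, h3⟩ := DD_ne_zero h
    refine norm_HH u0 0 x X (fun i => ?_) (fun i => ?_) ?_
    · exact pow_ne_zero 2 (norm_ne_zero_iff.2 (h1 i))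
    · exact pow_ne_zero 2 (norm_ne_zero_iff.2 (h2 i))
    · exact pow_ne_zero 2 (norm_ne_zero_iff.2 h3)

lemma cpow_u0 {x : ℝ} (hx : x < 1) (y : ℝ) (ξ : ℂ) :
    (‖ξ‖ : ℂ) ^ (2 * ((x : ℂ) + Complex.I * y) - 2) = hz u0 0 (x + Complex.I * y) ξ := by
  unfold hz
  by_cases h : ξ = 0
  · rw [if_pos (by rw [h]; simp [u0]), h]
    simp only [norm_zero, Complex.ofReal_zero]
    rw [Complex.zero_cpow]
    intro h0
    have := congrArg Complex.re h0
    simp at this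
    linarith
  · have hp := norm_pos_iff.2 h
    have hu : u0 ξ ≠ 0 := pow_ne_zero 2 hp.ne'
    rw [if_neg hu, Complex.cpow_def_of_ne_zero (by exact_mod_cast hp.ne')]
    have e1 : (((‖ξ‖ ^ 2)⁻¹ : ℝ) : ℂ) = Complex.exp (-(2 * (Real.log ‖ξ‖ : ℂ))) := by
      rw [← Complex.ofReal_ofNat, ← Complex.ofReal_mul, ← Complex.ofReal_neg, ← Complex.ofReal_exp,
        Real.exp_neg, show (2 : ℝ) * Real.log ‖ξ‖ = Real.log (‖ξ‖ ^ 2) by rw [Real.log_pow]; simp,
        Real.exp_log (by positivity)]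
    have e2 : (Real.log (u0 ξ) : ℂ) = 2 * (Real.log ‖ξ‖ : ℂ) := by
      unfold u0
      rw [Real.log_pow]
      push_cast
      ring
    rw [e1, e2, ← Complex.exp_add, ← Complex.ofReal_log hp.le]
    congr 1
    simp only [Pi.zero_apply, Complex.ofReal_zero]
    ring

lemma cpow_u0' {x : ℝ} (hx : x < 1) (y : ℝ) (ξ : ℂ) :
    (‖ξ‖ : ℂ) ^ (2 * ((x : ℂ) - Complex.I * y) - 2) =
      starRingEnd ℂ (hz u0 0 (x + Complex.I * y) ξ) := by
  have h1 := cpow_u0 hx (-y) ξ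
  have h2 : (x : ℂ) + Complex.I * ((-y : ℝ) : ℂ) = (x : ℂ) - Complex.I * y := by
    push_cast; ring
  rw [h2] at h1
  rw [h1, conj_split, ← h2, hz_split]
  congr 1
  · rw [hz_u0_real, Complex.conj_ofReal]
  · congr 1
    push_cast
    ring

lemma div_enorm {a : ℝ} {ζ : ℂ} (h : ζ = 0 → a = 0) :
    ENNReal.ofReal a / ‖ζ‖ₑ ^ 2 = ENNReal.ofReal (a / ‖ζ‖ ^ 2) := by
  by_cases hζ : ζ = 0
  · rw [h hζ]; simp
  · have hp := norm_pos_iff.2 hζ
    rw [ENNReal.ofReal_div_of_pos (by positivity), ENNReal.ofReal_pow hp.le, ofReal_norm]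

/-- a test function -/
noncomputable def ph1 (ζ : ℂ) : ℝ := max 0 (1 - |‖ζ‖ - 2|)

lemma ph1_cont : Continuous ph1 := by
  unfold ph1
  fun_prop

lemma ph1_nonneg (ζ : ℂ) : 0 ≤ ph1 ζ := le_max_left _ _

lemma ph1_supp {ζ : ℂ} (h : ph1 ζ ≠ 0) : 1 < ‖ζ‖ ∧ ‖ζ‖ < 3 := by
  unfold ph1 at h
  have h1 : 0 < 1 - |‖ζ‖ - 2| := by
    by_contra h2
    exact h (max_eq_left (not_lt.1 h2))
  have h2 := abs_lt.1 (show |‖ζ‖ - 2| < 1 by linarith)
  constructor <;> linarith [h2.1, h2.2]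

lemma ph1_cs : HasCompactSupport ph1 := by
  refine HasCompactSupport.intro (isCompact_closedBall (0 : ℂ) 3) fun ξ hξ => ?_
  by_contra h
  exact hξ (mem_closedBall_zero_iff.2 (ph1_supp h).2.le)

lemma ph1_pos : 0 < ∫ ζ, ph1 ζ := by
  refine ph1_cont.integral_pos_of_hasCompactSupport_nonneg_nonzero ph1_cs ph1_nonneg (x := 2) ?_
  unfold ph1
  simp

/-- the normalised test function -/
noncomputable def ph (ζ : ℂ) : ℝ := ‖ζ‖ ^ 2 * (ph1 ζ / ∫ ζ, ph1 ζ)

lemma ph_cont : Continuous ph := by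
  have := ph1_cont
  unfold ph
  fun_prop

lemma ph_nonneg (ζ : ℂ) : 0 ≤ ph ζ := by
  have h1 := ph1_nonneg ζ
  have h2 := ph1_pos.le
  unfold ph
  positivity

lemma ph_supp {ζ : ℂ} (h : ph ζ ≠ 0) : 1 < ‖ζ‖ ∧ ‖ζ‖ < 3 := by
  refine ph1_supp fun h0 => h ?_
  unfold ph
  rw [h0]; simp

lemma ph_cs : HasCompactSupport ph := by
  refine HasCompactSupport.intro (isCompact_closedBall (0 : ℂ) 3) fun ξ hξ => ?_
  by_contra h
  exact hξ (mem_closedBall_zero_iff.2 (ph_supp h).2.le)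

lemma ph_zero : ∀ᶠ ζ in 𝓝 (0 : ℂ), ph ζ = 0 := by
  filter_upwards [Metric.ball_mem_nhds (0 : ℂ) one_pos] with ζ hζ
  by_contra h
  rw [mem_ball_zero_iff] at hζ
  linarith [(ph_supp h).1]

lemma ph_div (ζ : ℂ) : ph ζ / ‖ζ‖ ^ 2 = ph1 ζ / ∫ ζ, ph1 ζ := by
  by_cases h : ζ = 0
  · have : ph1 ζ = 0 := by
      by_contra h1
      have := (ph1_supp h1).1
      rw [h] at this
      simp at this
      linarith
    unfold ph
    rw [this]; simp
  · have hp := norm_pos_iff.2 h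
    unfold ph
    field_simp

lemma ph_int : ∫ ζ, ph ζ / ‖ζ‖ ^ 2 = 1 := by
  simp_rw [ph_div]
  rw [integral_div, div_self ph1_pos.ne']

lemma ph_lint : ∫⁻ ζ : ℂ, ENNReal.ofReal (ph ζ) / ‖ζ‖ₑ ^ 2 = 1 := by
  have h : ∀ ζ : ℂ, ENNReal.ofReal (ph ζ) / ‖ζ‖ₑ ^ 2 = ENNReal.ofReal (ph1 ζ / ∫ ζ, ph1 ζ) := by
    intro ζ
    rw [div_enorm, ph_div]
    intro h
    unfold ph
    rw [h]; simp
  simp_rw [h]
  rw [← ofReal_integral_eq_lintegral_ofReal, integral_div, div_self ph1_pos.ne',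
    ENNReal.ofReal_one]
  · exact (ph1_cont.integrable_of_hasCompactSupport ph1_cs).div_const _
  · exact Eventually.of_forall fun ζ => div_nonneg (ph1_nonneg ζ) ph1_pos.le

lemma cz_ne {x : ℝ} (hx0 : 0 < x) (hx1 : x < 1) (y : ℝ) : cz (x + Complex.I * y) ≠ 0 := by
  unfold cz
  refine div_ne_zero (mul_ne_zero ?_ ?_) ?_
  · rw [Complex.cpow_def_of_ne_zero (by exact_mod_cast Real.pi_ne_zero)]
    exact Complex.exp_ne_zero _
  · exact Complex.Gamma_ne_zero_of_re_pos (by simpa using hx0)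
  · exact Complex.Gamma_ne_zero_of_re_pos (by simpa using hx1)

/-- the reference computation -/
lemma K_sum (hR : StmtRef) (hP : StmtPoi) {j : ℕ} {w t : ℝ} (hw : 0 < w) (ht0 : 0 < t)
    (ht1 : t < 1) (ρ : Measure ℝ) [IsFiniteMeasure ρ] {x : ℝ} (hx : x = 1 / (2 * ((j : ℝ) + 1)))
    (hWi : Integrable (fun y : ℝ => pk w t y / ‖cz (x + Complex.I * y)‖ ^ (2 * (j + 1))))
    (hOm : ∀ r : ℝ, ∫ y : ℝ, ((pk w t y / ‖cz (x + Complex.I * y)‖ ^ (2 * (j + 1)) : ℝ) : ℂ) *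
      Complex.exp (Complex.I * (y * r : ℝ)) = (Omg ρ x r : ℂ)) :
    (∫⁻ X : XX j, dA ρ x X * ENNReal.ofReal (ph (X.1 0))) +
      ∫⁻ X : XX j, dB ρ x X * ENNReal.ofReal (ph (X.1 0)) = ENNReal.ofReal t := by
  have hx0 : 0 < x := by rw [hx]; positivity
  have hx1 : x < 1 := by
    rw [hx, div_lt_one (by positivity)]
    have : (0 : ℝ) ≤ j := Nat.cast_nonneg j
    linarith
  have hxC : 1 / (2 * ((j : ℂ) + 1)) = (x : ℂ) := by
    rw [hx]; push_cast; ring
  have key : ∀ y : ℝ, Integrable (fun X : XX j => ((ph (X.1 0) : ℝ) : ℂ) *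
      HH u0 0 (x + Complex.I * y) X) ∧
      ∫ X : XX j, ((ph (X.1 0) : ℝ) : ℂ) * HH u0 0 (x + Complex.I * y) X =
        ((‖cz (x + Complex.I * y)‖ ^ (2 * (j + 1)) : ℝ) : ℂ) := by
    intro y
    have h := hR j y ph ph_cont ph_cs ph_zero
    rw [hxC] at h
    simp only [cpow_u0 hx1, cpow_u0' hx1, ph_int, mul_one, mul_assoc] at h
    simp only [HH, mul_assoc]
    exact h
  have key0 : Integrable (fun X : XX j => ((ph (X.1 0) : ℝ) : ℂ) * HH u0 0 x X) := by
    have := (key 0).1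
    simpa using this
  obtain ⟨-, hfub⟩ := fub hWi hOm key0 (measurable_LL measurable_u0)
  have e1 : ∀ y : ℝ, ((pk w t y / ‖cz (x + Complex.I * y)‖ ^ (2 * (j + 1)) : ℝ) : ℂ) *
      ∫ X : XX j, ((ph (X.1 0) : ℝ) : ℂ) * HH u0 0 x X *
        Complex.exp (Complex.I * (y * LL u0 X : ℝ)) = ((pk w t y : ℝ) : ℂ) := by
    intro y
    have e2 : ∫ X : XX j, ((ph (X.1 0) : ℝ) : ℂ) * HH u0 0 x X *
        Complex.exp (Complex.I * (y * LL u0 X : ℝ)) =
        ((‖cz (x + Complex.I * y)‖ ^ (2 * (j + 1)) : ℝ) : ℂ) := by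
      rw [← (key y).2]
      refine integral_congr_ae (Eventually.of_forall fun X => ?_)
      show ((ph (X.1 0) : ℝ) : ℂ) * HH u0 0 x X * Complex.exp (Complex.I * (y * LL u0 X : ℝ)) =
        ((ph (X.1 0) : ℝ) : ℂ) * HH u0 0 (x + Complex.I * y) X
      rw [HH_split, mul_assoc]
    rw [e2, ← Complex.ofReal_mul, div_mul_cancel₀]
    exact pow_ne_zero _ (norm_ne_zero_iff.2 (cz_ne hx0 hx1 y))
  simp_rw [e1] at hfub
  rw [integral_complex_ofReal, (hP.1 w t hw ht0 ht1).2.2] at hfub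
  have hG : ∀ X : XX j, ((ph (X.1 0) : ℝ) : ℂ) * HH u0 0 x X * (Omg ρ x (LL u0 X) : ℂ) =
      ((ph (X.1 0) * ((DD X * Real.exp (x * (SA u0 X + SB u0 X))) * Omg ρ x (LL u0 X)) : ℝ) : ℂ) := by
    intro X
    rw [HH_u0]
    push_cast
    ring
  have hint : Integrable (fun X : XX j =>
      ph (X.1 0) * ((DD X * Real.exp (x * (SA u0 X + SB u0 X))) * Omg ρ x (LL u0 X))) := by
    have h1 : Integrable (fun X : XX j => ((ph (X.1 0) : ℝ) : ℂ) * HH u0 0 x X *
        (Omg ρ x (LL u0 X) : ℂ)) := by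
      refine Integrable.mul_bdd (c := ρ.real Set.univ) key0 ?_ ?_
      · exact (Complex.measurable_ofReal.comp ((Omg_meas ρ x).comp
          (measurable_LL measurable_u0))).aestronglyMeasurable
      · refine Eventually.of_forall fun X => ?_
        rw [Complex.norm_real, Real.norm_eq_abs, abs_of_nonneg (Omg_nonneg _ _ _)]
        exact Omg_le ρ hx0.le _
    simp_rw [hG] at h1
    exact h1.re
  simp_rw [hG] at hfub
  rw [integral_complex_ofReal] at hfub
  have hfub' := Complex.ofReal_injective hfub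
  have hmp : Measurable (fun X : XX j => ENNReal.ofReal (ph (X.1 0))) := by
    refine ENNReal.measurable_ofReal.comp (ph_cont.measurable.comp ?_)
    fun_prop
  have hmp' : Measurable (fun X : XX j => dA ρ x X * ENNReal.ofReal (ph (X.1 0))) :=
    (measurable_dA ρ x).mul hmp
  rw [← lintegral_add_left hmp', hfub', ofReal_integral_eq_lintegral_ofReal hint]
  · refine lintegral_congr fun X => ?_
    rw [← add_mul, dA_add_dB ρ hx, mul_comm, ← ENNReal.ofReal_mul (ph_nonneg _)]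
  · refine Eventually.of_forall fun X => ?_
    have h1 := ph_nonneg (X.1 0)
    have h2 := DD_nonneg X
    have h3 := Omg_nonneg ρ x (LL u0 X)
    positivity

lemma VV_lint {u α : ℂ → ℝ} (hN : Nice u α) :
    ∫⁻ ζ : ℂ, ENNReal.ofReal (VV u ζ) / ‖ζ‖ₑ ^ 2 = ENNReal.ofReal (∫ ξ, u ξ / ‖ξ‖ ^ 4) := by
  obtain ⟨M, hM1, hM⟩ := nice_bdd hN
  obtain ⟨hu, hu0, ⟨r, R, hr, hrR⟩, hα⟩ := hN
  have e1 : ∀ ζ : ℂ, ENNReal.ofReal (VV u ζ) / ‖ζ‖ₑ ^ 2 = ENNReal.ofReal (u ζ / ‖ζ‖ ^ 4) := by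
    intro ζ
    rw [div_enorm]
    · congr 1
      unfold VV
      rw [div_div, ← pow_add]
    · intro h
      unfold VV
      rw [h]; simp
  simp_rw [e1]
  rw [ofReal_integral_eq_lintegral_ofReal]
  · have h1 : IntegrableOn (fun ξ : ℂ => u ξ / ‖ξ‖ ^ 4) (Metric.closedBall 0 R) := by
      refine Measure.integrableOn_of_bounded (M := M / r ^ 4)
        (measure_closedBall_lt_top (x := (0 : ℂ)) (r := R)).ne ?_ ?_
      · refine Measurable.aestronglyMeasurable ?_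
        have := hu.measurable
        fun_prop
      · refine Eventually.of_forall fun ξ => ?_
        rw [Real.norm_eq_abs, abs_of_nonneg (div_nonneg (hu0 ξ) (by positivity))]
        by_cases h : u ξ = 0
        · rw [h, zero_div]; positivity
        · have h2 := (hrR ξ h).1
          have h3 : r ^ 4 ≤ ‖ξ‖ ^ 4 := pow_le_pow_left₀ hr.le h2 4
          exact div_le_div₀ (by linarith) (hM ξ) (by positivity) h3
    refine (integrableOn_iff_integrable_of_support_subset fun ξ hξ => ?_).1 h1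
    rw [Function.mem_support] at hξ
    rw [mem_closedBall_zero_iff]
    refine (hrR ξ fun h => hξ ?_).2
    rw [h, zero_div]
  · exact Eventually.of_forall fun ξ => div_nonneg (hu0 ξ) (by positivity)

/-- the energy against the weight -/
lemma energy (hE : StmtExp) {j : ℕ} {W : ℝ → ℝ} (hW : Integrable W) (hW0 : ∀ y, 0 ≤ W y)
    {u α : ℂ → ℝ} (hN : Nice u α) {x : ℝ} (hx : 0 ≤ x) {Ω : ℝ → ℝ}
    (hΩ : ∀ r : ℝ, ∫ y : ℝ, ((W y : ℝ) : ℂ) * Complex.exp (Complex.I * (y * r : ℝ)) = (Ω r : ℂ)) :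
    ∫⁻ y : ℝ, ENNReal.ofReal (W y) * ∫⁻ x' : ℂ,
      ‖iF (hz u α (x + Complex.I * y)) x'‖ₑ ^ (2 * (j + 1)) ≤
    ∫⁻ X : XX j, ‖HH u α x X * (Ω (LL u X) : ℂ)‖ₑ := by
  have hEy := fun y : ℝ => hE j (hz u α (x + Complex.I * y)) (hz_meas hN _) (hz_bdd hN x y hx)
    (hz_cs hN _)
  set E : ℝ → ℝ := fun y => ∫ x', ‖iF (hz u α (x + Complex.I * y)) x'‖ ^ (2 * (j + 1)) with hEdef
  have hE0 : ∀ y, 0 ≤ E y := fun y => integral_nonneg fun x' => by positivity
  have e1 : ∀ y : ℝ, ∫⁻ x' : ℂ, ‖iF (hz u α (x + Complex.I * y)) x'‖ₑ ^ (2 * (j + 1)) =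
      ENNReal.ofReal (E y) := by
    intro y
    rw [hEdef]
    simp only
    rw [ofReal_integral_eq_lintegral_ofReal (hEy y).2.1
      (Eventually.of_forall fun x' => by positivity)]
    refine lintegral_congr fun x' => ?_
    rw [ENNReal.ofReal_pow (norm_nonneg _), ofReal_norm]
  have e2 : ∀ y : ℝ, ((E y : ℝ) : ℂ) = ∫ X : XX j, HH u α x X *
      Complex.exp (Complex.I * (y * LL u X : ℝ)) := by
    intro y
    rw [hEdef]
    simp only
    rw [(hEy y).2.2]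
    refine integral_congr_ae (Eventually.of_forall fun X => ?_)
    exact HH_split u α x y X
  have hF : Integrable (fun X : XX j => HH u α x X) := by
    have := (hEy 0).1
    simp only [Complex.ofReal_zero, mul_zero, add_zero] at this
    exact this
  obtain ⟨f1, f2⟩ := fub hW hΩ hF (measurable_LL hN.1.measurable)
  simp_rw [← e2, ← Complex.ofReal_mul] at f1 f2
  have f3 : Integrable (fun y => W y * E y) := by simpa using f1.re
  simp_rw [e1, ← ENNReal.ofReal_mul (hW0 _)]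
  rw [← ofReal_integral_eq_lintegral_ofReal f3
    (Eventually.of_forall fun y => mul_nonneg (hW0 y) (hE0 y))]
  have g1 : ENNReal.ofReal (∫ y, W y * E y) ≤ ‖((∫ y, W y * E y : ℝ) : ℂ)‖ₑ := by
    rw [← ofReal_norm, Complex.norm_real]
    exact ENNReal.ofReal_le_ofReal (Real.le_norm_self _)
  refine g1.trans ?_
  rw [← integral_complex_ofReal, f2]
  exact enorm_integral_le_lintegral_enorm _

end AVhAux

open AVhAux

theorem avh (hO : StmtOm) (hE : StmtExp) (hR : StmtRef) (hS : StmtSCL) (hP : StmtPoi) :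
    StmtAVh := by
  intro k w t hk hw ht0 ht1 hPD u α hN
  obtain ⟨j, rfl⟩ : ∃ j, k = j + 1 := ⟨k - 1, by omega⟩
  obtain ⟨ρ, hρ, hWi, hOm⟩ := hO (j + 1) w t (by omega) hw ht0 ht1 hPD
  obtain ⟨x, hx⟩ : ∃ x : ℝ, x = 1 / (2 * ((j : ℝ) + 1)) := ⟨_, rfl⟩
  have hx0 : 0 < x := by rw [hx]; positivity
  have hxC : 1 / (2 * ((j + 1 : ℕ) : ℂ)) = (x : ℂ) := by
    rw [hx]; push_cast; ring
  rw [hxC]
  simp only [hxC] at hWi hOm
  have hOm' : ∀ r : ℝ, ∫ y : ℝ,
      ((pk w t y / ‖cz (x + Complex.I * y)‖ ^ (2 * (j + 1)) : ℝ) : ℂ) *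
      Complex.exp (Complex.I * (y * r : ℝ)) = (Omg ρ x r : ℂ) := by
    intro r
    rw [hOm r]
    congr 1
    unfold Omg
    refine integral_congr_ae (Eventually.of_forall fun s => ?_)
    show Real.exp (-(|r - s| / (2 * ((j + 1 : ℕ) : ℝ)))) = Real.exp (-(x * |r - s|))
    rw [hx]
    congr 2
    push_cast
    ring
  have hW0 : ∀ y : ℝ, 0 ≤ pk w t y / ‖cz (x + Complex.I * y)‖ ^ (2 * (j + 1)) := fun y =>
    div_nonneg ((hP.1 w t hw ht0 ht1).1 y).le (by positivity)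
  refine (energy hE hWi hW0 hN hx0.le hOm').trans ?_
  have hu0 := hN.2.1
  have hu' : ∀ ξ, u ξ ≠ 0 → ξ ≠ 0 := by
    obtain ⟨-, -, ⟨r, R, hr, hrR⟩, -⟩ := hN
    intro ξ h h0
    have := (hrR ξ h).1
    rw [h0, norm_zero] at this
    linarith
  refine (lintegral_mono fun X => bound_int hu0 hu' ρ hx X).trans ?_
  -- the measurability of the pieces
  have hVm : Measurable (fun ξ => ENNReal.ofReal (VV u ξ)) := by
    have := hN.1.measurable
    unfold VV
    fun_prop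
  have hm1 : ∀ i, Measurable (fun X : XX j => ENNReal.ofReal (VV u (X.1 i))) := fun i =>
    hVm.comp (by fun_prop)
  have hm2 : ∀ i, Measurable (fun X : XX j => ENNReal.ofReal (VV u (X.2 i))) := fun i =>
    hVm.comp (by fun_prop)
  have hm3 : Measurable (fun X : XX j => ENNReal.ofReal (VV u (xl X))) := hVm.comp measurable_xl
  have hdA := measurable_dA (j := j) ρ x
  have hdB := measurable_dB (j := j) ρ x
  have hA0 : ∀ X : XX j, DD X = 0 → dA ρ x X = 0 := by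
    intro X h; unfold dA; rw [h]; simp
  have hB0 : ∀ X : XX j, DD X = 0 → dB ρ x X = 0 := by
    intro X h; unfold dB; rw [h]; simp
  have hφ : Measurable (fun ζ => ENNReal.ofReal (ph ζ)) :=
    ENNReal.measurable_ofReal.comp ph_cont.measurable
  set KA : ℝ≥0∞ := ∫⁻ X : XX j, dA ρ x X * ENNReal.ofReal (ph (X.1 0)) with hKA
  set KB : ℝ≥0∞ := ∫⁻ X : XX j, dB ρ x X * ENNReal.ofReal (ph (X.1 0)) with hKB
  set T : ℝ≥0∞ := ENNReal.ofReal (∫ ξ, u ξ / ‖ξ‖ ^ 4) with hT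
  have hVl := VV_lint hN
  have sA : ∀ i, ∫⁻ X : XX j, dA ρ x X * ENNReal.ofReal (VV u (X.1 i)) = KA * T := by
    intro i
    have := scl_use hS hdA hA0 (fun l hl X => hom_A ρ x hl X) hVm hφ ph_lint
      (v := fun X => X.1 i) (by fun_prop) (fun l X => rfl) (fun X hX => (DD_ne_zero hX).1 i)
    rwa [hVl] at this
  have sB : ∀ i, ∫⁻ X : XX j, dB ρ x X * ENNReal.ofReal (VV u (X.2 i)) = KB * T := by
    intro i
    have := scl_use hS hdB hB0 (fun l hl X => hom_B ρ x hl X) hVm hφ ph_lint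
      (v := fun X => X.2 i) (by fun_prop) (fun l X => rfl) (fun X hX => (DD_ne_zero hX).2.1 i)
    rwa [hVl] at this
  have sC : ∫⁻ X : XX j, dB ρ x X * ENNReal.ofReal (VV u (xl X)) = KB * T := by
    have := scl_use hS hdB hB0 (fun l hl X => hom_B ρ x hl X) hVm hφ ph_lint
      (v := fun X => xl X) measurable_xl xl_smul (fun X hX => (DD_ne_zero hX).2.2)
    rwa [hVl] at this
  have hK := K_sum hR hP hw ht0 ht1 ρ hx hWi hOm'
  have c1 : ENNReal.ofReal (1 / ((j : ℝ) + 1)) * ((j : ℝ≥0∞) + 1) = 1 := by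
    rw [show ((j : ℝ≥0∞) + 1) = ENNReal.ofReal ((j : ℝ) + 1) by
      rw [ENNReal.ofReal_add (by positivity) zero_le_one, ENNReal.ofReal_one,
        ENNReal.ofReal_natCast], ← ENNReal.ofReal_mul (by positivity)]
    have : 1 / ((j : ℝ) + 1) * ((j : ℝ) + 1) = 1 := by field_simp
    rw [this, ENNReal.ofReal_one]
  have r1 : ∀ X : XX j, (ENNReal.ofReal (1 / ((j : ℝ) + 1)) *
      ∑ i, ENNReal.ofReal (VV u (X.1 i))) * dA ρ x X =
      ENNReal.ofReal (1 / ((j : ℝ) + 1)) * ∑ i, dA ρ x X * ENNReal.ofReal (VV u (X.1 i)) := by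
    intro X
    rw [← Finset.mul_sum]; ring
  have r2 : ∀ X : XX j, (ENNReal.ofReal (1 / ((j : ℝ) + 1)) *
      (∑ i, ENNReal.ofReal (VV u (X.2 i)) + ENNReal.ofReal (VV u (xl X)))) * dB ρ x X =
      ENNReal.ofReal (1 / ((j : ℝ) + 1)) * (∑ i, dB ρ x X * ENNReal.ofReal (VV u (X.2 i)) +
        dB ρ x X * ENNReal.ofReal (VV u (xl X))) := by
    intro X
    rw [← Finset.mul_sum]; ring
  simp_rw [r1, r2]
  have q1 : ∀ i, Measurable (fun X : XX j => dA ρ x X * ENNReal.ofReal (VV u (X.1 i))) :=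
    fun i => hdA.mul (hm1 i)
  have q2 : ∀ i, Measurable (fun X : XX j => dB ρ x X * ENNReal.ofReal (VV u (X.2 i))) :=
    fun i => hdB.mul (hm2 i)
  have q3 : Measurable (fun X : XX j => dB ρ x X * ENNReal.ofReal (VV u (xl X))) := hdB.mul hm3
  have q4 : Measurable (fun X : XX j => ∑ i, dA ρ x X * ENNReal.ofReal (VV u (X.1 i))) :=
    Finset.measurable_sum _ fun i _ => q1 i
  have q5 : Measurable (fun X : XX j => ∑ i, dB ρ x X * ENNReal.ofReal (VV u (X.2 i))) :=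
    Finset.measurable_sum _ fun i _ => q2 i
  have q6 : Measurable (fun X : XX j => ∑ i, dB ρ x X * ENNReal.ofReal (VV u (X.2 i)) +
      dB ρ x X * ENNReal.ofReal (VV u (xl X))) := q5.add q3
  rw [lintegral_add_left (q4.const_mul _), lintegral_const_mul _ q4, lintegral_const_mul _ q6,
    lintegral_add_left q5, lintegral_finsetSum _ (fun i _ => q1 i),
    lintegral_finsetSum _ (fun i _ => q2 i)]
  simp_rw [sA, sB, sC]
  rw [Finset.sum_const, Finset.sum_const, Finset.card_univ, Finset.card_univ, Fintype.card_fin,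
    Fintype.card_fin, nsmul_eq_mul, nsmul_eq_mul]
  have fin : ENNReal.ofReal (1 / ((j : ℝ) + 1)) * (((j + 1 : ℕ) : ℝ≥0∞) * (KA * T)) +
      ENNReal.ofReal (1 / ((j : ℝ) + 1)) * ((j : ℝ≥0∞) * (KB * T) + KB * T) =
      (ENNReal.ofReal (1 / ((j : ℝ) + 1)) * ((j : ℝ≥0∞) + 1)) * ((KA + KB) * T) := by
    push_cast
    ring
  rw [fin, c1, one_mul, hK, hT, one_mul, ← ENNReal.ofReal_mul ht0.le]

end Pool.Agent.Lib.MP_dd244f_an.Rp
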