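import Pool.Agent.Lib.MP_dd244f_an.Rp.Stmts
import Pool.Agent.Lib.MP_dd244f_an.Four.L2

/-!
Full operator, all real `p`: module AprR (the a priori bound for real exponents `p ≥ 2`).
-/

set_option autoImplicit false

namespace Pool.Agent.Lib.MP_dd244f_an.Rp

open MeasureTheory Filter Topology FourierTransform
open Pool.Agent.Lib.MP_dd244f_an.Joint (ratio)
open Pool.Agent.Lib.MP_dd244f_an.Four
open Pool.Agent.Lib.MP_dd244f_an.Unif (SC)
open scoped SchwartzMap ENNReal NNReal ContDiff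

namespace AprRaux

/-- the bound for smooth functions with compact support on the Fourier side -/
theorem apr_smooth {n : ℕ} {C p : ℝ≥0∞} (h : ∀ f : 𝓢(ℂ, ℂ), eLpNorm (Tn n f) p volume ≤
    C * eLpNorm f p volume) {G : ℂ → ℂ} (hG : SC G) :
    eLpNorm (iF (mg n G)) p volume ≤ C * eLpNorm (iF G) p volume := by
  set S : 𝓢(ℂ, ℂ) := hG.2.toSchwartzMap hG.1 with hS
  have hSG : (S : ℂ → ℂ) = G := rfl
  have h1 := h (𝓕⁻ S)
  have e1 : ((𝓕⁻ S : 𝓢(ℂ, ℂ)) : ℂ → ℂ) = iF G := by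
    ext x
    rw [SchwartzMap.fourierInv_coe, hSG, iF_eq_inv]
  have e2 : Tn n ((𝓕⁻ S : 𝓢(ℂ, ℂ)) : ℂ → ℂ) = iF (mg n G) := by
    have e3 : (fun ξ : ℂ => (starRingEnd ℂ ξ / ξ) ^ n * 𝓕 ((𝓕⁻ S : 𝓢(ℂ, ℂ)) : ℂ → ℂ) ξ)
        = mg n G := by
      funext ξ
      rw [← SchwartzMap.fourier_coe]
      simp only [FourierTransform.fourier_fourierInv_eq]
      rfl
    ext x
    rw [Tn_eq, iF_eq_inv, e3]
  rw [e2, e1] at h1
  exact h1

theorem np_nonneg (p : ℝ) (g : ℂ → ℂ) : 0 ≤ Np p g :=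
  integral_nonneg fun _ => Real.rpow_nonneg (norm_nonneg _) _

theorem np_eq (hS : StmtSch) {g : ℂ → ℂ} (hg : SC g) {p : ℝ} (hp : 2 ≤ p) :
    ENNReal.ofReal (Np p g) = eLpNorm (iF g) (ENNReal.ofReal p) volume ^ p := by
  have hp0 : 0 < p := by linarith
  have h0 : ENNReal.ofReal p ≠ 0 := by simpa using hp0
  rw [eLpNorm_eq_lintegral_rpow_enorm_toReal h0 ENNReal.ofReal_ne_top,
    ENNReal.toReal_ofReal hp0.le, ← ENNReal.rpow_mul, one_div_mul_cancel hp0.ne',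
    ENNReal.rpow_one]
  unfold Np
  rw [ofReal_integral_eq_lintegral_ofReal (hS.2.2.2.2.1 g p (by linarith) hg)
    (Eventually.of_forall fun x => Real.rpow_nonneg (norm_nonneg _) _)]
  congr 1
  ext x
  rw [← ENNReal.ofReal_rpow_of_nonneg (norm_nonneg _) hp0.le, ofReal_norm]

end AprRaux

open AprRaux

/-- (AprR) the a priori bound -/
theorem aprR (hJ : Joint.StmtFinal2) (hR : StmtRatiop) (hS : StmtSch) : StmtAprR := by
  intro p hp
  have hp0 : 0 < p := by linarith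
  obtain ⟨n₀, hn₀⟩ := hJ
  have hgam : ∀ᶠ n : ℕ in atTop, ratio n p ^ p / (n : ℝ) ^ (p - 2) ≤ gamp p ^ p + 1 :=
    (hR p hp).eventually_le_const (by linarith)
  obtain ⟨n₁, hn₁⟩ := eventually_atTop.1 hgam
  set B : ℝ := max 1 ((6 / 5 : ℝ) ^ p * (gamp p ^ p + 1)) with hB
  have hB1 : 1 ≤ B := le_max_left _ _
  refine ⟨B, max (max n₀ n₁) 1, hB1, le_max_right _ _, fun n hn g hg hg0 => ?_⟩
  have hn0 : n₀ ≤ n := (le_max_left _ _).trans ((le_max_left _ _).trans hn)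
  have hn1 : n₁ ≤ n := (le_max_right _ _).trans ((le_max_left _ _).trans hn)
  have hn2 : 1 ≤ n := (le_max_right _ _).trans hn
  have hnpos : (0 : ℝ) < n := by exact_mod_cast hn2
  have hnp : 0 < (n : ℝ) ^ (p - 2) := Real.rpow_pos_of_pos hnpos _
  have hr : ratio n p ^ p ≤ (gamp p ^ p + 1) * (n : ℝ) ^ (p - 2) := by
    have h1 := hn₁ n hn1
    rwa [div_le_iff₀ hnp] at h1
  have hmg : SC (mg n g) := ((hS.2.2.2.2.2 g hg).2.2.2.2.2.2.2.2 n hn2 hg0).1
  have h5 := apr_smooth (hn₀ n hn0 p hp) hg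
  have hN0 : 0 ≤ Np p g := np_nonneg p g
  have hBn : 0 ≤ B * (n : ℝ) ^ (p - 2) := by positivity
  have h7 : ENNReal.ofReal (6 / 5 * ratio n p) ^ p ≤ ENNReal.ofReal (B * (n : ℝ) ^ (p - 2)) := by
    rcases le_or_gt 0 (ratio n p) with h8 | h8
    · rw [ENNReal.ofReal_rpow_of_nonneg (by positivity) hp0.le]
      refine ENNReal.ofReal_le_ofReal ?_
      rw [Real.mul_rpow (by norm_num) h8]
      calc (6 / 5 : ℝ) ^ p * ratio n p ^ p
          ≤ (6 / 5 : ℝ) ^ p * ((gamp p ^ p + 1) * (n : ℝ) ^ (p - 2)) := by gcongr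
        _ = (6 / 5 : ℝ) ^ p * (gamp p ^ p + 1) * (n : ℝ) ^ (p - 2) := by ring
        _ ≤ B * (n : ℝ) ^ (p - 2) := by
            gcongr
            exact le_max_right _ _
    · rw [ENNReal.ofReal_of_nonpos (by nlinarith), ENNReal.zero_rpow_of_pos hp0]
      exact bot_le
  have h6 : ENNReal.ofReal (Np p (mg n g)) ≤
      ENNReal.ofReal (B * (n : ℝ) ^ (p - 2) * Np p g) := by
    rw [np_eq hS hmg hp, ENNReal.ofReal_mul hBn, np_eq hS hg hp]
    calc eLpNorm (iF (mg n g)) (ENNReal.ofReal p) volume ^ p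
        ≤ (ENNReal.ofReal (6 / 5 * ratio n p) * eLpNorm (iF g) (ENNReal.ofReal p) volume) ^ p :=
          ENNReal.rpow_le_rpow h5 hp0.le
      _ = ENNReal.ofReal (6 / 5 * ratio n p) ^ p *
            eLpNorm (iF g) (ENNReal.ofReal p) volume ^ p :=
          ENNReal.mul_rpow_of_nonneg _ _ hp0.le
      _ ≤ _ := by gcongr
  exact (ENNReal.ofReal_le_ofReal_iff (mul_nonneg hBn hN0)).1 h6

end Pool.Agent.Lib.MP_dd244f_an.Rp
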