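import Pool.Agent.Lib.MP_dd244f_an.Rp.Stmts
import Pool.Agent.Lib.MP_dd244f_an.Even.Dens
import Pool.Agent.Lib.MP_dd244f_an.Even.QInt

/-!
Full operator, all real `p`: module BI (decay of the pairs of scales in `L^p`, with a translation).
The endpoint bound `endp` holds for every real exponent `r > 2`; interpolation between
`(2 + p) / 2` and `4`, respectively between `4` and `p + 1`.
-/

set_option autoImplicit false

namespace Pool.Agent.Lib.MP_dd244f_an.Rp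

open MeasureTheory Filter Topology Finset FourierTransform
open Pool.Agent.Lib.MP_dd244f_an.Joint (st ct Mst ratio)
open Pool.Agent.Lib.MP_dd244f_an.Four
open Pool.Agent.Lib.MP_dd244f_an.Four.FacAux
open Pool.Agent.Lib.MP_dd244f_an.Even
open Pool.Agent.Lib.MP_dd244f_an.Unif (SC)
open scoped SchwartzMap ENNReal NNReal ContDiff

namespace BIAux

theorem fF_smooth {f : ℂ → ℂ} (hf : CC f) : ContDiff ℝ ∞ (fF f) := by
  have h1 : ContDiff ℝ ∞ (𝓕 f) := by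
    apply Real.contDiff_fourier
    intro n _
    have hc : Continuous fun v : ℂ => ‖v‖ ^ n * ‖f v‖ := (continuous_norm.pow n).mul hf.1.norm
    exact hc.integrable_of_hasCompactSupport (hf.2.norm.mul_left)
  have h2 : fF f = 𝓕 f := by
    ext ζ
    rw [DensAux.fF_eq, iF_eq_inv, Real.fourierInv_eq_fourier_neg, neg_neg]
  rw [h2]
  exact h1

theorem sc_GR {f : ℂ → ℂ} (hf : CC f) (R : ℕ) : SC (QI.GR f R) :=
  ⟨(DensAux.bd_smooth _ _).mul (fF_smooth hf), (DensAux.bd_supp _ _).mul_right⟩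

/-- uniform bound of the approximations -/
theorem ub {f : ℂ → ℂ} (hf : CC f) : ∃ B : ℝ, 0 ≤ B ∧ (∀ x, ‖f x‖ ≤ B) ∧
    ∀ (R : ℕ) (x : ℂ), ‖iF (QI.GR f R) x‖ ≤ B := by
  have hcont : Continuous (fF f) := (fF_smooth hf).continuous
  obtain ⟨S, hS⟩ := hf.1.bounded_above_of_compact_support hf.2
  have hS0 : 0 ≤ S := (norm_nonneg _).trans (hS 0)
  set Λ : ℝ := ∫ z, ‖iF (fun ζ => ((lo 0 ζ : ℝ) : ℂ)) z‖ with hΛ
  have hΛ0 : 0 ≤ Λ := integral_nonneg fun _ => norm_nonneg _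
  refine ⟨S + 2 * (S * Λ), by positivity, fun x => (hS x).trans (by
    have : 0 ≤ S * Λ := mul_nonneg hS0 hΛ0
    linarith), fun R x => ?_⟩
  have h1 : iF (cut (bd (-(R : ℤ)) R) (fF f)) x =
      iF (cut (lo R) (fF f)) x - iF (cut (lo (-(R : ℤ))) (fF f)) x := by
    have hc1 : CC (cut (lo (R : ℤ)) (fF f)) :=
      ⟨(Complex.continuous_ofReal.comp (lo_cont _)).mul hcont, (lo_supp _).mul_right⟩
    have hc2 : CC (cut (lo (-(R : ℤ))) (fF f)) :=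
      ⟨(Complex.continuous_ofReal.comp (lo_cont _)).mul hcont, (lo_supp _).mul_right⟩
    unfold iF
    rw [← integral_sub (hc1.integrable_ch x) (hc2.integrable_ch x)]
    congr 1
    ext ζ
    unfold cut bd
    push_cast
    ring
  have h0 : iF (QI.GR f R) x = iF (cut (bd (-(R : ℤ)) R) (fF f)) x := rfl
  rw [h0, h1]
  refine (norm_sub_le _ _).trans ?_
  have h2 := DensAux.lo_bound hf.integrable hS (R : ℤ) x
  have h3 := DensAux.lo_bound hf.integrable hS (-(R : ℤ)) x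
  rw [← hΛ] at h2 h3
  linarith

theorem fF_sq (hL : StmtL2) {f : ℂ → ℂ} (hf : CC f) : Integrable (fun ζ => ‖fF f ζ‖ ^ 2) ∧
    ∫ ζ, ‖fF f ζ‖ ^ 2 = ∫ x, ‖f x‖ ^ 2 := by
  constructor
  · have h1 := (hL f hf.integrable hf.memLp).1
    have h2 : Integrable (fun ζ => ‖iF f ζ‖ ^ 2) :=
      (memLp_two_iff_integrable_sq_norm h1.1).1 h1
    have h3 := h2.comp_neg
    refine h3.congr (Eventually.of_forall fun ζ => ?_)
    simp only [DensAux.fF_eq]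
  · rw [← (hL f hf.integrable hf.memLp).2,
      ← integral_neg_eq_self (fun x => ‖iF f x‖ ^ 2)]
    simp only [DensAux.fF_eq]

theorem l2d (hB : StmtBase) (hL : StmtL2) {f : ℂ → ℂ} (hf : CC f) (R : ℕ) :
    Integrable (fun x => ‖iF (QI.GR f R) x - f x‖ ^ 2) ∧
      ∫ x, ‖iF (QI.GR f R) x - f x‖ ^ 2 =
        ∫ ζ, ‖cut (bd (-(R : ℤ)) R) (fF f) ζ - fF f ζ‖ ^ 2 := by
  have hcont : Continuous (fF f) := (fF_smooth hf).continuous
  have hGcc : CC (QI.GR f R) := ⟨(sc_GR hf R).1.continuous, (sc_GR hf R).2⟩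
  have hfsq : Integrable (fun x => ‖f x‖ ^ 2) :=
    (memLp_two_iff_integrable_sq_norm hf.memLp.1).1 hf.memLp
  obtain ⟨hfi, hPl⟩ := fF_sq hL hf
  have hcross : Integrable
      (fun x => iF (QI.GR f R) x * starRingEnd ℂ (f x)) := by
    have hc : Continuous
        (fun x => iF (QI.GR f R) x * starRingEnd ℂ (f x)) :=
      (iF_continuous hGcc.integrable).mul (Complex.continuous_conj.comp hf.1)
    refine hc.integrable_of_hasCompactSupport ?_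
    exact (hf.2.comp_left (g := starRingEnd ℂ) (map_zero _)).mul_left
  have hcross2 : Integrable
      (fun ζ => QI.GR f R ζ * starRingEnd ℂ (fF f ζ)) := by
    have hc : Continuous
        (fun ζ => QI.GR f R ζ * starRingEnd ℂ (fF f ζ)) :=
      hGcc.1.mul (Complex.continuous_conj.comp hcont)
    exact hc.integrable_of_hasCompactSupport (hGcc.2.mul_right)
  have hGsq : Integrable (fun ζ => ‖QI.GR f R ζ‖ ^ 2) :=
    (memLp_two_iff_integrable_sq_norm hGcc.memLp.1).1 hGcc.memLp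
  have hb := hB.1 _ hGcc
  obtain ⟨h1, h2⟩ := DensAux.int_sq_sub hb.2.2.1 hfsq hcross
  obtain ⟨-, h3⟩ := DensAux.int_sq_sub hGsq hfi hcross2
  refine ⟨h1, ?_⟩
  have h4 : ∫ ζ, ‖cut (bd (-(R : ℤ)) R) (fF f) ζ - fF f ζ‖ ^ 2
    = ∫ ζ, ‖QI.GR f R ζ - fF f ζ‖ ^ 2 := rfl
  rw [h4, h2, h3, hb.2.2.2.2, DensAux.ip hGcc.integrable hf.integrable, hPl]

theorem l2n (hB : StmtBase) (hL : StmtL2) {f : ℂ → ℂ} (hf : CC f) (R : ℕ) :
    ∫ x, ‖iF (QI.GR f R) x‖ ^ 2 ≤ ∫ x, ‖f x‖ ^ 2 := by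
  have hGcc : CC (QI.GR f R) := ⟨(sc_GR hf R).1.continuous, (sc_GR hf R).2⟩
  obtain ⟨hfi, hPl⟩ := fF_sq hL hf
  have hGsq : Integrable (fun ζ => ‖QI.GR f R ζ‖ ^ 2) :=
    (memLp_two_iff_integrable_sq_norm hGcc.memLp.1).1 hGcc.memLp
  rw [(hB.1 _ hGcc).2.2.2.2, ← hPl]
  refine integral_mono hGsq hfi fun ζ => ?_
  have h1 := lo_mem (R : ℤ) ζ
  have h2 := lo_mem (-(R : ℤ)) ζ
  simp only [QI.GR, cut]
  rw [norm_mul, Complex.norm_real, mul_pow, Real.norm_eq_abs, sq_abs]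
  refine mul_le_of_le_one_left (sq_nonneg _) ?_
  unfold bd
  nlinarith [h1.1, h1.2, h2.1, h2.2]

/-- powers are Lipschitz on bounded sets -/
theorem rpow_lip {q B s t : ℝ} (hq : 1 ≤ q) (hs : 0 ≤ s) (ht : 0 ≤ t) (hsB : s ≤ B) (htB : t ≤ B) :
    |s ^ q - t ^ q| ≤ q * B ^ (q - 1) * |s - t| := by
  have hB : 0 ≤ B := hs.trans hsB
  have h := Convex.norm_image_sub_le_of_norm_hasDerivWithin_le (𝕜 := ℝ)
    (f := fun x : ℝ => x ^ q) (f' := fun x => q * x ^ (q - 1)) (C := q * B ^ (q - 1))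
    (s := Set.Icc 0 B) (x := t) (y := s)
    (fun x _ => (Real.hasDerivAt_rpow_const (Or.inr hq)).hasDerivWithinAt)
    (fun x hx => by
      rw [Real.norm_of_nonneg (mul_nonneg (by linarith) (Real.rpow_nonneg hx.1 _))]
      exact mul_le_mul_of_nonneg_left (Real.rpow_le_rpow hx.1 hx.2 (by linarith)) (by linarith))
    (convex_Icc 0 B) ⟨ht, htB⟩ ⟨hs, hsB⟩
  simpa [Real.norm_eq_abs] using h

theorem int_pow (F : ℂ → ℂ) (hF : Continuous F) (h2 : Integrable (fun x => ‖F x‖ ^ 2)) {B : ℝ}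
    (hB : ∀ x, ‖F x‖ ≤ B) {r : ℝ} (hr : 2 ≤ r) : Integrable (fun x => ‖F x‖ ^ r) := by
  have hB0 : 0 ≤ B := (norm_nonneg _).trans (hB 0)
  refine (h2.const_mul (B ^ (r - 2))).mono'
    (hF.norm.rpow_const fun x => Or.inr (by linarith)).aestronglyMeasurable
    (ae_of_all _ fun x => ?_)
  have e : ‖F x‖ ^ r = ‖F x‖ ^ (r - 2) * ‖F x‖ ^ 2 := by
    rcases (norm_nonneg (F x)).eq_or_lt with h | h
    · rw [← h, Real.zero_rpow (by linarith)]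
      simp
    · rw [← Real.rpow_natCast, ← Real.rpow_add h]
      norm_num
  rw [Real.norm_of_nonneg (Real.rpow_nonneg (norm_nonneg _) _), e]
  exact mul_le_mul_of_nonneg_right
    (Real.rpow_le_rpow (norm_nonneg _) (hB x) (by linarith)) (sq_nonneg _)

theorem np_tendsto (hB : StmtBase) (hL : StmtL2) {f : ℂ → ℂ} (hf : CC f) {r : ℝ} (hr : 2 ≤ r) :
    Tendsto (fun R : ℕ => Np r (QI.GR f R)) atTop (𝓝 (∫ x, ‖f x‖ ^ r)) := by
  obtain ⟨B, hB0, hfB, hub⟩ := ub hf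
  have hlim := DensAux.l2_conv hL hf
  have hGcc : ∀ R, CC (QI.GR f R) := fun R => ⟨(sc_GR hf R).1.continuous, (sc_GR hf R).2⟩
  have hfsq : Integrable (fun x => ‖f x‖ ^ 2) :=
    (memLp_two_iff_integrable_sq_norm hf.memLp.1).1 hf.memLp
  set D : ℝ := 4 * ∫ x, ‖f x‖ ^ 2 with hD
  have hD0 : 0 ≤ D := mul_nonneg (by norm_num) (integral_nonneg fun _ => by positivity)
  set C : ℝ := r / 2 * (B ^ 2) ^ (r / 2 - 1) with hC
  have hC0 : 0 ≤ C := by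
    have : 0 ≤ (B ^ 2) ^ (r / 2 - 1) := Real.rpow_nonneg (sq_nonneg _) _
    have : 0 ≤ r / 2 := by linarith
    positivity
  have hsq : ∀ u : ℂ, ‖u‖ ^ r = (‖u‖ ^ 2) ^ (r / 2) := fun u => by
    rw [← Real.rpow_natCast, ← Real.rpow_mul (norm_nonneg _)]
    congr 1
    push_cast
    ring
  have hb : ∀ R : ℕ, |Np r (QI.GR f R) - ∫ x, ‖f x‖ ^ r| ≤
      C * (Real.sqrt (∫ ζ, ‖cut (bd (-(R : ℤ)) R) (fF f) ζ - fF f ζ‖ ^ 2) * Real.sqrt D) := by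
    intro R
    have hb := hB.1 _ (hGcc R)
    obtain ⟨hd1, hd2⟩ := l2d hB hL hf R
    have hn := l2n hB hL hf R
    have hi1 : Integrable (fun x => ‖iF (QI.GR f R) x‖ ^ r) :=
      int_pow _ hb.1 hb.2.2.1 (hub R) hr
    have hi2 : Integrable (fun x => ‖f x‖ ^ r) := int_pow _ hf.1 hfsq hfB hr
    have m1 : MemLp (fun x => iF (QI.GR f R) x - f x) 2 volume :=
      (memLp_two_iff_integrable_sq_norm (hb.1.sub hf.1).aestronglyMeasurable).2 hd1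
    have m2 : MemLp (fun x => ‖iF (QI.GR f R) x‖ + ‖f x‖) 2 volume := by
      have a1 : MemLp (fun x => iF (QI.GR f R) x) 2 volume :=
        (memLp_two_iff_integrable_sq_norm hb.1.aestronglyMeasurable).2 hb.2.2.1
      exact a1.norm.add hf.memLp.norm
    have hcs := integral_mul_le_Lp_mul_Lq_of_nonneg (μ := (volume : Measure ℂ)) (p := 2) (q := 2)
      (Real.HolderConjugate.two_two) (f := fun x => ‖iF (QI.GR f R) x - f x‖)
      (g := fun x => ‖iF (QI.GR f R) x‖ + ‖f x‖)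
      (Eventually.of_forall fun x => norm_nonneg _)
      (Eventually.of_forall fun x => by positivity)
      (by rw [ENNReal.ofReal_ofNat]; exact m1.norm) (by rw [ENNReal.ofReal_ofNat]; exact m2)
    simp only [Real.rpow_ofNat, ← Real.sqrt_eq_rpow] at hcs
    have hi3 : Integrable (fun x => ‖iF (QI.GR f R) x - f x‖ *
        (‖iF (QI.GR f R) x‖ + ‖f x‖)) := m1.norm.integrable_mul m2
    have hpt : ∀ x, |‖iF (QI.GR f R) x‖ ^ r - ‖f x‖ ^ r| ≤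
        C * (‖iF (QI.GR f R) x - f x‖ * (‖iF (QI.GR f R) x‖ + ‖f x‖)) := by
      intro x
      rw [hsq, hsq]
      refine (rpow_lip (q := r / 2) (B := B ^ 2) (by linarith) (sq_nonneg _) (sq_nonneg _)
        (pow_le_pow_left₀ (norm_nonneg _) (hub R x) 2)
        (pow_le_pow_left₀ (norm_nonneg _) (hfB x) 2)).trans ?_
      refine mul_le_mul_of_nonneg_left ?_ hC0
      have : ‖iF (QI.GR f R) x‖ ^ 2 - ‖f x‖ ^ 2 = (‖iF (QI.GR f R) x‖ - ‖f x‖) *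
        (‖iF (QI.GR f R) x‖ + ‖f x‖) := by ring
      rw [this, abs_mul, abs_of_nonneg (by positivity : 0 ≤ ‖iF (QI.GR f R) x‖ + ‖f x‖)]
      exact mul_le_mul_of_nonneg_right (abs_norm_sub_norm_le _ _) (by positivity)
    have h2 : |∫ x, (‖iF (QI.GR f R) x‖ ^ r - ‖f x‖ ^ r)| ≤
        ∫ x, C * (‖iF (QI.GR f R) x - f x‖ * (‖iF (QI.GR f R) x‖ + ‖f x‖)) := by
      have := norm_integral_le_of_norm_le (f := fun x =>
        ‖iF (QI.GR f R) x‖ ^ r - ‖f x‖ ^ r) (hi3.const_mul C)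
        (Eventually.of_forall fun x => by
          rw [Real.norm_eq_abs]
          exact hpt x)
      rw [Real.norm_eq_abs] at this
      exact this
    unfold Np
    rw [← integral_sub hi1 hi2]
    refine h2.trans ?_
    rw [integral_const_mul]
    refine mul_le_mul_of_nonneg_left (hcs.trans ?_) hC0
    rw [hd2]
    refine mul_le_mul_of_nonneg_left (Real.sqrt_le_sqrt ?_) (Real.sqrt_nonneg _)
    have h3 : ∫ x, (‖iF (QI.GR f R) x‖ + ‖f x‖) ^ 2 ≤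
        ∫ x, (2 * ‖iF (QI.GR f R) x‖ ^ 2 + 2 * ‖f x‖ ^ 2) := by
      refine integral_mono ((memLp_two_iff_integrable_sq m2.1).1 m2)
        ((hb.2.2.1.const_mul 2).add (hfsq.const_mul 2)) fun x => ?_
      simp only
      nlinarith [sq_nonneg (‖iF (QI.GR f R) x‖ - ‖f x‖)]
    rw [integral_add (hb.2.2.1.const_mul 2) (hfsq.const_mul 2), integral_const_mul,
      integral_const_mul] at h3
    rw [hD]
    linarith
  have hlim2 : Tendsto (fun R : ℕ => C * (Real.sqrt (∫ ζ, ‖cut (bd (-(R : ℤ)) R) (fF f) ζ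
      - fF f ζ‖ ^ 2) * Real.sqrt D)) atTop (𝓝 0) := by
    have h1 := (hlim.sqrt.mul_const (Real.sqrt D)).const_mul C
    simpa using h1
  rw [tendsto_iff_norm_sub_tendsto_zero]
  refine squeeze_zero (fun R => norm_nonneg _) (fun R => ?_) hlim2
  rw [Real.norm_eq_abs]
  exact hb R

/-- pairs of scales on the Fourier side, with a translation -/
noncomputable def Pg (n : ℕ) (A : Finset ℤ) (a₀ : ℤ) (d : ℕ) (y : ℂ) (g h : ℂ → ℂ) (x : ℂ) : ℝ :=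
  ∑ a ∈ A, ‖iF (cut (sh a) (mg n g)) (x - (((2 : ℝ) ^ (-a) : ℝ) : ℂ) * y)‖ ^ 2 *
      ‖iF (cut (bd a₀ (a - d)) (mg n h)) x‖ ^ 2

/-- translated kernel -/
noncomputable def un (n : ℕ) (a : ℤ) (y x : ℂ) : ℂ :=
  QI.kn n a (a + 1) (x - (((2 : ℝ) ^ (-a) : ℝ) : ℂ) * y)

/-- pairs of scales for functions -/
noncomputable def Ph (n : ℕ) (A : Finset ℤ) (a₀ : ℤ) (d : ℕ) (y : ℂ) (f h : ℂ → ℂ) (x : ℂ) : ℝ :=
  ∑ a ∈ A, ‖∫ z, un n a y (x - z) * f z‖ ^ 2 * ‖∫ z, QI.kn n a₀ (a - d) (x - z) * h z‖ ^ 2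

theorem un_sub (n : ℕ) (a : ℤ) (y x z : ℂ) :
    un n a y (x - z) = QI.kn n a (a + 1) ((x - (((2 : ℝ) ^ (-a) : ℝ) : ℂ) * y) - z) := by
  unfold un
  congr 1
  ring

theorem Pg_nonneg (n : ℕ) (A : Finset ℤ) (a₀ : ℤ) (d : ℕ) (y : ℂ) (g h : ℂ → ℂ) (x : ℂ) :
    0 ≤ Pg n A a₀ d y g h x := Finset.sum_nonneg fun _ _ => by positivity

theorem Ph_nonneg (n : ℕ) (A : Finset ℤ) (a₀ : ℤ) (d : ℕ) (y : ℂ) (f h : ℂ → ℂ) (x : ℂ) :
    0 ≤ Ph n A a₀ d y f h x := Finset.sum_nonneg fun _ _ => by positivity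

theorem pair_eq (hF : StmtFac) (hDe : StmtDens) (n : ℕ) (A : Finset ℤ) (a₀ : ℤ) (d : ℕ) (y : ℂ)
    (hA : ∀ a ∈ A, a₀ ≤ a - d) (f h : ℂ → ℂ) (hf : CC f) (hh : CC h) :
    ∀ᶠ R : ℕ in atTop, ∀ x, Pg n A a₀ d y (QI.GR f R) (QI.GR h R) x = Ph n A a₀ d y f h x := by
  have h1 : ∀ a ∈ A, ∀ᶠ R : ℕ in atTop, (a + 1 + 1 ≤ (R : ℤ) ∧ 1 - a ≤ (R : ℤ)) ∧
      (a - d + 1 ≤ (R : ℤ) ∧ 1 - a₀ ≤ (R : ℤ)) := by
    intro a _
    have ht : Tendsto (fun R : ℕ => (R : ℤ)) atTop atTop := tendsto_natCast_atTop_atTop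
    exact ((ht.eventually_ge_atTop _).and (ht.eventually_ge_atTop _)).and
      ((ht.eventually_ge_atTop _).and (ht.eventually_ge_atTop _))
  rw [← Filter.eventually_all_finset] at h1
  filter_upwards [h1] with R hR x
  unfold Pg Ph
  refine Finset.sum_congr rfl fun a ha => ?_
  obtain ⟨⟨r1, r2⟩, r3, r4⟩ := hR a ha
  have e0 : sh a = bd a (a + 1) := rfl
  simp only [un_sub]
  rw [e0, QI.cut_GR hF (by omega) r1 r2, QI.cut_GR hF (hA a ha) r3 r4]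
  rw [(hDe.2 n a (a + 1)).2.2.2.1 f hf, (hDe.2 n a₀ (a - d)).2.2.2.1 h hh x]
  rfl

theorem Ph_iF (hDe : StmtDens) (n : ℕ) (A : Finset ℤ) (a₀ : ℤ) (d : ℕ) (y : ℂ)
    (g : ℂ → ℂ) (hg : CC g) (x : ℂ) :
    Ph n A a₀ d y (iF g) (iF g) x = Pg n A a₀ d y g g x := by
  unfold Ph Pg
  refine Finset.sum_congr rfl fun a _ => ?_
  have e0 : sh a = bd a (a + 1) := rfl
  simp only [un_sub]
  rw [e0, (hDe.2 n a (a + 1)).2.2.2.2 g hg, (hDe.2 n a₀ (a - d)).2.2.2.2 g hg x]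
  rfl

theorem Ph_tendsto (hF : StmtFac) (hDe : StmtDens) (n : ℕ) (A : Finset ℤ) (a₀ : ℤ) (d : ℕ) (y : ℂ)
    (F : ℂ → ℂ) (hFc : Continuous F) {B : ℝ} (hB : ∀ x, ‖F x‖ ≤ B) (x : ℂ) :
    Tendsto (fun j : ℕ => Ph n A a₀ d y (cut (lo (j : ℤ)) F) (cut (lo (j : ℤ)) F) x) atTop
      (𝓝 (Ph n A a₀ d y F F x)) := by
  unfold Ph
  refine tendsto_finsetSum _ fun a _ => ?_
  simp only [un_sub]
  exact (((QI.conv_tendsto hF _ F (hDe.2 n _ _).1 (hDe.2 n _ _).2.1 hFc hB _).norm).pow 2).mul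
    (((QI.conv_tendsto hF _ F (hDe.2 n _ _).1 (hDe.2 n _ _).2.1 hFc hB x).norm).pow 2)

/-- Cauchy-Schwarz for the half powers -/
theorem half_cs {q : ℝ} {S M : ℂ → ℝ} (hS : ∀ x, 0 ≤ S x) (hM : ∀ x, 0 ≤ M x)
    (hSi : Integrable (fun x => S x ^ (q / 2))) (hMi : Integrable (fun x => M x ^ (q / 2))) :
    Integrable (fun x => (S x * M x) ^ (q / 4)) ∧
      ∫ x, (S x * M x) ^ (q / 4) ≤
        (∫ x, S x ^ (q / 2)) ^ (1 / 2 : ℝ) * (∫ x, M x ^ (q / 2)) ^ (1 / 2 : ℝ) := by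
  have e : ∀ x, (S x * M x) ^ (q / 4)
      = Real.sqrt (S x ^ (q / 2)) * Real.sqrt (M x ^ (q / 2)) := by
    intro x
    have h1 : 0 ≤ S x * M x := mul_nonneg (hS x) (hM x)
    rw [← Real.sqrt_mul (Real.rpow_nonneg (hS x) _), ← Real.mul_rpow (hS x) (hM x),
      Real.sqrt_eq_rpow, ← Real.rpow_mul h1]
    congr 1
    ring
  simp only [e]
  have s1 : AEStronglyMeasurable (fun x => Real.sqrt (S x ^ (q / 2))) volume :=
    Real.continuous_sqrt.comp_aestronglyMeasurable hSi.aestronglyMeasurable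
  have s2 : AEStronglyMeasurable (fun x => Real.sqrt (M x ^ (q / 2))) volume :=
    Real.continuous_sqrt.comp_aestronglyMeasurable hMi.aestronglyMeasurable
  have q1 : ∀ x, Real.sqrt (S x ^ (q / 2)) ^ 2 = S x ^ (q / 2) := fun x =>
    Real.sq_sqrt (Real.rpow_nonneg (hS x) _)
  have q2 : ∀ x, Real.sqrt (M x ^ (q / 2)) ^ 2 = M x ^ (q / 2) := fun x =>
    Real.sq_sqrt (Real.rpow_nonneg (hM x) _)
  have m1 : MemLp (fun x => Real.sqrt (S x ^ (q / 2))) 2 volume := by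
    rw [memLp_two_iff_integrable_sq s1]
    simp only [q1]
    exact hSi
  have m2 : MemLp (fun x => Real.sqrt (M x ^ (q / 2))) 2 volume := by
    rw [memLp_two_iff_integrable_sq s2]
    simp only [q2]
    exact hMi
  refine ⟨m1.integrable_mul m2, ?_⟩
  have h := integral_mul_le_Lp_mul_Lq_of_nonneg (μ := (volume : Measure ℂ)) (p := 2) (q := 2)
    (Real.HolderConjugate.two_two) (f := fun x => Real.sqrt (S x ^ (q / 2)))
    (g := fun x => Real.sqrt (M x ^ (q / 2)))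
    (Filter.Eventually.of_forall fun x => Real.sqrt_nonneg _)
    (Filter.Eventually.of_forall fun x => Real.sqrt_nonneg _)
    (by rw [ENNReal.ofReal_ofNat]; exact m1) (by rw [ENNReal.ofReal_ofNat]; exact m2)
  simp only [Real.rpow_ofNat, q1, q2] at h
  exact h

theorem np_nonneg (p : ℝ) (g : ℂ → ℂ) : 0 ≤ Np p g :=
  integral_nonneg fun _ => Real.rpow_nonneg (norm_nonneg _) _

/-- the endpoint bound -/
theorem endp (hK : StmtKKm) (hLP : Even.StmtLPm) (hM : StmtMp) (hD : Even.StmtDomF)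
    (hS : StmtSp) (hA : StmtAprR) (hF : StmtFac) {r : ℝ} (hr : 2 < r) :
    ∃ (C : ℝ) (n₀ : ℕ), 0 < C ∧ 1 ≤ n₀ ∧ ∀ n ≥ n₀, ∀ g h, SC g → Z0 g → SC h → Z0 h →
      ∀ (A : Finset ℤ) (a₀ : ℤ) (d : ℕ) (y : ℂ),
      ∫ x, (Pg n A a₀ d y g h x) ^ (r / 4) ≤ C * ((1 + ‖y‖) ^ r * (n : ℝ) ^ (r - 2)) *
        (Np r g ^ (1 / 2 : ℝ) * Np r h ^ (1 / 2 : ℝ)) := by
  obtain ⟨K1, hK1, hLP1⟩ := hLP 2 le_rfl
  obtain ⟨-, -, hqm, hqs⟩ := hK 2 le_rfl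
  obtain ⟨C2, hC2, hDom⟩ := hD
  obtain ⟨C3, hC3, hSp⟩ := hS r hr
  obtain ⟨C1, hC1, hMp⟩ := hM r hr
  obtain ⟨B, n₀, hB1, hn₀, hApr⟩ := hA r hr.le
  have hB0 : 0 < B := by linarith
  refine ⟨(4 * K1 * C2) ^ (r / 4) * (C3 * C1) ^ (1 / 2 : ℝ) * B, n₀, by positivity, hn₀,
    fun n hn g h hg hg0 hh hh0 A a₀ d y => ?_⟩
  have hn1 : 1 ≤ n := hn₀.trans hn
  have hn0 : (0 : ℝ) < n := by exact_mod_cast hn1
  have hG := (hF.2.2.2.2.2.1 g n hn1 ⟨hg.1.continuous, hg.2⟩ hg0).1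
  have hH := (hF.2.2.2.2.2.1 h n hn1 ⟨hh.1.continuous, hh.2⟩ hh0).1
  obtain ⟨M, hMd, hMi, hMb⟩ := hMp (mg n h) hH
  obtain ⟨-, -, -, hQi, hQb⟩ := hSp A (mg n g) hG
  have hM0 : ∀ x, 0 ≤ M x := hMd.2.1
  set Q : ℂ → ℝ := fun x => ∑ a ∈ A, qa a (mg n g) x with hQdef
  have hqa0 : ∀ a x, 0 ≤ qa a (mg n g) x := fun a x =>
    (hqm a (mg n g) x hG).1.trans (hqm a (mg n g) x hG).2
  have hQ0 : ∀ x, 0 ≤ Q x := fun x => Finset.sum_nonneg fun a _ => hqa0 a x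
  obtain ⟨i1, i2⟩ := half_cs (q := r) (S := Q) (M := M) hQ0 hM0 hQi hMi
  set c : ℝ := 4 * K1 * C2 * (1 + ‖y‖ ^ 2) ^ 2 with hc
  have hc0 : 0 ≤ c := by positivity
  have hpt : ∀ x, Pg n A a₀ d y g h x ≤ c * (Q x * M x) := by
    intro x
    have h1 : ∀ a ∈ A, ‖iF (cut (sh a) (mg n g)) (x - (((2 : ℝ) ^ (-a) : ℝ) : ℂ) * y)‖ ^ 2 *
        ‖iF (cut (bd a₀ (a - d)) (mg n h)) x‖ ^ 2 ≤ c * (qa a (mg n g) x * M x) := by
      intro a _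
      have a1 := hLP1 a (mg n g) hG (x - (((2 : ℝ) ^ (-a) : ℝ) : ℂ) * y)
      have a2 := hqs a (mg n g) x (-((((2 : ℝ) ^ (-a) : ℝ) : ℂ) * y)) hG
      rw [← sub_eq_add_neg] at a2
      have a3 := (hqm a (mg n g) x hG).2
      have a4 := (hDom (mg n h) M hH hMd x).2.2.1 a₀ (a - d)
      have e1 : ‖-((((2 : ℝ) ^ (-a) : ℝ) : ℂ) * y)‖ ^ 2 * (4 : ℝ) ^ a = ‖y‖ ^ 2 := by
        rw [norm_neg, norm_mul, Complex.norm_real, Real.norm_of_nonneg (by positivity), mul_pow]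
        have h4 : (4 : ℝ) ^ a = ((2 : ℝ) ^ a) ^ 2 := by
          rw [← zpow_natCast ((2 : ℝ) ^ a) 2, ← zpow_mul, mul_comm a, zpow_mul]
          norm_num
        have h5 : (2 : ℝ) ^ (-a) * (2 : ℝ) ^ a = 1 := by
          rw [← zpow_add₀ (by norm_num)]
          simp
        rw [h4]
        calc ((2 : ℝ) ^ (-a)) ^ 2 * ‖y‖ ^ 2 * ((2 : ℝ) ^ a) ^ 2
            = ((2 : ℝ) ^ (-a) * (2 : ℝ) ^ a) ^ 2 * ‖y‖ ^ 2 := by ring
          _ = _ := by rw [h5]; ring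
      rw [e1] at a2
      have a5 : ‖iF (cut (sh a) (mg n g)) (x - (((2 : ℝ) ^ (-a) : ℝ) : ℂ) * y)‖ ^ 2 ≤
          K1 * (2 ^ 2 * (1 + ‖y‖ ^ 2) ^ 2 * qa a (mg n g) x) := by
        refine a1.trans (mul_le_mul_of_nonneg_left ?_ hK1.le)
        refine le_trans ?_ (a2.trans (mul_le_mul_of_nonneg_left a3 (by positivity)))
        exact le_of_eq rfl
      calc _ ≤ K1 * (2 ^ 2 * (1 + ‖y‖ ^ 2) ^ 2 * qa a (mg n g) x) * (C2 * M x) :=
            mul_le_mul a5 a4 (sq_nonneg _)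
              (mul_nonneg hK1.le (mul_nonneg (by positivity) (hqa0 a x)))
        _ = _ := by rw [hc]; ring
    calc _ ≤ ∑ a ∈ A, c * (qa a (mg n g) x * M x) := Finset.sum_le_sum h1
      _ = _ := by rw [hQdef, ← Finset.mul_sum, ← Finset.sum_mul]
  have hr4 : 0 ≤ r / 4 := by linarith
  have h2 : ∫ x, (Pg n A a₀ d y g h x) ^ (r / 4) ≤ ∫ x, c ^ (r / 4) * (Q x * M x) ^ (r / 4) := by
    refine integral_mono_of_nonneg
      (Filter.Eventually.of_forall fun x => Real.rpow_nonneg (Pg_nonneg _ _ _ _ _ _ _ _) _)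
      (i1.const_mul _) (Filter.Eventually.of_forall fun x => ?_)
    refine (Real.rpow_le_rpow (Pg_nonneg _ _ _ _ _ _ _ _) (hpt x) hr4).trans (le_of_eq ?_)
    exact Real.mul_rpow hc0 (mul_nonneg (hQ0 x) (hM0 x))
  refine h2.trans ?_
  rw [integral_const_mul]
  have hg1 := hApr n hn g hg hg0
  have hh1 := hApr n hn h hh hh0
  have hNg := np_nonneg r g
  have hNh := np_nonneg r h
  have hnr : 0 < (n : ℝ) ^ (r - 2) := Real.rpow_pos_of_pos hn0 _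
  have h3 : (∫ x, Q x ^ (r / 2)) ^ (1 / 2 : ℝ) * (∫ x, M x ^ (r / 2)) ^ (1 / 2 : ℝ) ≤
      (C3 * C1) ^ (1 / 2 : ℝ) * B * (n : ℝ) ^ (r - 2) *
        (Np r g ^ (1 / 2 : ℝ) * Np r h ^ (1 / 2 : ℝ)) := by
    have b1 : (∫ x, Q x ^ (r / 2)) ^ (1 / 2 : ℝ) ≤
        (C3 * (B * (n : ℝ) ^ (r - 2) * Np r g)) ^ (1 / 2 : ℝ) :=
      Real.rpow_le_rpow (integral_nonneg fun x => Real.rpow_nonneg (hQ0 x) _)
        (hQb.trans (mul_le_mul_of_nonneg_left hg1 hC3.le)) (by norm_num)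
    have b2 : (∫ x, M x ^ (r / 2)) ^ (1 / 2 : ℝ) ≤
        (C1 * (B * (n : ℝ) ^ (r - 2) * Np r h)) ^ (1 / 2 : ℝ) :=
      Real.rpow_le_rpow (integral_nonneg fun x => Real.rpow_nonneg (hM0 x) _)
        (hMb.trans (mul_le_mul_of_nonneg_left hh1 hC1.le)) (by norm_num)
    refine (mul_le_mul b1 b2 (Real.rpow_nonneg (integral_nonneg fun x =>
      Real.rpow_nonneg (hM0 x) _) _) (by positivity)).trans (le_of_eq ?_)
    rw [Real.mul_rpow hC3.le (by positivity), Real.mul_rpow (by positivity) hNg,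
      Real.mul_rpow hC1.le (by positivity), Real.mul_rpow (by positivity) hNh,
      Real.mul_rpow hC3.le hC1.le]
    have e3 : (B * (n : ℝ) ^ (r - 2)) ^ (1 / 2 : ℝ) * (B * (n : ℝ) ^ (r - 2)) ^ (1 / 2 : ℝ)
        = B * (n : ℝ) ^ (r - 2) := by
      rw [← Real.sqrt_eq_rpow]
      exact Real.mul_self_sqrt (by positivity)
    linear_combination (C3 ^ (1 / 2 : ℝ) * C1 ^ (1 / 2 : ℝ) *
      (Np r g ^ (1 / 2 : ℝ) * Np r h ^ (1 / 2 : ℝ))) * e3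
  have h4 : c ^ (r / 4) ≤ (4 * K1 * C2) ^ (r / 4) * (1 + ‖y‖) ^ r := by
    rw [hc, Real.mul_rpow (by positivity) (by positivity)]
    refine mul_le_mul_of_nonneg_left ?_ (by positivity)
    have e4 : ((1 + ‖y‖ ^ 2) ^ 2) ^ (r / 4) ≤ ((1 + ‖y‖) ^ 4) ^ (r / 4) := by
      refine Real.rpow_le_rpow (by positivity) ?_ hr4
      have : 1 + ‖y‖ ^ 2 ≤ (1 + ‖y‖) ^ 2 := by nlinarith [norm_nonneg y]
      calc (1 + ‖y‖ ^ 2) ^ 2 ≤ ((1 + ‖y‖) ^ 2) ^ 2 := pow_le_pow_left₀ (by positivity) this 2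
        _ = _ := by ring
    refine e4.trans (le_of_eq ?_)
    rw [← Real.rpow_natCast, ← Real.rpow_mul (by positivity)]
    congr 1
    push_cast
    ring
  calc c ^ (r / 4) * ∫ x, (Q x * M x) ^ (r / 4)
      ≤ ((4 * K1 * C2) ^ (r / 4) * (1 + ‖y‖) ^ r) * ((C3 * C1) ^ (1 / 2 : ℝ) * B *
        (n : ℝ) ^ (r - 2) * (Np r g ^ (1 / 2 : ℝ) * Np r h ^ (1 / 2 : ℝ))) :=
        mul_le_mul h4 (i2.trans h3) (integral_nonneg fun x =>
          Real.rpow_nonneg (mul_nonneg (hQ0 x) (hM0 x)) _) (by positivity)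
    _ = _ := by ring

/-- the endpoint `4` -/
theorem four (hDec : StmtDec2S) (hB : StmtBase) (hF : StmtFac) :
    ∃ (C : ℝ) (n₀ : ℕ), 0 < C ∧ 1 ≤ n₀ ∧ ∀ n ≥ n₀, ∀ g h, SC g → Z0 g → SC h → Z0 h →
      ∀ (A : Finset ℤ) (a₀ : ℤ) (d : ℕ) (y : ℂ), (∀ a ∈ A, a₀ ≤ a - d) →
      ∫ x, (Pg n A a₀ d y g h x) ^ ((4 : ℝ) / 4) ≤ C * ((1 + ‖y‖) ^ (4 : ℝ) *
        (n : ℝ) ^ ((4 : ℝ) - 2) * ((2 : ℝ) ^ (-(d : ℤ)) + 1 / n) ^ (1 : ℝ)) *
        (Np 4 g ^ (1 / 2 : ℝ) * Np 4 h ^ (1 / 2 : ℝ)) := by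
  obtain ⟨C, n₀, hC, hn₀, H⟩ := hDec
  refine ⟨C, n₀, hC, hn₀, fun n hn g h hg hg0 hh hh0 A a₀ d y hA => ?_⟩
  have cg : CC g := ⟨hg.1.continuous, hg.2⟩
  have chh : CC h := ⟨hh.1.continuous, hh.2⟩
  have h1 := H n hn g h cg hg0 chh hh0 A a₀ d y hA
  have e1 : (4 : ℝ) / 4 = 1 := by norm_num
  have e2 : (n : ℝ) ^ ((4 : ℝ) - 2) = (n : ℝ) ^ 2 := by
    rw [← Real.rpow_natCast]
    norm_num
  have e3 : (1 + ‖y‖) ^ (4 : ℝ) = (1 + ‖y‖) ^ 4 := by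
    rw [← Real.rpow_natCast]
    norm_num
  have e4 : ∀ g : ℂ → ℂ, Np 4 g = N4 g := fun g => by
    unfold Np N4
    congr 1
    ext x
    rw [← Real.rpow_natCast]
    norm_num
  simp only [e1, e2, e3, e4, Real.rpow_one, ← Real.sqrt_eq_rpow]
  have e5 : ∫ x, Pg n A a₀ d y g h x = ∑ a ∈ A, ∫ x,
      ‖iF (cut (sh a) (mg n g)) (x - (((2 : ℝ) ^ (-a) : ℝ) : ℂ) * y)‖ ^ 2 *
      ‖iF (cut (bd a₀ (a - d)) (mg n h)) x‖ ^ 2 := by
    unfold Pg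
    rw [integral_finsetSum]
    intro a ha
    have c1 : CC (cut (sh a) (mg n g)) := hF.2.2.2.2.2.2 _ n a (a + 1) cg
    have c2 : CC (cut (bd a₀ (a - d)) (mg n h)) := hF.2.2.2.2.2.2 _ n _ _ chh
    obtain ⟨k1, ⟨B, hBd⟩, k3, -, -⟩ := hB.1 _ c1
    obtain ⟨l1, -, l3, -, -⟩ := hB.1 _ c2
    apply (l3.const_mul (B ^ 2)).mono'
      (((k1.comp (continuous_id.sub continuous_const)).norm.pow 2).mul
        (l1.norm.pow 2)).aestronglyMeasurable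
    refine ae_of_all _ fun x => ?_
    have h0 : 0 ≤ ‖iF (cut (sh a) (mg n g)) (x - (((2 : ℝ) ^ (-a) : ℝ) : ℂ) * y)‖ ^ 2 *
        ‖iF (cut (bd a₀ (a - d)) (mg n h)) x‖ ^ 2 := by positivity
    have h2 : ‖iF (cut (sh a) (mg n g)) (x - (((2 : ℝ) ^ (-a) : ℝ) : ℂ) * y)‖ ^ 2 *
        ‖iF (cut (bd a₀ (a - d)) (mg n h)) x‖ ^ 2 ≤
        B ^ 2 * ‖iF (cut (bd a₀ (a - d)) (mg n h)) x‖ ^ 2 := by
      gcongr
      exact hBd _
    calc _ = _ := Real.norm_of_nonneg h0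
      _ ≤ _ := h2
  rw [e5]
  refine h1.trans (le_of_eq ?_)
  ring

/-- from band-limited functions to `C_c` -/
theorem transfer (hB : StmtBase) (hL : StmtL2) (hF : StmtFac) (hDe : StmtDens) (n : ℕ) {r Y : ℝ}
    (hr : 2 ≤ r) (A : Finset ℤ) (a₀ : ℤ) (d : ℕ) (y : ℂ) (hA : ∀ a ∈ A, a₀ ≤ a - d)
    (H : ∀ g h, SC g → Z0 g → SC h → Z0 h → ∫ x, (Pg n A a₀ d y g h x) ^ (r / 4) ≤
      Y * (Np r g ^ (1 / 2 : ℝ) * Np r h ^ (1 / 2 : ℝ))) (f h : ℂ → ℂ) (hf : CC f) (hh : CC h) :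
    ∫ x, (Ph n A a₀ d y f h x) ^ (r / 4) ≤
      Y * ((∫ x, ‖f x‖ ^ r) ^ (1 / 2 : ℝ) * (∫ x, ‖h x‖ ^ r) ^ (1 / 2 : ℝ)) := by
  have hlim : Tendsto (fun R : ℕ => Y * (Np r (QI.GR f R) ^ (1 / 2 : ℝ) *
      Np r (QI.GR h R) ^ (1 / 2 : ℝ))) atTop
      (𝓝 (Y * ((∫ x, ‖f x‖ ^ r) ^ (1 / 2 : ℝ) * (∫ x, ‖h x‖ ^ r) ^ (1 / 2 : ℝ)))) := by
    apply Tendsto.const_mul
    exact ((np_tendsto hB hL hf hr).rpow_const (Or.inr (by norm_num))).mul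
      ((np_tendsto hB hL hh hr).rpow_const (Or.inr (by norm_num)))
  refine ge_of_tendsto hlim ?_
  filter_upwards [pair_eq hF hDe n A a₀ d y hA f h hf hh] with R hR
  refine le_trans (le_of_eq ?_) (H (QI.GR f R) (QI.GR h R) (sc_GR hf R) (QI.z0_GR hF f R)
    (sc_GR hh R) (QI.z0_GR hF h R))
  refine integral_congr_ae (ae_of_all _ fun x => ?_)
  simp only [hR x]

theorem kn_good (hDe : StmtDens) (n : ℕ) (a b : ℤ) : Continuous (QI.kn n a b) ∧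
    Integrable (QI.kn n a b) ∧ ∃ B, ∀ x, ‖QI.kn n a b x‖ ≤ B :=
  ⟨(hDe.2 n a b).1, (hDe.2 n a b).2.1, (hDe.2 n a b).2.2.1⟩

theorem un_good (hDe : StmtDens) (n : ℕ) (a : ℤ) (y : ℂ) : Continuous (un n a y) ∧
    Integrable (un n a y) ∧ ∃ B, ∀ x, ‖un n a y x‖ ≤ B := by
  obtain ⟨h1, h2, B, h3⟩ := kn_good hDe n a (a + 1)
  exact ⟨h1.comp (continuous_id.sub continuous_const), h2.comp_sub_right _, B, fun x => h3 _⟩

/-- interpolation -/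
theorem interp (hRT : StmtRT2) (hB : StmtBase) (hL : StmtL2) (hF : StmtFac) (hDe : StmtDens)
    (n : ℕ) {p₀ p₁ p τ Y₀ Y₁ : ℝ} (h0 : 2 ≤ p₀) (h01 : p₀ ≤ p₁) (hp : 0 < p) (hτ0 : 0 ≤ τ)
    (hτ1 : τ ≤ 1) (hpτ : 1 / p = (1 - τ) / p₀ + τ / p₁) (hY0 : 0 < Y₀) (hY1 : 0 < Y₁)
    (A : Finset ℤ) (a₀ : ℤ) (d : ℕ) (y : ℂ) (hA : ∀ a ∈ A, a₀ ≤ a - d)
    (H0 : ∀ g h, SC g → Z0 g → SC h → Z0 h → ∫ x, (Pg n A a₀ d y g h x) ^ (p₀ / 4) ≤
      Y₀ * (Np p₀ g ^ (1 / 2 : ℝ) * Np p₀ h ^ (1 / 2 : ℝ)))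
    (H1 : ∀ g h, SC g → Z0 g → SC h → Z0 h → ∫ x, (Pg n A a₀ d y g h x) ^ (p₁ / 4) ≤
      Y₁ * (Np p₁ g ^ (1 / 2 : ℝ) * Np p₁ h ^ (1 / 2 : ℝ))) (f : ℂ → ℂ) (hf : CC f) :
    Integrable (fun x => (Ph n A a₀ d y f f x) ^ (p / 4)) ∧
    ∫ x, (Ph n A a₀ d y f f x) ^ (p / 4) ≤
      Y₀ ^ ((1 - τ) * p / p₀) * Y₁ ^ (τ * p / p₁) * ∫ x, ‖f x‖ ^ p := by
  have hp₀ : 0 < p₀ := by linarith
  have hp₁ : 0 < p₁ := by linarith
  have key := hRT A (fun a => un n a y) (fun a => QI.kn n a₀ (a - d)) p₀ p₁ p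
    (Y₀ ^ (2 / p₀)) (Y₁ ^ (2 / p₁)) τ
    (fun a _ => ⟨(un_good hDe n a y).1, (un_good hDe n a y).2.1, (un_good hDe n a y).2.2,
      (kn_good hDe n _ _).1, (kn_good hDe n _ _).2.1, (kn_good hDe n _ _).2.2⟩) h0 h01
    (Real.rpow_pos_of_pos hY0 _) (Real.rpow_pos_of_pos hY1 _) hτ0 hτ1 hpτ ?_ ?_ f f hf hf
  · refine ⟨key.1, key.2.trans (le_of_eq ?_)⟩
    have e3 : ∀ I : ℝ, 0 ≤ I → I ^ (1 / 2 : ℝ) * I ^ (1 / 2 : ℝ) = I := fun I hI => by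
      rw [← Real.sqrt_eq_rpow]; exact Real.mul_self_sqrt hI
    rw [e3 _ (integral_nonneg fun x => Real.rpow_nonneg (norm_nonneg _) _)]
    congr 1
    rw [Real.mul_rpow (by positivity) (by positivity), ← Real.rpow_mul hY0.le,
      ← Real.rpow_mul hY0.le, ← Real.rpow_mul hY1.le, ← Real.rpow_mul hY1.le]
    congr 2
    · field_simp
    · field_simp
  · intro f' h' hf' hh'
    have h1 := transfer hB hL hF hDe n h0 A a₀ d y hA H0 f' h' hf' hh'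
    have e3 : (Y₀ ^ (2 / p₀)) ^ (p₀ / 2) = Y₀ := by
      rw [← Real.rpow_mul hY0.le]
      have : 2 / p₀ * (p₀ / 2) = 1 := by field_simp
      rw [this, Real.rpow_one]
    rw [e3]
    exact h1
  · intro f' h' hf' hh'
    have h1 := transfer hB hL hF hDe n (h0.trans h01) A a₀ d y hA H1 f' h' hf' hh'
    have e3 : (Y₁ ^ (2 / p₁)) ^ (p₁ / 2) = Y₁ := by
      rw [← Real.rpow_mul hY1.le]
      have : 2 / p₁ * (p₁ / 2) = 1 := by field_simp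
      rw [this, Real.rpow_one]
    rw [e3]
    exact h1

/-- the interpolated bound for band-limited functions -/
theorem final (hRT : StmtRT2) (hB : StmtBase) (hL : StmtL2) (hF : StmtFac) (hDe : StmtDens)
    (n : ℕ) {p₀ p₁ p τ Y₀ Y₁ : ℝ} (h0 : 2 ≤ p₀) (h01 : p₀ ≤ p₁) (hp : 2 ≤ p) (hτ0 : 0 ≤ τ)
    (hτ1 : τ ≤ 1) (hpτ : 1 / p = (1 - τ) / p₀ + τ / p₁) (hY0 : 0 < Y₀) (hY1 : 0 < Y₁)
    (A : Finset ℤ) (a₀ : ℤ) (d : ℕ) (y : ℂ) (hA : ∀ a ∈ A, a₀ ≤ a - d)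
    (H0 : ∀ g h, SC g → Z0 g → SC h → Z0 h → ∫ x, (Pg n A a₀ d y g h x) ^ (p₀ / 4) ≤
      Y₀ * (Np p₀ g ^ (1 / 2 : ℝ) * Np p₀ h ^ (1 / 2 : ℝ)))
    (H1 : ∀ g h, SC g → Z0 g → SC h → Z0 h → ∫ x, (Pg n A a₀ d y g h x) ^ (p₁ / 4) ≤
      Y₁ * (Np p₁ g ^ (1 / 2 : ℝ) * Np p₁ h ^ (1 / 2 : ℝ))) (g : ℂ → ℂ) (hg : CC g) :
    Integrable (fun x => (Pg n A a₀ d y g g x) ^ (p / 4)) ∧
    ∫ x, (Pg n A a₀ d y g g x) ^ (p / 4) ≤
      Y₀ ^ ((1 - τ) * p / p₀) * Y₁ ^ (τ * p / p₁) * Np p g := by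
  obtain ⟨hFc, ⟨B, hBd⟩, hF2, -, -⟩ := hB.1 g hg
  have hI : ∀ f, CC f → _ := fun f hf => interp hRT hB hL hF hDe n h0 h01 (by linarith) hτ0 hτ1
    hpτ hY0 hY1 A a₀ d y hA H0 H1 f hf
  have hNi : Integrable (fun x => ‖iF g x‖ ^ p) := int_pow _ hFc hF2 hBd hp
  have hexp : (0 : ℝ) ≤ p / 4 := by linarith
  have hPc : Continuous fun x => (Pg n A a₀ d y g g x) ^ (p / 4) := by
    apply Continuous.rpow_const _ fun x => Or.inr hexp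
    unfold Pg
    refine continuous_finsetSum _ fun a _ => ?_
    have c1 : CC (cut (sh a) (mg n g)) := hF.2.2.2.2.2.2 _ n a (a + 1) hg
    have c2 : CC (cut (bd a₀ (a - d)) (mg n g)) := hF.2.2.2.2.2.2 _ n _ _ hg
    exact (((hB.1 _ c1).1.comp (continuous_id.sub continuous_const)).norm.pow 2).mul
      ((hB.1 _ c2).1.norm.pow 2)
  refine QI.fatou (fun j x => (Ph n A a₀ d y (cut (lo (j : ℤ)) (iF g))
      (cut (lo (j : ℤ)) (iF g)) x) ^ (p / 4)) (fun x => (Pg n A a₀ d y g g x) ^ (p / 4))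
      ?_ ?_ ?_ ?_ hPc ?_
  · have := np_nonneg p g
    positivity
  · intro j
    exact (hI _ (QI.cc_cut hF _ _ hFc)).1
  · intro j x
    exact Real.rpow_nonneg (Ph_nonneg _ _ _ _ _ _ _ _) _
  · intro j
    refine (hI _ (QI.cc_cut hF _ _ hFc)).2.trans ?_
    have h1 : ∫ x, ‖cut (lo (j : ℤ)) (iF g) x‖ ^ p ≤ Np p g := by
      unfold Np
      apply integral_mono_of_nonneg
        (ae_of_all _ fun x => Real.rpow_nonneg (norm_nonneg _) _) hNi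
      refine ae_of_all _ fun x => ?_
      exact Real.rpow_le_rpow (norm_nonneg _) (QI.cut_norm_le hF _ _ x) (by linarith)
    gcongr
  · intro x
    have h1 := Ph_tendsto hF hDe n A a₀ d y (iF g) hFc hBd x
    rw [Ph_iF hDe n A a₀ d y g hg x] at h1
    exact h1.rpow_const (Or.inr hexp)

/-- bookkeeping of the constants -/
theorem core (hRT : StmtRT2) (hB : StmtBase) (hL : StmtL2) (hF : StmtFac) (hDe : StmtDens)
    {p₀ p₁ p τ C₀ C₁ e₀ e₁ : ℝ} (h0 : 2 ≤ p₀) (h01 : p₀ ≤ p₁) (hp : 2 ≤ p) (hτ0 : 0 ≤ τ)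
    (hτ1 : τ ≤ 1) (hpτ : 1 / p = (1 - τ) / p₀ + τ / p₁) (hC0 : 0 < C₀) (hC1 : 0 < C₁)
    (he : 0 < e₀ * ((1 - τ) * p / p₀) + e₁ * (τ * p / p₁)) (n₁ n₂ : ℕ) (hn₁ : 1 ≤ n₁)
    (H0 : ∀ n ≥ n₁, ∀ g h, SC g → Z0 g → SC h → Z0 h →
      ∀ (A : Finset ℤ) (a₀ : ℤ) (d : ℕ) (y : ℂ), (∀ a ∈ A, a₀ ≤ a - d) →
      ∫ x, (Pg n A a₀ d y g h x) ^ (p₀ / 4) ≤ C₀ * ((1 + ‖y‖) ^ p₀ *
        (n : ℝ) ^ (p₀ - 2) * ((2 : ℝ) ^ (-(d : ℤ)) + 1 / n) ^ e₀) *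
        (Np p₀ g ^ (1 / 2 : ℝ) * Np p₀ h ^ (1 / 2 : ℝ)))
    (H1 : ∀ n ≥ n₂, ∀ g h, SC g → Z0 g → SC h → Z0 h →
      ∀ (A : Finset ℤ) (a₀ : ℤ) (d : ℕ) (y : ℂ), (∀ a ∈ A, a₀ ≤ a - d) →
      ∫ x, (Pg n A a₀ d y g h x) ^ (p₁ / 4) ≤ C₁ * ((1 + ‖y‖) ^ p₁ *
        (n : ℝ) ^ (p₁ - 2) * ((2 : ℝ) ^ (-(d : ℤ)) + 1 / n) ^ e₁) *
        (Np p₁ g ^ (1 / 2 : ℝ) * Np p₁ h ^ (1 / 2 : ℝ))) :
    ∃ (C c : ℝ) (n₀ : ℕ), 0 < C ∧ 0 < c ∧ 1 ≤ n₀ ∧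
    ∀ n ≥ n₀, ∀ g, SC g → Z0 g → ∀ (A : Finset ℤ) (a₀ : ℤ) (d : ℕ) (y : ℂ),
    (∀ a ∈ A, a₀ ≤ a - d) →
    Integrable (fun x => (Pg n A a₀ d y g g x) ^ (p / 4)) ∧
    ∫ x, (Pg n A a₀ d y g g x) ^ (p / 4)
      ≤ C * (1 + ‖y‖) ^ (2 * p) * (n : ℝ) ^ (p - 2) *
        ((2 : ℝ) ^ (-(d : ℤ)) + 1 / n) ^ c * Np p g := by
  have hp0 : 0 < p := by linarith
  have hp₀ : 0 < p₀ := by linarith
  have hp₁ : 0 < p₁ := by linarith
  set a : ℝ := (1 - τ) * p / p₀ with ha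
  set b : ℝ := τ * p / p₁ with hb
  have hab : a + b = 1 := by
    have h1 : a + b = ((1 - τ) / p₀ + τ / p₁) * p := by rw [ha, hb]; ring
    rw [h1, ← hpτ]
    field_simp
  have hap : p₀ * a = (1 - τ) * p := by rw [ha]; field_simp
  have hbp : p₁ * b = τ * p := by rw [hb]; field_simp
  refine ⟨C₀ ^ a * C₁ ^ b, e₀ * a + e₁ * b, max n₁ n₂, by positivity, he,
    le_max_of_le_left hn₁, fun n hn g hg hg0 A a₀ d y hA => ?_⟩
  have hn1 : n₁ ≤ n := le_trans (le_max_left _ _) hn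
  have hn2 : n₂ ≤ n := le_trans (le_max_right _ _) hn
  have hn0 : (0 : ℝ) < n := by exact_mod_cast (hn₁.trans hn1)
  set E : ℝ := (2 : ℝ) ^ (-(d : ℤ)) + 1 / n with hE
  have hE0 : 0 < E := by positivity
  have hy0 : 0 < 1 + ‖y‖ := by positivity
  have hy1 : 1 ≤ 1 + ‖y‖ := by linarith [norm_nonneg y]
  obtain ⟨r1, r2⟩ := final hRT hB hL hF hDe n h0 h01 hp hτ0 hτ1 hpτ
    (Y₀ := C₀ * ((1 + ‖y‖) ^ p₀ * (n : ℝ) ^ (p₀ - 2) * E ^ e₀))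
    (Y₁ := C₁ * ((1 + ‖y‖) ^ p₁ * (n : ℝ) ^ (p₁ - 2) * E ^ e₁)) (by positivity) (by positivity)
    A a₀ d y hA (fun g h h1 h2 h3 h4 => H0 n hn1 g h h1 h2 h3 h4 A a₀ d y hA)
    (fun g h h1 h2 h3 h4 => H1 n hn2 g h h1 h2 h3 h4 A a₀ d y hA) g ⟨hg.1.continuous, hg.2⟩
  refine ⟨r1, r2.trans ?_⟩
  have hN := np_nonneg p g
  refine mul_le_mul_of_nonneg_right ?_ hN
  have e1 : (C₀ * ((1 + ‖y‖) ^ p₀ * (n : ℝ) ^ (p₀ - 2) * E ^ e₀)) ^ a *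
      (C₁ * ((1 + ‖y‖) ^ p₁ * (n : ℝ) ^ (p₁ - 2) * E ^ e₁)) ^ b =
      C₀ ^ a * C₁ ^ b * (1 + ‖y‖) ^ p * (n : ℝ) ^ (p - 2) * E ^ (e₀ * a + e₁ * b) := by
    rw [Real.mul_rpow hC0.le (by positivity), Real.mul_rpow (by positivity) (by positivity),
      Real.mul_rpow (by positivity) (by positivity), Real.mul_rpow hC1.le (by positivity),
      Real.mul_rpow (by positivity) (by positivity),
      Real.mul_rpow (by positivity) (by positivity), ← Real.rpow_mul hy0.le,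
      ← Real.rpow_mul hn0.le, ← Real.rpow_mul hE0.le, ← Real.rpow_mul hy0.le,
      ← Real.rpow_mul hn0.le, ← Real.rpow_mul hE0.le]
    have f1 : (1 + ‖y‖) ^ p = (1 + ‖y‖) ^ (p₀ * a) * (1 + ‖y‖) ^ (p₁ * b) := by
      rw [← Real.rpow_add hy0]
      congr 1
      rw [hap, hbp]
      ring
    have f2 : (n : ℝ) ^ (p - 2) = (n : ℝ) ^ ((p₀ - 2) * a) * (n : ℝ) ^ ((p₁ - 2) * b) := by
      rw [← Real.rpow_add hn0]
      congr 1
      have : (p₀ - 2) * a + (p₁ - 2) * b = p₀ * a + p₁ * b - 2 * (a + b) := by ring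
      rw [this, hap, hbp, hab]
      ring
    have f3 : E ^ (e₀ * a + e₁ * b) = E ^ (e₀ * a) * E ^ (e₁ * b) := Real.rpow_add hE0 _ _
    rw [f1, f2, f3]
    ring
  rw [e1]
  have e2 : (1 + ‖y‖) ^ p ≤ (1 + ‖y‖) ^ (2 * p) := Real.rpow_le_rpow_of_exponent_le hy1 (by linarith)
  have e3 : 0 < (n : ℝ) ^ (p - 2) := by positivity
  have e4 : 0 < E ^ (e₀ * a + e₁ * b) := by positivity
  have e5 : 0 < C₀ ^ a * C₁ ^ b := by positivity
  gcongr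

end BIAux

open BIAux in
/-- (BI) decay of the pairs of scales in `L^p`, with a translation -/
theorem bi (hRT : StmtRT2) (hDec : StmtDec2S) (hA : StmtAprR) (hS : StmtSp) (hM : StmtMp)
    (hK : StmtKKm) (hD : Even.StmtDomF) (hLP : Even.StmtLPm) (hDe : Even.StmtDens)
    (hB : Four.StmtBase) (hL : Four.StmtL2) (hF : Four.StmtFac) : StmtBI := by
  intro p hp
  obtain ⟨C₄, n₄, hC₄, hn₄, H4⟩ := four hDec hB hF
  rcases le_or_gt p 4 with h4 | h4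
  · -- between `(2 + p) / 2` and `4`
    have hr : 2 < (2 + p) / 2 := by linarith
    obtain ⟨C, n₀, hC, hn₀, H⟩ := endp hK hLP hM hD hS hA hF hr
    have hpp : (2 + p) / 2 < p := by linarith
    have hd : 0 < 4 - (2 + p) / 2 := by linarith
    set τ : ℝ := 4 * (p - (2 + p) / 2) / (p * (4 - (2 + p) / 2)) with hτ
    have hτ0 : 0 < τ := by
      have : 0 < p - (2 + p) / 2 := by linarith
      positivity
    have hτ1 : τ ≤ 1 := by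
      rw [hτ, div_le_one (by positivity)]
      nlinarith
    refine core hRT hB hL hF hDe (p₀ := (2 + p) / 2) (p₁ := 4) (e₀ := 0) (e₁ := 1) (τ := τ)
      hr.le (by linarith) hp.le hτ0.le hτ1 ?_ hC hC₄ ?_ n₀ n₄ hn₀ ?_ H4
    · have h1 : (2 + p) ≠ 0 := by linarith
      have h2 : (8 - (2 + p)) ≠ 0 := by linarith
      rw [hτ]
      have h3 : (4 - (2 + p) / 2) = (8 - (2 + p)) / 2 := by ring
      rw [h3]
      field_simp
      ring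
    · have : 0 < τ * p / 4 := by positivity
      linarith
    · intro n hn g h hg hg0 hh hh0 A a₀ d y _
      have := H n hn g h hg hg0 hh hh0 A a₀ d y
      rw [Real.rpow_zero, mul_one]
      exact this
  · -- between `4` and `p + 1`
    have hr : 2 < p + 1 := by linarith
    obtain ⟨C, n₀, hC, hn₀, H⟩ := endp hK hLP hM hD hS hA hF hr
    set τ : ℝ := (p + 1) * (p - 4) / (p * (p + 1 - 4)) with hτ
    have hp3 : 0 < p + 1 - 4 := by linarith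
    have hτ0 : 0 < τ := by
      have : 0 < p - 4 := by linarith
      positivity
    have hτ1 : τ < 1 := by
      rw [hτ, div_lt_one (by positivity)]
      nlinarith
    refine core hRT hB hL hF hDe (p₀ := 4) (p₁ := p + 1) (e₀ := 1) (e₁ := 0) (τ := τ)
      (by norm_num) (by linarith) hp.le hτ0.le hτ1.le ?_ hC₄ hC ?_ n₄ n₀ hn₄ H4 ?_
    · have h1 : (p + 1) ≠ 0 := by linarith
      have h2 : (p + 1 - 4) ≠ 0 := by linarith
      rw [hτ]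
      field_simp
      ring
    · have : 0 < (1 - τ) * p / 4 := by
        have : 0 < 1 - τ := by linarith
        positivity
      linarith
    · intro n hn g h hg hg0 hh hh0 A a₀ d y _
      have := H n hn g h hg hg0 hh hh0 A a₀ d y
      rw [Real.rpow_zero, mul_one]
      exact this

end Pool.Agent.Lib.MP_dd244f_an.Rp
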