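import Pool.Agent.Lib.MP_dd244f_an.Rp.Stmts

/-!
Full operator, all real `p`: module BIav (decay of the pairs of scales, with local averages).
-/

set_option autoImplicit false

namespace Pool.Agent.Lib.MP_dd244f_an.Rp

open MeasureTheory Filter Topology Finset
open Pool.Agent.Lib.MP_dd244f_an.Joint (st ct Mst ratio)
open Pool.Agent.Lib.MP_dd244f_an.Four
open Pool.Agent.Lib.MP_dd244f_an.Even
open Pool.Agent.Lib.MP_dd244f_an.Unif (SC)
open scoped SchwartzMap ENNReal NNReal ContDiff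

namespace BIavAux

/-- interpolation of two integrals -/
theorem interp {U f g : ℂ → ℝ} {θ : ℝ} (h0 : 0 ≤ θ) (h1 : θ ≤ 1)
    (hf : Integrable f) (hg : Integrable g) (hf0 : ∀ x, 0 ≤ f x) (hg0 : ∀ x, 0 ≤ g x)
    (hU : ∀ x, U x ≤ f x ^ θ * g x ^ (1 - θ)) :
    ∫⁻ x, ENNReal.ofReal (U x) ≤ ENNReal.ofReal ((∫ x, f x) ^ θ * (∫ x, g x) ^ (1 - θ)) := by
  have hf1 : 0 ≤ ∫ x, f x := integral_nonneg hf0
  have hg1 : 0 ≤ ∫ x, g x := integral_nonneg hg0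
  calc ∫⁻ x, ENNReal.ofReal (U x)
      ≤ ∫⁻ x, ENNReal.ofReal (f x) ^ θ * ENNReal.ofReal (g x) ^ (1 - θ) := by
        refine lintegral_mono fun x => ?_
        have e1 := hf0 x
        rw [ENNReal.ofReal_rpow_of_nonneg (hf0 x) h0,
          ENNReal.ofReal_rpow_of_nonneg (hg0 x) (by linarith),
          ← ENNReal.ofReal_mul (by positivity)]
        exact ENNReal.ofReal_le_ofReal (hU x)
    _ ≤ (∫⁻ x, ENNReal.ofReal (f x)) ^ θ * (∫⁻ x, ENNReal.ofReal (g x)) ^ (1 - θ) :=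
        ENNReal.lintegral_mul_norm_pow_le hf.1.aemeasurable.ennreal_ofReal
          hg.1.aemeasurable.ennreal_ofReal h0 (by linarith) (by ring)
    _ = _ := by
        rw [← ofReal_integral_eq_lintegral_ofReal hf (Eventually.of_forall hf0),
          ← ofReal_integral_eq_lintegral_ofReal hg (Eventually.of_forall hg0),
          ENNReal.ofReal_rpow_of_nonneg hf1 h0, ENNReal.ofReal_rpow_of_nonneg hg1 (by linarith),
          ENNReal.ofReal_mul (by positivity)]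

/-- the discrete Hölder inequality -/
theorem holder_sum {ι : Type*} (A : Finset ι) (s t : ι → ℝ) {a b : ℝ} (ha : 0 < a) (hb : 0 < b)
    (hab : a + b = 1) (hs : ∀ i, 0 ≤ s i) (ht : ∀ i, 0 ≤ t i) :
    ∑ i ∈ A, s i ^ a * t i ^ b ≤ (∑ i ∈ A, s i) ^ a * (∑ i ∈ A, t i) ^ b := by
  have hpq : (1 / a).HolderConjugate (1 / b) := by
    rw [Real.holderConjugate_iff]
    constructor
    · rw [lt_div_iff₀ ha]; linarith
    · rw [one_div, one_div, inv_inv, inv_inv]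
      exact hab
  have h := Real.inner_le_Lp_mul_Lq_of_nonneg A hpq (f := fun i => s i ^ a)
    (g := fun i => t i ^ b) (fun i _ => Real.rpow_nonneg (hs i) a)
    (fun i _ => Real.rpow_nonneg (ht i) b)
  have e1 : ∀ i, (s i ^ a) ^ (1 / a) = s i := fun i => by
    rw [← Real.rpow_mul (hs i), mul_one_div_cancel ha.ne', Real.rpow_one]
  have e2 : ∀ i, (t i ^ b) ^ (1 / b) = t i := fun i => by
    rw [← Real.rpow_mul (ht i), mul_one_div_cancel hb.ne', Real.rpow_one]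
  simp only [e1, e2, one_div_one_div] at h
  exact h

/-- the substitution in the local averages -/
theorem qm_eq (a : ℤ) (G : ℂ → ℂ) (x : ℂ) : qm 8 a G x = ∫ y : ℂ, KKm 8 1 y *
    ‖iF (cut (sh a) G) (x - (((2 : ℝ) ^ (-a) : ℝ) : ℂ) * y)‖ ^ 2 := by
  have hρ : (0 : ℝ) < (2 : ℝ) ^ (-a) := by positivity
  set ρ : ℝ := (2 : ℝ) ^ (-a) with hρd
  unfold qm
  rw [← hρd]
  have h1 := integral_sub_left_eq_self
    (fun w : ℂ => KKm 8 ρ w * ‖iF (cut (sh a) G) (x - w)‖ ^ 2) volume x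
  simp only [sub_sub_cancel] at h1
  rw [h1]
  have h2 := Measure.integral_comp_smul (volume : Measure ℂ)
    (fun w : ℂ => KKm 8 ρ w * ‖iF (cut (sh a) G) (x - w)‖ ^ 2) ρ
  rw [Complex.finrank_real_complex, smul_eq_mul, abs_of_pos (by positivity)] at h2
  have h3 : ∫ w : ℂ, KKm 8 ρ w * ‖iF (cut (sh a) G) (x - w)‖ ^ 2
      = ρ ^ 2 * ∫ y : ℂ, KKm 8 ρ (ρ • y) * ‖iF (cut (sh a) G) (x - ρ • y)‖ ^ 2 := by
    rw [h2]
    field_simp
  rw [h3, ← integral_const_mul]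
  refine integral_congr_ae (Eventually.of_forall fun y => ?_)
  simp only [Complex.real_smul]
  have h4 : ρ ^ 2 * KKm 8 ρ ((ρ : ℂ) * y) = KKm 8 1 y := by
    unfold KKm
    rw [norm_mul, Complex.norm_real, Real.norm_of_nonneg hρ.le]
    have e : ρ ^ 2 + (ρ * ‖y‖) ^ 2 = ρ ^ 2 * (1 + ‖y‖ ^ 2) := by ring
    rw [e]
    have : 0 < 1 + ‖y‖ ^ 2 := by positivity
    field_simp
    norm_num
  rw [← mul_assoc, h4]

theorem kkm_cont (m : ℕ) {ρ : ℝ} (hρ : 0 < ρ) : Continuous (KKm m ρ) := by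
  unfold KKm
  refine Continuous.div (by fun_prop) (by fun_prop) fun x => ?_
  positivity

theorem qm_meas {G : ℂ → ℂ} (hc : ∀ a, Continuous (iF (cut (sh a) G))) (m : ℕ) (a : ℤ) :
    StronglyMeasurable (qm m a G) := by
  have h : Continuous (fun z : ℂ × ℂ => KKm m ((2 : ℝ) ^ (-a)) (z.1 - z.2) *
      ‖iF (cut (sh a) G) z.2‖ ^ 2) :=
    ((kkm_cont m (by positivity)).comp (continuous_fst.sub continuous_snd)).mul
      (((hc a).comp continuous_snd).norm.pow 2)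
  exact h.stronglyMeasurable.integral_prod_right'

/-- the weight of the translations -/
theorem growth (y : ℂ) : KKm 8 1 y * (1 + ‖y‖) ^ 8 ≤ 16 * KKm 4 1 y := by
  unfold KKm
  have h1 : (1 + ‖y‖) ^ 2 ≤ 2 * (1 + ‖y‖ ^ 2) := by nlinarith [sq_nonneg (1 - ‖y‖)]
  have h2 : (1 + ‖y‖) ^ 8 ≤ 16 * (1 + ‖y‖ ^ 2) ^ 4 := by
    calc (1 + ‖y‖) ^ 8 = ((1 + ‖y‖) ^ 2) ^ 4 := by ring
      _ ≤ (2 * (1 + ‖y‖ ^ 2)) ^ 4 := pow_le_pow_left₀ (by positivity) h1 4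
      _ = _ := by ring
  have h0 : 0 < 1 + ‖y‖ ^ 2 := by positivity
  simp only [one_pow]
  rw [div_mul_eq_mul_div, mul_div_assoc', div_le_div_iff₀ (by positivity) (by positivity)]
  calc 1 * (1 + ‖y‖) ^ 8 * (1 + ‖y‖ ^ 2) ^ 4 ≤ 1 * (16 * (1 + ‖y‖ ^ 2) ^ 4) * (1 + ‖y‖ ^ 2) ^ 4 := by
        gcongr
    _ = _ := by ring

/-- the algebra of the constants -/
theorem consts {C₁ C₂ Y p κ P D c N θ : ℝ} (hC₁ : 0 ≤ C₁) (hC₂ : 0 ≤ C₂) (hY : 1 ≤ Y)
    (hP : 0 ≤ P) (hD : 0 ≤ D) (hN : 0 ≤ N) (h0 : 0 < θ) (h1 : θ ≤ 1)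
    (hκ : 2 * p * θ + κ * (1 - θ) ≤ 8) :
    (C₁ * Y ^ (2 * p) * P * D ^ c * N) ^ θ * (C₂ * Y ^ κ * (P * N)) ^ (1 - θ)
      ≤ C₁ ^ θ * C₂ ^ (1 - θ) * P * D ^ (c * θ) * N * Y ^ (8 : ℕ) := by
  have hY0 : 0 < Y := by linarith
  have h2 : 0 ≤ 1 - θ := by linarith
  rw [Real.mul_rpow (by positivity) hN, Real.mul_rpow (by positivity) (by positivity),
    Real.mul_rpow (by positivity) hP, Real.mul_rpow hC₁ (by positivity),
    Real.mul_rpow (x := C₂ * Y ^ κ) (by positivity) (by positivity),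
    Real.mul_rpow hC₂ (by positivity), Real.mul_rpow hP hN,
    ← Real.rpow_mul hY0.le, ← Real.rpow_mul hY0.le, ← Real.rpow_mul hD]
  have eP : P ^ θ * P ^ (1 - θ) = P := by
    rw [← Real.rpow_add_of_nonneg hP h0.le h2]
    simp
  have eN : N ^ θ * N ^ (1 - θ) = N := by
    rw [← Real.rpow_add_of_nonneg hN h0.le h2]
    simp
  have eY : Y ^ (2 * p * θ) * Y ^ (κ * (1 - θ)) ≤ Y ^ (8 : ℕ) := by
    rw [← Real.rpow_add hY0, ← Real.rpow_natCast Y 8]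
    exact Real.rpow_le_rpow_of_exponent_le hY (by push_cast; exact hκ)
  calc C₁ ^ θ * Y ^ (2 * p * θ) * P ^ θ * D ^ (c * θ) * N ^ θ *
        (C₂ ^ (1 - θ) * Y ^ (κ * (1 - θ)) * (P ^ (1 - θ) * N ^ (1 - θ)))
      = C₁ ^ θ * C₂ ^ (1 - θ) * (P ^ θ * P ^ (1 - θ)) * D ^ (c * θ) * (N ^ θ * N ^ (1 - θ)) *
        (Y ^ (2 * p * θ) * Y ^ (κ * (1 - θ))) := by ring
    _ ≤ _ := by
        rw [eP, eN]
        exact mul_le_mul_of_nonneg_left eY (by positivity)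

/-- the auxiliary weight -/
def Key (p θ κ C₃ : ℝ) : Prop := ∀ G, CC G → ∀ (A : Finset ℤ) (a₀ : ℤ) (d : ℕ) (y : ℂ),
  ∃ V : ℂ → ℝ, (∀ x, 0 ≤ V x) ∧ Integrable V ∧ ∫ x, V x ≤ C₃ * (1 + ‖y‖) ^ κ * Np p G ∧
  ∀ x, ∑ a ∈ A, ‖iF (cut (sh a) G) (x - (((2 : ℝ) ^ (-a) : ℝ) : ℂ) * y)‖ ^ 2 *
      ‖iF (cut (bd a₀ (a - d)) G) x‖ ^ (p - 2)
    ≤ ((∑ a ∈ A, ‖iF (cut (sh a) G) (x - (((2 : ℝ) ^ (-a) : ℝ) : ℂ) * y)‖ ^ 2 *
      ‖iF (cut (bd a₀ (a - d)) G) x‖ ^ 2) ^ (p / 4)) ^ θ * V x ^ (1 - θ)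

theorem key_high {p : ℝ} (hp : 4 ≤ p) (hMp : StmtMp) (hD : StmtDomF) :
    ∃ C₃, 0 < C₃ ∧ Key p (4 / p) 0 C₃ := by
  obtain ⟨C, hC, hMp⟩ := hMp p (by linarith)
  obtain ⟨C', hC', hD⟩ := hD
  have hp0 : 0 < p := by linarith
  refine ⟨C' ^ (p / 2) * C, by positivity, ?_⟩
  intro G hG A a₀ d y
  obtain ⟨M, hM, hMi, hMb⟩ := hMp G hG
  have hM0 := hM.2.1
  refine ⟨fun x => (C' * M x) ^ (p / 2), fun x => ?_, ?_, ?_, fun x => ?_⟩
  · have := hM0 x
    positivity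
  · have : (fun x => (C' * M x) ^ (p / 2)) = fun x => C' ^ (p / 2) * M x ^ (p / 2) := by
      ext x
      rw [Real.mul_rpow hC'.le (hM0 x)]
    rw [this]
    exact hMi.const_mul _
  · have : (fun x => (C' * M x) ^ (p / 2)) = fun x => C' ^ (p / 2) * M x ^ (p / 2) := by
      ext x
      rw [Real.mul_rpow hC'.le (hM0 x)]
    rw [this, integral_const_mul, Real.rpow_zero, mul_one, mul_assoc]
    exact mul_le_mul_of_nonneg_left hMb (by positivity)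
  · have hm : 0 ≤ C' * M x := mul_nonneg hC'.le (hM0 x)
    set S : ℝ := ∑ a ∈ A, ‖iF (cut (sh a) G) (x - (((2 : ℝ) ^ (-a) : ℝ) : ℂ) * y)‖ ^ 2 *
      ‖iF (cut (bd a₀ (a - d)) G) x‖ ^ 2 with hS
    have hS0 : 0 ≤ S := Finset.sum_nonneg fun a _ => by positivity
    have e1 : (S ^ (p / 4)) ^ (4 / p) = S := by
      rw [← Real.rpow_mul hS0]
      have : p / 4 * (4 / p) = 1 := by field_simp
      rw [this, Real.rpow_one]
    have e2 : ((C' * M x) ^ (p / 2)) ^ (1 - 4 / p) = (C' * M x) ^ ((p - 4) / 2) := by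
      rw [← Real.rpow_mul hm]
      congr 1
      field_simp
    rw [e1, e2, hS, Finset.sum_mul]
    refine Finset.sum_le_sum fun a _ => ?_
    rw [mul_assoc]
    refine mul_le_mul_of_nonneg_left ?_ (by positivity)
    set W : ℝ := ‖iF (cut (bd a₀ (a - d)) G) x‖ with hW
    have hW0 : 0 ≤ W := norm_nonneg _
    have hWM : W ^ 2 ≤ C' * M x := (hD G M hG hM x).2.2.1 _ _
    have e3 : W ^ (p - 2) = W ^ 2 * (W ^ 2) ^ ((p - 4) / 2) := by
      rw [← Real.rpow_natCast W 2, ← Real.rpow_mul hW0,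
        ← Real.rpow_add_of_nonneg hW0 (by norm_num) (by push_cast; linarith)]
      congr 1
      push_cast
      ring
    rw [e3]
    exact mul_le_mul_of_nonneg_left (Real.rpow_le_rpow (by positivity) hWM (by linarith))
      (by positivity)

theorem qm_two (a : ℤ) (g : ℂ → ℂ) (x : ℂ) : qm 2 a g x = qa a g x := by
  unfold qm qa KKm KK
  rfl

theorem key_low {p : ℝ} (hp : 2 < p) (hp4 : p < 4) (hSp : StmtSp) (hK : StmtKKm)
    (hL : StmtLPm) : ∃ C₃, 0 < C₃ ∧ Key p (2 * (p - 2) / p) (2 * p) C₃ := by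
  obtain ⟨C, hC, hSp⟩ := hSp p hp
  obtain ⟨C', hC', hL⟩ := hL 2 le_rfl
  have hK2 := (hK 2 le_rfl).2.2.2
  have hp0 : 0 < p := by linarith
  refine ⟨(4 * C') ^ (p / 2) * C, by positivity, ?_⟩
  intro G hG A a₀ d y
  obtain ⟨-, -, -, hQi, hQb⟩ := hSp A G hG
  have hq0 : ∀ a x, 0 ≤ qa a G x := fun a x => by
    have := ((hK 2 le_rfl).2.2.1 a G x hG).1
    rwa [qm_two] at this
  have hQ0 : ∀ x, 0 ≤ ∑ a ∈ A, qa a G x := fun x => Finset.sum_nonneg fun a _ => hq0 a x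
  have hY : (1 : ℝ) ≤ 1 + ‖y‖ := by linarith [norm_nonneg y]
  -- the translates
  have hT : ∀ a x, ‖iF (cut (sh a) G) (x - (((2 : ℝ) ^ (-a) : ℝ) : ℂ) * y)‖ ^ 2
      ≤ 4 * C' * (1 + ‖y‖) ^ 4 * qa a G x := by
    intro a x
    have h1 := hL a G hG (x - (((2 : ℝ) ^ (-a) : ℝ) : ℂ) * y)
    have h2 := hK2 a G x (-((((2 : ℝ) ^ (-a) : ℝ) : ℂ) * y)) hG
    rw [← sub_eq_add_neg, norm_neg, norm_mul, Complex.norm_real,
      Real.norm_of_nonneg (by positivity), qm_two, qm_two] at h2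
    have e : ((2 : ℝ) ^ (-a) * ‖y‖) ^ 2 * (4 : ℝ) ^ a = ‖y‖ ^ 2 := by
      rw [mul_pow, ← zpow_natCast ((2 : ℝ) ^ (-a)) 2, ← zpow_mul]
      have : (4 : ℝ) ^ a = (2 : ℝ) ^ (2 * a) := by
        rw [zpow_mul]; norm_num
      rw [this]
      have h3 : (2 : ℝ) ^ (-a * ((2 : ℕ) : ℤ)) * (2 : ℝ) ^ (2 * a) = 1 := by
        rw [← zpow_add₀ (by norm_num)]
        have : -a * ((2 : ℕ) : ℤ) + 2 * a = 0 := by push_cast; ring
        rw [this, zpow_zero]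
      calc (2 : ℝ) ^ (-a * ((2 : ℕ) : ℤ)) * ‖y‖ ^ 2 * (2 : ℝ) ^ (2 * a)
          = ((2 : ℝ) ^ (-a * ((2 : ℕ) : ℤ)) * (2 : ℝ) ^ (2 * a)) * ‖y‖ ^ 2 := by ring
        _ = _ := by rw [h3, one_mul]
    rw [e] at h2
    have h4 : ∫ z, KKm 2 ((2 : ℝ) ^ (-a)) (x - (((2 : ℝ) ^ (-a) : ℝ) : ℂ) * y - z) *
        ‖iF (cut (sh a) G) z‖ ^ 2 = qa a G (x - (((2 : ℝ) ^ (-a) : ℝ) : ℂ) * y) := by
      rw [← qm_two]
      rfl
    rw [h4] at h1
    have h5 : (1 + ‖y‖ ^ 2) ^ 2 ≤ (1 + ‖y‖) ^ 4 := by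
      have : 1 + ‖y‖ ^ 2 ≤ (1 + ‖y‖) ^ 2 := by nlinarith [norm_nonneg y]
      calc (1 + ‖y‖ ^ 2) ^ 2 ≤ ((1 + ‖y‖) ^ 2) ^ 2 := pow_le_pow_left₀ (by positivity) this 2
        _ = _ := by ring
    calc _ ≤ C' * qa a G (x - (((2 : ℝ) ^ (-a) : ℝ) : ℂ) * y) := h1
      _ ≤ C' * (2 ^ 2 * (1 + ‖y‖ ^ 2) ^ 2 * qa a G x) := mul_le_mul_of_nonneg_left h2 hC'.le
      _ ≤ C' * (2 ^ 2 * (1 + ‖y‖) ^ 4 * qa a G x) := by
          have := hq0 a x
          gcongr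
      _ = _ := by ring
  refine ⟨fun x => (4 * C' * (1 + ‖y‖) ^ 4 * ∑ a ∈ A, qa a G x) ^ (p / 2), fun x => ?_, ?_, ?_,
    fun x => ?_⟩
  · have := hQ0 x
    positivity
  · have : (fun x => (4 * C' * (1 + ‖y‖) ^ 4 * ∑ a ∈ A, qa a G x) ^ (p / 2)) =
        fun x => (4 * C' * (1 + ‖y‖) ^ 4) ^ (p / 2) * (∑ a ∈ A, qa a G x) ^ (p / 2) := by
      ext x
      rw [Real.mul_rpow (by positivity) (hQ0 x)]
    rw [this]
    exact hQi.const_mul _
  · have : (fun x => (4 * C' * (1 + ‖y‖) ^ 4 * ∑ a ∈ A, qa a G x) ^ (p / 2)) =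
        fun x => (4 * C' * (1 + ‖y‖) ^ 4) ^ (p / 2) * (∑ a ∈ A, qa a G x) ^ (p / 2) := by
      ext x
      rw [Real.mul_rpow (by positivity) (hQ0 x)]
    rw [this, integral_const_mul, Real.mul_rpow (by positivity) (by positivity)]
    have e : ((1 + ‖y‖) ^ 4) ^ (p / 2) = (1 + ‖y‖) ^ (2 * p) := by
      rw [← Real.rpow_natCast _ 4, ← Real.rpow_mul (by positivity)]
      congr 1
      push_cast
      ring
    rw [e]
    calc (4 * C') ^ (p / 2) * (1 + ‖y‖) ^ (2 * p) * ∫ x, (∑ a ∈ A, qa a G x) ^ (p / 2)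
        ≤ (4 * C') ^ (p / 2) * (1 + ‖y‖) ^ (2 * p) * (C * Np p G) :=
          mul_le_mul_of_nonneg_left hQb (by positivity)
      _ = _ := by ring
  · set s : ℤ → ℝ := fun a => ‖iF (cut (sh a) G) (x - (((2 : ℝ) ^ (-a) : ℝ) : ℂ) * y)‖ ^ 2 *
      ‖iF (cut (bd a₀ (a - d)) G) x‖ ^ 2 with hs
    set t : ℤ → ℝ := fun a => ‖iF (cut (sh a) G) (x - (((2 : ℝ) ^ (-a) : ℝ) : ℂ) * y)‖ ^ 2 with ht
    have hs0 : ∀ a, 0 ≤ s a := fun a => by simp only [hs]; positivity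
    have ht0 : ∀ a, 0 ≤ t a := fun a => by simp only [ht]; positivity
    have hS0 : 0 ≤ ∑ a ∈ A, s a := Finset.sum_nonneg fun a _ => hs0 a
    have hT0 : 0 ≤ ∑ a ∈ A, t a := Finset.sum_nonneg fun a _ => ht0 a
    have hQ := hQ0 x
    have e1 : ((∑ a ∈ A, s a) ^ (p / 4)) ^ (2 * (p - 2) / p) = (∑ a ∈ A, s a) ^ ((p - 2) / 2) := by
      rw [← Real.rpow_mul hS0]
      congr 1
      field_simp
      ring
    have e2 : ((4 * C' * (1 + ‖y‖) ^ 4 * ∑ a ∈ A, qa a G x) ^ (p / 2)) ^ (1 - 2 * (p - 2) / p)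
        = (4 * C' * (1 + ‖y‖) ^ 4 * ∑ a ∈ A, qa a G x) ^ ((4 - p) / 2) := by
      rw [← Real.rpow_mul (by positivity)]
      congr 1
      field_simp
      ring
    rw [e1, e2]
    have h1 := holder_sum A s t (a := (p - 2) / 2) (b := (4 - p) / 2) (by linarith) (by linarith)
      (by ring) hs0 ht0
    have h2 : ∑ a ∈ A, t a ≤ 4 * C' * (1 + ‖y‖) ^ 4 * ∑ a ∈ A, qa a G x := by
      rw [Finset.mul_sum]
      exact Finset.sum_le_sum fun a _ => hT a x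
    calc ∑ a ∈ A, ‖iF (cut (sh a) G) (x - (((2 : ℝ) ^ (-a) : ℝ) : ℂ) * y)‖ ^ 2 *
          ‖iF (cut (bd a₀ (a - d)) G) x‖ ^ (p - 2)
        = ∑ a ∈ A, s a ^ ((p - 2) / 2) * t a ^ ((4 - p) / 2) := by
          refine Finset.sum_congr rfl fun a _ => ?_
          simp only [hs, ht]
          set u : ℝ := ‖iF (cut (sh a) G) (x - (((2 : ℝ) ^ (-a) : ℝ) : ℂ) * y)‖ with hu
          set w : ℝ := ‖iF (cut (bd a₀ (a - d)) G) x‖ with hw
          have hu0 : 0 ≤ u := norm_nonneg _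
          have hw0 : 0 ≤ w := norm_nonneg _
          rw [Real.mul_rpow (by positivity) (by positivity)]
          have e3 : (w ^ 2) ^ ((p - 2) / 2) = w ^ (p - 2) := by
            rw [← Real.rpow_natCast w 2, ← Real.rpow_mul hw0]
            congr 1
            push_cast
            ring
          have e4 : (u ^ 2) ^ ((p - 2) / 2) * (u ^ 2) ^ ((4 - p) / 2) = u ^ 2 := by
            rw [← Real.rpow_add_of_nonneg (by positivity) (by linarith) (by linarith)]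
            have : (p - 2) / 2 + (4 - p) / 2 = 1 := by ring
            rw [this, Real.rpow_one]
          rw [e3, mul_right_comm, e4]
      _ ≤ (∑ a ∈ A, s a) ^ ((p - 2) / 2) * (∑ a ∈ A, t a) ^ ((4 - p) / 2) := h1
      _ ≤ _ := mul_le_mul_of_nonneg_left (Real.rpow_le_rpow hT0 h2 (by linarith)) (by positivity)

theorem key {p : ℝ} (hp : 2 < p) (hSp : StmtSp) (hMp : StmtMp) (hK : StmtKKm) (hD : StmtDomF)
    (hL : StmtLPm) : ∃ θ κ C₃ : ℝ, 0 < θ ∧ θ ≤ 1 ∧ 2 * p * θ + κ * (1 - θ) ≤ 8 ∧ 0 < C₃ ∧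
      Key p θ κ C₃ := by
  have hp0 : 0 < p := by linarith
  rcases le_or_gt 4 p with h | h
  · obtain ⟨C₃, hC₃, hk⟩ := key_high h hMp hD
    refine ⟨4 / p, 0, C₃, by positivity, ?_, ?_, hC₃, hk⟩
    · rw [div_le_one hp0]; exact h
    · have : 2 * p * (4 / p) = 8 := by field_simp; norm_num
      rw [this]; simp
  · obtain ⟨C₃, hC₃, hk⟩ := key_low hp h hSp hK hL
    refine ⟨2 * (p - 2) / p, 2 * p, C₃, ?_, ?_, ?_, hC₃, hk⟩
    · have : 0 < p - 2 := by linarith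
      positivity
    · rw [div_le_one hp0]; linarith
    · have : 2 * p * (2 * (p - 2) / p) + 2 * p * (1 - 2 * (p - 2) / p) = 2 * p := by ring
      rw [this]; linarith

/-- Tonelli -/
theorem tonelli {q k w : ℂ → ℝ} {u : ℂ → ℂ → ℝ} (hk : Continuous k)
    (hu : Continuous (fun z : ℂ × ℂ => u z.1 z.2)) (hw : Continuous w) (hk0 : ∀ y, 0 ≤ k y)
    (hu0 : ∀ x y, 0 ≤ u x y) (hw0 : ∀ x, 0 ≤ w x) (hq : ∀ x, q x = ∫ y, k y * u x y) :
    ∫⁻ x, ENNReal.ofReal (q x * w x) ≤ ∫⁻ y, ENNReal.ofReal (k y) *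
      ∫⁻ x, ENNReal.ofReal (u x y * w x) := by
  have hu1 : ∀ x, Continuous (fun y : ℂ => u x y) := fun x =>
    hu.comp (continuous_const.prodMk continuous_id)
  have hu2 : ∀ y, Continuous (fun x : ℂ => u x y) := fun y =>
    hu.comp (continuous_id.prodMk continuous_const)
  have hm : Measurable (Function.uncurry fun x y : ℂ => ENNReal.ofReal (k y) *
      ENNReal.ofReal (u x y * w x)) := by
    have h1 : Measurable fun z : ℂ × ℂ => ENNReal.ofReal (k z.2) :=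
      (hk.comp continuous_snd).measurable.ennreal_ofReal
    have h2 : Measurable fun z : ℂ × ℂ => ENNReal.ofReal (u z.1 z.2 * w z.1) :=
      (hu.mul (hw.comp continuous_fst)).measurable.ennreal_ofReal
    exact h1.mul h2
  calc ∫⁻ x, ENNReal.ofReal (q x * w x)
      ≤ ∫⁻ x, ∫⁻ y, ENNReal.ofReal (k y) * ENNReal.ofReal (u x y * w x) := by
        refine lintegral_mono fun x => ?_
        have h1 : ENNReal.ofReal (q x) ≤ ∫⁻ y, ENNReal.ofReal (k y * u x y) := by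
          rw [hq, integral_eq_lintegral_of_nonneg_ae
            (Eventually.of_forall fun y => mul_nonneg (hk0 y) (hu0 x y))
            (hk.mul (hu1 x)).aestronglyMeasurable]
          exact ENNReal.ofReal_toReal_le
        rw [ENNReal.ofReal_mul' (hw0 x)]
        calc ENNReal.ofReal (q x) * ENNReal.ofReal (w x)
            ≤ (∫⁻ y, ENNReal.ofReal (k y * u x y)) * ENNReal.ofReal (w x) := by gcongr
          _ = ∫⁻ y, ENNReal.ofReal (k y * u x y) * ENNReal.ofReal (w x) := by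
              rw [lintegral_mul_const]
              exact (hk.mul (hu1 x)).measurable.ennreal_ofReal
          _ = _ := by
              refine lintegral_congr fun y => ?_
              rw [← ENNReal.ofReal_mul (mul_nonneg (hk0 y) (hu0 x y)),
                ← ENNReal.ofReal_mul (hk0 y), mul_assoc]
    _ = ∫⁻ y, ∫⁻ x, ENNReal.ofReal (k y) * ENNReal.ofReal (u x y * w x) :=
        lintegral_lintegral_swap hm.aemeasurable
    _ = _ := by
        refine lintegral_congr fun y => ?_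
        rw [lintegral_const_mul]
        exact ((hu2 y).mul hw).measurable.ennreal_ofReal

end BIavAux

open BIavAux

theorem biav (hBI : StmtBI) (hSp : StmtSp) (hMp : StmtMp) (hA : StmtAprR) (hK : StmtKKm)
    (hS : StmtSch) (hD : StmtDomF) (hL : StmtLPm) (hB : StmtBase) (hF : StmtFac) : StmtBIav := by
  intro p hp
  have hp0 : 0 < p := by linarith
  obtain ⟨C₁, c, n₁, hC₁, hc, hn₁, hBI⟩ := hBI p hp
  obtain ⟨C₂, n₂, hC₂, hn₂, hA⟩ := hA p hp.le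
  obtain ⟨θ, κ, C₃, hθ0, hθ1, hκ, hC₃, hkey⟩ := key hp hSp hMp hK hD hL
  obtain ⟨hKi, hKp, -⟩ := (hK 4 (by norm_num)).1 1 one_pos
  set I₄ : ℝ := ∫ y, KKm 4 1 y with hI₄
  have hI₄0 : 0 ≤ I₄ := integral_nonneg fun y => (hKp y).1.le
  refine ⟨16 * (I₄ + 1) * (C₁ ^ θ * (C₃ * C₂) ^ (1 - θ)), c * θ, max n₁ n₂, by positivity,
    by positivity, le_max_of_le_left hn₁, ?_⟩
  intro n hn g hg hg0 A a₀ d hA0
  have hnn₁ : n₁ ≤ n := (le_max_left _ _).trans hn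
  have hnn₂ : n₂ ≤ n := (le_max_right _ _).trans hn
  have hn1 : 1 ≤ n := hn₁.trans hnn₁
  have hn0 : (0 : ℝ) < n := by exact_mod_cast hn1
  have hGS : SC (mg n g) := (hS.2.2.2.2.2 g hg).2.2.2.2.2.2.2.2 n hn1 hg0 |>.1
  have hG : CC (mg n g) := hS.1 _ hGS
  set G : ℂ → ℂ := mg n g with hGd
  have hAG : Np p G ≤ C₂ * (n : ℝ) ^ (p - 2) * Np p g := hA n hnn₂ g hg hg0
  have hN0 : 0 ≤ Np p g := integral_nonneg fun _ => by positivity
  have hFc : ∀ a, Continuous (iF (cut (sh a) G)) := fun a => (hB.1 _ (hF.2.2.2.2.1 G a a hG).2.2).1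
  have hWc : ∀ a b, Continuous (iF (cut (bd a b) G)) := fun a b =>
    (hB.1 _ (hF.2.2.2.2.1 G a b hG).2.1).1
  set P : ℝ := (n : ℝ) ^ (p - 2) with hP
  have hP0 : 0 ≤ P := by positivity
  set D : ℝ := (2 : ℝ) ^ (-(d : ℤ)) + 1 / n with hDd
  have hD0 : 0 ≤ D := by positivity
  set K : ℝ := C₁ ^ θ * (C₃ * C₂) ^ (1 - θ) * P * D ^ (c * θ) * Np p g with hKd
  have hK0 : 0 ≤ K := by positivity
  -- the bound for each translation
  have step1 : ∀ y : ℂ, ∫⁻ x, ENNReal.ofReal (∑ a ∈ A,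
      ‖iF (cut (sh a) G) (x - (((2 : ℝ) ^ (-a) : ℝ) : ℂ) * y)‖ ^ 2 *
      ‖iF (cut (bd a₀ (a - d)) G) x‖ ^ (p - 2)) ≤ ENNReal.ofReal (K * (1 + ‖y‖) ^ 8) := by
    intro y
    obtain ⟨hBi, hBb⟩ := hBI n hnn₁ g hg hg0 A a₀ d y hA0
    obtain ⟨V, hV0, hVi, hVb, hVU⟩ := hkey G hG A a₀ d y
    have h1 := interp hθ0.le hθ1 hBi hVi (fun x => by positivity) hV0 hVU
    refine h1.trans (ENNReal.ofReal_le_ofReal ?_)
    have hY : (1 : ℝ) ≤ 1 + ‖y‖ := by linarith [norm_nonneg y]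
    have h2 : ∫ x, V x ≤ C₃ * C₂ * (1 + ‖y‖) ^ κ * (P * Np p g) := by
      calc ∫ x, V x ≤ C₃ * (1 + ‖y‖) ^ κ * Np p G := hVb
        _ ≤ C₃ * (1 + ‖y‖) ^ κ * (C₂ * P * Np p g) :=
            mul_le_mul_of_nonneg_left hAG (by positivity)
        _ = _ := by ring
    have h3 : 0 ≤ ∫ x, (∑ a ∈ A,
      ‖iF (cut (sh a) G) (x - (((2 : ℝ) ^ (-a) : ℝ) : ℂ) * y)‖ ^ 2 *
      ‖iF (cut (bd a₀ (a - d)) G) x‖ ^ 2) ^ (p / 4) := integral_nonneg fun x => by positivity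
    have h4 : 0 ≤ ∫ x, V x := integral_nonneg hV0
    calc _ ≤ (C₁ * (1 + ‖y‖) ^ (2 * p) * P * D ^ c * Np p g) ^ θ *
          (C₃ * C₂ * (1 + ‖y‖) ^ κ * (P * Np p g)) ^ (1 - θ) := by
          refine mul_le_mul (Real.rpow_le_rpow h3 hBb hθ0.le)
            (Real.rpow_le_rpow h4 h2 (by linarith)) (by positivity) (by positivity)
      _ ≤ _ := consts hC₁.le (by positivity) hY hP0 hD0 hN0 hθ0 hθ1 hκ
  -- Tonelli
  have step2 : ∀ a, ∫⁻ x, ENNReal.ofReal (qm 8 a G x *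
      ‖iF (cut (bd a₀ (a - d)) G) x‖ ^ (p - 2)) ≤ ∫⁻ y, ENNReal.ofReal (KKm 8 1 y) *
        ∫⁻ x, ENNReal.ofReal (‖iF (cut (sh a) G) (x - (((2 : ℝ) ^ (-a) : ℝ) : ℂ) * y)‖ ^ 2 *
          ‖iF (cut (bd a₀ (a - d)) G) x‖ ^ (p - 2)) := by
    intro a
    refine tonelli (q := qm 8 a G) (k := KKm 8 1)
      (u := fun x y => ‖iF (cut (sh a) G) (x - (((2 : ℝ) ^ (-a) : ℝ) : ℂ) * y)‖ ^ 2)
      (w := fun x => ‖iF (cut (bd a₀ (a - d)) G) x‖ ^ (p - 2)) (kkm_cont 8 one_pos) ?_ ?_ ?_ ?_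
      (fun x => by positivity) (fun x => qm_eq a G x)
    · exact ((hFc a).comp (continuous_fst.sub (continuous_const.mul continuous_snd))).norm.pow 2
    · exact (hWc _ _).norm.rpow_const fun _ => Or.inr (by linarith)
    · intro y
      unfold KKm
      positivity
    · intro x y
      positivity
  -- the sum
  have hmf : ∀ a y, Measurable fun x : ℂ => ENNReal.ofReal
      (‖iF (cut (sh a) G) (x - (((2 : ℝ) ^ (-a) : ℝ) : ℂ) * y)‖ ^ 2 *
          ‖iF (cut (bd a₀ (a - d)) G) x‖ ^ (p - 2)) := by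
    intro a y
    have hwc : Continuous (fun x => ‖iF (cut (bd a₀ (a - d)) G) x‖ ^ (p - 2)) :=
      (hWc _ _).norm.rpow_const fun _ => Or.inr (by linarith)
    have hj'' : Continuous (fun x : ℂ =>
        ‖iF (cut (sh a) G) (x - (((2 : ℝ) ^ (-a) : ℝ) : ℂ) * y)‖ ^ 2) :=
      ((hFc a).comp (continuous_id.sub continuous_const)).norm.pow 2
    exact (hj''.mul hwc).measurable.ennreal_ofReal
  have hmy : ∀ a, Measurable fun y : ℂ => ENNReal.ofReal (KKm 8 1 y) *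
        ∫⁻ x, ENNReal.ofReal (‖iF (cut (sh a) G) (x - (((2 : ℝ) ^ (-a) : ℝ) : ℂ) * y)‖ ^ 2 *
          ‖iF (cut (bd a₀ (a - d)) G) x‖ ^ (p - 2)) := by
    intro a
    refine (kkm_cont 8 one_pos).measurable.ennreal_ofReal.mul ?_
    have hj : Continuous (fun z : ℂ × ℂ =>
        ‖iF (cut (sh a) G) (z.2 - (((2 : ℝ) ^ (-a) : ℝ) : ℂ) * z.1)‖ ^ 2 *
          ‖iF (cut (bd a₀ (a - d)) G) z.2‖ ^ (p - 2)) :=
      (((hFc a).comp (continuous_snd.sub (continuous_const.mul continuous_fst))).norm.pow 2).mul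
        (((hWc _ _).norm.rpow_const fun _ => Or.inr (by linarith)).comp continuous_snd)
    exact hj.measurable.ennreal_ofReal.lintegral_prod_right'
  have step3 : ∑ a ∈ A, ∫⁻ x, ENNReal.ofReal (qm 8 a G x *
      ‖iF (cut (bd a₀ (a - d)) G) x‖ ^ (p - 2)) ≤ ENNReal.ofReal (16 * I₄ * K) := by
    calc ∑ a ∈ A, ∫⁻ x, ENNReal.ofReal (qm 8 a G x *
          ‖iF (cut (bd a₀ (a - d)) G) x‖ ^ (p - 2))
        ≤ ∑ a ∈ A, ∫⁻ y, ENNReal.ofReal (KKm 8 1 y) *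
        ∫⁻ x, ENNReal.ofReal (‖iF (cut (sh a) G) (x - (((2 : ℝ) ^ (-a) : ℝ) : ℂ) * y)‖ ^ 2 *
          ‖iF (cut (bd a₀ (a - d)) G) x‖ ^ (p - 2)) := Finset.sum_le_sum fun a _ => step2 a
      _ = ∫⁻ y, ENNReal.ofReal (KKm 8 1 y) * ∫⁻ x, ENNReal.ofReal (∑ a ∈ A,
          ‖iF (cut (sh a) G) (x - (((2 : ℝ) ^ (-a) : ℝ) : ℂ) * y)‖ ^ 2 *
          ‖iF (cut (bd a₀ (a - d)) G) x‖ ^ (p - 2)) := by
          rw [← lintegral_finsetSum _ fun a _ => hmy a]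
          refine lintegral_congr fun y => ?_
          rw [← Finset.mul_sum, ← lintegral_finsetSum _ fun a _ => hmf a y]
          congr 1
          refine lintegral_congr fun x => ?_
          rw [ENNReal.ofReal_sum_of_nonneg fun a _ => by positivity]
      _ ≤ ∫⁻ y, ENNReal.ofReal (KKm 8 1 y) * ENNReal.ofReal (K * (1 + ‖y‖) ^ 8) := by
          refine lintegral_mono fun y => ?_
          gcongr
          exact step1 y
      _ ≤ ∫⁻ y, ENNReal.ofReal (16 * K * KKm 4 1 y) := by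
          refine lintegral_mono fun y => ?_
          have hk0 : 0 ≤ KKm 8 1 y := by unfold KKm; positivity
          rw [← ENNReal.ofReal_mul hk0]
          refine ENNReal.ofReal_le_ofReal ?_
          calc KKm 8 1 y * (K * (1 + ‖y‖) ^ 8) = K * (KKm 8 1 y * (1 + ‖y‖) ^ 8) := by ring
            _ ≤ K * (16 * KKm 4 1 y) := mul_le_mul_of_nonneg_left (growth y) hK0
            _ = _ := by ring
      _ = ENNReal.ofReal (16 * I₄ * K) := by
          rw [← ofReal_integral_eq_lintegral_ofReal (hKi.const_mul _)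
            (Eventually.of_forall fun y => by
              simp only [Pi.zero_apply]
              have := (hKp y).1
              positivity), integral_const_mul]
          congr 1
          ring
  -- back to the Bochner integral
  have hq0 : ∀ a x, 0 ≤ qm 8 a G x := fun a x =>
    ((hK 8 (by norm_num)).2.2.1 a G x hG).1
  have hint : ∀ a ∈ A, Integrable (fun x => qm 8 a G x *
      ‖iF (cut (bd a₀ (a - d)) G) x‖ ^ (p - 2)) := by
    intro a ha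
    refine ⟨?_, ?_⟩
    · refine ((qm_meas hFc 8 a).aestronglyMeasurable).mul ?_
      exact ((hWc _ _).norm.rpow_const fun _ => Or.inr (by linarith)).aestronglyMeasurable
    · rw [hasFiniteIntegral_iff_ofReal (Eventually.of_forall fun x =>
        mul_nonneg (hq0 a x) (by positivity))]
      refine lt_of_le_of_lt ?_ (ENNReal.ofReal_lt_top (r := 16 * I₄ * K))
      exact (Finset.single_le_sum (f := fun a => ∫⁻ x, ENNReal.ofReal (qm 8 a G x *
        ‖iF (cut (bd a₀ (a - d)) G) x‖ ^ (p - 2))) (fun _ _ => bot_le) ha).trans step3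
  refine ⟨hint, ?_⟩
  have h5 : ENNReal.ofReal (∑ a ∈ A, ∫ x, qm 8 a G x *
      ‖iF (cut (bd a₀ (a - d)) G) x‖ ^ (p - 2)) ≤ ENNReal.ofReal (16 * I₄ * K) := by
    rw [ENNReal.ofReal_sum_of_nonneg fun a _ => integral_nonneg fun x =>
      mul_nonneg (hq0 a x) (by positivity)]
    refine le_trans (le_of_eq ?_) step3
    refine Finset.sum_congr rfl fun a ha => ?_
    exact ofReal_integral_eq_lintegral_ofReal (hint a ha) (Eventually.of_forall fun x =>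
      mul_nonneg (hq0 a x) (by positivity))
  have h6 := (ENNReal.ofReal_le_ofReal_iff (by positivity)).1 h5
  refine h6.trans ?_
  calc 16 * I₄ * K ≤ 16 * (I₄ + 1) * K := by
        refine mul_le_mul_of_nonneg_right ?_ hK0
        linarith
    _ = _ := by rw [hKd]; ring

end Pool.Agent.Lib.MP_dd244f_an.Rp
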