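import Pool.Agent.Lib.MP_dd244f_an.Rp.Stmts
import Pool.Agent.Lib.MP_dd244f_an.Four.Blk1

/-!
Full operator, all real `p`: the sharp inequality for one block.
-/

set_option autoImplicit false

namespace Pool.Agent.Lib.MP_dd244f_an.Rp

open MeasureTheory Filter Topology Finset
open Pool.Agent.Lib.MP_dd244f_an.Joint (st ct Mst ratio)
open Pool.Agent.Lib.MP_dd244f_an.Four
open Pool.Agent.Lib.MP_dd244f_an.Even
open Pool.Agent.Lib.MP_dd244f_an.Unif (SC)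
open scoped SchwartzMap ENNReal NNReal ContDiff

namespace BLKpAux

theorem np_nonneg (p : ℝ) (g : ℂ → ℂ) : 0 ≤ Np p g := integral_nonneg fun _ => by positivity

theorem nw_nonneg (p r : ℝ) (ξ : ℂ) (g : ℂ → ℂ) : 0 ≤ Nw p r ξ g := np_nonneg _ _

/-- unimodular constants and linear phases are harmless -/
theorem np_phase (hB : StmtBase) {p : ℝ} {c y : ℂ} (hc : ‖c‖ = 1) (G : ℂ → ℂ) :
    Np p (fun z => c * (ch y z * G z)) = Np p G := by
  unfold Np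
  have h1 : ∀ x, ‖iF (fun z => c * (ch y z * G z)) x‖ ^ p = ‖iF G (x + y)‖ ^ p := by
    intro x
    have h2 : iF (fun z => c * (ch y z * G z)) x = c * iF G (x + y) := by
      rw [← hB.2.2.1 G x y]
      unfold iF
      rw [← integral_const_mul]
      congr 1
      ext z
      ring
    rw [h2, norm_mul, hc, one_mul]
  simp_rw [h1]
  exact integral_add_right_eq_self (fun x => ‖iF G x‖ ^ p) y

theorem nw_phase (hB : StmtBase) {p r : ℝ} {ξ c y : ℂ} (hc : ‖c‖ = 1) (G : ℂ → ℂ) :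
    Nw p r ξ (fun z => c * (ch y z * G z)) = Nw p r ξ G := by
  unfold Nw
  rw [← np_phase hB (y := y) hc (gs r ξ G)]
  congr 1
  ext z
  unfold gs
  ring

theorem iF_const_mul (c : ℂ) (G : ℂ → ℂ) (x : ℂ) : iF (fun z => c * G z) x = c * iF G x := by
  unfold iF
  rw [← integral_const_mul]
  congr 1
  ext z
  ring

theorem nw_const {p r : ℝ} {ξ c : ℂ} (hp : 0 ≤ p) (hc : ‖c‖ ≤ 1) (G : ℂ → ℂ) :
    Nw p r ξ (fun z => c * G z) ≤ Nw p r ξ G := by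
  have h1 : ∀ x, ‖iF (gs r ξ (fun z => c * G z)) x‖ ^ p = ‖c‖ ^ p * ‖iF (gs r ξ G) x‖ ^ p := by
    intro x
    have h2 : gs r ξ (fun z => c * G z) = fun z => c * gs r ξ G z := by
      ext z
      unfold gs
      ring
    rw [h2, iF_const_mul, norm_mul, Real.mul_rpow (norm_nonneg _) (norm_nonneg _)]
  unfold Nw Np
  simp_rw [h1]
  rw [integral_const_mul]
  have h3 : 0 ≤ ∫ x, ‖iF (gs r ξ G) x‖ ^ p := integral_nonneg fun _ => by positivity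
  have h4 : ‖c‖ ^ p ≤ 1 := Real.rpow_le_one (norm_nonneg _) hc hp
  calc _ ≤ 1 * ∫ x, ‖iF (gs r ξ G) x‖ ^ p := mul_le_mul_of_nonneg_right h4 h3
    _ = _ := one_mul _

theorem contDiff_ch (y : ℂ) : ContDiff ℝ ∞ (ch y) := by
  unfold ch
  apply ContDiff.cexp
  apply ContDiff.mul contDiff_const
  apply Complex.ofRealCLM.contDiff.comp
  apply ContDiff.add
  · exact contDiff_const.mul Complex.reCLM.contDiff
  · exact contDiff_const.mul Complex.imCLM.contDiff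

theorem sc_mul {a G : ℂ → ℂ} (ha : ContDiff ℝ ∞ a) (hG : SC G) : SC (fun z => a z * G z) :=
  ⟨ha.mul hG.1, hG.2.mul_left⟩

theorem sc_sub {F G : ℂ → ℂ} (hF : SC F) (hG : SC G) : SC (fun z => F z - G z) :=
  ⟨hF.1.sub hG.1, hF.2.sub hG.2⟩

/-- the linear phase at `q` -/
noncomputable def yq (n : ℕ) (q : ℂ) : ℂ :=
  ⟨n * q.im / (Real.pi * ‖q‖ ^ 2), -(n * q.re / (Real.pi * ‖q‖ ^ 2))⟩

theorem ch_yq (n : ℕ) {q : ℂ} (hq : q ≠ 0) (z : ℂ) :
    ch (yq n q) z * Complex.exp (Complex.I * (2 * n * ((z - q) / q).im : ℝ)) = 1 := by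
  have hq0 : ‖q‖ ^ 2 ≠ 0 := by positivity
  have hpi : Real.pi ≠ 0 := Real.pi_ne_zero
  have h1 : ((z - q) / q).im = (z.im * q.re - z.re * q.im) / ‖q‖ ^ 2 := by
    rw [sub_div, div_self hq, Complex.sub_im, Complex.one_im, sub_zero, Complex.div_im,
      Complex.normSq_eq_norm_sq]
    ring
  unfold ch yq
  rw [← Complex.exp_add, h1]
  have h2 : (2 * (Real.pi : ℂ) * Complex.I * (((n * q.im / (Real.pi * ‖q‖ ^ 2)) * z.re +
      -(n * q.re / (Real.pi * ‖q‖ ^ 2)) * z.im : ℝ) : ℂ)) +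
      Complex.I * ((2 * n * ((z.im * q.re - z.re * q.im) / ‖q‖ ^ 2) : ℝ) : ℂ) = 0 := by
    have h3 : (2 * Real.pi * ((n * q.im / (Real.pi * ‖q‖ ^ 2)) * z.re +
      -(n * q.re / (Real.pi * ‖q‖ ^ 2)) * z.im)) +
        (2 * n * ((z.im * q.re - z.re * q.im) / ‖q‖ ^ 2)) = 0 := by
      field_simp
      ring
    calc _ = Complex.I * (((2 * Real.pi * ((n * q.im / (Real.pi * ‖q‖ ^ 2)) * z.re +
      -(n * q.re / (Real.pi * ‖q‖ ^ 2)) * z.im)) +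
        (2 * n * ((z.im * q.re - z.re * q.im) / ‖q‖ ^ 2)) : ℝ) : ℂ) := by
          push_cast; ring
      _ = 0 := by rw [h3]; simp
  rw [h2, Complex.exp_zero]

theorem gauss_split {σ σ₁ : ℝ} (hσ : σ ^ 2 = 2 * σ₁ ^ 2) (q z : ℂ) :
    (Real.exp (-(Real.pi * σ ^ 2 * ‖z - q‖ ^ 2)) : ℂ) =
      (Real.exp (-(Real.pi * σ₁ ^ 2 * ‖z - q‖ ^ 2)) : ℂ) *
        (Real.exp (-(Real.pi * σ₁ ^ 2 * ‖z - q‖ ^ 2)) : ℂ) := by
  rw [← Complex.ofReal_mul, ← Real.exp_add, hσ]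
  congr 2
  ring

theorem two_div (q z : ℂ) : 2 * q / (((1 : ℕ) : ℂ) + 1) + (z - q) = z := by
  push_cast
  ring

theorem two_div' (q : ℂ) : 2 * q / (((1 : ℕ) : ℂ) + 1) = q := by
  push_cast
  ring

/-- the block seen through the window at `q` -/
theorem gs_eq (hF : StmtFac) {n : ℕ} {s : ℤ} {L m : ℕ} (hm : 4 ≤ m) (hmL : 2 * m < L) {σ σ₁ : ℝ}
    (hσ : σ ^ 2 = 2 * σ₁ ^ 2) (g : ℂ → ℂ) {q : ℂ} (hq : q ≠ 0) :
    gs σ q (cut (bd (s + m) (s + L - m)) (mg n g)) = fun z => mm n q * (ch (yq n q) z *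
      (smK 1 n σ₁ s L m (2 * q) (z - q) * gs σ₁ q (cut (bd s (s + L)) g) z)) := by
  ext z
  have h1 := Blk1Aux.cut_eq hF n s hm hmL g z
  have h2 := ch_yq n hq z
  have h3 : ((((1 : ℕ) : ℂ) + 1) * (z - q) / (2 * q)).im = ((z - q) / q).im := by
    congr 1
    push_cast
    field_simp
    ring
  have h4 := Blk1Aux.mm_ne n hq
  unfold gs smK
  rw [h1, gauss_split hσ, two_div, two_div', h3, Complex.ofReal_mul (Real.exp _) (bd _ _ z)]
  set E : ℂ := (Real.exp (-(Real.pi * σ₁ ^ 2 * ‖z - q‖ ^ 2)) : ℂ) with hE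
  set X := Complex.exp (Complex.I * (2 * n * ((z - q) / q).im : ℝ)) with hX
  set Y := ch (yq n q) z with hY
  calc _ = E * E * ((bd (s + m) (s + L - m) z : ℂ) * (mm n z * cut (bd s (s + L)) g z)) * 1 := by
        ring
    _ = E * E * ((bd (s + m) (s + L - m) z : ℂ) * (mm n z * cut (bd s (s + L)) g z)) *
          (Y * X) := by rw [h2]
    _ = _ := by
        field_simp

/-- the block seen through the window at `q`, without extracting the phase -/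
theorem gs_eq' (hF : StmtFac) {n : ℕ} {s : ℤ} {L m : ℕ} (hm : 4 ≤ m) (hmL : 2 * m < L) {σ σ₁ : ℝ}
    (hσ : σ ^ 2 = 2 * σ₁ ^ 2) (g : ℂ → ℂ) (q : ℂ) :
    gs σ q (cut (bd (s + m) (s + L - m)) (mg n g)) = fun z =>
      slK 1 n σ₁ s L m (2 * q) (z - q) * gs σ₁ q (cut (bd s (s + L)) g) z := by
  ext z
  have h1 := Blk1Aux.cut_eq hF n s hm hmL g z
  unfold gs slK
  rw [h1, gauss_split hσ, two_div, Complex.ofReal_mul (Real.exp _) (bd _ _ z)]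
  ring

/-- the model symbol seen through the window at `q` -/
theorem sc_eq (hF : StmtFac) {n : ℕ} {s : ℤ} {L m : ℕ} {σ σ₁ : ℝ}
    (hσ : σ ^ 2 = 2 * σ₁ ^ 2) (g : ℂ → ℂ) (q : ℂ) :
    (fun z => scK 1 n σ₁ s L m (2 * q) (2 * q) (z - q) * gs σ₁ q (cut (bd s (s + L)) g) z)
      = fun z => (bd (s + m) (s + L - m) q : ℂ) *
        gs σ q (qc (n / ‖q‖ ^ 2) (‖q‖ / q) q (cut (bd s (s + L)) g)) z := by
  ext z
  by_cases h0 : cut (bd s (s + L)) g z = 0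
  · unfold gs qc
    rw [h0]
    simp
  have h1 := Blk1Aux.chi_one hF s L h0
  have h2 : ((n : ℝ) * (((1 : ℕ) : ℝ) + 1) ^ 2 / ‖2 * q‖ ^ 2) = n / ‖q‖ ^ 2 := by
    rw [norm_mul, Complex.norm_ofNat, mul_pow]
    by_cases hq : ‖q‖ = 0
    · rw [hq]; simp
    · push_cast
      field_simp
      ring
  have h3 : ((‖2 * q‖ : ℝ) : ℂ) / (2 * q) = ‖q‖ / q := by
    rw [norm_mul, Complex.norm_ofNat]
    by_cases hq : q = 0
    · rw [hq]; simp
    · push_cast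
      field_simp
  unfold scK csK gs qc
  rw [two_div, two_div', h1, h2, h3, gauss_split hσ, Complex.exp_add, Complex.ofReal_exp]
  push_cast
  ring

/-- pointwise splitting and integration -/
theorem nw_add (hB : StmtBase) (hS : StmtSch) {p ε C r : ℝ} {ξ : ℂ} {F G A : ℂ → ℂ} (hp : 1 ≤ p)
    (hQ : ∀ a b : ℂ, ‖a + b‖ ^ p ≤ (1 + ε) * ‖a‖ ^ p + C * ‖b‖ ^ p)
    (hF : SC F) (hG : SC G) (hA : ∀ z, A z = F z + G z) :
    Nw p r ξ A ≤ (1 + ε) * Nw p r ξ F + C * Nw p r ξ G := by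
  have hF' : SC (gs r ξ F) := (hS.2.2.2.2.2 F hF).2.2.1 r ξ
  have hG' : SC (gs r ξ G) := (hS.2.2.2.2.2 G hG).2.2.1 r ξ
  have hiF := hS.2.2.2.2.1 _ p hp hF'
  have hiG := hS.2.2.2.2.1 _ p hp hG'
  have h1 : ∀ x, iF (gs r ξ A) x = iF (gs r ξ F) x + iF (gs r ξ G) x := by
    intro x
    rw [← hB.2.2.2.2.1 _ _ (hS.1 _ hF') (hS.1 _ hG') x]
    congr 1
    ext z
    unfold gs
    rw [hA]
    ring
  unfold Nw Np
  rw [← integral_const_mul, ← integral_const_mul,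
    ← integral_add (hiF.const_mul _) (hiG.const_mul _)]
  refine integral_mono_of_nonneg (ae_of_all _ fun x => by positivity)
    ((hiF.const_mul _).add (hiG.const_mul _)) (ae_of_all _ fun x => ?_)
  simp only []
  rw [h1]
  exact hQ _ _

/-- the energy of a block seen from `q`, for a small symbol -/
theorem low (hE : StmtE1) (hF : StmtFac) (hS : StmtSch) {p C₁ : ℝ} (hp : 2 < p)
    (hN : ∀ (r B : ℝ) (a : ℂ → ℂ) (q : ℂ) (g : ℂ → ℂ), 0 < r → 0 ≤ B → SyB r B a → CC g →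
      Np p (fun ζ => a (ζ - q) * g ζ) ≤ (C₁ * B) ^ p * Np p g)
    {n : ℕ} {s : ℤ} {L m : ℕ} (hm : 4 ≤ m) (hmL : 2 * m < L) {r σ σ₁ B : ℝ} (hr : 0 < r)
    (hσ₁ : 0 < σ₁) (hσ : σ ^ 2 = 2 * σ₁ ^ 2) {g : ℂ → ℂ} (hg : SC g) (q : ℂ) (hB0 : 0 ≤ B)
    (hB : SyB σ₁ B (slK 1 n σ₁ s L m (2 * q))) :
    p * r ^ 2 * ∫ ξ, Nw p r ξ (gs σ q (cut (bd (s + m) (s + L - m)) (mg n g)))
      ≤ (C₁ * B) ^ p * Nw p σ₁ q (cut (bd s (s + L)) g) := by
  have hH : SC (cut (bd (s + m) (s + L - m)) (mg n g)) :=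
    (hS.2.2.2.2.2 g hg).2.2.2.2.2.2.2.1 n _ _
  have hgb : SC (cut (bd s (s + L)) g) := (hS.2.2.2.2.2 g hg).2.2.2.2.1 _ _
  have hH' := (hS.2.2.2.2.2 _ hH).2.2.1 σ q
  have hgb' := (hS.2.2.2.2.2 _ hgb).2.2.1 σ₁ q
  refine ((hE p r _ hp hr hH').2.2.2).trans ?_
  rw [gs_eq' hF hm hmL hσ g q]
  exact hN σ₁ B _ q _ hσ₁ hB0 hB (hS.1 _ hgb')

theorem high_int (hE : StmtE1) (hT : StmtTOT) (hBs : StmtBase) (hS : StmtSch)
    {p C₂ ε₁ r β Kx : ℝ} {u q : ℂ} (hp : 2 < p) (hε₁ : 0 ≤ ε₁) (hC₂ : 0 ≤ C₂) (hr : 0 < r)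
    (hu : ‖u‖ = 1) (hQ : ∀ a b : ℂ, ‖a + b‖ ^ p ≤ (1 + ε₁) * ‖a‖ ^ p + C₂ * ‖b‖ ^ p)
    {Hq G A A1 A2 : ℂ → ℂ} (hG : SC G) (hA1 : SC A1) (hA2 : SC A2)
    (hA12 : ∀ z, A z = A1 z + A2 z) (hNH : ∀ ξ, Nw p r ξ Hq = Nw p r ξ A)
    (hNA : ∀ ξ, Nw p r ξ A1 ≤ Nw p r ξ (qc β u q G)) (hK : Np p A2 ≤ Kx) :
    p * r ^ 2 * ∫ ξ, Nw p r ξ Hq
      ≤ (1 + ε₁) * ((1 + (β / (Real.pi * r ^ 2)) ^ 2) ^ ((p - 2) / 2) * Np p G) + C₂ * Kx := by
  have hpt : ∀ ξ, Nw p r ξ Hq ≤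
      (1 + ε₁) * Nw p r ξ (qc β u q G) + C₂ * Nw p r ξ A2 := by
    intro ξ
    rw [hNH]
    refine (nw_add hBs hS (by linarith) hQ hA1 hA2 hA12).trans ?_
    have h3 : (1 + ε₁) * Nw p r ξ A1 ≤ (1 + ε₁) * Nw p r ξ (qc β u q G) :=
      mul_le_mul_of_nonneg_left (hNA ξ) (by linarith)
    linarith
  obtain ⟨hi1, hT1⟩ := hT p r β u q G hp hr hu hG
  obtain ⟨-, -, hi2, hE2⟩ := hE p r A2 hp hr hA2
  have hint : ∫ ξ, Nw p r ξ Hq ≤ (1 + ε₁) * (∫ ξ, Nw p r ξ (qc β u q G))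
      + C₂ * ∫ ξ, Nw p r ξ A2 := by
    rw [← integral_const_mul, ← integral_const_mul,
      ← integral_add (hi1.const_mul _) (hi2.const_mul _)]
    exact integral_mono_of_nonneg (ae_of_all _ fun ξ => nw_nonneg _ _ _ _)
      ((hi1.const_mul _).add (hi2.const_mul _)) (ae_of_all _ hpt)
  have hpr : 0 < p * r ^ 2 := by positivity
  calc p * r ^ 2 * ∫ ξ, Nw p r ξ Hq
      ≤ p * r ^ 2 * ((1 + ε₁) * (∫ ξ, Nw p r ξ (qc β u q G))
      + C₂ * ∫ ξ, Nw p r ξ A2) := mul_le_mul_of_nonneg_left hint hpr.le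
    _ = (1 + ε₁) * (p * r ^ 2 * ∫ ξ, Nw p r ξ (qc β u q G))
      + C₂ * (p * r ^ 2 * ∫ ξ, Nw p r ξ A2) := by ring
    _ ≤ _ := by
      apply add_le_add
      · exact mul_le_mul_of_nonneg_left hT1 (by linarith)
      · exact mul_le_mul_of_nonneg_left (hE2.trans hK) hC₂

theorem norm_mm {n : ℕ} {q : ℂ} (hq : q ≠ 0) : ‖mm n q‖ = 1 := by
  unfold mm
  rw [norm_pow, norm_div, RCLike.norm_conj, div_self (norm_ne_zero_iff.2 hq), one_pow]

theorem sc_unphase {c y : ℂ} (hc : c ≠ 0) {A Hq : ℂ → ℂ} (hH : SC Hq)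
    (hA : Hq = fun z => c * (ch y z * A z)) : SC A := by
  have h1 : A = fun z => (c⁻¹ * ch (-y) z) * Hq z := by
    ext z
    rw [hA]
    have h2 : ch (-y) z * ch y z = 1 := by
      rw [← ch_add, neg_add_cancel, ch_zero_left]
    calc A z = (c⁻¹ * c) * 1 * A z := by rw [inv_mul_cancel₀ hc]; ring
      _ = (c⁻¹ * c) * (ch (-y) z * ch y z) * A z := by rw [h2]
      _ = _ := by ring
  rw [h1]
  exact sc_mul (contDiff_const.mul (contDiff_ch _)) hH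

theorem norm_bd_le (hF : StmtFac) (a b : ℤ) (q : ℂ) : ‖(bd a b q : ℂ)‖ ≤ 1 := by
  rw [Complex.norm_real, Real.norm_eq_abs, abs_le]
  have e1 := hF.1 a q
  have e2 := hF.1 b q
  unfold bd
  constructor <;> linarith

theorem qc_gs (β σ : ℝ) (u q : ℂ) (G : ℂ → ℂ) : qc β u q (gs σ q G) = gs σ q (qc β u q G) := by
  ext z
  unfold qc gs
  ring

/-- the energy of a block seen from `q` in the block -/
theorem high (hE : StmtE1) (hT : StmtTOT) (hF : StmtFac) (hBs : StmtBase) (hS : StmtSch)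
    {p C₁ C₂ ε₁ : ℝ} (hp : 2 < p) (hε₁ : 0 ≤ ε₁) (hC₂ : 0 ≤ C₂)
    (hN : ∀ (r B : ℝ) (a : ℂ → ℂ) (q : ℂ) (g : ℂ → ℂ), 0 < r → 0 ≤ B → SyB r B a → CC g →
      Np p (fun ζ => a (ζ - q) * g ζ) ≤ (C₁ * B) ^ p * Np p g)
    (hQ : ∀ a b : ℂ, ‖a + b‖ ^ p ≤ (1 + ε₁) * ‖a‖ ^ p + C₂ * ‖b‖ ^ p)
    {n : ℕ} {s : ℤ} {L m : ℕ} (hm : 4 ≤ m) (hmL : 2 * m < L) {r σ σ₁ B : ℝ} (hr : 0 < r)
    (hσ₁ : 0 < σ₁) (hσ : σ ^ 2 = 2 * σ₁ ^ 2) {g : ℂ → ℂ} (hg : SC g) {q : ℂ} (hq : q ≠ 0)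
    (hB0 : 0 ≤ B)
    (hB : SyB σ₁ B (fun δ => smK 1 n σ₁ s L m (2 * q) δ - scK 1 n σ₁ s L m (2 * q) (2 * q) δ)) :
    p * r ^ 2 * ∫ ξ, Nw p r ξ (gs σ q (cut (bd (s + m) (s + L - m)) (mg n g)))
      ≤ (1 + ε₁) * ((1 + (n / ‖q‖ ^ 2 / (Real.pi * r ^ 2)) ^ 2) ^ ((p - 2) / 2) *
          Nw p σ q (cut (bd s (s + L)) g))
        + C₂ * ((C₁ * B) ^ p * Nw p σ₁ q (cut (bd s (s + L)) g)) := by
  have hH : SC (cut (bd (s + m) (s + L - m)) (mg n g)) :=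
    (hS.2.2.2.2.2 g hg).2.2.2.2.2.2.2.1 n _ _
  have hgb : SC (cut (bd s (s + L)) g) := (hS.2.2.2.2.2 g hg).2.2.2.2.1 _ _
  have hH' := (hS.2.2.2.2.2 _ hH).2.2.1 σ q
  have hgb' := (hS.2.2.2.2.2 _ hgb).2.2.1 σ₁ q
  have hgb2 := (hS.2.2.2.2.2 _ hgb).2.2.1 σ q
  have hHA := gs_eq hF hm hmL (n := n) (s := s) hσ g hq
  have hsc := sc_eq hF (n := n) (s := s) (L := L) (m := m) hσ g q
  have hK := hN σ₁ B _ q _ hσ₁ hB0 hB (hS.1 _ hgb')
  have hqc : SC (qc (n / ‖q‖ ^ 2) (‖q‖ / q) q (cut (bd s (s + L)) g)) :=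
    (hS.2.2.2.2.2 _ hgb).2.2.2.2.2.2.1 _ _ _
  have hqc' := (hS.2.2.2.2.2 _ hqc).2.2.1 σ q
  have hA := sc_unphase (Blk1Aux.mm_ne n hq) hH' hHA
  have hA1 := sc_mul (a := fun _ => (bd (s + m) (s + L - m) q : ℂ)) contDiff_const hqc'
  rw [← hsc] at hA1
  have hA2 := sc_sub hA hA1
  have hu : ‖((‖q‖ : ℝ) : ℂ) / q‖ = 1 := by
    rw [norm_div, Complex.norm_real, norm_norm, div_self (norm_ne_zero_iff.2 hq)]
  have hNH : ∀ ξ, Nw p r ξ (gs σ q (cut (bd (s + m) (s + L - m)) (mg n g))) =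
      Nw p r ξ (fun z => smK 1 n σ₁ s L m (2 * q) (z - q) *
        gs σ₁ q (cut (bd s (s + L)) g) z) := by
    intro ξ
    rw [hHA]
    exact nw_phase hBs (norm_mm hq) _
  have hNA : ∀ ξ, Nw p r ξ (fun z => scK 1 n σ₁ s L m (2 * q) (2 * q) (z - q) *
        gs σ₁ q (cut (bd s (s + L)) g) z) ≤
      Nw p r ξ (qc (n / ‖q‖ ^ 2) (‖q‖ / q) q (gs σ q (cut (bd s (s + L)) g))) := by
    intro ξ
    rw [hsc, qc_gs]
    exact nw_const (by linarith) (norm_bd_le hF _ _ _) _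
  have hK' : Np p (fun z => smK 1 n σ₁ s L m (2 * q) (z - q) *
        gs σ₁ q (cut (bd s (s + L)) g) z - scK 1 n σ₁ s L m (2 * q) (2 * q) (z - q) *
        gs σ₁ q (cut (bd s (s + L)) g) z) ≤
      (C₁ * B) ^ p * Np p (gs σ₁ q (cut (bd s (s + L)) g)) := by
    refine le_of_eq_of_le ?_ hK
    congr 1
    ext z
    ring
  have hfin := high_int hE hT hBs hS hp hε₁ hC₂ hr hu hQ hgb2 hA1 hA2
    (A := fun z => smK 1 n σ₁ s L m (2 * q) (z - q) * gs σ₁ q (cut (bd s (s + L)) g) z)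
    (fun z => by ring) hNH hNA hK'
  exact hfin

/-! ### Real estimates -/

theorem exists_x (p : ℝ) {ε : ℝ} (hε : 0 < ε) : ∃ x : ℝ, 0 < x ∧ x ≤ 1 / 2 ∧
    (1 + x) * ((1 + x) ^ 7) ^ ((p - 2) / 2) / (1 - x) ≤ 1 + ε := by
  have hc : ContinuousAt (fun x : ℝ => (1 + x) * ((1 + x) ^ 7) ^ ((p - 2) / 2) / (1 - x)) 0 := by
    apply ContinuousAt.div _ (by fun_prop) (by norm_num)
    apply ContinuousAt.mul (by fun_prop)
    apply ContinuousAt.rpow (by fun_prop) continuousAt_const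
    left
    norm_num
  have h1 : ∀ᶠ x in 𝓝 (0 : ℝ), (1 + x) * ((1 + x) ^ 7) ^ ((p - 2) / 2) / (1 - x) < 1 + ε := by
    apply hc.eventually_lt continuousAt_const
    simp
    exact hε
  obtain ⟨r, hr, hr2⟩ := Metric.eventually_nhds_iff_ball.1 h1
  refine ⟨min (r / 2) (1 / 2), by positivity, min_le_right _ _, ?_⟩
  apply le_of_lt
  apply hr2
  rw [mem_ball_zero_iff, Real.norm_of_nonneg (by positivity)]
  have := min_le_left (r / 2) (1 / 2)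
  linarith

theorem rpow_four {a p : ℝ} (ha : 0 ≤ a) : a ^ (2 * p - 4) = (a ^ 4) ^ ((p - 2) / 2) := by
  rw [← Real.rpow_natCast a 4, ← Real.rpow_mul ha]
  congr 1
  push_cast
  ring

theorem coef_main {p x r a ρ N rt2 : ℝ} (hp : 2 < p) (hx : 0 < x) (hr : 0 < r) (ha : 0 < a)
    (hρ : 0 ≤ ρ) (hρa : ρ ≤ x * a) (hrt : 0 < rt2) (hrt2 : rt2 ≤ r ^ 2 * (1 + x))
    (hra : Real.pi ^ 2 * (r ^ 2 * a ^ 2) ^ 2 ≤ x * N ^ 2) :
    (a + ρ) ^ (2 * p - 4) * (1 + (N / a ^ 2 / (Real.pi * r ^ 2)) ^ 2) ^ ((p - 2) / 2)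
      ≤ ((1 + x) ^ 7 * (N / Real.pi) ^ 2 / rt2 ^ 2) ^ ((p - 2) / 2) := by
  have hpi := Real.pi_pos
  rw [rpow_four (by positivity), ← Real.mul_rpow (by positivity) (by positivity)]
  apply Real.rpow_le_rpow (by positivity) _ (by linarith)
  rw [le_div_iff₀ (by positivity)]
  have h1 : (a + ρ) ^ 4 ≤ (1 + x) ^ 4 * a ^ 4 := by
    rw [← mul_pow]
    exact pow_le_pow_left₀ (by positivity) (by linarith) 4
  have h2 : rt2 ^ 2 ≤ (r ^ 2 * (1 + x)) ^ 2 := pow_le_pow_left₀ hrt.le hrt2 2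
  have h3 : (1 + (N / a ^ 2 / (Real.pi * r ^ 2)) ^ 2) * (a ^ 4 * r ^ 4) =
      (r ^ 2 * a ^ 2) ^ 2 + (N / Real.pi) ^ 2 := by
    field_simp
  have h4 : (r ^ 2 * a ^ 2) ^ 2 ≤ x * (N / Real.pi) ^ 2 := by
    rw [div_pow, ← mul_div_assoc, le_div_iff₀ (by positivity)]
    linarith
  calc (a + ρ) ^ 4 * (1 + (N / a ^ 2 / (Real.pi * r ^ 2)) ^ 2) * rt2 ^ 2
      ≤ ((1 + x) ^ 4 * a ^ 4) * (1 + (N / a ^ 2 / (Real.pi * r ^ 2)) ^ 2) *
          (r ^ 2 * (1 + x)) ^ 2 := by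
        gcongr
    _ = (1 + x) ^ 6 * ((1 + (N / a ^ 2 / (Real.pi * r ^ 2)) ^ 2) * (a ^ 4 * r ^ 4)) := by ring
    _ = (1 + x) ^ 6 * ((r ^ 2 * a ^ 2) ^ 2 + (N / Real.pi) ^ 2) := by rw [h3]
    _ ≤ (1 + x) ^ 6 * (x * (N / Real.pi) ^ 2 + (N / Real.pi) ^ 2) := by gcongr
    _ = _ := by ring

theorem coef_high {p C₁ e a ρ T K : ℝ} (hp : 2 < p) (hC : 0 ≤ C₁) (he : 0 ≤ e) (ha : 0 < a)
    (hρ : 0 ≤ ρ) (hρa : ρ ≤ a) (hT : 0 < T) (hTa : T / a ≤ K) :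
    (a + ρ) ^ (2 * p - 4) * (C₁ * (e * (T / a) ^ 2)) ^ p
      ≤ 2 ^ (2 * p - 4) * K ^ 4 * T ^ (2 * p - 4) * (C₁ * e) ^ p := by
  have h1 : (C₁ * (e * (T / a) ^ 2)) ^ p = (C₁ * e) ^ p * (T / a) ^ (2 * p) := by
    rw [← mul_assoc, Real.mul_rpow (by positivity) (by positivity), ← Real.rpow_natCast,
      ← Real.rpow_mul (by positivity)]
    norm_num
  have h2 : (a + ρ) ^ (2 * p - 4) ≤ 2 ^ (2 * p - 4) * a ^ (2 * p - 4) := by
    rw [← Real.mul_rpow (by norm_num) ha.le]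
    exact Real.rpow_le_rpow (by positivity) (by linarith) (by linarith)
  have h3 : (T / a) ^ (2 * p) = (T / a) ^ (2 * p - 4) * (T / a) ^ 4 := by
    rw [← Real.rpow_natCast (T / a) 4, ← Real.rpow_add (by positivity)]
    congr 1
    push_cast
    ring
  have h4 : a ^ (2 * p - 4) * (T / a) ^ (2 * p - 4) = T ^ (2 * p - 4) := by
    rw [← Real.mul_rpow ha.le (by positivity)]
    congr 1
    field_simp
  have h5 : (T / a) ^ 4 ≤ K ^ 4 := pow_le_pow_left₀ (by positivity) hTa 4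
  rw [h1, h3]
  calc (a + ρ) ^ (2 * p - 4) * ((C₁ * e) ^ p * ((T / a) ^ (2 * p - 4) * (T / a) ^ 4))
      ≤ (2 ^ (2 * p - 4) * a ^ (2 * p - 4)) *
          ((C₁ * e) ^ p * ((T / a) ^ (2 * p - 4) * K ^ 4)) := by
        gcongr
    _ = 2 ^ (2 * p - 4) * K ^ 4 * (a ^ (2 * p - 4) * (T / a) ^ (2 * p - 4)) * (C₁ * e) ^ p := by
        ring
    _ = _ := by rw [h4]

theorem final_real {p x κ ε ε₂ Chp gp rt2 r σ σ₁ e I0 IS X Y W E NH Ng rtp Dp D7 K1 K2 T2 R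
    Np2 Npi P2 : ℝ} (hp : 2 < p) (hκ : 0 < κ) (hCh : 0 < Chp) (hgp : 0 ≤ gp) (hr : 0 < r)
    (hrt2 : 0 < rt2) (hR : 0 < R) (h1 : NH ≤ κ * Chp * (p * rtp) * I0) (hrtp : rtp = R * rt2)
    (h2 : (1 - e) * I0 = p * (r ^ 2 * σ ^ 2 / rt2) * IS) (h3 : IS ≤ K1 * X + K2 * Y)
    (hK1 : K1 * (p * r ^ 2) = (1 + x) * Dp) (hK2 : K2 * (p * r ^ 2) = W * T2 * E)
    (hx : 0 < x) (hx2 : x ≤ 1 / 2) (hex : e ≤ x) (hX : 0 ≤ X) (hY0 : 0 ≤ Y)
    (hY : p * σ₁ ^ 2 * Y ≤ Ng) (hσ : σ ^ 2 = 2 * σ₁ ^ 2) (hD : R * Dp = D7 * Npi)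
    (hD0 : 0 ≤ D7) (hD7 : (1 + x) * D7 / (1 - x) ≤ 1 + ε) (hT : R * T2 ≤ P2 * Np2)
    (hW : 0 ≤ W) (hE0 : 0 ≤ E) (hP2 : 0 ≤ P2) (hNp2 : 0 ≤ Np2)
    (hE : κ * Chp * 4 * W * P2 * E ≤ ε₂)
    (hChp : Chp * Npi = gp * Np2) :
    NH ≤ (1 + ε) * κ * gp * Np2 * (p * σ ^ 2 * X) + ε₂ * Np2 * Ng := by
  have he1 : 0 < 1 - e := by linarith
  have hNg : 0 ≤ Ng := le_trans (by positivity) hY
  have h4 : (1 - e) * NH ≤ κ * Chp * p * R * σ ^ 2 * ((p * r ^ 2) * IS) := by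
    calc (1 - e) * NH ≤ (1 - e) * (κ * Chp * (p * rtp) * I0) :=
          mul_le_mul_of_nonneg_left h1 he1.le
      _ = κ * Chp * (p * rtp) * ((1 - e) * I0) := by ring
      _ = _ := by
          rw [h2, hrtp]
          field_simp
  have h5 : κ * Chp * p * R * σ ^ 2 * ((p * r ^ 2) * IS) ≤
      κ * Chp * p * R * σ ^ 2 * ((1 + x) * Dp * X + W * T2 * E * Y) := by
    apply mul_le_mul_of_nonneg_left _ (by positivity)
    calc (p * r ^ 2) * IS ≤ (p * r ^ 2) * (K1 * X + K2 * Y) :=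
          mul_le_mul_of_nonneg_left h3 (by positivity)
      _ = (K1 * (p * r ^ 2)) * X + (K2 * (p * r ^ 2)) * Y := by ring
      _ = _ := by rw [hK1, hK2]
  have h6 : κ * Chp * p * R * σ ^ 2 * ((1 + x) * Dp * X + W * T2 * E * Y) =
      κ * p * σ ^ 2 * (1 + x) * D7 * (Chp * Npi) * X +
        κ * Chp * W * E * (R * T2) * (2 * (p * σ₁ ^ 2 * Y)) := by
    calc _ = κ * Chp * p * σ ^ 2 * (1 + x) * (R * Dp) * X +
        κ * Chp * W * E * (R * T2) * (p * σ ^ 2 * Y) := by ring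
      _ = _ := by
        rw [hD, hσ]
        ring
  have h7 : κ * Chp * W * E * (R * T2) * (2 * (p * σ₁ ^ 2 * Y)) ≤
      κ * Chp * W * E * (P2 * Np2) * (2 * Ng) := by
    gcongr
  have h8 : (1 - e) * NH ≤ κ * p * σ ^ 2 * (1 + x) * D7 * (gp * Np2) * X +
      κ * Chp * W * E * (P2 * Np2) * (2 * Ng) := by
    rw [← hChp]
    linarith
  have h9 : NH ≤ (κ * p * σ ^ 2 * (1 + x) * D7 * (gp * Np2) * X +
      κ * Chp * W * E * (P2 * Np2) * (2 * Ng)) / (1 - x) := by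
    rw [le_div_iff₀ (by linarith)]
    by_cases hneg : NH ≤ 0
    · have : NH * (1 - x) ≤ 0 := mul_nonpos_of_nonpos_of_nonneg hneg (by linarith)
      refine this.trans (by positivity)
    · have : NH * (1 - x) ≤ (1 - e) * NH := by
        rw [mul_comm]
        exact mul_le_mul_of_nonneg_right (by linarith) (not_le.1 hneg).le
      linarith
  refine h9.trans ?_
  rw [add_div]
  apply add_le_add
  · calc κ * p * σ ^ 2 * (1 + x) * D7 * (gp * Np2) * X / (1 - x)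
        = ((1 + x) * D7 / (1 - x)) * (κ * gp * Np2 * (p * σ ^ 2 * X)) := by ring
      _ ≤ (1 + ε) * (κ * gp * Np2 * (p * σ ^ 2 * X)) :=
          mul_le_mul_of_nonneg_right hD7 (by positivity)
      _ = _ := by ring
  · rw [div_le_iff₀ (by linarith)]
    have e1 : κ * Chp * W * E * (P2 * Np2) * (2 * Ng) =
        (κ * Chp * 4 * W * P2 * E) * (Np2 * Ng) * (1 / 2) := by ring
    rw [e1]
    have e2 : (κ * Chp * 4 * W * P2 * E) * (Np2 * Ng) ≤ ε₂ * (Np2 * Ng) :=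
      mul_le_mul_of_nonneg_right hE (by positivity)
    have e3 : 0 ≤ ε₂ * (Np2 * Ng) := le_trans (by positivity) e2
    have e4 : ε₂ * (Np2 * Ng) * (1 / 2) ≤ ε₂ * (Np2 * Ng) * (1 - x) :=
      mul_le_mul_of_nonneg_left (by linarith) e3
    calc _ ≤ ε₂ * (Np2 * Ng) * (1 / 2) := mul_le_mul_of_nonneg_right e2 (by norm_num)
      _ ≤ ε₂ * (Np2 * Ng) * (1 - x) := e4
      _ = _ := by ring

theorem jp_closed (s : ℤ) (L m : ℕ) : IsClosed (Jp s L m) := by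
  unfold Jp
  apply IsClosed.inter
  · exact isClosed_le continuous_const continuous_norm
  · exact isClosed_le continuous_norm continuous_const

theorem xi_le {r σ ρ : ℝ} (hr : 0 < r) (hρ : 0 ≤ ρ) {q ξ : ℂ} (h : ‖ξ - q‖ ≤ ρ) :
    ‖(((r ^ 2 : ℝ) : ℂ) * ξ + ((σ ^ 2 : ℝ) : ℂ) * q) / ((r ^ 2 + σ ^ 2 : ℝ) : ℂ)‖ ≤ ‖q‖ + ρ := by
  have h1 : ‖ξ‖ ≤ ‖q‖ + ρ := by
    have := norm_sub_norm_le ξ q
    linarith
  have h2 : 0 < r ^ 2 + σ ^ 2 := by positivity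
  rw [norm_div, Complex.norm_real, Real.norm_of_nonneg h2.le, div_le_iff₀ h2]
  refine (norm_add_le _ _).trans ?_
  rw [norm_mul, norm_mul, Complex.norm_real, Complex.norm_real, Real.norm_of_nonneg (sq_nonneg _),
    Real.norm_of_nonneg (sq_nonneg _)]
  have h3 : r ^ 2 * ‖ξ‖ ≤ r ^ 2 * (‖q‖ + ρ) := mul_le_mul_of_nonneg_left h1 (sq_nonneg _)
  have h4 : σ ^ 2 * ‖q‖ ≤ σ ^ 2 * (‖q‖ + ρ) :=
    mul_le_mul_of_nonneg_left (by linarith) (sq_nonneg _)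
  nlinarith

/-- the integral over the strip -/
theorem strip {p r σ ρ : ℝ} (hp : 2 < p) (hr : 0 < r) (hρ : 0 ≤ ρ) {H : ℂ → ℂ}
    (hi : IntegrableOn (fun z : ℂ × ℂ => ‖(((r ^ 2 : ℝ) : ℂ) * z.2 + ((σ ^ 2 : ℝ) : ℂ) * z.1)
      / ((r ^ 2 + σ ^ 2 : ℝ) : ℂ)‖ ^ (2 * p - 4) * Nw p r z.2 (gs σ z.1 H))
      {z | ‖z.2 - z.1‖ ≤ ρ})
    (hE : ∀ q, Integrable (fun ξ => Nw p r ξ (gs σ q H))) {B : ℂ → ℝ} (hB : Integrable B)
    (hle : ∀ q : ℂ, (‖q‖ + ρ) ^ (2 * p - 4) * (∫ ξ, Nw p r ξ (gs σ q H)) ≤ B q) :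
    ∫ z in {z : ℂ × ℂ | ‖z.2 - z.1‖ ≤ ρ}, ‖(((r ^ 2 : ℝ) : ℂ) * z.2 + ((σ ^ 2 : ℝ) : ℂ) * z.1)
        / ((r ^ 2 + σ ^ 2 : ℝ) : ℂ)‖ ^ (2 * p - 4) * Nw p r z.2 (gs σ z.1 H) ≤ ∫ q, B q := by
  set S : Set (ℂ × ℂ) := {z | ‖z.2 - z.1‖ ≤ ρ} with hS
  have hSm : MeasurableSet S := by
    apply IsClosed.measurableSet
    exact isClosed_le (by fun_prop) continuous_const
  set Φ : ℂ × ℂ → ℝ := fun z => ‖(((r ^ 2 : ℝ) : ℂ) * z.2 + ((σ ^ 2 : ℝ) : ℂ) * z.1)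
      / ((r ^ 2 + σ ^ 2 : ℝ) : ℂ)‖ ^ (2 * p - 4) * Nw p r z.2 (gs σ z.1 H) with hΦ
  have hΦ0 : ∀ z, 0 ≤ Φ z := fun z => mul_nonneg (by positivity) (nw_nonneg _ _ _ _)
  rw [← integral_indicator hSm]
  have hi' : Integrable (S.indicator Φ) := hi.integrable_indicator hSm
  rw [Measure.volume_eq_prod] at hi' ⊢
  rw [integral_prod _ hi']
  refine integral_mono_of_nonneg (ae_of_all _ fun q => integral_nonneg fun ξ =>
    Set.indicator_nonneg (fun z _ => hΦ0 z) _) hB (ae_of_all _ fun q => ?_)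
  refine le_trans ?_ (hle q)
  simp only []
  rw [← integral_const_mul]
  refine integral_mono_of_nonneg (ae_of_all _ fun ξ => Set.indicator_nonneg (fun z _ => hΦ0 z) _)
    ((hE q).const_mul _) (ae_of_all _ fun ξ => ?_)
  have hn := nw_nonneg p r ξ (gs σ q H)
  by_cases hz : (q, ξ) ∈ S
  · simp only [Set.indicator_of_mem hz, hΦ]
    apply mul_le_mul_of_nonneg_right _ hn
    apply Real.rpow_le_rpow (norm_nonneg _) _ (by linarith)
    exact xi_le hr hρ hz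
  · simp only [Set.indicator_of_notMem hz]
    positivity

theorem win_sq {n : ℕ} {M : ℝ} (s : ℤ) (L : ℕ) :
    (win n M s L) ^ 2 = n / (M ^ 2 * ((2 : ℝ) ^ (s + L)) ^ 2) := by
  unfold win
  rw [div_pow, Real.sq_sqrt (Nat.cast_nonneg n), mul_pow]

theorem win_pos {n : ℕ} {M : ℝ} (hn : (0 : ℝ) < n) (hM : 0 < M) (s : ℤ) (L : ℕ) :
    0 < win n M s L := by
  unfold win
  have : 0 < Real.sqrt n := Real.sqrt_pos.2 hn
  positivity

/-- the Gaussian tail -/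
theorem exp_small {p x M N T2 P4 r2 s2 : ℝ} (hp : 2 < p) (hx : 0 < x) (hx1 : x ≤ 1 / 2)
    (hM : 0 < M) (hN : 0 < N) (hT2 : 0 < T2) (hP4 : 0 < P4) (hr2 : r2 = N / (M ^ 2 * (P4 * T2)))
    (hs2 : s2 = r2 * x ^ 2) (hNb : 2 * M ^ 2 * P4 / x ^ 5 ≤ N) :
    Real.exp (-(Real.pi * p * (r2 * s2 / (r2 + s2)) * (x ^ 2 * T2))) ≤ x := by
  have hpi := Real.pi_gt_three
  have hr : 0 < r2 := by rw [hr2]; positivity
  have h1 : r2 * s2 / (r2 + s2) * (x ^ 2 * T2) = N * x ^ 4 / (M ^ 2 * P4 * (1 + x ^ 2)) := by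
    rw [hs2, hr2]
    field_simp
  have h2 : 1 / x ≤ N * x ^ 4 / (M ^ 2 * P4 * (1 + x ^ 2)) := by
    rw [div_le_div_iff₀ hx (by positivity), one_mul]
    rw [div_le_iff₀ (by positivity)] at hNb
    have h3 : M ^ 2 * P4 * (1 + x ^ 2) ≤ M ^ 2 * P4 * 2 := by
      apply mul_le_mul_of_nonneg_left _ (by positivity)
      nlinarith
    calc _ ≤ M ^ 2 * P4 * 2 := h3
      _ = 2 * M ^ 2 * P4 := by ring
      _ ≤ N * x ^ 5 := hNb
      _ = _ := by ring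
  have h4 : 1 / x ≤ Real.pi * p * (r2 * s2 / (r2 + s2)) * (x ^ 2 * T2) := by
    have h5 : Real.pi * p * (r2 * s2 / (r2 + s2)) * (x ^ 2 * T2) =
        (Real.pi * p) * (N * x ^ 4 / (M ^ 2 * P4 * (1 + x ^ 2))) := by
      rw [← h1]; ring
    rw [h5]
    have h6 : 1 ≤ Real.pi * p := by nlinarith
    have h7 : 0 < N * x ^ 4 / (M ^ 2 * P4 * (1 + x ^ 2)) := by positivity
    nlinarith
  set t := Real.pi * p * (r2 * s2 / (r2 + s2)) * (x ^ 2 * T2) with ht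
  have h8 := Real.add_one_le_exp t
  rw [Real.exp_neg]
  have h9 : 1 / x ≤ Real.exp t := by linarith
  rw [inv_eq_one_div, div_le_iff₀ (Real.exp_pos _)]
  rw [div_le_iff₀ hx] at h9
  linarith

theorem divide {a F R' w Bq : ℝ} (ha : 0 < a) (hw : 0 ≤ w) (h1 : a * F ≤ R')
    (h2 : w * R' ≤ a * Bq) : w * F ≤ Bq := by
  have h3 : w * (a * F) ≤ w * R' := mul_le_mul_of_nonneg_left h1 hw
  have h4 : a * (w * F) ≤ a * Bq := by linarith
  exact le_of_mul_le_mul_left h4 ha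

end BLKpAux

open BLKpAux

theorem blkp (hSy : StmtSynp) (hG : StmtGRes) (hT : StmtTOT) (hE : StmtE1) (hN : StmtSyN)
    (hK : Even.StmtErrK) (hLK : Even.StmtErrLK) (hHp : StmtErrHp) (hQ : StmtQel) (hS : StmtSch)
    (hF : Four.StmtFac) (hB : Four.StmtBase) : StmtBLKp := by
  intro p κ ε hp hκ hHLP hε
  have hpi := Real.pi_gt_three
  obtain ⟨x, hx, hx2, hxε⟩ := exists_x p hε
  set M₂ : ℝ := 1 / x with hM₂
  set M : ℝ := Real.pi / x with hM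
  have hM₂1 : 1 ≤ M₂ := by
    rw [hM₂, le_div_iff₀ hx]; linarith
  have hM1 : 1 ≤ M := by
    rw [hM, le_div_iff₀ hx]; linarith
  have hQ1 : 1 ≤ M * M₂ := one_le_mul_of_one_le_of_one_le hM1 hM₂1
  obtain ⟨C₂, hC₂, hQ'⟩ := hQ.2.2 p x (by linarith) hx
  obtain ⟨C₁, hC₁, hN'⟩ := hN p hp.le
  refine ⟨M * M₂, 5, hQ1, by norm_num, ?_⟩
  intro m hm L hmL ε₂ hε₂
  have hm4 : 4 ≤ m := by omega
  have h32 : 32 ≤ 2 ^ m := by
    calc 32 = 2 ^ 5 := by norm_num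
      _ ≤ 2 ^ m := Nat.pow_le_pow_right (by norm_num) hm
  -- constants
  have hgam : 0 < gamp p := by
    unfold gamp
    apply div_pos
    · apply Real.Gamma_pos_of_pos; positivity
    · apply Real.Gamma_pos_of_pos
      rw [sub_pos, div_lt_one (by linarith)]
      linarith
  have hCH : 0 < CHp p := by
    unfold CHp
    have := Real.pi_pos
    positivity
  set Wc : ℝ := 2 ^ (2 * p - 4) * ((2 : ℝ) ^ m) ^ 4 * (1 + C₂) with hWc
  have h2p : (1 : ℝ) ≤ 2 ^ (2 * p - 4) := Real.one_le_rpow (by norm_num) (by linarith)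
  have h2m : (1 : ℝ) ≤ ((2 : ℝ) ^ m) ^ 4 := one_le_pow₀ (one_le_pow₀ (by norm_num))
  have hW1 : 2 ^ (2 * p - 4) * ((2 : ℝ) ^ m) ^ 4 ≤ Wc := by
    rw [hWc]
    exact le_mul_of_one_le_right (by positivity) (by linarith)
  have hW2 : C₂ ≤ Wc ∧ 1 ≤ Wc := by
    have h1 : 1 + C₂ ≤ Wc := by
      rw [hWc]
      exact le_mul_of_one_le_left (by positivity)
        (one_le_mul_of_one_le_of_one_le h2p h2m)
    constructor <;> linarith
  have hW0 : 0 < Wc := by linarith [hW2.2]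
  set E : ℝ := ε₂ / (κ * CHp p * 4 * Wc * 2 ^ (p - 2)) with hEd
  have hE0 : 0 < E := by positivity
  have hEε : κ * CHp p * 4 * Wc * 2 ^ (p - 2) * E ≤ ε₂ := by
    rw [hEd]
    apply le_of_eq
    field_simp
  set ε' : ℝ := E ^ (1 / p) / C₁ with hε'
  have hε'0 : 0 < ε' := by positivity
  have hCε : (C₁ * ε') ^ p = E := by
    rw [hε', mul_div_cancel₀ _ hC₁.ne', ← Real.rpow_mul hE0.le, one_div_mul_cancel (by linarith),
      Real.rpow_one]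
  set Q₁ : ℝ := Real.sqrt 2 * (M * M₂) with hQ₁
  have hsq2 : Real.sqrt 2 ^ 2 = 2 := Real.sq_sqrt (by norm_num)
  have hs2 : 1 ≤ Real.sqrt 2 := by
    rw [Real.one_le_sqrt]; norm_num
  have hQ₁1 : 1 ≤ Q₁ := one_le_mul_of_one_le_of_one_le hs2 hQ1
  obtain ⟨CK, hCK, hK'⟩ := hK 1 Q₁ L m le_rfl hQ₁1 (by omega) hmL
  obtain ⟨η, n₁, hη0, -, -, hn₁, hK''⟩ := hK' ε' hε'0
  obtain ⟨n₂, hn₂, hLK'⟩ := hLK 1 Q₁ L m ε' le_rfl hQ₁1 (by omega) hmL hε'0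
  obtain ⟨n₃, hn₃, hHp'⟩ := hHp Q₁ L m ε' hQ₁1 h32 hmL hε'0
  obtain ⟨n₄, hn₄⟩ := exists_nat_ge (2 * M ^ 2 * (4 : ℝ) ^ L / x ^ 5)
  refine ⟨max (max n₁ n₂) (max n₃ n₄), hn₁.trans ((le_max_left _ _).trans (le_max_left _ _)), ?_⟩
  intro n hn s g hg
  have hnn1 : n ≥ n₁ := ((le_max_left _ _).trans (le_max_left _ _)).trans hn
  have hnn2 : n ≥ n₂ := ((le_max_right _ _).trans (le_max_left _ _)).trans hn
  have hnn3 : n ≥ n₃ := ((le_max_left _ _).trans (le_max_right _ _)).trans hn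
  have hnn4 : n ≥ n₄ := ((le_max_right _ _).trans (le_max_right _ _)).trans hn
  have hn1 : 1 ≤ n := hn₁.trans hnn1
  have hnpos : (0 : ℝ) < n := by exact_mod_cast hn1
  have hn4 : 2 * M ^ 2 * (4 : ℝ) ^ L / x ^ 5 ≤ n := hn₄.trans (by exact_mod_cast hnn4)
  have hH : SC (cut (bd (s + m) (s + L - m)) (mg n g)) :=
    (hS.2.2.2.2.2 g hg).2.2.2.2.2.2.2.1 n _ _
  have hgb : SC (cut (bd s (s + L)) g) := (hS.2.2.2.2.2 g hg).2.2.2.2.1 _ _
  -- windows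
  set T : ℝ := (2 : ℝ) ^ (s + L) with hTd
  have hT0 : 0 < T := by positivity
  have hr2 : (win n M s L) ^ 2 = n / (M ^ 2 * T ^ 2) := win_sq s L
  have hσ2 : (win n (M * M₂) s L) ^ 2 = n / ((M * M₂) ^ 2 * T ^ 2) := win_sq s L
  have hσ₁2 : (win n Q₁ s L) ^ 2 = n / (Q₁ ^ 2 * T ^ 2) := win_sq s L
  have hr0 : 0 < win n M s L := win_pos hnpos (by linarith) s L
  have hσ0 : 0 < win n (M * M₂) s L := win_pos hnpos (by linarith) s L
  have hσ₁0 : 0 < win n Q₁ s L := win_pos hnpos (by linarith) s L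
  set r : ℝ := win n M s L with hr
  set σ : ℝ := win n (M * M₂) s L with hσ
  set σ₁ : ℝ := win n Q₁ s L with hσ₁
  have hM0 : 0 < M := by linarith
  have hM₂0 : 0 < M₂ := by linarith
  have hσσ₁ : σ ^ 2 = 2 * σ₁ ^ 2 := by
    rw [hσ2, hσ₁2, hQ₁, mul_pow (Real.sqrt 2), hsq2]
    field_simp
  have hσr : σ ^ 2 = r ^ 2 * x ^ 2 := by
    rw [hσ2, hr2, hM₂]
    field_simp
  set rt2 : ℝ := r ^ 2 + σ ^ 2 with hrt2
  have hrt20 : 0 < rt2 := by positivity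
  have hx21 : x ^ 2 ≤ x := by
    have e1 : x * x ≤ 1 * x := mul_le_mul_of_nonneg_right (by linarith) hx.le
    rw [sq]
    linarith
  have hrt2le : rt2 ≤ r ^ 2 * (1 + x) := by
    rw [hrt2, hσr]
    have e1 := mul_le_mul_of_nonneg_left hx21 (sq_nonneg r)
    rw [mul_add, mul_one]
    linarith
  have hrT : r ^ 2 * T ^ 2 = n / M ^ 2 := by
    rw [hr2]
    field_simp
  have hM21 : 1 ≤ M ^ 2 := one_le_pow₀ hM1
  have hnM : n / M ^ 2 ≤ (n : ℝ) := div_le_self hnpos.le hM21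
  have hrt2T : rt2 * T ^ 2 ≤ 2 * n := by
    calc rt2 * T ^ 2 ≤ (r ^ 2 * (1 + x)) * T ^ 2 :=
          mul_le_mul_of_nonneg_right hrt2le (sq_nonneg _)
      _ = (r ^ 2 * T ^ 2) * (1 + x) := by ring
      _ ≤ n * 2 := by
          rw [hrT]
          exact mul_le_mul hnM (by linarith) (by linarith) hnpos.le
      _ = _ := by ring
  set P : ℝ := (2 : ℝ) ^ s with hP
  have hP0 : 0 < P := by positivity
  set ρ : ℝ := x * P with hρ
  have hρ0 : 0 < ρ := by positivity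
  have hPT : T = P * (2 : ℝ) ^ L := by
    rw [hTd, hP, zpow_add₀ (by norm_num), zpow_natCast]
  have hρT : (2 : ℝ) ^ (s + L - m + 1) + ρ ≤ T := by
    have e1 : (2 : ℝ) ^ (s + L - m + 1) ≤ T / 2 := by
      have e2 : T / 2 = (2 : ℝ) ^ (s + L - 1) := by
        rw [hTd, zpow_sub₀ (by norm_num : (2 : ℝ) ≠ 0) (s + L) 1, zpow_one]
      rw [e2]
      exact zpow_le_zpow_right₀ one_le_two (by omega)
    have e3 : ρ ≤ T / 2 := by
      have e4 : (1 : ℝ) ≤ (2 : ℝ) ^ L := one_le_pow₀ (by norm_num)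
      have e5 : x * P ≤ ((2 : ℝ) ^ L / 2) * P := mul_le_mul_of_nonneg_right (by linarith) hP0.le
      rw [hρ, hPT]
      linarith
    linarith
  -- the kernel bound
  set gb : ℂ → ℂ := cut (bd s (s + L)) g with hgbd
  set H : ℂ → ℂ := cut (bd (s + m) (s + L - m)) (mg n g) with hHd
  have hHs : ∀ q, SC (gs σ q H) := fun q => (hS.2.2.2.2.2 _ hH).2.2.1 σ q
  set Dp : ℝ := ((1 + x) ^ 7 * (n / Real.pi) ^ 2 / rt2 ^ 2) ^ ((p - 2) / 2) with hDp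
  have hDp0 : 0 ≤ Dp := by positivity
  set T2 : ℝ := T ^ (2 * p - 4) with hT2
  have hT20 : 0 < T2 := by positivity
  set K1 : ℝ := (1 + x) * Dp / (p * r ^ 2) with hK1
  set K2 : ℝ := Wc * T2 * E / (p * r ^ 2) with hK2
  have hp0 : 0 < p := by linarith
  have hpr : 0 < p * r ^ 2 := by positivity
  have hK1' : K1 * (p * r ^ 2) = (1 + x) * Dp := by rw [hK1]; field_simp
  have hK2' : K2 * (p * r ^ 2) = Wc * T2 * E := by rw [hK2]; field_simp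
  obtain ⟨-, -, hiσ, -⟩ := hE p σ gb hp hσ0 hgb
  obtain ⟨-, -, hiσ₁, hEσ₁⟩ := hE p σ₁ gb hp hσ₁0 hgb
  have hJm : MeasurableSet (Jp s L m) := (jp_closed s L m).measurableSet
  set B : ℂ → ℝ := fun q => (Jp s L m).indicator (fun q => K1 * Nw p σ q gb) q
    + K2 * Nw p σ₁ q gb with hBd
  have hBi1 : Integrable (fun q => (Jp s L m).indicator (fun q => K1 * Nw p σ q gb) q) :=
    (hiσ.const_mul K1).indicator hJm
  have hBi : Integrable B := hBi1.add (hiσ₁.const_mul K2)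
  have hBint : ∫ q, B q = K1 * (∫ q in Jp s L m, Nw p σ q gb) + K2 * ∫ q, Nw p σ₁ q gb := by
    rw [← integral_const_mul, ← integral_const_mul, ← integral_indicator hJm]
    exact integral_add hBi1 (hiσ₁.const_mul K2)
  have hJlow : ∀ q, q ∈ Jp s L m → P ≤ ‖q‖ := by
    intro q hq
    refine le_trans ?_ hq.1
    exact zpow_le_zpow_right₀ one_le_two (by omega)
  have hle : ∀ q : ℂ, (‖q‖ + ρ) ^ (2 * p - 4) * (∫ ξ, Nw p r ξ (gs σ q H)) ≤ B q := by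
    intro q
    have hw0 : 0 ≤ (‖q‖ + ρ) ^ (2 * p - 4) := by positivity
    have hNσ := nw_nonneg p σ q gb
    have hNσ₁ := nw_nonneg p σ₁ q gb
    by_cases hqJ : q ∈ Jp s L m
    · have hq0 : q ≠ 0 := by
        intro h0
        have := hJlow q hqJ
        rw [h0, norm_zero] at this
        linarith
      have hnq : 0 < ‖q‖ := norm_pos_iff.2 hq0
      have hθ : 2 * q ∈ JK 1 s L m := by
        constructor
        · rw [norm_mul, Complex.norm_ofNat]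
          have h1 := hqJ.1
          have h2 : (2 : ℝ) ^ (s + m) = 2 * (2 : ℝ) ^ (s + m - 1) := by
            rw [zpow_sub₀ (by norm_num : (2 : ℝ) ≠ 0) (s + m) 1, zpow_one]
            ring
          rw [h2]
          linarith
        · rw [norm_mul, Complex.norm_ofNat]
          have h1 := hqJ.2
          push_cast
          linarith
      obtain ⟨-, -, hSy'⟩ := hK'' n hnn1 s (2 * q) (2 * q) hθ (by
        rw [sub_self, norm_zero]; positivity)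
      have h1 := high hE hT hF hB hS hp hx.le hC₂.le hN' hQ' hm4 hmL hr0 hσ₁0 hσσ₁ hg hq0
        hε'0.le hSy'
      rw [hCε] at h1
      refine divide hpr hw0 h1 ?_
      have hBq : B q = K1 * Nw p σ q gb + K2 * Nw p σ₁ q gb := by
        simp only [hBd, Set.indicator_of_mem hqJ]
      rw [hBq]
      have hwT : (‖q‖ + ρ) ^ (2 * p - 4) ≤ T2 := by
        apply Real.rpow_le_rpow (by positivity) _ (by linarith)
        have := hqJ.2
        linarith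
      have hρq : ρ ≤ x * ‖q‖ := mul_le_mul_of_nonneg_left (hJlow q hqJ) hx.le
      have hrq : r ^ 2 * ‖q‖ ^ 2 ≤ n / M ^ 2 := by
        rw [← hrT]
        apply mul_le_mul_of_nonneg_left _ (sq_nonneg _)
        apply pow_le_pow_left₀ (norm_nonneg _)
        have := hqJ.2
        linarith
      have hcm := coef_main (N := n) hp hx hr0 hnq hρ0.le hρq hrt20 hrt2le (by
        have e1 : (r ^ 2 * ‖q‖ ^ 2) ^ 2 ≤ (n / M ^ 2) ^ 2 :=
          pow_le_pow_left₀ (by positivity) hrq 2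
        have e2 : Real.pi ^ 2 * ((n : ℝ) / M ^ 2) ^ 2 ≤ x * n ^ 2 := by
          rw [hM]
          have e3 : Real.pi ^ 2 * ((n : ℝ) / (Real.pi / x) ^ 2) ^ 2
              = (x ^ 3 / Real.pi ^ 2) * (x * n ^ 2) := by
            field_simp
          rw [e3]
          have e4 : x ^ 3 / Real.pi ^ 2 ≤ 1 := by
            rw [div_le_one (by positivity)]
            have e5 : x ^ 3 ≤ 1 := pow_le_one₀ hx.le (by linarith)
            have e7 : 1 ≤ Real.pi ^ 2 := one_le_pow₀ (by linarith)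
            linarith
          have e6 : 0 ≤ x * (n : ℝ) ^ 2 := by positivity
          calc _ ≤ 1 * (x * (n : ℝ) ^ 2) := mul_le_mul_of_nonneg_right e4 e6
            _ = _ := one_mul _
        exact (mul_le_mul_of_nonneg_left e1 (sq_nonneg _)).trans e2)
      set w := (‖q‖ + ρ) ^ (2 * p - 4) with hw
      set Z := (1 + (n / ‖q‖ ^ 2 / (Real.pi * r ^ 2)) ^ 2) ^ ((p - 2) / 2) with hZ
      calc w * ((1 + x) * (Z * Nw p σ q gb) + C₂ * (E * Nw p σ₁ q gb))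
          = (1 + x) * (w * Z) * Nw p σ q gb + C₂ * w * E * Nw p σ₁ q gb := by ring
        _ ≤ (1 + x) * Dp * Nw p σ q gb + Wc * T2 * E * Nw p σ₁ q gb := by
            apply add_le_add
            · apply mul_le_mul_of_nonneg_right _ hNσ
              exact mul_le_mul_of_nonneg_left hcm (by linarith)
            · apply mul_le_mul_of_nonneg_right _ hNσ₁
              apply mul_le_mul_of_nonneg_right _ hE0.le
              exact mul_le_mul hW2.1 hwT hw0 hW0.le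
        _ = p * r ^ 2 * (K1 * Nw p σ q gb + K2 * Nw p σ₁ q gb) := by
            rw [← hK1', ← hK2']; ring
    · have hBq : B q = K2 * Nw p σ₁ q gb := by
        simp only [hBd, Set.indicator_of_notMem hqJ, zero_add]
      by_cases hq1 : ‖q‖ < (2 : ℝ) ^ (s + m - 1)
      · have h2 : (2 : ℝ) ^ (s + m) = 2 * (2 : ℝ) ^ (s + m - 1) := by
          rw [zpow_sub₀ (by norm_num : (2 : ℝ) ≠ 0) (s + m) 1, zpow_one]
          ring
        have hSy' := hLK' n hnn2 s (2 * q) (by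
          rw [norm_mul, Complex.norm_ofNat, h2]
          linarith)
        have h1 := low hE hF hS hp hN' hm4 hmL hr0 hσ₁0 hσσ₁ hg q hε'0.le hSy'
        rw [hCε] at h1
        refine divide hpr hw0 h1 ?_
        rw [hBq]
        have hwT : (‖q‖ + ρ) ^ (2 * p - 4) ≤ T2 := by
          apply Real.rpow_le_rpow (by positivity) _ (by linarith)
          have h3 : (2 : ℝ) ^ (s + m - 1) ≤ (2 : ℝ) ^ (s + L - m + 1) :=
            zpow_le_zpow_right₀ one_le_two (by omega)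
          linarith
        calc (‖q‖ + ρ) ^ (2 * p - 4) * (E * Nw p σ₁ q gb)
            ≤ T2 * (E * Nw p σ₁ q gb) := mul_le_mul_of_nonneg_right hwT (by positivity)
          _ = 1 * (T2 * E * Nw p σ₁ q gb) := by ring
          _ ≤ Wc * (T2 * E * Nw p σ₁ q gb) :=
              mul_le_mul_of_nonneg_right hW2.2 (by positivity)
          _ = (Wc * T2 * E) * Nw p σ₁ q gb := by ring
          _ = p * r ^ 2 * (K2 * Nw p σ₁ q gb) := by rw [← hK2']; ring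
      · have hq2 : (2 : ℝ) ^ (s + L - m + 1) < ‖q‖ := by
          by_contra hcon
          exact hqJ ⟨not_lt.1 hq1, not_lt.1 hcon⟩
        have hnq : 0 < ‖q‖ := lt_trans (by positivity) hq2
        have hSy' := hHp' n hnn3 s q hq2
        have h1 := low hE hF hS hp hN' hm4 hmL hr0 hσ₁0 hσσ₁ hg q (by positivity) hSy'
        refine divide hpr hw0 h1 ?_
        rw [hBq]
        have hρq : ρ ≤ ‖q‖ := by
          have e1 : P ≤ (2 : ℝ) ^ (s + L - m + 1) :=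
            zpow_le_zpow_right₀ one_le_two (by omega)
          have e2 : ρ ≤ 1 * P := mul_le_mul_of_nonneg_right (by linarith) hP0.le
          linarith
        have hTq : T / ‖q‖ ≤ (2 : ℝ) ^ m := by
          rw [div_le_iff₀ hnq]
          have e1 : T ≤ (2 : ℝ) ^ m * (2 : ℝ) ^ (s + L - m + 1) := by
            rw [hTd, ← zpow_natCast, ← zpow_add₀ (by norm_num)]
            exact zpow_le_zpow_right₀ one_le_two (by omega)
          exact e1.trans (mul_le_mul_of_nonneg_left hq2.le (by positivity))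
        have hch := coef_high (C₁ := C₁) (e := ε') hp hC₁.le hε'0.le hnq hρ0.le hρq hT0 hTq
        rw [hCε] at hch
        calc (‖q‖ + ρ) ^ (2 * p - 4) * ((C₁ * (ε' * (T / ‖q‖) ^ 2)) ^ p * Nw p σ₁ q gb)
            = ((‖q‖ + ρ) ^ (2 * p - 4) * (C₁ * (ε' * (T / ‖q‖) ^ 2)) ^ p) * Nw p σ₁ q gb := by
              ring
          _ ≤ (2 ^ (2 * p - 4) * ((2 : ℝ) ^ m) ^ 4 * T ^ (2 * p - 4) * E) * Nw p σ₁ q gb :=
              mul_le_mul_of_nonneg_right hch hNσ₁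
          _ = (2 ^ (2 * p - 4) * ((2 : ℝ) ^ m) ^ 4) * (T2 * E * Nw p σ₁ q gb) := by
              rw [hT2]; ring
          _ ≤ Wc * (T2 * E * Nw p σ₁ q gb) :=
              mul_le_mul_of_nonneg_right hW1 (by positivity)
          _ = (Wc * T2 * E) * Nw p σ₁ q gb := by ring
          _ = p * r ^ 2 * (K2 * Nw p σ₁ q gb) := by rw [← hK2']; ring
  -- resolution and synthesis
  obtain ⟨-, hGi, hGe⟩ := hG p r σ ρ H hp hr0 hσ0 hρ0 hH
  have hstrip := strip hp hr0 hρ0.le hGi (fun q => (hE p r _ hp hr0 (hHs q)).2.2.1) hBi hle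
  rw [hBint] at hstrip
  have hsqrt : 0 < Real.sqrt (r ^ 2 + σ ^ 2) := Real.sqrt_pos.2 hrt20
  obtain ⟨-, hSyn⟩ := hSy p κ (Real.sqrt (r ^ 2 + σ ^ 2)) H hp hκ hsqrt hHLP hH
  set I0 : ℝ := ∫ ξ, ‖ξ‖ ^ (2 * p - 4) * Nw p (Real.sqrt (r ^ 2 + σ ^ 2)) ξ H with hI0
  set X : ℝ := ∫ q in Jp s L m, Nw p σ q gb with hX
  set Y : ℝ := ∫ q, Nw p σ₁ q gb with hY
  have hX0 : 0 ≤ X := integral_nonneg fun _ => nw_nonneg _ _ _ _
  have hY0 : 0 ≤ Y := integral_nonneg fun _ => nw_nonneg _ _ _ _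
  have hsmall := exp_small (T2 := P ^ 2) hp hx hx2 hM0 hnpos (by positivity)
    (by positivity : (0 : ℝ) < (4 : ℝ) ^ L) (r2 := r ^ 2) (s2 := σ ^ 2) (by
      rw [hr2, hPT, mul_pow, ← pow_mul, mul_comm L 2, pow_mul]
      norm_num
      ring) hσr hn4
  have hρ2 : x ^ 2 * P ^ 2 = ρ ^ 2 := by rw [hρ]; ring
  rw [hρ2] at hsmall
  have hrtp : (Real.sqrt (r ^ 2 + σ ^ 2)) ^ (2 * p - 2) = rt2 ^ (p - 2) * rt2 := by
    rw [Real.sqrt_eq_rpow, ← Real.rpow_mul hrt20.le]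
    have e1 : rt2 ^ (p - 2) * rt2 = rt2 ^ (p - 2) * rt2 ^ (1 : ℝ) := by rw [Real.rpow_one]
    rw [e1, ← Real.rpow_add hrt20]
    congr 1
    ring
  have hRD : rt2 ^ (p - 2) * Dp = ((1 + x) ^ 7) ^ ((p - 2) / 2) * (n / Real.pi) ^ (p - 2) := by
    have e1 : rt2 ^ (p - 2) = (rt2 ^ 2) ^ ((p - 2) / 2) := by
      rw [← Real.rpow_natCast rt2 2, ← Real.rpow_mul hrt20.le]
      congr 1
      push_cast
      ring
    have e2 : ((n : ℝ) / Real.pi) ^ (p - 2) = (((n : ℝ) / Real.pi) ^ 2) ^ ((p - 2) / 2) := by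
      rw [← Real.rpow_natCast ((n : ℝ) / Real.pi) 2, ← Real.rpow_mul (by positivity)]
      congr 1
      push_cast
      ring
    rw [e1, e2, hDp, ← Real.mul_rpow (by positivity) (by positivity),
      ← Real.mul_rpow (by positivity) (by positivity)]
    congr 1
    field_simp
  have hRT : rt2 ^ (p - 2) * T2 ≤ 2 ^ (p - 2) * (n : ℝ) ^ (p - 2) := by
    have e1 : T2 = (T ^ 2) ^ (p - 2) := by
      rw [hT2, ← Real.rpow_natCast T 2, ← Real.rpow_mul hT0.le]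
      congr 1
      push_cast
      ring
    rw [e1, ← Real.mul_rpow hrt20.le (by positivity), ← Real.mul_rpow (by norm_num) hnpos.le]
    exact Real.rpow_le_rpow (by positivity) hrt2T (by linarith)
  have hChp : CHp p * (n / Real.pi) ^ (p - 2) = gamp p ^ p * (n : ℝ) ^ (p - 2) := by
    unfold CHp
    rw [Real.div_rpow hnpos.le Real.pi_pos.le]
    have : 0 < Real.pi ^ (p - 2) := by positivity
    field_simp
  exact final_real hp hκ hCH (by positivity) hr0 hrt20 (by positivity) hSyn hrtp hGe hstrip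
    hK1' hK2' hx hx2 hsmall hX0 hY0 hEσ₁ hσσ₁ hRD (by positivity) hxε hRT hW0.le hE0.le
    (by positivity) (by positivity) hEε hChp

end Pool.Agent.Lib.MP_dd244f_an.Rp
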