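import Pool.Agent.Lib.MP_dd244f_an.Rp.Stmts

/-!
Full operator, all real `p`: the boundary shells of a block (module Bdryp).
-/

set_option autoImplicit false

namespace Pool.Agent.Lib.MP_dd244f_an.Rp

open MeasureTheory Filter Topology Finset
open Pool.Agent.Lib.MP_dd244f_an.Four
open Pool.Agent.Lib.MP_dd244f_an.Unif (SC)

namespace BdrypAux

theorem step_iF (hB : StmtBase) (hF : StmtFac) {G : ℂ → ℂ} (hG : CC G) (a b : ℤ) (x : ℂ) :
    iF (cut (bd a b) G) x = iF (cut (bd (a + 1) (b - 1)) G) x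
      + (iF (cut (sh a) G) x + iF (cut (sh (b - 1)) G) x) := by
  have hadd := hB.2.2.2.2.1
  have hcc := hF.2.2.2.2.1 G
  have h1 : CC (cut (sh a) G) := (hcc a a hG).2.2
  have h2 : CC (cut (sh (b - 1)) G) := (hcc (b - 1) a hG).2.2
  have h3 : CC (cut (bd (a + 1) (b - 1)) G) := (hcc (a + 1) (b - 1) hG).2.1
  have h4 : CC (fun ζ => cut (sh a) G ζ + cut (sh (b - 1)) G ζ) := by
    refine ⟨h1.1.add h2.1, ?_⟩
    exact h1.2.add h2.2
  rw [← hadd _ _ h1 h2 x, ← hadd _ _ h3 h4 x]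
  congr 1
  ext ζ
  unfold cut sh bd
  have e : b - 1 + 1 = b := by ring
  rw [e]
  push_cast
  ring

theorem sum_iF (hB : StmtBase) (hF : StmtFac) {G : ℂ → ℂ} (hG : CC G) (s t : ℤ) (x : ℂ)
    (m : ℕ) :
    iF (cut (bd s t) G) x = iF (cut (bd (s + m) (t - m)) G) x
      + ∑ i ∈ Finset.range m, (iF (cut (sh (s + i)) G) x + iF (cut (sh (t - 1 - i)) G) x) := by
  induction m with
  | zero => simp
  | succ m ih =>
    rw [ih, Finset.sum_range_succ, step_iF hB hF hG (s + m) (t - m) x]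
    have e1 : s + (m : ℤ) + 1 = s + ((m + 1 : ℕ) : ℤ) := by push_cast; ring
    have e2 : t - (m : ℤ) - 1 = t - ((m + 1 : ℕ) : ℤ) := by push_cast; ring
    have e3 : t - (m : ℤ) - 1 = t - 1 - (m : ℤ) := by ring
    rw [e1, e2, ← e2, e3]
    ring

theorem sum_rpow (p : ℝ) (hp : 1 ≤ p) (m : ℕ) (u v : ℕ → ℝ) (hu : ∀ i, 0 ≤ u i)
    (hv : ∀ i, 0 ≤ v i) :
    (∑ i ∈ Finset.range m, (u i + v i)) ^ p ≤
      (m : ℝ) ^ (p - 1) * ((2 : ℝ) ^ (p - 1) * ∑ i ∈ Finset.range m, (u i ^ p + v i ^ p)) := by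
  have h1 := Real.rpow_sum_le_const_mul_sum_rpow_of_nonneg (s := Finset.range m)
    (f := fun i => u i + v i) hp (fun i _ => add_nonneg (hu i) (hv i))
  rw [Finset.card_range] at h1
  refine h1.trans (mul_le_mul_of_nonneg_left ?_ (Real.rpow_nonneg (Nat.cast_nonneg m) _))
  rw [Finset.mul_sum]
  refine Finset.sum_le_sum fun i _ => ?_
  have h := NNReal.rpow_add_le_mul_rpow_add_rpow ⟨u i, hu i⟩ ⟨v i, hv i⟩ hp
  have h' := NNReal.coe_le_coe.mpr h
  push_cast at h'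
  exact h'

end BdrypAux

open BdrypAux in
/-- (Bdryp) -/
theorem bdryp (hQ : StmtQel) (hS : StmtSch) (hF : Four.StmtFac) (hB : Four.StmtBase) :
    StmtBdryp := by
  intro p ε hp hε
  obtain ⟨C, hC, hCN⟩ := hQ.2.2 p ε hp hε
  refine ⟨(2 : ℝ) ^ (p - 1) * C, by positivity, fun m L s G hmL hG => ?_⟩
  have hp0 : 0 ≤ p := by linarith
  have hCC : CC G := hS.1 G hG
  have hSC := hS.2.2.2.2.2 G hG
  have hint : ∀ a b : ℤ, Integrable (fun x => ‖iF (cut (bd a b) G) x‖ ^ p) :=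
    fun a b => hS.2.2.2.2.1 _ p hp (hSC.2.2.2.2.1 a b)
  have hints : ∀ a : ℤ, Integrable (fun x => ‖iF (cut (sh a) G) x‖ ^ p) := fun a =>
    hS.2.2.2.2.1 _ p hp (hSC.2.2.2.2.2.1 a)
  have hm0 : 0 ≤ (m : ℝ) ^ (p - 1) := Real.rpow_nonneg (Nat.cast_nonneg m) _
  have hpt : ∀ x, ‖iF (cut (bd s (s + L)) G) x‖ ^ p ≤
      (1 + ε) * ‖iF (cut (bd (s + m) (s + L - m)) G) x‖ ^ p
        + (2 : ℝ) ^ (p - 1) * C * (m : ℝ) ^ (p - 1) * ∑ i ∈ Finset.range m,
          (‖iF (cut (sh (s + i)) G) x‖ ^ p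
            + ‖iF (cut (sh (s + L - 1 - i)) G) x‖ ^ p) := by
    intro x
    rw [sum_iF hB hF hCC s (s + L) x m]
    have h1 : ‖∑ i ∈ Finset.range m, (iF (cut (sh (s + i)) G) x + iF (cut (sh (s + L - 1 - i)) G) x)‖
        ≤ ∑ i ∈ Finset.range m, (‖iF (cut (sh (s + i)) G) x‖ + ‖iF (cut (sh (s + L - 1 - i)) G) x‖) := by
      refine (norm_sum_le _ _).trans ?_
      exact Finset.sum_le_sum fun i _ => norm_add_le _ _
    set X := iF (cut (bd (s + m) (s + L - m)) G) x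
    set Y := ∑ i ∈ Finset.range m, (iF (cut (sh (s + i)) G) x + iF (cut (sh (s + L - 1 - i)) G) x)
    have h2 := sum_rpow p hp m (fun i => ‖iF (cut (sh (s + i)) G) x‖)
      (fun i => ‖iF (cut (sh (s + L - 1 - i)) G) x‖) (fun i => norm_nonneg _)
      (fun i => norm_nonneg _)
    have h3 := (Real.rpow_le_rpow (norm_nonneg _) h1 hp0).trans h2
    have h4 := mul_le_mul_of_nonneg_left h3 hC.le
    have h5 := hCN X Y
    linarith
  have hsum : Integrable (fun x => ∑ i ∈ Finset.range m,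
      (‖iF (cut (sh (s + i)) G) x‖ ^ p
        + ‖iF (cut (sh (s + L - 1 - i)) G) x‖ ^ p)) :=
    integrable_finsetSum _ fun i _ => (hints _).add (hints _)
  unfold Np
  calc ∫ x, ‖iF (cut (bd s (s + L)) G) x‖ ^ p
      ≤ ∫ x, ((1 + ε) * ‖iF (cut (bd (s + m) (s + L - m)) G) x‖ ^ p
        + (2 : ℝ) ^ (p - 1) * C * (m : ℝ) ^ (p - 1) * ∑ i ∈ Finset.range m,
          (‖iF (cut (sh (s + i)) G) x‖ ^ p
            + ‖iF (cut (sh (s + L - 1 - i)) G) x‖ ^ p)) := by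
        refine integral_mono (hint _ _) ?_ hpt
        exact ((hint _ _).const_mul _).add (hsum.const_mul _)
    _ = _ := by
        have hadd : ∀ i ∈ Finset.range m, Integrable (fun x =>
            ‖iF (cut (sh (s + i)) G) x‖ ^ p
            + ‖iF (cut (sh (s + L - 1 - i)) G) x‖ ^ p) :=
          fun i _ => (hints _).add (hints _)
        rw [integral_add ((hint _ _).const_mul _) (hsum.const_mul _), integral_const_mul,
          integral_const_mul, integral_finsetSum _ hadd]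
        congr 2
        refine Finset.sum_congr rfl fun i _ => ?_
        rw [integral_add (hints _) (hints _)]

end Pool.Agent.Lib.MP_dd244f_an.Rp
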