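import Pool.Agent.Lib.MP_dd244f_an.Rp.Stmts
import Pool.Agent.Lib.MP_dd244f_an.Four.KK

/-!
The dual Doob inequality in `L^r`, `r ≥ 1` real, for the averages with the kernels `KK`, by duality
with the maximal theorem.
-/

set_option autoImplicit false

namespace Pool.Agent.Lib.MP_dd244f_an.Rp

open MeasureTheory Filter Topology Finset
open Pool.Agent.Lib.MP_dd244f_an.Four
open scoped ENNReal NNReal

namespace DDrm

/-- the kernel at scale `a` with values in `ℝ≥0∞` -/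
noncomputable def kk (a : ℤ) (z : ℂ) : ℝ≥0∞ := ENNReal.ofReal (KK ((2 : ℝ) ^ (-a)) z)

/-- the average at scale `a` -/
noncomputable def PP (a : ℤ) (φ : ℂ → ℝ≥0∞) (x : ℂ) : ℝ≥0∞ := ∫⁻ y, kk a (x - y) * φ y

lemma kk_meas (a : ℤ) : Measurable (kk a) := by
  have hc : Continuous (KK ((2 : ℝ) ^ (-a))) := by
    unfold KK
    refine Continuous.div (by fun_prop) (by fun_prop) (fun x => ?_)
    have : (0 : ℝ) < (2 : ℝ) ^ (-a) := by positivity
    positivity
  exact hc.measurable.ennreal_ofReal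

lemma kk_neg (a : ℤ) (z : ℂ) : kk a (-z) = kk a z := by
  unfold kk KK
  rw [norm_neg]

lemma kk_int (hKK : Four.StmtKK) (a : ℤ) : ∫⁻ z, kk a z = ENNReal.ofReal Real.pi := by
  have h2 : (0 : ℝ) < (2 : ℝ) ^ (-a) := by positivity
  obtain ⟨hi, he, hp⟩ := hKK.1 _ h2
  unfold kk
  rw [← ofReal_integral_eq_lintegral_ofReal hi (Eventually.of_forall fun x => (hp x).1.le), he]

lemma kk_meas2 (a : ℤ) : Measurable (fun z : ℂ × ℂ => kk a (z.1 - z.2)) :=
  (kk_meas a).comp (measurable_fst.sub measurable_snd)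

lemma PP_meas (a : ℤ) {φ : ℂ → ℝ≥0∞} (h : Measurable φ) : Measurable (PP a φ) := by
  unfold PP
  exact ((kk_meas2 a).mul (h.comp measurable_snd)).lintegral_prod_right'

lemma PP_mono (a : ℤ) {φ ψ : ℂ → ℝ≥0∞} (h : ∀ x, φ x ≤ ψ x) (x : ℂ) : PP a φ x ≤ PP a ψ x := by
  unfold PP
  exact lintegral_mono fun y => by gcongr; exact h y

/-- the average is self-adjoint -/
lemma PP_symm (a : ℤ) {f g : ℂ → ℝ≥0∞} (hf : Measurable f) (hg : Measurable g) :
    ∫⁻ x, PP a f x * g x = ∫⁻ x, f x * PP a g x := by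
  have h1 : ∀ x, PP a f x * g x = ∫⁻ y, kk a (x - y) * f y * g x := by
    intro x
    unfold PP
    rw [lintegral_mul_const]
    exact ((kk_meas a).comp (measurable_const.sub measurable_id)).mul hf
  have h2 : ∀ y, f y * PP a g y = ∫⁻ x, kk a (x - y) * f y * g x := by
    intro y
    unfold PP
    rw [← lintegral_const_mul]
    · refine lintegral_congr fun x => ?_
      rw [← kk_neg a (x - y), neg_sub]
      ring
    · exact ((kk_meas a).comp (measurable_const.sub measurable_id)).mul hg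
  simp_rw [h1, h2]
  refine lintegral_lintegral_swap ?_
  exact (((kk_meas2 a).mul (hf.comp measurable_snd)).mul (hg.comp measurable_fst)).aemeasurable

lemma PP_one (hKK : Four.StmtKK) (a : ℤ) (x : ℂ) :
    PP a (fun _ => 1) x = ENNReal.ofReal Real.pi := by
  unfold PP
  simp only [mul_one]
  rw [lintegral_sub_left_eq_self (fun z => kk a z) x, kk_int hKK]

lemma PP_int (hKK : Four.StmtKK) (a : ℤ) {f : ℂ → ℝ≥0∞} (hf : Measurable f) :
    ∫⁻ x, PP a f x = ENNReal.ofReal Real.pi * ∫⁻ x, f x := by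
  have h := PP_symm a hf (g := fun _ => 1) measurable_const
  simp only [mul_one] at h
  rw [h]
  simp_rw [PP_one hKK]
  rw [lintegral_mul_const _ hf, mul_comm]

/-- the case `r = 1` -/
lemma one (hKK : Four.StmtKK) (A : Finset ℤ) (φ : ℤ → ℂ → ℝ≥0∞) (hφ : ∀ a, Measurable (φ a)) :
    ∫⁻ x, (∑ a ∈ A, PP a (φ a) x) = ENNReal.ofReal Real.pi * ∫⁻ x, ∑ a ∈ A, φ a x := by
  rw [lintegral_finsetSum _ fun a _ => PP_meas a (hφ a), lintegral_finsetSum _ fun a _ => hφ a,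
    Finset.mul_sum]
  exact Finset.sum_congr rfl fun a _ => PP_int hKK a (hφ a)

/-- finiteness -/
lemma fin {r : ℝ} (hr : 1 < r) {C : ℝ≥0} (hC : ∀ φ : ℂ → ℝ≥0∞, Measurable φ →
    ∫⁻ x, (⨆ a : ℤ, PP a φ x) ^ r ≤ C * ∫⁻ x, φ x ^ r)
    (A : Finset ℤ) (φ : ℤ → ℂ → ℝ≥0∞) (hφ : ∀ a, Measurable (φ a))
    (hI : ∫⁻ x, (∑ a ∈ A, φ a x) ^ r ≠ ⊤) : ∫⁻ x, (∑ a ∈ A, PP a (φ a) x) ^ r ≠ ⊤ := by
  have hr0 : 0 ≤ r := by linarith
  set Φ : ℂ → ℝ≥0∞ := fun x => ∑ a ∈ A, φ a x with hΦ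
  have hΦm : Measurable Φ := Finset.measurable_fun_sum _ fun a _ => hφ a
  have h1 : ∀ x, (∑ a ∈ A, PP a (φ a) x) ^ r
      ≤ (A.card : ℝ≥0∞) ^ r * (⨆ a : ℤ, PP a Φ x) ^ r := by
    intro x
    rw [← ENNReal.mul_rpow_of_nonneg _ _ hr0]
    refine ENNReal.rpow_le_rpow ?_ hr0
    calc ∑ a ∈ A, PP a (φ a) x ≤ ∑ a ∈ A, ⨆ a : ℤ, PP a Φ x := by
          refine Finset.sum_le_sum fun a ha => ?_
          refine (PP_mono a (fun y => ?_) x).trans (le_iSup (fun a => PP a Φ x) a)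
          exact Finset.single_le_sum (f := fun a => φ a y) (fun _ _ => bot_le) ha
      _ = (A.card : ℝ≥0∞) * ⨆ a : ℤ, PP a Φ x := by
          rw [Finset.sum_const, nsmul_eq_mul]
  have hcard : (A.card : ℝ≥0∞) ^ r ≠ ⊤ :=
    ENNReal.rpow_ne_top_of_nonneg hr0 (ENNReal.natCast_ne_top _)
  have h2 : ∫⁻ x, (∑ a ∈ A, PP a (φ a) x) ^ r
      ≤ (A.card : ℝ≥0∞) ^ r * (C * ∫⁻ x, Φ x ^ r) := by
    calc ∫⁻ x, (∑ a ∈ A, PP a (φ a) x) ^ r
        ≤ ∫⁻ x, (A.card : ℝ≥0∞) ^ r * (⨆ a : ℤ, PP a Φ x) ^ r := lintegral_mono h1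
      _ = (A.card : ℝ≥0∞) ^ r * ∫⁻ x, (⨆ a : ℤ, PP a Φ x) ^ r := by
          rw [lintegral_const_mul' _ _ hcard]
      _ ≤ (A.card : ℝ≥0∞) ^ r * (C * ∫⁻ x, Φ x ^ r) := by
          gcongr
          exact hC Φ hΦm
  refine ne_top_of_le_ne_top ?_ h2
  exact ENNReal.mul_ne_top hcard (ENNReal.mul_ne_top ENNReal.coe_ne_top hI)

/-- cancellation -/
lemma cancel {r : ℝ} (hr : 1 < r) {I J C : ℝ≥0∞} (hJ : J ≠ ⊤)
    (h : J ≤ I ^ (1 / r) * (C * J) ^ (1 / (r / (r - 1)))) : J ≤ C ^ (r - 1) * I := by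
  have hr0 : 0 < r := by linarith
  rcases eq_or_ne J 0 with h0 | h0
  · rw [h0]; exact bot_le
  have e1 : 1 / (r / (r - 1)) = (r - 1) / r := by
    rw [one_div_div]
  rw [e1, ENNReal.mul_rpow_of_nonneg _ _ (div_nonneg (by linarith) (by linarith))] at h
  have e2 : J = J ^ (1 / r) * J ^ ((r - 1) / r) := by
    rw [← ENNReal.rpow_add _ _ h0 hJ, ← add_div, add_sub_cancel, div_self hr0.ne',
      ENNReal.rpow_one]
  have h3 : J ^ (1 / r) * J ^ ((r - 1) / r)
      ≤ (I ^ (1 / r) * C ^ ((r - 1) / r)) * J ^ ((r - 1) / r) := by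
    rw [← e2]
    calc J ≤ _ := h
      _ = _ := by ring
  have h4 : J ^ ((r - 1) / r) ≠ 0 := by
    intro h5
    rw [ENNReal.rpow_eq_zero_iff] at h5
    rcases h5 with h5 | h5
    · exact h0 h5.1
    · exact hJ h5.1
  have h5 : J ^ ((r - 1) / r) ≠ ⊤ :=
    ENNReal.rpow_ne_top_of_nonneg (div_nonneg (by linarith) (by linarith)) hJ
  have h6 : J ^ (1 / r) ≤ I ^ (1 / r) * C ^ ((r - 1) / r) :=
    (ENNReal.mul_le_mul_iff_left h4 h5).1 h3
  have h7 := ENNReal.rpow_le_rpow h6 hr0.le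
  have e3 : ∀ t : ℝ≥0∞, (t ^ (1 / r)) ^ r = t := by
    intro t
    rw [← ENNReal.rpow_mul, one_div_mul_cancel hr0.ne', ENNReal.rpow_one]
  have e4 : (C ^ ((r - 1) / r)) ^ r = C ^ (r - 1) := by
    rw [← ENNReal.rpow_mul, div_mul_cancel₀ _ hr0.ne']
  rw [ENNReal.mul_rpow_of_nonneg _ _ hr0.le, e3, e3, e4, mul_comm] at h7
  exact h7

end DDrm

open DDrm in
/-- the dual Doob inequality -/
theorem ddr (hHL : Even.StmtHL) (hKK : Four.StmtKK) : StmtDDr := by
  intro r hr1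
  rcases eq_or_lt_of_le hr1 with hr | hr
  · subst hr
    refine ⟨⟨Real.pi, Real.pi_pos.le⟩, fun A φ hφ => ?_⟩
    simp only [ENNReal.rpow_one]
    have := DDrm.one hKK A φ hφ
    refine le_of_eq (this.trans ?_)
    rw [ENNReal.ofReal_eq_coe_nnreal Real.pi_pos.le]
    rfl
  · have hr0 : 0 < r := by linarith
    set q : ℝ := r / (r - 1) with hq
    have hq1 : 1 < q := by
      rw [hq, lt_div_iff₀ (by linarith)]
      linarith
    obtain ⟨C₁, hC₁⟩ := hHL q hq1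
    obtain ⟨C₂, hC₂⟩ := hHL r hr
    refine ⟨C₁ ^ (r - 1) + 1, fun A φ hφ => ?_⟩
    change ∫⁻ x, (∑ a ∈ A, PP a (φ a) x) ^ r ≤ _
    rcases eq_or_ne (∫⁻ x, (∑ a ∈ A, φ a x) ^ r) ⊤ with hI | hI
    · rw [hI, ENNReal.mul_top]
      · exact le_top
      · simp
    have hJ := DDrm.fin hr (C := C₂) (fun φ hφ => hC₂ φ hφ) A φ hφ hI
    set S : ℂ → ℝ≥0∞ := fun x => ∑ a ∈ A, PP a (φ a) x with hS
    set Φ : ℂ → ℝ≥0∞ := fun x => ∑ a ∈ A, φ a x with hΦ
    have hSm : Measurable S := Finset.measurable_fun_sum _ fun a _ => PP_meas a (hφ a)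
    have hΦm : Measurable Φ := Finset.measurable_fun_sum _ fun a _ => hφ a
    have hSK : Measurable (fun x => S x ^ (r - 1)) := hSm.pow_const _
    have hMm : Measurable (fun x => ⨆ a : ℤ, PP a (fun x => S x ^ (r - 1)) x) :=
      Measurable.iSup fun a => PP_meas a hSK
    have hconj : r.HolderConjugate q := by
      rw [hq]
      exact Real.HolderConjugate.conjExponent hr
    have key : ∫⁻ x, S x ^ r ≤ (∫⁻ x, Φ x ^ r) ^ (1 / r) *
        (C₁ * ∫⁻ x, S x ^ r) ^ (1 / (r / (r - 1))) := by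
      calc ∫⁻ x, S x ^ r = ∫⁻ x, ∑ a ∈ A, PP a (φ a) x * S x ^ (r - 1) := by
            refine lintegral_congr fun x => ?_
            rw [← Finset.sum_mul]
            have e := ENNReal.rpow_add_of_nonneg (x := S x) 1 (r - 1) zero_le_one (by linarith)
            rw [add_sub_cancel, ENNReal.rpow_one] at e
            exact e
        _ = ∑ a ∈ A, ∫⁻ x, PP a (φ a) x * S x ^ (r - 1) :=
            lintegral_finsetSum _ fun a _ => (PP_meas a (hφ a)).mul hSK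
        _ = ∑ a ∈ A, ∫⁻ x, φ a x * PP a (fun x => S x ^ (r - 1)) x :=
            Finset.sum_congr rfl fun a _ => PP_symm a (hφ a) hSK
        _ ≤ ∑ a ∈ A, ∫⁻ x, φ a x * ⨆ a : ℤ, PP a (fun x => S x ^ (r - 1)) x := by
            refine Finset.sum_le_sum fun a _ => lintegral_mono fun x => ?_
            gcongr
            exact le_iSup (fun a => PP a (fun x => S x ^ (r - 1)) x) a
        _ = ∫⁻ x, (Φ * fun x => ⨆ a : ℤ, PP a (fun x => S x ^ (r - 1)) x) x := by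
            have e := lintegral_finsetSum (μ := volume) A
              (f := fun a x => φ a x * ⨆ a : ℤ, PP a (fun x => S x ^ (r - 1)) x)
              fun a _ => (hφ a).mul hMm
            rw [← e]
            refine lintegral_congr fun x => ?_
            rw [← Finset.sum_mul, Pi.mul_apply]
        _ ≤ (∫⁻ x, Φ x ^ r) ^ (1 / r) *
              (∫⁻ x, (⨆ a : ℤ, PP a (fun x => S x ^ (r - 1)) x) ^ q) ^ (1 / q) :=
            ENNReal.lintegral_mul_le_Lp_mul_Lq _ hconj hΦm.aemeasurable hMm.aemeasurable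
        _ ≤ (∫⁻ x, Φ x ^ r) ^ (1 / r) *
              (C₁ * ∫⁻ x, (S x ^ (r - 1)) ^ q) ^ (1 / q) := by
            gcongr
            · exact hC₁ _ hSK
        _ = _ := by
            congr 3
            refine lintegral_congr fun x => ?_
            rw [← ENNReal.rpow_mul]
            congr 1
            rw [hq, mul_div_cancel₀ _ (by linarith : r - 1 ≠ 0)]
    refine (DDrm.cancel hr hJ key).trans ?_
    gcongr
    rw [ENNReal.coe_add, ENNReal.coe_rpow_of_nonneg _ (by linarith : 0 ≤ r - 1)]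
    exact le_self_add

end Pool.Agent.Lib.MP_dd244f_an.Rp
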