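import Pool.Agent.Lib.MP_dd244f_an.Rp.Stmts
import Pool.Agent.Lib.MP_dd244f_an.Even.AvgK

/-!
Full operator, all real `p`: averaging over the position of the blocks.
-/

set_option autoImplicit false

namespace Pool.Agent.Lib.MP_dd244f_an.Rp

open MeasureTheory Filter Topology Finset
open Pool.Agent.Lib.MP_dd244f_an.Four
open Pool.Agent.Lib.MP_dd244f_an.Even
open Pool.Agent.Lib.MP_dd244f_an.Unif (SC)

namespace DecX

/-! ### Monotone functions on the integers -/

lemma unit_sum_le {Ψ : ℤ → ℝ} (hm : Monotone Ψ) {X : ℝ} (hX : ∀ a b, a ≤ b → Ψ b - Ψ a ≤ X)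
    (A : Finset ℤ) : ∑ a ∈ A, (Ψ (a + 1) - Ψ a) ≤ X := by
  classical
  set N : ℕ := A.sup Int.natAbs with hN
  have hsub : A ⊆ Finset.Icc (-(N : ℤ)) N := by
    intro a ha
    have h1 : a.natAbs ≤ N := Finset.le_sup (f := Int.natAbs) ha
    rw [Finset.mem_Icc]
    omega
  have h2 := AvgM.sum_Icc_tel Ψ (-(N : ℤ)) (2 * N)
  have e1 : -(N : ℤ) + ((2 * N : ℕ) : ℤ) = N := by push_cast; ring
  rw [e1] at h2
  calc ∑ a ∈ A, (Ψ (a + 1) - Ψ a) ≤ ∑ a ∈ Finset.Icc (-(N : ℤ)) N, (Ψ (a + 1) - Ψ a) :=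
        Finset.sum_le_sum_of_subset_of_nonneg hsub
          (fun a _ _ => sub_nonneg.2 (hm (by linarith)))
    _ = Ψ (N + 1) - Ψ (-N) := h2
    _ ≤ X := hX _ _ (by linarith)

lemma gap_sum_le {Ψ : ℤ → ℝ} (hm : Monotone Ψ) {X : ℝ} (hX : ∀ a b, a ≤ b → Ψ b - Ψ a ≤ X)
    (A : Finset ℤ) (m : ℕ) : ∑ a ∈ A, (Ψ (a + m) - Ψ (a - m)) ≤ 2 * m * X := by
  classical
  have h1 : ∀ a : ℤ, Ψ (a + m) - Ψ (a - m) =
      ∑ j ∈ Finset.range (2 * m), (Ψ (a - m + j + 1) - Ψ (a - m + j)) := by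
    intro a
    have h := Finset.sum_range_sub (fun j : ℕ => Ψ (a - m + j)) (2 * m)
    have e1 : a - (m : ℤ) + ((2 * m : ℕ) : ℤ) = a + m := by push_cast; ring
    have e2 : a - (m : ℤ) + ((0 : ℕ) : ℤ) = a - m := by simp
    rw [e1, e2] at h
    rw [← h]
    refine Finset.sum_congr rfl fun j _ => ?_
    have e3 : a - (m : ℤ) + ((j + 1 : ℕ) : ℤ) = a - m + j + 1 := by push_cast; ring
    rw [e3]
  simp only [h1]
  rw [Finset.sum_comm]
  calc ∑ j ∈ Finset.range (2 * m), ∑ a ∈ A, (Ψ (a - m + j + 1) - Ψ (a - m + j))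
      ≤ ∑ _j ∈ Finset.range (2 * m), X := by
        refine Finset.sum_le_sum fun j _ => ?_
        have h := unit_sum_le hm hX (A.image (fun a : ℤ => a - m + j))
        rw [Finset.sum_image (by intro a _ b _ h; simp only at h; omega)] at h
        exact h
    _ = 2 * m * X := by
        rw [Finset.sum_const, Finset.card_range, nsmul_eq_mul]
        push_cast
        ring

/-! ### The weights -/

lemma half_sum (A : Finset ℤ) (q : ℤ) : ∑ b ∈ A, (1 / 2 : ℝ) ^ (b - q).natAbs ≤ 3 := by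
  classical
  have hs : Summable (fun n : ℕ => (1 / 2 : ℝ) ^ n) := summable_geometric_two
  have ht : ∑' n : ℕ, (1 / 2 : ℝ) ^ n = 2 := tsum_geometric_two
  rw [← Finset.sum_filter_add_sum_filter_not A (fun b => q ≤ b)]
  have h1 : ∑ b ∈ A.filter (fun b => q ≤ b), (1 / 2 : ℝ) ^ (b - q).natAbs ≤ 2 := by
    have h2 : ∑ b ∈ A.filter (fun b => q ≤ b), (1 / 2 : ℝ) ^ (b - q).natAbs =
        ∑ n ∈ (A.filter (fun b => q ≤ b)).image (fun b => (b - q).natAbs), (1 / 2 : ℝ) ^ n := by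
      rw [Finset.sum_image]
      intro a ha b hb h
      simp only [Finset.coe_filter, Set.mem_ofPred_eq] at ha hb h
      omega
    rw [h2]
    exact (hs.sum_le_tsum _ fun j _ => by positivity).trans ht.le
  have h3 : ∑ b ∈ A.filter (fun b => ¬ q ≤ b), (1 / 2 : ℝ) ^ (b - q).natAbs ≤ 1 := by
    have h2 : ∑ b ∈ A.filter (fun b => ¬ q ≤ b), (1 / 2 : ℝ) ^ (b - q).natAbs =
        ∑ n ∈ (A.filter (fun b => ¬ q ≤ b)).image (fun b => (b - q).natAbs - 1),
          (1 / 2 : ℝ) * (1 / 2 : ℝ) ^ n := by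
      rw [Finset.sum_image]
      · refine Finset.sum_congr rfl fun b hb => ?_
        rw [Finset.mem_filter] at hb
        rw [← pow_succ']
        congr 1
        omega
      · intro a ha b hb h
        simp only [Finset.coe_filter, Set.mem_ofPred_eq] at ha hb h
        omega
    rw [h2, ← Finset.mul_sum]
    have h4 : ∑ n ∈ (A.filter (fun b => ¬ q ≤ b)).image (fun b => (b - q).natAbs - 1),
        (1 / 2 : ℝ) ^ n ≤ 2 :=
      (hs.sum_le_tsum _ fun j _ => by positivity).trans ht.le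
    linarith
  linarith

lemma wt_le (L : ℕ) (hL : 1 ≤ L) (t i b : ℤ) :
    wt (b * L - t) L i ≤ 2 * (1 / 2 : ℝ) ^ (b - (i + t) / L).natAbs := by
  set q : ℤ := (i + t) / L with hq
  have hL0 : (0 : ℤ) < L := by exact_mod_cast hL
  have hL1 : (1 : ℤ) ≤ L := by exact_mod_cast hL
  have h1 : q * L ≤ i + t := Int.ediv_mul_le _ hL0.ne'
  have h2 : i + t < (q + 1) * L := Int.lt_ediv_add_one_mul_self _ hL0
  have h3 : min (i - (b * L - t)) 0 + min (b * L - t + L - i) 0 ≤ 1 - ((b - q).natAbs : ℤ) := by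
    rcases lt_trichotomy b q with h | h | h
    · have e1 : ((b - q).natAbs : ℤ) = q - b := by omega
      rw [e1]
      have h4 : b * L - t + L - i ≤ (b + 1 - q) * L := by nlinarith
      have h5 : (b + 1 - q) * L ≤ b + 1 - q := by nlinarith
      have h6 := min_le_right (i - (b * L - t)) 0
      have h7 := min_le_left (b * L - t + L - i) 0
      linarith
    · have e1 : ((b - q).natAbs : ℤ) = 0 := by omega
      rw [e1]
      have h6 := min_le_right (i - (b * L - t)) 0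
      have h7 := min_le_right (b * L - t + L - i) 0
      linarith
    · have e1 : ((b - q).natAbs : ℤ) = b - q := by omega
      rw [e1]
      have h4 : i - (b * L - t) ≤ (q + 1 - b) * L := by nlinarith
      have h5 : (q + 1 - b) * L ≤ q + 1 - b := by nlinarith
      have h6 := min_le_left (i - (b * L - t)) 0
      have h7 := min_le_right (b * L - t + L - i) 0
      linarith
  unfold wt
  calc (2 : ℝ) ^ (min (i - (b * L - t)) 0 + min (b * L - t + L - i) 0)
      ≤ (2 : ℝ) ^ (1 - ((b - q).natAbs : ℤ)) := zpow_le_zpow_right₀ (by norm_num) h3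
    _ = 2 * (1 / 2 : ℝ) ^ (b - q).natAbs := by
        rw [zpow_sub₀ (by norm_num : (2 : ℝ) ≠ 0), zpow_one, zpow_natCast, one_div, inv_pow]
        rfl

lemma wt_sum (A : Finset ℤ) (L : ℕ) (hL : 1 ≤ L) (t i : ℤ) :
    ∑ b ∈ A, wt (b * L - t) L i ≤ 6 := by
  calc ∑ b ∈ A, wt (b * L - t) L i ≤ ∑ b ∈ A, 2 * (1 / 2 : ℝ) ^ (b - (i + t) / L).natAbs :=
        Finset.sum_le_sum fun b _ => wt_le L hL t i b
    _ = 2 * ∑ b ∈ A, (1 / 2 : ℝ) ^ (b - (i + t) / L).natAbs := by rw [Finset.mul_sum]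
    _ ≤ 2 * 3 := by gcongr; exact half_sum _ _
    _ = 6 := by norm_num

/-! ### The function `Np` -/

lemma np_nonneg (p : ℝ) (g : ℂ → ℂ) : 0 ≤ Np p g := integral_nonneg fun _ => by positivity

lemma np_zero {p : ℝ} (hp : 0 < p) : Np p (fun _ => 0) = 0 := by
  unfold Np iF
  simp [Real.zero_rpow hp.ne']

lemma qa_nonneg (a : ℤ) (g : ℂ → ℂ) (x : ℂ) : 0 ≤ qa a g x :=
  integral_nonneg fun y => mul_nonneg (by unfold KK; positivity) (by positivity)

/-! ### The primitive -/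

/-- the energy after time `4 ^ (-a)` -/
noncomputable def prim (f : ℝ → ℝ) (a : ℤ) : ℝ := ∫ τ in ((4 : ℝ) ^ (-a))..1, f τ

lemma prim_ii {f : ℝ → ℝ} (hi : IntegrableOn f (Set.Ioi 0)) {a b : ℝ} (ha : 0 < a) (hb : 0 < b) :
    IntervalIntegrable f volume a b := by
  rw [intervalIntegrable_iff]
  refine hi.mono_set fun x hx => ?_
  rw [Set.uIoc, Set.mem_Ioc] at hx
  exact (lt_min ha hb).trans hx.1

lemma prim_sub {f : ℝ → ℝ} (hi : IntegrableOn f (Set.Ioi 0)) {a b : ℤ} (hab : a ≤ b) :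
    prim f b - prim f a = ∫ τ in Set.Ioc ((4 : ℝ) ^ (-b)) ((4 : ℝ) ^ (-a)), f τ := by
  have hle : (4 : ℝ) ^ (-b) ≤ (4 : ℝ) ^ (-a) := zpow_le_zpow_right₀ (by norm_num) (by linarith)
  rw [← intervalIntegral.integral_of_le hle]
  unfold prim
  have h := intervalIntegral.integral_add_adjacent_intervals
    (prim_ii hi (a := (4 : ℝ) ^ (-b)) (b := (4 : ℝ) ^ (-a)) (by positivity) (by positivity))
    (prim_ii hi (a := (4 : ℝ) ^ (-a)) (b := 1) (by positivity) one_pos)
  linarith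

lemma prim_mono {f : ℝ → ℝ} (hi : IntegrableOn f (Set.Ioi 0)) (h0 : ∀ τ, 0 ≤ f τ) :
    Monotone (prim f) := by
  intro a b hab
  have h := prim_sub hi hab
  have h1 : 0 ≤ ∫ τ in Set.Ioc ((4 : ℝ) ^ (-b)) ((4 : ℝ) ^ (-a)), f τ :=
    integral_nonneg fun τ => h0 τ
  linarith

lemma prim_le {f : ℝ → ℝ} (hi : IntegrableOn f (Set.Ioi 0)) (h0 : ∀ τ, 0 ≤ f τ) (a b : ℤ)
    (hab : a ≤ b) : prim f b - prim f a ≤ ∫ τ in Set.Ioi (0 : ℝ), f τ := by
  rw [prim_sub hi hab]
  refine setIntegral_mono_set hi (Eventually.of_forall fun τ => h0 τ) ?_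
  refine Eventually.of_forall fun x hx => ?_
  exact lt_trans (by positivity) hx.1

lemma prim_tendsto {f : ℝ → ℝ} (hi : IntegrableOn f (Set.Ioi 0)) :
    Tendsto (fun K : ℕ => prim f K - prim f (-(K : ℤ))) atTop
      (𝓝 (∫ τ in Set.Ioi (0 : ℝ), f τ)) := by
  have h1 : ∀ K : ℕ, prim f K - prim f (-(K : ℤ)) =
      ∫ τ in Set.Ioc ((4 : ℝ) ^ (-(K : ℤ))) ((4 : ℝ) ^ (K : ℤ)), f τ := by
    intro K
    rw [prim_sub hi (by omega), neg_neg]
  simp only [h1]
  have hU : ⋃ K : ℕ, Set.Ioc ((4 : ℝ) ^ (-(K : ℤ))) ((4 : ℝ) ^ (K : ℤ)) = Set.Ioi 0 := by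
    ext x
    simp only [Set.mem_iUnion, Set.mem_Ioc, Set.mem_Ioi]
    constructor
    · rintro ⟨K, h, -⟩
      exact lt_trans (by positivity) h
    · intro hx
      obtain ⟨K₁, hK₁⟩ := pow_unbounded_of_one_lt x (by norm_num : (1 : ℝ) < 4)
      obtain ⟨K₂, hK₂⟩ := pow_unbounded_of_one_lt x⁻¹ (by norm_num : (1 : ℝ) < 4)
      refine ⟨max K₁ K₂, ?_, ?_⟩
      · rw [zpow_neg, zpow_natCast]
        have h2 : (4 : ℝ) ^ K₂ ≤ 4 ^ (max K₁ K₂) :=
          pow_le_pow_right₀ (by norm_num) (le_max_right _ _)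
        rw [inv_lt_comm₀ (by positivity) hx]
        linarith
      · rw [zpow_natCast]
        have h2 : (4 : ℝ) ^ K₁ ≤ 4 ^ (max K₁ K₂) :=
          pow_le_pow_right₀ (by norm_num) (le_max_left _ _)
        linarith
  rw [← hU]
  refine tendsto_setIntegral_of_monotone (fun K => measurableSet_Ioc) ?_ (by rw [hU]; exact hi)
  intro K K' hKK
  have hKK' : (K : ℤ) ≤ K' := by exact_mod_cast hKK
  exact Set.Ioc_subset_Ioc (zpow_le_zpow_right₀ (by norm_num) (by linarith))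
    (zpow_le_zpow_right₀ (by norm_num) hKK')

/-- telescoping over the blocks and the gaps -/
lemma prim_blocks {Ψ : ℤ → ℝ} (hm : Monotone Ψ) (K K' L m t : ℕ) (hL : 1 ≤ L) (ht : t < L)
    (hK : K + m ≤ K') :
    Ψ K - Ψ (-(K : ℤ)) ≤ ∑ b ∈ Finset.Icc (-(K' : ℤ)) K',
      ((Ψ (b * L - t + L - m) - Ψ (b * L - t + m)) +
        (Ψ (b * L - t + m) - Ψ (b * L - t - m))) := by
  have h1 : ∀ b : ℤ, (Ψ (b * L - t + L - m) - Ψ (b * L - t + m)) +
      (Ψ (b * L - t + m) - Ψ (b * L - t - m)) =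
      (fun b : ℤ => Ψ (b * L - t - m)) (b + 1) - (fun b : ℤ => Ψ (b * L - t - m)) b := by
    intro b
    simp only
    have e : (b + 1) * (L : ℤ) - t - m = b * L - t + L - m := by ring
    rw [e]
    ring
  simp only [h1]
  have h2 := AvgM.sum_Icc_tel (fun b : ℤ => Ψ (b * L - t - m)) (-(K' : ℤ)) (2 * K')
  have e1 : -(K' : ℤ) + ((2 * K' : ℕ) : ℤ) = K' := by push_cast; ring
  rw [e1] at h2
  rw [h2]
  have hLz : (1 : ℤ) ≤ L := by exact_mod_cast hL
  have htz : (t : ℤ) + 1 ≤ L := by exact_mod_cast ht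
  have hKz : (K : ℤ) + m ≤ K' := by exact_mod_cast hK
  have hm0 : (0 : ℤ) ≤ m := Int.natCast_nonneg _
  have ht0 : (0 : ℤ) ≤ t := Int.natCast_nonneg _
  have hK0 : (0 : ℤ) ≤ K := Int.natCast_nonneg _
  have hK'0 : (0 : ℤ) ≤ K' := Int.natCast_nonneg _
  have h3 : Ψ K ≤ Ψ (((K' : ℤ) + 1) * L - t - m) := hm (by nlinarith)
  have h4 : Ψ (-(K' : ℤ) * L - t - m) ≤ Ψ (-(K : ℤ)) := hm (by nlinarith)
  linarith

end DecX

open DecX in
theorem decp (hD : StmtDErr) (hH : StmtHeat) (hBI : StmtBIav) (hM : StmtMp) (hMS : StmtMS)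
    (hA : StmtAprR) (hS : StmtSch) (hF : Four.StmtFac) : StmtDECp := by
  classical
  intro p ε hp hε
  obtain ⟨CD, hCD, hD⟩ := hD p ε hp hε
  obtain ⟨CI, c, nI, hCI, hc, hnI, hBI⟩ := hBI p hp
  obtain ⟨CM, hCM, hM⟩ := hM p hp
  obtain ⟨CS, hCS, hMS⟩ := hMS p hp
  obtain ⟨B, nB, hB, hnB, hA⟩ := hA p hp.le
  have hp2 : 0 < p - 2 := by linarith
  -- choice of `m`
  set κ : ℝ := CD * (6 * (CS * (CM * B))) with hκ
  have hκ0 : 0 < κ := by positivity
  have hlim : Tendsto (fun m : ℕ => κ * ((2 : ℝ) ^ (-(m : ℝ)) + (2 : ℝ) ^ (-((p - 2) * m))))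
      atTop (𝓝 (κ * (0 + 0))) := by
    have h1 : Tendsto (fun m : ℕ => (2 : ℝ) ^ (-(m : ℝ))) atTop (𝓝 0) := by
      have h := tendsto_pow_atTop_nhds_zero_of_lt_one (r := (1 / 2 : ℝ)) (by norm_num)
        (by norm_num)
      refine h.congr fun m => ?_
      rw [Real.rpow_neg (by norm_num), Real.rpow_natCast, one_div, inv_pow]
    have h2 : Tendsto (fun m : ℕ => (2 : ℝ) ^ (-((p - 2) * m))) atTop (𝓝 0) := by
      have h3 : (2 : ℝ) ^ (-(p - 2)) < 1 :=
        Real.rpow_lt_one_of_one_lt_of_neg (by norm_num) (by linarith)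
      have h := tendsto_pow_atTop_nhds_zero_of_lt_one (r := (2 : ℝ) ^ (-(p - 2)))
        (by positivity) h3
      refine h.congr fun m => ?_
      rw [← Real.rpow_natCast, ← Real.rpow_mul (by norm_num)]
      congr 1
      ring
    exact (h1.add h2).const_mul κ
  rw [add_zero, mul_zero] at hlim
  obtain ⟨m, hm⟩ := (hlim.eventually (gt_mem_nhds (show (0 : ℝ) < ε / 4 by positivity))).exists
  set δm : ℝ := (2 : ℝ) ^ (-(m : ℝ)) + (2 : ℝ) ^ (-((p - 2) * m)) with hδm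
  have hδm0 : 0 < δm := by positivity
  -- constants
  set g0 : ℝ := (1 - (2 : ℝ) ^ (-c))⁻¹ with hg0
  have hg00 : 0 < g0 := by
    have h1 : (2 : ℝ) ^ (-c) < 1 :=
      Real.rpow_lt_one_of_one_lt_of_neg (by norm_num) (by linarith)
    rw [hg0]
    apply inv_pos.2
    linarith
  set W : ℝ := CD * (CI * (2 : ℝ) ^ c) with hW
  have hW0 : 0 < W := by positivity
  obtain ⟨L₁, hL₁⟩ := exists_nat_ge ((2 * m * B + W * g0) / (ε / 4))
  refine ⟨max (2 * m + 1) L₁, (by omega : 1 ≤ 2 * m + 1).trans (le_max_left _ _), ?_⟩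
  intro L hL
  have hLm : 2 * m < L := (Nat.lt_succ_self _).trans_le ((le_max_left _ _).trans hL)
  have hL1 : 1 ≤ L := by omega
  have hLL : 2 * m * B + W * g0 ≤ ε / 4 * L := by
    have h1 : (L₁ : ℝ) ≤ L := by exact_mod_cast (le_max_right _ _).trans hL
    have h2 := hL₁.trans h1
    rw [div_le_iff₀ (by positivity)] at h2
    linarith
  have hlim2 : Tendsto (fun n : ℕ => W * (1 / n : ℝ) ^ c) atTop (𝓝 (W * 0)) := by
    refine Tendsto.const_mul W ?_
    have h1 : Tendsto (fun n : ℕ => (1 / n : ℝ)) atTop (𝓝 0) := tendsto_one_div_atTop_nhds_zero_nat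
    have h2 := h1.rpow_const (p := c) (Or.inr hc.le)
    rwa [Real.zero_rpow hc.ne'] at h2
  rw [mul_zero] at hlim2
  obtain ⟨n₁, hn₁⟩ := eventually_atTop.1
    (hlim2.eventually (gt_mem_nhds (show (0 : ℝ) < ε / 4 by positivity)))
  refine ⟨max n₁ (max nI nB), ?_⟩
  intro n hn R g hg hSup
  have hn1' : n₁ ≤ n := (le_max_left _ _).trans hn
  have hnI' : nI ≤ n := ((le_max_left _ _).trans (le_max_right _ _)).trans hn
  have hnB' : nB ≤ n := ((le_max_right _ _).trans (le_max_right _ _)).trans hn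
  have hn1 : 1 ≤ n := hnI.trans hnI'
  have hn' : (1 : ℝ) ≤ n := by exact_mod_cast hn1
  have hWn : W * (1 / n : ℝ) ^ c ≤ ε / 4 := (hn₁ n hn1').le
  -- `g` vanishes near `0`
  have hZ : Z0 g := by
    have h1 : ∀ᶠ ζ in 𝓝 (0 : ℂ), ‖ζ‖ < (2 : ℝ) ^ (-(R : ℤ)) := by
      have := continuous_norm.continuousAt (x := (0 : ℂ))
      refine (this.eventually (gt_mem_nhds ?_))
      show ‖(0 : ℂ)‖ < _
      rw [norm_zero]
      positivity
    filter_upwards [h1] with ζ h2
    by_contra h3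
    exact absurd (hSup ζ h3).1 (not_le.2 h2)
  set G := mg n g with hGdef
  have hGS : SC G ∧ Z0 G := (hS.2.2.2.2.2 g hg).2.2.2.2.2.2.2.2 n hn1 hZ
  have hGC : CC G := hS.1 G hGS.1
  have hGsup : Sup R G := by
    intro ζ h1
    apply hSup
    intro h2
    apply h1
    rw [hGdef]
    unfold mg
    rw [h2, mul_zero]
  -- high and low cutoffs
  have hlow0 : ∀ a : ℤ, a ≤ -(R : ℤ) - 1 → ∀ ζ, G ζ ≠ 0 → lo a ζ = 0 := by
    intro a ha ζ hz
    have h1 := (hGsup ζ hz).1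
    apply hF.2.2.1
    have h3 : (2 : ℝ) ^ a ≤ (2 : ℝ) ^ (-(R : ℤ)) / 2 := by
      have h4 : (2 : ℝ) ^ a ≤ (2 : ℝ) ^ (-(R : ℤ) - 1) := zpow_le_zpow_right₀ (by norm_num) ha
      rwa [zpow_sub_one₀ (by norm_num : (2 : ℝ) ≠ 0), ← div_eq_mul_inv] at h4
    have h5 : (0 : ℝ) < (2 : ℝ) ^ a := by positivity
    have h6 : (0 : ℝ) < (2 : ℝ) ^ (-(R : ℤ)) := by positivity
    have h7 : 2 * (2 : ℝ) ^ a ≤ ‖ζ‖ := by linarith
    nlinarith
  have hhigh0 : ∀ a : ℤ, (R : ℤ) ≤ a → ∀ ζ, G ζ ≠ 0 → lo a ζ = 1 := by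
    intro a ha ζ hz
    apply hF.2.1
    exact (hGsup ζ hz).2.trans (zpow_le_zpow_right₀ (by norm_num) ha)
  have hbd : ∀ a b : ℤ, a ≤ -(R : ℤ) - 1 → cut (bd a b) G = cut (lo b) G := by
    intro a b ha
    ext ζ
    by_cases hz : G ζ = 0
    · simp [cut, hz]
    · simp [cut, bd, hlow0 a ha ζ hz]
  have hbd0 : ∀ a b : ℤ, (b ≤ -(R : ℤ) - 1 ∧ a ≤ -(R : ℤ) - 1) ∨ ((R : ℤ) ≤ a ∧ (R : ℤ) ≤ b) →
      Np p (cut (bd a b) G) = 0 := by
    intro a b hab
    have h1 : cut (bd a b) G = fun _ => 0 := by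
      ext ζ
      by_cases hz : G ζ = 0
      · simp [cut, hz]
      · rcases hab with ⟨h1, h2⟩ | ⟨h1, h2⟩
        · simp [cut, bd, hlow0 a h2 ζ hz, hlow0 b h1 ζ hz]
        · simp [cut, bd, hhigh0 a h1 ζ hz, hhigh0 b h2 ζ hz]
    rw [h1, np_zero (by linarith)]
  -- the heat flow
  obtain ⟨hgr0, hgri, hgrN⟩ := hH p G hp hGS.1 hGS.2
  set f : ℝ → ℝ := fun τ => gr p (tw τ 0 G) with hf
  set Ψ : ℤ → ℝ := prim f with hΨ
  set X := Np p g with hX
  set Y := Np p G with hY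
  have hX0 : 0 ≤ X := np_nonneg _ _
  have hY0 : 0 ≤ Y := np_nonneg _ _
  have hYX : Y ≤ B * (n : ℝ) ^ (p - 2) * X := hA n hnB' g hg hZ
  set V : ℝ := (n : ℝ) ^ (p - 2) * X with hV
  have hV0 : 0 ≤ V := by positivity
  have hΨm : Monotone Ψ := prim_mono hgri hgr0
  have hΨY : ∀ a b : ℤ, a ≤ b → Ψ b - Ψ a ≤ Y := by
    intro a b hab
    rw [hgrN]
    exact prim_le hgri hgr0 a b hab
  have hΨt : Tendsto (fun K : ℕ => Ψ K - Ψ (-(K : ℤ))) atTop (𝓝 Y) := by
    rw [hgrN]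
    exact prim_tendsto hgri
  -- the maximal function
  obtain ⟨M, hDom, hMi, hMb⟩ := hM G hGC
  have hM0 := hDom.2.1
  set IR := Finset.Icc (-((R : ℤ) + 4)) (R + 4) with hIR
  obtain ⟨hqi, hqb⟩ := hMS IR G M hGC hDom hMi
  set q : ℤ → ℝ := fun i => ∫ x, M x ^ ((p - 2) / 2) * qa i G x with hq
  have hq0 : ∀ i, 0 ≤ q i := fun i => integral_nonneg fun x =>
    mul_nonneg (Real.rpow_nonneg (hM0 x) _) (qa_nonneg _ _ _)
  have hqsum : ∑ i ∈ IR, q i ≤ CS * (CM * Y) := by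
    have h1 : ∑ i ∈ IR, q i = ∫ x, M x ^ ((p - 2) / 2) * ∑ i ∈ IR, qa i G x := by
      rw [← integral_finsetSum _ fun i _ => hqi i]
      refine integral_congr_ae (Eventually.of_forall fun x => ?_)
      simp only
      rw [Finset.mul_sum]
    rw [h1]
    exact hqb.trans (mul_le_mul_of_nonneg_left hMb hCS.le)
  -- the second error term
  have hE2 : ∀ (s : ℤ), (∫ x, M x ^ ((p - 2) / 2) * ∑ i ∈ IR, wt s L i * qa i G x) =
      ∑ i ∈ IR, wt s L i * q i := by
    intro s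
    have h1 : ∀ i, Integrable (fun x => wt s L i * (M x ^ ((p - 2) / 2) * qa i G x)) :=
      fun i => (hqi i).const_mul _
    have h2 : ∑ i ∈ IR, wt s L i * q i =
        ∑ i ∈ IR, ∫ x, wt s L i * (M x ^ ((p - 2) / 2) * qa i G x) := by
      refine Finset.sum_congr rfl fun i _ => ?_
      rw [integral_const_mul]
    rw [h2, ← integral_finsetSum _ fun i _ => h1 i]
    refine integral_congr_ae (Eventually.of_forall fun x => ?_)
    simp only
    rw [Finset.mul_sum]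
    exact Finset.sum_congr rfl fun i _ => by ring
  have hE2s : ∀ (A : Finset ℤ) (t : ℤ),
      ∑ b ∈ A, (∫ x, M x ^ ((p - 2) / 2) * ∑ i ∈ IR, wt (b * L - t) L i * qa i G x) ≤
        6 * (CS * (CM * Y)) := by
    intro A t
    simp only [hE2]
    rw [Finset.sum_comm]
    calc ∑ i ∈ IR, ∑ b ∈ A, wt (b * L - t) L i * q i
        = ∑ i ∈ IR, (∑ b ∈ A, wt (b * L - t) L i) * q i := by
          refine Finset.sum_congr rfl fun i _ => ?_
          rw [Finset.sum_mul]
      _ ≤ ∑ i ∈ IR, 6 * q i := by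
          refine Finset.sum_le_sum fun i _ => ?_
          exact mul_le_mul_of_nonneg_right (wt_sum A L hL1 t i) (hq0 i)
      _ = 6 * ∑ i ∈ IR, q i := by rw [Finset.mul_sum]
      _ ≤ _ := by gcongr
  -- the third error term
  set Ξ : ℕ → ℤ → ℝ := fun d a => ∫ x, qm 8 a G x * ‖iF (cut (lo (a - d)) G) x‖ ^ (p - 2)
    with hΞ
  have hΞs : ∀ (A : Finset ℤ) (d : ℕ), ∑ a ∈ A, Ξ d a ≤
      CI * ((2 : ℝ) ^ (-(d : ℤ)) + 1 / n) ^ c * V := by
    intro A d
    obtain ⟨a₁, ha₁⟩ : ∃ a₁ : ℤ, ∀ i ∈ insert (-(R : ℤ) - 1 + d) A, a₁ ≤ i :=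
      ⟨(insert (-(R : ℤ) - 1 + d) A).min' (Finset.insert_nonempty _ _),
        fun i hi => Finset.min'_le _ i hi⟩
    set a₀ : ℤ := a₁ - d with ha₀
    have ha₀R : a₀ ≤ -(R : ℤ) - 1 := by
      have := ha₁ _ (Finset.mem_insert_self _ _)
      rw [ha₀]; linarith
    have ha₀A : ∀ a ∈ A, a₀ ≤ a - d := by
      intro a ha
      have := ha₁ _ (Finset.mem_insert_of_mem ha)
      rw [ha₀]; linarith
    obtain ⟨-, h2⟩ := hBI n hnI' g hg hZ A a₀ d ha₀A
    rw [← hGdef] at h2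
    simp only [hbd a₀ _ ha₀R] at h2
    calc ∑ a ∈ A, Ξ d a ≤ CI * (n : ℝ) ^ (p - 2) * ((2 : ℝ) ^ (-(d : ℤ)) + 1 / n) ^ c * X := h2
      _ = _ := by rw [hV]; ring
  have hsum : ∑ d ∈ Finset.range L, ((2 : ℝ) ^ (-(d : ℤ)) + 1 / n) ^ c ≤
      (2 : ℝ) ^ c * (g0 + L * (1 / n : ℝ) ^ c) := by
    have h1 : ∀ j ∈ Finset.range L, ((2 : ℝ) ^ (-(j : ℤ)) + 1 / n) ^ c ≤
        (2 : ℝ) ^ c * (((2 : ℝ) ^ (-(j : ℤ))) ^ c + (1 / n : ℝ) ^ c) := by
      intro j _
      set x : ℝ := (2 : ℝ) ^ (-(j : ℤ)) with hx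
      set y : ℝ := 1 / n with hy
      have hx0 : 0 < x := by positivity
      have hy0 : 0 < y := by positivity
      have h2 : x + y ≤ 2 * max x y := by
        have := le_max_left x y
        have := le_max_right x y
        linarith
      have h3 : (max x y) ^ c ≤ x ^ c + y ^ c := by
        have h5 : 0 ≤ x ^ c := by positivity
        have h6 : 0 ≤ y ^ c := by positivity
        rcases le_total x y with h | h
        · rw [max_eq_right h]; linarith
        · rw [max_eq_left h]; linarith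
      calc (x + y) ^ c ≤ (2 * max x y) ^ c := Real.rpow_le_rpow (by positivity) h2 hc.le
        _ = (2 : ℝ) ^ c * (max x y) ^ c := Real.mul_rpow (by norm_num) (by positivity)
        _ ≤ _ := by gcongr
    refine (Finset.sum_le_sum h1).trans ?_
    rw [← Finset.mul_sum, Finset.sum_add_distrib, Finset.sum_const, Finset.card_range,
      nsmul_eq_mul]
    have h2 := AvgX.sum_geo hc L
    gcongr
  -- the bound for a large range of blocks
  have hmain : ∀ K : ℕ, (L : ℝ) * (Ψ K - Ψ (-(K : ℤ))) ≤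
      (1 + ε) * (∑ t ∈ Finset.range L, ∑ b ∈ IR,
        Np p (cut (bd (b * L - t) ((b + 1) * L - t)) G)) + ε * L * V := by
    intro K
    set K' : ℕ := K + m + (R + 4) with hK'
    set IK := Finset.Icc (-(K' : ℤ)) K' with hIK
    have h1 : ∀ t ∈ Finset.range L, Ψ K - Ψ (-(K : ℤ)) ≤ ∑ b ∈ IK,
        ((Ψ (b * L - t + L - m) - Ψ (b * L - t + m)) +
          (Ψ (b * L - t + m) - Ψ (b * L - t - m))) := fun t ht =>
      prim_blocks hΨm K K' L m t hL1 (Finset.mem_range.1 ht) (by omega)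
    -- one block
    have h2 : ∀ s : ℤ, Ψ (s + L - m) - Ψ (s + m) ≤
        (1 + ε) * Np p (cut (bd s (s + L)) G) + CD * δm *
          (∫ x, M x ^ ((p - 2) / 2) * ∑ i ∈ IR, wt s L i * qa i G x) +
        CD * ∑ d ∈ Finset.range L, Ξ d (s + d) := by
      intro s
      have hsm : s + (m : ℤ) ≤ s + L - m := by omega
      rw [hΨ, prim_sub hgri hsm]
      refine (hD m L s R G M hLm hGS.1 hGsup hDom hMi).trans (le_of_eq ?_)
      congr 2
      have e : Finset.Ico s (s + L) = (Finset.range L).image (fun d : ℕ => s + (d : ℤ)) := by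
        ext i
        simp only [Finset.mem_Ico, Finset.mem_image, Finset.mem_range]
        constructor
        · rintro ⟨h3, h4⟩
          exact ⟨(i - s).toNat, by omega, by omega⟩
        · rintro ⟨d, h3, rfl⟩
          omega
      rw [e, Finset.sum_image (by intro a _ b _ h; simp only at h; omega)]
      refine Finset.sum_congr rfl fun d _ => ?_
      rw [hΞ]
      simp only
      have e2 : s + (d : ℤ) - d = s := by ring
      rw [e2]
    -- the main terms
    have h3 : ∀ t ∈ Finset.range L, ∑ b ∈ IK, Np p (cut (bd (b * L - t) (b * L - t + L)) G) =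
        ∑ b ∈ IR, Np p (cut (bd (b * L - t) ((b + 1) * L - t)) G) := by
      intro t ht
      have e : ∀ b : ℤ, b * (L : ℤ) - t + L = (b + 1) * L - t := fun b => by ring
      simp only [e]
      symm
      refine Finset.sum_subset ?_ ?_
      · rw [hIR, hIK]
        refine Finset.Icc_subset_Icc ?_ ?_
        · rw [hK']; push_cast; omega
        · rw [hK']; push_cast; omega
      · intro b _ hb
        rw [hIR, Finset.mem_Icc, not_and_or, not_le, not_le] at hb
        have hLz : (1 : ℤ) ≤ L := by exact_mod_cast hL1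
        have htz : (t : ℤ) + 1 ≤ L := by exact_mod_cast Finset.mem_range.1 ht
        have ht0 : (0 : ℤ) ≤ t := Int.natCast_nonneg _
        have hR0 : (0 : ℤ) ≤ R := Int.natCast_nonneg _
        apply hbd0
        rcases hb with hb | hb
        · left
          constructor
          · nlinarith
          · nlinarith
        · right
          constructor
          · nlinarith
          · nlinarith
    -- the gaps
    have h4 : ∑ t ∈ Finset.range L, ∑ b ∈ IK, (Ψ (b * L - t + m) - Ψ (b * L - t - m)) ≤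
        2 * m * Y := by
      obtain ⟨A, hAre⟩ := AvgM.rearrange L K' (fun a => Ψ (a + m) - Ψ (a - m)) 0
      simp only [Nat.cast_zero, add_zero] at hAre
      rw [hIK, hAre]
      exact gap_sum_le hΨm hΨY A m
    -- the third error term
    have h5 : ∑ t ∈ Finset.range L, ∑ b ∈ IK, ∑ d ∈ Finset.range L, Ξ d (b * L - t + d) ≤
        CI * ((2 : ℝ) ^ c * (g0 + L * (1 / n : ℝ) ^ c)) * V := by
      have e : ∑ t ∈ Finset.range L, ∑ b ∈ IK, ∑ d ∈ Finset.range L, Ξ d (b * L - t + d) =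
          ∑ d ∈ Finset.range L, ∑ t ∈ Finset.range L, ∑ b ∈ IK, Ξ d (b * L - t + d) := by
        calc ∑ t ∈ Finset.range L, ∑ b ∈ IK, ∑ d ∈ Finset.range L, Ξ d (b * L - t + d)
            = ∑ t ∈ Finset.range L, ∑ d ∈ Finset.range L, ∑ b ∈ IK, Ξ d (b * L - t + d) :=
            Finset.sum_congr rfl fun t _ => Finset.sum_comm
          _ = _ := Finset.sum_comm
      rw [e]
      calc ∑ d ∈ Finset.range L, ∑ t ∈ Finset.range L, ∑ b ∈ IK, Ξ d (b * L - t + d)
          ≤ ∑ d ∈ Finset.range L, CI * ((2 : ℝ) ^ (-(d : ℤ)) + 1 / n) ^ c * V := by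
            refine Finset.sum_le_sum fun d _ => ?_
            obtain ⟨A, hAre⟩ := AvgM.rearrange L K' (Ξ d) d
            rw [hIK, hAre]
            exact hΞs A d
        _ = CI * (∑ d ∈ Finset.range L, ((2 : ℝ) ^ (-(d : ℤ)) + 1 / n) ^ c) * V := by
            rw [Finset.mul_sum, Finset.sum_mul]
        _ ≤ _ := by gcongr
    -- sum
    have h6 : (L : ℝ) * (Ψ K - Ψ (-(K : ℤ))) ≤
        (1 + ε) * (∑ t ∈ Finset.range L, ∑ b ∈ IR,
          Np p (cut (bd (b * L - t) ((b + 1) * L - t)) G)) +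
        L * (CD * δm * (6 * (CS * (CM * Y)))) +
        CD * (CI * ((2 : ℝ) ^ c * (g0 + L * (1 / n : ℝ) ^ c)) * V) + 2 * m * Y := by
      have h7 := Finset.sum_le_sum h1
      rw [Finset.sum_const, Finset.card_range, nsmul_eq_mul] at h7
      refine h7.trans ?_
      calc ∑ t ∈ Finset.range L, ∑ b ∈ IK,
            ((Ψ (b * L - t + L - m) - Ψ (b * L - t + m)) +
              (Ψ (b * L - t + m) - Ψ (b * L - t - m)))
          ≤ ∑ t ∈ Finset.range L, ∑ b ∈ IK,
            (((1 + ε) * Np p (cut (bd (b * L - t) (b * L - t + L)) G) + CD * δm *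
              (∫ x, M x ^ ((p - 2) / 2) * ∑ i ∈ IR, wt (b * L - t) L i * qa i G x) +
            CD * ∑ d ∈ Finset.range L, Ξ d (b * L - t + d)) +
              (Ψ (b * L - t + m) - Ψ (b * L - t - m))) := by
            refine Finset.sum_le_sum fun t _ => Finset.sum_le_sum fun b _ => ?_
            have := h2 (b * L - t)
            linarith
        _ = (1 + ε) * (∑ t ∈ Finset.range L, ∑ b ∈ IK,
              Np p (cut (bd (b * L - t) (b * L - t + L)) G)) +
            CD * δm * (∑ t ∈ Finset.range L, ∑ b ∈ IK,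
              (∫ x, M x ^ ((p - 2) / 2) * ∑ i ∈ IR, wt (b * L - t) L i * qa i G x)) +
            CD * (∑ t ∈ Finset.range L, ∑ b ∈ IK, ∑ d ∈ Finset.range L, Ξ d (b * L - t + d)) +
            ∑ t ∈ Finset.range L, ∑ b ∈ IK, (Ψ (b * L - t + m) - Ψ (b * L - t - m)) := by
            simp only [Finset.sum_add_distrib, Finset.mul_sum]
        _ ≤ _ := by
            have h8 : ∑ t ∈ Finset.range L, ∑ b ∈ IK,
                (∫ x, M x ^ ((p - 2) / 2) * ∑ i ∈ IR, wt (b * L - t) L i * qa i G x) ≤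
                L * (6 * (CS * (CM * Y))) := by
              have h9 := Finset.sum_le_sum fun t (_ : t ∈ Finset.range L) => hE2s IK t
              rw [Finset.sum_const, Finset.card_range, nsmul_eq_mul] at h9
              exact h9
            rw [Finset.sum_congr rfl h3]
            have h10 : CD * δm * (∑ t ∈ Finset.range L, ∑ b ∈ IK,
                (∫ x, M x ^ ((p - 2) / 2) * ∑ i ∈ IR, wt (b * L - t) L i * qa i G x)) ≤
                CD * δm * (L * (6 * (CS * (CM * Y)))) := by gcongr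
            have h11 : CD * (∑ t ∈ Finset.range L, ∑ b ∈ IK, ∑ d ∈ Finset.range L,
                Ξ d (b * L - t + d)) ≤ CD * (CI * ((2 : ℝ) ^ c * (g0 + L * (1 / n : ℝ) ^ c)) * V) := by
              gcongr
            linarith
    refine h6.trans ?_
    have hYV : Y ≤ B * V := by rw [hV, ← mul_assoc]; exact hYX
    have h12 : L * (CD * δm * (6 * (CS * (CM * Y)))) ≤ L * (ε / 4 * V) := by
      have h13 : CD * δm * (6 * (CS * (CM * Y))) ≤ CD * δm * (6 * (CS * (CM * (B * V)))) := by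
        gcongr
      have h14 : CD * δm * (6 * (CS * (CM * (B * V)))) = κ * δm * V := by rw [hκ]; ring
      have h15 : κ * δm * V ≤ ε / 4 * V := by gcongr
      exact mul_le_mul_of_nonneg_left (h13.trans (h14.le.trans h15)) (Nat.cast_nonneg L)
    have h16 : 2 * m * Y ≤ 2 * m * B * V := by
      calc 2 * (m : ℝ) * Y ≤ 2 * m * (B * V) := by gcongr
        _ = _ := by ring
    have h17 : CD * (CI * ((2 : ℝ) ^ c * (g0 + L * (1 / n : ℝ) ^ c)) * V) =
        W * g0 * V + L * (W * (1 / n : ℝ) ^ c) * V := by rw [hW]; ring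
    have h18 : L * (W * (1 / n : ℝ) ^ c) * V ≤ L * (ε / 4) * V := by gcongr
    have h19 : (2 * m * B + W * g0) * V ≤ ε / 4 * L * V := by gcongr
    have h20 : 0 ≤ ε / 4 * L * V := by positivity
    rw [h17]
    nlinarith
  -- limit
  have hlimK : (L : ℝ) * Y ≤ (1 + ε) * (∑ t ∈ Finset.range L, ∑ b ∈ IR,
      Np p (cut (bd (b * L - t) ((b + 1) * L - t)) G)) + ε * L * V :=
    le_of_tendsto (hΨt.const_mul (L : ℝ)) (Eventually.of_forall hmain)
  rw [Finset.sum_sub_distrib, Finset.sum_const, Finset.card_range, nsmul_eq_mul,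
    ← Finset.mul_sum]
  have : ε * L * (n : ℝ) ^ (p - 2) * X = ε * L * V := by rw [hV]; ring
  rw [this]
  linarith

end Pool.Agent.Lib.MP_dd244f_an.Rp
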