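import Pool.Agent.Lib.MP_dd244f_an.Rp.Stmts
import Pool.Agent.Lib.MP_dd244f_an.Four.Dec

/-!
Module (DErr): the heat energy of a block.
-/

set_option autoImplicit false

namespace Pool.Agent.Lib.MP_dd244f_an.Rp.DErr

open MeasureTheory Filter Topology Finset
open Pool.Agent.Lib.MP_dd244f_an.Four
open Pool.Agent.Lib.MP_dd244f_an.Even
open Pool.Agent.Lib.MP_dd244f_an.Unif (SC)

/-! ### sums over shells -/

/-- sum of the shells in `S` -/
noncomputable def PS (S : Finset ℤ) (G : ℂ → ℂ) (ζ : ℂ) : ℂ := ∑ i ∈ S, cut (sh i) G ζ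

theorem ps_lt (hF : StmtFac) {R : ℕ} {G : ℂ → ℂ} (hR : Sup R G) (t : ℤ) :
    PS ((Finset.Icc (-((R : ℤ) + 4)) (R + 4)).filter (· < t)) G = cut (lo t) G := by
  obtain ⟨-, h1, h0, -⟩ := hF
  ext ζ
  unfold PS cut
  rw [← Finset.sum_mul, ← Complex.ofReal_sum]
  by_cases hG : G ζ = 0
  · rw [hG]; simp
  obtain ⟨hlow, hhigh⟩ := hR ζ hG
  congr 2
  have hsq : ((2 : ℝ) ^ (-(R : ℤ))) ^ 2 ≤ ‖ζ‖ ^ 2 := by gcongr
  have hz : ∀ a : ℤ, a ≤ -((R : ℤ) + 4) → lo a ζ = 0 := by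
    intro a ha
    apply h0
    refine le_trans ?_ hsq
    have h2 : (2 : ℝ) ^ a ≤ 2 ^ (-(R : ℤ) - 4) := zpow_le_zpow_right₀ (by norm_num) (by omega)
    have h3 : (2 : ℝ) ^ (-(R : ℤ) - 4) = 2 ^ (-(R : ℤ)) / 16 := by
      rw [zpow_sub₀ (by norm_num)]; norm_num
    have h4 : (0 : ℝ) < 2 ^ a := by positivity
    have h5 : (0 : ℝ) < 2 ^ (-(R : ℤ)) := by positivity
    rw [h3] at h2
    nlinarith
  have hone : ∀ a : ℤ, (R : ℤ) ≤ a → lo a ζ = 1 := by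
    intro a ha
    apply h1
    exact hhigh.trans (zpow_le_zpow_right₀ (by norm_num) ha)
  set t' : ℤ := max (-((R : ℤ) + 4)) (min t ((R : ℤ) + 4 + 1)) with ht'
  have hfil : (Finset.Icc (-((R : ℤ) + 4)) (R + 4)).filter (· < t)
      = Finset.Ico (-((R : ℤ) + 4)) t' := by
    ext i
    simp only [Finset.mem_filter, Finset.mem_Icc, Finset.mem_Ico, ht']
    omega
  rw [hfil]
  have htele := Four.Dec.tele (fun i => lo i ζ) (-((R : ℤ) + 4)) t' (le_max_left _ _)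
  have : ∑ i ∈ Finset.Ico (-((R : ℤ) + 4)) t', sh i ζ = lo t' ζ := by
    have e : ∀ i : ℤ, sh i ζ = lo (i + 1) ζ - lo i ζ := fun i => rfl
    simp only [e]
    rw [htele, hz _ le_rfl, sub_zero]
  rw [this]
  rcases lt_or_ge t (-((R : ℤ) + 4)) with h | h
  · rw [hz t h.le, hz t' (by omega)]
  · rcases lt_or_ge ((R : ℤ) + 4 + 1) t with h' | h'
    · rw [hone t (by omega), hone t' (by omega)]
    · congr 1; omega

theorem ps_union {S T : Finset ℤ} (h : Disjoint S T) (G : ℂ → ℂ) :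
    PS (S ∪ T) G = fun ζ => PS S G ζ + PS T G ζ := by
  ext ζ
  unfold PS
  exact Finset.sum_union h

/-- the shells below, in, and above the block -/
noncomputable def SA (R : ℕ) (s : ℤ) : Finset ℤ := (Finset.Icc (-((R : ℤ) + 4)) (R + 4)).filter (· < s)
noncomputable def SB (R : ℕ) (s : ℤ) (L : ℕ) : Finset ℤ :=
  (Finset.Icc (-((R : ℤ) + 4)) (R + 4)).filter (fun i => s ≤ i ∧ i < s + L)
noncomputable def SH (R : ℕ) (s : ℤ) (L : ℕ) : Finset ℤ :=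
  (Finset.Icc (-((R : ℤ) + 4)) (R + 4)).filter (fun i => s + L ≤ i)

theorem ps_A (hF : StmtFac) {R : ℕ} {G : ℂ → ℂ} (hR : Sup R G) (s : ℤ) :
    PS (SA R s) G = cut (lo s) G := ps_lt hF hR s

theorem ps_B (hF : StmtFac) {R : ℕ} {G : ℂ → ℂ} (hR : Sup R G) (s : ℤ) (L : ℕ) :
    PS (SB R s L) G = cut (bd s (s + L)) G := by
  have h1 := ps_lt hF hR (s + L)
  have h2 : (Finset.Icc (-((R : ℤ) + 4)) (R + 4)).filter (· < s + (L : ℤ)) = SA R s ∪ SB R s L := by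
    ext i
    simp only [SA, SB, Finset.mem_filter, Finset.mem_Icc, Finset.mem_union]
    omega
  have hd : Disjoint (SA R s) (SB R s L) := by
    rw [Finset.disjoint_left]
    intro i
    simp only [SA, SB, Finset.mem_filter, Finset.mem_Icc]
    omega
  rw [h2, ps_union hd, ps_A hF hR] at h1
  ext ζ
  have h3 := congrFun h1 ζ
  have : cut (bd s (s + L)) G ζ = cut (lo (s + L)) G ζ - cut (lo s) G ζ := by
    unfold cut bd; push_cast; ring
  rw [this, ← h3]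
  ring

theorem ps_all (hF : StmtFac) {R : ℕ} {G : ℂ → ℂ} (hR : Sup R G) (s : ℤ) (L : ℕ) (ζ : ℂ) :
    G ζ = PS (SA R s) G ζ + PS (SB R s L) G ζ + PS (SH R s L) G ζ := by
  have h1 := ps_lt hF hR ((R : ℤ) + 4 + 1)
  have h2 : (Finset.Icc (-((R : ℤ) + 4)) (R + 4)).filter (· < (R : ℤ) + 4 + 1)
      = (SA R s ∪ SB R s L) ∪ SH R s L := by
    ext i
    simp only [SA, SB, SH, Finset.mem_filter, Finset.mem_Icc, Finset.mem_union]
    omega
  have hd : Disjoint (SA R s) (SB R s L) := by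
    rw [Finset.disjoint_left]
    intro i
    simp only [SA, SB, Finset.mem_filter, Finset.mem_Icc]
    omega
  have hd2 : Disjoint (SA R s ∪ SB R s L) (SH R s L) := by
    rw [Finset.disjoint_left]
    intro i
    simp only [SA, SB, SH, Finset.mem_filter, Finset.mem_Icc, Finset.mem_union]
    omega
  rw [h2, ps_union hd2, ps_union hd] at h1
  have h3 := congrFun h1 ζ
  simp only at h3
  rw [h3]
  unfold cut
  by_cases hG : G ζ = 0
  · rw [hG]; simp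
  · rw [hF.2.1 _ ζ ((hR ζ hG).2.trans (zpow_le_zpow_right₀ (by norm_num) (by omega)))]
    simp

/-! ### linearity -/

theorem iF_PS {S : Finset ℤ} {G : ℂ → ℂ} (w : ℂ → ℂ) (g : ℂ → ℂ)
    (hg : ∀ ζ, g ζ = w ζ * PS S G ζ) (h : ∀ i ∈ S, CC (fun ζ => w ζ * cut (sh i) G ζ)) (x : ℂ) :
    iF g x = ∑ i ∈ S, iF (fun ζ => w ζ * cut (sh i) G ζ) x := by
  unfold iF
  rw [← integral_finsetSum]
  · congr 1
    ext ζ
    rw [hg, PS, Finset.mul_sum, Finset.mul_sum]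
  · intro i hi
    have hc := (h i hi).1
    have hs := (h i hi).2
    exact ((continuous_ch x).mul hc).integrable_of_hasCompactSupport hs.mul_left

/-! ### elementary inequalities -/

theorem norm_sum_sq {S : Finset ℤ} (v : ℤ → ℂ) (u q : ℤ → ℝ) {C : ℝ}
    (hu : ∀ i ∈ S, 0 < u i) (hv : ∀ i ∈ S, ‖v i‖ ^ 2 ≤ C * u i ^ 2 * q i) :
    ‖∑ i ∈ S, v i‖ ^ 2 ≤ C * ∑ i ∈ S, (∑ j ∈ S, u i * u j) * q i := by
  rcases S.eq_empty_or_nonempty with h | h
  · subst h; simp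
  have hpos : 0 < ∑ j ∈ S, u j := Finset.sum_pos hu h
  have h1 : (∑ i ∈ S, ‖v i‖) ^ 2 / ∑ j ∈ S, u j ≤ ∑ i ∈ S, ‖v i‖ ^ 2 / u i :=
    Finset.sq_sum_div_le_sum_sq_div S (fun i => ‖v i‖) hu
  have h2 : ∑ i ∈ S, ‖v i‖ ^ 2 / u i ≤ ∑ i ∈ S, C * u i * q i := by
    refine Finset.sum_le_sum fun i hi => ?_
    rw [div_le_iff₀ (hu i hi)]
    have := hv i hi
    nlinarith
  rw [div_le_iff₀ hpos] at h1
  calc ‖∑ i ∈ S, v i‖ ^ 2 ≤ (∑ i ∈ S, ‖v i‖) ^ 2 := by gcongr; exact norm_sum_le _ _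
    _ ≤ (∑ i ∈ S, ‖v i‖ ^ 2 / u i) * ∑ j ∈ S, u j := h1
    _ ≤ (∑ i ∈ S, C * u i * q i) * ∑ j ∈ S, u j := by gcongr
    _ = C * ∑ i ∈ S, (∑ j ∈ S, u i * u j) * q i := by
      rw [Finset.sum_mul, Finset.mul_sum]
      refine Finset.sum_congr rfl fun i _ => ?_
      rw [← Finset.mul_sum]
      ring

/-- the kernels in time -/
noncomputable def kf (c : ℝ) (S : Finset ℤ) (i : ℤ) (τ : ℝ) : ℝ :=
  ∑ j ∈ S, (2 : ℝ) ^ i * Real.exp (-(c * (4 : ℝ) ^ i * τ)) *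
    ((2 : ℝ) ^ j * Real.exp (-(c * (4 : ℝ) ^ j * τ)))

theorem kf_nonneg (c : ℝ) (S : Finset ℤ) (i : ℤ) (τ : ℝ) : 0 ≤ kf c S i τ :=
  Finset.sum_nonneg fun _ _ => by positivity

theorem kf_cont (c : ℝ) (S : Finset ℤ) (i : ℤ) : Continuous (kf c S i) := by
  unfold kf; fun_prop

theorem ratio_le (i j : ℤ) :
    (2 : ℝ) ^ i * 2 ^ j / (4 ^ i + 4 ^ j) ≤ 2 ^ (-|i - j|) := by
  have h4 : ∀ k : ℤ, (4 : ℝ) ^ k = 2 ^ k * 2 ^ k := fun k => by
    rw [← mul_zpow]; norm_num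
  rw [div_le_iff₀ (by positivity), h4, h4]
  rcases le_total i j with h | h
  · have e : -|i - j| = i - j := by rw [abs_of_nonpos (by omega)]; ring
    rw [e, zpow_sub₀ (by norm_num)]
    have h1 : (0 : ℝ) < 2 ^ j := by positivity
    have h2 : (0 : ℝ) < 2 ^ i := by positivity
    have : (2 : ℝ) ^ i / 2 ^ j * (2 ^ i * 2 ^ i + 2 ^ j * 2 ^ j)
        = 2 ^ i * 2 ^ j + 2 ^ i * 2 ^ i * 2 ^ i / 2 ^ j := by field_simp; ring
    rw [this]
    have : (0 : ℝ) < 2 ^ i * 2 ^ i * 2 ^ i / 2 ^ j := by positivity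
    linarith
  · have e : -|i - j| = j - i := by rw [abs_of_nonneg (by omega)]; ring
    rw [e, zpow_sub₀ (by norm_num)]
    have h1 : (0 : ℝ) < 2 ^ j := by positivity
    have h2 : (0 : ℝ) < 2 ^ i := by positivity
    have : (2 : ℝ) ^ j / 2 ^ i * (2 ^ i * 2 ^ i + 2 ^ j * 2 ^ j)
        = 2 ^ i * 2 ^ j + 2 ^ j * 2 ^ j * 2 ^ j / 2 ^ i := by field_simp
    rw [this]
    have : (0 : ℝ) < 2 ^ j * 2 ^ j * 2 ^ j / 2 ^ i := by positivity
    linarith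

theorem sum_abs (S : Finset ℤ) (i : ℤ) : ∑ j ∈ S, (2 : ℝ) ^ (-|i - j|) ≤ 3 := by
  rw [← Finset.sum_filter_add_sum_filter_not S (fun j => j ≤ i)]
  have h1 : ∑ j ∈ S.filter (fun j => j ≤ i), (2 : ℝ) ^ (-|i - j|) ≤ 2 := by
    have : ∑ j ∈ S.filter (fun j => j ≤ i), (2 : ℝ) ^ (-|i - j|)
        = ∑ k ∈ (S.filter (fun j => j ≤ i)).image (fun j => i - j), (2 : ℝ) ^ (-k) := by
      rw [Finset.sum_image (by intro u _ v _ huv; simp only at huv; omega)]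
      refine Finset.sum_congr rfl fun j hj => ?_
      rw [abs_of_nonneg (by have := (Finset.mem_filter.1 hj).2; omega)]
    rw [this]
    refine (Four.Dec.geo _ (-1) ?_).trans (by norm_num)
    intro k hk
    simp only [Finset.mem_image, Finset.mem_filter] at hk
    obtain ⟨j, hj, rfl⟩ := hk
    omega
  have h2 : ∑ j ∈ S.filter (fun j => ¬ j ≤ i), (2 : ℝ) ^ (-|i - j|) ≤ 1 := by
    have : ∑ j ∈ S.filter (fun j => ¬ j ≤ i), (2 : ℝ) ^ (-|i - j|)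
        = ∑ k ∈ (S.filter (fun j => ¬ j ≤ i)).image (fun j => j - i), (2 : ℝ) ^ (-k) := by
      rw [Finset.sum_image (by intro u _ v _ huv; simp only at huv; omega)]
      refine Finset.sum_congr rfl fun j hj => ?_
      rw [abs_of_nonpos (by have := (Finset.mem_filter.1 hj).2; omega)]
      congr 1
      ring
    rw [this]
    refine (Four.Dec.geo _ 0 ?_).trans (by norm_num)
    intro k hk
    simp only [Finset.mem_image, Finset.mem_filter] at hk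
    obtain ⟨j, hj, rfl⟩ := hk
    omega
  linarith

theorem int_exp {l a b : ℝ} (hl : 0 < l) (hab : a ≤ b) :
    ∫ τ in Set.Ioc a b, Real.exp (-(l * τ)) ≤ Real.exp (-(l * a)) / l := by
  rw [← intervalIntegral.integral_of_le hab]
  have h : ∀ τ ∈ Set.uIcc a b, HasDerivAt (fun τ => -(Real.exp (-(l * τ)) / l))
      (Real.exp (-(l * τ))) τ := by
    intro τ _
    have h1 : HasDerivAt (fun τ : ℝ => -(l * τ)) (-(l * 1)) τ :=
      ((hasDerivAt_id τ).const_mul l).neg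
    have h2 := (h1.exp.div_const l).neg
    have e : -(Real.exp (-(l * τ)) * (-(l * 1)) / l) = Real.exp (-(l * τ)) := by field_simp
    rw [e] at h2
    exact h2
  rw [intervalIntegral.integral_eq_sub_of_hasDerivAt h
    (Continuous.intervalIntegrable (by fun_prop) _ _)]
  have : 0 ≤ Real.exp (-(l * b)) / l := by positivity
  linarith

theorem kf_int {c a b : ℝ} (hc : 0 < c) (ha : 0 ≤ a) (hab : a ≤ b) (S : Finset ℤ) (i : ℤ) :
    ∫ τ in Set.Ioc a b, kf c S i τ ≤ 3 / c * Real.exp (-(c * (4 : ℝ) ^ i * a)) := by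
  unfold kf
  rw [integral_finsetSum]
  swap
  · intro j _
    exact (Continuous.integrableOn_Icc (by fun_prop)).mono_set Set.Ioc_subset_Icc_self
  have h : ∀ j ∈ S, ∫ τ in Set.Ioc a b, (2 : ℝ) ^ i * Real.exp (-(c * (4 : ℝ) ^ i * τ)) *
      ((2 : ℝ) ^ j * Real.exp (-(c * (4 : ℝ) ^ j * τ)))
      ≤ 1 / c * Real.exp (-(c * (4 : ℝ) ^ i * a)) * 2 ^ (-|i - j|) := by
    intro j _
    have e : ∀ τ : ℝ, (2 : ℝ) ^ i * Real.exp (-(c * (4 : ℝ) ^ i * τ)) *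
        ((2 : ℝ) ^ j * Real.exp (-(c * (4 : ℝ) ^ j * τ)))
        = (2 : ℝ) ^ i * 2 ^ j * Real.exp (-((c * (4 ^ i + 4 ^ j)) * τ)) := by
      intro τ
      have : Real.exp (-((c * (4 ^ i + 4 ^ j)) * τ))
          = Real.exp (-(c * (4 : ℝ) ^ i * τ)) * Real.exp (-(c * (4 : ℝ) ^ j * τ)) := by
        rw [← Real.exp_add]; congr 1; ring
      rw [this]; ring
    simp only [e]
    rw [integral_const_mul]
    have h1 := int_exp (l := c * (4 ^ i + 4 ^ j)) (by positivity) hab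
    have h2 : Real.exp (-((c * (4 ^ i + 4 ^ j)) * a)) ≤ Real.exp (-(c * (4 : ℝ) ^ i * a)) := by
      apply Real.exp_le_exp.2
      have : 0 ≤ c * (4 : ℝ) ^ j * a := by positivity
      nlinarith
    calc (2 : ℝ) ^ i * 2 ^ j * ∫ τ in Set.Ioc a b, Real.exp (-((c * (4 ^ i + 4 ^ j)) * τ))
        ≤ (2 : ℝ) ^ i * 2 ^ j * (Real.exp (-(c * (4 : ℝ) ^ i * a)) / (c * (4 ^ i + 4 ^ j))) := by
          refine mul_le_mul_of_nonneg_left (h1.trans ?_) (by positivity)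
          gcongr
      _ = 1 / c * Real.exp (-(c * (4 : ℝ) ^ i * a)) * ((2 : ℝ) ^ i * 2 ^ j / (4 ^ i + 4 ^ j)) := by
          field_simp
      _ ≤ _ := by
          refine mul_le_mul_of_nonneg_left (ratio_le i j) (by positivity)
  refine (Finset.sum_le_sum h).trans ?_
  rw [← Finset.mul_sum]
  have h3 := sum_abs S i
  have h4 : 0 ≤ 1 / c * Real.exp (-(c * (4 : ℝ) ^ i * a)) := by positivity
  calc _ ≤ 1 / c * Real.exp (-(c * (4 : ℝ) ^ i * a)) * 3 := by gcongr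
    _ = _ := by ring

theorem kf_int_low {c b : ℝ} (hc : 0 < c) {a : ℝ} (ha : 0 ≤ a) (hab : a ≤ b) (S : Finset ℤ)
    (i s : ℤ) (hS : ∀ j ∈ S, j < s) :
    ∫ τ in Set.Ioc a b, kf c S i τ ≤ b * (2 ^ i * 2 ^ s) := by
  have h1 : ∀ τ ∈ Set.Ioc a b, kf c S i τ ≤ 2 ^ i * 2 ^ s := by
    intro τ hτ
    have hτ0 : 0 ≤ τ := ha.trans hτ.1.le
    have he : ∀ k : ℤ, Real.exp (-(c * (4 : ℝ) ^ k * τ)) ≤ 1 := fun k => by
      apply Real.exp_le_one_iff.2
      have : 0 ≤ c * (4 : ℝ) ^ k * τ := by positivity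
      linarith
    have h2 : ∑ j ∈ S, (2 : ℝ) ^ j ≤ 2 ^ s := by
      have : ∑ j ∈ S, (2 : ℝ) ^ j = ∑ k ∈ S.image (fun j => -j), (2 : ℝ) ^ (-k) := by
        rw [Finset.sum_image (by intro u _ v _ huv; simp only at huv; omega)]
        simp
      rw [this]
      refine (Four.Dec.geo _ (-s) ?_).trans (by rw [neg_neg])
      intro k hk
      simp only [Finset.mem_image] at hk
      obtain ⟨j, hj, rfl⟩ := hk
      have := hS j hj
      omega
    calc kf c S i τ ≤ ∑ j ∈ S, (2 : ℝ) ^ i * 1 * ((2 : ℝ) ^ j * 1) := by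
          unfold kf
          refine Finset.sum_le_sum fun j _ => ?_
          gcongr
          · exact he i
          · exact he j
      _ = 2 ^ i * ∑ j ∈ S, (2 : ℝ) ^ j := by rw [Finset.mul_sum]; simp
      _ ≤ _ := by gcongr
  have hI : IntegrableOn (fun τ => kf c S i τ) (Set.Ioc a b) :=
    (kf_cont c S i).integrableOn_Icc.mono_set Set.Ioc_subset_Icc_self
  calc ∫ τ in Set.Ioc a b, kf c S i τ ≤ ∫ τ in Set.Ioc a b, (2 : ℝ) ^ i * 2 ^ s :=
        setIntegral_mono_on hI (Continuous.integrableOn_Ioc continuous_const) measurableSet_Ioc h1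
    _ = (b - a) * (2 ^ i * 2 ^ s) := by
        rw [setIntegral_const, smul_eq_mul, Measure.real, Real.volume_Ioc,
          ENNReal.toReal_ofReal (by linarith)]
    _ ≤ _ := by
        have : (0 : ℝ) < 2 ^ i * 2 ^ s := by positivity
        nlinarith

/-! ### the three pieces under the heat flow -/

theorem tw_zero (g : ℂ → ℂ) : tw 0 0 g = g := by
  ext ζ; unfold tw; simp

theorem iF_dr_PS (hS : StmtSch) {S : Finset ℤ} {G : ℂ → ℂ} (hG : SC G) (τ : ℝ) (e x : ℂ) :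
    iF (dr e (tw τ 0 (PS S G))) x = ∑ i ∈ S, iF (dr e (tw τ 0 (cut (sh i) G))) x := by
  obtain ⟨hcc, -, -, -, -, hop⟩ := hS
  have key : ∀ (g : ℂ → ℂ), dr e (tw τ 0 g) = fun ζ => (2 * (Real.pi : ℂ) * Complex.I *
      ((e.re * ζ.re + e.im * ζ.im : ℝ) : ℂ) *
      ((Real.exp (-(4 * Real.pi ^ 2 * τ * ‖ζ‖ ^ 2 + 2 * Real.pi *
      ((0 : ℂ).re * ζ.re + (0 : ℂ).im * ζ.im))) : ℝ) : ℂ)) * g ζ := by
    intro g
    ext ζ
    unfold dr tw
    ring
  rw [iF_PS (S := S) (G := G) (fun ζ => (2 * (Real.pi : ℂ) * Complex.I *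
      ((e.re * ζ.re + e.im * ζ.im : ℝ) : ℂ) *
      ((Real.exp (-(4 * Real.pi ^ 2 * τ * ‖ζ‖ ^ 2 + 2 * Real.pi *
      ((0 : ℂ).re * ζ.re + (0 : ℂ).im * ζ.im))) : ℝ) : ℂ))) (dr e (tw τ 0 (PS S G)))
      (fun ζ => by rw [key]) (fun i _ => ?_) x]
  · refine Finset.sum_congr rfl fun i _ => ?_
    rw [← key]
  · rw [← key]
    have h1 := (hop (cut (sh i) G) ((hop G hG).2.2.2.2.2.1 i))
    exact hcc _ ((hop (tw τ 0 (cut (sh i) G)) (h1.2.1 τ 0)).1 e)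

theorem iF_tw_PS (hS : StmtSch) {S : Finset ℤ} {G : ℂ → ℂ} (hG : SC G) (τ : ℝ) (x : ℂ) :
    iF (tw τ 0 (PS S G)) x = ∑ i ∈ S, iF (tw τ 0 (cut (sh i) G)) x := by
  obtain ⟨hcc, -, -, -, -, hop⟩ := hS
  exact iF_PS (S := S) (G := G)
    (fun ζ => ((Real.exp (-(4 * Real.pi ^ 2 * τ * ‖ζ‖ ^ 2 + 2 * Real.pi *
      ((0 : ℂ).re * ζ.re + (0 : ℂ).im * ζ.im))) : ℝ) : ℂ)) (tw τ 0 (PS S G))
      (fun ζ => rfl) (fun i _ => hcc _ ((hop (cut (sh i) G) ((hop G hG).2.2.2.2.2.1 i)).2.1 τ 0)) x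

theorem sc_PS (hS : StmtSch) {S : Finset ℤ} {G : ℂ → ℂ} (hG : SC G) : SC (PS S G) := by
  obtain ⟨-, -, -, -, -, hop⟩ := hS
  have h : ∀ i, SC (cut (sh i) G) := fun i => (hop G hG).2.2.2.2.2.1 i
  induction S using Finset.induction_on with
  | empty =>
    have : PS ∅ G = fun _ => 0 := by ext ζ; simp [PS]
    rw [this]
    exact ⟨contDiff_const, HasCompactSupport.zero⟩
  | insert i S hi ih =>
    have : PS (insert i S) G = fun ζ => cut (sh i) G ζ + PS S G ζ := by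
      ext ζ; unfold PS; exact Finset.sum_insert hi
    rw [this]
    exact ⟨(h i).1.add ih.1, (h i).2.add ih.2⟩

/-- the energy of a group of shells -/
theorem dsum_le (hS : StmtSch) {C c : ℝ}
    (hHt : ∀ (τ : ℝ) (i : ℤ) (g : ℂ → ℂ) (x e : ℂ), 0 ≤ τ → CC g → ‖e‖ ≤ 1 →
      ‖iF (tw τ 0 (cut (sh i) g)) x‖ ^ 2 ≤ C * Real.exp (-(c * (τ * (4 : ℝ) ^ i))) * qm 8 i g x ∧
      ‖iF (dr e (tw τ 0 (cut (sh i) g))) x‖ ^ 2
        ≤ C * (4 : ℝ) ^ i * Real.exp (-(c * (τ * (4 : ℝ) ^ i))) * qm 8 i g x)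
    {S : Finset ℤ} {G : ℂ → ℂ} (hG : SC G) {τ : ℝ} (hτ : 0 ≤ τ) (x : ℂ) {e : ℂ} (he : ‖e‖ ≤ 1) :
    ‖iF (dr e (tw τ 0 (PS S G))) x‖ ^ 2 ≤ C * ∑ i ∈ S, kf (c / 2) S i τ * qm 8 i G x := by
  rw [iF_dr_PS hS hG]
  have := norm_sum_sq (S := S) (fun i => iF (dr e (tw τ 0 (cut (sh i) G))) x)
    (fun i => (2 : ℝ) ^ i * Real.exp (-(c / 2 * (4 : ℝ) ^ i * τ))) (fun i => qm 8 i G x)
    (C := C) (fun i _ => by positivity) (fun i _ => ?_)
  · exact this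
  · refine ((hHt τ i G x e hτ (hS.1 G hG) he).2).trans_eq ?_
    have h4 : (4 : ℝ) ^ i = 2 ^ i * 2 ^ i := by rw [← mul_zpow]; norm_num
    have h5 : Real.exp (-(c * (τ * (4 : ℝ) ^ i)))
        = Real.exp (-(c / 2 * (4 : ℝ) ^ i * τ)) * Real.exp (-(c / 2 * (4 : ℝ) ^ i * τ)) := by
      rw [← Real.exp_add]; congr 1; ring
    rw [h5, h4]
    ring

theorem exp_le_inv {x : ℝ} (hx : 0 < x) : Real.exp (-x) ≤ 1 / x := by
  rw [Real.exp_neg, one_div]
  apply inv_anti₀ hx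
  have := Real.add_one_le_exp x
  linarith

/-- the high shells are small -/
theorem high_le (hS : StmtSch) {C c D : ℝ} (hC : 0 < C) (hc : 0 < c) (hD : 0 ≤ D)
    (hHt : ∀ (τ : ℝ) (i : ℤ) (g : ℂ → ℂ) (x e : ℂ), 0 ≤ τ → CC g → ‖e‖ ≤ 1 →
      ‖iF (tw τ 0 (cut (sh i) g)) x‖ ^ 2 ≤ C * Real.exp (-(c * (τ * (4 : ℝ) ^ i))) * qm 8 i g x ∧
      ‖iF (dr e (tw τ 0 (cut (sh i) g))) x‖ ^ 2
        ≤ C * (4 : ℝ) ^ i * Real.exp (-(c * (τ * (4 : ℝ) ^ i))) * qm 8 i g x)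
    {S : Finset ℤ} {G : ℂ → ℂ} (hG : SC G) {τ : ℝ} {x : ℂ} {M : ℝ}
    (hq : ∀ i, qm 8 i G x ≤ D * M) (hM : 0 ≤ M) (t : ℤ) (m : ℕ) (hSt : ∀ i ∈ S, t ≤ i)
    (hτ : (4 : ℝ) ^ (-(t - m)) ≤ τ) :
    ‖iF (tw τ 0 (PS S G)) x‖ ^ 2 ≤ C * D * (4 / c) ^ 2 * ((2 : ℝ) ^ (-(m : ℤ))) ^ 2 * M := by
  have hτ0 : 0 < τ := lt_of_lt_of_le (by positivity) hτ
  rw [iF_tw_PS hS hG]
  have h1 := norm_sum_sq (S := S) (fun i => iF (tw τ 0 (cut (sh i) G)) x)
    (fun i => Real.exp (-(c / 2 * (4 : ℝ) ^ i * τ))) (fun i => D * M)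
    (C := C) (fun i _ => by positivity) (fun i _ => ?_)
  · refine h1.trans ?_
    have h2 : ∑ i ∈ S, (∑ j ∈ S, Real.exp (-(c / 2 * (4 : ℝ) ^ i * τ)) *
        Real.exp (-(c / 2 * (4 : ℝ) ^ j * τ))) * (D * M)
        = (∑ i ∈ S, Real.exp (-(c / 2 * (4 : ℝ) ^ i * τ))) ^ 2 * (D * M) := by
      rw [← Finset.sum_mul, sq, Finset.sum_mul_sum]
    rw [h2]
    have h3 : ∑ i ∈ S, Real.exp (-(c / 2 * (4 : ℝ) ^ i * τ)) ≤ 4 / c * 2 ^ (-(m : ℤ)) := by
      have h4 : ∀ i ∈ S, Real.exp (-(c / 2 * (4 : ℝ) ^ i * τ))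
          ≤ 2 / c * 2 ^ (-(i - t + m)) := by
        intro i hi
        have hit := hSt i hi
        have h5 : (2 : ℝ) ^ (i - t + m) ≤ (4 : ℝ) ^ i * τ := by
          calc (2 : ℝ) ^ (i - t + m) ≤ 2 ^ (i - t + m) * 2 ^ (i - t + m) := by
                have : (1 : ℝ) ≤ 2 ^ (i - t + m) := one_le_zpow₀ (by norm_num) (by omega)
                nlinarith
            _ = (4 : ℝ) ^ (i - t + m) := by rw [← mul_zpow]; norm_num
            _ = (4 : ℝ) ^ i * 4 ^ (-(t - m)) := by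
                rw [← zpow_add₀ (by norm_num)]; congr 1; ring
            _ ≤ _ := by gcongr
        have h6 : Real.exp (-(c / 2 * (4 : ℝ) ^ i * τ)) ≤ Real.exp (-(c / 2 * 2 ^ (i - t + m))) := by
          apply Real.exp_le_exp.2
          have : c / 2 * 2 ^ (i - t + m) ≤ c / 2 * ((4 : ℝ) ^ i * τ) := by gcongr
          linarith
        refine h6.trans ((exp_le_inv (by positivity)).trans_eq ?_)
        rw [zpow_neg]
        field_simp
      refine (Finset.sum_le_sum h4).trans ?_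
      rw [← Finset.mul_sum]
      have h7 : ∑ i ∈ S, (2 : ℝ) ^ (-(i - t + m)) ≤ 2 * 2 ^ (-(m : ℤ)) := by
        have : ∑ i ∈ S, (2 : ℝ) ^ (-(i - t + m))
            = ∑ k ∈ S.image (fun i => i - t + m), (2 : ℝ) ^ (-k) := by
          rw [Finset.sum_image (by intro u _ v _ huv; simp only at huv; omega)]
        rw [this]
        refine (Four.Dec.geo _ (m - 1) ?_).trans_eq ?_
        · intro k hk
          simp only [Finset.mem_image] at hk
          obtain ⟨j, hj, rfl⟩ := hk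
          have := hSt j hj
          omega
        · rw [neg_sub, sub_eq_add_neg, zpow_add₀ (by norm_num)]; simp
      calc 2 / c * ∑ i ∈ S, (2 : ℝ) ^ (-(i - t + m)) ≤ 2 / c * (2 * 2 ^ (-(m : ℤ))) := by gcongr
        _ = _ := by ring
    calc C * ((∑ i ∈ S, Real.exp (-(c / 2 * (4 : ℝ) ^ i * τ))) ^ 2 * (D * M))
        ≤ C * ((4 / c * 2 ^ (-(m : ℤ))) ^ 2 * (D * M)) := by gcongr
      _ = _ := by ring
  · refine ((hHt τ i G x 0 hτ0.le (hS.1 G hG) (by simp)).1).trans ?_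
    have h5 : Real.exp (-(c * (τ * (4 : ℝ) ^ i)))
        = Real.exp (-(c / 2 * (4 : ℝ) ^ i * τ)) ^ 2 := by
      rw [sq, ← Real.exp_add]; congr 1; ring
    rw [h5]
    have := hq i
    gcongr

/-! ### powers -/

theorem add_rpow_le {a b q : ℝ} (ha : 0 ≤ a) (hb : 0 ≤ b) (hq : 0 ≤ q) :
    (a + b) ^ q ≤ 2 ^ q * (a ^ q + b ^ q) := by
  rcases le_total a b with h | h
  · calc (a + b) ^ q ≤ (2 * b) ^ q := Real.rpow_le_rpow (by positivity) (by linarith) hq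
      _ = 2 ^ q * b ^ q := Real.mul_rpow (by norm_num) hb
      _ ≤ _ := by
        have : 0 ≤ a ^ q := by positivity
        have : (0 : ℝ) ≤ 2 ^ q := by positivity
        nlinarith
  · calc (a + b) ^ q ≤ (2 * a) ^ q := Real.rpow_le_rpow (by positivity) (by linarith) hq
      _ = 2 ^ q * a ^ q := Real.mul_rpow (by norm_num) ha
      _ ≤ _ := by
        have : 0 ≤ b ^ q := by positivity
        have : (0 : ℝ) ≤ 2 ^ q := by positivity
        nlinarith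

/-- `u ^ q ≤ (K M) ^ (q / 2)` -/
theorem rpow_le_of_sq {u K M q : ℝ} (hu : 0 ≤ u) (hK : 0 ≤ K) (hM : 0 ≤ M) (hq : 0 ≤ q)
    (h : u ^ 2 ≤ K * M) : u ^ q ≤ K ^ (q / 2) * M ^ (q / 2) := by
  rw [← Real.mul_rpow hK hM]
  calc u ^ q = (u ^ 2) ^ (q / 2) := by
        rw [← Real.rpow_natCast, ← Real.rpow_mul hu]; congr 1; push_cast; ring
    _ ≤ _ := Real.rpow_le_rpow (by positivity) h (by positivity)

/-! ### the pointwise inequality -/

theorem cc_add {g h : ℂ → ℂ} (hg : CC g) (hh : CC h) : CC (fun ζ => g ζ + h ζ) :=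
  ⟨hg.1.add hh.1, hg.2.add hh.2⟩

theorem split3 (hBase : StmtBase) {g a b h : ℂ → ℂ} (ha : CC a) (hb : CC b) (hh : CC h)
    (hg : ∀ ζ, g ζ = a ζ + b ζ + h ζ) (x : ℂ) : iF g x = (iF a x + iF h x) + iF b x := by
  have h1 : g = fun ζ => (fun ζ => a ζ + h ζ) ζ + b ζ := by
    ext ζ; rw [hg]; ring
  rw [h1, hBase.2.2.2.2.1 _ _ (cc_add ha hh) hb, hBase.2.2.2.2.1 _ _ ha hh]

theorem pow_pow_eq (m : ℕ) (q : ℝ) :
    (((2 : ℝ) ^ (-(m : ℤ))) ^ 2) ^ (q / 2) = (2 : ℝ) ^ (-(q * m)) := by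
  have h : ((2 : ℝ) ^ (-(m : ℤ))) = (2 : ℝ) ^ (-(m : ℝ)) := by
    rw [← Real.rpow_intCast]; push_cast; rfl
  rw [h, ← Real.rpow_natCast, ← Real.rpow_mul (by norm_num), ← Real.rpow_mul (by norm_num)]
  congr 1
  push_cast
  ring

/-- the right-hand side at a point -/
noncomputable def Rhs (p c : ℝ) (m L : ℕ) (s : ℤ) (R : ℕ) (G : ℂ → ℂ) (M : ℂ → ℝ) (τ : ℝ)
    (x : ℂ) : ℝ :=
  ∑ i ∈ SB R s L, kf c (SB R s L) i τ * (qm 8 i G x * ‖iF (cut (lo s) G) x‖ ^ (p - 2)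
      + (2 : ℝ) ^ (-((p - 2) * m)) * (M x ^ ((p - 2) / 2) * qa i G x))
    + (∑ i ∈ SA R s, kf c (SA R s) i τ * (M x ^ ((p - 2) / 2) * qa i G x)
    + ∑ i ∈ SH R s L, kf c (SH R s L) i τ * (M x ^ ((p - 2) / 2) * qa i G x))

theorem fin_ar {C₁ C Q K K3 δ A Mq EB EA EH aq abq β2 α2 T2 TA TH : ℝ} (h1 : 0 ≤ C₁) (h2 : 0 ≤ C)
    (h3 : 0 ≤ Q) (h4 : 0 ≤ K) (h5 : 0 ≤ K3) (h6 : 0 ≤ δ) (h7 : 0 ≤ A) (h8 : 0 ≤ Mq)
    (h9 : 0 ≤ EB) (h10 : 0 ≤ EA) (h11 : 0 ≤ EH) (h12 : 0 ≤ β2) (h13 : 0 ≤ α2)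
    (haq : aq ≤ Q * A + Q * (Q * K) * (δ * Mq)) (habq : abq ≤ K3 * Mq) (hβ : β2 ≤ C * EB)
    (hα : α2 ≤ 2 * C * (EA + EH)) (hB : Mq * EB ≤ T2) (hA : Mq * EA ≤ TA) (hH : Mq * EH ≤ TH) :
    C₁ * (aq * β2 + abq * α2)
      ≤ C₁ * C * (Q + Q * (Q * K) + 2 * K3) * (A * EB + δ * T2 + (TA + TH)) := by
  have hT2 : 0 ≤ T2 := le_trans (by positivity) hB
  have hTA : 0 ≤ TA := le_trans (by positivity) hA
  have hTH : 0 ≤ TH := le_trans (by positivity) hH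
  have s1 : aq * β2 ≤ C * (Q * (A * EB) + Q * (Q * K) * (δ * T2)) := by
    calc aq * β2 ≤ (Q * A + Q * (Q * K) * (δ * Mq)) * β2 := mul_le_mul_of_nonneg_right haq h12
      _ ≤ (Q * A + Q * (Q * K) * (δ * Mq)) * (C * EB) :=
        mul_le_mul_of_nonneg_left hβ (by positivity)
      _ = C * (Q * (A * EB) + Q * (Q * K) * (δ * (Mq * EB))) := by ring
      _ ≤ _ := by gcongr
  have s2 : abq * α2 ≤ C * (2 * K3 * (TA + TH)) := by
    calc abq * α2 ≤ (K3 * Mq) * α2 := mul_le_mul_of_nonneg_right habq h13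
      _ ≤ (K3 * Mq) * (2 * C * (EA + EH)) := mul_le_mul_of_nonneg_left hα (by positivity)
      _ = C * (2 * K3 * (Mq * EA + Mq * EH)) := by ring
      _ ≤ _ := by gcongr
  have x1 : 0 ≤ Q * (δ * T2 + (TA + TH)) := by positivity
  have x2 : 0 ≤ Q * (Q * K) * (A * EB + (TA + TH)) := by positivity
  have x3 : 0 ≤ 2 * K3 * (A * EB + δ * T2) := by positivity
  have x4 : Q * (A * EB) + Q * (Q * K) * (δ * T2) + 2 * K3 * (TA + TH)
      ≤ (Q + Q * (Q * K) + 2 * K3) * (A * EB + δ * T2 + (TA + TH)) := by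
    have : (Q + Q * (Q * K) + 2 * K3) * (A * EB + δ * T2 + (TA + TH))
        = (Q * (A * EB) + Q * (Q * K) * (δ * T2) + 2 * K3 * (TA + TH))
          + (Q * (δ * T2 + (TA + TH)) + Q * (Q * K) * (A * EB + (TA + TH))
          + 2 * K3 * (A * EB + δ * T2)) := by ring
    rw [this]
    linarith
  calc C₁ * (aq * β2 + abq * α2)
      ≤ C₁ * (C * (Q * (A * EB) + Q * (Q * K) * (δ * T2)) + C * (2 * K3 * (TA + TH))) := by
        gcongr
    _ = C₁ * C * (Q * (A * EB) + Q * (Q * K) * (δ * T2) + 2 * K3 * (TA + TH)) := by ring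
    _ ≤ C₁ * C * ((Q + Q * (Q * K) + 2 * K3) * (A * EB + δ * T2 + (TA + TH))) :=
        mul_le_mul_of_nonneg_left x4 (by positivity)
    _ = _ := by ring

theorem fin_ar2 {C k1 k2 u δ WA WB WH XX I1 I2 I3 : ℝ} (h1 : 0 ≤ C) (h2 : 0 ≤ k1) (h3 : 0 ≤ k2)
    (h4 : 0 ≤ u) (h5 : 0 ≤ δ) (h6 : 0 ≤ WA) (h7 : 0 ≤ WB) (h8 : 0 ≤ WH) (h9 : 0 ≤ XX)
    (f1 : I1 ≤ k1 * XX + k1 * δ * WB) (f2 : I2 ≤ u * WA) (f3 : I3 ≤ k2 * u * WH) :
    2 * C * (I1 + (I2 + I3)) ≤ 2 * C * (k1 + 1 + k2) * (u + δ) * (WA + WB + WH)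
      + 2 * C * (k1 + 1 + k2) * XX := by
  have e : (k1 + 1 + k2) * (u + δ) * (WA + WB + WH) + (k1 + 1 + k2) * XX
      = (k1 * XX + k1 * δ * WB) + (u * WA + k2 * u * WH)
        + ((1 + k2) * XX + k1 * (u * (WA + WB + WH)) + k1 * (δ * (WA + WH))
          + (u * (WB + WH)) + (δ * (WA + WB + WH)) + k2 * (u * (WA + WB))
          + k2 * (δ * (WA + WB + WH))) := by ring
  have p : 0 ≤ (1 + k2) * XX + k1 * (u * (WA + WB + WH)) + k1 * (δ * (WA + WH))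
          + (u * (WB + WH)) + (δ * (WA + WB + WH)) + k2 * (u * (WA + WB))
          + k2 * (δ * (WA + WB + WH)) := by positivity
  have : I1 + (I2 + I3) ≤ (k1 + 1 + k2) * (u + δ) * (WA + WB + WH) + (k1 + 1 + k2) * XX := by
    rw [e]; linarith
  calc 2 * C * (I1 + (I2 + I3)) ≤ 2 * C * ((k1 + 1 + k2) * (u + δ) * (WA + WB + WH)
        + (k1 + 1 + k2) * XX) := mul_le_mul_of_nonneg_left this (by positivity)
    _ = _ := by ring

theorem pt (hQ : StmtQel) (hB : StmtHtB) (hDH : StmtDomH) (hK : StmtKKm) (hS : StmtSch)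
    (hF : StmtFac) (hBase : StmtBase) {p ε : ℝ} (hp : 2 < p) (hε : 0 < ε) :
    ∃ C c D : ℝ, 0 < C ∧ 0 < c ∧ 0 < D ∧ ∀ (m L : ℕ) (s : ℤ) (R : ℕ) (G : ℂ → ℂ) (M : ℂ → ℝ),
    SC G → Sup R G → Dom G M →
    (∀ i x, qa i G x ≤ D * M x) ∧
    (∀ x, ‖iF (cut (lo s) G) x‖ ^ (p - 2) ≤ D ^ ((p - 2) / 2) * M x ^ ((p - 2) / 2)) ∧
    ∀ τ, (4 : ℝ) ^ (-(s + L - m)) ≤ τ → τ ≤ (4 : ℝ) ^ (-(s + m)) → ∀ x e : ℂ, ‖e‖ ≤ 1 →
    Qf p (iF (tw τ 0 G) x) (iF (dr e (tw τ 0 G)) x)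
      ≤ (1 + ε) * Qf p (iF (tw τ 0 (cut (bd s (s + L)) G)) x)
          (iF (dr e (tw τ 0 (cut (bd s (s + L)) G))) x) + C * Rhs p c m L s R G M τ x := by
  obtain ⟨C₁, hC₁, hQ1⟩ := hQ.1 p ε hp hε
  obtain ⟨C, c, hC, hc, hHt⟩ := hB 8 (by norm_num)
  obtain ⟨D, hD, hDom⟩ := hDH
  have hq : 0 ≤ p - 2 := by linarith
  set q := p - 2 with hqdef
  set K : ℝ := D ^ (q / 2) + (C * D * (4 / c) ^ 2) ^ (q / 2) with hKdef
  have hKpos : 0 < K := by positivity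
  set K3 : ℝ := (9 * D) ^ (q / 2) with hK3
  have hK3pos : 0 < K3 := by positivity
  refine ⟨C₁ * C * (2 ^ q + 2 ^ q * (2 ^ q * K) + 2 * K3), c / 2, D, by positivity, by positivity, hD,
    ?_⟩
  intro m L s R G M hG hR hM
  have hGc : CC G := hS.1 G hG
  have hM0 := hM.2.1
  have hqaM : ∀ i x, qa i G x ≤ D * M x := fun i x => (hDom G M 0 x hGc hM le_rfl).2.2.2.2 i
  have hqm := fun i x => (hK 8 (by norm_num)).2.2.1 i G x hGc
  have hA0 : ∀ x, ‖iF (cut (lo s) G) x‖ ^ 2 ≤ D * M x := by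
    intro x
    have := (hDom G M 0 x hGc hM le_rfl).2.1 s
    rwa [tw_zero] at this
  refine ⟨hqaM, fun x => rpow_le_of_sq (norm_nonneg _) hD.le (hM0 x) hq (hA0 x), ?_⟩
  intro τ hτ1 hτ2 x e he
  have hτ0 : 0 < τ := lt_of_lt_of_le (by positivity) hτ1
  have hMx := hM0 x
  -- the pieces
  have hsc := fun S : Finset ℤ => sc_PS hS (S := S) hG
  have hscc : ∀ S : Finset ℤ, CC (tw τ 0 (PS S G)) ∧ CC (dr e (tw τ 0 (PS S G))) := by
    intro S
    have h1 := (hS.2.2.2.2.2 _ (hsc S)).2.1 τ 0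
    exact ⟨hS.1 _ h1, hS.1 _ ((hS.2.2.2.2.2 _ h1).1 e)⟩
  have eG : iF (tw τ 0 G) x = (iF (tw τ 0 (PS (SA R s) G)) x + iF (tw τ 0 (PS (SH R s L) G)) x)
      + iF (tw τ 0 (PS (SB R s L) G)) x := by
    refine split3 hBase (hscc _).1 (hscc _).1 (hscc _).1 (fun ζ => ?_) x
    unfold tw
    rw [ps_all hF hR s L ζ]
    ring
  have eD : iF (dr e (tw τ 0 G)) x = (iF (dr e (tw τ 0 (PS (SA R s) G))) x
      + iF (dr e (tw τ 0 (PS (SH R s L) G))) x) + iF (dr e (tw τ 0 (PS (SB R s L) G))) x := by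
    refine split3 hBase (hscc _).2 (hscc _).2 (hscc _).2 (fun ζ => ?_) x
    unfold dr tw
    rw [ps_all hF hR s L ζ]
    ring
  have hPB := ps_B hF hR s L
  have hPA := ps_A hF hR s
  set a := iF (tw τ 0 (PS (SA R s) G)) x + iF (tw τ 0 (PS (SH R s L) G)) x with ha
  set b := iF (tw τ 0 (PS (SB R s L) G)) x with hb
  set α := iF (dr e (tw τ 0 (PS (SA R s) G))) x + iF (dr e (tw τ 0 (PS (SH R s L) G))) x with hα
  set β := iF (dr e (tw τ 0 (PS (SB R s L) G))) x with hβ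
  have hmain := hQ1 a b α β
  rw [eG, eD]
  rw [← hPB, ← hb, ← hβ]
  refine hmain.trans ?_
  gcongr (1 + ε) * Qf p b β + ?_
  -- energies
  have hβ2 : ‖β‖ ^ 2 ≤ C * ∑ i ∈ SB R s L, kf (c / 2) (SB R s L) i τ * qm 8 i G x :=
    dsum_le hS hHt hG hτ0.le x he
  have hαA := dsum_le hS hHt (S := SA R s) hG hτ0.le x he
  have hαH := dsum_le hS hHt (S := SH R s L) hG hτ0.le x he
  have hα2 : ‖α‖ ^ 2 ≤ 2 * C * (∑ i ∈ SA R s, kf (c / 2) (SA R s) i τ * qm 8 i G x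
      + ∑ i ∈ SH R s L, kf (c / 2) (SH R s L) i τ * qm 8 i G x) := by
    have h1 : ‖α‖ ≤ ‖iF (dr e (tw τ 0 (PS (SA R s) G))) x‖
        + ‖iF (dr e (tw τ 0 (PS (SH R s L) G))) x‖ := norm_add_le _ _
    have h2 := norm_nonneg α
    have h3 : ‖α‖ ^ 2 ≤ 2 * (‖iF (dr e (tw τ 0 (PS (SA R s) G))) x‖ ^ 2
        + ‖iF (dr e (tw τ 0 (PS (SH R s L) G))) x‖ ^ 2) := by
      nlinarith [sq_nonneg (‖iF (dr e (tw τ 0 (PS (SA R s) G))) x‖
        - ‖iF (dr e (tw τ 0 (PS (SH R s L) G))) x‖)]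
    linarith
  -- sizes
  have htm : (0 : ℝ) < (2 : ℝ) ^ (-(m : ℤ)) := by positivity
  have htm1 : (2 : ℝ) ^ (-(m : ℤ)) ≤ 1 := zpow_le_one_of_nonpos₀ (by norm_num) (by omega)
  have hτs : τ * (4 : ℝ) ^ s ≤ 2 ^ (-(m : ℤ)) := by
    calc τ * (4 : ℝ) ^ s ≤ (4 : ℝ) ^ (-(s + m)) * 4 ^ s := by gcongr
      _ = (4 : ℝ) ^ (-(m : ℤ)) := by rw [← zpow_add₀ (by norm_num)]; congr 1; ring
      _ = 2 ^ (-(m : ℤ)) * 2 ^ (-(m : ℤ)) := by rw [← mul_zpow]; norm_num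
      _ ≤ _ := by nlinarith
  have hτs0 : 0 ≤ τ * (4 : ℝ) ^ s := by positivity
  have hdiff : ‖iF (tw τ 0 (cut (lo s) G)) x - iF (cut (lo s) G) x‖ ^ 2
      ≤ (D * (2 ^ (-(m : ℤ))) ^ 2) * M x := by
    refine ((hDom G M τ x hGc hM hτ0.le).2.2.2.1 s (hτs.trans htm1)).trans ?_
    gcongr
  have hhigh : ‖iF (tw τ 0 (PS (SH R s L) G)) x‖ ^ 2
      ≤ (C * D * (4 / c) ^ 2 * ((2 : ℝ) ^ (-(m : ℤ))) ^ 2) * M x := by
    refine high_le hS hC hc hD.le hHt hG (M := M x) (fun i => (hqm i x).2.trans (hqaM i x)) hMx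
      (s + L) m (fun i hi => ?_) hτ1
    simp only [SH, Finset.mem_filter] at hi
    exact hi.2
  have haq : ‖a‖ ^ q ≤ 2 ^ q * ‖iF (cut (lo s) G) x‖ ^ q
      + 2 ^ q * (2 ^ q * K) * ((2 : ℝ) ^ (-(q * m)) * M x ^ (q / 2)) := by
    have h1 : ‖a‖ ≤ ‖iF (cut (lo s) G) x‖ + (‖iF (tw τ 0 (cut (lo s) G)) x - iF (cut (lo s) G) x‖
        + ‖iF (tw τ 0 (PS (SH R s L) G)) x‖) := by
      have : a = iF (cut (lo s) G) x + ((iF (tw τ 0 (cut (lo s) G)) x - iF (cut (lo s) G) x)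
          + iF (tw τ 0 (PS (SH R s L) G)) x) := by
        rw [ha, hPA]; ring
      rw [this]
      exact (norm_add_le _ _).trans (add_le_add le_rfl (norm_add_le _ _))
    have h2 := rpow_le_of_sq (norm_nonneg _) (by positivity) hMx hq hdiff
    have h3 := rpow_le_of_sq (norm_nonneg _) (by positivity) hMx hq hhigh
    rw [Real.mul_rpow (by positivity) (by positivity), pow_pow_eq] at h2 h3
    calc ‖a‖ ^ q ≤ _ := Real.rpow_le_rpow (norm_nonneg _) h1 hq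
      _ ≤ 2 ^ q * (‖iF (cut (lo s) G) x‖ ^ q
          + (‖iF (tw τ 0 (cut (lo s) G)) x - iF (cut (lo s) G) x‖
          + ‖iF (tw τ 0 (PS (SH R s L) G)) x‖) ^ q) := add_rpow_le (norm_nonneg _) (by positivity) hq
      _ ≤ 2 ^ q * (‖iF (cut (lo s) G) x‖ ^ q
          + 2 ^ q * (‖iF (tw τ 0 (cut (lo s) G)) x - iF (cut (lo s) G) x‖ ^ q
          + ‖iF (tw τ 0 (PS (SH R s L) G)) x‖ ^ q)) := by
          gcongr
          exact add_rpow_le (norm_nonneg _) (norm_nonneg _) hq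
      _ ≤ 2 ^ q * (‖iF (cut (lo s) G) x‖ ^ q
          + 2 ^ q * (D ^ (q / 2) * 2 ^ (-(q * m)) * M x ^ (q / 2)
          + (C * D * (4 / c) ^ 2) ^ (q / 2) * 2 ^ (-(q * m)) * M x ^ (q / 2))) := by gcongr
      _ = _ := by rw [hKdef]; ring
  have habq : (‖a‖ + ‖b‖) ^ q ≤ K3 * M x ^ (q / 2) := by
    refine rpow_le_of_sq (by positivity) (by positivity) hMx hq ?_
    have h1 := (hDom G M τ x hGc hM hτ0.le).1
    have h2 := (hDom G M τ x hGc hM hτ0.le).2.2.1 s (s + L)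
    rw [← hPB, ← hb] at h2
    rw [eG] at h1
    have h3 : ‖a‖ ≤ ‖a + b‖ + ‖b‖ := by
      have : a = (a + b) - b := by ring
      calc ‖a‖ = ‖(a + b) - b‖ := by rw [← this]
        _ ≤ _ := norm_sub_le _ _
    have h4 := norm_nonneg a
    have h5 := norm_nonneg b
    have h6 := norm_nonneg (a + b)
    calc (‖a‖ + ‖b‖) ^ 2 ≤ (‖a + b‖ + 2 * ‖b‖) ^ 2 :=
          pow_le_pow_left₀ (by positivity) (by linarith) 2
      _ ≤ 9 * D * M x := by nlinarith [sq_nonneg (‖a + b‖ - ‖b‖)]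
  -- conclusion
  unfold Rhs
  have k0 : ∀ S i, 0 ≤ kf (c / 2) S i τ := fun S i => kf_nonneg _ _ _ _
  have q0 : ∀ i, 0 ≤ qm 8 i G x := fun i => (hqm i x).1
  have hMq : 0 ≤ M x ^ (q / 2) := by positivity
  have hδ : 0 < (2 : ℝ) ^ (-(q * m)) := by positivity
  have hsum : ∀ S : Finset ℤ, M x ^ (q / 2) * ∑ i ∈ S, kf (c / 2) S i τ * qm 8 i G x
      ≤ ∑ i ∈ S, kf (c / 2) S i τ * (M x ^ (q / 2) * qa i G x) := by
    intro S
    rw [Finset.mul_sum]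
    refine Finset.sum_le_sum fun i _ => ?_
    have := (hqm i x).2
    have h1 := k0 S i
    calc M x ^ (q / 2) * (kf (c / 2) S i τ * qm 8 i G x)
        = kf (c / 2) S i τ * (M x ^ (q / 2) * qm 8 i G x) := by ring
      _ ≤ _ := by gcongr
  have hsum0 : ∀ S : Finset ℤ, 0 ≤ ∑ i ∈ S, kf (c / 2) S i τ * qm 8 i G x := fun S =>
    Finset.sum_nonneg fun i _ => mul_nonneg (k0 S i) (q0 i)
  have hsplit : ∑ i ∈ SB R s L, kf (c / 2) (SB R s L) i τ *
      (qm 8 i G x * ‖iF (cut (lo s) G) x‖ ^ q + (2 : ℝ) ^ (-(q * m)) * (M x ^ (q / 2) * qa i G x))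
      = ‖iF (cut (lo s) G) x‖ ^ q * (∑ i ∈ SB R s L, kf (c / 2) (SB R s L) i τ * qm 8 i G x)
        + (2 : ℝ) ^ (-(q * m)) *
        ∑ i ∈ SB R s L, kf (c / 2) (SB R s L) i τ * (M x ^ (q / 2) * qa i G x) := by
    rw [Finset.mul_sum, Finset.mul_sum, ← Finset.sum_add_distrib]
    refine Finset.sum_congr rfl fun i _ => ?_
    ring
  rw [hsplit]
  exact fin_ar hC₁.le hC.le (by positivity) hKpos.le hK3pos.le hδ.le (by positivity) hMq
    (hsum0 _) (hsum0 _) (hsum0 _) (by positivity) (by positivity) haq habq hβ2 hα2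
    (hsum _) (hsum _) (hsum _)

/-! ### integrability -/

theorem kkm_cont (m : ℕ) {ρ : ℝ} (hρ : 0 < ρ) : Continuous (KKm m ρ) := by
  unfold KKm
  refine Continuous.div (by fun_prop) (by fun_prop) fun x => ?_
  positivity

theorem kk_cont {ρ : ℝ} (hρ : 0 < ρ) : Continuous (KK ρ) := by
  unfold KK
  refine Continuous.div (by fun_prop) (by fun_prop) fun x => ?_
  positivity

theorem avg_meas {k F : ℂ → ℝ} (hk : Continuous k) (hF : Continuous F) :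
    AEStronglyMeasurable (fun x => ∫ y, k (x - y) * F y) volume := by
  have : StronglyMeasurable (Function.uncurry fun x y : ℂ => k (x - y) * F y) := by
    apply Continuous.stronglyMeasurable
    unfold Function.uncurry
    fun_prop
  exact this.integral_prod_right.aestronglyMeasurable

theorem qa_meas (hS : StmtSch) (hBase : StmtBase) {G : ℂ → ℂ} (hG : SC G) (i : ℤ) :
    AEStronglyMeasurable (qa i G) volume := by
  have h := (hBase.1 _ (hS.1 _ ((hS.2.2.2.2.2 G hG).2.2.2.2.2.1 i))).1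
  exact avg_meas (kk_cont (by positivity)) (by fun_prop)

theorem qm_meas (hS : StmtSch) (hBase : StmtBase) {G : ℂ → ℂ} (hG : SC G) (i : ℤ) :
    AEStronglyMeasurable (qm 8 i G) volume := by
  have h := (hBase.1 _ (hS.1 _ ((hS.2.2.2.2.2 G hG).2.2.2.2.2.1 i))).1
  exact avg_meas (kkm_cont 8 (by positivity)) (by fun_prop)

theorem rpow_mul_self_le {M q D a : ℝ} (hM : 0 ≤ M) (hq : 0 < q)
    (ha : a ≤ D * M) : M ^ (q / 2) * a ≤ D * M ^ ((q + 2) / 2) := by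
  have h1 : M ^ ((q + 2) / 2) = M ^ (q / 2) * M := by
    have : (q + 2) / 2 = q / 2 + 1 := by ring
    rw [this, Real.rpow_add_one' hM (by positivity)]
  rw [h1]
  have : 0 ≤ M ^ (q / 2) := by positivity
  nlinarith

theorem z0_of_sup {R : ℕ} {G : ℂ → ℂ} (hR : Sup R G) : Z0 G := by
  have : Metric.ball (0 : ℂ) ((2 : ℝ) ^ (-(R : ℤ))) ∈ 𝓝 (0 : ℂ) :=
    Metric.ball_mem_nhds _ (by positivity)
  refine Filter.mem_of_superset this fun ζ hζ => ?_
  by_contra h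
  have h1 := (hR ζ h).1
  rw [mem_ball_zero_iff] at hζ
  linarith

/-! ### the theorem -/

theorem _root_.Pool.Agent.Lib.MP_dd244f_an.Rp.derr (hQ : StmtQel) (hH : StmtHeat) (hB : StmtHtB)
    (hDH : StmtDomH) (hK : StmtKKm) (hS : StmtSch) (hI : StmtIBP) (hF : StmtFac)
    (hBase : StmtBase) : StmtDErr := by
  intro p ε hp hε
  obtain ⟨C, c, D, hC, hc, hD, hpt⟩ := pt hQ hB hDH hK hS hF hBase hp hε
  refine ⟨2 * C * (3 / c + 1 + 3 / c ^ 2), by positivity, ?_⟩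
  intro m L s R G M hmL hG hR hM hMI
  obtain ⟨hqaM, hAM, hP⟩ := hpt m L s R G M hG hR hM
  have hM0 := hM.2.1
  have hqm := fun i x => (hK 8 (by norm_num)).2.2.1 i G x (hS.1 G hG)
  have hqa0 : ∀ i x, 0 ≤ qa i G x := fun i x => (hqm i x).1.trans (hqm i x).2
  have hBsc : SC (cut (bd s (s + L)) G) := (hS.2.2.2.2.2 G hG).2.2.2.2.1 s (s + L)
  have hB0 : Z0 (cut (bd s (s + L)) G) := by
    filter_upwards [z0_of_sup hR] with ζ hζ
    unfold cut; rw [hζ, mul_zero]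
  have htw : ∀ (g : ℂ → ℂ), SC g → ∀ τ, SC (tw τ 0 g) := fun g hg τ =>
    (hS.2.2.2.2.2 g hg).2.1 τ 0
  -- the two families of integrals
  have hYI : ∀ i, Integrable (fun x => M x ^ ((p - 2) / 2) * qa i G x) := by
    intro i
    refine (hMI.const_mul D).mono' ?_ (Eventually.of_forall fun x => ?_)
    · exact ((hM.1.pow_const _).aestronglyMeasurable).mul (qa_meas hS hBase hG i)
    · rw [Real.norm_of_nonneg (mul_nonneg (Real.rpow_nonneg (hM0 x) _) (hqa0 i x))]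
      have := rpow_mul_self_le (q := p - 2) (hM0 x) (by linarith) (hqaM i x)
      have e : (p - 2 + 2) / 2 = p / 2 := by ring
      rwa [e] at this
  have hAc : Continuous (fun x => ‖iF (cut (lo s) G) x‖ ^ (p - 2)) := by
    have h := (hBase.1 _ (hS.1 _ ((hS.2.2.2.2.2 G hG).2.2.2.1 s))).1
    exact h.norm.rpow_const fun x => Or.inr (by linarith)
  have hXI : ∀ i, Integrable (fun x => qm 8 i G x * ‖iF (cut (lo s) G) x‖ ^ (p - 2)) := by
    intro i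
    refine ((hYI i).const_mul (D ^ ((p - 2) / 2))).mono' ?_ (Eventually.of_forall fun x => ?_)
    · exact (qm_meas hS hBase hG i).mul hAc.aestronglyMeasurable
    · have h1 := hAM x
      have h2 := hqm i x
      have h3 : 0 ≤ ‖iF (cut (lo s) G) x‖ ^ (p - 2) := by positivity
      have h4 : 0 ≤ D ^ ((p - 2) / 2) * M x ^ ((p - 2) / 2) := h3.trans h1
      rw [Real.norm_of_nonneg (mul_nonneg h2.1 h3)]
      calc qm 8 i G x * ‖iF (cut (lo s) G) x‖ ^ (p - 2)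
          ≤ qa i G x * (D ^ ((p - 2) / 2) * M x ^ ((p - 2) / 2)) :=
            mul_le_mul h2.2 h1 h3 (hqa0 i x)
        _ = _ := by ring
  set X : ℤ → ℝ := fun i => ∫ x, qm 8 i G x * ‖iF (cut (lo s) G) x‖ ^ (p - 2) with hX
  set Y : ℤ → ℝ := fun i => ∫ x, M x ^ ((p - 2) / 2) * qa i G x with hY
  have hX0 : ∀ i, 0 ≤ X i := fun i => integral_nonneg fun x =>
    mul_nonneg (hqm i x).1 (by positivity)
  have hY0 : ∀ i, 0 ≤ Y i := fun i => integral_nonneg fun x =>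
    mul_nonneg (Real.rpow_nonneg (hM0 x) _) (hqa0 i x)
  set δ : ℝ := (2 : ℝ) ^ (-((p - 2) * m)) with hδ
  have hδ0 : 0 < δ := by positivity
  -- integral in space
  have hRI : ∀ τ, Integrable (fun x => Rhs p c m L s R G M τ x) ∧
      ∫ x, Rhs p c m L s R G M τ x = ∑ i ∈ SB R s L, kf c (SB R s L) i τ * (X i + δ * Y i)
        + (∑ i ∈ SA R s, kf c (SA R s) i τ * Y i + ∑ i ∈ SH R s L, kf c (SH R s L) i τ * Y i) := by
    intro τ
    unfold Rhs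
    have a1 : ∀ i, Integrable (fun x => kf c (SB R s L) i τ *
        (qm 8 i G x * ‖iF (cut (lo s) G) x‖ ^ (p - 2) + δ * (M x ^ ((p - 2) / 2) * qa i G x))) :=
      fun i => ((hXI i).add ((hYI i).const_mul δ)).const_mul _
    have a2 : ∀ i, Integrable (fun x => kf c (SA R s) i τ * (M x ^ ((p - 2) / 2) * qa i G x)) :=
      fun i => (hYI i).const_mul _
    have a3 : ∀ i, Integrable (fun x => kf c (SH R s L) i τ * (M x ^ ((p - 2) / 2) * qa i G x)) :=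
      fun i => (hYI i).const_mul _
    have b1 := integrable_finsetSum (SB R s L) (fun i _ => a1 i)
    have b2 := integrable_finsetSum (SA R s) (fun i _ => a2 i)
    have b3 := integrable_finsetSum (SH R s L) (fun i _ => a3 i)
    have b23 : Integrable (fun x => ∑ i ∈ SA R s, kf c (SA R s) i τ *
        (M x ^ ((p - 2) / 2) * qa i G x) + ∑ i ∈ SH R s L, kf c (SH R s L) i τ *
        (M x ^ ((p - 2) / 2) * qa i G x)) := b2.add b3
    refine ⟨b1.add b23, ?_⟩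
    rw [integral_add b1 b23, integral_add b2 b3, integral_finsetSum _ (fun i _ => a1 i),
      integral_finsetSum _ (fun i _ => a2 i), integral_finsetSum _ (fun i _ => a3 i)]
    congr 1
    · refine Finset.sum_congr rfl fun i _ => ?_
      rw [integral_const_mul, integral_add (hXI i) ((hYI i).const_mul δ), integral_const_mul]
    · congr 1
      · refine Finset.sum_congr rfl fun i _ => ?_
        rw [integral_const_mul]
      · refine Finset.sum_congr rfl fun i _ => ?_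
        rw [integral_const_mul]
  set t₁ : ℝ := (4 : ℝ) ^ (-(s + L - m)) with ht₁
  set t₂ : ℝ := (4 : ℝ) ^ (-(s + m)) with ht₂
  have ht₁0 : 0 < t₁ := by positivity
  have ht12 : t₁ ≤ t₂ := zpow_le_zpow_right₀ (by norm_num) (by omega)
  have hgr : ∀ τ ∈ Set.Ioc t₁ t₂, gr p (tw τ 0 G) ≤ (1 + ε) * gr p (tw τ 0 (cut (bd s (s + L)) G))
      + 2 * C * (∑ i ∈ SB R s L, kf c (SB R s L) i τ * (X i + δ * Y i)
        + (∑ i ∈ SA R s, kf c (SA R s) i τ * Y i + ∑ i ∈ SH R s L, kf c (SH R s L) i τ * Y i)) := by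
    intro τ hτ
    have g1 := (hI p (tw τ 0 G) 1 hp (htw G hG τ)).1
    have g2 := (hI p (tw τ 0 G) Complex.I hp (htw G hG τ)).1
    have b1 := (hI p (tw τ 0 (cut (bd s (s + L)) G)) 1 hp (htw _ hBsc τ)).1
    have b2 := (hI p (tw τ 0 (cut (bd s (s + L)) G)) Complex.I hp (htw _ hBsc τ)).1
    have b12 : Integrable (fun x => (1 + ε) * (Qf p (iF (tw τ 0 (cut (bd s (s + L)) G)) x)
          (iF (dr 1 (tw τ 0 (cut (bd s (s + L)) G))) x)
        + Qf p (iF (tw τ 0 (cut (bd s (s + L)) G)) x)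
          (iF (dr Complex.I (tw τ 0 (cut (bd s (s + L)) G))) x))) := (b1.add b2).const_mul (1 + ε)
    have g12 : Integrable (fun x => Qf p (iF (tw τ 0 G) x) (iF (dr 1 (tw τ 0 G)) x)
        + Qf p (iF (tw τ 0 G) x) (iF (dr Complex.I (tw τ 0 G)) x)) := g1.add g2
    have c12 : Integrable (fun x => 2 * C * Rhs p c m L s R G M τ x) := (hRI τ).1.const_mul (2 * C)
    rw [← (hRI τ).2]
    unfold gr
    rw [← integral_const_mul (1 + ε), ← integral_const_mul (2 * C), ← integral_add b12 c12]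
    refine integral_mono g12 (b12.add c12) fun x => ?_
    have h1 := hP τ hτ.1.le hτ.2 x 1 (by simp)
    have h2 := hP τ hτ.1.le hτ.2 x Complex.I (by simp)
    simp only
    linarith
  -- integral in time
  have hIoc : Set.Ioc t₁ t₂ ⊆ Set.Ioi (0 : ℝ) := fun τ hτ => ht₁0.trans hτ.1
  have hHG := hH p G hp hG (z0_of_sup hR)
  have hHB := hH p _ hp hBsc hB0
  have kI : ∀ (S : Finset ℤ) i (v : ℝ), IntegrableOn (fun τ => kf c S i τ * v) (Set.Ioc t₁ t₂) :=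
    fun S i v => (((kf_cont c S i).mul continuous_const).integrableOn_Icc).mono_set
      Set.Ioc_subset_Icc_self
  have k1 := integrable_finsetSum (SB R s L) (fun i _ => kI (SB R s L) i (X i + δ * Y i))
  have k2 := integrable_finsetSum (SA R s) (fun i _ => kI (SA R s) i (Y i))
  have k3 := integrable_finsetSum (SH R s L) (fun i _ => kI (SH R s L) i (Y i))
  have hkS : ∀ (S : Finset ℤ) (v : ℤ → ℝ), ∫ τ in Set.Ioc t₁ t₂, ∑ i ∈ S, kf c S i τ * v i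
      = ∑ i ∈ S, (∫ τ in Set.Ioc t₁ t₂, kf c S i τ) * v i := by
    intro S v
    rw [integral_finsetSum _ (fun i _ => kI S i (v i))]
    refine Finset.sum_congr rfl fun i _ => ?_
    rw [integral_mul_const]
  have hstep : ∫ τ in Set.Ioc t₁ t₂, gr p (tw τ 0 G)
      ≤ (1 + ε) * (∫ τ in Set.Ioc t₁ t₂, gr p (tw τ 0 (cut (bd s (s + L)) G)))
      + 2 * C * (∑ i ∈ SB R s L, (∫ τ in Set.Ioc t₁ t₂, kf c (SB R s L) i τ) * (X i + δ * Y i)
        + (∑ i ∈ SA R s, (∫ τ in Set.Ioc t₁ t₂, kf c (SA R s) i τ) * Y i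
          + ∑ i ∈ SH R s L, (∫ τ in Set.Ioc t₁ t₂, kf c (SH R s L) i τ) * Y i)) := by
    have k23 : Integrable (fun τ => ∑ i ∈ SA R s, kf c (SA R s) i τ * Y i
        + ∑ i ∈ SH R s L, kf c (SH R s L) i τ * Y i) (volume.restrict (Set.Ioc t₁ t₂)) := k2.add k3
    have k123 : Integrable (fun τ => 2 * C *
        (∑ i ∈ SB R s L, kf c (SB R s L) i τ * (X i + δ * Y i)
        + (∑ i ∈ SA R s, kf c (SA R s) i τ * Y i + ∑ i ∈ SH R s L, kf c (SH R s L) i τ * Y i)))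
        (volume.restrict (Set.Ioc t₁ t₂)) := (k1.add k23).const_mul (2 * C)
    have kB' : Integrable (fun τ => (1 + ε) * gr p (tw τ 0 (cut (bd s (s + L)) G)))
        (volume.restrict (Set.Ioc t₁ t₂)) := (hHB.2.1.mono_set hIoc).const_mul (1 + ε)
    rw [← hkS, ← hkS, ← hkS, ← integral_add k2 k3, ← integral_add k1 k23,
      ← integral_const_mul, ← integral_const_mul, ← integral_add kB' k123]
    exact setIntegral_mono_on (hHG.2.1.mono_set hIoc) (kB'.add k123) measurableSet_Ioc hgr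
  have hNB : ∫ τ in Set.Ioc t₁ t₂, gr p (tw τ 0 (cut (bd s (s + L)) G))
      ≤ Np p (cut (bd s (s + L)) G) := by
    rw [hHB.2.2]
    exact setIntegral_mono_set hHB.2.1 (Eventually.of_forall fun τ => hHB.1 τ)
      (LE.le.eventuallyLE hIoc)
  -- the kernels
  have e2m : (2 : ℝ) ^ (-(m : ℝ)) = 2 ^ (-(m : ℤ)) := by
    rw [← Real.rpow_intCast]; push_cast; rfl
  have h2m : (0 : ℝ) < 2 ^ (-(m : ℤ)) := by positivity
  have h2m1 : (2 : ℝ) ^ (-(m : ℤ)) ≤ 1 := zpow_le_one_of_nonpos₀ (by norm_num) (by omega)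
  have kB : ∀ i, ∫ τ in Set.Ioc t₁ t₂, kf c (SB R s L) i τ ≤ 3 / c := by
    intro i
    refine (kf_int hc ht₁0.le ht12 _ i).trans ?_
    have : Real.exp (-(c * (4 : ℝ) ^ i * t₁)) ≤ 1 := by
      apply Real.exp_le_one_iff.2
      have : 0 ≤ c * (4 : ℝ) ^ i * t₁ := by positivity
      linarith
    have h3 : 0 < 3 / c := by positivity
    nlinarith
  have kA : ∀ i ∈ SA R s, ∫ τ in Set.Ioc t₁ t₂, kf c (SA R s) i τ
      ≤ 2 ^ (-(m : ℤ)) * wt s L i := by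
    intro i hi
    simp only [SA, Finset.mem_filter, Finset.mem_Icc] at hi
    refine (kf_int_low hc ht₁0.le ht12 _ i s (fun j hj => ?_)).trans ?_
    · simp only [SA, Finset.mem_filter] at hj
      exact hj.2
    · have hw : wt s L i = (2 : ℝ) ^ (i - s) := by
        unfold wt
        congr 1
        rw [min_eq_left (by omega), min_eq_right (by omega)]
        ring
      rw [hw, ht₂]
      have e1 : (4 : ℝ) ^ (-(s + m)) * (2 ^ i * 2 ^ s) = 2 ^ (-(m : ℤ)) * 2 ^ (-(m : ℤ)) * 2 ^ (i - s) := by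
        have : (4 : ℝ) ^ (-(s + m)) = 2 ^ (-(s + m)) * 2 ^ (-(s + m)) := by
          rw [← mul_zpow]; norm_num
        rw [this, ← zpow_add₀ (by norm_num), ← zpow_add₀ (by norm_num), ← zpow_add₀ (by norm_num),
          ← zpow_add₀ (by norm_num), ← zpow_add₀ (by norm_num)]
        congr 1
        ring
      rw [e1]
      have : (0 : ℝ) < 2 ^ (i - s) := by positivity
      have h5 : (2 : ℝ) ^ (-(m : ℤ)) * 2 ^ (-(m : ℤ)) ≤ 2 ^ (-(m : ℤ)) := by nlinarith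
      exact mul_le_mul_of_nonneg_right h5 this.le
  have kH : ∀ i ∈ SH R s L, ∫ τ in Set.Ioc t₁ t₂, kf c (SH R s L) i τ
      ≤ 3 / c ^ 2 * (2 ^ (-(m : ℤ)) * wt s L i) := by
    intro i hi
    simp only [SH, Finset.mem_filter, Finset.mem_Icc] at hi
    refine (kf_int hc ht₁0.le ht12 _ i).trans ?_
    have hw : wt s L i = (2 : ℝ) ^ (s + L - i) := by
      unfold wt
      congr 1
      rw [min_eq_right (by omega), min_eq_left (by omega)]
      ring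
    have e1 : (4 : ℝ) ^ i * t₁ = 4 ^ (i - (s + L) + m) := by
      rw [ht₁, ← zpow_add₀ (by norm_num)]; congr 1; ring
    have e2 : (2 : ℝ) ^ (i - (s + L) + m) ≤ 4 ^ (i - (s + L) + m) := by
      have h1 : (4 : ℝ) ^ (i - (s + L) + m) = 2 ^ (i - (s + L) + m) * 2 ^ (i - (s + L) + m) := by
        rw [← mul_zpow]; norm_num
      have h2 : (1 : ℝ) ≤ 2 ^ (i - (s + L) + m) := one_le_zpow₀ (by norm_num) (by omega)
      rw [h1]
      nlinarith
    have e3 : Real.exp (-(c * (4 : ℝ) ^ i * t₁)) ≤ 1 / (c * 2 ^ (i - (s + L) + m)) := by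
      have h1 : -(c * (4 : ℝ) ^ i * t₁) ≤ -(c * 2 ^ (i - (s + L) + m)) := by
        rw [mul_assoc, e1]
        have : c * 2 ^ (i - (s + L) + m) ≤ c * 4 ^ (i - (s + L) + m) := by gcongr
        linarith
      exact (Real.exp_le_exp.2 h1).trans (exp_le_inv (by positivity))
    have e4 : 1 / (c * 2 ^ (i - (s + L) + m)) = 1 / c * (2 ^ (-(m : ℤ)) * wt s L i) := by
      rw [hw, ← zpow_add₀ (by norm_num)]
      have : (-(m : ℤ) + (s + L - i)) = -(i - (s + L) + m) := by ring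
      rw [this, zpow_neg]
      field_simp
    calc 3 / c * Real.exp (-(c * (4 : ℝ) ^ i * t₁))
        ≤ 3 / c * (1 / c * (2 ^ (-(m : ℤ)) * wt s L i)) := by rw [← e4]; gcongr
      _ = _ := by field_simp
  have hwt0 : ∀ i, 0 < wt s L i := fun i => by unfold wt; positivity
  have hwB : ∀ i ∈ SB R s L, wt s L i = 1 := by
    intro i hi
    simp only [SB, Finset.mem_filter, Finset.mem_Icc] at hi
    unfold wt
    rw [min_eq_right (by omega), min_eq_right (by omega)]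
    simp
  -- sums
  have hfull : ∫ x, M x ^ ((p - 2) / 2) *
      ∑ i ∈ Finset.Icc (-((R : ℤ) + 4)) (R + 4), wt s L i * qa i G x
      = ∑ i ∈ Finset.Icc (-((R : ℤ) + 4)) (R + 4), wt s L i * Y i := by
    have : ∀ x, M x ^ ((p - 2) / 2) *
        ∑ i ∈ Finset.Icc (-((R : ℤ) + 4)) (R + 4), wt s L i * qa i G x
        = ∑ i ∈ Finset.Icc (-((R : ℤ) + 4)) (R + 4), wt s L i * (M x ^ ((p - 2) / 2) * qa i G x) := by
      intro x
      rw [Finset.mul_sum]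
      refine Finset.sum_congr rfl fun i _ => ?_
      ring
    simp only [this]
    rw [integral_finsetSum _ (fun i _ => (hYI i).const_mul _)]
    refine Finset.sum_congr rfl fun i _ => ?_
    rw [integral_const_mul]
  have hparts : ∑ i ∈ SA R s, wt s L i * Y i + ∑ i ∈ SB R s L, wt s L i * Y i
      + ∑ i ∈ SH R s L, wt s L i * Y i
      = ∑ i ∈ Finset.Icc (-((R : ℤ) + 4)) (R + 4), wt s L i * Y i := by
    have hd : Disjoint (SA R s) (SB R s L) := by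
      rw [Finset.disjoint_left]
      intro i
      simp only [SA, SB, Finset.mem_filter, Finset.mem_Icc]
      omega
    have hd2 : Disjoint (SA R s ∪ SB R s L) (SH R s L) := by
      rw [Finset.disjoint_left]
      intro i
      simp only [SA, SB, SH, Finset.mem_filter, Finset.mem_Icc, Finset.mem_union]
      omega
    rw [← Finset.sum_union hd, ← Finset.sum_union hd2]
    congr 1
    ext i
    simp only [SA, SB, SH, Finset.mem_filter, Finset.mem_Icc, Finset.mem_union]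
    omega
  have hXsum : ∑ i ∈ SB R s L, X i ≤ ∑ i ∈ Finset.Ico s (s + L), X i := by
    refine Finset.sum_le_sum_of_subset_of_nonneg (fun i hi => ?_) fun i _ _ => hX0 i
    simp only [SB, Finset.mem_filter, Finset.mem_Icc] at hi
    rw [Finset.mem_Ico]
    exact hi.2
  have f1 : ∑ i ∈ SB R s L, (∫ τ in Set.Ioc t₁ t₂, kf c (SB R s L) i τ) * (X i + δ * Y i)
      ≤ 3 / c * (∑ i ∈ Finset.Ico s (s + L), X i) + 3 / c * δ * ∑ i ∈ SB R s L, wt s L i * Y i := by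
    calc _ ≤ ∑ i ∈ SB R s L, 3 / c * (X i + δ * Y i) := by
          refine Finset.sum_le_sum fun i _ => ?_
          exact mul_le_mul_of_nonneg_right (kB i) (by have := hX0 i; have := hY0 i; positivity)
      _ = 3 / c * (∑ i ∈ SB R s L, X i) + 3 / c * δ * ∑ i ∈ SB R s L, wt s L i * Y i := by
          rw [Finset.mul_sum, Finset.mul_sum, ← Finset.sum_add_distrib]
          refine Finset.sum_congr rfl fun i hi => ?_
          rw [hwB i hi]
          ring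
      _ ≤ _ := by gcongr
  have f2 : ∑ i ∈ SA R s, (∫ τ in Set.Ioc t₁ t₂, kf c (SA R s) i τ) * Y i
      ≤ 2 ^ (-(m : ℤ)) * ∑ i ∈ SA R s, wt s L i * Y i := by
    rw [Finset.mul_sum]
    refine Finset.sum_le_sum fun i hi => ?_
    rw [← mul_assoc]
    exact mul_le_mul_of_nonneg_right (kA i hi) (hY0 i)
  have f3 : ∑ i ∈ SH R s L, (∫ τ in Set.Ioc t₁ t₂, kf c (SH R s L) i τ) * Y i
      ≤ 3 / c ^ 2 * 2 ^ (-(m : ℤ)) * ∑ i ∈ SH R s L, wt s L i * Y i := by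
    rw [Finset.mul_sum]
    refine Finset.sum_le_sum fun i hi => ?_
    have := mul_le_mul_of_nonneg_right (kH i hi) (hY0 i)
    calc _ ≤ _ := this
      _ = _ := by ring
  rw [hfull, ← hparts, e2m]
  have wA : 0 ≤ ∑ i ∈ SA R s, wt s L i * Y i :=
    Finset.sum_nonneg fun i _ => mul_nonneg (hwt0 i).le (hY0 i)
  have wB : 0 ≤ ∑ i ∈ SB R s L, wt s L i * Y i :=
    Finset.sum_nonneg fun i _ => mul_nonneg (hwt0 i).le (hY0 i)
  have wH : 0 ≤ ∑ i ∈ SH R s L, wt s L i * Y i :=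
    Finset.sum_nonneg fun i _ => mul_nonneg (hwt0 i).le (hY0 i)
  have hXX : 0 ≤ ∑ i ∈ Finset.Ico s (s + L), X i := Finset.sum_nonneg fun i _ => hX0 i
  have h3c : 0 < 3 / c := by positivity
  have h3c2 : 0 < 3 / c ^ 2 := by positivity
  refine hstep.trans ?_
  have hfin : 2 * C * (∑ i ∈ SB R s L, (∫ τ in Set.Ioc t₁ t₂, kf c (SB R s L) i τ) * (X i + δ * Y i)
        + (∑ i ∈ SA R s, (∫ τ in Set.Ioc t₁ t₂, kf c (SA R s) i τ) * Y i
          + ∑ i ∈ SH R s L, (∫ τ in Set.Ioc t₁ t₂, kf c (SH R s L) i τ) * Y i))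
      ≤ 2 * C * (3 / c + 1 + 3 / c ^ 2) * (2 ^ (-(m : ℤ)) + δ) *
        (∑ i ∈ SA R s, wt s L i * Y i + ∑ i ∈ SB R s L, wt s L i * Y i
          + ∑ i ∈ SH R s L, wt s L i * Y i)
      + 2 * C * (3 / c + 1 + 3 / c ^ 2) * ∑ i ∈ Finset.Ico s (s + L), X i := by
    exact fin_ar2 hC.le h3c.le h3c2.le h2m.le hδ0.le wA wB wH hXX f1 f2 f3
  have := mul_le_mul_of_nonneg_left hNB (by positivity : (0 : ℝ) ≤ 1 + ε)
  linarith

end Pool.Agent.Lib.MP_dd244f_an.Rp.DErr
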