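import Pool.Agent.Lib.MP_dd244f_an.Rp.Stmts
import Pool.Agent.Lib.MP_dd244f_an.Four.BilPt

/-!
Full operator, all real `p`: locally uniform decay of the flow (module Dcy).
-/

set_option autoImplicit false

namespace Pool.Agent.Lib.MP_dd244f_an.Rp

open MeasureTheory Filter Topology
open Pool.Agent.Lib.MP_dd244f_an.Four
open Pool.Agent.Lib.MP_dd244f_an.Unif (SC)
open scoped ContDiff

/-- the real scalar product -/
noncomputable def dcyDot (e ζ : ℂ) : ℝ := e.re * ζ.re + e.im * ζ.im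

theorem dcy_sc_fderiv {g : ℂ → ℂ} (hg : SC g) (e : ℂ) : SC (fun ζ => fderiv ℝ g ζ e) := by
  refine ⟨?_, ?_⟩
  · have h : ContDiff ℝ ∞ (fderiv ℝ g) := hg.1.fderiv_right (by norm_cast)
    exact h.clm_apply contDiff_const
  · exact (hg.2.fderiv (𝕜 := ℝ)).comp_left (g := fun L : ℂ →L[ℝ] ℂ => L e) (by simp)

theorem dcy_contDiff_dot (e : ℂ) : ContDiff ℝ ∞ (fun ζ : ℂ => ((dcyDot e ζ : ℝ) : ℂ)) := by
  have h1 : ContDiff ℝ ∞ (fun ζ : ℂ => (dcyDot e ζ : ℝ)) := by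
    unfold dcyDot
    exact (contDiff_const.mul Complex.reCLM.contDiff).add
      (contDiff_const.mul Complex.imCLM.contDiff)
  exact Complex.ofRealCLM.contDiff.comp h1

theorem dcy_sc_dot {g : ℂ → ℂ} (hg : SC g) (e : ℂ) :
    SC (fun ζ => ((dcyDot e ζ : ℝ) : ℂ) * g ζ) :=
  ⟨(dcy_contDiff_dot e).mul hg.1, hg.2.mul_left⟩

/-- the exponent of `tw` -/
noncomputable def dcyPhi (s : ℝ) (y ζ : ℂ) : ℝ :=
  -(4 * Real.pi ^ 2 * s * (ζ.re ^ 2 + ζ.im ^ 2) + 2 * Real.pi * (y.re * ζ.re + y.im * ζ.im))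

theorem dcy_tw_eq (s : ℝ) (y : ℂ) (g : ℂ → ℂ) (ζ : ℂ) :
    tw s y g ζ = ((Real.exp (dcyPhi s y ζ) : ℝ) : ℂ) * g ζ := by
  unfold tw dcyPhi
  have h : ‖ζ‖ ^ 2 = ζ.re ^ 2 + ζ.im ^ 2 := by
    rw [← Complex.normSq_eq_norm_sq, Complex.normSq_apply]; ring
  rw [h]

theorem dcy_phi_deriv (s : ℝ) (y ζ : ℂ) : HasFDerivAt (dcyPhi s y)
    (-(((4 * Real.pi ^ 2 * s) • ((2 * ζ.re) • Complex.reCLM + (2 * ζ.im) • Complex.imCLM)) +
      (2 * Real.pi) • (y.re • Complex.reCLM + y.im • Complex.imCLM))) ζ := by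
  unfold dcyPhi
  have hre : HasFDerivAt (fun ζ : ℂ => ζ.re) Complex.reCLM ζ := Complex.reCLM.hasFDerivAt
  have him : HasFDerivAt (fun ζ : ℂ => ζ.im) Complex.imCLM ζ := Complex.imCLM.hasFDerivAt
  have h1 : HasFDerivAt (fun ζ : ℂ => ζ.re ^ 2 + ζ.im ^ 2)
      ((2 * ζ.re) • Complex.reCLM + (2 * ζ.im) • Complex.imCLM) ζ := by
    have h2 := (hre.pow 2).add (him.pow 2)
    refine h2.congr_fderiv ?_
    ext z
    simp
  have h3 : HasFDerivAt (fun ζ : ℂ => y.re * ζ.re + y.im * ζ.im)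
      (y.re • Complex.reCLM + y.im • Complex.imCLM) ζ :=
    (hre.const_mul y.re).add (him.const_mul y.im)
  exact ((h1.const_mul (4 * Real.pi ^ 2 * s)).add (h3.const_mul (2 * Real.pi))).neg

/-- the derivative of `tw` -/
theorem dcy_tw_fderiv (s : ℝ) (y e : ℂ) {g : ℂ → ℂ} (hg : SC g) (ζ : ℂ) :
    fderiv ℝ (tw s y g) ζ e = tw s y (fun ζ => fderiv ℝ g ζ e) ζ -
      ((8 * Real.pi ^ 2 * s : ℝ) : ℂ) * tw s y (fun ζ => ((dcyDot e ζ : ℝ) : ℂ) * g ζ) ζ -
      ((2 * Real.pi * dcyDot e y : ℝ) : ℂ) * tw s y g ζ := by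
  have h1 : HasFDerivAt (fun ζ => ((Real.exp (dcyPhi s y ζ) : ℝ) : ℂ))
      (Complex.ofRealCLM.comp (Real.exp (dcyPhi s y ζ) •
        (-(((4 * Real.pi ^ 2 * s) • ((2 * ζ.re) • Complex.reCLM + (2 * ζ.im) • Complex.imCLM)) +
      (2 * Real.pi) • (y.re • Complex.reCLM + y.im • Complex.imCLM))))) ζ :=
    Complex.ofRealCLM.hasFDerivAt.comp ζ (dcy_phi_deriv s y ζ).exp
  have h2 : HasFDerivAt g (fderiv ℝ g ζ) ζ := (hg.1.differentiable (by simp) ζ).hasFDerivAt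
  have h3 := h1.mul h2
  have h4 : fderiv ℝ (tw s y g) ζ =
      fderiv ℝ ((fun ζ => ((Real.exp (dcyPhi s y ζ) : ℝ) : ℂ)) * g) ζ := by
    congr 1
    ext ζ
    exact dcy_tw_eq s y g ζ
  rw [h4, h3.fderiv, dcy_tw_eq, dcy_tw_eq, dcy_tw_eq]
  simp only [add_apply, smul_apply, ContinuousLinearMap.comp_apply, neg_apply,
    Complex.reCLM_apply, Complex.imCLM_apply, Complex.ofRealCLM_apply, smul_eq_mul, dcyDot]
  push_cast
  ring

theorem dcy_sc_tw {g : ℂ → ℂ} (hg : SC g) (s : ℝ) (y : ℂ) : SC (tw s y g) := by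
  have h0 : tw s y g = fun ζ => ((Real.exp (dcyPhi s y ζ) : ℝ) : ℂ) * g ζ := by
    ext ζ; exact dcy_tw_eq s y g ζ
  have h1 : ContDiff ℝ ∞ (dcyPhi s y) := by
    unfold dcyPhi
    have hre : ContDiff ℝ ∞ (fun ζ : ℂ => ζ.re) := Complex.reCLM.contDiff
    have him : ContDiff ℝ ∞ (fun ζ : ℂ => ζ.im) := Complex.imCLM.contDiff
    exact ((contDiff_const.mul ((hre.pow 2).add (him.pow 2))).add
      (contDiff_const.mul ((contDiff_const.mul hre).add (contDiff_const.mul him)))).neg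
  rw [h0]
  exact ⟨(Complex.ofRealCLM.contDiff.comp h1.exp).mul hg.1, hg.2.mul_left⟩

/-- multiplication by a coordinate -/
theorem dcy_coord (s : ℝ) (y e x : ℂ) {g : ℂ → ℂ} (hg : SC g) :
    2 * Real.pi * |dcyDot x e| * ‖iF (tw s y g) x‖ ≤
      ‖iF (tw s y (fun ζ => fderiv ℝ g ζ e)) x‖ +
      8 * Real.pi ^ 2 * |s| * ‖iF (tw s y (fun ζ => ((dcyDot e ζ : ℝ) : ℂ) * g ζ)) x‖ +
      2 * Real.pi * |dcyDot e y| * ‖iF (tw s y g) x‖ := by
  have hG := dcy_sc_tw hg s y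
  have h1 := iF_fderiv (hG.1.of_le (by norm_cast)) hG.2 x e
  have hA := dcy_sc_tw (dcy_sc_fderiv hg e) s y
  have hB := dcy_sc_tw (dcy_sc_dot hg e) s y
  have iA : Integrable (fun ζ => ch x ζ * tw s y (fun ζ => fderiv ℝ g ζ e) ζ) :=
    CC.integrable_mul ⟨hA.1.continuous, hA.2⟩ (continuous_ch x)
  have iB : Integrable (fun ζ => ch x ζ *
      tw s y (fun ζ => ((dcyDot e ζ : ℝ) : ℂ) * g ζ) ζ) :=
    CC.integrable_mul ⟨hB.1.continuous, hB.2⟩ (continuous_ch x)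
  have iG : Integrable (fun ζ => ch x ζ * tw s y g ζ) :=
    CC.integrable_mul ⟨hG.1.continuous, hG.2⟩ (continuous_ch x)
  have h2 : iF (fun ζ => fderiv ℝ (tw s y g) ζ e) x =
      iF (tw s y (fun ζ => fderiv ℝ g ζ e)) x -
      ((8 * Real.pi ^ 2 * s : ℝ) : ℂ) *
        iF (tw s y (fun ζ => ((dcyDot e ζ : ℝ) : ℂ) * g ζ)) x -
      ((2 * Real.pi * dcyDot e y : ℝ) : ℂ) * iF (tw s y g) x := by
    unfold iF
    have e1 : ∫ ζ, ((ch x ζ * tw s y (fun ζ => fderiv ℝ g ζ e) ζ -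
        ((8 * Real.pi ^ 2 * s : ℝ) : ℂ) * (ch x ζ *
          tw s y (fun ζ => ((dcyDot e ζ : ℝ) : ℂ) * g ζ) ζ)) -
        ((2 * Real.pi * dcyDot e y : ℝ) : ℂ) * (ch x ζ * tw s y g ζ)) = _ :=
      integral_sub (iA.sub (iB.const_mul _)) (iG.const_mul _)
    have e2 : ∫ ζ, (ch x ζ * tw s y (fun ζ => fderiv ℝ g ζ e) ζ -
        ((8 * Real.pi ^ 2 * s : ℝ) : ℂ) * (ch x ζ *
          tw s y (fun ζ => ((dcyDot e ζ : ℝ) : ℂ) * g ζ) ζ)) = _ :=
      integral_sub iA (iB.const_mul _)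
    rw [integral_const_mul] at e1 e2
    rw [← e2, ← e1]
    congr 1
    ext ζ
    beta_reduce
    rw [dcy_tw_fderiv s y e hg ζ]
    ring
  have h3 : 2 * Real.pi * |dcyDot x e| * ‖iF (tw s y g) x‖ =
      ‖iF (fun ζ => fderiv ℝ (tw s y g) ζ e) x‖ := by
    rw [h1, norm_mul, norm_neg, norm_mul, norm_mul, norm_mul, Complex.norm_I,
      Complex.norm_real, Complex.norm_real, Complex.norm_ofNat]
    unfold dcyDot
    rw [Real.norm_eq_abs, Real.norm_eq_abs, abs_of_pos Real.pi_pos]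
    ring
  rw [h3, h2]
  have h4 : ‖((8 * Real.pi ^ 2 * s : ℝ) : ℂ) *
      iF (tw s y (fun ζ => ((dcyDot e ζ : ℝ) : ℂ) * g ζ)) x‖ =
      8 * Real.pi ^ 2 * |s| * ‖iF (tw s y (fun ζ => ((dcyDot e ζ : ℝ) : ℂ) * g ζ)) x‖ := by
    rw [norm_mul, Complex.norm_real, Real.norm_eq_abs, abs_mul, abs_of_pos (by positivity)]
  have h5 : ‖((2 * Real.pi * dcyDot e y : ℝ) : ℂ) * iF (tw s y g) x‖ =
      2 * Real.pi * |dcyDot e y| * ‖iF (tw s y g) x‖ := by
    rw [norm_mul, Complex.norm_real, Real.norm_eq_abs, abs_mul, abs_of_pos (by positivity)]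
  rw [← h4, ← h5]
  exact (norm_sub_le _ _).trans (add_le_add (norm_sub_le _ _) le_rfl)

/-- the bound without weight -/
theorem dcy_zero {g : ℂ → ℂ} (hg : SC g) (s₀ : ℝ) : ∃ C, 0 < C ∧ ∀ (s : ℝ) (y x : ℂ),
    |s| ≤ s₀ → ‖iF (tw s y g) x‖ ≤ C * Real.exp (C * ‖y‖) := by
  obtain ⟨R, hR⟩ := hg.2.isCompact.isBounded.subset_closedBall (0 : ℂ)
  set R' : ℝ := max R 1 with hR'
  have hR1 : 1 ≤ R' := le_max_right _ _
  have hsupp : ∀ ζ, g ζ ≠ 0 → ‖ζ‖ ≤ R' := by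
    intro ζ hζ
    have h1 := hR (subset_tsupport g hζ)
    rw [mem_closedBall_zero_iff] at h1
    exact h1.trans (le_max_left _ _)
  have hint : Integrable g := hg.1.continuous.integrable_of_hasCompactSupport hg.2
  set K : ℝ := Real.exp (4 * Real.pi ^ 2 * |s₀| * R' ^ 2) * (∫ ζ, ‖g ζ‖) with hK
  have hK0 : 0 ≤ K := by positivity
  refine ⟨K + 2 * Real.pi * R' + 1, by positivity, fun s y x hs => ?_⟩
  have hs0 : |s| ≤ |s₀| := hs.trans (le_abs_self s₀)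
  have h1 : ‖iF (tw s y g) x‖ ≤ ∫ ζ, ‖tw s y g ζ‖ := by
    unfold iF
    refine (norm_integral_le_integral_norm _).trans (le_of_eq ?_)
    congr 1
    ext ζ
    rw [norm_mul, norm_ch, one_mul]
  have hG := dcy_sc_tw hg s y
  have h2 : ∀ ζ, ‖tw s y g ζ‖ ≤
      Real.exp (4 * Real.pi ^ 2 * |s₀| * R' ^ 2 + 2 * Real.pi * R' * ‖y‖) * ‖g ζ‖ := by
    intro ζ
    rw [dcy_tw_eq, norm_mul, Complex.norm_real, Real.norm_eq_abs, Real.abs_exp]
    by_cases hz : g ζ = 0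
    · rw [hz, norm_zero, mul_zero, mul_zero]
    · apply mul_le_mul_of_nonneg_right _ (norm_nonneg _)
      apply Real.exp_le_exp.mpr
      have hζ := hsupp ζ hz
      have hsq : ζ.re ^ 2 + ζ.im ^ 2 = ‖ζ‖ ^ 2 := by
        rw [← Complex.normSq_eq_norm_sq, Complex.normSq_apply]; ring
      have hdot : |y.re * ζ.re + y.im * ζ.im| ≤ ‖y‖ * ‖ζ‖ := by
        have h3 : y.re * ζ.re + y.im * ζ.im = ((starRingEnd ℂ y) * ζ).re := by
          simp [Complex.mul_re]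
        rw [h3]
        refine (Complex.abs_re_le_norm _).trans ?_
        rw [norm_mul, Complex.norm_conj]
      unfold dcyPhi
      rw [hsq]
      have h4 : -(4 * Real.pi ^ 2 * s * ‖ζ‖ ^ 2) ≤ 4 * Real.pi ^ 2 * |s₀| * R' ^ 2 := by
        have h5 : -s * ‖ζ‖ ^ 2 ≤ |s₀| * R' ^ 2 := by
          have h6 : -s ≤ |s₀| := (neg_le_abs s).trans hs0
          have h7 : ‖ζ‖ ^ 2 ≤ R' ^ 2 := pow_le_pow_left₀ (norm_nonneg _) hζ 2
          calc -s * ‖ζ‖ ^ 2 ≤ |s₀| * ‖ζ‖ ^ 2 := mul_le_mul_of_nonneg_right h6 (by positivity)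
            _ ≤ |s₀| * R' ^ 2 := mul_le_mul_of_nonneg_left h7 (abs_nonneg _)
        have h8 : (0 : ℝ) < 4 * Real.pi ^ 2 := by positivity
        nlinarith
      have h9 : -(2 * Real.pi * (y.re * ζ.re + y.im * ζ.im)) ≤ 2 * Real.pi * R' * ‖y‖ := by
        have h10 : -(y.re * ζ.re + y.im * ζ.im) ≤ R' * ‖y‖ := by
          have h11 : ‖y‖ * ‖ζ‖ ≤ R' * ‖y‖ := by
            rw [mul_comm]
            exact mul_le_mul_of_nonneg_right hζ (norm_nonneg _)
          exact (neg_le_abs _).trans (hdot.trans h11)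
        have h12 : (0 : ℝ) < 2 * Real.pi := by positivity
        nlinarith
      linarith
  have h3 : ∫ ζ, ‖tw s y g ζ‖ ≤
      Real.exp (4 * Real.pi ^ 2 * |s₀| * R' ^ 2 + 2 * Real.pi * R' * ‖y‖) * ∫ ζ, ‖g ζ‖ := by
    rw [← integral_const_mul]
    apply integral_mono _ (hint.norm.const_mul _) h2
    exact (hG.1.continuous.integrable_of_hasCompactSupport hG.2).norm
  refine h1.trans (h3.trans ?_)
  rw [Real.exp_add]
  have h4 : Real.exp (2 * Real.pi * R' * ‖y‖) ≤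
      Real.exp ((K + 2 * Real.pi * R' + 1) * ‖y‖) := by
    apply Real.exp_le_exp.mpr
    exact mul_le_mul_of_nonneg_right (by linarith) (norm_nonneg _)
  calc Real.exp (4 * Real.pi ^ 2 * |s₀| * R' ^ 2) * Real.exp (2 * Real.pi * R' * ‖y‖) *
        ∫ ζ, ‖g ζ‖ = K * Real.exp (2 * Real.pi * R' * ‖y‖) := by rw [hK]; ring
    _ ≤ K * Real.exp ((K + 2 * Real.pi * R' + 1) * ‖y‖) := mul_le_mul_of_nonneg_left h4 hK0
    _ ≤ (K + 2 * Real.pi * R' + 1) * Real.exp ((K + 2 * Real.pi * R' + 1) * ‖y‖) := by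
      apply mul_le_mul_of_nonneg_right _ (Real.exp_pos _).le
      have : 0 ≤ 2 * Real.pi * R' := by positivity
      linarith

/-- the bound with weight `(1 + ‖x‖) ^ k` -/
theorem dcy_step (s₀ : ℝ) (k : ℕ) : ∀ g : ℂ → ℂ, SC g → ∃ C, 0 < C ∧ ∀ (s : ℝ) (y x : ℂ),
    |s| ≤ s₀ → (1 + ‖x‖) ^ k * ‖iF (tw s y g) x‖ ≤ C * Real.exp (C * ‖y‖) := by
  induction k with
  | zero =>
    intro g hg
    obtain ⟨C, hC, h⟩ := dcy_zero hg s₀
    exact ⟨C, hC, fun s y x hs => by simpa using h s y x hs⟩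
  | succ k ih =>
    intro g hg
    obtain ⟨C0, hC0, h0⟩ := ih g hg
    obtain ⟨C1, hC1, h1⟩ := ih _ (dcy_sc_fderiv hg 1)
    obtain ⟨C2, hC2, h2⟩ := ih _ (dcy_sc_fderiv hg Complex.I)
    obtain ⟨C3, hC3, h3⟩ := ih _ (dcy_sc_dot hg 1)
    obtain ⟨C4, hC4, h4⟩ := ih _ (dcy_sc_dot hg Complex.I)
    set S : ℝ := 8 * Real.pi ^ 2 * |s₀| with hS
    have hS0 : 0 ≤ S := by positivity
    set D : ℝ := C0 + C1 + C2 + C3 + C4 + 1 with hD
    have hD1 : 1 ≤ D := by linarith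
    -- all the quantities are at most `D * exp (D * ‖y‖)`
    have up : ∀ (c y' : ℝ), 0 < c → c ≤ D → 0 ≤ y' →
        c * Real.exp (c * y') ≤ D * Real.exp (D * y') := by
      intro c y' hc hcD hy
      apply mul_le_mul hcD _ (Real.exp_pos _).le (by linarith)
      exact Real.exp_le_exp.mpr (mul_le_mul_of_nonneg_right hcD hy)
    have hpi : 1 ≤ 2 * Real.pi := by linarith [Real.pi_gt_three]
    have hpi0 : 0 < 2 * Real.pi := by linarith
    refine ⟨D * (3 + 2 * S + 4 * Real.pi) + D + 1, by positivity, fun s y x hs => ?_⟩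
    have hs0 : |s| ≤ |s₀| := hs.trans (le_abs_self s₀)
    have hy := norm_nonneg y
    set E : ℝ := Real.exp (D * ‖y‖) with hE
    have hE0 : 0 < E := Real.exp_pos _
    set w : ℝ := (1 + ‖x‖) ^ k with hw
    have hw0 : 0 ≤ w := by positivity
    have a0 : w * ‖iF (tw s y g) x‖ ≤ D * E :=
      (h0 s y x hs).trans (up C0 _ hC0 (by linarith) hy)
    have a1 := (h1 s y x hs).trans (up C1 _ hC1 (by linarith) hy)
    have a2 := (h2 s y x hs).trans (up C2 _ hC2 (by linarith) hy)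
    have a3 := (h3 s y x hs).trans (up C3 _ hC3 (by linarith) hy)
    have a4 := (h4 s y x hs).trans (up C4 _ hC4 (by linarith) hy)
    -- one coordinate
    have key : ∀ e : ℂ, |dcyDot e y| ≤ ‖y‖ →
        w * ‖iF (tw s y (fun ζ => fderiv ℝ g ζ e)) x‖ ≤ D * E →
        w * ‖iF (tw s y (fun ζ => ((dcyDot e ζ : ℝ) : ℂ) * g ζ)) x‖ ≤ D * E →
        |dcyDot x e| * (w * ‖iF (tw s y g) x‖) ≤
          D * E + S * (D * E) + 2 * Real.pi * (‖y‖ * (D * E)) := by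
      intro e he b1 b2
      have c1 := dcy_coord s y e x hg
      have c2 := mul_le_mul_of_nonneg_left c1 hw0
      have c3 : w * (8 * Real.pi ^ 2 * |s| *
          ‖iF (tw s y (fun ζ => ((dcyDot e ζ : ℝ) : ℂ) * g ζ)) x‖) ≤ S * (D * E) := by
        have d1 : 8 * Real.pi ^ 2 * |s| ≤ S := by
          rw [hS]; exact mul_le_mul_of_nonneg_left hs0 (by positivity)
        calc _ = (8 * Real.pi ^ 2 * |s|) *
              (w * ‖iF (tw s y (fun ζ => ((dcyDot e ζ : ℝ) : ℂ) * g ζ)) x‖) := by ring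
          _ ≤ S * (D * E) := mul_le_mul d1 b2 (by positivity) hS0
      have c4 : w * (2 * Real.pi * |dcyDot e y| * ‖iF (tw s y g) x‖) ≤
          2 * Real.pi * (‖y‖ * (D * E)) := by
        calc _ = 2 * Real.pi * (|dcyDot e y| * (w * ‖iF (tw s y g) x‖)) := by ring
          _ ≤ 2 * Real.pi * (‖y‖ * (D * E)) :=
            mul_le_mul_of_nonneg_left (mul_le_mul he a0 (by positivity) hy) hpi0.le
      have c5 : |dcyDot x e| * (w * ‖iF (tw s y g) x‖) ≤
          w * (2 * Real.pi * |dcyDot x e| * ‖iF (tw s y g) x‖) := by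
        have d1 : 0 ≤ |dcyDot x e| * (w * ‖iF (tw s y g) x‖) := by positivity
        calc _ ≤ 2 * Real.pi * (|dcyDot x e| * (w * ‖iF (tw s y g) x‖)) :=
              le_mul_of_one_le_left d1 hpi
          _ = _ := by ring
      rw [mul_add, mul_add] at c2
      linarith
    have k1 := key 1 (by
      unfold dcyDot
      simp only [Complex.one_re, Complex.one_im, one_mul, zero_mul, add_zero]
      exact Complex.abs_re_le_norm y) a1 a3
    have k2 := key Complex.I (by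
      unfold dcyDot
      simp only [Complex.I_re, Complex.I_im, one_mul, zero_mul, zero_add]
      exact Complex.abs_im_le_norm y) a2 a4
    have hx : ‖x‖ ≤ |dcyDot x 1| + |dcyDot x Complex.I| := by
      unfold dcyDot
      simp only [Complex.I_re, Complex.I_im, Complex.one_re, Complex.one_im, mul_one, mul_zero,
        zero_add, add_zero]
      exact Complex.norm_le_abs_re_add_abs_im x
    have hyE : ‖y‖ * E ≤ Real.exp ((D + 1) * ‖y‖) := by
      rw [add_mul, one_mul, add_comm, Real.exp_add]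
      apply mul_le_mul_of_nonneg_right _ hE0.le
      linarith [Real.add_one_le_exp ‖y‖]
    have hEE : E ≤ Real.exp ((D + 1) * ‖y‖) := by
      apply Real.exp_le_exp.mpr
      exact mul_le_mul_of_nonneg_right (by linarith) hy
    have hfin : (1 + ‖x‖) ^ (k + 1) * ‖iF (tw s y g) x‖ ≤
        (D * (3 + 2 * S + 4 * Real.pi)) * Real.exp ((D + 1) * ‖y‖) := by
      have d0 : 0 ≤ w * ‖iF (tw s y g) x‖ := by positivity
      calc (1 + ‖x‖) ^ (k + 1) * ‖iF (tw s y g) x‖ =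
            w * ‖iF (tw s y g) x‖ + ‖x‖ * (w * ‖iF (tw s y g) x‖) := by
              rw [pow_succ]; ring
        _ ≤ w * ‖iF (tw s y g) x‖ +
            (|dcyDot x 1| + |dcyDot x Complex.I|) * (w * ‖iF (tw s y g) x‖) := by
              gcongr
        _ ≤ D * E + ((D * E + S * (D * E) + 2 * Real.pi * (‖y‖ * (D * E))) +
            (D * E + S * (D * E) + 2 * Real.pi * (‖y‖ * (D * E)))) := by
              rw [add_mul]
              exact add_le_add a0 (add_le_add k1 k2)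
        _ = D * (3 + 2 * S) * E + D * (4 * Real.pi) * (‖y‖ * E) := by ring
        _ ≤ D * (3 + 2 * S) * Real.exp ((D + 1) * ‖y‖) +
            D * (4 * Real.pi) * Real.exp ((D + 1) * ‖y‖) := by
              gcongr
        _ = _ := by ring
    refine hfin.trans ?_
    have g1 : 0 ≤ D * (3 + 2 * S + 4 * Real.pi) := by positivity
    apply mul_le_mul (by linarith) _ (Real.exp_pos _).le (by linarith)
    apply Real.exp_le_exp.mpr
    exact mul_le_mul_of_nonneg_right (by linarith) hy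

theorem dcy : StmtDcy := by
  intro g m s₀ hg
  obtain ⟨C, hC, h⟩ := dcy_step s₀ (2 * m) g hg
  refine ⟨C, hC, fun s y x hs => le_trans ?_ (h s y x hs)⟩
  apply mul_le_mul_of_nonneg_right _ (norm_nonneg _)
  rw [pow_mul]
  apply pow_le_pow_left₀ (by positivity)
  nlinarith [norm_nonneg x]

end Pool.Agent.Lib.MP_dd244f_an.Rp
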