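import Pool.Agent.Lib.MP_dd244f_an.Rp.Defs

/-!
Full operator, all real `p`, `n → ∞`: the statements of the modules (nothing is proved here).
-/

set_option autoImplicit false

namespace Pool.Agent.Lib.MP_dd244f_an.Rp

open MeasureTheory Filter Topology Finset
open Pool.Agent.Lib.MP_dd244f_an.Joint (st ct Mst ratio)
open Pool.Agent.Lib.MP_dd244f_an.Four
open Pool.Agent.Lib.MP_dd244f_an.Even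
open Pool.Agent.Lib.MP_dd244f_an.Unif (SC)
open scoped SchwartzMap ENNReal NNReal ContDiff

/-! ### Group A: calculus of the flow -/

/-- (Sch) the class `SC` on the Fourier side -/
def StmtSch : Prop :=
  (∀ g, SC g → CC g) ∧
  (∀ g, SC g → ∃ F : 𝓢(ℂ, ℂ), ∀ x, F x = iF g x) ∧
  (∀ φ : 𝓢(ℂ, ℂ), ∃ γ : 𝓢(ℂ, ℂ), ∀ x, φ x = iF γ x) ∧
  (∀ g x, SC g → DifferentiableAt ℝ (iF g) x ∧ ∀ e, fderiv ℝ (iF g) x e = iF (dr e g) x) ∧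
  (∀ g p, 1 ≤ p → SC g → Integrable (fun x => ‖iF g x‖ ^ (p : ℝ))) ∧
  (∀ g, SC g → (∀ e, SC (dr e g)) ∧ (∀ s y, SC (tw s y g)) ∧ (∀ σ ξ, SC (gs σ ξ g)) ∧
    (∀ a, SC (cut (lo a) g)) ∧ (∀ a b, SC (cut (bd a b) g)) ∧ (∀ a, SC (cut (sh a) g)) ∧
    (∀ β u q, SC (qc β u q g)) ∧ (∀ n (a b : ℤ), SC (cut (bd a b) (mg n g))) ∧
    (∀ n, 1 ≤ n → Z0 g → SC (mg n g) ∧ Z0 (mg n g)))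

/-- (Dcy) locally uniform decay -/
def StmtDcy : Prop := ∀ (g : ℂ → ℂ) (m : ℕ) (s₀ : ℝ), SC g → ∃ C, 0 < C ∧ ∀ (s : ℝ) (y x : ℂ),
  |s| ≤ s₀ → (1 + ‖x‖ ^ 2) ^ m * ‖iF (tw s y g) x‖ ≤ C * Real.exp (C * ‖y‖)

/-- (Pow) the function `|u|^p` -/
def StmtPow : Prop := ∀ p : ℝ, 2 < p →
  ContDiff ℝ 2 (fun u : ℂ => ‖u‖ ^ p) ∧
  (∀ u v : ℂ, fderiv ℝ (fun u : ℂ => ‖u‖ ^ p) u v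
    = p * ‖u‖ ^ (p - 2) * (u.re * v.re + u.im * v.im)) ∧
  (∀ u v : ℂ, fderiv ℝ (fun w : ℂ => fderiv ℝ (fun u : ℂ => ‖u‖ ^ p) w v) u v = Qf p u v) ∧
  (∀ u v : ℂ, p * ‖u‖ ^ (p - 2) * ‖v‖ ^ 2 ≤ Qf p u v ∧
    Qf p u v ≤ p * (p - 1) * ‖u‖ ^ (p - 2) * ‖v‖ ^ 2 ∧
    Qf p u v + Qf p u (Complex.I * v) = p ^ 2 * ‖u‖ ^ (p - 2) * ‖v‖ ^ 2)

/-- (IBP) integration by parts -/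
def StmtIBP : Prop := ∀ (p : ℝ) (g : ℂ → ℂ) (e : ℂ), 2 < p → SC g →
  Integrable (fun x => Qf p (iF g x) (iF (dr e g) x)) ∧
  Integrable (fun x => ‖iF g x‖ ^ (p - 2) * ‖iF (dr e g) x‖ ^ 2) ∧
  Integrable (fun x => ‖iF g x‖ ^ (p - 2) * (starRingEnd ℂ (iF g x) * iF (dr e (dr e g)) x).re) ∧
  ∫ x, p * (‖iF g x‖ ^ (p - 2) * (starRingEnd ℂ (iF g x) * iF (dr e (dr e g)) x).re)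
    = -∫ x, Qf p (iF g x) (iF (dr e g) x)

/-- (Psi) calculus of `Psi` -/
def StmtPsi : Prop := ∀ (p : ℝ) (g : ℂ → ℂ), 2 < p → SC g →
  (∀ s, ContDiff ℝ 2 (Psi p g s)) ∧
  (∀ s y, lapR (Psi p g s) y = p ^ 2 * gl p (tw s y g)) ∧
  (∀ s y, HasDerivAt (fun t => Psi p g t y) (-gr p (tw s y g)) s) ∧
  Continuous (fun z : ℝ × ℂ => Psi p g z.1 z.2) ∧
  Continuous (fun z : ℝ × ℂ => gr p (tw z.1 z.2 g)) ∧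
  Continuous (fun z : ℝ × ℂ => gl p (tw z.1 z.2 g)) ∧
  (∀ s y, 0 ≤ gl p (tw s y g) ∧ p * gl p (tw s y g) ≤ gr p (tw s y g)) ∧
  (∀ s₀ : ℝ, ∃ C, 0 < C ∧ ∀ (s : ℝ) (y : ℂ), |s| ≤ s₀ →
    Psi p g s y ≤ C * Real.exp (C * ‖y‖) ∧ gr p (tw s y g) ≤ C * Real.exp (C * ‖y‖) ∧
    ‖fderiv ℝ (Psi p g s) y‖ ≤ C * Real.exp (C * ‖y‖))

/-- (Mono) the monotone quantities -/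
def StmtMono : Prop := ∀ (p : ℝ) (g : ℂ → ℂ), 2 < p → SC g →
  (∀ s v, 0 < v → Integrable (fun y => Psi p g s y * hk v y) ∧
    Integrable (fun y => lapR (Psi p g s) y * hk v y)) ∧
  (∀ κ, 0 ≤ κ → AntitoneOn (fun s => ∫ y, Psi p g s y * hk (s / p - κ) y) (Set.Ioi (p * κ))) ∧
  (∀ s v₁ v₂, 0 < v₁ → v₁ ≤ v₂ →
    (∫ y, Psi p g s y * hk v₂ y) - (∫ y, Psi p g s y * hk v₁ y)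
      = ∫ v in v₁..v₂, ∫ y, lapR (Psi p g s) y * hk v y) ∧
  (∀ s, 0 < s → ∫ y, Psi p g s y * hk (s / p) y ≤ Np p g)

/-- (E1) the local energy inequality -/
def StmtE1 : Prop := ∀ (p σ : ℝ) (g : ℂ → ℂ), 2 < p → 0 < σ → SC g →
  (∀ ξ : ℂ, Nw p σ ξ g = Real.exp (-(Real.pi * p * σ ^ 2 * ‖ξ‖ ^ 2)) *
    Psi p g (σ ^ 2 / (4 * Real.pi)) (-((σ ^ 2 : ℝ) : ℂ) * ξ)) ∧
  Continuous (fun ξ => Nw p σ ξ g) ∧ Integrable (fun ξ => Nw p σ ξ g) ∧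
  p * σ ^ 2 * ∫ ξ, Nw p σ ξ g ≤ Np p g

/-- (E1S) the local energy inequality for Schwartz functions -/
def StmtE1S : Prop := ∀ (p σ : ℝ) (φ : 𝓢(ℂ, ℂ)), 2 < p → 0 < σ →
  ∫⁻ x : ℂ, ∫⁻ ξ : ℂ,
    ‖∫ t, φ t * ((Real.exp (-(Real.pi * ‖t - x‖ ^ 2 / σ ^ 2)) : ℝ) : ℂ) * ch (-t) ξ‖ₑ ^ p
    ≤ ENNReal.ofReal (σ ^ (2 * p - 2) / p) * ∫⁻ t, ‖φ t‖ₑ ^ p

/-- (TOT) the chirped energy inequality -/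
def StmtTOT : Prop := ∀ (p r β : ℝ) (u q : ℂ) (g : ℂ → ℂ), 2 < p → 0 < r → ‖u‖ = 1 → SC g →
  Integrable (fun ξ => Nw p r ξ (qc β u q g)) ∧
  p * r ^ 2 * ∫ ξ, Nw p r ξ (qc β u q g)
    ≤ (1 + (β / (Real.pi * r ^ 2)) ^ 2) ^ ((p - 2) / 2) * Np p g

/-! ### Group B: the multiscale energy inequality -/

/-- (Tel) telescoping -/
def StmtTel : Prop := ∀ (p : ℝ) (g : ℂ → ℂ) (J : ℕ) (τ κ : ℕ → ℝ), 2 < p → SC g →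
  (∀ j, τ (j + 1) ≤ τ j) → (∀ j, 0 ≤ κ j) → (∀ j, κ (j + 1) ≤ κ j) → (∀ j, p * κ j < τ j) →
  ∑ j ∈ Finset.range J, ∫ v in (τ j / p - κ j)..(τ j / p - κ (j + 1)),
    ∫ y, lapR (Psi p g (τ j)) y * hk v y ≤ Np p g

/-- the energy extracted by the block `[s, s + L)` -/
noncomputable def Eb (p : ℝ) (n : ℕ) (Q : ℝ) (s : ℤ) (L : ℕ) (g : ℂ → ℂ) : ℝ :=
  ∫ v in (tb n Q s L / p - kap p s)..(tb n Q s L / p - kap p (s + L)),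
    ∫ y, lapR (Psi p g (tb n Q s L)) y * hk v y * thc n Q s L y

/-- (Loc) back to the windowed energy -/
def StmtLoc : Prop := ∀ (p ε : ℝ), 2 < p → 0 < ε → ∃ m₀ : ℕ, ∀ m ≥ m₀, ∀ L : ℕ, 2 * m < L →
  ∀ Q ε₂ : ℝ, 1 ≤ Q → 0 < ε₂ → ∃ n₀ : ℕ, ∀ n ≥ n₀, ∀ (s : ℤ) (g : ℂ → ℂ), SC g →
  p * (win n Q s L) ^ 2 * ∫ ξ in Jp s L m, Nw p (win n Q s L) ξ g
    ≤ (1 + ε) * Eb p n Q s L g + ε₂ * Np p g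

/-- (WinB) pointwise bounds through the windows -/
def StmtWinB : Prop := ∃ C c : ℝ, 0 < C ∧ 0 < c ∧
  (∀ (σ : ℝ) (ξ : ℂ) (g : ℂ → ℂ) (x : ℂ), 0 < σ → CC g →
    ‖iF (gs σ ξ g) x‖ ^ 2 ≤ C * ∫ y, KK σ (x - y) * ‖iF g y‖ ^ 2) ∧
  ∀ (σ : ℝ) (i : ℤ) (ξ : ℂ) (g : ℂ → ℂ) (x e : ℂ), 0 < σ → CC g → ‖e‖ ≤ 1 →
  (8 * (2 : ℝ) ^ i ≤ ‖ξ‖ → 1 ≤ σ * ‖ξ‖ →
    ‖iF (gs σ ξ (cut (sh i) g)) x‖ ^ 2 ≤ C * Real.exp (-(c * σ ^ 2 * ‖ξ‖ ^ 2)) * qa i g x ∧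
    ‖iF (gs σ ξ (dr e (cut (sh i) g))) x‖ ^ 2
      ≤ C * (4 : ℝ) ^ i * Real.exp (-(c * σ ^ 2 * ‖ξ‖ ^ 2)) * qa i g x) ∧
  (4 * (2 : ℝ) ^ i ≤ ‖ξ‖ → 1 ≤ σ * ‖ξ‖ →
    ‖iF (gs σ ξ (cut (lo i) g)) x‖ ^ 2 ≤ C * Real.exp (-(c * σ ^ 2 * ‖ξ‖ ^ 2)) *
      ∫ y, KK ((2 : ℝ) ^ (-i)) (x - y) * ‖iF g y‖ ^ 2) ∧
  (1 ≤ σ * (2 : ℝ) ^ i →
    ‖iF (gs σ ξ (cut (sh i) g)) x‖ ^ 2 ≤ C * (σ * (2 : ℝ) ^ i) ^ 2 * qa i g x ∧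
    ‖iF (gs σ ξ (dr e (cut (sh i) g))) x‖ ^ 2
      ≤ C * (4 : ℝ) ^ i * (σ * (2 : ℝ) ^ i) ^ 2 * qa i g x) ∧
  (1 ≤ σ * (2 : ℝ) ^ i → ‖ξ‖ ≤ 3 / 8 * (2 : ℝ) ^ i →
    ‖iF (gs σ ξ (cut (sh i) g)) x‖ ^ 2
      ≤ C * Real.exp (-(c * (σ * (2 : ℝ) ^ i) ^ 2)) * qa i g x ∧
    ‖iF (gs σ ξ (dr e (cut (sh i) g))) x‖ ^ 2
      ≤ C * (4 : ℝ) ^ i * Real.exp (-(c * (σ * (2 : ℝ) ^ i) ^ 2)) * qa i g x)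

/-- (Qel) elementary inequalities -/
def StmtQel : Prop :=
  (∀ (p ε : ℝ), 2 < p → 0 < ε → ∃ C, 0 < C ∧ ∀ a b α β : ℂ,
    Qf p (a + b) (α + β) ≤ (1 + ε) * Qf p b β
      + C * (‖a‖ ^ (p - 2) * ‖β‖ ^ 2 + (‖a‖ + ‖b‖) ^ (p - 2) * ‖α‖ ^ 2)) ∧
  (∀ (p ε : ℝ), 2 < p → 0 < ε → ∃ C, 0 < C ∧ ∀ a b α β : ℂ,
    ‖b‖ ^ (p - 2) * ‖β‖ ^ 2 ≤ (1 + ε) * (‖a + b‖ ^ (p - 2) * ‖α + β‖ ^ 2)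
      + C * (‖a‖ ^ (p - 2) * ‖β‖ ^ 2 + ‖b‖ ^ (p - 2) * ‖α‖ ^ 2)) ∧
  (∀ (p ε : ℝ), 1 ≤ p → 0 < ε → ∃ C, 0 < C ∧ ∀ a b : ℂ,
    ‖a + b‖ ^ p ≤ (1 + ε) * ‖a‖ ^ p + C * ‖b‖ ^ p)

/-- (ErrEI) only the frequencies of the block matter -/
def StmtErrEI : Prop := ∀ (p Q ε : ℝ) (L : ℕ), 2 < p → 1 ≤ Q → 4 < L → 0 < ε →
  ∃ n₀ : ℕ, ∀ n ≥ n₀, ∀ (s : ℤ) (R : ℕ) (g : ℂ → ℂ) (M : ℂ → ℝ), SC g → Sup R g → Dom g M →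
  Integrable (fun x => M x ^ (p / 2)) →
  Eb p n Q s L (cut (bd s (s + L)) g) ≤ (1 + ε) * Eb p n Q s L g
    + ε * ∫ x, M x ^ ((p - 2) / 2) *
      ∑ i ∈ Finset.Icc (-((R : ℤ) + 4)) (R + 4), wt s L i * qa i g x

/-- (EIp) the multiscale energy inequality -/
def StmtEIp : Prop := ∀ (p ε : ℝ), 2 < p → 0 < ε → ∃ m₀ : ℕ, ∀ m ≥ m₀, ∀ L : ℕ, 2 * m < L →
  ∀ Q : ℝ, 1 ≤ Q → ∃ n₀ : ℕ, ∀ n ≥ n₀, ∀ (R : ℕ) (g : ℂ → ℂ), SC g → Sup R g →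
  ∀ (c : ℤ) (Bs : Finset ℤ),
  ∑ b ∈ Bs, p * (win n Q (c + b * L) L) ^ 2 *
    ∫ ξ in Jp (c + b * L) L m, Nw p (win n Q (c + b * L) L) ξ
      (cut (bd (c + b * L) (c + b * L + L)) g) ≤ (1 + ε) * Np p g

/-! ### Group C: Littlewood-Paley theory for real `p > 2` -/

/-- (Mul) smooth bumps -/
def StmtMul : Prop := ∀ m : ℕ, 2 ≤ m → ∃ C, 0 < C ∧ ∀ (a : ℤ) (B : ℝ) (ψ : ℂ → ℂ), 0 ≤ B →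
  SB m a B ψ → ∀ g, CC g →
  (∀ x, ‖iF (fun ζ => ψ ζ * g ζ) x‖ ^ 2
    ≤ C * B ^ 2 * ∫ y, KKm m ((2 : ℝ) ^ (-a)) (x - y) * ‖iF g y‖ ^ 2) ∧
  ∀ p : ℝ, 2 ≤ p → Np p (fun ζ => ψ ζ * g ζ) ≤ (C * B) ^ p * Np p g

/-- (KKm) the rapidly decreasing kernels -/
def StmtKKm : Prop := ∀ m : ℕ, 2 ≤ m →
  (∀ ρ, 0 < ρ → Integrable (KKm m ρ) ∧ (∀ x, 0 < KKm m ρ x ∧ KKm m ρ x ≤ KK ρ x) ∧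
    (∀ x, KKm m ρ (-x) = KKm m ρ x)) ∧
  (∀ ρ, 0 < ρ → ∀ x h, KKm m ρ (x + h) ≤ 2 ^ m * (1 + ‖h‖ ^ 2 / ρ ^ 2) ^ m * KKm m ρ x) ∧
  (∀ (a : ℤ) (g : ℂ → ℂ) (x : ℂ), CC g → 0 ≤ qm m a g x ∧ qm m a g x ≤ qa a g x) ∧
  (∀ (a : ℤ) (g : ℂ → ℂ) (x h : ℂ), CC g →
    qm m a g (x + h) ≤ 2 ^ m * (1 + ‖h‖ ^ 2 * (4 : ℝ) ^ a) ^ m * qm m a g x)

/-- (HtB) the heat flow on a shell -/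
def StmtHtB : Prop := ∀ m : ℕ, 2 ≤ m → ∃ C c : ℝ, 0 < C ∧ 0 < c ∧
  ∀ (τ : ℝ) (i : ℤ) (g : ℂ → ℂ) (x e : ℂ), 0 ≤ τ → CC g → ‖e‖ ≤ 1 →
  ‖iF (tw τ 0 (cut (sh i) g)) x‖ ^ 2 ≤ C * Real.exp (-(c * (τ * (4 : ℝ) ^ i))) * qm m i g x ∧
  ‖iF (dr e (tw τ 0 (cut (sh i) g))) x‖ ^ 2
    ≤ C * (4 : ℝ) ^ i * Real.exp (-(c * (τ * (4 : ℝ) ^ i))) * qm m i g x

/-- (DomH) domination under the heat flow -/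
def StmtDomH : Prop := ∃ C, 0 < C ∧ ∀ (g : ℂ → ℂ) (M : ℂ → ℝ) (τ : ℝ) (x : ℂ), CC g → Dom g M →
  0 ≤ τ → ‖iF (tw τ 0 g) x‖ ^ 2 ≤ C * M x ∧
  (∀ a, ‖iF (tw τ 0 (cut (lo a) g)) x‖ ^ 2 ≤ C * M x) ∧
  (∀ a b, ‖iF (tw τ 0 (cut (bd a b) g)) x‖ ^ 2 ≤ C * M x) ∧
  (∀ a : ℤ, τ * (4 : ℝ) ^ a ≤ 1 →
    ‖iF (tw τ 0 (cut (lo a) g)) x - iF (cut (lo a) g) x‖ ^ 2 ≤ C * (τ * (4 : ℝ) ^ a) ^ 2 * M x) ∧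
  (∀ a, qa a g x ≤ C * M x)

/-- (Mp) the maximal function -/
def StmtMp : Prop := ∀ p : ℝ, 2 < p → ∃ C, 0 < C ∧ ∀ g, CC g → ∃ M, Dom g M ∧
  Integrable (fun x => M x ^ (p / 2)) ∧ ∫ x, M x ^ (p / 2) ≤ C * Np p g

/-- (DDr) the dual Doob inequality for real exponents -/
def StmtDDr : Prop := ∀ r : ℝ, 1 ≤ r → ∃ C : ℝ≥0, ∀ (A : Finset ℤ) (φ : ℤ → ℂ → ℝ≥0∞),
  (∀ a, Measurable (φ a)) →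
  ∫⁻ x, (∑ a ∈ A, ∫⁻ y, ENNReal.ofReal (KK ((2 : ℝ) ^ (-a)) (x - y)) * φ a y) ^ r
    ≤ C * ∫⁻ x, (∑ a ∈ A, φ a x) ^ r

/-- (RTL) linear interpolation with values in a finite dimensional Hilbert space -/
def StmtRTL : Prop := ∀ (I : Finset ℤ) (u : ℤ → ℂ → ℂ) (p₀ p₁ p M₀ M₁ τ : ℝ),
  (∀ a ∈ I, Continuous (u a) ∧ Integrable (u a) ∧ (∃ B, ∀ x, ‖u a x‖ ≤ B)) →
  2 ≤ p₀ → p₀ ≤ p₁ → 0 < M₀ → 0 < M₁ → 0 ≤ τ → τ ≤ 1 → 1 / p = (1 - τ) / p₀ + τ / p₁ →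
  (∀ f, CC f → ∫ x, (∑ a ∈ I, ‖∫ y, u a (x - y) * f y‖ ^ 2) ^ (p₀ / 2)
    ≤ M₀ ^ p₀ * ∫ x, ‖f x‖ ^ p₀) →
  (∀ f, CC f → ∫ x, (∑ a ∈ I, ‖∫ y, u a (x - y) * f y‖ ^ 2) ^ (p₁ / 2)
    ≤ M₁ ^ p₁ * ∫ x, ‖f x‖ ^ p₁) →
  ∀ f, CC f → Integrable (fun x => (∑ a ∈ I, ‖∫ y, u a (x - y) * f y‖ ^ 2) ^ (p / 2)) ∧
    ∫ x, (∑ a ∈ I, ‖∫ y, u a (x - y) * f y‖ ^ 2) ^ (p / 2)
      ≤ (M₀ ^ (1 - τ) * M₁ ^ τ) ^ p * ∫ x, ‖f x‖ ^ p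

/-- (Sp) square function inequalities -/
def StmtSp : Prop := ∀ p : ℝ, 2 < p → ∃ C, 0 < C ∧ ∀ (A : Finset ℤ) (g : ℂ → ℂ), CC g →
  Integrable (fun x => (∑ a ∈ A, ‖iF (cut (sh a) g) x‖ ^ 2) ^ (p / 2)) ∧
  ∫ x, (∑ a ∈ A, ‖iF (cut (sh a) g) x‖ ^ 2) ^ (p / 2) ≤ C * Np p g ∧
  ∑ a ∈ A, Np p (cut (sh a) g) ≤ C * Np p g ∧
  Integrable (fun x => (∑ a ∈ A, qa a g x) ^ (p / 2)) ∧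
  ∫ x, (∑ a ∈ A, qa a g x) ^ (p / 2) ≤ C * Np p g

/-- (MS) maximal function times square function -/
def StmtMS : Prop := ∀ p : ℝ, 2 < p → ∃ C, 0 < C ∧ ∀ (A : Finset ℤ) (g : ℂ → ℂ) (M : ℂ → ℝ),
  CC g → Dom g M → Integrable (fun x => M x ^ (p / 2)) →
  (∀ a, Integrable (fun x => M x ^ ((p - 2) / 2) * qa a g x)) ∧
  ∫ x, M x ^ ((p - 2) / 2) * ∑ a ∈ A, qa a g x ≤ C * ∫ x, M x ^ (p / 2)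

/-! ### Group D: decoupling of the scales -/

/-- (AprR) a priori bound -/
def StmtAprR : Prop := ∀ p : ℝ, 2 ≤ p → ∃ (B : ℝ) (n₀ : ℕ), 1 ≤ B ∧ 1 ≤ n₀ ∧ ∀ n ≥ n₀, ∀ g,
  SC g → Z0 g → Np p (mg n g) ≤ B * (n : ℝ) ^ (p - 2) * Np p g

/-- (Dec2S) bilinear decay at `p = 4`, with a translation -/
def StmtDec2S : Prop := ∃ (C : ℝ) (n₀ : ℕ), 0 < C ∧ 1 ≤ n₀ ∧ ∀ n ≥ n₀, ∀ g h, CC g → Z0 g →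
  CC h → Z0 h → ∀ (A : Finset ℤ) (a₀ : ℤ) (d : ℕ) (y : ℂ), (∀ a ∈ A, a₀ ≤ a - d) →
  ∑ a ∈ A, ∫ x, ‖iF (cut (sh a) (mg n g)) (x - (((2 : ℝ) ^ (-a) : ℝ) : ℂ) * y)‖ ^ 2 *
      ‖iF (cut (bd a₀ (a - d)) (mg n h)) x‖ ^ 2 ≤
    C * (1 + ‖y‖) ^ 4 * n ^ 2 * ((2 : ℝ) ^ (-(d : ℤ)) + 1 / n) *
      (Real.sqrt (N4 g) * Real.sqrt (N4 h))

/-- (RT2) bilinear interpolation, exponents at least `2` -/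
def StmtRT2 : Prop := ∀ (I : Finset ℤ) (u v : ℤ → ℂ → ℂ) (p₀ p₁ p M₀ M₁ τ : ℝ),
  (∀ a ∈ I, Continuous (u a) ∧ Integrable (u a) ∧ (∃ B, ∀ x, ‖u a x‖ ≤ B) ∧
    Continuous (v a) ∧ Integrable (v a) ∧ (∃ B, ∀ x, ‖v a x‖ ≤ B)) →
  2 ≤ p₀ → p₀ ≤ p₁ → 0 < M₀ → 0 < M₁ → 0 ≤ τ → τ ≤ 1 → 1 / p = (1 - τ) / p₀ + τ / p₁ →
  (∀ f h, CC f → CC h →
    ∫ x, (∑ a ∈ I, ‖∫ y, u a (x - y) * f y‖ ^ 2 * ‖∫ y, v a (x - y) * h y‖ ^ 2) ^ (p₀ / 4)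
      ≤ M₀ ^ (p₀ / 2) * ((∫ x, ‖f x‖ ^ p₀) ^ (1 / 2 : ℝ) * (∫ x, ‖h x‖ ^ p₀) ^ (1 / 2 : ℝ))) →
  (∀ f h, CC f → CC h →
    ∫ x, (∑ a ∈ I, ‖∫ y, u a (x - y) * f y‖ ^ 2 * ‖∫ y, v a (x - y) * h y‖ ^ 2) ^ (p₁ / 4)
      ≤ M₁ ^ (p₁ / 2) * ((∫ x, ‖f x‖ ^ p₁) ^ (1 / 2 : ℝ) * (∫ x, ‖h x‖ ^ p₁) ^ (1 / 2 : ℝ))) →
  ∀ f h, CC f → CC h →
    Integrable (fun x =>
      (∑ a ∈ I, ‖∫ y, u a (x - y) * f y‖ ^ 2 * ‖∫ y, v a (x - y) * h y‖ ^ 2) ^ (p / 4)) ∧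
    ∫ x, (∑ a ∈ I, ‖∫ y, u a (x - y) * f y‖ ^ 2 * ‖∫ y, v a (x - y) * h y‖ ^ 2) ^ (p / 4)
      ≤ (M₀ ^ (1 - τ) * M₁ ^ τ) ^ (p / 2) *
        ((∫ x, ‖f x‖ ^ p) ^ (1 / 2 : ℝ) * (∫ x, ‖h x‖ ^ p) ^ (1 / 2 : ℝ))

/-- (BI) decay of the pairs of scales in `L^p`, with a translation -/
def StmtBI : Prop := ∀ p : ℝ, 2 < p → ∃ (C c : ℝ) (n₀ : ℕ), 0 < C ∧ 0 < c ∧ 1 ≤ n₀ ∧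
  ∀ n ≥ n₀, ∀ g, SC g → Z0 g → ∀ (A : Finset ℤ) (a₀ : ℤ) (d : ℕ) (y : ℂ),
  (∀ a ∈ A, a₀ ≤ a - d) →
  Integrable (fun x => (∑ a ∈ A,
    ‖iF (cut (sh a) (mg n g)) (x - (((2 : ℝ) ^ (-a) : ℝ) : ℂ) * y)‖ ^ 2 *
      ‖iF (cut (bd a₀ (a - d)) (mg n g)) x‖ ^ 2) ^ (p / 4)) ∧
  ∫ x, (∑ a ∈ A, ‖iF (cut (sh a) (mg n g)) (x - (((2 : ℝ) ^ (-a) : ℝ) : ℂ) * y)‖ ^ 2 *
      ‖iF (cut (bd a₀ (a - d)) (mg n g)) x‖ ^ 2) ^ (p / 4)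
    ≤ C * (1 + ‖y‖) ^ (2 * p) * (n : ℝ) ^ (p - 2) * ((2 : ℝ) ^ (-(d : ℤ)) + 1 / n) ^ c * Np p g

/-- (BIav) the same with local averages -/
def StmtBIav : Prop := ∀ p : ℝ, 2 < p → ∃ (C c : ℝ) (n₀ : ℕ), 0 < C ∧ 0 < c ∧ 1 ≤ n₀ ∧
  ∀ n ≥ n₀, ∀ g, SC g → Z0 g → ∀ (A : Finset ℤ) (a₀ : ℤ) (d : ℕ), (∀ a ∈ A, a₀ ≤ a - d) →
  (∀ a ∈ A, Integrable (fun x => qm 8 a (mg n g) x *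
    ‖iF (cut (bd a₀ (a - d)) (mg n g)) x‖ ^ (p - 2))) ∧
  ∑ a ∈ A, ∫ x, qm 8 a (mg n g) x * ‖iF (cut (bd a₀ (a - d)) (mg n g)) x‖ ^ (p - 2)
    ≤ C * (n : ℝ) ^ (p - 2) * ((2 : ℝ) ^ (-(d : ℤ)) + 1 / n) ^ c * Np p g

/-- (Heat) the exact heat identity -/
def StmtHeat : Prop := ∀ (p : ℝ) (g : ℂ → ℂ), 2 < p → SC g → Z0 g →
  (∀ τ, 0 ≤ gr p (tw τ 0 g)) ∧
  IntegrableOn (fun τ => gr p (tw τ 0 g)) (Set.Ioi 0) ∧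
  Np p g = ∫ τ in Set.Ioi (0 : ℝ), gr p (tw τ 0 g)

/-- (DErr) the heat energy of a block -/
def StmtDErr : Prop := ∀ (p ε : ℝ), 2 < p → 0 < ε → ∃ C, 0 < C ∧ ∀ (m L : ℕ) (s : ℤ) (R : ℕ)
  (G : ℂ → ℂ) (M : ℂ → ℝ), 2 * m < L → SC G → Sup R G → Dom G M →
  Integrable (fun x => M x ^ (p / 2)) →
  ∫ τ in Set.Ioc ((4 : ℝ) ^ (-(s + L - m))) ((4 : ℝ) ^ (-(s + m))), gr p (tw τ 0 G)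
    ≤ (1 + ε) * Np p (cut (bd s (s + L)) G)
      + C * ((2 : ℝ) ^ (-(m : ℝ)) + (2 : ℝ) ^ (-((p - 2) * m))) *
        (∫ x, M x ^ ((p - 2) / 2) *
          ∑ i ∈ Finset.Icc (-((R : ℤ) + 4)) (R + 4), wt s L i * qa i G x)
      + C * ∑ i ∈ Finset.Ico s (s + L),
          ∫ x, qm 8 i G x * ‖iF (cut (lo s) G) x‖ ^ (p - 2)

/-- (DECp) averaging over the position of the blocks -/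
def StmtDECp : Prop := ∀ (p ε : ℝ), 2 < p → 0 < ε → ∃ L₀ : ℕ, 1 ≤ L₀ ∧ ∀ L ≥ L₀, ∃ n₀ : ℕ,
  ∀ n ≥ n₀, ∀ (R : ℕ) (g : ℂ → ℂ), SC g → Sup R g →
  ∑ t ∈ Finset.range L, (Np p (mg n g) - (1 + ε) * ∑ b ∈ Finset.Icc (-((R : ℤ) + 4)) (R + 4),
      Np p (cut (bd (b * L - t) ((b + 1) * L - t)) (mg n g)))
    ≤ ε * L * (n : ℝ) ^ (p - 2) * Np p g

/-- (Bdryp) the boundary of a block -/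
def StmtBdryp : Prop := ∀ (p ε : ℝ), 1 ≤ p → 0 < ε → ∃ C : ℝ, 0 < C ∧ ∀ (m L : ℕ) (s : ℤ)
  (G : ℂ → ℂ), 2 * m < L → SC G →
  Np p (cut (bd s (s + L)) G) ≤ (1 + ε) * Np p (cut (bd (s + m) (s + L - m)) G)
    + C * (m : ℝ) ^ (p - 1) * ∑ i ∈ Finset.range m,
        (Np p (cut (sh (s + i)) G) + Np p (cut (sh (s + L - 1 - i)) G))

/-! ### Group E: one block -/

/-- the Hardy-Littlewood-Paley inequality with constant `κ` times the conjectured one -/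
def HLPr (p κ : ℝ) : Prop := ∀ h : 𝓢(ℂ, ℂ),
  ∫ x, ‖iF h x‖ ^ p ≤ κ * CHp p * ∫ ξ, ‖h ξ‖ ^ p * ‖ξ‖ ^ (2 * p - 4)

/-- (Synp) windowed form of the sharp inequality -/
def StmtSynp : Prop := ∀ (p κ r : ℝ) (g : ℂ → ℂ), 2 < p → 0 < κ → 0 < r → HLPr p κ → SC g →
  Integrable (fun ξ => ‖ξ‖ ^ (2 * p - 4) * Nw p r ξ g) ∧
  Np p g ≤ κ * CHp p * (p * r ^ (2 * p - 2)) * ∫ ξ, ‖ξ‖ ^ (2 * p - 4) * Nw p r ξ g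

/-- (SyN) symbols of size `B` are bounded operators -/
def StmtSyN : Prop := ∀ p : ℝ, 2 ≤ p → ∃ C, 0 < C ∧ ∀ (r B : ℝ) (a : ℂ → ℂ) (q : ℂ)
  (g : ℂ → ℂ), 0 < r → 0 ≤ B → SyB r B a → CC g →
  Np p (fun ζ => a (ζ - q) * g ζ) ≤ (C * B) ^ p * Np p g

/-- (ErrHp) the symbol seen from far away -/
def StmtErrHp : Prop := ∀ (M : ℝ) (L m : ℕ) (ε : ℝ), 1 ≤ M → 32 ≤ 2 ^ m → 2 * m < L → 0 < ε →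
  ∃ n₀ : ℕ, 1 ≤ n₀ ∧ ∀ n ≥ n₀, ∀ (s : ℤ) (q : ℂ), (2 : ℝ) ^ (s + L - m + 1) < ‖q‖ →
  SyB (win n M s L) (ε * ((2 : ℝ) ^ (s + L) / ‖q‖) ^ 2)
    (slK 1 n (win n M s L) s L m (2 * q))

/-- (GRes) resolution of a Gaussian window into two -/
def StmtGRes : Prop := ∀ (p r σ ρ : ℝ) (H : ℂ → ℂ), 2 < p → 0 < r → 0 < σ → 0 < ρ → SC H →
  (∀ ξ q : ℂ, Nw p r ξ (gs σ q H)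
    = Real.exp (-(Real.pi * p * (r ^ 2 * σ ^ 2 / (r ^ 2 + σ ^ 2)) * ‖ξ - q‖ ^ 2)) *
      Nw p (Real.sqrt (r ^ 2 + σ ^ 2))
        ((((r ^ 2 : ℝ) : ℂ) * ξ + ((σ ^ 2 : ℝ) : ℂ) * q) / ((r ^ 2 + σ ^ 2 : ℝ) : ℂ)) H) ∧
  IntegrableOn (fun z : ℂ × ℂ => ‖(((r ^ 2 : ℝ) : ℂ) * z.2 + ((σ ^ 2 : ℝ) : ℂ) * z.1)
      / ((r ^ 2 + σ ^ 2 : ℝ) : ℂ)‖ ^ (2 * p - 4) * Nw p r z.2 (gs σ z.1 H))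
    {z | ‖z.2 - z.1‖ ≤ ρ} ∧
  (1 - Real.exp (-(Real.pi * p * (r ^ 2 * σ ^ 2 / (r ^ 2 + σ ^ 2)) * ρ ^ 2))) *
      ∫ ξ, ‖ξ‖ ^ (2 * p - 4) * Nw p (Real.sqrt (r ^ 2 + σ ^ 2)) ξ H
    = p * (r ^ 2 * σ ^ 2 / (r ^ 2 + σ ^ 2)) *
      ∫ z in {z : ℂ × ℂ | ‖z.2 - z.1‖ ≤ ρ}, ‖(((r ^ 2 : ℝ) : ℂ) * z.2 + ((σ ^ 2 : ℝ) : ℂ) * z.1)
        / ((r ^ 2 + σ ^ 2 : ℝ) : ℂ)‖ ^ (2 * p - 4) * Nw p r z.2 (gs σ z.1 H)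

/-- (BLKp) the sharp inequality for one block -/
def StmtBLKp : Prop := ∀ (p κ ε : ℝ), 2 < p → 0 < κ → HLPr p κ → 0 < ε →
  ∃ (Q : ℝ) (m₀ : ℕ), 1 ≤ Q ∧ 32 ≤ 2 ^ m₀ ∧ ∀ m ≥ m₀, ∀ L : ℕ, 2 * m < L → ∀ ε₂ : ℝ, 0 < ε₂ →
  ∃ n₀ : ℕ, 1 ≤ n₀ ∧ ∀ n ≥ n₀, ∀ (s : ℤ) (g : ℂ → ℂ), SC g →
  Np p (cut (bd (s + m) (s + L - m)) (mg n g)) ≤
    (1 + ε) * κ * gamp p ^ p * (n : ℝ) ^ (p - 2) *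
      (p * (win n Q s L) ^ 2 *
        ∫ ξ in Jp s L m, Nw p (win n Q s L) ξ (cut (bd s (s + L)) g))
    + ε₂ * (n : ℝ) ^ (p - 2) * Np p (cut (bd s (s + L)) g)

/-! ### Group F: conclusion -/

/-- (Mainp) -/
def StmtMainp : Prop := ∀ (p κ ε : ℝ), 2 < p → 0 < κ → HLPr p κ → 0 < ε → ∃ n₀ : ℕ, ∀ n ≥ n₀,
  ∀ (R : ℕ) (g : ℂ → ℂ), SC g → Sup R g →
  Np p (mg n g) ≤ (1 + ε) * κ * gamp p ^ p * (n : ℝ) ^ (p - 2) * Np p g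

/-- (Ratiop) -/
def StmtRatiop : Prop := ∀ p : ℝ, 2 ≤ p →
  Tendsto (fun n : ℕ => ratio n p ^ p / (n : ℝ) ^ (p - 2)) atTop (𝓝 (gamp p ^ p))

/-- (Finalp) -/
def StmtFinalp : Prop := ∀ (p κ ε : ℝ), 2 < p → 0 < κ → HLPr p κ → 0 < ε → ∃ n₀ : ℕ, ∀ n ≥ n₀,
  ∀ f : 𝓢(ℂ, ℂ), eLpNorm (Tn n f) (ENNReal.ofReal p) volume ≤
    ENNReal.ofReal ((1 + ε) * κ ^ (1 / p) * ratio n p) * eLpNorm f (ENNReal.ofReal p) volume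

/-- (RatC) convexity of the ratio in `1/p`: the loss of the interpolation on a fine mesh -/
def StmtRatC : Prop := ∀ (ε P : ℝ), 0 < ε → 2 ≤ P → ∃ δ : ℝ, 0 < δ ∧
  ∀ (n : ℕ) (p₀ p₁ p τ : ℝ), 2 ≤ p₀ → p₀ ≤ p₁ → p₁ ≤ P → p₁ - p₀ ≤ δ → 0 ≤ τ → τ ≤ 1 →
  1 / p = (1 - τ) / p₀ + τ / p₁ →
  ratio n p₀ ^ (1 - τ) * ratio n p₁ ^ τ ≤ (1 + ε) * ratio n p

/-- (UnifA) all `p ≥ 8 / 3` at once -/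
def StmtUnifA : Prop := ∀ ε : ℝ, 0 < ε → ∃ n₀ : ℕ, ∀ n ≥ n₀, ∀ p : ℝ, 8 / 3 ≤ p →
  ∀ f : 𝓢(ℂ, ℂ), eLpNorm (Tn n f) (ENNReal.ofReal p) volume ≤
    ENNReal.ofReal ((1 + ε) * ratio n p) * eLpNorm f (ENNReal.ofReal p) volume

end Pool.Agent.Lib.MP_dd244f_an.Rp
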