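import Pool.Agent.Lib.MP_dd244f_an.Even.Dec2
import Pool.Agent.Lib.MP_dd244f_an.Rp.Stmts

/-!
Full operator, all real `p`: module (Dec2S), bilinear decay of the interaction of separated scales
at `p = 4`, with a translation.
-/

set_option autoImplicit false

namespace Pool.Agent.Lib.MP_dd244f_an.Rp

open MeasureTheory Filter Topology Finset
open Pool.Agent.Lib.MP_dd244f_an.Four
open Pool.Agent.Lib.MP_dd244f_an.Even

namespace Dec2S

open Four.Dec (csSet tele geo schur hb hb_cc iF_hb iF_sub int22 ra ra_eq hb_zero lo_supp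
  sh_supp Rr cc_facts cc_sub)
open Even.Dec2 (kb Db kb_facts kb_zero bd_split int_Dsq Dsq_le)

/-- translation, on the Fourier side -/
noncomputable def tr (t : ℂ) (g : ℂ → ℂ) (ζ : ℂ) : ℂ := ch (-t) ζ * g ζ

theorem tr_cc {t : ℂ} {g : ℂ → ℂ} (hg : CC g) : CC (tr t g) :=
  ⟨(continuous_ch _).mul hg.1, hg.2.mul_left⟩

theorem iF_tr (hB : StmtBase) (t : ℂ) (g : ℂ → ℂ) (x : ℂ) : iF (tr t g) x = iF g (x - t) := by
  have := hB.2.2.1 g x (-t)
  rw [sub_eq_add_neg]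
  exact this

theorem norm_tr (t : ℂ) (g : ℂ → ℂ) (ζ : ℂ) : ‖tr t g ζ‖ = ‖g ζ‖ := by
  unfold tr
  rw [norm_mul, norm_ch, one_mul]

theorem int22t (hB : StmtBase) {u v : ℂ → ℂ} (hu : CC u) (hv : CC v) (t : ℂ) :
    Integrable (fun x => ‖iF u (x - t)‖ ^ 2 * ‖iF v x‖ ^ 2) := by
  have := int22 hB (tr_cc (t := t) hu) hv
  simpa only [iF_tr hB] using this

/-- Peetre's inequality for the local averages -/
theorem qa_shift (hB : StmtBase) (hF : StmtFac) (hKK : StmtKK) {g : ℂ → ℂ} (hg : CC g) (a : ℤ)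
    (x y : ℂ) :
    qa a g (x - (((2 : ℝ) ^ (-a) : ℝ) : ℂ) * y) ≤ 4 * (1 + ‖y‖ ^ 2) ^ 2 * qa a g x := by
  have hρ : (0 : ℝ) < 2 ^ (-a) := by positivity
  set ρ : ℝ := 2 ^ (-a) with hρd
  have h2 := (hF.2.2.2.2.1 g a a hg).2.2
  have hi := (hB.1 _ h2).2.2.1
  have hKc : Continuous (KK ρ) := by
    unfold KK
    refine continuous_const.div (by fun_prop) fun x => ?_
    positivity
  have hKi : Integrable (fun z => KK ρ (x - z) * ‖iF (cut (sh a) g) z‖ ^ 2) := by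
    refine hi.bdd_mul (c := 1 / ρ ^ 2) (by fun_prop) (Eventually.of_forall fun z => ?_)
    have := (hKK.1 ρ hρ).2.2 (x - z)
    rw [Real.norm_eq_abs, abs_of_pos this.1]
    exact this.2
  unfold qa
  rw [← integral_const_mul]
  refine integral_mono_of_nonneg (Eventually.of_forall fun z => ?_) (hKi.const_mul _)
    (Eventually.of_forall fun z => ?_)
  · have := ((hKK.1 ρ hρ).2.2 (x - ρ * y - z)).1
    simp only [Pi.zero_apply]
    positivity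
  · have h3 := hKK.2.2.1 ρ hρ (x - z) (-(ρ * y))
    have e1 : x - z + -((ρ : ℂ) * y) = x - ρ * y - z := by ring
    have e2 : ‖-((ρ : ℂ) * y)‖ ^ 2 / ρ ^ 2 = ‖y‖ ^ 2 := by
      rw [norm_neg, norm_mul, Complex.norm_real, Real.norm_eq_abs, abs_of_pos hρ, mul_pow]
      field_simp
    rw [e1, e2] at h3
    have := mul_le_mul_of_nonneg_right h3 (sq_nonneg ‖iF (cut (sh a) g) z‖)
    simp only
    linarith

section
variable (hB : StmtBase) (hF : StmtFac) {CR : ℝ} (hCR : 0 < CR)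
  (hR : ∀ (n : ℕ) (a : ℤ) (ρ : ℝ) (g : ℂ → ℂ), 1 ≤ n → 0 < ρ → CC g →
  (∀ ζ, g ζ ≠ 0 → (2 : ℝ) ^ a ≤ ‖ζ‖ ∧ ‖ζ‖ ≤ (2 : ℝ) ^ (a + 2)) →
  ∫ θ in Metric.closedBall (0 : ℂ) ρ,
    ‖∫ δ, (E1 n θ δ - 1) * (g (δ + θ / 2) * starRingEnd ℂ (g (δ - θ / 2)))‖ ^ 2
      ≤ CR * (n * ρ / (2 : ℝ) ^ a) ^ 2 * N4 g)

include hB hF in
theorem int_RD {n : ℕ} (hn : 1 ≤ n) {g H : ℂ → ℂ} (hg : CC g) (hg0 : Z0 g) (hH : CC H)
    (a a₀ c : ℤ) (t : ℂ) :
    Integrable (fun x => Rr n a g (x - t) * Db a₀ c H x) ∧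
    ((∫ x, Rr n a g (x - t) * Db a₀ c H x : ℝ) : ℂ)
      = ∫ θ, tr t (ra n a g) θ * starRingEnd ℂ (kb a₀ c H θ) := by
  obtain ⟨-, -, -, h4, -, h6, -⟩ := cc_facts hB hF hn hg hg0 a
  obtain ⟨-, -, -, k5, k7⟩ := kb_facts hB hF hH a₀ c
  obtain ⟨p1, p2⟩ := hB.2.2.2.2.2 (tr t (ra n a g)) (kb a₀ c H) (tr_cc h4) k5
  have e : (fun x => iF (tr t (ra n a g)) x * starRingEnd ℂ (iF (kb a₀ c H) x))
      = fun x => ((Rr n a g (x - t) * Db a₀ c H x : ℝ) : ℂ) := by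
    ext x
    rw [iF_tr hB, h6, k7, Complex.conj_ofReal]
    push_cast
    ring
  rw [e] at p1 p2
  refine ⟨?_, ?_⟩
  · have := p1.re
    exact this
  · rw [← p2]
    exact integral_complex_ofReal.symm

include hB hF hCR hR in
theorem inter {n : ℕ} (hn : 1 ≤ n) {g H : ℂ → ℂ} (hg : CC g) (hg0 : Z0 g) (hH : CC H)
    (a : ℤ) {a₀ c : ℤ} (hc : a₀ ≤ c) (t : ℂ) :
    ∫ x, Rr n a g (x - t) * Db a₀ c H x ≤
      8 * Real.sqrt CR * n * (2 ^ (c - a) * Real.sqrt (N4 (cut (sh a) g))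
        * Real.sqrt (∫ x, Db a₀ c H x ^ 2)) := by
  obtain ⟨h1, h2, -, h4, -, h6, -⟩ := cc_facts hB hF hn hg hg0 a
  obtain ⟨-, -, -, k5, k7⟩ := kb_facts hB hF hH a₀ c
  obtain ⟨p1, p2⟩ := int_RD hB hF hn hg hg0 hH a a₀ c t
  set S := Metric.closedBall (0 : ℂ) (2 ^ (c + 3)) with hS
  have e1 : ∫ x, Rr n a g (x - t) * Db a₀ c H x ≤
      ∫ θ, ‖ra n a g θ‖ * ‖kb a₀ c H θ‖ := by
    calc ∫ x, Rr n a g (x - t) * Db a₀ c H x ≤ |∫ x, Rr n a g (x - t) * Db a₀ c H x| :=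
          le_abs_self _
      _ = ‖((∫ x, Rr n a g (x - t) * Db a₀ c H x : ℝ) : ℂ)‖ := by
          rw [Complex.norm_real, Real.norm_eq_abs]
      _ = ‖∫ θ, tr t (ra n a g) θ * starRingEnd ℂ (kb a₀ c H θ)‖ := by rw [p2]
      _ ≤ ∫ θ, ‖tr t (ra n a g) θ * starRingEnd ℂ (kb a₀ c H θ)‖ :=
          norm_integral_le_integral_norm _
      _ = _ := by
          congr 1
          ext θ
          rw [norm_mul, RCLike.norm_conj, norm_tr]
  have e2 : ∫ θ, ‖ra n a g θ‖ * ‖kb a₀ c H θ‖ = ∫ θ in S, ‖ra n a g θ‖ * ‖kb a₀ c H θ‖ := by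
    symm
    apply setIntegral_eq_integral_of_forall_compl_eq_zero
    intro θ hθ
    have : (2 : ℝ) ^ (c + 3) < ‖θ‖ := by
      by_contra hc
      exact hθ (by rw [hS, mem_closedBall_zero_iff]; exact not_lt.mp hc)
    rw [kb_zero hF hc _ this]
    simp
  have isq : ∀ u : ℂ → ℂ, CC u → Integrable (fun θ => ‖u θ‖ ^ 2) := by
    intro u hu
    refine Continuous.integrable_of_hasCompactSupport (by
      have := hu.1
      fun_prop) ?_
    have := hu.2.norm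
    exact this.comp_left (g := fun t : ℝ => t ^ 2) (by simp)
  have e3 := csSet S (f := fun θ => ‖ra n a g θ‖) (g := fun θ => ‖kb a₀ c H θ‖)
    (fun _ => norm_nonneg _) (fun _ => norm_nonneg _) h4.1.norm k5.1.norm (isq _ h4) (isq _ k5)
  have e4 := hR n a (2 ^ (c + 3)) (cut (sh a) g) hn (by positivity) h2 (sh_supp hF a g)
  have e5 : ∫ θ in S, ‖ra n a g θ‖ ^ 2 ≤ CR * (n * 2 ^ (c + 3) / (2 : ℝ) ^ a) ^ 2
      * N4 (cut (sh a) g) := by
    refine le_trans (le_of_eq ?_) e4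
    congr 1
    ext θ
    rw [ra_eq h1 h2]
  rw [int_Dsq hB hF hH] at e3
  refine e1.trans (e2.le.trans (e3.trans ?_))
  have e6 : Real.sqrt (CR * (n * 2 ^ (c + 3) / (2 : ℝ) ^ a) ^ 2 * N4 (cut (sh a) g))
      = 8 * Real.sqrt CR * n * (2 ^ (c - a) * Real.sqrt (N4 (cut (sh a) g))) := by
    rw [Real.sqrt_mul (by positivity), Real.sqrt_mul hCR.le, Real.sqrt_sq (by positivity),
      Four.R.z4, zpow_sub₀ (by norm_num)]
    ring
  calc Real.sqrt (∫ θ in S, ‖ra n a g θ‖ ^ 2) * Real.sqrt (∫ x, Db a₀ c H x ^ 2)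
      ≤ Real.sqrt (CR * (n * 2 ^ (c + 3) / (2 : ℝ) ^ a) ^ 2 * N4 (cut (sh a) g))
        * Real.sqrt (∫ x, Db a₀ c H x ^ 2) := by gcongr
    _ = _ := by rw [e6]; ring

end

end Dec2S

open Dec2S in
open Four.Dec (tele schur int22 Rr cc_facts) in
open Even.Dec2 (kb Db kb_facts bd_split Dsq_le) in
theorem dec2S (hR : Four.StmtR) (hP : Four.StmtPP) (hA : Four.StmtApr) (hB : Four.StmtBase)
    (hF : Four.StmtFac) (hKK : Four.StmtKK) (hLPK : Four.StmtLPK) : StmtDec2S := by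
  obtain ⟨CR, hCR, hR⟩ := hR
  obtain ⟨CP, hCP, hP⟩ := hP
  obtain ⟨B, n₀, hB1, hn₀, hA⟩ := hA
  obtain ⟨CL, hCL, hLP⟩ := hLPK
  set C1 : ℝ := 16 * CL * CP + 8 * Real.sqrt CR * (Real.sqrt CP * Real.sqrt (34 * CP)) with hC1
  have hC1p : 0 < C1 := by positivity
  refine ⟨C1 * Real.sqrt B, n₀, by positivity, hn₀, ?_⟩
  intro n hn g h hg hg0 hh hh0 A a₀ d y hAd
  have hn1 : 1 ≤ n := hn₀.trans hn
  have hH := (hF.2.2.2.2.2.1 h n hn1 hh hh0).1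
  have hApr := hA n hn h hh hh0
  set H := mg n h with hHdef
  have hn4g : 0 ≤ N4 g := n4_nonneg g
  have hn4H : 0 ≤ N4 H := n4_nonneg H
  have hn4h : 0 ≤ N4 h := n4_nonneg h
  set Y : ℝ := (1 + ‖y‖) ^ 4 with hYd
  have hy0 := norm_nonneg y
  have hY1 : 1 ≤ Y := one_le_pow₀ (by linarith)
  have hY2 : (1 + ‖y‖ ^ 2) ^ 2 ≤ Y := by
    have : 1 + ‖y‖ ^ 2 ≤ (1 + ‖y‖) ^ 2 := by nlinarith
    calc (1 + ‖y‖ ^ 2) ^ 2 ≤ ((1 + ‖y‖) ^ 2) ^ 2 := by gcongr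
      _ = Y := by rw [hYd]; ring
  -- the sum of squares of the differences
  have hYs : ∀ S : Finset ℤ, ∑ c ∈ S, Real.sqrt (∫ x, Db a₀ c H x ^ 2) ^ 2 ≤ 34 * CP * N4 H := by
    intro S
    obtain ⟨-, -, q3, q4⟩ := hP S (fun c => c) H H hH hH
    obtain ⟨-, -, r3, -⟩ := hP S (fun _ => a₀) H H hH hH
    rw [Real.mul_self_sqrt hn4H] at q3 r3
    have : ∀ c ∈ S, Real.sqrt (∫ x, Db a₀ c H x ^ 2) ^ 2 ≤ 2 * N4 (cut (sh c) H)
        + 16 * N22 (cut (sh c) H) (cut (lo c) H) + 16 * N22 (cut (sh c) H) (cut (lo a₀) H) := by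
      intro c _
      rw [Real.sq_sqrt (integral_nonneg fun _ => by positivity)]
      exact Dsq_le hB hF hH a₀ c
    refine (Finset.sum_le_sum this).trans ?_
    rw [Finset.sum_add_distrib, Finset.sum_add_distrib, ← Finset.mul_sum, ← Finset.mul_sum,
      ← Finset.mul_sum]
    linarith
  have hX : ∑ a ∈ A, Real.sqrt (N4 (cut (sh a) g)) ^ 2 ≤ CP * N4 g := by
    obtain ⟨-, -, -, q4⟩ := hP A (fun c => c) g g hg hg
    refine le_trans (le_of_eq (Finset.sum_congr rfl fun a _ => ?_)) q4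
    exact Real.sq_sqrt (n4_nonneg _)
  have hsch := schur A d a₀ (fun a => Real.sqrt (N4 (cut (sh a) g)))
    (fun c => Real.sqrt (∫ x, Db a₀ c H x ^ 2)) (CP * N4 g) (34 * CP * N4 H) hX hYs
  obtain ⟨Q1, Q2, -, -⟩ := hP A (fun a => a - d) g H hg hH
  obtain ⟨P1, P2, -, -⟩ := hP A (fun _ => a₀) g H hg hH
  -- one scale
  have hone : ∀ a ∈ A, ∫ x, ‖iF (cut (sh a) (mg n g)) (x - (((2 : ℝ) ^ (-a) : ℝ) : ℂ) * y)‖ ^ 2 *
      ‖iF (cut (bd a₀ (a - d)) H) x‖ ^ 2 ≤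
      8 * CL * Y * ((∫ x, qa a g x * ‖iF (cut (lo (a - d)) H) x‖ ^ 2)
        + ∫ x, qa a g x * ‖iF (cut (lo a₀) H) x‖ ^ 2)
      + 8 * Real.sqrt CR * n *
        ∑ c ∈ Finset.Ico a₀ (a - d), (2 ^ (c - a) * Real.sqrt (N4 (cut (sh a) g))
        * Real.sqrt (∫ x, Db a₀ c H x ^ 2)) := by
    intro a ha
    obtain ⟨h1, h2, -, -, -, -, -⟩ := cc_facts hB hF hn1 hg hg0 a
    obtain ⟨h3, -, -, -, -⟩ := kb_facts hB hF hH a₀ (a - d)
    have hKs := qa_shift hB hF hKK hg a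
    set t : ℂ := (((2 : ℝ) ^ (-a) : ℝ) : ℂ) * y with ht
    have i1 := int22t hB h1 h3 t
    have i2 := int22t hB h2 h3 t
    have e1 : ∫ x, ‖iF (cut (sh a) (mg n g)) (x - t)‖ ^ 2 *
        ‖iF (cut (bd a₀ (a - d)) H) x‖ ^ 2 =
      (∫ x, ‖iF (cut (sh a) g) (x - t)‖ ^ 2 * ‖iF (cut (bd a₀ (a - d)) H) x‖ ^ 2)
        + ∫ x, Rr n a g (x - t) * ‖iF (cut (bd a₀ (a - d)) H) x‖ ^ 2 := by
      have : ∫ x, Rr n a g (x - t) * ‖iF (cut (bd a₀ (a - d)) H) x‖ ^ 2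
          = (∫ x, ‖iF (cut (sh a) (mg n g)) (x - t)‖ ^ 2 *
              ‖iF (cut (bd a₀ (a - d)) H) x‖ ^ 2)
            - ∫ x, ‖iF (cut (sh a) g) (x - t)‖ ^ 2 * ‖iF (cut (bd a₀ (a - d)) H) x‖ ^ 2 := by
        rw [← integral_sub i1 i2]
        congr 1
        ext x
        unfold Rr
        ring
      rw [this]
      ring
    rw [e1]
    have e0 : ∫ x, ‖iF (cut (sh a) g) (x - t)‖ ^ 2 * ‖iF (cut (bd a₀ (a - d)) H) x‖ ^ 2 ≤
        8 * CL * Y * ((∫ x, qa a g x * ‖iF (cut (lo (a - d)) H) x‖ ^ 2)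
        + ∫ x, qa a g x * ‖iF (cut (lo a₀) H) x‖ ^ 2) := by
      have j1 := Q1 a ha
      have j2 := P1 a ha
      rw [← integral_add j1 j2, ← integral_const_mul]
      refine integral_mono i2 ((j1.add j2).const_mul _) fun x => ?_
      simp only
      have k1 : ‖iF (cut (sh a) g) (x - t)‖ ^ 2 ≤ 4 * CL * Y * qa a g x := by
        have q0 : 0 ≤ qa a g x := integral_nonneg fun z => by
          have := ((hKK.1 ((2 : ℝ) ^ (-a)) (by positivity)).2.2 (x - z)).1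
          positivity
        calc ‖iF (cut (sh a) g) (x - t)‖ ^ 2 ≤ CL * qa a g (x - t) := (hLP a g hg (x - t)).2.2
          _ ≤ CL * (4 * (1 + ‖y‖ ^ 2) ^ 2 * qa a g x) := by
              have := hKs x y
              gcongr
          _ ≤ CL * (4 * Y * qa a g x) := by gcongr
          _ = _ := by ring
      have k2 := bd_split hB hF hH a₀ (a - d) x
      calc ‖iF (cut (sh a) g) (x - t)‖ ^ 2 * ‖iF (cut (bd a₀ (a - d)) H) x‖ ^ 2
          ≤ (4 * CL * Y * qa a g x) * (2 * ‖iF (cut (lo (a - d)) H) x‖ ^ 2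
            + 2 * ‖iF (cut (lo a₀) H) x‖ ^ 2) := by
            apply mul_le_mul k1 k2 (by positivity)
            exact (sq_nonneg _).trans k1
        _ = _ := by ring
    have hzero : ∀ x, ‖iF (cut (bd a₀ a₀) H) x‖ ^ 2 = 0 := by
      intro x
      have : cut (bd a₀ a₀) H = fun _ => 0 := by
        ext ζ; unfold cut bd; simp
      rw [this]
      unfold iF
      simp
    have e2 : ∀ x, ‖iF (cut (bd a₀ (a - d)) H) x‖ ^ 2
        = ∑ c ∈ Finset.Ico a₀ (a - d), Db a₀ c H x := by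
      intro x
      have := tele (fun c => ‖iF (cut (bd a₀ c) H) x‖ ^ 2) a₀ (a - d) (hAd a ha)
      simp only [hzero x, sub_zero] at this
      rw [← this]
      rfl
    have e3 : ∫ x, Rr n a g (x - t) * ‖iF (cut (bd a₀ (a - d)) H) x‖ ^ 2
        = ∑ c ∈ Finset.Ico a₀ (a - d), ∫ x, Rr n a g (x - t) * Db a₀ c H x := by
      rw [← integral_finsetSum _ fun c _ => (Dec2S.int_RD hB hF hn1 hg hg0 hH a a₀ c t).1]
      congr 1
      ext x
      rw [e2, Finset.mul_sum]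
    rw [e3, Finset.mul_sum]
    refine add_le_add e0 (Finset.sum_le_sum fun c hc => ?_)
    exact Dec2S.inter hB hF hCR hR hn1 hg hg0 hH a (Finset.mem_Ico.mp hc).1 t
  have e4 : Real.sqrt (CP * N4 g) * Real.sqrt (34 * CP * N4 H)
      = (Real.sqrt CP * Real.sqrt (34 * CP)) * (Real.sqrt (N4 g) * Real.sqrt (N4 H)) := by
    rw [Real.sqrt_mul hCP.le, Real.sqrt_mul (by positivity)]
    ring
  rw [e4] at hsch
  have hW : 0 ≤ Real.sqrt (N4 g) * Real.sqrt (N4 H) := by positivity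
  have hWle : Real.sqrt (N4 g) * Real.sqrt (N4 H) ≤
      Real.sqrt B * n * (Real.sqrt (N4 g) * Real.sqrt (N4 h)) := by
    have : Real.sqrt (N4 H) ≤ Real.sqrt B * n * Real.sqrt (N4 h) := by
      refine (Real.sqrt_le_sqrt hApr).trans (le_of_eq ?_)
      rw [Real.sqrt_mul (by positivity), Real.sqrt_mul (by positivity),
        Real.sqrt_sq (by positivity)]
    calc _ ≤ Real.sqrt (N4 g) * (Real.sqrt B * n * Real.sqrt (N4 h)) := by gcongr
      _ = _ := by ring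
  set W := Real.sqrt (N4 g) * Real.sqrt (N4 H) with hWdef
  have e5 : 8 * Real.sqrt CR * n * ∑ a ∈ A, ∑ c ∈ Finset.Ico a₀ (a - d),
      (2 ^ (c - a) * Real.sqrt (N4 (cut (sh a) g)) * Real.sqrt (∫ x, Db a₀ c H x ^ 2))
      ≤ 8 * Real.sqrt CR * n * (2 ^ (-(d : ℤ)) * (Real.sqrt CP * Real.sqrt (34 * CP) * W)) := by
    gcongr
  have hd : (0 : ℝ) < 2 ^ (-(d : ℤ)) := by positivity
  have hmain : ∑ a ∈ A, ∫ x, ‖iF (cut (sh a) (mg n g))
      (x - (((2 : ℝ) ^ (-a) : ℝ) : ℂ) * y)‖ ^ 2 * ‖iF (cut (bd a₀ (a - d)) H) x‖ ^ 2 ≤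
      C1 * Y * (1 + n * 2 ^ (-(d : ℤ))) * W := by
    refine (Finset.sum_le_sum hone).trans ?_
    rw [Finset.sum_add_distrib, ← Finset.mul_sum, ← Finset.mul_sum, Finset.sum_add_distrib]
    have k0 : 8 * CL * Y * (∑ a ∈ A, (∫ x, qa a g x * ‖iF (cut (lo (a - d)) H) x‖ ^ 2)
        + ∑ a ∈ A, ∫ x, qa a g x * ‖iF (cut (lo a₀) H) x‖ ^ 2) ≤
        8 * CL * Y * (CP * W + CP * W) := by
      gcongr
    have k1 : 0 ≤ CL * CP * Y * (n * 2 ^ (-(d : ℤ))) * W := by positivity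
    have k2 : 0 ≤ Real.sqrt CR * (Real.sqrt CP * Real.sqrt (34 * CP)) * W := by positivity
    have k3 : 0 ≤ (Y - 1) * (n * 2 ^ (-(d : ℤ)) *
        (Real.sqrt CR * (Real.sqrt CP * Real.sqrt (34 * CP)) * W)) :=
      mul_nonneg (by linarith) (by positivity)
    have k4 : 0 ≤ Y * (Real.sqrt CR * (Real.sqrt CP * Real.sqrt (34 * CP)) * W) := by positivity
    calc _ ≤ 8 * CL * Y * (CP * W + CP * W) + 8 * Real.sqrt CR * n * (2 ^ (-(d : ℤ)) *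
        (Real.sqrt CP * Real.sqrt (34 * CP) * W)) := add_le_add k0 e5
      _ ≤ _ := by rw [hC1]; nlinarith
  refine hmain.trans ?_
  have hnpos : (0 : ℝ) < n := by exact_mod_cast hn1
  calc C1 * Y * (1 + n * 2 ^ (-(d : ℤ))) * W
      ≤ C1 * Y * (1 + n * 2 ^ (-(d : ℤ))) *
        (Real.sqrt B * n * (Real.sqrt (N4 g) * Real.sqrt (N4 h))) := by gcongr
    _ = _ := by field_simp; ring

end Pool.Agent.Lib.MP_dd244f_an.Rp
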