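import Pool.Agent.Lib.MP_dd244f_an.Rp.Stmts
import Pool.Agent.Lib.MP_dd244f_an.Four.Ker
import Pool.Agent.Lib.MP_dd244f_an.Four.LPK
import Pool.Agent.Lib.MP_dd244f_an.Four.Syn

/-!
Full operator, all real `p`: domination under the heat flow (module DomH).
-/

set_option autoImplicit false

namespace Pool.Agent.Lib.MP_dd244f_an.Rp

open MeasureTheory Filter Topology
open Pool.Agent.Lib.MP_dd244f_an.Four
open Pool.Agent.Lib.MP_dd244f_an.Even hiding ga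
open Pool.Agent.Lib.MP_dd244f_an.Unif (SC)
open scoped ContDiff

namespace DomHAux

theorem ccMul {g φ : ℂ → ℂ} (hg : CC g) (hφ : Continuous φ) :
    Integrable (fun ζ => φ ζ * g ζ) :=
  (hφ.mul hg.1).integrable_of_hasCompactSupport (hg.2.mul_left)

open LPKAux (kk_nonneg cs_weight)
open SynM (ga ga_neg ga_pos continuous_ga ga_fourier ga_integrable)

/-- convolution with a kernel dominated by `KK ρ` -/
theorem dom_kk (hK : StmtKK) (hB : StmtBase) {C ρ : ℝ} (hρ : 0 < ρ) (k : ℂ → ℂ)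
    (hk : ∀ z, ‖k z‖ ≤ C * KK ρ z) {g : ℂ → ℂ} (hg : CC g) (x : ℂ) :
    ‖∫ y, k (x - y) * iF g y‖ ^ 2
      ≤ (C ^ 2 * Real.pi) * ∫ y, KK ρ (x - y) * ‖iF g y‖ ^ 2 := by
  obtain ⟨hKi, hKv, -⟩ := hK.1 _ hρ
  obtain ⟨hc, ⟨B, hBd⟩, -⟩ := hB.1 g hg
  have hw : Integrable (fun y => KK ρ (x - y)) := hKi.comp_sub_left x
  have hwm : ∫ y, KK ρ (x - y) = Real.pi := by
    rw [integral_sub_left_eq_self (fun y => KK ρ y) volume x, hKv]
  have h1 := cs_weight (fun y => KK ρ (x - y)) (fun y => ‖iF g y‖) Real.pi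
    Real.pi_pos hw hwm (fun y => kk_nonneg _ _) hc.norm B (fun y => by simpa using hBd y)
  have hi1 : Integrable (fun y => KK ρ (x - y) * ‖iF g y‖) := by
    refine hw.mul_bdd (c := B) hc.norm.aestronglyMeasurable ?_
    exact Eventually.of_forall fun y => by simpa using hBd y
  have h2 : ‖∫ y, k (x - y) * iF g y‖ ≤ ∫ y, C * (KK ρ (x - y) * ‖iF g y‖) := by
    refine norm_integral_le_of_norm_le (hi1.const_mul C) (Eventually.of_forall fun y => ?_)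
    rw [norm_mul, ← mul_assoc]
    exact mul_le_mul_of_nonneg_right (hk (x - y)) (norm_nonneg _)
  rw [integral_const_mul] at h2
  calc ‖∫ y, k (x - y) * iF g y‖ ^ 2
      ≤ (C * ∫ y, KK ρ (x - y) * ‖iF g y‖) ^ 2 :=
        pow_le_pow_left₀ (norm_nonneg _) h2 2
    _ = C ^ 2 * (∫ y, KK ρ (x - y) * ‖iF g y‖) ^ 2 := by ring
    _ ≤ C ^ 2 * (Real.pi * ∫ y, KK ρ (x - y) * ‖iF g y‖ ^ 2) :=
        mul_le_mul_of_nonneg_left h1 (by positivity)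
    _ = _ := by ring

/-- the Gaussian is dominated by `KK` -/
theorem gauss_le {r : ℝ} (hr : 0 < r) (z : ℂ) : 1 / r ^ 2 * ga (1 / r) z ≤ KK r z := by
  unfold ga KK
  set u : ℝ := ‖z‖ ^ 2 / r ^ 2 with hu
  have hu0 : 0 ≤ u := by positivity
  have e1 : Real.pi * (1 / r) ^ 2 * ‖z‖ ^ 2 = Real.pi * u := by rw [hu]; field_simp
  have e2 : r ^ 2 / (r ^ 2 + ‖z‖ ^ 2) ^ 2 = 1 / r ^ 2 * (1 / (1 + u) ^ 2) := by
    rw [hu]; field_simp
  rw [e1, e2]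
  refine mul_le_mul_of_nonneg_left ?_ (by positivity)
  rw [le_div_iff₀ (by positivity), Real.exp_neg, inv_mul_le_iff₀ (Real.exp_pos _), mul_one]
  have h1 : 1 + u ≤ Real.exp u := by linarith [Real.add_one_le_exp u]
  calc (1 + u) ^ 2 ≤ Real.exp u ^ 2 := pow_le_pow_left₀ (by positivity) h1 2
    _ = Real.exp (2 * u) := by rw [← Real.exp_nat_mul]; norm_num
    _ ≤ Real.exp (Real.pi * u) := by
      apply Real.exp_le_exp.mpr
      nlinarith [Real.pi_gt_three]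

/-- the heat flow as a convolution -/
theorem heat_conv {r : ℝ} (hr : 0 < r) {h : ℂ → ℂ} (hh : CC h) (x : ℂ) :
    iF (fun ζ => (ga r ζ : ℂ) * h ζ) x =
      ∫ y, ((1 / r ^ 2 * ga (1 / r) (x - y) : ℝ) : ℂ) * iF h y := by
  have hr' : 0 < 1 / r := by positivity
  have hF : ∀ ζ : ℂ, (ga r ζ : ℂ) = ∫ η, ((1 / r ^ 2 * ga (1 / r) η : ℝ) : ℂ) * ch η ζ := by
    intro ζ
    have h1 := ga_fourier hr' ζ
    have h2 : ∫ η, ((1 / r ^ 2 * ga (1 / r) η : ℝ) : ℂ) * ch η ζ =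
        ((1 / r ^ 2 : ℝ) : ℂ) * ∫ η, ch ζ η * (ga (1 / r) η : ℂ) := by
      rw [← integral_const_mul]
      congr 1
      ext η
      rw [ch_comm ζ η]
      push_cast
      ring
    rw [h2, h1, ← Complex.ofReal_mul]
    congr 1
    unfold ga
    have e1 : Real.pi * ‖ζ‖ ^ 2 / (1 / r) ^ 2 = Real.pi * r ^ 2 * ‖ζ‖ ^ 2 := by field_simp
    rw [e1]
    field_simp
  have hprod : Integrable (fun p : ℂ × ℂ => ((1 / r ^ 2 * ga (1 / r) p.1 : ℝ) : ℂ) *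
      (ch (x + p.1) p.2 * h p.2)) ((volume : Measure ℂ).prod volume) := by
    have h3 : Integrable (fun p : ℂ × ℂ => ((1 / r ^ 2 * ga (1 / r) p.1 : ℝ) : ℂ) * h p.2)
        ((volume : Measure ℂ).prod volume) := by
      exact Integrable.mul_prod (f := fun η => ((1 / r ^ 2 * ga (1 / r) η : ℝ) : ℂ)) (g := h)
        ((ga_integrable hr').const_mul _).ofReal hh.integrable
    have h4 : Integrable (fun p : ℂ × ℂ => ch (x + p.1) p.2 *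
        (((1 / r ^ 2 * ga (1 / r) p.1 : ℝ) : ℂ) * h p.2)) ((volume : Measure ℂ).prod volume) := by
      refine h3.bdd_mul (c := 1) ?_ ?_
      · have hc : Continuous (fun p : ℂ × ℂ => ch (x + p.1) p.2) :=
          continuous_ch2.comp ((continuous_const.add continuous_fst).prodMk continuous_snd)
        exact hc.aestronglyMeasurable
      · exact Eventually.of_forall fun p => (norm_ch _ _).le
    refine h4.congr (Eventually.of_forall fun p => ?_)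
    simp only
    ring
  calc iF (fun ζ => (ga r ζ : ℂ) * h ζ) x
      = ∫ ζ, ∫ η, ((1 / r ^ 2 * ga (1 / r) η : ℝ) : ℂ) * (ch (x + η) ζ * h ζ) := by
        unfold iF
        congr 1
        ext ζ
        simp only
        rw [hF ζ, ← integral_mul_const, ← integral_const_mul]
        congr 1
        ext η
        rw [ch_add]
        ring
    _ = ∫ η, ∫ ζ, ((1 / r ^ 2 * ga (1 / r) η : ℝ) : ℂ) * (ch (x + η) ζ * h ζ) :=
        (integral_integral_swap hprod).symm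
    _ = ∫ η, ((1 / r ^ 2 * ga (1 / r) η : ℝ) : ℂ) * iF h (x + η) := by
        congr 1
        ext η
        rw [integral_const_mul]
        rfl
    _ = ∫ y, ((1 / r ^ 2 * ga (1 / r) (x - y) : ℝ) : ℂ) * iF h y := by
        rw [← integral_sub_right_eq_self
          (fun η => ((1 / r ^ 2 * ga (1 / r) η : ℝ) : ℂ) * iF h (x + η)) x]
        congr 1
        ext y
        rw [← ga_neg, neg_sub, add_sub_cancel]

theorem tw_zero (g : ℂ → ℂ) : tw 0 0 g = g := by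
  ext ζ
  unfold tw
  simp

theorem tw_ga {τ : ℝ} (hτ : 0 < τ) (h : ℂ → ℂ) :
    tw τ 0 h = fun ζ => (ga (Real.sqrt (4 * Real.pi * τ)) ζ : ℂ) * h ζ := by
  ext ζ
  unfold tw ga
  have h1 : Real.sqrt (4 * Real.pi * τ) ^ 2 = 4 * Real.pi * τ :=
    Real.sq_sqrt (by positivity)
  rw [h1]
  congr 3
  simp only [Complex.zero_re, Complex.zero_im, zero_mul, add_zero, mul_zero]
  ring

/-- the heat flow is dominated by an average -/
theorem heat_le (hK : StmtKK) (hB : StmtBase) {τ : ℝ} (hτ : 0 < τ) {h : ℂ → ℂ} (hh : CC h)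
    (x : ℂ) : ‖iF (tw τ 0 h) x‖ ^ 2 ≤
      Real.pi * ∫ y, KK (Real.sqrt (4 * Real.pi * τ)) (x - y) * ‖iF h y‖ ^ 2 := by
  have hr : 0 < Real.sqrt (4 * Real.pi * τ) := Real.sqrt_pos.mpr (by positivity)
  rw [tw_ga hτ, heat_conv hr hh]
  have h1 := dom_kk hK hB (C := 1) hr
    (fun z => ((1 / Real.sqrt (4 * Real.pi * τ) ^ 2 *
      ga (1 / Real.sqrt (4 * Real.pi * τ)) z : ℝ) : ℂ)) (fun z => by
        rw [Complex.norm_real, Real.norm_eq_abs, one_mul,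
          abs_of_nonneg (mul_nonneg (by positivity) (ga_pos _ _).le)]
        exact gauss_le hr z) hh x
  simpa using h1

/-- the derivative of the flow in time -/
theorem flow_deriv {L : ℂ → ℂ} (hL : CC L) (x : ℂ) (t₀ : ℝ) :
    HasDerivAt (fun t : ℝ => iF (tw t 0 L) x)
      (iF (tw t₀ 0 (fun ζ => ((-(4 * Real.pi ^ 2 * ‖ζ‖ ^ 2) : ℝ) : ℂ) * L ζ)) x) t₀ := by
  have hLc := hL.1
  have tw0 : ∀ (t : ℝ) (g : ℂ → ℂ) (ζ : ℂ), tw t 0 g ζ =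
      ((Real.exp (-(4 * Real.pi ^ 2 * t * ‖ζ‖ ^ 2)) : ℝ) : ℂ) * g ζ := by
    intro t g ζ
    unfold tw
    simp
  have hcc : ∀ (t : ℝ) (g : ℂ → ℂ), CC g → CC (tw t 0 g) := by
    intro t g hg
    have e : tw t 0 g = fun ζ => ((Real.exp (-(4 * Real.pi ^ 2 * t * ‖ζ‖ ^ 2)) : ℝ) : ℂ) * g ζ := by
      ext ζ; exact tw0 t g ζ
    rw [e]
    refine ⟨?_, hg.2.mul_left⟩
    have := hg.1
    fun_prop
  have hL' : CC (fun ζ => ((-(4 * Real.pi ^ 2 * ‖ζ‖ ^ 2) : ℝ) : ℂ) * L ζ) := by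
    refine ⟨?_, hL.2.mul_left⟩
    fun_prop
  unfold iF
  refine (hasDerivAt_integral_of_dominated_loc_of_deriv_le (𝕜 := ℝ)
    (F := fun t ζ => ch x ζ * tw t 0 L ζ)
    (F' := fun t ζ => ch x ζ *
      tw t 0 (fun ζ => ((-(4 * Real.pi ^ 2 * ‖ζ‖ ^ 2) : ℝ) : ℂ) * L ζ) ζ)
    (s := Metric.ball t₀ 1) (Metric.ball_mem_nhds t₀ one_pos)
    (bound := fun ζ => Real.exp (4 * Real.pi ^ 2 * (|t₀| + 1) * ‖ζ‖ ^ 2) *
      ‖((-(4 * Real.pi ^ 2 * ‖ζ‖ ^ 2) : ℝ) : ℂ) * L ζ‖) ?_ ?_ ?_ ?_ ?_ ?_).2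
  · exact Eventually.of_forall fun t =>
      ((continuous_ch x).mul (hcc t L hL).1).aestronglyMeasurable
  · exact ccMul (hcc t₀ L hL) (continuous_ch x)
  · exact ((continuous_ch x).mul (hcc t₀ _ hL').1).aestronglyMeasurable
  · refine Eventually.of_forall fun ζ t ht => ?_
    rw [norm_mul, norm_ch, one_mul, tw0, norm_mul, Complex.norm_real, Real.norm_eq_abs,
      Real.abs_exp]
    refine mul_le_mul_of_nonneg_right ?_ (norm_nonneg _)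
    apply Real.exp_le_exp.mpr
    rw [Metric.mem_ball, Real.dist_eq] at ht
    have h1 : -t ≤ |t₀| + 1 := by
      have h2 := abs_lt.mp ht
      have h3 := neg_abs_le t₀
      linarith [h2.1]
    have h4 : 0 ≤ 4 * Real.pi ^ 2 * ‖ζ‖ ^ 2 := by positivity
    nlinarith
  · have hc : Continuous (fun ζ : ℂ => Real.exp (4 * Real.pi ^ 2 * (|t₀| + 1) * ‖ζ‖ ^ 2) *
        ‖((-(4 * Real.pi ^ 2 * ‖ζ‖ ^ 2) : ℝ) : ℂ) * L ζ‖) := by fun_prop
    refine hc.integrable_of_hasCompactSupport ?_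
    exact (hL'.2.norm).mul_left
  · refine Eventually.of_forall fun ζ t _ => ?_
    simp only [tw0]
    have h1 : HasDerivAt (fun t : ℝ => Real.exp (-(4 * Real.pi ^ 2 * t * ‖ζ‖ ^ 2)))
        (Real.exp (-(4 * Real.pi ^ 2 * t * ‖ζ‖ ^ 2)) * (-(4 * Real.pi ^ 2 * ‖ζ‖ ^ 2))) t := by
      have h2 : HasDerivAt (fun t : ℝ => -(4 * Real.pi ^ 2 * t * ‖ζ‖ ^ 2))
          (-(4 * Real.pi ^ 2 * ‖ζ‖ ^ 2)) t := by
        have h3 := (((hasDerivAt_id t).const_mul (4 * Real.pi ^ 2)).mul_const (‖ζ‖ ^ 2)).fun_neg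
        simpa using h3
      exact h2.exp
    have h4 := (h1.ofReal_comp.mul_const (L ζ)).const_mul (ch x ζ)
    refine h4.congr_deriv ?_
    push_cast
    ring

/-- the kernel of `lo 0` after a short time -/
theorem short (hDc : StmtDcy) : ∃ C, 0 < C ∧ ∀ (t : ℝ) (x : ℂ), 0 ≤ t → t ≤ 1 →
    ‖iF (fun ζ => ((Real.exp (-(4 * Real.pi ^ 2 * t * ‖ζ‖ ^ 2)) - 1 : ℝ) : ℂ) *
      ((lo 0 ζ : ℝ) : ℂ)) x‖ ≤ t * C / (1 + ‖x‖ ^ 2) ^ 4 := by
  have hs : ContDiff ℝ ∞ (fun ζ : ℂ => ((-(4 * Real.pi ^ 2 * ‖ζ‖ ^ 2) : ℝ) : ℂ)) := by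
    have h1 : ContDiff ℝ ∞ (fun ζ : ℂ => (-(4 * Real.pi ^ 2 * ‖ζ‖ ^ 2) : ℝ)) :=
      (contDiff_const.mul (contDiff_norm_sq ℝ)).neg
    exact Complex.ofRealCLM.contDiff.comp h1
  have hg : SC (fun ζ : ℂ => ((-(4 * Real.pi ^ 2 * ‖ζ‖ ^ 2) : ℝ) : ℂ) * ((lo 0 ζ : ℝ) : ℂ)) :=
    ⟨hs.mul (lo_smooth 0), (lo_supp 0).mul_left⟩
  obtain ⟨C, hC, h⟩ := hDc _ 4 1 hg
  have hL : CC (fun ζ : ℂ => ((lo 0 ζ : ℝ) : ℂ)) := ⟨(lo_smooth 0).continuous, lo_supp 0⟩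
  refine ⟨C, hC, fun t x ht0 ht1 => ?_⟩
  have hmv := Convex.norm_image_sub_le_of_norm_hasDerivWithin_le
    (f := fun t : ℝ => iF (tw t 0 (fun ζ : ℂ => ((lo 0 ζ : ℝ) : ℂ))) x)
    (C := C / (1 + ‖x‖ ^ 2) ^ 4) (s := Set.Icc (0 : ℝ) 1) (x := 0) (y := t)
    (fun s _ => (flow_deriv hL x s).hasDerivWithinAt) (fun s hs => by
      rw [le_div_iff₀ (by positivity), mul_comm]
      have h1 := h s 0 x (by rw [abs_of_nonneg hs.1]; exact hs.2)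
      simpa using h1) (convex_Icc 0 1) ⟨le_rfl, zero_le_one⟩ ⟨ht0, ht1⟩
  simp only [sub_zero, Real.norm_eq_abs, abs_of_nonneg ht0] at hmv
  rw [tw_zero] at hmv
  have e1 : iF (fun ζ => ((Real.exp (-(4 * Real.pi ^ 2 * t * ‖ζ‖ ^ 2)) - 1 : ℝ) : ℂ) *
      ((lo 0 ζ : ℝ) : ℂ)) x = iF (tw t 0 (fun ζ : ℂ => ((lo 0 ζ : ℝ) : ℂ))) x -
      iF (fun ζ : ℂ => ((lo 0 ζ : ℝ) : ℂ)) x := by
    have tw0 : ∀ ζ, tw t 0 (fun ζ : ℂ => ((lo 0 ζ : ℝ) : ℂ)) ζ =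
        ((Real.exp (-(4 * Real.pi ^ 2 * t * ‖ζ‖ ^ 2)) : ℝ) : ℂ) * ((lo 0 ζ : ℝ) : ℂ) := by
      intro ζ
      unfold tw
      simp
    have hcc : CC (fun ζ => ((Real.exp (-(4 * Real.pi ^ 2 * t * ‖ζ‖ ^ 2)) : ℝ) : ℂ) *
        ((lo 0 ζ : ℝ) : ℂ)) := by
      refine ⟨?_, hL.2.mul_left⟩
      have := hL.1
      fun_prop
    unfold iF
    simp only [tw0]
    rw [← integral_sub (ccMul hcc (continuous_ch x))
      (ccMul hL (continuous_ch x))]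
    congr 1
    ext ζ
    push_cast
    ring
  rw [e1]
  refine hmv.trans (le_of_eq ?_)
  ring

theorem two_four (a : ℤ) : ((2 : ℝ) ^ a) ^ 2 = (4 : ℝ) ^ a := by
  rw [← zpow_natCast, ← zpow_mul, mul_comm, zpow_mul]
  norm_num

/-- the low pass after a short time -/
theorem low_le (hDc : StmtDcy) (hK : StmtKK) (hB : StmtBase) (hF : StmtFac) :
    ∃ C, 0 < C ∧ ∀ (g : ℂ → ℂ) (τ : ℝ) (a : ℤ) (x : ℂ), CC g → 0 ≤ τ → τ * (4 : ℝ) ^ a ≤ 1 →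
      ‖iF (tw τ 0 (cut (lo a) g)) x - iF (cut (lo a) g) x‖ ^ 2 ≤
        C * (τ * (4 : ℝ) ^ a) ^ 2 * ∫ y, KK ((2 : ℝ) ^ (-a)) (x - y) * ‖iF g y‖ ^ 2 := by
  obtain ⟨C, hC, h⟩ := short hDc
  refine ⟨C ^ 2 * Real.pi, by positivity, fun g τ a x hg hτ ha => ?_⟩
  have h4 : (0 : ℝ) < (4 : ℝ) ^ a := by positivity
  have h2 : (0 : ℝ) < (2 : ℝ) ^ a := by positivity
  have ht0 : 0 ≤ τ * (4 : ℝ) ^ a := by positivity
  set t : ℝ := τ * (4 : ℝ) ^ a with ht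
  set φ : ℂ → ℂ := fun ζ => ((Real.exp (-(4 * Real.pi ^ 2 * t * ‖ζ‖ ^ 2)) - 1 : ℝ) : ℂ) *
      ((lo 0 ζ : ℝ) : ℂ) with hφ
  have hφ1 : ContDiff ℝ ∞ φ := by
    have h1 : ContDiff ℝ ∞ (fun ζ : ℂ =>
        (Real.exp (-(4 * Real.pi ^ 2 * t * ‖ζ‖ ^ 2)) - 1 : ℝ)) :=
      ((contDiff_const.mul (contDiff_norm_sq ℝ)).neg.exp).sub contDiff_const
    exact (Complex.ofRealCLM.contDiff.comp h1).mul (lo_smooth 0)
  have hφ2 : HasCompactSupport φ := (lo_supp 0).mul_left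
  have hcut : CC (cut (lo a) g) := (hF.2.2.2.2.1 g a a hg).1
  have e1 : iF (tw τ 0 (cut (lo a) g)) x - iF (cut (lo a) g) x =
      iF (fun ζ => φ (((2 : ℝ) ^ a)⁻¹ • ζ) * g ζ) x := by
    have tw0 : ∀ ζ, tw τ 0 (cut (lo a) g) ζ =
        ((Real.exp (-(4 * Real.pi ^ 2 * τ * ‖ζ‖ ^ 2)) : ℝ) : ℂ) * cut (lo a) g ζ := by
      intro ζ
      unfold tw
      simp
    have hcc : CC (fun ζ => ((Real.exp (-(4 * Real.pi ^ 2 * τ * ‖ζ‖ ^ 2)) : ℝ) : ℂ) *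
        cut (lo a) g ζ) := by
      refine ⟨?_, hcut.2.mul_left⟩
      have := hcut.1
      fun_prop
    unfold iF
    simp only [tw0]
    rw [← integral_sub (ccMul hcc (continuous_ch x))
      (ccMul hcut (continuous_ch x))]
    congr 1
    ext ζ
    have e2 : ‖((2 : ℝ) ^ a)⁻¹ • ζ‖ ^ 2 = ‖ζ‖ ^ 2 / (4 : ℝ) ^ a := by
      rw [norm_smul, norm_inv, Real.norm_eq_abs, abs_of_pos h2, mul_pow, inv_pow, two_four]
      field_simp
    rw [hφ]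
    simp only
    rw [← lo_scale a ζ, e2]
    have e3 : 4 * Real.pi ^ 2 * t * (‖ζ‖ ^ 2 / (4 : ℝ) ^ a) =
        4 * Real.pi ^ 2 * τ * ‖ζ‖ ^ 2 := by
      rw [ht]; field_simp
    rw [e3]
    unfold cut
    push_cast
    ring
  rw [e1, ker_filter hφ1 hφ2 h2 hg x]
  have hkb : ∀ z, ‖(((2 : ℝ) ^ a) ^ 2 : ℝ) * iF φ (((2 : ℝ) ^ a : ℝ) * z)‖ ≤
      (t * C) * KK ((2 : ℝ) ^ (-a)) z := by
    intro z
    have h5 := h t (((2 : ℝ) ^ a : ℝ) * z) ht0 ha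
    have h6 : (2 : ℝ) ^ (-a) = ((2 : ℝ) ^ a)⁻¹ := zpow_neg _ _
    rw [norm_mul, Complex.norm_real, Real.norm_eq_abs, abs_of_nonneg (by positivity), h6]
    rw [norm_mul, Complex.norm_real, Real.norm_eq_abs, abs_of_pos h2] at h5
    set s := (2 : ℝ) ^ a with hs
    have h7 : t * C / (1 + (s * ‖z‖) ^ 2) ^ 4 ≤ t * C / (1 + (s * ‖z‖) ^ 2) ^ 2 := by
      apply div_le_div_of_nonneg_left (by positivity) (by positivity)
      apply pow_le_pow_right₀ _ (by norm_num)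
      nlinarith [sq_nonneg (s * ‖z‖)]
    have h8 : t * C * KK s⁻¹ z = s ^ 2 * (t * C / (1 + (s * ‖z‖) ^ 2) ^ 2) := by
      unfold KK
      have : 0 < s⁻¹ ^ 2 + ‖z‖ ^ 2 := by positivity
      have h9 : s⁻¹ ^ 2 + ‖z‖ ^ 2 = (1 + (s * ‖z‖) ^ 2) / s ^ 2 := by
        field_simp
      rw [h9]
      field_simp
    rw [h8]
    exact mul_le_mul_of_nonneg_left (h5.trans h7) (by positivity)
  have hfin := dom_kk hK hB (C := t * C) (ρ := (2 : ℝ) ^ (-a)) (by positivity)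
    (fun z => (((2 : ℝ) ^ a) ^ 2 : ℝ) * iF φ (((2 : ℝ) ^ a : ℝ) * z)) hkb hg x
  refine hfin.trans (le_of_eq ?_)
  ring

end DomHAux

open DomHAux

/-- (DomH) -/
theorem domH (hD : Even.StmtDomF) (hDc : StmtDcy) (hKK : Four.StmtKK) (hB : Four.StmtBase)
    (hF : Four.StmtFac) : StmtDomH := by
  obtain ⟨C₁, hC₁, hD⟩ := hD
  obtain ⟨C₂, hC₂, hL⟩ := low_le hDc hKK hB hF
  have hpi := Real.pi_pos
  have hpi3 := Real.pi_gt_three
  refine ⟨Real.pi * C₁ + C₂, by positivity, fun g M τ x hg hM hτ => ?_⟩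
  obtain ⟨d1, d2, d3, d4⟩ := hD g M hg hM x
  have hM0 : 0 ≤ M x := hM.2.1 x
  have k1 : C₁ * M x ≤ (Real.pi * C₁ + C₂) * M x := by
    apply mul_le_mul_of_nonneg_right _ hM0
    nlinarith
  have k2 : Real.pi * (C₁ * M x) ≤ (Real.pi * C₁ + C₂) * M x := by
    rw [← mul_assoc]
    apply mul_le_mul_of_nonneg_right _ hM0
    linarith
  have key : ∀ h : ℂ → ℂ, CC h → ‖iF h x‖ ^ 2 ≤ C₁ * M x →
      (∀ σ : ℝ, 0 < σ → ∫ y, KK σ (x - y) * ‖iF h y‖ ^ 2 ≤ C₁ * M x) →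
      ‖iF (tw τ 0 h) x‖ ^ 2 ≤ (Real.pi * C₁ + C₂) * M x := by
    intro h hh h0 hav
    rcases hτ.eq_or_lt with rfl | hτ0
    · rw [tw_zero]
      exact h0.trans k1
    · have hr : 0 < Real.sqrt (4 * Real.pi * τ) := Real.sqrt_pos.mpr (by positivity)
      exact (heat_le hKK hB hτ0 hh x).trans
        ((mul_le_mul_of_nonneg_left (hav _ hr) hpi.le).trans k2)
  refine ⟨?_, fun a => ?_, fun a b => ?_, fun a ha => ?_, fun a => ?_⟩
  · exact key g hg d1 fun σ hσ => (d4 σ hσ).1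
  · exact key _ (hF.2.2.2.2.1 g a a hg).1 (d2 a) fun σ hσ => (d4 σ hσ).2.1 a
  · exact key _ (hF.2.2.2.2.1 g a b hg).2.1 (d3 a b) fun σ hσ => (d4 σ hσ).2.2 a b
  · refine (hL g τ a x hg hτ ha).trans ?_
    have h1 : ∫ y, KK ((2 : ℝ) ^ (-a)) (x - y) * ‖iF g y‖ ^ 2 ≤ M x := hM.2.2 a x
    have h2 : 0 ≤ (τ * (4 : ℝ) ^ a) ^ 2 := by positivity
    calc C₂ * (τ * (4 : ℝ) ^ a) ^ 2 * ∫ y, KK ((2 : ℝ) ^ (-a)) (x - y) * ‖iF g y‖ ^ 2
        ≤ C₂ * (τ * (4 : ℝ) ^ a) ^ 2 * M x := mul_le_mul_of_nonneg_left h1 (by positivity)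
      _ ≤ (Real.pi * C₁ + C₂) * (τ * (4 : ℝ) ^ a) ^ 2 * M x := by
        apply mul_le_mul_of_nonneg_right _ hM0
        apply mul_le_mul_of_nonneg_right _ h2
        have : 0 ≤ Real.pi * C₁ := by positivity
        linarith
  · exact ((d4 _ (by positivity : (0 : ℝ) < (2 : ℝ) ^ (-a))).2.2 a (a + 1)).trans k1

end Pool.Agent.Lib.MP_dd244f_an.Rp
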