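import Pool.Agent.Lib.MP_dd244f_an.Rp.Stmts

/-!
Full operator, all real `p`: module (E1), the local energy inequality.
-/

set_option autoImplicit false

namespace Pool.Agent.Lib.MP_dd244f_an.Rp

open MeasureTheory Filter Topology Finset
open Pool.Agent.Lib.MP_dd244f_an.Joint (st ct Mst ratio)
open Pool.Agent.Lib.MP_dd244f_an.Four
open Pool.Agent.Lib.MP_dd244f_an.Even
open Pool.Agent.Lib.MP_dd244f_an.Unif (SC)
open scoped SchwartzMap ENNReal NNReal ContDiff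

namespace E1

lemma nsq (z : ℂ) : ‖z‖ ^ 2 = z.re ^ 2 + z.im ^ 2 := by
  rw [← Complex.normSq_eq_norm_sq, Complex.normSq_apply]
  ring

/-- the Gaussian window is the heat flow with a complex shift -/
lemma gs_eq (σ : ℝ) (ξ : ℂ) (g : ℂ → ℂ) (ζ : ℂ) :
    gs σ ξ g ζ = ((Real.exp (-(Real.pi * σ ^ 2 * ‖ξ‖ ^ 2)) : ℝ) : ℂ) *
      tw (σ ^ 2 / (4 * Real.pi)) (-((σ ^ 2 : ℝ) : ℂ) * ξ) g ζ := by
  have hpi : Real.pi ≠ 0 := Real.pi_ne_zero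
  unfold gs tw
  rw [← mul_assoc, ← Complex.ofReal_mul, ← Real.exp_add]
  congr 2
  congr 1
  rw [nsq, nsq ξ, nsq ζ]
  have e1 : (-((σ ^ 2 : ℝ) : ℂ) * ξ).re = -(σ ^ 2 * ξ.re) := by
    rw [← Complex.ofReal_neg, Complex.re_ofReal_mul]
    ring
  have e2 : (-((σ ^ 2 : ℝ) : ℂ) * ξ).im = -(σ ^ 2 * ξ.im) := by
    rw [← Complex.ofReal_neg, Complex.im_ofReal_mul]
    ring
  rw [e1, e2, Complex.sub_re, Complex.sub_im]
  field_simp
  ring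

lemma iF_smul (c : ℂ) (g : ℂ → ℂ) (x : ℂ) : iF (fun ζ => c * g ζ) x = c * iF g x := by
  unfold iF
  rw [← integral_const_mul]
  refine integral_congr_ae (Eventually.of_forall fun ζ => ?_)
  simp only
  ring

lemma nw_eq (p σ : ℝ) (g : ℂ → ℂ) (ξ : ℂ) :
    Nw p σ ξ g = Real.exp (-(Real.pi * p * σ ^ 2 * ‖ξ‖ ^ 2)) *
      Psi p g (σ ^ 2 / (4 * Real.pi)) (-((σ ^ 2 : ℝ) : ℂ) * ξ) := by
  have h1 : gs σ ξ g = fun ζ => ((Real.exp (-(Real.pi * σ ^ 2 * ‖ξ‖ ^ 2)) : ℝ) : ℂ) *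
      tw (σ ^ 2 / (4 * Real.pi)) (-((σ ^ 2 : ℝ) : ℂ) * ξ) g ζ := by
    funext ζ
    exact gs_eq σ ξ g ζ
  unfold Nw Psi Np
  rw [h1, ← integral_const_mul]
  refine integral_congr_ae (Eventually.of_forall fun x => ?_)
  simp only
  rw [iF_smul, norm_mul, Complex.norm_real, Real.norm_eq_abs, abs_of_pos (Real.exp_pos _),
    Real.mul_rpow (Real.exp_pos _).le (norm_nonneg _), ← Real.exp_mul]
  congr 2
  ring

lemma hk_eq {p σ : ℝ} (hp : 2 < p) (hσ : 0 < σ) (ξ : ℂ) :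
    hk (σ ^ 2 / (4 * Real.pi) / p) (-((σ ^ 2 : ℝ) : ℂ) * ξ)
      = p / σ ^ 2 * Real.exp (-(Real.pi * p * σ ^ 2 * ‖ξ‖ ^ 2)) := by
  have hpi : 0 < Real.pi := Real.pi_pos
  have hp0 : 0 < p := by linarith
  unfold hk
  rw [norm_mul, norm_neg, Complex.norm_real, Real.norm_eq_abs, abs_of_pos (by positivity)]
  have e1 : (σ ^ 2 * ‖ξ‖) ^ 2 / (4 * (σ ^ 2 / (4 * Real.pi) / p))
      = Real.pi * p * σ ^ 2 * ‖ξ‖ ^ 2 := by
    field_simp
  have e2 : 4 * Real.pi * (σ ^ 2 / (4 * Real.pi) / p) = σ ^ 2 / p := by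
    field_simp
  rw [e1, e2]
  field_simp

lemma aux1 {p t : ℝ} (hp : p ≠ 0) (ht : t ≠ 0) (E A : ℝ) :
    E * A = t / p * (A * (p / t * E)) := by
  field_simp

lemma aux2 (σ : ℝ) : |((-(σ ^ 2)) ^ 2)⁻¹| = ((σ ^ 2) ^ 2)⁻¹ := by
  rw [neg_sq, abs_of_nonneg (by positivity)]

lemma aux3 {p t : ℝ} (hp : p ≠ 0) (ht : t ≠ 0) (A : ℝ) :
    p * t * (t / p * ((t ^ 2)⁻¹ * A)) = A := by
  field_simp

end E1

/-- (E1) the local energy inequality -/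
theorem e1 (hM : StmtMono) (hP : StmtPsi) : StmtE1 := by
  intro p σ g hp hσ hg
  have hp0 : 0 < p := by linarith
  have hσ2 : 0 < σ ^ 2 := by positivity
  obtain ⟨hM1, -, -, hM4⟩ := hM p g hp hg
  obtain ⟨-, -, -, hPc, -⟩ := hP p g hp hg
  have hnw := fun ξ => E1.nw_eq p σ g ξ
  have hhk := fun ξ => E1.hk_eq hp hσ ξ
  have hs : 0 < σ ^ 2 / (4 * Real.pi) := by positivity
  refine ⟨hnw, ?_⟩
  generalize σ ^ 2 / (4 * Real.pi) = s at hnw hhk hs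
  have hv : 0 < s / p := div_pos hs hp0
  have hPs : Continuous fun y : ℂ => Psi p g s y := by
    have h0 : Continuous fun y : ℂ => ((s, y) : ℝ × ℂ) := by fun_prop
    have h1 := hPc.comp h0
    simp only [Function.comp_def] at h1
    exact h1
  have hI := (hM1 s (s / p) hv).1
  have hJ := hM4 s hs
  clear hM1 hM4 hPc
  generalize Psi p g s = P at hnw hPs hI hJ
  have key : ∀ ξ : ℂ, Nw p σ ξ g
      = σ ^ 2 / p * ((fun y => P y * hk (s / p) y) ((-(σ ^ 2) : ℝ) • ξ)) := by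
    intro ξ
    have hsm : ((-(σ ^ 2) : ℝ) • ξ) = -((σ ^ 2 : ℝ) : ℂ) * ξ := by
      rw [Complex.real_smul, Complex.ofReal_neg]
    show Nw p σ ξ g = σ ^ 2 / p * (P ((-(σ ^ 2) : ℝ) • ξ) * hk (s / p) ((-(σ ^ 2) : ℝ) • ξ))
    rw [hsm, hnw ξ, hhk ξ]
    exact E1.aux1 hp0.ne' hσ2.ne' _ _
  have hfun : (fun ξ => Nw p σ ξ g)
      = fun ξ => σ ^ 2 / p * ((fun y => P y * hk (s / p) y) ((-(σ ^ 2) : ℝ) • ξ)) := by
    funext ξ
    exact key ξ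
  have hr : (-(σ ^ 2) : ℝ) ≠ 0 := neg_ne_zero.mpr hσ2.ne'
  refine ⟨?_, ?_, ?_⟩
  · have h1 : (fun ξ => Nw p σ ξ g) = fun ξ : ℂ =>
        Real.exp (-(Real.pi * p * σ ^ 2 * ‖ξ‖ ^ 2)) * P (-((σ ^ 2 : ℝ) : ℂ) * ξ) := by
      funext ξ
      exact hnw ξ
    rw [h1]
    have h2 : Continuous fun ξ : ℂ => P (-((σ ^ 2 : ℝ) : ℂ) * ξ) :=
      hPs.comp (continuous_const.mul continuous_id)
    have h3 : Continuous fun ξ : ℂ => Real.exp (-(Real.pi * p * σ ^ 2 * ‖ξ‖ ^ 2)) := by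
      fun_prop
    exact h3.mul h2
  · rw [hfun]
    refine Integrable.const_mul ?_ _
    exact (integrable_comp_smul_iff volume (fun y => P y * hk (s / p) y) hr).2 hI
  · rw [hfun, integral_const_mul, Measure.integral_comp_smul volume
      (fun y => P y * hk (s / p) y) (-(σ ^ 2) : ℝ), Complex.finrank_real_complex, smul_eq_mul]
    rw [E1.aux2 σ, E1.aux3 hp0.ne' hσ2.ne']
    exact hJ

end Pool.Agent.Lib.MP_dd244f_an.Rp
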