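import Pool.Agent.Lib.MP_dd244f_an.Rp.Stmts
import Pool.Agent.Lib.MP_dd244f_an.Four.L2

/-!
Full operator, all real `p`: module E1S (the local energy inequality for Schwartz functions).
-/

set_option autoImplicit false

namespace Pool.Agent.Lib.MP_dd244f_an.Rp

open MeasureTheory Filter Topology Finset
open Pool.Agent.Lib.MP_dd244f_an.Joint (st ct Mst ratio)
open Pool.Agent.Lib.MP_dd244f_an.Four
open Pool.Agent.Lib.MP_dd244f_an.Even
open Pool.Agent.Lib.MP_dd244f_an.Unif (SC)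
open scoped SchwartzMap ENNReal NNReal ContDiff

namespace E1SAux

/-- Fourier transform of a Gaussian -/
theorem gauss_ft {σ : ℝ} (hσ : 0 < σ) (w : ℂ) :
    ∫ u : ℂ, ((Real.exp (-(Real.pi * ‖u‖ ^ 2 / σ ^ 2)) : ℝ) : ℂ) * ch u w
      = ((σ ^ 2 * Real.exp (-(Real.pi * σ ^ 2 * ‖w‖ ^ 2)) : ℝ) : ℂ) := by
  have hb : 0 < ((Real.pi / σ ^ 2 : ℝ) : ℂ).re := by
    rw [Complex.ofReal_re]; positivity
  have h := GaussianFourier.integral_cexp_neg_mul_sq_norm_add (V := ℂ) hb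
    (2 * (Real.pi : ℂ) * Complex.I) w
  have e : ∀ u : ℂ, ((Real.exp (-(Real.pi * ‖u‖ ^ 2 / σ ^ 2)) : ℝ) : ℂ) * ch u w
      = Complex.exp (-((Real.pi / σ ^ 2 : ℝ) : ℂ) * (‖u‖ : ℂ) ^ 2
        + 2 * (Real.pi : ℂ) * Complex.I * ((inner ℝ w u : ℝ) : ℂ)) := by
    intro u
    unfold ch
    rw [Complex.ofReal_exp, ← Complex.exp_add]
    have h1 : (inner ℝ w u : ℝ) = u.re * w.re + u.im * w.im := by
      rw [Complex.inner]
      simp [Complex.mul_re]
    rw [h1]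
    congr 1
    push_cast
    ring
  simp_rw [e]
  rw [h, Complex.finrank_real_complex]
  have hs : (σ : ℂ) ≠ 0 := by exact_mod_cast hσ.ne'
  have hp : (Real.pi : ℂ) ≠ 0 := by exact_mod_cast Real.pi_ne_zero
  have e1 : (((2 : ℕ) : ℂ) / 2) = 1 := by norm_num
  rw [e1, Complex.cpow_one]
  push_cast
  congr 1
  · field_simp
  · congr 1
    rw [mul_pow, mul_pow, Complex.I_sq]
    field_simp
    ring

theorem gauss_int {σ : ℝ} (hσ : 0 < σ) (x : ℂ) :
    Integrable (fun t : ℂ => Real.exp (-(Real.pi * ‖t - x‖ ^ 2 / σ ^ 2))) := by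
  have hb : 0 < Real.pi / σ ^ 2 := by positivity
  have h1 := GaussianFourier.integral_rexp_neg_mul_sq_norm (V := ℂ) hb
  have h2 : Integrable (fun z : ℂ => Real.exp (-(Real.pi / σ ^ 2) * ‖z‖ ^ 2)) := by
    by_contra hcon
    rw [integral_undef hcon] at h1
    have : (Real.pi / (Real.pi / σ ^ 2)) ^ (Module.finrank ℝ ℂ / 2 : ℝ) > 0 :=
      Real.rpow_pos_of_pos (by positivity) _
    linarith
  refine (h2.comp_sub_right x).congr (Eventually.of_forall fun t => ?_)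
  show Real.exp (-(Real.pi / σ ^ 2) * ‖t - x‖ ^ 2) = _
  congr 1
  ring

/-- the windowed transform -/
theorem window {σ : ℝ} (hσ : 0 < σ) {γ : ℂ → ℂ} (hc : Continuous γ) (hi : Integrable γ)
    (x ξ : ℂ) :
    ∫ t, iF γ t * ((Real.exp (-(Real.pi * ‖t - x‖ ^ 2 / σ ^ 2)) : ℝ) : ℂ) * ch (-t) ξ
      = ch (-x) ξ * ((σ ^ 2 : ℝ) : ℂ) * iF (gs σ ξ γ) x := by
  have h1 : ∀ t, iF γ t * ((Real.exp (-(Real.pi * ‖t - x‖ ^ 2 / σ ^ 2)) : ℝ) : ℂ) * ch (-t) ξ
      = ∫ ζ, ch t ζ * γ ζ * ((Real.exp (-(Real.pi * ‖t - x‖ ^ 2 / σ ^ 2)) : ℝ) : ℂ)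
        * ch (-t) ξ := by
    intro t
    unfold iF
    rw [← integral_mul_const, ← integral_mul_const]
  simp_rw [h1]
  have hc2 : Continuous (fun z : ℂ × ℂ => ch z.1 z.2) := continuous_ch2
  have hint : Integrable (Function.uncurry fun (t ζ : ℂ) =>
      ch t ζ * γ ζ * ((Real.exp (-(Real.pi * ‖t - x‖ ^ 2 / σ ^ 2)) : ℝ) : ℂ) * ch (-t) ξ)
      (volume.prod volume) := by
    have h2 := (gauss_int hσ x).norm.mul_prod hi.norm
    refine h2.mono' ?_ (Eventually.of_forall fun z => ?_)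
    · refine Continuous.aestronglyMeasurable ?_
      unfold Function.uncurry
      have h3 : Continuous (fun z : ℂ × ℂ => ch (-z.1) ξ) :=
        hc2.comp ((continuous_fst.neg).prodMk continuous_const)
      fun_prop
    · unfold Function.uncurry
      rw [norm_mul, norm_mul, norm_mul, norm_ch, norm_ch, Complex.norm_real]
      apply le_of_eq
      ring
  rw [integral_integral_swap hint]
  have h4 : ∀ ζ, ∫ t, ch t ζ * γ ζ * ((Real.exp (-(Real.pi * ‖t - x‖ ^ 2 / σ ^ 2)) : ℝ) : ℂ)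
      * ch (-t) ξ = ch (-x) ξ * ((σ ^ 2 : ℝ) : ℂ) * (ch x ζ * gs σ ξ γ ζ) := by
    intro ζ
    rw [← integral_add_right_eq_self _ x]
    have h5 : ∀ t, ch (t + x) ζ * γ ζ
        * ((Real.exp (-(Real.pi * ‖t + x - x‖ ^ 2 / σ ^ 2)) : ℝ) : ℂ) * ch (-(t + x)) ξ
        = (ch x ζ * γ ζ * ch (-x) ξ) *
          (((Real.exp (-(Real.pi * ‖t‖ ^ 2 / σ ^ 2)) : ℝ) : ℂ) * ch t (ζ - ξ)) := by
      intro t
      rw [neg_add, ch_add, ch_add, sub_eq_add_neg ζ ξ, ch_add_right, ch_neg_left t,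
        add_sub_cancel_right]
      ring
    simp_rw [h5]
    rw [integral_const_mul, gauss_ft hσ]
    unfold gs
    push_cast
    ring
  simp_rw [h4]
  rw [integral_const_mul]
  rfl

/-- joint continuity of the windowed function -/
theorem cont_win (σ : ℝ) {γ : ℂ → ℂ} (hc : Continuous γ) (hi : Integrable γ) :
    Continuous (fun z : ℂ × ℂ => iF (gs σ z.2 γ) z.1) := by
  unfold iF gs
  refine continuous_of_dominated (bound := fun ζ => ‖γ ζ‖) (fun z => ?_) (fun z => ?_) hi.norm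
    (Eventually.of_forall fun ζ => ?_)
  · refine Continuous.aestronglyMeasurable ?_
    have h1 := continuous_ch z.1
    fun_prop
  · refine Eventually.of_forall fun ζ => ?_
    rw [norm_mul, norm_mul, norm_ch, one_mul, Complex.norm_real, Real.norm_of_nonneg (by positivity)]
    refine mul_le_of_le_one_left (norm_nonneg _) (Real.exp_le_one_iff.2 ?_)
    have := Real.pi_pos
    rw [neg_nonpos]
    positivity
  · have h1 : Continuous (fun z : ℂ × ℂ => ch z.1 ζ) :=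
      continuous_ch2.comp (continuous_fst.prodMk continuous_const)
    fun_prop

/-- the inequality for nice functions -/
theorem sc_case (hE : StmtE1) (hS : StmtSch) {p σ : ℝ} (hp : 2 < p) (hσ : 0 < σ) {g : ℂ → ℂ}
    (hg : SC g) :
    ∫⁻ z : ℂ × ℂ, ‖iF (gs σ z.2 g) z.1‖ₑ ^ p ∂(volume.prod volume)
      ≤ ENNReal.ofReal (1 / (p * σ ^ 2)) * ∫⁻ t, ‖iF g t‖ₑ ^ p := by
  obtain ⟨_, _, hint, hle⟩ := hE p σ g hp hσ hg
  have hcc := hS.1 g hg
  have hi : Integrable g := hcc.1.integrable_of_hasCompactSupport hcc.2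
  have hcont := cont_win σ hcc.1 hi
  have hmeas : Measurable (fun z : ℂ × ℂ => ‖iF (gs σ z.2 g) z.1‖ₑ ^ p) :=
    (hcont.enorm.measurable).pow_const p
  have hcv : ∀ g', SC g' → ∫⁻ x, ‖iF g' x‖ₑ ^ p = ENNReal.ofReal (Np p g') := by
    intro g' hg'
    unfold Np
    rw [ofReal_integral_eq_lintegral_ofReal (hS.2.2.2.2.1 g' p (by linarith) hg')
      (Eventually.of_forall fun x => by positivity)]
    refine lintegral_congr fun x => ?_
    rw [← ENNReal.ofReal_rpow_of_nonneg (norm_nonneg _) (by linarith), ofReal_norm]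
  rw [lintegral_prod_symm' _ hmeas]
  have h1 : ∀ ξ, ∫⁻ x, ‖iF (gs σ ξ g) x‖ₑ ^ p = ENNReal.ofReal (Nw p σ ξ g) := by
    intro ξ
    exact hcv _ ((hS.2.2.2.2.2 g hg).2.2.1 σ ξ)
  simp_rw [h1]
  rw [hcv g hg, ← ofReal_integral_eq_lintegral_ofReal hint, ← ENNReal.ofReal_mul (by positivity)]
  · refine ENNReal.ofReal_le_ofReal ?_
    have : 0 < p * σ ^ 2 := by positivity
    rw [div_mul_eq_mul_div, one_mul, le_div_iff₀ this]
    linarith
  · refine Eventually.of_forall fun ξ => ?_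
    show 0 ≤ Nw p σ ξ g
    unfold Nw Np
    exact integral_nonneg fun x => by positivity

/-- smooth cutoffs -/
noncomputable def bp (j : ℕ) : ContDiffBump (0 : ℂ) where
  rIn := j + 1
  rOut := j + 2
  rIn_pos := by positivity
  rIn_lt_rOut := by linarith

/-- the truncated function -/
noncomputable def tr (γ : ℂ → ℂ) (j : ℕ) (ζ : ℂ) : ℂ := ((bp j ζ : ℝ) : ℂ) * γ ζ

theorem tr_sc (γ : 𝓢(ℂ, ℂ)) (j : ℕ) : SC (tr γ j) := by
  refine ⟨?_, ?_⟩
  · exact (Complex.ofRealCLM.contDiff.comp (bp j).contDiff).mul γ.smooth'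
  · have h1 : HasCompactSupport (fun ζ => (((bp j) ζ : ℝ) : ℂ)) :=
      (bp j).hasCompactSupport.comp_left (g := fun r : ℝ => (r : ℂ)) Complex.ofReal_zero
    exact h1.mul_right

theorem tr_norm_le (γ : ℂ → ℂ) (j : ℕ) (ζ : ℂ) : ‖tr γ j ζ‖ ≤ ‖γ ζ‖ := by
  unfold tr
  rw [norm_mul, Complex.norm_real, Real.norm_of_nonneg (bp j).nonneg]
  exact mul_le_of_le_one_left (norm_nonneg _) (bp j).le_one

theorem tr_sub_norm_le (γ : ℂ → ℂ) (j : ℕ) (ζ : ℂ) : ‖tr γ j ζ - γ ζ‖ ≤ ‖γ ζ‖ := by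
  unfold tr
  have h1 : (((bp j) ζ : ℝ) : ℂ) * γ ζ - γ ζ = (((bp j) ζ - 1 : ℝ) : ℂ) * γ ζ := by
    push_cast; ring
  rw [h1, norm_mul, Complex.norm_real, Real.norm_eq_abs, abs_sub_comm,
    abs_of_nonneg (sub_nonneg.2 (bp j).le_one)]
  exact mul_le_of_le_one_left (norm_nonneg _) (by linarith [(bp j).nonneg (x := ζ)])

theorem tr_eq (γ : ℂ → ℂ) (ζ : ℂ) : ∀ᶠ j : ℕ in atTop, tr γ j ζ = γ ζ := by
  obtain ⟨n, hn⟩ := exists_nat_ge ‖ζ‖
  filter_upwards [eventually_ge_atTop n] with j hj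
  unfold tr
  have h1 : (bp j) ζ = 1 := by
    refine (bp j).one_of_mem_closedBall ?_
    rw [mem_closedBall_zero_iff]
    show ‖ζ‖ ≤ (j : ℝ) + 1
    have : (n : ℝ) ≤ j := by exact_mod_cast hj
    linarith
  rw [h1, Complex.ofReal_one, one_mul]

theorem ch_int {g : ℂ → ℂ} (hg : Integrable g) (x : ℂ) : Integrable (fun ζ => ch x ζ * g ζ) :=
  hg.bdd_mul (c := 1) (continuous_ch x).aestronglyMeasurable
    (Eventually.of_forall fun ζ => (norm_ch x ζ).le)

theorem iF_add {g h : ℂ → ℂ} (hg : Integrable g) (hh : Integrable h) (x : ℂ) :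
    iF (fun ζ => g ζ + h ζ) x = iF g x + iF h x := by
  unfold iF
  rw [← integral_add (ch_int hg x) (ch_int hh x)]
  congr 1
  ext ζ
  ring

/-- the truncations converge in the norm -/
theorem lim_norm (γ : 𝓢(ℂ, ℂ)) {p : ℝ} (hp : 2 < p) :
    ∃ e : ℕ → ℝ≥0∞, Tendsto e atTop (𝓝 0) ∧ ∀ j,
      (∫⁻ x, ‖iF (tr γ j) x‖ₑ ^ p) ≤ ((∫⁻ x, ‖iF γ x‖ₑ ^ p) ^ (1 / p) + e j) ^ p := by
  have hi : Integrable (γ : ℂ → ℂ) := γ.integrable
  have hm : MemLp (γ : ℂ → ℂ) 2 volume := γ.memLp 2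
  have hi2 : Integrable (fun ζ => ‖γ ζ‖ ^ 2) := (memLp_two_iff_integrable_sq_norm hm.1).1 hm
  have hcc : ∀ j, Continuous (tr γ j) ∧ HasCompactSupport (tr γ j) :=
    fun j => ⟨(tr_sc γ j).1.continuous, (tr_sc γ j).2⟩
  have hti : ∀ j, Integrable (tr γ j) :=
    fun j => (hcc j).1.integrable_of_hasCompactSupport (hcc j).2
  have htm : ∀ j, MemLp (tr γ j) 2 volume :=
    fun j => (hcc j).1.memLp_of_hasCompactSupport (hcc j).2
  set D : ℕ → ℂ → ℂ := fun j ζ => tr γ j ζ - γ ζ with hD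
  have hDi : ∀ j, Integrable (D j) := fun j => (hti j).sub hi
  have hDm : ∀ j, MemLp (D j) 2 volume := fun j => (htm j).sub hm
  set a : ℕ → ℝ := fun j => ∫ ζ, ‖D j ζ‖ with ha
  set b : ℕ → ℝ := fun j => ∫ ζ, ‖D j ζ‖ ^ 2 with hb
  have hat : Tendsto a atTop (𝓝 0) := by
    have h1 := tendsto_integral_of_dominated_convergence (μ := volume)
      (F := fun j ζ => ‖D j ζ‖) (f := fun _ => (0 : ℝ)) (fun ζ => ‖γ ζ‖)
      (fun j => (hDi j).norm.1) hi.norm
      (fun j => Eventually.of_forall fun ζ => by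
        rw [norm_norm]; exact tr_sub_norm_le γ j ζ)
      (Eventually.of_forall fun ζ => by
        refine tendsto_const_nhds.congr' ?_
        filter_upwards [tr_eq γ ζ] with j hj
        simp only [hD, hj, sub_self, norm_zero])
    simpa using h1
  have hbt : Tendsto b atTop (𝓝 0) := by
    have h1 := tendsto_integral_of_dominated_convergence (μ := volume)
      (F := fun j ζ => ‖D j ζ‖ ^ 2) (f := fun _ => (0 : ℝ)) (fun ζ => ‖γ ζ‖ ^ 2)
      (fun j => (hDi j).norm.1.pow 2) hi2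
      (fun j => Eventually.of_forall fun ζ => by
        rw [norm_pow, norm_norm]
        exact pow_le_pow_left₀ (norm_nonneg _) (tr_sub_norm_le γ j ζ) 2)
      (Eventually.of_forall fun ζ => by
        refine tendsto_const_nhds.congr' ?_
        filter_upwards [tr_eq γ ζ] with j hj
        simp only [hD, hj, sub_self, norm_zero]
        norm_num)
    simpa using h1
  have ha0 : ∀ j, 0 ≤ a j := fun j => integral_nonneg fun ζ => norm_nonneg _
  have hb0 : ∀ j, 0 ≤ b j := fun j => integral_nonneg fun ζ => by positivity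
  have hp0 : 0 < p := by linarith
  refine ⟨fun j => ENNReal.ofReal (a j ^ (p - 2) * b j) ^ (1 / p), ?_, fun j => ?_⟩
  · have h1 : Tendsto (fun j => a j ^ (p - 2) * b j) atTop (𝓝 0) := by
      have h2 := (hat.rpow_const (p := p - 2) (Or.inr (by linarith))).mul hbt
      simpa using h2
    have h2 := (ENNReal.tendsto_ofReal h1).ennrpow_const (1 / p)
    simpa [ENNReal.zero_rpow_of_pos (inv_pos.2 hp0)] using h2
  · have h1 : ∀ x, iF (tr γ j) x = iF γ x + iF (D j) x := by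
      intro x
      rw [← iF_add hi (hDi j)]
      congr 1
      ext ζ
      simp only [hD]
      ring
    have hDp : ∫⁻ x, ‖iF (D j) x‖ₑ ^ p ≤ ENNReal.ofReal (a j ^ (p - 2) * b j) := by
      obtain ⟨h2, h3⟩ := l2 (D j) (hDi j) (hDm j)
      have h4 : ∀ x, ‖iF (D j) x‖ₑ ^ p
          ≤ ENNReal.ofReal (a j ^ (p - 2) * ‖iF (D j) x‖ ^ 2) := by
        intro x
        rw [← ofReal_norm, ENNReal.ofReal_rpow_of_nonneg (norm_nonneg _) hp0.le]
        refine ENNReal.ofReal_le_ofReal ?_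
        have h5 : ‖iF (D j) x‖ ^ p = ‖iF (D j) x‖ ^ (p - 2) * ‖iF (D j) x‖ ^ 2 := by
          rw [← Real.rpow_natCast, ← Real.rpow_add_of_nonneg (norm_nonneg _) (by linarith)
            (by positivity)]
          congr 1
          push_cast
          ring
        rw [h5]
        exact mul_le_mul_of_nonneg_right (Real.rpow_le_rpow (norm_nonneg _) (norm_iF_le _ x)
          (by linarith)) (by positivity)
      refine (lintegral_mono h4).trans ?_
      rw [← ofReal_integral_eq_lintegral_ofReal, integral_const_mul, h3]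
      · exact ((memLp_two_iff_integrable_sq_norm h2.1).1 h2).const_mul _
      · exact Eventually.of_forall fun x => mul_nonneg (Real.rpow_nonneg (ha0 j) _) (by positivity)
    have hm1 : AEMeasurable (fun x => ‖iF γ x‖ₑ) :=
      (iF_continuous hi).enorm.measurable.aemeasurable
    have hm2 : AEMeasurable (fun x => ‖iF (D j) x‖ₑ) :=
      (iF_continuous (hDi j)).enorm.measurable.aemeasurable
    have h6 := ENNReal.lintegral_Lp_add_le hm1 hm2 (by linarith : 1 ≤ p)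
    have h7 : ∫⁻ x, ‖iF (tr γ j) x‖ₑ ^ p
        ≤ ∫⁻ x, ((fun x => ‖iF γ x‖ₑ) + fun x => ‖iF (D j) x‖ₑ) x ^ p := by
      refine lintegral_mono fun x => ?_
      refine ENNReal.rpow_le_rpow ?_ hp0.le
      rw [h1 x]
      exact enorm_add_le _ _
    have h8 : (∫⁻ x, ((fun x => ‖iF γ x‖ₑ) + fun x => ‖iF (D j) x‖ₑ) x ^ p)
        = ((∫⁻ x, ((fun x => ‖iF γ x‖ₑ) + fun x => ‖iF (D j) x‖ₑ) x ^ p) ^ (1 / p)) ^ p := by
      rw [← ENNReal.rpow_mul, one_div_mul_cancel hp0.ne', ENNReal.rpow_one]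
    refine h7.trans (h8.le.trans (ENNReal.rpow_le_rpow (h6.trans ?_) hp0.le))
    exact add_le_add le_rfl (ENNReal.rpow_le_rpow hDp (by positivity))

/-- the inequality for the Fourier transform of a Schwartz function -/
theorem limit (hE : StmtE1) (hS : StmtSch) {p σ : ℝ} (hp : 2 < p) (hσ : 0 < σ) (γ : 𝓢(ℂ, ℂ)) :
    ∫⁻ z : ℂ × ℂ, ‖iF (gs σ z.2 γ) z.1‖ₑ ^ p ∂(volume.prod volume)
      ≤ ENNReal.ofReal (1 / (p * σ ^ 2)) * ∫⁻ t, ‖iF γ t‖ₑ ^ p := by
  have hi : Integrable (γ : ℂ → ℂ) := γ.integrable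
  have hp0 : 0 < p := by linarith
  have hpt : ∀ z : ℂ × ℂ, Tendsto (fun j => ‖iF (gs σ z.2 (tr γ j)) z.1‖ₑ ^ p) atTop
      (𝓝 (‖iF (gs σ z.2 γ) z.1‖ₑ ^ p)) := by
    intro z
    have h3 : Tendsto (fun j => iF (gs σ z.2 (tr γ j)) z.1) atTop (𝓝 (iF (gs σ z.2 γ) z.1)) := by
      unfold iF gs
      refine tendsto_integral_of_dominated_convergence (fun ζ => ‖γ ζ‖) (fun j => ?_) hi.norm
        (fun j => Eventually.of_forall fun ζ => ?_) (Eventually.of_forall fun ζ => ?_)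
      · refine Continuous.aestronglyMeasurable ?_
        have h4 := continuous_ch z.1
        have h5 := (tr_sc γ j).1.continuous
        fun_prop
      · rw [norm_mul, norm_mul, norm_ch, one_mul, Complex.norm_real,
          Real.norm_of_nonneg (by positivity)]
        refine (mul_le_of_le_one_left (norm_nonneg _) (Real.exp_le_one_iff.2 ?_)).trans
          (tr_norm_le γ j ζ)
        have := Real.pi_pos
        rw [neg_nonpos]
        positivity
      · refine tendsto_const_nhds.congr' ?_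
        filter_upwards [tr_eq γ ζ] with j hj
        rw [hj]
    exact (h3.enorm).ennrpow_const p
  have hmj : ∀ j, Measurable (fun z : ℂ × ℂ => ‖iF (gs σ z.2 (tr γ j)) z.1‖ₑ ^ p) := by
    intro j
    have h4 := tr_sc γ j
    exact ((cont_win σ h4.1.continuous
      (h4.1.continuous.integrable_of_hasCompactSupport h4.2)).enorm.measurable).pow_const p
  obtain ⟨e, he, hle⟩ := lim_norm γ hp
  have h5 : ∫⁻ z : ℂ × ℂ, ‖iF (gs σ z.2 γ) z.1‖ₑ ^ p ∂(volume.prod volume)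
      ≤ liminf (fun j => ∫⁻ z : ℂ × ℂ, ‖iF (gs σ z.2 (tr γ j)) z.1‖ₑ ^ p
        ∂(volume.prod volume)) atTop := by
    refine le_trans (le_of_eq ?_) (lintegral_liminf_le hmj)
    exact lintegral_congr fun z => (hpt z).liminf_eq.symm
  have h6 : Tendsto (fun j => ENNReal.ofReal (1 / (p * σ ^ 2)) *
      ((∫⁻ x, ‖iF γ x‖ₑ ^ p) ^ (1 / p) + e j) ^ p) atTop
      (𝓝 (ENNReal.ofReal (1 / (p * σ ^ 2)) * ∫⁻ x, ‖iF γ x‖ₑ ^ p)) := by
    refine ENNReal.Tendsto.const_mul ?_ (Or.inr ENNReal.ofReal_ne_top)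
    have h7 := ((tendsto_const_nhds (x := (∫⁻ x, ‖iF γ x‖ₑ ^ p) ^ (1 / p))).add
      he).ennrpow_const p
    rw [add_zero, ← ENNReal.rpow_mul, one_div_mul_cancel hp0.ne', ENNReal.rpow_one] at h7
    exact h7
  refine h5.trans ?_
  rw [← h6.liminf_eq]
  refine liminf_le_liminf (Eventually.of_forall fun j => ?_)
  refine (sc_case hE hS hp hσ (tr_sc γ j)).trans ?_
  exact mul_le_mul' le_rfl (hle j)

theorem left_eq {p σ : ℝ} (hp : 2 < p) (hσ : 0 < σ) (γ : 𝓢(ℂ, ℂ)) (x ξ : ℂ) :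
    ‖∫ t, iF γ t * ((Real.exp (-(Real.pi * ‖t - x‖ ^ 2 / σ ^ 2)) : ℝ) : ℂ) * ch (-t) ξ‖ₑ ^ p
      = ENNReal.ofReal ((σ ^ 2) ^ p) * ‖iF (gs σ ξ γ) x‖ₑ ^ p := by
  have hp0 : 0 < p := by linarith
  rw [window hσ γ.continuous γ.integrable, enorm_mul, enorm_mul,
    ENNReal.mul_rpow_of_nonneg _ _ hp0.le, ENNReal.mul_rpow_of_nonneg _ _ hp0.le]
  congr 1
  rw [← ofReal_norm (ch (-x) ξ), norm_ch, ENNReal.ofReal_one, ENNReal.one_rpow, one_mul,
    ← ofReal_norm, Complex.norm_real, Real.norm_of_nonneg (by positivity),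
    ENNReal.ofReal_rpow_of_nonneg (by positivity) hp0.le]

theorem prod_eq (c : ℝ≥0∞) {f : ℂ × ℂ → ℝ≥0∞} (hf : Measurable f) :
    ∫⁻ x : ℂ, ∫⁻ ξ : ℂ, c * f (x, ξ) = c * ∫⁻ z : ℂ × ℂ, f z ∂(volume.prod volume) := by
  rw [lintegral_prod _ hf.aemeasurable, ← lintegral_const_mul _ hf.lintegral_prod_right']
  refine lintegral_congr fun x => ?_
  exact lintegral_const_mul c (hf.comp measurable_prodMk_left)

end E1SAux

open E1SAux

/-- module E1S -/
theorem e1S (hE : StmtE1) (hS : StmtSch) : StmtE1S := by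
  intro p σ φ hp hσ
  obtain ⟨γ, hγ⟩ := hS.2.2.1 φ
  have hp0 : 0 < p := by linarith
  have hφ : (φ : ℂ → ℂ) = iF γ := funext hγ
  rw [hφ]
  simp_rw [left_eq hp hσ γ]
  have hmeas : Measurable (fun z : ℂ × ℂ => ‖iF (gs σ z.2 γ) z.1‖ₑ ^ p) :=
    ((cont_win σ γ.continuous γ.integrable).enorm.measurable).pow_const p
  rw [prod_eq _ hmeas]
  refine (mul_le_mul' le_rfl (limit hE hS hp hσ γ)).trans (le_of_eq ?_)
  rw [← mul_assoc, ← ENNReal.ofReal_mul (by positivity)]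
  congr 2
  have h9 : (σ ^ 2) ^ p = σ ^ (2 * p - 2) * σ ^ 2 := by
    rw [← Real.rpow_natCast σ 2, ← Real.rpow_mul hσ.le, ← Real.rpow_add hσ]
    congr 1
    push_cast
    ring
  rw [h9]
  have : σ ≠ 0 := hσ.ne'
  field_simp

end Pool.Agent.Lib.MP_dd244f_an.Rp
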