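import Pool.Agent.Lib.MP_dd244f_an.Rp.Stmts

/-!
(EIp) the multiscale energy inequality.
-/

set_option autoImplicit false

namespace Pool.Agent.Lib.MP_dd244f_an.Rp

open MeasureTheory Filter Topology Finset
open Pool.Agent.Lib.MP_dd244f_an.Joint (st ct Mst ratio)
open Pool.Agent.Lib.MP_dd244f_an.Four
open Pool.Agent.Lib.MP_dd244f_an.Even
open Pool.Agent.Lib.MP_dd244f_an.Unif (SC)

namespace EIpAux

/-! ### The weights -/

theorem sum_half (K : ℕ) (b₀ : ℤ) :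
    ∑ b ∈ Finset.Icc (b₀ - K) (b₀ + K), (1 / 2 : ℝ) ^ (b - b₀).natAbs = 3 - 2 * (1 / 2) ^ K := by
  induction K with
  | zero => simp; norm_num
  | succ K ih =>
    have e : Finset.Icc (b₀ - ((K + 1 : ℕ) : ℤ)) (b₀ + ((K + 1 : ℕ) : ℤ)) =
        insert (b₀ - ((K + 1 : ℕ) : ℤ)) (insert (b₀ + ((K + 1 : ℕ) : ℤ))
          (Finset.Icc (b₀ - (K : ℤ)) (b₀ + K))) := by
      ext x
      simp only [Finset.mem_Icc, Finset.mem_insert]
      omega
    rw [e, Finset.sum_insert, Finset.sum_insert, ih]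
    · have h1 : (b₀ - ((K + 1 : ℕ) : ℤ) - b₀).natAbs = K + 1 := by omega
      have h2 : (b₀ + ((K + 1 : ℕ) : ℤ) - b₀).natAbs = K + 1 := by omega
      rw [h1, h2]
      ring
    · simp only [Finset.mem_Icc]
      omega
    · simp only [Finset.mem_Icc, Finset.mem_insert]
      omega

theorem sum_half_le (Bs : Finset ℤ) (b₀ : ℤ) :
    ∑ b ∈ Bs, (1 / 2 : ℝ) ^ (b - b₀).natAbs ≤ 3 := by
  obtain ⟨K, hK⟩ : ∃ K : ℕ, ∀ b ∈ Bs, (b - b₀).natAbs ≤ K :=
    ⟨Bs.sup (fun b ↦ (b - b₀).natAbs), fun b hb ↦ Finset.le_sup (f := fun b ↦ (b - b₀).natAbs) hb⟩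
  have hsub : Bs ⊆ Finset.Icc (b₀ - K) (b₀ + K) := by
    intro b hb
    have := hK b hb
    simp only [Finset.mem_Icc]
    omega
  calc ∑ b ∈ Bs, (1 / 2 : ℝ) ^ (b - b₀).natAbs
      ≤ ∑ b ∈ Finset.Icc (b₀ - K) (b₀ + K), (1 / 2 : ℝ) ^ (b - b₀).natAbs :=
        Finset.sum_le_sum_of_subset_of_nonneg hsub (fun _ _ _ ↦ by positivity)
    _ = 3 - 2 * (1 / 2) ^ K := sum_half K b₀
    _ ≤ 3 := by
        have : (0 : ℝ) ≤ (1 / 2) ^ K := by positivity
        linarith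

theorem wt_le (c : ℤ) (L : ℕ) (hL : 1 ≤ L) (i b : ℤ) :
    wt (c + b * L) L i ≤ 2 * (1 / 2 : ℝ) ^ (b - (i - c) / L).natAbs := by
  unfold wt
  set b₀ := (i - c) / (L : ℤ) with hb₀
  set r := (i - c) % (L : ℤ) with hr
  have hLpos : (0 : ℤ) < L := by exact_mod_cast hL
  have h1 : (L : ℤ) * b₀ + r = i - c := Int.mul_ediv_add_emod (i - c) L
  have h2 : 0 ≤ r := Int.emod_nonneg _ hLpos.ne'
  have h3 : r < L := Int.emod_lt_of_pos _ hLpos
  have e1 : i - (c + b * L) = (b₀ - b) * L + r := by linarith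
  have e2 : c + b * L + L - i = (b - b₀ + 1) * L - r := by linarith
  have key : min (i - (c + b * L)) 0 + min (c + b * L + L - i) 0 ≤ 1 - ((b - b₀).natAbs : ℤ) := by
    rcases le_or_gt b b₀ with hb | hb
    · have h4 : ((b - b₀).natAbs : ℤ) = b₀ - b := by omega
      rw [h4]
      have h5 : min (i - (c + b * L)) 0 ≤ 0 := min_le_right _ _
      rcases eq_or_lt_of_le hb with hb | hb
      · have h6 : min (c + b * L + L - i) 0 ≤ 0 := min_le_right _ _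
        omega
      · have h6 : min (c + b * L + L - i) 0 ≤ c + b * L + L - i := min_le_left _ _
        have h7 : (b - b₀ + 1) * (L : ℤ) ≤ (b - b₀ + 1) * 1 := by
          apply mul_le_mul_of_nonpos_left
          · omega
          · omega
        linarith
    · have h4 : ((b - b₀).natAbs : ℤ) = b - b₀ := by omega
      rw [h4]
      have h5 : min (i - (c + b * L)) 0 ≤ i - (c + b * L) := min_le_left _ _
      have h6 : min (c + b * L + L - i) 0 ≤ 0 := min_le_right _ _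
      have h7 : (b₀ - b + 1) * (L : ℤ) ≤ (b₀ - b + 1) * 1 := by
        apply mul_le_mul_of_nonpos_left
        · omega
        · omega
      have h8 : (b₀ - b) * (L : ℤ) = (b₀ - b + 1) * (L : ℤ) - L := by ring
      linarith
  calc (2 : ℝ) ^ (min (i - (c + b * L)) 0 + min (c + b * L + L - i) 0)
      ≤ (2 : ℝ) ^ (1 - ((b - b₀).natAbs : ℤ)) := zpow_le_zpow_right₀ (by norm_num) key
    _ = 2 * (1 / 2 : ℝ) ^ (b - b₀).natAbs := by
        rw [zpow_sub₀ (by norm_num), zpow_one, zpow_natCast, one_div, inv_pow]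
        rfl

theorem sum_wt_le (c : ℤ) (L : ℕ) (hL : 1 ≤ L) (i : ℤ) (Bs : Finset ℤ) :
    ∑ b ∈ Bs, wt (c + b * L) L i ≤ 6 := by
  calc ∑ b ∈ Bs, wt (c + b * L) L i
      ≤ ∑ b ∈ Bs, 2 * (1 / 2 : ℝ) ^ (b - (i - c) / L).natAbs :=
        Finset.sum_le_sum (fun b _ ↦ wt_le c L hL i b)
    _ = 2 * ∑ b ∈ Bs, (1 / 2 : ℝ) ^ (b - (i - c) / L).natAbs := by rw [Finset.mul_sum]
    _ ≤ 2 * 3 := by
        have := sum_half_le Bs ((i - c) / L)
        linarith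
    _ = 6 := by norm_num

theorem wt_nonneg (s : ℤ) (L : ℕ) (i : ℤ) : 0 ≤ wt s L i := by
  unfold wt
  positivity

theorem qa_nonneg (a : ℤ) (g : ℂ → ℂ) (x : ℂ) : 0 ≤ qa a g x := by
  unfold qa
  refine integral_nonneg (fun y ↦ ?_)
  unfold KK
  positivity

/-! ### Cutoffs -/

theorem bd_mem (hF : Four.StmtFac) (a b : ℤ) (hab : a < b) (ζ : ℂ) :
    0 ≤ bd a b ζ ∧ bd a b ζ ≤ 1 := by
  obtain ⟨h1, h2, h3, -⟩ := hF
  unfold bd
  have ha := h1 a ζ
  have hb := h1 b ζ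
  rcases le_or_gt ‖ζ‖ ((2 : ℝ) ^ b) with h | h
  · rw [h2 b ζ h]
    constructor <;> linarith
  · have h4 : lo a ζ = 0 := by
      apply h3
      have h5 : (2 : ℝ) ^ (a + 1) ≤ (2 : ℝ) ^ b := zpow_le_zpow_right₀ (by norm_num) (by omega)
      rw [zpow_add₀ (by norm_num), zpow_one] at h5
      have h6 : (0 : ℝ) < (2 : ℝ) ^ a := by positivity
      nlinarith
    rw [h4]
    constructor <;> linarith

theorem iF_bd (hF : Four.StmtFac) (hB : Four.StmtBase) (g : ℂ → ℂ) (hg : CC g) (s : ℤ) (L : ℕ)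
    (x : ℂ) : iF (cut (bd s (s + L)) g) x = ∑ i ∈ Finset.range L, iF (cut (sh (s + i)) g) x := by
  induction L with
  | zero =>
    simp only [Finset.range_zero, Finset.sum_empty, Nat.cast_zero, add_zero]
    have : cut (bd s s) g = fun _ ↦ 0 := by
      funext ζ
      unfold cut bd
      simp
    rw [this]
    unfold iF
    simp
  | succ L ih =>
    rw [Finset.sum_range_succ, ← ih]
    have h1 := hB.2.2.2.2.1 (cut (bd s (s + L)) g) (cut (sh (s + L)) g)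
      (hF.2.2.2.2.1 g s (s + L) hg).2.1 (hF.2.2.2.2.1 g (s + L) (s + L) hg).2.2 x
    rw [← h1]
    congr 1
    funext ζ
    unfold cut sh bd
    push_cast
    rw [show s + ((L : ℤ) + 1) = s + L + 1 by ring]
    ring

theorem Np_nonneg (p : ℝ) (g : ℂ → ℂ) : 0 ≤ Np p g := by
  unfold Np
  exact integral_nonneg (fun x ↦ by positivity)

theorem Np_bd_le (hF : Four.StmtFac) (hB : Four.StmtBase) (hS : StmtSch) (p : ℝ) (hp : 1 ≤ p)
    (g : ℂ → ℂ) (hg : SC g) (s : ℤ) (L : ℕ) :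
    Np p (cut (bd s (s + L)) g) ≤
      (L : ℝ) ^ (p - 1) * ∑ i ∈ Finset.range L, Np p (cut (sh (s + i)) g) := by
  unfold Np
  have hint : ∀ a : ℤ, Integrable (fun x ↦ ‖iF (cut (sh a) g) x‖ ^ p) := fun a ↦
    hS.2.2.2.2.1 _ p hp ((hS.2.2.2.2.2 g hg).2.2.2.2.2.1 a)
  rw [← integral_finsetSum _ (fun i _ ↦ hint _), ← integral_const_mul]
  refine integral_mono (hS.2.2.2.2.1 _ p hp ((hS.2.2.2.2.2 g hg).2.2.2.2.1 _ _)) ?_ (fun x ↦ ?_)
  · exact (integrable_finsetSum _ (fun i _ ↦ hint _)).const_mul _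
  · show ‖iF (cut (bd s (s + L)) g) x‖ ^ p ≤ _
    rw [iF_bd hF hB g (hS.1 g hg)]
    have h1 := Real.rpow_sum_le_const_mul_sum_rpow (Finset.range L)
      (fun i : ℕ ↦ ‖iF (cut (sh (s + i)) g) x‖) hp
    simp only [abs_norm, Finset.card_range] at h1
    refine le_trans ?_ h1
    exact Real.rpow_le_rpow (norm_nonneg _) (norm_sum_le _ _) (by linarith)

theorem inj (c : ℤ) (L : ℕ) (b b' : ℤ) (i i' : ℕ) (hi : i < L) (hi' : i' < L)
    (h : c + b * L + i = c + b' * L + i') : b = b' ∧ i = i' := by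
  have hL : (0 : ℤ) < L := by omega
  have h1 : ∀ (b : ℤ) (i : ℕ), i < L → (b * L + i) / (L : ℤ) = b := by
    intro b i hi
    rw [add_comm, Int.add_mul_ediv_right _ _ hL.ne', Int.ediv_eq_zero_of_lt (by omega) (by omega),
      zero_add]
  have h2 : b * L + i = b' * L + i' := by linarith
  have h3 : b = b' := by
    rw [← h1 b i hi, h2, h1 b' i' hi']
  subst h3
  refine ⟨rfl, ?_⟩
  have : (i : ℤ) = i' := by linarith
  exact_mod_cast this

theorem sum_Np_le (hF : Four.StmtFac) (hB : Four.StmtBase) (hS : StmtSch) (p C : ℝ) (hp : 1 ≤ p)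
    (g : ℂ → ℂ) (hg : SC g)
    (hC : ∀ A : Finset ℤ, ∑ a ∈ A, Np p (cut (sh a) g) ≤ C * Np p g) (c : ℤ) (L : ℕ)
    (Bs : Finset ℤ) :
    ∑ b ∈ Bs, Np p (cut (bd (c + b * L) (c + b * L + L)) g) ≤
      (L : ℝ) ^ (p - 1) * (C * Np p g) := by
  calc ∑ b ∈ Bs, Np p (cut (bd (c + b * L) (c + b * L + L)) g)
      ≤ ∑ b ∈ Bs, (L : ℝ) ^ (p - 1) *
          ∑ i ∈ Finset.range L, Np p (cut (sh (c + b * L + i)) g) :=
        Finset.sum_le_sum (fun b _ ↦ Np_bd_le hF hB hS p hp g hg _ L)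
    _ = (L : ℝ) ^ (p - 1) * ∑ z ∈ Bs ×ˢ Finset.range L,
          Np p (cut (sh (c + z.1 * L + z.2)) g) := by
        rw [← Finset.mul_sum, Finset.sum_product]
    _ = (L : ℝ) ^ (p - 1) * ∑ a ∈ (Bs ×ˢ Finset.range L).image
          (fun z : ℤ × ℕ ↦ c + z.1 * L + z.2), Np p (cut (sh a) g) := by
        rw [Finset.sum_image]
        intro z hz w hw h
        simp only [Finset.coe_product, Set.mem_prod, Finset.mem_coe, Finset.mem_range] at hz hw
        obtain ⟨h1, h2⟩ := inj c L z.1 w.1 z.2 w.2 hz.2 hw.2 h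
        exact Prod.ext h1 h2
    _ ≤ (L : ℝ) ^ (p - 1) * (C * Np p g) :=
        mul_le_mul_of_nonneg_left (hC _) (by positivity)

/-! ### The energies -/

/-- the energy without the cutoff in `y` -/
noncomputable def E0 (p : ℝ) (n : ℕ) (Q : ℝ) (s : ℤ) (L : ℕ) (g : ℂ → ℂ) : ℝ :=
  ∫ v in (tb n Q s L / p - kap p s)..(tb n Q s L / p - kap p (s + L)),
    ∫ y, lapR (Psi p g (tb n Q s L)) y * hk v y

theorem kap_anti (p : ℝ) (hp : 2 < p) (s t : ℤ) (h : s ≤ t) : kap p t ≤ kap p s := by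
  unfold kap
  have h1 : (4 : ℝ) ^ s ≤ (4 : ℝ) ^ t := zpow_le_zpow_right₀ (by norm_num) h
  have h2 : (0 : ℝ) < (4 : ℝ) ^ s := by positivity
  have hp0 : 0 < p := by linarith
  exact one_div_le_one_div_of_le (by positivity)
    (mul_le_mul_of_nonneg_left h1 (by positivity))

theorem kap_nonneg (p : ℝ) (s : ℤ) : 0 ≤ kap p s := by
  unfold kap
  positivity

theorem tb_eq (n : ℕ) (Q : ℝ) (s : ℤ) (L : ℕ) :
    tb n Q s L = n / (4 * Real.pi * Q ^ 2 * ((4 : ℝ) ^ s * (4 : ℝ) ^ L)) := by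
  unfold tb win
  have h2 : (0 : ℝ) < (2 : ℝ) ^ (s + (L : ℤ)) := by positivity
  have h3 : ((2 : ℝ) ^ (s + (L : ℤ))) ^ 2 = (4 : ℝ) ^ s * (4 : ℝ) ^ L := by
    rw [zpow_add₀ (by norm_num), zpow_natCast, mul_pow, ← zpow_natCast ((2 : ℝ) ^ s) 2,
      ← zpow_mul, mul_comm s, zpow_mul, ← pow_mul, mul_comm L, pow_mul]
    norm_num
  rw [div_pow, mul_pow, Real.sq_sqrt (Nat.cast_nonneg n), h3, div_div]
  congr 1
  ring

theorem tb_anti (n : ℕ) (Q : ℝ) (s t : ℤ) (L : ℕ) (hQ : 1 ≤ Q) (h : s ≤ t) :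
    tb n Q t L ≤ tb n Q s L := by
  rw [tb_eq n Q s L, tb_eq n Q t L]
  have h1 : (4 : ℝ) ^ s ≤ (4 : ℝ) ^ t := zpow_le_zpow_right₀ (by norm_num) h
  have h2 : (0 : ℝ) < (4 : ℝ) ^ s := by positivity
  have hp := Real.pi_pos
  refine div_le_div_of_nonneg_left (Nat.cast_nonneg n) (by positivity) ?_
  refine mul_le_mul_of_nonneg_left ?_ (by positivity)
  exact mul_le_mul_of_nonneg_right h1 (by positivity)

theorem kap_lt (p : ℝ) (hp : 2 < p) (n : ℕ) (Q : ℝ) (hQ : 1 ≤ Q) (s : ℤ) (L : ℕ)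
    (hn : Q ^ 2 * (4 : ℝ) ^ L < n) : p * kap p s < tb n Q s L := by
  rw [tb_eq n Q s L]
  unfold kap
  have h2 : (0 : ℝ) < (4 : ℝ) ^ s := by positivity
  have h3 : (0 : ℝ) < (4 : ℝ) ^ L := by positivity
  have hπ := Real.pi_pos
  have hp0 : 0 < p := by linarith
  rw [mul_one_div, div_lt_div_iff₀ (by positivity) (by positivity)]
  have h4 : (4 * Real.pi * (4 : ℝ) ^ s * p) * (Q ^ 2 * (4 : ℝ) ^ L) <
      (4 * Real.pi * (4 : ℝ) ^ s * p) * n := mul_lt_mul_of_pos_left hn (by positivity)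
  have h5 : (4 * Real.pi * (4 : ℝ) ^ s * p) * n * 1 ≤ (4 * Real.pi * (4 : ℝ) ^ s * p) * n * p :=
    mul_le_mul_of_nonneg_left (by linarith) (by positivity)
  calc p * (4 * Real.pi * Q ^ 2 * ((4 : ℝ) ^ s * (4 : ℝ) ^ L))
      = (4 * Real.pi * (4 : ℝ) ^ s * p) * (Q ^ 2 * (4 : ℝ) ^ L) := by ring
    _ < (4 * Real.pi * (4 : ℝ) ^ s * p) * n := h4
    _ ≤ (4 * Real.pi * (4 : ℝ) ^ s * p) * n * p := by linarith
    _ = n * (4 * Real.pi * p ^ 2 * (4 : ℝ) ^ s) := by ring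

theorem hk_nonneg (v : ℝ) (hv : 0 < v) (y : ℂ) : 0 ≤ hk v y := by
  unfold hk
  positivity

theorem hk_le (a b v : ℝ) (ha : 0 < a) (hav : a ≤ v) (hvb : v ≤ b) (y : ℂ) :
    hk v y ≤ b / a * hk b y := by
  unfold hk
  have hv : 0 < v := by linarith
  have hb : 0 < b := by linarith
  have h1 : Real.exp (-(‖y‖ ^ 2 / (4 * v))) ≤ Real.exp (-(‖y‖ ^ 2 / (4 * b))) := by
    apply Real.exp_le_exp.2
    apply neg_le_neg
    exact div_le_div_of_nonneg_left (by positivity) (by positivity) (by linarith)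
  calc Real.exp (-(‖y‖ ^ 2 / (4 * v))) / (4 * Real.pi * v)
      ≤ Real.exp (-(‖y‖ ^ 2 / (4 * b))) / (4 * Real.pi * v) :=
        div_le_div_of_nonneg_right h1 (by positivity)
    _ ≤ Real.exp (-(‖y‖ ^ 2 / (4 * b))) / (4 * Real.pi * a) := by
        refine div_le_div_of_nonneg_left (by positivity) (by positivity) ?_
        exact mul_le_mul_of_nonneg_left hav (by positivity)
    _ = b / a * (Real.exp (-(‖y‖ ^ 2 / (4 * b))) / (4 * Real.pi * b)) := by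
        field_simp

theorem lapR_nonneg (hP : StmtPsi) (p : ℝ) (hp : 2 < p) (g : ℂ → ℂ) (hg : SC g) (s : ℝ) (y : ℂ) :
    0 ≤ lapR (Psi p g s) y := by
  obtain ⟨-, h2, -, -, -, -, h7, -⟩ := hP p g hp hg
  rw [h2]
  exact mul_nonneg (by positivity) (h7 s y).1

theorem inner_cont (hP : StmtPsi) (hMo : StmtMono) (p : ℝ) (hp : 2 < p) (g : ℂ → ℂ) (hg : SC g)
    (s a b : ℝ) (ha : 0 < a) :
    ContinuousOn (fun v ↦ ∫ y, lapR (Psi p g s) y * hk v y) (Set.Icc a b) := by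
  rcases lt_or_ge b a with hab | hab
  · rw [Set.Icc_eq_empty (not_le.2 hab)]
    exact continuousOn_empty _
  have hb : 0 < b := by linarith
  refine MeasureTheory.continuousOn_of_dominated
    (bound := fun y ↦ b / a * (lapR (Psi p g s) y * hk b y)) ?_ ?_ ?_ ?_
  · intro v hv
    exact ((hMo p g hp hg).1 s v (by linarith [hv.1])).2.aestronglyMeasurable
  · intro v hv
    refine Filter.Eventually.of_forall (fun y ↦ ?_)
    have h1 := lapR_nonneg hP p hp g hg s y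
    have h2 := hk_nonneg v (by linarith [hv.1]) y
    rw [Real.norm_of_nonneg (mul_nonneg h1 h2)]
    have h3 := hk_le a b v ha hv.1 hv.2 y
    calc lapR (Psi p g s) y * hk v y ≤ lapR (Psi p g s) y * (b / a * hk b y) :=
          mul_le_mul_of_nonneg_left h3 h1
      _ = _ := by ring
  · exact (((hMo p g hp hg).1 s b hb).2).const_mul _
  · refine Filter.Eventually.of_forall (fun y ↦ ?_)
    refine ContinuousOn.mul continuousOn_const ?_
    unfold hk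
    refine ContinuousOn.div ?_ (by fun_prop) ?_
    · refine Real.continuous_exp.comp_continuousOn ?_
      refine ContinuousOn.neg ?_
      refine ContinuousOn.div continuousOn_const (by fun_prop) ?_
      intro v hv
      have : 0 < v := by linarith [hv.1]
      positivity
    · intro v hv
      have : 0 < v := by linarith [hv.1]
      positivity

theorem limits (p : ℝ) (hp : 2 < p) (n : ℕ) (Q : ℝ) (hQ : 1 ≤ Q) (s : ℤ) (L : ℕ)
    (hn : Q ^ 2 * (4 : ℝ) ^ L < n) : 0 < tb n Q s L / p - kap p s ∧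
    tb n Q s L / p - kap p s ≤ tb n Q s L / p - kap p (s + L) := by
  have hp0 : 0 < p := by linarith
  constructor
  · have h1 := kap_lt p hp n Q hQ s L hn
    have h2 : kap p s < tb n Q s L / p := by
      rw [lt_div_iff₀ hp0]
      linarith
    linarith
  · have := kap_anti p hp s (s + L) (by omega)
    linarith

theorem E0_nonneg (hP : StmtPsi) (p : ℝ) (hp : 2 < p) (n : ℕ) (Q : ℝ) (hQ : 1 ≤ Q) (s : ℤ) (L : ℕ)
    (hn : Q ^ 2 * (4 : ℝ) ^ L < n) (g : ℂ → ℂ) (hg : SC g) : 0 ≤ E0 p n Q s L g := by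
  obtain ⟨h1, h2⟩ := limits p hp n Q hQ s L hn
  unfold E0
  rw [intervalIntegral.integral_of_le h2]
  refine setIntegral_nonneg measurableSet_Ioc (fun v hv ↦ ?_)
  exact integral_nonneg (fun y ↦ mul_nonneg (lapR_nonneg hP p hp g hg _ y)
    (hk_nonneg v (h1.trans hv.1) y))

theorem Eb_le (hF : Four.StmtFac) (hP : StmtPsi) (hMo : StmtMono) (p : ℝ) (hp : 2 < p) (n : ℕ)
    (Q : ℝ) (hQ : 1 ≤ Q) (s : ℤ) (L : ℕ) (hL : 4 < L) (hn : Q ^ 2 * (4 : ℝ) ^ L < n) (g : ℂ → ℂ)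
    (hg : SC g) : Eb p n Q s L g ≤ E0 p n Q s L g := by
  obtain ⟨h1, h2⟩ := limits p hp n Q hQ s L hn
  have hth : ∀ y, 0 ≤ thc n Q s L y ∧ thc n Q s L y ≤ 1 := fun y ↦
    bd_mem hF (s + 2) (s + L - 2) (by omega) _
  unfold Eb E0
  rw [intervalIntegral.integral_of_le h2, intervalIntegral.integral_of_le h2]
  refine integral_mono_of_nonneg ?_ ?_ ?_
  · rw [Filter.EventuallyLE, ae_restrict_iff' measurableSet_Ioc]
    refine Filter.Eventually.of_forall (fun v hv ↦ ?_)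
    exact integral_nonneg (fun y ↦ mul_nonneg (mul_nonneg (lapR_nonneg hP p hp g hg _ y)
      (hk_nonneg v (h1.trans hv.1) y)) (hth y).1)
  · exact ((inner_cont hP hMo p hp g hg _ _ _ h1).integrableOn_Icc).mono_set
      Set.Ioc_subset_Icc_self
  · rw [Filter.EventuallyLE, ae_restrict_iff' measurableSet_Ioc]
    refine Filter.Eventually.of_forall (fun v hv ↦ ?_)
    have hv0 := h1.trans hv.1
    refine integral_mono_of_nonneg ?_ ((hMo p g hp hg).1 _ v hv0).2 ?_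
    · exact Filter.Eventually.of_forall (fun y ↦ mul_nonneg (mul_nonneg
        (lapR_nonneg hP p hp g hg _ y) (hk_nonneg v hv0 y)) (hth y).1)
    · refine Filter.Eventually.of_forall (fun y ↦ ?_)
      have h3 := mul_nonneg (lapR_nonneg hP p hp g hg (tb n Q s L) y) (hk_nonneg v hv0 y)
      exact mul_le_of_le_one_right h3 (hth y).2

theorem sum_E0 (hP : StmtPsi) (hT : StmtTel) (p : ℝ) (hp : 2 < p) (n : ℕ) (Q : ℝ) (hQ : 1 ≤ Q)
    (L : ℕ) (hn : Q ^ 2 * (4 : ℝ) ^ L < n) (g : ℂ → ℂ) (hg : SC g) (c : ℤ) (Bs : Finset ℤ) :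
    ∑ b ∈ Bs, E0 p n Q (c + b * L) L g ≤ Np p g := by
  obtain ⟨K, hK⟩ : ∃ K : ℕ, ∀ b ∈ Bs, b.natAbs ≤ K :=
    ⟨Bs.sup Int.natAbs, fun b hb ↦ Finset.le_sup (f := Int.natAbs) hb⟩
  have hsub : Bs ⊆ (Finset.range (2 * K + 1)).image (fun j : ℕ ↦ -(K : ℤ) + j) := by
    intro b hb
    have := hK b hb
    rw [Finset.mem_image]
    refine ⟨(b + K).toNat, ?_, ?_⟩
    · rw [Finset.mem_range]
      omega
    · omega
  have h1 : ∑ b ∈ Bs, E0 p n Q (c + b * L) L g ≤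
      ∑ b ∈ (Finset.range (2 * K + 1)).image (fun j : ℕ ↦ -(K : ℤ) + j),
        E0 p n Q (c + b * L) L g :=
    Finset.sum_le_sum_of_subset_of_nonneg hsub
      (fun b _ _ ↦ E0_nonneg hP p hp n Q hQ _ L hn g hg)
  refine h1.trans ?_
  rw [Finset.sum_image (by
    intro x _ y _ h
    simp only at h
    omega)]
  have h2 := hT p g (2 * K + 1) (fun j ↦ tb n Q (c + (-(K : ℤ) + j) * L) L)
    (fun j ↦ kap p (c + (-(K : ℤ) + j) * L)) hp hg ?_ ?_ ?_ ?_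
  · refine le_trans (le_of_eq ?_) h2
    refine Finset.sum_congr rfl (fun j _ ↦ ?_)
    unfold E0
    have e : c + (-(K : ℤ) + j) * L + L = c + (-(K : ℤ) + ((j + 1 : ℕ) : ℤ)) * L := by
      push_cast; ring
    rw [e]
  · intro j
    refine tb_anti n Q _ _ L hQ ?_
    have : (0 : ℤ) ≤ L := by omega
    push_cast
    nlinarith
  · intro j
    exact kap_nonneg p _
  · intro j
    refine kap_anti p hp _ _ ?_
    have : (0 : ℤ) ≤ L := by omega
    push_cast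
    nlinarith
  · intro j
    exact kap_lt p hp n Q hQ _ L hn

end EIpAux

open EIpAux in
theorem eip (hL : StmtLoc) (hE : StmtErrEI) (hT : StmtTel) (hM : StmtMp) (hMS : StmtMS)
    (hSp : StmtSp) (hP : StmtPsi) (hMo : StmtMono) (hS : StmtSch) (hF : Four.StmtFac)
    (hB : Four.StmtBase) : StmtEIp := by
  intro p ε hp hε
  obtain ⟨C1, hC1, hM'⟩ := hM p hp
  obtain ⟨C2, hC2, hMS'⟩ := hMS p hp
  obtain ⟨C3, hC3, hSp'⟩ := hSp p hp
  obtain ⟨ε₁, hε₁d⟩ : ∃ ε₁ : ℝ, ε₁ = min 1 (ε / 9) := ⟨_, rfl⟩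
  have hε₁ : 0 < ε₁ := by rw [hε₁d]; exact lt_min one_pos (by positivity)
  have hε₁1 : ε₁ ≤ 1 := by rw [hε₁d]; exact min_le_left _ _
  have hε₁9 : ε₁ ≤ ε / 9 := by rw [hε₁d]; exact min_le_right _ _
  obtain ⟨ε', hε'd⟩ : ∃ ε' : ℝ, ε' = min ε₁ (ε / (36 * (C1 * C2))) := ⟨_, rfl⟩
  have hε' : 0 < ε' := by rw [hε'd]; exact lt_min hε₁ (by positivity)
  have hε'1 : ε' ≤ ε₁ := by rw [hε'd]; exact min_le_left _ _
  have hε'2 : ε' ≤ ε / (36 * (C1 * C2)) := by rw [hε'd]; exact min_le_right _ _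
  obtain ⟨mL, hmL⟩ := hL p ε₁ hp hε₁
  refine ⟨max mL 2, fun m hm L hmL2 Q hQ ↦ ?_⟩
  have hm1 : mL ≤ m := le_trans (le_max_left _ _) hm
  have hm2 : 2 ≤ m := le_trans (le_max_right _ _) hm
  have hL4 : 4 < L := by omega
  obtain ⟨D, hD⟩ : ∃ D : ℝ, D = (L : ℝ) ^ (p - 1) * C3 := ⟨_, rfl⟩
  have hD0 : 0 ≤ D := by rw [hD]; positivity
  have hε₂ : 0 < ε / (3 * (D + 1)) := by positivity
  obtain ⟨nL, hnL⟩ := hmL m hm1 L hmL2 Q (ε / (3 * (D + 1))) hQ hε₂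
  obtain ⟨nE, hnE⟩ := hE p Q ε' L hp hQ hL4 hε'
  refine ⟨max (max nL nE) (⌈Q ^ 2 * (4 : ℝ) ^ L⌉₊ + 1), fun n hn R g hg hR c Bs ↦ ?_⟩
  have hn1 : nL ≤ n := le_trans (le_trans (le_max_left _ _) (le_max_left _ _)) hn
  have hn2 : nE ≤ n := le_trans (le_trans (le_max_right _ _) (le_max_left _ _)) hn
  have hn3 : Q ^ 2 * (4 : ℝ) ^ L < n := by
    have h1 := Nat.le_ceil (Q ^ 2 * (4 : ℝ) ^ L)
    have h2 : ⌈Q ^ 2 * (4 : ℝ) ^ L⌉₊ + 1 ≤ n := le_trans (le_max_right _ _) hn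
    have h3 : ((⌈Q ^ 2 * (4 : ℝ) ^ L⌉₊ : ℕ) : ℝ) + 1 ≤ n := by exact_mod_cast h2
    linarith
  have hgc : CC g := hS.1 g hg
  obtain ⟨M, hDom, hMi, hMle⟩ := hM' g hgc
  obtain ⟨hqi, -⟩ := hMS' ∅ g M hgc hDom hMi
  obtain ⟨I, hI⟩ : ∃ I : Finset ℤ, I = Finset.Icc (-((R : ℤ) + 4)) (R + 4) := ⟨_, rfl⟩
  obtain ⟨X, hX⟩ : ∃ X : ℤ → ℝ, ∀ i, X i = ∫ x, M x ^ ((p - 2) / 2) * qa i g x := ⟨_, fun _ ↦ rfl⟩
  have hM0 : ∀ x, 0 ≤ M x := hDom.2.1
  have hX0 : ∀ i, 0 ≤ X i := by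
    intro i
    rw [hX]
    exact integral_nonneg (fun x ↦ mul_nonneg (Real.rpow_nonneg (hM0 x) _) (qa_nonneg i g x))
  have hXw : ∀ s : ℤ, ∫ x, M x ^ ((p - 2) / 2) * ∑ i ∈ I, wt s L i * qa i g x =
      ∑ i ∈ I, wt s L i * X i := by
    intro s
    have e : (fun x ↦ M x ^ ((p - 2) / 2) * ∑ i ∈ I, wt s L i * qa i g x) =
        fun x ↦ ∑ i ∈ I, wt s L i * (M x ^ ((p - 2) / 2) * qa i g x) := by
      funext x
      rw [Finset.mul_sum]
      refine Finset.sum_congr rfl (fun i _ ↦ ?_)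
      ring
    rw [e, integral_finsetSum _ (fun i _ ↦ (hqi i).const_mul _)]
    refine Finset.sum_congr rfl (fun i _ ↦ ?_)
    rw [integral_const_mul, hX]
  have hXs : ∑ i ∈ I, X i ≤ C2 * (C1 * Np p g) := by
    have h1 := (hMS' I g M hgc hDom hMi).2
    have e : ∫ x, M x ^ ((p - 2) / 2) * ∑ a ∈ I, qa a g x = ∑ i ∈ I, X i := by
      have e : (fun x ↦ M x ^ ((p - 2) / 2) * ∑ i ∈ I, qa i g x) =
          fun x ↦ ∑ i ∈ I, (M x ^ ((p - 2) / 2) * qa i g x) := by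
        funext x
        rw [Finset.mul_sum]
      rw [e, integral_finsetSum _ (fun i _ ↦ hqi i)]
      refine Finset.sum_congr rfl (fun i _ ↦ ?_)
      rw [hX]
    rw [e] at h1
    exact h1.trans (mul_le_mul_of_nonneg_left hMle hC2.le)
  have hN := Np_nonneg p g
  -- one block
  have hblock : ∀ b ∈ Bs, p * (win n Q (c + b * L) L) ^ 2 *
      ∫ ξ in Jp (c + b * L) L m, Nw p (win n Q (c + b * L) L) ξ
        (cut (bd (c + b * L) (c + b * L + L)) g) ≤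
      (1 + ε₁) * ((1 + ε') * E0 p n Q (c + b * L) L g + ε' * ∑ i ∈ I, wt (c + b * L) L i * X i) +
        ε / (3 * (D + 1)) * Np p (cut (bd (c + b * L) (c + b * L + L)) g) := by
    intro b _
    have h1 := hnL n hn1 (c + b * L) (cut (bd (c + b * L) (c + b * L + L)) g)
      ((hS.2.2.2.2.2 g hg).2.2.2.2.1 _ _)
    have h2 := hnE n hn2 (c + b * L) R g M hg hR hDom hMi
    rw [← hI, hXw] at h2
    have h3 := Eb_le hF hP hMo p hp n Q hQ (c + b * L) L hL4 hn3 g hg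
    have h4 : Eb p n Q (c + b * L) L (cut (bd (c + b * L) (c + b * L + L)) g) ≤
        (1 + ε') * E0 p n Q (c + b * L) L g + ε' * ∑ i ∈ I, wt (c + b * L) L i * X i := by
      have := mul_le_mul_of_nonneg_left h3 (by linarith : 0 ≤ 1 + ε')
      linarith
    have h5 := mul_le_mul_of_nonneg_left h4 (by linarith : 0 ≤ 1 + ε₁)
    linarith
  refine (Finset.sum_le_sum hblock).trans ?_
  rw [Finset.sum_add_distrib, ← Finset.mul_sum, ← Finset.mul_sum, Finset.sum_add_distrib,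
    ← Finset.mul_sum, ← Finset.mul_sum]
  -- the three sums
  have s1 : ∑ b ∈ Bs, E0 p n Q (c + b * L) L g ≤ Np p g :=
    sum_E0 hP hT p hp n Q hQ L hn3 g hg c Bs
  have s2 : ∑ b ∈ Bs, ∑ i ∈ I, wt (c + b * L) L i * X i ≤ 6 * (C2 * (C1 * Np p g)) := by
    rw [Finset.sum_comm]
    calc ∑ i ∈ I, ∑ b ∈ Bs, wt (c + b * L) L i * X i
        = ∑ i ∈ I, (∑ b ∈ Bs, wt (c + b * L) L i) * X i := by
          refine Finset.sum_congr rfl (fun i _ ↦ ?_)
          rw [Finset.sum_mul]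
      _ ≤ ∑ i ∈ I, 6 * X i := Finset.sum_le_sum (fun i _ ↦
          mul_le_mul_of_nonneg_right (sum_wt_le c L (by omega) i Bs) (hX0 i))
      _ = 6 * ∑ i ∈ I, X i := by rw [Finset.mul_sum]
      _ ≤ 6 * (C2 * (C1 * Np p g)) := mul_le_mul_of_nonneg_left hXs (by norm_num)
  have s3 : ∑ b ∈ Bs, Np p (cut (bd (c + b * L) (c + b * L + L)) g) ≤ D * Np p g := by
    have := sum_Np_le hF hB hS p C3 (by linarith) g hg (fun A ↦ (hSp' A g hgc).2.2.1) c L Bs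
    rw [hD]
    linarith
  -- constants
  have k1 : (1 + ε₁) * (1 + ε') ≤ 1 + ε / 3 := by nlinarith
  have k2 : (1 + ε₁) * (ε' * (6 * (C2 * C1))) ≤ ε / 3 := by
    have h1 : ε' * (36 * (C1 * C2)) ≤ ε := by
      rw [le_div_iff₀ (by positivity)] at hε'2
      exact hε'2
    have h2 : 0 ≤ ε' * (6 * (C2 * C1)) := by positivity
    nlinarith
  have k3 : ε / (3 * (D + 1)) * D ≤ ε / 3 := by
    rw [div_mul_eq_mul_div, div_le_div_iff₀ (by positivity) (by norm_num)]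
    nlinarith
  have t1 : (1 + ε₁) * ((1 + ε') * ∑ b ∈ Bs, E0 p n Q (c + b * L) L g) ≤
      (1 + ε / 3) * Np p g := by
    calc (1 + ε₁) * ((1 + ε') * ∑ b ∈ Bs, E0 p n Q (c + b * L) L g)
        ≤ (1 + ε₁) * ((1 + ε') * Np p g) := by
          refine mul_le_mul_of_nonneg_left ?_ (by linarith)
          exact mul_le_mul_of_nonneg_left s1 (by linarith)
      _ = (1 + ε₁) * (1 + ε') * Np p g := by ring
      _ ≤ (1 + ε / 3) * Np p g := mul_le_mul_of_nonneg_right k1 hN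
  have t2 : (1 + ε₁) * (ε' * ∑ b ∈ Bs, ∑ i ∈ I, wt (c + b * L) L i * X i) ≤
      ε / 3 * Np p g := by
    calc (1 + ε₁) * (ε' * ∑ b ∈ Bs, ∑ i ∈ I, wt (c + b * L) L i * X i)
        ≤ (1 + ε₁) * (ε' * (6 * (C2 * (C1 * Np p g)))) := by
          refine mul_le_mul_of_nonneg_left ?_ (by linarith)
          exact mul_le_mul_of_nonneg_left s2 hε'.le
      _ = (1 + ε₁) * (ε' * (6 * (C2 * C1))) * Np p g := by ring
      _ ≤ ε / 3 * Np p g := mul_le_mul_of_nonneg_right k2 hN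
  have t3 : ε / (3 * (D + 1)) * ∑ b ∈ Bs, Np p (cut (bd (c + b * L) (c + b * L + L)) g) ≤
      ε / 3 * Np p g := by
    calc ε / (3 * (D + 1)) * ∑ b ∈ Bs, Np p (cut (bd (c + b * L) (c + b * L + L)) g)
        ≤ ε / (3 * (D + 1)) * (D * Np p g) := mul_le_mul_of_nonneg_left s3 hε₂.le
      _ = ε / (3 * (D + 1)) * D * Np p g := by ring
      _ ≤ ε / 3 * Np p g := mul_le_mul_of_nonneg_right k3 hN
  linarith

end Pool.Agent.Lib.MP_dd244f_an.Rp
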