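import Pool.Agent.Lib.MP_dd244f_an.Rp.Stmts

/-!
(ErrEI) only the frequencies of the block matter.
-/

set_option autoImplicit false

namespace Pool.Agent.Lib.MP_dd244f_an.Rp

namespace ErrEIAux

open MeasureTheory Filter Topology Finset
open Pool.Agent.Lib.MP_dd244f_an.Joint (st ct Mst ratio)
open Pool.Agent.Lib.MP_dd244f_an.Four
open Pool.Agent.Lib.MP_dd244f_an.Even
open Pool.Agent.Lib.MP_dd244f_an.Unif (SC)

/-! ### Fourier side bookkeeping -/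

theorem cc_mul {g : ℂ → ℂ} (hg : CC g) {f : ℂ → ℂ} (hf : Continuous f) :
    CC (fun ζ => f ζ * g ζ) := ⟨hf.mul hg.1, hg.2.mul_left⟩

theorem cc_gs {g : ℂ → ℂ} (hg : CC g) (σ : ℝ) (ξ : ℂ) : CC (gs σ ξ g) := gs_cc hg

theorem cc_dr {g : ℂ → ℂ} (hg : CC g) (e : ℂ) : CC (dr e g) := by
  unfold dr
  exact cc_mul hg (by fun_prop)

theorem cc_add' {g h : ℂ → ℂ} (hg : CC g) (hh : CC h) : CC (fun ζ => g ζ + h ζ) :=
  ⟨hg.1.add hh.1, hg.2.add hh.2⟩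

theorem cc_zero : CC (fun _ => 0) := ⟨continuous_const, HasCompactSupport.zero⟩

theorem cc_sum (A : Finset ℤ) (u : ℤ → ℂ → ℂ) (h : ∀ i ∈ A, CC (u i)) :
    CC (fun ζ => ∑ i ∈ A, u i ζ) := by
  classical
  induction A using Finset.induction_on with
  | empty => simpa using cc_zero
  | insert a A ha ih =>
    simp only [Finset.sum_insert ha]
    exact cc_add' (h a (Finset.mem_insert_self a A))
      (ih fun i hi => h i (Finset.mem_insert_of_mem hi))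

theorem cc_int {g : ℂ → ℂ} (hg : CC g) (x : ℂ) : Integrable (fun ζ => ch x ζ * g ζ) := by
  have := cc_mul hg (continuous_ch x)
  exact this.1.integrable_of_hasCompactSupport this.2

theorem iF_add {g h : ℂ → ℂ} (hg : CC g) (hh : CC h) (x : ℂ) :
    iF (fun ζ => g ζ + h ζ) x = iF g x + iF h x := by
  unfold iF
  rw [← integral_add (cc_int hg x) (cc_int hh x)]
  congr 1; ext ζ; ring

theorem iF_sum (A : Finset ℤ) (u : ℤ → ℂ → ℂ) (h : ∀ i ∈ A, CC (u i)) (x : ℂ) :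
    iF (fun ζ => ∑ i ∈ A, u i ζ) x = ∑ i ∈ A, iF (u i) x := by
  unfold iF
  rw [← integral_finsetSum _ fun i hi => cc_int (h i hi) x]
  congr 1; ext ζ; rw [Finset.mul_sum]

theorem iF_smul (c : ℝ) (g : ℂ → ℂ) (x : ℂ) :
    iF (fun ζ => (c : ℂ) * g ζ) x = (c : ℂ) * iF g x := by
  unfold iF
  rw [← integral_const_mul]
  congr 1; ext ζ; ring

theorem gs_add (σ : ℝ) (ξ : ℂ) (g h : ℂ → ℂ) :
    gs σ ξ (fun ζ => g ζ + h ζ) = fun ζ => gs σ ξ g ζ + gs σ ξ h ζ := by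
  ext ζ; unfold gs; ring

theorem gs_sum (σ : ℝ) (ξ : ℂ) (A : Finset ℤ) (u : ℤ → ℂ → ℂ) :
    gs σ ξ (fun ζ => ∑ i ∈ A, u i ζ) = fun ζ => ∑ i ∈ A, gs σ ξ (u i) ζ := by
  ext ζ; unfold gs; rw [Finset.mul_sum]

theorem dr_add (e : ℂ) (g h : ℂ → ℂ) :
    dr e (fun ζ => g ζ + h ζ) = fun ζ => dr e g ζ + dr e h ζ := by
  ext ζ; unfold dr; ring

theorem dr_sum (e : ℂ) (A : Finset ℤ) (u : ℤ → ℂ → ℂ) :
    dr e (fun ζ => ∑ i ∈ A, u i ζ) = fun ζ => ∑ i ∈ A, dr e (u i) ζ := by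
  ext ζ; unfold dr; rw [Finset.mul_sum]

theorem dr_gs (e : ℂ) (σ : ℝ) (ξ : ℂ) (g : ℂ → ℂ) : dr e (gs σ ξ g) = gs σ ξ (dr e g) := by
  ext ζ; unfold dr gs; ring

/-! ### telescoping -/

theorem tele (f : ℤ → ℝ) (a b : ℤ) (h : a ≤ b) :
    ∑ i ∈ Finset.Ico a b, (f (i + 1) - f i) = f b - f a := by
  induction b, h using Int.leInduction with
  | base => simp
  | succ b hb ih =>
    have e : Finset.Ico a (b + 1) = insert b (Finset.Ico a b) := by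
      ext x; simp only [Finset.mem_Ico, Finset.mem_insert]; omega
    rw [e, Finset.sum_insert (by simp), ih]; ring

theorem filt_lt (a b t : ℤ) :
    (Finset.Icc a b).filter (· < t) = Finset.Ico a (min t (b + 1)) := by
  ext x; simp only [Finset.mem_filter, Finset.mem_Icc, Finset.mem_Ico]; omega

theorem filt_ge (a b t : ℤ) :
    (Finset.Icc a b).filter (fun i => t ≤ i) = Finset.Ico (max t a) (b + 1) := by
  ext x; simp only [Finset.mem_filter, Finset.mem_Icc, Finset.mem_Ico]; omega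

/-- the shells -/
noncomputable abbrev II (R : ℕ) : Finset ℤ := Finset.Icc (-((R : ℤ) + 4)) (R + 4)

theorem lo_one (hF : StmtFac) {R : ℕ} {g : ℂ → ℂ} (hg : Sup R g) {ζ : ℂ} (h0 : g ζ ≠ 0) (t : ℤ)
    (ht : (R : ℤ) ≤ t) : lo t ζ = 1 := by
  apply hF.2.1
  refine (hg ζ h0).2.trans ?_
  exact zpow_le_zpow_right₀ (by norm_num) ht

theorem lo_zero (hF : StmtFac) {R : ℕ} {g : ℂ → ℂ} (hg : Sup R g) {ζ : ℂ} (h0 : g ζ ≠ 0) (t : ℤ)
    (ht : t ≤ -(R : ℤ) - 1) : lo t ζ = 0 := by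
  apply hF.2.2.1
  have h1 : (2 : ℝ) ^ t ≤ (2 : ℝ) ^ (-(R : ℤ) - 1) := zpow_le_zpow_right₀ (by norm_num) ht
  have h2 : (2 : ℝ) ^ (-(R : ℤ) - 1) = (2 : ℝ) ^ (-(R : ℤ)) / 2 := by
    rw [zpow_sub₀ (by norm_num)]; simp
  have h3 := (hg ζ h0).1
  have h4 : (0 : ℝ) < (2 : ℝ) ^ t := by positivity
  have h5 : (0 : ℝ) < (2 : ℝ) ^ (-(R : ℤ)) := by positivity
  have h6 : (2 : ℝ) ^ t ≤ ‖ζ‖ / 2 := by rw [h2] at h1; linarith
  nlinarith [norm_nonneg ζ]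

theorem sum_lt (hF : StmtFac) {R : ℕ} {g : ℂ → ℂ} (hg : Sup R g) (t : ℤ) (ζ : ℂ) :
    ∑ i ∈ (II R).filter (· < t), cut (sh i) g ζ = cut (lo t) g ζ := by
  by_cases h0 : g ζ = 0
  · simp [cut, h0]
  have key : ∑ i ∈ (II R).filter (· < t), sh i ζ = lo t ζ := by
    rw [filt_lt]
    rcases le_or_gt (-((R : ℤ) + 4)) (min t ((R : ℤ) + 4 + 1)) with h | h
    · have := tele (fun i => lo i ζ) _ _ h
      have e : ∀ i, sh i ζ = lo (i + 1) ζ - lo i ζ := fun i => rfl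
      simp only [e]
      rw [this, lo_zero hF hg h0 (-((R : ℤ) + 4)) (by omega), sub_zero]
      rcases le_or_gt t ((R : ℤ) + 4 + 1) with h1 | h1
      · rw [min_eq_left h1]
      · rw [min_eq_right h1.le, lo_one hF hg h0 _ (by omega), lo_one hF hg h0 _ (by omega)]
    · have : Finset.Ico (-((R : ℤ) + 4)) (min t ((R : ℤ) + 4 + 1)) = ∅ := by
        apply Finset.Ico_eq_empty; omega
      rw [this, Finset.sum_empty, lo_zero hF hg h0 t (by omega)]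
  unfold cut
  rw [← Finset.sum_mul, ← key]
  push_cast
  rfl

theorem sum_all (hF : StmtFac) {R : ℕ} {g : ℂ → ℂ} (hg : Sup R g) (ζ : ℂ) :
    ∑ i ∈ II R, cut (sh i) g ζ = g ζ := by
  have h1 := sum_lt hF hg ((R : ℤ) + 5) ζ
  have h2 : (II R).filter (· < ((R : ℤ) + 5)) = II R := by
    apply Finset.filter_true_of_mem
    intro x hx
    simp only [Finset.mem_Icc] at hx
    omega
  rw [h2] at h1
  rw [h1]
  by_cases h0 : g ζ = 0
  · simp [cut, h0]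
  · unfold cut
    rw [lo_one hF hg h0 _ (by omega)]; simp

theorem split (hF : StmtFac) {R : ℕ} {g : ℂ → ℂ} (hg : Sup R g) (s : ℤ) (L : ℕ) (ζ : ℂ) :
    ∑ i ∈ (II R).filter (fun i => s ≤ i ∧ i < s + L), cut (sh i) g ζ
      = cut (bd s (s + L)) g ζ ∧
    g ζ = (cut (lo s) g ζ + ∑ i ∈ (II R).filter (fun i => s + L ≤ i), cut (sh i) g ζ)
      + cut (bd s (s + L)) g ζ := by
  have h1 := sum_lt hF hg s ζ
  have h2 := sum_lt hF hg (s + L) ζ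
  have h3 := sum_all hF hg ζ
  have e1 : (II R).filter (· < s + (L : ℤ)) = (II R).filter (· < s) ∪
      (II R).filter (fun i => s ≤ i ∧ i < s + L) := by
    ext x; simp only [Finset.mem_filter, Finset.mem_union, Finset.mem_Icc]; omega
  have d1 : Disjoint ((II R).filter (· < s)) ((II R).filter (fun i => s ≤ i ∧ i < s + L)) := by
    rw [Finset.disjoint_left]; intro x hx hy
    simp only [Finset.mem_filter] at hx hy; omega
  have h4 : cut (bd s (s + L)) g ζ = cut (lo (s + L)) g ζ - cut (lo s) g ζ := by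
    unfold cut bd; push_cast; ring
  have h5 : ∑ i ∈ (II R).filter (fun i => s ≤ i ∧ i < s + L), cut (sh i) g ζ
      = cut (bd s (s + L)) g ζ := by
    rw [e1, Finset.sum_union d1, h1] at h2
    rw [h4, ← h2]; ring
  refine ⟨h5, ?_⟩
  have e2 := Finset.sum_filter_add_sum_filter_not (II R) (· < s + (L : ℤ))
    (fun i => cut (sh i) g ζ)
  have e3 : (II R).filter (fun i => ¬ i < s + (L : ℤ))
      = (II R).filter (fun i => s + L ≤ i) := by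
    ext x; simp only [Finset.mem_filter, not_lt]
  rw [e3, h3, h2] at e2
  rw [← e2, h4]; ring

/-! ### weights -/

theorem wsum_lt (R : ℕ) (s : ℤ) :
    ∑ i ∈ (II R).filter (· < s), (2 : ℝ) ^ (i - s) ≤ 1 := by
  rw [filt_lt]
  rcases le_or_gt (-((R : ℤ) + 4)) (min s ((R : ℤ) + 4 + 1)) with h | h
  · have := tele (fun i => (2 : ℝ) ^ (i - s)) _ _ h
    have e : ∀ i : ℤ, (2 : ℝ) ^ (i - s) = (2 : ℝ) ^ (i + 1 - s) - (2 : ℝ) ^ (i - s) := by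
      intro i
      have : i + 1 - s = (i - s) + 1 := by ring
      rw [this, zpow_add_one₀ (by norm_num)]; ring
    rw [Finset.sum_congr rfl (fun i _ => e i)]
    rw [this]
    have h1 : (2 : ℝ) ^ (min s ((R : ℤ) + 4 + 1) - s) ≤ (2 : ℝ) ^ (0 : ℤ) :=
      zpow_le_zpow_right₀ (by norm_num) (by omega)
    have h2 : (0 : ℝ) < (2 : ℝ) ^ (-((R : ℤ) + 4) - s) := by positivity
    rw [zpow_zero] at h1
    linarith
  · rw [Finset.Ico_eq_empty (by omega)]; simp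

theorem wsum_ge (R : ℕ) (t : ℤ) :
    ∑ i ∈ (II R).filter (fun i => t ≤ i), (2 : ℝ) ^ (t - i) ≤ 2 := by
  rw [filt_ge]
  rcases le_or_gt (max t (-((R : ℤ) + 4))) ((R : ℤ) + 4 + 1) with h | h
  · have := tele (fun i => -(2 : ℝ) ^ (t - i + 1)) _ _ h
    have e : ∀ i : ℤ, (2 : ℝ) ^ (t - i) = -(2 : ℝ) ^ (t - (i + 1) + 1) - -(2 : ℝ) ^ (t - i + 1) := by
      intro i
      have : t - (i + 1) + 1 = t - i := by ring
      rw [this, zpow_add_one₀ (by norm_num)]; ring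
    rw [Finset.sum_congr rfl (fun i _ => e i)]
    rw [this]
    have h1 : (2 : ℝ) ^ (t - max t (-((R : ℤ) + 4)) + 1) ≤ (2 : ℝ) ^ (1 : ℤ) :=
      zpow_le_zpow_right₀ (by norm_num) (by omega)
    have h2 : (0 : ℝ) < (2 : ℝ) ^ (t - ((R : ℤ) + 4 + 1) + 1) := by positivity
    rw [zpow_one] at h1
    linarith
  · rw [Finset.Ico_eq_empty (by omega)]; simp

/-- weighted Cauchy-Schwarz -/
theorem wcs (A : Finset ℤ) (z : ℤ → ℂ) (w : ℤ → ℝ) (W : ℝ) (hw : ∀ i ∈ A, 0 < w i)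
    (hW : ∑ i ∈ A, w i ≤ W) : ‖∑ i ∈ A, z i‖ ^ 2 ≤ W * ∑ i ∈ A, ‖z i‖ ^ 2 / w i := by
  have h1 : ‖∑ i ∈ A, z i‖ ≤ ∑ i ∈ A, ‖z i‖ := norm_sum_le _ _
  have h2 : (∑ i ∈ A, ‖z i‖) ^ 2 ≤ (∑ i ∈ A, w i) * ∑ i ∈ A, ‖z i‖ ^ 2 / w i := by
    have := Finset.sum_mul_sq_le_sq_mul_sq A (fun i => Real.sqrt (w i))
      (fun i => ‖z i‖ / Real.sqrt (w i))
    have e1 : ∑ i ∈ A, Real.sqrt (w i) * (‖z i‖ / Real.sqrt (w i)) = ∑ i ∈ A, ‖z i‖ := by
      apply Finset.sum_congr rfl; intro i hi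
      have : Real.sqrt (w i) ≠ 0 := (Real.sqrt_pos.mpr (hw i hi)).ne'
      field_simp
    have e2 : ∑ i ∈ A, Real.sqrt (w i) ^ 2 = ∑ i ∈ A, w i := by
      apply Finset.sum_congr rfl; intro i hi
      exact Real.sq_sqrt (hw i hi).le
    have e3 : ∑ i ∈ A, (‖z i‖ / Real.sqrt (w i)) ^ 2 = ∑ i ∈ A, ‖z i‖ ^ 2 / w i := by
      apply Finset.sum_congr rfl; intro i hi
      rw [div_pow, Real.sq_sqrt (hw i hi).le]
    rw [e1, e2, e3] at this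
    exact this
  have h3 : 0 ≤ ∑ i ∈ A, ‖z i‖ ^ 2 / w i :=
    Finset.sum_nonneg fun i hi => div_nonneg (by positivity) (hw i hi).le
  calc ‖∑ i ∈ A, z i‖ ^ 2 ≤ (∑ i ∈ A, ‖z i‖) ^ 2 := by
        apply pow_le_pow_left₀ (norm_nonneg _) h1
    _ ≤ (∑ i ∈ A, w i) * ∑ i ∈ A, ‖z i‖ ^ 2 / w i := h2
    _ ≤ W * ∑ i ∈ A, ‖z i‖ ^ 2 / w i := mul_le_mul_of_nonneg_right hW h3

theorem qa_nonneg (i : ℤ) (g : ℂ → ℂ) (x : ℂ) : 0 ≤ qa i g x := by
  unfold qa KK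
  exact integral_nonneg fun y => by positivity

/-- the weighted sum of the shells -/
noncomputable def SS (R : ℕ) (s : ℤ) (L : ℕ) (g : ℂ → ℂ) (x : ℂ) : ℝ :=
  ∑ i ∈ II R, wt s L i * qa i g x

theorem wt_pos (s : ℤ) (L : ℕ) (i : ℤ) : 0 < wt s L i := by unfold wt; positivity

theorem wt_lt {s : ℤ} {L : ℕ} {i : ℤ} (h : i < s) : wt s L i = (2 : ℝ) ^ (i - s) := by
  unfold wt; congr 1; omega

theorem wt_mid {s : ℤ} {L : ℕ} {i : ℤ} (h : s ≤ i) (h' : i < s + L) : wt s L i = 1 := by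
  unfold wt
  have : min (i - s) 0 + min (s + L - i) 0 = 0 := by omega
  rw [this]; simp

theorem wt_ge {s : ℤ} {L : ℕ} {i : ℤ} (h : s + L ≤ i) : wt s L i = (2 : ℝ) ^ (s + L - i) := by
  unfold wt; congr 1; omega

theorem ss_sub (R : ℕ) (s : ℤ) (L : ℕ) (g : ℂ → ℂ) (x : ℂ) (A : Finset ℤ) (hA : A ⊆ II R) :
    ∑ i ∈ A, wt s L i * qa i g x ≤ SS R s L g x := by
  apply Finset.sum_le_sum_of_subset_of_nonneg hA
  intro i _ _
  exact mul_nonneg (wt_pos s L i).le (qa_nonneg i g x)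

theorem ss_nonneg (R : ℕ) (s : ℤ) (L : ℕ) (g : ℂ → ℂ) (x : ℂ) : 0 ≤ SS R s L g x :=
  Finset.sum_nonneg fun i _ => mul_nonneg (wt_pos s L i).le (qa_nonneg i g x)

/-! ### pointwise estimates -/

/-- the frequencies outside of the block -/
noncomputable def gO (R : ℕ) (s : ℤ) (L : ℕ) (g : ℂ → ℂ) (ζ : ℂ) : ℂ :=
  cut (lo s) g ζ + ∑ i ∈ (II R).filter (fun i => s + L ≤ i), cut (sh i) g ζ

theorem four_zpow (i : ℤ) : (4 : ℝ) ^ i = ((2 : ℝ) ^ i) ^ 2 := by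
  rw [← zpow_natCast, ← zpow_mul, mul_comm, zpow_mul]; norm_num

theorem zero_le_M {g : ℂ → ℂ} {M : ℂ → ℝ} (h : Dom g M) (x : ℂ) : 0 ≤ M x := h.2.1 x

theorem ptA (C c : ℝ) (hC : 0 < C) (hF : StmtFac)
    {σ ν : ℝ} {s : ℤ} {L R : ℕ} {g : ℂ → ℂ} {ξ x e : ℂ} (hg : CC g) (hR : Sup R g)
    (hB : ∀ i : ℤ, i < s → ‖iF (gs σ ξ (dr e (cut (sh i) g))) x‖ ^ 2
      ≤ C * (4 : ℝ) ^ i * Real.exp (-(c * ν)) * qa i g x) :
    ‖iF (gs σ ξ (dr e (cut (lo s) g))) x‖ ^ 2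
      ≤ C * Real.exp (-(c * ν)) * (4 : ℝ) ^ s * SS R s L g x := by
  have e1 : cut (lo s) g = fun ζ => ∑ i ∈ (II R).filter (· < s), cut (sh i) g ζ := by
    ext ζ; exact (sum_lt hF hR s ζ).symm
  rw [e1, dr_sum, gs_sum, iF_sum]
  swap
  · intro i _; exact cc_gs (cc_dr (hF.2.2.2.2.1 g i i hg).2.2 e) σ ξ
  refine (wcs _ _ (fun i => (2 : ℝ) ^ (i - s)) 1 (fun i _ => by positivity)
    (wsum_lt R s)).trans ?_
  rw [one_mul]
  have h1 : ∀ i ∈ (II R).filter (· < s),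
      ‖iF (gs σ ξ (dr e (cut (sh i) g))) x‖ ^ 2 / (2 : ℝ) ^ (i - s)
        ≤ C * Real.exp (-(c * ν)) * (4 : ℝ) ^ s * (wt s L i * qa i g x) := by
    intro i hi
    rw [Finset.mem_filter] at hi
    rw [wt_lt hi.2, div_le_iff₀ (by positivity)]
    refine (hB i hi.2).trans ?_
    have e2 : (4 : ℝ) ^ i = (4 : ℝ) ^ s * ((2 : ℝ) ^ (i - s)) ^ 2 := by
      rw [← four_zpow, ← zpow_add₀ (by norm_num)]; congr 1; ring
    rw [e2]
    apply le_of_eq; ring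
  refine (Finset.sum_le_sum h1).trans ?_
  rw [← Finset.mul_sum]
  apply mul_le_mul_of_nonneg_left _ (by positivity)
  exact ss_sub R s L g x _ (Finset.filter_subset _ _)

theorem exp_four {c N ν : ℝ} (j : ℕ) (hN : ν ≤ N) (hc : 0 < c) (h2 : 2 ≤ c * ν) :
    Real.exp (-(c * (N * 4 ^ j))) ≤ Real.exp (-(c * ν)) * (1 / 64) ^ j := by
  have h4 : (1 : ℝ) + 3 * j ≤ 4 ^ j := by
    have := one_add_mul_le_pow (a := (3 : ℝ)) (by norm_num) j
    have e : (1 : ℝ) + 3 = 4 := by norm_num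
    rw [e] at this; linarith
  have hcN : 2 ≤ c * N := h2.trans (mul_le_mul_of_nonneg_left hN hc.le)
  have h5 : c * ν + 6 * j ≤ c * (N * 4 ^ j) := by
    have : c * N * (1 + 3 * j) ≤ c * N * 4 ^ j := mul_le_mul_of_nonneg_left h4 (by linarith)
    have h6 : c * ν ≤ c * N := mul_le_mul_of_nonneg_left hN hc.le
    have h7 : (2 : ℝ) * (3 * j) ≤ c * N * (3 * j) := mul_le_mul_of_nonneg_right hcN (by positivity)
    linarith
  have h8 : Real.exp (-(6 * (j : ℝ))) ≤ (1 / 64) ^ j := by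
    have e1 : Real.exp (-(6 * (j : ℝ))) = (Real.exp (-6)) ^ j := by
      rw [← Real.exp_nat_mul]; congr 1; ring
    rw [e1]
    apply pow_le_pow_left₀ (Real.exp_pos _).le
    have e2 : Real.exp (-6) = (Real.exp (-1)) ^ 6 := by
      rw [← Real.exp_nat_mul]; norm_num
    have e3 : Real.exp (-1) ≤ 1 / 2 := by
      rw [Real.exp_neg, inv_eq_one_div]
      have := Real.add_one_le_exp (1 : ℝ)
      apply one_div_le_one_div_of_le (by norm_num); linarith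
    rw [e2]
    calc Real.exp (-1) ^ 6 ≤ (1 / 2) ^ 6 := pow_le_pow_left₀ (Real.exp_pos _).le e3 6
      _ = 1 / 64 := by norm_num
  calc Real.exp (-(c * (N * 4 ^ j))) ≤ Real.exp (-(c * ν + 6 * j)) := by
        apply Real.exp_le_exp.mpr; linarith
    _ = Real.exp (-(c * ν)) * Real.exp (-(6 * (j : ℝ))) := by rw [← Real.exp_add]; congr 1; ring
    _ ≤ _ := mul_le_mul_of_nonneg_left h8 (Real.exp_pos _).le

theorem expH {c σ ν : ℝ} {s : ℤ} {L : ℕ} {i : ℤ} (hν : ν = σ ^ 2 * (4 : ℝ) ^ s)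
    (hν1 : 1 ≤ ν) (hc : 0 < c) (h2 : 2 ≤ c * ν) (hi : s + L ≤ i) :
    Real.exp (-(c * (σ * (2 : ℝ) ^ i) ^ 2))
      ≤ Real.exp (-(c * ν)) * ((2 : ℝ) ^ (s + L - i)) ^ 6 := by
  obtain ⟨j, hj⟩ : ∃ j : ℕ, i = s + L + j := ⟨(i - (s + L)).toNat, by omega⟩
  have hN : ν ≤ ν * 4 ^ L := by
    have : (1 : ℝ) ≤ 4 ^ L := one_le_pow₀ (by norm_num)
    nlinarith
  have h := exp_four (c := c) (N := ν * 4 ^ L) (ν := ν) j hN hc h2
  have e1 : (σ * (2 : ℝ) ^ i) ^ 2 = ν * 4 ^ L * 4 ^ j := by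
    rw [mul_pow, ← four_zpow, hj, zpow_add₀ (by norm_num), zpow_add₀ (by norm_num), hν,
      zpow_natCast, zpow_natCast]; ring
  have e2 : ((2 : ℝ) ^ (s + L - i)) ^ 6 = (1 / 64) ^ j := by
    have : s + (L : ℤ) - i = -(j : ℤ) := by omega
    rw [this, zpow_neg, zpow_natCast, inv_pow, ← pow_mul, mul_comm, pow_mul, one_div, inv_pow]
    norm_num
  rw [e1, e2]; exact h

theorem ptH0 (C c CH : ℝ) (hC : 0 < C) (hc : 0 < c) (hCH : 0 < CH) (hF : StmtFac)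
    {σ ν : ℝ} {s : ℤ} {L R : ℕ} {g : ℂ → ℂ} {M : ℂ → ℝ} {ξ x : ℂ} (hg : CC g) (hM : Dom g M)
    (hν : ν = σ ^ 2 * (4 : ℝ) ^ s) (hν1 : 1 ≤ ν) (h2 : 2 ≤ c * ν)
    (hq : ∀ a, qa a g x ≤ CH * M x)
    (hB : ∀ i : ℤ, s + L ≤ i → ‖iF (gs σ ξ (cut (sh i) g)) x‖ ^ 2
      ≤ C * Real.exp (-(c * (σ * (2 : ℝ) ^ i) ^ 2)) * qa i g x) :
    ‖iF (gs σ ξ (fun ζ => ∑ i ∈ (II R).filter (fun i => s + L ≤ i), cut (sh i) g ζ)) x‖ ^ 2
      ≤ 4 * C * CH * Real.exp (-(c * ν)) * M x := by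
  rw [gs_sum, iF_sum]
  swap
  · intro i _; exact cc_gs (hF.2.2.2.2.1 g i i hg).2.2 σ ξ
  refine (wcs _ _ (fun i => (2 : ℝ) ^ (s + L - i)) 2 (fun i _ => by positivity)
    (wsum_ge R (s + L))).trans ?_
  have h1 : ∀ i ∈ (II R).filter (fun i => s + L ≤ i),
      ‖iF (gs σ ξ (cut (sh i) g)) x‖ ^ 2 / (2 : ℝ) ^ (s + L - i)
        ≤ C * CH * Real.exp (-(c * ν)) * M x * (2 : ℝ) ^ (s + L - i) := by
    intro i hi
    rw [Finset.mem_filter] at hi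
    have hw0 : (0 : ℝ) < (2 : ℝ) ^ (s + L - i) := by positivity
    have hw1 : (2 : ℝ) ^ (s + L - i) ≤ 1 := by
      have : (2 : ℝ) ^ (s + L - i) ≤ (2 : ℝ) ^ (0 : ℤ) :=
        zpow_le_zpow_right₀ (by norm_num) (by omega)
      simpa using this
    have h3 := expH (c := c) (L := L) hν hν1 hc h2 hi.2
    set w := (2 : ℝ) ^ (s + L - i) with hw
    rw [div_le_iff₀ hw0]
    refine (hB i hi.2).trans ?_
    have hM0 := zero_le_M hM x
    calc C * Real.exp (-(c * (σ * (2 : ℝ) ^ i) ^ 2)) * qa i g x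
        ≤ C * (Real.exp (-(c * ν)) * w ^ 6) * (CH * M x) := by
          apply mul_le_mul (mul_le_mul_of_nonneg_left h3 hC.le) (hq i) (qa_nonneg i g x)
          positivity
      _ = C * CH * Real.exp (-(c * ν)) * M x * w ^ 6 := by ring
      _ ≤ C * CH * Real.exp (-(c * ν)) * M x * w ^ 2 := by
          apply mul_le_mul_of_nonneg_left _ (by positivity)
          exact pow_le_pow_of_le_one hw0.le hw1 (by norm_num)
      _ = C * CH * Real.exp (-(c * ν)) * M x * w * w := by ring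
  calc 2 * ∑ i ∈ (II R).filter (fun i => s + L ≤ i),
        ‖iF (gs σ ξ (cut (sh i) g)) x‖ ^ 2 / (2 : ℝ) ^ (s + L - i)
      ≤ 2 * ∑ i ∈ (II R).filter (fun i => s + L ≤ i),
        C * CH * Real.exp (-(c * ν)) * M x * (2 : ℝ) ^ (s + L - i) := by
        apply mul_le_mul_of_nonneg_left (Finset.sum_le_sum h1) (by norm_num)
    _ = 2 * (C * CH * Real.exp (-(c * ν)) * M x *
        ∑ i ∈ (II R).filter (fun i => s + L ≤ i), (2 : ℝ) ^ (s + L - i)) := by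
        rw [← Finset.mul_sum]
    _ ≤ 2 * (C * CH * Real.exp (-(c * ν)) * M x * 2) := by
        apply mul_le_mul_of_nonneg_left _ (by norm_num)
        apply mul_le_mul_of_nonneg_left (wsum_ge R (s + L))
        have hM0 := zero_le_M hM x
        positivity
    _ = _ := by ring

theorem ptH1 (C c : ℝ) (hC : 0 < C) (hc : 0 < c) (hF : StmtFac)
    {σ ν : ℝ} {s : ℤ} {L R : ℕ} {g : ℂ → ℂ} {ξ x e : ℂ} (hg : CC g)
    (hν : ν = σ ^ 2 * (4 : ℝ) ^ s) (hν1 : 1 ≤ ν) (h2 : 2 ≤ c * ν)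
    (hB : ∀ i : ℤ, s + L ≤ i → ‖iF (gs σ ξ (dr e (cut (sh i) g))) x‖ ^ 2
      ≤ C * (4 : ℝ) ^ i * Real.exp (-(c * (σ * (2 : ℝ) ^ i) ^ 2)) * qa i g x) :
    ‖iF (gs σ ξ (dr e (fun ζ => ∑ i ∈ (II R).filter (fun i => s + L ≤ i),
      cut (sh i) g ζ))) x‖ ^ 2
      ≤ 2 * C * Real.exp (-(c * ν)) * (4 : ℝ) ^ (s + L) * SS R s L g x := by
  rw [dr_sum, gs_sum, iF_sum]
  swap
  · intro i _; exact cc_gs (cc_dr (hF.2.2.2.2.1 g i i hg).2.2 e) σ ξ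
  refine (wcs _ _ (fun i => (2 : ℝ) ^ (s + L - i)) 2 (fun i _ => by positivity)
    (wsum_ge R (s + L))).trans ?_
  have h1 : ∀ i ∈ (II R).filter (fun i => s + L ≤ i),
      ‖iF (gs σ ξ (dr e (cut (sh i) g))) x‖ ^ 2 / (2 : ℝ) ^ (s + L - i)
        ≤ C * Real.exp (-(c * ν)) * (4 : ℝ) ^ (s + L) * (wt s L i * qa i g x) := by
    intro i hi
    rw [Finset.mem_filter] at hi
    have hw0 : (0 : ℝ) < (2 : ℝ) ^ (s + L - i) := by positivity
    have hw1 : (2 : ℝ) ^ (s + L - i) ≤ 1 := by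
      have : (2 : ℝ) ^ (s + L - i) ≤ (2 : ℝ) ^ (0 : ℤ) :=
        zpow_le_zpow_right₀ (by norm_num) (by omega)
      simpa using this
    have h3 := expH (c := c) (L := L) hν hν1 hc h2 hi.2
    rw [wt_ge hi.2]
    have e4 : (4 : ℝ) ^ i * ((2 : ℝ) ^ (s + L - i)) ^ 2 = (4 : ℝ) ^ (s + (L : ℤ)) := by
      rw [← four_zpow, ← zpow_add₀ (by norm_num)]; congr 1; ring
    set w := (2 : ℝ) ^ (s + L - i) with hw
    rw [div_le_iff₀ hw0]
    refine (hB i hi.2).trans ?_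
    have hq := qa_nonneg i g x
    calc C * (4 : ℝ) ^ i * Real.exp (-(c * (σ * (2 : ℝ) ^ i) ^ 2)) * qa i g x
        ≤ C * (4 : ℝ) ^ i * (Real.exp (-(c * ν)) * w ^ 6) * qa i g x := by
          apply mul_le_mul_of_nonneg_right (mul_le_mul_of_nonneg_left h3 (by positivity)) hq
      _ = C * Real.exp (-(c * ν)) * (4 : ℝ) ^ (s + (L : ℤ)) * qa i g x * w ^ 4 := by
          rw [← e4]; ring
      _ ≤ C * Real.exp (-(c * ν)) * (4 : ℝ) ^ (s + (L : ℤ)) * qa i g x * w ^ 2 := by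
          apply mul_le_mul_of_nonneg_left _ (by positivity)
          exact pow_le_pow_of_le_one hw0.le hw1 (by norm_num)
      _ = C * Real.exp (-(c * ν)) * (4 : ℝ) ^ (s + (L : ℤ)) * (w * qa i g x) * w := by ring
  have h4 := Finset.sum_le_sum h1
  rw [← Finset.mul_sum] at h4
  have h5 := ss_sub R s L g x ((II R).filter (fun i => s + (L : ℤ) ≤ i)) (Finset.filter_subset _ _)
  have h6 : C * Real.exp (-(c * ν)) * (4 : ℝ) ^ (s + (L : ℤ)) *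
      ∑ i ∈ (II R).filter (fun i => s + (L : ℤ) ≤ i), wt s L i * qa i g x
      ≤ C * Real.exp (-(c * ν)) * (4 : ℝ) ^ (s + (L : ℤ)) * SS R s L g x :=
    mul_le_mul_of_nonneg_left h5 (by positivity)
  linarith

theorem ptB (C : ℝ) (hC : 0 < C) (hF : StmtFac)
    {σ : ℝ} (hσ : 0 < σ) {s : ℤ} {L R : ℕ} {g : ℂ → ℂ} {ξ x e : ℂ} (hg : CC g) (hR : Sup R g)
    (hB : ∀ i : ℤ, s ≤ i → ‖iF (gs σ ξ (dr e (cut (sh i) g))) x‖ ^ 2
      ≤ C * (4 : ℝ) ^ i * (σ * (2 : ℝ) ^ i) ^ 2 * qa i g x) :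
    ‖iF (gs σ ξ (dr e (cut (bd s (s + L)) g))) x‖ ^ 2
      ≤ L * C * (4 : ℝ) ^ (s + L) * (σ * (2 : ℝ) ^ (s + L)) ^ 2 * SS R s L g x := by
  have e1 : cut (bd s (s + L)) g = fun ζ => ∑ i ∈ (II R).filter (fun i => s ≤ i ∧ i < s + L),
      cut (sh i) g ζ := by
    ext ζ; exact (split hF hR s L ζ).1.symm
  rw [e1, dr_sum, gs_sum, iF_sum]
  swap
  · intro i _; exact cc_gs (cc_dr (hF.2.2.2.2.1 g i i hg).2.2 e) σ ξ
  have hcard : ∑ i ∈ (II R).filter (fun i => s ≤ i ∧ i < s + (L : ℤ)), (1 : ℝ) ≤ L := by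
    rw [Finset.sum_const, nsmul_eq_mul, mul_one]
    have : (II R).filter (fun i => s ≤ i ∧ i < s + (L : ℤ)) ⊆ Finset.Ico s (s + L) := by
      intro i hi
      rw [Finset.mem_filter] at hi
      rw [Finset.mem_Ico]; exact hi.2
    have h2 := Finset.card_le_card this
    rw [Int.card_Ico] at h2
    have h3 : (s + (L : ℤ) - s).toNat = L := by omega
    rw [h3] at h2
    exact_mod_cast h2
  refine (wcs _ _ (fun _ => 1) L (fun i _ => by norm_num) hcard).trans ?_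
  have h1 : ∀ i ∈ (II R).filter (fun i => s ≤ i ∧ i < s + (L : ℤ)),
      ‖iF (gs σ ξ (dr e (cut (sh i) g))) x‖ ^ 2 / 1
        ≤ C * (4 : ℝ) ^ (s + (L : ℤ)) * (σ * (2 : ℝ) ^ (s + (L : ℤ))) ^ 2 *
          (wt s L i * qa i g x) := by
    intro i hi
    rw [Finset.mem_filter] at hi
    rw [wt_mid hi.2.1 hi.2.2, div_one, one_mul]
    refine (hB i hi.2.1).trans ?_
    have h2 : (2 : ℝ) ^ i ≤ (2 : ℝ) ^ (s + (L : ℤ)) :=
      zpow_le_zpow_right₀ (by norm_num) hi.2.2.le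
    have h3 : (4 : ℝ) ^ i ≤ (4 : ℝ) ^ (s + (L : ℤ)) :=
      zpow_le_zpow_right₀ (by norm_num) hi.2.2.le
    apply mul_le_mul_of_nonneg_right _ (qa_nonneg i g x)
    apply mul_le_mul (mul_le_mul_of_nonneg_left h3 hC.le) _ (by positivity) (by positivity)
    apply pow_le_pow_left₀ (by positivity)
    exact mul_le_mul_of_nonneg_left h2 hσ.le
  have h4 := Finset.sum_le_sum h1
  rw [← Finset.mul_sum] at h4
  have h5 := ss_sub R s L g x ((II R).filter (fun i => s ≤ i ∧ i < s + (L : ℤ)))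
    (Finset.filter_subset _ _)
  have h6 : C * (4 : ℝ) ^ (s + (L : ℤ)) * (σ * (2 : ℝ) ^ (s + (L : ℤ))) ^ 2 *
      ∑ i ∈ (II R).filter (fun i => s ≤ i ∧ i < s + (L : ℤ)), wt s L i * qa i g x
      ≤ C * (4 : ℝ) ^ (s + (L : ℤ)) * (σ * (2 : ℝ) ^ (s + (L : ℤ))) ^ 2 * SS R s L g x :=
    mul_le_mul_of_nonneg_left h5 (by positivity)
  have h7 : (L : ℝ) * ∑ i ∈ (II R).filter (fun i => s ≤ i ∧ i < s + (L : ℤ)),
      ‖iF (gs σ ξ (dr e (cut (sh i) g))) x‖ ^ 2 / 1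
      ≤ L * (C * (4 : ℝ) ^ (s + (L : ℤ)) * (σ * (2 : ℝ) ^ (s + (L : ℤ))) ^ 2 * SS R s L g x) :=
    mul_le_mul_of_nonneg_left (h4.trans h6) (by positivity)
  refine h7.trans (le_of_eq ?_)
  ring

theorem sq_add_le (a b : ℂ) : ‖a + b‖ ^ 2 ≤ 2 * (‖a‖ ^ 2 + ‖b‖ ^ 2) := by
  have h := norm_add_le a b
  have := norm_nonneg (a + b)
  nlinarith [sq_nonneg (‖a‖ - ‖b‖), norm_nonneg a, norm_nonneg b]

theorem pt (hW : StmtWinB) (hD : Even.StmtDomF) (hDH : StmtDomH) (hF : StmtFac) :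
    ∃ K c : ℝ, 0 < K ∧ 0 < c ∧ ∀ (σ ν : ℝ) (s : ℤ) (L R : ℕ) (g : ℂ → ℂ) (M : ℂ → ℝ) (ξ x e : ℂ),
    CC g → Sup R g → Dom g M → ‖e‖ ≤ 1 → 0 < σ → ν = σ ^ 2 * (4 : ℝ) ^ s → 1 ≤ ν → 2 ≤ c * ν →
    (2 : ℝ) ^ (s + 2) ≤ ‖ξ‖ → ‖ξ‖ ≤ 3 / 8 * (2 : ℝ) ^ (s + L) →
    ‖iF (gs σ ξ (gO R s L g)) x‖ ^ 2 ≤ K * Real.exp (-(c * ν)) * M x ∧
    ‖iF (gs σ ξ (cut (bd s (s + L)) g)) x‖ ^ 2 ≤ K * M x ∧
    ‖iF (gs σ ξ (dr e (gO R s L g))) x‖ ^ 2
      ≤ K * Real.exp (-(c * ν)) * (4 : ℝ) ^ (s + L) * SS R s L g x ∧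
    ‖iF (gs σ ξ (dr e (cut (bd s (s + L)) g))) x‖ ^ 2
      ≤ K * L * (4 : ℝ) ^ (s + L) * (σ * (2 : ℝ) ^ (s + L)) ^ 2 * SS R s L g x := by
  obtain ⟨C, c, hC, hc, hW1, hW2⟩ := hW
  obtain ⟨CD, hCD, hD⟩ := hD
  obtain ⟨CH, hCH, hDH⟩ := hDH
  refine ⟨2 * (C + 4 * C * CH) + C * CD + 6 * C, c, by positivity, hc, ?_⟩
  intro σ ν s L R g M ξ x e hg hR hM he hσ hν hν1 hcν hξ1 hξ2
  have hq : ∀ a, qa a g x ≤ CH * M x := (hDH g M 0 x hg hM le_rfl).2.2.2.2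
  have hM0 := zero_le_M hM x
  have hS0 := ss_nonneg R s L g x
  have p2 : ∀ i : ℤ, (0 : ℝ) < (2 : ℝ) ^ i := fun i => by positivity
  have hσs : 1 ≤ σ * (2 : ℝ) ^ s := by
    rw [four_zpow, ← mul_pow] at hν
    have := p2 s
    by_contra hcon
    push Not at hcon
    have : (σ * (2 : ℝ) ^ s) ^ 2 < 1 := by
      have h0 : 0 < σ * (2 : ℝ) ^ s := by positivity
      nlinarith
    linarith
  have hσi : ∀ i : ℤ, s ≤ i → 1 ≤ σ * (2 : ℝ) ^ i := by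
    intro i hi
    refine hσs.trans (mul_le_mul_of_nonneg_left ?_ hσ.le)
    exact zpow_le_zpow_right₀ (by norm_num) hi
  have e22 : (2 : ℝ) ^ (s + 2) = 4 * (2 : ℝ) ^ s := by
    rw [zpow_add₀ (by norm_num)]; norm_num; ring
  have hξσ : 1 ≤ σ * ‖ξ‖ := by
    refine hσs.trans (mul_le_mul_of_nonneg_left ?_ hσ.le)
    have := p2 s
    linarith
  have hν2 : ν ≤ σ ^ 2 * ‖ξ‖ ^ 2 := by
    rw [hν, four_zpow]
    apply mul_le_mul_of_nonneg_left _ (by positivity)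
    apply pow_le_pow_left₀ (p2 s).le
    have := p2 s
    linarith
  have hexp : Real.exp (-(c * σ ^ 2 * ‖ξ‖ ^ 2)) ≤ Real.exp (-(c * ν)) := by
    apply Real.exp_le_exp.mpr
    have := mul_le_mul_of_nonneg_left hν2 hc.le
    linarith
  -- low frequencies
  have A0 : ‖iF (gs σ ξ (cut (lo s) g)) x‖ ^ 2 ≤ C * Real.exp (-(c * ν)) * M x := by
    have h1 := (hW2 σ s ξ g x e hσ hg he).2.1 (by rw [e22] at hξ1; exact hξ1) hξσ
    refine h1.trans ?_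
    have h2 : ∫ y, KK ((2 : ℝ) ^ (-s)) (x - y) * ‖iF g y‖ ^ 2 ≤ M x := hM.2.2 s x
    have h3 : 0 ≤ ∫ y, KK ((2 : ℝ) ^ (-s)) (x - y) * ‖iF g y‖ ^ 2 := by
      unfold KK
      exact integral_nonneg fun y => by positivity
    exact mul_le_mul (mul_le_mul_of_nonneg_left hexp hC.le) h2 h3 (by positivity)
  have A1 : ‖iF (gs σ ξ (dr e (cut (lo s) g))) x‖ ^ 2
      ≤ C * Real.exp (-(c * ν)) * (4 : ℝ) ^ s * SS R s L g x := by
    apply ptA C c hC hF hg hR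
    intro i hi
    have h8 : 8 * (2 : ℝ) ^ i ≤ ‖ξ‖ := by
      have h9 : (2 : ℝ) ^ (i + 3) ≤ (2 : ℝ) ^ (s + 2) :=
        zpow_le_zpow_right₀ (by norm_num) (by omega)
      have e3 : (2 : ℝ) ^ (i + 3) = 8 * (2 : ℝ) ^ i := by
        rw [zpow_add₀ (by norm_num)]; norm_num; ring
      linarith
    have h1 := ((hW2 σ i ξ g x e hσ hg he).1 h8 hξσ).2
    refine h1.trans ?_
    apply mul_le_mul_of_nonneg_right _ (qa_nonneg i g x)
    exact mul_le_mul_of_nonneg_left hexp (by positivity)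
  -- high frequencies
  have h38 : ∀ i : ℤ, s + L ≤ i → ‖ξ‖ ≤ 3 / 8 * (2 : ℝ) ^ i := by
    intro i hi
    refine hξ2.trans (mul_le_mul_of_nonneg_left ?_ (by norm_num))
    exact zpow_le_zpow_right₀ (by norm_num) hi
  have H0 := ptH0 C c CH hC hc hCH hF (R := R) (L := L) (ξ := ξ) (x := x) hg hM hν hν1 hcν hq
    (fun i hi => ((hW2 σ i ξ g x e hσ hg he).2.2.2 (hσi i (by omega)) (h38 i hi)).1)
  have H1 := ptH1 C c hC hc hF (R := R) (L := L) (ξ := ξ) (x := x) (e := e) hg hν hν1 hcν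
    (fun i hi => ((hW2 σ i ξ g x e hσ hg he).2.2.2 (hσi i (by omega)) (h38 i hi)).2)
  have ccA : CC (cut (lo s) g) := (hF.2.2.2.2.1 g s s hg).1
  have ccH : CC (fun ζ => ∑ i ∈ (II R).filter (fun i => s + L ≤ i), cut (sh i) g ζ) :=
    cc_sum _ _ fun i _ => (hF.2.2.2.2.1 g i i hg).2.2
  have ccB : CC (cut (bd s (s + L)) g) := (hF.2.2.2.2.1 g s (s + L) hg).2.1
  have E0 : iF (gs σ ξ (gO R s L g)) x = iF (gs σ ξ (cut (lo s) g)) x +
      iF (gs σ ξ (fun ζ => ∑ i ∈ (II R).filter (fun i => s + L ≤ i), cut (sh i) g ζ)) x := by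
    unfold gO
    rw [gs_add, iF_add (cc_gs ccA σ ξ) (cc_gs ccH σ ξ)]
  have E1 : iF (gs σ ξ (dr e (gO R s L g))) x = iF (gs σ ξ (dr e (cut (lo s) g))) x +
      iF (gs σ ξ (dr e (fun ζ => ∑ i ∈ (II R).filter (fun i => s + L ≤ i), cut (sh i) g ζ))) x := by
    unfold gO
    rw [dr_add, gs_add, iF_add (cc_gs (cc_dr ccA e) σ ξ) (cc_gs (cc_dr ccH e) σ ξ)]
  have hE := Real.exp_pos (-(c * ν))
  refine ⟨?_, ?_, ?_, ?_⟩
  · rw [E0]
    refine (sq_add_le _ _).trans ?_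
    have : 0 ≤ (C * CD + 6 * C) * (Real.exp (-(c * ν)) * M x) := by positivity
    nlinarith
  · refine (hW1 σ ξ _ x hσ ccB).trans ?_
    have h1 := ((hD g M hg hM x).2.2.2 σ hσ).2.2 s (s + L)
    have h2 := mul_le_mul_of_nonneg_left h1 hC.le
    have : 0 ≤ (2 * (C + 4 * C * CH) + 6 * C) * M x := by positivity
    nlinarith
  · rw [E1]
    refine (sq_add_le _ _).trans ?_
    have h4 : (4 : ℝ) ^ s ≤ (4 : ℝ) ^ (s + (L : ℤ)) :=
      zpow_le_zpow_right₀ (by norm_num) (by omega)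
    have h5 : C * Real.exp (-(c * ν)) * (4 : ℝ) ^ s * SS R s L g x
        ≤ C * Real.exp (-(c * ν)) * (4 : ℝ) ^ (s + (L : ℤ)) * SS R s L g x := by
      apply mul_le_mul_of_nonneg_right _ hS0
      exact mul_le_mul_of_nonneg_left h4 (by positivity)
    have : 0 ≤ (2 * (C + 4 * C * CH) + C * CD) *
      (Real.exp (-(c * ν)) * (4 : ℝ) ^ (s + (L : ℤ)) * SS R s L g x) := by positivity
    nlinarith
  · have h1 := ptB C hC hF hσ (s := s) (L := L) (R := R) (ξ := ξ) (x := x) (e := e) hg hR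
      (fun i hi => ((hW2 σ i ξ g x e hσ hg he).2.2.1 (hσi i hi)).2)
    refine h1.trans ?_
    have : 0 ≤ (2 * (C + 4 * C * CH) + C * CD + 5 * C) *
      (L * (4 : ℝ) ^ (s + (L : ℤ)) * (σ * (2 : ℝ) ^ (s + (L : ℤ))) ^ 2 * SS R s L g x) := by
      positivity
    nlinarith

theorem rpow_half {a X : ℝ} (r : ℝ) (ha : 0 ≤ a) (hr : 0 < r) (h : a ^ 2 ≤ X) :
    a ^ (2 * r) ≤ X ^ r := by
  rw [Real.rpow_mul ha]
  apply Real.rpow_le_rpow (by positivity) _ hr.le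
  rw [Real.rpow_two]; exact h

theorem pt2 (p ε : ℝ) (L : ℕ) (hp : 2 < p) (hε : 0 < ε) (hQ : StmtQel) (hW : StmtWinB)
    (hD : Even.StmtDomF) (hDH : StmtDomH) (hF : StmtFac) :
    ∃ K c : ℝ, 0 < K ∧ 0 < c ∧ ∀ (σ ν : ℝ) (s : ℤ) (R : ℕ) (g : ℂ → ℂ) (M : ℂ → ℝ) (ξ x e : ℂ),
    CC g → Sup R g → Dom g M → ‖e‖ ≤ 1 → 0 < σ → ν = σ ^ 2 * (4 : ℝ) ^ s → 1 ≤ ν → 2 ≤ c * ν →
    (2 : ℝ) ^ (s + 2) ≤ ‖ξ‖ → ‖ξ‖ ≤ 3 / 8 * (2 : ℝ) ^ (s + L) →
    ‖iF (gs σ ξ (cut (bd s (s + L)) g)) x‖ ^ (p - 2) *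
        ‖iF (gs σ ξ (dr e (cut (bd s (s + L)) g))) x‖ ^ 2
      ≤ (1 + ε) * (‖iF (gs σ ξ g) x‖ ^ (p - 2) * ‖iF (gs σ ξ (dr e g)) x‖ ^ 2)
        + K * ((Real.exp (-(c * ν)) ^ ((p - 2) / 2) + Real.exp (-(c * ν))) * ν *
          (4 : ℝ) ^ (s + L)) * (M x ^ ((p - 2) / 2) * SS R s L g x) := by
  obtain ⟨K, c, hK, hc, hpt⟩ := pt hW hD hDH hF
  obtain ⟨C, hC, hq⟩ := hQ.2.1 p ε hp hε
  set r := (p - 2) / 2 with hr
  have hr0 : 0 < r := by rw [hr]; linarith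
  have hpr : p - 2 = 2 * r := by rw [hr]; ring
  refine ⟨C * (K ^ r * (K * L * (4 : ℝ) ^ L) + K ^ r * K) + 1, c, by positivity, hc, ?_⟩
  intro σ ν s R g M ξ x e hg hR hM he hσ hν hν1 hcν hξ1 hξ2
  obtain ⟨h1, h2, h3, h4⟩ := hpt σ ν s L R g M ξ x e hg hR hM he hσ hν hν1 hcν hξ1 hξ2
  have hM0 := zero_le_M hM x
  have hS0 := ss_nonneg R s L g x
  have ccO : CC (gO R s L g) := by
    unfold gO
    exact cc_add' (hF.2.2.2.2.1 g s s hg).1 (cc_sum _ _ fun i _ => (hF.2.2.2.2.1 g i i hg).2.2)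
  have ccB : CC (cut (bd s (s + L)) g) := (hF.2.2.2.2.1 g s (s + L) hg).2.1
  have eg : g = fun ζ => gO R s L g ζ + cut (bd s (s + L)) g ζ := by
    ext ζ; exact (split hF hR s L ζ).2
  have E0 : iF (gs σ ξ g) x = iF (gs σ ξ (gO R s L g)) x +
      iF (gs σ ξ (cut (bd s (s + L)) g)) x := by
    conv_lhs => rw [eg]
    rw [gs_add, iF_add (cc_gs ccO σ ξ) (cc_gs ccB σ ξ)]
  have E1 : iF (gs σ ξ (dr e g)) x = iF (gs σ ξ (dr e (gO R s L g))) x +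
      iF (gs σ ξ (dr e (cut (bd s (s + L)) g))) x := by
    conv_lhs => rw [eg]
    rw [dr_add, gs_add, iF_add (cc_gs (cc_dr ccO e) σ ξ) (cc_gs (cc_dr ccB e) σ ξ)]
  have hq' := hq (iF (gs σ ξ (gO R s L g)) x) (iF (gs σ ξ (cut (bd s (s + L)) g)) x)
    (iF (gs σ ξ (dr e (gO R s L g))) x) (iF (gs σ ξ (dr e (cut (bd s (s + L)) g))) x)
  rw [← E0, ← E1] at hq'
  refine hq'.trans ?_
  rw [hpr] at *
  set D := Real.exp (-(c * ν)) with hD0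
  have hDp : 0 < D := Real.exp_pos _
  have h1' := rpow_half r (norm_nonneg _) hr0 h1
  have h2' := rpow_half r (norm_nonneg _) hr0 h2
  have eN : (σ * (2 : ℝ) ^ (s + (L : ℤ))) ^ 2 = ν * 4 ^ L := by
    rw [mul_pow, ← four_zpow, zpow_add₀ (by norm_num), hν, zpow_natCast]; ring
  rw [eN] at h4
  rw [Real.mul_rpow (by positivity) hM0, Real.mul_rpow hK.le hDp.le] at h1'
  rw [Real.mul_rpow hK.le hM0] at h2'
  have h4t : (0 : ℝ) < (4 : ℝ) ^ (s + (L : ℤ)) := by positivity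
  have hMr : 0 ≤ M x ^ r := Real.rpow_nonneg hM0 r
  have hKr : 0 < K ^ r := Real.rpow_pos_of_pos hK r
  have hDr : 0 < D ^ r := Real.rpow_pos_of_pos hDp r
  have t1 : ‖iF (gs σ ξ (gO R s L g)) x‖ ^ (2 * r) *
      ‖iF (gs σ ξ (dr e (cut (bd s (s + L)) g))) x‖ ^ 2
      ≤ (K ^ r * D ^ r * M x ^ r) *
        (K * L * (4 : ℝ) ^ (s + (L : ℤ)) * (ν * 4 ^ L) * SS R s L g x) :=
    mul_le_mul h1' h4 (by positivity) (by positivity)
  have t2 : ‖iF (gs σ ξ (cut (bd s (s + L)) g)) x‖ ^ (2 * r) *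
      ‖iF (gs σ ξ (dr e (gO R s L g))) x‖ ^ 2
      ≤ (K ^ r * M x ^ r) * (K * D * (4 : ℝ) ^ (s + (L : ℤ)) * SS R s L g x) :=
    mul_le_mul h2' h3 (by positivity) (by positivity)
  have t3 : (K ^ r * M x ^ r) * (K * D * (4 : ℝ) ^ (s + (L : ℤ)) * SS R s L g x)
      ≤ (K ^ r * M x ^ r) * (K * D * (4 : ℝ) ^ (s + (L : ℤ)) * SS R s L g x) * ν := by
    apply le_mul_of_one_le_right _ hν1
    positivity
  set Y := M x ^ r * SS R s L g x with hY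
  have hY0 : 0 ≤ Y := by positivity
  have t4 : C * (‖iF (gs σ ξ (gO R s L g)) x‖ ^ (2 * r) *
      ‖iF (gs σ ξ (dr e (cut (bd s (s + L)) g))) x‖ ^ 2 +
      ‖iF (gs σ ξ (cut (bd s (s + L)) g)) x‖ ^ (2 * r) *
      ‖iF (gs σ ξ (dr e (gO R s L g))) x‖ ^ 2)
      ≤ C * ((K ^ r * (K * L * (4 : ℝ) ^ L)) * (D ^ r * ν * (4 : ℝ) ^ (s + (L : ℤ)) * Y)
        + (K ^ r * K) * (D * ν * (4 : ℝ) ^ (s + (L : ℤ)) * Y)) := by
    apply mul_le_mul_of_nonneg_left _ hC.le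
    refine (add_le_add t1 (t2.trans t3)).trans (le_of_eq ?_)
    rw [hY]; ring
  have t5 : 0 ≤ C * (K ^ r * (K * L * (4 : ℝ) ^ L)) * (D * ν * (4 : ℝ) ^ (s + (L : ℤ)) * Y) := by
    positivity
  have t6 : 0 ≤ C * (K ^ r * K) * (D ^ r * ν * (4 : ℝ) ^ (s + (L : ℤ)) * Y) := by positivity
  have t7 : 0 ≤ 1 * ((D ^ r + D) * ν * (4 : ℝ) ^ (s + (L : ℤ)) * Y) := by positivity
  have hCC := t4
  nlinarith [t4, t5, t6, t7]

/-! ### the energies -/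

/-- the energy of the gradient through the window -/
noncomputable def gw (p σ : ℝ) (ξ : ℂ) (g : ℂ → ℂ) : ℝ :=
  ∫ x, ‖iF (gs σ ξ g) x‖ ^ (p - 2) *
    (‖iF (gs σ ξ (dr 1 g)) x‖ ^ 2 + ‖iF (gs σ ξ (dr Complex.I g)) x‖ ^ 2)

theorem tw_gs (σ : ℝ) (ξ : ℂ) (g : ℂ → ℂ) :
    tw (σ ^ 2 / (4 * Real.pi)) (-((σ ^ 2 : ℝ) : ℂ) * ξ) g
      = fun ζ => ((Real.exp (Real.pi * σ ^ 2 * ‖ξ‖ ^ 2) : ℝ) : ℂ) * gs σ ξ g ζ := by
  ext ζ
  unfold tw gs
  rw [← mul_assoc, ← Complex.ofReal_mul, ← Real.exp_add]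
  congr 3
  have e1 : (-((σ ^ 2 : ℝ) : ℂ) * ξ).re = -(σ ^ 2 * ξ.re) := by
    rw [neg_mul, Complex.neg_re, Complex.re_ofReal_mul]
  have e2 : (-((σ ^ 2 : ℝ) : ℂ) * ξ).im = -(σ ^ 2 * ξ.im) := by
    rw [neg_mul, Complex.neg_im, Complex.im_ofReal_mul]
  rw [e1, e2]
  simp only [← Complex.normSq_eq_norm_sq, Complex.normSq_apply, Complex.sub_re, Complex.sub_im]
  have := Real.pi_ne_zero
  field_simp
  ring

theorem gl_tw (p σ : ℝ) (ξ : ℂ) (g : ℂ → ℂ) :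
    gl p (tw (σ ^ 2 / (4 * Real.pi)) (-((σ ^ 2 : ℝ) : ℂ) * ξ) g)
      = Real.exp (Real.pi * σ ^ 2 * ‖ξ‖ ^ 2) ^ p * gw p σ ξ g := by
  set W := Real.exp (Real.pi * σ ^ 2 * ‖ξ‖ ^ 2) with hWdef
  have hW : 0 < W := Real.exp_pos _
  have hdr : ∀ e, dr e (fun ζ => (W : ℂ) * gs σ ξ g ζ) = fun ζ => (W : ℂ) * gs σ ξ (dr e g) ζ := by
    intro e; ext ζ; unfold dr gs; ring
  unfold gl gw
  rw [tw_gs, ← integral_const_mul]
  congr 1
  ext x
  rw [hdr, hdr, iF_smul, iF_smul, iF_smul, norm_mul, norm_mul, norm_mul, Complex.norm_real,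
    Real.norm_eq_abs, abs_of_pos hW, Real.mul_rpow hW.le (norm_nonneg _)]
  have e : W ^ p = W ^ (p - 2) * W ^ 2 := by
    rw [← Real.rpow_two, ← Real.rpow_add hW]; congr 1; ring
  rw [e]; ring

theorem gw_le (p ε : ℝ) (L : ℕ) (hp : 2 < p) (hε : 0 < ε) (hQ : StmtQel) (hW : StmtWinB)
    (hD : Even.StmtDomF) (hDH : StmtDomH) (hF : StmtFac) (hS : StmtSch) (hI : StmtIBP)
    (hMS : StmtMS) :
    ∃ K c : ℝ, 0 < K ∧ 0 < c ∧ ∀ (σ ν : ℝ) (s : ℤ) (R : ℕ) (g : ℂ → ℂ) (M : ℂ → ℝ) (ξ : ℂ),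
    SC g → Sup R g → Dom g M → Integrable (fun x => M x ^ (p / 2)) → 0 < σ →
    ν = σ ^ 2 * (4 : ℝ) ^ s → 1 ≤ ν → 2 ≤ c * ν →
    (2 : ℝ) ^ (s + 2) ≤ ‖ξ‖ → ‖ξ‖ ≤ 3 / 8 * (2 : ℝ) ^ (s + L) →
    gw p σ ξ (cut (bd s (s + L)) g) ≤ (1 + ε) * gw p σ ξ g
      + K * ((Real.exp (-(c * ν)) ^ ((p - 2) / 2) + Real.exp (-(c * ν))) * ν *
          (4 : ℝ) ^ (s + L)) * ∫ x, M x ^ ((p - 2) / 2) * SS R s L g x := by
  obtain ⟨K, c, hK, hc, hpt⟩ := pt2 p ε L hp hε hQ hW hD hDH hF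
  refine ⟨2 * K, c, by positivity, hc, ?_⟩
  intro σ ν s R g M ξ hg hR hM hMi hσ hν hν1 hcν hξ1 hξ2
  have hcc : CC g := hS.1 g hg
  have hgB : SC (cut (bd s (s + L)) g) := (hS.2.2.2.2.2 g hg).2.2.2.2.1 s (s + L)
  have int1 : ∀ (h : ℂ → ℂ), SC h → ∀ e, Integrable (fun x => ‖iF (gs σ ξ h) x‖ ^ (p - 2) *
      ‖iF (gs σ ξ (dr e h)) x‖ ^ 2) := by
    intro h hh e
    have := (hI p (gs σ ξ h) e hp ((hS.2.2.2.2.2 h hh).2.2.1 σ ξ)).2.1
    rw [dr_gs] at this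
    exact this
  have int2 : ∀ (h : ℂ → ℂ), SC h → Integrable (fun x => ‖iF (gs σ ξ h) x‖ ^ (p - 2) *
      (‖iF (gs σ ξ (dr 1 h)) x‖ ^ 2 + ‖iF (gs σ ξ (dr Complex.I h)) x‖ ^ 2)) := by
    intro h hh
    refine ((int1 h hh 1).add (int1 h hh Complex.I)).congr (Eventually.of_forall fun x => ?_)
    simp only [Pi.add_apply]; ring
  have int3 : Integrable (fun x => M x ^ ((p - 2) / 2) * SS R s L g x) := by
    obtain ⟨C, hC, h⟩ := hMS p hp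
    have h1 := (h (II R) g M hcc hM hMi).1
    have : (fun x => M x ^ ((p - 2) / 2) * SS R s L g x)
        = fun x => ∑ i ∈ II R, wt s L i * (M x ^ ((p - 2) / 2) * qa i g x) := by
      ext x; unfold SS; rw [Finset.mul_sum]
      apply Finset.sum_congr rfl; intro i _; ring
    rw [this]
    exact integrable_finsetSum _ fun i _ => (h1 i).const_mul _
  set B := K * ((Real.exp (-(c * ν)) ^ ((p - 2) / 2) + Real.exp (-(c * ν))) * ν *
          (4 : ℝ) ^ (s + (L : ℤ))) with hB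
  unfold gw
  have hrhs : (1 + ε) * (∫ x, ‖iF (gs σ ξ g) x‖ ^ (p - 2) *
      (‖iF (gs σ ξ (dr 1 g)) x‖ ^ 2 + ‖iF (gs σ ξ (dr Complex.I g)) x‖ ^ 2))
      + 2 * K * ((Real.exp (-(c * ν)) ^ ((p - 2) / 2) + Real.exp (-(c * ν))) * ν *
          (4 : ℝ) ^ (s + (L : ℤ))) * (∫ x, M x ^ ((p - 2) / 2) * SS R s L g x)
      = ∫ x, ((1 + ε) * (‖iF (gs σ ξ g) x‖ ^ (p - 2) *
        (‖iF (gs σ ξ (dr 1 g)) x‖ ^ 2 + ‖iF (gs σ ξ (dr Complex.I g)) x‖ ^ 2))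
        + 2 * B * (M x ^ ((p - 2) / 2) * SS R s L g x)) := by
    rw [integral_add ((int2 g hg).const_mul _) (int3.const_mul _), integral_const_mul,
      integral_const_mul, hB]
    ring
  rw [hrhs]
  apply integral_mono (int2 _ hgB) (((int2 g hg).const_mul _).add (int3.const_mul _))
  intro x
  have a1 := hpt σ ν s R g M ξ x 1 hcc hR hM (by simp) hσ hν hν1 hcν hξ1 hξ2
  have a2 := hpt σ ν s R g M ξ x Complex.I hcc hR hM (by simp) hσ hν hν1 hcν hξ1 hξ2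
  rw [← hB] at a1 a2
  simp only [Pi.add_apply]
  linarith

/-! ### the cutoff in `y` -/

theorem bd01 (hF : StmtFac) {a b : ℤ} (h : a < b) (ζ : ℂ) : 0 ≤ bd a b ζ ∧ bd a b ζ ≤ 1 := by
  have h1 := hF.1 a ζ
  have h2 := hF.1 b ζ
  refine ⟨?_, by unfold bd; linarith⟩
  rcases le_or_gt ‖ζ‖ ((2 : ℝ) ^ b) with h3 | h3
  · unfold bd
    rw [hF.2.1 b ζ h3]; linarith
  · have h4 : (2 : ℝ) ^ a * 2 ≤ (2 : ℝ) ^ b := by
      rw [← zpow_add_one₀ (by norm_num)]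
      exact zpow_le_zpow_right₀ (by norm_num) (by omega)
    have h5 : (0 : ℝ) < (2 : ℝ) ^ a := by positivity
    unfold bd
    rw [hF.2.2.1 a ζ (by nlinarith)]; linarith

theorem bd_supp (hF : StmtFac) {s : ℤ} {L : ℕ} (hL : 4 < L) {ζ : ℂ}
    (h : bd (s + 2) (s + L - 2) ζ ≠ 0) :
    (2 : ℝ) ^ (s + 2) ≤ ‖ζ‖ ∧ ‖ζ‖ ≤ 3 / 8 * (2 : ℝ) ^ (s + (L : ℤ)) := by
  have e1 : (2 : ℝ) ^ (s + (L : ℤ)) = 4 * (2 : ℝ) ^ (s + (L : ℤ) - 2) := by
    rw [show s + (L : ℤ) = (s + L - 2) + 2 by ring, zpow_add₀ (by norm_num)]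
    norm_num; ring
  have h5 : (0 : ℝ) < (2 : ℝ) ^ (s + (L : ℤ) - 2) := by positivity
  have h6 : (2 : ℝ) ^ (s + 2) * 2 ≤ (2 : ℝ) ^ (s + (L : ℤ) - 2) := by
    rw [← zpow_add_one₀ (by norm_num)]
    exact zpow_le_zpow_right₀ (by norm_num) (by omega)
  have h7 : (0 : ℝ) < (2 : ℝ) ^ (s + 2) := by positivity
  constructor
  · by_contra hc
    push Not at hc
    apply h
    unfold bd
    rw [hF.2.1 _ ζ hc.le, hF.2.1 _ ζ (by linarith)]; ring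
  · by_contra hc
    push Not at hc
    apply h
    unfold bd
    rw [e1] at hc
    rw [hF.2.2.1 _ ζ (by nlinarith), hF.2.2.1 _ ζ (by nlinarith)]; ring

theorem hk_cont : ContinuousOn (fun z : ℝ × ℂ => hk z.1 z.2) (Set.Ioi 0 ×ˢ Set.univ) := by
  unfold hk
  have h0 : ∀ z ∈ (Set.Ioi (0 : ℝ) ×ˢ (Set.univ : Set ℂ)), 4 * z.1 ≠ 0 := by
    intro z hz
    have : 0 < z.1 := hz.1
    positivity
  have h1 : ∀ z ∈ (Set.Ioi (0 : ℝ) ×ˢ (Set.univ : Set ℂ)), 4 * Real.pi * z.1 ≠ 0 := by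
    intro z hz
    have : 0 < z.1 := hz.1
    positivity
  apply ContinuousOn.div _ (by fun_prop) h1
  apply Real.continuous_exp.comp_continuousOn
  apply ContinuousOn.neg
  exact ContinuousOn.div (by fun_prop) (by fun_prop) h0

theorem hk_pos {v : ℝ} (hv : 0 < v) (y : ℂ) : 0 < hk v y := by unfold hk; positivity

/-- the inner integral of `Eb` -/
noncomputable def In (p : ℝ) (n : ℕ) (Q : ℝ) (s : ℤ) (L : ℕ) (g : ℂ → ℂ) (v : ℝ) : ℝ :=
  ∫ y, lapR (Psi p g (tb n Q s L)) y * hk v y * thc n Q s L y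

theorem lapR_cont (hP : StmtPsi) {p : ℝ} (hp : 2 < p) {g : ℂ → ℂ} (hg : SC g) (τ : ℝ) :
    Continuous (lapR (Psi p g τ)) := by
  have h := hP p g hp hg
  have e : lapR (Psi p g τ) = fun y => p ^ 2 * gl p (tw τ y g) := by
    ext y; exact h.2.1 τ y
  rw [e]
  have hc : Continuous (fun z : ℝ × ℂ => gl p (tw z.1 z.2 g)) := h.2.2.2.2.2.1
  have hm : Continuous (fun y : ℂ => ((τ, y) : ℝ × ℂ)) := by fun_prop
  have h1 : Continuous ((fun z : ℝ × ℂ => gl p (tw z.1 z.2 g)) ∘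
    (fun y : ℂ => ((τ, y) : ℝ × ℂ))) := Continuous.comp hc hm
  have h2 : Continuous (fun y : ℂ => gl p (tw τ y g)) := h1
  exact continuous_const.mul h2

theorem bd_cont (hF : StmtFac) (a b : ℤ) : Continuous (bd a b) := by
  have h1 : Continuous (lo a) := (hF.2.2.2.1 a 0).continuous
  have h2 : Continuous (lo b) := (hF.2.2.2.1 b 0).continuous
  exact h2.sub h1

theorem thc_cont (hF : StmtFac) (n : ℕ) (Q : ℝ) (s : ℤ) (L : ℕ) : Continuous (thc n Q s L) := by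
  unfold thc
  exact (bd_cont hF _ _).comp (by fun_prop)

theorem thc_supp (hF : StmtFac) {n : ℕ} {Q : ℝ} {s : ℤ} {L : ℕ} (hL : 4 < L)
    (hσ : 0 < win n Q s L) {y : ℂ} (h : thc n Q s L y ≠ 0) :
    (2 : ℝ) ^ (s + 2) * (win n Q s L) ^ 2 ≤ ‖y‖ ∧
      ‖y‖ ≤ 3 / 8 * (2 : ℝ) ^ (s + (L : ℤ)) * (win n Q s L) ^ 2 := by
  have h1 := bd_supp hF hL h
  have e : ‖y / (((win n Q s L) ^ 2 : ℝ) : ℂ)‖ = ‖y‖ / (win n Q s L) ^ 2 := by
    rw [norm_div, Complex.norm_real, Real.norm_eq_abs, abs_of_pos (by positivity)]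
  rw [e, le_div_iff₀ (by positivity), div_le_iff₀ (by positivity)] at h1
  exact h1

theorem F_cont (hP : StmtPsi) (hF : StmtFac) {p : ℝ} (hp : 2 < p) {g : ℂ → ℂ} (hg : SC g)
    (n : ℕ) (Q : ℝ) (s : ℤ) (L : ℕ) :
    ContinuousOn (fun z : ℝ × ℂ => lapR (Psi p g (tb n Q s L)) z.2 * hk z.1 z.2 *
      thc n Q s L z.2) (Set.Ioi 0 ×ˢ Set.univ) := by
  have h1 := (lapR_cont hP hp hg (tb n Q s L)).comp (continuous_snd (X := ℝ) (Y := ℂ))
  have h2 := (thc_cont hF n Q s L).comp (continuous_snd (X := ℝ) (Y := ℂ))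
  exact (h1.continuousOn.mul hk_cont).mul h2.continuousOn

theorem In_cont (hP : StmtPsi) (hF : StmtFac) {p : ℝ} (hp : 2 < p) {g : ℂ → ℂ} (hg : SC g)
    {n : ℕ} {Q : ℝ} {s : ℤ} {L : ℕ} (hL : 4 < L) (hσ : 0 < win n Q s L) :
    ContinuousOn (In p n Q s L g) (Set.Ioi 0) := by
  unfold In
  apply continuousOn_integral_of_compact_support
    (k := Metric.closedBall (0 : ℂ) (3 / 8 * (2 : ℝ) ^ (s + (L : ℤ)) * (win n Q s L) ^ 2))
    (isCompact_closedBall _ _)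
  · exact F_cont hP hF hp hg n Q s L
  · intro v y hv hy
    by_contra hc
    have h1 : thc n Q s L y ≠ 0 := fun h => hc (by rw [h, mul_zero])
    apply hy
    rw [mem_closedBall_zero_iff]
    exact (thc_supp hF hL hσ h1).2

theorem In_int (hP : StmtPsi) (hF : StmtFac) {p : ℝ} (hp : 2 < p) {g : ℂ → ℂ} (hg : SC g)
    {n : ℕ} {Q : ℝ} {s : ℤ} {L : ℕ} (hL : 4 < L) (hσ : 0 < win n Q s L) {v : ℝ} (hv : 0 < v) :
    Integrable (fun y => lapR (Psi p g (tb n Q s L)) y * hk v y * thc n Q s L y) := by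
  apply Continuous.integrable_of_hasCompactSupport
  · have h := F_cont hP hF hp hg n Q s L
    have h2 : ContinuousOn (fun y : ℂ => (v, y)) Set.univ := by fun_prop
    have h3 := h.comp h2 (fun y _ => ⟨hv, Set.mem_univ _⟩)
    rw [← continuousOn_univ]
    exact h3
  · apply HasCompactSupport.intro
      (isCompact_closedBall (0 : ℂ) (3 / 8 * (2 : ℝ) ^ (s + (L : ℤ)) * (win n Q s L) ^ 2))
    intro y hy
    by_contra hc
    have h1 : thc n Q s L y ≠ 0 := fun h => hc (by rw [h, mul_zero])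
    apply hy
    rw [mem_closedBall_zero_iff]
    exact (thc_supp hF hL hσ h1).2

theorem hk_W {p σ v : ℝ} (hp : 2 < p) (hσ : 0 < σ) (hv1 : σ ^ 2 / (4 * Real.pi) / (2 * p) ≤ v)
    (hv2 : v ≤ σ ^ 2 / (4 * Real.pi) / p) (ξ : ℂ) :
    Real.exp (Real.pi * σ ^ 2 * ‖ξ‖ ^ 2) ^ p * hk v (-((σ ^ 2 : ℝ) : ℂ) * ξ)
      ≤ 2 * p / σ ^ 2 := by
  have hpi := Real.pi_pos
  have hv0 : 0 < v := lt_of_lt_of_le (by positivity) hv1
  have hp0 : 0 < p := by linarith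
  unfold hk
  have e1 : ‖-((σ ^ 2 : ℝ) : ℂ) * ξ‖ ^ 2 = σ ^ 4 * ‖ξ‖ ^ 2 := by
    rw [norm_mul, norm_neg, Complex.norm_real, Real.norm_eq_abs, abs_of_pos (by positivity)]
    ring
  rw [e1, ← Real.exp_mul, mul_div_assoc', ← Real.exp_add]
  have h1 : Real.pi * σ ^ 2 * ‖ξ‖ ^ 2 * p + -(σ ^ 4 * ‖ξ‖ ^ 2 / (4 * v)) ≤ 0 := by
    have h2 : Real.pi * σ ^ 2 * ‖ξ‖ ^ 2 * p ≤ σ ^ 4 * ‖ξ‖ ^ 2 / (4 * v) := by
      rw [le_div_iff₀ (by positivity)]
      rw [le_div_iff₀ hp0, le_div_iff₀ (by positivity)] at hv2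
      have h3 : 0 ≤ σ ^ 2 * ‖ξ‖ ^ 2 := by positivity
      nlinarith
    linarith
  have h2 : Real.exp (Real.pi * σ ^ 2 * ‖ξ‖ ^ 2 * p + -(σ ^ 4 * ‖ξ‖ ^ 2 / (4 * v))) ≤ 1 :=
    Real.exp_le_one_iff.mpr h1
  have h3 : σ ^ 2 / (2 * p) ≤ 4 * Real.pi * v := by
    have : σ ^ 2 / (4 * Real.pi) / (2 * p) * (4 * Real.pi) ≤ v * (4 * Real.pi) :=
      mul_le_mul_of_nonneg_right hv1 (by positivity)
    have e : σ ^ 2 / (4 * Real.pi) / (2 * p) * (4 * Real.pi) = σ ^ 2 / (2 * p) := by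
      field_simp
    rw [e] at this; linarith
  have h4 : 0 < σ ^ 2 / (2 * p) := by positivity
  calc Real.exp (Real.pi * σ ^ 2 * ‖ξ‖ ^ 2 * p + -(σ ^ 4 * ‖ξ‖ ^ 2 / (4 * v))) / (4 * Real.pi * v)
      ≤ 1 / (4 * Real.pi * v) := by
        apply div_le_div_of_nonneg_right h2 (by positivity)
    _ ≤ 1 / (σ ^ 2 / (2 * p)) := one_div_le_one_div_of_le h4 h3
    _ = 2 * p / σ ^ 2 := by rw [one_div_div]

theorem in_le (p ε : ℝ) (L : ℕ) (hp : 2 < p) (hε : 0 < ε) (hL : 4 < L) (hQ : StmtQel)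
    (hW : StmtWinB) (hD : Even.StmtDomF) (hDH : StmtDomH) (hF : StmtFac) (hS : StmtSch)
    (hI : StmtIBP) (hMS : StmtMS) (hP : StmtPsi) :
    ∃ K c : ℝ, 0 < K ∧ 0 < c ∧ ∀ (n : ℕ) (Q σ ν v : ℝ) (s : ℤ) (R : ℕ) (g : ℂ → ℂ) (M : ℂ → ℝ),
    SC g → Sup R g → Dom g M → Integrable (fun x => M x ^ (p / 2)) → σ = win n Q s L → 0 < σ →
    ν = σ ^ 2 * (4 : ℝ) ^ s → 1 ≤ ν → 2 ≤ c * ν →
    σ ^ 2 / (4 * Real.pi) / (2 * p) ≤ v → v ≤ σ ^ 2 / (4 * Real.pi) / p →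
    In p n Q s L (cut (bd s (s + L)) g) v ≤ (1 + ε) * In p n Q s L g v
      + K * ((Real.exp (-(c * ν)) ^ ((p - 2) / 2) + Real.exp (-(c * ν))) * ν ^ 2 *
          (4 : ℝ) ^ s) * ∫ x, M x ^ ((p - 2) / 2) * SS R s L g x := by
  obtain ⟨K, c, hK, hc, hgw⟩ := gw_le p ε L hp hε hQ hW hD hDH hF hS hI hMS
  refine ⟨2 * p ^ 3 * K * 16 ^ L, c, by positivity, hc, ?_⟩
  intro n Q σ ν v s R g M hg hR hM hMi hσe hσ hν hν1 hcν hv1 hv2
  have hpi := Real.pi_pos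
  have hv0 : 0 < v := lt_of_lt_of_le (by positivity) hv1
  have hgB : SC (cut (bd s (s + L)) g) := (hS.2.2.2.2.2 g hg).2.2.2.2.1 s (s + L)
  have hσw : 0 < win n Q s L := hσe ▸ hσ
  set J := ∫ x, M x ^ ((p - 2) / 2) * SS R s L g x with hJ
  have hJ0 : 0 ≤ J := integral_nonneg fun x =>
    mul_nonneg (Real.rpow_nonneg (hM.2.1 x) _) (ss_nonneg R s L g x)
  set E := (Real.exp (-(c * ν)) ^ ((p - 2) / 2) + Real.exp (-(c * ν))) with hE
  have hE0 : 0 ≤ E := by positivity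
  set r := 3 / 8 * (2 : ℝ) ^ (s + (L : ℤ)) * σ ^ 2 with hr
  have hr0 : 0 < r := by positivity
  set B := p ^ 2 * (K * (E * ν * (4 : ℝ) ^ (s + (L : ℤ))) * J) * (2 * p / σ ^ 2) with hB
  have hB0 : 0 ≤ B := by positivity
  have htb : tb n Q s L = σ ^ 2 / (4 * Real.pi) := by unfold tb; rw [hσe]
  -- pointwise inequality
  have key : ∀ y, lapR (Psi p (cut (bd s (s + L)) g) (tb n Q s L)) y * hk v y * thc n Q s L y
      ≤ (1 + ε) * (lapR (Psi p g (tb n Q s L)) y * hk v y * thc n Q s L y)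
        + (Metric.closedBall (0 : ℂ) r).indicator (fun _ => B) y := by
    intro y
    by_cases h0 : thc n Q s L y = 0
    · rw [h0]
      simp only [mul_zero, zero_add]
      exact Set.indicator_nonneg (fun _ _ => hB0) y
    have hs := thc_supp hF hL hσw h0
    rw [← hσe] at hs
    have hyb : y ∈ Metric.closedBall (0 : ℂ) r := by
      rw [mem_closedBall_zero_iff]; exact hs.2
    rw [Set.indicator_of_mem hyb]
    obtain ⟨ξ, hξ⟩ : ∃ ξ : ℂ, y = -((σ ^ 2 : ℝ) : ℂ) * ξ := by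
      refine ⟨-(y / ((σ ^ 2 : ℝ) : ℂ)), ?_⟩
      have : ((σ ^ 2 : ℝ) : ℂ) ≠ 0 := by
        rw [Complex.ofReal_ne_zero]; positivity
      field_simp
    have hny : ‖y‖ = σ ^ 2 * ‖ξ‖ := by
      rw [hξ, norm_mul, norm_neg, Complex.norm_real, Real.norm_eq_abs,
        abs_of_pos (by positivity)]
    have hσ2 : 0 < σ ^ 2 := by positivity
    have hξ1 : (2 : ℝ) ^ (s + 2) ≤ ‖ξ‖ := by
      have := hs.1; rw [hny] at this
      by_contra hc'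
      push Not at hc'
      nlinarith
    have hξ2 : ‖ξ‖ ≤ 3 / 8 * (2 : ℝ) ^ (s + (L : ℤ)) := by
      have := hs.2; rw [hny] at this
      by_contra hc'
      push Not at hc'
      nlinarith
    have h1 := hgw σ ν s R g M ξ hg hR hM hMi hσ hν hν1 hcν hξ1 hξ2
    rw [← hE, ← hJ] at h1
    have e1 : lapR (Psi p (cut (bd s (s + L)) g) (tb n Q s L)) y
        = p ^ 2 * (Real.exp (Real.pi * σ ^ 2 * ‖ξ‖ ^ 2) ^ p *
          gw p σ ξ (cut (bd s (s + L)) g)) := by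
      rw [(hP p _ hp hgB).2.1, htb, hξ, gl_tw]
    have e2 : lapR (Psi p g (tb n Q s L)) y
        = p ^ 2 * (Real.exp (Real.pi * σ ^ 2 * ‖ξ‖ ^ 2) ^ p * gw p σ ξ g) := by
      rw [(hP p _ hp hg).2.1, htb, hξ, gl_tw]
    have hth := bd01 hF (a := s + 2) (b := s + L - 2) (by omega)
      (y / (((win n Q s L) ^ 2 : ℝ) : ℂ))
    have hth0 : 0 ≤ thc n Q s L y := hth.1
    have hth1 : thc n Q s L y ≤ 1 := hth.2
    have hkv := hk_pos hv0 y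
    have hWp : 0 < Real.exp (Real.pi * σ ^ 2 * ‖ξ‖ ^ 2) ^ p :=
      Real.rpow_pos_of_pos (Real.exp_pos _) p
    have h3 := hk_W hp hσ hv1 hv2 ξ
    rw [← hξ] at h3
    rw [e1, e2]
    set Wp := Real.exp (Real.pi * σ ^ 2 * ‖ξ‖ ^ 2) ^ p with hWp'
    have h4 : 0 ≤ K * (E * ν * (4 : ℝ) ^ (s + (L : ℤ))) * J := by positivity
    have h5 : p ^ 2 * (K * (E * ν * (4 : ℝ) ^ (s + (L : ℤ))) * J) * (Wp * hk v y)
        * thc n Q s L y ≤ B := by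
      calc p ^ 2 * (K * (E * ν * (4 : ℝ) ^ (s + (L : ℤ))) * J) * (Wp * hk v y) * thc n Q s L y
          ≤ p ^ 2 * (K * (E * ν * (4 : ℝ) ^ (s + (L : ℤ))) * J) * (Wp * hk v y) * 1 := by
            apply mul_le_mul_of_nonneg_left hth1; positivity
        _ ≤ B := by
            rw [mul_one, hB]
            apply mul_le_mul_of_nonneg_left h3; positivity
    have h6 : 0 ≤ p ^ 2 * Wp * hk v y * thc n Q s L y := by positivity
    have h7 := mul_le_mul_of_nonneg_left h1 h6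
    nlinarith [h7, h5]
  have hind : Integrable ((Metric.closedBall (0 : ℂ) r).indicator (fun _ => B)) := by
    rw [integrable_indicator_iff measurableSet_closedBall]
    exact integrableOn_const (by exact (isCompact_closedBall (0 : ℂ) r).measure_lt_top.ne)
  have hint := integral_mono (In_int hP hF hp hgB hL hσw hv0)
    (((In_int hP hF hp hg hL hσw hv0).const_mul (1 + ε)).add hind) (fun y => by
      simpa using key y)
  have hvol : ∫ y, (Metric.closedBall (0 : ℂ) r).indicator (fun _ => B) y = B * (Real.pi * r ^ 2) := by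
    rw [integral_indicator measurableSet_closedBall, setIntegral_const]
    rw [Measure.real, Complex.volume_closedBall]
    rw [ENNReal.toReal_mul, ENNReal.toReal_pow, ENNReal.toReal_ofReal hr0.le]
    simp only [smul_eq_mul]
    have : ((NNReal.pi : ENNReal)).toReal = Real.pi := by simp
    rw [this]; ring
  have hsum : ∫ y, ((fun y => (1 + ε) * (lapR (Psi p g (tb n Q s L)) y * hk v y *
      thc n Q s L y)) + (Metric.closedBall (0 : ℂ) r).indicator (fun _ => B)) y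
      = (1 + ε) * In p n Q s L g v + B * (Real.pi * r ^ 2) := by
    simp only [Pi.add_apply]
    rw [integral_add ((In_int hP hF hp hg hL hσw hv0).const_mul (1 + ε)) hind,
      integral_const_mul, hvol]
    rfl
  rw [hsum] at hint
  refine hint.trans ?_
  have hpi4 : Real.pi ≤ 4 := Real.pi_le_four
  have hfin : B * (Real.pi * r ^ 2)
      ≤ 2 * p ^ 3 * K * 16 ^ L * (E * ν ^ 2 * (4 : ℝ) ^ s) * J := by
    have e4 : (4 : ℝ) ^ (s + (L : ℤ)) = (4 : ℝ) ^ s * 4 ^ L := by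
      rw [zpow_add₀ (by norm_num), zpow_natCast]
    have e5 : r ^ 2 = 9 / 64 * (4 : ℝ) ^ s * 4 ^ L * (σ ^ 2) ^ 2 := by
      rw [hr, mul_pow, mul_pow, ← four_zpow, e4]; ring
    have e6 : B * (Real.pi * r ^ 2) = (9 / 64 * Real.pi) *
        (2 * p ^ 3 * K * 16 ^ L * (E * ν ^ 2 * (4 : ℝ) ^ s) * J) := by
      have e7 : (16 : ℝ) ^ L = 4 ^ L * 4 ^ L := by rw [← mul_pow]; norm_num
      rw [hB, e5, e4, e7]
      have e8 : ν ^ 2 = ν * (σ ^ 2 * (4 : ℝ) ^ s) := by rw [← hν]; ring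
      rw [e8]
      have : σ ^ 2 ≠ 0 := by positivity
      field_simp
    rw [e6]
    have h8 : 0 ≤ 2 * p ^ 3 * K * 16 ^ L * (E * ν ^ 2 * (4 : ℝ) ^ s) * J := by positivity
    nlinarith
  linarith

theorem final (p Q ε : ℝ) (L : ℕ) (hp : 2 < p) (hQ1 : 1 ≤ Q) (hL : 4 < L) (hε : 0 < ε)
    (hQ : StmtQel) (hW : StmtWinB) (hD : Even.StmtDomF) (hDH : StmtDomH) (hF : StmtFac)
    (hS : StmtSch) (hI : StmtIBP) (hMS : StmtMS) (hP : StmtPsi) :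
    ∃ n₀ : ℕ, ∀ n ≥ n₀, ∀ (s : ℤ) (R : ℕ) (g : ℂ → ℂ) (M : ℂ → ℝ), SC g → Sup R g → Dom g M →
    Integrable (fun x => M x ^ (p / 2)) →
    Eb p n Q s L (cut (bd s (s + L)) g) ≤ (1 + ε) * Eb p n Q s L g
      + ε * ∫ x, M x ^ ((p - 2) / 2) * SS R s L g x := by
  obtain ⟨K, c, hK, hc, hin⟩ := in_le p ε L hp hε hL hQ hW hD hDH hF hS hI hMS hP
  have hr : 0 < (p - 2) / 2 := by linarith
  -- the decay
  have hlim : Tendsto (fun ν : ℝ => K * ((Real.exp (-(c * ν)) ^ ((p - 2) / 2) +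
      Real.exp (-(c * ν))) * ν ^ 2)) atTop (𝓝 0) := by
    have h1 : ∀ b : ℝ, 0 < b → Tendsto (fun ν : ℝ => ν ^ 2 * Real.exp (-(b * ν))) atTop (𝓝 0) := by
      intro b hb
      have h2 := Real.tendsto_pow_mul_exp_neg_atTop_nhds_zero 2
      have h3 : Tendsto (fun ν : ℝ => b * ν) atTop atTop := tendsto_id.const_mul_atTop hb
      have h4 := (h2.comp h3).const_mul (1 / b ^ 2)
      rw [mul_zero] at h4
      refine h4.congr fun ν => ?_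
      simp only [Function.comp]
      have : b ≠ 0 := hb.ne'
      field_simp
    have h2 := h1 (c * ((p - 2) / 2)) (by positivity)
    have h3 := h1 c hc
    have h4 := (h2.add h3).const_mul K
    rw [add_zero, mul_zero] at h4
    refine h4.congr fun ν => ?_
    rw [← Real.exp_mul]
    have : -(c * ν) * ((p - 2) / 2) = -(c * ((p - 2) / 2) * ν) := by ring
    rw [this]; ring
  obtain ⟨ν₀, hν₀⟩ := (eventually_atTop.mp ((tendsto_order.mp hlim).2 ε hε))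
  -- the bound on n
  obtain ⟨n₀, hn₀⟩ := exists_nat_gt ((max (max ν₀ 1) (2 / c)) * (Q ^ 2 * 4 ^ L) + 2 * Q ^ 2 * 4 ^ L)
  refine ⟨n₀, fun n hn s R g M hg hR hM hMi => ?_⟩
  have hpi := Real.pi_pos
  have hp0 : 0 < p := by linarith
  have hQL : 0 < Q ^ 2 * 4 ^ L := by positivity
  have hnR : (max (max ν₀ 1) (2 / c)) * (Q ^ 2 * 4 ^ L) + 2 * Q ^ 2 * 4 ^ L < n :=
    hn₀.trans_le (by exact_mod_cast hn)
  have hmax1 : 1 ≤ max (max ν₀ 1) (2 / c) := le_max_of_le_left (le_max_right _ _)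
  have hnpos : (0 : ℝ) < n := by nlinarith
  set σ := win n Q s L with hσ
  have hσ0 : 0 < σ := by rw [hσ]; unfold win; positivity
  set ν := σ ^ 2 * (4 : ℝ) ^ s with hν
  have hσ2 : σ ^ 2 = n / (Q ^ 2 * ((4 : ℝ) ^ s * 4 ^ L)) := by
    rw [hσ]; unfold win
    rw [div_pow, Real.sq_sqrt hnpos.le, mul_pow, ← four_zpow, zpow_add₀ (by norm_num), zpow_natCast]
  have hνn : ν = n / (Q ^ 2 * 4 ^ L) := by
    rw [hν, hσ2]
    have : (4 : ℝ) ^ s ≠ 0 := by positivity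
    field_simp
  have hνmax : max (max ν₀ 1) (2 / c) ≤ ν := by
    rw [hνn, le_div_iff₀ hQL]
    have : 0 < 2 * Q ^ 2 * 4 ^ L := by positivity
    linarith
  have hν1 : 1 ≤ ν := hmax1.trans hνmax
  have hν0 : ν₀ ≤ ν := ((le_max_left _ _).trans (le_max_left _ _)).trans hνmax
  have hcν : 2 ≤ c * ν := by
    have : 2 / c ≤ ν := (le_max_right _ _).trans hνmax
    rw [div_le_iff₀ hc] at this; linarith
  have hνε := hν₀ ν hν0
  set J := ∫ x, M x ^ ((p - 2) / 2) * SS R s L g x with hJ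
  have hJ0 : 0 ≤ J := integral_nonneg fun x =>
    mul_nonneg (Real.rpow_nonneg (hM.2.1 x) _) (ss_nonneg R s L g x)
  have hgB : SC (cut (bd s (s + L)) g) := (hS.2.2.2.2.2 g hg).2.2.2.2.1 s (s + L)
  have htb : tb n Q s L = σ ^ 2 / (4 * Real.pi) := rfl
  set v₁ := tb n Q s L / p - kap p s with hv₁
  set v₂ := tb n Q s L / p - kap p (s + L) with hv₂
  have h4s : (0 : ℝ) < (4 : ℝ) ^ s := by positivity
  have hk1 : 0 < kap p (s + L) := by unfold kap; positivity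
  have hk12 : kap p (s + L) ≤ kap p s := by
    unfold kap
    apply one_div_le_one_div_of_le (by positivity)
    apply mul_le_mul_of_nonneg_left _ (by positivity)
    exact zpow_le_zpow_right₀ (by norm_num) (by omega)
  have hle : v₁ ≤ v₂ := by rw [hv₁, hv₂]; linarith
  have hkap : kap p s ≤ σ ^ 2 / (4 * Real.pi) / (2 * p) := by
    unfold kap
    rw [div_div, div_le_div_iff₀ (by positivity) (by positivity)]
    have h1 : 1 ≤ σ ^ 2 * (4 : ℝ) ^ s := hν1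
    have h2 : 2 ≤ p * (σ ^ 2 * (4 : ℝ) ^ s) := by nlinarith
    have h3 : 0 < 4 * Real.pi * p := by positivity
    nlinarith
  have hv₁' : σ ^ 2 / (4 * Real.pi) / (2 * p) ≤ v₁ := by
    rw [hv₁, htb]
    have : σ ^ 2 / (4 * Real.pi) / p = 2 * (σ ^ 2 / (4 * Real.pi) / (2 * p)) := by
      field_simp
    rw [this]; linarith
  have hv₂' : v₂ ≤ σ ^ 2 / (4 * Real.pi) / p := by rw [hv₂, htb]; linarith
  have hv₁0 : 0 < v₁ := lt_of_lt_of_le (by positivity) hv₁'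
  have hii : ∀ h, SC h → IntervalIntegrable (In p n Q s L h) volume v₁ v₂ := by
    intro h hh
    apply ContinuousOn.intervalIntegrable
    rw [Set.uIcc_of_le hle]
    exact (In_cont hP hF hp hh hL hσ0).mono fun v hv => lt_of_lt_of_le hv₁0 hv.1
  set Z := K * ((Real.exp (-(c * ν)) ^ ((p - 2) / 2) + Real.exp (-(c * ν))) * ν ^ 2 *
          (4 : ℝ) ^ s) * J with hZ
  have hmono : ∫ v in v₁..v₂, In p n Q s L (cut (bd s (s + L)) g) v
      ≤ ∫ v in v₁..v₂, ((1 + ε) * In p n Q s L g v + Z) := by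
    apply intervalIntegral.integral_mono_on hle (hii _ hgB)
      (((hii _ hg).const_mul _).add intervalIntegrable_const)
    intro v hv
    exact hin n Q σ ν v s R g M hg hR hM hMi hσ hσ0 hν hν1 hcν (hv₁'.trans hv.1)
      (hv.2.trans hv₂')
  have hsplit : ∫ v in v₁..v₂, ((1 + ε) * In p n Q s L g v + Z)
      = (1 + ε) * (∫ v in v₁..v₂, In p n Q s L g v) + (v₂ - v₁) * Z := by
    rw [intervalIntegral.integral_add ((hii _ hg).const_mul _) intervalIntegrable_const,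
      intervalIntegral.integral_const_mul, intervalIntegral.integral_const, smul_eq_mul]
  rw [hsplit] at hmono
  have hZ0 : 0 ≤ Z := by positivity
  have hlen : (v₂ - v₁) * Z ≤ ε * J := by
    have h1 : v₂ - v₁ ≤ 1 / (4 : ℝ) ^ s := by
      have : v₂ - v₁ ≤ kap p s := by rw [hv₁, hv₂]; linarith
      refine this.trans ?_
      unfold kap
      apply one_div_le_one_div_of_le h4s
      apply le_mul_of_one_le_left h4s.le
      have : (1 : ℝ) ≤ Real.pi := by linarith [Real.pi_gt_three]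
      nlinarith
    calc (v₂ - v₁) * Z ≤ 1 / (4 : ℝ) ^ s * Z := mul_le_mul_of_nonneg_right h1 hZ0
      _ = K * ((Real.exp (-(c * ν)) ^ ((p - 2) / 2) + Real.exp (-(c * ν))) * ν ^ 2) * J := by
          rw [hZ]; field_simp
      _ ≤ ε * J := mul_le_mul_of_nonneg_right hνε.le hJ0
  have hfin : Eb p n Q s L (cut (bd s (s + L)) g)
      ≤ (1 + ε) * Eb p n Q s L g + (v₂ - v₁) * Z := hmono
  linarith

end ErrEIAux

open MeasureTheory in
theorem errEI (hW : StmtWinB) (hQ : StmtQel) (hP : StmtPsi) (hI : StmtIBP) (hMS : StmtMS)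
    (hD : Even.StmtDomF) (hDH : StmtDomH) (hS : StmtSch) (hF : Four.StmtFac) : StmtErrEI := by
  intro p Q ε L hp hQ1 hL hε
  exact ErrEIAux.final p Q ε L hp hQ1 hL hε hQ hW hD hDH hF hS hI hMS hP

end Pool.Agent.Lib.MP_dd244f_an.Rp
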