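import Pool.Agent.Lib.MP_dd244f_an.Rp.Stmts
import Pool.Agent.Lib.MP_dd244f_an.Even.ErrLK

/-!
Full operator, all real `p`: module ErrHp (the symbol seen from far away is tiny).
-/

set_option autoImplicit false

namespace Pool.Agent.Lib.MP_dd244f_an.Rp

open MeasureTheory Filter Topology Finset
open Pool.Agent.Lib.MP_dd244f_an.Joint (st ct Mst ratio)
open Pool.Agent.Lib.MP_dd244f_an.Four
open Pool.Agent.Lib.MP_dd244f_an.Even
open Pool.Agent.Lib.MP_dd244f_an.Even.ErrLKAux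
open Pool.Agent.Lib.MP_dd244f_an.Unif (SC)

namespace ErrHpAux

theorem sq_far {t u : ℝ} (ht : 0 < t) (h : 3 / 2 * t ≤ u) : 2 * t ^ 2 ≤ u ^ 2 := by nlinarith

theorem sq_far' {v t u : ℝ} (hv : 0 < v) (hvt : v ≤ t) (h : 2 * t ^ 2 ≤ u ^ 2) :
    2 * v ^ 2 ≤ u ^ 2 := by nlinarith

theorem le_mul_self_of_one_le {t : ℝ} (h : 1 ≤ t) : t ≤ t * t := by nlinarith

theorem c_le {C N : ℝ} (hC : 0 < C) (hN : 1 ≤ N) : C * N ≤ (1 + C) * N ^ 2 := by
  have h1 : N ≤ N ^ 2 := by nlinarith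
  have h2 : 0 ≤ N ^ 2 := by positivity
  nlinarith

end ErrHpAux

open ErrHpAux

/-- module ErrHp -/
theorem errHp (hL : Four.StmtLap) (hM : Four.StmtMM) (hF : Four.StmtFac) : StmtErrHp := by
  obtain ⟨C, hC, hMM⟩ := hM
  intro M L m ε hM1 hm hmL hε
  have hab : ∀ s : ℤ, s + m < s + L - m := fun s => by
    have : (2 * m : ℤ) < L := by exact_mod_cast hmL
    linarith
  -- the polynomial times the exponential tends to zero
  have hM0 : 0 < M := by linarith
  set c1 : ℝ := 1 / (16 * M ^ 2) with hc1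
  have hc1pos : 0 < c1 := by positivity
  set c0 : ℝ := c1 * (2 / (2 : ℝ) ^ m) ^ 2 / 2 with hc0
  have hc0pos : 0 < c0 := by positivity
  set K : ℝ := (1 + C) * (M ^ 2 * (2 : ℝ) ^ (2 * L)) with hK
  have hKpos : 0 < K := by positivity
  set K1 : ℝ := K * (2 / c1) with hK1
  have hK1pos : 0 < K1 := by positivity
  have hlim : Tendsto (fun n : ℕ => (6 * 160 * K1) * ((n : ℝ) + 1) ^ 2 *
      Real.exp (-(c0 * n))) atTop (𝓝 0) := by
    have h1 : Tendsto (fun x : ℝ => x ^ 2 * Real.exp (-x)) atTop (𝓝 0) :=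
      Real.tendsto_pow_mul_exp_neg_atTop_nhds_zero 2
    have h2 : Tendsto (fun n : ℕ => c0 * ((n : ℝ) + 1)) atTop atTop :=
      Tendsto.const_mul_atTop (by positivity)
        (tendsto_atTop_add_const_right _ _ tendsto_natCast_atTop_atTop)
    have h3 := (h1.comp h2).const_mul (6 * 160 * K1 * Real.exp c0 / c0 ^ 2)
    rw [mul_zero] at h3
    refine h3.congr fun n => ?_
    simp only [Function.comp_apply]
    have e1 : Real.exp (-(c0 * ((n : ℝ) + 1))) = Real.exp (-(c0 * n)) *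
        (Real.exp c0)⁻¹ := by
      rw [← Real.exp_neg, ← Real.exp_add]; congr 1; ring
    rw [e1]
    have e2 : Real.exp c0 ≠ 0 := (Real.exp_pos _).ne'
    have e3 : c0 ≠ 0 := hc0pos.ne'
    field_simp
  obtain ⟨n₀, hn₀⟩ := eventually_atTop.1 ((hlim.eventually (gt_mem_nhds hε)).and
    (eventually_ge_atTop 1))
  refine ⟨max n₀ 1, le_max_right _ _, fun n hn s q hq => ?_⟩
  obtain ⟨hsmall, hn1⟩ := hn₀ n (le_of_max_le_left hn)
  set a : ℤ := s + m with ha
  set b : ℤ := s + L - m with hb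
  have hab' : a < b := hab s
  obtain ⟨hc2, hcs, hder⟩ := hMM n a b hab'
  set r : ℝ := win n M s L with hr
  have hnpos : (0 : ℝ) < n := by exact_mod_cast hn1
  have hn1' : (1 : ℝ) ≤ n := by exact_mod_cast hn1
  have hsq : 0 < Real.sqrt n := Real.sqrt_pos.2 hnpos
  have hsq1 : 1 ≤ Real.sqrt n := Real.one_le_sqrt.2 hn1'
  have hrpos : 0 < r := by
    rw [hr]; unfold win; positivity
  set W : ℝ := (2 : ℝ) ^ (s + L) with hW
  have hW0 : 0 < W := by positivity
  set y : ℝ := ‖q‖ / W with hy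
  have hq0 : 0 < ‖q‖ := lt_trans (by positivity) hq
  have hy0 : 0 < y := by positivity
  have h2b : (2 : ℝ) ^ b = W / (2 : ℝ) ^ m := by
    rw [hb, hW, zpow_sub₀ (by norm_num), zpow_natCast]
  have h2b1 : (2 : ℝ) ^ (b + 1) = 2 * (2 : ℝ) ^ b := by
    rw [zpow_add₀ (by norm_num)]; norm_num; ring
  have hq' : 2 * (2 : ℝ) ^ b < ‖q‖ := by rw [← h2b1]; exact hq
  have hylow : 2 / (2 : ℝ) ^ m < y := by
    rw [hy, lt_div_iff₀ hW0]
    rw [h2b] at hq'
    calc 2 / (2 : ℝ) ^ m * W = 2 * (W / (2 : ℝ) ^ m) := by ring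
      _ < ‖q‖ := hq'
  have hP2 : ContDiff ℝ 2 (Pm n a b) := hc2
  have hPc : HasCompactSupport (Pm n a b) := hcs
  have hPp : ContDiff ℝ 2 (fun δ => Pm n a b (q + δ)) := hP2.comp (contDiff_const.add contDiff_id)
  have hLs : slK 1 n r s L m (2 * q) = fun δ => gau1 r δ * Pm n a b (q + δ) := by
    ext δ
    have e : (2 * q) / ((1 : ℕ) + 1 : ℂ) = q := by
      push_cast
      rw [div_eq_iff (by norm_num)]
      ring
    unfold slK gau1 Pm
    rw [e]
    push_cast
    ring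
  rw [hLs]
  refine ⟨(gau1_contDiff r).mul hPp, ?_, fun δ => ?_⟩
  · have h1 : HasCompactSupport (fun δ => Pm n a b (q + δ)) :=
      hPc.comp_homeomorph (Homeomorph.addLeft q)
    exact h1.mul_left (f := gau1 r)
  -- pointwise bounds
  by_cases hδ : ‖δ‖ < ‖q‖ / 4
  · -- everything vanishes near `δ`
    have hev : (fun δ => gau1 r δ * Pm n a b (q + δ)) =ᶠ[𝓝 δ]
        fun _ => (0 : ℂ) := by
      have hop : IsOpen {z : ℂ | ‖z‖ < ‖q‖ / 4} := isOpen_lt continuous_norm continuous_const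
      filter_upwards [hop.mem_nhds hδ] with z hz
      have hz' : ‖z‖ < ‖q‖ / 4 := hz
      have h1 : 3 / 2 * (2 : ℝ) ^ b ≤ ‖q + z‖ := by
        have h3 : ‖q‖ - ‖z‖ ≤ ‖q + z‖ := by
          have := norm_sub_norm_le q (-z)
          rw [norm_neg, sub_neg_eq_add] at this
          exact this
        linarith
      have hb0 : (0 : ℝ) < (2 : ℝ) ^ b := by positivity
      have h2 : 2 * ((2 : ℝ) ^ b) ^ 2 ≤ ‖q + z‖ ^ 2 := sq_far hb0 h1
      have ha0 : (0 : ℝ) < (2 : ℝ) ^ a := by positivity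
      have h3 : (2 : ℝ) ^ a ≤ (2 : ℝ) ^ b := zpow_le_zpow_right₀ one_le_two hab'.le
      have h4 : 2 * ((2 : ℝ) ^ a) ^ 2 ≤ ‖q + z‖ ^ 2 := sq_far' ha0 h3 h2
      have h5 : Pm n a b (q + z) = 0 := by
        unfold Pm bd
        rw [hF.2.2.1 _ _ h2, hF.2.2.1 _ _ h4]
        simp
      rw [h5, mul_zero]
    have h0 : lap (fun δ => gau1 r δ * Pm n a b (q + δ)) δ = 0 := by
      unfold lap
      have h1 : (fun z => fderiv ℝ (fun δ => gau1 r δ * Pm n a b (q + δ)) z) =ᶠ[𝓝 δ]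
          fun _ => 0 := by
        filter_upwards [hev.eventually_nhds] with z hz
        have hz' : (fun δ => gau1 r δ * Pm n a b (q + δ)) =ᶠ[𝓝 z] fun _ => (0 : ℂ) := hz
        rw [hz'.fderiv_eq]
        simp
      have h2 : ∀ w : ℂ, (fun z => fderiv ℝ (fun δ => gau1 r δ * Pm n a b (q + δ)) z w) =ᶠ[𝓝 δ]
          fun _ => 0 := fun w => by
        filter_upwards [h1] with z hz
        rw [hz]
        simp
      rw [(h2 1).fderiv_eq, (h2 Complex.I).fderiv_eq]
      simp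
    constructor
    · have := hev.self_of_nhds
      simp only at this
      show ‖gau1 r δ * Pm n a b (q + δ)‖ ≤ _
      rw [this, norm_zero]
      positivity
    · rw [h0, norm_zero]
      positivity
  · push Not at hδ
    set x := r * ‖δ‖ with hx
    have hx0 : 0 ≤ x := by positivity
    have hxsq : c1 * n * y ^ 2 ≤ x ^ 2 := by
      have h1 : r * (‖q‖ / 4) ≤ x := mul_le_mul_of_nonneg_left hδ hrpos.le
      have h2 : r * (‖q‖ / 4) = Real.sqrt n * (y / (4 * M)) := by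
        rw [hr, hy]
        unfold win
        rw [← hW]
        field_simp
      rw [h2] at h1
      have h3 := pow_le_pow_left₀ (by positivity) h1 2
      rw [mul_pow, Real.sq_sqrt hnpos.le] at h3
      refine le_trans (le_of_eq ?_) h3
      rw [hc1]
      field_simp
      norm_num
    -- sizes
    set A : ℝ := K * ((n : ℝ) + 1) ^ 2 with hA
    have hpw : 1 / (2 : ℝ) ^ a ≤ M * (2 : ℝ) ^ L * r := by
      have e1 : M * (2 : ℝ) ^ L * r = Real.sqrt n / (2 : ℝ) ^ s := by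
        rw [hr]; unfold win
        rw [zpow_add₀ (by norm_num), zpow_natCast]
        field_simp
      rw [e1]
      have e2 : (2 : ℝ) ^ s ≤ (2 : ℝ) ^ a := zpow_le_zpow_right₀ one_le_two (by omega)
      have e3 : (0 : ℝ) < (2 : ℝ) ^ s := by positivity
      exact div_le_div₀ (Real.sqrt_nonneg _) hsq1 e3 e2
    have hML1 : 1 ≤ M ^ 2 * (2 : ℝ) ^ (2 * L) :=
      one_le_mul_of_one_le_of_one_le (one_le_pow₀ hM1) (one_le_pow₀ one_le_two)
    have hn11 : (1 : ℝ) ≤ (n : ℝ) + 1 := by linarith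
    have hn2 : (1 : ℝ) ≤ ((n : ℝ) + 1) ^ 2 := one_le_pow₀ hn11
    have hA1 : 1 ≤ A := by
      have e1 : 1 ≤ K := one_le_mul_of_one_le_of_one_le (by linarith) hML1
      exact one_le_mul_of_one_le_of_one_le e1 hn2
    have hPs : ∀ ζ, Sz r (Pm n a b) ζ A := by
      intro ζ
      obtain ⟨hd1, hd2⟩ := hder ζ
      refine ⟨(Pm_norm_le hF n a b ζ).trans hA1, ?_, ?_⟩
      · refine hd1.trans ?_
        have e1 : C * (n + 1) / (2 : ℝ) ^ a = C * (n + 1) * (1 / (2 : ℝ) ^ a) := by ring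
        rw [e1]
        have e2 : C * (n + 1) * (1 / (2 : ℝ) ^ a) ≤ C * (n + 1) * (M * (2 : ℝ) ^ L * r) :=
          mul_le_mul_of_nonneg_left hpw (by positivity)
        refine e2.trans ?_
        have e3 : M * (2 : ℝ) ^ L ≤ M ^ 2 * (2 : ℝ) ^ (2 * L) := by
          have e4 : (1 : ℝ) ≤ M * (2 : ℝ) ^ L :=
            one_le_mul_of_one_le_of_one_le hM1 (one_le_pow₀ one_le_two)
          have e5 : M ^ 2 * (2 : ℝ) ^ (2 * L) = (M * (2 : ℝ) ^ L) * (M * (2 : ℝ) ^ L) := by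
            rw [pow_mul']; ring
          rw [e5]
          exact le_mul_self_of_one_le e4
        have e7 : C * (n + 1) * (M * (2 : ℝ) ^ L) ≤ A := by
          rw [hA, hK]
          have e8 : C * ((n : ℝ) + 1) ≤ (1 + C) * ((n : ℝ) + 1) ^ 2 := c_le hC hn11
          calc C * (n + 1) * (M * (2 : ℝ) ^ L)
              ≤ (1 + C) * ((n : ℝ) + 1) ^ 2 * (M ^ 2 * (2 : ℝ) ^ (2 * L)) :=
                mul_le_mul e8 e3 (by positivity) (by positivity)
            _ = _ := by ring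
        calc C * (n + 1) * (M * (2 : ℝ) ^ L * r) = C * (n + 1) * (M * (2 : ℝ) ^ L) * r := by ring
          _ ≤ A * r := mul_le_mul_of_nonneg_right e7 hrpos.le
      · refine hd2.trans ?_
        have e1 : C * (n + 1) ^ 2 / ((2 : ℝ) ^ a) ^ 2 = C * (n + 1) ^ 2 * (1 / (2 : ℝ) ^ a) ^ 2 := by
          rw [div_pow]; ring
        rw [e1]
        have e2 : (1 / (2 : ℝ) ^ a) ^ 2 ≤ (M * (2 : ℝ) ^ L * r) ^ 2 :=
          pow_le_pow_left₀ (by positivity) hpw 2
        have e3 : C * ((n : ℝ) + 1) ^ 2 * (1 / (2 : ℝ) ^ a) ^ 2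
            ≤ (1 + C) * ((n : ℝ) + 1) ^ 2 * (M * (2 : ℝ) ^ L * r) ^ 2 := by
          refine mul_le_mul ?_ e2 (by positivity) (by positivity)
          exact mul_le_mul_of_nonneg_right (by linarith) (by positivity)
        refine e3.trans (le_of_eq ?_)
        rw [hA, hK, pow_mul']
        ring
    have hPps : Sz r (fun δ => Pm n a b (q + δ)) δ A := by
      obtain ⟨e1, -, e3, -⟩ := hL.2.1 (Pm n a b) q δ hP2
      have h := hPs (q + δ)
      exact ⟨h.1, by rw [e3]; exact h.2.1, by rw [e1]; exact h.2.2⟩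
    have hall := Sz.mul hL hrpos.le (gau1_contDiff r) hPp (gau1_sz hL hrpos δ) hPps
    have hWq : (W / ‖q‖) ^ 2 = 1 / y ^ 2 := by
      rw [hy]
      field_simp
    have hA0 : 0 ≤ A := by linarith
    -- the main numerical estimate
    have hnum : 6 * 160 * A * Real.exp (-(c1 * n * y ^ 2)) ≤ ε * (W / ‖q‖) ^ 2 := by
      rw [hWq, mul_one_div, le_div_iff₀ (by positivity)]
      have e1 : Real.exp (-(c1 * n * y ^ 2))
          = Real.exp (-(c1 * n * y ^ 2 / 2)) * Real.exp (-(c1 * n * y ^ 2 / 2)) := by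
        rw [← Real.exp_add]; congr 1; ring
      have e2 : y ^ 2 * Real.exp (-(c1 * n * y ^ 2 / 2)) ≤ 2 / c1 := by
        have h1 := Real.add_one_le_exp (c1 * n * y ^ 2 / 2)
        have h2 : y ^ 2 ≤ 2 / c1 * Real.exp (c1 * n * y ^ 2 / 2) := by
          rw [div_mul_eq_mul_div, le_div_iff₀ hc1pos]
          have h3 : y ^ 2 * c1 ≤ c1 * n * y ^ 2 := by
            have h4 : 0 ≤ y ^ 2 * c1 := by positivity
            calc y ^ 2 * c1 = y ^ 2 * c1 * 1 := (mul_one _).symm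
              _ ≤ y ^ 2 * c1 * n := mul_le_mul_of_nonneg_left hn1' h4
              _ = c1 * n * y ^ 2 := by ring
          linarith
        rw [Real.exp_neg, ← div_eq_mul_inv, div_le_iff₀ (Real.exp_pos _)]
        exact h2
      have e3 : Real.exp (-(c1 * n * y ^ 2 / 2)) ≤ Real.exp (-(c0 * n)) := by
        rw [Real.exp_le_exp, neg_le_neg_iff]
        have h1 : (2 / (2 : ℝ) ^ m) ^ 2 ≤ y ^ 2 :=
          pow_le_pow_left₀ (by positivity) hylow.le 2
        have h2 : c1 * n * (2 / (2 : ℝ) ^ m) ^ 2 ≤ c1 * n * y ^ 2 :=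
          mul_le_mul_of_nonneg_left h1 (by positivity)
        rw [hc0]
        linarith
      have e4 : 0 < Real.exp (-(c0 * n)) := Real.exp_pos _
      calc 6 * 160 * A * Real.exp (-(c1 * n * y ^ 2)) * y ^ 2
          = 6 * 160 * A * (y ^ 2 * Real.exp (-(c1 * n * y ^ 2 / 2))) *
              Real.exp (-(c1 * n * y ^ 2 / 2)) := by rw [e1]; ring
        _ ≤ 6 * 160 * A * (2 / c1) * Real.exp (-(c1 * n * y ^ 2 / 2)) :=
            mul_le_mul_of_nonneg_right (mul_le_mul_of_nonneg_left e2 (by positivity))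
              (Real.exp_pos _).le
        _ ≤ 6 * 160 * A * (2 / c1) * Real.exp (-(c0 * n)) :=
            mul_le_mul_of_nonneg_left e3 (by positivity)
        _ = (6 * 160 * K1) * ((n : ℝ) + 1) ^ 2 * Real.exp (-(c0 * n)) := by
            rw [hA, hK1]; ring
        _ ≤ ε := hsmall.le
    have hfin : 6 * (160 * (1 + (r * ‖δ‖) ^ 2) * Real.exp (-(Real.pi * (r * ‖δ‖) ^ 2)) * A)
        ≤ ε * (W / ‖q‖) ^ 2 * Real.exp (-(r ^ 2 * ‖δ‖ ^ 2)) := by
      have e1 : r ^ 2 * ‖δ‖ ^ 2 = x ^ 2 := by rw [hx]; ring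
      rw [e1, ← hx]
      have e2 : Real.exp (-(Real.pi * x ^ 2)) ≤ Real.exp (-(x ^ 2)) * Real.exp (-(x ^ 2)) *
          Real.exp (-(c1 * n * y ^ 2)) := by
        rw [← Real.exp_add, ← Real.exp_add, Real.exp_le_exp]
        have h5 := mul_le_mul_of_nonneg_right Real.pi_gt_three.le (sq_nonneg x)
        linarith
      have e3 : (1 + x ^ 2) * Real.exp (-(x ^ 2)) ≤ 1 := by
        have h1 : 1 + x ^ 2 ≤ Real.exp (x ^ 2) := by
          have := Real.add_one_le_exp (x ^ 2)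
          linarith
        rw [Real.exp_neg, ← div_eq_mul_inv]
        exact (div_le_one (Real.exp_pos _)).2 h1
      have e4 : 0 < Real.exp (-(x ^ 2)) := Real.exp_pos _
      have e5 : 0 < Real.exp (-(c1 * n * y ^ 2)) := Real.exp_pos _
      calc 6 * (160 * (1 + x ^ 2) * Real.exp (-(Real.pi * x ^ 2)) * A)
          = (6 * 160 * A * (1 + x ^ 2)) * Real.exp (-(Real.pi * x ^ 2)) := by ring
        _ ≤ (6 * 160 * A * (1 + x ^ 2)) * (Real.exp (-(x ^ 2)) * Real.exp (-(x ^ 2)) *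
          Real.exp (-(c1 * n * y ^ 2))) := mul_le_mul_of_nonneg_left e2 (by positivity)
        _ = (6 * 160 * A * Real.exp (-(c1 * n * y ^ 2))) * Real.exp (-(x ^ 2)) *
            ((1 + x ^ 2) * Real.exp (-(x ^ 2))) := by ring
        _ ≤ (6 * 160 * A * Real.exp (-(c1 * n * y ^ 2))) * Real.exp (-(x ^ 2)) * 1 :=
            mul_le_mul_of_nonneg_left e3 (by positivity)
        _ ≤ ε * (W / ‖q‖) ^ 2 * Real.exp (-(x ^ 2)) := by
            rw [mul_one]
            exact mul_le_mul_of_nonneg_right hnum e4.le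
    refine ⟨hall.1.trans hfin, ?_⟩
    have h3 := mul_le_mul_of_nonneg_right hfin (sq_nonneg r)
    refine hall.2.2.trans (h3.trans (le_of_eq ?_))
    ring

end Pool.Agent.Lib.MP_dd244f_an.Rp
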