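import Pool.Agent.Lib.MP_dd244f_an.Rp.Stmts
import Pool.Agent.Lib.MP_dd244f_an.Four.Final4

/-!
Full operator, all real `p`: module (Finalp), from compactly supported Fourier transforms to all
Schwartz functions.
-/

set_option autoImplicit false

namespace Pool.Agent.Lib.MP_dd244f_an.Rp

open MeasureTheory Filter Topology Finset
open Pool.Agent.Lib.MP_dd244f_an.Joint (st ct Mst ratio)
open Pool.Agent.Lib.MP_dd244f_an.Four
open Pool.Agent.Lib.MP_dd244f_an.Four.F4Fin
open Pool.Agent.Lib.MP_dd244f_an.Unif (SC)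
open scoped SchwartzMap ENNReal NNReal ContDiff FourierTransform

namespace FinP

theorem ratio_pos' (n : ℕ) {p : ℝ} (hp : 1 < p) : 0 < ratio n p := by
  unfold ratio
  refine div_pos (ascPochhammer_pos n _ ?_) (ascPochhammer_pos n _ (by positivity))
  have h1 : 1 / p < 1 := by
    rw [div_lt_one (by linarith)]
    exact hp
  linarith

theorem gamp_pos {p : ℝ} (hp : 1 < p) : 0 < gamp p := by
  unfold gamp
  have h1 : 1 / p < 1 := by
    rw [div_lt_one (by linarith)]
    exact hp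
  exact div_pos (Real.Gamma_pos_of_pos (by positivity)) (Real.Gamma_pos_of_pos (by linarith))

theorem memLp_real {p : ℝ} (hp : 0 < p) {h : ℂ → ℂ} (hm : AEStronglyMeasurable h volume)
    (hi : Integrable (fun x => ‖h x‖ ^ p)) : MemLp h (ENNReal.ofReal p) volume := by
  have h1 := (integrable_norm_rpow_iff (p := ENNReal.ofReal p) hm
    (ENNReal.ofReal_pos.2 hp).ne' ENNReal.ofReal_ne_top).1
  apply h1
  rw [ENNReal.toReal_ofReal hp.le]
  exact hi

theorem eLp_real {p : ℝ} (hp : 0 < p) {h : ℂ → ℂ} (hm : AEStronglyMeasurable h volume)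
    (hi : Integrable (fun x => ‖h x‖ ^ p)) :
    eLpNorm h (ENNReal.ofReal p) volume = ENNReal.ofReal ((∫ x, ‖h x‖ ^ p) ^ (p⁻¹)) := by
  rw [(memLp_real hp hm hi).eLpNorm_eq_integral_rpow_norm (ENNReal.ofReal_pos.2 hp).ne'
    ENNReal.ofReal_ne_top, ENNReal.toReal_ofReal hp.le]

/-- a bounded function in `L^2` is in `L^p` -/
theorem pow_int {u : ℂ → ℂ} {B p : ℝ} (hp : 2 ≤ p) (hu : AEStronglyMeasurable u volume)
    (hB : ∀ x, ‖u x‖ ≤ B) (h2 : Integrable (fun x => ‖u x‖ ^ 2)) :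
    Integrable (fun x => ‖u x‖ ^ p) ∧
      ∫ x, ‖u x‖ ^ p ≤ B ^ (p - 2) * ∫ x, ‖u x‖ ^ 2 := by
  have hB0 : 0 ≤ B := (norm_nonneg _).trans (hB 0)
  have hpt : ∀ x, ‖u x‖ ^ p ≤ B ^ (p - 2) * ‖u x‖ ^ 2 := by
    intro x
    rcases eq_or_lt_of_le (norm_nonneg (u x)) with h | h
    · rw [← h, Real.zero_rpow (by linarith)]
      positivity
    · have e : ‖u x‖ ^ p = ‖u x‖ ^ (p - 2) * ‖u x‖ ^ 2 := by
        rw [← Real.rpow_natCast ‖u x‖ 2, ← Real.rpow_add h]
        congr 1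
        push_cast
        ring
      rw [e]
      exact mul_le_mul_of_nonneg_right
        (Real.rpow_le_rpow (norm_nonneg _) (hB x) (by linarith)) (by positivity)
  have hi : Integrable (fun x => ‖u x‖ ^ p) := by
    refine (h2.const_mul (B ^ (p - 2))).mono'
      (hu.norm.aemeasurable.pow_const p).aestronglyMeasurable (Eventually.of_forall fun x => ?_)
    rw [Real.norm_of_nonneg (by positivity)]
    exact hpt x
  refine ⟨hi, ?_⟩
  rw [← integral_const_mul]
  exact integral_mono hi (h2.const_mul _) hpt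

/-- the `L^p` norm of the error -/
theorem errP {p : ℝ} (hp : 2 < p) (hL : Four.StmtL2) (hF : Four.StmtFac) {g : ℂ → ℂ}
    (hg : Continuous g) (hgi : Integrable g) (hg2 : MemLp g 2 volume) :
    ∃ e : ℕ → ℝ≥0∞, Tendsto e atTop (𝓝 0) ∧
      ∀ R : ℕ, eLpNorm (iF (fun ζ => cut (bd (-(R : ℤ)) R) g ζ - g ζ))
        (ENNReal.ofReal p) volume ≤ e R := by
  have hp0 : 0 < p := by linarith
  set B : ℕ → ℝ := fun R => ∫ ζ, ‖cut (bd (-(R : ℤ)) R) g ζ - g ζ‖ with hB
  have hBl : Tendsto B atTop (𝓝 0) := tend_L1 hF hg hgi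
  set G : ℝ := ∫ ζ, (2 * ‖g ζ‖) ^ 2 with hG
  have hG0 : 0 ≤ G := integral_nonneg fun _ => by positivity
  have hPinv : (0 : ℝ) < p⁻¹ := by positivity
  refine ⟨fun R => ENNReal.ofReal ((B R ^ (p - 2) * G) ^ (p⁻¹)), ?_, fun R => ?_⟩
  · have h1 : Tendsto (fun R => (B R ^ (p - 2) * G) ^ (p⁻¹)) atTop (𝓝 0) := by
      have h2 : Tendsto (fun R => B R ^ (p - 2) * G) atTop (𝓝 0) := by
        have := (hBl.rpow_const (p := p - 2) (Or.inr (by linarith))).mul_const G
        rwa [Real.zero_rpow (by linarith), zero_mul] at this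
      have h3 := h2.rpow_const (p := p⁻¹) (Or.inr hPinv.le)
      rwa [Real.zero_rpow hPinv.ne'] at h3
    have := ENNReal.tendsto_ofReal h1
    simpa using this
  · set φ : ℂ → ℂ := fun ζ => cut (bd (-(R : ℤ)) R) g ζ - g ζ with hφ
    have hcc := cutcc hF hg (-(R : ℤ)) R
    have hφc : Continuous φ := hcc.1.sub hg
    have hci : Integrable (cut (bd (-(R : ℤ)) R) g) := hcc.1.integrable_of_hasCompactSupport hcc.2
    have hφi : Integrable φ := hci.sub hgi
    have hφb : ∀ ζ, ‖φ ζ‖ ≤ 2 * ‖g ζ‖ := by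
      intro ζ
      rw [hφ]
      refine (norm_sub_le _ _).trans ?_
      unfold cut
      rw [norm_mul, Complex.norm_real, Real.norm_eq_abs]
      have h2 := mul_le_mul_of_nonneg_right (bd_abs hF (-(R : ℤ)) R ζ) (norm_nonneg (g ζ))
      linarith
    have hg2i : Integrable (fun ζ => (2 * ‖g ζ‖) ^ 2) := by
      have := (memLp_two_iff_integrable_sq_norm hg.aestronglyMeasurable).1 hg2
      have h2 := this.const_mul 4
      refine h2.congr (Eventually.of_forall fun ζ => ?_)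
      simp only
      ring
    have hφ2i : Integrable (fun ζ => ‖φ ζ‖ ^ 2) := by
      refine hg2i.mono' (hφc.norm.pow 2).aestronglyMeasurable (Eventually.of_forall fun ζ => ?_)
      rw [Real.norm_of_nonneg (by positivity)]
      exact pow_le_pow_left₀ (norm_nonneg _) (hφb ζ) 2
    have hφ2 : MemLp φ 2 volume :=
      (memLp_two_iff_integrable_sq_norm hφc.aestronglyMeasurable).2 hφ2i
    obtain ⟨hd2, hdeq⟩ := hL φ hφi hφ2
    have hd2i : Integrable (fun x => ‖iF φ x‖ ^ 2) :=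
      (memLp_two_iff_integrable_sq_norm hd2.aestronglyMeasurable).1 hd2
    have hb : ∀ x, ‖iF φ x‖ ≤ B R := fun x => norm_iF_le φ x
    have hB0 : 0 ≤ B R := integral_nonneg fun _ => norm_nonneg _
    obtain ⟨hi, hle⟩ := FinP.pow_int hp.le hd2.aestronglyMeasurable hb hd2i
    rw [eLp_real hp0 hd2.aestronglyMeasurable hi]
    refine ENNReal.ofReal_le_ofReal (Real.rpow_le_rpow (integral_nonneg fun _ => by positivity) ?_
      hPinv.le)
    refine hle.trans (mul_le_mul_of_nonneg_left ?_ (by positivity))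
    rw [hdeq]
    exact integral_mono hφ2i hg2i fun ζ => pow_le_pow_left₀ (norm_nonneg _) (hφb ζ) 2

/-- the cut functions are smooth with compact support away from `0` -/
theorem cut_sc (hF : Four.StmtFac) {g : ℂ → ℂ} (hg : ContDiff ℝ ∞ g) (R : ℕ) :
    SC (cut (bd (-(R : ℤ)) R) g) ∧ Sup (R + 1) (cut (bd (-(R : ℤ)) R) g) := by
  have hcc := cutcc hF hg.continuous (-(R : ℤ)) R
  refine ⟨⟨?_, hcc.2⟩, ?_⟩
  · unfold cut bd
    have h1 : ContDiff ℝ ∞ (fun ζ => lo (R : ℤ) ζ - lo (-(R : ℤ)) ζ) :=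
      (hF.2.2.2.1 (R : ℤ) ⊤).sub (hF.2.2.2.1 (-(R : ℤ)) ⊤)
    exact (Complex.ofRealCLM.contDiff.comp h1).mul hg
  · intro ζ hζ
    have hR1 : (2 : ℝ) ^ (((R + 1 : ℕ) : ℤ)) = 2 * (2 : ℝ) ^ ((R : ℕ) : ℤ) := by
      push_cast
      rw [zpow_add₀ (by norm_num)]
      norm_num
      ring
    have hR2 : (2 : ℝ) ^ (-((R + 1 : ℕ) : ℤ)) = (2 : ℝ) ^ (-(R : ℤ)) / 2 := by
      push_cast
      rw [neg_add, zpow_add₀ (by norm_num)]
      norm_num
      ring
    have hRpos : 0 < (2 : ℝ) ^ ((R : ℕ) : ℤ) := by positivity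
    have hRpos' : 0 < (2 : ℝ) ^ (-(R : ℤ)) := by positivity
    have hle : (2 : ℝ) ^ (-(R : ℤ)) ≤ (2 : ℝ) ^ ((R : ℕ) : ℤ) :=
      zpow_le_zpow_right₀ (by norm_num) (by omega)
    constructor
    · by_contra hc
      push Not at hc
      apply hζ
      unfold cut bd
      rw [hF.2.1 (-(R : ℤ)) ζ (by rw [hR2] at hc; linarith),
        hF.2.1 (R : ℤ) ζ (by rw [hR2] at hc; linarith)]
      simp
    · by_contra hc
      push Not at hc
      apply hζ
      unfold cut bd
      rw [hR1] at hc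
      rw [hF.2.2.1 (-(R : ℤ)) ζ (by nlinarith), hF.2.2.1 (R : ℤ) ζ (by nlinarith)]
      simp

end FinP

open FinP in
/-- (Finalp) -/
theorem finalp (hM : StmtMainp) (hR : StmtRatiop) (hB : Four.StmtBase) (hF : Four.StmtFac)
    (hL : Four.StmtL2) : StmtFinalp := by
  intro p κ ε hp hκ hH hε
  obtain ⟨n₁, hn₁⟩ := hM p κ ε hp hκ hH hε
  have hp0 : 0 < p := by linarith
  have hgam : 0 < gamp p := gamp_pos (by linarith)
  have hgp : 0 < gamp p ^ p := by positivity
  have hpow : ∀ᶠ n : ℕ in atTop, gamp p ^ p <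
      ratio n p ^ p / (n : ℝ) ^ (p - 2) * (1 + ε) := by
    have h1 := (hR p hp.le).mul_const (1 + ε)
    have h2 : gamp p ^ p < gamp p ^ p * (1 + ε) := by nlinarith
    exact Filter.Tendsto.eventually_const_lt h2 h1
  obtain ⟨n₂, hn₂⟩ := eventually_atTop.1 hpow
  refine ⟨max (max n₁ n₂) 1, fun n hn f => ?_⟩
  have hnn1 : n₁ ≤ n := (le_max_left _ _).trans ((le_max_left _ _).trans hn)
  have hnn2 : n₂ ≤ n := (le_max_right _ _).trans ((le_max_left _ _).trans hn)
  have hnn3 : 1 ≤ n := (le_max_right _ _).trans hn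
  have hp2 := hn₂ n hnn2
  have hn0 : (0 : ℝ) < n := by exact_mod_cast hnn3
  have hrat : 0 < ratio n p := ratio_pos' n (by linarith)
  set K : ℝ := (1 + ε) * κ ^ (1 / p) * ratio n p with hK
  have hK0 : 0 < K := by positivity
  have hKK : (1 + ε) * κ * gamp p ^ p * (n : ℝ) ^ (p - 2) ≤ K ^ p := by
    have h2 : gamp p ^ p * (n : ℝ) ^ (p - 2) ≤ (1 + ε) * ratio n p ^ p := by
      have h3 := mul_le_mul_of_nonneg_right hp2.le (by positivity : (0 : ℝ) ≤ (n : ℝ) ^ (p - 2))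
      refine h3.trans (le_of_eq ?_)
      have : (n : ℝ) ^ (p - 2) ≠ 0 := by positivity
      field_simp
    have h3 : (1 + ε) ^ 2 ≤ (1 + ε) ^ p := by
      rw [← Real.rpow_natCast]
      exact Real.rpow_le_rpow_of_exponent_le (by linarith) (by push_cast; linarith)
    calc (1 + ε) * κ * gamp p ^ p * (n : ℝ) ^ (p - 2)
        = (1 + ε) * κ * (gamp p ^ p * (n : ℝ) ^ (p - 2)) := by ring
      _ ≤ (1 + ε) * κ * ((1 + ε) * ratio n p ^ p) :=
          mul_le_mul_of_nonneg_left h2 (by positivity)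
      _ = (1 + ε) ^ 2 * (κ * ratio n p ^ p) := by ring
      _ ≤ (1 + ε) ^ p * (κ * ratio n p ^ p) :=
          mul_le_mul_of_nonneg_right h3 (by positivity)
      _ = K ^ p := by
          rw [hK, Real.mul_rpow (by positivity) hrat.le,
            Real.mul_rpow (by positivity) (by positivity), ← Real.rpow_mul hκ.le,
            one_div, inv_mul_cancel₀ hp0.ne', Real.rpow_one]
          ring
  have hPinv : (0 : ℝ) < p⁻¹ := by positivity
  have hq1 : (1 : ℝ≥0∞) ≤ ENNReal.ofReal p := by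
    rw [ENNReal.one_le_ofReal]
    linarith
  -- the transform
  set g : ℂ → ℂ := 𝓕 (⇑f) with hg
  have hgS : g = ⇑(𝓕 f : 𝓢(ℂ, ℂ)) := by rw [hg, ← SchwartzMap.fourier_coe]
  have hgsm : ContDiff ℝ ∞ g := by rw [hgS]; exact (𝓕 f : 𝓢(ℂ, ℂ)).smooth ⊤
  have hgc : Continuous g := by rw [hgS]; exact (𝓕 f : 𝓢(ℂ, ℂ)).continuous
  have hgi : Integrable g := by rw [hgS]; exact (𝓕 f : 𝓢(ℂ, ℂ)).integrable
  have hg2 : MemLp g 2 volume := by rw [hgS]; exact (𝓕 f : 𝓢(ℂ, ℂ)).memLp 2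
  obtain ⟨e, he0, heR⟩ := errP hp hL hF hgc hgi hg2
  have hintP : ∀ h : ℂ → ℂ, CC h → Integrable (fun x => ‖iF h x‖ ^ p) := by
    intro h hh
    obtain ⟨b1, ⟨Bd, b2⟩, b3, -, -⟩ := hB.1 h hh
    exact (FinP.pow_int hp.le b1.aestronglyMeasurable b2 b3).1
  have hle : ∀ R : ℕ, eLpNorm (iF (mg n (cut (bd (-(R : ℤ)) R) g)))
      (ENNReal.ofReal p) volume ≤
      ENNReal.ofReal K * (eLpNorm f (ENNReal.ofReal p) volume + e R) := by
    intro R
    obtain ⟨hsc, hsup⟩ := cut_sc hF hgsm R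
    set h := cut (bd (-(R : ℤ)) R) g with hh
    have hcc : CC h := cutcc hF hgc _ _
    have hz0 : Z0 h := bd_z0 hF g R
    have hmcc : CC (mg n h) := (hF.2.2.2.2.2.1 h n hnn3 hcc hz0).1
    have hb1 := hB.1 _ hcc
    have hb2 := hB.1 _ hmcc
    have h1 : eLpNorm (iF (mg n h)) (ENNReal.ofReal p) volume ≤
        ENNReal.ofReal K * eLpNorm (iF h) (ENNReal.ofReal p) volume := by
      rw [eLp_real hp0 hb1.1.aestronglyMeasurable (hintP h hcc),
        eLp_real hp0 hb2.1.aestronglyMeasurable (hintP _ hmcc), ← ENNReal.ofReal_mul hK0.le]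
      refine ENNReal.ofReal_le_ofReal ?_
      have h2 : ∫ x, ‖iF (mg n h) x‖ ^ p ≤ K ^ p * ∫ x, ‖iF h x‖ ^ p := by
        have h3 := hn₁ n hnn1 (R + 1) h hsc hsup
        unfold Np at h3
        exact h3.trans (mul_le_mul_of_nonneg_right hKK (integral_nonneg fun _ => by positivity))
      calc (∫ x, ‖iF (mg n h) x‖ ^ p) ^ (p⁻¹)
          ≤ (K ^ p * ∫ x, ‖iF h x‖ ^ p) ^ (p⁻¹) :=
            Real.rpow_le_rpow (integral_nonneg fun _ => by positivity) h2 hPinv.le
        _ = (K ^ p) ^ (p⁻¹) * (∫ x, ‖iF h x‖ ^ p) ^ (p⁻¹) :=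
            Real.mul_rpow (by positivity) (integral_nonneg fun _ => by positivity)
        _ = K * (∫ x, ‖iF h x‖ ^ p) ^ (p⁻¹) := by
            rw [Real.rpow_rpow_inv hK0.le hp0.ne']
    have h6 : eLpNorm (iF h) (ENNReal.ofReal p) volume ≤
        eLpNorm f (ENNReal.ofReal p) volume + e R := by
      have h7 : iF h = (fun x => f x) + iF (fun ζ => h ζ - g ζ) := by
        ext x
        rw [Pi.add_apply, iF_sub (hcc.1.integrable_of_hasCompactSupport hcc.2) hgi, f_iF f x]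
        ring
      have hm : AEStronglyMeasurable (iF (fun ζ => h ζ - g ζ)) volume := by
        have h8 : iF (fun ζ => h ζ - g ζ) = fun x => iF h x - f x := by
          ext x
          rw [iF_sub (hcc.1.integrable_of_hasCompactSupport hcc.2) hgi, f_iF f x]
        rw [h8]
        exact (hb1.1.sub f.continuous).aestronglyMeasurable
      rw [h7]
      refine (eLpNorm_add_le f.continuous.aestronglyMeasurable hm hq1).trans ?_
      exact add_le_add le_rfl (heR R)
    exact h1.trans (mul_le_mul_right h6 _)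
  have hfat : eLpNorm (Tn n f) (ENNReal.ofReal p) volume ≤
      atTop.liminf fun R : ℕ => eLpNorm (iF (mg n (cut (bd (-(R : ℤ)) R) g)))
        (ENNReal.ofReal p) volume := by
    refine Lp.eLpNorm_lim_le_liminf_eLpNorm (fun R => ?_) _ (Eventually.of_forall fun x => ?_)
    · have hcc : CC (cut (bd (-(R : ℤ)) R) g) := cutcc hF hgc _ _
      have hmcc := (hF.2.2.2.2.2.1 _ n hnn3 hcc (bd_z0 hF g R)).1
      exact (hB.1 _ hmcc).1.aestronglyMeasurable
    · rw [Tn_iF]
      exact tend_iF hF n hgc hgi x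
  refine hfat.trans ?_
  have hlim : Tendsto (fun R : ℕ => ENNReal.ofReal K *
      (eLpNorm f (ENNReal.ofReal p) volume + e R)) atTop
      (𝓝 (ENNReal.ofReal K * (eLpNorm f (ENNReal.ofReal p) volume + 0))) := by
    refine ENNReal.Tendsto.const_mul (tendsto_const_nhds.add he0) (Or.inr ENNReal.ofReal_ne_top)
  rw [add_zero] at hlim
  rw [← hlim.liminf_eq]
  exact liminf_le_liminf (Eventually.of_forall hle)

end Pool.Agent.Lib.MP_dd244f_an.Rp
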