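import Pool.Agent.Lib.MP_dd244f_an.Rp.Stmts

/-!
(GRes) resolution of a Gaussian window into two.
-/

set_option autoImplicit false

namespace Pool.Agent.Lib.MP_dd244f_an.Rp.GRes

open MeasureTheory Filter Topology Finset
open Pool.Agent.Lib.MP_dd244f_an.Four
open Pool.Agent.Lib.MP_dd244f_an.Even
open Pool.Agent.Lib.MP_dd244f_an.Unif (SC)

/-- the exponent identity -/
theorem quad_id (a b : ℝ) (hab : a + b ≠ 0) (z ξ q : ℂ) :
    a * ‖z - ξ‖ ^ 2 + b * ‖z - q‖ ^ 2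
      = a * b / (a + b) * ‖ξ - q‖ ^ 2
        + (a + b) * ‖z - (((a : ℝ) : ℂ) * ξ + ((b : ℝ) : ℂ) * q) / ((a + b : ℝ) : ℂ)‖ ^ 2 := by
  have hab' : ((a + b : ℝ) : ℂ) ≠ 0 := by exact_mod_cast hab
  have h1 : z - (((a : ℝ) : ℂ) * ξ + ((b : ℝ) : ℂ) * q) / ((a + b : ℝ) : ℂ)
      = (((a : ℝ) : ℂ) * (z - ξ) + ((b : ℝ) : ℂ) * (z - q)) / ((a + b : ℝ) : ℂ) := by
    field_simp
    push_cast
    ring
  rw [h1, norm_div, div_pow]
  have h2 : ‖((a + b : ℝ) : ℂ)‖ ^ 2 = (a + b) ^ 2 := by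
    rw [Complex.norm_real, Real.norm_eq_abs, sq_abs]
  rw [h2]
  have h3 : (a + b) * (‖((a : ℝ) : ℂ) * (z - ξ) + ((b : ℝ) : ℂ) * (z - q)‖ ^ 2 / (a + b) ^ 2)
      = ‖((a : ℝ) : ℂ) * (z - ξ) + ((b : ℝ) : ℂ) * (z - q)‖ ^ 2 / (a + b) := by
    field_simp
  rw [h3, div_mul_eq_mul_div, ← add_div, eq_div_iff hab]
  simp only [← Complex.normSq_eq_norm_sq, Complex.normSq_apply, Complex.add_re, Complex.add_im,
    Complex.sub_re, Complex.sub_im, Complex.mul_re, Complex.mul_im, Complex.ofReal_re,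
    Complex.ofReal_im]
  ring

theorem gs_gs (r σ : ℝ) (hr : 0 < r) (hσ : 0 < σ) (H : ℂ → ℂ) (ξ q : ℂ) :
    gs r ξ (gs σ q H) = fun ζ =>
      ((Real.exp (-(Real.pi * (r ^ 2 * σ ^ 2 / (r ^ 2 + σ ^ 2)) * ‖ξ - q‖ ^ 2)) : ℝ) : ℂ) *
      gs (Real.sqrt (r ^ 2 + σ ^ 2))
        ((((r ^ 2 : ℝ) : ℂ) * ξ + ((σ ^ 2 : ℝ) : ℂ) * q) / ((r ^ 2 + σ ^ 2 : ℝ) : ℂ)) H ζ := by
  ext ζ
  unfold gs
  rw [← mul_assoc, ← mul_assoc, ← Complex.ofReal_mul, ← Complex.ofReal_mul, ← Real.exp_add,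
    ← Real.exp_add, Real.sq_sqrt (by positivity)]
  congr 3
  have := quad_id (r ^ 2) (σ ^ 2) (by positivity) ζ ξ q
  have h2 : -(Real.pi * r ^ 2 * ‖ζ - ξ‖ ^ 2) + -(Real.pi * σ ^ 2 * ‖ζ - q‖ ^ 2)
      = -(Real.pi * (r ^ 2 * ‖ζ - ξ‖ ^ 2 + σ ^ 2 * ‖ζ - q‖ ^ 2)) := by ring
  rw [h2, this]
  ring

theorem Np_const_mul (p : ℝ) (c : ℝ) (hc : 0 ≤ c) (g : ℂ → ℂ) :
    Np p (fun ζ => ((c : ℝ) : ℂ) * g ζ) = c ^ p * Np p g := by
  unfold Np
  rw [← integral_const_mul]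
  congr 1
  ext x
  have : iF (fun ζ => ((c : ℝ) : ℂ) * g ζ) x = ((c : ℝ) : ℂ) * iF g x := by
    unfold iF
    rw [← integral_const_mul]
    congr 1
    ext ζ
    ring
  rw [this, norm_mul, Complex.norm_real, Real.norm_eq_abs, abs_of_nonneg hc,
    Real.mul_rpow hc (norm_nonneg _)]

theorem part1 (p r σ : ℝ) (hr : 0 < r) (hσ : 0 < σ) (H : ℂ → ℂ) (ξ q : ℂ) :
    Nw p r ξ (gs σ q H)
    = Real.exp (-(Real.pi * p * (r ^ 2 * σ ^ 2 / (r ^ 2 + σ ^ 2)) * ‖ξ - q‖ ^ 2)) *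
      Nw p (Real.sqrt (r ^ 2 + σ ^ 2))
        ((((r ^ 2 : ℝ) : ℂ) * ξ + ((σ ^ 2 : ℝ) : ℂ) * q) / ((r ^ 2 + σ ^ 2 : ℝ) : ℂ)) H := by
  unfold Nw
  rw [gs_gs r σ hr hσ, Np_const_mul _ _ (Real.exp_nonneg _), ← Real.exp_mul]
  congr 2
  ring

theorem gauss_disc (a ρ : ℝ) (ha : 0 < a) (hρ : 0 < ρ) :
    ∫ d in Metric.closedBall (0 : ℂ) ρ, Real.exp (-(Real.pi * a * ‖d‖ ^ 2))
      = (1 - Real.exp (-(Real.pi * a * ρ ^ 2))) / a := by
  rw [← integral_indicator Metric.isClosed_closedBall.measurableSet,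
    ← Complex.integral_comp_polarCoord_symm]
  have hpc : ∀ x ∈ polarCoord.target,
      x.1 • (Metric.closedBall (0 : ℂ) ρ).indicator
        (fun d => Real.exp (-(Real.pi * a * ‖d‖ ^ 2))) (Complex.polarCoord.symm x)
      = (Set.Ioc 0 ρ).indicator (fun t => t * Real.exp (-(Real.pi * a * t ^ 2))) x.1 * 1 := by
    rintro ⟨t, θ⟩ hx
    have ht : 0 < t := hx.1
    have hn : ‖Complex.polarCoord.symm (t, θ)‖ = t := by
      rw [Complex.norm_polarCoord_symm, abs_of_pos ht]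
    simp only [smul_eq_mul, mul_one]
    by_cases h : t ≤ ρ
    · have h1 : Complex.polarCoord.symm (t, θ) ∈ Metric.closedBall (0 : ℂ) ρ := by
        rw [mem_closedBall_zero_iff, hn]
        exact h
      have h2 : t ∈ Set.Ioc 0 ρ := ⟨ht, h⟩
      rw [Set.indicator_of_mem h1, Set.indicator_of_mem h2, hn]
    · have h1 : Complex.polarCoord.symm (t, θ) ∉ Metric.closedBall (0 : ℂ) ρ := by
        rw [mem_closedBall_zero_iff, hn]
        exact h
      have h2 : t ∉ Set.Ioc 0 ρ := fun h' => h h'.2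
      rw [Set.indicator_of_notMem h1, Set.indicator_of_notMem h2, mul_zero]
  rw [setIntegral_congr_fun polarCoord.open_target.measurableSet hpc]
  rw [polarCoord_target, Measure.volume_eq_prod, setIntegral_prod_mul
    (fun t => (Set.Ioc 0 ρ).indicator (fun t => t * Real.exp (-(Real.pi * a * t ^ 2))) t)
    (fun _ : ℝ => (1 : ℝ))]
  have h1 : ∫ _ in Set.Ioo (-Real.pi) Real.pi, (1 : ℝ) = 2 * Real.pi := by
    rw [setIntegral_const, Measure.real, Real.volume_Ioo, smul_eq_mul, mul_one,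
      ENNReal.toReal_ofReal (by linarith [Real.pi_pos])]
    ring
  rw [h1, setIntegral_indicator measurableSet_Ioc]
  have h2 : Set.Ioi (0 : ℝ) ∩ Set.Ioc 0 ρ = Set.Ioc 0 ρ :=
    Set.inter_eq_right.2 fun x hx => hx.1
  rw [h2, ← intervalIntegral.integral_of_le hρ.le]
  have hd : ∀ x ∈ Set.uIcc (0 : ℝ) ρ, HasDerivAt
      (fun t => -(Real.exp (-(Real.pi * a * t ^ 2))) / (2 * Real.pi * a))
      (x * Real.exp (-(Real.pi * a * x ^ 2))) x := by
    intro x _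
    have h3 : HasDerivAt (fun t : ℝ => -(Real.pi * a * t ^ 2)) (-(Real.pi * a * (2 * x))) x := by
      refine HasDerivAt.congr_deriv (((hasDerivAt_pow 2 x).const_mul (Real.pi * a)).neg) ?_
      norm_num
    refine HasDerivAt.congr_deriv ((h3.exp.neg).div_const (2 * Real.pi * a)) ?_
    have h5 : (2 * Real.pi * a) ≠ 0 := by
      have := Real.pi_pos
      positivity
    rw [div_eq_iff h5]
    ring
  rw [intervalIntegral.integral_eq_sub_of_hasDerivAt hd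
    ((by fun_prop : Continuous fun x : ℝ => x * Real.exp (-(Real.pi * a * x ^ 2)))
      |>.intervalIntegrable _ _)]
  have := Real.pi_pos
  field_simp
  simp
  ring

/-- the change of variables -/
noncomputable def ph (α : ℝ) (z : ℂ × ℂ) : ℂ × ℂ :=
  (z.1 - ((α : ℝ) : ℂ) * z.2, z.1 - ((α : ℝ) : ℂ) * z.2 + z.2)

/-- the same as a homeomorphism -/
noncomputable def phH (α : ℝ) : (ℂ × ℂ) ≃ₜ (ℂ × ℂ) where
  toFun := ph α
  invFun z := (z.1 + ((α : ℝ) : ℂ) * (z.2 - z.1), z.2 - z.1)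
  left_inv z := by
    unfold ph
    ext <;> simp
  right_inv z := by
    unfold ph
    ext <;> simp
  continuous_toFun := by unfold ph; fun_prop
  continuous_invFun := by fun_prop

theorem ph_mp (α : ℝ) : MeasurePreserving (ph α) volume volume := by
  have h1 : MeasurePreserving (fun z : ℂ × ℂ => (z.1, z.1 + z.2)) volume volume :=
    measurePreserving_prod_add (volume : Measure ℂ) (volume : Measure ℂ)
  have h2 : MeasurePreserving (Prod.swap : ℂ × ℂ → ℂ × ℂ) volume volume :=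
    Measure.measurePreserving_swap
  have h3 : MeasurePreserving (fun z : ℂ × ℂ => (z.1, z.2 - ((α : ℝ) : ℂ) * z.1))
      volume volume := by
    have := MeasurePreserving.skew_product (μa := (volume : Measure ℂ))
      (μb := (volume : Measure ℂ)) (μc := (volume : Measure ℂ)) (μd := (volume : Measure ℂ))
      (f := id) (MeasurePreserving.id _)
      (g := fun a c => c - ((α : ℝ) : ℂ) * a) (by
        unfold Function.uncurry
        fun_prop) (by
        filter_upwards with a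
        exact (measurePreserving_sub_right (volume : Measure ℂ) (((α : ℝ) : ℂ) * a)).map_eq)
    exact this
  have h4 := h1.comp (h2.comp (h3.comp h2))
  exact h4

theorem ph_emb (α : ℝ) : MeasurableEmbedding (ph α) := (phH α).measurableEmbedding

theorem G_int (hP : StmtPsi) (hE : StmtE1) (p R : ℝ) (H : ℂ → ℂ) (hp : 2 < p) (hR : 0 < R)
    (hH : SC H) : Continuous (fun η : ℂ => ‖η‖ ^ (2 * p - 4) * Nw p R η H) ∧
    Integrable (fun η : ℂ => ‖η‖ ^ (2 * p - 4) * Nw p R η H) := by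
  obtain ⟨hE1, hE2, -, -⟩ := hE p R H hp hR hH
  have hc : Continuous (fun η : ℂ => ‖η‖ ^ (2 * p - 4) * Nw p R η H) := by
    refine Continuous.mul ?_ hE2
    exact continuous_norm.rpow_const fun x => Or.inr (by linarith)
  refine ⟨hc, ?_⟩
  obtain ⟨-, -, -, -, -, -, -, h8⟩ := hP p H hp hH
  obtain ⟨C, hC, hCb⟩ := h8 (R ^ 2 / (4 * Real.pi))
  have hpi := Real.pi_pos
  have hb : ∀ η : ℂ, Nw p R η H
      ≤ Real.exp (-(Real.pi * p * R ^ 2 * ‖η‖ ^ 2)) * (C * Real.exp (C * (R ^ 2 * ‖η‖))) := by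
    intro η
    rw [hE1]
    refine mul_le_mul_of_nonneg_left ?_ (Real.exp_nonneg _)
    have := (hCb (R ^ 2 / (4 * Real.pi)) (-((R ^ 2 : ℝ) : ℂ) * η)
      (by rw [abs_of_nonneg (by positivity)])).1
    refine this.trans (le_of_eq ?_)
    rw [norm_mul, norm_neg, Complex.norm_real, Real.norm_eq_abs, abs_of_nonneg (by positivity)]
  -- bounded times a Gaussian
  set b : ℝ := Real.pi * p * R ^ 2 with hbdef
  have hb0 : 0 < b := by positivity
  have hgi : Integrable (fun η : ℂ => Real.exp (-(b / 2 * ‖η‖ ^ 2))) := by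
    have := (GaussianFourier.integrable_cexp_neg_mul_sq_norm_add (V := ℂ) (b := ((b / 2 : ℝ) : ℂ))
      (by rw [Complex.ofReal_re]; positivity) 0 0).norm
    refine this.congr ?_
    filter_upwards with η
    rw [Complex.norm_exp]
    congr 1
    simp [← Complex.ofReal_pow]
  have htend : Tendsto (fun t : ℝ => t ^ (2 * p - 4) *
      Real.exp (-(b / 2 * t ^ 2)) * Real.exp (C * (R ^ 2 * t))) atTop (𝓝 0) := by
    have h1 : Tendsto (fun t : ℝ => t ^ (2 * p - 4) * Real.exp (-(1 : ℝ) * t)) atTop (𝓝 0) :=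
      tendsto_rpow_mul_exp_neg_mul_atTop_nhds_zero _ _ one_pos
    have h2 : ∀ᶠ t : ℝ in atTop, ‖t ^ (2 * p - 4) *
      Real.exp (-(b / 2 * t ^ 2)) * Real.exp (C * (R ^ 2 * t))‖
        ≤ t ^ (2 * p - 4) * Real.exp (-(1 : ℝ) * t) := by
      filter_upwards [eventually_ge_atTop (max 0 ((1 + C * R ^ 2) / (b / 2)))] with t ht
      have ht0 : 0 ≤ t := (le_max_left _ _).trans ht
      have ht1 : 1 + C * R ^ 2 ≤ b / 2 * t := by
        have := (le_max_right _ _).trans ht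
        rw [div_le_iff₀ (by positivity)] at this
        linarith
      rw [Real.norm_of_nonneg (by positivity), mul_assoc, ← Real.exp_add]
      refine mul_le_mul_of_nonneg_left ?_ (by positivity)
      apply Real.exp_le_exp.2
      nlinarith
    exact squeeze_zero_norm' h2 h1
  have hcont : Continuous (fun t : ℝ => t ^ (2 * p - 4) *
      Real.exp (-(b / 2 * t ^ 2)) * Real.exp (C * (R ^ 2 * t))) := by
    refine Continuous.mul (Continuous.mul ?_ (by fun_prop)) (by fun_prop)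
    exact continuous_id.rpow_const fun x => Or.inr (by linarith)
  obtain ⟨D, hD⟩ : ∃ D, ∀ t : ℝ, 0 ≤ t → t ^ (2 * p - 4) *
      Real.exp (-(b / 2 * t ^ 2)) * Real.exp (C * (R ^ 2 * t)) ≤ D := by
    obtain ⟨T, hT⟩ := Filter.eventually_atTop.1 (htend.eventually (gt_mem_nhds one_pos))
    obtain ⟨D, hD⟩ := (isCompact_Icc (a := (0 : ℝ)) (b := T)).exists_bound_of_continuousOn
      hcont.continuousOn
    refine ⟨max D 1, fun t ht => ?_⟩
    by_cases h : t ≤ T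
    · exact ((le_abs_self _).trans (hD t ⟨ht, h⟩)).trans (le_max_left _ _)
    · exact (hT t (not_le.1 h).le).le.trans (le_max_right _ _)
  refine Integrable.mono' (hgi.const_mul (D * C)) hc.aestronglyMeasurable ?_
  filter_upwards with η
  have hNn : 0 ≤ Nw p R η H := integral_nonneg fun x => by positivity
  rw [Real.norm_of_nonneg (mul_nonneg (by positivity) hNn)]
  calc ‖η‖ ^ (2 * p - 4) * Nw p R η H
      ≤ ‖η‖ ^ (2 * p - 4) *
        (Real.exp (-(b * ‖η‖ ^ 2)) * (C * Real.exp (C * (R ^ 2 * ‖η‖)))) :=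
        mul_le_mul_of_nonneg_left (hb η) (by positivity)
    _ = (‖η‖ ^ (2 * p - 4) * Real.exp (-(b / 2 * ‖η‖ ^ 2)) * Real.exp (C * (R ^ 2 * ‖η‖)))
        * (C * Real.exp (-(b / 2 * ‖η‖ ^ 2))) := by
        have : Real.exp (-(b * ‖η‖ ^ 2))
            = Real.exp (-(b / 2 * ‖η‖ ^ 2)) * Real.exp (-(b / 2 * ‖η‖ ^ 2)) := by
          rw [← Real.exp_add]
          congr 1
          ring
        rw [this]
        ring
    _ ≤ D * (C * Real.exp (-(b / 2 * ‖η‖ ^ 2))) :=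
        mul_le_mul_of_nonneg_right (hD _ (norm_nonneg _)) (by positivity)
    _ = D * C * Real.exp (-(b / 2 * ‖η‖ ^ 2)) := by ring

end Pool.Agent.Lib.MP_dd244f_an.Rp.GRes

namespace Pool.Agent.Lib.MP_dd244f_an.Rp

open MeasureTheory Filter Topology Finset
open Pool.Agent.Lib.MP_dd244f_an.Four
open Pool.Agent.Lib.MP_dd244f_an.Unif (SC)

theorem gres (hP : StmtPsi) (hE : StmtE1) : StmtGRes := by
  intro p r σ ρ H hp hr hσ hρ hH
  have h1 := fun ξ q => GRes.part1 p r σ hr hσ H ξ q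
  have hR : 0 < Real.sqrt (r ^ 2 + σ ^ 2) := Real.sqrt_pos.2 (by positivity)
  obtain ⟨hGc, hGi⟩ := GRes.G_int hP hE p (Real.sqrt (r ^ 2 + σ ^ 2)) H hp hR hH
  set G : ℂ → ℝ := fun η => ‖η‖ ^ (2 * p - 4) * Nw p (Real.sqrt (r ^ 2 + σ ^ 2)) η H with hG
  set a : ℝ := p * (r ^ 2 * σ ^ 2 / (r ^ 2 + σ ^ 2)) with ha
  have ha0 : 0 < a := by positivity
  set α : ℝ := r ^ 2 / (r ^ 2 + σ ^ 2) with hα
  set f : ℂ × ℂ → ℝ := fun z => ‖(((r ^ 2 : ℝ) : ℂ) * z.2 + ((σ ^ 2 : ℝ) : ℂ) * z.1)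
      / ((r ^ 2 + σ ^ 2 : ℝ) : ℂ)‖ ^ (2 * p - 4) * Nw p r z.2 (gs σ z.1 H) with hf
  have hcomp : ∀ z : ℂ × ℂ, f (GRes.ph α z) = G z.1 * Real.exp (-(Real.pi * a * ‖z.2‖ ^ 2)) := by
    rintro ⟨η, d⟩
    have hne : ((r ^ 2 + σ ^ 2 : ℝ) : ℂ) ≠ 0 := by
      have : (r ^ 2 + σ ^ 2 : ℝ) ≠ 0 := by positivity
      exact_mod_cast this
    have e1 : (((r ^ 2 : ℝ) : ℂ) * (GRes.ph α (η, d)).2 + ((σ ^ 2 : ℝ) : ℂ) * (GRes.ph α (η, d)).1)
      / ((r ^ 2 + σ ^ 2 : ℝ) : ℂ) = η := by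
      simp only [GRes.ph]
      rw [div_eq_iff hne, hα, Complex.ofReal_div]
      field_simp
      push_cast
      ring
    have e2 : (GRes.ph α (η, d)).2 - (GRes.ph α (η, d)).1 = d := by
      simp only [GRes.ph]
      ring
    simp only [hf, hG]
    rw [h1, e1, e2]
    have e3 : Real.pi * p * (r ^ 2 * σ ^ 2 / (r ^ 2 + σ ^ 2)) * ‖d‖ ^ 2
        = Real.pi * a * ‖d‖ ^ 2 := by rw [ha]; ring
    rw [e3]
    ring
  have hpre : GRes.ph α ⁻¹' {z : ℂ × ℂ | ‖z.2 - z.1‖ ≤ ρ}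
      = Set.univ ×ˢ Metric.closedBall (0 : ℂ) ρ := by
    ext ⟨η, d⟩
    simp [GRes.ph]
  have hmul : IntegrableOn (fun z : ℂ × ℂ => G z.1 * Real.exp (-(Real.pi * a * ‖z.2‖ ^ 2)))
      (Set.univ ×ˢ Metric.closedBall (0 : ℂ) ρ) := by
    have hB : IntegrableOn (fun d : ℂ => Real.exp (-(Real.pi * a * ‖d‖ ^ 2)))
        (Metric.closedBall (0 : ℂ) ρ) := by
      refine ContinuousOn.integrableOn_compact (isCompact_closedBall _ _) ?_
      exact (by fun_prop : Continuous fun d : ℂ =>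
        Real.exp (-(Real.pi * a * ‖d‖ ^ 2))).continuousOn
    rw [IntegrableOn, Measure.volume_eq_prod, ← Measure.prod_restrict]
    refine Integrable.mul_prod (f := G) (g := fun d : ℂ => Real.exp (-(Real.pi * a * ‖d‖ ^ 2)))
      ?_ hB
    rw [Measure.restrict_univ]
    exact hGi
  refine ⟨h1, ?_, ?_⟩
  · rw [← (GRes.ph_mp α).integrableOn_comp_preimage (GRes.ph_emb α), hpre]
    refine hmul.congr_fun (fun z _ => (hcomp z).symm) ?_
    exact MeasurableSet.univ.prod Metric.isClosed_closedBall.measurableSet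
  · have key : ∫ z in {z : ℂ × ℂ | ‖z.2 - z.1‖ ≤ ρ}, f z
        = (∫ η, G η) * ((1 - Real.exp (-(Real.pi * a * ρ ^ 2))) / a) := by
      rw [← (GRes.ph_mp α).setIntegral_preimage_emb (GRes.ph_emb α), hpre,
        setIntegral_congr_fun (MeasurableSet.univ.prod
          Metric.isClosed_closedBall.measurableSet) (fun z _ => hcomp z),
        Measure.volume_eq_prod, setIntegral_prod_mul G
          (fun d : ℂ => Real.exp (-(Real.pi * a * ‖d‖ ^ 2))), setIntegral_univ,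
        GRes.gauss_disc a ρ ha0 hρ]
    have e4 : Real.pi * p * (r ^ 2 * σ ^ 2 / (r ^ 2 + σ ^ 2)) * ρ ^ 2 = Real.pi * a * ρ ^ 2 := by
      rw [ha]; ring
    rw [e4, key]
    field_simp

end Pool.Agent.Lib.MP_dd244f_an.Rp
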