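import Pool.Agent.Lib.MP_dd244f_an.Rp.Stmts

/-!
The exact heat identity (module Heat).
-/

set_option autoImplicit false

namespace Pool.Agent.Lib.MP_dd244f_an.Rp
namespace HeatAux

open MeasureTheory Filter Topology
open Pool.Agent.Lib.MP_dd244f_an.Four
open Pool.Agent.Lib.MP_dd244f_an.Unif (SC)
open scoped ContDiff

theorem tw_zero (g : ℂ → ℂ) : tw 0 0 g = g := by
  funext ζ
  unfold tw
  simp

theorem tw_norm (τ : ℝ) (g : ℂ → ℂ) (ζ : ℂ) :
    ‖tw τ 0 g ζ‖ = Real.exp (-(4 * Real.pi ^ 2 * τ * ‖ζ‖ ^ 2)) * ‖g ζ‖ := by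
  unfold tw
  rw [norm_mul, Complex.norm_real, Real.norm_eq_abs, abs_of_pos (Real.exp_pos _)]
  simp

theorem np_bound (hS : StmtSch) (hB : StmtBase) (p : ℝ) (hp : 2 < p) (h : ℂ → ℂ) (hh : SC h) :
    Np p h ≤ (∫ ζ, ‖h ζ‖) ^ (p - 2) * ∫ ζ, ‖h ζ‖ ^ 2 := by
  have hc : CC h := hS.1 h hh
  obtain ⟨-, -, h2, -, h5⟩ := hB.1 h hc
  rw [← h5, ← integral_const_mul]
  have hA : ∀ x, ‖iF h x‖ ≤ ∫ ζ, ‖h ζ‖ := by
    intro x
    refine (norm_integral_le_integral_norm _).trans (le_of_eq ?_)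
    refine integral_congr_ae (ae_of_all _ fun ζ => ?_)
    simp only [norm_mul, norm_ch, one_mul]
  refine integral_mono (hS.2.2.2.2.1 h p (by linarith) hh) (h2.const_mul _) fun x => ?_
  simp only
  have e : ‖iF h x‖ ^ p = ‖iF h x‖ ^ (p - 2) * ‖iF h x‖ ^ 2 := by
    rcases (norm_nonneg (iF h x)).eq_or_lt with h0 | h0
    · rw [← h0, Real.zero_rpow (by linarith), Real.zero_rpow (by linarith)]
      simp
    · rw [← Real.rpow_natCast, ← Real.rpow_add h0]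
      congr 1
      push_cast
      ring
  rw [e]
  refine mul_le_mul_of_nonneg_right ?_ (by positivity)
  exact Real.rpow_le_rpow (norm_nonneg _) (hA x) (by linarith)

theorem np_tendsto (hS : StmtSch) (hB : StmtBase) (p : ℝ) (hp : 2 < p) (g : ℂ → ℂ) (hg : SC g)
    (h0 : Z0 g) : Tendsto (fun τ => Psi p g τ 0) atTop (𝓝 0) := by
  obtain ⟨r, hr, hz⟩ := Metric.eventually_nhds_iff.mp h0
  have hc : CC g := hS.1 g hg
  have hgi : Integrable (fun ζ => ‖g ζ‖) := (hc.1.integrable_of_hasCompactSupport hc.2).norm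
  have hgi2 : Integrable (fun ζ => ‖g ζ‖ ^ 2) := by
    refine Continuous.integrable_of_hasCompactSupport (by have := hc.1; fun_prop) ?_
    exact hc.2.norm.comp_left (g := fun t : ℝ => t ^ 2) (by simp)
  set c : ℝ := 4 * Real.pi ^ 2 * r ^ 2 with hcdef
  have hc0 : 0 < c := by positivity
  have hpt : ∀ τ : ℝ, 0 ≤ τ → ∀ ζ, ‖tw τ 0 g ζ‖ ≤ Real.exp (-(c * τ)) * ‖g ζ‖ := by
    intro τ hτ ζ
    rw [tw_norm]
    by_cases hzz : ‖ζ‖ < r
    · have : g ζ = 0 := hz (by simpa using hzz)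
      rw [this]; simp
    · refine mul_le_mul_of_nonneg_right ?_ (norm_nonneg _)
      rw [Real.exp_le_exp, neg_le_neg_iff, hcdef]
      have h1 : r ^ 2 ≤ ‖ζ‖ ^ 2 := pow_le_pow_left₀ hr.le (not_lt.mp hzz) 2
      have h2 : 0 ≤ 4 * Real.pi ^ 2 * τ := by positivity
      nlinarith [mul_le_mul_of_nonneg_left h1 h2]
  have hb : ∀ τ : ℝ, 0 ≤ τ → Psi p g τ 0 ≤
      (Real.exp (-(c * τ)) * ∫ ζ, ‖g ζ‖) ^ (p - 2) * ∫ ζ, ‖g ζ‖ ^ 2 := by
    intro τ hτ
    have hsc : SC (tw τ 0 g) := (hS.2.2.2.2.2 g hg).2.1 τ 0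
    have hcc : CC (tw τ 0 g) := hS.1 _ hsc
    refine (np_bound hS hB p hp _ hsc).trans ?_
    have i1 : Integrable (fun ζ => ‖tw τ 0 g ζ‖) :=
      (hcc.1.integrable_of_hasCompactSupport hcc.2).norm
    have i2 : Integrable (fun ζ => ‖tw τ 0 g ζ‖ ^ 2) := by
      refine Continuous.integrable_of_hasCompactSupport (by have := hcc.1; fun_prop) ?_
      exact hcc.2.norm.comp_left (g := fun t : ℝ => t ^ 2) (by simp)
    have b1 : ∫ ζ, ‖tw τ 0 g ζ‖ ≤ Real.exp (-(c * τ)) * ∫ ζ, ‖g ζ‖ := by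
      rw [← integral_const_mul]
      exact integral_mono i1 (hgi.const_mul _) fun ζ => hpt τ hτ ζ
    have b2 : ∫ ζ, ‖tw τ 0 g ζ‖ ^ 2 ≤ ∫ ζ, ‖g ζ‖ ^ 2 := by
      refine integral_mono i2 hgi2 fun ζ => ?_
      simp only
      refine pow_le_pow_left₀ (norm_nonneg _) ((hpt τ hτ ζ).trans ?_) 2
      have : Real.exp (-(c * τ)) ≤ 1 := Real.exp_le_one_iff.mpr (by
        have := mul_nonneg hc0.le hτ
        linarith)
      calc Real.exp (-(c * τ)) * ‖g ζ‖ ≤ 1 * ‖g ζ‖ :=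
            mul_le_mul_of_nonneg_right this (norm_nonneg _)
        _ = ‖g ζ‖ := one_mul _
    refine mul_le_mul ?_ b2 (integral_nonneg fun _ => by positivity) (by positivity)
    exact Real.rpow_le_rpow (integral_nonneg fun _ => norm_nonneg _) b1 (by linarith)
  have hlim : Tendsto (fun τ : ℝ => (Real.exp (-(c * τ)) * ∫ ζ, ‖g ζ‖) ^ (p - 2) * ∫ ζ, ‖g ζ‖ ^ 2)
      atTop (𝓝 0) := by
    have e1 : Tendsto (fun τ : ℝ => Real.exp (-(c * τ))) atTop (𝓝 0) :=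
      Real.tendsto_exp_neg_atTop_nhds_zero.comp (tendsto_id.const_mul_atTop hc0)
    have e2 : Tendsto (fun τ : ℝ => Real.exp (-(c * τ)) * ∫ ζ, ‖g ζ‖) atTop (𝓝 0) := by
      simpa using e1.mul_const (∫ ζ, ‖g ζ‖)
    have e3 : Tendsto (fun τ : ℝ => (Real.exp (-(c * τ)) * ∫ ζ, ‖g ζ‖) ^ (p - 2)) atTop (𝓝 0) := by
      have := e2.rpow_const (p := p - 2) (Or.inr (by linarith))
      rwa [Real.zero_rpow (by linarith)] at this
    simpa using e3.mul_const (∫ ζ, ‖g ζ‖ ^ 2)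
  refine squeeze_zero' (Eventually.of_forall fun τ => ?_) ?_ hlim
  · exact integral_nonneg fun _ => by positivity
  · filter_upwards [eventually_ge_atTop 0] with τ hτ using hb τ hτ

end HeatAux

open MeasureTheory Filter Topology HeatAux in
/-- (Heat) the exact heat identity -/
theorem heat (hP : StmtPsi) (hS : StmtSch) (hB : Four.StmtBase) : StmtHeat := by
  intro p g hp hg h0
  obtain ⟨-, -, hd, -, -, -, hpos, -⟩ := hP p g hp hg
  have hnn : ∀ τ, 0 ≤ gr p (tw τ 0 g) := by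
    intro τ
    obtain ⟨h1, h2⟩ := hpos τ 0
    exact (mul_nonneg (by linarith) h1).trans h2
  have hlim := np_tendsto hS hB p hp g hg h0
  have hderiv : ∀ x ∈ Set.Ici (0 : ℝ), HasDerivAt (fun t => Psi p g t 0) (-gr p (tw x 0 g)) x :=
    fun x _ => hd x 0
  have hneg : ∀ x ∈ Set.Ioi (0 : ℝ), -gr p (tw x 0 g) ≤ 0 := fun x _ => neg_nonpos.mpr (hnn x)
  refine ⟨hnn, ?_, ?_⟩
  · have := integrableOn_Ioi_deriv_of_nonpos' hderiv hneg hlim
    simpa using this.neg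
  · have := integral_Ioi_of_hasDerivAt_of_nonpos' hderiv hneg hlim
    rw [integral_neg] at this
    have e : Psi p g 0 0 = Np p g := by unfold Psi; rw [tw_zero]
    rw [e] at this
    linarith

end Pool.Agent.Lib.MP_dd244f_an.Rp
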