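import Pool.Agent.Lib.MP_dd244f_an.Rp.Stmts
import Pool.Agent.Lib.MP_dd244f_an.Four.Fac

/-!
Full operator, all real `p`: the heat flow on a shell (module HtB).
-/

set_option autoImplicit false

namespace Pool.Agent.Lib.MP_dd244f_an.Rp

open MeasureTheory Filter Topology
open Pool.Agent.Lib.MP_dd244f_an.Four
open Pool.Agent.Lib.MP_dd244f_an.Even
open scoped ContDiff

namespace HtBAux

/-- the Gaussian factor -/
noncomputable def ex (t : ℝ) (ζ : ℂ) : ℝ := Real.exp (-(4 * Real.pi ^ 2 * t * ‖ζ‖ ^ 2))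

theorem ex_contDiff (t : ℝ) (n : WithTop ℕ∞) : ContDiff ℝ n (ex t) := by
  have h1 : ContDiff ℝ n (fun ζ : ℂ => -(4 * Real.pi ^ 2 * t * ‖ζ‖ ^ 2)) :=
    (contDiff_const.mul (contDiff_norm_sq ℝ)).neg
  exact Real.contDiff_exp.comp h1

/-- derivatives of smooth functions are bounded on a disc -/
theorem bdd_disc {F : Type} [NormedAddCommGroup F] [NormedSpace ℝ F] {f : ℂ → F}
    (hf : ContDiff ℝ ∞ f) (M : ℕ) : ∃ K : ℝ, 0 ≤ K ∧ ∀ k ≤ M, ∀ ζ : ℂ, ‖ζ‖ ≤ 8 →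
      ‖iteratedFDeriv ℝ k f ζ‖ ≤ K := by
  have h1 : ∀ k : ℕ, ∃ K : ℝ, 0 ≤ K ∧ ∀ ζ : ℂ, ‖ζ‖ ≤ 8 → ‖iteratedFDeriv ℝ k f ζ‖ ≤ K := by
    intro k
    have hc : Continuous fun x => iteratedFDeriv ℝ k f x :=
      hf.continuous_iteratedFDeriv (m := k) (by exact_mod_cast le_top)
    obtain ⟨C, hC⟩ := (isCompact_closedBall (0 : ℂ) 8).exists_bound_of_continuousOn
      hc.continuousOn
    refine ⟨max C 0, le_max_right _ _, fun ζ hζ => (hC ζ ?_).trans (le_max_left _ _)⟩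
    simpa using hζ
  choose K hK0 hK using h1
  refine ⟨∑ k ∈ Finset.range (M + 1), K k, Finset.sum_nonneg fun k _ => hK0 k,
    fun k hk ζ hζ => (hK k ζ hζ).trans ?_⟩
  exact Finset.single_le_sum (f := K) (fun i _ => hK0 i) (Finset.mem_range.2 (by omega))

theorem pow_le_exp {A b : ℝ} (hA : 0 ≤ A) (hb : 0 < b) (M : ℕ) :
    ∃ C : ℝ, 0 < C ∧ ∀ t : ℝ, 0 ≤ t → (1 + A * t) ^ M ≤ C * Real.exp (b * t) := by
  rcases Nat.eq_zero_or_pos M with h | h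
  · refine ⟨1, one_pos, fun t ht => ?_⟩
    rw [h, pow_zero, one_mul]
    exact Real.one_le_exp (by positivity)
  · have hM : (0 : ℝ) < M := by exact_mod_cast h
    refine ⟨(1 + A * M / b) ^ M, by positivity, fun t ht => ?_⟩
    have h1 : b * t / M ≤ Real.exp (b * t / M) := by
      linarith [Real.add_one_le_exp (b * t / M)]
    have h2 : (1 : ℝ) ≤ Real.exp (b * t / M) := Real.one_le_exp (by positivity)
    have h3 : 1 + A * t ≤ (1 + A * M / b) * Real.exp (b * t / M) := by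
      have e : A * t = A * M / b * (b * t / M) := by field_simp
      rw [e, add_mul, one_mul]
      have : 0 ≤ A * M / b := by positivity
      have := mul_le_mul_of_nonneg_left h1 this
      linarith
    calc (1 + A * t) ^ M ≤ ((1 + A * M / b) * Real.exp (b * t / M)) ^ M :=
          pow_le_pow_left₀ (by positivity) h3 M
      _ = (1 + A * M / b) ^ M * Real.exp (b * t) := by
          rw [mul_pow, ← Real.exp_nat_mul]
          congr 2
          field_simp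

/-- derivatives of the Gaussian factor -/
theorem ex_bound (M : ℕ) : ∃ K : ℝ, 0 ≤ K ∧ ∀ t, 0 ≤ t → ∀ k ≤ M, ∀ ζ : ℂ, ‖ζ‖ ≤ 8 →
    ‖iteratedFDeriv ℝ k (ex t) ζ‖ ≤ (M.factorial : ℝ) * ex t ζ * (1 + K * t) ^ M := by
  have hns : ContDiff ℝ ∞ (fun ζ : ℂ => ‖ζ‖ ^ 2) := contDiff_norm_sq ℝ
  obtain ⟨K, hK0, hK⟩ := bdd_disc hns M
  refine ⟨4 * Real.pi ^ 2 * K, by positivity, fun t ht k hk ζ hζ => ?_⟩
  have hf : ContDiff ℝ ∞ (fun ζ : ℂ => (-(4 * Real.pi ^ 2 * t)) • ‖ζ‖ ^ 2) := by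
    simp only [smul_eq_mul]
    exact contDiff_const.mul hns
  have he : ex t = Real.exp ∘ fun ζ : ℂ => (-(4 * Real.pi ^ 2 * t)) • ‖ζ‖ ^ 2 := by
    funext ζ
    unfold ex
    simp only [Function.comp, smul_eq_mul]
    congr 1
    ring
  have hD1 : 1 ≤ 1 + 4 * Real.pi ^ 2 * K * t := by
    have : 0 ≤ 4 * Real.pi ^ 2 * K * t := by positivity
    linarith
  have h1 := norm_iteratedFDeriv_comp_le (g := Real.exp)
    (f := fun ζ : ℂ => (-(4 * Real.pi ^ 2 * t)) • ‖ζ‖ ^ 2) (n := k) (N := ∞)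
    Real.contDiff_exp hf (by exact_mod_cast le_top) ζ (C := ex t ζ)
    (D := 1 + 4 * Real.pi ^ 2 * K * t) ?_ ?_
  · rw [← he] at h1
    refine h1.trans ?_
    have hex : 0 ≤ ex t ζ := (Real.exp_pos _).le
    have h2 : (k.factorial : ℝ) ≤ M.factorial := by exact_mod_cast Nat.factorial_le hk
    have h3 : (1 + 4 * Real.pi ^ 2 * K * t) ^ k ≤ (1 + 4 * Real.pi ^ 2 * K * t) ^ M :=
      pow_le_pow_right₀ hD1 hk
    exact mul_le_mul (mul_le_mul_of_nonneg_right h2 hex) h3 (by positivity) (by positivity)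
  · intro i _
    rw [norm_iteratedFDeriv_eq_norm_iteratedDeriv, iteratedDeriv_eq_iterate,
      Real.iter_deriv_exp, Real.norm_eq_abs, Real.abs_exp, he]
    rfl
  · intro i hi1 hi2
    have e1 : iteratedFDeriv ℝ i (fun ζ : ℂ => (-(4 * Real.pi ^ 2 * t)) • ‖ζ‖ ^ 2) ζ =
        (-(4 * Real.pi ^ 2 * t)) • iteratedFDeriv ℝ i (fun ζ : ℂ => ‖ζ‖ ^ 2) ζ :=
      iteratedFDeriv_const_smul_apply' (hns.contDiffAt.of_le (by exact_mod_cast le_top))
    rw [e1, norm_smul, Real.norm_eq_abs, abs_neg, abs_of_nonneg (by positivity)]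
    have h2 := hK i (hi2.trans hk) ζ hζ
    calc 4 * Real.pi ^ 2 * t * ‖iteratedFDeriv ℝ i (fun ζ : ℂ => ‖ζ‖ ^ 2) ζ‖
        ≤ 4 * Real.pi ^ 2 * t * K := mul_le_mul_of_nonneg_left h2 (by positivity)
      _ ≤ (1 + 4 * Real.pi ^ 2 * K * t) ^ 1 := by rw [pow_one]; linarith
      _ ≤ (1 + 4 * Real.pi ^ 2 * K * t) ^ i := pow_le_pow_right₀ hD1 hi1

/-- a fat cutoff times the Gaussian factor -/
theorem core (M : ℕ) {χ : ℂ → ℝ} (hχ : ContDiff ℝ ∞ χ)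
    (hs : ∀ ζ, χ ζ ≠ 0 → 1 / 2 ≤ ‖ζ‖ ∧ ‖ζ‖ ≤ 8) : ∃ C, 0 < C ∧ ∀ t, 0 ≤ t → ∀ k ≤ M, ∀ ζ,
    ‖iteratedFDeriv ℝ k (fun ζ => χ ζ * ex t ζ) ζ‖ ≤ C * Real.exp (-t) := by
  obtain ⟨K₁, hK₁0, hK₁⟩ := bdd_disc hχ M
  obtain ⟨K₂, hK₂0, hK₂⟩ := ex_bound M
  obtain ⟨C, hC, hCt⟩ := pow_le_exp hK₂0 one_pos M
  have htsupp : tsupport χ ⊆ {ζ : ℂ | 1 / 2 ≤ ‖ζ‖ ∧ ‖ζ‖ ≤ 8} := by
    refine closure_minimal (fun ζ hζ => hs ζ hζ) ?_
    exact (isClosed_le continuous_const continuous_norm).inter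
      (isClosed_le continuous_norm continuous_const)
  refine ⟨2 ^ M * (K₁ * (M.factorial * C)) + 1, by positivity, fun t ht k hk ζ => ?_⟩
  have h1 := norm_iteratedFDeriv_mul_le (n := k) hχ (ex_contDiff t ∞) ζ (by exact_mod_cast le_top)
  refine h1.trans ?_
  by_cases hζ : 1 / 2 ≤ ‖ζ‖ ∧ ‖ζ‖ ≤ 8
  · have hex : ex t ζ ≤ Real.exp (-(2 * t)) := by
      unfold ex
      apply Real.exp_le_exp.2
      apply neg_le_neg
      have h2 : 1 / 4 ≤ ‖ζ‖ ^ 2 := by nlinarith [hζ.1]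
      have h3 : 9 ≤ Real.pi ^ 2 := by nlinarith [Real.pi_gt_three]
      have h4 : 36 * t * (1 / 4) ≤ 4 * Real.pi ^ 2 * t * ‖ζ‖ ^ 2 := by
        have h5 : 36 * t ≤ 4 * Real.pi ^ 2 * t := by nlinarith
        exact mul_le_mul h5 h2 (by norm_num) (by positivity)
      linarith
    have h2 : ∀ i ∈ Finset.range (k + 1), (k.choose i : ℝ) * ‖iteratedFDeriv ℝ i χ ζ‖ *
        ‖iteratedFDeriv ℝ (k - i) (ex t) ζ‖ ≤
        (k.choose i : ℝ) * (K₁ * (M.factorial * C) * Real.exp (-t)) := by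
      intro i hi
      rw [Finset.mem_range] at hi
      rw [mul_assoc]
      refine mul_le_mul_of_nonneg_left ?_ (by positivity)
      have h3 := hK₁ i (by omega) ζ hζ.2
      have h4 := hK₂ t ht (k - i) (by omega) ζ hζ.2
      have h5 : (M.factorial : ℝ) * ex t ζ * (1 + K₂ * t) ^ M ≤
          M.factorial * C * Real.exp (-t) := by
        have h6 := hCt t ht
        have h7 : ex t ζ * (1 + K₂ * t) ^ M ≤ Real.exp (-(2 * t)) * (C * Real.exp (1 * t)) :=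
          mul_le_mul hex h6 (by positivity) (Real.exp_pos _).le
        have h8 : Real.exp (-(2 * t)) * (C * Real.exp (1 * t)) = C * Real.exp (-t) := by
          rw [mul_left_comm, ← Real.exp_add]
          congr 2
          ring
        rw [h8] at h7
        rw [mul_assoc, mul_assoc]
        exact mul_le_mul_of_nonneg_left h7 (by positivity)
      calc ‖iteratedFDeriv ℝ i χ ζ‖ * ‖iteratedFDeriv ℝ (k - i) (ex t) ζ‖
          ≤ K₁ * (M.factorial * C * Real.exp (-t)) :=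
            mul_le_mul h3 (h4.trans h5) (norm_nonneg _) hK₁0
        _ = _ := by ring
    refine (Finset.sum_le_sum h2).trans ?_
    rw [← Finset.sum_mul]
    have h3 : ∑ i ∈ Finset.range (k + 1), (k.choose i : ℝ) = 2 ^ k := by
      exact_mod_cast Nat.sum_range_choose k
    rw [h3]
    have h4 : (2 : ℝ) ^ k ≤ 2 ^ M := pow_le_pow_right₀ (by norm_num) hk
    have h5 : 0 ≤ K₁ * (M.factorial * C) * Real.exp (-t) := by positivity
    calc (2 : ℝ) ^ k * (K₁ * (M.factorial * C) * Real.exp (-t))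
        ≤ 2 ^ M * (K₁ * (M.factorial * C) * Real.exp (-t)) :=
          mul_le_mul_of_nonneg_right h4 h5
      _ ≤ _ := by
          rw [add_mul, one_mul]
          have := Real.exp_pos (-t)
          linarith
  · have h0 : ∀ i, iteratedFDeriv ℝ i χ ζ = 0 := by
      intro i
      by_contra h
      exact hζ (htsupp (support_iteratedFDeriv_subset i h))
    rw [Finset.sum_eq_zero fun i _ => by rw [h0 i, norm_zero, mul_zero, zero_mul]]
    positivity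

/-- scaling -/
theorem scale {m : ℕ} (i : ℤ) {B : ℝ} (w : ℂ) {φ : ℂ → ℝ} (hφ : ContDiff ℝ ∞ φ)
    (hs : ∀ ζ, 8 < ‖ζ‖ → φ ζ = 0)
    (hB : ∀ k ≤ 2 * m, ∀ ζ, ‖iteratedFDeriv ℝ k φ ζ‖ ≤ B) :
    SB m i (‖w‖ * B) (fun ζ => w * ((φ (((2 : ℝ) ^ (-i)) • ζ) : ℝ) : ℂ)) := by
  set L : ℂ →L[ℝ] ℂ := ((2 : ℝ) ^ (-i)) • ContinuousLinearMap.id ℝ ℂ with hL
  have hLn : ‖L‖ ≤ (2 : ℝ) ^ (-i) := by
    rw [hL]
    rw [norm_smul, Real.norm_of_nonneg (by positivity)]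
    have := ContinuousLinearMap.norm_id_le (𝕜 := ℝ) (E := ℂ)
    have h2 : (0 : ℝ) ≤ (2 : ℝ) ^ (-i) := by positivity
    nlinarith
  have hcomp : ContDiff ℝ ∞ (φ ∘ L) := hφ.comp L.contDiff
  have hcomp2 : ContDiff ℝ ∞ (fun ζ => ((φ (L ζ) : ℝ) : ℂ)) := Complex.ofRealLI.contDiff.comp hcomp
  refine ⟨?_, ?_, ?_⟩
  · have h1 : ContDiff ℝ ∞ (fun ζ => w * ((φ (L ζ) : ℝ) : ℂ)) := contDiff_const.mul hcomp2
    exact contDiff_infty.1 h1 (2 * m)
  · intro ζ hζ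
    have : φ (((2 : ℝ) ^ (-i)) • ζ) = 0 := by
      apply hs
      rw [norm_smul, Real.norm_of_nonneg (by positivity), zpow_neg]
      have h2 : (0 : ℝ) < (2 : ℝ) ^ i := by positivity
      rw [inv_mul_eq_div, lt_div_iff₀ h2]
      exact hζ
    simp only [this, Complex.ofReal_zero, mul_zero]
  · intro k hk ζ
    have e1 : iteratedFDeriv ℝ k (fun ζ => w * ((φ (((2 : ℝ) ^ (-i)) • ζ) : ℝ) : ℂ)) ζ =
        w • iteratedFDeriv ℝ k (fun ζ => ((φ (L ζ) : ℝ) : ℂ)) ζ :=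
      iteratedFDeriv_const_smul_apply' (a := w) (f := fun ζ => ((φ (L ζ) : ℝ) : ℂ))
        (hcomp2.contDiffAt.of_le (by exact_mod_cast le_top))
    have e2 : ‖iteratedFDeriv ℝ k (fun ζ => ((φ (L ζ) : ℝ) : ℂ)) ζ‖ =
        ‖iteratedFDeriv ℝ k (φ ∘ L) ζ‖ :=
      Complex.ofRealLI.norm_iteratedFDeriv_comp_left (n := ∞) hcomp.contDiffAt
        (by exact_mod_cast le_top)
    have e3 : iteratedFDeriv ℝ k (φ ∘ L) ζ =
        (iteratedFDeriv ℝ k φ (L ζ)).compContinuousLinearMap fun _ => L :=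
      L.iteratedFDeriv_comp_right (n := ∞) hφ ζ (by exact_mod_cast le_top)
    rw [e1, norm_smul, e2, e3, mul_assoc]
    refine mul_le_mul_of_nonneg_left ?_ (norm_nonneg _)
    refine (ContinuousMultilinearMap.norm_compContinuousLinearMap_le _ _).trans ?_
    rw [Finset.prod_const, Finset.card_univ, Fintype.card_fin]
    have h1 : ‖L‖ ^ k ≤ (2 : ℝ) ^ (-(k * i : ℤ)) := by
      calc ‖L‖ ^ k ≤ ((2 : ℝ) ^ (-i)) ^ k := pow_le_pow_left₀ (norm_nonneg _) hLn k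
        _ = (2 : ℝ) ^ (-(k * i : ℤ)) := by
            rw [← zpow_natCast, ← zpow_mul]
            congr 1
            ring
    exact mul_le_mul (hB k hk _) h1 (by positivity) ((norm_nonneg _).trans (hB k hk (L ζ)))

/-- the fat cutoff -/
noncomputable def fat (ζ : ℂ) : ℝ := bd (-1) 2 ζ

theorem fat_smooth : ContDiff ℝ ∞ fat := by
  unfold fat
  exact (FacAux.lo_contDiff 2 ⊤).sub (FacAux.lo_contDiff (-1) ⊤)

theorem fat_supp (ζ : ℂ) (h : fat ζ ≠ 0) : 1 / 2 ≤ ‖ζ‖ ∧ ‖ζ‖ ≤ 8 := by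
  unfold fat bd at h
  constructor
  · by_contra hc
    apply h
    have h1 : ‖ζ‖ ≤ (2 : ℝ) ^ (-1 : ℤ) := by
      rw [zpow_neg_one]
      linarith
    have h2 : ‖ζ‖ ≤ (2 : ℝ) ^ (2 : ℤ) := by
      have : ((2 : ℝ) ^ (2 : ℤ)) = 4 := by norm_num
      rw [this]
      linarith
    rw [FacAux.lo_one h1, FacAux.lo_one h2, sub_self]
  · by_contra hc
    apply h
    have e1 : ((2 : ℝ) ^ (2 : ℤ)) = 4 := by norm_num
    have e2 : ((2 : ℝ) ^ (-1 : ℤ)) = 1 / 2 := by norm_num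
    have h1 : lo 2 ζ = 0 := FacAux.lo_zero (by rw [e1]; nlinarith)
    have h2 : lo (-1) ζ = 0 := FacAux.lo_zero (by rw [e2]; nlinarith)
    rw [h1, h2, sub_zero]

theorem fat_one (ζ : ℂ) (h1 : 1 ≤ ‖ζ‖) (h2 : ‖ζ‖ ≤ 4) : fat ζ = 1 := by
  unfold fat bd
  have e1 : ((2 : ℝ) ^ (2 : ℤ)) = 4 := by norm_num
  have e2 : ((2 : ℝ) ^ (-1 : ℤ)) = 1 / 2 := by norm_num
  rw [FacAux.lo_one (a := 2) (by rw [e1]; exact h2),
    FacAux.lo_zero (a := -1) (by rw [e2]; nlinarith), sub_zero]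

/-- the fat cutoff is one on the shell -/
theorem fat_sh (i : ℤ) (ζ : ℂ) (h : sh i ζ ≠ 0) : fat (((2 : ℝ) ^ (-i)) • ζ) = 1 := by
  have h2 : (0 : ℝ) < (2 : ℝ) ^ i := by positivity
  have hn : ‖((2 : ℝ) ^ (-i)) • ζ‖ = ‖ζ‖ / (2 : ℝ) ^ i := by
    rw [norm_smul, Real.norm_of_nonneg (by positivity), zpow_neg, inv_mul_eq_div]
  have e1 : (2 : ℝ) ^ (i + 1) = 2 * (2 : ℝ) ^ i := by
    rw [zpow_add_one₀ (by norm_num), mul_comm]
  apply fat_one
  · rw [hn, le_div_iff₀ h2, one_mul]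
    by_contra hc
    apply h
    unfold sh bd
    rw [FacAux.lo_one (a := i) (by linarith), FacAux.lo_one (a := i + 1) (by rw [e1]; linarith),
      sub_self]
  · rw [hn, div_le_iff₀ h2]
    by_contra hc
    apply h
    unfold sh bd
    rw [FacAux.lo_zero (a := i) (by nlinarith), FacAux.lo_zero (a := i + 1) (by rw [e1]; nlinarith),
      sub_zero]

theorem ex_scale (τ : ℝ) (i : ℤ) (ζ : ℂ) :
    ex (τ * (4 : ℝ) ^ i) (((2 : ℝ) ^ (-i)) • ζ) = ex τ ζ := by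
  unfold ex
  congr 2
  rw [norm_smul, Real.norm_of_nonneg (by positivity), mul_pow]
  have h1 : ((2 : ℝ) ^ (-i)) ^ 2 * (4 : ℝ) ^ i = 1 := by
    rw [← zpow_natCast, ← zpow_mul, show (4 : ℝ) = 2 ^ (2 : ℤ) by norm_num, ← zpow_mul,
      ← zpow_add₀ (by norm_num)]
    have : -i * ((2 : ℕ) : ℤ) + 2 * i = 0 := by push_cast; ring
    rw [this, zpow_zero]
  calc 4 * Real.pi ^ 2 * (τ * (4 : ℝ) ^ i) * (((2 : ℝ) ^ (-i)) ^ 2 * ‖ζ‖ ^ 2)
      = 4 * Real.pi ^ 2 * τ * ‖ζ‖ ^ 2 * (((2 : ℝ) ^ (-i)) ^ 2 * (4 : ℝ) ^ i) := by ring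
    _ = _ := by rw [h1, mul_one]

theorem tw_ex (τ : ℝ) (g : ℂ → ℂ) (ζ : ℂ) : tw τ 0 g ζ = ((ex τ ζ : ℝ) : ℂ) * g ζ := by
  unfold tw ex
  congr 3
  simp

end HtBAux

open HtBAux in
theorem htB (hM : StmtMul) : StmtHtB := by
  intro m hm
  obtain ⟨CM, hCM, hMul⟩ := hM m hm
  obtain ⟨C₀, hC₀, h₀⟩ := core (2 * m) fat_smooth fat_supp
  have hre : ContDiff ℝ ∞ (fun ζ : ℂ => ζ.re * fat ζ) := Complex.reCLM.contDiff.mul fat_smooth
  have him : ContDiff ℝ ∞ (fun ζ : ℂ => ζ.im * fat ζ) := Complex.imCLM.contDiff.mul fat_smooth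
  obtain ⟨C₁, hC₁, h₁⟩ := core (2 * m) hre (fun ζ h => fat_supp ζ (right_ne_zero_of_mul h))
  obtain ⟨C₂, hC₂, h₂⟩ := core (2 * m) him (fun ζ h => fat_supp ζ (right_ne_zero_of_mul h))
  refine ⟨CM * C₀ ^ 2 + CM * (2 * Real.pi * (C₁ + C₂)) ^ 2, 2, by positivity, two_pos,
    fun τ i g x e hτ hg he => ?_⟩
  have ht : 0 ≤ τ * (4 : ℝ) ^ i := by positivity
  set t : ℝ := τ * (4 : ℝ) ^ i with htdef
  have hcut : CC (cut (sh i) g) := by
    refine ⟨?_, ?_⟩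
    · have := FacAux.sh_cont i
      exact (Complex.continuous_ofReal.comp this).mul hg.1
    · exact hg.2.mul_left
  have hq0 : 0 ≤ qm m i g x := by
    unfold qm
    refine integral_nonneg fun y => mul_nonneg ?_ (by positivity)
    unfold KKm
    positivity
  have hexp : Real.exp (-t) ^ 2 = Real.exp (-(2 * t)) := by
    rw [← Real.exp_nat_mul]
    congr 1
    push_cast
    ring
  have hsupp : ∀ (χ : ℂ → ℝ) (ζ : ℂ), 8 < ‖ζ‖ → χ ζ * fat ζ * ex t ζ = 0 := by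
    intro χ ζ hζ
    have : fat ζ = 0 := by
      by_contra h
      have := (fat_supp ζ h).2
      linarith
    rw [this, mul_zero, zero_mul]
  refine ⟨?_, ?_⟩
  · -- the function itself
    have hSB := scale (m := m) i (1 : ℂ) (φ := fun ζ => fat ζ * ex t ζ)
      (fat_smooth.mul (ex_contDiff t ∞)) (fun ζ hζ => by simpa using hsupp (fun _ => 1) ζ hζ)
      (h₀ t ht)
    rw [norm_one, one_mul] at hSB
    have hmul := (hMul i _ _ (by positivity) hSB _ hcut).1 x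
    have e1 : (fun ζ => (1 : ℂ) * ((fat (((2 : ℝ) ^ (-i)) • ζ) * ex t (((2 : ℝ) ^ (-i)) • ζ) : ℝ) : ℂ) *
        cut (sh i) g ζ) = tw τ 0 (cut (sh i) g) := by
      funext ζ
      rw [tw_ex, one_mul, ex_scale]
      by_cases hsh : sh i ζ = 0
      · unfold cut
        rw [hsh]
        simp
      · rw [fat_sh i ζ hsh, one_mul]
    rw [e1] at hmul
    refine hmul.trans ?_
    have e2 : ∫ y, KKm m ((2 : ℝ) ^ (-i)) (x - y) * ‖iF (cut (sh i) g) y‖ ^ 2 = qm m i g x := rfl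
    rw [e2, mul_pow, hexp]
    have h3 : 0 ≤ CM * (2 * Real.pi * (C₁ + C₂)) ^ 2 * Real.exp (-(2 * t)) * qm m i g x := by
      positivity
    nlinarith
  · -- the derivative
    set φ : ℂ → ℝ := fun ζ => e.re * (ζ.re * fat ζ * ex t ζ) + e.im * (ζ.im * fat ζ * ex t ζ) with hφ
    have hs1 : ContDiff ℝ ∞ (fun ζ : ℂ => ζ.re * fat ζ * ex t ζ) := hre.mul (ex_contDiff t ∞)
    have hs2 : ContDiff ℝ ∞ (fun ζ : ℂ => ζ.im * fat ζ * ex t ζ) := him.mul (ex_contDiff t ∞)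
    have hφs : ContDiff ℝ ∞ φ := (contDiff_const.mul hs1).add (contDiff_const.mul hs2)
    have hre1 : |e.re| ≤ 1 := (Complex.abs_re_le_norm e).trans he
    have him1 : |e.im| ≤ 1 := (Complex.abs_im_le_norm e).trans he
    have hφB : ∀ k ≤ 2 * m, ∀ ζ, ‖iteratedFDeriv ℝ k φ ζ‖ ≤ (C₁ + C₂) * Real.exp (-t) := by
      intro k hk ζ
      have c1 : ContDiffAt ℝ k (fun ζ : ℂ => ζ.re * fat ζ * ex t ζ) ζ :=
        hs1.contDiffAt.of_le (by exact_mod_cast le_top)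
      have c2 : ContDiffAt ℝ k (fun ζ : ℂ => ζ.im * fat ζ * ex t ζ) ζ :=
        hs2.contDiffAt.of_le (by exact_mod_cast le_top)
      have e1 : iteratedFDeriv ℝ k φ ζ = e.re • iteratedFDeriv ℝ k
          (fun ζ : ℂ => ζ.re * fat ζ * ex t ζ) ζ + e.im • iteratedFDeriv ℝ k
          (fun ζ : ℂ => ζ.im * fat ζ * ex t ζ) ζ := by
        have e2 : φ = (e.re • fun ζ : ℂ => ζ.re * fat ζ * ex t ζ) +
            (e.im • fun ζ : ℂ => ζ.im * fat ζ * ex t ζ) := rfl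
        have d1 : ContDiffAt ℝ k (e.re • fun ζ : ℂ => ζ.re * fat ζ * ex t ζ) ζ :=
          ContDiffAt.const_smul (f := fun ζ : ℂ => ζ.re * fat ζ * ex t ζ) e.re c1
        have d2 : ContDiffAt ℝ k (e.im • fun ζ : ℂ => ζ.im * fat ζ * ex t ζ) ζ :=
          ContDiffAt.const_smul (f := fun ζ : ℂ => ζ.im * fat ζ * ex t ζ) e.im c2
        rw [e2, iteratedFDeriv_add_apply d1 d2,
          iteratedFDeriv_const_smul_apply c1, iteratedFDeriv_const_smul_apply c2]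
      rw [e1]
      refine (norm_add_le _ _).trans ?_
      rw [norm_smul, norm_smul, Real.norm_eq_abs, Real.norm_eq_abs, add_mul]
      have b1 := h₁ t ht k hk ζ
      have b2 := h₂ t ht k hk ζ
      have n1 := norm_nonneg (iteratedFDeriv ℝ k (fun ζ : ℂ => ζ.re * fat ζ * ex t ζ) ζ)
      have n2 := norm_nonneg (iteratedFDeriv ℝ k (fun ζ : ℂ => ζ.im * fat ζ * ex t ζ) ζ)
      have a1 := abs_nonneg e.re
      have a2 := abs_nonneg e.im
      apply add_le_add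
      · calc _ ≤ 1 * ‖iteratedFDeriv ℝ k (fun ζ : ℂ => ζ.re * fat ζ * ex t ζ) ζ‖ :=
              mul_le_mul_of_nonneg_right hre1 n1
          _ ≤ _ := by rw [one_mul]; exact b1
      · calc _ ≤ 1 * ‖iteratedFDeriv ℝ k (fun ζ : ℂ => ζ.im * fat ζ * ex t ζ) ζ‖ :=
              mul_le_mul_of_nonneg_right him1 n2
          _ ≤ _ := by rw [one_mul]; exact b2
    set w : ℂ := 2 * (Real.pi : ℂ) * Complex.I * (((2 : ℝ) ^ i : ℝ) : ℂ) with hw
    have hwn : ‖w‖ = 2 * Real.pi * (2 : ℝ) ^ i := by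
      rw [hw, norm_mul, norm_mul, norm_mul, Complex.norm_I, Complex.norm_real, Complex.norm_real,
        Real.norm_of_nonneg Real.pi_pos.le, Real.norm_of_nonneg (by positivity)]
      simp
    have hSB := scale (m := m) i w (φ := φ) hφs (fun ζ hζ => by
      have h3 := hsupp (fun ζ => ζ.re) ζ hζ
      have h4 := hsupp (fun ζ => ζ.im) ζ hζ
      simp only [hφ]
      rw [h3, h4, mul_zero, mul_zero, add_zero]) hφB
    have hmul := (hMul i _ _ (by positivity) hSB _ hcut).1 x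
    have e1 : (fun ζ => w * ((φ (((2 : ℝ) ^ (-i)) • ζ) : ℝ) : ℂ) * cut (sh i) g ζ) =
        dr e (tw τ 0 (cut (sh i) g)) := by
      funext ζ
      unfold dr
      rw [tw_ex]
      by_cases hsh : sh i ζ = 0
      · unfold cut
        rw [hsh]
        simp
      · simp only [hφ]
        rw [fat_sh i ζ hsh, ex_scale, hw]
        have h2 : (2 : ℝ) ^ i * (2 : ℝ) ^ (-i) = 1 := by
          rw [← zpow_add₀ (by norm_num)]
          simp
        have h3 : ((((2 : ℝ) ^ i : ℝ)) : ℂ) * ((((2 : ℝ) ^ (-i) : ℝ)) : ℂ) = 1 := by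
          rw [← Complex.ofReal_mul, h2, Complex.ofReal_one]
        have e3 : (((2 : ℝ) ^ (-i)) • ζ).re = (2 : ℝ) ^ (-i) * ζ.re := by
          rw [Complex.smul_re, smul_eq_mul]
        have e4 : (((2 : ℝ) ^ (-i)) • ζ).im = (2 : ℝ) ^ (-i) * ζ.im := by
          rw [Complex.smul_im, smul_eq_mul]
        rw [e3, e4]
        push_cast at h3 ⊢
        linear_combination (2 * (Real.pi : ℂ) * Complex.I * ((ex τ ζ : ℝ) : ℂ) *
          ((e.re : ℂ) * ζ.re + (e.im : ℂ) * ζ.im) * cut (sh i) g ζ) * h3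
    rw [e1] at hmul
    refine hmul.trans ?_
    have e2 : ∫ y, KKm m ((2 : ℝ) ^ (-i)) (x - y) * ‖iF (cut (sh i) g) y‖ ^ 2 = qm m i g x := rfl
    have e5 : ((2 : ℝ) ^ i) ^ 2 = (4 : ℝ) ^ i := by
      rw [← zpow_natCast, ← zpow_mul, show (4 : ℝ) = 2 ^ (2 : ℤ) by norm_num, ← zpow_mul]
      congr 1
      push_cast
      ring
    have e6 : (‖w‖ * ((C₁ + C₂) * Real.exp (-t))) ^ 2 =
        (2 * Real.pi * (C₁ + C₂)) ^ 2 * (4 : ℝ) ^ i * Real.exp (-(2 * t)) := by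
      rw [hwn, ← hexp, ← e5]
      ring
    rw [e2, e6]
    have h3 : 0 ≤ CM * C₀ ^ 2 * (4 : ℝ) ^ i * Real.exp (-(2 * t)) * qm m i g x := by
      positivity
    nlinarith

end Pool.Agent.Lib.MP_dd244f_an.Rp
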