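import Pool.Agent.Lib.MP_dd244f_an.Rp.Stmts

/-!
(IBP) integration by parts for the energy of `|F|^p`.
-/

set_option autoImplicit false

namespace Pool.Agent.Lib.MP_dd244f_an.Rp

open MeasureTheory Filter Topology
open Pool.Agent.Lib.MP_dd244f_an.Joint (st ct Mst ratio)
open Pool.Agent.Lib.MP_dd244f_an.Four
open Pool.Agent.Lib.MP_dd244f_an.Even
open Pool.Agent.Lib.MP_dd244f_an.Unif (SC)
open scoped SchwartzMap ENNReal NNReal ContDiff

private theorem schwartz_bdd (F : 𝓢(ℂ, ℂ)) : ∃ C, 0 < C ∧ ∀ x, ‖F x‖ ≤ C := by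
  obtain ⟨C, hC0, hC⟩ := F.decay 0 0
  refine ⟨C, hC0, fun x => ?_⟩
  have := hC x
  simpa using this

private theorem schwartz_sq (F : 𝓢(ℂ, ℂ)) : Integrable (fun x => ‖F x‖ ^ 2) := by
  obtain ⟨C, hC0, hC⟩ := schwartz_bdd F
  have hi : Integrable (fun x => ‖F x‖) := F.integrable.norm
  refine (hi.const_mul C).mono' ?_ ?_
  · exact (F.continuous.norm.pow 2).aestronglyMeasurable
  · refine Eventually.of_forall fun x => ?_
    rw [Real.norm_of_nonneg (by positivity), pow_two]
    exact mul_le_mul_of_nonneg_right (hC x) (norm_nonneg _)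

theorem ibp (hP : StmtPow) (hS : StmtSch) : StmtIBP := by
  intro p g e hp hg
  obtain ⟨hS1, hS2, -, hS4, -, hS6⟩ := hS
  obtain ⟨hc2, hd1, hd2, hQb⟩ := hP p hp
  have hge : SC (dr e g) := (hS6 g hg).1 e
  have hgee : SC (dr e (dr e g)) := (hS6 _ hge).1 e
  obtain ⟨F, hF⟩ := hS2 g hg
  obtain ⟨F1, hF1⟩ := hS2 _ hge
  obtain ⟨F2, hF2⟩ := hS2 _ hgee
  have hFe : ∀ x, iF g x = F x := fun x => (hF x).symm
  have hF1e : ∀ x, iF (dr e g) x = F1 x := fun x => (hF1 x).symm
  have hF2e : ∀ x, iF (dr e (dr e g)) x = F2 x := fun x => (hF2 x).symm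
  have hcF : Continuous (fun x => F x) := F.continuous
  have hcF1 : Continuous (fun x => F1 x) := F1.continuous
  have hcF2 : Continuous (fun x => F2 x) := F2.continuous
  have hfun : iF g = F := funext hFe
  have hfun1 : iF (dr e g) = F1 := funext hF1e
  have hfun2 : iF (dr e (dr e g)) = F2 := funext hF2e
  have hdF : ∀ x, HasFDerivAt (fun x => F x) (fderiv ℝ (fun x => F x) x) x := fun x =>
    (F.differentiableAt (x := x)).hasFDerivAt
  have hdF1 : ∀ x, HasFDerivAt (fun x => F1 x) (fderiv ℝ (fun x => F1 x) x) x := fun x =>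
    (F1.differentiableAt (x := x)).hasFDerivAt
  have hdFe : ∀ x, fderiv ℝ (fun x => F x) x e = F1 x := by
    intro x
    have h := (hS4 g x hg).2 e
    rw [hfun, hfun1] at h
    exact h
  have hdF1e : ∀ x, fderiv ℝ (fun x => F1 x) x e = F2 x := by
    intro x
    have h := (hS4 _ x hge).2 e
    rw [hfun1, hfun2] at h
    exact h
  obtain ⟨C, hC0, hC⟩ := schwartz_bdd F
  have hp2 : 0 < p - 2 := by linarith
  have hpw : ∀ x, ‖F x‖ ^ (p - 2) ≤ C ^ (p - 2) := fun x =>
    Real.rpow_le_rpow (norm_nonneg _) (hC x) hp2.le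
  have hcpw : Continuous (fun x => ‖F x‖ ^ (p - 2)) :=
    hcF.norm.rpow_const (fun x => Or.inr hp2.le)
  -- integrability of the second function
  have hI2 : Integrable (fun x => ‖F x‖ ^ (p - 2) * ‖F1 x‖ ^ 2) := by
    refine ((schwartz_sq F1).const_mul (C ^ (p - 2))).mono' ?_ ?_
    · exact (hcpw.mul (hcF1.norm.pow 2)).aestronglyMeasurable
    · refine Eventually.of_forall fun x => ?_
      rw [Real.norm_of_nonneg (by positivity)]
      exact mul_le_mul_of_nonneg_right (hpw x) (by positivity)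
  -- a general bound
  have hgen : ∀ H : 𝓢(ℂ, ℂ), Integrable (fun x => ‖F x‖ ^ (p - 2) *
      (starRingEnd ℂ (F x) * H x).re) := by
    intro H
    have hcH : Continuous (fun x => H x) := H.continuous
    refine ((H.integrable.norm).const_mul (C ^ (p - 2) * C)).mono' ?_ ?_
    · refine (hcpw.mul (Complex.continuous_re.comp ?_)).aestronglyMeasurable
      exact (Complex.continuous_conj.comp hcF).mul hcH
    · refine Eventually.of_forall fun x => ?_
      rw [norm_mul, Real.norm_of_nonneg (by positivity : (0:ℝ) ≤ ‖F x‖ ^ (p - 2))]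
      have h1 : ‖(starRingEnd ℂ (F x) * H x).re‖ ≤ ‖F x‖ * ‖H x‖ := by
        rw [Real.norm_eq_abs]
        refine (Complex.abs_re_le_norm _).trans ?_
        rw [norm_mul, RCLike.norm_conj]
      calc ‖F x‖ ^ (p - 2) * ‖(starRingEnd ℂ (F x) * H x).re‖
          ≤ C ^ (p - 2) * (‖F x‖ * ‖H x‖) :=
            mul_le_mul (hpw x) h1 (norm_nonneg _) (by positivity)
        _ ≤ C ^ (p - 2) * (C * ‖H x‖) := by
            refine mul_le_mul_of_nonneg_left ?_ (by positivity)
            exact mul_le_mul_of_nonneg_right (hC x) (norm_nonneg _)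
        _ = C ^ (p - 2) * C * ‖H x‖ := by ring
  -- integrability of the first function
  have hI1 : Integrable (fun x => Qf p (F x) (F1 x)) := by
    have hmeas : AEStronglyMeasurable (fun x => Qf p (F x) (F1 x)) volume := by
      have hmF : Measurable (fun x => F x) := hcF.measurable
      have hmF1 : Measurable (fun x => F1 x) := hcF1.measurable
      refine Measurable.aestronglyMeasurable ?_
      unfold Qf
      refine Measurable.add ?_ ?_
      · exact ((hmF.norm.pow_const _).const_mul p).mul (hmF1.norm.pow_const 2)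
      · refine ((hmF.norm.pow_const _).const_mul (p * (p - 2))).mul (Measurable.pow_const ?_ 2)
        exact ((Complex.measurable_re.comp hmF).mul (Complex.measurable_re.comp hmF1)).add
          ((Complex.measurable_im.comp hmF).mul (Complex.measurable_im.comp hmF1))
    refine (hI2.const_mul (p * (p - 1))).mono' hmeas ?_
    refine Eventually.of_forall fun x => ?_
    have h0 := (hQb (F x) (F1 x)).1
    have h1 := (hQb (F x) (F1 x)).2.1
    have h2 : 0 ≤ p * ‖F x‖ ^ (p - 2) * ‖F1 x‖ ^ 2 := by positivity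
    rw [Real.norm_of_nonneg (h2.trans h0)]
    linarith [h1]
  -- the derivative of the power
  set Φ : ℂ → (ℂ →L[ℝ] ℝ) := fun u => fderiv ℝ (fun u : ℂ => ‖u‖ ^ p) u with hΦ
  have hΦd : ∀ u, DifferentiableAt ℝ Φ u := by
    intro u
    have h1 : ContDiff ℝ 1 Φ := hc2.fderiv_right (m := 1) (by norm_num)
    exact (h1.differentiable (by norm_num)) u
  have hΦv : ∀ u v, Φ u v = p * (‖u‖ ^ (p - 2) * (starRingEnd ℂ u * v).re) := by
    intro u v
    have h := hd1 u v
    have h2 : (starRingEnd ℂ u * v).re = u.re * v.re + u.im * v.im := by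
      simp [Complex.mul_re]
    rw [h2, ← mul_assoc]
    exact h
  have hΦ2 : ∀ u v, (fderiv ℝ Φ u v) v = Qf p u v := by
    intro u v
    have h := hd2 u v
    have h2 : fderiv ℝ (fun w : ℂ => Φ w v) u v = (fderiv ℝ Φ u v) v := by
      have h3 : HasFDerivAt (fun w : ℂ => Φ w v)
          ((ContinuousLinearMap.apply ℝ ℝ v).comp (fderiv ℝ Φ u)) u :=
        (ContinuousLinearMap.apply ℝ ℝ v).hasFDerivAt.comp u (hΦd u).hasFDerivAt
      rw [h3.fderiv]
      rfl
    rw [← h2]
    exact h
  have hkey : ∫ x, (Φ (F x)) (F2 x) = -∫ x, ((fderiv ℝ Φ (F x)) (F1 x)) (F1 x) := by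
    have := integral_bilinear_hasLineDerivAt_right_eq_neg_left_of_integrable
      (μ := (volume : Measure ℂ)) (v := e)
      (f := fun x => Φ (F x)) (f' := fun x => (fderiv ℝ Φ (F x)) (F1 x))
      (g := fun x => F1 x) (g' := fun x => F2 x)
      (B := ContinuousLinearMap.id ℝ (ℂ →L[ℝ] ℝ)) ?_ ?_ ?_ ?_ ?_
    · simpa using this
    · simp only [ContinuousLinearMap.id_apply]
      simp_rw [hΦ2]
      exact hI1
    · simp only [ContinuousLinearMap.id_apply]
      simp_rw [hΦv]
      exact (hgen F2).const_mul p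
    · simp only [ContinuousLinearMap.id_apply]
      simp_rw [hΦv]
      exact (hgen F1).const_mul p
    · intro x _
      have h1 : HasFDerivAt (fun x => Φ (F x))
          ((fderiv ℝ Φ (F x)).comp (fderiv ℝ (fun x => F x) x)) x :=
        (hΦd (F x)).hasFDerivAt.comp x (hdF x)
      have h2 := h1.hasLineDerivAt e
      simpa [hdFe] using h2
    · intro x _
      have h2 := (hdF1 x).hasLineDerivAt e
      simpa [hdF1e] using h2
  refine ⟨?_, ?_, ?_, ?_⟩
  · rw [hfun, hfun1]; exact hI1
  · rw [hfun, hfun1]; exact hI2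
  · rw [hfun, hfun2]; exact hgen F2
  · rw [hfun, hfun1, hfun2]
    simp_rw [hΦv, hΦ2] at hkey
    exact hkey

end Pool.Agent.Lib.MP_dd244f_an.Rp
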