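import Pool.Agent.Lib.MP_dd244f_an.Rp.Stmts

/-!
Rp, module (KKm): the rapidly decreasing kernels.
-/

set_option autoImplicit false

namespace Pool.Agent.Lib.MP_dd244f_an.Rp

open MeasureTheory Filter Topology Finset
open Pool.Agent.Lib.MP_dd244f_an.Four
open Pool.Agent.Lib.MP_dd244f_an.Even

namespace KKmod

theorem kkm_pos (m : ℕ) {ρ : ℝ} (hρ : 0 < ρ) (x : ℂ) : 0 < KKm m ρ x := by
  unfold KKm; positivity

theorem kkm_le {m : ℕ} (hm : 2 ≤ m) {ρ : ℝ} (hρ : 0 < ρ) (x : ℂ) : KKm m ρ x ≤ KK ρ x := by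
  unfold KKm KK
  obtain ⟨j, rfl⟩ : ∃ j, m = 2 + j := ⟨m - 2, by omega⟩
  have e : 2 * (2 + j) - 2 = 2 + 2 * j := by omega
  have hD : 0 < ρ ^ 2 + ‖x‖ ^ 2 := by positivity
  rw [e, pow_add, pow_add (ρ ^ 2 + ‖x‖ ^ 2), pow_mul, div_le_div_iff₀ (by positivity) (by positivity)]
  have h1 : (ρ ^ 2) ^ j ≤ (ρ ^ 2 + ‖x‖ ^ 2) ^ j := by
    apply pow_le_pow_left₀ (by positivity)
    have : 0 ≤ ‖x‖ ^ 2 := by positivity
    linarith
  have h2 : 0 ≤ ρ ^ 2 * (ρ ^ 2 + ‖x‖ ^ 2) ^ 2 := by positivity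
  nlinarith [mul_le_mul_of_nonneg_left h1 h2]

theorem continuous_kkm (m : ℕ) {ρ : ℝ} (hρ : 0 < ρ) : Continuous (KKm m ρ) := by
  unfold KKm
  refine Continuous.div (by fun_prop) (by fun_prop) fun x => ?_
  positivity

theorem continuous_kk {ρ : ℝ} (hρ : 0 < ρ) : Continuous (KK ρ) := by
  unfold KK
  refine Continuous.div (by fun_prop) (by fun_prop) fun x => ?_
  positivity

theorem peetre (m : ℕ) {ρ : ℝ} (hρ : 0 < ρ) (x h : ℂ) :
    KKm m ρ (x + h) ≤ 2 ^ m * (1 + ‖h‖ ^ 2 / ρ ^ 2) ^ m * KKm m ρ x := by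
  unfold KKm
  have hD : 0 < ρ ^ 2 + ‖x‖ ^ 2 := by positivity
  have hD' : 0 < ρ ^ 2 + ‖x + h‖ ^ 2 := by positivity
  have hρ2 : 0 < ρ ^ 2 := by positivity
  have h1 : ρ ^ 2 + ‖x‖ ^ 2 ≤ 2 * (1 + ‖h‖ ^ 2 / ρ ^ 2) * (ρ ^ 2 + ‖x + h‖ ^ 2) := by
    have a1 : ‖x‖ ≤ ‖x + h‖ + ‖h‖ := by
      have := norm_sub_le (x + h) h
      rwa [add_sub_cancel_right] at this
    have a2 : ‖x‖ ^ 2 ≤ 2 * ‖x + h‖ ^ 2 + 2 * ‖h‖ ^ 2 := by
      have := norm_nonneg x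
      have := norm_nonneg h
      have := norm_nonneg (x + h)
      nlinarith [sq_nonneg (‖x + h‖ - ‖h‖)]
    have a3 : ‖h‖ ^ 2 ≤ ‖h‖ ^ 2 / ρ ^ 2 * (ρ ^ 2 + ‖x + h‖ ^ 2) := by
      rw [mul_add, div_mul_cancel₀ _ hρ2.ne']
      have : 0 ≤ ‖h‖ ^ 2 / ρ ^ 2 * ‖x + h‖ ^ 2 := by positivity
      linarith
    have a4 : 2 * (1 + ‖h‖ ^ 2 / ρ ^ 2) * (ρ ^ 2 + ‖x + h‖ ^ 2) =
        2 * (ρ ^ 2 + ‖x + h‖ ^ 2) + 2 * (‖h‖ ^ 2 / ρ ^ 2 * (ρ ^ 2 + ‖x + h‖ ^ 2)) := by ring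
    rw [a4]
    linarith
  have h2 := pow_le_pow_left₀ hD.le h1 m
  rw [mul_pow, mul_pow] at h2
  rw [mul_div_assoc', div_le_div_iff₀ (by positivity) (by positivity)]
  have h3 : 0 ≤ ρ ^ (2 * m - 2) := by positivity
  nlinarith [mul_le_mul_of_nonneg_left h2 h3]

end KKmod

open KKmod in
/-- (KKm) -/
theorem kkm (hKK : Four.StmtKK) (hB : Four.StmtBase) (hF : Four.StmtFac) : StmtKKm := by
  intro m hm
  have hint : ∀ ρ, 0 < ρ → Integrable (KKm m ρ) := by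
    intro ρ hρ
    refine Integrable.mono' (hKK.1 ρ hρ).1 (continuous_kkm m hρ).aestronglyMeasurable ?_
    refine Eventually.of_forall fun x => ?_
    rw [Real.norm_of_nonneg (kkm_pos m hρ x).le]
    exact kkm_le hm hρ x
  -- integrability of the products
  have hprod : ∀ (K : ℂ → ℝ) (G : ℂ → ℂ) (x : ℂ), Integrable K → Continuous K → CC G →
      Integrable (fun y => K (x - y) * ‖iF G y‖ ^ 2) := by
    intro K G x hK hKc hG
    obtain ⟨hc, ⟨B, hB'⟩, -⟩ := hB.1 G hG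
    have h1 : Integrable (fun y => K (x - y)) := hK.comp_sub_left x
    refine h1.mul_bdd (c := B ^ 2) ((hc.norm.pow 2).aestronglyMeasurable) ?_
    refine Eventually.of_forall fun y => ?_
    rw [Real.norm_of_nonneg (by positivity)]
    exact pow_le_pow_left₀ (norm_nonneg _) (hB' y) 2
  have hsh : ∀ (a : ℤ) (g : ℂ → ℂ), CC g → CC (cut (sh a) g) := fun a g hg =>
    (hF.2.2.2.2.1 g a a hg).2.2
  have hpow : ∀ a : ℤ, (0 : ℝ) < (2 : ℝ) ^ (-a) := fun a => by positivity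
  refine ⟨fun ρ hρ => ⟨hint ρ hρ, fun x => ⟨kkm_pos m hρ x, kkm_le hm hρ x⟩, fun x => ?_⟩,
    fun ρ hρ x h => peetre m hρ x h, fun a g x hg => ⟨?_, ?_⟩, fun a g x h hg => ?_⟩
  · unfold KKm; rw [norm_neg]
  · unfold qm
    refine integral_nonneg fun y => ?_
    exact mul_nonneg (kkm_pos m (hpow a) _).le (by positivity)
  · unfold qm qa
    refine integral_mono (hprod _ _ x (hint _ (hpow a)) (continuous_kkm m (hpow a)) (hsh a g hg))
      (hprod _ _ x (hKK.1 _ (hpow a)).1 (continuous_kk (hpow a)) (hsh a g hg)) fun y => ?_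
    exact mul_le_mul_of_nonneg_right (kkm_le hm (hpow a) _) (by positivity)
  · unfold qm
    rw [← integral_const_mul]
    refine integral_mono
      (hprod _ _ (x + h) (hint _ (hpow a)) (continuous_kkm m (hpow a)) (hsh a g hg))
      ((hprod _ _ x (hint _ (hpow a)) (continuous_kkm m (hpow a)) (hsh a g hg)).const_mul _)
      fun y => ?_
    simp only
    have h1 := peetre m (hpow a) (x - y) h
    have e1 : x - y + h = x + h - y := by ring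
    have e2 : ‖h‖ ^ 2 / ((2 : ℝ) ^ (-a)) ^ 2 = ‖h‖ ^ 2 * (4 : ℝ) ^ a := by
      rw [show (4 : ℝ) = 2 * 2 by norm_num, mul_zpow, zpow_neg]
      field_simp
    rw [e1, e2] at h1
    calc _ ≤ 2 ^ m * (1 + ‖h‖ ^ 2 * (4 : ℝ) ^ a) ^ m * KKm m ((2 : ℝ) ^ (-a)) (x - y) *
          ‖iF (cut (sh a) g) y‖ ^ 2 := mul_le_mul_of_nonneg_right h1 (by positivity)
      _ = _ := by ring

end Pool.Agent.Lib.MP_dd244f_an.Rp
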