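import Mathlib
import Pool.Agent.Lib.MP_dd244f_an.Rp.Stmts

/-!
(MS) maximal function times square function.
-/

set_option autoImplicit false

namespace Pool.Agent.Lib.MP_dd244f_an.Rp

open MeasureTheory Filter Topology Finset
open Pool.Agent.Lib.MP_dd244f_an.Four
open Pool.Agent.Lib.MP_dd244f_an.Even

namespace MSP

lemma qa_nonneg (a : ℤ) (g : ℂ → ℂ) (x : ℂ) : 0 ≤ qa a g x := by
  unfold qa
  refine integral_nonneg fun y => ?_
  have : 0 ≤ KK ((2 : ℝ) ^ (-a)) (x - y) := by unfold KK; positivity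
  positivity

/-- a crude Young inequality -/
lemma young {p M S : ℝ} (hp : 2 < p) (hM : 0 ≤ M) (hS : 0 ≤ S) :
    M ^ ((p - 2) / 2) * S ≤ M ^ (p / 2) + S ^ (p / 2) := by
  have e : ∀ t : ℝ, 0 ≤ t → t ^ ((p - 2) / 2) * t = t ^ (p / 2) := by
    intro t ht
    rw [← Real.rpow_add_one' ht (by linarith)]
    congr 1
    ring
  rcases le_total S M with h | h
  · calc M ^ ((p - 2) / 2) * S ≤ M ^ ((p - 2) / 2) * M :=
          mul_le_mul_of_nonneg_left h (Real.rpow_nonneg hM _)
      _ = M ^ (p / 2) := e M hM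
      _ ≤ _ := le_add_of_nonneg_right (Real.rpow_nonneg hS _)
  · calc M ^ ((p - 2) / 2) * S ≤ S ^ ((p - 2) / 2) * S :=
          mul_le_mul_of_nonneg_right (Real.rpow_le_rpow hM h (by linarith)) hS
      _ = S ^ (p / 2) := e S hS
      _ ≤ _ := le_add_of_nonneg_left (Real.rpow_nonneg hM _)

end MSP

open MSP in
/-- module MS (the hypothesis `StmtDomH` of the blueprint is not needed) -/
theorem ms (hSp : StmtSp) (hD : StmtDomF) : StmtMS := by
  intro p hp
  obtain ⟨C, hC, hSp⟩ := hSp p hp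
  obtain ⟨D, hD0, hD⟩ := hD
  refine ⟨1 + C * D ^ (p / 2), by positivity, fun A g M hg hM hMi => ?_⟩
  have hp0 : 0 < p / 2 := by linarith
  have hMm : Measurable M := hM.1
  have hM0 : ∀ x, 0 ≤ M x := hM.2.1
  have hc1 : AEStronglyMeasurable (fun x => M x ^ ((p - 2) / 2)) :=
    (hMm.pow_const _).aestronglyMeasurable
  have hi : ∀ a, Integrable (fun x => M x ^ ((p - 2) / 2) * qa a g x) := by
    intro a
    have h1 := (hSp {a} g hg).2.2.2.1
    simp only [Finset.sum_singleton] at h1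
    have h2 : AEStronglyMeasurable (fun x => qa a g x) := by
      have h3 : AEStronglyMeasurable (fun x => (qa a g x ^ (p / 2)) ^ (2 / p)) :=
        (h1.aestronglyMeasurable.aemeasurable.pow_const _).aestronglyMeasurable
      refine h3.congr (Eventually.of_forall fun x => ?_)
      simp only
      rw [← Real.rpow_mul (qa_nonneg a g x), show p / 2 * (2 / p) = 1 by field_simp,
        Real.rpow_one]
    refine (hMi.add h1).mono' (hc1.mul h2) (Eventually.of_forall fun x => ?_)
    rw [Real.norm_eq_abs, abs_of_nonneg (mul_nonneg (Real.rpow_nonneg (hM0 x) _)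
      (qa_nonneg a g x))]
    exact young hp (hM0 x) (qa_nonneg a g x)
  refine ⟨hi, ?_⟩
  have h1 := (hSp A g hg).2.2.2
  have hS0 : ∀ x, 0 ≤ ∑ a ∈ A, qa a g x := fun x => Finset.sum_nonneg fun a _ => qa_nonneg a g x
  have hN : Np p g ≤ D ^ (p / 2) * ∫ x, M x ^ (p / 2) := by
    unfold Np
    rw [← integral_const_mul]
    refine integral_mono_of_nonneg (Eventually.of_forall fun x => by positivity)
      (hMi.const_mul _) (Eventually.of_forall fun x => ?_)
    simp only
    have h2 := (hD g M hg hM x).1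
    calc ‖iF g x‖ ^ p = (‖iF g x‖ ^ 2) ^ (p / 2) := by
          rw [← Real.rpow_natCast, ← Real.rpow_mul (norm_nonneg _)]
          congr 1
          push_cast
          ring
      _ ≤ (D * M x) ^ (p / 2) := Real.rpow_le_rpow (by positivity) h2 hp0.le
      _ = D ^ (p / 2) * M x ^ (p / 2) := Real.mul_rpow hD0.le (hM0 x)
  calc ∫ x, M x ^ ((p - 2) / 2) * ∑ a ∈ A, qa a g x
      ≤ ∫ x, (M x ^ (p / 2) + (∑ a ∈ A, qa a g x) ^ (p / 2)) := by
        refine integral_mono_of_nonneg (Eventually.of_forall fun x =>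
          mul_nonneg (Real.rpow_nonneg (hM0 x) _) (hS0 x)) (hMi.add h1.1)
          (Eventually.of_forall fun x => young hp (hM0 x) (hS0 x))
    _ = (∫ x, M x ^ (p / 2)) + ∫ x, (∑ a ∈ A, qa a g x) ^ (p / 2) := integral_add hMi h1.1
    _ ≤ (∫ x, M x ^ (p / 2)) + C * (D ^ (p / 2) * ∫ x, M x ^ (p / 2)) := by
        refine add_le_add le_rfl (h1.2.trans ?_)
        exact mul_le_mul_of_nonneg_left hN hC.le
    _ = (1 + C * D ^ (p / 2)) * ∫ x, M x ^ (p / 2) := by ring

end Pool.Agent.Lib.MP_dd244f_an.Rp
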