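import Pool.Agent.Lib.MP_dd244f_an.Rp.Stmts

/-!
Full operator, all real `p`: module Mainp (the main inequality for smooth compactly supported
Fourier transforms).
-/

set_option autoImplicit false

namespace Pool.Agent.Lib.MP_dd244f_an.Rp

open MeasureTheory Filter Topology Finset
open Pool.Agent.Lib.MP_dd244f_an.Joint (st ct Mst ratio)
open Pool.Agent.Lib.MP_dd244f_an.Four
open Pool.Agent.Lib.MP_dd244f_an.Even
open Pool.Agent.Lib.MP_dd244f_an.Unif (SC)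
open scoped SchwartzMap ENNReal NNReal ContDiff

namespace MainpAux

theorem np_nonneg (p : ℝ) (g : ℂ → ℂ) : 0 ≤ Np p g := integral_nonneg fun _ => by positivity

theorem gamp_pos {p : ℝ} (hp : 2 < p) : 0 < gamp p := by
  unfold gamp
  have h1 : 1 / p < 1 := by rw [div_lt_one (by linarith)]; linarith
  exact div_pos (Real.Gamma_pos_of_pos (by positivity)) (Real.Gamma_pos_of_pos (by linarith))

theorem iF_block (hS : StmtSch) (hB : StmtBase) {g : ℂ → ℂ} (hg : SC g) (s : ℤ) (k : ℕ) (x : ℂ) :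
    iF (cut (bd s (s + k)) g) x = ∑ i ∈ Finset.range k, iF (cut (sh (s + i)) g) x := by
  have hgS := hS.2.2.2.2.2 g hg
  induction k with
  | zero =>
    simp only [Nat.cast_zero, add_zero, Finset.range_zero, Finset.sum_empty]
    unfold iF cut
    simp [bd_self]
  | succ k ih =>
    rw [Finset.sum_range_succ, ← ih]
    have hadd := hB.2.2.2.2.1 _ _ (hS.1 _ (hgS.2.2.2.2.1 s (s + k)))
      (hS.1 _ (hgS.2.2.2.2.2.1 (s + k))) x
    rw [← hadd]
    congr 1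
    ext ζ
    unfold cut sh bd
    have e : (s : ℤ) + ((k + 1 : ℕ) : ℤ) = s + k + 1 := by push_cast; ring
    rw [e]
    push_cast
    ring

theorem block_le (hS : StmtSch) (hB : StmtBase) {p : ℝ} (hp : 2 < p) {g : ℂ → ℂ} (hg : SC g)
    (s : ℤ) (j : ℕ) :
    Np p (cut (bd s (s + j)) g) ≤
      (j : ℝ) ^ (p - 1) * ∑ i ∈ Finset.range j, Np p (cut (sh (s + i)) g) := by
  have hgS := hS.2.2.2.2.2 g hg
  have hint : ∀ i : ℤ, Integrable (fun x => ‖iF (cut (sh i) g) x‖ ^ p) := fun i =>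
    hS.2.2.2.2.1 _ p (by linarith) (hgS.2.2.2.2.2.1 i)
  have hI : Integrable (fun x => ‖iF (cut (bd s (s + j)) g) x‖ ^ p) :=
    hS.2.2.2.2.1 _ p (by linarith) (hgS.2.2.2.2.1 s (s + j))
  unfold Np
  rw [← integral_finsetSum _ (fun i _ => hint _), ← integral_const_mul]
  refine integral_mono hI ((integrable_finsetSum _ (fun i _ => hint _)).const_mul _) fun x => ?_
  simp only
  rw [iF_block hS hB hg]
  refine (Real.rpow_le_rpow (norm_nonneg _) (norm_sum_le _ _) (by linarith)).trans ?_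
  have h := Real.rpow_sum_le_const_mul_sum_rpow_of_nonneg (s := Finset.range j)
    (f := fun i : ℕ => ‖iF (cut (sh (s + i)) g) x‖) (p := p) (by linarith)
    (fun i _ => norm_nonneg _)
  rw [Finset.card_range] at h
  exact h

theorem inj_aux (L : ℕ) (Bs : Finset ℤ) (c : ℤ) :
    Set.InjOn (fun p : ℤ × ℕ => c + p.1 * (L : ℤ) + p.2)
      ((Bs ×ˢ Finset.range L : Finset (ℤ × ℕ)) : Set (ℤ × ℕ)) := by
  rintro ⟨b, t⟩ h ⟨b', t'⟩ h' he
  simp only [Finset.coe_product, Set.mem_prod, Finset.mem_coe, Finset.mem_range] at h h'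
  simp only at he
  have e1 : (b - b') * (L : ℤ) = (t' : ℤ) - t := by linarith
  have hb : b - b' = 0 := by
    by_contra hne
    have h3 : (1 : ℤ) ≤ |b - b'| := Int.one_le_abs hne
    have h4 : |(b - b') * (L : ℤ)| = |b - b'| * L := by rw [abs_mul, Nat.abs_cast]
    have h5 : |(t' : ℤ) - t| < L := by
      rw [abs_lt]; constructor <;> omega
    rw [e1] at h4
    have : (L : ℤ) ≤ |b - b'| * L := by nlinarith [Int.natCast_nonneg L]
    omega
  have hbb : b = b' := by omega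
  rw [hb, zero_mul] at e1
  have : t = t' := by omega
  simp [this, hbb]

theorem sum_blocks_le (hS : StmtSch) (hB : StmtBase) {p C : ℝ} (hp : 2 < p)
    (hP : ∀ (A : Finset ℤ) (g : ℂ → ℂ), SC g → ∑ a ∈ A, Np p (cut (sh a) g) ≤ C * Np p g)
    {g : ℂ → ℂ} (hg : SC g) (c : ℤ) (L : ℕ) (Bs : Finset ℤ) :
    ∑ b ∈ Bs, Np p (cut (bd (c + b * L) (c + b * L + L)) g) ≤
      (L : ℝ) ^ (p - 1) * (C * Np p g) := by
  calc ∑ b ∈ Bs, Np p (cut (bd (c + b * L) (c + b * L + L)) g)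
      ≤ ∑ b ∈ Bs, (L : ℝ) ^ (p - 1) *
          ∑ i ∈ Finset.range L, Np p (cut (sh (c + b * L + i)) g) :=
        Finset.sum_le_sum fun b _ => block_le hS hB hp hg _ _
    _ = (L : ℝ) ^ (p - 1) *
          ∑ b ∈ Bs, ∑ i ∈ Finset.range L, Np p (cut (sh (c + b * L + i)) g) := by
        rw [Finset.mul_sum]
    _ = (L : ℝ) ^ (p - 1) *
          ∑ q ∈ Bs ×ˢ Finset.range L, Np p (cut (sh (c + q.1 * L + q.2)) g) := by
        rw [Finset.sum_product]
    _ = (L : ℝ) ^ (p - 1) * ∑ a ∈ (Bs ×ˢ Finset.range L).image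
          (fun q : ℤ × ℕ => c + q.1 * (L : ℤ) + q.2), Np p (cut (sh a) g) := by
        rw [Finset.sum_image (inj_aux L Bs c)]
    _ ≤ _ := mul_le_mul_of_nonneg_left (hP _ g hg) (by positivity)

theorem exists_le_of_sum_le {L : ℕ} (hL : 1 ≤ L) (f : ℕ → ℝ) (K : ℝ)
    (h : ∑ t ∈ Finset.range L, f t ≤ L * K) : ∃ t ∈ Finset.range L, f t ≤ K := by
  by_contra hcon
  push Not at hcon
  have : ∑ t ∈ Finset.range L, K < ∑ t ∈ Finset.range L, f t :=
    Finset.sum_lt_sum_of_nonempty ⟨0, Finset.mem_range.2 hL⟩ hcon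
  rw [Finset.sum_const, Finset.card_range, nsmul_eq_mul] at this
  linarith

/-- the interiors of the blocks -/
theorem inner_sum (hBl : StmtBLKp) (hE : StmtEIp) (hSp : StmtSp) (hS : StmtSch) (hB : StmtBase)
    {p κ : ℝ} (hp : 2 < p) (hκ : 0 < κ) (hH : HLPr p κ) (δ : ℝ) (hδ : 0 < δ) :
    ∃ m : ℕ, ∀ L : ℕ, 2 * m < L → ∃ n₀ : ℕ, ∀ n ≥ n₀, ∀ (R : ℕ) (g : ℂ → ℂ), SC g → Sup R g →
      ∀ (c : ℤ) (Bs : Finset ℤ),
      ∑ b ∈ Bs, Np p (cut (bd (c + b * L + m) (c + b * L + L - m)) (mg n g)) ≤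
        ((1 + δ) ^ 2 * (κ * gamp p ^ p) + δ) * (n : ℝ) ^ (p - 2) * Np p g := by
  obtain ⟨Q, m₀, hQ, -, hBl⟩ := hBl p κ δ hp hκ hH hδ
  obtain ⟨m₁, hE⟩ := hE p δ hp hδ
  obtain ⟨CP, hCP, hSp⟩ := hSp p hp
  have hP : ∀ (A : Finset ℤ) (g : ℂ → ℂ), SC g →
      ∑ a ∈ A, Np p (cut (sh a) g) ≤ CP * Np p g :=
    fun A g hg => (hSp A g (hS.1 g hg)).2.2.1
  refine ⟨max m₀ m₁, ?_⟩
  set m := max m₀ m₁ with hm
  intro L hL
  have hL0 : (0 : ℝ) < L := by
    have : 0 < L := by omega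
    exact_mod_cast this
  obtain ⟨n₁, hn₁1, hBl⟩ := hBl m (le_max_left _ _) L hL (δ / ((L : ℝ) ^ (p - 1) * CP))
    (by positivity)
  obtain ⟨n₂, hE⟩ := hE m (le_max_right _ _) L hL Q hQ
  refine ⟨max n₁ n₂, ?_⟩
  intro n hn R g hg hR c Bs
  have hn1 : n ≥ n₁ := (le_max_left _ _).trans hn
  have hn2 : n ≥ n₂ := (le_max_right _ _).trans hn
  have hgam := gamp_pos hp
  have hN : 0 ≤ Np p g := np_nonneg _ _
  have hE' := hE n hn2 R g hg hR c Bs
  refine (Finset.sum_le_sum fun b _ => hBl n hn1 (c + b * L) g hg).trans ?_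
  rw [Finset.sum_add_distrib, ← Finset.mul_sum, ← Finset.mul_sum]
  have hSb := sum_blocks_le hS hB hp hP hg c L Bs
  have hSb' := mul_le_mul_of_nonneg_left hSb
    (show 0 ≤ δ / ((L : ℝ) ^ (p - 1) * CP) * (n : ℝ) ^ (p - 2) by positivity)
  have e2 : δ / ((L : ℝ) ^ (p - 1) * CP) * (n : ℝ) ^ (p - 2) *
      ((L : ℝ) ^ (p - 1) * (CP * Np p g)) = δ * (n : ℝ) ^ (p - 2) * Np p g := by
    have h1 : (L : ℝ) ^ (p - 1) ≠ 0 := by positivity
    field_simp
  rw [e2] at hSb'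
  have h4 := mul_le_mul_of_nonneg_left hE'
    (show 0 ≤ (1 + δ) * κ * gamp p ^ p * (n : ℝ) ^ (p - 2) by positivity)
  calc _ ≤ (1 + δ) * κ * gamp p ^ p * (n : ℝ) ^ (p - 2) * ((1 + δ) * Np p g)
        + δ * (n : ℝ) ^ (p - 2) * Np p g := add_le_add h4 hSb'
    _ = _ := by ring

end MainpAux

open MainpAux

/-- module Mainp -/
theorem mainp (hD : StmtDECp) (hBd : StmtBdryp) (hBl : StmtBLKp) (hE : StmtEIp) (hSp : StmtSp)
    (hA : StmtAprR) (hSh : Four.StmtShift) (hS : StmtSch) (hF : Four.StmtFac)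
    (hB : Four.StmtBase) : StmtMainp := by
  intro p κ ε hp hκ hH hε
  have hgam : 0 < gamp p := gamp_pos hp
  set Γ : ℝ := κ * gamp p ^ p with hΓ
  have hΓ0 : 0 < Γ := by positivity
  set δ : ℝ := min 1 (ε * Γ / (15 * Γ + 6)) with hδdef
  have hδ : 0 < δ := lt_min one_pos (by positivity)
  have hδ1 : δ ≤ 1 := min_le_left _ _
  have hδ2 : δ * (15 * Γ + 6) ≤ ε * Γ := by
    have := min_le_right 1 (ε * Γ / (15 * Γ + 6))
    rw [← hδdef] at this
    rwa [le_div_iff₀ (by positivity)] at this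
  obtain ⟨m, hin⟩ := inner_sum hBl hE hSp hS hB hp hκ hH δ hδ
  obtain ⟨L₁, hL₁, hD⟩ := hD p δ hp hδ
  obtain ⟨B, nA, hB1, hnA, hA⟩ := hA p hp.le
  obtain ⟨CP, hCP, hSp⟩ := hSp p hp
  have hP : ∀ (A : Finset ℤ) (g : ℂ → ℂ), SC g →
      ∑ a ∈ A, Np p (cut (sh a) g) ≤ CP * Np p g :=
    fun A g hg => (hSp A g (hS.1 g hg)).2.2.1
  obtain ⟨CD, hCD, hBd⟩ := hBd p δ (by linarith) hδ
  have hm0 : (0 : ℝ) ≤ m := Nat.cast_nonneg m
  -- choice of L
  set W : ℝ := (1 + δ) * (CD * (m : ℝ) ^ (p - 1)) * (2 * m * (CP * B)) with hW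
  have hB0 : 0 < B := by linarith
  have hW0 : 0 ≤ W := by positivity
  obtain ⟨L₀, hL₀⟩ := exists_nat_gt (W / δ)
  set L := max L₁ (max L₀ (2 * m + 1)) with hLdef
  have hL2 : 2 * m < L := by
    have h1 := le_max_right L₀ (2 * m + 1)
    have h2 := le_max_right L₁ (max L₀ (2 * m + 1))
    omega
  have hLW : W ≤ L * δ := by
    have h1 : (L₀ : ℝ) ≤ L := by
      exact_mod_cast (le_max_left L₀ (2 * m + 1)).trans (le_max_right L₁ _)
    have h2 : W / δ ≤ L := hL₀.le.trans h1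
    rwa [div_le_iff₀ hδ] at h2
  have hL1 : 1 ≤ L := by omega
  obtain ⟨n₁, hin⟩ := hin L hL2
  obtain ⟨n₂, hD⟩ := hD L (le_max_left _ _)
  refine ⟨max nA (max n₁ n₂), ?_⟩
  intro n hn R g hg hR
  have hnnA : n ≥ nA := (le_max_left _ _).trans hn
  have hnn1 : n ≥ n₁ := ((le_max_left _ _).trans (le_max_right _ _)).trans hn
  have hnn2 : n ≥ n₂ := ((le_max_right _ _).trans (le_max_right _ _)).trans hn
  have hn1 : 1 ≤ n := hnA.trans hnnA
  have hn0 : (0 : ℝ) < n := by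
    have : 0 < n := by omega
    exact_mod_cast this
  have hZ : Z0 g := by
    unfold Z0
    have h2 : (0 : ℝ) < (2 : ℝ) ^ (-(R : ℤ)) := by positivity
    filter_upwards [Metric.ball_mem_nhds (0 : ℂ) h2] with ζ hζ
    rw [mem_ball_zero_iff] at hζ
    by_contra h3
    linarith [(hR ζ h3).1]
  have hG : SC (mg n g) ∧ Z0 (mg n g) := (hS.2.2.2.2.2 g hg).2.2.2.2.2.2.2.2 n hn1 hZ
  have hApr' := hA n hnnA g hg hZ
  have hN : 0 ≤ Np p g := np_nonneg _ _
  set I : Finset ℤ := Finset.Icc (-((R : ℤ) + 4)) (R + 4) with hI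
  set G := mg n g with hGdef
  have hGS : ∀ ζ, G ζ ≠ 0 → (2 : ℝ) ^ (-(R : ℤ)) ≤ ‖ζ‖ ∧ ‖ζ‖ ≤ (2 : ℝ) ^ (R : ℤ) := by
    intro ζ hζ
    apply hR
    intro h
    apply hζ
    rw [hGdef]; unfold mg; rw [h, mul_zero]
  -- averaging
  have hAv := hD n hnn2 R g hg hR
  set x : ℤ → ℝ := fun i => Np p (cut (sh i) G) with hx
  have hx0 : ∀ i, 0 ≤ x i := fun i => np_nonneg _ _
  have hcutz : ∀ i : ℤ, (∀ ζ, G ζ ≠ 0 → sh i ζ = 0) → x i = 0 := by
    intro i hi
    have : cut (sh i) G = fun _ => 0 := by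
      ext ζ
      unfold cut
      by_cases h : G ζ = 0
      · rw [h, mul_zero]
      · rw [hi ζ h]; simp
    rw [hx]
    simp only
    rw [this]
    unfold Np iF
    have hp0 : p ≠ 0 := by linarith
    simp [Real.zero_rpow hp0]
  have hlo1 := hF.2.1
  have hlo0 := hF.2.2.1
  have hxlow : ∀ i, i < -((R + 2 : ℕ) : ℤ) → x i = 0 := by
    intro i hi
    apply hcutz
    intro ζ hζ
    have h1 := (hGS ζ hζ).1
    have h2 : ∀ j : ℤ, j ≤ i + 1 → lo j ζ = 0 := by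
      intro j hj
      apply hlo0
      have h3 : (2 : ℝ) ^ j ≤ (2 : ℝ) ^ (-(R : ℤ) - 1) := by
        apply zpow_le_zpow_right₀ (by norm_num)
        push_cast at hi
        linarith
      have h4 : (2 : ℝ) * (2 : ℝ) ^ (-(R : ℤ) - 1) = (2 : ℝ) ^ (-(R : ℤ)) := by
        rw [zpow_sub₀ (by norm_num)]; norm_num; ring
      have h5 : 0 < (2 : ℝ) ^ j := by positivity
      have h6 : 2 * (2 : ℝ) ^ j ≤ ‖ζ‖ := by linarith
      nlinarith
    unfold sh bd
    rw [h2 _ le_rfl, h2 _ (by linarith)]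
    ring
  have hxhigh : ∀ i, ((R + 2 : ℕ) : ℤ) < i → x i = 0 := by
    intro i hi
    apply hcutz
    intro ζ hζ
    have h1 := (hGS ζ hζ).2
    have h2 : ∀ j : ℤ, i ≤ j → lo j ζ = 1 := by
      intro j hj
      apply hlo1
      refine h1.trans ?_
      apply zpow_le_zpow_right₀ (by norm_num)
      push_cast at hi
      linarith
    unfold sh bd
    rw [h2 _ le_rfl, h2 _ (by linarith)]
    ring
  have hS1 := hSh m L (R + 2) x hL2 hx0 hxlow hxhigh I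
  have hS2 : ∑ i ∈ Finset.Icc (-((R + 2 : ℕ) : ℤ)) ((R + 2 : ℕ) : ℤ), x i ≤ CP * Np p G :=
    hP _ G hG.1
  set P : ℝ := (n : ℝ) ^ (p - 2) * Np p g with hPdef
  have hP0 : 0 ≤ P := by positivity
  set X : ℕ → ℝ := fun t => Np p G
    - (1 + δ) * ∑ b ∈ I, Np p (cut (bd (b * L - t) ((b + 1) * L - t)) G) with hXdef
  set Y : ℕ → ℝ := fun t => ∑ b ∈ I, ∑ i ∈ Finset.range m,
      (x (b * L - t + i) + x ((b + 1) * L - t - 1 - i)) with hYdef
  have hsum : ∑ t ∈ Finset.range L, (X t + (1 + δ) * (CD * (m : ℝ) ^ (p - 1)) * Y t) ≤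
      L * (2 * δ * P) := by
    rw [Finset.sum_add_distrib, ← Finset.mul_sum]
    have h1 : ∑ t ∈ Finset.range L, X t ≤ L * (δ * P) := by
      refine hAv.trans (le_of_eq ?_)
      rw [hPdef]
      ring
    have h2 : ∑ t ∈ Finset.range L, Y t ≤ 2 * m * (CP * B) * P := by
      refine hS1.trans ?_
      have h3 : CP * Np p G ≤ CP * (B * (n : ℝ) ^ (p - 2) * Np p g) :=
        mul_le_mul_of_nonneg_left hApr' hCP.le
      have h4 : (0 : ℝ) ≤ 2 * m := by positivity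
      calc 2 * (m : ℝ) * ∑ i ∈ Finset.Icc (-((R + 2 : ℕ) : ℤ)) ((R + 2 : ℕ) : ℤ), x i
          ≤ 2 * m * (CP * (B * (n : ℝ) ^ (p - 2) * Np p g)) :=
            mul_le_mul_of_nonneg_left (hS2.trans h3) h4
        _ = _ := by rw [hPdef]; ring
    have h3 := mul_le_mul_of_nonneg_left h2
      (show 0 ≤ (1 + δ) * (CD * (m : ℝ) ^ (p - 1)) by positivity)
    calc _ ≤ L * (δ * P)
          + (1 + δ) * (CD * (m : ℝ) ^ (p - 1)) * (2 * m * (CP * B) * P) := add_le_add h1 h3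
      _ = L * (δ * P) + W * P := by rw [hW]; ring
      _ ≤ L * (δ * P) + L * δ * P := by
          have := mul_le_mul_of_nonneg_right hLW hP0
          linarith
      _ = _ := by ring
  obtain ⟨t, -, ht⟩ := exists_le_of_sum_le hL1 _ _ hsum
  have hin' := hin n hnn1 R g hg hR (-(t : ℤ)) I
  -- blocks
  have hblk : ∑ b ∈ I, Np p (cut (bd (b * L - t) ((b + 1) * L - t)) G) ≤
      (1 + δ) * (∑ b ∈ I, Np p (cut (bd (-(t : ℤ) + b * L + m) (-(t : ℤ) + b * L + L - m)) G))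
        + CD * (m : ℝ) ^ (p - 1) * Y t := by
    rw [hYdef]
    simp only
    rw [Finset.mul_sum, Finset.mul_sum, ← Finset.sum_add_distrib]
    refine Finset.sum_le_sum fun b _ => ?_
    have h := hBd m L (b * L - t) G hL2 hG.1
    have e1 : ((b : ℤ) + 1) * L - t = b * L - t + L := by ring
    have e2 : -(t : ℤ) + b * L = b * L - t := by ring
    rw [e1, e2]
    exact h
  have hfin : Np p G = X t
      + (1 + δ) * ∑ b ∈ I, Np p (cut (bd (b * L - t) ((b + 1) * L - t)) G) := by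
    rw [hXdef]; simp only; ring
  have h1 : Np p G ≤ 2 * δ * P + (1 + δ) * ((1 + δ) * (((1 + δ) ^ 2 * Γ + δ) * P)) := by
    have h2 := mul_le_mul_of_nonneg_left hblk (show 0 ≤ 1 + δ by positivity)
    have h3 : ∑ b ∈ I, Np p (cut (bd (-(t : ℤ) + b * L + m) (-(t : ℤ) + b * L + L - m)) G)
        ≤ ((1 + δ) ^ 2 * Γ + δ) * P := by
      refine hin'.trans (le_of_eq ?_)
      rw [hPdef]
      ring
    have h4 := mul_le_mul_of_nonneg_left (mul_le_mul_of_nonneg_left h3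
      (show 0 ≤ 1 + δ by positivity)) (show 0 ≤ 1 + δ by positivity)
    have e3 : (1 + δ) * (CD * (m : ℝ) ^ (p - 1)) * Y t
        = (1 + δ) * (CD * (m : ℝ) ^ (p - 1) * Y t) := by ring
    rw [hfin]
    linarith
  refine h1.trans ?_
  have e1 : 2 * δ * P + (1 + δ) * ((1 + δ) * (((1 + δ) ^ 2 * Γ + δ) * P))
      = (2 * δ + (1 + δ) ^ 4 * Γ + (1 + δ) ^ 2 * δ) * P := by ring
  have e2 : (1 + ε) * κ * gamp p ^ p * (n : ℝ) ^ (p - 2) * Np p g = ((1 + ε) * Γ) * P := by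
    rw [hPdef, hΓ]; ring
  rw [e1, e2]
  apply mul_le_mul_of_nonneg_right _ hP0
  have d2 : δ ^ 2 ≤ δ := by rw [sq]; exact mul_le_of_le_one_right hδ.le hδ1
  have d3 : δ ^ 3 ≤ δ := by
    have : δ ^ 3 = δ ^ 2 * δ := by ring
    rw [this]; exact (mul_le_of_le_one_right (by positivity) hδ1).trans d2
  have d4 : δ ^ 4 ≤ δ := by
    have : δ ^ 4 = δ ^ 3 * δ := by ring
    rw [this]; exact (mul_le_of_le_one_right (by positivity) hδ1).trans d3
  have d5 : (1 + δ) ^ 4 ≤ 1 + 15 * δ := by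
    have : (1 + δ) ^ 4 = 1 + 4 * δ + 6 * δ ^ 2 + 4 * δ ^ 3 + δ ^ 4 := by ring
    rw [this]; linarith
  have d6 : (1 + δ) ^ 2 * δ ≤ 4 * δ := by
    have : (1 + δ) ^ 2 * δ = δ + 2 * δ ^ 2 + δ ^ 3 := by ring
    rw [this]; linarith
  have d7 := mul_le_mul_of_nonneg_right d5 hΓ0.le
  nlinarith

end Pool.Agent.Lib.MP_dd244f_an.Rp
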