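import Pool.Agent.Lib.MP_dd244f_an.Rp.Stmts

/-!
Full operator, all real `p`, `n → ∞`: module Mono, the monotone quantities of the heat flow.
-/

set_option autoImplicit false

namespace Pool.Agent.Lib.MP_dd244f_an.Rp

open MeasureTheory Filter Topology
open Pool.Agent.Lib.MP_dd244f_an.Four
open Pool.Agent.Lib.MP_dd244f_an.Even
open Pool.Agent.Lib.MP_dd244f_an.Unif (SC)

namespace MonoAux

theorem integral_gauss {b : ℝ} (hb : 0 < b) : ∫ v : ℂ, Real.exp (-b * ‖v‖ ^ 2) = Real.pi / b := by
  rw [GaussianFourier.integral_rexp_neg_mul_sq_norm hb]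
  simp

theorem integrable_gauss {b : ℝ} (hb : 0 < b) :
    Integrable (fun v : ℂ => Real.exp (-b * ‖v‖ ^ 2)) := by
  by_contra h
  have h1 := integral_undef h
  rw [integral_gauss hb] at h1
  have := Real.pi_pos
  have : Real.pi / b ≠ 0 := by positivity
  exact this h1

/-! ### the heat kernel -/

lemma hk_pos {v : ℝ} (hv : 0 < v) (y : ℂ) : 0 < hk v y := by
  unfold hk
  have := Real.pi_pos
  positivity

lemma hk_integral {v : ℝ} (hv : 0 < v) : ∫ y, hk v y = 1 := by
  have h : ∀ y : ℂ, hk v y = (1 / (4 * Real.pi * v)) * Real.exp (-(1 / (4 * v)) * ‖y‖ ^ 2) := by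
    intro y
    unfold hk
    rw [show -(‖y‖ ^ 2 / (4 * v)) = -(1 / (4 * v)) * ‖y‖ ^ 2 by ring]
    ring
  simp_rw [h]
  rw [integral_const_mul, integral_gauss (by positivity)]
  have := Real.pi_pos
  field_simp

lemma hk_continuous (v : ℝ) : Continuous (hk v) := by
  unfold hk
  fun_prop

/-- derivative in `y` -/
lemma hk_fd {v : ℝ} (hv : 0 < v) (y : ℂ) :
    HasFDerivAt (hk v) ((-(hk v y / (2 * v)) * y.re) • Complex.reCLM
      + (-(hk v y / (2 * v)) * y.im) • Complex.imCLM) y := by
  have h1 : HasFDerivAt (fun z : ℂ => z.re) Complex.reCLM y := Complex.reCLM.hasFDerivAt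
  have h2 : HasFDerivAt (fun z : ℂ => z.im) Complex.imCLM y := Complex.imCLM.hasFDerivAt
  have h3 := ((((h1.fun_mul h1).fun_add (h2.fun_mul h2)).const_mul (-(1 / (4 * v)))).exp).const_mul
    (1 / (4 * Real.pi * v))
  have h4 : hk v = fun z : ℂ => 1 / (4 * Real.pi * v) *
      Real.exp (-(1 / (4 * v)) * (z.re * z.re + z.im * z.im)) := by
    ext z
    unfold hk
    rw [← Complex.normSq_eq_norm_sq, Complex.normSq_apply,
      show -((z.re * z.re + z.im * z.im) / (4 * v)) = -(1 / (4 * v)) * (z.re * z.re + z.im * z.im)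
        by ring]
    ring
  have h5 := congrFun h4 y
  have h6 := h3
  rw [← h4] at h6
  refine h6.congr_fderiv ?_
  rw [h5]
  ext w
  simp
  ring

lemma hk_contDiff (v : ℝ) (n : ℕ∞) : ContDiff ℝ n (hk v) := by
  unfold hk
  have h : ContDiff ℝ n (fun y : ℂ => ‖y‖ ^ 2) := contDiff_norm_sq ℝ
  exact (((h.div_const _).neg).exp).div_const _

lemma hk_fderiv {v : ℝ} (hv : 0 < v) (y e : ℂ) :
    fderiv ℝ (hk v) y e = -(hk v y / (2 * v)) * (y.re * e.re + y.im * e.im) := by
  rw [(hk_fd hv y).fderiv]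
  simp
  ring

lemma hk_fderiv_norm {v : ℝ} (hv : 0 < v) (y : ℂ) :
    ‖fderiv ℝ (hk v) y‖ ≤ hk v y / (2 * v) * ‖y‖ := by
  have h0 := (hk_pos hv y).le
  refine ContinuousLinearMap.opNorm_le_bound _ (by positivity) fun e => ?_
  rw [hk_fderiv hv, norm_mul, norm_neg, Real.norm_eq_abs, Real.norm_eq_abs,
    abs_of_nonneg (by positivity), mul_assoc]
  refine mul_le_mul_of_nonneg_left ?_ (by positivity)
  refine abs_le_of_sq_le_sq ?_ (by positivity)
  rw [mul_pow, ← Complex.normSq_eq_norm_sq, ← Complex.normSq_eq_norm_sq, Complex.normSq_apply,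
    Complex.normSq_apply]
  nlinarith [sq_nonneg (y.re * e.im - y.im * e.re)]

lemma hk_lap {v : ℝ} (hv : 0 < v) (y : ℂ) :
    lapR (hk v) y = hk v y * (‖y‖ ^ 2 / (4 * v ^ 2) - 1 / v) := by
  unfold lapR
  have h1 : (fun z => fderiv ℝ (hk v) z 1) = fun z => -(1 / (2 * v)) * (hk v z * z.re) := by
    ext z
    rw [hk_fderiv hv]
    simp
    ring
  have h2 : (fun z => fderiv ℝ (hk v) z Complex.I) = fun z => -(1 / (2 * v)) * (hk v z * z.im) := by
    ext z
    rw [hk_fderiv hv]
    simp
    ring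
  have h3 : HasFDerivAt (fun z : ℂ => z.re) Complex.reCLM y := Complex.reCLM.hasFDerivAt
  have h4 : HasFDerivAt (fun z : ℂ => z.im) Complex.imCLM y := Complex.imCLM.hasFDerivAt
  rw [h1, h2, (((hk_fd hv y).fun_mul h3).const_mul _).fderiv,
    (((hk_fd hv y).fun_mul h4).const_mul _).fderiv]
  rw [← Complex.normSq_eq_norm_sq, Complex.normSq_apply]
  simp
  field_simp
  ring

/-- derivative in the time -/
lemma hk_time {v : ℝ} (hv : 0 < v) (y : ℂ) :
    HasDerivAt (fun t => hk t y) (lapR (hk v) y) v := by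
  rw [hk_lap hv]
  unfold hk
  have h1 : HasDerivAt (fun t : ℝ => -(‖y‖ ^ 2 / (4 * t))) (‖y‖ ^ 2 / (4 * v ^ 2)) v := by
    have := (((hasDerivAt_id v).const_mul 4).inv (by simp; exact hv.ne')).const_mul (-(‖y‖ ^ 2))
    refine (this.congr_deriv ?_).congr_of_eventuallyEq ?_
    · simp
      field_simp
    · refine Eventually.of_forall fun t => ?_
      simp
      ring
  have h2 : HasDerivAt (fun t : ℝ => 4 * Real.pi * t) (4 * Real.pi) v := by
    simpa using (hasDerivAt_id v).const_mul (4 * Real.pi)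
  have hpi := Real.pi_pos
  have h3 := h1.exp.div h2 (by positivity)
  refine h3.congr_deriv ?_
  field_simp

/-! ### integration by parts with a cutoff -/

/-- divergence theorem without any hypothesis on the single second derivatives -/
lemma ibp {f h : ℂ → ℝ} (hf : ContDiff ℝ 2 f) (hh : ContDiff ℝ 1 h)
    (i1 : Integrable (fun y => lapR f y * h y))
    (i2 : Integrable (fun y => ‖fderiv ℝ f y‖ * ‖fderiv ℝ h y‖))
    (i3 : Integrable (fun y => ‖fderiv ℝ f y‖ * |h y|)) :
    ∫ y, lapR f y * h y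
      = -∫ y, (fderiv ℝ f y 1 * fderiv ℝ h y 1 + fderiv ℝ f y Complex.I * fderiv ℝ h y Complex.I)
    := by
  classical
  let χ : ContDiffBump (0 : ℂ) := ⟨1, 2, by norm_num, by norm_num⟩
  have hχd : ContDiff ℝ 1 χ := χ.contDiff
  have hχc : HasCompactSupport χ := χ.hasCompactSupport
  obtain ⟨M, hM⟩ : ∃ M : ℝ, ∀ y, ‖fderiv ℝ χ y‖ ≤ M := by
    have h1 : Continuous (fun y => fderiv ℝ χ y) := hχd.continuous_fderiv (by norm_num)
    exact (hχc.fderiv (𝕜 := ℝ)).exists_bound_of_continuous h1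
  have hM0 : 0 ≤ M := (norm_nonneg _).trans (hM 0)
  let c : ℕ → ℝ := fun n => 1 / ((n : ℝ) + 1)
  have hc0 : ∀ n, 0 < c n := fun n => by
    simp only [c]
    positivity
  have hc1 : ∀ n, c n ≤ 1 := fun n => by
    simp only [c]
    rw [div_le_one (by positivity)]
    have : (0 : ℝ) ≤ n := by positivity
    linarith
  have hclim : Tendsto c atTop (𝓝 0) := tendsto_one_div_add_atTop_nhds_zero_nat
  let X : ℕ → ℂ → ℝ := fun n y => χ (c n • y)
  have hXd : ∀ n, ContDiff ℝ 1 (X n) := fun n => hχd.comp (contDiff_const_smul _)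
  have hXc : ∀ n, HasCompactSupport (X n) := fun n => by
    have := hχc.comp_homeomorph (Homeomorph.smulOfNeZero (c n) (hc0 n).ne')
    exact this
  have hX0 : ∀ n y, 0 ≤ X n y := fun n y => χ.nonneg
  have hX1 : ∀ n y, X n y ≤ 1 := fun n y => χ.le_one
  have hXf : ∀ n y e, fderiv ℝ (X n) y e = c n * fderiv ℝ χ (c n • y) e := by
    intro n y e
    have h1 : HasFDerivAt (fun y : ℂ => c n • y) (c n • ContinuousLinearMap.id ℝ ℂ) y :=
      (hasFDerivAt_id y).const_smul (c n)
    have h2 : HasFDerivAt χ (fderiv ℝ χ (c n • y)) (c n • y) :=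
      (hχd.differentiable (by norm_num) _).hasFDerivAt
    have h3 := (h2.comp y h1).fderiv
    have h4 : (χ ∘ fun y : ℂ => c n • y) = X n := rfl
    rw [h4] at h3
    rw [h3]
    simp
  have hXlim : ∀ y, Tendsto (fun n => X n y) atTop (𝓝 1) := by
    intro y
    have h1 : Tendsto (fun n => c n • y) atTop (𝓝 ((0 : ℝ) • y)) := hclim.smul_const y
    rw [zero_smul] at h1
    have h2 := (hχd.continuous.tendsto 0).comp h1
    have h3 : χ 0 = 1 := χ.one_of_mem_closedBall (by simp [χ])
    rw [h3] at h2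
    exact h2
  have hfc : ∀ e, Continuous (fun y => fderiv ℝ f y e) := fun e =>
    (hf.continuous_fderiv (by norm_num)).clm_apply continuous_const
  have hhc : ∀ e, Continuous (fun y => fderiv ℝ h y e) := fun e =>
    (hh.continuous_fderiv (by norm_num)).clm_apply continuous_const
  have hfd : ∀ e, ContDiff ℝ 1 (fun y => fderiv ℝ f y e) := fun e =>
    (hf.fderiv_right (m := 1) (by norm_num)).clm_apply contDiff_const
  have hffc : ∀ e e', Continuous (fun y => fderiv ℝ (fun z => fderiv ℝ f z e) y e') := fun e e' =>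
    ((hfd e).continuous_fderiv (by norm_num)).clm_apply continuous_const
  -- the identity with the cutoff
  have key : ∀ n e, ∫ y, fderiv ℝ f y e * fderiv ℝ (fun y => X n y * h y) y e
      = -∫ y, fderiv ℝ (fun z => fderiv ℝ f z e) y e * (X n y * h y) := by
    intro n e
    have hp : ContDiff ℝ 1 (fun y => X n y * h y) := (hXd n).mul hh
    have hpc : HasCompactSupport (fun y => X n y * h y) := (hXc n).mul_right
    have hpf : Continuous (fun y => fderiv ℝ (fun y => X n y * h y) y e) :=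
      (hp.continuous_fderiv (by norm_num)).clm_apply continuous_const
    have hpfc : HasCompactSupport (fun y => fderiv ℝ (fun y => X n y * h y) y e) := by
      have := hpc.fderiv (𝕜 := ℝ)
      exact this.comp_left (g := fun L : ℂ →L[ℝ] ℝ => L e) (by simp)
    refine integral_mul_fderiv_eq_neg_fderiv_mul_of_integrable ?_ ?_ ?_ ?_ ?_
    · exact ((hffc e e).mul hp.continuous).integrable_of_hasCompactSupport hpc.mul_left
    · exact ((hfc e).mul hpf).integrable_of_hasCompactSupport hpfc.mul_left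
    · exact ((hfc e).mul hp.continuous).integrable_of_hasCompactSupport hpc.mul_left
    · exact fun x _ => (hfd e).differentiable (by norm_num) x
    · exact fun x _ => hp.differentiable (by norm_num) x
  have hpd : ∀ n y e, fderiv ℝ (fun y => X n y * h y) y e
      = X n y * fderiv ℝ h y e + c n * fderiv ℝ χ (c n • y) e * h y := by
    intro n y e
    have h1 := ((hXd n).differentiable (by norm_num) y).hasFDerivAt
    have h2 := (hh.differentiable (by norm_num) y).hasFDerivAt
    rw [(h1.fun_mul h2).fderiv]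
    simp [hXf]
    ring
  -- integrability
  have hint : ∀ n e, Integrable (fun y => fderiv ℝ f y e * fderiv ℝ (fun y => X n y * h y) y e) ∧
      Integrable (fun y => fderiv ℝ (fun z => fderiv ℝ f z e) y e * (X n y * h y)) := by
    intro n e
    have hp : ContDiff ℝ 1 (fun y => X n y * h y) := (hXd n).mul hh
    have hpc : HasCompactSupport (fun y => X n y * h y) := (hXc n).mul_right
    have hpf : Continuous (fun y => fderiv ℝ (fun y => X n y * h y) y e) :=
      (hp.continuous_fderiv (by norm_num)).clm_apply continuous_const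
    have hpfc : HasCompactSupport (fun y => fderiv ℝ (fun y => X n y * h y) y e) := by
      have := hpc.fderiv (𝕜 := ℝ)
      exact this.comp_left (g := fun L : ℂ →L[ℝ] ℝ => L e) (by simp)
    exact ⟨((hfc e).mul hpf).integrable_of_hasCompactSupport hpfc.mul_left,
      ((hffc e e).mul hp.continuous).integrable_of_hasCompactSupport hpc.mul_left⟩
  have key2 : ∀ n, ∫ y, X n y * (lapR f y * h y)
      = -∫ y, (fderiv ℝ f y 1 * (X n y * fderiv ℝ h y 1 + c n * fderiv ℝ χ (c n • y) 1 * h y)
        + fderiv ℝ f y Complex.I * (X n y * fderiv ℝ h y Complex.I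
          + c n * fderiv ℝ χ (c n • y) Complex.I * h y)) := by
    intro n
    have h1 := key n 1
    have h2 := key n Complex.I
    have e1 : ∫ y, X n y * (lapR f y * h y)
        = ∫ y, (fderiv ℝ (fun z => fderiv ℝ f z 1) y 1 * (X n y * h y)
          + fderiv ℝ (fun z => fderiv ℝ f z Complex.I) y Complex.I * (X n y * h y)) := by
      congr 1
      ext y
      unfold lapR
      ring
    rw [e1, integral_add (hint n 1).2 (hint n Complex.I).2]
    simp_rw [← hpd]
    rw [integral_add (hint n 1).1 (hint n Complex.I).1]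
    linarith
  -- limits
  have lim1 : Tendsto (fun n => ∫ y, X n y * (lapR f y * h y)) atTop
      (𝓝 (∫ y, lapR f y * h y)) := by
    refine tendsto_integral_of_dominated_convergence (fun y => ‖lapR f y * h y‖) ?_ i1.norm ?_ ?_
    · intro n
      exact (hXd n).continuous.aestronglyMeasurable.mul i1.aestronglyMeasurable
    · intro n
      refine Eventually.of_forall fun y => ?_
      rw [norm_mul, Real.norm_eq_abs (X n y), abs_of_nonneg (hX0 n y)]
      exact mul_le_of_le_one_left (norm_nonneg _) (hX1 n y)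
    · refine Eventually.of_forall fun y => ?_
      simpa using (hXlim y).mul_const (lapR f y * h y)
  have lim2 : Tendsto (fun n => ∫ y, (fderiv ℝ f y 1 *
        (X n y * fderiv ℝ h y 1 + c n * fderiv ℝ χ (c n • y) 1 * h y)
        + fderiv ℝ f y Complex.I * (X n y * fderiv ℝ h y Complex.I
          + c n * fderiv ℝ χ (c n • y) Complex.I * h y))) atTop
      (𝓝 (∫ y, (fderiv ℝ f y 1 * fderiv ℝ h y 1
        + fderiv ℝ f y Complex.I * fderiv ℝ h y Complex.I))) := by
    refine tendsto_integral_of_dominated_convergence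
      (fun y => 2 * (‖fderiv ℝ f y‖ * ‖fderiv ℝ h y‖) + 2 * M * (‖fderiv ℝ f y‖ * |h y|)) ?_
      ((i2.const_mul 2).add (i3.const_mul (2 * M))) ?_ ?_
    · intro n
      have hcc : ∀ e, Continuous (fun y : ℂ => fderiv ℝ χ (c n • y) e) := fun e =>
        ((hχd.continuous_fderiv (by norm_num)).comp (continuous_const_smul (c n))).clm_apply
          continuous_const
      exact (((hfc 1).mul (((hXd n).continuous.mul (hhc 1)).add
        ((continuous_const.mul (hcc 1)).mul hh.continuous))).add ((hfc Complex.I).mul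
        (((hXd n).continuous.mul (hhc Complex.I)).add
        ((continuous_const.mul (hcc Complex.I)).mul hh.continuous)))).aestronglyMeasurable
    · intro n
      refine Eventually.of_forall fun y => ?_
      have hb : ∀ e : ℂ, ‖e‖ = 1 → ‖fderiv ℝ f y e *
          (X n y * fderiv ℝ h y e + c n * fderiv ℝ χ (c n • y) e * h y)‖
          ≤ ‖fderiv ℝ f y‖ * ‖fderiv ℝ h y‖ + M * (‖fderiv ℝ f y‖ * |h y|) := by
        intro e he
        have a1 : ‖fderiv ℝ f y e‖ ≤ ‖fderiv ℝ f y‖ := by
          simpa [he] using (fderiv ℝ f y).le_opNorm e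
        have a2 : ‖fderiv ℝ h y e‖ ≤ ‖fderiv ℝ h y‖ := by
          simpa [he] using (fderiv ℝ h y).le_opNorm e
        have a3 : ‖fderiv ℝ χ (c n • y) e‖ ≤ M := by
          have := (fderiv ℝ χ (c n • y)).le_opNorm e
          rw [he, mul_one] at this
          exact this.trans (hM _)
        rw [norm_mul]
        calc ‖fderiv ℝ f y e‖ * ‖X n y * fderiv ℝ h y e + c n * fderiv ℝ χ (c n • y) e * h y‖
            ≤ ‖fderiv ℝ f y‖ * (1 * ‖fderiv ℝ h y‖ + 1 * M * |h y|) := by
              refine mul_le_mul a1 ?_ (norm_nonneg _) (norm_nonneg _)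
              refine (norm_add_le _ _).trans (add_le_add ?_ ?_)
              · rw [norm_mul, Real.norm_eq_abs (X n y), abs_of_nonneg (hX0 n y)]
                exact mul_le_mul (hX1 n y) a2 (norm_nonneg _) zero_le_one
              · rw [norm_mul, norm_mul, Real.norm_eq_abs (c n), abs_of_pos (hc0 n),
                  Real.norm_eq_abs (h y)]
                refine mul_le_mul_of_nonneg_right ?_ (abs_nonneg _)
                exact mul_le_mul (hc1 n) a3 (norm_nonneg _) zero_le_one
          _ = _ := by ring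
      refine (norm_add_le _ _).trans ?_
      have b1 := hb 1 (by simp)
      have b2 := hb Complex.I (by simp)
      linarith
    · refine Eventually.of_forall fun y => ?_
      have hl : ∀ e : ℂ, Tendsto (fun n => fderiv ℝ f y e *
          (X n y * fderiv ℝ h y e + c n * fderiv ℝ χ (c n • y) e * h y)) atTop
          (𝓝 (fderiv ℝ f y e * fderiv ℝ h y e)) := by
        intro e
        have l1 : Tendsto (fun n => X n y * fderiv ℝ h y e) atTop (𝓝 (1 * fderiv ℝ h y e)) :=
          (hXlim y).mul_const _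
        have l2 : Tendsto (fun n => c n * fderiv ℝ χ (c n • y) e * h y) atTop (𝓝 0) := by
          have l3 : Tendsto (fun n => c n • y) atTop (𝓝 ((0 : ℝ) • y)) := hclim.smul_const y
          have l4 : Continuous (fun z : ℂ => fderiv ℝ χ z e) :=
            (hχd.continuous_fderiv (by norm_num)).clm_apply continuous_const
          have l5 := (l4.tendsto _).comp l3
          have l6 := (hclim.mul l5).mul_const (h y)
          simpa using l6
        have l7 := (l1.add l2).const_mul (fderiv ℝ f y e)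
        simpa using l7
      exact (hl 1).add (hl Complex.I)
  have lim3 := lim2.neg
  simp_rw [← key2] at lim3
  exact tendsto_nhds_unique lim1 lim3

/-! ### domination -/

lemma dom (C a b : ℝ) (hC : 0 ≤ C) (ha : 0 < a) (hab : a ≤ b) : ∃ D, 0 < D ∧
    ∀ v ∈ Set.Icc a b, ∀ y : ℂ, (1 + ‖y‖ ^ 2) * (C * Real.exp (C * ‖y‖)) * hk v y
      ≤ D * Real.exp (-(1 / (8 * b)) * ‖y‖ ^ 2) := by
  have hpi := Real.pi_pos
  have hb : 0 < b := ha.trans_le hab
  refine ⟨(1 + 16 * b) * C * Real.exp (4 * b * C ^ 2) / (4 * Real.pi * a) + 1, by positivity, ?_⟩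
  intro v hv y
  have hv0 : 0 < v := ha.trans_le hv.1
  have h1 : hk v y ≤ Real.exp (-(‖y‖ ^ 2 / (4 * b))) / (4 * Real.pi * a) := by
    unfold hk
    have hv1 := hv.1
    have hv2 := hv.2
    gcongr
  have h2 : 1 + ‖y‖ ^ 2 ≤ (1 + 16 * b) * Real.exp (‖y‖ ^ 2 / (16 * b)) := by
    have h3 := Real.add_one_le_exp (‖y‖ ^ 2 / (16 * b))
    have h4 : (1 + 16 * b) * (‖y‖ ^ 2 / (16 * b) + 1)
        = ‖y‖ ^ 2 / (16 * b) + 1 + ‖y‖ ^ 2 + 16 * b := by
      field_simp
      ring
    have h5 : (1 + 16 * b) * (‖y‖ ^ 2 / (16 * b) + 1)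
        ≤ (1 + 16 * b) * Real.exp (‖y‖ ^ 2 / (16 * b)) := by gcongr
    have h6 : 0 ≤ ‖y‖ ^ 2 / (16 * b) := by positivity
    linarith
  have h3 : C * Real.exp (C * ‖y‖) ≤ C * Real.exp (‖y‖ ^ 2 / (16 * b) + 4 * b * C ^ 2) := by
    refine mul_le_mul_of_nonneg_left (Real.exp_le_exp.2 ?_) hC
    have h4 : ‖y‖ ^ 2 / (16 * b) + 4 * b * C ^ 2 - C * ‖y‖
        = (‖y‖ - 8 * b * C) ^ 2 / (16 * b) := by
      field_simp
      ring
    have h5 : 0 ≤ (‖y‖ - 8 * b * C) ^ 2 / (16 * b) := by positivity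
    linarith
  calc (1 + ‖y‖ ^ 2) * (C * Real.exp (C * ‖y‖)) * hk v y
      ≤ ((1 + 16 * b) * Real.exp (‖y‖ ^ 2 / (16 * b))) *
        (C * Real.exp (‖y‖ ^ 2 / (16 * b) + 4 * b * C ^ 2)) *
        (Real.exp (-(‖y‖ ^ 2 / (4 * b))) / (4 * Real.pi * a)) := by
        have := (hk_pos hv0 y).le
        gcongr
    _ = (1 + 16 * b) * C * Real.exp (4 * b * C ^ 2) / (4 * Real.pi * a) *
        Real.exp (-(1 / (8 * b)) * ‖y‖ ^ 2) := by
        have e1 : Real.exp (‖y‖ ^ 2 / (16 * b) + 4 * b * C ^ 2)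
            = Real.exp (4 * b * C ^ 2) * Real.exp (‖y‖ ^ 2 / (16 * b)) := by
          rw [← Real.exp_add]
          ring_nf
        have e2 : Real.exp (-(1 / (8 * b)) * ‖y‖ ^ 2) = Real.exp (‖y‖ ^ 2 / (16 * b)) *
            Real.exp (‖y‖ ^ 2 / (16 * b)) * Real.exp (-(‖y‖ ^ 2 / (4 * b))) := by
          rw [← Real.exp_add, ← Real.exp_add]
          congr 1
          field_simp
          ring
        rw [e1, e2]
        ring
    _ ≤ _ := by
        gcongr
        linarith

lemma gint {b : ℝ} (hb : 0 < b) (D : ℝ) :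
    Integrable (fun y : ℂ => D * Real.exp (-(1 / (8 * b)) * ‖y‖ ^ 2)) :=
  (integrable_gauss (by positivity)).const_mul D

/-- a continuous function with at most exponential growth is integrable against the kernel,
with a quadratic weight -/
lemma int_of_growth {f : ℂ → ℝ} (hf : AEStronglyMeasurable f volume) {C v : ℝ} (hC : 0 < C)
    (hv : 0 < v) (h : ∀ y, |f y| ≤ (1 + ‖y‖ ^ 2) * (C * Real.exp (C * ‖y‖)) * hk v y) :
    Integrable f := by
  obtain ⟨D, hD, hDb⟩ := dom C v v hC.le hv le_rfl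
  refine (gint hv D).mono' hf (Eventually.of_forall fun y => ?_)
  exact (h y).trans (hDb v ⟨le_rfl, le_rfl⟩ y)

lemma cancel {c : ℝ} (hc : c ≠ 0) {f : ℂ → ℝ} (h : Integrable (fun y => c * f y)) :
    Integrable f := by
  have h1 := h.const_mul c⁻¹
  have h2 : (fun y => c⁻¹ * (c * f y)) = f := by
    ext y
    rw [← mul_assoc, inv_mul_cancel₀ hc, one_mul]
  rwa [h2] at h1

lemma psi_nonneg (p : ℝ) (g : ℂ → ℂ) (s : ℝ) (y : ℂ) : 0 ≤ Psi p g s y :=
  integral_nonneg fun _ => Real.rpow_nonneg (norm_nonneg _) _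

/-- Green's formula -/
lemma green (hP : StmtPsi) {p : ℝ} {g : ℂ → ℂ} (hp : 2 < p) (hg : SC g) (s : ℝ) {v : ℝ}
    (hv : 0 < v) : Integrable (fun y => Psi p g s y * hk v y) ∧
      Integrable (fun y => gr p (tw s y g) * hk v y) ∧
      Integrable (fun y => lapR (Psi p g s) y * hk v y) ∧
      Integrable (fun y => Psi p g s y * lapR (hk v) y) ∧
      ∫ y, Psi p g s y * lapR (hk v) y = ∫ y, lapR (Psi p g s) y * hk v y := by
  obtain ⟨h1, h2, h3, h4, h5, h6, h7, h8⟩ := hP p g hp hg
  obtain ⟨C, hC, hCb⟩ := h8 |s|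
  have hb := fun y => hCb s y le_rfl
  have hk0 : ∀ y, 0 < hk v y := hk_pos hv
  have hPc : Continuous (Psi p g s) := (h1 s).continuous
  have hgrc : Continuous (fun y => gr p (tw s y g)) :=
    Continuous.comp (g := fun z : ℝ × ℂ => gr p (tw z.1 z.2 g)) (f := fun y : ℂ => (s, y)) h5
      (Continuous.prodMk_right s)
  have hglc : Continuous (fun y => gl p (tw s y g)) :=
    Continuous.comp (g := fun z : ℝ × ℂ => gl p (tw z.1 z.2 g)) (f := fun y : ℂ => (s, y)) h6
      (Continuous.prodMk_right s)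
  have hlap : lapR (Psi p g s) = fun y => p ^ 2 * gl p (tw s y g) := funext (h2 s)
  have hlapc : Continuous (lapR (Psi p g s)) := by
    rw [hlap]
    exact continuous_const.mul hglc
  have hhlap : lapR (hk v) = fun y => hk v y * (‖y‖ ^ 2 / (4 * v ^ 2) - 1 / v) :=
    funext (hk_lap hv)
  have hhlapc : Continuous (lapR (hk v)) := by
    rw [hhlap]
    have := hk_continuous v
    fun_prop
  have one_le : ∀ y : ℂ, 1 ≤ 1 + ‖y‖ ^ 2 := fun y => by nlinarith [norm_nonneg y]
  have norm_le : ∀ y : ℂ, ‖y‖ ≤ 1 + ‖y‖ ^ 2 := fun y => by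
    nlinarith [norm_nonneg y, sq_nonneg (‖y‖ - 1)]
  have i1 : Integrable (fun y => Psi p g s y * hk v y) := by
    refine int_of_growth (hPc.mul (hk_continuous v)).aestronglyMeasurable hC hv fun y => ?_
    rw [abs_mul, abs_of_nonneg (psi_nonneg p g s y), abs_of_pos (hk0 y)]
    refine mul_le_mul_of_nonneg_right ?_ (hk0 y).le
    calc Psi p g s y ≤ 1 * (C * Real.exp (C * ‖y‖)) := by
          rw [one_mul]
          exact (hb y).1
      _ ≤ _ := by
          have := one_le y
          gcongr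
  have hgr0 : ∀ y, 0 ≤ gr p (tw s y g) := fun y => by
    have := h7 s y
    exact (mul_nonneg (by linarith) this.1).trans this.2
  have i2 : Integrable (fun y => gr p (tw s y g) * hk v y) := by
    refine int_of_growth (hgrc.mul (hk_continuous v)).aestronglyMeasurable hC hv fun y => ?_
    rw [abs_mul, abs_of_nonneg (hgr0 y), abs_of_pos (hk0 y)]
    refine mul_le_mul_of_nonneg_right ?_ (hk0 y).le
    calc gr p (tw s y g) ≤ 1 * (C * Real.exp (C * ‖y‖)) := by
          rw [one_mul]
          exact (hb y).2.1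
      _ ≤ _ := by
          have := one_le y
          gcongr
  have i3 : Integrable (fun y => lapR (Psi p g s) y * hk v y) := by
    refine (i2.const_mul p).mono' (hlapc.mul (hk_continuous v)).aestronglyMeasurable
      (Eventually.of_forall fun y => ?_)
    have := h7 s y
    rw [h2, Real.norm_eq_abs, abs_of_nonneg (mul_nonneg (mul_nonneg (by positivity) this.1)
      (hk0 y).le), ← mul_assoc]
    refine mul_le_mul_of_nonneg_right ?_ (hk0 y).le
    nlinarith [this.2]
  have hfc : Continuous (fun y => ‖fderiv ℝ (Psi p g s) y‖) :=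
    ((h1 s).continuous_fderiv (by norm_num)).norm
  have hkc : Continuous (fun y => ‖fderiv ℝ (hk v) y‖) :=
    ((hk_contDiff v 2).continuous_fderiv (by norm_num)).norm
  have i4 : Integrable (fun y => ‖fderiv ℝ (Psi p g s) y‖ * ‖fderiv ℝ (hk v) y‖) := by
    have i4' : Integrable (fun y => (2 * v) * (‖fderiv ℝ (Psi p g s) y‖ * ‖fderiv ℝ (hk v) y‖)) := by
      refine int_of_growth (continuous_const.mul (hfc.mul hkc)).aestronglyMeasurable hC hv fun y => ?_
      rw [abs_of_nonneg (by positivity)]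
      have a1 := (hb y).2.2
      have a2 := hk_fderiv_norm hv y
      have a3 := norm_le y
      have a4 := (hk0 y).le
      calc 2 * v * (‖fderiv ℝ (Psi p g s) y‖ * ‖fderiv ℝ (hk v) y‖)
          ≤ 2 * v * (C * Real.exp (C * ‖y‖) * (hk v y / (2 * v) * ‖y‖)) := by gcongr
        _ = ‖y‖ * (C * Real.exp (C * ‖y‖)) * hk v y := by
            field_simp
        _ ≤ _ := by gcongr
    exact cancel (by positivity) i4'
  have i5 : Integrable (fun y => ‖fderiv ℝ (Psi p g s) y‖ * |hk v y|) := by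
    refine int_of_growth (hfc.mul (hk_continuous v).abs).aestronglyMeasurable hC hv fun y => ?_
    rw [abs_of_nonneg (by positivity), abs_of_pos (hk0 y)]
    refine mul_le_mul_of_nonneg_right ?_ (hk0 y).le
    calc ‖fderiv ℝ (Psi p g s) y‖ ≤ 1 * (C * Real.exp (C * ‖y‖)) := by
          rw [one_mul]
          exact (hb y).2.2
      _ ≤ _ := by
          have := one_le y
          gcongr
  have i6 : Integrable (fun y => ‖fderiv ℝ (hk v) y‖ * |Psi p g s y|) := by
    have i6' : Integrable (fun y => (2 * v) * (‖fderiv ℝ (hk v) y‖ * |Psi p g s y|)) := by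
      refine int_of_growth (continuous_const.mul (hkc.mul hPc.abs)).aestronglyMeasurable hC hv
        fun y => ?_
      rw [abs_of_nonneg (by positivity), abs_of_nonneg (psi_nonneg p g s y)]
      have a0 := psi_nonneg p g s y
      have a1 := (hb y).1
      have a2 := hk_fderiv_norm hv y
      have a3 := norm_le y
      have a4 := (hk0 y).le
      calc 2 * v * (‖fderiv ℝ (hk v) y‖ * Psi p g s y)
          ≤ 2 * v * ((hk v y / (2 * v) * ‖y‖) * (C * Real.exp (C * ‖y‖))) := by gcongr
        _ = ‖y‖ * (C * Real.exp (C * ‖y‖)) * hk v y := by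
            field_simp
        _ ≤ _ := by gcongr
    exact cancel (by positivity) i6'
  have i7 : Integrable (fun y => Psi p g s y * lapR (hk v) y) := by
    have hK : 0 < 1 / (4 * v ^ 2) + 1 / v := by positivity
    have i7' : Integrable (fun y => (1 / (1 / (4 * v ^ 2) + 1 / v)) *
        (Psi p g s y * lapR (hk v) y)) := by
      refine int_of_growth (continuous_const.mul (hPc.mul hhlapc)).aestronglyMeasurable hC hv
        fun y => ?_
      rw [abs_mul, abs_mul, abs_of_nonneg (psi_nonneg p g s y), hk_lap hv, abs_mul,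
        abs_of_pos (hk0 y), abs_of_pos (by positivity)]
      have a0 := psi_nonneg p g s y
      have a1 := (hb y).1
      have a4 := (hk0 y).le
      have a5 : |‖y‖ ^ 2 / (4 * v ^ 2) - 1 / v| ≤ (1 / (4 * v ^ 2) + 1 / v) * (1 + ‖y‖ ^ 2) := by
        have b1 : 0 ≤ ‖y‖ ^ 2 / (4 * v ^ 2) := by positivity
        have b2 : 0 ≤ 1 / v := by positivity
        have b3 : (1 / (4 * v ^ 2) + 1 / v) * (1 + ‖y‖ ^ 2)
            = ‖y‖ ^ 2 / (4 * v ^ 2) + 1 / v + (1 / (4 * v ^ 2) + 1 / v * ‖y‖ ^ 2) := by ring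
        have b4 : 0 ≤ 1 / (4 * v ^ 2) + 1 / v * ‖y‖ ^ 2 := by positivity
        rw [abs_le]
        constructor <;> linarith
      calc 1 / (1 / (4 * v ^ 2) + 1 / v) *
            (Psi p g s y * (hk v y * |‖y‖ ^ 2 / (4 * v ^ 2) - 1 / v|))
          ≤ 1 / (1 / (4 * v ^ 2) + 1 / v) * (C * Real.exp (C * ‖y‖) *
            (hk v y * ((1 / (4 * v ^ 2) + 1 / v) * (1 + ‖y‖ ^ 2)))) := by gcongr
        _ = (1 + ‖y‖ ^ 2) * (C * Real.exp (C * ‖y‖)) * hk v y := by
            field_simp
    exact cancel (by positivity) i7'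
  refine ⟨i1, i2, i3, i7, ?_⟩
  have e1 := ibp (h1 s) ((hk_contDiff v 1)) i3 i4 i5
  have e2 := ibp (hk_contDiff v 2) ((h1 s).of_le (by norm_num)) (i7.congr
    (Eventually.of_forall fun y => mul_comm _ _))
    (i4.congr (Eventually.of_forall fun y => mul_comm _ _)) i6
  have e3 : ∫ y, Psi p g s y * lapR (hk v) y = ∫ y, lapR (hk v) y * Psi p g s y := by
    congr 1
    ext y
    ring
  rw [e3, e1, e2]
  congr 2
  ext y
  ring

/-- derivative of the pairing along a line -/
lemma deriv_J (hP : StmtPsi) {p : ℝ} {g : ℂ → ℂ} (hp : 2 < p) (hg : SC g) (γ s α β t₀ : ℝ)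
    (ht : 0 < α * t₀ + β) :
    HasDerivAt (fun t => ∫ y, Psi p g (γ * t + s) y * hk (α * t + β) y)
      (∫ y, (-(γ * gr p (tw (γ * t₀ + s) y g)) * hk (α * t₀ + β) y
        + Psi p g (γ * t₀ + s) y * (α * lapR (hk (α * t₀ + β)) y))) t₀ := by
  obtain ⟨h1, h2, h3, h4, h5, h6, h7, h8⟩ := hP p g hp hg
  obtain ⟨C, hC, hCb⟩ := h8 (|γ| * (|t₀| + 1) + |s|)
  set a : ℝ := (α * t₀ + β) / 2 with ha
  set b : ℝ := 2 * (α * t₀ + β) with hb
  have ha0 : 0 < a := by positivity
  have hab : a ≤ b := by rw [ha, hb]; linarith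
  obtain ⟨D, hD, hDb⟩ := dom C a b hC.le ha0 hab
  set K : ℝ := |γ| + |α| * (1 / (4 * a ^ 2) + 1 / a) with hK
  have hK0 : 0 ≤ K := by positivity
  have hS : {t : ℝ | α * t + β ∈ Set.Ioo a b} ∩ Metric.ball t₀ 1 ∈ 𝓝 t₀ := by
    refine inter_mem ?_ (Metric.ball_mem_nhds _ one_pos)
    have hc : Continuous (fun t : ℝ => α * t + β) := by fun_prop
    refine (isOpen_Ioo.preimage hc).mem_nhds ?_
    rw [Set.mem_preimage, ha, hb]
    constructor <;> linarith
  have hPc : ∀ t, Continuous (Psi p g t) := fun t => (h1 t).continuous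
  have hgrc : Continuous (fun y => gr p (tw (γ * t₀ + s) y g)) :=
    Continuous.comp (g := fun z : ℝ × ℂ => gr p (tw z.1 z.2 g))
      (f := fun y : ℂ => (γ * t₀ + s, y)) h5 (Continuous.prodMk_right (γ * t₀ + s))
  have hhlapc : Continuous (lapR (hk (α * t₀ + β))) := by
    rw [funext (hk_lap ht)]
    have := hk_continuous (α * t₀ + β)
    fun_prop
  refine (hasDerivAt_integral_of_dominated_loc_of_deriv_le (μ := volume)
    (F := fun t y => Psi p g (γ * t + s) y * hk (α * t + β) y)
    (F' := fun t y => -(γ * gr p (tw (γ * t + s) y g)) * hk (α * t + β) y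
        + Psi p g (γ * t + s) y * (α * lapR (hk (α * t + β)) y))
    (bound := fun y => (K * D) * Real.exp (-(1 / (8 * b)) * ‖y‖ ^ 2)) hS ?_ ?_ ?_ ?_ ?_ ?_).2
  · exact Eventually.of_forall fun t =>
      ((hPc _).mul (hk_continuous _)).aestronglyMeasurable
  · exact (green hP hp hg _ ht).1
  · exact (((continuous_const.mul hgrc).neg.mul (hk_continuous _)).add
      ((hPc _).mul (continuous_const.mul hhlapc))).aestronglyMeasurable
  · refine Eventually.of_forall fun y t htS => ?_
    have hv : α * t + β ∈ Set.Icc a b := ⟨htS.1.1.le, htS.1.2.le⟩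
    have hv0 : 0 < α * t + β := ha0.trans_le hv.1
    have htt : |γ * t + s| ≤ |γ| * (|t₀| + 1) + |s| := by
      have q1 : |t| ≤ |t₀| + 1 := by
        have := htS.2
        rw [Metric.mem_ball, Real.dist_eq] at this
        have q2 := abs_sub_abs_le_abs_sub t t₀
        linarith
      calc |γ * t + s| ≤ |γ * t| + |s| := abs_add_le _ _
        _ = |γ| * |t| + |s| := by rw [abs_mul]
        _ ≤ _ := by gcongr
    obtain ⟨c1, c2, -⟩ := hCb (γ * t + s) y htt
    have k0 := (hk_pos hv0 y).le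
    have gr0 : 0 ≤ gr p (tw (γ * t + s) y g) := by
      have := h7 (γ * t + s) y
      exact (mul_nonneg (by linarith) this.1).trans this.2
    have a5 : |‖y‖ ^ 2 / (4 * (α * t + β) ^ 2) - 1 / (α * t + β)|
        ≤ (1 / (4 * a ^ 2) + 1 / a) * (1 + ‖y‖ ^ 2) := by
      have b1 : 0 ≤ ‖y‖ ^ 2 / (4 * (α * t + β) ^ 2) := by positivity
      have b2 : 0 ≤ 1 / (α * t + β) := by positivity
      have b1' : ‖y‖ ^ 2 / (4 * (α * t + β) ^ 2) ≤ ‖y‖ ^ 2 / (4 * a ^ 2) := by
        have := hv.1
        gcongr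
      have b2' : 1 / (α * t + β) ≤ 1 / a := by
        have := hv.1
        gcongr
      have b3 : (1 / (4 * a ^ 2) + 1 / a) * (1 + ‖y‖ ^ 2)
          = ‖y‖ ^ 2 / (4 * a ^ 2) + 1 / a + (1 / (4 * a ^ 2) + 1 / a * ‖y‖ ^ 2) := by ring
      have b4 : 0 ≤ 1 / (4 * a ^ 2) + 1 / a * ‖y‖ ^ 2 := by positivity
      rw [abs_le]
      constructor <;> linarith
    have one_le : 1 ≤ 1 + ‖y‖ ^ 2 := by nlinarith [norm_nonneg y]
    have e0 : 0 ≤ C * Real.exp (C * ‖y‖) := by positivity
    have t1 : ‖-(γ * gr p (tw (γ * t + s) y g)) * hk (α * t + β) y‖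
        ≤ |γ| * ((1 + ‖y‖ ^ 2) * (C * Real.exp (C * ‖y‖)) * hk (α * t + β) y) := by
      rw [norm_mul, norm_neg, norm_mul, Real.norm_eq_abs, Real.norm_eq_abs, Real.norm_eq_abs,
        abs_of_nonneg gr0, abs_of_nonneg k0, mul_assoc]
      refine mul_le_mul_of_nonneg_left (mul_le_mul_of_nonneg_right ?_ k0) (abs_nonneg _)
      calc gr p (tw (γ * t + s) y g) ≤ 1 * (C * Real.exp (C * ‖y‖)) := by rw [one_mul]; exact c2
        _ ≤ _ := by gcongr
    have t2 : ‖Psi p g (γ * t + s) y * (α * lapR (hk (α * t + β)) y)‖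
        ≤ |α| * (1 / (4 * a ^ 2) + 1 / a) *
          ((1 + ‖y‖ ^ 2) * (C * Real.exp (C * ‖y‖)) * hk (α * t + β) y) := by
      have p0 := psi_nonneg p g (γ * t + s) y
      rw [hk_lap hv0, norm_mul, norm_mul, norm_mul, Real.norm_eq_abs, Real.norm_eq_abs,
        Real.norm_eq_abs, Real.norm_eq_abs, abs_of_nonneg p0, abs_of_nonneg k0]
      calc Psi p g (γ * t + s) y * (|α| * (hk (α * t + β) y *
            |‖y‖ ^ 2 / (4 * (α * t + β) ^ 2) - 1 / (α * t + β)|))
          ≤ (C * Real.exp (C * ‖y‖)) * (|α| * (hk (α * t + β) y *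
            ((1 / (4 * a ^ 2) + 1 / a) * (1 + ‖y‖ ^ 2)))) := by gcongr
        _ = _ := by ring
    have t3 := hDb (α * t + β) hv y
    calc ‖-(γ * gr p (tw (γ * t + s) y g)) * hk (α * t + β) y
        + Psi p g (γ * t + s) y * (α * lapR (hk (α * t + β)) y)‖
        ≤ K * ((1 + ‖y‖ ^ 2) * (C * Real.exp (C * ‖y‖)) * hk (α * t + β) y) := by
          refine (norm_add_le _ _).trans ?_
          rw [hK]
          linarith
      _ ≤ K * (D * Real.exp (-(1 / (8 * b)) * ‖y‖ ^ 2)) := by gcongr
      _ = _ := by ring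
  · exact gint (ha0.trans_le hab) _
  · refine Eventually.of_forall fun y t htS => ?_
    have hv0 : 0 < α * t + β := ha0.trans htS.1.1
    have d1 : HasDerivAt (fun t : ℝ => γ * t + s) γ t := by
      simpa using ((hasDerivAt_id t).const_mul γ).add_const s
    have d2 : HasDerivAt (fun t : ℝ => α * t + β) α t := by
      simpa using ((hasDerivAt_id t).const_mul α).add_const β
    have d3 := (h3 (γ * t + s) y).comp t d1
    have d4 := (hk_time hv0 y).comp t d2
    refine (d3.mul d4).congr_deriv ?_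
    simp only [Function.comp_apply]
    ring

/-- the pairing tends to `Psi (0, 0)` -/
lemma lim_zero (hP : StmtPsi) {p : ℝ} {g : ℂ → ℂ} (hp : 2 < p) (hg : SC g) :
    Tendsto (fun t => ∫ y, Psi p g t y * hk (t / p) y) (𝓝[>] (0 : ℝ)) (𝓝 (Np p g)) := by
  obtain ⟨h1, h2, h3, h4, h5, h6, h7, h8⟩ := hP p g hp hg
  obtain ⟨C, hC, hCb⟩ := h8 1
  obtain ⟨D, hD, hDb⟩ := dom C 1 1 hC.le one_pos le_rfl
  have hp0 : 0 < p := by linarith
  have e0 : Np p g = ∫ z, Psi p g 0 0 * hk 1 z := by
    rw [integral_const_mul, hk_integral one_pos, mul_one]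
    unfold Psi
    congr 1
    ext ζ
    simp [tw]
  have e1 : ∀ t ∈ Set.Ioi (0 : ℝ), ∫ y, Psi p g t y * hk (t / p) y
      = ∫ z, Psi p g t (Real.sqrt (t / p) • z) * hk 1 z := by
    intro t ht
    have ht0 : 0 < t / p := div_pos ht hp0
    set r := Real.sqrt (t / p) with hr
    have hr0 : 0 < r := Real.sqrt_pos.2 ht0
    have hr2 : r ^ 2 = t / p := Real.sq_sqrt ht0.le
    have s1 := MeasureTheory.Measure.integral_comp_smul (volume : Measure ℂ)
      (fun y => Psi p g t y * hk (t / p) y) r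
    rw [Complex.finrank_real_complex, abs_of_pos (by positivity), smul_eq_mul] at s1
    have s2 : ∀ z : ℂ, hk (t / p) (r • z) = (r ^ 2)⁻¹ * hk 1 z := by
      intro z
      unfold hk
      rw [← hr2, norm_smul, Real.norm_eq_abs, abs_of_pos hr0]
      have : (r * ‖z‖) ^ 2 / (4 * r ^ 2) = ‖z‖ ^ 2 / (4 * 1) := by
        field_simp
      rw [this]
      have hpi := Real.pi_pos
      field_simp
    simp_rw [s2] at s1
    have s3 : ∫ x : ℂ, Psi p g t (r • x) * ((r ^ 2)⁻¹ * hk 1 x)
        = (r ^ 2)⁻¹ * ∫ x : ℂ, Psi p g t (r • x) * hk 1 x := by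
      rw [← integral_const_mul]
      congr 1
      ext x
      ring
    rw [s3] at s1
    have := mul_left_cancel₀ (inv_ne_zero (pow_ne_zero 2 hr0.ne')) s1
    exact this.symm
  rw [e0]
  refine Tendsto.congr' (f₁ := fun t => ∫ z, Psi p g t (Real.sqrt (t / p) • z) * hk 1 z) ?_ ?_
  · filter_upwards [self_mem_nhdsWithin] with t ht
    exact (e1 t ht).symm
  refine tendsto_integral_filter_of_dominated_convergence
    (fun y => D * Real.exp (-(1 / (8 * 1)) * ‖y‖ ^ 2)) ?_ ?_ (gint one_pos D) ?_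
  · refine Eventually.of_forall fun t => ?_
    exact (((h1 t).continuous.comp (continuous_const_smul _)).mul
      (hk_continuous 1)).aestronglyMeasurable
  · have hmem : Set.Ioc (0 : ℝ) 1 ∈ 𝓝[>] (0 : ℝ) := Ioc_mem_nhdsGT one_pos
    filter_upwards [hmem] with t ht
    refine Eventually.of_forall fun z => ?_
    have k0 := (hk_pos one_pos z).le
    rw [norm_mul, Real.norm_eq_abs, Real.norm_eq_abs, abs_of_nonneg (psi_nonneg _ _ _ _),
      abs_of_nonneg k0]
    refine le_trans ?_ (hDb 1 ⟨le_rfl, le_rfl⟩ z)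
    refine mul_le_mul_of_nonneg_right ?_ k0
    have c1 := (hCb t (Real.sqrt (t / p) • z) (by
      rw [abs_of_pos ht.1]; exact ht.2)).1
    have c2 : ‖Real.sqrt (t / p) • z‖ ≤ ‖z‖ := by
      rw [norm_smul, Real.norm_eq_abs, abs_of_nonneg (Real.sqrt_nonneg _)]
      refine mul_le_of_le_one_left (norm_nonneg _) ?_
      rw [Real.sqrt_le_one]
      rw [div_le_one hp0]
      linarith [ht.2]
    calc Psi p g t (Real.sqrt (t / p) • z) ≤ C * Real.exp (C * ‖Real.sqrt (t / p) • z‖) := c1
      _ ≤ 1 * (C * Real.exp (C * ‖z‖)) := by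
          rw [one_mul]
          gcongr
      _ ≤ _ := by
          have : 1 ≤ 1 + ‖z‖ ^ 2 := by nlinarith [norm_nonneg z]
          gcongr
  · refine Eventually.of_forall fun z => ?_
    have c1 : Continuous (fun t : ℝ => (t, Real.sqrt (t / p) • z)) := by fun_prop
    have c2 : Continuous (fun t : ℝ => Psi p g t (Real.sqrt (t / p) • z)) :=
      Continuous.comp (g := fun z : ℝ × ℂ => Psi p g z.1 z.2)
        (f := fun t : ℝ => (t, Real.sqrt (t / p) • z)) h4 c1
    have c3 := (c2.tendsto 0).mul_const (hk 1 z)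
    simp only [zero_div, Real.sqrt_zero, zero_smul] at c3
    exact c3.mono_left nhdsWithin_le_nhds

end MonoAux

open MonoAux

/-- the monotone quantities of the heat flow -/
theorem mono (hP : StmtPsi) : StmtMono := by
  intro p g hp hg
  obtain ⟨h1, h2, h3, h4, h5, h6, h7, h8⟩ := hP p g hp hg
  have hp0 : 0 < p := by linarith
  have P2 : ∀ κ, 0 ≤ κ →
      AntitoneOn (fun s => ∫ y, Psi p g s y * hk (s / p - κ) y) (Set.Ioi (p * κ)) := by
    intro κ hκ
    have hd : ∀ t ∈ Set.Ioi (p * κ), HasDerivAt (fun s => ∫ y, Psi p g s y * hk (s / p - κ) y)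
        (∫ y, (p * gl p (tw t y g) - gr p (tw t y g)) * hk (t / p - κ) y) t := by
      intro t ht
      have ht1 : 0 < t / p - κ := by
        rw [sub_pos, lt_div_iff₀ hp0]
        linarith [Set.mem_Ioi.1 ht]
      have d := deriv_J hP hp hg 1 0 (1 / p) (-κ) t (by
        rw [one_div, inv_mul_eq_div, ← sub_eq_add_neg]; exact ht1)
      have e1 : ∀ t : ℝ, 1 / p * t + -κ = t / p - κ := fun t => by ring
      have e2 : ∀ t : ℝ, 1 * t + 0 = t := fun t => by ring
      simp only [e1, e2] at d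
      refine d.congr_deriv ?_
      obtain ⟨g1, g2, g3, g4, g5⟩ := green hP hp hg t ht1
      have e3 : ∀ y, -(1 * gr p (tw t y g)) * hk (t / p - κ) y
          + Psi p g t y * (1 / p * lapR (hk (t / p - κ)) y)
          = 1 / p * (Psi p g t y * lapR (hk (t / p - κ)) y)
            - gr p (tw t y g) * hk (t / p - κ) y := fun y => by ring
      simp_rw [e3]
      rw [integral_sub (g4.const_mul _) g2, integral_const_mul, g5, ← integral_const_mul,
        ← integral_sub (g3.const_mul _) g2]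
      congr 1
      ext y
      rw [h2]
      field_simp
    refine antitoneOn_of_deriv_nonpos (convex_Ioi _)
      (fun t ht => (hd t ht).continuousAt.continuousWithinAt) ?_ ?_
    · rw [interior_Ioi]
      exact fun t ht => (hd t ht).differentiableAt.differentiableWithinAt
    · rw [interior_Ioi]
      intro t ht
      rw [(hd t ht).deriv]
      have ht1 : 0 < t / p - κ := by
        rw [sub_pos, lt_div_iff₀ hp0]
        linarith [Set.mem_Ioi.1 ht]
      refine integral_nonpos fun y => ?_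
      refine mul_nonpos_of_nonpos_of_nonneg ?_ (hk_pos ht1 y).le
      linarith [(h7 t y).2]
  refine ⟨fun s v hv => ⟨(green hP hp hg s hv).1, (green hP hp hg s hv).2.2.1⟩, P2, ?_, ?_⟩
  · intro s v₁ v₂ hv₁ hv
    have hd : ∀ v ∈ Set.Icc v₁ v₂, HasDerivAt (fun v => ∫ y, Psi p g s y * hk v y)
        (∫ y, lapR (Psi p g s) y * hk v y) v := by
      intro v hvI
      have hv0 : 0 < v := hv₁.trans_le hvI.1
      have d := deriv_J hP hp hg 0 s 1 0 v (by linarith)
      have e1 : ∀ t : ℝ, 1 * t + 0 = t := fun t => by ring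
      have e2 : ∀ t : ℝ, 0 * t + s = s := fun t => by ring
      simp only [e1, e2] at d
      refine d.congr_deriv ?_
      rw [← (green hP hp hg s hv0).2.2.2.2]
      congr 1
      ext y
      ring
    have hd' : ∀ v ∈ Set.uIcc v₁ v₂, HasDerivAt (fun v => ∫ y, Psi p g s y * hk v y)
        (∫ y, lapR (Psi p g s) y * hk v y) v := by
      rw [Set.uIcc_of_le hv]
      exact hd
    refine (intervalIntegral.integral_eq_sub_of_hasDerivAt hd' ?_).symm
    refine intervalIntegral.intervalIntegrable_deriv_of_nonneg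
      (fun v hv => (hd' v hv).continuousAt.continuousWithinAt) ?_ ?_
    · rw [min_eq_left hv, max_eq_right hv]
      exact fun v hv => hd v ⟨hv.1.le, hv.2.le⟩
    · rw [min_eq_left hv, max_eq_right hv]
      intro v hvI
      have hv0 : 0 < v := hv₁.trans hvI.1
      refine integral_nonneg fun y => mul_nonneg ?_ (hk_pos hv0 y).le
      rw [h2]
      have := (h7 s y).1
      positivity
  · intro s hs
    have hA := P2 0 le_rfl
    simp only [sub_zero, mul_zero] at hA
    refine ge_of_tendsto (lim_zero hP hp hg) ?_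
    have hmem : Set.Ioc (0 : ℝ) s ∈ 𝓝[>] (0 : ℝ) := Ioc_mem_nhdsGT hs
    filter_upwards [hmem] with t ht
    exact hA (Set.mem_Ioi.2 ht.1) (Set.mem_Ioi.2 hs) ht.2

end Pool.Agent.Lib.MP_dd244f_an.Rp
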