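import Pool.Agent.Lib.MP_dd244f_an.Rp.Stmts
import Pool.Agent.Lib.MP_dd244f_an.Even.AvAux

/-!
Rp, module (Mp): maximal function of `|iF g| ^ 2` in `L^(p/2)`, `p > 2` real.
-/

set_option autoImplicit false

namespace Pool.Agent.Lib.MP_dd244f_an.Rp

open MeasureTheory Filter Topology
open Pool.Agent.Lib.MP_dd244f_an.Four
open Pool.Agent.Lib.MP_dd244f_an.Even
open scoped ENNReal NNReal

theorem mpNp_int (hB : Four.StmtBase) {p : ℝ} (hp : 2 ≤ p) {g : ℂ → ℂ} (hg : CC g) :
    Integrable (fun x => ‖iF g x‖ ^ p) := by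
  obtain ⟨hc, ⟨B, hb⟩, h2, -, -⟩ := hB.1 g hg
  have hB0 : 0 ≤ B := (norm_nonneg _).trans (hb 0)
  refine Integrable.mono' (h2.const_mul (B ^ (p - 2)))
    ((hc.norm.rpow_const fun x => Or.inr (by linarith)).aestronglyMeasurable)
    (Eventually.of_forall fun x => ?_)
  rw [Real.norm_of_nonneg (by positivity)]
  rcases (norm_nonneg (iF g x)).eq_or_lt with h0 | h0
  · rw [← h0, Real.zero_rpow (by linarith)]
    positivity
  · have e : ‖iF g x‖ ^ p = ‖iF g x‖ ^ (p - 2) * ‖iF g x‖ ^ 2 := by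
      rw [← Real.rpow_natCast ‖iF g x‖ 2, ← Real.rpow_add h0]
      congr 1
      push_cast
      ring
    rw [e]
    exact mul_le_mul_of_nonneg_right (Real.rpow_le_rpow h0.le (hb x) (by linarith)) (by positivity)

theorem mpNp_nonneg (p : ℝ) (g : ℂ → ℂ) : 0 ≤ Np p g := integral_nonneg fun _ => by positivity

open AvAux in
theorem mp (h : Even.StmtHL) (hK : Four.StmtKK) (hB : Four.StmtBase) : StmtMp := by
  intro p hp
  obtain ⟨C, hC⟩ := h (p / 2) (by linarith)
  refine ⟨(C : ℝ) + 1, by positivity, ?_⟩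
  intro g hg
  obtain ⟨hc, ⟨B, hb⟩, -, -, -⟩ := hB.1 g hg
  set φ : ℂ → ℝ≥0∞ := fun y => ENNReal.ofReal (‖iF g y‖ ^ 2) with hφd
  have hφ : Measurable φ := (ENNReal.continuous_ofReal.comp (hc.norm.pow 2)).measurable
  have hr : ∀ a : ℤ, (0 : ℝ) < (2 : ℝ) ^ (-a) := fun a => by positivity
  set S : ℂ → ℝ≥0∞ := fun x =>
    ⨆ a : ℤ, ∫⁻ y, ENNReal.ofReal (KK ((2 : ℝ) ^ (-a)) (x - y)) * φ y with hS
  have hSm : Measurable S := Measurable.iSup fun a => av_meas (hr a) hφ
  have hSt : ∀ x, S x ≤ ENNReal.ofReal Real.pi * ENNReal.ofReal (B ^ 2) := by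
    intro x
    refine iSup_le fun a => ?_
    calc ∫⁻ y, ENNReal.ofReal (KK ((2 : ℝ) ^ (-a)) (x - y)) * φ y
        ≤ ∫⁻ y, ENNReal.ofReal (KK ((2 : ℝ) ^ (-a)) (x - y)) * ENNReal.ofReal (B ^ 2) := by
          refine lintegral_mono fun y => mul_le_mul_right ?_ _
          exact ENNReal.ofReal_le_ofReal (pow_le_pow_left₀ (norm_nonneg _) (hb y) 2)
      _ = _ := by rw [lintegral_mul_const _ (kk_meas (hr a) x), kk_lint hK (hr a)]
  have hStop : ∀ x, S x ≠ ⊤ := fun x =>
    ((hSt x).trans_lt (ENNReal.mul_lt_top ENNReal.ofReal_lt_top ENNReal.ofReal_lt_top)).ne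
  have hMm : Measurable (fun x => (S x).toReal) := hSm.ennreal_toReal
  have hφp : ∫⁻ x, φ x ^ (p / 2) = ENNReal.ofReal (Np p g) := by
    unfold Np
    rw [ofReal_integral_eq_lintegral_ofReal (mpNp_int hB hp.le hg)
      (Eventually.of_forall fun x => by positivity)]
    refine lintegral_congr fun x => ?_
    rw [hφd]
    simp only
    rw [ENNReal.ofReal_rpow_of_nonneg (by positivity) (by linarith), ← Real.rpow_natCast,
      ← Real.rpow_mul (norm_nonneg _)]
    congr 2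
    push_cast
    ring
  have hle : ∫⁻ x, ENNReal.ofReal ((S x).toReal ^ (p / 2)) ≤
      ENNReal.ofReal (((C : ℝ) + 1) * Np p g) := by
    have h1 := hC φ hφ
    calc ∫⁻ x, ENNReal.ofReal ((S x).toReal ^ (p / 2)) = ∫⁻ x, S x ^ (p / 2) := by
          refine lintegral_congr fun x => ?_
          rw [← ENNReal.ofReal_rpow_of_nonneg ENNReal.toReal_nonneg (by linarith),
            ENNReal.ofReal_toReal (hStop x)]
      _ ≤ C * ∫⁻ x, φ x ^ (p / 2) := h1
      _ = ENNReal.ofReal (C * Np p g) := by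
          rw [ENNReal.ofReal_mul (NNReal.coe_nonneg C), hφp, ENNReal.ofReal_coe_nnreal]
      _ ≤ _ := by
          apply ENNReal.ofReal_le_ofReal
          have := mpNp_nonneg p g
          nlinarith
  have hpi : 0 ≤ ((C : ℝ) + 1) * Np p g :=
    mul_nonneg (by positivity) (mpNp_nonneg _ _)
  refine ⟨fun x => (S x).toReal, ⟨hMm, fun x => ENNReal.toReal_nonneg, fun a x => ?_⟩,
    ⟨(hMm.pow_const _).aestronglyMeasurable, ?_⟩, ?_⟩
  · have e : av a (fun y => ‖iF g y‖ ^ 2) x =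
        (∫⁻ y, ENNReal.ofReal (KK ((2 : ℝ) ^ (-a)) (x - y)) * φ y).toReal := by
      unfold av
      rw [← of_av hK (hr a) (sq_int hB hg) (fun y => by positivity) x, ENNReal.toReal_ofReal]
      exact integral_nonneg fun y => mul_nonneg (kk_nonneg _ _) (by positivity)
    rw [e]
    exact ENNReal.toReal_mono (hStop x) (le_iSup (fun a : ℤ =>
      ∫⁻ y, ENNReal.ofReal (KK ((2 : ℝ) ^ (-a)) (x - y)) * φ y) a)
  · rw [hasFiniteIntegral_iff_ofReal
      (Eventually.of_forall fun x => Real.rpow_nonneg ENNReal.toReal_nonneg _)]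
    exact hle.trans_lt ENNReal.ofReal_lt_top
  · rw [integral_eq_lintegral_of_nonneg_ae
      (Eventually.of_forall fun x => Real.rpow_nonneg ENNReal.toReal_nonneg _)
      (hMm.pow_const _).aestronglyMeasurable]
    exact ENNReal.toReal_le_of_le_ofReal hpi hle

end Pool.Agent.Lib.MP_dd244f_an.Rp
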