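import Pool.Agent.Lib.MP_dd244f_an.Rp.Stmts
import Pool.Agent.Lib.MP_dd244f_an.Even.LPm
import Pool.Agent.Lib.MP_dd244f_an.Four.Ker

/-!
Full operator, all real `p`: module (Mul), multiplication by smooth bumps.
-/

set_option autoImplicit false

namespace Pool.Agent.Lib.MP_dd244f_an.Rp

open MeasureTheory Filter Topology Finset FourierTransform
open Pool.Agent.Lib.MP_dd244f_an.Joint (st ct Mst ratio)
open Pool.Agent.Lib.MP_dd244f_an.Four
open Pool.Agent.Lib.MP_dd244f_an.Even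
open Pool.Agent.Lib.MP_dd244f_an.Unif (SC)
open scoped SchwartzMap ENNReal NNReal ContDiff

namespace MulAux

/-- volume of the ball of radius `8` -/
noncomputable def V : ℝ := (volume (Metric.closedBall (0 : ℂ) 8)).toReal

lemma V_nonneg : 0 ≤ V := ENNReal.toReal_nonneg

lemma tsupp {φ : ℂ → ℂ} (h : ∀ ζ, 8 < ‖ζ‖ → φ ζ = 0) :
    tsupport φ ⊆ Metric.closedBall (0 : ℂ) 8 := by
  refine closure_minimal ?_ Metric.isClosed_closedBall
  intro ζ hζ
  rw [mem_closedBall_zero_iff]
  by_contra hc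
  exact hζ (h ζ (not_le.mp hc))

lemma csupp {φ : ℂ → ℂ} (h : ∀ ζ, 8 < ‖ζ‖ → φ ζ = 0) : HasCompactSupport φ :=
  (isCompact_closedBall (0 : ℂ) 8).of_isClosed_subset (isClosed_tsupport φ) (tsupp h)

lemma int_iter {N n : ℕ} {φ : ℂ → ℂ} {B : ℝ} (h1 : ContDiff ℝ N φ)
    (h2 : ∀ ζ, 8 < ‖ζ‖ → φ ζ = 0) (hn : n ≤ N)
    (h3 : ∀ ζ, ‖iteratedFDeriv ℝ n φ ζ‖ ≤ B) :
    Integrable (iteratedFDeriv ℝ n φ) ∧ ∫ v, ‖iteratedFDeriv ℝ n φ v‖ ≤ B * V := by
  have hc : Continuous (iteratedFDeriv ℝ n φ) :=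
    h1.continuous_iteratedFDeriv (by exact_mod_cast hn)
  have hs : HasCompactSupport (iteratedFDeriv ℝ n φ) := (csupp h2).iteratedFDeriv n
  have hi : Integrable (iteratedFDeriv ℝ n φ) := hc.integrable_of_hasCompactSupport hs
  refine ⟨hi, ?_⟩
  have e : ∫ v, ‖iteratedFDeriv ℝ n φ v‖
      = ∫ v in Metric.closedBall (0 : ℂ) 8, ‖iteratedFDeriv ℝ n φ v‖ := by
    symm
    refine setIntegral_eq_integral_of_forall_compl_eq_zero fun v hv => ?_
    have h4 : v ∉ Function.support (iteratedFDeriv ℝ n φ) := fun h5 =>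
      hv (tsupp h2 (support_iteratedFDeriv_subset n h5))
    rw [Function.notMem_support.1 h4, norm_zero]
  rw [e]
  have hfin : volume (Metric.closedBall (0 : ℂ) 8) ≠ ⊤ :=
    (isCompact_closedBall (0 : ℂ) 8).measure_lt_top.ne
  calc ∫ v in Metric.closedBall (0 : ℂ) 8, ‖iteratedFDeriv ℝ n φ v‖
      ≤ ∫ _ in Metric.closedBall (0 : ℂ) 8, B := by
        refine setIntegral_mono hi.norm.integrableOn ?_ fun v => h3 v
        exact integrableOn_const hfin
    _ = B * V := by
        rw [setIntegral_const, smul_eq_mul, mul_comm]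
        rfl

/-- decay of the Fourier transform of a bump -/
lemma decay (m : ℕ) : ∃ C : ℝ, 0 < C ∧ ∀ (B : ℝ) (φ : ℂ → ℂ), 0 ≤ B →
    ContDiff ℝ (2 * m : ℕ) φ → (∀ ζ, 8 < ‖ζ‖ → φ ζ = 0) →
    (∀ k ≤ 2 * m, ∀ ζ, ‖iteratedFDeriv ℝ k φ ζ‖ ≤ B) →
    ∀ x, ‖iF φ x‖ ≤ C * B / (1 + ‖x‖ ^ 2) ^ m := by
  set D : ℝ := 2 ^ (2 * m) * ((2 * m + 1 : ℕ) : ℝ) with hD
  refine ⟨2 ^ m * (V + 1) * (1 + D), by
    have := V_nonneg
    positivity, fun B φ hB h1 h2 h3 x => ?_⟩
  have key : ∀ n : ℕ, n ≤ 2 * m → ∀ w : ℂ, ‖w‖ ^ n * ‖𝓕 φ w‖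
      ≤ 2 ^ n * ∑ p ∈ Finset.range (n + 1), ∫ v, ‖iteratedFDeriv ℝ p φ v‖ := by
    intro n hn w
    have h4 := Real.pow_mul_norm_iteratedFDeriv_fourier_le (K := 0) (N := (2 * m : ℕ))
      (f := φ) (by exact_mod_cast h1) (fun k j hk hj => by
        have hk0 : k = 0 := by
          have : ((k : ℕ) : ℕ∞) ≤ 0 := hk
          simpa using this
        have hj' : j ≤ 2 * m := by exact_mod_cast hj
        subst hk0
        simp only [pow_zero, one_mul]
        exact (int_iter h1 h2 hj' (h3 j hj')).1.norm) (k := 0) (n := n) le_rfl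
      (by exact_mod_cast hn) w
    rw [norm_iteratedFDeriv_zero, zero_add, Finset.range_one, Finset.sum_product,
      Finset.sum_singleton] at h4
    simpa using h4
  have hsum : ∀ n : ℕ, n ≤ 2 * m →
      ∑ p ∈ Finset.range (n + 1), ∫ v, ‖iteratedFDeriv ℝ p φ v‖ ≤ ((n + 1 : ℕ) : ℝ) * (B * V) := by
    intro n hn
    calc ∑ p ∈ Finset.range (n + 1), ∫ v, ‖iteratedFDeriv ℝ p φ v‖
        ≤ ∑ _p ∈ Finset.range (n + 1), B * V := by
          refine Finset.sum_le_sum fun p hp => ?_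
          have hp' : p ≤ 2 * m := by
            have := Finset.mem_range.1 hp
            omega
          exact (int_iter h1 h2 hp' (h3 p hp')).2
      _ = _ := by rw [Finset.sum_const, Finset.card_range, nsmul_eq_mul]
  have hx : iF φ x = 𝓕 φ (-x) := iF_eq φ x
  rw [hx]
  have k0 := key 0 (by omega) (-x)
  have k1 := key (2 * m) le_rfl (-x)
  have s0 := hsum 0 (by omega)
  have s1 := hsum (2 * m) le_rfl
  rw [norm_neg] at k0 k1
  have a0 : ‖𝓕 φ (-x)‖ ≤ B * V := by
    have := k0.trans (mul_le_mul_of_nonneg_left s0 (by positivity))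
    simpa using this
  have a1 : ‖x‖ ^ (2 * m) * ‖𝓕 φ (-x)‖ ≤ D * (B * V) := by
    have := k1.trans (mul_le_mul_of_nonneg_left s1 (by positivity))
    rw [hD]
    calc _ ≤ _ := this
      _ = _ := by ring
  have a2 : (1 + ‖x‖ ^ 2) ^ m ≤ 2 ^ m * (1 + ‖x‖ ^ (2 * m)) := by
    have h5 : (1 + ‖x‖ ^ 2) ≤ 2 * max 1 (‖x‖ ^ 2) := by
      have := le_max_left 1 (‖x‖ ^ 2)
      have := le_max_right 1 (‖x‖ ^ 2)
      linarith
    calc (1 + ‖x‖ ^ 2) ^ m ≤ (2 * max 1 (‖x‖ ^ 2)) ^ m :=
          pow_le_pow_left₀ (by positivity) h5 m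
      _ = 2 ^ m * (max 1 (‖x‖ ^ 2)) ^ m := by rw [mul_pow]
      _ ≤ 2 ^ m * (1 + ‖x‖ ^ (2 * m)) := by
          refine mul_le_mul_of_nonneg_left ?_ (by positivity)
          rcases le_total 1 (‖x‖ ^ 2) with h | h
          · rw [max_eq_right h, ← pow_mul]
            linarith
          · rw [max_eq_left h, one_pow]
            have : 0 ≤ ‖x‖ ^ (2 * m) := by positivity
            linarith
  rw [le_div_iff₀ (by positivity)]
  have hV := V_nonneg
  have hD0 : 0 ≤ D := by positivity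
  calc ‖𝓕 φ (-x)‖ * (1 + ‖x‖ ^ 2) ^ m ≤ ‖𝓕 φ (-x)‖ * (2 ^ m * (1 + ‖x‖ ^ (2 * m))) :=
        mul_le_mul_of_nonneg_left a2 (norm_nonneg _)
    _ = 2 ^ m * (‖𝓕 φ (-x)‖ + ‖x‖ ^ (2 * m) * ‖𝓕 φ (-x)‖) := by ring
    _ ≤ 2 ^ m * (B * V + D * (B * V)) := by gcongr
    _ = 2 ^ m * V * (1 + D) * B := by ring
    _ ≤ 2 ^ m * (V + 1) * (1 + D) * B := by gcongr; linarith

/-- multiplier as convolution -/
theorem conv {φ : ℂ → ℂ} (h1 : Continuous φ) (h2 : HasCompactSupport φ)
    (hKi : Integrable (iF φ)) {g : ℂ → ℂ} (hg : CC g) (x : ℂ) :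
    iF (fun ζ => φ ζ * g ζ) x = ∫ y, iF φ (x - y) * iF g y := by
  have hφi : Integrable φ := h1.integrable_of_hasCompactSupport h2
  have hinv : ∀ ζ, ∫ z, ch (-z) ζ * iF φ z = φ ζ := by
    intro ζ
    have h3 : 𝓕 (𝓕⁻ φ) = φ := by
      refine h1.fourier_fourierInv_eq hφi ?_
      have h4 : (fun x => iF φ (-x)) = 𝓕 φ := by
        ext x
        rw [iF_eq, neg_neg]
      rw [← h4]
      exact hKi.comp_neg
    have h5 : iF (iF φ) (-ζ) = φ ζ := by
      have h6 : iF φ = 𝓕⁻ φ := by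
        ext z
        exact iF_eq_inv φ z
      rw [iF_eq, neg_neg]
      conv_lhs => rw [h6]
      rw [h3]
    rw [← h5]
    unfold iF
    congr 1
    ext z
    congr 1
    rw [ch_neg_left, ch_comm]
  have hprod : Integrable (fun p : ℂ × ℂ => iF φ (x - p.1) * (ch p.1 p.2 * g p.2))
      ((volume : Measure ℂ).prod volume) := by
    have h3 : Integrable (fun p : ℂ × ℂ => iF φ (x - p.1) * g p.2)
        ((volume : Measure ℂ).prod volume) := by
      exact Integrable.mul_prod (f := fun y => iF φ (x - y)) (g := g) (hKi.comp_sub_left x)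
        hg.integrable
    have h4 : Integrable (fun p : ℂ × ℂ => ch p.1 p.2 * (iF φ (x - p.1) * g p.2))
        ((volume : Measure ℂ).prod volume) := by
      refine h3.bdd_mul (c := 1) continuous_ch2.aestronglyMeasurable ?_
      exact Eventually.of_forall fun p => (norm_ch _ _).le
    refine h4.congr (Eventually.of_forall fun p => ?_)
    simp only
    ring
  calc iF (fun ζ => φ ζ * g ζ) x = ∫ ζ, ch x ζ * (φ ζ * g ζ) := rfl
    _ = ∫ ζ, ∫ y, iF φ (x - y) * (ch y ζ * g ζ) := by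
        congr 1
        ext ζ
        rw [← hinv ζ]
        have h3 : ∫ y, iF φ (x - y) * (ch y ζ * g ζ) =
            ∫ z, iF φ z * (ch (x - z) ζ * g ζ) := by
          have := integral_sub_left_eq_self (μ := (volume : Measure ℂ))
            (fun z => iF φ z * (ch (x - z) ζ * g ζ)) x
          simpa using this
        rw [h3, ← integral_mul_const, ← integral_const_mul]
        congr 1
        ext z
        have : ch (x - z) ζ = ch x ζ * ch (-z) ζ := by
          rw [sub_eq_add_neg, ch_add]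
        rw [this]
        ring
    _ = ∫ y, ∫ ζ, iF φ (x - y) * (ch y ζ * g ζ) := (integral_integral_swap hprod).symm
    _ = ∫ y, iF φ (x - y) * iF g y := by
        congr 1
        ext y
        rw [integral_const_mul]
        rfl

/-- weighted Hölder -/
lemma holder {p : ℝ} (hp : 1 < p) {w F : ℂ → ℝ≥0∞} (hw : Measurable w) (hF : Measurable F) :
    (∫⁻ y, w y * F y) ^ p ≤ (∫⁻ y, w y) ^ (p - 1) * ∫⁻ y, w y * F y ^ p := by
  have hp0 : 0 < p := by linarith
  set q : ℝ := p / (p - 1) with hq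
  have hpq : q.HolderConjugate p := by
    rw [Real.holderConjugate_comm]
    exact Real.HolderConjugate.conjExponent hp
  have hq0 : 0 < q := hpq.pos
  have h1 := ENNReal.lintegral_mul_le_Lp_mul_Lq volume hpq
    (f := fun y => w y ^ (1 / q)) (g := fun y => w y ^ (1 / p) * F y)
    (hw.pow_const _).aemeasurable ((hw.pow_const _).mul hF).aemeasurable
  have e1 : ∀ y, ((fun y => w y ^ (1 / q)) * fun y => w y ^ (1 / p) * F y) y = w y * F y := by
    intro y
    simp only [Pi.mul_apply]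
    rw [← mul_assoc, ← ENNReal.rpow_add_of_nonneg _ _ (by positivity) (by positivity)]
    have : 1 / q + 1 / p = 1 := by
      have := hpq.inv_add_inv_eq_one
      rw [one_div, one_div]
      exact this
    rw [this, ENNReal.rpow_one]
  have e2 : ∀ y, (w y ^ (1 / q)) ^ q = w y := by
    intro y
    rw [← ENNReal.rpow_mul, one_div, inv_mul_cancel₀ hq0.ne', ENNReal.rpow_one]
  have e3 : ∀ y, (w y ^ (1 / p) * F y) ^ p = w y * F y ^ p := by
    intro y
    rw [ENNReal.mul_rpow_of_nonneg _ _ hp0.le, ← ENNReal.rpow_mul, one_div,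
      inv_mul_cancel₀ hp0.ne', ENNReal.rpow_one]
  simp only [e1, e2, e3] at h1
  calc (∫⁻ y, w y * F y) ^ p
      ≤ ((∫⁻ y, w y) ^ (1 / q) * (∫⁻ y, w y * F y ^ p) ^ (1 / p)) ^ p :=
        ENNReal.rpow_le_rpow h1 hp0.le
    _ = (∫⁻ y, w y) ^ (p - 1) * ∫⁻ y, w y * F y ^ p := by
        rw [ENNReal.mul_rpow_of_nonneg _ _ hp0.le, ← ENNReal.rpow_mul, ← ENNReal.rpow_mul,
          one_div p, inv_mul_cancel₀ hp0.ne', ENNReal.rpow_one]
        congr 2
        rw [hq]
        have : p - 1 ≠ 0 := by linarith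
        field_simp

lemma cc_int (hB : Four.StmtBase) {p : ℝ} (hp : 2 ≤ p) {g : ℂ → ℂ} (hg : CC g) :
    Integrable (fun x => ‖iF g x‖ ^ p) := by
  obtain ⟨hc, ⟨B, hBd⟩, hi, -⟩ := hB.1 g hg
  have hB0 : 0 ≤ B := (norm_nonneg _).trans (hBd 0)
  refine (hi.const_mul (B ^ (p - 2))).mono'
    (hc.norm.rpow_const fun x => Or.inr (by linarith)).aestronglyMeasurable
    (Eventually.of_forall fun x => ?_)
  rw [Real.norm_eq_abs, abs_of_nonneg (by positivity)]
  rcases eq_or_lt_of_le (norm_nonneg (iF g x)) with h | h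
  · rw [← h, Real.zero_rpow (by linarith)]
    positivity
  · have e : ‖iF g x‖ ^ p = ‖iF g x‖ ^ (p - 2) * ‖iF g x‖ ^ 2 := by
      rw [← Real.rpow_natCast ‖iF g x‖ 2, ← Real.rpow_add h]
      congr 1
      push_cast
      ring
    rw [e]
    exact mul_le_mul_of_nonneg_right
      (Real.rpow_le_rpow (norm_nonneg _) (hBd x) (by linarith)) (by positivity)

lemma np_ofReal (hB : Four.StmtBase) {p : ℝ} (hp : 2 ≤ p) {g : ℂ → ℂ} (hg : CC g) :
    ENNReal.ofReal (Np p g) = ∫⁻ x, ENNReal.ofReal ‖iF g x‖ ^ p := by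
  unfold Np
  rw [ofReal_integral_eq_lintegral_ofReal (cc_int hB hp hg)
    (Eventually.of_forall fun x => by positivity)]
  refine lintegral_congr fun x => ?_
  rw [ENNReal.ofReal_rpow_of_nonneg (norm_nonneg _) (by linarith)]

end MulAux

open MulAux

/-- (Mul) smooth bumps -/
theorem mul (hB : Four.StmtBase) : StmtMul := by
  intro m hm
  obtain ⟨C, hC, hd⟩ := decay m
  refine ⟨C ^ 2 * Real.pi + C * Real.pi, by positivity, fun a B ψ hB0 hψ g hg => ?_⟩
  have hpi := Real.pi_pos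
  obtain ⟨hψ1, hψ2, hψ3⟩ := hψ
  set R : ℝ := (2 : ℝ) ^ a with hR
  have hR0 : 0 < R := by positivity
  have hRi : R⁻¹ = (2 : ℝ) ^ (-a) := by rw [hR, zpow_neg]
  set φ : ℂ → ℂ := fun ζ => ψ (R • ζ) with hφ
  have hψφ : (fun ζ => φ (R⁻¹ • ζ)) = ψ := by
    funext ζ
    rw [hφ]
    simp only
    rw [smul_smul, mul_inv_cancel₀ hR0.ne', one_smul]
  have hφ1 : ContDiff ℝ (2 * m : ℕ) φ := hψ1.comp (contDiff_const_smul R)
  have hφ2 : ∀ ζ, 8 < ‖ζ‖ → φ ζ = 0 := by
    intro ζ hζ
    refine hψ2 _ ?_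
    rw [norm_smul, Real.norm_eq_abs, abs_of_pos hR0]
    nlinarith
  have hφ3 : ∀ k ≤ 2 * m, ∀ ζ, ‖iteratedFDeriv ℝ k φ ζ‖ ≤ B := by
    intro k hk ζ
    have h1 : iteratedFDeriv ℝ k φ ζ = R ^ k • iteratedFDeriv ℝ k ψ (R • ζ) := by
      have h2 : ContDiff ℝ k ψ := hψ1.of_le (by exact_mod_cast hk)
      have := congrFun (iteratedFDeriv_comp_const_smul R h2) ζ
      simpa [hφ] using this
    rw [h1, norm_smul, Real.norm_eq_abs, abs_of_pos (by positivity)]
    calc R ^ k * ‖iteratedFDeriv ℝ k ψ (R • ζ)‖ ≤ R ^ k * (B * (2 : ℝ) ^ (-(k * a : ℤ))) :=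
          mul_le_mul_of_nonneg_left (hψ3 k hk _) (by positivity)
      _ = B := by
          have : R ^ k * (2 : ℝ) ^ (-(k * a : ℤ)) = 1 := by
            rw [hR, ← zpow_natCast, ← zpow_mul, ← zpow_add₀ (by norm_num)]
            rw [show a * (k : ℤ) + -((k : ℤ) * a) = 0 by ring, zpow_zero]
          calc R ^ k * (B * (2 : ℝ) ^ (-(k * a : ℤ)))
              = B * (R ^ k * (2 : ℝ) ^ (-(k * a : ℤ))) := by ring
            _ = B := by rw [this, mul_one]
  have hkφ := hd B φ hB0 hφ1 hφ2 hφ3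
  have hker : ∀ z, ‖iF ψ z‖ ≤ C * B * KKm m ((2 : ℝ) ^ (-a)) z := by
    intro z
    have h1 := LPmAux.ker_le m hm (C * B) (iF φ) hkφ R hR0 z
    rw [← ker_scale φ hR0 z, hψφ, hRi] at h1
    exact h1
  set ρ : ℝ := (2 : ℝ) ^ (-a) with hρ
  have hρ0 : 0 < ρ := by positivity
  have hψc : Continuous ψ := hψ1.continuous
  have hψs : HasCompactSupport ψ := by
    rw [← hψφ]
    exact (csupp hφ2).comp_smul (inv_ne_zero hR0.ne')
  have hψi : Integrable ψ := hψc.integrable_of_hasCompactSupport hψs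
  obtain ⟨hKi, hKv, -⟩ := Four.kk.1 ρ hρ0
  have hKmi : Integrable (KKm m ρ) := by
    refine hKi.mono' (LPmAux.kkm_cont m ρ hρ0).aestronglyMeasurable ?_
    refine Eventually.of_forall fun y => ?_
    rw [Real.norm_eq_abs, abs_of_nonneg (LPmAux.kkm_nonneg m ρ hρ0 _)]
    exact LPmAux.kkm_le_kk m hm ρ hρ0 _
  have hKmv : ∫ y, KKm m ρ y ≤ Real.pi := by
    rw [← hKv]
    exact integral_mono hKmi hKi fun y => LPmAux.kkm_le_kk m hm ρ hρ0 y
  have hiFi : Integrable (iF ψ) := by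
    refine (hKmi.const_mul (C * B)).mono' (iF_continuous hψi).aestronglyMeasurable ?_
    exact Eventually.of_forall fun z => hker z
  obtain ⟨hc, ⟨Bd, hBd⟩, -⟩ := hB.1 g hg
  have hCC : CC (fun ζ => ψ ζ * g ζ) := ⟨hψc.mul hg.1, hg.2.mul_left⟩
  have hw : ∀ x, Integrable (fun y => KKm m ρ (x - y)) := fun x => hKmi.comp_sub_left x
  have hwm : ∀ x, ∫ y, KKm m ρ (x - y) ≤ Real.pi := by
    intro x
    rw [integral_sub_left_eq_self (fun y => KKm m ρ y) volume x]
    exact hKmv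
  have hi1 : ∀ x, Integrable (fun y => KKm m ρ (x - y) * ‖iF g y‖) := by
    intro x
    refine (hw x).mul_bdd (c := Bd) hc.norm.aestronglyMeasurable ?_
    exact Eventually.of_forall fun y => by simpa using hBd y
  have hpt : ∀ x, ‖iF (fun ζ => ψ ζ * g ζ) x‖
      ≤ C * B * ∫ y, KKm m ρ (x - y) * ‖iF g y‖ := by
    intro x
    rw [MulAux.conv hψc hψs hiFi hg x, ← integral_const_mul]
    refine norm_integral_le_of_norm_le ((hi1 x).const_mul _) (Eventually.of_forall fun y => ?_)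
    rw [norm_mul, ← mul_assoc]
    exact mul_le_mul_of_nonneg_right (hker _) (norm_nonneg _)
  refine ⟨fun x => ?_, fun p hp => ?_⟩
  · have h1 := LPmAux.cs_weight (fun y => KKm m ρ (x - y)) (fun y => ‖iF g y‖) Real.pi
      Real.pi_pos (hw x) (hwm x) (fun y => LPmAux.kkm_nonneg _ _ hρ0 _) hc.norm Bd
      (fun y => by simpa using hBd y)
    have h0 : 0 ≤ ∫ y, KKm m ρ (x - y) * ‖iF g y‖ ^ 2 :=
      integral_nonneg fun y => mul_nonneg (LPmAux.kkm_nonneg _ _ hρ0 _) (by positivity)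
    calc ‖iF (fun ζ => ψ ζ * g ζ) x‖ ^ 2
        ≤ (C * B * ∫ y, KKm m ρ (x - y) * ‖iF g y‖) ^ 2 :=
          pow_le_pow_left₀ (norm_nonneg _) (hpt x) 2
      _ = (C * B) ^ 2 * (∫ y, KKm m ρ (x - y) * ‖iF g y‖) ^ 2 := by ring
      _ ≤ (C * B) ^ 2 * (Real.pi * ∫ y, KKm m ρ (x - y) * ‖iF g y‖ ^ 2) :=
          mul_le_mul_of_nonneg_left h1 (by positivity)
      _ = C ^ 2 * Real.pi * (B ^ 2 * ∫ y, KKm m ρ (x - y) * ‖iF g y‖ ^ 2) := by ring
      _ ≤ (C ^ 2 * Real.pi + C * Real.pi) * (B ^ 2 * ∫ y, KKm m ρ (x - y) * ‖iF g y‖ ^ 2) := by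
          refine mul_le_mul_of_nonneg_right ?_ (by positivity)
          have : 0 < C * Real.pi := by positivity
          linarith
      _ = _ := by ring
  · have hp0 : 0 < p := by linarith
    have hNp0 : ∀ h : ℂ → ℂ, 0 ≤ Np p h := fun h => integral_nonneg fun x => by positivity
    set w : ℂ → ℝ≥0∞ := fun y => ENNReal.ofReal (KKm m ρ y) with hwdef
    have hwm' : Measurable w := (LPmAux.kkm_cont m ρ hρ0).measurable.ennreal_ofReal
    have hwtot : ∫⁻ y, w y ≤ ENNReal.ofReal Real.pi := by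
      rw [hwdef, ← ofReal_integral_eq_lintegral_ofReal hKmi
        (Eventually.of_forall fun y => LPmAux.kkm_nonneg m ρ hρ0 y)]
      exact ENNReal.ofReal_le_ofReal hKmv
    have hwx : ∀ x, ∫⁻ y, w (x - y) = ∫⁻ y, w y := fun x =>
      lintegral_sub_left_eq_self w x
    set F : ℂ → ℝ≥0∞ := fun y => ENNReal.ofReal ‖iF g y‖ with hFdef
    have hFm : Measurable F := hc.norm.measurable.ennreal_ofReal
    have hpt' : ∀ x, ENNReal.ofReal ‖iF (fun ζ => ψ ζ * g ζ) x‖
        ≤ ENNReal.ofReal (C * B) * ∫⁻ y, w (x - y) * F y := by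
      intro x
      have h1 : ∫⁻ y, w (x - y) * F y
          = ENNReal.ofReal (∫ y, KKm m ρ (x - y) * ‖iF g y‖) := by
        rw [ofReal_integral_eq_lintegral_ofReal (hi1 x) (Eventually.of_forall fun y =>
          mul_nonneg (LPmAux.kkm_nonneg m ρ hρ0 _) (norm_nonneg _))]
        refine lintegral_congr fun y => ?_
        rw [hwdef, hFdef]
        simp only
        rw [ENNReal.ofReal_mul (LPmAux.kkm_nonneg m ρ hρ0 _)]
      rw [h1, ← ENNReal.ofReal_mul (by positivity)]
      exact ENNReal.ofReal_le_ofReal (hpt x)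
    have hmain : ENNReal.ofReal (Np p (fun ζ => ψ ζ * g ζ))
        ≤ ENNReal.ofReal ((C * B * Real.pi) ^ p * Np p g) := by
      rw [np_ofReal hB hp hCC]
      calc ∫⁻ x, ENNReal.ofReal ‖iF (fun ζ => ψ ζ * g ζ) x‖ ^ p
          ≤ ∫⁻ x, ENNReal.ofReal (C * B) ^ p *
              (ENNReal.ofReal Real.pi ^ (p - 1) * ∫⁻ y, w (x - y) * F y ^ p) := by
            refine lintegral_mono fun x => ?_
            calc ENNReal.ofReal ‖iF (fun ζ => ψ ζ * g ζ) x‖ ^ p
                ≤ (ENNReal.ofReal (C * B) * ∫⁻ y, w (x - y) * F y) ^ p :=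
                  ENNReal.rpow_le_rpow (hpt' x) hp0.le
              _ = ENNReal.ofReal (C * B) ^ p * (∫⁻ y, w (x - y) * F y) ^ p :=
                  ENNReal.mul_rpow_of_nonneg _ _ hp0.le
              _ ≤ ENNReal.ofReal (C * B) ^ p *
                  ((∫⁻ y, w (x - y)) ^ (p - 1) * ∫⁻ y, w (x - y) * F y ^ p) := by
                  gcongr
                  exact holder (by linarith) (hwm'.comp (measurable_const.sub measurable_id)) hFm
              _ ≤ _ := by
                  gcongr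
                  · linarith
                  · rw [hwx x]
                    exact hwtot
        _ = ENNReal.ofReal (C * B) ^ p * (ENNReal.ofReal Real.pi ^ (p - 1) *
              ∫⁻ x, ∫⁻ y, w (x - y) * F y ^ p) := by
            have hmeas : Measurable fun x => ∫⁻ y, w (x - y) * F y ^ p := by
              refine Measurable.lintegral_prod_right' (f := fun z : ℂ × ℂ =>
                w (z.1 - z.2) * F z.2 ^ p) ?_
              exact (hwm'.comp (measurable_fst.sub measurable_snd)).mul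
                ((hFm.comp measurable_snd).pow_const p)
            rw [lintegral_const_mul _ (hmeas.const_mul _), lintegral_const_mul _ hmeas]
        _ = ENNReal.ofReal (C * B) ^ p * (ENNReal.ofReal Real.pi ^ (p - 1) *
              ((∫⁻ y, w y) * ∫⁻ y, F y ^ p)) := by
            congr 2
            rw [lintegral_lintegral_swap]
            · have h1 : ∀ y, ∫⁻ x, w (x - y) * F y ^ p = (∫⁻ y, w y) * F y ^ p := by
                intro y
                have hm' : Measurable fun x => w (x - y) :=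
                  hwm'.comp (measurable_id.sub measurable_const)
                rw [lintegral_mul_const _ hm', lintegral_sub_right_eq_self w y]
              simp only [h1]
              rw [lintegral_const_mul _ (hFm.pow_const p)]
            · exact ((hwm'.comp (measurable_fst.sub measurable_snd)).mul
                ((hFm.comp measurable_snd).pow_const p)).aemeasurable
        _ ≤ ENNReal.ofReal (C * B) ^ p * (ENNReal.ofReal Real.pi ^ (p - 1) *
              (ENNReal.ofReal Real.pi * ∫⁻ y, F y ^ p)) := by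
            gcongr
        _ = ENNReal.ofReal ((C * B * Real.pi) ^ p * Np p g) := by
            have hCB : 0 ≤ C * B := by positivity
            have hCBp : 0 ≤ (C * B * Real.pi) ^ p := by positivity
            rw [ENNReal.ofReal_mul hCBp, np_ofReal hB hp hg,
              ← ENNReal.ofReal_rpow_of_nonneg (by positivity) hp0.le,
              ENNReal.ofReal_mul hCB,
              ENNReal.mul_rpow_of_nonneg _ _ hp0.le]
            have e1 : ENNReal.ofReal Real.pi ^ p
                = ENNReal.ofReal Real.pi ^ (p - 1) * ENNReal.ofReal Real.pi := by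
              conv_lhs => rw [show p = (p - 1) + 1 by ring]
              rw [ENNReal.rpow_add_of_nonneg _ _ (by linarith) (by norm_num), ENNReal.rpow_one]
            rw [e1]
            ring
    have h2 := (ENNReal.ofReal_le_ofReal_iff (mul_nonneg (by positivity) (hNp0 g))).1 hmain
    refine h2.trans (mul_le_mul_of_nonneg_right ?_ (hNp0 g))
    refine Real.rpow_le_rpow (by positivity) ?_ hp0.le
    have h3 : 0 ≤ C ^ 2 * Real.pi * B := by positivity
    nlinarith

end Pool.Agent.Lib.MP_dd244f_an.Rp
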