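import Pool.Agent.Lib.MP_dd244f_an.Rp.Stmts

/-!
Module (Pow): calculus of `|u|^p`, `p > 2`.
-/

set_option autoImplicit false

namespace Pool.Agent.Lib.MP_dd244f_an.Rp

open MeasureTheory Filter Topology Finset Asymptotics
open scoped ContDiff

namespace PowAux

theorem innerSL_eq (u : ℂ) : (innerSL ℝ u : ℂ →L[ℝ] ℝ) =
    u.re • Complex.reCLM + u.im • Complex.imCLM := by
  ext v
  simp [Complex.inner]
  ring

theorem innerSL_ap (u v : ℂ) : (innerSL ℝ u : ℂ →L[ℝ] ℝ) v = u.re * v.re + u.im * v.im := by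
  rw [innerSL_eq]; simp

/-- the derivative of `‖x‖^q L x` -/
noncomputable def D (q : ℝ) (L : ℂ →L[ℝ] ℝ) (u : ℂ) : ℂ →L[ℝ] ℝ :=
  ‖u‖ ^ q • L + (L u * (q * ‖u‖ ^ (q - 2))) • (innerSL ℝ u : ℂ →L[ℝ] ℝ)

theorem hasH {q : ℝ} (hq : 0 < q) (L : ℂ →L[ℝ] ℝ) (u : ℂ) :
    HasFDerivAt (fun x : ℂ => ‖x‖ ^ q * L x) (D q L u) u := by
  unfold D
  by_cases hu : u = 0
  · subst hu
    simp only [norm_zero, map_zero, zero_mul, zero_smul, add_zero, Real.zero_rpow hq.ne']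
    refine .of_isLittleO ?_
    have h1 : (fun x : ℂ => ‖x‖ ^ q) =o[𝓝 0] (fun _ : ℂ => (1 : ℝ)) := by
      rw [isLittleO_const_iff (by norm_num)]
      have : ContinuousAt (fun x : ℂ => ‖x‖ ^ q) 0 :=
        continuousAt_id.norm.rpow_const (Or.inr hq.le)
      simpa [ContinuousAt, Real.zero_rpow hq.ne'] using this
    have h2 : (fun x : ℂ => L x) =O[𝓝 0] (fun x : ℂ => x) := L.isBigO_id _
    have h3 := h1.mul_isBigO h2.norm_right
    refine IsLittleO.of_norm_right ?_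
    refine (h3.congr_left ?_).congr_right ?_
    · intro x; simp [Real.zero_rpow hq.ne']
    · intro x; simp
  · have h1 : HasFDerivAt (fun x : ℂ => ‖x‖ ^ q)
        ((q * ‖u‖ ^ (q - 2)) • (innerSL ℝ u : ℂ →L[ℝ] ℝ)) u := by
      apply HasStrictFDerivAt.hasFDerivAt
      convert! (hasStrictFDerivAt_norm_sq u).rpow_const (p := q / 2) (by simp [hu]) using 0
      simp_rw [← Real.rpow_natCast_mul (norm_nonneg _), ← Nat.cast_smul_eq_nsmul ℝ, smul_smul]
      ring_nf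
    have h2 : HasFDerivAt (fun x : ℂ => ‖x‖ ^ q * L x)
        (‖u‖ ^ q • L + L u • ((q * ‖u‖ ^ (q - 2)) • (innerSL ℝ u : ℂ →L[ℝ] ℝ))) u :=
      h1.mul L.hasFDerivAt
    rw [smul_smul] at h2
    exact h2

theorem cont_D {q : ℝ} (hq : 0 < q) (L : ℂ →L[ℝ] ℝ) : Continuous (D q L) := by
  rw [continuous_iff_continuousAt]
  intro u
  unfold D
  refine ContinuousAt.add ?_ ?_
  · exact (continuousAt_id.norm.rpow_const (Or.inr hq.le)).smul continuousAt_const
  · by_cases hu : u = 0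
    · subst hu
      rw [ContinuousAt]
      simp only [map_zero, smul_zero]
      rw [tendsto_zero_iff_norm_tendsto_zero]
      have h1 : Tendsto (fun x : ℂ => ‖L‖ * q * ‖x‖ ^ q) (𝓝 0) (𝓝 0) := by
        have : ContinuousAt (fun x : ℂ => ‖L‖ * q * ‖x‖ ^ q) 0 :=
          continuousAt_const.mul (continuousAt_id.norm.rpow_const (Or.inr hq.le))
        simpa [ContinuousAt, Real.zero_rpow hq.ne'] using this
      refine squeeze_zero (fun _ => norm_nonneg _) (fun x => ?_) h1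
      rw [norm_smul, innerSL_apply_norm, norm_mul, norm_mul, Real.norm_of_nonneg hq.le,
        Real.norm_of_nonneg (Real.rpow_nonneg (norm_nonneg _) _)]
      by_cases hx : x = 0
      · subst hx; simp [Real.zero_rpow hq.ne']
      · have h2 : ‖L x‖ ≤ ‖L‖ * ‖x‖ := L.le_opNorm x
        have hx0 : 0 < ‖x‖ := norm_pos_iff.2 hx
        have h3 : ‖x‖ ^ q = ‖x‖ ^ (q - 2) * ‖x‖ * ‖x‖ := by
          rw [mul_assoc, ← pow_two, ← Real.rpow_natCast, ← Real.rpow_add hx0]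
          norm_num
        rw [h3]
        have h4 : 0 ≤ ‖x‖ ^ (q - 2) := Real.rpow_nonneg (norm_nonneg _) _
        calc ‖L x‖ * (q * ‖x‖ ^ (q - 2)) * ‖x‖ ≤ (‖L‖ * ‖x‖) * (q * ‖x‖ ^ (q - 2)) * ‖x‖ := by
              gcongr
          _ = ‖L‖ * q * (‖x‖ ^ (q - 2) * ‖x‖ * ‖x‖) := by ring
    · have h1 : ContinuousAt (fun x : ℂ => ‖x‖ ^ (q - 2)) u :=
        continuousAt_id.norm.rpow_const (Or.inl (by simpa using hu))
      have h2 : ContinuousAt (fun x : ℂ => L x) u := L.continuous.continuousAt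
      have h3 : ContinuousAt (fun x : ℂ => (innerSL ℝ x : ℂ →L[ℝ] ℝ)) u :=
        (innerSL ℝ (E := ℂ)).continuous.continuousAt
      exact (h2.mul (continuousAt_const.mul h1)).smul h3

theorem contH {q : ℝ} (hq : 0 < q) (L : ℂ →L[ℝ] ℝ) :
    ContDiff ℝ 1 (fun x : ℂ => ‖x‖ ^ q * L x) := by
  rw [contDiff_one_iff_fderiv]
  refine ⟨fun x => (hasH hq L x).differentiableAt, ?_⟩
  have : fderiv ℝ (fun x : ℂ => ‖x‖ ^ q * L x) = D q L := funext fun x => (hasH hq L x).fderiv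
  rw [this]
  exact cont_D hq L

theorem fd {p : ℝ} (hp : 2 < p) (u : ℂ) : fderiv ℝ (fun u : ℂ => ‖u‖ ^ p) u =
    (p * ‖u‖ ^ (p - 2)) • (innerSL ℝ u : ℂ →L[ℝ] ℝ) :=
  fderiv_norm_rpow u (by linarith)

theorem fd_ap {p : ℝ} (hp : 2 < p) (u v : ℂ) : fderiv ℝ (fun u : ℂ => ‖u‖ ^ p) u v =
    p * ‖u‖ ^ (p - 2) * (u.re * v.re + u.im * v.im) := by
  rw [fd hp, ContinuousLinearMap.smul_apply, innerSL_ap, smul_eq_mul]

theorem sq_norm (v : ℂ) : ‖v‖ ^ 2 = v.re * v.re + v.im * v.im := by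
  rw [← Complex.normSq_eq_norm_sq, Complex.normSq_apply]

end PowAux

open PowAux in
theorem pow : StmtPow := by
  intro p hp
  have hq : 0 < p - 2 := by linarith
  refine ⟨?_, fun u v => fd_ap hp u v, ?_, ?_⟩
  · have e : (2 : ℕ∞ω) = 1 + 1 := by norm_num
    rw [e, contDiff_succ_iff_fderiv]
    refine ⟨differentiable_norm_rpow (by linarith), by simp, ?_⟩
    have h1 : fderiv ℝ (fun u : ℂ => ‖u‖ ^ p) = fun u : ℂ =>
        p • ((‖u‖ ^ (p - 2) * Complex.reCLM u) • Complex.reCLM +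
          (‖u‖ ^ (p - 2) * Complex.imCLM u) • Complex.imCLM) := by
      funext u
      rw [fd hp, innerSL_eq]
      ext v <;> simp <;> ring
    rw [h1]
    exact ContDiff.const_smul p
      (((contH hq _).smul contDiff_const).add ((contH hq _).smul contDiff_const))
  · intro u v
    set L : ℂ →L[ℝ] ℝ := v.re • Complex.reCLM + v.im • Complex.imCLM with hL
    have hLx : ∀ x : ℂ, L x = x.re * v.re + x.im * v.im := by
      intro x; simp [hL]; ring
    have h1 : (fun w : ℂ => fderiv ℝ (fun u : ℂ => ‖u‖ ^ p) w v) =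
        fun w : ℂ => p * (‖w‖ ^ (p - 2) * L w) := by
      funext w
      rw [fd_ap hp, hLx]; ring
    rw [h1]
    have h2 := (hasH hq L u).const_mul p
    rw [h2.fderiv]
    unfold D Qf
    simp only [ContinuousLinearMap.smul_apply, ContinuousLinearMap.add_apply, smul_eq_mul,
      innerSL_ap]
    rw [hLx, hLx, sq_norm]
    have e4 : p - 2 - 2 = p - 4 := by ring
    rw [e4]; ring
  · intro u v
    have hN : 0 ≤ ‖u‖ ^ (p - 2) := Real.rpow_nonneg (norm_nonneg _) _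
    have hM : 0 ≤ ‖u‖ ^ (p - 4) := Real.rpow_nonneg (norm_nonneg _) _
    have key : ‖u‖ ^ (p - 4) * ‖u‖ ^ 2 = ‖u‖ ^ (p - 2) := by
      by_cases hu : u = 0
      · subst hu; simp [Real.zero_rpow hq.ne']
      · have hu0 : 0 < ‖u‖ := norm_pos_iff.2 hu
        rw [← Real.rpow_natCast, ← Real.rpow_add hu0]
        congr 1; push_cast; ring
    have cs : (u.re * v.re + u.im * v.im) ^ 2 + (u.re * v.im - u.im * v.re) ^ 2 =
        ‖u‖ ^ 2 * ‖v‖ ^ 2 := by
      rw [sq_norm, sq_norm]; ring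
    unfold Qf
    refine ⟨?_, ?_, ?_⟩
    · have : 0 ≤ p * (p - 2) * ‖u‖ ^ (p - 4) * (u.re * v.re + u.im * v.im) ^ 2 := by positivity
      linarith
    · have h1 : p * (p - 2) * ‖u‖ ^ (p - 4) * (u.re * v.re + u.im * v.im) ^ 2 ≤
          p * (p - 2) * ‖u‖ ^ (p - 4) * (‖u‖ ^ 2 * ‖v‖ ^ 2) := by
        refine mul_le_mul_of_nonneg_left ?_ (by positivity)
        nlinarith [sq_nonneg (u.re * v.im - u.im * v.re)]
      have h2 : p * (p - 2) * ‖u‖ ^ (p - 4) * (‖u‖ ^ 2 * ‖v‖ ^ 2) =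
          p * (p - 2) * ‖u‖ ^ (p - 2) * ‖v‖ ^ 2 := by rw [← key]; ring
      calc _ ≤ p * ‖u‖ ^ (p - 2) * ‖v‖ ^ 2 + p * (p - 2) * ‖u‖ ^ (p - 2) * ‖v‖ ^ 2 := by linarith
        _ = _ := by ring
    · have h3 : ‖Complex.I * v‖ = ‖v‖ := by simp
      have h4 : (Complex.I * v).re = -v.im := by simp
      have h5 : (Complex.I * v).im = v.re := by simp
      rw [h3, h4, h5]
      have h6 : p * (p - 2) * ‖u‖ ^ (p - 4) * (u.re * v.re + u.im * v.im) ^ 2 +
          p * (p - 2) * ‖u‖ ^ (p - 4) * (u.re * -v.im + u.im * v.re) ^ 2 =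
          p * (p - 2) * ‖u‖ ^ (p - 2) * ‖v‖ ^ 2 := by
        rw [← key]
        have : (u.re * v.re + u.im * v.im) ^ 2 + (u.re * -v.im + u.im * v.re) ^ 2 =
          ‖u‖ ^ 2 * ‖v‖ ^ 2 := by rw [← cs]; ring
        calc _ = p * (p - 2) * ‖u‖ ^ (p - 4) *
            ((u.re * v.re + u.im * v.im) ^ 2 + (u.re * -v.im + u.im * v.re) ^ 2) := by ring
          _ = _ := by rw [this]; ring
      linear_combination h6

end Pool.Agent.Lib.MP_dd244f_an.Rp
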