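import Pool.Agent.Lib.MP_dd244f_an.Rp.Stmts

/-!
Module (Psi): calculus of `Psi` (blueprint: team-store `dd244f_real_blueprint.md`).
-/

set_option autoImplicit false

namespace Pool.Agent.Lib.MP_dd244f_an.Rp

open MeasureTheory Filter Topology
open Pool.Agent.Lib.MP_dd244f_an.Four
open Pool.Agent.Lib.MP_dd244f_an.Even
open Pool.Agent.Lib.MP_dd244f_an.Unif (SC)
open scoped SchwartzMap ContDiff

namespace PsiM

/-- integrable weight -/
noncomputable def wx (x : ℂ) : ℝ := ((1 + ‖x‖ ^ 2) ^ 2)⁻¹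

theorem wx_int : Integrable wx := by
  have h := integrable_rpow_neg_one_add_norm_sq (E := ℂ) (μ := volume) (r := 4)
    (by rw [Complex.finrank_real_complex]; norm_num)
  refine h.congr (Eventually.of_forall fun x => ?_)
  unfold wx
  have h0 : (0 : ℝ) ≤ 1 + ‖x‖ ^ 2 := by positivity
  show (1 + ‖x‖ ^ 2) ^ (-(4 : ℝ) / 2) = _
  have e : (-(4 : ℝ) / 2) = -((2 : ℕ) : ℝ) := by norm_num
  rw [e, Real.rpow_neg h0, Real.rpow_natCast]

theorem wx_nonneg (x : ℂ) : 0 ≤ wx x := by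
  unfold wx
  positivity

/-- domination by the integrable weight -/
def B2 {X : Type} [NormedAddCommGroup X] (H : ℝ × ℂ → ℂ → X) : Prop :=
  ∀ s₀ : ℝ, ∃ C : ℝ, 0 < C ∧ ∀ (z : ℝ × ℂ) (x : ℂ), |z.1| ≤ s₀ →
    ‖H z x‖ ≤ C * Real.exp (C * ‖z.2‖) * wx x

/-- domination by the square root of the integrable weight -/
def B1 {X : Type} [NormedAddCommGroup X] (H : ℝ × ℂ → ℂ → X) : Prop :=
  ∀ s₀ : ℝ, ∃ C : ℝ, 0 < C ∧ ∀ (z : ℝ × ℂ) (x : ℂ), |z.1| ≤ s₀ →
    ‖H z x‖ ≤ C * Real.exp (C * ‖z.2‖) * (1 + ‖x‖ ^ 2)⁻¹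

theorem B2.loc {X : Type} [NormedAddCommGroup X] {H : ℝ × ℂ → ℂ → X} (h : B2 H) (z₀ : ℝ × ℂ) :
    ∃ C : ℝ, ∀ z ∈ Metric.ball z₀ 1, ∀ x, ‖H z x‖ ≤ C * wx x := by
  obtain ⟨C, hC, hb⟩ := h (|z₀.1| + 1)
  refine ⟨C * Real.exp (C * (‖z₀.2‖ + 1)), ?_⟩
  intro z hz x
  have hz' : ‖z - z₀‖ < 1 := by
    rwa [Metric.mem_ball, dist_eq_norm] at hz
  have h1 : |z.1 - z₀.1| < 1 := lt_of_le_of_lt (norm_fst_le (z - z₀)) hz'
  have h2 : ‖z.2 - z₀.2‖ < 1 := lt_of_le_of_lt (norm_snd_le (z - z₀)) hz'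
  have h3 : |z.1| ≤ |z₀.1| + 1 := by
    have := abs_sub_abs_le_abs_sub z.1 z₀.1
    linarith
  have h4 : ‖z.2‖ ≤ ‖z₀.2‖ + 1 := by
    have := norm_sub_norm_le z.2 z₀.2
    linarith
  refine (hb z x h3).trans ?_
  apply mul_le_mul_of_nonneg_right _ (wx_nonneg x)
  apply mul_le_mul_of_nonneg_left _ hC.le
  apply Real.exp_le_exp.2
  exact mul_le_mul_of_nonneg_left h4 hC.le

theorem B2.integrable {X : Type} [NormedAddCommGroup X] {H : ℝ × ℂ → ℂ → X} (h : B2 H) (z : ℝ × ℂ)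
    (hc : Continuous (H z)) : Integrable (H z) := by
  obtain ⟨C, hb⟩ := h.loc z
  refine (wx_int.const_mul C).mono' hc.aestronglyMeasurable (Eventually.of_forall fun x => ?_)
  exact hb z (Metric.mem_ball_self one_pos) x

theorem B2.cont {X : Type} [NormedAddCommGroup X] [NormedSpace ℝ X] [CompleteSpace X]
    {H : ℝ × ℂ → ℂ → X} (h : B2 H)
    (h2 : ∀ z, Continuous (H z)) (h3 : ∀ x, Continuous (fun z => H z x)) :
    Continuous (fun z => ∫ x, H z x) := by
  rw [continuous_iff_continuousAt]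
  intro z₀
  obtain ⟨C, hb⟩ := h.loc z₀
  refine continuousAt_of_dominated (bound := fun x => C * wx x) ?_ ?_ (wx_int.const_mul C) ?_
  · exact Eventually.of_forall fun z => (h2 z).aestronglyMeasurable
  · filter_upwards [Metric.ball_mem_nhds z₀ one_pos] with z hz
    exact Eventually.of_forall fun x => hb z hz x
  · exact Eventually.of_forall fun x => (h3 x).continuousAt

theorem B2.bound {X : Type} [NormedAddCommGroup X] [NormedSpace ℝ X] {H : ℝ × ℂ → ℂ → X}
    (h : B2 H) (s₀ : ℝ) : ∃ C : ℝ, 0 < C ∧ ∀ z : ℝ × ℂ, |z.1| ≤ s₀ →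
      ‖∫ x, H z x‖ ≤ C * Real.exp (C * ‖z.2‖) := by
  obtain ⟨C, hC, hb⟩ := h s₀
  set W : ℝ := ∫ x, wx x with hW
  have hW0 : 0 ≤ W := integral_nonneg wx_nonneg
  refine ⟨C * W + C, by positivity, ?_⟩
  intro z hz
  calc ‖∫ x, H z x‖ ≤ ∫ x, C * Real.exp (C * ‖z.2‖) * wx x := by
        apply norm_integral_le_of_norm_le (wx_int.const_mul _)
        exact Eventually.of_forall fun x => hb z x hz
    _ = C * Real.exp (C * ‖z.2‖) * W := by rw [integral_const_mul]
    _ = (C * W) * Real.exp (C * ‖z.2‖) := by ring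
    _ ≤ (C * W + C) * Real.exp ((C * W + C) * ‖z.2‖) := by
        apply mul_le_mul
        · linarith
        · apply Real.exp_le_exp.2
          apply mul_le_mul_of_nonneg_right _ (norm_nonneg _)
          nlinarith
        · exact (Real.exp_pos _).le
        · positivity

/-- differentiation under the integral -/
theorem PI (F : ℝ × ℂ → ℂ → ℝ) (F' : ℝ × ℂ → ℂ → (ℝ × ℂ →L[ℝ] ℝ))
    (h1 : ∀ z x, HasFDerivAt (fun z => F z x) (F' z x) z)
    (h2 : ∀ z, Continuous (F z)) (h3 : ∀ z, Continuous (F' z)) (h4 : B2 F) (h5 : B2 F') (z : ℝ × ℂ) :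
    HasFDerivAt (fun z => ∫ x, F z x) (∫ x, F' z x) z := by
  obtain ⟨C, hb⟩ := h5.loc z
  refine hasFDerivAt_integral_of_dominated_of_fderiv_le (bound := fun x => C * wx x)
    (Metric.ball_mem_nhds z one_pos) ?_ (h4.integrable z (h2 z)) (h3 z).aestronglyMeasurable ?_
    (wx_int.const_mul C) ?_
  · exact Eventually.of_forall fun z => (h2 z).aestronglyMeasurable
  · exact Eventually.of_forall fun x z hz => hb z hz x
  · exact Eventually.of_forall fun x z _ => h1 z x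

/-! ### the flow -/

/-- the flow as a function of the parameters -/
noncomputable def V (h : ℂ → ℂ) (z : ℝ × ℂ) (x : ℂ) : ℂ := iF (tw z.1 z.2 h) x

/-- the linear form in the exponent -/
noncomputable def el (ζ : ℂ) : ℝ × ℂ →L[ℝ] ℝ :=
  (-(4 * Real.pi ^ 2 * ‖ζ‖ ^ 2)) • ContinuousLinearMap.fst ℝ ℝ ℂ
    + (-(2 * Real.pi * ζ.re)) • (Complex.reCLM.comp (ContinuousLinearMap.snd ℝ ℝ ℂ))
    + (-(2 * Real.pi * ζ.im)) • (Complex.imCLM.comp (ContinuousLinearMap.snd ℝ ℝ ℂ))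

theorem el_apply (ζ : ℂ) (z : ℝ × ℂ) : el ζ z = -(4 * Real.pi ^ 2 * z.1 * ‖ζ‖ ^ 2
    + 2 * Real.pi * (z.2.re * ζ.re + z.2.im * ζ.im)) := by
  unfold el
  simp only [ContinuousLinearMap.add_apply, ContinuousLinearMap.smul_apply,
    ContinuousLinearMap.coe_fst', ContinuousLinearMap.comp_apply, ContinuousLinearMap.coe_snd',
    Complex.reCLM_apply, Complex.imCLM_apply, smul_eq_mul]
  ring

theorem el_cont : Continuous el := by
  unfold el
  fun_prop

theorem tw_eq (h : ℂ → ℂ) (z : ℝ × ℂ) (ζ : ℂ) :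
    tw z.1 z.2 h ζ = Real.exp (el ζ z) • h ζ := by
  unfold tw
  rw [el_apply, Complex.real_smul]

theorem ch_cont (x : ℂ) : Continuous (ch x) := by
  unfold ch
  fun_prop

/-- the derivative of the flow in the parameters -/
noncomputable def LV (h : ℂ → ℂ) (z : ℝ × ℂ) (x : ℂ) : ℝ × ℂ →L[ℝ] ℂ :=
  (ContinuousLinearMap.fst ℝ ℝ ℂ).smulRight (V (dr 1 (dr 1 h)) z x + V (dr Complex.I (dr Complex.I h)) z x)
    + (Complex.reCLM.comp (ContinuousLinearMap.snd ℝ ℝ ℂ)).smulRight (Complex.I * V (dr 1 h) z x)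
    + (Complex.imCLM.comp (ContinuousLinearMap.snd ℝ ℝ ℂ)).smulRight
      (Complex.I * V (dr Complex.I h) z x)

theorem dr_cc {h : ℂ → ℂ} (hh : CC h) (e : ℂ) : CC (dr e h) := by
  constructor
  · unfold dr
    have := hh.1
    fun_prop
  · unfold dr
    exact hh.2.mul_left

theorem tw_cc {h : ℂ → ℂ} (hh : CC h) (s : ℝ) (y : ℂ) : CC (tw s y h) := by
  constructor
  · unfold tw
    have := hh.1
    fun_prop
  · unfold tw
    exact hh.2.mul_left

theorem ch_int {h : ℂ → ℂ} (hh : CC h) (x : ℂ) : Integrable (fun ζ => ch x ζ * h ζ) := by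
  apply Continuous.integrable_of_hasCompactSupport
  · exact (ch_cont x).mul hh.1
  · exact hh.2.mul_left

theorem int_add4 {f1 f2 f3 f4 : ℂ → ℂ} (h1 : Integrable f1) (h2 : Integrable f2)
    (h3 : Integrable f3) (h4 : Integrable f4) :
    (∫ x, f1 x) + (∫ x, f2 x) + (∫ x, f3 x) + (∫ x, f4 x) = ∫ x, (f1 x + f2 x + f3 x + f4 x) := by
  have e1 := integral_add h1 h2
  have e2 := integral_add (h1.add h2) h3
  have e3 := integral_add ((h1.add h2).add h3) h4
  simp only [Pi.add_apply] at e1 e2 e3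
  rw [e3, e2, e1]

theorem V_deriv {h : ℂ → ℂ} (hh : CC h) (z : ℝ × ℂ) (x : ℂ) :
    HasFDerivAt (fun z => V h z x) (LV h z x) z := by
  have hc := hh.1
  set F : ℝ × ℂ → ℂ → ℂ := fun z ζ => Real.exp (el ζ z) • (ch x ζ * h ζ) with hF
  set F' : ℝ × ℂ → ℂ → (ℝ × ℂ →L[ℝ] ℂ) := fun z ζ =>
    (Real.exp (el ζ z) • el ζ).smulRight (ch x ζ * h ζ) with hF'
  have hFc : ∀ z, Continuous (F z) := by
    intro z
    have := el_cont
    have := ch_cont x
    rw [hF]
    have e1 : Continuous (fun ζ => el ζ z) := el_cont.clm_apply continuous_const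
    exact (Real.continuous_exp.comp e1).smul ((ch_cont x).mul hc)
  have hF'c : Continuous (fun q : (ℝ × ℂ) × ℂ => F' q.1 q.2) := by
    rw [hF']
    have e1 : Continuous (fun q : (ℝ × ℂ) × ℂ => el q.2) := el_cont.comp continuous_snd
    have e2 : Continuous (fun q : (ℝ × ℂ) × ℂ => el q.2 q.1) := e1.clm_apply continuous_fst
    have e3 : Continuous (fun q : (ℝ × ℂ) × ℂ => ch x q.2 * h q.2) :=
      ((ch_cont x).mul hc).comp continuous_snd
    have e4 : Continuous (fun q : (ℝ × ℂ) × ℂ => Real.exp (el q.2 q.1) • el q.2) :=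
      (Real.continuous_exp.comp e2).smul e1
    exact (ContinuousLinearMap.smulRightL ℝ (ℝ × ℂ) ℂ).continuous₂.comp (e4.prodMk e3)
  have hsupp : HasCompactSupport (fun ζ => F z ζ) := by
    refine hh.2.mono' fun ζ hζ => ?_
    by_contra h0
    have : h ζ = 0 := image_eq_zero_of_notMem_tsupport h0
    apply hζ
    rw [hF]
    simp [this]
  have hsupp' : HasCompactSupport (fun ζ => F' z ζ) := by
    refine hh.2.mono' fun ζ hζ => ?_
    by_contra h0
    have : h ζ = 0 := image_eq_zero_of_notMem_tsupport h0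
    apply hζ
    rw [hF']
    simp [this]
  obtain ⟨M, hM⟩ := ((isCompact_closedBall z 1).prod hh.2.isCompact).exists_bound_of_continuousOn
    hF'c.continuousOn
  have hbd : ∀ ζ, ∀ w ∈ Metric.ball z 1, ‖F' w ζ‖ ≤ (tsupport h).indicator (fun _ => M) ζ := by
    intro ζ w hw
    by_cases hz : ζ ∈ tsupport h
    · rw [Set.indicator_of_mem hz]
      exact hM (w, ζ) ⟨Metric.ball_subset_closedBall hw, hz⟩
    · rw [Set.indicator_of_notMem hz]
      have : h ζ = 0 := image_eq_zero_of_notMem_tsupport hz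
      rw [hF']
      simp [this]
  have key := hasFDerivAt_integral_of_dominated_of_fderiv_le (F := F) (F' := F')
    (bound := (tsupport h).indicator (fun _ => M)) (μ := volume) (𝕜 := ℝ)
    (Metric.ball_mem_nhds z one_pos)
    (Eventually.of_forall fun w => (hFc w).aestronglyMeasurable)
    ((hFc z).integrable_of_hasCompactSupport hsupp)
    (hF'c.comp (Continuous.prodMk_right z)).aestronglyMeasurable
    (Eventually.of_forall hbd)
    ((integrable_indicator_iff hh.2.isCompact.measurableSet).2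
      (integrableOn_const (hs := hh.2.isCompact.measure_lt_top.ne)))
    (Eventually.of_forall fun ζ w _ => by
      have e1 : HasFDerivAt (fun w => el ζ w) (el ζ) w := (el ζ).hasFDerivAt
      exact (e1.exp).smul_const _)
  have e0 : (fun z => V h z x) = fun z => ∫ ζ, F z ζ := by
    funext w
    unfold V iF
    congr 1
    funext ζ
    rw [tw_eq, hF]
    simp only [Complex.real_smul]
    ring
  have hint : Integrable (F' z) :=
    (hF'c.comp (Continuous.prodMk_right z)).integrable_of_hasCompactSupport hsupp'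
  have e9 : LV h z x = ∫ ζ, F' z ζ := by
    refine ContinuousLinearMap.ext fun w => ?_
    rw [ContinuousLinearMap.integral_apply hint w]
    have i0 : ∀ g : ℂ → ℂ, CC g → Integrable (fun ζ => ch x ζ * tw z.1 z.2 g ζ) :=
      fun g hg => ch_int (tw_cc hg _ _) x
    have c1 := dr_cc (dr_cc hh 1) 1
    have c2 := dr_cc (dr_cc hh Complex.I) Complex.I
    have c3 := dr_cc hh 1
    have c4 := dr_cc hh Complex.I
    have e1 : LV h z x w = w.1 * (∫ ζ, ch x ζ * tw z.1 z.2 (dr 1 (dr 1 h)) ζ)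
        + w.1 * (∫ ζ, ch x ζ * tw z.1 z.2 (dr Complex.I (dr Complex.I h)) ζ)
        + w.2.re * Complex.I * (∫ ζ, ch x ζ * tw z.1 z.2 (dr 1 h) ζ)
        + w.2.im * Complex.I * (∫ ζ, ch x ζ * tw z.1 z.2 (dr Complex.I h) ζ) := by
      unfold LV V iF
      simp only [ContinuousLinearMap.add_apply, ContinuousLinearMap.smulRight_apply,
        ContinuousLinearMap.coe_fst', ContinuousLinearMap.comp_apply, ContinuousLinearMap.coe_snd',
        Complex.reCLM_apply, Complex.imCLM_apply, Complex.real_smul]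
      ring
    rw [e1, ← integral_const_mul, ← integral_const_mul, ← integral_const_mul,
      ← integral_const_mul, int_add4 ((i0 _ c1).const_mul _) ((i0 _ c2).const_mul _)
      ((i0 _ c3).const_mul _) ((i0 _ c4).const_mul _)]
    congr 1
    funext ζ
    rw [hF']
    simp only [ContinuousLinearMap.smulRight_apply, ContinuousLinearMap.smul_apply, tw_eq,
      Complex.real_smul, smul_eq_mul]
    have e5 : el ζ w = -(4 * Real.pi ^ 2 * w.1 * ‖ζ‖ ^ 2
      + 2 * Real.pi * (w.2.re * ζ.re + w.2.im * ζ.im)) := el_apply ζ w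
    have e6 : ‖ζ‖ ^ 2 = ζ.re ^ 2 + ζ.im ^ 2 := by
      rw [← Complex.normSq_eq_norm_sq, Complex.normSq_apply]
      ring
    rw [e5, e6]
    unfold dr
    push_cast
    simp only [Complex.one_re, Complex.one_im, Complex.I_re, Complex.I_im, Complex.ofReal_one,
      Complex.ofReal_zero]
    have hI : Complex.I * Complex.I = -1 := Complex.I_mul_I
    ring_nf
    simp only [Complex.I_sq]
    ring
  rw [e9, e0]
  exact key

/-! ### continuity and domination of the flow -/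

theorem dr_tw (e : ℂ) (s : ℝ) (y : ℂ) (h : ℂ → ℂ) : dr e (tw s y h) = tw s y (dr e h) := by
  funext ζ
  unfold dr tw
  ring

theorem V_contz {h : ℂ → ℂ} (hh : CC h) (x : ℂ) : Continuous (fun z => V h z x) :=
  continuous_iff_continuousAt.2 fun z => (V_deriv hh z x).continuousAt

theorem V_contx (hS : StmtSch) {h : ℂ → ℂ} (hh : SC h) (z : ℝ × ℂ) : Continuous (V h z) := by
  have h1 := (hS.2.2.2.2.2 h hh).2.1 z.1 z.2
  obtain ⟨F, hF⟩ := hS.2.1 _ h1
  have e : V h z = F := by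
    funext x
    exact (hF x).symm
  rw [e]
  exact F.continuous

theorem V_B1 (hD : StmtDcy) {h : ℂ → ℂ} (hh : SC h) : B1 (V h) := by
  intro s₀
  obtain ⟨C, hC, hb⟩ := hD h 1 s₀ hh
  refine ⟨C, hC, fun z x hz => ?_⟩
  have h1 := hb z.1 z.2 x hz
  rw [pow_one] at h1
  have h2 : 0 < 1 + ‖x‖ ^ 2 := by positivity
  rw [← div_eq_mul_inv, le_div_iff₀ h2, mul_comm]
  exact h1

theorem B1.add {X : Type} [NormedAddCommGroup X] {H K : ℝ × ℂ → ℂ → X} (h : B1 H) (k : B1 K) :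
    B1 (fun z x => H z x + K z x) := by
  intro s₀
  obtain ⟨C, hC, hb⟩ := h s₀
  obtain ⟨D, hD, kb⟩ := k s₀
  refine ⟨C + D, by positivity, fun z x hz => ?_⟩
  have h0 : 0 < (1 + ‖x‖ ^ 2)⁻¹ := by positivity
  have h1 : Real.exp (C * ‖z.2‖) ≤ Real.exp ((C + D) * ‖z.2‖) := by
    apply Real.exp_le_exp.2
    nlinarith [norm_nonneg z.2]
  have h2 : Real.exp (D * ‖z.2‖) ≤ Real.exp ((C + D) * ‖z.2‖) := by
    apply Real.exp_le_exp.2
    nlinarith [norm_nonneg z.2]
  calc ‖H z x + K z x‖ ≤ ‖H z x‖ + ‖K z x‖ := norm_add_le _ _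
    _ ≤ C * Real.exp (C * ‖z.2‖) * (1 + ‖x‖ ^ 2)⁻¹ + D * Real.exp (D * ‖z.2‖) * (1 + ‖x‖ ^ 2)⁻¹ :=
        add_le_add (hb z x hz) (kb z x hz)
    _ ≤ C * Real.exp ((C + D) * ‖z.2‖) * (1 + ‖x‖ ^ 2)⁻¹
        + D * Real.exp ((C + D) * ‖z.2‖) * (1 + ‖x‖ ^ 2)⁻¹ := by
        gcongr
    _ = _ := by ring

theorem B2.add {X : Type} [NormedAddCommGroup X] {H K : ℝ × ℂ → ℂ → X} (h : B2 H) (k : B2 K) :
    B2 (fun z x => H z x + K z x) := by
  intro s₀
  obtain ⟨C, hC, hb⟩ := h s₀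
  obtain ⟨D, hD, kb⟩ := k s₀
  refine ⟨C + D, by positivity, fun z x hz => ?_⟩
  have h0 := wx_nonneg x
  have h1 : Real.exp (C * ‖z.2‖) ≤ Real.exp ((C + D) * ‖z.2‖) := by
    apply Real.exp_le_exp.2
    nlinarith [norm_nonneg z.2]
  have h2 : Real.exp (D * ‖z.2‖) ≤ Real.exp ((C + D) * ‖z.2‖) := by
    apply Real.exp_le_exp.2
    nlinarith [norm_nonneg z.2]
  calc ‖H z x + K z x‖ ≤ ‖H z x‖ + ‖K z x‖ := norm_add_le _ _
    _ ≤ C * Real.exp (C * ‖z.2‖) * wx x + D * Real.exp (D * ‖z.2‖) * wx x :=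
        add_le_add (hb z x hz) (kb z x hz)
    _ ≤ C * Real.exp ((C + D) * ‖z.2‖) * wx x + D * Real.exp ((C + D) * ‖z.2‖) * wx x := by
        gcongr
    _ = _ := by ring

theorem B1.of_le {X Y : Type} [NormedAddCommGroup X] [NormedAddCommGroup Y] {H : ℝ × ℂ → ℂ → X}
    {K : ℝ × ℂ → ℂ → Y} (h : B1 H) (hk : ∀ z x, ‖K z x‖ ≤ ‖H z x‖) : B1 K := by
  intro s₀
  obtain ⟨C, hC, hb⟩ := h s₀
  exact ⟨C, hC, fun z x hz => (hk z x).trans (hb z x hz)⟩

theorem B2.of_le {X Y : Type} [NormedAddCommGroup X] [NormedAddCommGroup Y] {H : ℝ × ℂ → ℂ → X}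
    {K : ℝ × ℂ → ℂ → Y} (h : B2 H) (hk : ∀ z x, ‖K z x‖ ≤ ‖H z x‖) : B2 K := by
  intro s₀
  obtain ⟨C, hC, hb⟩ := h s₀
  exact ⟨C, hC, fun z x hz => (hk z x).trans (hb z x hz)⟩

theorem B1.norm {X : Type} [NormedAddCommGroup X] {H : ℝ × ℂ → ℂ → X} (h : B1 H) :
    B1 (fun z x => ‖H z x‖) := h.of_le fun z x => by rw [norm_norm]

/-- the product estimate -/
theorem B2_prod {X Y Z : Type} [NormedAddCommGroup X] [NormedAddCommGroup Y] [NormedAddCommGroup Z]
    (p c : ℝ) (hp : 2 < p) (hc : 0 ≤ c) {U : ℝ × ℂ → ℂ → ℂ} {A : ℝ × ℂ → ℂ → X}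
    {B : ℝ × ℂ → ℂ → Y} {H : ℝ × ℂ → ℂ → Z} (hU : B1 U) (hA : B1 A) (hB : B1 B)
    (hH : ∀ z x, ‖H z x‖ ≤ c * (‖U z x‖ ^ (p - 2) * (‖A z x‖ * ‖B z x‖))) : B2 H := by
  intro s₀
  obtain ⟨C₁, h1, b1⟩ := hU s₀
  obtain ⟨C₂, h2, b2⟩ := hA s₀
  obtain ⟨C₃, h3, b3⟩ := hB s₀
  set K : ℝ := C₁ + C₂ + C₃ with hK
  have hK0 : 0 < K := by positivity
  refine ⟨c * K ^ p + p * K, by positivity, fun z x hz => ?_⟩
  set t : ℝ := ‖z.2‖ with ht
  have ht0 : 0 ≤ t := norm_nonneg _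
  set w : ℝ := (1 + ‖x‖ ^ 2)⁻¹ with hw
  have hw0 : 0 < w := by positivity
  have hw1 : w ≤ 1 := by
    rw [hw]
    apply inv_le_one_of_one_le₀
    nlinarith [sq_nonneg ‖x‖]
  set M : ℝ := K * Real.exp (K * t) with hM
  have hM0 : 0 < M := by positivity
  have gen : ∀ C : ℝ, 0 < C → C ≤ K → C * Real.exp (C * t) ≤ M := by
    intro C hC hCK
    rw [hM]
    apply mul_le_mul hCK _ (Real.exp_pos _).le hK0.le
    apply Real.exp_le_exp.2
    exact mul_le_mul_of_nonneg_right hCK ht0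
  have c1 : ‖U z x‖ ≤ M := by
    refine (b1 z x hz).trans ?_
    calc C₁ * Real.exp (C₁ * t) * w ≤ M * 1 :=
          mul_le_mul (gen C₁ h1 (by linarith)) hw1 hw0.le hM0.le
      _ = M := mul_one _
  have c2 : ‖A z x‖ ≤ M * w := (b2 z x hz).trans
    (mul_le_mul_of_nonneg_right (gen C₂ h2 (by linarith)) hw0.le)
  have c3 : ‖B z x‖ ≤ M * w := (b3 z x hz).trans
    (mul_le_mul_of_nonneg_right (gen C₃ h3 (by linarith)) hw0.le)
  have e1 : M ^ (p - 2) * (M * M) = K ^ p * Real.exp (p * K * t) := by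
    have : M * M = M ^ (2 : ℝ) := by
      rw [Real.rpow_two]
      ring
    rw [this, ← Real.rpow_add hM0, hM, sub_add_cancel, Real.mul_rpow hK0.le (Real.exp_pos _).le,
      ← Real.exp_mul]
    congr 2
    ring
  calc ‖H z x‖ ≤ c * (‖U z x‖ ^ (p - 2) * (‖A z x‖ * ‖B z x‖)) := hH z x
    _ ≤ c * (M ^ (p - 2) * ((M * w) * (M * w))) := by
        apply mul_le_mul_of_nonneg_left _ hc
        apply mul_le_mul
        · exact Real.rpow_le_rpow (norm_nonneg _) c1 (by linarith)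
        · exact mul_le_mul c2 c3 (norm_nonneg _) (by positivity)
        · positivity
        · positivity
    _ = c * K ^ p * Real.exp (p * K * t) * wx x := by
        have : wx x = w * w := by
          unfold wx
          rw [hw, sq, mul_inv]
        rw [this]
        have e2 : M ^ (p - 2) * ((M * w) * (M * w)) = M ^ (p - 2) * (M * M) * (w * w) := by ring
        rw [e2, e1]
        ring
    _ ≤ _ := by
        apply mul_le_mul_of_nonneg_right _ (wx_nonneg x)
        apply mul_le_mul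
        · nlinarith
        · apply Real.exp_le_exp.2
          apply mul_le_mul_of_nonneg_right _ ht0
          have : 0 ≤ c * K ^ p := by positivity
          linarith
        · exact (Real.exp_pos _).le
        · positivity

/-! ### the function `‖u‖ ^ p` -/

/-- the function `‖u‖ ^ p` -/
noncomputable def NN (p : ℝ) (u : ℂ) : ℝ := ‖u‖ ^ p

section pow

variable {p : ℝ} (hp : 2 < p) (hP : StmtPow)

include hp hP

theorem NN_cd : ContDiff ℝ 2 (NN p) := (hP p hp).1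

theorem NN_d1 (u : ℂ) : HasFDerivAt (NN p) (fderiv ℝ (NN p) u) u :=
  ((NN_cd hp hP).differentiable (by norm_num) u).hasFDerivAt

theorem NN_cd1 : ContDiff ℝ 1 (fderiv ℝ (NN p)) :=
  (NN_cd hp hP).fderiv_right (by norm_num)

theorem NN_d2 (u : ℂ) : HasFDerivAt (fderiv ℝ (NN p)) (fderiv ℝ (fderiv ℝ (NN p)) u) u :=
  ((NN_cd1 hp hP).differentiable (by norm_num) u).hasFDerivAt

theorem NN_c1 : Continuous (fderiv ℝ (NN p)) := (NN_cd1 hp hP).continuous

theorem NN_c2 : Continuous (fderiv ℝ (fderiv ℝ (NN p))) :=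
  (NN_cd1 hp hP).continuous_fderiv (by norm_num)

theorem NN_f1 (u v : ℂ) : fderiv ℝ (NN p) u v = p * ‖u‖ ^ (p - 2) * (u.re * v.re + u.im * v.im) :=
  (hP p hp).2.1 u v

theorem NN_f2 (u v : ℂ) : fderiv ℝ (fderiv ℝ (NN p)) u v v = Qf p u v := by
  have h1 := (hP p hp).2.2.1 u v
  rw [← h1]
  have h2 : HasFDerivAt (fun w : ℂ => fderiv ℝ (NN p) w v)
      ((fderiv ℝ (fderiv ℝ (NN p)) u).flip v) u := by
    have := (NN_d2 hp hP u).clm_apply (hasFDerivAt_const v u)
    simpa using this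
  have h3 : fderiv ℝ (fun w : ℂ => fderiv ℝ (NN p) w v) u = (fderiv ℝ (fderiv ℝ (NN p)) u).flip v :=
    h2.fderiv
  have h4 : (fun w : ℂ => fderiv ℝ (fun u : ℂ => ‖u‖ ^ p) w v) = fun w : ℂ => fderiv ℝ (NN p) w v := rfl
  rw [h4, h3, ContinuousLinearMap.flip_apply]

theorem NN_b1 (u : ℂ) : ‖fderiv ℝ (NN p) u‖ ≤ p * (‖u‖ ^ (p - 2) * ‖u‖) := by
  apply ContinuousLinearMap.opNorm_le_bound _ (by positivity)
  intro v
  rw [NN_f1 hp hP, Real.norm_eq_abs, abs_mul, abs_of_nonneg (by positivity : 0 ≤ p * ‖u‖ ^ (p - 2))]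
  have h1 : |u.re * v.re + u.im * v.im| ≤ ‖u‖ * ‖v‖ := by
    have e : u.re * v.re + u.im * v.im = (starRingEnd ℂ u * v).re := by
      simp [Complex.mul_re]
    rw [e]
    refine (Complex.abs_re_le_norm _).trans ?_
    rw [norm_mul, Complex.norm_conj]
  calc p * ‖u‖ ^ (p - 2) * |u.re * v.re + u.im * v.im| ≤ p * ‖u‖ ^ (p - 2) * (‖u‖ * ‖v‖) :=
        mul_le_mul_of_nonneg_left h1 (by positivity)
    _ = _ := by ring

theorem NN_b2 (u : ℂ) : ‖fderiv ℝ (fderiv ℝ (NN p)) u‖ ≤ p * (p - 1) * ‖u‖ ^ (p - 2) := by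
  set B := fderiv ℝ (fderiv ℝ (NN p)) u with hB
  set M : ℝ := p * (p - 1) * ‖u‖ ^ (p - 2) with hM
  have hM0 : 0 ≤ M := by
    have : 0 ≤ p - 1 := by linarith
    positivity
  have hsym : ∀ v w, B v w = B w v := by
    have h1 : ContDiffAt ℝ 2 (NN p) u := (NN_cd hp hP).contDiffAt
    have h2 := h1.isSymmSndFDerivAt (by simp)
    intro v w
    exact h2 v w
  have hq : ∀ v, |B v v| ≤ M * ‖v‖ ^ 2 := by
    intro v
    have h1 := (hP p hp).2.2.2 u v
    rw [hB, NN_f2 hp hP, abs_of_nonneg]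
    · exact h1.2.1
    · exact le_trans (by positivity) h1.1
  have hvw : ∀ v w, ‖v‖ = 1 → ‖w‖ = 1 → |B v w| ≤ M := by
    intro v w hv hw
    have e1 : B (v + w) (v + w) - B (v - w) (v - w) = 4 * B v w := by
      simp only [map_add, map_sub, ContinuousLinearMap.add_apply, ContinuousLinearMap.sub_apply]
      rw [hsym w v]
      ring
    have e2 : ‖v + w‖ ^ 2 + ‖v - w‖ ^ 2 = 4 := by
      have := parallelogram_law_with_norm ℝ v w
      rw [hv, hw] at this
      nlinarith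
    have h3 := hq (v + w)
    have h4 := hq (v - w)
    rw [abs_le] at h3 h4 ⊢
    constructor
    · nlinarith
    · nlinarith
  apply ContinuousLinearMap.opNorm_le_of_unit_norm hM0
  intro v hv
  apply ContinuousLinearMap.opNorm_le_of_unit_norm hM0
  intro w hw
  rw [Real.norm_eq_abs]
  exact hvw v w hv hw

end pow

/-! ### the first and second derivatives of `Psi` -/

theorem SC.dr' (hS : StmtSch) {g : ℂ → ℂ} (hg : SC g) (e : ℂ) : SC (dr e g) :=
  (hS.2.2.2.2.2 g hg).1 e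

theorem SC.tw' (hS : StmtSch) {g : ℂ → ℂ} (hg : SC g) (z : ℝ × ℂ) : SC (tw z.1 z.2 g) :=
  (hS.2.2.2.2.2 g hg).2.1 z.1 z.2

theorem LV_B1 (hS : StmtSch) (hD : StmtDcy) {g : ℂ → ℂ} (hg : SC g) : B1 (LV g) := by
  have h1 := SC.dr' hS hg 1
  have h2 := SC.dr' hS hg Complex.I
  have h3 := SC.dr' hS h1 1
  have h4 := SC.dr' hS h2 Complex.I
  have b := (((V_B1 hD h3).norm.add (V_B1 hD h4).norm).add (V_B1 hD h1).norm).add (V_B1 hD h2).norm
  refine b.of_le fun z x => ?_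
  have n1 : ‖ContinuousLinearMap.fst ℝ ℝ ℂ‖ ≤ 1 := ContinuousLinearMap.norm_fst_le ℝ ℝ ℂ
  have n2 : ‖ContinuousLinearMap.snd ℝ ℝ ℂ‖ ≤ 1 := ContinuousLinearMap.norm_snd_le ℝ ℝ ℂ
  have n3 : ‖Complex.reCLM.comp (ContinuousLinearMap.snd ℝ ℝ ℂ)‖ ≤ 1 := by
    refine (ContinuousLinearMap.opNorm_comp_le _ _).trans ?_
    rw [Complex.reCLM_norm, one_mul]
    exact n2
  have n4 : ‖Complex.imCLM.comp (ContinuousLinearMap.snd ℝ ℝ ℂ)‖ ≤ 1 := by
    refine (ContinuousLinearMap.opNorm_comp_le _ _).trans ?_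
    rw [Complex.imCLM_norm, one_mul]
    exact n2
  unfold LV
  have t1 := norm_add₃_le (a := (ContinuousLinearMap.fst ℝ ℝ ℂ).smulRight
      (V (dr 1 (dr 1 g)) z x + V (dr Complex.I (dr Complex.I g)) z x))
    (b := (Complex.reCLM.comp (ContinuousLinearMap.snd ℝ ℝ ℂ)).smulRight
      (Complex.I * V (dr 1 g) z x))
    (c := (Complex.imCLM.comp (ContinuousLinearMap.snd ℝ ℝ ℂ)).smulRight
      (Complex.I * V (dr Complex.I g) z x))
  refine t1.trans ?_
  simp only [ContinuousLinearMap.norm_smulRight_apply, norm_mul, Complex.norm_I, one_mul]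
  have t2 := norm_add_le (V (dr 1 (dr 1 g)) z x) (V (dr Complex.I (dr Complex.I g)) z x)
  rw [Real.norm_eq_abs, abs_of_nonneg (by positivity)]
  have m1 : ‖ContinuousLinearMap.fst ℝ ℝ ℂ‖ *
      ‖V (dr 1 (dr 1 g)) z x + V (dr Complex.I (dr Complex.I g)) z x‖ ≤
      1 * (‖V (dr 1 (dr 1 g)) z x‖ + ‖V (dr Complex.I (dr Complex.I g)) z x‖) :=
    mul_le_mul n1 t2 (norm_nonneg _) zero_le_one
  have m2 := mul_le_mul_of_nonneg_right n3 (norm_nonneg (V (dr 1 g) z x))
  have m3 := mul_le_mul_of_nonneg_right n4 (norm_nonneg (V (dr Complex.I g) z x))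
  linarith

theorem LV_cont {α : Type} [TopologicalSpace α] (f : α → (ℝ × ℂ)) (k : α → ℂ) (g : ℂ → ℂ)
    (h : ∀ g', g' = dr 1 (dr 1 g) ∨ g' = dr Complex.I (dr Complex.I g) ∨ g' = dr 1 g ∨
      g' = dr Complex.I g → Continuous (fun a => V g' (f a) (k a))) :
    Continuous (fun a => LV g (f a) (k a)) := by
  unfold LV
  have key : ∀ (c : ℝ × ℂ →L[ℝ] ℝ) (u : α → ℂ), Continuous u →
      Continuous (fun a => c.smulRight (u a)) := by
    intro c u hu
    exact ((ContinuousLinearMap.smulRightL ℝ (ℝ × ℂ) ℂ) c).continuous.comp hu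
  refine ((key _ _ ?_).add (key _ _ ?_)).add (key _ _ ?_)
  · exact (h _ (by simp)).add (h _ (by simp))
  · exact continuous_const.mul (h _ (by simp))
  · exact continuous_const.mul (h _ (by simp))

theorem LV_contx (hS : StmtSch) {g : ℂ → ℂ} (hg : SC g) (z : ℝ × ℂ) : Continuous (LV g z) := by
  have h1 := SC.dr' hS hg 1
  have h2 := SC.dr' hS hg Complex.I
  apply LV_cont (fun _ => z) (fun x => x) g
  rintro g' (rfl | rfl | rfl | rfl)
  · exact V_contx hS (SC.dr' hS h1 1) z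
  · exact V_contx hS (SC.dr' hS h2 Complex.I) z
  · exact V_contx hS h1 z
  · exact V_contx hS h2 z

theorem LV_contz {g : ℂ → ℂ} (hg : CC g) (x : ℂ) : Continuous (fun z => LV g z x) := by
  have h1 := dr_cc hg 1
  have h2 := dr_cc hg Complex.I
  apply LV_cont (fun z => z) (fun _ => x) g
  rintro g' (rfl | rfl | rfl | rfl)
  · exact V_contz (dr_cc h1 1) x
  · exact V_contz (dr_cc h2 Complex.I) x
  · exact V_contz h1 x
  · exact V_contz h2 x

/-- integrand of the derivative -/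
noncomputable def F1 (p : ℝ) (g k : ℂ → ℂ) (z : ℝ × ℂ) (x : ℂ) : ℝ :=
  fderiv ℝ (NN p) (V g z x) (Complex.I * V k z x)

/-- its derivative -/
noncomputable def F1' (p : ℝ) (g k : ℂ → ℂ) (z : ℝ × ℂ) (x : ℂ) : ℝ × ℂ →L[ℝ] ℝ :=
  (fderiv ℝ (NN p) (V g z x)).comp (Complex.I • LV k z x)
    + ((fderiv ℝ (fderiv ℝ (NN p)) (V g z x)).comp (LV g z x)).flip (Complex.I * V k z x)

/-- derivative of `‖V‖ ^ p` -/
noncomputable def F0' (p : ℝ) (g : ℂ → ℂ) (z : ℝ × ℂ) (x : ℂ) : ℝ × ℂ →L[ℝ] ℝ :=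
  (fderiv ℝ (NN p) (V g z x)).comp (LV g z x)

section main

variable {p : ℝ} (hp : 2 < p) (hP : StmtPow) (hS : StmtSch) (hD : StmtDcy)
  {g k : ℂ → ℂ} (hg : SC g) (hk : SC k)

include hp hP hS hg in
theorem F0_deriv (z : ℝ × ℂ) (x : ℂ) :
    HasFDerivAt (fun z => NN p (V g z x)) (F0' p g z x) z :=
  (NN_d1 hp hP _).comp z (V_deriv (hS.1 g hg) z x)

include hp hP hS hg hk in
theorem F1_deriv (z : ℝ × ℂ) (x : ℂ) :
    HasFDerivAt (fun z => F1 p g k z x) (F1' p g k z x) z := by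
  have h1 := V_deriv (hS.1 g hg) z x
  have h2 := V_deriv (hS.1 k hk) z x
  have h3 : HasFDerivAt (fun z => fderiv ℝ (NN p) (V g z x))
    ((fderiv ℝ (fderiv ℝ (NN p)) (V g z x)).comp (LV g z x)) z := (NN_d2 hp hP _).comp z h1
  have h4 : HasFDerivAt (fun z => Complex.I * V k z x) (Complex.I • LV k z x) z := h2.const_mul _
  exact h3.clm_apply h4

include hp hP hS hg in
theorem F0'_contx (z : ℝ × ℂ) : Continuous (F0' p g z) :=
  ((NN_c1 hp hP).comp (V_contx hS hg z)).clm_comp (LV_contx hS hg z)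

include hp hP hS hg in
theorem F0'_contz (x : ℂ) : Continuous (fun z => F0' p g z x) :=
  ((NN_c1 hp hP).comp (V_contz (hS.1 g hg) x)).clm_comp (LV_contz (hS.1 g hg) x)

include hp hP hS hg hk in
theorem F1_contx (z : ℝ × ℂ) : Continuous (F1 p g k z) :=
  ((NN_c1 hp hP).comp (V_contx hS hg z)).clm_apply (continuous_const.mul (V_contx hS hk z))

include hp hP hS hg hk in
theorem F1'_contx (z : ℝ × ℂ) : Continuous (F1' p g k z) := by
  have hg' := SC.dr' hS hg
  have c1 : Continuous (fun x => Complex.I • LV k z x) := by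
    have h : Continuous (Complex.I • (LV k z)) := (LV_contx hS hk z).const_smul Complex.I
    exact h
  have c2 : Continuous (fun x => (fderiv ℝ (fderiv ℝ (NN p)) (V g z x)).comp (LV g z x)) :=
    ((NN_c2 hp hP).comp (V_contx hS hg z)).clm_comp (LV_contx hS hg z)
  have c3 : Continuous (fun x =>
      ((fderiv ℝ (fderiv ℝ (NN p)) (V g z x)).comp (LV g z x)).flip) :=
    (ContinuousLinearMap.flipₗᵢ ℝ (ℝ × ℂ) ℂ ℝ).continuous.comp c2
  exact (((NN_c1 hp hP).comp (V_contx hS hg z)).clm_comp c1).add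
    (c3.clm_apply (continuous_const.mul (V_contx hS hk z)))

include hp hP hS hg hk in
theorem F1'_contz (x : ℂ) : Continuous (fun z => F1' p g k z x) := by
  have c1 : Continuous (fun z => Complex.I • LV k z x) := by
    have h : Continuous (Complex.I • (fun z => LV k z x)) :=
      (LV_contz (hS.1 k hk) x).const_smul Complex.I
    exact h
  have c2 : Continuous (fun z => (fderiv ℝ (fderiv ℝ (NN p)) (V g z x)).comp (LV g z x)) :=
    ((NN_c2 hp hP).comp (V_contz (hS.1 g hg) x)).clm_comp (LV_contz (hS.1 g hg) x)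
  have c3 : Continuous (fun z =>
      ((fderiv ℝ (fderiv ℝ (NN p)) (V g z x)).comp (LV g z x)).flip) :=
    (ContinuousLinearMap.flipₗᵢ ℝ (ℝ × ℂ) ℂ ℝ).continuous.comp c2
  exact (((NN_c1 hp hP).comp (V_contz (hS.1 g hg) x)).clm_comp c1).add
    (c3.clm_apply (continuous_const.mul (V_contz (hS.1 k hk) x)))

include hp hD hg in
theorem F0_B2 : B2 (fun z x => NN p (V g z x)) := by
  refine B2_prod p 1 hp zero_le_one (V_B1 hD hg) (V_B1 hD hg) (V_B1 hD hg) fun z x => ?_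
  unfold NN
  rw [one_mul, Real.norm_eq_abs, abs_of_nonneg (by positivity)]
  rcases (norm_nonneg (V g z x)).eq_or_lt with h0 | h0
  · rw [← h0, Real.zero_rpow (by linarith)]
    simp
  · have e : ‖V g z x‖ * ‖V g z x‖ = ‖V g z x‖ ^ (2 : ℝ) := by
      rw [Real.rpow_two]
      ring
    rw [e, ← Real.rpow_add h0, sub_add_cancel]

include hp hP hS hD hg in
theorem F0'_B2 : B2 (F0' p g) := by
  refine B2_prod p p hp (by linarith) (V_B1 hD hg) (V_B1 hD hg) (LV_B1 hS hD hg) fun z x => ?_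
  unfold F0'
  refine (ContinuousLinearMap.opNorm_comp_le _ _).trans ?_
  calc ‖fderiv ℝ (NN p) (V g z x)‖ * ‖LV g z x‖ ≤
      (p * (‖V g z x‖ ^ (p - 2) * ‖V g z x‖)) * ‖LV g z x‖ :=
        mul_le_mul_of_nonneg_right (NN_b1 hp hP _) (norm_nonneg _)
    _ = _ := by ring

include hp hP hD hg hk in
theorem F1_B2 : B2 (F1 p g k) := by
  refine B2_prod p p hp (by linarith) (V_B1 hD hg) (V_B1 hD hg) (V_B1 hD hk) fun z x => ?_
  unfold F1
  refine (ContinuousLinearMap.le_opNorm _ _).trans ?_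
  rw [norm_mul, Complex.norm_I, one_mul]
  calc ‖fderiv ℝ (NN p) (V g z x)‖ * ‖V k z x‖ ≤
      (p * (‖V g z x‖ ^ (p - 2) * ‖V g z x‖)) * ‖V k z x‖ :=
        mul_le_mul_of_nonneg_right (NN_b1 hp hP _) (norm_nonneg _)
    _ = _ := by ring

include hp hP hS hD hg hk in
theorem F1'_B2 : B2 (F1' p g k) := by
  unfold F1'
  apply B2.add
  · refine B2_prod p p hp (by linarith) (V_B1 hD hg) (V_B1 hD hg) (LV_B1 hS hD hk) fun z x => ?_
    refine (ContinuousLinearMap.opNorm_comp_le _ _).trans ?_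
    rw [norm_smul, Complex.norm_I, one_mul]
    calc ‖fderiv ℝ (NN p) (V g z x)‖ * ‖LV k z x‖ ≤
        (p * (‖V g z x‖ ^ (p - 2) * ‖V g z x‖)) * ‖LV k z x‖ :=
          mul_le_mul_of_nonneg_right (NN_b1 hp hP _) (norm_nonneg _)
      _ = _ := by ring
  · refine B2_prod p (p * (p - 1)) hp (by nlinarith) (V_B1 hD hg) (LV_B1 hS hD hg) (V_B1 hD hk)
      fun z x => ?_
    refine (ContinuousLinearMap.le_opNorm _ _).trans ?_
    rw [norm_mul, Complex.norm_I, one_mul, ContinuousLinearMap.opNorm_flip]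
    have h1 := ContinuousLinearMap.opNorm_comp_le (fderiv ℝ (fderiv ℝ (NN p)) (V g z x)) (LV g z x)
    have h2 := NN_b2 hp hP (V g z x)
    calc ‖(fderiv ℝ (fderiv ℝ (NN p)) (V g z x)).comp (LV g z x)‖ * ‖V k z x‖
        ≤ (‖fderiv ℝ (fderiv ℝ (NN p)) (V g z x)‖ * ‖LV g z x‖) * ‖V k z x‖ :=
          mul_le_mul_of_nonneg_right h1 (norm_nonneg _)
      _ ≤ ((p * (p - 1) * ‖V g z x‖ ^ (p - 2)) * ‖LV g z x‖) * ‖V k z x‖ := by
          apply mul_le_mul_of_nonneg_right _ (norm_nonneg _)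
          exact mul_le_mul_of_nonneg_right h2 (norm_nonneg _)
      _ = _ := by ring

end main

theorem LV_app (g : ℂ → ℂ) (z : ℝ × ℂ) (x : ℂ) (w : ℝ × ℂ) :
    LV g z x w = (w.1 : ℂ) * (V (dr 1 (dr 1 g)) z x + V (dr Complex.I (dr Complex.I g)) z x)
      + (w.2.re : ℂ) * (Complex.I * V (dr 1 g) z x)
      + (w.2.im : ℂ) * (Complex.I * V (dr Complex.I g) z x) := by
  unfold LV
  simp only [ContinuousLinearMap.add_apply, ContinuousLinearMap.smulRight_apply,
    ContinuousLinearMap.coe_fst', ContinuousLinearMap.comp_apply, ContinuousLinearMap.coe_snd',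
    Complex.reCLM_apply, Complex.imCLM_apply, Complex.real_smul]

/-- the first integral -/
noncomputable def J0 (p : ℝ) (g : ℂ → ℂ) (z : ℝ × ℂ) : ℝ × ℂ →L[ℝ] ℝ := ∫ x, F0' p g z x

/-- the second integral -/
noncomputable def J1 (p : ℝ) (g k : ℂ → ℂ) (z : ℝ × ℂ) : ℝ := ∫ x, F1 p g k z x

/-- the third integral -/
noncomputable def J1' (p : ℝ) (g k : ℂ → ℂ) (z : ℝ × ℂ) : ℝ × ℂ →L[ℝ] ℝ := ∫ x, F1' p g k z x

section main2

variable {p : ℝ} (hp : 2 < p) (hP : StmtPow) (hS : StmtSch) (hD : StmtDcy) (hI : StmtIBP)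
  {g k : ℂ → ℂ} (hg : SC g) (hk : SC k)

include hp hP hS hD hg in
theorem Psi_deriv (z : ℝ × ℂ) :
    HasFDerivAt (fun z : ℝ × ℂ => Psi p g z.1 z.2) (J0 p g z) z :=
  PI (fun z x => NN p (V g z x)) (F0' p g) (F0_deriv hp hP hS hg)
    (fun z => (NN_cd hp hP).continuous.comp (V_contx hS hg z)) (F0'_contx hp hP hS hg)
    (F0_B2 hp hD hg) (F0'_B2 hp hP hS hD hg) z

include hp hP hS hD hg in
theorem J0_cont : Continuous (J0 p g) :=
  (F0'_B2 hp hP hS hD hg).cont (F0'_contx hp hP hS hg) (F0'_contz hp hP hS hg)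

include hp hP hS hD hg hk in
theorem J1_deriv (z : ℝ × ℂ) : HasFDerivAt (J1 p g k) (J1' p g k z) z :=
  PI (F1 p g k) (F1' p g k) (F1_deriv hp hP hS hg hk)
    (F1_contx hp hP hS hg hk) (F1'_contx hp hP hS hg hk)
    (F1_B2 hp hP hD hg hk) (F1'_B2 hp hP hS hD hg hk) z

include hp hP hS hD hg hk in
theorem J1'_cont : Continuous (J1' p g k) :=
  (F1'_B2 hp hP hS hD hg hk).cont (F1'_contx hp hP hS hg hk) (F1'_contz hp hP hS hg hk)

include hp hP hS hD hg hk in
theorem F1_int (z : ℝ × ℂ) : Integrable (F1 p g k z) :=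
  (F1_B2 hp hP hD hg hk).integrable z (F1_contx hp hP hS hg hk z)

include hp hP hS hD hg in
/-- derivative in the direction of `y` -/
theorem J0_snd (z : ℝ × ℂ) (e : ℂ) :
    J0 p g z (0, e) = e.re * J1 p g (dr 1 g) z + e.im * J1 p g (dr Complex.I g) z := by
  have hi : Integrable (F0' p g z) :=
    (F0'_B2 hp hP hS hD hg).integrable z (F0'_contx hp hP hS hg z)
  unfold J0 J1
  rw [ContinuousLinearMap.integral_apply hi, ← integral_const_mul, ← integral_const_mul,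
    ← integral_add ((F1_int hp hP hS hD hg (SC.dr' hS hg 1) z).const_mul _)
      ((F1_int hp hP hS hD hg (SC.dr' hS hg Complex.I) z).const_mul _)]
  congr 1
  funext x
  unfold F0' F1
  rw [ContinuousLinearMap.comp_apply, LV_app]
  simp only [Complex.ofReal_zero, zero_mul, zero_add]
  rw [map_add, ← Complex.real_smul, ← Complex.real_smul, map_smul, map_smul, smul_eq_mul,
    smul_eq_mul]

theorem re_conj (u v : ℂ) : (starRingEnd ℂ u * v).re = u.re * v.re + u.im * v.im := by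
  simp [Complex.mul_re]

include hp hP hS hD hI hg in
/-- derivative in the time -/
theorem J0_fst (z : ℝ × ℂ) : J0 p g z (1, 0) = -gr p (tw z.1 z.2 g) := by
  have hi : Integrable (F0' p g z) :=
    (F0'_B2 hp hP hS hD hg).integrable z (F0'_contx hp hP hS hg z)
  have hT := SC.tw' hS hg z
  have i1 := hI p (tw z.1 z.2 g) 1 hp hT
  have i2 := hI p (tw z.1 z.2 g) Complex.I hp hT
  unfold J0 gr
  rw [ContinuousLinearMap.integral_apply hi, integral_add i1.1 i2.1, neg_add, ← i1.2.2.2,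
    ← i2.2.2.2, ← integral_add (i1.2.2.1.const_mul p) (i2.2.2.1.const_mul p)]
  congr 1
  funext x
  unfold F0'
  rw [ContinuousLinearMap.comp_apply, LV_app, NN_f1 hp hP]
  simp only [Complex.ofReal_one, Complex.zero_re, Complex.zero_im, Complex.ofReal_zero, zero_mul,
    one_mul, add_zero, dr_tw, re_conj, Complex.add_re, Complex.add_im]
  unfold V
  ring

include hp hP hS hD hI hg in
/-- the second derivatives in `y` -/
theorem J1'_snd (z : ℝ × ℂ) (e : ℂ) (he : e = 1 ∨ e = Complex.I) :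
    J1' p g (dr e g) z (0, e)
      = p ^ 2 * ∫ x, ‖iF (tw z.1 z.2 g) x‖ ^ (p - 2) * ‖iF (dr e (tw z.1 z.2 g)) x‖ ^ 2 := by
  have hk := SC.dr' hS hg e
  have hi : Integrable (F1' p g (dr e g) z) :=
    (F1'_B2 hp hP hS hD hg hk).integrable z (F1'_contx hp hP hS hg hk z)
  have hT := SC.tw' hS hg z
  obtain ⟨i1, i2, i3, i4⟩ := hI p (tw z.1 z.2 g) e hp hT
  have q : ∀ x, Qf p (V g z x) (Complex.I * V (dr e g) z x)
      = p ^ 2 * (‖iF (tw z.1 z.2 g) x‖ ^ (p - 2) * ‖iF (dr e (tw z.1 z.2 g)) x‖ ^ 2)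
        - Qf p (iF (tw z.1 z.2 g) x) (iF (dr e (tw z.1 z.2 g)) x) := by
    intro x
    have := ((hP p hp).2.2.2 (V g z x) (V (dr e g) z x)).2.2
    rw [dr_tw]
    unfold V at this ⊢
    linarith
  have a1 : ∀ (h : ℂ → ℂ) x, LV h z x (0, e) = Complex.I * V (dr e h) z x := by
    intro h x
    rw [LV_app]
    rcases he with rfl | rfl
    · simp
    · simp
  have key : ∀ x, F1' p g (dr e g) z x (0, e)
      = (p ^ 2 * (‖iF (tw z.1 z.2 g) x‖ ^ (p - 2) * ‖iF (dr e (tw z.1 z.2 g)) x‖ ^ 2)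
        - Qf p (iF (tw z.1 z.2 g) x) (iF (dr e (tw z.1 z.2 g)) x))
        - p * (‖iF (tw z.1 z.2 g) x‖ ^ (p - 2) *
          (starRingEnd ℂ (iF (tw z.1 z.2 g) x) * iF (dr e (dr e (tw z.1 z.2 g))) x).re) := by
    intro x
    rw [← q x]
    unfold F1'
    rw [ContinuousLinearMap.add_apply, ContinuousLinearMap.comp_apply,
      ContinuousLinearMap.flip_apply, ContinuousLinearMap.comp_apply,
      ContinuousLinearMap.smul_apply, a1, a1, NN_f2 hp hP, NN_f1 hp hP, re_conj, dr_tw, dr_tw,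
      smul_eq_mul, ← mul_assoc, Complex.I_mul_I, neg_one_mul]
    unfold V
    rw [Complex.neg_re, Complex.neg_im]
    ring
  unfold J1'
  rw [ContinuousLinearMap.integral_apply hi]
  simp only [key]
  have e1 := integral_sub ((i2.const_mul (p ^ 2)).sub i1) (i3.const_mul p)
  have e2 := integral_sub (i2.const_mul (p ^ 2)) i1
  simp only [Pi.sub_apply] at e1
  rw [e1, e2, i4, integral_const_mul]
  ring

include hI hp hS hg in
theorem gl_eq (z : ℝ × ℂ) : gl p (tw z.1 z.2 g)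
    = (∫ x, ‖iF (tw z.1 z.2 g) x‖ ^ (p - 2) * ‖iF (dr 1 (tw z.1 z.2 g)) x‖ ^ 2)
      + ∫ x, ‖iF (tw z.1 z.2 g) x‖ ^ (p - 2) * ‖iF (dr Complex.I (tw z.1 z.2 g)) x‖ ^ 2 := by
  have hT := SC.tw' hS hg z
  obtain ⟨-, i2, -, -⟩ := hI p (tw z.1 z.2 g) 1 hp hT
  obtain ⟨-, j2, -, -⟩ := hI p (tw z.1 z.2 g) Complex.I hp hT
  unfold gl
  rw [← integral_add i2 j2]
  congr 1
  funext x
  ring

include hp hP hS hD hg in
theorem Psi_fd (s : ℝ) (y : ℂ) : HasFDerivAt (Psi p g s)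
    ((J1 p g (dr 1 g) (s, y)) • Complex.reCLM + (J1 p g (dr Complex.I g) (s, y)) • Complex.imCLM) y := by
  have h1 : HasFDerivAt (fun y : ℂ => (s, y)) (ContinuousLinearMap.inr ℝ ℝ ℂ) y :=
    hasFDerivAt_prodMk_right s y
  have h2 := (Psi_deriv hp hP hS hD hg (s, y)).comp y h1
  have e : (J0 p g (s, y)).comp (ContinuousLinearMap.inr ℝ ℝ ℂ)
      = (J1 p g (dr 1 g) (s, y)) • Complex.reCLM
        + (J1 p g (dr Complex.I g) (s, y)) • Complex.imCLM := by
    refine ContinuousLinearMap.ext fun w => ?_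
    rw [ContinuousLinearMap.comp_apply, ContinuousLinearMap.inr_apply, J0_snd hp hP hS hD hg]
    simp only [ContinuousLinearMap.add_apply, ContinuousLinearMap.smul_apply,
      Complex.reCLM_apply, Complex.imCLM_apply, smul_eq_mul]
    ring
  rw [← e]
  exact h2

include hp hP hS hD hg hk in
theorem J1_fd (s : ℝ) (y : ℂ) : HasFDerivAt (fun y => J1 p g k (s, y))
    ((J1' p g k (s, y)).comp (ContinuousLinearMap.inr ℝ ℝ ℂ)) y := by
  have h1 : HasFDerivAt (fun y : ℂ => (s, y)) (ContinuousLinearMap.inr ℝ ℝ ℂ) y :=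
    hasFDerivAt_prodMk_right s y
  exact (J1_deriv hp hP hS hD hg hk (s, y)).comp y h1

include hp hP hS hD hg hk in
theorem J1_cd (s : ℝ) : ContDiff ℝ 1 (fun y => J1 p g k (s, y)) := by
  rw [contDiff_one_iff_fderiv]
  refine ⟨fun y => (J1_fd hp hP hS hD hg hk s y).differentiableAt, ?_⟩
  have e : fderiv ℝ (fun y => J1 p g k (s, y))
      = fun y => (J1' p g k (s, y)).comp (ContinuousLinearMap.inr ℝ ℝ ℂ) := by
    funext y
    exact (J1_fd hp hP hS hD hg hk s y).fderiv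
  rw [e]
  exact ((J1'_cont hp hP hS hD hg hk).comp (Continuous.prodMk_right s)).clm_comp continuous_const

end main2

end PsiM

open PsiM in
/-- module (Psi) -/
theorem psi (hP : StmtPow) (hS : StmtSch) (hD : StmtDcy) (hI : StmtIBP) : StmtPsi := by
  intro p g hp hg
  have hg1 := SC.dr' hS hg 1
  have hg2 := SC.dr' hS hg Complex.I
  have hfd : ∀ s, fderiv ℝ (Psi p g s) = fun y =>
      (J1 p g (dr 1 g) (s, y)) • Complex.reCLM + (J1 p g (dr Complex.I g) (s, y)) • Complex.imCLM := by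
    intro s
    funext y
    exact (Psi_fd hp hP hS hD hg s y).fderiv
  have hlap : ∀ z : ℝ × ℂ, p ^ 2 * gl p (tw z.1 z.2 g)
      = J1' p g (dr 1 g) z (0, 1) + J1' p g (dr Complex.I g) z (0, Complex.I) := by
    intro z
    rw [J1'_snd hp hP hS hD hI hg z 1 (Or.inl rfl),
      J1'_snd hp hP hS hD hI hg z Complex.I (Or.inr rfl), gl_eq hp hS hI hg z]
    ring
  have hp2 : p ^ 2 ≠ 0 := by positivity
  refine ⟨?_, ?_, ?_, ?_, ?_, ?_, ?_, ?_⟩
  · -- smoothness
    intro s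
    have e : (2 : WithTop ℕ∞) = 1 + 1 := by norm_num
    rw [e, contDiff_succ_iff_fderiv]
    refine ⟨fun y => (Psi_fd hp hP hS hD hg s y).differentiableAt, by simp, ?_⟩
    rw [hfd s]
    exact ((J1_cd hp hP hS hD hg hg1 s).smul contDiff_const).add
      ((J1_cd hp hP hS hD hg hg2 s).smul contDiff_const)
  · -- Laplacian
    intro s y
    have e1 : (fun z => fderiv ℝ (Psi p g s) z 1) = fun y => J1 p g (dr 1 g) (s, y) := by
      funext z
      rw [hfd s]
      simp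
    have e2 : (fun z => fderiv ℝ (Psi p g s) z Complex.I)
        = fun y => J1 p g (dr Complex.I g) (s, y) := by
      funext z
      rw [hfd s]
      simp
    unfold lapR
    rw [e1, e2, (J1_fd hp hP hS hD hg hg1 s y).fderiv, (J1_fd hp hP hS hD hg hg2 s y).fderiv,
      hlap (s, y)]
    simp only [ContinuousLinearMap.comp_apply, ContinuousLinearMap.inr_apply]
  · -- time derivative
    intro s y
    have h1 : HasDerivAt (fun t : ℝ => (t, y)) ((1 : ℝ), (0 : ℂ)) s :=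
      (hasDerivAt_id s).prodMk (hasDerivAt_const s y)
    have h2 := (Psi_deriv hp hP hS hD hg (s, y)).comp_hasDerivAt s h1
    rw [J0_fst hp hP hS hD hI hg] at h2
    exact h2
  · exact continuous_iff_continuousAt.2 fun z => (Psi_deriv hp hP hS hD hg z).continuousAt
  · have e : (fun z : ℝ × ℂ => gr p (tw z.1 z.2 g)) = fun z => -(J0 p g z (1, 0)) := by
      funext z
      rw [J0_fst hp hP hS hD hI hg, neg_neg]
    rw [e]
    exact ((J0_cont hp hP hS hD hg).clm_apply continuous_const).neg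
  · have e : (fun z : ℝ × ℂ => gl p (tw z.1 z.2 g)) = fun z =>
        (p ^ 2)⁻¹ * (J1' p g (dr 1 g) z (0, 1) + J1' p g (dr Complex.I g) z (0, Complex.I)) := by
      funext z
      rw [← hlap z, inv_mul_cancel_left₀ hp2]
    rw [e]
    exact continuous_const.mul (((J1'_cont hp hP hS hD hg hg1).clm_apply continuous_const).add
      ((J1'_cont hp hP hS hD hg hg2).clm_apply continuous_const))
  · intro s y
    have hT := SC.tw' hS hg (s, y)
    obtain ⟨i1, i2, -, -⟩ := hI p (tw s y g) 1 hp hT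
    obtain ⟨j1, j2, -, -⟩ := hI p (tw s y g) Complex.I hp hT
    constructor
    · unfold gl
      apply integral_nonneg
      intro x
      positivity
    · unfold gl gr
      rw [← integral_const_mul]
      apply integral_mono
      · apply Integrable.const_mul
        refine (i2.add j2).congr (Eventually.of_forall fun x => ?_)
        simp only [Pi.add_apply]
        ring
      · exact i1.add j1
      · intro x
        have a1 := ((hP p hp).2.2.2 (iF (tw s y g) x) (iF (dr 1 (tw s y g)) x)).1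
        have a2 := ((hP p hp).2.2.2 (iF (tw s y g) x) (iF (dr Complex.I (tw s y g)) x)).1
        show p * (_ * (_ + _)) ≤ _ + _
        linarith
  · intro s₀
    obtain ⟨C₁, h1, b1⟩ := (F0_B2 hp hD hg).bound s₀
    obtain ⟨C₂, h2, b2⟩ := (F0'_B2 hp hP hS hD hg).bound s₀
    obtain ⟨C₃, h3, b3⟩ := (F1_B2 hp hP hD hg hg1).bound s₀
    obtain ⟨C₄, h4, b4⟩ := (F1_B2 hp hP hD hg hg2).bound s₀
    set C : ℝ := C₁ + C₂ + C₃ + C₄ with hC
    have hC0 : 0 < C := by positivity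
    have gen : ∀ D t : ℝ, 0 < D → D ≤ C → 0 ≤ t → D * Real.exp (D * t) ≤ D * Real.exp (C * t) := by
      intro D t hD hDC ht
      apply mul_le_mul_of_nonneg_left _ hD.le
      apply Real.exp_le_exp.2
      exact mul_le_mul_of_nonneg_right hDC ht
    refine ⟨C, hC0, fun s y hs => ?_⟩
    have hE : 0 < Real.exp (C * ‖y‖) := Real.exp_pos _
    have hy : 0 ≤ ‖y‖ := norm_nonneg y
    refine ⟨?_, ?_, ?_⟩
    · have t1 := b1 (s, y) hs
      have t2 : Psi p g s y ≤ ‖∫ x, NN p (V g (s, y) x)‖ := Real.le_norm_self _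
      have t3 := gen C₁ ‖y‖ h1 (by linarith) hy
      have t4 : C₁ * Real.exp (C * ‖y‖) ≤ C * Real.exp (C * ‖y‖) :=
        mul_le_mul_of_nonneg_right (by linarith) hE.le
      linarith
    · have t1 := b2 (s, y) hs
      have t2 : gr p (tw s y g) = -(J0 p g (s, y) (1, 0)) := by
        rw [J0_fst hp hP hS hD hI hg, neg_neg]
      have t3 := gen C₂ ‖y‖ h2 (by linarith) hy
      have t4 : C₂ * Real.exp (C * ‖y‖) ≤ C * Real.exp (C * ‖y‖) :=
        mul_le_mul_of_nonneg_right (by linarith) hE.le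
      have t5 : -(J0 p g (s, y) (1, 0)) ≤ ‖J0 p g (s, y)‖ := by
        have t6 := (J0 p g (s, y)).le_opNorm (1, 0)
        have t7 : ‖((1 : ℝ), (0 : ℂ))‖ = 1 := by
          rw [Prod.norm_def]
          simp
        rw [t7, mul_one] at t6
        exact (neg_le_abs _).trans t6
      have t8 : ‖J0 p g (s, y)‖ = ‖∫ x, F0' p g (s, y) x‖ := rfl
      rw [t2]
      have t9 : ‖∫ x, F0' p g (s, y) x‖ ≤ C₂ * Real.exp (C₂ * ‖y‖) := t1
      linarith
    · rw [hfd s]
      have t1 : |J1 p g (dr 1 g) (s, y)| ≤ C₃ * Real.exp (C₃ * ‖y‖) := b3 (s, y) hs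
      have t2 : |J1 p g (dr Complex.I g) (s, y)| ≤ C₄ * Real.exp (C₄ * ‖y‖) := b4 (s, y) hs
      have t3 := gen C₃ ‖y‖ h3 (by linarith) hy
      have t4 := gen C₄ ‖y‖ h4 (by linarith) hy
      have t5 : ‖(J1 p g (dr 1 g) (s, y)) • Complex.reCLM
          + (J1 p g (dr Complex.I g) (s, y)) • Complex.imCLM‖
          ≤ |J1 p g (dr 1 g) (s, y)| + |J1 p g (dr Complex.I g) (s, y)| := by
        refine (norm_add_le _ _).trans ?_
        rw [norm_smul, norm_smul, Complex.reCLM_norm, Complex.imCLM_norm, mul_one, mul_one,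
          Real.norm_eq_abs, Real.norm_eq_abs]
      have t6 : (C₃ + C₄) * Real.exp (C * ‖y‖) ≤ C * Real.exp (C * ‖y‖) :=
        mul_le_mul_of_nonneg_right (by linarith) hE.le
      have t7 : (C₃ + C₄) * Real.exp (C * ‖y‖)
          = C₃ * Real.exp (C * ‖y‖) + C₄ * Real.exp (C * ‖y‖) := by ring
      show ‖(J1 p g (dr 1 g) (s, y)) • Complex.reCLM
          + (J1 p g (dr Complex.I g) (s, y)) • Complex.imCLM‖ ≤ C * Real.exp (C * ‖y‖)
      linarith

end Pool.Agent.Lib.MP_dd244f_an.Rp
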