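import Pool.Agent.Lib.MP_dd244f_an.Rp.Stmts

/-!
Full operator, all real `p`: elementary inequalities (module Qel).
-/

set_option autoImplicit false

namespace Pool.Agent.Lib.MP_dd244f_an.Rp

open Filter Topology

namespace QelAux

lemma sq_split (x y δ : ℝ) (hδ : 0 < δ) :
    (x + y) ^ 2 ≤ (1 + 1 / δ) * x ^ 2 + (1 + δ) * y ^ 2 := by
  have h : (1 + 1 / δ) * x ^ 2 + (1 + δ) * y ^ 2 - (x + y) ^ 2 = (x - δ * y) ^ 2 / δ := by
    field_simp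
    ring
  have h2 : 0 ≤ (x - δ * y) ^ 2 / δ := by positivity
  linarith

lemma norm_split (α β : ℂ) (δ : ℝ) (hδ : 0 < δ) :
    ‖α + β‖ ^ 2 ≤ (1 + 1 / δ) * ‖α‖ ^ 2 + (1 + δ) * ‖β‖ ^ 2 := by
  have h1 : ‖α + β‖ ^ 2 ≤ (‖α‖ + ‖β‖) ^ 2 :=
    pow_le_pow_left₀ (norm_nonneg _) (norm_add_le _ _) 2
  exact h1.trans (sq_split _ _ _ hδ)

lemma inner_sq (u v : ℂ) : (u.re * v.re + u.im * v.im) ^ 2 ≤ ‖u‖ ^ 2 * ‖v‖ ^ 2 := by
  rw [Complex.sq_norm, Complex.sq_norm, Complex.normSq_apply, Complex.normSq_apply]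
  nlinarith [sq_nonneg (u.re * v.im - u.im * v.re)]

lemma rpow_four (p x : ℝ) (hx : 0 < x) : x ^ (p - 4) * x ^ 2 = x ^ (p - 2) := by
  rw [← Real.rpow_natCast x 2, ← Real.rpow_add hx]
  congr 1
  push_cast
  ring

lemma Qf_nonneg (p : ℝ) (u v : ℂ) (hp : 2 < p) : 0 ≤ Qf p u v := by
  unfold Qf
  have h1 : 0 ≤ ‖u‖ ^ (p - 2) := Real.rpow_nonneg (norm_nonneg _) _
  have h2 : 0 ≤ ‖u‖ ^ (p - 4) := Real.rpow_nonneg (norm_nonneg _) _
  have h3 : 0 ≤ p := by linarith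
  have h4 : 0 ≤ p - 2 := by linarith
  positivity

lemma Qf_le (p : ℝ) (u v : ℂ) (hp : 2 < p) :
    Qf p u v ≤ p * (p - 1) * (‖u‖ ^ (p - 2) * ‖v‖ ^ 2) := by
  unfold Qf
  have h3 : 0 ≤ p := by linarith
  have h4 : 0 ≤ p - 2 := by linarith
  have key : ‖u‖ ^ (p - 4) * (u.re * v.re + u.im * v.im) ^ 2 ≤ ‖u‖ ^ (p - 2) * ‖v‖ ^ 2 := by
    rcases eq_or_ne u 0 with rfl | hu
    · simp only [Complex.zero_re, Complex.zero_im, zero_mul, add_zero]
      have h1 : 0 ≤ ‖(0 : ℂ)‖ ^ (p - 2) := Real.rpow_nonneg (norm_nonneg _) _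
      have : (0 : ℝ) ^ 2 = 0 := by norm_num
      rw [this, mul_zero]
      positivity
    · have hu' : 0 < ‖u‖ := norm_pos_iff.mpr hu
      rw [← rpow_four p _ hu']
      have h2 : 0 ≤ ‖u‖ ^ (p - 4) := Real.rpow_nonneg (norm_nonneg _) _
      have := mul_le_mul_of_nonneg_left (inner_sq u v) h2
      linarith
  have := mul_le_mul_of_nonneg_left key (mul_nonneg h3 h4)
  nlinarith

lemma Qf_split (p : ℝ) (u α β : ℂ) (δ : ℝ) (hp : 2 < p) (hδ : 0 < δ) :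
    Qf p u (α + β) ≤ (1 + 1 / δ) * Qf p u α + (1 + δ) * Qf p u β := by
  unfold Qf
  have h1 : 0 ≤ ‖u‖ ^ (p - 2) := Real.rpow_nonneg (norm_nonneg _) _
  have h2 : 0 ≤ ‖u‖ ^ (p - 4) := Real.rpow_nonneg (norm_nonneg _) _
  have h3 : 0 ≤ p := by linarith
  have h4 : 0 ≤ p - 2 := by linarith
  have e1 := mul_le_mul_of_nonneg_left (norm_split α β δ hδ) (mul_nonneg h3 h1)
  have e2 := mul_le_mul_of_nonneg_left
    (sq_split (u.re * α.re + u.im * α.im) (u.re * β.re + u.im * β.im) δ hδ)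
    (mul_nonneg (mul_nonneg h3 h4) h2)
  have e3 : u.re * (α + β).re + u.im * (α + β).im
      = (u.re * α.re + u.im * α.im) + (u.re * β.re + u.im * β.im) := by
    simp only [Complex.add_re, Complex.add_im]
    ring
  rw [e3]
  linarith

/-- choice of `η` -/
lemma choose_eta (p δ : ℝ) (hδ : 0 < δ) : ∃ η : ℝ, 0 < η ∧ η < 1 ∧
    (1 + η) ^ (p - 2) + (p - 2) * (max ((1 + η) ^ (p - 4)) ((1 - η) ^ (p - 4)) * (η ^ 2 + η))
      ≤ 1 + δ ∧
    max ((1 + η) ^ (p - 4)) ((1 - η) ^ (p - 4)) * (1 + η) ≤ 1 + δ ∧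
    ((1 - η) ^ (p - 2))⁻¹ ≤ 1 + δ := by
  have c1 : ∀ q : ℝ, ContinuousAt (fun η : ℝ => (1 + η) ^ q) 0 := fun q =>
    (continuousAt_const.add continuousAt_id).rpow_const (Or.inl (by norm_num))
  have c2 : ∀ q : ℝ, ContinuousAt (fun η : ℝ => (1 - η) ^ q) 0 := fun q =>
    (continuousAt_const.sub continuousAt_id).rpow_const (Or.inl (by norm_num))
  have c3 : ContinuousAt (fun η : ℝ => max ((1 + η) ^ (p - 4)) ((1 - η) ^ (p - 4))) 0 :=
    (c1 _).max (c2 _)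
  have c4 : ContinuousAt (fun η : ℝ => (1 + η) ^ (p - 2) +
      (p - 2) * (max ((1 + η) ^ (p - 4)) ((1 - η) ^ (p - 4)) * (η ^ 2 + η))) 0 := by
    refine (c1 _).add (continuousAt_const.mul (c3.mul ?_))
    fun_prop
  have c5 : ContinuousAt (fun η : ℝ => max ((1 + η) ^ (p - 4)) ((1 - η) ^ (p - 4)) * (1 + η)) 0 := by
    refine c3.mul ?_
    fun_prop
  have c6 : ContinuousAt (fun η : ℝ => ((1 - η) ^ (p - 2))⁻¹) 0 := by
    refine (c2 _).inv₀ ?_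
    norm_num
  have e4 := c4.eventually_lt (continuousAt_const (y := 1 + δ)) (by norm_num; exact hδ)
  have e5 := c5.eventually_lt (continuousAt_const (y := 1 + δ)) (by norm_num; exact hδ)
  have e6 := c6.eventually_lt (continuousAt_const (y := 1 + δ)) (by norm_num; exact hδ)
  have e7 : ∀ᶠ η : ℝ in 𝓝 0, η < 1 := Iio_mem_nhds (by norm_num)
  have e8 : ∀ᶠ η : ℝ in 𝓝[>] 0, 0 < η := self_mem_nhdsWithin
  have e := (((e4.and e5).and (e6.and e7)).filter_mono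
    (nhdsWithin_le_nhds (s := Set.Ioi (0 : ℝ)))).and e8
  obtain ⟨η, ⟨⟨h4, h5⟩, h6, h7⟩, h8⟩ := e.exists
  exact ⟨η, h8, h7, h4.le, h5.le, h6.le⟩

/-- the point of the quadratic form -/
lemma Qf_point (p δ : ℝ) (hp : 2 < p) (hδ : 0 < δ) : ∃ C : ℝ, 0 < C ∧ ∀ a b β : ℂ,
    Qf p (a + b) β ≤ (1 + δ) * Qf p b β + C * (‖a‖ ^ (p - 2) * ‖β‖ ^ 2) := by
  obtain ⟨η, h0, h1, e1, e2, -⟩ := choose_eta p δ hδ
  set c : ℝ := max ((1 + η) ^ (p - 4)) ((1 - η) ^ (p - 4)) with hc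
  have hp0 : 0 < p := by linarith
  have hp1 : 0 < p - 1 := by linarith
  have hp2 : 0 < p - 2 := by linarith
  refine ⟨p * (p - 1) * (1 + 1 / η) ^ (p - 2), by positivity, fun a b β => ?_⟩
  have ha0 := norm_nonneg a
  have hb0 := norm_nonneg b
  rcases le_or_gt (η * ‖b‖) ‖a‖ with hab | hab
  · have hb : ‖b‖ ≤ 1 / η * ‖a‖ := by
      rw [one_div, ← div_eq_inv_mul, le_div_iff₀ h0]
      linarith
    have h2 : ‖a + b‖ ≤ (1 + 1 / η) * ‖a‖ := by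
      have := norm_add_le a b
      linarith
    have h3 : ‖a + b‖ ^ (p - 2) ≤ (1 + 1 / η) ^ (p - 2) * ‖a‖ ^ (p - 2) := by
      rw [← Real.mul_rpow (by positivity) ha0]
      exact Real.rpow_le_rpow (norm_nonneg _) h2 hp2.le
    have h4 := Qf_le p (a + b) β hp
    have h5 : 0 ≤ (1 + δ) * Qf p b β := mul_nonneg (by linarith) (Qf_nonneg p b β hp)
    have h6 := mul_le_mul_of_nonneg_left
      (mul_le_mul_of_nonneg_right h3 (sq_nonneg ‖β‖)) (mul_nonneg hp0.le hp1.le)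
    calc Qf p (a + b) β ≤ p * (p - 1) * (‖a + b‖ ^ (p - 2) * ‖β‖ ^ 2) := h4
      _ ≤ p * (p - 1) * ((1 + 1 / η) ^ (p - 2) * ‖a‖ ^ (p - 2) * ‖β‖ ^ 2) := h6
      _ = p * (p - 1) * (1 + 1 / η) ^ (p - 2) * (‖a‖ ^ (p - 2) * ‖β‖ ^ 2) := by ring
      _ ≤ _ := by linarith
  · have hbpos : 0 < ‖b‖ := by
      by_contra hh
      have : ‖b‖ = 0 := le_antisymm (not_lt.mp hh) hb0
      rw [this, mul_zero] at hab
      linarith
    have hup : ‖a + b‖ ≤ (1 + η) * ‖b‖ := by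
      have := norm_add_le a b
      linarith
    have hlo : (1 - η) * ‖b‖ ≤ ‖a + b‖ := by
      have h := norm_sub_le (a + b) a
      have h' : a + b - a = b := by ring
      rw [h'] at h
      linarith
    have hη1 : 0 < 1 - η := by linarith
    have hη2 : 0 < 1 + η := by linarith
    have habpos : 0 < ‖a + b‖ := lt_of_lt_of_le (mul_pos hη1 hbpos) hlo
    have hq2 : ‖a + b‖ ^ (p - 2) ≤ (1 + η) ^ (p - 2) * ‖b‖ ^ (p - 2) := by
      rw [← Real.mul_rpow hη2.le hb0]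
      exact Real.rpow_le_rpow (norm_nonneg _) hup hp2.le
    have hq4 : ‖a + b‖ ^ (p - 4) ≤ c * ‖b‖ ^ (p - 4) := by
      have hbp : 0 ≤ ‖b‖ ^ (p - 4) := Real.rpow_nonneg hb0 _
      rcases le_or_gt 0 (p - 4) with h | h
      · have h' : ‖a + b‖ ^ (p - 4) ≤ (1 + η) ^ (p - 4) * ‖b‖ ^ (p - 4) := by
          rw [← Real.mul_rpow hη2.le hb0]
          exact Real.rpow_le_rpow (norm_nonneg _) hup h
        exact h'.trans (mul_le_mul_of_nonneg_right (le_max_left _ _) hbp)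
      · have h' : ‖a + b‖ ^ (p - 4) ≤ (1 - η) ^ (p - 4) * ‖b‖ ^ (p - 4) := by
          rw [← Real.mul_rpow hη1.le hb0]
          exact (Real.rpow_le_rpow_iff_of_neg habpos (mul_pos hη1 hbpos) h).mpr hlo
        exact h'.trans (mul_le_mul_of_nonneg_right (le_max_right _ _) hbp)
    have hin : ((a + b).re * β.re + (a + b).im * β.im) ^ 2
        ≤ (1 + 1 / η) * (η ^ 2 * ‖b‖ ^ 2 * ‖β‖ ^ 2) + (1 + η) * (b.re * β.re + b.im * β.im) ^ 2 := by
      have e3 : (a + b).re * β.re + (a + b).im * β.im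
          = (a.re * β.re + a.im * β.im) + (b.re * β.re + b.im * β.im) := by
        simp only [Complex.add_re, Complex.add_im]
        ring
      rw [e3]
      refine (sq_split _ _ η h0).trans ?_
      have h5 : (a.re * β.re + a.im * β.im) ^ 2 ≤ η ^ 2 * ‖b‖ ^ 2 * ‖β‖ ^ 2 := by
        refine (inner_sq a β).trans ?_
        refine mul_le_mul_of_nonneg_right ?_ (sq_nonneg _)
        rw [← mul_pow]
        exact pow_le_pow_left₀ ha0 hab.le 2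
      have h6 : 0 ≤ 1 + 1 / η := by positivity
      have := mul_le_mul_of_nonneg_left h5 h6
      linarith
    have hinn : (1 + 1 / η) * η ^ 2 = η ^ 2 + η := by
      field_simp
    set I : ℝ := (b.re * β.re + b.im * β.im) ^ 2 with hI
    have hI0 : 0 ≤ I := sq_nonneg _
    have hprod : ‖a + b‖ ^ (p - 4) * ((a + b).re * β.re + (a + b).im * β.im) ^ 2
        ≤ c * ‖b‖ ^ (p - 4) * ((η ^ 2 + η) * (‖b‖ ^ 2 * ‖β‖ ^ 2) + (1 + η) * I) := by
      have hr : (1 + 1 / η) * (η ^ 2 * ‖b‖ ^ 2 * ‖β‖ ^ 2) + (1 + η) * I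
          = (η ^ 2 + η) * (‖b‖ ^ 2 * ‖β‖ ^ 2) + (1 + η) * I := by
        rw [← hinn]
        ring
      rw [← hr]
      exact mul_le_mul hq4 hin (sq_nonneg _)
        (le_trans (Real.rpow_nonneg (norm_nonneg _) _) hq4)
    have hb4 := rpow_four p ‖b‖ hbpos
    have hB2 : 0 ≤ ‖b‖ ^ (p - 2) := Real.rpow_nonneg hb0 _
    have hB4 : 0 ≤ ‖b‖ ^ (p - 4) := Real.rpow_nonneg hb0 _
    have hprod2 : ‖a + b‖ ^ (p - 4) * ((a + b).re * β.re + (a + b).im * β.im) ^ 2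
        ≤ (c * (η ^ 2 + η)) * (‖b‖ ^ (p - 2) * ‖β‖ ^ 2) + (c * (1 + η)) * (‖b‖ ^ (p - 4) * I) := by
      refine hprod.trans (le_of_eq ?_)
      rw [← hb4]
      ring
    have hC : 0 ≤ p * (p - 1) * (1 + 1 / η) ^ (p - 2) * (‖a‖ ^ (p - 2) * ‖β‖ ^ 2) := by
      have : 0 ≤ ‖a‖ ^ (p - 2) := Real.rpow_nonneg ha0 _
      positivity
    have hX : 0 ≤ ‖b‖ ^ (p - 2) * ‖β‖ ^ 2 := mul_nonneg hB2 (sq_nonneg _)
    have hY : 0 ≤ ‖b‖ ^ (p - 4) * I := mul_nonneg hB4 hI0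
    have s1 := mul_le_mul_of_nonneg_right e1 hX
    have s2 := mul_le_mul_of_nonneg_right e2 hY
    have s3 := mul_le_mul_of_nonneg_left hprod2 hp2.le
    have s4 := mul_le_mul_of_nonneg_right hq2 (sq_nonneg ‖β‖)
    have s5 := mul_le_mul_of_nonneg_left s2 hp2.le
    have main : ‖a + b‖ ^ (p - 2) * ‖β‖ ^ 2
        + (p - 2) * (‖a + b‖ ^ (p - 4) * ((a + b).re * β.re + (a + b).im * β.im) ^ 2)
        ≤ (1 + δ) * (‖b‖ ^ (p - 2) * ‖β‖ ^ 2 + (p - 2) * (‖b‖ ^ (p - 4) * I)) := by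
      nlinarith
    have main2 := mul_le_mul_of_nonneg_left main hp0.le
    unfold Qf
    rw [← hI]
    linarith

end QelAux

open QelAux in
/-- (Qel) -/
theorem qel : StmtQel := by
  refine ⟨?_, ?_, ?_⟩
  · intro p ε hp hε
    obtain ⟨δ, hδ, hδ1, hδε⟩ : ∃ δ : ℝ, 0 < δ ∧ δ ≤ 1 ∧ 3 * δ ≤ ε :=
      ⟨min 1 (ε / 3), by positivity, min_le_left _ _, by
        have := min_le_right 1 (ε / 3)
        linarith⟩
    obtain ⟨C, hC, H⟩ := Qf_point p δ hp hδ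
    have hp0 : 0 < p := by linarith
    have hp1 : 0 < p - 1 := by linarith
    refine ⟨(1 + δ) * C + (1 + 1 / δ) * (p * (p - 1)), by positivity, fun a b α β => ?_⟩
    have h1 := Qf_split p (a + b) α β δ hp hδ
    have h2 := mul_le_mul_of_nonneg_left (H a b β) (by linarith : 0 ≤ 1 + δ)
    have h3 : Qf p (a + b) α ≤ p * (p - 1) * ((‖a‖ + ‖b‖) ^ (p - 2) * ‖α‖ ^ 2) := by
      refine (Qf_le p (a + b) α hp).trans ?_
      refine mul_le_mul_of_nonneg_left ?_ (by positivity)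
      refine mul_le_mul_of_nonneg_right ?_ (sq_nonneg _)
      exact Real.rpow_le_rpow (norm_nonneg _) (norm_add_le _ _) (by linarith)
    have h4 := mul_le_mul_of_nonneg_left h3 (by positivity : 0 ≤ 1 + 1 / δ)
    have h5 : (1 + δ) * (1 + δ) ≤ 1 + ε := by nlinarith
    have h6 := mul_le_mul_of_nonneg_right h5 (Qf_nonneg p b β hp)
    have hA : 0 ≤ ‖a‖ ^ (p - 2) * ‖β‖ ^ 2 :=
      mul_nonneg (Real.rpow_nonneg (norm_nonneg _) _) (sq_nonneg _)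
    have hB : 0 ≤ (‖a‖ + ‖b‖) ^ (p - 2) * ‖α‖ ^ 2 :=
      mul_nonneg (Real.rpow_nonneg (by positivity) _) (sq_nonneg _)
    have k1 : 0 ≤ (1 + 1 / δ) * (p * (p - 1)) * (‖a‖ ^ (p - 2) * ‖β‖ ^ 2) :=
      mul_nonneg (by positivity) hA
    have k2 : 0 ≤ (1 + δ) * C * ((‖a‖ + ‖b‖) ^ (p - 2) * ‖α‖ ^ 2) :=
      mul_nonneg (by positivity) hB
    nlinarith
  · intro p ε hp hε
    obtain ⟨δ, hδ, hδ1, hδε⟩ : ∃ δ : ℝ, 0 < δ ∧ δ ≤ 1 ∧ 3 * δ ≤ ε :=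
      ⟨min 1 (ε / 3), by positivity, min_le_left _ _, by
        have := min_le_right 1 (ε / 3)
        linarith⟩
    obtain ⟨η, h0, h1, -, -, e3⟩ := choose_eta p δ hδ
    have hp2 : 0 < p - 2 := by linarith
    refine ⟨(1 / η) ^ (p - 2) + (1 + 1 / δ), by positivity, fun a b α β => ?_⟩
    have ha0 := norm_nonneg a
    have hb0 := norm_nonneg b
    have hA : 0 ≤ ‖a‖ ^ (p - 2) * ‖β‖ ^ 2 :=
      mul_nonneg (Real.rpow_nonneg (norm_nonneg _) _) (sq_nonneg _)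
    have hB : 0 ≤ ‖b‖ ^ (p - 2) * ‖α‖ ^ 2 :=
      mul_nonneg (Real.rpow_nonneg (norm_nonneg _) _) (sq_nonneg _)
    have hAB : 0 ≤ ‖a + b‖ ^ (p - 2) * ‖α + β‖ ^ 2 :=
      mul_nonneg (Real.rpow_nonneg (norm_nonneg _) _) (sq_nonneg _)
    have hq : 0 ≤ (1 / η) ^ (p - 2) := by positivity
    have hd : 0 ≤ 1 + 1 / δ := by positivity
    rcases le_or_gt (η * ‖b‖) ‖a‖ with hab | hab
    · have hb : ‖b‖ ≤ 1 / η * ‖a‖ := by
        rw [one_div, ← div_eq_inv_mul, le_div_iff₀ h0]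
        linarith
      have h3 : ‖b‖ ^ (p - 2) ≤ (1 / η) ^ (p - 2) * ‖a‖ ^ (p - 2) := by
        rw [← Real.mul_rpow (by positivity) ha0]
        exact Real.rpow_le_rpow hb0 hb hp2.le
      have h4 := mul_le_mul_of_nonneg_right h3 (sq_nonneg ‖β‖)
      have k1 : 0 ≤ (1 + ε) * (‖a + b‖ ^ (p - 2) * ‖α + β‖ ^ 2) := mul_nonneg (by linarith) hAB
      have k2 : 0 ≤ (1 / η) ^ (p - 2) * (‖b‖ ^ (p - 2) * ‖α‖ ^ 2) := mul_nonneg hq hB
      have k3 : 0 ≤ (1 + 1 / δ) * (‖a‖ ^ (p - 2) * ‖β‖ ^ 2) := mul_nonneg hd hA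
      have k4 : 0 ≤ (1 + 1 / δ) * (‖b‖ ^ (p - 2) * ‖α‖ ^ 2) := mul_nonneg hd hB
      nlinarith
    · have hlo : (1 - η) * ‖b‖ ≤ ‖a + b‖ := by
        have h := norm_sub_le (a + b) a
        have h' : a + b - a = b := by ring
        rw [h'] at h
        linarith
      have hη1 : 0 < 1 - η := by linarith
      have hq1 : 0 < (1 - η) ^ (p - 2) := Real.rpow_pos_of_pos hη1 _
      have hb2 : ‖b‖ ^ (p - 2) ≤ (1 + δ) * ‖a + b‖ ^ (p - 2) := by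
        have h3 : (1 - η) ^ (p - 2) * ‖b‖ ^ (p - 2) ≤ ‖a + b‖ ^ (p - 2) := by
          rw [← Real.mul_rpow hη1.le hb0]
          exact Real.rpow_le_rpow (by positivity) hlo hp2.le
        have h4 : ‖b‖ ^ (p - 2) ≤ ((1 - η) ^ (p - 2))⁻¹ * ‖a + b‖ ^ (p - 2) := by
          rw [← div_eq_inv_mul, le_div_iff₀ hq1]
          linarith
        exact h4.trans (mul_le_mul_of_nonneg_right e3 (Real.rpow_nonneg (norm_nonneg _) _))
      have hβ : ‖β‖ ^ 2 ≤ (1 + 1 / δ) * ‖α‖ ^ 2 + (1 + δ) * ‖α + β‖ ^ 2 := by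
        have h := norm_split (-α) (α + β) δ hδ
        have h' : -α + (α + β) = β := by ring
        rw [h', norm_neg] at h
        exact h
      have hB2 : 0 ≤ ‖b‖ ^ (p - 2) := Real.rpow_nonneg hb0 _
      have s1 := mul_le_mul_of_nonneg_left hβ hB2
      have s2 := mul_le_mul_of_nonneg_right hb2 (sq_nonneg ‖α + β‖)
      have s3 := mul_le_mul_of_nonneg_left s2 (by linarith : 0 ≤ 1 + δ)
      have h5 : (1 + δ) * (1 + δ) ≤ 1 + ε := by nlinarith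
      have s4 := mul_le_mul_of_nonneg_right h5 hAB
      have k1 : 0 ≤ (1 / η) ^ (p - 2) * (‖a‖ ^ (p - 2) * ‖β‖ ^ 2) := mul_nonneg hq hA
      have k2 : 0 ≤ (1 / η) ^ (p - 2) * (‖b‖ ^ (p - 2) * ‖α‖ ^ 2) := mul_nonneg hq hB
      have k3 : 0 ≤ (1 + 1 / δ) * (‖a‖ ^ (p - 2) * ‖β‖ ^ 2) := mul_nonneg hd hA
      nlinarith
  · intro p ε hp hε
    have hp0 : 0 < p := by linarith
    -- `(1 + δ) ^ p = 1 + ε`
    set t : ℝ := (1 + ε) ^ (1 / p) with ht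
    have ht1 : 1 < t := Real.one_lt_rpow (by linarith) (by positivity)
    have htp : t ^ p = 1 + ε := by
      rw [ht, ← Real.rpow_mul (by linarith), one_div, inv_mul_cancel₀ hp0.ne', Real.rpow_one]
    have ht0 : 0 < t := by linarith
    have hlam : 0 < 1 / t := by positivity
    have hlam1 : 0 < 1 - 1 / t := by
      have : 1 / t < 1 := by
        rw [div_lt_one ht0]
        exact ht1
      linarith
    refine ⟨(1 - 1 / t) * (1 / (1 - 1 / t)) ^ p, by positivity, fun a b => ?_⟩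
    have hcx := (convexOn_rpow hp).2 (x := t * ‖a‖) (y := 1 / (1 - 1 / t) * ‖b‖)
      (Set.mem_Ici.mpr (by positivity)) (Set.mem_Ici.mpr (by positivity)) hlam.le hlam1.le
      (by ring)
    simp only [smul_eq_mul] at hcx
    have e1 : 1 / t * (t * ‖a‖) + (1 - 1 / t) * (1 / (1 - 1 / t) * ‖b‖) = ‖a‖ + ‖b‖ := by
      have h1 : 1 / t * (t * ‖a‖) = ‖a‖ := by
        field_simp
      have h2 : (1 - 1 / t) * (1 / (1 - 1 / t) * ‖b‖) = ‖b‖ := by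
        rw [← mul_assoc, mul_one_div_cancel hlam1.ne', one_mul]
      rw [h1, h2]
    rw [e1, Real.mul_rpow ht0.le (norm_nonneg _), Real.mul_rpow (by positivity) (norm_nonneg _),
      htp] at hcx
    have h3 : ‖a + b‖ ^ p ≤ (‖a‖ + ‖b‖) ^ p :=
      Real.rpow_le_rpow (norm_nonneg _) (norm_add_le _ _) hp0.le
    have h4 : 1 / t * ((1 + ε) * ‖a‖ ^ p) ≤ (1 + ε) * ‖a‖ ^ p := by
      have h5 : 0 ≤ (1 + ε) * ‖a‖ ^ p :=
        mul_nonneg (by linarith) (Real.rpow_nonneg (norm_nonneg _) _)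
      have h6 : 1 / t ≤ 1 := by linarith
      exact mul_le_of_le_one_left h5 h6
    calc ‖a + b‖ ^ p ≤ (‖a‖ + ‖b‖) ^ p := h3
      _ ≤ 1 / t * ((1 + ε) * ‖a‖ ^ p)
          + (1 - 1 / t) * ((1 / (1 - 1 / t)) ^ p * ‖b‖ ^ p) := hcx
      _ ≤ (1 + ε) * ‖a‖ ^ p + (1 - 1 / t) * (1 / (1 - 1 / t)) ^ p * ‖b‖ ^ p := by
          rw [mul_assoc]
          linarith

end Pool.Agent.Lib.MP_dd244f_an.Rp
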