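import Pool.Agent.Lib.MP_dd244f_an.Rp.Stmts
import Pool.Agent.Lib.MP_dd244f_an.Even.RTDual

/-!
Module RT2: bilinear Riesz-Thorin interpolation with values in a finite dimensional Hilbert
space, exponents at least `2` (the target is `L^{p/2}(l^2)`, `p / 2 ≥ 1`).
-/

set_option autoImplicit false

namespace Pool.Agent.Lib.MP_dd244f_an.Rp.RT2A

open MeasureTheory Filter Topology Finset
open Pool.Agent.Lib.MP_dd244f_an.Even.RTA

section form

variable {I : Finset ℤ} {u v : ℤ → ℂ → ℂ}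
variable (huv : ∀ a ∈ I, Ker (u a) ∧ Ker (v a))

include huv

/-- square root of the square function is integrable -/
lemma Qn_half_int {f h : ℂ → ℂ} (hf : CCs f) (hh : CCs h) :
    Integrable (fun x => Qn I u v f h x ^ (1 / 2 : ℝ)) := by
  have hint : Integrable (fun x => ∑ a ∈ I, ‖cf (u a) f x‖ * ‖cf (v a) h x‖) := by
    refine integrable_finsetSum _ fun a ha => ?_
    obtain ⟨B2, h2, h2'⟩ := cf_bd (huv a ha).2 hh
    have hc1 := cf_cont (huv a ha).1.1 hf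
    have hc2 := cf_cont (huv a ha).2.1 hh
    refine Integrable.mono' (g := fun x => B2 * ‖cf (u a) f x‖)
      ((cf_int (huv a ha).1 hf).norm.const_mul _) (by fun_prop) ?_
    filter_upwards with x
    rw [Real.norm_eq_abs, abs_of_nonneg (by positivity), mul_comm]
    exact mul_le_mul_of_nonneg_right (h2' x) (norm_nonneg _)
  have hc := Qn_cont huv hf hh
  refine hint.mono' (hc.rpow_const fun x => Or.inr (by norm_num)).aestronglyMeasurable ?_
  filter_upwards with x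
  have h0 := Qn_nonneg (I := I) (u := u) (v := v) f h x
  rw [Real.norm_eq_abs, abs_of_nonneg (Real.rpow_nonneg h0 _), ← Real.sqrt_eq_rpow]
  have hs : 0 ≤ ∑ a ∈ I, ‖cf (u a) f x‖ * ‖cf (v a) h x‖ :=
    Finset.sum_nonneg fun a _ => by positivity
  rw [Real.sqrt_le_left hs]
  unfold Qn
  calc ∑ a ∈ I, ‖cf (u a) f x‖ ^ 2 * ‖cf (v a) h x‖ ^ 2
      = ∑ a ∈ I, (‖cf (u a) f x‖ * ‖cf (v a) h x‖) ^ 2 :=
        Finset.sum_congr rfl fun a _ => by ring
    _ ≤ (∑ a ∈ I, ‖cf (u a) f x‖ * ‖cf (v a) h x‖) ^ 2 :=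
        Finset.sum_sq_le_sq_sum_of_nonneg fun a _ => by positivity

lemma Qn_rpow_int2 {f h : ℂ → ℂ} (hf : CCs f) (hh : CCs h) {s : ℝ} (hs : 1 / 2 ≤ s) :
    Integrable (fun x => Qn I u v f h x ^ s) := by
  obtain ⟨B, hB0, hB⟩ := Qn_bd huv hf hh
  have hc := Qn_cont huv hf hh
  refine Integrable.mono' (g := fun x => B ^ (s - 1 / 2) * Qn I u v f h x ^ (1 / 2 : ℝ))
    ((Qn_half_int huv hf hh).const_mul _)
    (hc.rpow_const fun x => Or.inr (by linarith)).aestronglyMeasurable ?_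
  filter_upwards with x
  have h0 := Qn_nonneg (I := I) (u := u) (v := v) f h x
  rw [Real.norm_eq_abs, abs_of_nonneg (Real.rpow_nonneg h0 _)]
  calc Qn I u v f h x ^ s = Qn I u v f h x ^ (s - 1 / 2) * Qn I u v f h x ^ (1 / 2 : ℝ) := by
        rw [← Real.rpow_add_of_nonneg h0 (by linarith) (by norm_num)]
        congr 1
        ring
    _ ≤ B ^ (s - 1 / 2) * Qn I u v f h x ^ (1 / 2 : ℝ) := by
        refine mul_le_mul_of_nonneg_right ?_ (Real.rpow_nonneg h0 _)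
        exact Real.rpow_le_rpow h0 (hB x) (by linarith)

/-- Hölder's inequality -/
lemma hold2 {f h : ℂ → ℂ} {w : ℤ → ℂ → ℂ} (hf : CCs f) (hh : CCs h) (hw : ∀ a ∈ I, CCs (w a))
    {p₀ M₀ s₀ : ℝ} (hp : 2 < p₀) (hM : 0 < M₀) (hs : s₀ = p₀ / (p₀ - 2))
    (hb : ∫ x, Qn I u v f h x ^ (p₀ / 4) ≤ M₀ ^ (p₀ / 2) *
      ((∫ x, ‖f x‖ ^ p₀) ^ (1 / 2 : ℝ) * (∫ x, ‖h x‖ ^ p₀) ^ (1 / 2 : ℝ))) :
    ‖T I u v f h w‖ ≤ M₀ * ((∫ x, ‖f x‖ ^ p₀) ^ (1 / p₀) * (∫ x, ‖h x‖ ^ p₀) ^ (1 / p₀)) *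
      (∫ x, Wn I w x ^ (s₀ / 2)) ^ (1 / s₀) := by
  have hs0 : 0 < s₀ := by rw [hs]; exact div_pos (by linarith) (by linarith)
  have hs1 : 1 < s₀ := by rw [hs, one_lt_div (by linarith)]; linarith
  have hcQ := Qn_cont huv hf hh
  have hcW := Wn_cont hw
  have hIf : 0 ≤ ∫ x, ‖f x‖ ^ p₀ := integral_nonneg fun x => Real.rpow_nonneg (norm_nonneg _) _
  have hIh : 0 ≤ ∫ x, ‖h x‖ ^ p₀ := integral_nonneg fun x => Real.rpow_nonneg (norm_nonneg _) _
  -- the pointwise bound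
  have hpt : ∀ x, ‖∑ a ∈ I, cf (u a) f x * cf (v a) h x * w a x‖ ≤
      Real.sqrt (Qn I u v f h x) * Real.sqrt (Wn I w x) := by
    intro x
    calc ‖∑ a ∈ I, cf (u a) f x * cf (v a) h x * w a x‖
        ≤ ∑ a ∈ I, ‖cf (u a) f x * cf (v a) h x * w a x‖ := norm_sum_le _ _
      _ = ∑ a ∈ I, (‖cf (u a) f x‖ * ‖cf (v a) h x‖) * ‖w a x‖ := by
          refine Finset.sum_congr rfl fun a _ => ?_
          rw [norm_mul, norm_mul]
      _ ≤ Real.sqrt (∑ a ∈ I, (‖cf (u a) f x‖ * ‖cf (v a) h x‖) ^ 2) *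
            Real.sqrt (∑ a ∈ I, ‖w a x‖ ^ 2) := Real.sum_mul_le_sqrt_mul_sqrt _ _ _
      _ = _ := by
          unfold Qn Wn
          congr 2
          refine Finset.sum_congr rfl fun a _ => ?_
          rw [mul_pow]
  have hint : ∀ a ∈ I, Integrable fun x => cf (u a) f x * cf (v a) h x * w a x := by
    intro a ha
    have h1 := cf_cont (huv a ha).1.1 hf
    have h2 := cf_cont (huv a ha).2.1 hh
    have h3 := (hw a ha).1
    have hc : Continuous fun x => cf (u a) f x * cf (v a) h x * w a x := by fun_prop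
    exact hc.integrable_of_hasCompactSupport (hw a ha).2.mul_left
  have hT : T I u v f h w = ∫ x, ∑ a ∈ I, cf (u a) f x * cf (v a) h x * w a x := by
    unfold T
    rw [integral_finsetSum _ hint]
  have hprod_int : Integrable fun x => Real.sqrt (Qn I u v f h x) * Real.sqrt (Wn I w x) := by
    have hc : Continuous fun x => Real.sqrt (Qn I u v f h x) * Real.sqrt (Wn I w x) := by
      fun_prop
    refine hc.integrable_of_hasCompactSupport ?_
    apply HasCompactSupport.mul_left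
    exact (Wn_supp hw).comp_left (g := fun z : ℝ => Real.sqrt z) Real.sqrt_zero
  have h1 : ‖T I u v f h w‖ ≤ ∫ x, Real.sqrt (Qn I u v f h x) * Real.sqrt (Wn I w x) := by
    rw [hT]
    exact norm_integral_le_of_norm_le hprod_int (Filter.Eventually.of_forall hpt)
  have hconj : (p₀ / 2).HolderConjugate s₀ := by
    rw [Real.holderConjugate_iff]
    refine ⟨by linarith, ?_⟩
    rw [hs]
    have h2 : p₀ ≠ 0 := by linarith
    have h3 : p₀ - 2 ≠ 0 := by linarith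
    field_simp
    ring
  have hmQ : MemLp (fun x => Real.sqrt (Qn I u v f h x)) (ENNReal.ofReal (p₀ / 2)) := by
    rw [← integrable_norm_rpow_iff (by fun_prop) (by simp; linarith) ENNReal.ofReal_ne_top,
      ENNReal.toReal_ofReal (by linarith)]
    refine (Qn_rpow_int2 huv hf hh (s := p₀ / 4) (by linarith)).congr
      (Filter.Eventually.of_forall fun x => ?_)
    have h0 := Qn_nonneg (I := I) (u := u) (v := v) f h x
    simp only
    rw [Real.norm_eq_abs, abs_of_nonneg (Real.sqrt_nonneg _), Real.sqrt_eq_rpow,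
      ← Real.rpow_mul h0]
    congr 1; ring
  have hmW : MemLp (fun x => Real.sqrt (Wn I w x)) (ENNReal.ofReal s₀) := by
    have hc : Continuous fun x => Real.sqrt (Wn I w x) := by fun_prop
    exact hc.memLp_of_hasCompactSupport
      ((Wn_supp hw).comp_left (g := fun z : ℝ => Real.sqrt z) Real.sqrt_zero)
  have h2 := integral_mul_le_Lp_mul_Lq_of_nonneg hconj
    (Filter.Eventually.of_forall fun x => Real.sqrt_nonneg (Qn I u v f h x))
    (Filter.Eventually.of_forall fun x => Real.sqrt_nonneg (Wn I w x)) hmQ hmW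
  have e1 : ∫ x, Real.sqrt (Qn I u v f h x) ^ (p₀ / 2) = ∫ x, Qn I u v f h x ^ (p₀ / 4) := by
    congr 1
    ext x
    rw [Real.sqrt_eq_rpow, ← Real.rpow_mul (Qn_nonneg f h x)]
    congr 1; ring
  have e2 : ∫ x, Real.sqrt (Wn I w x) ^ s₀ = ∫ x, Wn I w x ^ (s₀ / 2) := by
    congr 1
    ext x
    rw [Real.sqrt_eq_rpow, ← Real.rpow_mul (Wn_nonneg w x)]
    congr 1; ring
  rw [e1, e2] at h2
  refine h1.trans (h2.trans ?_)
  have h3 : 0 ≤ ∫ x, Qn I u v f h x ^ (p₀ / 4) :=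
    integral_nonneg fun x => Real.rpow_nonneg (Qn_nonneg f h x) _
  have h4 : 0 ≤ (∫ x, Wn I w x ^ (s₀ / 2)) ^ (1 / s₀) :=
    Real.rpow_nonneg (integral_nonneg fun x => Real.rpow_nonneg (Wn_nonneg w x) _) _
  refine mul_le_mul_of_nonneg_right ?_ h4
  calc (∫ x, Qn I u v f h x ^ (p₀ / 4)) ^ (1 / (p₀ / 2))
      ≤ (M₀ ^ (p₀ / 2) * ((∫ x, ‖f x‖ ^ p₀) ^ (1 / 2 : ℝ) *
          (∫ x, ‖h x‖ ^ p₀) ^ (1 / 2 : ℝ))) ^ (1 / (p₀ / 2)) := by
        apply Real.rpow_le_rpow h3 hb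
        positivity
    _ = M₀ * ((∫ x, ‖f x‖ ^ p₀) ^ (1 / p₀) * (∫ x, ‖h x‖ ^ p₀) ^ (1 / p₀)) := by
        rw [Real.mul_rpow (by positivity) (by positivity), Real.mul_rpow (by positivity)
          (by positivity), ← Real.rpow_mul hM.le, ← Real.rpow_mul hIf, ← Real.rpow_mul hIh]
        have e3 : p₀ / 2 * (1 / (p₀ / 2)) = 1 := by field_simp
        have e4 : (1 / 2 : ℝ) * (1 / (p₀ / 2)) = 1 / p₀ := by field_simp
        rw [e3, e4, Real.rpow_one]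

/-- the case `p₀ = 2` -/
lemma hold_two {f h : ℂ → ℂ} {w : ℤ → ℂ → ℂ} (hf : CCs f) (hh : CCs h) (hw : ∀ a ∈ I, CCs (w a))
    {M₀ S : ℝ} (hS : ∀ x, Real.sqrt (Wn I w x) ≤ S)
    (hb : ∫ x, Qn I u v f h x ^ ((2 : ℝ) / 4) ≤ M₀ ^ ((2 : ℝ) / 2) *
      ((∫ x, ‖f x‖ ^ (2 : ℝ)) ^ (1 / 2 : ℝ) * (∫ x, ‖h x‖ ^ (2 : ℝ)) ^ (1 / 2 : ℝ))) :
    ‖T I u v f h w‖ ≤ M₀ * ((∫ x, ‖f x‖ ^ (2 : ℝ)) ^ (1 / (2 : ℝ)) *
      (∫ x, ‖h x‖ ^ (2 : ℝ)) ^ (1 / (2 : ℝ))) * S := by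
  have hcQ := Qn_cont huv hf hh
  have hcW := Wn_cont hw
  have hS0 : 0 ≤ S := (Real.sqrt_nonneg _).trans (hS 0)
  have hpt : ∀ x, ‖∑ a ∈ I, cf (u a) f x * cf (v a) h x * w a x‖ ≤
      Real.sqrt (Qn I u v f h x) * Real.sqrt (Wn I w x) := by
    intro x
    calc ‖∑ a ∈ I, cf (u a) f x * cf (v a) h x * w a x‖
        ≤ ∑ a ∈ I, ‖cf (u a) f x * cf (v a) h x * w a x‖ := norm_sum_le _ _
      _ = ∑ a ∈ I, (‖cf (u a) f x‖ * ‖cf (v a) h x‖) * ‖w a x‖ := by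
          refine Finset.sum_congr rfl fun a _ => ?_
          rw [norm_mul, norm_mul]
      _ ≤ Real.sqrt (∑ a ∈ I, (‖cf (u a) f x‖ * ‖cf (v a) h x‖) ^ 2) *
            Real.sqrt (∑ a ∈ I, ‖w a x‖ ^ 2) := Real.sum_mul_le_sqrt_mul_sqrt _ _ _
      _ = _ := by
          unfold Qn Wn
          congr 2
          refine Finset.sum_congr rfl fun a _ => ?_
          rw [mul_pow]
  have hint : ∀ a ∈ I, Integrable fun x => cf (u a) f x * cf (v a) h x * w a x := by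
    intro a ha
    have h1 := cf_cont (huv a ha).1.1 hf
    have h2 := cf_cont (huv a ha).2.1 hh
    have h3 := (hw a ha).1
    have hc : Continuous fun x => cf (u a) f x * cf (v a) h x * w a x := by fun_prop
    exact hc.integrable_of_hasCompactSupport (hw a ha).2.mul_left
  have hT : T I u v f h w = ∫ x, ∑ a ∈ I, cf (u a) f x * cf (v a) h x * w a x := by
    unfold T
    rw [integral_finsetSum _ hint]
  have hi := Qn_half_int huv hf hh
  have h1 : ‖T I u v f h w‖ ≤ ∫ x, Qn I u v f h x ^ (1 / 2 : ℝ) * S := by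
    rw [hT]
    refine norm_integral_le_of_norm_le (hi.mul_const _) (Filter.Eventually.of_forall fun x => ?_)
    refine (hpt x).trans ?_
    rw [← Real.sqrt_eq_rpow]
    exact mul_le_mul_of_nonneg_left (hS x) (Real.sqrt_nonneg _)
  rw [integral_mul_const] at h1
  refine h1.trans (mul_le_mul_of_nonneg_right ?_ hS0)
  have e1 : (2 : ℝ) / 4 = 1 / 2 := by norm_num
  rw [e1, div_self (two_ne_zero), Real.rpow_one] at hb
  exact hb

end form

lemma inv_s₀ {p₀ s₀ : ℝ} (hp0 : 2 ≤ p₀) (hs0 : s₀ = p₀ / (p₀ - 2)) :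
    1 / s₀ = 1 - 2 * (1 / p₀) := by
  rcases hp0.eq_or_lt with h | h
  · rw [hs0, ← h]
    norm_num
  · rw [hs0]
    have h1 : p₀ - 2 ≠ 0 := by linarith
    have h2 : p₀ ≠ 0 := by linarith
    field_simp

lemma s₀_nonneg {p₀ s₀ : ℝ} (hp0 : 2 ≤ p₀) (hs0 : s₀ = p₀ / (p₀ - 2)) : 0 ≤ s₀ := by
  rw [hs0]
  exact div_nonneg (by linarith) (by linarith)

/-- the regularised estimate -/
lemma interp_eps2 {I : Finset ℤ} {u v : ℤ → ℂ → ℂ} (huv : ∀ a ∈ I, Ker (u a) ∧ Ker (v a))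
    {f h : ℂ → ℂ} {w : ℤ → ℂ → ℂ} (hf : CCs f) (hh : CCs h) (hw : ∀ a ∈ I, CCs (w a))
    {p₀ p₁ p M₀ M₁ τ s₀ s₁ s : ℝ} (hp0 : 2 ≤ p₀) (hp2 : 2 < p) (hp0p : p₀ ≤ p) (hpp1 : p ≤ p₁)
    (hM0 : 0 < M₀) (hM1 : 0 < M₁) (hτ0 : 0 ≤ τ) (hτ1 : τ ≤ 1)
    (hp : 1 / p = (1 - τ) / p₀ + τ / p₁) (hs0 : s₀ = p₀ / (p₀ - 2)) (hs1 : s₁ = p₁ / (p₁ - 2))
    (hs : s = p / (p - 2))
    (hb0 : ∀ f h, CCs f → CCs h → ∫ x, Qn I u v f h x ^ (p₀ / 4) ≤ M₀ ^ (p₀ / 2) *
      ((∫ x, ‖f x‖ ^ p₀) ^ (1 / 2 : ℝ) * (∫ x, ‖h x‖ ^ p₀) ^ (1 / 2 : ℝ)))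
    (hb1 : ∀ f h, CCs f → CCs h → ∫ x, Qn I u v f h x ^ (p₁ / 4) ≤ M₁ ^ (p₁ / 2) *
      ((∫ x, ‖f x‖ ^ p₁) ^ (1 / 2 : ℝ) * (∫ x, ‖h x‖ ^ p₁) ^ (1 / 2 : ℝ)))
    {ε : ℝ} (hε : 0 < ε) :
    ‖T I u v f h w‖ ≤
      (M₀ * ((∫ x, Real.exp ((p - p₀) / 2 * Real.log (‖f x‖ ^ 2 + ε ^ 2)) * ‖f x‖ ^ p₀) ^
          (1 / p₀) *
        (∫ x, Real.exp ((p - p₀) / 2 * Real.log (‖h x‖ ^ 2 + ε ^ 2)) * ‖h x‖ ^ p₀) ^
          (1 / p₀)) * (∫ x, Real.sqrt (Wn I w x) ^ s) ^ (1 / s₀)) ^ (1 - τ) *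
      (M₁ * ((∫ x, ‖f x‖ ^ p) ^ (1 / p₁) * (∫ x, ‖h x‖ ^ p) ^ (1 / p₁)) *
        (∫ x, Real.exp ((s - s₁) / 2 * Real.log (Real.sqrt (Wn I w x) ^ 2 + ε ^ 2)) *
          Real.sqrt (Wn I w x) ^ s₁) ^ (1 / s₁)) ^ τ := by
  have hp0' : 0 < p₀ := by linarith
  have hp' : 0 < p := by linarith
  have hp1' : 0 < p₁ := by linarith
  have hs1' : 0 < s₁ := by rw [hs1]; exact div_pos (by linarith) (by linarith)
  have hs' : 0 < s := by rw [hs]; exact div_pos (by linarith) (by linarith)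
  have hss1 : s₁ ≤ s := by
    rw [hs, hs1, div_le_div_iff₀ (by linarith) (by linarith)]
    nlinarith
  have hsτ : 1 / s = (1 - τ) / s₀ + τ / s₁ := by
    have e1 : 1 / s = 1 - 2 * (1 / p) := by
      rw [hs]
      have : p - 2 ≠ 0 := by linarith
      field_simp
    have e2 : 1 / s₀ = 1 - 2 * (1 / p₀) := inv_s₀ hp0 hs0
    have e3 : 1 / s₁ = 1 - 2 * (1 / p₁) := by
      rw [hs1]
      have : p₁ - 2 ≠ 0 := by linarith
      field_simp
    rw [e1, hp, div_eq_mul_one_div (1 - τ) s₀, div_eq_mul_one_div τ s₁, e2, e3]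
    ring
  have cW := Wn_cont hw
  have sW := Wn_supp hw
  -- the logarithms
  set Lf : ℂ → ℝ := fun x => Real.log (‖f x‖ ^ 2 + ε ^ 2) with hLf
  set Lh : ℂ → ℝ := fun x => Real.log (‖h x‖ ^ 2 + ε ^ 2) with hLh
  set Lw : ℂ → ℝ := fun x => Real.log (Real.sqrt (Wn I w x) ^ 2 + ε ^ 2) with hLw
  have cLf : Continuous Lf := by
    have := hf.1
    apply Continuous.log (by fun_prop)
    intro x
    positivity
  have cLh : Continuous Lh := by
    have := hh.1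
    apply Continuous.log (by fun_prop)
    intro x
    positivity
  have cLw : Continuous Lw := by
    apply Continuous.log (by fun_prop)
    intro x
    positivity
  -- the exponents
  set α₀ : ℝ := (p / p₀ - 1) / 2 with hα₀
  set α₁ : ℝ := (p / p₁ - 1) / 2 with hα₁
  set γ₀ : ℝ := (s / s₀ - 1) / 2 with hγ₀
  set γ₁ : ℝ := (s / s₁ - 1) / 2 with hγ₁
  have hατ : α₀ + τ * (α₁ - α₀) = 0 := by
    have : p * (1 / p) = 1 := by field_simp
    rw [hp] at this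
    rw [hα₀, hα₁]
    have e1 : p / p₀ = p * (1 / p₀) := by ring
    have e2 : p / p₁ = p * (1 / p₁) := by ring
    have e3 : p * ((1 - τ) / p₀ + τ / p₁) = (1 - τ) * (p * (1 / p₀)) + τ * (p * (1 / p₁)) := by
      ring
    rw [e3] at this
    rw [e1, e2]
    linarith
  have hγτ : γ₀ + τ * (γ₁ - γ₀) = 0 := by
    have : s * (1 / s) = 1 := by field_simp
    rw [hsτ] at this
    rw [hγ₀, hγ₁]
    have e1 : s / s₀ = s * (1 / s₀) := by ring
    have e2 : s / s₁ = s * (1 / s₁) := by ring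
    have e3 : s * ((1 - τ) / s₀ + τ / s₁) = (1 - τ) * (s * (1 / s₀)) + τ * (s * (1 / s₁)) := by
      ring
    rw [e3] at this
    rw [e1, e2]
    linarith
  have hα₀p : α₀ * p₀ = (p - p₀) / 2 := by rw [hα₀]; field_simp
  have hα₁p : α₁ * p₁ = (p - p₁) / 2 := by rw [hα₁]; field_simp
  have hγ₁s : γ₁ * s₁ = (s - s₁) / 2 := by rw [hγ₁]; field_simp
  -- the family
  have ch1 : Continuous fun x => (α₁ - α₀) * Lf x := by fun_prop
  have ch2 : Continuous fun x => (α₁ - α₀) * Lh x := by fun_prop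
  have ch3 : Continuous fun x => (γ₁ - γ₀) * Lw x := by fun_prop
  have ch4 : Continuous fun x => α₀ * Lf x := by fun_prop
  have ch5 : Continuous fun x => α₀ * Lh x := by fun_prop
  have ch6 : Continuous fun x => γ₀ * Lw x := by fun_prop
  obtain ⟨hd, C, hC⟩ := T_entire huv (ex_cc ch4 1 hf) (ex_cc ch5 1 hh)
    (fun a ha => ex_cc ch6 1 (hw a ha)) ch1 ch2 ch3
  set F : ℂ → ℂ := fun z => T I u v
    (ex (fun x => (α₁ - α₀) * Lf x) z (ex (fun x => α₀ * Lf x) 1 f))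
    (ex (fun x => (α₁ - α₀) * Lh x) z (ex (fun x => α₀ * Lh x) 1 h))
    (fun a => ex (fun x => (γ₁ - γ₀) * Lw x) z (ex (fun x => γ₀ * Lw x) 1 (w a))) with hF
  have b0 : ∀ z ∈ Complex.re ⁻¹' {0}, ‖F z‖ ≤
      M₀ * ((∫ x, Real.exp ((p - p₀) / 2 * Lf x) * ‖f x‖ ^ p₀) ^ (1 / p₀) *
        (∫ x, Real.exp ((p - p₀) / 2 * Lh x) * ‖h x‖ ^ p₀) ^ (1 / p₀)) *
        (∫ x, Real.sqrt (Wn I w x) ^ s) ^ (1 / s₀) := by
    intro z hz
    have hz' : z.re = 0 := hz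
    have e1 : ∫ x, ‖ex (fun x => (α₁ - α₀) * Lf x) z (ex (fun x => α₀ * Lf x) 1 f) x‖ ^ p₀ =
        ∫ x, Real.exp ((p - p₀) / 2 * Lf x) * ‖f x‖ ^ p₀ := by
      congr 1
      ext x
      rw [ex_rpow, hz', ← hα₀p]
      ring_nf
    have e2 : ∫ x, ‖ex (fun x => (α₁ - α₀) * Lh x) z (ex (fun x => α₀ * Lh x) 1 h) x‖ ^ p₀ =
        ∫ x, Real.exp ((p - p₀) / 2 * Lh x) * ‖h x‖ ^ p₀ := by
      congr 1
      ext x
      rw [ex_rpow, hz', ← hα₀p]
      ring_nf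
    rcases hp0.eq_or_lt with h2 | h2
    · -- `p₀ = 2`
      have hγ₀2 : γ₀ = -(1 / 2) := by
        rw [hγ₀, hs0, ← h2]
        norm_num
      have es : 1 / s₀ = 0 := by
        rw [hs0, ← h2]
        norm_num
      rw [es, Real.rpow_zero]
      have hS : ∀ x, Real.sqrt (Wn I (fun a => ex (fun x => (γ₁ - γ₀) * Lw x) z
          (ex (fun x => γ₀ * Lw x) 1 (w a))) x) ≤ 1 := by
        intro x
        rw [Real.sqrt_eq_rpow, ex_Wn, hz', hγ₀2, Real.rpow_one]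
        have hpos : 0 < Real.sqrt (Wn I w x) ^ 2 + ε ^ 2 := by positivity
        have e5 : (0 * ((γ₁ - -(1 / 2)) * Lw x) + -(1 / 2) * Lw x) * 1
            = -(Real.log (Real.sqrt (Real.sqrt (Wn I w x) ^ 2 + ε ^ 2))) := by
          rw [Real.log_sqrt hpos.le]
          ring
        rw [e5, Real.exp_neg, Real.exp_log (Real.sqrt_pos.2 hpos), inv_mul_le_iff₀
          (Real.sqrt_pos.2 hpos), mul_one]
        refine Real.le_sqrt_of_sq_le ?_
        have := sq_nonneg ε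
        linarith
      have k := hold_two huv (ex_cc ch1 z (ex_cc ch4 1 hf)) (ex_cc ch2 z (ex_cc ch5 1 hh))
        (fun a ha => ex_cc ch3 z (ex_cc ch6 1 (hw a ha))) hS
        (by
          have := hb0 _ _ (ex_cc ch1 z (ex_cc ch4 1 hf)) (ex_cc ch2 z (ex_cc ch5 1 hh))
          rw [← h2] at this
          exact this)
      rw [h2, e1, e2] at k
      exact k
    · have hs0' : 0 < s₀ := by rw [hs0]; exact div_pos (by linarith) (by linarith)
      have hss0 : s ≤ s₀ := by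
        rw [hs, hs0, div_le_div_iff₀ (by linarith) (by linarith)]
        nlinarith
      have hγ₀s : γ₀ * s₀ = (s - s₀) / 2 := by rw [hγ₀]; field_simp
      have k := hold2 huv (ex_cc ch1 z (ex_cc ch4 1 hf)) (ex_cc ch2 z (ex_cc ch5 1 hh))
        (fun a ha => ex_cc ch3 z (ex_cc ch6 1 (hw a ha))) h2 hM0 hs0
        (hb0 _ _ (ex_cc ch1 z (ex_cc ch4 1 hf)) (ex_cc ch2 z (ex_cc ch5 1 hh)))
      refine k.trans ?_
      rw [e1, e2]
      refine mul_le_mul_of_nonneg_left ?_ ?_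
      · refine Real.rpow_le_rpow (integral_nonneg fun x => Real.rpow_nonneg (Wn_nonneg _ x) _) ?_
          (by positivity)
        refine integral_mono_of_nonneg
          (Filter.Eventually.of_forall fun x => Real.rpow_nonneg (Wn_nonneg _ x) _) ?_
          (Filter.Eventually.of_forall fun x => ?_)
        · have hc : Continuous fun x => Real.sqrt (Wn I w x) ^ s :=
            (Real.continuous_sqrt.comp cW).rpow_const fun x => Or.inr hs'.le
          refine hc.integrable_of_hasCompactSupport ?_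
          exact sW.comp_left (g := fun y : ℝ => Real.sqrt y ^ s)
            (by simp [Real.zero_rpow hs'.ne'])
        · simp only
          rw [ex_Wn, hz', show (0 * ((γ₁ - γ₀) * Lw x) + γ₀ * Lw x) * s₀ = γ₀ * s₀ * Lw x by ring,
            hγ₀s]
          exact reg_le (Real.sqrt_nonneg _) hε hs' hss0
      · have i1 : 0 ≤ ∫ x, Real.exp ((p - p₀) / 2 * Lf x) * ‖f x‖ ^ p₀ :=
          integral_nonneg fun x => by positivity
        have i2 : 0 ≤ ∫ x, Real.exp ((p - p₀) / 2 * Lh x) * ‖h x‖ ^ p₀ :=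
          integral_nonneg fun x => by positivity
        positivity
  have b1 : ∀ z ∈ Complex.re ⁻¹' {1}, ‖F z‖ ≤
      M₁ * ((∫ x, ‖f x‖ ^ p) ^ (1 / p₁) * (∫ x, ‖h x‖ ^ p) ^ (1 / p₁)) *
        (∫ x, Real.exp ((s - s₁) / 2 * Lw x) * Real.sqrt (Wn I w x) ^ s₁) ^ (1 / s₁) := by
    intro z hz
    have hz' : z.re = 1 := hz
    have k := hold2 huv (ex_cc ch1 z (ex_cc ch4 1 hf)) (ex_cc ch2 z (ex_cc ch5 1 hh))
      (fun a ha => ex_cc ch3 z (ex_cc ch6 1 (hw a ha))) (by linarith : 2 < p₁) hM1 hs1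
      (hb1 _ _ (ex_cc ch1 z (ex_cc ch4 1 hf)) (ex_cc ch2 z (ex_cc ch5 1 hh)))
    refine k.trans ?_
    have e3 : ∫ x, Wn I (fun a => ex (fun x => (γ₁ - γ₀) * Lw x) z
        (ex (fun x => γ₀ * Lw x) 1 (w a))) x ^ (s₁ / 2) =
        ∫ x, Real.exp ((s - s₁) / 2 * Lw x) * Real.sqrt (Wn I w x) ^ s₁ := by
      congr 1
      ext x
      rw [ex_Wn, hz', ← hγ₁s]
      ring_nf
    rw [e3]
    have i3 : 0 ≤ ∫ x, Real.exp ((s - s₁) / 2 * Lw x) * Real.sqrt (Wn I w x) ^ s₁ :=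
      integral_nonneg fun x => by positivity
    refine mul_le_mul_of_nonneg_right ?_ (Real.rpow_nonneg i3 _)
    refine mul_le_mul_of_nonneg_left ?_ hM1.le
    have key : ∀ g : ℂ → ℂ, CCs g → (∫ x, ‖ex (fun x => (α₁ - α₀) *
        Real.log (‖g x‖ ^ 2 + ε ^ 2)) z (ex (fun x => α₀ * Real.log (‖g x‖ ^ 2 + ε ^ 2)) 1 g) x‖
          ^ p₁) ≤ ∫ x, ‖g x‖ ^ p := by
      intro g hg
      have hc : Continuous fun x => ‖g x‖ ^ p := hg.1.norm.rpow_const fun x => Or.inr hp'.le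
      refine integral_mono_of_nonneg
        (Filter.Eventually.of_forall fun x => Real.rpow_nonneg (norm_nonneg _) _)
        (hc.integrable_of_hasCompactSupport
          (hg.2.comp_left (g := fun y : ℂ => ‖y‖ ^ p) (by simp [Real.zero_rpow hp'.ne'])))
        (Filter.Eventually.of_forall fun x => ?_)
      simp only
      rw [ex_rpow, hz', show (1 * ((α₁ - α₀) * Real.log (‖g x‖ ^ 2 + ε ^ 2)) +
        α₀ * Real.log (‖g x‖ ^ 2 + ε ^ 2)) * p₁ = α₁ * p₁ * Real.log (‖g x‖ ^ 2 + ε ^ 2) by ring,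
        hα₁p]
      exact reg_le (norm_nonneg _) hε hp' hpp1
    have n1 : ∀ g : ℂ → ℂ, 0 ≤ ∫ x, ‖g x‖ ^ p₁ := fun g =>
      integral_nonneg fun x => Real.rpow_nonneg (norm_nonneg _) _
    have n2 : ∀ g : ℂ → ℂ, 0 ≤ ∫ x, ‖g x‖ ^ p := fun g =>
      integral_nonneg fun x => Real.rpow_nonneg (norm_nonneg _) _
    refine mul_le_mul (Real.rpow_le_rpow (n1 _) (key f hf) (by positivity))
      (Real.rpow_le_rpow (n1 _) (key h hh) (by positivity)) (Real.rpow_nonneg (n1 _) _)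
      (Real.rpow_nonneg (n2 _) _)
  have hθ : ((τ : ℝ) : ℂ) ∈ Complex.HadamardThreeLines.verticalClosedStrip 0 1 := by
    constructor
    · simpa only [Complex.ofReal_re] using hτ0
    · simpa only [Complex.ofReal_re] using hτ1
  have h3l := Complex.HadamardThreeLines.norm_le_interp_of_mem_verticalClosedStrip₀₁' F hθ
    (hd.diffContOnCl) (by
      refine ⟨C, ?_⟩
      rintro y ⟨ζ, hζ, rfl⟩
      exact hC ζ hζ.1 hζ.2) b0 b1
  rw [Complex.ofReal_re] at h3l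
  have back : ∀ (g : ℂ → ℂ) (L : ℂ → ℝ) (β₀ β₁ : ℝ), β₀ + τ * (β₁ - β₀) = 0 →
      ex (fun x => (β₁ - β₀) * L x) (τ : ℂ) (ex (fun x => β₀ * L x) 1 g) = g := by
    intro g L β₀ β₁ hβ
    ext x
    unfold ex
    rw [← mul_assoc, ← Complex.exp_add]
    have e : (τ : ℂ) * (((β₁ - β₀) * L x : ℝ) : ℂ) + 1 * ((β₀ * L x : ℝ) : ℂ) = 0 := by
      have : (((β₀ + τ * (β₁ - β₀)) * L x : ℝ) : ℂ) = 0 := by rw [hβ]; simp
      rw [← this]
      push_cast
      ring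
    rw [e, Complex.exp_zero, one_mul]
  have hFθ : F (τ : ℂ) = T I u v f h w := by
    rw [hF]
    simp only
    rw [back f Lf α₀ α₁ hατ, back h Lh α₀ α₁ hατ]
    congr 1
    ext a x
    rw [back (w a) Lw γ₀ γ₁ hγτ]
  rw [hFθ] at h3l
  exact h3l

/-- the exponents are monotone -/
lemma exps2 {p₀ p₁ p τ : ℝ} (hp0 : 2 ≤ p₀) (hp01 : p₀ ≤ p₁) (hτ0 : 0 ≤ τ) (hτ1 : τ ≤ 1)
    (hp : 1 / p = (1 - τ) / p₀ + τ / p₁) : p₀ ≤ p ∧ p ≤ p₁ := by
  have h0 : 0 < 1 / p₀ := by positivity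
  have h1 : 0 < 1 / p₁ := by
    have : 0 < p₁ := by linarith
    positivity
  have h01 : 1 / p₁ ≤ 1 / p₀ := one_div_le_one_div_of_le (by linarith) hp01
  have e : 1 / p = (1 - τ) * (1 / p₀) + τ * (1 / p₁) := by rw [hp]; ring
  have hl : 1 / p₁ ≤ 1 / p := by rw [e]; nlinarith
  have hu : 1 / p ≤ 1 / p₀ := by rw [e]; nlinarith
  have hpp : 0 < p := by
    have : 0 < 1 / p := lt_of_lt_of_le h1 hl
    exact one_div_pos.1 this
  constructor
  · rwa [one_div_le_one_div hpp (by linarith)] at hu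
  · rwa [one_div_le_one_div (by linarith) hpp] at hl

/-- interpolation for the trilinear form -/
lemma interp2 {I : Finset ℤ} {u v : ℤ → ℂ → ℂ} (huv : ∀ a ∈ I, Ker (u a) ∧ Ker (v a))
    {f h : ℂ → ℂ} {w : ℤ → ℂ → ℂ} (hf : CCs f) (hh : CCs h) (hw : ∀ a ∈ I, CCs (w a))
    {p₀ p₁ p M₀ M₁ τ s : ℝ} (hp0 : 2 ≤ p₀) (hp2 : 2 < p) (hp01 : p₀ ≤ p₁)
    (hM0 : 0 < M₀) (hM1 : 0 < M₁) (hτ0 : 0 ≤ τ) (hτ1 : τ ≤ 1)
    (hp : 1 / p = (1 - τ) / p₀ + τ / p₁) (hs : s = p / (p - 2))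
    (hb0 : ∀ f h, CCs f → CCs h → ∫ x, Qn I u v f h x ^ (p₀ / 4) ≤ M₀ ^ (p₀ / 2) *
      ((∫ x, ‖f x‖ ^ p₀) ^ (1 / 2 : ℝ) * (∫ x, ‖h x‖ ^ p₀) ^ (1 / 2 : ℝ)))
    (hb1 : ∀ f h, CCs f → CCs h → ∫ x, Qn I u v f h x ^ (p₁ / 4) ≤ M₁ ^ (p₁ / 2) *
      ((∫ x, ‖f x‖ ^ p₁) ^ (1 / 2 : ℝ) * (∫ x, ‖h x‖ ^ p₁) ^ (1 / 2 : ℝ))) :
    ‖T I u v f h w‖ ≤ M₀ ^ (1 - τ) * M₁ ^ τ *
      ((∫ x, ‖f x‖ ^ p) ^ (1 / p) * (∫ x, ‖h x‖ ^ p) ^ (1 / p)) *
      (∫ x, Real.sqrt (Wn I w x) ^ s) ^ (1 / s) := by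
  obtain ⟨hp0p, hpp1⟩ := exps2 hp0 hp01 hτ0 hτ1 hp
  set s₀ : ℝ := p₀ / (p₀ - 2) with hs0
  set s₁ : ℝ := p₁ / (p₁ - 2) with hs1
  have hp0' : 0 < p₀ := by linarith
  have hp' : 0 < p := by linarith
  have hp1' : 0 < p₁ := by linarith
  have hs0' : 0 ≤ s₀ := s₀_nonneg hp0 hs0
  have hs1' : 0 < s₁ := by rw [hs1]; exact div_pos (by linarith) (by linarith)
  have hs' : 0 < s := by rw [hs]; exact div_pos (by linarith) (by linarith)
  have hss1 : s₁ ≤ s := by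
    rw [hs, hs1, div_le_div_iff₀ (by linarith) (by linarith)]
    nlinarith
  have hsτ : 1 / s = (1 - τ) / s₀ + τ / s₁ := by
    have e1 : 1 / s = 1 - 2 * (1 / p) := by
      rw [hs]
      have : p - 2 ≠ 0 := by linarith
      field_simp
    have e2 : 1 / s₀ = 1 - 2 * (1 / p₀) := inv_s₀ hp0 hs0
    have e3 : 1 / s₁ = 1 - 2 * (1 / p₁) := by
      rw [hs1]
      have : p₁ - 2 ≠ 0 := by linarith
      field_simp
    rw [e1, hp, div_eq_mul_one_div (1 - τ) s₀, div_eq_mul_one_div τ s₁, e2, e3]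
    ring
  have cW := Wn_cont hw
  have sW := Wn_supp hw
  have lim1 := reg_lim (ρ := fun x => ‖f x‖) hf.1.norm hf.2.norm (fun x => norm_nonneg _)
    hp0' hp0p
  have lim2 := reg_lim (ρ := fun x => ‖h x‖) hh.1.norm hh.2.norm (fun x => norm_nonneg _)
    hp0' hp0p
  have lim3 := reg_lim (ρ := fun x => Real.sqrt (Wn I w x)) (Real.continuous_sqrt.comp cW)
    (sW.comp_left (g := fun y : ℝ => Real.sqrt y) Real.sqrt_zero)
    (fun x => Real.sqrt_nonneg _) hs1' hss1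
  have key := fun k : ℕ => interp_eps2 huv hf hh hw hp0 hp2 hp0p hpp1 hM0 hM1 hτ0 hτ1 hp hs0 hs1 hs
    hb0 hb1 (ε := 1 / ((k:ℝ) + 1)) (by positivity)
  have hlim := ((((lim1.rpow_const (p := 1 / p₀) (Or.inr (by positivity))).mul
    (lim2.rpow_const (p := 1 / p₀) (Or.inr (by positivity)))).const_mul M₀).mul_const
      ((∫ x, Real.sqrt (Wn I w x) ^ s) ^ (1 / s₀))).rpow_const (p := 1 - τ)
      (Or.inr (by linarith))
  have hlim2 := ((lim3.rpow_const (p := 1 / s₁) (Or.inr (by positivity))).const_mul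
    (M₁ * ((∫ x, ‖f x‖ ^ p) ^ (1 / p₁) * (∫ x, ‖h x‖ ^ p) ^ (1 / p₁)))).rpow_const (p := τ)
      (Or.inr hτ0)
  have hfin := ge_of_tendsto' (hlim.mul hlim2) key
  refine hfin.trans (le_of_eq ?_)
  have iA : 0 ≤ ∫ x, ‖f x‖ ^ p := integral_nonneg fun x => Real.rpow_nonneg (norm_nonneg _) _
  have iB : 0 ≤ ∫ x, ‖h x‖ ^ p := integral_nonneg fun x => Real.rpow_nonneg (norm_nonneg _) _
  have iW : 0 ≤ ∫ x, Real.sqrt (Wn I w x) ^ s :=
    integral_nonneg fun x => Real.rpow_nonneg (Real.sqrt_nonneg _) _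
  generalize (∫ x, ‖f x‖ ^ p) = A at iA ⊢
  generalize (∫ x, ‖h x‖ ^ p) = B at iB ⊢
  generalize (∫ x, Real.sqrt (Wn I w x) ^ s) = W at iW ⊢
  have comb : ∀ y : ℝ, 0 ≤ y → ∀ a b c : ℝ, 0 ≤ a → 0 < b → 1 / c = (1 - τ) / a + τ / b →
      (y ^ (1 / a)) ^ (1 - τ) * (y ^ (1 / b)) ^ τ = y ^ (1 / c) := by
    intro y hy a b c ha hb hc
    rw [← Real.rpow_mul hy, ← Real.rpow_mul hy, hc, ← Real.rpow_add_of_nonneg hy]
    · congr 1; ring
    · exact mul_nonneg (by positivity) (by linarith)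
    · exact mul_nonneg (by positivity) (by linarith)
  rw [← comb A iA p₀ p₁ p hp0'.le hp1' hp, ← comb B iB p₀ p₁ p hp0'.le hp1' hp,
    ← comb W iW s₀ s₁ s hs0' hs1' hsτ]
  rw [Real.mul_rpow (by positivity) (by positivity), Real.mul_rpow (by positivity)
    (by positivity), Real.mul_rpow (by positivity) (by positivity),
    Real.mul_rpow (by positivity) (by positivity), Real.mul_rpow (by positivity)
    (by positivity), Real.mul_rpow (by positivity) (by positivity)]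
  ring


/-- duality, with a general weight -/
lemma dualR {I : Finset ℤ} {u v : ℤ → ℂ → ℂ} (huv : ∀ a ∈ I, Ker (u a) ∧ Ker (v a))
    {f h : ℂ → ℂ} (hf : CCs f) (hh : CCs h)
    {p₀ p₁ p M₀ M₁ τ : ℝ} (hp0 : 2 ≤ p₀) (hp2 : 2 < p) (hp01 : p₀ ≤ p₁)
    (hM0 : 0 < M₀) (hM1 : 0 < M₁) (hτ0 : 0 ≤ τ) (hτ1 : τ ≤ 1)
    (hp : 1 / p = (1 - τ) / p₀ + τ / p₁)
    (hb0 : ∀ f h, CCs f → CCs h → ∫ x, Qn I u v f h x ^ (p₀ / 4) ≤ M₀ ^ (p₀ / 2) *
      ((∫ x, ‖f x‖ ^ p₀) ^ (1 / 2 : ℝ) * (∫ x, ‖h x‖ ^ p₀) ^ (1 / 2 : ℝ)))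
    (hb1 : ∀ f h, CCs f → CCs h → ∫ x, Qn I u v f h x ^ (p₁ / 4) ≤ M₁ ^ (p₁ / 2) *
      ((∫ x, ‖f x‖ ^ p₁) ^ (1 / 2 : ℝ) * (∫ x, ‖h x‖ ^ p₁) ^ (1 / 2 : ℝ))) (k : ℕ)
    {R : ℂ → ℝ} (cR : Continuous R) (nR : ∀ x, 0 ≤ R x)
    (hR : ∀ x, (R x * Real.sqrt (Qn I u v f h x)) ^ (p / (p - 2)) ≤ R x * Qn I u v f h x) :
    ∫ x, chi k x * (R x * Qn I u v f h x) ≤ (M₀ ^ (1 - τ) * M₁ ^ τ) ^ (p / 2) *
      ((∫ x, ‖f x‖ ^ p) ^ (1 / 2 : ℝ) * (∫ x, ‖h x‖ ^ p) ^ (1 / 2 : ℝ)) := by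
  obtain ⟨hp0p, hpp1⟩ := exps2 hp0 hp01 hτ0 hτ1 hp
  set s : ℝ := p / (p - 2) with hs
  have hs' : 1 ≤ s := by rw [hs, one_le_div (by linarith)]; linarith
  have cQ := Qn_cont huv hf hh
  have nQ := Qn_nonneg (I := I) (u := u) (v := v) f h
  set w : ℤ → ℂ → ℂ := fun a x => ((chi k x * R x : ℝ) : ℂ) *
    (starRingEnd ℂ) (cf (u a) f x * cf (v a) h x) with hw
  have hwc : ∀ a ∈ I, CCs (w a) := by
    intro a ha
    have c1 := cf_cont (huv a ha).1.1 hf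
    have c2 := cf_cont (huv a ha).2.1 hh
    have c3 := chi_cont k
    constructor
    · rw [hw]
      have : Continuous fun x => (starRingEnd ℂ) (cf (u a) f x * cf (v a) h x) :=
        Complex.continuous_conj.comp (c1.mul c2)
      fun_prop
    · refine HasCompactSupport.intro (chi_supp k).isCompact fun x hx => ?_
      rw [hw]
      simp only
      rw [image_eq_zero_of_notMem_tsupport hx]
      simp
  -- the trilinear form
  have eT : T I u v f h w = ((∫ x, chi k x * (R x * Qn I u v f h x) : ℝ) : ℂ) := by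
    unfold T
    rw [← integral_finsetSum, ← integral_complex_ofReal]
    · congr 1
      ext x
      rw [Qn, hw]
      simp only
      push_cast
      rw [Finset.mul_sum, Finset.mul_sum]
      refine Finset.sum_congr rfl fun a _ => ?_
      have e1 : (cf (u a) f x * cf (v a) h x) *
          (starRingEnd ℂ) (cf (u a) f x * cf (v a) h x) =
          ((‖cf (u a) f x‖ : ℝ) : ℂ) ^ 2 * ((‖cf (v a) h x‖ : ℝ) : ℂ) ^ 2 := by
        rw [Complex.mul_conj, Complex.normSq_eq_norm_sq, norm_mul]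
        push_cast
        ring
      rw [← e1]
      ring
    · intro a ha
      have c1 := cf_cont (huv a ha).1.1 hf
      have c2 := cf_cont (huv a ha).2.1 hh
      have c3 := (hwc a ha).1
      have hc : Continuous fun x => cf (u a) f x * cf (v a) h x * w a x := by fun_prop
      exact hc.integrable_of_hasCompactSupport (hwc a ha).2.mul_left
  have eW : ∀ x, Real.sqrt (Wn I w x) ^ s ≤ chi k x * (R x * Qn I u v f h x) := by
    intro x
    have e1 : Wn I w x = (chi k x * (R x * Real.sqrt (Qn I u v f h x))) ^ 2 := by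
      rw [mul_pow, mul_pow, Real.sq_sqrt (nQ x)]
      unfold Wn Qn
      rw [Finset.mul_sum, Finset.mul_sum]
      refine Finset.sum_congr rfl fun a _ => ?_
      rw [hw]
      simp only
      rw [norm_mul, Complex.norm_real, RCLike.norm_conj, mul_pow, Real.norm_eq_abs, sq_abs,
        norm_mul]
      ring
    have n1 : 0 ≤ R x * Real.sqrt (Qn I u v f h x) := mul_nonneg (nR x) (Real.sqrt_nonneg _)
    rw [e1, Real.sqrt_sq (mul_nonneg (chi_nonneg k x) n1), Real.mul_rpow (chi_nonneg k x) n1]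
    have h1 : chi k x ^ s ≤ chi k x := by
      calc chi k x ^ s ≤ chi k x ^ (1 : ℝ) := by
            rcases (chi_nonneg k x).eq_or_lt with h0 | h0
            · rw [← h0, Real.zero_rpow (by linarith), Real.zero_rpow one_ne_zero]
            · exact Real.rpow_le_rpow_of_exponent_ge h0 (chi_le_one k x) hs'
        _ = chi k x := Real.rpow_one _
    exact mul_le_mul h1 (hR x) (Real.rpow_nonneg n1 _) (chi_nonneg k x)
  set X : ℝ := ∫ x, chi k x * (R x * Qn I u v f h x) with hX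
  have hXint : Integrable fun x => chi k x * (R x * Qn I u v f h x) :=
    ((chi_cont k).mul (cR.mul cQ)).integrable_of_hasCompactSupport (chi_supp k).mul_right
  have hX0 : 0 ≤ X := integral_nonneg fun x =>
    mul_nonneg (chi_nonneg k x) (mul_nonneg (nR x) (nQ x))
  have hWX : ∫ x, Real.sqrt (Wn I w x) ^ s ≤ X :=
    integral_mono_of_nonneg
      (Filter.Eventually.of_forall fun x => Real.rpow_nonneg (Real.sqrt_nonneg _) _) hXint
      (Filter.Eventually.of_forall eW)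
  have main := interp2 huv hf hh hwc hp0 hp2 hp01 hM0 hM1 hτ0 hτ1 hp hs hb0 hb1
  rw [eT, Complex.norm_real, Real.norm_eq_abs, abs_of_nonneg hX0] at main
  have iA : 0 ≤ ∫ x, ‖f x‖ ^ p := integral_nonneg fun x => Real.rpow_nonneg (norm_nonneg _) _
  have iB : 0 ≤ ∫ x, ‖h x‖ ^ p := integral_nonneg fun x => Real.rpow_nonneg (norm_nonneg _) _
  have iW : 0 ≤ ∫ x, Real.sqrt (Wn I w x) ^ s :=
    integral_nonneg fun x => Real.rpow_nonneg (Real.sqrt_nonneg _) _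
  have hWX' : (∫ x, Real.sqrt (Wn I w x) ^ s) ^ (1 / s) ≤ X ^ (1 / s) :=
    Real.rpow_le_rpow iW hWX (by positivity)
  generalize (∫ x, ‖f x‖ ^ p) = A at iA main ⊢
  generalize (∫ x, ‖h x‖ ^ p) = B at iB main ⊢
  have main2 : X ≤ M₀ ^ (1 - τ) * M₁ ^ τ * (A ^ (1 / p) * B ^ (1 / p)) * X ^ (1 / s) :=
    main.trans (mul_le_mul_of_nonneg_left hWX' (by positivity))
  rcases hX0.eq_or_lt with h0 | h0
  · rw [← h0]
    positivity
  · have h1 : X ^ (2 / p) ≤ M₀ ^ (1 - τ) * M₁ ^ τ * (A ^ (1 / p) * B ^ (1 / p)) := by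
      have h2 : X = X ^ (2 / p) * X ^ (1 / s) := by
        rw [← Real.rpow_add h0]
        have e1 : 2 / p + 1 / s = 1 := by
          rw [hs]
          have : p - 2 ≠ 0 := by linarith
          field_simp
          ring
        rw [e1, Real.rpow_one]
      have h3 : 0 < X ^ (1 / s) := Real.rpow_pos_of_pos h0 _
      nth_rewrite 1 [h2] at main2
      exact le_of_mul_le_mul_right main2 h3
    have h4 : X = (X ^ (2 / p)) ^ (p / 2) := by
      rw [← Real.rpow_mul h0.le]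
      have : 2 / p * (p / 2) = 1 := by field_simp
      rw [this, Real.rpow_one]
    rw [h4]
    calc (X ^ (2 / p)) ^ (p / 2)
        ≤ (M₀ ^ (1 - τ) * M₁ ^ τ * (A ^ (1 / p) * B ^ (1 / p))) ^ (p / 2) :=
          Real.rpow_le_rpow (Real.rpow_nonneg h0.le _) h1 (by linarith)
      _ = _ := by
          rw [Real.mul_rpow (by positivity) (by positivity), Real.mul_rpow
            (Real.rpow_nonneg iA _) (Real.rpow_nonneg iB _),
            ← Real.rpow_mul iA, ← Real.rpow_mul iB]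
          have : 1 / p * (p / 2) = 1 / 2 := by field_simp
          rw [this]

/-- the weight for `p ≥ 4` -/
lemma wt_ge {p Q : ℝ} (hp : 4 ≤ p) (hQ : 0 ≤ Q) :
    Q ^ ((p - 4) / 4) * Q = Q ^ (p / 4) ∧
    (Q ^ ((p - 4) / 4) * Real.sqrt Q) ^ (p / (p - 2)) ≤ Q ^ ((p - 4) / 4) * Q := by
  have e1 : Q ^ ((p - 4) / 4) * Q = Q ^ (p / 4) := by
    rw [← Real.rpow_add_one' hQ (by linarith)]
    congr 1
    ring
  refine ⟨e1, le_of_eq ?_⟩
  rw [e1, Real.sqrt_eq_rpow, ← Real.rpow_add_of_nonneg hQ (by linarith) (by norm_num),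
    ← Real.rpow_mul hQ]
  congr 1
  have : p - 2 ≠ 0 := by linarith
  field_simp
  ring

/-- the regularised weight for `p < 4` -/
lemma wt_lt {p Q δ : ℝ} (hp2 : 2 < p) (hp : p < 4) (hQ : 0 ≤ Q) (hδ : 0 < δ) :
    ((Q + δ) ^ ((p - 4) / 4) * Real.sqrt Q) ^ (p / (p - 2)) ≤ (Q + δ) ^ ((p - 4) / 4) * Q := by
  have hQδ : 0 < Q + δ := by linarith
  rcases hQ.eq_or_lt with h | h
  · rw [← h]
    have : p / (p - 2) ≠ 0 := (div_pos (by linarith) (by linarith)).ne'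
    simp [Real.zero_rpow this]
  · have hp2' : p - 2 ≠ 0 := by linarith
    -- both sides as products of powers
    have e1 : ((Q + δ) ^ ((p - 4) / 4) * Real.sqrt Q) ^ (p / (p - 2)) =
        ((Q + δ) ^ ((p - 4) / 4) * Q) *
          ((Q + δ) ^ (-((4 - p) / (2 * (p - 2)))) * Q ^ ((4 - p) / (2 * (p - 2)))) := by
      rw [Real.mul_rpow (by positivity) (by positivity), ← Real.rpow_mul hQδ.le,
        Real.sqrt_eq_rpow, ← Real.rpow_mul h.le]
      have f1 : (p - 4) / 4 * (p / (p - 2)) = (p - 4) / 4 + -((4 - p) / (2 * (p - 2))) := by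
        field_simp
        ring
      have f2 : 1 / 2 * (p / (p - 2)) = 1 + (4 - p) / (2 * (p - 2)) := by
        field_simp
        ring
      rw [f1, f2, Real.rpow_add hQδ, Real.rpow_add h, Real.rpow_one]
      ring
    rw [e1]
    refine mul_le_of_le_one_right (by positivity) ?_
    rw [Real.rpow_neg hQδ.le, inv_mul_le_iff₀ (by positivity), mul_one]
    exact Real.rpow_le_rpow h.le (by linarith) (div_nonneg (by linarith) (by linarith))

/-- removing the regularisation -/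
lemma dual2_lim {Q : ℂ → ℝ} {p : ℝ} (k : ℕ) (cQ : Continuous Q) (nQ : ∀ x, 0 ≤ Q x)
    (hp2 : 2 < p) (h4 : p < 4) :
    Tendsto (fun j : ℕ => ∫ x, chi k x *
        ((Q x + 1 / ((j : ℝ) + 1)) ^ ((p - 4) / 4) * Q x)) atTop
        (𝓝 (∫ x, chi k x * Q x ^ (p / 4))) := by
    have c4 : Continuous fun x => Q x ^ (p / 4) :=
      cQ.rpow_const fun x => Or.inr (by linarith)
    have hdom : Integrable fun x => chi k x * Q x ^ (p / 4) :=
      ((chi_cont k).mul c4).integrable_of_hasCompactSupport (chi_supp k).mul_right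
    apply tendsto_integral_of_dominated_convergence (fun x => chi k x * Q x ^ (p / 4))
    · intro j
      have c5 : Continuous fun x => (Q x + 1 / ((j : ℝ) + 1)) ^ ((p - 4) / 4) :=
        (cQ.add continuous_const).rpow_const fun x => Or.inl (by
          have := nQ x
          have hj : (0 : ℝ) < 1 / ((j : ℝ) + 1) := by positivity
          have : 0 < Q x + 1 / ((j : ℝ) + 1) := by linarith
          exact this.ne')
      exact ((chi_cont k).mul (c5.mul cQ)).aestronglyMeasurable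
    · exact hdom
    · intro j
      filter_upwards with x
      have hδ : (0 : ℝ) < 1 / ((j : ℝ) + 1) := by positivity
      have h1 : 0 ≤ (Q x + 1 / ((j : ℝ) + 1)) ^ ((p - 4) / 4) * Q x :=
        mul_nonneg (Real.rpow_nonneg (by have := nQ x; positivity) _) (nQ x)
      rw [Real.norm_of_nonneg (mul_nonneg (chi_nonneg k x) h1)]
      refine mul_le_mul_of_nonneg_left ?_ (chi_nonneg k x)
      rcases (nQ x).eq_or_lt with h0 | h0
      · rw [← h0]
        simp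
        exact Real.rpow_nonneg le_rfl _
      · calc (Q x + 1 / ((j : ℝ) + 1)) ^ ((p - 4) / 4) * Q x
            ≤ Q x ^ ((p - 4) / 4) * Q x := by
              refine mul_le_mul_of_nonneg_right ?_ h0.le
              exact Real.rpow_le_rpow_of_nonpos h0 (by linarith) (by linarith)
          _ = Q x ^ (p / 4) := by
              rw [← Real.rpow_add_one h0.ne']
              congr 1
              ring
    · filter_upwards with x
      refine Tendsto.const_mul _ ?_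
      rcases (nQ x).eq_or_lt with h0 | h0
      · rw [← h0, Real.zero_rpow (by linarith : p / 4 ≠ 0)]
        simp
      · have e : Q x ^ (p / 4) = (Q x + 0) ^ ((p - 4) / 4) *
            Q x := by
          rw [add_zero, ← Real.rpow_add_one h0.ne']
          congr 1
          ring
        rw [e]
        have h1 : Tendsto (fun j : ℕ => 1 / ((j : ℝ) + 1)) atTop (𝓝 0) :=
          tendsto_one_div_add_atTop_nhds_zero_nat
        exact ((h1.const_add _).rpow_const (Or.inl (by linarith))).mul_const _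

/-- duality -/
lemma dual2 {I : Finset ℤ} {u v : ℤ → ℂ → ℂ} (huv : ∀ a ∈ I, Ker (u a) ∧ Ker (v a))
    {f h : ℂ → ℂ} (hf : CCs f) (hh : CCs h)
    {p₀ p₁ p M₀ M₁ τ : ℝ} (hp0 : 2 ≤ p₀) (hp2 : 2 < p) (hp01 : p₀ ≤ p₁)
    (hM0 : 0 < M₀) (hM1 : 0 < M₁) (hτ0 : 0 ≤ τ) (hτ1 : τ ≤ 1)
    (hp : 1 / p = (1 - τ) / p₀ + τ / p₁)
    (hb0 : ∀ f h, CCs f → CCs h → ∫ x, Qn I u v f h x ^ (p₀ / 4) ≤ M₀ ^ (p₀ / 2) *
      ((∫ x, ‖f x‖ ^ p₀) ^ (1 / 2 : ℝ) * (∫ x, ‖h x‖ ^ p₀) ^ (1 / 2 : ℝ)))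
    (hb1 : ∀ f h, CCs f → CCs h → ∫ x, Qn I u v f h x ^ (p₁ / 4) ≤ M₁ ^ (p₁ / 2) *
      ((∫ x, ‖f x‖ ^ p₁) ^ (1 / 2 : ℝ) * (∫ x, ‖h x‖ ^ p₁) ^ (1 / 2 : ℝ))) (k : ℕ) :
    ∫ x, chi k x * Qn I u v f h x ^ (p / 4) ≤ (M₀ ^ (1 - τ) * M₁ ^ τ) ^ (p / 2) *
      ((∫ x, ‖f x‖ ^ p) ^ (1 / 2 : ℝ) * (∫ x, ‖h x‖ ^ p) ^ (1 / 2 : ℝ)) := by
  have cQ := Qn_cont huv hf hh
  have nQ := Qn_nonneg (I := I) (u := u) (v := v) f h
  rcases le_or_gt 4 p with h4 | h4
  · have key := dualR huv hf hh hp0 hp2 hp01 hM0 hM1 hτ0 hτ1 hp hb0 hb1 k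
      (R := fun x => Qn I u v f h x ^ ((p - 4) / 4))
      (cQ.rpow_const fun x => Or.inr (by linarith)) (fun x => Real.rpow_nonneg (nQ x) _)
      (fun x => (wt_ge h4 (nQ x)).2)
    refine le_trans (le_of_eq ?_) key
    congr 1
    ext x
    rw [(wt_ge h4 (nQ x)).1]
  · have key : ∀ j : ℕ, ∫ x, chi k x * ((Qn I u v f h x + 1 / ((j : ℝ) + 1)) ^ ((p - 4) / 4) *
        Qn I u v f h x) ≤ (M₀ ^ (1 - τ) * M₁ ^ τ) ^ (p / 2) *
        ((∫ x, ‖f x‖ ^ p) ^ (1 / 2 : ℝ) * (∫ x, ‖h x‖ ^ p) ^ (1 / 2 : ℝ)) := by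
      intro j
      have hδ : (0 : ℝ) < 1 / ((j : ℝ) + 1) := by positivity
      exact dualR huv hf hh hp0 hp2 hp01 hM0 hM1 hτ0 hτ1 hp hb0 hb1 k
        (R := fun x => (Qn I u v f h x + 1 / ((j : ℝ) + 1)) ^ ((p - 4) / 4))
        ((cQ.add continuous_const).rpow_const fun x => Or.inl (by
          have := nQ x
          have hj : (0 : ℝ) < 1 / ((j : ℝ) + 1) := by positivity
          have : 0 < Qn I u v f h x + 1 / ((j : ℝ) + 1) := by linarith
          exact this.ne'))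
        (fun x => Real.rpow_nonneg (by have := nQ x; positivity) _)
        (fun x => wt_lt hp2 h4 (nQ x) hδ)
    have hlim : Tendsto (fun j : ℕ => ∫ x, chi k x *
        ((Qn I u v f h x + 1 / ((j : ℝ) + 1)) ^ ((p - 4) / 4) * Qn I u v f h x)) atTop
        (𝓝 (∫ x, chi k x * Qn I u v f h x ^ (p / 4))) := by
      exact dual2_lim k cQ nQ hp2 h4
    exact le_of_tendsto' hlim key

/-- the interpolation theorem -/
theorem rt_core2 {I : Finset ℤ} {u v : ℤ → ℂ → ℂ} (huv : ∀ a ∈ I, Ker (u a) ∧ Ker (v a))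
    {f h : ℂ → ℂ} (hf : CCs f) (hh : CCs h)
    {p₀ p₁ p M₀ M₁ τ : ℝ} (hp0 : 2 ≤ p₀) (hp01 : p₀ ≤ p₁)
    (hM0 : 0 < M₀) (hM1 : 0 < M₁) (hτ0 : 0 ≤ τ) (hτ1 : τ ≤ 1)
    (hp : 1 / p = (1 - τ) / p₀ + τ / p₁)
    (hb0 : ∀ f h, CCs f → CCs h → ∫ x, Qn I u v f h x ^ (p₀ / 4) ≤ M₀ ^ (p₀ / 2) *
      ((∫ x, ‖f x‖ ^ p₀) ^ (1 / 2 : ℝ) * (∫ x, ‖h x‖ ^ p₀) ^ (1 / 2 : ℝ)))
    (hb1 : ∀ f h, CCs f → CCs h → ∫ x, Qn I u v f h x ^ (p₁ / 4) ≤ M₁ ^ (p₁ / 2) *
      ((∫ x, ‖f x‖ ^ p₁) ^ (1 / 2 : ℝ) * (∫ x, ‖h x‖ ^ p₁) ^ (1 / 2 : ℝ))) :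
    Integrable (fun x => Qn I u v f h x ^ (p / 4)) ∧
    ∫ x, Qn I u v f h x ^ (p / 4) ≤ (M₀ ^ (1 - τ) * M₁ ^ τ) ^ (p / 2) *
      ((∫ x, ‖f x‖ ^ p) ^ (1 / 2 : ℝ) * (∫ x, ‖h x‖ ^ p) ^ (1 / 2 : ℝ)) := by
  obtain ⟨hp0p, hpp1⟩ := exps2 hp0 hp01 hτ0 hτ1 hp
  have hi := Qn_rpow_int2 huv hf hh (s := p / 4) (by linarith)
  refine ⟨hi, ?_⟩
  have nQ := Qn_nonneg (I := I) (u := u) (v := v) f h
  rcases (hp0.trans hp0p).eq_or_lt with h2 | h2
  · -- `p = 2`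
    have e0 : p₀ = 2 := le_antisymm (by linarith) hp0
    subst e0
    subst h2
    have a0 := hb0 f h hf hh
    rw [div_self (two_ne_zero), Real.rpow_one] at a0
    rw [div_self (two_ne_zero), Real.rpow_one]
    rcases hτ0.eq_or_lt with ht | ht
    · rw [← ht, sub_zero, Real.rpow_one, Real.rpow_zero, mul_one]
      exact a0
    · have hp1 : p₁ = 2 := by
        have e1 : τ * (1 / p₁ - 1 / 2) = 0 := by
          have h6 := hp
          rw [div_eq_mul_one_div (1 - τ) 2, div_eq_mul_one_div τ p₁] at h6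
          linarith
        rcases mul_eq_zero.1 e1 with h5 | h5
        · exact absurd h5 ht.ne'
        · have hp1' : p₁ ≠ 0 := by linarith
          field_simp at h5
          linarith
      subst hp1
      have a1 := hb1 f h hf hh
      rw [div_self (two_ne_zero), Real.rpow_one] at a1
      set N : ℝ := (∫ x, ‖f x‖ ^ (2 : ℝ)) ^ (1 / 2 : ℝ) * (∫ x, ‖h x‖ ^ (2 : ℝ)) ^ (1 / 2 : ℝ)
        with hN
      have hN0 : 0 ≤ N := by
        have i1 : 0 ≤ ∫ x, ‖f x‖ ^ (2 : ℝ) :=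
          integral_nonneg fun x => Real.rpow_nonneg (norm_nonneg _) _
        have i2 : 0 ≤ ∫ x, ‖h x‖ ^ (2 : ℝ) :=
          integral_nonneg fun x => Real.rpow_nonneg (norm_nonneg _) _
        positivity
      set X : ℝ := ∫ x, Qn I u v f h x ^ ((2 : ℝ) / 4) with hX
      have hX0 : 0 ≤ X := integral_nonneg fun x => Real.rpow_nonneg (nQ x) _
      calc X = X ^ (1 - τ) * X ^ τ := by
            rw [← Real.rpow_add_of_nonneg hX0 (by linarith) hτ0, sub_add_cancel, Real.rpow_one]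
        _ ≤ (M₀ * N) ^ (1 - τ) * (M₁ * N) ^ τ :=
            mul_le_mul (Real.rpow_le_rpow hX0 a0 (by linarith)) (Real.rpow_le_rpow hX0 a1 hτ0)
              (Real.rpow_nonneg hX0 _) (by positivity)
        _ = M₀ ^ (1 - τ) * M₁ ^ τ * (N ^ (1 - τ) * N ^ τ) := by
            rw [Real.mul_rpow hM0.le hN0, Real.mul_rpow hM1.le hN0]
            ring
        _ = M₀ ^ (1 - τ) * M₁ ^ τ * N := by
            rw [← Real.rpow_add_of_nonneg hN0 (by linarith) hτ0, sub_add_cancel, Real.rpow_one]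
  · have hlim : Tendsto (fun k : ℕ => ∫ x, chi k x * Qn I u v f h x ^ (p / 4)) atTop
        (𝓝 (∫ x, Qn I u v f h x ^ (p / 4))) := by
      apply tendsto_integral_of_dominated_convergence (fun x => Qn I u v f h x ^ (p / 4))
      · intro k
        exact (chi_cont k).aestronglyMeasurable.mul hi.aestronglyMeasurable
      · exact hi
      · intro k
        filter_upwards with x
        have h1 := Real.rpow_nonneg (nQ x) (p / 4)
        rw [Real.norm_eq_abs, abs_of_nonneg (mul_nonneg (chi_nonneg k x) h1)]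
        exact mul_le_of_le_one_left h1 (chi_le_one k x)
      · filter_upwards with x
        obtain ⟨k0, hk0⟩ := exists_nat_ge ‖x‖
        refine tendsto_const_nhds.congr' ?_
        filter_upwards [eventually_ge_atTop k0] with k hk
        rw [chi_eq (hk0.trans (by exact_mod_cast hk)), one_mul]
    exact le_of_tendsto' hlim fun k =>
      dual2 huv hf hh hp0 h2 hp01 hM0 hM1 hτ0 hτ1 hp hb0 hb1 k

end Pool.Agent.Lib.MP_dd244f_an.Rp.RT2A

namespace Pool.Agent.Lib.MP_dd244f_an.Rp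

open MeasureTheory Filter Topology Finset
open Pool.Agent.Lib.MP_dd244f_an.Four

/-- (RT2) bilinear interpolation, exponents at least `2` -/
theorem rt2 : StmtRT2 := by
  intro I u v p₀ p₁ p M₀ M₁ τ huv hp0 hp01 hM0 hM1 hτ0 hτ1 hp hb0 hb1 f h hf hh
  have huv' : ∀ a ∈ I, Even.RTA.Ker (u a) ∧ Even.RTA.Ker (v a) := by
    intro a ha
    obtain ⟨a1, a2, a3, a4, a5, a6⟩ := huv a ha
    exact ⟨⟨a1, a2, a3⟩, ⟨a4, a5, a6⟩⟩
  exact RT2A.rt_core2 huv' hf hh hp0 hp01 hM0 hM1 hτ0 hτ1 hp hb0 hb1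

end Pool.Agent.Lib.MP_dd244f_an.Rp
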