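import Mathlib
import Pool.Agent.Lib.MP_dd244f_an.Even.RTDual
import Pool.Agent.Lib.MP_dd244f_an.Rp.Stmts

/-!
(RTL) linear Riesz-Thorin interpolation with values in a finite dimensional Hilbert space.
-/

set_option autoImplicit false

namespace Pool.Agent.Lib.MP_dd244f_an.Rp.RTLP

open MeasureTheory Filter Topology Finset
open Pool.Agent.Lib.MP_dd244f_an.Even.RTA (reg_le reg_lim cf Ker CCs cf_cont cf_int cf_bd Wn
  Wn_cont Wn_supp Wn_nonneg ex ex_cc ex_norm ex_rpow ex_Wn chi chi_cont chi_nonneg chi_le_one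
  chi_supp chi_eq)
open Pool.Agent.Lib.MP_dd244f_an

section form

variable (I : Finset ℤ) (u : ℤ → ℂ → ℂ)

/-- squared size of the vector -/
noncomputable def Sn (f : ℂ → ℂ) (x : ℂ) : ℝ := ∑ a ∈ I, ‖cf (u a) f x‖ ^ 2

/-- the bilinear form -/
noncomputable def T (f : ℂ → ℂ) (w : ℤ → ℂ → ℂ) : ℂ := ∑ a ∈ I, ∫ x, cf (u a) f x * w a x

variable {I u}

lemma Sn_nonneg (f : ℂ → ℂ) (x : ℂ) : 0 ≤ Sn I u f x :=
  Finset.sum_nonneg fun a _ => by positivity

variable (hu : ∀ a ∈ I, Ker (u a))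

include hu

lemma Sn_cont {f : ℂ → ℂ} (hf : CCs f) : Continuous (Sn I u f) := by
  unfold Sn
  refine continuous_finsetSum _ fun a ha => ?_
  have h1 := cf_cont (hu a ha).1 hf
  fun_prop

lemma Sn_bd {f : ℂ → ℂ} (hf : CCs f) : ∃ B, 0 ≤ B ∧ ∀ x, Sn I u f x ≤ B := by
  have : ∀ a ∈ I, ∃ B, 0 ≤ B ∧ ∀ x, ‖cf (u a) f x‖ ^ 2 ≤ B := by
    intro a ha
    obtain ⟨B1, h1, h1'⟩ := cf_bd (hu a ha) hf
    refine ⟨B1 ^ 2, by positivity, fun x => ?_⟩
    gcongr
    exact h1' x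
  choose! B hB0 hB using this
  exact ⟨∑ a ∈ I, B a, Finset.sum_nonneg hB0, fun x => Finset.sum_le_sum fun a ha => hB a ha x⟩

lemma Sn_int {f : ℂ → ℂ} (hf : CCs f) : Integrable (Sn I u f) := by
  unfold Sn
  refine integrable_finsetSum _ fun a ha => ?_
  obtain ⟨B1, h1, h1'⟩ := cf_bd (hu a ha) hf
  have hc1 := cf_cont (hu a ha).1 hf
  refine Integrable.mono' (g := fun x => B1 * ‖cf (u a) f x‖)
    ((cf_int (hu a ha) hf).norm.const_mul _) (by fun_prop) ?_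
  filter_upwards with x
  rw [Real.norm_eq_abs, abs_of_nonneg (by positivity), sq]
  exact mul_le_mul_of_nonneg_right (h1' x) (norm_nonneg _)

lemma Sn_rpow_int {f : ℂ → ℂ} (hf : CCs f) {s : ℝ} (hs : 1 ≤ s) :
    Integrable (fun x => Sn I u f x ^ s) := by
  obtain ⟨B, hB0, hB⟩ := Sn_bd hu hf
  have hc := Sn_cont hu hf
  refine Integrable.mono' (g := fun x => B ^ (s - 1) * Sn I u f x)
    ((Sn_int hu hf).const_mul _)
    (hc.rpow_const fun x => Or.inr (by linarith)).aestronglyMeasurable ?_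
  filter_upwards with x
  have h0 := Sn_nonneg (I := I) (u := u) f x
  rw [Real.norm_eq_abs, abs_of_nonneg (Real.rpow_nonneg h0 _)]
  rcases h0.eq_or_lt with hx | hx
  · rw [← hx, Real.zero_rpow (by linarith), mul_zero]
  · calc Sn I u f x ^ s = Sn I u f x ^ (s - 1) * Sn I u f x := by
          rw [← Real.rpow_add_one hx.ne']; congr 1; ring
      _ ≤ B ^ (s - 1) * Sn I u f x := by
          gcongr
          exact hB x

/-- Hölder's inequality -/
lemma hold {f : ℂ → ℂ} {w : ℤ → ℂ → ℂ} (hf : CCs f) (hw : ∀ a ∈ I, CCs (w a))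
    {p₀ M₀ s₀ : ℝ} (hp : 2 ≤ p₀) (hM : 0 < M₀) (hs : s₀ = p₀ / (p₀ - 1))
    (hb : ∫ x, Sn I u f x ^ (p₀ / 2) ≤ M₀ ^ p₀ * ∫ x, ‖f x‖ ^ p₀) :
    ‖T I u f w‖ ≤ M₀ * (∫ x, ‖f x‖ ^ p₀) ^ (1 / p₀) *
      (∫ x, Wn I w x ^ (s₀ / 2)) ^ (1 / s₀) := by
  have hs0 : 0 < s₀ := by rw [hs]; exact div_pos (by linarith) (by linarith)
  have hs1 : 1 < s₀ := by rw [hs, one_lt_div (by linarith)]; linarith
  have hcQ := Sn_cont hu hf
  have hcW := Wn_cont hw
  have hIf : 0 ≤ ∫ x, ‖f x‖ ^ p₀ := integral_nonneg fun x => Real.rpow_nonneg (norm_nonneg _) _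
  -- the pointwise bound
  have hpt : ∀ x, ‖∑ a ∈ I, cf (u a) f x * w a x‖ ≤
      Real.sqrt (Sn I u f x) * Real.sqrt (Wn I w x) := by
    intro x
    calc ‖∑ a ∈ I, cf (u a) f x * w a x‖
        ≤ ∑ a ∈ I, ‖cf (u a) f x * w a x‖ := norm_sum_le _ _
      _ = ∑ a ∈ I, ‖cf (u a) f x‖ * ‖w a x‖ := by
          refine Finset.sum_congr rfl fun a _ => ?_
          rw [norm_mul]
      _ ≤ Real.sqrt (∑ a ∈ I, ‖cf (u a) f x‖ ^ 2) *
            Real.sqrt (∑ a ∈ I, ‖w a x‖ ^ 2) := Real.sum_mul_le_sqrt_mul_sqrt _ _ _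
      _ = _ := by
          unfold Sn Wn
          rfl
  have hint : ∀ a ∈ I, Integrable fun x => cf (u a) f x * w a x := by
    intro a ha
    have h1 := cf_cont (hu a ha).1 hf
    have h3 := (hw a ha).1
    have hc : Continuous fun x => cf (u a) f x * w a x := by fun_prop
    exact hc.integrable_of_hasCompactSupport (hw a ha).2.mul_left
  have hT : T I u f w = ∫ x, ∑ a ∈ I, cf (u a) f x * w a x := by
    unfold T
    rw [integral_finsetSum _ hint]
  have hprod_int : Integrable fun x => Real.sqrt (Sn I u f x) * Real.sqrt (Wn I w x) := by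
    have hc : Continuous fun x => Real.sqrt (Sn I u f x) * Real.sqrt (Wn I w x) := by
      fun_prop
    refine hc.integrable_of_hasCompactSupport ?_
    apply HasCompactSupport.mul_left
    exact (Wn_supp hw).comp_left (g := fun z : ℝ => Real.sqrt z) Real.sqrt_zero
  have h1 : ‖T I u f w‖ ≤ ∫ x, Real.sqrt (Sn I u f x) * Real.sqrt (Wn I w x) := by
    rw [hT]
    exact norm_integral_le_of_norm_le hprod_int (Filter.Eventually.of_forall hpt)
  have hconj : p₀.HolderConjugate s₀ := by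
    rw [Real.holderConjugate_iff]
    refine ⟨by linarith, ?_⟩
    rw [hs]
    have h2 : p₀ ≠ 0 := by linarith
    have h3 : p₀ - 1 ≠ 0 := by linarith
    field_simp
    ring
  have hmQ : MemLp (fun x => Real.sqrt (Sn I u f x)) (ENNReal.ofReal p₀) := by
    rw [← integrable_norm_rpow_iff (by fun_prop) (by simp; linarith) ENNReal.ofReal_ne_top,
      ENNReal.toReal_ofReal (by linarith)]
    refine (Sn_rpow_int hu hf (s := p₀ / 2) (by linarith)).congr
      (Filter.Eventually.of_forall fun x => ?_)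
    have h0 := Sn_nonneg (I := I) (u := u) f x
    simp only
    rw [Real.norm_eq_abs, abs_of_nonneg (Real.sqrt_nonneg _), Real.sqrt_eq_rpow,
      ← Real.rpow_mul h0]
    congr 1; ring
  have hmW : MemLp (fun x => Real.sqrt (Wn I w x)) (ENNReal.ofReal s₀) := by
    have hc : Continuous fun x => Real.sqrt (Wn I w x) := by fun_prop
    exact hc.memLp_of_hasCompactSupport
      ((Wn_supp hw).comp_left (g := fun z : ℝ => Real.sqrt z) Real.sqrt_zero)
  have h2 := integral_mul_le_Lp_mul_Lq_of_nonneg hconj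
    (Filter.Eventually.of_forall fun x => Real.sqrt_nonneg (Sn I u f x))
    (Filter.Eventually.of_forall fun x => Real.sqrt_nonneg (Wn I w x)) hmQ hmW
  have e1 : ∫ x, Real.sqrt (Sn I u f x) ^ p₀ = ∫ x, Sn I u f x ^ (p₀ / 2) := by
    congr 1
    ext x
    rw [Real.sqrt_eq_rpow, ← Real.rpow_mul (Sn_nonneg f x)]
    congr 1; ring
  have e2 : ∫ x, Real.sqrt (Wn I w x) ^ s₀ = ∫ x, Wn I w x ^ (s₀ / 2) := by
    congr 1
    ext x
    rw [Real.sqrt_eq_rpow, ← Real.rpow_mul (Wn_nonneg w x)]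
    congr 1; ring
  rw [e1, e2] at h2
  refine h1.trans (h2.trans ?_)
  have h3 : 0 ≤ ∫ x, Sn I u f x ^ (p₀ / 2) :=
    integral_nonneg fun x => Real.rpow_nonneg (Sn_nonneg f x) _
  have h4 : 0 ≤ (∫ x, Wn I w x ^ (s₀ / 2)) ^ (1 / s₀) :=
    Real.rpow_nonneg (integral_nonneg fun x => Real.rpow_nonneg (Wn_nonneg w x) _) _
  refine mul_le_mul_of_nonneg_right ?_ h4
  calc (∫ x, Sn I u f x ^ (p₀ / 2)) ^ (1 / p₀)
      ≤ (M₀ ^ p₀ * ∫ x, ‖f x‖ ^ p₀) ^ (1 / p₀) := by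
        apply Real.rpow_le_rpow h3 hb
        positivity
    _ = M₀ * (∫ x, ‖f x‖ ^ p₀) ^ (1 / p₀) := by
        rw [Real.mul_rpow (by positivity) hIf, ← Real.rpow_mul hM.le]
        have e3 : p₀ * (1 / p₀) = 1 := by
          have : p₀ ≠ 0 := by linarith
          field_simp
        rw [e3, Real.rpow_one]

omit hu in
/-- the bilinear form as an integral over the product -/
lemma T_term {u f w : ℂ → ℂ} (hu : Continuous u) (hf : CCs f) (hw : CCs w) :
    ∫ x, cf u f x * w x = ∫ q : ℂ × ℂ, (u (q.1 - q.2) * f q.2) * w q.1 := by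
  have hc : Continuous fun q : ℂ × ℂ => (u (q.1 - q.2) * f q.2) * w q.1 := by
    have h1 := hf.1
    have h3 := hw.1
    fun_prop
  have hK : IsCompact ((tsupport w) ×ˢ (tsupport f)) :=
    hw.2.isCompact.prod hf.2.isCompact
  have hsupp : HasCompactSupport fun q : ℂ × ℂ => (u (q.1 - q.2) * f q.2) * w q.1 := by
    refine HasCompactSupport.intro hK fun q hq => ?_
    by_cases h1 : q.1 ∈ tsupport w
    · by_cases h2 : q.2 ∈ tsupport f
      · exact absurd ⟨h1, h2⟩ hq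
      · rw [image_eq_zero_of_notMem_tsupport h2]; ring
    · rw [image_eq_zero_of_notMem_tsupport h1]; ring
  have hint := hc.integrable_of_hasCompactSupport (μ := (volume : Measure (ℂ × ℂ))) hsupp
  rw [Measure.volume_eq_prod] at hint ⊢
  rw [integral_prod _ hint]
  congr 1
  ext x
  simp only
  rw [integral_mul_const]
  rfl

/-- the analytic family of bilinear forms -/
lemma T_entire {f : ℂ → ℂ} {w : ℤ → ℂ → ℂ} (hf : CCs f) (hw : ∀ a ∈ I, CCs (w a))
    {φ₁ φ₃ : ℂ → ℝ} (h₁ : Continuous φ₁) (h₃ : Continuous φ₃) :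
    Differentiable ℂ (fun z => T I u (ex φ₁ z f) (fun a => ex φ₃ z (w a))) ∧
    ∃ C, ∀ z : ℂ, 0 ≤ z.re → z.re ≤ 1 →
      ‖T I u (ex φ₁ z f) (fun a => ex φ₃ z (w a))‖ ≤ C := by
  set U : ℂ × ℂ → ℝ := fun q => φ₁ q.2 + φ₃ q.1 with hU
  set Ψ : ℤ → ℂ × ℂ → ℂ := fun a q => (u a (q.1 - q.2) * f q.2) * w a q.1 with hΨ
  have cU : Continuous U := by rw [hU]; fun_prop
  have cΨ : ∀ a ∈ I, Continuous (Ψ a) := by
    intro a ha
    have k1 := (hu a ha).1
    have k3 := hf.1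
    have k5 := (hw a ha).1
    rw [hΨ]
    fun_prop
  have sΨ : ∀ a ∈ I, HasCompactSupport (Ψ a) := by
    intro a ha
    have hK : IsCompact ((tsupport (w a)) ×ˢ (tsupport f)) :=
      (hw a ha).2.isCompact.prod hf.2.isCompact
    refine HasCompactSupport.intro hK fun q hq => ?_
    rw [hΨ]
    simp only
    by_cases h1 : q.1 ∈ tsupport (w a)
    · by_cases h2 : q.2 ∈ tsupport f
      · exact absurd ⟨h1, h2⟩ hq
      · rw [image_eq_zero_of_notMem_tsupport h2]; ring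
    · rw [image_eq_zero_of_notMem_tsupport h1]; ring
  have eT : (fun z => T I u (ex φ₁ z f) (fun a => ex φ₃ z (w a))) =
      fun z : ℂ => ∑ a ∈ I, ∫ q, Complex.exp (z * U q) * Ψ a q := by
    ext z
    unfold T
    refine Finset.sum_congr rfl fun a ha => ?_
    rw [T_term (hu a ha).1 (ex_cc h₁ z hf) (ex_cc h₃ z (hw a ha))]
    congr 1
    ext q
    rw [hU, hΨ]
    simp only [ex]
    push_cast
    rw [mul_add, Complex.exp_add]
    ring
  have hE : ∀ a ∈ I, Differentiable ℂ (fun z : ℂ => ∫ q, Complex.exp (z * U q) * Ψ a q) ∧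
      ∃ C, ∀ z : ℂ, 0 ≤ z.re → z.re ≤ 1 → ‖∫ q, Complex.exp (z * U q) * Ψ a q‖ ≤ C :=
    fun a ha => OtherModes.entire_cc cU (cΨ a ha) (sΨ a ha)
  constructor
  · rw [eT]
    apply Differentiable.fun_sum
    exact fun a ha => (hE a ha).1
  · have := fun a ha => (hE a ha).2
    choose! C hC using this
    refine ⟨∑ a ∈ I, C a, fun z hz0 hz1 => ?_⟩
    have e := congrFun eT z
    rw [e]
    exact (norm_sum_le _ _).trans (Finset.sum_le_sum fun a ha => hC a ha z hz0 hz1)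

/-- the regularised estimate -/
lemma interp_eps {f : ℂ → ℂ} {w : ℤ → ℂ → ℂ} (hf : CCs f) (hw : ∀ a ∈ I, CCs (w a))
    {p₀ p₁ p M₀ M₁ τ s₀ s₁ s : ℝ} (hp0 : 2 ≤ p₀) (hp0p : p₀ ≤ p) (hpp1 : p ≤ p₁)
    (hM0 : 0 < M₀) (hM1 : 0 < M₁) (hτ0 : 0 ≤ τ) (hτ1 : τ ≤ 1)
    (hp : 1 / p = (1 - τ) / p₀ + τ / p₁) (hs0 : s₀ = p₀ / (p₀ - 1)) (hs1 : s₁ = p₁ / (p₁ - 1))
    (hs : s = p / (p - 1))
    (hb0 : ∀ f, CCs f → ∫ x, Sn I u f x ^ (p₀ / 2) ≤ M₀ ^ p₀ * ∫ x, ‖f x‖ ^ p₀)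
    (hb1 : ∀ f, CCs f → ∫ x, Sn I u f x ^ (p₁ / 2) ≤ M₁ ^ p₁ * ∫ x, ‖f x‖ ^ p₁)
    {ε : ℝ} (hε : 0 < ε) :
    ‖T I u f w‖ ≤
      (M₀ * (∫ x, Real.exp ((p - p₀) / 2 * Real.log (‖f x‖ ^ 2 + ε ^ 2)) * ‖f x‖ ^ p₀) ^
          (1 / p₀) * (∫ x, Real.sqrt (Wn I w x) ^ s) ^ (1 / s₀)) ^ (1 - τ) *
      (M₁ * (∫ x, ‖f x‖ ^ p) ^ (1 / p₁) *
        (∫ x, Real.exp ((s - s₁) / 2 * Real.log (Real.sqrt (Wn I w x) ^ 2 + ε ^ 2)) *
          Real.sqrt (Wn I w x) ^ s₁) ^ (1 / s₁)) ^ τ := by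
  have hp0' : 0 < p₀ := by linarith
  have hp' : 0 < p := by linarith
  have hp1' : 0 < p₁ := by linarith
  have hs0' : 0 < s₀ := by rw [hs0]; exact div_pos (by linarith) (by linarith)
  have hs1' : 0 < s₁ := by rw [hs1]; exact div_pos (by linarith) (by linarith)
  have hs' : 0 < s := by rw [hs]; exact div_pos (by linarith) (by linarith)
  have hss0 : s ≤ s₀ := by
    rw [hs, hs0, div_le_div_iff₀ (by linarith) (by linarith)]
    nlinarith
  have hss1 : s₁ ≤ s := by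
    rw [hs, hs1, div_le_div_iff₀ (by linarith) (by linarith)]
    nlinarith
  have hsτ : 1 / s = (1 - τ) / s₀ + τ / s₁ := by
    have e1 : 1 / s = 1 - (1 / p) := by
      rw [hs]
      have : p - 1 ≠ 0 := by linarith
      field_simp
    have e2 : 1 / s₀ = 1 - (1 / p₀) := by
      rw [hs0]
      have : p₀ - 1 ≠ 0 := by linarith
      field_simp
    have e3 : 1 / s₁ = 1 - (1 / p₁) := by
      rw [hs1]
      have : p₁ - 1 ≠ 0 := by linarith
      field_simp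
    rw [e1, hp, div_eq_mul_one_div (1 - τ) s₀, div_eq_mul_one_div τ s₁, e2, e3]
    ring
  have cW := Wn_cont hw
  have sW := Wn_supp hw
  -- the logarithms
  set Lf : ℂ → ℝ := fun x => Real.log (‖f x‖ ^ 2 + ε ^ 2) with hLf
  set Lw : ℂ → ℝ := fun x => Real.log (Real.sqrt (Wn I w x) ^ 2 + ε ^ 2) with hLw
  have cLf : Continuous Lf := by
    have := hf.1
    apply Continuous.log (by fun_prop)
    intro x
    positivity
  have cLw : Continuous Lw := by
    apply Continuous.log (by fun_prop)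
    intro x
    positivity
  -- the exponents
  set α₀ : ℝ := (p / p₀ - 1) / 2 with hα₀
  set α₁ : ℝ := (p / p₁ - 1) / 2 with hα₁
  set γ₀ : ℝ := (s / s₀ - 1) / 2 with hγ₀
  set γ₁ : ℝ := (s / s₁ - 1) / 2 with hγ₁
  have hατ : α₀ + τ * (α₁ - α₀) = 0 := by
    have : p * (1 / p) = 1 := by field_simp
    rw [hp] at this
    rw [hα₀, hα₁]
    have e1 : p / p₀ = p * (1 / p₀) := by ring
    have e2 : p / p₁ = p * (1 / p₁) := by ring
    have e3 : p * ((1 - τ) / p₀ + τ / p₁) = (1 - τ) * (p * (1 / p₀)) + τ * (p * (1 / p₁)) := by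
      ring
    rw [e3] at this
    rw [e1, e2]
    linarith
  have hγτ : γ₀ + τ * (γ₁ - γ₀) = 0 := by
    have : s * (1 / s) = 1 := by field_simp
    rw [hsτ] at this
    rw [hγ₀, hγ₁]
    have e1 : s / s₀ = s * (1 / s₀) := by ring
    have e2 : s / s₁ = s * (1 / s₁) := by ring
    have e3 : s * ((1 - τ) / s₀ + τ / s₁) = (1 - τ) * (s * (1 / s₀)) + τ * (s * (1 / s₁)) := by
      ring
    rw [e3] at this
    rw [e1, e2]
    linarith
  have hα₀p : α₀ * p₀ = (p - p₀) / 2 := by rw [hα₀]; field_simp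
  have hα₁p : α₁ * p₁ = (p - p₁) / 2 := by rw [hα₁]; field_simp
  have hγ₀s : γ₀ * s₀ = (s - s₀) / 2 := by rw [hγ₀]; field_simp
  have hγ₁s : γ₁ * s₁ = (s - s₁) / 2 := by rw [hγ₁]; field_simp
  -- the family
  have ch1 : Continuous fun x => (α₁ - α₀) * Lf x := by fun_prop
  have ch3 : Continuous fun x => (γ₁ - γ₀) * Lw x := by fun_prop
  have ch4 : Continuous fun x => α₀ * Lf x := by fun_prop
  have ch6 : Continuous fun x => γ₀ * Lw x := by fun_prop
  obtain ⟨hd, C, hC⟩ := T_entire hu (ex_cc ch4 1 hf)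
    (fun a ha => ex_cc ch6 1 (hw a ha)) ch1 ch3
  set F : ℂ → ℂ := fun z => T I u
    (ex (fun x => (α₁ - α₀) * Lf x) z (ex (fun x => α₀ * Lf x) 1 f))
    (fun a => ex (fun x => (γ₁ - γ₀) * Lw x) z (ex (fun x => γ₀ * Lw x) 1 (w a))) with hF
  have b0 : ∀ z ∈ Complex.re ⁻¹' {0}, ‖F z‖ ≤
      M₀ * (∫ x, Real.exp ((p - p₀) / 2 * Lf x) * ‖f x‖ ^ p₀) ^ (1 / p₀) *
        (∫ x, Real.sqrt (Wn I w x) ^ s) ^ (1 / s₀) := by
    intro z hz
    have hz' : z.re = 0 := hz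
    have k := hold hu (ex_cc ch1 z (ex_cc ch4 1 hf))
      (fun a ha => ex_cc ch3 z (ex_cc ch6 1 (hw a ha))) hp0 hM0 hs0
      (hb0 _ (ex_cc ch1 z (ex_cc ch4 1 hf)))
    refine k.trans ?_
    have e1 : ∫ x, ‖ex (fun x => (α₁ - α₀) * Lf x) z (ex (fun x => α₀ * Lf x) 1 f) x‖ ^ p₀ =
        ∫ x, Real.exp ((p - p₀) / 2 * Lf x) * ‖f x‖ ^ p₀ := by
      congr 1
      ext x
      rw [ex_rpow, hz', ← hα₀p]
      ring_nf
    rw [e1]
    refine mul_le_mul_of_nonneg_left ?_ ?_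
    · refine Real.rpow_le_rpow (integral_nonneg fun x => Real.rpow_nonneg (Wn_nonneg _ x) _) ?_
        (by positivity)
      refine integral_mono_of_nonneg
        (Filter.Eventually.of_forall fun x => Real.rpow_nonneg (Wn_nonneg _ x) _) ?_
        (Filter.Eventually.of_forall fun x => ?_)
      · have hc : Continuous fun x => Real.sqrt (Wn I w x) ^ s :=
          (Real.continuous_sqrt.comp cW).rpow_const fun x => Or.inr hs'.le
        refine hc.integrable_of_hasCompactSupport ?_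
        exact sW.comp_left (g := fun y : ℝ => Real.sqrt y ^ s)
          (by simp [Real.zero_rpow hs'.ne'])
      · simp only
        rw [ex_Wn, hz', show (0 * ((γ₁ - γ₀) * Lw x) + γ₀ * Lw x) * s₀ = γ₀ * s₀ * Lw x by ring,
          hγ₀s]
        exact reg_le (Real.sqrt_nonneg _) hε hs' hss0
    · have i1 : 0 ≤ ∫ x, Real.exp ((p - p₀) / 2 * Lf x) * ‖f x‖ ^ p₀ :=
        integral_nonneg fun x => by positivity
      positivity
  have b1 : ∀ z ∈ Complex.re ⁻¹' {1}, ‖F z‖ ≤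
      M₁ * (∫ x, ‖f x‖ ^ p) ^ (1 / p₁) *
        (∫ x, Real.exp ((s - s₁) / 2 * Lw x) * Real.sqrt (Wn I w x) ^ s₁) ^ (1 / s₁) := by
    intro z hz
    have hz' : z.re = 1 := hz
    have k := hold hu (ex_cc ch1 z (ex_cc ch4 1 hf))
      (fun a ha => ex_cc ch3 z (ex_cc ch6 1 (hw a ha))) (by linarith : 2 ≤ p₁) hM1 hs1
      (hb1 _ (ex_cc ch1 z (ex_cc ch4 1 hf)))
    refine k.trans ?_
    have e3 : ∫ x, Wn I (fun a => ex (fun x => (γ₁ - γ₀) * Lw x) z
        (ex (fun x => γ₀ * Lw x) 1 (w a))) x ^ (s₁ / 2) =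
        ∫ x, Real.exp ((s - s₁) / 2 * Lw x) * Real.sqrt (Wn I w x) ^ s₁ := by
      congr 1
      ext x
      rw [ex_Wn, hz', ← hγ₁s]
      ring_nf
    rw [e3]
    have i3 : 0 ≤ ∫ x, Real.exp ((s - s₁) / 2 * Lw x) * Real.sqrt (Wn I w x) ^ s₁ :=
      integral_nonneg fun x => by positivity
    refine mul_le_mul_of_nonneg_right ?_ (Real.rpow_nonneg i3 _)
    refine mul_le_mul_of_nonneg_left ?_ hM1.le
    refine Real.rpow_le_rpow (integral_nonneg fun x => Real.rpow_nonneg (norm_nonneg _) _) ?_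
      (by positivity)
    have hc : Continuous fun x => ‖f x‖ ^ p := hf.1.norm.rpow_const fun x => Or.inr hp'.le
    refine integral_mono_of_nonneg
      (Filter.Eventually.of_forall fun x => Real.rpow_nonneg (norm_nonneg _) _)
      (hc.integrable_of_hasCompactSupport
        (hf.2.comp_left (g := fun y : ℂ => ‖y‖ ^ p) (by simp [Real.zero_rpow hp'.ne'])))
      (Filter.Eventually.of_forall fun x => ?_)
    simp only
    rw [ex_rpow, hz', show (1 * ((α₁ - α₀) * Lf x) + α₀ * Lf x) * p₁ = α₁ * p₁ * Lf x by ring,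
      hα₁p]
    exact reg_le (norm_nonneg _) hε hp' hpp1
  have hθ : ((τ : ℝ) : ℂ) ∈ Complex.HadamardThreeLines.verticalClosedStrip 0 1 := by
    constructor
    · simpa only [Complex.ofReal_re] using hτ0
    · simpa only [Complex.ofReal_re] using hτ1
  have h3l := Complex.HadamardThreeLines.norm_le_interp_of_mem_verticalClosedStrip₀₁' F hθ
    (hd.diffContOnCl) (by
      refine ⟨C, ?_⟩
      rintro y ⟨ζ, hζ, rfl⟩
      exact hC ζ hζ.1 hζ.2) b0 b1
  rw [Complex.ofReal_re] at h3l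
  have back : ∀ (g : ℂ → ℂ) (L : ℂ → ℝ) (β₀ β₁ : ℝ), β₀ + τ * (β₁ - β₀) = 0 →
      ex (fun x => (β₁ - β₀) * L x) (τ : ℂ) (ex (fun x => β₀ * L x) 1 g) = g := by
    intro g L β₀ β₁ hβ
    ext x
    unfold ex
    rw [← mul_assoc, ← Complex.exp_add]
    have e : (τ : ℂ) * (((β₁ - β₀) * L x : ℝ) : ℂ) + 1 * ((β₀ * L x : ℝ) : ℂ) = 0 := by
      have : (((β₀ + τ * (β₁ - β₀)) * L x : ℝ) : ℂ) = 0 := by rw [hβ]; simp
      rw [← this]
      push_cast
      ring
    rw [e, Complex.exp_zero, one_mul]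
  have hFθ : F (τ : ℂ) = T I u f w := by
    rw [hF]
    simp only
    rw [back f Lf α₀ α₁ hατ]
    congr 1
    ext a x
    rw [back (w a) Lw γ₀ γ₁ hγτ]
  rw [hFθ] at h3l
  exact h3l

omit hu in
/-- the exponents are monotone -/
lemma exps {p₀ p₁ p τ : ℝ} (hp0 : 2 ≤ p₀) (hp01 : p₀ ≤ p₁) (hτ0 : 0 ≤ τ) (hτ1 : τ ≤ 1)
    (hp : 1 / p = (1 - τ) / p₀ + τ / p₁) : p₀ ≤ p ∧ p ≤ p₁ := by
  have h0 : 0 < 1 / p₀ := by positivity
  have h1 : 0 < 1 / p₁ := by
    have : 0 < p₁ := by linarith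
    positivity
  have h01 : 1 / p₁ ≤ 1 / p₀ := one_div_le_one_div_of_le (by linarith) hp01
  have e : 1 / p = (1 - τ) * (1 / p₀) + τ * (1 / p₁) := by rw [hp]; ring
  have hl : 1 / p₁ ≤ 1 / p := by rw [e]; nlinarith
  have hu : 1 / p ≤ 1 / p₀ := by rw [e]; nlinarith
  have hpp : 0 < p := by
    have : 0 < 1 / p := lt_of_lt_of_le h1 hl
    exact one_div_pos.1 this
  constructor
  · rwa [one_div_le_one_div hpp (by linarith)] at hu
  · rwa [one_div_le_one_div (by linarith) hpp] at hl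

/-- interpolation for the bilinear form -/
lemma interp {f : ℂ → ℂ} {w : ℤ → ℂ → ℂ} (hf : CCs f) (hw : ∀ a ∈ I, CCs (w a))
    {p₀ p₁ p M₀ M₁ τ s : ℝ} (hp0 : 2 ≤ p₀) (hp01 : p₀ ≤ p₁)
    (hM0 : 0 < M₀) (hM1 : 0 < M₁) (hτ0 : 0 ≤ τ) (hτ1 : τ ≤ 1)
    (hp : 1 / p = (1 - τ) / p₀ + τ / p₁) (hs : s = p / (p - 1))
    (hb0 : ∀ f, CCs f → ∫ x, Sn I u f x ^ (p₀ / 2) ≤ M₀ ^ p₀ * ∫ x, ‖f x‖ ^ p₀)
    (hb1 : ∀ f, CCs f → ∫ x, Sn I u f x ^ (p₁ / 2) ≤ M₁ ^ p₁ * ∫ x, ‖f x‖ ^ p₁) :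
    ‖T I u f w‖ ≤ M₀ ^ (1 - τ) * M₁ ^ τ * (∫ x, ‖f x‖ ^ p) ^ (1 / p) *
      (∫ x, Real.sqrt (Wn I w x) ^ s) ^ (1 / s) := by
  obtain ⟨hp0p, hpp1⟩ := exps hp0 hp01 hτ0 hτ1 hp
  set s₀ : ℝ := p₀ / (p₀ - 1) with hs0
  set s₁ : ℝ := p₁ / (p₁ - 1) with hs1
  have hp0' : 0 < p₀ := by linarith
  have hp' : 0 < p := by linarith
  have hp1' : 0 < p₁ := by linarith
  have hs0' : 0 < s₀ := by rw [hs0]; exact div_pos (by linarith) (by linarith)
  have hs1' : 0 < s₁ := by rw [hs1]; exact div_pos (by linarith) (by linarith)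
  have hs' : 0 < s := by rw [hs]; exact div_pos (by linarith) (by linarith)
  have hss1 : s₁ ≤ s := by
    rw [hs, hs1, div_le_div_iff₀ (by linarith) (by linarith)]
    nlinarith
  have hsτ : 1 / s = (1 - τ) / s₀ + τ / s₁ := by
    have e1 : 1 / s = 1 - (1 / p) := by
      rw [hs]
      have : p - 1 ≠ 0 := by linarith
      field_simp
    have e2 : 1 / s₀ = 1 - (1 / p₀) := by
      rw [hs0]
      have : p₀ - 1 ≠ 0 := by linarith
      field_simp
    have e3 : 1 / s₁ = 1 - (1 / p₁) := by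
      rw [hs1]
      have : p₁ - 1 ≠ 0 := by linarith
      field_simp
    rw [e1, hp, div_eq_mul_one_div (1 - τ) s₀, div_eq_mul_one_div τ s₁, e2, e3]
    ring
  have cW := Wn_cont hw
  have sW := Wn_supp hw
  have lim1 := reg_lim (ρ := fun x => ‖f x‖) hf.1.norm hf.2.norm (fun x => norm_nonneg _)
    hp0' hp0p
  have lim3 := reg_lim (ρ := fun x => Real.sqrt (Wn I w x)) (Real.continuous_sqrt.comp cW)
    (sW.comp_left (g := fun y : ℝ => Real.sqrt y) Real.sqrt_zero)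
    (fun x => Real.sqrt_nonneg _) hs1' hss1
  have key := fun k : ℕ => interp_eps hu hf hw hp0 hp0p hpp1 hM0 hM1 hτ0 hτ1 hp hs0 hs1 hs
    hb0 hb1 (ε := 1 / ((k:ℝ) + 1)) (by positivity)
  have hlim := (((lim1.rpow_const (p := 1 / p₀) (Or.inr (by positivity))).const_mul
    M₀).mul_const ((∫ x, Real.sqrt (Wn I w x) ^ s) ^ (1 / s₀))).rpow_const (p := 1 - τ)
      (Or.inr (by linarith))
  have hlim2 := ((lim3.rpow_const (p := 1 / s₁) (Or.inr (by positivity))).const_mul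
    (M₁ * (∫ x, ‖f x‖ ^ p) ^ (1 / p₁))).rpow_const (p := τ) (Or.inr hτ0)
  have hfin := ge_of_tendsto' (hlim.mul hlim2) key
  refine hfin.trans (le_of_eq ?_)
  have iA : 0 ≤ ∫ x, ‖f x‖ ^ p := integral_nonneg fun x => Real.rpow_nonneg (norm_nonneg _) _
  have iW : 0 ≤ ∫ x, Real.sqrt (Wn I w x) ^ s :=
    integral_nonneg fun x => Real.rpow_nonneg (Real.sqrt_nonneg _) _
  generalize (∫ x, ‖f x‖ ^ p) = A at iA ⊢
  generalize (∫ x, Real.sqrt (Wn I w x) ^ s) = W at iW ⊢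
  have comb : ∀ y : ℝ, 0 ≤ y → ∀ a b c : ℝ, 0 < a → 0 < b → 1 / c = (1 - τ) / a + τ / b →
      (y ^ (1 / a)) ^ (1 - τ) * (y ^ (1 / b)) ^ τ = y ^ (1 / c) := by
    intro y hy a b c ha hb hc
    rw [← Real.rpow_mul hy, ← Real.rpow_mul hy, hc, ← Real.rpow_add_of_nonneg hy]
    · congr 1; ring
    · exact mul_nonneg (by positivity) (by linarith)
    · exact mul_nonneg (by positivity) (by linarith)
  rw [← comb A iA p₀ p₁ p hp0' hp1' hp, ← comb W iW s₀ s₁ s hs0' hs1' hsτ]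
  rw [Real.mul_rpow (by positivity) (by positivity), Real.mul_rpow (by positivity)
    (by positivity), Real.mul_rpow (by positivity) (by positivity),
    Real.mul_rpow (by positivity) (by positivity)]
  ring

/-- duality -/
lemma dual {f : ℂ → ℂ} (hf : CCs f)
    {p₀ p₁ p M₀ M₁ τ : ℝ} (hp0 : 2 ≤ p₀) (hp01 : p₀ ≤ p₁)
    (hM0 : 0 < M₀) (hM1 : 0 < M₁) (hτ0 : 0 ≤ τ) (hτ1 : τ ≤ 1)
    (hp : 1 / p = (1 - τ) / p₀ + τ / p₁)
    (hb0 : ∀ f, CCs f → ∫ x, Sn I u f x ^ (p₀ / 2) ≤ M₀ ^ p₀ * ∫ x, ‖f x‖ ^ p₀)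
    (hb1 : ∀ f, CCs f → ∫ x, Sn I u f x ^ (p₁ / 2) ≤ M₁ ^ p₁ * ∫ x, ‖f x‖ ^ p₁) (k : ℕ) :
    ∫ x, chi k x * Sn I u f x ^ (p / 2) ≤ (M₀ ^ (1 - τ) * M₁ ^ τ) ^ p *
      ∫ x, ‖f x‖ ^ p := by
  obtain ⟨hp0p, hpp1⟩ := exps hp0 hp01 hτ0 hτ1 hp
  have hp2 : 2 ≤ p := by linarith
  set s : ℝ := p / (p - 1) with hs
  have hs' : 1 ≤ s := by rw [hs, one_le_div (by linarith)]; linarith
  have cQ := Sn_cont hu hf
  have nQ := Sn_nonneg (I := I) (u := u) f
  set w : ℤ → ℂ → ℂ := fun a x => ((chi k x * Sn I u f x ^ ((p - 2) / 2) : ℝ) : ℂ) *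
    (starRingEnd ℂ) (cf (u a) f x) with hw
  have cQ1 : Continuous fun x => Sn I u f x ^ ((p - 2) / 2) :=
    cQ.rpow_const fun x => Or.inr (by linarith)
  have hwc : ∀ a ∈ I, CCs (w a) := by
    intro a ha
    have c1 := cf_cont (hu a ha).1 hf
    have c3 := chi_cont k
    constructor
    · rw [hw]
      have : Continuous fun x => (starRingEnd ℂ) (cf (u a) f x) :=
        Complex.continuous_conj.comp c1
      fun_prop
    · refine HasCompactSupport.intro (chi_supp k).isCompact fun x hx => ?_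
      rw [hw]
      simp only
      rw [image_eq_zero_of_notMem_tsupport hx]
      simp
  -- the bilinear form
  have eQ : ∀ x, Sn I u f x ^ ((p - 2) / 2) * Sn I u f x = Sn I u f x ^ (p / 2) := by
    intro x
    rw [← Real.rpow_add_one' (nQ x) (by linarith)]
    congr 1
    ring
  have eT : T I u f w = ((∫ x, chi k x * Sn I u f x ^ (p / 2) : ℝ) : ℂ) := by
    unfold T
    rw [← integral_finsetSum, ← integral_complex_ofReal]
    · congr 1
      ext x
      rw [← eQ x]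
      nth_rewrite 2 [Sn]
      rw [hw]
      simp only
      push_cast
      rw [Finset.mul_sum, Finset.mul_sum]
      refine Finset.sum_congr rfl fun a _ => ?_
      have e1 : (cf (u a) f x) * (starRingEnd ℂ) (cf (u a) f x) =
          ((‖cf (u a) f x‖ : ℝ) : ℂ) ^ 2 := by
        rw [Complex.mul_conj, Complex.normSq_eq_norm_sq]
        push_cast
        ring
      rw [← e1]
      ring
    · intro a ha
      have c1 := cf_cont (hu a ha).1 hf
      have c3 := (hwc a ha).1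
      have hc : Continuous fun x => cf (u a) f x * w a x := by fun_prop
      exact hc.integrable_of_hasCompactSupport (hwc a ha).2.mul_left
  have eW : ∀ x, Real.sqrt (Wn I w x) ^ s = chi k x ^ s * Sn I u f x ^ (p / 2) := by
    intro x
    have e1 : Wn I w x = (chi k x) ^ 2 * (Sn I u f x ^ ((p - 2) / 2)) ^ 2 *
        Sn I u f x := by
      unfold Wn
      nth_rewrite 2 [Sn]
      rw [Finset.mul_sum]
      refine Finset.sum_congr rfl fun a _ => ?_
      rw [hw]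
      simp only
      rw [norm_mul, Complex.norm_real, RCLike.norm_conj, mul_pow, Real.norm_eq_abs, sq_abs]
      ring
    have e2 : Real.sqrt (Wn I w x) = chi k x * Sn I u f x ^ ((p - 1) / 2) := by
      rw [e1]
      have e3 : (chi k x) ^ 2 * (Sn I u f x ^ ((p - 2) / 2)) ^ 2 * Sn I u f x =
          (chi k x * Sn I u f x ^ ((p - 1) / 2)) ^ 2 := by
        rw [mul_pow, mul_assoc]
        congr 1
        rw [← Real.rpow_natCast, ← Real.rpow_natCast, ← Real.rpow_mul (nQ x),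
          ← Real.rpow_mul (nQ x), ← Real.rpow_add_one' (nQ x)]
        · congr 1
          push_cast
          ring
        · push_cast
          linarith
      rw [e3, Real.sqrt_sq]
      exact mul_nonneg (chi_nonneg k x) (Real.rpow_nonneg (nQ x) _)
    rw [e2, Real.mul_rpow (chi_nonneg k x) (Real.rpow_nonneg (nQ x) _), ← Real.rpow_mul (nQ x)]
    congr 2
    rw [hs]
    have : p - 1 ≠ 0 := by linarith
    field_simp
  set X : ℝ := ∫ x, chi k x * Sn I u f x ^ (p / 2) with hX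
  have hXint : Integrable fun x => chi k x * Sn I u f x ^ (p / 2) := by
    have c3 := chi_cont k
    have c4 : Continuous fun x => Sn I u f x ^ (p / 2) :=
      cQ.rpow_const fun x => Or.inr (by linarith)
    exact (c3.mul c4).integrable_of_hasCompactSupport (chi_supp k).mul_right
  have hX0 : 0 ≤ X := integral_nonneg fun x =>
    mul_nonneg (chi_nonneg k x) (Real.rpow_nonneg (nQ x) _)
  have hWX : ∫ x, Real.sqrt (Wn I w x) ^ s ≤ X := by
    refine integral_mono_of_nonneg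
      (Filter.Eventually.of_forall fun x => Real.rpow_nonneg (Real.sqrt_nonneg _) _) hXint
      (Filter.Eventually.of_forall fun x => ?_)
    simp only
    rw [eW x]
    refine mul_le_mul_of_nonneg_right ?_ (Real.rpow_nonneg (nQ x) _)
    calc chi k x ^ s ≤ chi k x ^ (1 : ℝ) := by
          rcases (chi_nonneg k x).eq_or_lt with h0 | h0
          · rw [← h0, Real.zero_rpow (by linarith), Real.zero_rpow one_ne_zero]
          · exact Real.rpow_le_rpow_of_exponent_ge h0 (chi_le_one k x) hs'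
      _ = chi k x := Real.rpow_one _
  have main := interp hu hf hwc hp0 hp01 hM0 hM1 hτ0 hτ1 hp hs hb0 hb1
  rw [eT, Complex.norm_real, Real.norm_eq_abs, abs_of_nonneg hX0] at main
  have iA : 0 ≤ ∫ x, ‖f x‖ ^ p := integral_nonneg fun x => Real.rpow_nonneg (norm_nonneg _) _
  have iW : 0 ≤ ∫ x, Real.sqrt (Wn I w x) ^ s :=
    integral_nonneg fun x => Real.rpow_nonneg (Real.sqrt_nonneg _) _
  have hWX' : (∫ x, Real.sqrt (Wn I w x) ^ s) ^ (1 / s) ≤ X ^ (1 / s) :=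
    Real.rpow_le_rpow iW hWX (by positivity)
  generalize (∫ x, ‖f x‖ ^ p) = A at iA main ⊢
  have main2 : X ≤ M₀ ^ (1 - τ) * M₁ ^ τ * A ^ (1 / p) * X ^ (1 / s) :=
    main.trans (mul_le_mul_of_nonneg_left hWX' (by positivity))
  rcases hX0.eq_or_lt with h0 | h0
  · rw [← h0]
    positivity
  · have h1 : X ^ (1 / p) ≤ M₀ ^ (1 - τ) * M₁ ^ τ * A ^ (1 / p) := by
      have h2 : X = X ^ (1 / p) * X ^ (1 / s) := by
        rw [← Real.rpow_add h0]
        have e1 : 1 / p + 1 / s = 1 := by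
          rw [hs]
          have : p - 1 ≠ 0 := by linarith
          field_simp
          ring
        rw [e1, Real.rpow_one]
      have h3 : 0 < X ^ (1 / s) := Real.rpow_pos_of_pos h0 _
      nth_rewrite 1 [h2] at main2
      exact le_of_mul_le_mul_right main2 h3
    have h4 : X = (X ^ (1 / p)) ^ p := by
      rw [← Real.rpow_mul h0.le]
      have : 1 / p * p = 1 := by field_simp
      rw [this, Real.rpow_one]
    rw [h4]
    calc (X ^ (1 / p)) ^ p
        ≤ (M₀ ^ (1 - τ) * M₁ ^ τ * A ^ (1 / p)) ^ p :=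
          Real.rpow_le_rpow (Real.rpow_nonneg h0.le _) h1 (by linarith)
      _ = _ := by
          rw [Real.mul_rpow (by positivity) (Real.rpow_nonneg iA _), ← Real.rpow_mul iA]
          have : 1 / p * p = 1 := by field_simp
          rw [this, Real.rpow_one]

/-- the interpolation theorem -/
theorem rtl_core {f : ℂ → ℂ} (hf : CCs f)
    {p₀ p₁ p M₀ M₁ τ : ℝ} (hp0 : 2 ≤ p₀) (hp01 : p₀ ≤ p₁)
    (hM0 : 0 < M₀) (hM1 : 0 < M₁) (hτ0 : 0 ≤ τ) (hτ1 : τ ≤ 1)
    (hp : 1 / p = (1 - τ) / p₀ + τ / p₁)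
    (hb0 : ∀ f, CCs f → ∫ x, Sn I u f x ^ (p₀ / 2) ≤ M₀ ^ p₀ * ∫ x, ‖f x‖ ^ p₀)
    (hb1 : ∀ f, CCs f → ∫ x, Sn I u f x ^ (p₁ / 2) ≤ M₁ ^ p₁ * ∫ x, ‖f x‖ ^ p₁) :
    Integrable (fun x => Sn I u f x ^ (p / 2)) ∧
    ∫ x, Sn I u f x ^ (p / 2) ≤ (M₀ ^ (1 - τ) * M₁ ^ τ) ^ p * ∫ x, ‖f x‖ ^ p := by
  obtain ⟨hp0p, hpp1⟩ := exps hp0 hp01 hτ0 hτ1 hp
  have hi := Sn_rpow_int hu hf (s := p / 2) (by linarith)
  refine ⟨hi, ?_⟩
  have nQ := Sn_nonneg (I := I) (u := u) f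
  have hlim : Tendsto (fun k : ℕ => ∫ x, chi k x * Sn I u f x ^ (p / 2)) atTop
      (𝓝 (∫ x, Sn I u f x ^ (p / 2))) := by
    apply tendsto_integral_of_dominated_convergence (fun x => Sn I u f x ^ (p / 2))
    · intro k
      exact (chi_cont k).aestronglyMeasurable.mul hi.aestronglyMeasurable
    · exact hi
    · intro k
      filter_upwards with x
      have h1 := Real.rpow_nonneg (nQ x) (p / 2)
      rw [Real.norm_eq_abs, abs_of_nonneg (mul_nonneg (chi_nonneg k x) h1)]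
      exact mul_le_of_le_one_left h1 (chi_le_one k x)
    · filter_upwards with x
      obtain ⟨k0, hk0⟩ := exists_nat_ge ‖x‖
      refine tendsto_const_nhds.congr' ?_
      filter_upwards [eventually_ge_atTop k0] with k hk
      rw [chi_eq (hk0.trans (by exact_mod_cast hk)), one_mul]
  exact le_of_tendsto' hlim fun k => dual hu hf hp0 hp01 hM0 hM1 hτ0 hτ1 hp hb0 hb1 k

end form

end Pool.Agent.Lib.MP_dd244f_an.Rp.RTLP

namespace Pool.Agent.Lib.MP_dd244f_an.Rp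

open MeasureTheory Filter Topology Finset
open Pool.Agent.Lib.MP_dd244f_an.Four

/-- module RTL -/
theorem rtl : StmtRTL := by
  intro I u p₀ p₁ p M₀ M₁ τ hu hp0 hp01 hM0 hM1 hτ0 hτ1 hp hb0 hb1 f hf
  exact RTLP.rtl_core (I := I) (u := u) (fun a ha => hu a ha) hf hp0 hp01 hM0 hM1 hτ0 hτ1 hp
    hb0 hb1

end Pool.Agent.Lib.MP_dd244f_an.Rp
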