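import Pool.Agent.Lib.MP_dd244f_an.Rp.Stmts

/-!
Full operator, all real `p`: the loss of the interpolation on a fine mesh (module RatC).
-/

set_option autoImplicit false

namespace Pool.Agent.Lib.MP_dd244f_an.Rp

open Pool.Agent.Lib.MP_dd244f_an.Joint (ratio)

namespace RatCAux

lemma ratio_zero (p : ℝ) : ratio 0 p = 1 := by
  simp [ratio]

lemma ratio_succ (n : ℕ) (p : ℝ) :
    ratio (n + 1) p = ratio n p * (((n : ℝ) + 1 - 1 / p) / ((n : ℝ) + 1 / p)) := by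
  unfold ratio
  rw [ascPochhammer_succ_eval, ascPochhammer_succ_eval, mul_div_mul_comm]
  congr 2
  · ring
  · ring

lemma ratio_pos (n : ℕ) (p : ℝ) (h0 : 0 < 1 / p) (h1 : 1 / p ≤ 1 / 2) : 0 < ratio n p := by
  induction n with
  | zero => rw [ratio_zero]; norm_num
  | succ n ih =>
    rw [ratio_succ]
    have hn : (0 : ℝ) ≤ n := Nat.cast_nonneg n
    refine mul_pos ih (div_pos ?_ ?_)
    · linarith
    · linarith

/-- the logarithm is almost affine on short intervals -/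
lemma log_chord (a b c τ D : ℝ) (ha : 0 < a) (hac : a ≤ c) (hcb : c ≤ b) (hτ0 : 0 ≤ τ)
    (hτ1 : τ ≤ 1) (hc : c = (1 - τ) * b + τ * a) (hD : b - a ≤ D) :
    Real.log c ≤ (1 - τ) * Real.log b + τ * Real.log a + D ^ 2 / a ^ 2 := by
  have hc0 : 0 < c := by linarith
  have hb0 : 0 < b := by linarith
  have hab : 0 ≤ b - a := by linarith
  -- `log c - log b ≤ c / b - 1`
  have h1 : Real.log c - Real.log b ≤ c / b - 1 := by
    rw [← Real.log_div hc0.ne' hb0.ne']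
    exact Real.log_le_sub_one_of_pos (by positivity)
  have h2 : Real.log c - Real.log a ≤ c / a - 1 := by
    rw [← Real.log_div hc0.ne' ha.ne']
    exact Real.log_le_sub_one_of_pos (by positivity)
  have h3 := mul_le_mul_of_nonneg_left h1 (by linarith : 0 ≤ 1 - τ)
  have h4 := mul_le_mul_of_nonneg_left h2 hτ0
  have h5 : (1 - τ) * (c / b - 1) + τ * (c / a - 1) = τ * (1 - τ) * (b - a) ^ 2 / (a * b) := by
    rw [hc]
    field_simp
    ring
  have h6 : τ * (1 - τ) * (b - a) ^ 2 / (a * b) ≤ D ^ 2 / a ^ 2 := by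
    have e1 : τ * (1 - τ) * (b - a) ^ 2 ≤ D ^ 2 := by
      have e2 : τ * (1 - τ) ≤ 1 := by nlinarith
      have e3 : (b - a) ^ 2 ≤ D ^ 2 := pow_le_pow_left₀ hab hD 2
      have e4 := mul_le_mul_of_nonneg_right e2 (sq_nonneg (b - a))
      linarith
    have e5 : a ^ 2 ≤ a * b := by nlinarith
    exact div_le_div₀ (sq_nonneg _) e1 (by positivity) e5
  linarith

/-- one factor -/
lemma term (j x₀ x₁ x τ : ℝ) (hj : 0 ≤ j) (h1 : 0 < x₁) (h1x : x₁ ≤ x) (hx0 : x ≤ x₀)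
    (h0 : x₀ ≤ 1 / 2) (hτ0 : 0 ≤ τ) (hτ1 : τ ≤ 1) (hx : x = (1 - τ) * x₀ + τ * x₁) :
    ((j + 1 - x₀) / (j + x₀)) ^ (1 - τ) * ((j + 1 - x₁) / (j + x₁)) ^ τ
      ≤ Real.exp ((x₀ - x₁) ^ 2 / (j + x₁) ^ 2) * ((j + 1 - x) / (j + x)) := by
  have a0 : 0 < j + 1 - x₀ := by linarith
  have a1 : 0 < j + 1 - x₁ := by linarith
  have a : 0 < j + 1 - x := by linarith
  have b0 : 0 < j + x₀ := by linarith
  have b1 : 0 < j + x₁ := by linarith
  have b : 0 < j + x := by linarith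
  have hch := log_chord (j + x₁) (j + x₀) (j + x) τ (x₀ - x₁) b1 (by linarith) (by linarith)
    hτ0 hτ1 (by rw [hx]; ring) (by linarith)
  have hcc := strictConcaveOn_log_Ioi.concaveOn.2 (x := j + 1 - x₀) (y := j + 1 - x₁)
    (Set.mem_Ioi.mpr a0) (Set.mem_Ioi.mpr a1) (by linarith : 0 ≤ 1 - τ) hτ0 (by ring)
  simp only [smul_eq_mul] at hcc
  have e1 : (1 - τ) * (j + 1 - x₀) + τ * (j + 1 - x₁) = j + 1 - x := by
    rw [hx]
    ring
  rw [e1] at hcc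
  have hL : ((j + 1 - x₀) / (j + x₀)) ^ (1 - τ) * ((j + 1 - x₁) / (j + x₁)) ^ τ
      = Real.exp ((1 - τ) * (Real.log (j + 1 - x₀) - Real.log (j + x₀))
        + τ * (Real.log (j + 1 - x₁) - Real.log (j + x₁))) := by
    rw [Real.rpow_def_of_pos (div_pos a0 b0), Real.rpow_def_of_pos (div_pos a1 b1),
      Real.log_div a0.ne' b0.ne', Real.log_div a1.ne' b1.ne', ← Real.exp_add]
    congr 1
    ring
  have hR : Real.exp ((x₀ - x₁) ^ 2 / (j + x₁) ^ 2) * ((j + 1 - x) / (j + x))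
      = Real.exp ((x₀ - x₁) ^ 2 / (j + x₁) ^ 2 + (Real.log (j + 1 - x) - Real.log (j + x))) := by
    rw [Real.exp_add, ← Real.log_div a.ne' b.ne', Real.exp_log (div_pos a b)]
  rw [hL, hR]
  refine Real.exp_le_exp.mpr ?_
  linarith

/-- the product -/
lemma prod_bound (P : ℝ) (hP : 2 ≤ P) (p₀ p₁ p τ : ℝ) (hp0 : 2 ≤ p₀) (hp01 : p₀ ≤ p₁)
    (hp1 : p₁ ≤ P) (hτ0 : 0 ≤ τ) (hτ1 : τ ≤ 1) (hp : 1 / p = (1 - τ) / p₀ + τ / p₁) (n : ℕ) :
    ratio (n + 1) p₀ ^ (1 - τ) * ratio (n + 1) p₁ ^ τ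
      ≤ Real.exp ((1 / p₀ - 1 / p₁) ^ 2 * (P ^ 2 + 2 - 1 / ((n : ℝ) + 1 / 2))) * ratio (n + 1) p := by
  have hP0 : 0 < P := by linarith
  have q0 : 0 < p₀ := by linarith
  have q1 : 0 < p₁ := by linarith
  have x1P : 1 / P ≤ 1 / p₁ := one_div_le_one_div_of_le q1 hp1
  have x10 : 1 / p₁ ≤ 1 / p₀ := one_div_le_one_div_of_le q0 hp01
  have x0h : 1 / p₀ ≤ 1 / 2 := one_div_le_one_div_of_le (by norm_num) hp0
  have x1p : 0 < 1 / p₁ := by positivity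
  have hxx : 1 / p = (1 - τ) * (1 / p₀) + τ * (1 / p₁) := by
    rw [hp]
    ring
  have hx1 : 1 / p₁ ≤ 1 / p := by
    rw [hxx]
    nlinarith
  have hx0 : 1 / p ≤ 1 / p₀ := by
    rw [hxx]
    nlinarith
  have hterm : ∀ j : ℕ, (((j : ℝ) + 1 - 1 / p₀) / ((j : ℝ) + 1 / p₀)) ^ (1 - τ) *
      (((j : ℝ) + 1 - 1 / p₁) / ((j : ℝ) + 1 / p₁)) ^ τ
      ≤ Real.exp ((1 / p₀ - 1 / p₁) ^ 2 / ((j : ℝ) + 1 / p₁) ^ 2) *
        (((j : ℝ) + 1 - 1 / p) / ((j : ℝ) + 1 / p)) := fun j =>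
    term j (1 / p₀) (1 / p₁) (1 / p) τ (Nat.cast_nonneg j) x1p hx1 hx0 x0h hτ0 hτ1 hxx
  have hstep : ∀ j : ℕ, ratio (j + 1) p₀ ^ (1 - τ) * ratio (j + 1) p₁ ^ τ
      ≤ Real.exp ((1 / p₀ - 1 / p₁) ^ 2 / ((j : ℝ) + 1 / p₁) ^ 2) *
        (((j : ℝ) + 1 - 1 / p) / ((j : ℝ) + 1 / p)) *
        (ratio j p₀ ^ (1 - τ) * ratio j p₁ ^ τ) := by
    intro j
    have hj : (0 : ℝ) ≤ j := Nat.cast_nonneg j
    have r0 := (ratio_pos j p₀ (by positivity) x0h).le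
    have r1 := (ratio_pos j p₁ x1p (x10.trans x0h)).le
    have t0 : 0 ≤ ((j : ℝ) + 1 - 1 / p₀) / ((j : ℝ) + 1 / p₀) :=
      div_nonneg (by linarith) (by positivity)
    have t1 : 0 ≤ ((j : ℝ) + 1 - 1 / p₁) / ((j : ℝ) + 1 / p₁) :=
      div_nonneg (by linarith) (by positivity)
    rw [ratio_succ, ratio_succ, Real.mul_rpow r0 t0, Real.mul_rpow r1 t1]
    have hm : 0 ≤ ratio j p₀ ^ (1 - τ) * ratio j p₁ ^ τ := by positivity
    have := mul_le_mul_of_nonneg_right (hterm j) hm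
    refine le_trans (le_of_eq ?_) this
    ring
  set D : ℝ := (1 / p₀ - 1 / p₁) ^ 2 with hD
  have hD0 : 0 ≤ D := sq_nonneg _
  induction n with
  | zero =>
    refine (hstep 0).trans ?_
    rw [ratio_zero, ratio_zero, Real.one_rpow, Real.one_rpow, ratio_succ, ratio_zero]
    have e1 : Real.exp (D / (((0 : ℕ) : ℝ) + 1 / p₁) ^ 2)
        ≤ Real.exp (D * (P ^ 2 + 2 - 1 / (((0 : ℕ) : ℝ) + 1 / 2))) := by
      refine Real.exp_le_exp.mpr ?_
      have h1 : D / (((0 : ℕ) : ℝ) + 1 / p₁) ^ 2 = D * p₁ ^ 2 := by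
        push_cast
        field_simp
        ring
      have h2 : (P ^ 2 + 2 - 1 / (((0 : ℕ) : ℝ) + 1 / 2)) = P ^ 2 := by
        push_cast
        ring
      rw [h1, h2]
      have h3 : p₁ ^ 2 ≤ P ^ 2 := pow_le_pow_left₀ q1.le hp1 2
      exact mul_le_mul_of_nonneg_left h3 hD0
    have hpos : 0 ≤ (((0 : ℕ) : ℝ) + 1 - 1 / p) / (((0 : ℕ) : ℝ) + 1 / p) := by
      push_cast
      exact div_nonneg (by linarith) (by linarith)
    have := mul_le_mul_of_nonneg_right e1 hpos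
    linarith
  | succ n ih =>
    refine (hstep (n + 1)).trans ?_
    have hn : (0 : ℝ) ≤ n := Nat.cast_nonneg n
    have hpos : 0 ≤ (((n + 1 : ℕ) : ℝ) + 1 - 1 / p) / (((n + 1 : ℕ) : ℝ) + 1 / p) := by
      push_cast
      exact div_nonneg (by linarith) (by linarith)
    have e0 : 0 ≤ Real.exp (D / (((n + 1 : ℕ) : ℝ) + 1 / p₁) ^ 2) *
        ((((n + 1 : ℕ) : ℝ) + 1 - 1 / p) / (((n + 1 : ℕ) : ℝ) + 1 / p)) :=
      mul_nonneg (Real.exp_pos _).le hpos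
    refine (mul_le_mul_of_nonneg_left ih e0).trans ?_
    rw [ratio_succ (n + 1) p]
    have hr := (ratio_pos (n + 1) p (by linarith) (by linarith)).le
    have e2 : Real.exp (D / (((n + 1 : ℕ) : ℝ) + 1 / p₁) ^ 2) *
        Real.exp (D * (P ^ 2 + 2 - 1 / ((n : ℝ) + 1 / 2)))
        ≤ Real.exp (D * (P ^ 2 + 2 - 1 / (((n + 1 : ℕ) : ℝ) + 1 / 2))) := by
      rw [← Real.exp_add]
      refine Real.exp_le_exp.mpr ?_
      have h1 : D / (((n + 1 : ℕ) : ℝ) + 1 / p₁) ^ 2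
          ≤ D * (1 / ((n : ℝ) + 1 / 2) - 1 / (((n + 1 : ℕ) : ℝ) + 1 / 2)) := by
        rw [div_eq_mul_one_div]
        refine mul_le_mul_of_nonneg_left ?_ hD0
        have h2 : 1 / ((n : ℝ) + 1 / 2) - 1 / (((n + 1 : ℕ) : ℝ) + 1 / 2)
            = 1 / (((n : ℝ) + 1 / 2) * ((n : ℝ) + 3 / 2)) := by
          push_cast
          field_simp
          ring
        rw [h2]
        push_cast
        refine one_div_le_one_div_of_le (by positivity) ?_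
        nlinarith
      linarith
    have e3 := mul_le_mul_of_nonneg_right e2 (mul_nonneg hpos hr)
    refine le_trans (le_of_eq ?_) (e3.trans (le_of_eq ?_))
    · ring
    · ring

end RatCAux

open RatCAux in
/-- (RatC) -/
theorem ratC : StmtRatC := by
  intro ε P hε hP
  have hP0 : 0 < P := by linarith
  have hl : 0 < Real.log (1 + ε) := Real.log_pos (by linarith)
  refine ⟨min 1 (Real.log (1 + ε) / (P ^ 2 + 2)), by positivity, ?_⟩
  intro n p₀ p₁ p τ hp0 hp01 hp1 hδ hτ0 hτ1 hp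
  have q0 : 0 < p₀ := by linarith
  have q1 : 0 < p₁ := by linarith
  rcases n with _ | n
  · rw [ratio_zero, ratio_zero, ratio_zero, Real.one_rpow, Real.one_rpow]
    linarith
  refine (prod_bound P hP p₀ p₁ p τ hp0 hp01 hp1 hτ0 hτ1 hp n).trans ?_
  have x10 : 1 / p₁ ≤ 1 / p₀ := one_div_le_one_div_of_le q0 hp01
  have x0h : 1 / p₀ ≤ 1 / 2 := one_div_le_one_div_of_le (by norm_num) hp0
  have x1p : 0 < 1 / p₁ := by positivity
  have hxx : 1 / p = (1 - τ) * (1 / p₀) + τ * (1 / p₁) := by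
    rw [hp]
    ring
  have hx1 : 1 / p₁ ≤ 1 / p := by
    rw [hxx]
    nlinarith
  have hx0 : 1 / p ≤ 1 / p₀ := by
    rw [hxx]
    nlinarith
  have hr := (ratio_pos (n + 1) p (by linarith) (by linarith)).le
  refine mul_le_mul_of_nonneg_right ?_ hr
  rw [← Real.le_log_iff_exp_le (by linarith)]
  have d0 : 0 ≤ 1 / p₀ - 1 / p₁ := by linarith
  have d1 : 1 / p₀ - 1 / p₁ ≤ p₁ - p₀ := by
    have e : 1 / p₀ - 1 / p₁ = (p₁ - p₀) / (p₀ * p₁) := by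
      field_simp
    rw [e]
    refine div_le_self (by linarith) ?_
    nlinarith
  have d2 : p₁ - p₀ ≤ 1 := hδ.trans (min_le_left _ _)
  have d3 : p₁ - p₀ ≤ Real.log (1 + ε) / (P ^ 2 + 2) := hδ.trans (min_le_right _ _)
  have d4 : (1 / p₀ - 1 / p₁) ^ 2 ≤ Real.log (1 + ε) / (P ^ 2 + 2) := by
    nlinarith
  have d5 : P ^ 2 + 2 - 1 / ((n : ℝ) + 1 / 2) ≤ P ^ 2 + 2 := by
    have : 0 < 1 / ((n : ℝ) + 1 / 2) := by positivity
    linarith
  have hPP : 0 < P ^ 2 + 2 := by positivity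
  calc (1 / p₀ - 1 / p₁) ^ 2 * (P ^ 2 + 2 - 1 / ((n : ℝ) + 1 / 2))
      ≤ (1 / p₀ - 1 / p₁) ^ 2 * (P ^ 2 + 2) := mul_le_mul_of_nonneg_left d5 (sq_nonneg _)
    _ ≤ Real.log (1 + ε) / (P ^ 2 + 2) * (P ^ 2 + 2) := mul_le_mul_of_nonneg_right d4 hPP.le
    _ = Real.log (1 + ε) := by field_simp

end Pool.Agent.Lib.MP_dd244f_an.Rp
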