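import Pool.Agent.Lib.MP_dd244f_an.Rp.Stmts

/-!
(Ratiop) the limit of the conjectured constant divided by its growth, all real `p ≥ 2`.
-/

set_option autoImplicit false

namespace Pool.Agent.Lib.MP_dd244f_an.Rp

open MeasureTheory Filter Topology Finset
open Pool.Agent.Lib.MP_dd244f_an.Joint (ratio)

private theorem asc_prod' (n : ℕ) (x : ℝ) :
    (ascPochhammer ℝ n).eval x = ∏ j ∈ Finset.range n, (x + j) := by
  induction n with
  | zero => simp
  | succ n ih =>
    rw [ascPochhammer_succ_eval, ih, Finset.prod_range_succ]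

theorem ratiop : StmtRatiop := by
  intro p hp
  rw [← tendsto_add_atTop_iff_nat 1]
  have hp0 : 0 < p := by linarith
  set s : ℝ := 1 / p with hs
  have hs0 : 0 < s := by positivity
  have hs1 : s ≤ 1 / 2 := by
    rw [hs]
    exact one_div_le_one_div_of_le (by norm_num) hp
  have hs2 : (0 : ℝ) < 1 - s := by linarith
  have h1 := Real.GammaSeq_tendsto_Gamma s
  have h2 := Real.GammaSeq_tendsto_Gamma (1 - s)
  have h3 : 0 < Real.Gamma (1 - s) := Real.Gamma_pos_of_pos hs2
  have h3' : 0 < Real.Gamma s := Real.Gamma_pos_of_pos hs0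
  have h4 := (h1.div h2 h3.ne').rpow_const (p := p) (Or.inl (div_pos h3' h3).ne')
  have h5 : Tendsto (fun n : ℕ => ((n : ℝ) / ((n : ℝ) + 1)) ^ (p - 2)) atTop (𝓝 1) := by
    have := (tendsto_natCast_div_add_atTop (1 : ℝ)).rpow_const (p := p - 2)
      (Or.inl one_ne_zero)
    rwa [Real.one_rpow] at this
  have h6 := h4.mul h5
  rw [mul_one] at h6
  have hg : gamp p = Real.Gamma s / Real.Gamma (1 - s) := rfl
  rw [hg]
  refine h6.congr' ?_
  filter_upwards [eventually_gt_atTop 0] with n hn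
  have hn0 : (0 : ℝ) < n := by exact_mod_cast hn
  have h7 : 0 < ∏ j ∈ Finset.range (n + 1), (1 - s + (j : ℝ)) :=
    Finset.prod_pos fun j _ => by positivity
  have h8 : 0 < ∏ j ∈ Finset.range (n + 1), (s + (j : ℝ)) :=
    Finset.prod_pos fun j _ => by positivity
  have h9 : (0 : ℝ) < n.factorial := by exact_mod_cast n.factorial_pos
  have hr : 0 < ratio (n + 1) p := by
    unfold ratio
    rw [asc_prod', asc_prod', ← hs]
    positivity
  have h14 : Real.GammaSeq s n / Real.GammaSeq (1 - s) n =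
      (n : ℝ) ^ (2 * s - 1) * ratio (n + 1) p := by
    have h10 : (n : ℝ) ^ (2 * s - 1) = (n : ℝ) ^ s / (n : ℝ) ^ (1 - s) := by
      rw [← Real.rpow_sub hn0]
      congr 1
      ring
    have h11 : (n : ℝ) ^ (1 - s) ≠ 0 := (Real.rpow_pos_of_pos hn0 _).ne'
    rw [h10]
    simp only [Real.GammaSeq, ratio]
    rw [asc_prod', asc_prod', ← hs]
    field_simp
  simp only [Pi.div_apply]
  rw [h14, Real.mul_rpow (Real.rpow_nonneg hn0.le _) hr.le, ← Real.rpow_mul hn0.le,
    Real.div_rpow hn0.le (by positivity)]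
  have e : (2 * s - 1) * p = -(p - 2) := by
    rw [hs]
    field_simp
    ring
  rw [e, Real.rpow_neg hn0.le]
  have h15 : (n : ℝ) ^ (p - 2) ≠ 0 := (Real.rpow_pos_of_pos hn0 _).ne'
  have h16 : ((n : ℝ) + 1) ^ (p - 2) ≠ 0 := (Real.rpow_pos_of_pos (by positivity) _).ne'
  push_cast
  field_simp

end Pool.Agent.Lib.MP_dd244f_an.Rp
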