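import Pool.Agent.Lib.MP_dd244f_an.Rp.Stmts
import Pool.Agent.Lib.MP_dd244f_an.Four.L2

/-!
Full operator, all real `p`: module Sch (smooth compactly supported functions on the Fourier side).
-/

set_option autoImplicit false

namespace Pool.Agent.Lib.MP_dd244f_an.Rp

open MeasureTheory Filter Topology Finset FourierTransform
open Pool.Agent.Lib.MP_dd244f_an.Joint (st ct Mst ratio)
open Pool.Agent.Lib.MP_dd244f_an.Four
open Pool.Agent.Lib.MP_dd244f_an.Even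
open Pool.Agent.Lib.MP_dd244f_an.Unif (SC)
open scoped SchwartzMap ENNReal NNReal ContDiff RealInnerProductSpace

namespace SchAux

theorem sc_cc {g : ℂ → ℂ} (h : SC g) : CC g := ⟨h.1.continuous, h.2⟩

theorem sc_schwartz {g : ℂ → ℂ} (h : SC g) : ∃ F : 𝓢(ℂ, ℂ), ∀ x, F x = iF g x := by
  refine ⟨𝓕⁻ (h.2.toSchwartzMap h.1), fun x => ?_⟩
  rw [iF_eq_inv]
  have := congrFun (SchwartzMap.fourierInv_coe (h.2.toSchwartzMap h.1)) x
  rw [this]
  rfl

theorem schwartz_iF (φ : 𝓢(ℂ, ℂ)) : ∃ γ : 𝓢(ℂ, ℂ), ∀ x, φ x = iF γ x := by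
  refine ⟨𝓕 φ, fun x => ?_⟩
  rw [iF_eq_inv]
  have h1 := congrFun (SchwartzMap.fourierInv_coe (𝓕 φ)) x
  rw [← h1, FourierTransform.fourierInv_fourier_eq]

theorem cc_int {g : ℂ → ℂ} (h : CC g) : Integrable g := h.1.integrable_of_hasCompactSupport h.2

/-- differentiation under the integral -/
theorem iF_hasFDerivAt {g : ℂ → ℂ} (h : CC g) (x : ℂ) :
    DifferentiableAt ℝ (iF g) x ∧ ∀ e, fderiv ℝ (iF g) x e = iF (dr e g) x := by
  have h1 : Integrable (fun v : ℂ => ‖v‖ * ‖g v‖) := by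
    refine Continuous.integrable_of_hasCompactSupport (continuous_norm.mul h.1.norm) ?_
    exact h.2.norm.mul_left
  have h2 := Real.hasFDerivAt_fourier (cc_int h) h1 (-x)
  have h3 : iF g = fun x => 𝓕 g (-x) := by ext x; exact Four.iF_eq g x
  have h4 : HasFDerivAt (iF g)
      ((𝓕 (VectorFourier.fourierSMulRight (innerSL ℝ) g) (-x)).comp
        (-ContinuousLinearMap.id ℝ ℂ)) x := by
    rw [h3]
    exact h2.comp x (hasFDerivAt_id x).neg
  refine ⟨h4.differentiableAt, fun e => ?_⟩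
  rw [h4.fderiv]
  have h5 : Integrable (VectorFourier.fourierSMulRight (innerSL ℝ) g) := by
    refine (h1.const_mul (2 * Real.pi * ‖(innerSL ℝ : ℂ →L[ℝ] ℂ →L[ℝ] ℝ)‖)).mono'
      (cc_int h).1.fourierSMulRight (Eventually.of_forall fun v => ?_)
    have := VectorFourier.norm_fourierSMulRight_le (innerSL ℝ) g v
    linarith
  have h6 : Integrable (fun v => Real.fourierChar (-⟪v, -x⟫) •
      VectorFourier.fourierSMulRight (innerSL ℝ) g v) := by
    have := (Real.fourierIntegral_convergent_iff (-x)).2 h5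
    exact this
  rw [ContinuousLinearMap.comp_apply, Real.fourier_eq,
    ContinuousLinearMap.integral_apply h6]
  unfold iF
  congr 1
  ext ζ
  rw [ch_eq_fourierChar]
  simp only [inner_neg_right, neg_neg, smul_apply, Circle.smul_def,
    VectorFourier.fourierSMulRight_apply, neg_apply,
    ContinuousLinearMap.id_apply, smul_eq_mul, dr]
  have : (innerSL ℝ ζ) (-e) = -(e.re * ζ.re + e.im * ζ.im) := by
    rw [innerSL_apply_apply]
    simp [Complex.inner, Complex.mul_re]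
  rw [this]
  simp only [Complex.real_smul]
  push_cast
  ring

theorem sc_int_rpow {g : ℂ → ℂ} {p : ℝ} (hp : 1 ≤ p) (h : SC g) :
    Integrable (fun x => ‖iF g x‖ ^ p) := by
  obtain ⟨F, hF⟩ := sc_schwartz h
  have h1 : MemLp (fun x => F x) (ENNReal.ofReal p) volume := F.memLp _
  have h2 := h1.integrable_norm_rpow (by simpa using (by linarith : 0 < p)) ENNReal.ofReal_ne_top
  rw [ENNReal.toReal_ofReal (by linarith)] at h2
  simpa only [hF] using h2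

theorem sc_mul {a g : ℂ → ℂ} (ha : ContDiff ℝ ∞ a) (h : SC g) : SC (fun ζ => a ζ * g ζ) :=
  ⟨ha.mul h.1, h.2.mul_left⟩

theorem sc_mul_real {a : ℂ → ℝ} (ha : ContDiff ℝ ∞ a) {g : ℂ → ℂ} (h : SC g) :
    SC (fun ζ => ((a ζ : ℝ) : ℂ) * g ζ) :=
  sc_mul (Complex.ofRealCLM.contDiff.comp ha) h

theorem cd_re : ContDiff ℝ ∞ (fun ζ : ℂ => ζ.re) := Complex.reCLM.contDiff

theorem cd_im : ContDiff ℝ ∞ (fun ζ : ℂ => ζ.im) := Complex.imCLM.contDiff

theorem sc_dr {g : ℂ → ℂ} (h : SC g) (e : ℂ) : SC (dr e g) := by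
  refine sc_mul ?_ h
  refine contDiff_const.mul (Complex.ofRealCLM.contDiff.comp ?_)
  exact (contDiff_const.mul cd_re).add (contDiff_const.mul cd_im)

theorem sc_tw {g : ℂ → ℂ} (h : SC g) (s : ℝ) (y : ℂ) : SC (tw s y g) := by
  refine sc_mul_real (Real.contDiff_exp.comp ?_) h
  refine ContDiff.neg ?_
  refine ContDiff.add (contDiff_const.mul (contDiff_norm_sq ℝ)) (contDiff_const.mul ?_)
  exact (contDiff_const.mul cd_re).add (contDiff_const.mul cd_im)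

theorem sc_gs {g : ℂ → ℂ} (h : SC g) (σ : ℝ) (ξ : ℂ) : SC (gs σ ξ g) := by
  refine sc_mul_real (a := fun ζ => Real.exp (-(Real.pi * σ ^ 2 * ‖ζ - ξ‖ ^ 2)))
    (Real.contDiff_exp.comp ?_) h
  refine ContDiff.neg (contDiff_const.mul ?_)
  exact (contDiff_norm_sq ℝ).comp (contDiff_id.sub contDiff_const)

theorem sc_qc {g : ℂ → ℂ} (h : SC g) (β : ℝ) (u q : ℂ) : SC (qc β u q g) := by
  refine sc_mul (a := fun ζ => Complex.exp (Complex.I * (β * ((ζ - q) ^ 2 * u ^ 2).im : ℝ))) ?_ h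
  have h1 : ContDiff ℝ ∞ (fun ζ : ℂ => (ζ - q) ^ 2 * u ^ 2) :=
    ((contDiff_id.sub contDiff_const).pow 2).mul contDiff_const
  have h2 : ContDiff ℝ ∞ (fun ζ : ℂ => β * ((ζ - q) ^ 2 * u ^ 2).im) :=
    contDiff_const.mul (Complex.imCLM.contDiff.comp h1)
  have h3 : ContDiff ℝ ∞ (fun ζ : ℂ => Complex.I * ((β * ((ζ - q) ^ 2 * u ^ 2).im : ℝ) : ℂ)) :=
    contDiff_const.mul (Complex.ofRealCLM.contDiff.comp h2)
  exact h3.cexp

theorem lo_cd (hF : StmtFac) (a : ℤ) : ContDiff ℝ ∞ (lo a) := hF.2.2.2.1 a ⊤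

theorem bd_cd (hF : StmtFac) (a b : ℤ) : ContDiff ℝ ∞ (bd a b) := (lo_cd hF b).sub (lo_cd hF a)

theorem mm_cda (n : ℕ) {ζ : ℂ} (h : ζ ≠ 0) : ContDiffAt ℝ ∞ (mm n) ζ := by
  have : mm n = fun w => (starRingEnd ℂ w * w⁻¹) ^ n := by
    ext w
    rw [mm, div_eq_mul_inv]
  rw [this]
  have h1 : ContDiffAt ℝ ∞ (fun w : ℂ => starRingEnd ℂ w) ζ :=
    (Complex.conjCLE : ℂ →L[ℝ] ℂ).contDiff.contDiffAt
  have h2 : ContDiffAt ℝ ∞ (fun w : ℂ => w⁻¹) ζ := contDiffAt_id.inv h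
  exact (h1.mul h2).pow n

theorem cd_of_zero {F : ℂ → ℂ} (h0 : ∀ᶠ ζ in 𝓝 (0 : ℂ), F ζ = 0)
    (h1 : ∀ ζ, ζ ≠ 0 → ContDiffAt ℝ ∞ F ζ) : ContDiff ℝ ∞ F := by
  rw [contDiff_iff_contDiffAt]
  intro ζ
  by_cases hζ : ζ = 0
  · subst hζ
    exact (contDiffAt_const (c := (0 : ℂ))).congr_of_eventuallyEq h0
  · exact h1 ζ hζ

theorem bd_near (hF : StmtFac) (a b : ℤ) : ∀ᶠ ζ in 𝓝 (0 : ℂ), bd a b ζ = 0 := by
  have hm : 0 < min ((2 : ℝ) ^ a) ((2 : ℝ) ^ b) := lt_min (by positivity) (by positivity)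
  filter_upwards [Metric.ball_mem_nhds (0 : ℂ) hm] with ζ hζ
  rw [mem_ball_zero_iff, lt_min_iff] at hζ
  unfold bd
  rw [hF.2.1 _ _ hζ.1.le, hF.2.1 _ _ hζ.2.le, sub_self]

theorem sc_cut_mg (hF : StmtFac) {g : ℂ → ℂ} (h : SC g) (n : ℕ) (a b : ℤ) :
    SC (cut (bd a b) (mg n g)) := by
  refine ⟨cd_of_zero ?_ fun ζ hζ => ?_, ?_⟩
  · filter_upwards [bd_near hF a b] with ζ hζ
    unfold cut
    rw [hζ, Complex.ofReal_zero, zero_mul]
  · exact (Complex.ofRealCLM.contDiff.comp (bd_cd hF a b)).contDiffAt.mul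
      ((mm_cda n hζ).mul h.1.contDiffAt)
  · have h1 : HasCompactSupport (mg n g) := h.2.mul_left
    exact h1.mul_left

theorem sc_mg {g : ℂ → ℂ} (h : SC g) (n : ℕ) (h0 : Z0 g) : SC (mg n g) ∧ Z0 (mg n g) := by
  have hz : Z0 (mg n g) := by
    unfold Z0
    filter_upwards [h0] with ζ hζ
    unfold mg
    rw [hζ, mul_zero]
  exact ⟨⟨cd_of_zero hz fun ζ hζ => (mm_cda n hζ).mul h.1.contDiffAt, h.2.mul_left⟩, hz⟩

end SchAux

open SchAux

/-- module Sch -/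
theorem sch (hF : Four.StmtFac) : StmtSch := by
  refine ⟨fun g h => sc_cc h, fun g h => sc_schwartz h, schwartz_iF,
    fun g x h => iF_hasFDerivAt (sc_cc h) x, fun g p hp h => sc_int_rpow hp h, fun g h => ?_⟩
  refine ⟨sc_dr h, sc_tw h, sc_gs h, fun a => sc_mul_real (lo_cd hF a) h,
    fun a b => sc_mul_real (bd_cd hF a b) h, fun a => sc_mul_real (bd_cd hF a (a + 1)) h,
    sc_qc h, sc_cut_mg hF h, fun n _ h0 => sc_mg h n h0⟩

end Pool.Agent.Lib.MP_dd244f_an.Rp
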