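import Pool.Agent.Lib.MP_dd244f_an.Rp.Stmts
import Pool.Agent.Lib.MP_dd244f_an.Four.Syn
import Pool.Agent.Lib.MP_dd244f_an.Four.L2

/-!
(Synp): the windowed form of the sharp inequality, real exponents.
-/

set_option autoImplicit false

namespace Pool.Agent.Lib.MP_dd244f_an.Rp

open MeasureTheory Filter Topology Finset FourierTransform
open Pool.Agent.Lib.MP_dd244f_an.Four
open Pool.Agent.Lib.MP_dd244f_an.Unif (SC)
open scoped SchwartzMap ENNReal NNReal ContDiff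

namespace SynpAux

open Pool.Agent.Lib.MP_dd244f_an.Four.SynM

lemma iter_exp_neg (n : ℕ) (x : ℝ) :
    iteratedDeriv n (fun y : ℝ => Real.exp (-y)) x = (-1) ^ n * Real.exp (-x) := by
  induction n generalizing x with
  | zero => simp
  | succ n ih =>
    rw [iteratedDeriv_succ]
    have h : iteratedDeriv n (fun y : ℝ => Real.exp (-y)) =
        fun x => (-1) ^ n * Real.exp (-x) := by
      ext x; exact ih x
    rw [h]
    have h2 : HasDerivAt (fun x : ℝ => (-1) ^ n * Real.exp (-x))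
        ((-1) ^ n * (Real.exp (-x) * (-1))) x :=
      ((hasDerivAt_neg x).exp).const_mul _
    rw [h2.deriv]
    ring

/-- Gaussians have temperate growth -/
lemma gauss_growth {c : ℝ} (hc : 0 < c) (z : ℂ) :
    (fun x : ℂ => ((Real.exp (-(c * ‖x - z‖ ^ 2)) : ℝ) : ℂ)).HasTemperateGrowth := by
  have hq : (fun x : ℂ => c * ‖x - z‖ ^ 2).HasTemperateGrowth := by
    have h1 : (fun x : ℂ => x - z).HasTemperateGrowth :=
      Function.HasTemperateGrowth.id.sub (Function.HasTemperateGrowth.const z)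
    have h2 : ((fun x : ℂ => ‖x‖ ^ 2) ∘ (fun x : ℂ => x - z)).HasTemperateGrowth :=
      (Function.hasTemperateGrowth_norm_sq ℂ).comp h1
    have h3 := (Function.HasTemperateGrowth.const (E := ℂ) c).mul h2
    exact h3
  set t : Set ℝ := {y : ℝ | -1 < y} with ht
  have hopen : IsOpen t := isOpen_lt' (-1)
  have hr : Set.range (fun x : ℂ => c * ‖x - z‖ ^ 2) ⊆ t := by
    rintro - ⟨y, rfl⟩
    simp only [ht, Set.mem_ofPred_eq]
    have : 0 ≤ c * ‖y - z‖ ^ 2 := by positivity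
    linarith
  have hcd : ContDiff ℝ ∞ (fun y : ℝ => Real.exp (-y)) := by fun_prop
  have hg : ((fun y : ℝ => Real.exp (-y)) ∘ (fun x : ℂ => c * ‖x - z‖ ^ 2)).HasTemperateGrowth := by
    refine Function.HasTemperateGrowth.comp' hr hopen.uniqueDiffOn hcd.contDiffOn ?_ hq
    intro N
    refine ⟨0, Real.exp 1, (Real.exp_pos _).le, fun n _ x hx => ?_⟩
    rw [norm_iteratedFDerivWithin_eq_norm_iteratedDerivWithin,
      iteratedDerivWithin_eq_iteratedDeriv hopen.uniqueDiffOn (hcd.contDiffAt.of_le (by exact_mod_cast le_top)) hx, iter_exp_neg,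
      pow_zero, mul_one, norm_mul, norm_pow, norm_neg, norm_one, one_pow, one_mul,
      Real.norm_eq_abs, Real.abs_exp]
    apply Real.exp_le_exp.mpr
    simp only [ht, Set.mem_ofPred_eq] at hx
    linarith
  exact Function.HasTemperateGrowth.comp Function.Complex.hasTemperateGrowth_ofReal hg

/-- the windowed transforms are Schwartz functions -/
lemma hz_schwartz {r : ℝ} (hr : 0 < r) {g : ℂ → ℂ} (hg : CC g) (F : 𝓢(ℂ, ℂ))
    (hF : ∀ x, F x = iF g x) (z : ℂ) : ∃ γ : 𝓢(ℂ, ℂ), (γ : ℂ → ℂ) = hz r g z := by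
  have hc : 0 < Real.pi / r ^ 2 := by positivity
  have hG := gauss_growth hc z
  set Φ : ℂ → ℂ := fun x : ℂ => ((Real.exp (-(Real.pi / r ^ 2 * ‖x - z‖ ^ 2)) : ℝ) : ℂ) with hΦ
  set φ : 𝓢(ℂ, ℂ) := SchwartzMap.smulLeftCLM ℂ Φ F with hφ
  have h1 : (φ : ℂ → ℂ) = 𝓕⁻ (hz r g z) := by
    ext x
    rw [← iF_eq_inv, iF_hz hr hg, hφ, SchwartzMap.smulLeftCLM_apply_apply hG, hF, smul_eq_mul]
    congr 1
    simp only [hΦ]
    congr 3
    ring
  have hi := hz_integrable hr hg z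
  have hcont : Continuous (hz r g z) := by
    have h2 := (cont_u (r := r) hg).comp (Continuous.prodMk_right z)
    have h3 : Continuous (fun ξ => iF (gs r ξ g) z) := h2
    unfold hz
    have := continuous_ch (-z)
    fun_prop
  refine ⟨𝓕 φ, ?_⟩
  rw [SchwartzMap.fourier_coe, h1]
  refine hcont.fourier_fourierInv_eq hi ?_
  have h4 : (fun x => iF (hz r g z) (-x)) = 𝓕 (hz r g z) := by
    ext x
    rw [iF_eq, neg_neg]
  rw [← h4]
  have h5 : Integrable (iF (hz r g z)) := by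
    have h6 : Integrable (φ : ℂ → ℂ) := φ.integrable
    refine h6.congr (Eventually.of_forall fun x => ?_)
    rw [iF_eq_inv, h1]
  exact h5.comp_neg

/-- a power is dominated by an exponential -/
lemma rpow_le_exp (a b : ℝ) (ha : 0 ≤ a) (hb : 0 < b) :
    ∃ C, 0 < C ∧ ∀ u : ℝ, 0 ≤ u → u ^ a ≤ C * Real.exp (b * u) := by
  obtain ⟨n, hn⟩ := exists_nat_ge a
  refine ⟨1 + n.factorial / b ^ n, by positivity, fun u hu => ?_⟩
  have h1 : u ^ a ≤ 1 + u ^ n := by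
    rcases le_total u 1 with h | h
    · have : u ^ a ≤ 1 := Real.rpow_le_one hu h ha
      have : 0 ≤ u ^ n := by positivity
      linarith
    · have h2 : u ^ a ≤ u ^ (n : ℝ) := Real.rpow_le_rpow_of_exponent_le h hn
      rw [Real.rpow_natCast] at h2
      linarith
  have h3 := Real.pow_div_factorial_le_exp (b * u) (by positivity) n
  have h4 : 1 ≤ Real.exp (b * u) := Real.one_le_exp (by positivity)
  have h5 : u ^ n ≤ n.factorial / b ^ n * Real.exp (b * u) := by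
    rw [mul_pow, div_le_iff₀ (by positivity)] at h3
    rw [div_mul_eq_mul_div, le_div_iff₀ (by positivity)]
    linarith
  calc u ^ a ≤ 1 + u ^ n := h1
    _ ≤ Real.exp (b * u) + n.factorial / b ^ n * Real.exp (b * u) := add_le_add h4 h5
    _ = _ := by ring

/-- the integral of a Gaussian -/
lemma gauss_int {c : ℝ} (hc : 0 < c) :
    Integrable (fun ξ : ℂ => Real.exp (-(c * ‖ξ‖ ^ 2))) ∧
      ∫ ξ : ℂ, Real.exp (-(c * ‖ξ‖ ^ 2)) = Real.pi / c := by
  have hpi := Real.pi_pos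
  set ρ : ℝ := Real.sqrt (c / Real.pi) with hρ
  have hρ0 : 0 < ρ := Real.sqrt_pos.mpr (by positivity)
  have hρ2 : ρ ^ 2 = c / Real.pi := Real.sq_sqrt (by positivity)
  have e : ∀ ξ : ℂ, Real.exp (-(c * ‖ξ‖ ^ 2)) = ga ρ ξ := by
    intro ξ
    unfold ga
    rw [hρ2]
    congr 2
    field_simp
  simp only [e]
  refine ⟨ga_integrable hρ0, ?_⟩
  rw [ga_int_val hρ0, hρ2]
  field_simp

/-- decay of the windowed energies -/
lemma decay (hE : StmtE1) (hP : StmtPsi) {p r a : ℝ} {g : ℂ → ℂ} (hp : 2 < p) (hr : 0 < r)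
    (hg : SC g) (ha : 0 ≤ a) : Integrable (fun ξ => ‖ξ‖ ^ a * Nw p r ξ g) := by
  obtain ⟨e1, e2, -, -⟩ := hE p r g hp hr hg
  obtain ⟨C, hC, hb⟩ := (hP p g hp hg).2.2.2.2.2.2.2 (r ^ 2 / (4 * Real.pi))
  have hpi := Real.pi_pos
  have hNw : ∀ ξ, 0 ≤ Nw p r ξ g := fun ξ => integral_nonneg fun x => by positivity
  have h1 : ∀ ξ, Nw p r ξ g ≤ C * (Real.exp (-(Real.pi * p * r ^ 2 * ‖ξ‖ ^ 2)) *
      Real.exp (C * (r ^ 2 * ‖ξ‖))) := by
    intro ξ
    rw [e1]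
    have h2 := (hb (r ^ 2 / (4 * Real.pi)) (-((r ^ 2 : ℝ) : ℂ) * ξ)
      (by rw [abs_of_nonneg (by positivity)])).1
    have h3 : ‖-((r ^ 2 : ℝ) : ℂ) * ξ‖ = r ^ 2 * ‖ξ‖ := by
      rw [norm_mul, norm_neg, Complex.norm_real, Real.norm_eq_abs, abs_of_nonneg (by positivity)]
    rw [h3] at h2
    calc _ ≤ Real.exp (-(Real.pi * p * r ^ 2 * ‖ξ‖ ^ 2)) * (C * Real.exp (C * (r ^ 2 * ‖ξ‖))) :=
          mul_le_mul_of_nonneg_left h2 (Real.exp_pos _).le
      _ = _ := by ring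
  set b : ℝ := Real.pi * p * r ^ 2 / 4 with hbdef
  have hb0 : 0 < b := by positivity
  obtain ⟨D, hD, hDb⟩ := rpow_le_exp (a / 2) b (by positivity) hb0
  have h2 : ∀ ξ : ℂ, ‖ξ‖ ^ a * Nw p r ξ g ≤
      D * C * Real.exp ((C * r ^ 2) ^ 2 / (4 * b)) * Real.exp (-(2 * b * ‖ξ‖ ^ 2)) := by
    intro ξ
    have k1 : ‖ξ‖ ^ a ≤ D * Real.exp (b * ‖ξ‖ ^ 2) := by
      have := hDb (‖ξ‖ ^ 2) (by positivity)
      have k2 : ((‖ξ‖ ^ 2 : ℝ)) ^ (a / 2) = ‖ξ‖ ^ a := by
        rw [← Real.rpow_natCast, ← Real.rpow_mul (norm_nonneg _)]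
        congr 1
        push_cast
        ring
      rwa [k2] at this
    have k3 : C * (r ^ 2 * ‖ξ‖) ≤ b * ‖ξ‖ ^ 2 + (C * r ^ 2) ^ 2 / (4 * b) := by
      have k4 : 0 ≤ (2 * b * ‖ξ‖ - C * r ^ 2) ^ 2 / (4 * b) := by positivity
      have k5 : (2 * b * ‖ξ‖ - C * r ^ 2) ^ 2 / (4 * b) =
          b * ‖ξ‖ ^ 2 - C * (r ^ 2 * ‖ξ‖) + (C * r ^ 2) ^ 2 / (4 * b) := by
        field_simp
        ring
      linarith
    have k6 : Real.exp (C * (r ^ 2 * ‖ξ‖)) ≤
        Real.exp (b * ‖ξ‖ ^ 2 + (C * r ^ 2) ^ 2 / (4 * b)) := Real.exp_le_exp.mpr k3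
    calc ‖ξ‖ ^ a * Nw p r ξ g
        ≤ (D * Real.exp (b * ‖ξ‖ ^ 2)) * (C * (Real.exp (-(Real.pi * p * r ^ 2 * ‖ξ‖ ^ 2)) *
          Real.exp (b * ‖ξ‖ ^ 2 + (C * r ^ 2) ^ 2 / (4 * b)))) := by
          refine mul_le_mul k1 ((h1 ξ).trans ?_) (hNw ξ) (by positivity)
          gcongr
      _ = D * C * (Real.exp (b * ‖ξ‖ ^ 2) * (Real.exp (-(Real.pi * p * r ^ 2 * ‖ξ‖ ^ 2)) *
          Real.exp (b * ‖ξ‖ ^ 2 + (C * r ^ 2) ^ 2 / (4 * b)))) := by ring
      _ = D * C * (Real.exp ((C * r ^ 2) ^ 2 / (4 * b)) * Real.exp (-(2 * b * ‖ξ‖ ^ 2))) := by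
          congr 1
          rw [← Real.exp_add, ← Real.exp_add, ← Real.exp_add]
          congr 1
          rw [hbdef]
          ring
      _ = _ := by ring
  have i1 := ((gauss_int (c := 2 * b) (by positivity)).1).const_mul
    (D * C * Real.exp ((C * r ^ 2) ^ 2 / (4 * b)))
  refine i1.mono' ?_ (Eventually.of_forall fun ξ => ?_)
  · exact ((continuous_norm.rpow_const fun _ => Or.inr ha).mul e2).aestronglyMeasurable
  · rw [Real.norm_eq_abs, abs_of_nonneg (mul_nonneg (by positivity) (hNw ξ))]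
    exact h2 ξ

end SynpAux

open SynpAux Pool.Agent.Lib.MP_dd244f_an.Four.SynM in
/-- windowed form of the sharp inequality -/
theorem synp (hS : StmtSch) (hE : StmtE1) (hP : StmtPsi) : StmtSynp := by
  intro p κ r g hp hκ hr hH hg
  have hpi := Real.pi_pos
  have hp0 : 0 < p := by linarith
  have hCC : CC g := hS.1 g hg
  obtain ⟨F, hF⟩ := hS.2.1 g hg
  have hint : ∀ h, SC h → Integrable (fun x => ‖iF h x‖ ^ p) :=
    fun h hh => hS.2.2.2.2.1 h p (by linarith) hh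
  have hgs : ∀ ξ, SC (gs r ξ g) := fun ξ => (hS.2.2.2.2.2 g hg).2.2.1 r ξ
  have hFc : Continuous (iF g) := by
    have h1 : iF g = fun x => F x := by
      ext x; rw [hF]
    rw [h1]
    exact F.continuous
  have ha : (0 : ℝ) ≤ 2 * p - 4 := by linarith
  have hdec := decay hE hP hp hr hg ha
  refine ⟨hdec, ?_⟩
  -- the inequality for every `z`
  have hz1 : ∀ z, ∫ x, ‖iF (hz r g z) x‖ ^ p ≤
      κ * CHp p * ∫ ξ, ‖hz r g z ξ‖ ^ p * ‖ξ‖ ^ (2 * p - 4) := by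
    intro z
    obtain ⟨γ, hγ⟩ := hz_schwartz hr hCC F hF z
    have := hH γ
    rwa [hγ] at this
  set c : ℝ := p * Real.pi / r ^ 2 with hc
  have hc0 : 0 < c := by positivity
  obtain ⟨ig, vg⟩ := gauss_int hc0
  have e1 : ∀ z x, ‖iF (hz r g z) x‖ ^ p =
      Real.exp (-(c * ‖x - z‖ ^ 2)) * ‖iF g x‖ ^ p := by
    intro z x
    rw [iF_hz hr hCC, norm_mul, Complex.norm_real, Real.norm_eq_abs, Real.abs_exp,
      Real.mul_rpow (Real.exp_pos _).le (norm_nonneg _), ← Real.exp_mul]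
    congr 2
    rw [hc]
    ring
  have e2 : ∀ z ξ, ‖hz r g z ξ‖ ^ p * ‖ξ‖ ^ (2 * p - 4) =
      (r ^ 2) ^ p * (‖ξ‖ ^ (2 * p - 4) * ‖iF (gs r ξ g) z‖ ^ p) := by
    intro z ξ
    unfold hz
    rw [norm_mul, norm_mul, norm_ch, Complex.norm_real, Real.norm_eq_abs,
      abs_of_nonneg (by positivity), one_mul, Real.mul_rpow (by positivity) (norm_nonneg _)]
    ring
  simp only [e1, e2] at hz1
  -- product integrability, left
  have hA : Integrable (fun q : ℂ × ℂ => Real.exp (-(c * ‖q.2 - q.1‖ ^ 2)) * ‖iF g q.2‖ ^ p)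
      (volume.prod volume) := by
    rw [integrable_prod_iff']
    · refine ⟨Eventually.of_forall fun x => ?_, ?_⟩
      · exact (ig.comp_sub_left x).mul_const (‖iF g x‖ ^ p)
      · have h2 : ∀ x : ℂ, ∫ z : ℂ, ‖Real.exp (-(c * ‖x - z‖ ^ 2)) * ‖iF g x‖ ^ p‖ =
            Real.pi / c * ‖iF g x‖ ^ p := by
          intro x
          have h3 : ∀ z : ℂ, ‖Real.exp (-(c * ‖x - z‖ ^ 2)) * ‖iF g x‖ ^ p‖ =
              Real.exp (-(c * ‖x - z‖ ^ 2)) * ‖iF g x‖ ^ p := fun z => by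
            rw [Real.norm_eq_abs, abs_of_nonneg (by positivity)]
          simp only [h3]
          rw [integral_mul_const,
            integral_sub_left_eq_self (fun y => Real.exp (-(c * ‖y‖ ^ 2))), vg]
        simp only [h2]
        exact (hint g hg).const_mul _
    · have : Continuous (fun q : ℂ × ℂ => Real.exp (-(c * ‖q.2 - q.1‖ ^ 2)) * ‖iF g q.2‖ ^ p) := by
        refine Continuous.mul (by fun_prop) ?_
        exact ((hFc.comp continuous_snd).norm).rpow_const fun _ => Or.inr hp0.le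
      exact this.aestronglyMeasurable
  -- product integrability, right
  have hB : Integrable (fun q : ℂ × ℂ => (r ^ 2) ^ p *
      (‖q.2‖ ^ (2 * p - 4) * ‖iF (gs r q.2 g) q.1‖ ^ p)) (volume.prod volume) := by
    rw [integrable_prod_iff']
    · refine ⟨Eventually.of_forall fun ξ => ?_, ?_⟩
      · exact ((hint _ (hgs ξ)).const_mul (‖ξ‖ ^ (2 * p - 4))).const_mul ((r ^ 2) ^ p)
      · have h2 : ∀ ξ : ℂ, ∫ z : ℂ, ‖(r ^ 2) ^ p * (‖ξ‖ ^ (2 * p - 4) *
            ‖iF (gs r ξ g) z‖ ^ p)‖ = (r ^ 2) ^ p * (‖ξ‖ ^ (2 * p - 4) * Nw p r ξ g) := by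
          intro ξ
          have h3 : ∀ z : ℂ, ‖(r ^ 2) ^ p * (‖ξ‖ ^ (2 * p - 4) * ‖iF (gs r ξ g) z‖ ^ p)‖ =
              (r ^ 2) ^ p * (‖ξ‖ ^ (2 * p - 4) * ‖iF (gs r ξ g) z‖ ^ p) := fun z => by
            rw [Real.norm_eq_abs, abs_of_nonneg (by positivity)]
          simp only [h3]
          rw [integral_const_mul, integral_const_mul]
          rfl
        simp only [h2]
        exact hdec.const_mul _
    · have : Continuous (fun q : ℂ × ℂ => (r ^ 2) ^ p *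
          (‖q.2‖ ^ (2 * p - 4) * ‖iF (gs r q.2 g) q.1‖ ^ p)) := by
        refine continuous_const.mul (Continuous.mul ?_ ?_)
        · exact (continuous_snd.norm).rpow_const fun _ => Or.inr ha
        · exact ((cont_u (r := r) hCC).norm).rpow_const fun _ => Or.inr hp0.le
      exact this.aestronglyMeasurable
  -- integrate over `z`
  have hmain : ∫ z, ∫ x, Real.exp (-(c * ‖x - z‖ ^ 2)) * ‖iF g x‖ ^ p ≤
      κ * CHp p * ∫ z, ∫ ξ, (r ^ 2) ^ p * (‖ξ‖ ^ (2 * p - 4) * ‖iF (gs r ξ g) z‖ ^ p) := by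
    rw [← integral_const_mul]
    exact integral_mono hA.integral_prod_left (hB.integral_prod_left.const_mul _) hz1
  have sA := integral_integral_swap
    (f := fun z x : ℂ => Real.exp (-(c * ‖x - z‖ ^ 2)) * ‖iF g x‖ ^ p) hA
  have sB := integral_integral_swap
    (f := fun z ξ : ℂ => (r ^ 2) ^ p * (‖ξ‖ ^ (2 * p - 4) * ‖iF (gs r ξ g) z‖ ^ p)) hB
  rw [sA, sB] at hmain
  have hL : ∫ x : ℂ, ∫ z : ℂ, Real.exp (-(c * ‖x - z‖ ^ 2)) * ‖iF g x‖ ^ p =
      r ^ 2 / p * Np p g := by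
    unfold Np
    rw [← integral_const_mul]
    congr 1
    ext x
    rw [integral_mul_const, integral_sub_left_eq_self (fun y => Real.exp (-(c * ‖y‖ ^ 2))), vg, hc]
    congr 1
    field_simp
  have hR : ∫ ξ : ℂ, ∫ z : ℂ, (r ^ 2) ^ p * (‖ξ‖ ^ (2 * p - 4) * ‖iF (gs r ξ g) z‖ ^ p) =
      (r ^ 2) ^ p * ∫ ξ, ‖ξ‖ ^ (2 * p - 4) * Nw p r ξ g := by
    rw [← integral_const_mul]
    congr 1
    ext ξ
    rw [integral_const_mul, integral_const_mul]
    rfl
  rw [hL, hR] at hmain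
  have hrp : (r ^ 2) ^ p = r ^ (2 * p - 2) * r ^ 2 := by
    have h1 : ((r ^ 2 : ℝ)) ^ p = r ^ (2 * p) := by
      rw [← Real.rpow_natCast, ← Real.rpow_mul hr.le]
      norm_num
    rw [h1, show (r ^ 2 : ℝ) = r ^ (2 : ℝ) by rw [← Real.rpow_natCast]; norm_num,
      ← Real.rpow_add hr]
    congr 1
    ring
  rw [hrp] at hmain
  have hr2 : 0 < r ^ 2 / p := by positivity
  refine le_of_mul_le_mul_left (hmain.trans (le_of_eq ?_)) hr2
  field_simp

end Pool.Agent.Lib.MP_dd244f_an.Rp
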