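import Pool.Agent.Lib.MP_dd244f_an.Rp.Stmts
import Pool.Agent.Lib.MP_dd244f_an.Four.L2
import Pool.Agent.Lib.MP_dd244f_an.Four.CG

/-!
Full operator, all real `p`: module TOT (the chirped energy inequality).
-/

set_option autoImplicit false

namespace Pool.Agent.Lib.MP_dd244f_an.Rp

open MeasureTheory Filter Topology Finset FourierTransform
open Pool.Agent.Lib.MP_dd244f_an.Joint (st ct Mst ratio)
open Pool.Agent.Lib.MP_dd244f_an.Four
open Pool.Agent.Lib.MP_dd244f_an.Even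
open Pool.Agent.Lib.MP_dd244f_an.Unif (SC)
open scoped SchwartzMap ENNReal NNReal ContDiff RealInnerProductSpace

namespace TOTAux

/-! ### a chirp is of temperate growth -/

theorem iteratedDeriv_osc (n : ℕ) :
    iteratedDeriv n (fun s : ℝ => Complex.exp (Complex.I * (s : ℂ)))
      = fun s : ℝ => Complex.I ^ n * Complex.exp (Complex.I * (s : ℂ)) := by
  induction n with
  | zero => simp
  | succ n ih =>
    rw [iteratedDeriv_succ, ih]
    ext s
    have h1 : HasDerivAt (fun s : ℝ => Complex.I * (s : ℂ)) Complex.I s := by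
      simpa using (Complex.ofRealCLM.hasDerivAt (x := s)).const_mul Complex.I
    have h2 := (h1.cexp).const_mul (Complex.I ^ n)
    rw [h2.deriv]
    ring

theorem osc_temperate :
    Function.HasTemperateGrowth (fun s : ℝ => Complex.exp (Complex.I * (s : ℂ))) := by
  refine ⟨?_, fun n => ⟨0, 1, fun s => ?_⟩⟩
  · exact (contDiff_const.mul Complex.ofRealCLM.contDiff).cexp
  · rw [norm_iteratedFDeriv_eq_norm_iteratedDeriv, iteratedDeriv_osc]
    have : Complex.I * (s : ℂ) = (s : ℂ) * Complex.I := mul_comm _ _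
    rw [norm_mul, norm_pow, Complex.norm_I, one_pow, this, Complex.norm_exp_ofReal_mul_I]
    simp

theorem chirp_temperate (κ : ℝ) (u : ℂ) :
    Function.HasTemperateGrowth
      (fun t : ℂ => Complex.exp (Complex.I * ((κ * (t ^ 2 * u ^ 2).im : ℝ) : ℂ))) := by
  have h1 : Function.HasTemperateGrowth (fun t : ℂ => (κ * (t ^ 2 * u ^ 2).im : ℝ)) := by
    have h2 : Function.HasTemperateGrowth (fun t : ℂ => t ^ 2 * u ^ 2) := by
      have h3 : Function.HasTemperateGrowth (fun t : ℂ => t ^ 2) :=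
        Function.HasTemperateGrowth.id'.pow 2
      exact h3.mul (Function.HasTemperateGrowth.const (u ^ 2))
    have h4 : Function.HasTemperateGrowth (fun z : ℂ => (Complex.imCLM z : ℝ)) :=
      Complex.imCLM.hasTemperateGrowth
    have h5 : Function.HasTemperateGrowth (fun t : ℂ => (t ^ 2 * u ^ 2).im) := h4.comp h2
    exact (Function.HasTemperateGrowth.const κ).mul h5
  exact osc_temperate.comp h1

/-! ### the Fourier transform of a chirped Gaussian -/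

theorem norm_c (r β : ℝ) : ‖((Real.pi * r ^ 2 : ℝ) : ℂ) - β * Complex.I‖
      = Real.sqrt (Real.pi ^ 2 * r ^ 4 + β ^ 2) ∧
    ‖((Real.pi * r ^ 2 : ℝ) : ℂ) + β * Complex.I‖
      = Real.sqrt (Real.pi ^ 2 * r ^ 4 + β ^ 2) := by
  constructor
  · rw [Complex.norm_def, Complex.normSq_apply]
    congr 1
    simp only [Complex.sub_re, Complex.sub_im, Complex.mul_re, Complex.mul_im, Complex.ofReal_re,
      Complex.ofReal_im, Complex.I_re, Complex.I_im]
    ring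
  · rw [Complex.norm_def, Complex.normSq_apply]
    congr 1
    simp only [Complex.add_re, Complex.add_im, Complex.mul_re, Complex.mul_im, Complex.ofReal_re,
      Complex.ofReal_im, Complex.I_re, Complex.I_im]
    ring

theorem exists_rot (u : ℂ) (hu : ‖u‖ = 1) : ∃ w : ℂ, ‖w‖ = 1 ∧ u ^ 2 = Complex.I * w ^ 2 := by
  refine ⟨u * Complex.exp (-(Real.pi / 4 : ℝ) * Complex.I), ?_, ?_⟩
  · rw [norm_mul, hu, one_mul, Complex.norm_exp]
    simp
  · rw [mul_pow, ← Complex.exp_nat_mul]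
    have : ((2 : ℕ) : ℂ) * (-(Real.pi / 4 : ℝ) * Complex.I) =
        ((-(Real.pi / 2) : ℝ) : ℂ) * Complex.I := by push_cast; ring
    rw [this, Complex.exp_mul_I, ← Complex.ofReal_cos, ← Complex.ofReal_sin]
    rw [Real.cos_neg, Real.sin_neg, Real.cos_pi_div_two, Real.sin_pi_div_two]
    push_cast
    linear_combination (u ^ 2) * Complex.I_sq

theorem ft1 {c : ℂ} (hc : 0 < c.re) (s : ℝ) :
    ∫ x : ℝ, Complex.exp (2 * (Real.pi : ℂ) * Complex.I * (s * x : ℝ)) *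
        Complex.exp (-c * (x : ℂ) ^ 2)
      = ((Real.pi : ℂ) / c) ^ (1 / 2 : ℂ) * Complex.exp (-((Real.pi : ℂ) ^ 2 / c * (s : ℂ) ^ 2)) := by
  have h := fourierIntegral_gaussian hc ((2 * Real.pi * s : ℝ) : ℂ)
  have hc0 : c ≠ 0 := fun h => by simp [h] at hc
  have e1 : ∀ x : ℝ, Complex.exp (2 * (Real.pi : ℂ) * Complex.I * (s * x : ℝ))
      = Complex.exp (Complex.I * ((2 * Real.pi * s : ℝ) : ℂ) * x) := by
    intro x
    congr 1
    push_cast
    ring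
  simp_rw [e1]
  rw [h]
  congr 2
  push_cast
  field_simp
  ring

theorem norm_sqrt {c : ℂ} (hc : 0 < c.re) :
    ‖((Real.pi : ℂ) / c) ^ (1 / 2 : ℂ)‖ = Real.sqrt (Real.pi / ‖c‖) := by
  have hc0 : c ≠ 0 := fun h => by simp [h] at hc
  have hpi : (Real.pi : ℂ) ≠ 0 := by exact_mod_cast Real.pi_ne_zero
  have e2 : (1 / 2 : ℂ) = ((1 / 2 : ℝ) : ℂ) := by push_cast; ring
  rw [e2, Complex.norm_cpow_real, norm_div, Complex.norm_real, Real.norm_eq_abs,
    abs_of_pos Real.pi_pos, ← Real.sqrt_eq_rpow]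

/-- the Fourier transform of a chirped Gaussian -/
theorem k0 (r β : ℝ) (u : ℂ) (hr : 0 < r) (hu : ‖u‖ = 1) : ∃ A : ℂ,
    ‖A‖ = Real.pi / Real.sqrt (Real.pi ^ 2 * r ^ 4 + β ^ 2) ∧
    ∀ y : ℂ, ∫ ζ, ch y ζ * (((Real.exp (-(Real.pi * r ^ 2 * ‖ζ‖ ^ 2)) : ℝ) : ℂ) *
        Complex.exp (Complex.I * ((β * (ζ ^ 2 * u ^ 2).im : ℝ) : ℂ)))
      = A * (((Real.exp (-(Real.pi ^ 3 * r ^ 2 / (Real.pi ^ 2 * r ^ 4 + β ^ 2) * ‖y‖ ^ 2)) : ℝ) : ℂ)
        * Complex.exp (Complex.I *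
          ((-(Real.pi ^ 2 * β / (Real.pi ^ 2 * r ^ 4 + β ^ 2)) * (y ^ 2 * u ^ 2).im : ℝ) : ℂ))) := by
  have hpi := Real.pi_pos
  set N : ℝ := Real.pi ^ 2 * r ^ 4 + β ^ 2 with hN
  have hN0 : 0 < N := by positivity
  obtain ⟨w, hw, hw2⟩ := exists_rot u hu
  set c : ℂ := ((Real.pi * r ^ 2 : ℝ) : ℂ) - β * Complex.I with hcdef
  set c' : ℂ := ((Real.pi * r ^ 2 : ℝ) : ℂ) + β * Complex.I with hcdef'
  have hcre : c.re = Real.pi * r ^ 2 := by
    rw [hcdef]
    simp only [Complex.sub_re, Complex.mul_re, Complex.ofReal_re,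
      Complex.ofReal_im, Complex.I_re, Complex.I_im]
    ring
  have hcre' : c'.re = Real.pi * r ^ 2 := by
    rw [hcdef']
    simp only [Complex.add_re, Complex.mul_re, Complex.ofReal_re,
      Complex.ofReal_im, Complex.I_re, Complex.I_im]
    ring
  have hc : 0 < c.re := by rw [hcre]; positivity
  have hc' : 0 < c'.re := by rw [hcre']; positivity
  have hc0 : c ≠ 0 := fun h => by simp [h] at hc
  have hc0' : c' ≠ 0 := fun h => by simp [h] at hc'
  have hcc : c * c' = (N : ℂ) := by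
    rw [hcdef, hcdef', hN]
    push_cast
    linear_combination (-(β : ℂ) ^ 2) * Complex.I_sq
  obtain ⟨hmp, hme⟩ := CGAux.rot_mp w hw
  refine ⟨((Real.pi : ℂ) / c) ^ (1 / 2 : ℂ) * ((Real.pi : ℂ) / c') ^ (1 / 2 : ℂ), ?_, ?_⟩
  · rw [norm_mul, norm_sqrt hc, norm_sqrt hc', hcdef, hcdef', (norm_c r β).1, (norm_c r β).2,
      Real.mul_self_sqrt (by positivity)]
  · intro y
    have hww : w.re * w.re + w.im * w.im = 1 := by
      rw [← Complex.normSq_apply, Complex.normSq_eq_norm_sq, hw, one_pow]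
    have hch : ∀ ζ, ch y ζ =
        Complex.exp (2 * (Real.pi : ℂ) * Complex.I * ((y * w).re * (ζ * w).re : ℝ)) *
        Complex.exp (2 * (Real.pi : ℂ) * Complex.I * ((y * w).im * (ζ * w).im : ℝ)) := by
      intro ζ
      rw [← Complex.exp_add]
      unfold ch
      congr 1
      rw [← mul_add, ← Complex.ofReal_add]
      congr 2
      simp only [Complex.mul_re, Complex.mul_im]
      linear_combination (-(y.re * ζ.re + y.im * ζ.im)) * hww
    have hnw : ∀ ζ : ℂ, ‖ζ‖ ^ 2 = (ζ * w).re ^ 2 + (ζ * w).im ^ 2 := by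
      intro ζ
      have : ‖ζ * w‖ ^ 2 = ‖ζ‖ ^ 2 := by rw [norm_mul, hw, mul_one]
      rw [← this, ← Complex.normSq_eq_norm_sq, Complex.normSq_apply]
      ring
    have him : ∀ ζ : ℂ, (ζ ^ 2 * u ^ 2).im = (ζ * w).re ^ 2 - (ζ * w).im ^ 2 := by
      intro ζ
      have : ζ ^ 2 * u ^ 2 = Complex.I * (ζ * w) ^ 2 := by rw [hw2]; ring
      rw [this]
      simp only [Complex.I_mul_im, sq, Complex.mul_re]
    have h1 : ∀ ζ, ch y ζ * (((Real.exp (-(Real.pi * r ^ 2 * ‖ζ‖ ^ 2)) : ℝ) : ℂ) *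
        Complex.exp (Complex.I * ((β * (ζ ^ 2 * u ^ 2).im : ℝ) : ℂ))) =
        (fun z : ℂ => (Complex.exp (2 * (Real.pi : ℂ) * Complex.I * ((y * w).re * z.re : ℝ)) *
          Complex.exp (-c * (z.re : ℂ) ^ 2)) *
          (Complex.exp (2 * (Real.pi : ℂ) * Complex.I * ((y * w).im * z.im : ℝ)) *
          Complex.exp (-c' * (z.im : ℂ) ^ 2))) (ζ * w) := by
      intro ζ
      rw [hch, hnw, him, Complex.ofReal_exp]
      simp only [← Complex.exp_add]
      congr 1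
      rw [hcdef, hcdef']
      push_cast
      ring
    rw [integral_congr_ae (Eventually.of_forall h1)]
    rw [hmp.integral_comp hme (fun z : ℂ =>
        (Complex.exp (2 * (Real.pi : ℂ) * Complex.I * ((y * w).re * z.re : ℝ)) *
          Complex.exp (-c * (z.re : ℂ) ^ 2)) *
          (Complex.exp (2 * (Real.pi : ℂ) * Complex.I * ((y * w).im * z.im : ℝ)) *
          Complex.exp (-c' * (z.im : ℂ) ^ 2))),
      CGAux.int_prod
      (fun x => Complex.exp (2 * (Real.pi : ℂ) * Complex.I * ((y * w).re * x : ℝ)) *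
          Complex.exp (-c * (x : ℂ) ^ 2))
      (fun x => Complex.exp (2 * (Real.pi : ℂ) * Complex.I * ((y * w).im * x : ℝ)) *
          Complex.exp (-c' * (x : ℂ) ^ 2)), ft1 hc, ft1 hc', hnw, him]
    rw [mul_mul_mul_comm, ← Complex.exp_add, Complex.ofReal_exp, ← Complex.exp_add]
    congr 2
    have e1 : (Real.pi : ℂ) ^ 2 / c = (Real.pi : ℂ) ^ 2 * c' / N := by
      rw [← hcc]; field_simp
    have e2 : (Real.pi : ℂ) ^ 2 / c' = (Real.pi : ℂ) ^ 2 * c / N := by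
      rw [← hcc]; field_simp
    have hNc : (N : ℂ) ≠ 0 := by exact_mod_cast hN0.ne'
    rw [e1, e2, hcdef, hcdef']
    push_cast
    field_simp
    ring

/-! ### the representation -/

/-- the reflection `S` with `Im (z ^ 2 u ^ 2) = ⟨z, S z⟩` -/
noncomputable def Sr (u z : ℂ) : ℂ := Complex.I * (starRingEnd ℂ u) ^ 2 * starRingEnd ℂ z

theorem Sr_inner (u t X : ℂ) :
    t.re * (Sr u X).re + t.im * (Sr u X).im = (t * X * u ^ 2).im := by
  unfold Sr
  simp only [sq, Complex.mul_re, Complex.mul_im, Complex.conj_re, Complex.conj_im, Complex.I_re,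
    Complex.I_im]
  ring

/-- the chirped Gaussian -/
noncomputable def Mc (r β : ℝ) (u ζ : ℂ) : ℂ :=
  ((Real.exp (-(Real.pi * r ^ 2 * ‖ζ‖ ^ 2)) : ℝ) : ℂ) *
    Complex.exp (Complex.I * ((β * (ζ ^ 2 * u ^ 2).im : ℝ) : ℂ))

theorem Mc_cont (r β : ℝ) (u : ℂ) : Continuous (Mc r β u) := by
  unfold Mc
  have : Continuous fun ζ : ℂ => (ζ ^ 2 * u ^ 2).im := Complex.continuous_im.comp (by fun_prop)
  fun_prop

theorem norm_expI (s : ℝ) : ‖Complex.exp (Complex.I * (s : ℂ))‖ = 1 := by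
  rw [mul_comm, Complex.norm_exp_ofReal_mul_I]

theorem norm_Mc (r β : ℝ) (u ζ : ℂ) : ‖Mc r β u ζ‖ = Real.exp (-(Real.pi * r ^ 2 * ‖ζ‖ ^ 2)) := by
  unfold Mc
  rw [norm_mul, norm_expI, mul_one, Complex.norm_real, Real.norm_eq_abs, Real.abs_exp]

theorem Mc_int (r β : ℝ) (u : ℂ) (hr : 0 < r) : Integrable (Mc r β u) := by
  have hpi := Real.pi_pos
  have h1 : Integrable (fun ζ : ℂ => Real.exp (-(Real.pi * r ^ 2 * ‖ζ‖ ^ 2))) := by
    have := GaussianFourier.integrable_cexp_neg_mul_sq_norm_add (V := ℂ)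
      (b := ((Real.pi * r ^ 2 : ℝ) : ℂ)) (by simp only [Complex.ofReal_re]; positivity) 0 0
    have h2 := this.norm
    refine h2.congr (Eventually.of_forall fun ζ => ?_)
    simp only [zero_mul, add_zero]
    rw [Complex.norm_exp]
    congr 1
    rw [← Complex.ofReal_pow, ← Complex.ofReal_neg, ← Complex.ofReal_mul, Complex.ofReal_re]
    ring
  refine h1.mono' (Mc_cont r β u).aestronglyMeasurable (Eventually.of_forall fun ζ => ?_)
  rw [norm_Mc]

theorem inv_g {g : ℂ → ℂ} (hg : SC g) (F : 𝓢(ℂ, ℂ)) (hF : ∀ x, F x = iF g x) (ζ : ℂ) :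
    ∫ t, F t * ch (-t) ζ = g ζ := by
  have hgi : Integrable g := hg.1.continuous.integrable_of_hasCompactSupport hg.2
  have hKi : Integrable (iF g) := F.integrable.congr (Eventually.of_forall hF)
  have h3 : 𝓕 (𝓕⁻ g) = g := by
    refine hg.1.continuous.fourier_fourierInv_eq hgi ?_
    have h4 : (fun x => iF g (-x)) = 𝓕 g := by
      ext x
      rw [iF_eq, neg_neg]
    rw [← h4]
    exact hKi.comp_neg
  have h5 : iF (iF g) (-ζ) = g ζ := by
    have h6 : iF g = 𝓕⁻ g := by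
      ext z
      exact iF_eq_inv g z
    rw [iF_eq, neg_neg]
    conv_lhs => rw [h6]
    rw [h3]
  rw [← h5]
  conv_rhs => unfold iF
  congr 1
  ext z
  rw [hF, mul_comm]
  congr 1
  rw [ch_neg_left, ch_comm]

/-- the chirp at the centre `q` becomes a chirp at the centre of the window -/
theorem chirp_shift (r β : ℝ) (u q X ξ : ℂ) (g : ℂ → ℂ) :
    iF (gs r ξ (qc β u q g)) (X - ((β / Real.pi : ℝ) : ℂ) * Sr u (ξ - q))
      = Complex.exp (Complex.I * ((β * ((q ^ 2 * u ^ 2).im - (ξ ^ 2 * u ^ 2).im) : ℝ) : ℂ)) *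
        ∫ ζ, ch X ζ * Mc r β u (ζ - ξ) * g ζ := by
  have hpi : (Real.pi : ℂ) ≠ 0 := by exact_mod_cast Real.pi_ne_zero
  rw [← integral_const_mul]
  unfold iF
  congr 1
  ext ζ
  unfold gs qc Mc
  have h1 : ch (X - ((β / Real.pi : ℝ) : ℂ) * Sr u (ξ - q)) ζ =
      ch X ζ * Complex.exp (Complex.I * ((-(2 * β * (ζ * (ξ - q) * u ^ 2).im) : ℝ) : ℂ)) := by
    rw [← Sr_inner]
    unfold ch
    rw [← Complex.exp_add]
    congr 1
    simp only [Complex.sub_re, Complex.sub_im, Complex.re_ofReal_mul, Complex.im_ofReal_mul]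
    push_cast
    field_simp
    ring
  have h2 : β * ((ζ - q) ^ 2 * u ^ 2).im = 2 * β * (ζ * (ξ - q) * u ^ 2).im +
      (β * ((ζ - ξ) ^ 2 * u ^ 2).im + β * ((q ^ 2 * u ^ 2).im - (ξ ^ 2 * u ^ 2).im)) := by
    have h3 : (ζ - q) ^ 2 * u ^ 2 = 2 * (ζ * (ξ - q) * u ^ 2) + ((ζ - ξ) ^ 2 * u ^ 2 +
        (q ^ 2 * u ^ 2 - ξ ^ 2 * u ^ 2)) := by ring
    rw [h3, Complex.add_im, Complex.add_im, Complex.sub_im]
    have h4 : (2 * (ζ * (ξ - q) * u ^ 2)).im = 2 * (ζ * (ξ - q) * u ^ 2).im := by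
      have : (2 : ℂ) = ((2 : ℝ) : ℂ) := by norm_num
      rw [this, Complex.im_ofReal_mul]
    rw [h4]
    ring
  rw [h1, h2]
  have h5 : ∀ a b c : ℝ, Complex.exp (Complex.I * ((-a : ℝ) : ℂ)) *
      Complex.exp (Complex.I * ((a + (b + c) : ℝ) : ℂ)) =
      Complex.exp (Complex.I * (c : ℂ)) * Complex.exp (Complex.I * (b : ℂ)) := by
    intro a b c
    rw [← Complex.exp_add, ← Complex.exp_add]
    congr 1
    push_cast
    ring
  linear_combination (ch X ζ * ((Real.exp (-(Real.pi * r ^ 2 * ‖ζ - ξ‖ ^ 2)) : ℝ) : ℂ) * g ζ) *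
    h5 (2 * β * (ζ * (ξ - q) * u ^ 2).im) (β * ((ζ - ξ) ^ 2 * u ^ 2).im)
      (β * ((q ^ 2 * u ^ 2).im - (ξ ^ 2 * u ^ 2).im))

/-- Fubini -/
theorem fub (r β : ℝ) (u X ξ : ℂ) (hr : 0 < r) {g : ℂ → ℂ} (hg : SC g) (F : 𝓢(ℂ, ℂ))
    (hF : ∀ x, F x = iF g x) :
    ∫ ζ, ch X ζ * Mc r β u (ζ - ξ) * g ζ
      = ∫ t, F t * (ch (X - t) ξ * ∫ ζ, ch (X - t) ζ * Mc r β u ζ) := by
  have hMi : Integrable (fun ζ => Mc r β u (ζ - ξ)) := (Mc_int r β u hr).comp_sub_right ξ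
  have hprod : Integrable (fun p : ℂ × ℂ => ch (X - p.1) p.2 * (F p.1 * Mc r β u (p.2 - ξ)))
      ((volume : Measure ℂ).prod volume) := by
    have h3 : Integrable (fun p : ℂ × ℂ => F p.1 * Mc r β u (p.2 - ξ))
        ((volume : Measure ℂ).prod volume) :=
      Integrable.mul_prod (f := fun y => F y) (g := fun ζ => Mc r β u (ζ - ξ)) F.integrable hMi
    refine h3.bdd_mul (c := 1) ?_ (Eventually.of_forall fun p => (norm_ch _ _).le)
    exact (continuous_ch2.comp (by fun_prop :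
      Continuous fun p : ℂ × ℂ => (X - p.1, p.2))).aestronglyMeasurable
  calc ∫ ζ, ch X ζ * Mc r β u (ζ - ξ) * g ζ
      = ∫ ζ, ∫ t, ch (X - t) ζ * (F t * Mc r β u (ζ - ξ)) := by
        congr 1
        ext ζ
        rw [← inv_g hg F hF ζ, ← integral_const_mul]
        congr 1
        ext t
        rw [sub_eq_add_neg X t, ch_add]
        ring
    _ = ∫ t, ∫ ζ, ch (X - t) ζ * (F t * Mc r β u (ζ - ξ)) := (integral_integral_swap hprod).symm
    _ = ∫ t, F t * (ch (X - t) ξ * ∫ ζ, ch (X - t) ζ * Mc r β u ζ) := by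
        congr 1
        ext t
        have h1 := integral_sub_right_eq_self (μ := (volume : Measure ℂ))
          (fun ζ => ch (X - t) (ζ + ξ) * (F t * Mc r β u ζ)) ξ
        simp only [sub_add_cancel] at h1
        rw [h1, ← integral_const_mul, ← integral_const_mul]
        congr 1
        ext ζ
        rw [ch_add_right]
        ring

/-- the chirped function -/
noncomputable def φc (κ : ℝ) (u : ℂ) (F : 𝓢(ℂ, ℂ)) : 𝓢(ℂ, ℂ) :=
  SchwartzMap.smulLeftCLM ℂ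
    (fun t : ℂ => Complex.exp (Complex.I * ((κ * (t ^ 2 * u ^ 2).im : ℝ) : ℂ))) F

theorem φc_apply (κ : ℝ) (u : ℂ) (F : 𝓢(ℂ, ℂ)) (t : ℂ) :
    φc κ u F t = Complex.exp (Complex.I * ((κ * (t ^ 2 * u ^ 2).im : ℝ) : ℂ)) * F t := by
  unfold φc
  rw [SchwartzMap.smulLeftCLM_apply_apply (chirp_temperate κ u), smul_eq_mul]

/-- the function on phase space of (E1S) -/
noncomputable def HH (σ : ℝ) (φ : 𝓢(ℂ, ℂ)) (X η : ℂ) : ℂ :=
  ∫ t, φ t * ((Real.exp (-(Real.pi * ‖t - X‖ ^ 2 / σ ^ 2)) : ℝ) : ℂ) * ch (-t) η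

/-- the representation -/
theorem rep (r β : ℝ) (u q : ℂ) (hr : 0 < r) (hu : ‖u‖ = 1) {g : ℂ → ℂ} (hg : SC g)
    (F : 𝓢(ℂ, ℂ)) (hF : ∀ x, F x = iF g x) (X ξ : ℂ) :
    ‖iF (gs r ξ (qc β u q g)) (X - ((β / Real.pi : ℝ) : ℂ) * Sr u (ξ - q))‖
      = Real.pi / Real.sqrt (Real.pi ^ 2 * r ^ 4 + β ^ 2) *
        ‖HH (Real.sqrt (Real.pi ^ 2 * r ^ 4 + β ^ 2) / (Real.pi * r))
          (φc (-(Real.pi ^ 2 * β / (Real.pi ^ 2 * r ^ 4 + β ^ 2))) u F) X
          (ξ - ((Real.pi * β / (Real.pi ^ 2 * r ^ 4 + β ^ 2) : ℝ) : ℂ) * Sr u X)‖ := by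
  have hpi := Real.pi_pos
  obtain ⟨A, hA, hk⟩ := k0 r β u hr hu
  rw [chirp_shift, fub r β u X ξ hr hg F hF, norm_mul, norm_expI, one_mul]
  set N : ℝ := Real.pi ^ 2 * r ^ 4 + β ^ 2 with hN
  have hN0 : 0 < N := by positivity
  set κ : ℝ := -(Real.pi ^ 2 * β / N) with hκ
  have h1 : ∀ t, F t * (ch (X - t) ξ * ∫ ζ, ch (X - t) ζ * Mc r β u ζ) =
      (A * (ch X ξ * Complex.exp (Complex.I * ((κ * (X ^ 2 * u ^ 2).im : ℝ) : ℂ)))) *
      (φc κ u F t * ((Real.exp (-(Real.pi * ‖t - X‖ ^ 2 / (Real.sqrt N / (Real.pi * r)) ^ 2)) : ℝ)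
        : ℂ) * ch (-t) (ξ - ((Real.pi * β / N : ℝ) : ℂ) * Sr u X)) := by
    intro t
    have h2 : ∫ ζ, ch (X - t) ζ * Mc r β u ζ = _ := hk (X - t)
    rw [h2, φc_apply]
    have h3 : Real.exp (-(Real.pi ^ 3 * r ^ 2 / N * ‖X - t‖ ^ 2)) =
        Real.exp (-(Real.pi * ‖t - X‖ ^ 2 / (Real.sqrt N / (Real.pi * r)) ^ 2)) := by
      congr 2
      rw [norm_sub_rev t X, div_pow, Real.sq_sqrt hN0.le]
      field_simp
    rw [h3]
    have h4 : ch (X - t) ξ = ch X ξ * ch (-t) ξ := by rw [sub_eq_add_neg, ch_add]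
    have h5 : ch (-t) (ξ - ((Real.pi * β / N : ℝ) : ℂ) * Sr u X) =
        ch (-t) ξ * Complex.exp (Complex.I * ((-(2 * κ * (t * X * u ^ 2).im) : ℝ) : ℂ)) := by
      rw [← Sr_inner]
      unfold ch
      rw [← Complex.exp_add]
      congr 1
      simp only [Complex.sub_re, Complex.sub_im, Complex.re_ofReal_mul, Complex.im_ofReal_mul,
        Complex.neg_re, Complex.neg_im, hκ]
      push_cast
      ring
    have h6 : ((X - t) ^ 2 * u ^ 2).im = (X ^ 2 * u ^ 2).im + (t ^ 2 * u ^ 2).im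
        - 2 * (t * X * u ^ 2).im := by
      have h7 : (X - t) ^ 2 * u ^ 2 = X ^ 2 * u ^ 2 + t ^ 2 * u ^ 2
        - ((2 : ℝ) : ℂ) * (t * X * u ^ 2) := by push_cast; ring
      rw [h7, Complex.sub_im, Complex.add_im, Complex.im_ofReal_mul]
    have h8 : Complex.exp (Complex.I * ((κ * ((X - t) ^ 2 * u ^ 2).im : ℝ) : ℂ)) =
        Complex.exp (Complex.I * ((κ * (X ^ 2 * u ^ 2).im : ℝ) : ℂ)) *
        (Complex.exp (Complex.I * ((κ * (t ^ 2 * u ^ 2).im : ℝ) : ℂ)) *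
        Complex.exp (Complex.I * ((-(2 * κ * (t * X * u ^ 2).im) : ℝ) : ℂ))) := by
      rw [← Complex.exp_add, ← Complex.exp_add, h6]
      congr 1
      push_cast
      ring
    rw [h4, h5, h8]
    ring
  simp_rw [h1]
  rw [integral_const_mul, norm_mul, norm_mul, norm_mul, norm_ch, norm_expI, hA]
  unfold HH
  ring

/-- measurability on phase space -/
theorem HH_meas (σ : ℝ) (φ : 𝓢(ℂ, ℂ)) : Measurable (fun p : ℂ × ℂ => HH σ φ p.1 p.2) := by
  have h1 : Continuous (fun z : (ℂ × ℂ) × ℂ =>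
      φ z.2 * ((Real.exp (-(Real.pi * ‖z.2 - z.1.1‖ ^ 2 / σ ^ 2)) : ℝ) : ℂ) *
        ch (-z.2) z.1.2) := by
    have h2 := continuous_ch2.comp (by fun_prop : Continuous fun z : (ℂ × ℂ) × ℂ => (-z.2, z.1.2))
    have h3 : Continuous fun z : (ℂ × ℂ) × ℂ => φ z.2 := φ.continuous.comp continuous_snd
    exact (h3.mul (by fun_prop)).mul h2
  exact (h1.stronglyMeasurable.integral_prod_right).measurable

theorem ofReal_norm_rpow (z : ℂ) {p : ℝ} (hp : 0 ≤ p) :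
    ENNReal.ofReal (‖z‖ ^ p) = ‖z‖ₑ ^ p := by
  rw [← ENNReal.ofReal_rpow_of_nonneg (norm_nonneg _) hp, ofReal_norm]

theorem ofReal_int {p : ℝ} (hp : 0 ≤ p) {f : ℂ → ℂ} (hf : Integrable fun x => ‖f x‖ ^ p) :
    ENNReal.ofReal (∫ x, ‖f x‖ ^ p) = ∫⁻ x, ‖f x‖ₑ ^ p := by
  rw [ofReal_integral_eq_lintegral_ofReal hf
    (Eventually.of_forall fun x => Real.rpow_nonneg (norm_nonneg _) _)]
  congr 1
  ext x
  exact ofReal_norm_rpow _ hp

/-- a shear of phase space -/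
theorem shear (f : ℂ × ℂ → ℝ≥0∞) (hf : Measurable f) (K : ℝ≥0∞) (b : ℂ → ℂ)
    (hb : Continuous b) :
    ∫⁻ ξ, ∫⁻ X, K * f (X, ξ - b X) = K * ∫⁻ X, ∫⁻ η, f (X, η) := by
  have hmeas : Measurable (fun z : ℂ × ℂ => K * f (z.2, z.1 - b z.2)) := by
    have h1 : Continuous fun z : ℂ × ℂ => (z.2, z.1 - b z.2) := by fun_prop
    exact (hf.comp h1.measurable).const_mul K
  have h1 : ∫⁻ ξ, ∫⁻ X, K * f (X, ξ - b X) = ∫⁻ X, ∫⁻ ξ, K * f (X, ξ - b X) :=
    lintegral_lintegral_swap hmeas.aemeasurable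
  have h2 : ∀ X, ∫⁻ ξ, K * f (X, ξ - b X) = K * ∫⁻ η, f (X, η) := by
    intro X
    rw [lintegral_sub_right_eq_self (μ := (volume : Measure ℂ)) (fun η => K * f (X, η)) (b X)]
    exact lintegral_const_mul K (hf.comp (measurable_const.prodMk measurable_id))
  rw [h1]
  simp_rw [h2]
  exact lintegral_const_mul K hf.lintegral_prod_right'

theorem const_eq (p r β : ℝ) (hp : 0 < p) (hr : 0 < r) :
    p * r ^ 2 * ((Real.pi / Real.sqrt (Real.pi ^ 2 * r ^ 4 + β ^ 2)) ^ p *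
      ((Real.sqrt (Real.pi ^ 2 * r ^ 4 + β ^ 2) / (Real.pi * r)) ^ (2 * p - 2) / p))
      = (1 + (β / (Real.pi * r ^ 2)) ^ 2) ^ ((p - 2) / 2) := by
  have hpi := Real.pi_pos
  set N : ℝ := Real.pi ^ 2 * r ^ 4 + β ^ 2 with hN
  have hN0 : 0 < N := by positivity
  have h1 : 1 + (β / (Real.pi * r ^ 2)) ^ 2 = (Real.sqrt N / (Real.pi * r ^ 2)) ^ 2 := by
    rw [div_pow, div_pow, Real.sq_sqrt hN0.le, hN]
    field_simp
  have hx : 0 < Real.sqrt N := Real.sqrt_pos.2 hN0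
  set x := Real.sqrt N with hxd
  have h2 : ((x / (Real.pi * r ^ 2)) ^ 2) ^ ((p - 2) / 2) = (x / (Real.pi * r ^ 2)) ^ (p - 2) := by
    rw [← Real.rpow_natCast, ← Real.rpow_mul (by positivity)]
    congr 1
    push_cast
    ring
  rw [h1, h2]
  have h3 : r ^ 2 = Real.exp (2 * Real.log r) := by
    rw [two_mul, Real.exp_add, Real.exp_log hr, sq]
  have e1 : (Real.pi / x) ^ p = Real.exp ((Real.log Real.pi - Real.log x) * p) := by
    rw [Real.rpow_def_of_pos (by positivity), Real.log_div hpi.ne' hx.ne']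
  have e2 : (x / (Real.pi * r)) ^ (2 * p - 2) =
      Real.exp ((Real.log x - (Real.log Real.pi + Real.log r)) * (2 * p - 2)) := by
    rw [Real.rpow_def_of_pos (by positivity), Real.log_div hx.ne' (by positivity),
      Real.log_mul hpi.ne' hr.ne']
  have e3 : (x / (Real.pi * r ^ 2)) ^ (p - 2) =
      Real.exp ((Real.log x - (Real.log Real.pi + 2 * Real.log r)) * (p - 2)) := by
    rw [Real.rpow_def_of_pos (by positivity), Real.log_div hx.ne' (by positivity),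
      Real.log_mul hpi.ne' (by positivity), Real.log_pow]
    push_cast
    ring_nf
  have e4 : p * r ^ 2 * ((Real.pi / x) ^ p * ((x / (Real.pi * r)) ^ (2 * p - 2) / p)) =
      r ^ 2 * ((Real.pi / x) ^ p * (x / (Real.pi * r)) ^ (2 * p - 2)) := by
    field_simp
  rw [e4, e1, e2, e3, h3, ← Real.exp_add, ← Real.exp_add]
  congr 1
  ring

end TOTAux

open TOTAux in
theorem tot (hE : StmtE1) (hES : StmtE1S) (hS : StmtSch) : StmtTOT := by
  intro p r β u q g hp hr hu hg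
  have hpi := Real.pi_pos
  have hp0 : 0 < p := by linarith
  have hqc : SC (qc β u q g) := (hS.2.2.2.2.2 g hg).2.2.2.2.2.2.1 β u q
  have hE1 := hE p r (qc β u q g) hp hr hqc
  refine ⟨hE1.2.2.1, ?_⟩
  obtain ⟨F, hF⟩ := hS.2.1 g hg
  set N : ℝ := Real.pi ^ 2 * r ^ 4 + β ^ 2 with hN
  have hN0 : 0 < N := by positivity
  have hx : 0 < Real.sqrt N := Real.sqrt_pos.2 hN0
  set σ : ℝ := Real.sqrt N / (Real.pi * r) with hσ
  have hσ0 : 0 < σ := by positivity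
  set φ : 𝓢(ℂ, ℂ) := φc (-(Real.pi ^ 2 * β / N)) u F with hφ
  set K : ℝ≥0∞ := ENNReal.ofReal (Real.pi / Real.sqrt N) ^ p with hK
  have hNp : ∫⁻ t, ‖φ t‖ₑ ^ p = ENNReal.ofReal (Np p g) := by
    unfold Np
    rw [ofReal_int hp0.le (hS.2.2.2.2.1 g p (by linarith) hg)]
    congr 1
    ext t
    have : ‖φ t‖ = ‖iF g t‖ := by
      rw [hφ, φc_apply, norm_mul, norm_expI, one_mul, hF]
    rw [← ofReal_norm, this, ofReal_norm]
  have hloc : ∀ ξ, ENNReal.ofReal (Nw p r ξ (qc β u q g)) =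
      ∫⁻ X, K * ‖HH σ φ X (ξ - ((Real.pi * β / N : ℝ) : ℂ) * Sr u X)‖ₑ ^ p := by
    intro ξ
    have hsc : SC (gs r ξ (qc β u q g)) := (hS.2.2.2.2.2 _ hqc).2.2.1 r ξ
    unfold Nw Np
    rw [ofReal_int hp0.le (hS.2.2.2.2.1 _ p (by linarith) hsc),
      ← lintegral_sub_right_eq_self (μ := (volume : Measure ℂ))
        (fun x => ‖iF (gs r ξ (qc β u q g)) x‖ₑ ^ p) (((β / Real.pi : ℝ) : ℂ) * Sr u (ξ - q))]
    congr 1
    ext X
    rw [hK, ← ENNReal.mul_rpow_of_nonneg _ _ hp0.le]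
    congr 1
    rw [← ofReal_norm, ← ofReal_norm, rep r β u q hr hu hg F hF X ξ,
      ENNReal.ofReal_mul (by positivity)]
  have hm2 : Measurable (fun z : ℂ × ℂ => ‖HH σ φ z.1 z.2‖ₑ ^ p) :=
    (HH_meas σ φ).enorm.pow_const p
  have hb : Continuous fun X : ℂ => ((Real.pi * β / N : ℝ) : ℂ) * Sr u X := by
    unfold Sr
    exact continuous_const.mul (continuous_const.mul Complex.continuous_conj)
  have hsh := shear _ hm2 K _ hb
  have hnn : ∀ ξ, 0 ≤ Nw p r ξ (qc β u q g) := fun ξ =>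
    integral_nonneg fun x => Real.rpow_nonneg (norm_nonneg _) _
  have hmain : ENNReal.ofReal (∫ ξ, Nw p r ξ (qc β u q g)) ≤
      ENNReal.ofReal ((Real.pi / Real.sqrt N) ^ p * (σ ^ (2 * p - 2) / p) * Np p g) := by
    calc ENNReal.ofReal (∫ ξ, Nw p r ξ (qc β u q g))
        = ∫⁻ ξ, ∫⁻ X, K * ‖HH σ φ X (ξ - ((Real.pi * β / N : ℝ) : ℂ) * Sr u X)‖ₑ ^ p := by
          rw [ofReal_integral_eq_lintegral_ofReal hE1.2.2.1 (Eventually.of_forall hnn)]
          congr 1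
          ext ξ
          exact hloc ξ
      _ = K * ∫⁻ X, ∫⁻ η, ‖HH σ φ X η‖ₑ ^ p := hsh
      _ ≤ K * (ENNReal.ofReal (σ ^ (2 * p - 2) / p) * ∫⁻ t, ‖φ t‖ₑ ^ p) := by
          gcongr
          exact hES p σ φ hp hσ0
      _ = ENNReal.ofReal ((Real.pi / Real.sqrt N) ^ p * (σ ^ (2 * p - 2) / p) * Np p g) := by
          rw [hNp, hK, ENNReal.ofReal_rpow_of_nonneg (by positivity) hp0.le,
            ENNReal.ofReal_mul (by positivity), ENNReal.ofReal_mul (by positivity), mul_assoc]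
  have hNpn : 0 ≤ Np p g := integral_nonneg fun x => Real.rpow_nonneg (norm_nonneg _) _
  have h1 : ∫ ξ, Nw p r ξ (qc β u q g) ≤
      (Real.pi / Real.sqrt N) ^ p * (σ ^ (2 * p - 2) / p) * Np p g :=
    (ENNReal.ofReal_le_ofReal_iff (by positivity)).1 hmain
  calc p * r ^ 2 * ∫ ξ, Nw p r ξ (qc β u q g)
      ≤ p * r ^ 2 * ((Real.pi / Real.sqrt N) ^ p * (σ ^ (2 * p - 2) / p) * Np p g) := by gcongr
    _ = (p * r ^ 2 * ((Real.pi / Real.sqrt N) ^ p * (σ ^ (2 * p - 2) / p))) * Np p g := by ring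
    _ = _ := by rw [hσ, hN, const_eq p r β hp0 hr]

end Pool.Agent.Lib.MP_dd244f_an.Rp
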