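import Pool.Agent.Lib.MP_dd244f_an.Rp.Stmts

/-!
Module Tel: telescoping.
-/

set_option autoImplicit false

namespace Pool.Agent.Lib.MP_dd244f_an.Rp

open MeasureTheory Filter Topology Finset
open Pool.Agent.Lib.MP_dd244f_an.Four
open Pool.Agent.Lib.MP_dd244f_an.Even
open Pool.Agent.Lib.MP_dd244f_an.Unif (SC)

theorem Tel.hk_nonneg {v : ℝ} (hv : 0 < v) (y : ℂ) : 0 ≤ hk v y := by
  unfold hk
  positivity

theorem Tel.Psi_nonneg (p : ℝ) (g : ℂ → ℂ) (s : ℝ) (y : ℂ) : 0 ≤ Psi p g s y := by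
  unfold Psi Np
  exact integral_nonneg fun x => Real.rpow_nonneg (norm_nonneg _) _

/-- telescoping -/
theorem tel (hM : StmtMono) (hP : StmtPsi) : StmtTel := by
  intro p g J τ κ hp hg hτ hκ0 hκ hpκ
  obtain ⟨-, hanti, hdiff, hlast⟩ := hM p g hp hg
  obtain ⟨-, hlap, -, -, -, -, hgl, -⟩ := hP p g hp hg
  have hp0 : 0 < p := by linarith
  set L : ℝ → ℝ → ℝ := fun s v => ∫ y, Psi p g s y * hk v y with hL
  set a : ℕ → ℝ := fun j => L (τ j) (τ j / p - κ j) with ha
  have hpos : ∀ j, 0 < τ j / p - κ j := by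
    intro j
    have := hpκ j
    have h1 : κ j < τ j / p := by
      rw [lt_div_iff₀ hp0]
      linarith
    linarith
  have hterm : ∀ j, ∫ v in (τ j / p - κ j)..(τ j / p - κ (j + 1)),
      ∫ y, lapR (Psi p g (τ j)) y * hk v y ≤ a (j + 1) - a j := by
    intro j
    have h1 := hdiff (τ j) (τ j / p - κ j) (τ j / p - κ (j + 1)) (hpos j)
      (by linarith [hκ j])
    rw [← h1]
    have h2 : L (τ j) (τ j / p - κ (j + 1)) ≤ L (τ (j + 1)) (τ (j + 1) / p - κ (j + 1)) := by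
      have h3 := hanti (κ (j + 1)) (hκ0 (j + 1)) (a := τ (j + 1)) (b := τ j)
        (Set.mem_Ioi.mpr (hpκ (j + 1))) (Set.mem_Ioi.mpr ((hpκ (j + 1)).trans_le (hτ j))) (hτ j)
      exact h3
    have h4 : (∫ y, Psi p g (τ j) y * hk (τ j / p - κ (j + 1)) y)
        = L (τ j) (τ j / p - κ (j + 1)) := rfl
    have h5 : (∫ y, Psi p g (τ j) y * hk (τ j / p - κ j) y) = a j := rfl
    rw [h4, h5]
    have h6 : L (τ (j + 1)) (τ (j + 1) / p - κ (j + 1)) = a (j + 1) := rfl
    rw [← h6]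
    linarith
  have hsum : ∑ j ∈ Finset.range J, ∫ v in (τ j / p - κ j)..(τ j / p - κ (j + 1)),
      ∫ y, lapR (Psi p g (τ j)) y * hk v y ≤ a J - a 0 := by
    refine (Finset.sum_le_sum fun j _ => hterm j).trans (le_of_eq ?_)
    exact Finset.sum_range_sub a J
  have ha0 : 0 ≤ a 0 := by
    refine integral_nonneg fun y => ?_
    exact mul_nonneg (Tel.Psi_nonneg p g _ y) (Tel.hk_nonneg (hpos 0) y)
  have hτJ : 0 < τ J := by
    have h1 := hpκ J
    have h2 : 0 ≤ p * κ J := mul_nonneg hp0.le (hκ0 J)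
    linarith
  have haJ : a J ≤ Np p g := by
    refine le_trans ?_ (hlast (τ J) hτJ)
    have h1 := hdiff (τ J) (τ J / p - κ J) (τ J / p) (hpos J) (by linarith [hκ0 J])
    have h2 : 0 ≤ ∫ v in (τ J / p - κ J)..(τ J / p),
        ∫ y, lapR (Psi p g (τ J)) y * hk v y := by
      refine intervalIntegral.integral_nonneg (by linarith [hκ0 J]) fun v hv => ?_
      refine integral_nonneg fun y => mul_nonneg ?_ (Tel.hk_nonneg ?_ y)
      · rw [hlap]
        exact mul_nonneg (by positivity) (hgl (τ J) y).1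
      · exact (hpos J).trans_le hv.1
    have h3 : (∫ y, Psi p g (τ J) y * hk (τ J / p - κ J) y) = a J := rfl
    rw [h3] at h1
    linarith
  linarith

end Pool.Agent.Lib.MP_dd244f_an.Rp
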