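import Pool.Agent.Lib.MP_dd244f_an.Rp.Stmts
import Pool.Agent.Lib.MP_dd244f_an.Four.LPK
import Pool.Agent.Lib.MP_dd244f_an.Four.Ker
import Pool.Agent.Lib.MP_dd244f_an.Four.Syn
import Pool.Agent.Lib.MP_dd244f_an.Even.AvAux

/-!
Full operator, all real `p`: (WinB) pointwise bounds through the windows.
-/

set_option autoImplicit false

namespace Pool.Agent.Lib.MP_dd244f_an.Rp

open MeasureTheory Filter Topology Finset
open Pool.Agent.Lib.MP_dd244f_an.Joint (st ct Mst ratio)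
open Pool.Agent.Lib.MP_dd244f_an.Four
open Pool.Agent.Lib.MP_dd244f_an.Even
open scoped ContDiff

namespace WinBAux

/-! ### derivatives of Gaussians -/

theorem nat_le (n : ℕ) : ((n : ℕ) : WithTop ℕ∞) ≤ ∞ := by exact_mod_cast le_top

theorem quad_der (τ : ℝ) (hτ : 0 ≤ τ) (w : ℂ) (k : ℕ) (hk : 1 ≤ k) :
    ‖iteratedFDeriv ℝ k (fun w : ℂ => -(τ ^ 2 * ‖w‖ ^ 2)) w‖ ≤ (2 * τ * (1 + τ * ‖w‖)) ^ k := by
  have h0 : 0 ≤ τ * ‖w‖ := by positivity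
  have h1 : fderiv ℝ (fun w : ℂ => -(τ ^ 2 * ‖w‖ ^ 2)) = fun w => (-(2 * τ ^ 2)) • innerSL ℝ w := by
    ext1 w
    have h : HasFDerivAt (fun w : ℂ => -(τ ^ 2 * ‖w‖ ^ 2)) (-(τ ^ 2 • 2 • (innerSL ℝ) w)) w :=
      ((hasStrictFDerivAt_norm_sq (F := ℂ) w).hasFDerivAt.const_mul (τ ^ 2)).neg
    rw [h.fderiv]
    ext v
    simp only [neg_apply, smul_apply, innerSL_apply_apply,
      smul_eq_mul, nsmul_eq_mul]
    push_cast
    ring
  obtain ⟨n, rfl⟩ : ∃ n, k = n + 1 := ⟨k - 1, by omega⟩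
  rw [← norm_iteratedFDeriv_fderiv, h1]
  have hin : ‖innerSL ℝ w‖ = ‖w‖ := innerSL_apply_norm (𝕜 := ℝ) w
  rcases n with _ | n
  · rw [norm_iteratedFDeriv_zero, norm_smul, hin, Real.norm_eq_abs, abs_neg,
      abs_of_nonneg (by positivity), zero_add, pow_one]
    nlinarith
  · have h2 : fderiv ℝ (fun w : ℂ => (-(2 * τ ^ 2)) • innerSL ℝ w)
        = fun _ => (-(2 * τ ^ 2)) • innerSL ℝ := by
      ext1 w
      exact ((innerSL ℝ (E := ℂ)).hasFDerivAt.const_smul (-(2 * τ ^ 2))).fderiv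
    rw [← norm_iteratedFDeriv_fderiv, h2]
    rcases n with _ | n
    · rw [norm_iteratedFDeriv_zero, norm_smul, Real.norm_eq_abs, abs_neg,
        abs_of_nonneg (by positivity)]
      have h3 : ‖innerSL ℝ (E := ℂ)‖ ≤ 1 := by
        refine ContinuousLinearMap.opNorm_le_bound _ zero_le_one fun x => ?_
        rw [innerSL_apply_norm, one_mul]
      have h4 : 2 * τ ^ 2 * ‖innerSL ℝ (E := ℂ)‖ ≤ 2 * τ ^ 2 * 1 :=
        mul_le_mul_of_nonneg_left h3 (by positivity)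
      refine h4.trans ?_
      have h5 : (1 : ℝ) ≤ (1 + τ * ‖w‖) ^ 2 := by nlinarith
      calc 2 * τ ^ 2 * 1 ≤ 4 * τ ^ 2 * (1 + τ * ‖w‖) ^ 2 := by nlinarith [sq_nonneg τ]
        _ = _ := by ring
    · rw [iteratedFDeriv_succ_const]
      simp only [Pi.zero_apply, norm_zero]
      positivity

theorem exp_der (k : ℕ) (t : ℝ) : ‖iteratedFDeriv ℝ k Real.exp t‖ = Real.exp t := by
  rw [norm_iteratedFDeriv_eq_norm_iteratedDeriv, iteratedDeriv_eq_iterate, Real.iter_deriv_exp,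
    Real.norm_eq_abs, abs_of_pos (Real.exp_pos _)]

theorem gauss_contDiff (τ : ℝ) (η : ℂ) :
    ContDiff ℝ ∞ (fun z : ℂ => Real.exp (-(τ ^ 2 * ‖z - η‖ ^ 2))) := by
  have h : ContDiff ℝ ∞ (fun z : ℂ => ‖z - η‖ ^ 2) := (contDiff_id.sub contDiff_const).norm_sq ℝ
  exact Real.contDiff_exp.comp ((contDiff_const.mul h).neg)

theorem gauss_der (τ : ℝ) (hτ : 0 ≤ τ) (η z : ℂ) (k : ℕ) :
    ‖iteratedFDeriv ℝ k (fun z : ℂ => Real.exp (-(τ ^ 2 * ‖z - η‖ ^ 2))) z‖ ≤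
      (k.factorial : ℝ) * Real.exp (-(τ ^ 2 * ‖z - η‖ ^ 2)) * (2 * τ * (1 + τ * ‖z - η‖)) ^ k := by
  have h0 : (fun z : ℂ => Real.exp (-(τ ^ 2 * ‖z - η‖ ^ 2)))
      = fun z => (Real.exp ∘ (fun w : ℂ => -(τ ^ 2 * ‖w‖ ^ 2))) (z - η) := rfl
  rw [h0, iteratedFDeriv_comp_sub]
  have h1 : ContDiff ℝ ∞ (fun w : ℂ => -(τ ^ 2 * ‖w‖ ^ 2)) :=
    (contDiff_const.mul (contDiff_norm_sq ℝ)).neg
  exact norm_iteratedFDeriv_comp_le (N := ∞) Real.contDiff_exp h1 (by exact_mod_cast le_top) (z - η)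
    (fun i _ => (exp_der i _).le) (fun i hi _ => quad_der τ hτ (z - η) i hi)

/-- the numerical inequality -/
theorem num_exp (δ τ t : ℝ) (hδ : 0 < δ) (hτ : 0 ≤ τ) (h : δ * τ ≤ t) (k : ℕ) :
    (k.factorial : ℝ) * Real.exp (-(t ^ 2)) * (2 * τ * (1 + t)) ^ k
      ≤ ((k.factorial : ℝ) * (k.factorial : ℝ) * Real.exp 1 * (8 / δ) ^ k) * Real.exp (-(t ^ 2 / 2)) := by
  have ht : 0 ≤ t := le_trans (by positivity) h
  have h1 : 2 * τ * (1 + t) ≤ 8 / δ * (1 + t ^ 2 / 2) := by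
    rw [div_mul_eq_mul_div, le_div_iff₀ hδ]
    nlinarith [mul_nonneg ht ht, sq_nonneg (t - 1)]
  have h2 : (2 * τ * (1 + t)) ^ k ≤ (8 / δ) ^ k * (1 + t ^ 2 / 2) ^ k := by
    rw [← mul_pow]
    exact pow_le_pow_left₀ (by positivity) h1 k
  have h3 : (1 + t ^ 2 / 2) ^ k ≤ (k.factorial : ℝ) * (Real.exp 1 * Real.exp (t ^ 2 / 2)) := by
    have := Real.pow_div_factorial_le_exp (1 + t ^ 2 / 2) (by positivity) k
    rw [div_le_iff₀ (by positivity), Real.exp_add] at this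
    linarith
  have h4 : Real.exp (-(t ^ 2)) * Real.exp (t ^ 2 / 2) = Real.exp (-(t ^ 2 / 2)) := by
    rw [← Real.exp_add]
    congr 1
    ring
  calc (k.factorial : ℝ) * Real.exp (-(t ^ 2)) * (2 * τ * (1 + t)) ^ k
      ≤ (k.factorial : ℝ) * Real.exp (-(t ^ 2)) * ((8 / δ) ^ k * ((k.factorial : ℝ) * (Real.exp 1 * Real.exp (t ^ 2 / 2)))) := by
        refine mul_le_mul_of_nonneg_left (h2.trans ?_) (by positivity)
        exact mul_le_mul_of_nonneg_left h3 (by positivity)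
    _ = ((k.factorial : ℝ) * (k.factorial : ℝ) * Real.exp 1 * (8 / δ) ^ k) * (Real.exp (-(t ^ 2)) * Real.exp (t ^ 2 / 2)) := by
        ring
    _ = _ := by rw [h4]

/-- bounds for the derivatives of a fixed bump -/
theorem bump_bdd {χ : ℂ → ℝ} (h1 : ContDiff ℝ ∞ χ) (h2 : HasCompactSupport χ) (m : ℕ) :
    ∃ M : ℝ, 0 < M ∧ ∀ k ≤ m, ∀ z, ‖iteratedFDeriv ℝ k χ z‖ ≤ M := by
  have h3 : ∀ k : ℕ, ∃ M : ℝ, ∀ z, ‖iteratedFDeriv ℝ k χ z‖ ≤ M := fun k =>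
    Continuous.bounded_above_of_compact_support
      (h1.continuous_iteratedFDeriv (by exact_mod_cast le_top)) (h2.iteratedFDeriv k)
  choose M hM using h3
  refine ⟨∑ k ∈ range (m + 1), |M k| + 1, by positivity, fun k hk z => ?_⟩
  have h4 : |M k| ≤ ∑ k ∈ range (m + 1), |M k| :=
    single_le_sum (f := fun k => |M k|) (fun i _ => abs_nonneg _) (mem_range.2 (by omega))
  linarith [hM k z, le_abs_self (M k)]

/-- a bump times a Gaussian which is small on it -/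
theorem bump_gauss {χ : ℂ → ℝ} (h1 : ContDiff ℝ ∞ χ) (h2 : HasCompactSupport χ) {δ : ℝ}
    (hδ : 0 < δ) (m : ℕ) : ∃ K, 0 < K ∧ ∀ (τ r : ℝ) (η : ℂ), 0 < τ → 1 ≤ r →
    (∀ z, χ z ≠ 0 → δ * r ≤ ‖z - η‖) → ∀ k ≤ m, ∀ z,
    ‖iteratedFDeriv ℝ k (fun z => χ z * Real.exp (-(τ ^ 2 * ‖z - η‖ ^ 2))) z‖ ≤
      K * Real.exp (-((δ * (τ * r)) ^ 2 / 2)) := by
  obtain ⟨M, hM0, hM⟩ := bump_bdd h1 h2 m
  set P : ℕ → ℝ := fun k => (k.factorial : ℝ) * (k.factorial : ℝ) * Real.exp 1 * (8 / δ) ^ k with hP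
  have hP0 : ∀ k, 0 < P k := fun k => by rw [hP]; positivity
  set Q : ℝ := ∑ k ∈ range (m + 1), P k with hQ
  have hPQ : ∀ k ≤ m, P k ≤ Q := fun k hk =>
    single_le_sum (f := P) (fun i _ => (hP0 i).le) (mem_range.2 (by omega))
  have hQ0 : 0 < Q := (hP0 0).trans_le (hPQ 0 (by omega))
  refine ⟨2 ^ m * M * Q, by positivity, fun τ r η hτ hr hsup k hk z => ?_⟩
  have h3 := norm_iteratedFDeriv_mul_le (N := ∞) h1 (gauss_contDiff τ η) z (n := k)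
    (by exact_mod_cast le_top)
  refine h3.trans ?_
  by_cases hz : z ∈ tsupport χ
  · have h4 : δ * r ≤ ‖z - η‖ := by
      have hcl : IsClosed {z : ℂ | δ * r ≤ ‖z - η‖} := isClosed_le (by fun_prop) (by fun_prop)
      exact closure_minimal (s := Function.support χ) (fun z hz => hsup z hz) hcl hz
    have h5 : ∀ j ≤ m, ‖iteratedFDeriv ℝ j (fun z : ℂ => Real.exp (-(τ ^ 2 * ‖z - η‖ ^ 2))) z‖
        ≤ Q * Real.exp (-((δ * (τ * r)) ^ 2 / 2)) := by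
      intro j hj
      have h6 := gauss_der τ hτ.le η z j
      have h7 := num_exp δ τ (τ * ‖z - η‖) hδ hτ.le (by nlinarith [mul_pos hδ hτ]) j
      rw [mul_pow] at h7
      refine (h6.trans h7).trans ?_
      have h8 : δ * (τ * r) ≤ τ * ‖z - η‖ := by nlinarith
      have h9 : (δ * (τ * r)) ^ 2 ≤ (τ * ‖z - η‖) ^ 2 := pow_le_pow_left₀ (by positivity) h8 2
      rw [mul_pow τ] at h9
      refine mul_le_mul (hPQ j hj) (Real.exp_le_exp.2 ?_) (Real.exp_pos _).le hQ0.le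
      linarith
    calc ∑ i ∈ range (k + 1), (k.choose i : ℝ) * ‖iteratedFDeriv ℝ i χ z‖ *
          ‖iteratedFDeriv ℝ (k - i) (fun z : ℂ => Real.exp (-(τ ^ 2 * ‖z - η‖ ^ 2))) z‖
        ≤ ∑ i ∈ range (k + 1), (k.choose i : ℝ) *
            (M * (Q * Real.exp (-((δ * (τ * r)) ^ 2 / 2)))) := by
          refine sum_le_sum fun i hi => ?_
          rw [mul_assoc]
          refine mul_le_mul_of_nonneg_left ?_ (by positivity)
          have hi' := mem_range.1 hi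
          exact mul_le_mul (hM i (by omega) z) (h5 (k - i) (by omega)) (norm_nonneg _) hM0.le
      _ = 2 ^ k * (M * (Q * Real.exp (-((δ * (τ * r)) ^ 2 / 2)))) := by
          rw [← sum_mul]
          congr 1
          exact_mod_cast Nat.sum_range_choose k
      _ ≤ 2 ^ m * (M * (Q * Real.exp (-((δ * (τ * r)) ^ 2 / 2)))) := by
          refine mul_le_mul_of_nonneg_right ?_ (by positivity)
          exact pow_le_pow_right₀ (by norm_num) hk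
      _ = _ := by ring
  · have h4 : ∀ i, iteratedFDeriv ℝ i χ z = 0 := fun i => by
      by_contra h
      exact hz (support_iteratedFDeriv_subset (𝕜 := ℝ) i h)
    have h5 : ∑ i ∈ range (k + 1), (k.choose i : ℝ) * ‖iteratedFDeriv ℝ i χ z‖ *
          ‖iteratedFDeriv ℝ (k - i) (fun z : ℂ => Real.exp (-(τ ^ 2 * ‖z - η‖ ^ 2))) z‖ = 0 := by
      refine sum_eq_zero fun i _ => ?_
      rw [h4 i]
      simp
    rw [h5]
    positivity

/-- scaling -/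
theorem sb_scale {m : ℕ} {Ψ : ℂ → ℝ} (h1 : ContDiff ℝ ∞ Ψ) (h0 : ∀ z, 8 < ‖z‖ → Ψ z = 0) {B : ℝ}
    (hB : ∀ k ≤ 2 * m, ∀ z, ‖iteratedFDeriv ℝ k Ψ z‖ ≤ B) (a : ℤ) :
    SB m a B (fun ζ => ((Ψ (((2 : ℝ) ^ a)⁻¹ • ζ) : ℝ) : ℂ)) := by
  have h2 : (0 : ℝ) < (2 : ℝ) ^ a := by positivity
  have h3 : ContDiff ℝ ∞ (fun ζ : ℂ => Ψ (((2 : ℝ) ^ a)⁻¹ • ζ)) := h1.comp (contDiff_const_smul _)
  refine ⟨?_, ?_, ?_⟩
  · have h4 : ContDiff ℝ ∞ (fun ζ => ((Ψ (((2 : ℝ) ^ a)⁻¹ • ζ) : ℝ) : ℂ)) :=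
      Complex.ofRealCLM.contDiff.comp h3
    exact h4.of_le (nat_le _)
  · intro ζ hζ
    show ((Ψ (((2 : ℝ) ^ a)⁻¹ • ζ) : ℝ) : ℂ) = 0
    rw [h0, Complex.ofReal_zero]
    rw [norm_smul, norm_inv, Real.norm_eq_abs, abs_of_pos h2, inv_mul_eq_div, lt_div_iff₀ h2]
    exact hζ
  · intro k hk ζ
    have h4 : ‖iteratedFDeriv ℝ k (fun ζ => ((Ψ (((2 : ℝ) ^ a)⁻¹ • ζ) : ℝ) : ℂ)) ζ‖
        = ‖iteratedFDeriv ℝ k (fun ζ => Ψ (((2 : ℝ) ^ a)⁻¹ • ζ)) ζ‖ :=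
      LinearIsometry.norm_iteratedFDeriv_comp_left (n := ∞) Complex.ofRealLI
        (h3.contDiffAt) (by exact_mod_cast le_top)
    rw [h4, iteratedFDeriv_comp_const_smul (((2 : ℝ) ^ a)⁻¹)
      (h1.of_le (by exact_mod_cast le_top) : ContDiff ℝ k Ψ), norm_smul, norm_pow, norm_inv,
      Real.norm_eq_abs, abs_of_pos h2, mul_comm]
    have h5 : (2 : ℝ) ^ (-(k * a : ℤ)) = ((2 : ℝ) ^ a)⁻¹ ^ k := by
      rw [zpow_neg, mul_comm, zpow_mul, zpow_natCast, inv_pow]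
    rw [h5]
    exact mul_le_mul_of_nonneg_right (hB k hk _) (by positivity)

/-! ### the bumps -/

/-- the Gaussian in the variable `2 ^ (-i) ζ` -/
theorem gauss_scale (σ : ℝ) (i : ℤ) (ξ ζ : ℂ) :
    Real.exp (-((Real.sqrt Real.pi * σ * (2 : ℝ) ^ i) ^ 2
      * ‖((2 : ℝ) ^ i)⁻¹ • ζ - ((2 : ℝ) ^ i)⁻¹ • ξ‖ ^ 2))
      = Real.exp (-(Real.pi * σ ^ 2 * ‖ζ - ξ‖ ^ 2)) := by
  have h2 : (0 : ℝ) < (2 : ℝ) ^ i := by positivity
  rw [← smul_sub, norm_smul, norm_inv, Real.norm_eq_abs, abs_of_pos h2, mul_pow, mul_pow, mul_pow,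
    Real.sq_sqrt Real.pi_pos.le]
  congr 2
  field_simp

/-- pointwise bound for a bump times a small Gaussian -/
theorem bump_pt (hM : StmtMul) {χ : ℂ → ℝ} (h1 : ContDiff ℝ ∞ χ) (h8 : ∀ z, 8 < ‖z‖ → χ z = 0) :
    ∃ C, 0 < C ∧ ∀ (σ R : ℝ) (i : ℤ) (ξ : ℂ) (g : ℂ → ℂ) (x : ℂ), 0 < σ → (2 : ℝ) ^ i ≤ R →
    (∀ ζ, χ (((2 : ℝ) ^ i)⁻¹ • ζ) ≠ 0 → 1 / 8 * R ≤ ‖ζ - ξ‖) → CC g →
    ‖iF (gs σ ξ (fun ζ => ((χ (((2 : ℝ) ^ i)⁻¹ • ζ) : ℝ) : ℂ) * g ζ)) x‖ ^ 2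
      ≤ C * Real.exp (-(1 / 32 * σ ^ 2 * R ^ 2)) *
        ∫ y, KK ((2 : ℝ) ^ (-i)) (x - y) * ‖iF g y‖ ^ 2 := by
  have h2 : HasCompactSupport χ := by
    refine HasCompactSupport.intro (isCompact_closedBall (0 : ℂ) 8) fun ζ hζ => h8 ζ ?_
    rw [Metric.mem_closedBall, dist_zero_right, not_le] at hζ
    exact hζ
  obtain ⟨K, hK0, hK⟩ := bump_gauss h1 h2 (by norm_num : (0 : ℝ) < 1 / 8) (2 * 2)
  obtain ⟨C, hC0, hC⟩ := hM 2 le_rfl
  refine ⟨C * K ^ 2, by positivity, fun σ R i ξ g x hσ hR hsup hg => ?_⟩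
  have h2i : (0 : ℝ) < (2 : ℝ) ^ i := by positivity
  have hpi : 0 < Real.sqrt Real.pi := Real.sqrt_pos.2 Real.pi_pos
  set τ : ℝ := Real.sqrt Real.pi * σ * (2 : ℝ) ^ i with hτ
  set r : ℝ := R / (2 : ℝ) ^ i with hr
  set η : ℂ := ((2 : ℝ) ^ i)⁻¹ • ξ with hη
  have hr1 : 1 ≤ r := by rw [hr, one_le_div h2i]; exact hR
  have hsup' : ∀ z, χ z ≠ 0 → 1 / 8 * r ≤ ‖z - η‖ := by
    intro z hz
    have h3 := hsup ((2 : ℝ) ^ i • z) (by rwa [smul_smul, inv_mul_cancel₀ h2i.ne', one_smul])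
    have h4 : (2 : ℝ) ^ i • z - ξ = (2 : ℝ) ^ i • (z - η) := by
      rw [smul_sub, hη, smul_smul, mul_inv_cancel₀ h2i.ne', one_smul]
    rw [h4, norm_smul, Real.norm_eq_abs, abs_of_pos h2i] at h3
    rw [hr, ← mul_div_assoc, div_le_iff₀ h2i]
    linarith
  have h3 := hK τ r η (by positivity) hr1 hsup'
  have h4 : SB 2 i (K * Real.exp (-((1 / 8 * (τ * r)) ^ 2 / 2)))
      (fun ζ => (((fun z => χ z * Real.exp (-(τ ^ 2 * ‖z - η‖ ^ 2))) (((2 : ℝ) ^ i)⁻¹ • ζ) : ℝ) : ℂ)) :=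
    sb_scale (h1.mul (gauss_contDiff τ η)) (fun z hz => by rw [h8 z hz, zero_mul]) h3 i
  have h5 := (hC i _ _ (by positivity) h4 g hg).1 x
  have h6 : (fun ζ => (((fun z => χ z * Real.exp (-(τ ^ 2 * ‖z - η‖ ^ 2)))
      (((2 : ℝ) ^ i)⁻¹ • ζ) : ℝ) : ℂ) * g ζ)
      = gs σ ξ (fun ζ => ((χ (((2 : ℝ) ^ i)⁻¹ • ζ) : ℝ) : ℂ) * g ζ) := by
    ext ζ
    unfold gs
    simp only
    rw [hτ, hη, gauss_scale]
    push_cast
    ring
  rw [h6] at h5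
  have h7 : ∀ z, KKm 2 ((2 : ℝ) ^ (-i)) z = KK ((2 : ℝ) ^ (-i)) z := fun z => by
    unfold KKm KK
    norm_num
  simp only [h7] at h5
  refine h5.trans (le_of_eq ?_ |>.trans (mul_le_mul_of_nonneg_right (b := C * K ^ 2 *
    Real.exp (-((1 / 8 * (τ * r)) ^ 2))) ?_ (integral_nonneg fun y => mul_nonneg
      (AvAux.kk_nonneg _ _) (by positivity))))
  · congr 1
    rw [mul_pow, ← Real.exp_nat_mul, ← mul_assoc]
    congr 2
    push_cast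
    ring
  · refine mul_le_mul_of_nonneg_left (Real.exp_le_exp.2 ?_) (by positivity)
    have h8 : τ * r = Real.sqrt Real.pi * σ * R := by
      rw [hτ, hr]
      field_simp
    rw [h8, neg_le_neg_iff, mul_pow, mul_pow, mul_pow, Real.sq_sqrt Real.pi_pos.le]
    have := Real.pi_gt_three
    nlinarith [mul_nonneg (sq_nonneg σ) (sq_nonneg R)]

/-- pointwise bound for a bump -/
theorem bump_pt0 (hM : StmtMul) {χ : ℂ → ℝ} (h1 : ContDiff ℝ ∞ χ) (h8 : ∀ z, 8 < ‖z‖ → χ z = 0) :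
    ∃ C, 0 < C ∧ ∀ (i : ℤ) (g : ℂ → ℂ) (x : ℂ), CC g →
    ‖iF (fun ζ => ((χ (((2 : ℝ) ^ i)⁻¹ • ζ) : ℝ) : ℂ) * g ζ) x‖ ^ 2
      ≤ C * ∫ y, KK ((2 : ℝ) ^ (-i)) (x - y) * ‖iF g y‖ ^ 2 := by
  have h2 : HasCompactSupport χ := by
    refine HasCompactSupport.intro (isCompact_closedBall (0 : ℂ) 8) fun ζ hζ => h8 ζ ?_
    rw [Metric.mem_closedBall, dist_zero_right, not_le] at hζ
    exact hζ
  obtain ⟨K, hK0, hK⟩ := bump_bdd h1 h2 (2 * 2)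
  obtain ⟨C, hC0, hC⟩ := hM 2 le_rfl
  refine ⟨C * K ^ 2, by positivity, fun i g x hg => ?_⟩
  have h5 := (hC i _ _ hK0.le (sb_scale h1 h8 hK i) g hg).1 x
  have h7 : ∀ z, KKm 2 ((2 : ℝ) ^ (-i)) z = KK ((2 : ℝ) ^ (-i)) z := fun z => by
    unfold KKm KK
    norm_num
  simp only [h7] at h5
  exact h5

/-! ### the Gaussian average -/

theorem ga_kk {σ : ℝ} (hσ : 0 < σ) (η : ℂ) : (σ ^ 2)⁻¹ * SynM.ga σ⁻¹ η ≤ KK σ η := by
  set t : ℝ := ‖η‖ ^ 2 / σ ^ 2 with ht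
  have ht0 : 0 ≤ t := by positivity
  have h1 : SynM.ga σ⁻¹ η = Real.exp (-(Real.pi * t)) := by
    unfold SynM.ga
    congr 2
    rw [ht]
    field_simp
  have h2 : KK σ η = (σ ^ 2)⁻¹ * ((1 + t) ^ 2)⁻¹ := by
    unfold KK
    rw [ht]
    have : 0 < σ ^ 2 + ‖η‖ ^ 2 := by positivity
    field_simp
  rw [h1, h2]
  refine mul_le_mul_of_nonneg_left ?_ (by positivity)
  rw [Real.exp_neg]
  refine inv_anti₀ (by positivity) ?_
  have h3 : 1 + t ≤ Real.exp t := by linarith [Real.add_one_le_exp t]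
  have hpi := Real.pi_gt_three
  calc (1 + t) ^ 2 ≤ Real.exp t ^ 2 := pow_le_pow_left₀ (by positivity) h3 2
    _ = Real.exp (2 * t) := by rw [← Real.exp_nat_mul]; norm_num
    _ ≤ Real.exp (Real.pi * t) := Real.exp_le_exp.2 (by nlinarith)

/-- the window as a convolution -/
theorem gs_conv {σ : ℝ} (hσ : 0 < σ) (ξ : ℂ) {g : ℂ → ℂ} (hg : CC g) (x : ℂ) :
    iF (gs σ ξ g) x = ∫ η, (((σ ^ 2)⁻¹ * SynM.ga σ⁻¹ η : ℝ) : ℂ) * ch (-ξ) η * iF g (x + η) := by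
  have hσ' : 0 < σ⁻¹ := inv_pos.2 hσ
  have hga : ∀ w : ℂ, ((SynM.ga σ w : ℝ) : ℂ)
      = (((σ ^ 2)⁻¹ : ℝ) : ℂ) * ∫ η : ℂ, ch w η * (SynM.ga σ⁻¹ η : ℂ) := by
    intro w
    rw [SynM.ga_fourier hσ' w, ← Complex.ofReal_mul]
    congr 1
    unfold SynM.ga
    rw [inv_pow, one_div, inv_inv, div_inv_eq_mul]
    rw [← mul_assoc, inv_mul_cancel₀ (by positivity), one_mul]
    congr 1
    ring
  have hgi : Integrable g := hg.1.integrable_of_hasCompactSupport hg.2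
  have hprod : Integrable (fun p : ℂ × ℂ => (ch x p.1 * ch (p.1 - ξ) p.2) *
      (g p.1 * (SynM.ga σ⁻¹ p.2 : ℂ))) ((volume : Measure ℂ).prod volume) := by
    have h3 : Integrable (fun p : ℂ × ℂ => g p.1 * (SynM.ga σ⁻¹ p.2 : ℂ))
        ((volume : Measure ℂ).prod volume) :=
      Integrable.mul_prod hgi (SynM.ga_integrable hσ').ofReal
    refine h3.bdd_mul (c := 1) ?_ (Eventually.of_forall fun p => ?_)
    · have h4 : Continuous (fun p : ℂ × ℂ => ch x p.1) := (continuous_ch x).comp continuous_fst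
      have h5 : Continuous (fun p : ℂ × ℂ => ch (p.1 - ξ) p.2) :=
        continuous_ch2.comp (by fun_prop : Continuous fun p : ℂ × ℂ => (p.1 - ξ, p.2))
      exact (h4.mul h5).aestronglyMeasurable
    · rw [norm_mul, norm_ch, norm_ch, one_mul]
  calc iF (gs σ ξ g) x = ∫ ζ, ch x ζ * (((SynM.ga σ (ζ - ξ) : ℝ) : ℂ) * g ζ) := rfl
    _ = ∫ ζ, ∫ η, (((σ ^ 2)⁻¹ : ℝ) : ℂ) * ((ch x ζ * ch (ζ - ξ) η) *
        (g ζ * (SynM.ga σ⁻¹ η : ℂ))) := by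
        congr 1
        ext ζ
        rw [hga, integral_const_mul]
        have : ∀ η, (ch x ζ * ch (ζ - ξ) η) * (g ζ * (SynM.ga σ⁻¹ η : ℂ))
            = (ch x ζ * g ζ) * (ch (ζ - ξ) η * (SynM.ga σ⁻¹ η : ℂ)) := fun η => by ring
        simp only [this]
        rw [integral_const_mul]
        ring
    _ = ∫ η, ∫ ζ, (((σ ^ 2)⁻¹ : ℝ) : ℂ) * ((ch x ζ * ch (ζ - ξ) η) *
        (g ζ * (SynM.ga σ⁻¹ η : ℂ))) := by
        rw [integral_integral_swap]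
        exact hprod.const_mul _
    _ = _ := by
        congr 1
        ext η
        have : ∀ ζ, (((σ ^ 2)⁻¹ : ℝ) : ℂ) * ((ch x ζ * ch (ζ - ξ) η) *
            (g ζ * (SynM.ga σ⁻¹ η : ℂ)))
            = ((((σ ^ 2)⁻¹ * SynM.ga σ⁻¹ η : ℝ) : ℂ) * ch (-ξ) η) * (ch (x + η) ζ * g ζ) := by
          intro ζ
          rw [ch_add, sub_eq_add_neg, ch_add, ch_comm ζ η]
          push_cast
          ring
        simp only [this]
        rw [integral_const_mul]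
        rfl

theorem gs_pt (hKK : StmtKK) (hB : StmtBase) {σ : ℝ} (hσ : 0 < σ) (ξ : ℂ) {g : ℂ → ℂ}
    (hg : CC g) (x : ℂ) :
    ‖iF (gs σ ξ g) x‖ ^ 2 ≤ Real.pi * ∫ y, KK σ (x - y) * ‖iF g y‖ ^ 2 := by
  obtain ⟨hKi, hKv, -⟩ := hKK.1 _ hσ
  obtain ⟨hc, ⟨B, hBd⟩, -⟩ := hB.1 g hg
  have hw : Integrable (fun y => KK σ (x - y)) := hKi.comp_sub_left x
  have hwm : ∫ y, KK σ (x - y) = Real.pi := by
    rw [integral_sub_left_eq_self (fun y => KK σ y) volume x, hKv]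
  have h1 := LPKAux.cs_weight (fun y => KK σ (x - y)) (fun y => ‖iF g y‖) Real.pi
    Real.pi_pos hw hwm (fun y => LPKAux.kk_nonneg _ _) hc.norm B (fun y => by simpa using hBd y)
  refine le_trans (pow_le_pow_left₀ (norm_nonneg _) ?_ 2) h1
  have hi1 : Integrable (fun y => KK σ (x - y) * ‖iF g y‖) := by
    refine hw.mul_bdd (c := B) hc.norm.aestronglyMeasurable ?_
    exact Eventually.of_forall fun y => by simpa using hBd y
  have h2 : ∫ y, KK σ (x - y) * ‖iF g y‖ = ∫ η, KK σ η * ‖iF g (x + η)‖ := by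
    rw [← integral_add_left_eq_self (fun y => KK σ (x - y) * ‖iF g y‖) x]
    congr 1
    ext η
    rw [sub_add_cancel_left, AvAux.kk_neg]
  have hi2 : Integrable (fun η => KK σ η * ‖iF g (x + η)‖) := by
    have h3 := hi1.comp_add_left x
    refine h3.congr (Eventually.of_forall fun η => ?_)
    simp only [sub_add_cancel_left, AvAux.kk_neg]
  rw [gs_conv hσ ξ hg x, h2]
  refine norm_integral_le_of_norm_le hi2 (Eventually.of_forall fun η => ?_)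
  rw [norm_mul, norm_mul, norm_ch, mul_one, Complex.norm_real, Real.norm_eq_abs,
    abs_of_nonneg (mul_nonneg (by positivity) (SynM.ga_pos _ _).le)]
  exact mul_le_mul_of_nonneg_right (ga_kk hσ η) (norm_nonneg _)

/-! ### averages of averages -/

open scoped ENNReal in
theorem conv_av (hKK : StmtKK) : ∃ C, 0 < C ∧ ∀ (ρ σ : ℝ) (φ : ℂ → ℝ) (x : ℂ), 0 < ρ → ρ ≤ σ →
    Integrable φ → Measurable φ → (∀ y, 0 ≤ φ y) →
    Integrable (fun y => ∫ z, KK ρ (y - z) * φ z) ∧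
    ∫ y, KK σ (x - y) * (∫ z, KK ρ (y - z) * φ z) ≤ C * ∫ z, KK σ (x - z) * φ z := by
  obtain ⟨C, hC0, hC⟩ := hKK.2.1
  refine ⟨C, hC0, fun ρ σ φ x hρ hρσ hφ hφm hφ0 => ?_⟩
  have hσ : 0 < σ := hρ.trans_le hρσ
  set q : ℂ → ℝ := fun y => ∫ z, KK ρ (y - z) * φ z with hq
  have hq0 : ∀ y, 0 ≤ q y := fun y =>
    integral_nonneg fun z => mul_nonneg (AvAux.kk_nonneg _ _) (hφ0 z)
  have hQ : ∀ y, ENNReal.ofReal (q y)
      = ∫⁻ z, ENNReal.ofReal (KK ρ (y - z)) * ENNReal.ofReal (φ z) := fun y =>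
    AvAux.of_av hKK hρ hφ hφ0 y
  have hφe : Measurable (fun z => ENNReal.ofReal (φ z)) := hφm.ennreal_ofReal
  have hqm : Measurable q := by
    have h1 : q = fun y =>
        (∫⁻ z, ENNReal.ofReal (KK ρ (y - z)) * ENNReal.ofReal (φ z)).toReal := by
      ext y
      rw [← hQ y, ENNReal.toReal_ofReal (hq0 y)]
    rw [h1]
    exact (AvAux.av_meas hρ hφe).ennreal_toReal
  have hqi : Integrable q := by
    refine (lintegral_ofReal_ne_top_iff_integrable hqm.aestronglyMeasurable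
      (Eventually.of_forall hq0)).1 ?_
    simp only [hQ]
    rw [AvAux.av_lint hKK hρ hφe]
    refine ENNReal.mul_ne_top ENNReal.ofReal_ne_top ?_
    exact (lintegral_ofReal_ne_top_iff_integrable hφ.1 (Eventually.of_forall hφ0)).2 hφ
  refine ⟨hqi, ?_⟩
  have h0 : 0 ≤ ∫ z, KK σ (x - z) * φ z :=
    integral_nonneg fun z => mul_nonneg (AvAux.kk_nonneg _ _) (hφ0 z)
  rw [← ENNReal.ofReal_le_ofReal_iff (by positivity), AvAux.of_av hKK hσ hqi hq0 x,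
    ENNReal.ofReal_mul hC0.le, AvAux.of_av hKK hσ hφ hφ0 x]
  simp only [hQ]
  have h2 : ∀ y, ENNReal.ofReal (KK σ (x - y)) *
      ∫⁻ z, ENNReal.ofReal (KK ρ (y - z)) * ENNReal.ofReal (φ z)
      = ∫⁻ z, ENNReal.ofReal (KK σ (x - y)) *
        (ENNReal.ofReal (KK ρ (y - z)) * ENNReal.ofReal (φ z)) := fun y => by
    rw [lintegral_const_mul]
    exact (AvAux.kk_meas hρ y).mul hφe
  simp only [h2]
  rw [lintegral_lintegral_swap]
  · have hm2 : Measurable (fun z => ENNReal.ofReal (KK σ (x - z)) * ENNReal.ofReal (φ z)) :=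
      (AvAux.kk_meas hσ x).mul hφe
    rw [← lintegral_const_mul _ hm2]
    refine lintegral_mono fun z => ?_
    have h3 : ∀ y, ENNReal.ofReal (KK σ (x - y)) *
        (ENNReal.ofReal (KK ρ (y - z)) * ENNReal.ofReal (φ z))
        = ENNReal.ofReal (KK σ (x - y) * KK ρ (y - z)) * ENNReal.ofReal (φ z) := fun y => by
      rw [ENNReal.ofReal_mul (AvAux.kk_nonneg _ _), mul_assoc]
    simp only [h3]
    have hki : Integrable (fun y => KK ρ (y - z)) := (hKK.1 ρ hρ).1.comp_sub_right z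
    have h4 : Integrable (fun y => KK σ (x - y) * KK ρ (y - z)) := AvAux.kk_mul_int hKK hσ hki x
    rw [lintegral_mul_const _ (by
      have h5 : Continuous (fun y => KK σ (x - y) * KK ρ (y - z)) :=
        ((AvAux.kk_cont hσ).comp (by fun_prop : Continuous fun y : ℂ => x - y)).mul
          ((AvAux.kk_cont hρ).comp (by fun_prop : Continuous fun y : ℂ => y - z))
      exact h5.measurable.ennreal_ofReal), ← mul_assoc]
    refine mul_le_mul_left ?_ _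
    rw [← ofReal_integral_eq_lintegral_ofReal h4 (Eventually.of_forall fun y =>
      mul_nonneg (AvAux.kk_nonneg _ _) (AvAux.kk_nonneg _ _)), ← ENNReal.ofReal_mul hC0.le]
    refine ENNReal.ofReal_le_ofReal ?_
    refine le_trans (le_of_eq ?_) (hC ρ σ hρ hρσ (x - z))
    rw [← integral_add_right_eq_self (fun y => KK σ (x - y) * KK ρ (y - z)) z]
    congr 1
    ext y
    rw [add_sub_cancel_right, mul_comm]
    congr 2
    ring
  · have h5 : Measurable (fun p : ℂ × ℂ => ENNReal.ofReal (KK σ (x - p.1))) :=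
      (AvAux.kk_meas hσ x).comp measurable_fst
    exact (h5.mul ((AvAux.kk_meas2 hρ).mul (hφe.comp measurable_snd))).aemeasurable

/-! ### the shells -/

theorem qa_nonneg (i : ℤ) (g : ℂ → ℂ) (x : ℂ) : 0 ≤ qa i g x :=
  integral_nonneg fun y => mul_nonneg (AvAux.kk_nonneg _ _) (by positivity)

theorem pow1 (i : ℤ) : (2 : ℝ) ^ (i + 1) = 2 * (2 : ℝ) ^ i := by
  rw [zpow_add₀ (by norm_num)]; norm_num; ring

theorem pow4 (i : ℤ) : (4 : ℝ) ^ i = ((2 : ℝ) ^ i) ^ 2 := by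
  rw [show (4 : ℝ) = 2 * 2 by norm_num, mul_zpow, sq]

theorem norm_scale (i : ℤ) (ζ : ℂ) : ‖((2 : ℝ) ^ i)⁻¹ • ζ‖ = ‖ζ‖ / (2 : ℝ) ^ i := by
  have h2 : (0 : ℝ) < (2 : ℝ) ^ i := by positivity
  rw [norm_smul, norm_inv, Real.norm_eq_abs, abs_of_pos h2, inv_mul_eq_div]

theorem sh_ne (hF : StmtFac) {i : ℤ} {ζ : ℂ} (h : sh i ζ ≠ 0) :
    1 ≤ ‖((2 : ℝ) ^ i)⁻¹ • ζ‖ ∧ ‖((2 : ℝ) ^ i)⁻¹ • ζ‖ ≤ 4 := by
  have h2 : (0 : ℝ) < (2 : ℝ) ^ i := by positivity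
  rw [norm_scale]
  constructor
  · by_contra hc
    rw [not_le, div_lt_one h2] at hc
    refine h ?_
    unfold sh bd
    rw [hF.2.1 i ζ hc.le, hF.2.1 (i + 1) ζ (by rw [pow1]; linarith), sub_self]
  · by_contra hc
    rw [not_le, lt_div_iff₀ h2] at hc
    refine h ?_
    unfold sh bd
    rw [hF.2.2.1 i ζ (by nlinarith), hF.2.2.1 (i + 1) ζ (by rw [pow1]; nlinarith), sub_self]

/-- the cutoffs -/
def Good (L : ℂ → ℝ) : Prop := ContDiff ℝ ∞ L ∧ (∀ z, 8 < ‖z‖ → L z = 0) ∧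
  ∀ z, 1 ≤ ‖z‖ → ‖z‖ ≤ 4 → L z = 1

theorem good_lo (hF : StmtFac) : Good (lo 2) := by
  refine ⟨hF.2.2.2.1 2 ⊤, fun z hz => hF.2.2.1 2 z ?_, fun z _ h => hF.2.1 2 z ?_⟩
  · norm_num
    nlinarith
  · norm_num
    exact h

theorem good_bd (hF : StmtFac) : Good (bd (-1) 2) := by
  refine ⟨(hF.2.2.2.1 2 ⊤).sub (hF.2.2.2.1 (-1) ⊤), fun z hz => ?_, fun z h1 h => ?_⟩
  · unfold bd
    rw [hF.2.2.1 2 z (by norm_num; nlinarith), hF.2.2.1 (-1) z (by norm_num; nlinarith), sub_self]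
  · unfold bd
    rw [hF.2.1 2 z (by norm_num; exact h), hF.2.2.1 (-1) z (by norm_num; nlinarith), sub_zero]

theorem lo_ne (hF : StmtFac) {z : ℂ} (h : lo 2 z ≠ 0) : ‖z‖ ≤ 6 := by
  by_contra hc
  rw [not_le] at hc
  exact h (hF.2.2.1 2 z (by norm_num; nlinarith))

theorem lo0_ne (hF : StmtFac) {z : ℂ} (h : lo 0 z ≠ 0) : ‖z‖ ≤ 3 / 2 := by
  by_contra hc
  rw [not_le] at hc
  exact h (hF.2.2.1 0 z (by norm_num; nlinarith))

theorem bd_ne (hF : StmtFac) {z : ℂ} (h : bd (-1) 2 z ≠ 0) : 1 / 2 ≤ ‖z‖ := by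
  by_contra hc
  rw [not_le] at hc
  refine h ?_
  unfold bd
  rw [hF.2.1 2 z (by norm_num; linarith), hF.2.1 (-1) z (by norm_num; linarith), sub_self]

theorem good_re {L : ℂ → ℝ} (h : Good L) : ContDiff ℝ ∞ (fun z : ℂ => z.re * L z) ∧
    ∀ z : ℂ, 8 < ‖z‖ → z.re * L z = 0 :=
  ⟨(Complex.reCLM.contDiff).mul h.1, fun z hz => by rw [h.2.1 z hz, mul_zero]⟩

theorem good_im {L : ℂ → ℝ} (h : Good L) : ContDiff ℝ ∞ (fun z : ℂ => z.im * L z) ∧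
    ∀ z : ℂ, 8 < ‖z‖ → z.im * L z = 0 :=
  ⟨(Complex.imCLM.contDiff).mul h.1, fun z hz => by rw [h.2.1 z hz, mul_zero]⟩

/-- multiplication by a scaled bump -/
noncomputable def mb (χ : ℂ → ℝ) (i : ℤ) (f : ℂ → ℂ) (ζ : ℂ) : ℂ :=
  ((χ (((2 : ℝ) ^ i)⁻¹ • ζ) : ℝ) : ℂ) * f ζ

theorem mb_cc {χ : ℂ → ℝ} (h : Continuous χ) (i : ℤ) {f : ℂ → ℂ} (hf : CC f) : CC (mb χ i f) := by
  refine ⟨?_, hf.2.mul_left⟩
  have h1 : Continuous (fun ζ : ℂ => χ (((2 : ℝ) ^ i)⁻¹ • ζ)) := h.comp (by fun_prop)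
  exact (Complex.continuous_ofReal.comp h1).mul hf.1

theorem mb_one (hF : StmtFac) {L : ℂ → ℝ} (hL : Good L) (i : ℤ) (g : ℂ → ℂ) :
    mb L i (cut (sh i) g) = cut (sh i) g := by
  ext ζ
  unfold mb cut
  by_cases h : sh i ζ = 0
  · rw [h]; simp
  · obtain ⟨h1, h2⟩ := sh_ne hF h
    rw [hL.2.2 _ h1 h2]
    simp

theorem mb_dr (hF : StmtFac) {L : ℂ → ℝ} (hL : Good L) (i : ℤ) (e : ℂ) (g : ℂ → ℂ) :
    dr e (cut (sh i) g) = fun ζ =>
      (2 * (Real.pi : ℂ) * Complex.I * ((2 : ℝ) ^ i * e.re : ℝ)) *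
        mb (fun z => z.re * L z) i (cut (sh i) g) ζ +
      (2 * (Real.pi : ℂ) * Complex.I * ((2 : ℝ) ^ i * e.im : ℝ)) *
        mb (fun z => z.im * L z) i (cut (sh i) g) ζ := by
  ext ζ
  unfold dr mb cut
  have h2 : (2 : ℝ) ^ i ≠ 0 := by positivity
  by_cases h : sh i ζ = 0
  · rw [h]; simp
  · obtain ⟨h1, h3⟩ := sh_ne hF h
    have e1 : (((2 : ℝ) ^ i)⁻¹ • ζ).re = ((2 : ℝ) ^ i)⁻¹ * ζ.re := by
      rw [Complex.smul_re, smul_eq_mul]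
    have e2 : (((2 : ℝ) ^ i)⁻¹ • ζ).im = ((2 : ℝ) ^ i)⁻¹ * ζ.im := by
      rw [Complex.smul_im, smul_eq_mul]
    simp only [hL.2.2 _ h1 h3, e1, e2, mul_one]
    have e3 : ((e.re * ζ.re + e.im * ζ.im : ℝ) : ℂ)
        = ((2 : ℝ) ^ i * e.re : ℝ) * ((((2 : ℝ) ^ i)⁻¹ * ζ.re : ℝ) : ℂ)
          + ((2 : ℝ) ^ i * e.im : ℝ) * ((((2 : ℝ) ^ i)⁻¹ * ζ.im : ℝ) : ℂ) := by
      rw [← Complex.ofReal_mul, ← Complex.ofReal_mul, ← Complex.ofReal_add]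
      congr 1
      field_simp
    rw [e3]
    ring

/-- the norm of a combination -/
theorem iF_comb (hB : StmtBase) {u v : ℂ → ℂ} (hu : CC u) (hv : CC v) (c d : ℂ) (x : ℂ) {K : ℝ}
    (hc : ‖c‖ ^ 2 ≤ K) (hd : ‖d‖ ^ 2 ≤ K) :
    ‖iF (fun ζ => c * u ζ + d * v ζ) x‖ ^ 2 ≤ 2 * K * (‖iF u x‖ ^ 2 + ‖iF v x‖ ^ 2) := by
  have hsm : ∀ (c : ℂ) (u : ℂ → ℂ), iF (fun ζ => c * u ζ) x = c * iF u x := fun c u => by
    unfold iF
    rw [← integral_const_mul]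
    congr 1
    ext ζ
    ring
  have hcu : CC (fun ζ => c * u ζ) := ⟨continuous_const.mul hu.1, hu.2.mul_left⟩
  have hdv : CC (fun ζ => d * v ζ) := ⟨continuous_const.mul hv.1, hv.2.mul_left⟩
  rw [hB.2.2.2.2.1 _ _ hcu hdv x, hsm, hsm]
  have h1 : ‖c * iF u x + d * iF v x‖ ≤ ‖c‖ * ‖iF u x‖ + ‖d‖ * ‖iF v x‖ := by
    rw [← norm_mul, ← norm_mul]
    exact norm_add_le _ _
  have h2 := pow_le_pow_left₀ (norm_nonneg _) h1 2
  have h3 := mul_le_mul_of_nonneg_right hc (sq_nonneg ‖iF u x‖)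
  have h4 := mul_le_mul_of_nonneg_right hd (sq_nonneg ‖iF v x‖)
  nlinarith [sq_nonneg (‖c‖ * ‖iF u x‖ - ‖d‖ * ‖iF v x‖)]

theorem coef_le (i : ℤ) {s : ℝ} (hs : |s| ≤ 1) :
    ‖(2 * (Real.pi : ℂ) * Complex.I * (((2 : ℝ) ^ i * s : ℝ) : ℂ))‖ ^ 2
      ≤ (2 * Real.pi) ^ 2 * (4 : ℝ) ^ i := by
  have h2 : (0 : ℝ) < (2 : ℝ) ^ i := by positivity
  rw [norm_mul, norm_mul, norm_mul, Complex.norm_I, Complex.norm_real, Complex.norm_real,
    Real.norm_eq_abs, Real.norm_eq_abs, abs_mul, abs_of_pos h2, abs_of_pos Real.pi_pos, pow4]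
  have h3 : |s| ^ 2 ≤ 1 := by
    have := pow_le_pow_left₀ (abs_nonneg s) hs 2
    simpa using this
  have h4 : ‖(2 : ℂ)‖ = 2 := by simp
  rw [h4]
  have h5 : 0 ≤ (2 * Real.pi) ^ 2 * ((2 : ℝ) ^ i) ^ 2 := by positivity
  calc (2 * Real.pi * 1 * ((2 : ℝ) ^ i * |s|)) ^ 2
      = ((2 * Real.pi) ^ 2 * ((2 : ℝ) ^ i) ^ 2) * |s| ^ 2 := by ring
    _ ≤ ((2 * Real.pi) ^ 2 * ((2 : ℝ) ^ i) ^ 2) * 1 := mul_le_mul_of_nonneg_left h3 h5
    _ = _ := by ring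

/-- the shells through a window far away -/
theorem shell (hM : StmtMul) (hB : StmtBase) (hF : StmtFac) {L : ℂ → ℝ} (hL : Good L) :
    ∃ C, 0 < C ∧ ∀ (σ R : ℝ) (i : ℤ) (ξ : ℂ) (g : ℂ → ℂ) (x e : ℂ), 0 < σ → (2 : ℝ) ^ i ≤ R →
    (∀ ζ, L (((2 : ℝ) ^ i)⁻¹ • ζ) ≠ 0 → 1 / 8 * R ≤ ‖ζ - ξ‖) → CC g → ‖e‖ ≤ 1 →
    ‖iF (gs σ ξ (cut (sh i) g)) x‖ ^ 2
      ≤ C * (Real.exp (-(1 / 32 * σ ^ 2 * R ^ 2)) * qa i g x) ∧
    ‖iF (gs σ ξ (dr e (cut (sh i) g))) x‖ ^ 2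
      ≤ C * ((4 : ℝ) ^ i * (Real.exp (-(1 / 32 * σ ^ 2 * R ^ 2)) * qa i g x)) := by
  obtain ⟨C₀, hC₀, h₀⟩ := bump_pt hM hL.1 hL.2.1
  obtain ⟨C₁, hC₁, h₁⟩ := bump_pt hM (good_re hL).1 (good_re hL).2
  obtain ⟨C₂, hC₂, h₂⟩ := bump_pt hM (good_im hL).1 (good_im hL).2
  refine ⟨C₀ + 2 * (2 * Real.pi) ^ 2 * (C₁ + C₂), by positivity,
    fun σ R i ξ g x e hσ hR hsup hg he => ?_⟩
  have hf : CC (cut (sh i) g) := (hF.2.2.2.2.1 g i i hg).2.2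
  set X : ℝ := Real.exp (-(1 / 32 * σ ^ 2 * R ^ 2)) * qa i g x with hX
  have hX0 : 0 ≤ X := mul_nonneg (Real.exp_pos _).le (qa_nonneg _ _ _)
  have h4 : (0 : ℝ) < (4 : ℝ) ^ i := by positivity
  constructor
  · have h3 := h₀ σ R i ξ _ x hσ hR hsup hf
    rw [mul_assoc] at h3
    have h5 : (fun ζ => ((L (((2 : ℝ) ^ i)⁻¹ • ζ) : ℝ) : ℂ) * cut (sh i) g ζ) = cut (sh i) g :=
      mb_one hF hL i g
    rw [h5] at h3
    refine h3.trans (mul_le_mul_of_nonneg_right ?_ hX0)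
    have : 0 ≤ 2 * (2 * Real.pi) ^ 2 * (C₁ + C₂) := by positivity
    linarith
  · have h5 := h₁ σ R i ξ _ x hσ hR (fun ζ hζ => hsup ζ (right_ne_zero_of_mul hζ)) hf
    have h6 := h₂ σ R i ξ _ x hσ hR (fun ζ hζ => hsup ζ (right_ne_zero_of_mul hζ)) hf
    rw [mul_assoc] at h5 h6
    have h7 : gs σ ξ (dr e (cut (sh i) g)) = fun ζ =>
        (2 * (Real.pi : ℂ) * Complex.I * ((2 : ℝ) ^ i * e.re : ℝ)) *
          gs σ ξ (mb (fun z => z.re * L z) i (cut (sh i) g)) ζ +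
        (2 * (Real.pi : ℂ) * Complex.I * ((2 : ℝ) ^ i * e.im : ℝ)) *
          gs σ ξ (mb (fun z => z.im * L z) i (cut (sh i) g)) ζ := by
      rw [mb_dr hF hL]
      ext ζ
      unfold gs
      ring
    rw [h7]
    have h8 := iF_comb hB (gs_cc (σ := σ) (ξ := ξ) (mb_cc (good_re hL).1.continuous i hf))
      (gs_cc (σ := σ) (ξ := ξ) (mb_cc (good_im hL).1.continuous i hf))
      (2 * (Real.pi : ℂ) * Complex.I * ((2 : ℝ) ^ i * e.re : ℝ))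
      (2 * (Real.pi : ℂ) * Complex.I * ((2 : ℝ) ^ i * e.im : ℝ)) x
      (coef_le i ((Complex.abs_re_le_norm e).trans he))
      (coef_le i ((Complex.abs_im_le_norm e).trans he))
    refine h8.trans ?_
    have h9 : ‖iF (gs σ ξ (mb (fun z => z.re * L z) i (cut (sh i) g))) x‖ ^ 2 +
        ‖iF (gs σ ξ (mb (fun z => z.im * L z) i (cut (sh i) g))) x‖ ^ 2 ≤ (C₁ + C₂) * X := by
      rw [add_mul]
      exact add_le_add h5 h6
    calc 2 * ((2 * Real.pi) ^ 2 * (4 : ℝ) ^ i) *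
          (‖iF (gs σ ξ (mb (fun z => z.re * L z) i (cut (sh i) g))) x‖ ^ 2 +
            ‖iF (gs σ ξ (mb (fun z => z.im * L z) i (cut (sh i) g))) x‖ ^ 2)
        ≤ 2 * ((2 * Real.pi) ^ 2 * (4 : ℝ) ^ i) * ((C₁ + C₂) * X) :=
          mul_le_mul_of_nonneg_left h9 (by positivity)
      _ = (2 * (2 * Real.pi) ^ 2 * (C₁ + C₂)) * ((4 : ℝ) ^ i * X) := by ring
      _ ≤ _ := by
          refine mul_le_mul_of_nonneg_right ?_ (by positivity)
          linarith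

/-- the derivative of a shell, without window -/
theorem shell_dr (hM : StmtMul) (hB : StmtBase) (hF : StmtFac) :
    ∃ C, 0 < C ∧ ∀ (i : ℤ) (g : ℂ → ℂ) (x e : ℂ), CC g → ‖e‖ ≤ 1 →
    CC (dr e (cut (sh i) g)) ∧
    ‖iF (dr e (cut (sh i) g)) x‖ ^ 2 ≤ C * ((4 : ℝ) ^ i * qa i g x) := by
  have hL := good_lo hF
  obtain ⟨C₁, hC₁, h₁⟩ := bump_pt0 hM (good_re hL).1 (good_re hL).2
  obtain ⟨C₂, hC₂, h₂⟩ := bump_pt0 hM (good_im hL).1 (good_im hL).2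
  refine ⟨2 * (2 * Real.pi) ^ 2 * (C₁ + C₂), by positivity, fun i g x e hg he => ?_⟩
  have hf : CC (cut (sh i) g) := (hF.2.2.2.2.1 g i i hg).2.2
  have h4 : (0 : ℝ) < (4 : ℝ) ^ i := by positivity
  refine ⟨⟨?_, hf.2.mul_left⟩, ?_⟩
  · have := hf.1
    unfold dr
    fun_prop
  have h5 := h₁ i _ x hf
  have h6 := h₂ i _ x hf
  rw [mb_dr hF hL]
  have h8 := iF_comb hB (mb_cc (good_re hL).1.continuous i hf)
    (mb_cc (good_im hL).1.continuous i hf)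
    (2 * (Real.pi : ℂ) * Complex.I * ((2 : ℝ) ^ i * e.re : ℝ))
    (2 * (Real.pi : ℂ) * Complex.I * ((2 : ℝ) ^ i * e.im : ℝ)) x
    (coef_le i ((Complex.abs_re_le_norm e).trans he))
    (coef_le i ((Complex.abs_im_le_norm e).trans he))
  refine h8.trans ?_
  have h9 : ‖iF (mb (fun z => z.re * lo 2 z) i (cut (sh i) g)) x‖ ^ 2 +
      ‖iF (mb (fun z => z.im * lo 2 z) i (cut (sh i) g)) x‖ ^ 2 ≤ (C₁ + C₂) * qa i g x := by
    rw [add_mul]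
    exact add_le_add h5 h6
  calc 2 * ((2 * Real.pi) ^ 2 * (4 : ℝ) ^ i) *
        (‖iF (mb (fun z => z.re * lo 2 z) i (cut (sh i) g)) x‖ ^ 2 +
          ‖iF (mb (fun z => z.im * lo 2 z) i (cut (sh i) g)) x‖ ^ 2)
      ≤ 2 * ((2 * Real.pi) ^ 2 * (4 : ℝ) ^ i) * ((C₁ + C₂) * qa i g x) :=
        mul_le_mul_of_nonneg_left h9 (by positivity)
    _ = (2 * (2 * Real.pi) ^ 2 * (C₁ + C₂)) * ((4 : ℝ) ^ i * qa i g x) := by ring

/-- from the scale of the window to the scale of the shell -/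
theorem kk_up (hKK : StmtKK) (hB : StmtBase) (hF : StmtFac) (i : ℤ) {g : ℂ → ℂ} (hg : CC g)
    (x : ℂ) {σ : ℝ} (h : 1 ≤ σ * (2 : ℝ) ^ i) :
    ∫ y, KK σ (x - y) * ‖iF (cut (sh i) g) y‖ ^ 2 ≤ (σ * (2 : ℝ) ^ i) ^ 2 * qa i g x := by
  have h2 : (0 : ℝ) < (2 : ℝ) ^ i := by positivity
  have hσ : 0 < σ := by
    by_contra hc
    rw [not_lt] at hc
    nlinarith
  have hρ : (0 : ℝ) < (2 : ℝ) ^ (-i) := by positivity
  have hf : CC (cut (sh i) g) := (hF.2.2.2.2.1 g i i hg).2.2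
  have hi := AvAux.sq_int hB hf
  unfold qa
  rw [← integral_const_mul]
  refine integral_mono (AvAux.kk_mul_int hKK hσ hi x)
    ((AvAux.kk_mul_int hKK hρ hi x).const_mul _) fun y => ?_
  show KK σ (x - y) * ‖iF (cut (sh i) g) y‖ ^ 2
    ≤ (σ * (2 : ℝ) ^ i) ^ 2 * (KK ((2 : ℝ) ^ (-i)) (x - y) * ‖iF (cut (sh i) g) y‖ ^ 2)
  rw [← mul_assoc]
  refine mul_le_mul_of_nonneg_right ?_ (by positivity)
  have h3 := hKK.2.2.2 ((2 : ℝ) ^ (-i)) (σ * (2 : ℝ) ^ i) hρ h (x - y)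
  have h4 : σ * (2 : ℝ) ^ i * (2 : ℝ) ^ (-i) = σ := by
    rw [mul_assoc, ← zpow_add₀ (by norm_num), add_neg_cancel, zpow_zero, mul_one]
  rw [h4] at h3
  exact h3

end WinBAux

open WinBAux

/-- (WinB) -/
theorem winB (_hS : StmtSch) (hM : StmtMul) (_hK : StmtKKm) (hKK : Four.StmtKK)
    (hB : Four.StmtBase) (hF : Four.StmtFac) : StmtWinB := by
  obtain ⟨C₁, hC₁, h₁⟩ := shell hM hB hF (good_lo hF)
  obtain ⟨C₂, hC₂, h₂⟩ := shell hM hB hF (good_bd hF)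
  obtain ⟨C₃, hC₃, h₃⟩ := bump_pt hM (χ := lo 0) (hF.2.2.2.1 0 ⊤)
    (fun z hz => hF.2.2.1 0 z (by norm_num; nlinarith))
  obtain ⟨C₄, hC₄, h₄⟩ := shell_dr hM hB hF
  obtain ⟨C₅, hC₅, h₅⟩ := conv_av hKK
  have hpi := Real.pi_pos
  set D : ℝ := C₁ + C₂ + C₃ + Real.pi + Real.pi * (C₄ * C₅) with hD
  have hD1 : C₁ ≤ D := by have : 0 < Real.pi * (C₄ * C₅) := by positivity
                          linarith
  have hD2 : C₂ ≤ D := by have : 0 < Real.pi * (C₄ * C₅) := by positivity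
                          linarith
  have hD3 : C₃ ≤ D := by have : 0 < Real.pi * (C₄ * C₅) := by positivity
                          linarith
  have hD4 : Real.pi ≤ D := by have : 0 < Real.pi * (C₄ * C₅) := by positivity
                               linarith
  have hD5 : Real.pi * (C₄ * C₅) ≤ D := by linarith
  refine ⟨D, 1 / 32, by positivity, by norm_num, fun σ ξ g x hσ hg => ?_,
    fun σ i ξ g x e hσ hg he => ⟨fun h8 h1 => ?_, fun h4 h1 => ?_, fun h1 => ?_, fun h1 h38 => ?_⟩⟩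
  · refine (gs_pt hKK hB hσ ξ hg x).trans (mul_le_mul_of_nonneg_right hD4 ?_)
    exact integral_nonneg fun y => mul_nonneg (AvAux.kk_nonneg _ _) (by positivity)
  · have h2 : (0 : ℝ) < (2 : ℝ) ^ i := by positivity
    have h3 := h₁ σ ‖ξ‖ i ξ g x e hσ (by linarith) (fun ζ hζ => by
      have h5 := lo_ne hF hζ
      rw [norm_scale, div_le_iff₀ h2] at h5
      have h6 : ‖ξ‖ ≤ ‖ζ - ξ‖ + ‖ζ‖ := by
        have := norm_sub_norm_le ξ ζ
        rw [norm_sub_rev] at this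
        linarith
      linarith) hg he
    have hX : 0 ≤ Real.exp (-(1 / 32 * σ ^ 2 * ‖ξ‖ ^ 2)) * qa i g x :=
      mul_nonneg (Real.exp_pos _).le (qa_nonneg _ _ _)
    constructor
    · rw [mul_assoc]
      exact h3.1.trans (mul_le_mul_of_nonneg_right hD1 hX)
    · rw [mul_assoc, mul_assoc]
      exact h3.2.trans (mul_le_mul_of_nonneg_right hD1 (mul_nonneg (by positivity) hX))
  · have h2 : (0 : ℝ) < (2 : ℝ) ^ i := by positivity
    have h3 := h₃ σ ‖ξ‖ i ξ g x hσ (by linarith) (fun ζ hζ => by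
      have h5 := lo0_ne hF hζ
      rw [norm_scale, div_le_iff₀ h2] at h5
      have h6 : ‖ξ‖ ≤ ‖ζ - ξ‖ + ‖ζ‖ := by
        have := norm_sub_norm_le ξ ζ
        rw [norm_sub_rev] at this
        linarith
      linarith) hg
    have h5 : (fun ζ => ((lo 0 (((2 : ℝ) ^ i)⁻¹ • ζ) : ℝ) : ℂ) * g ζ) = cut (lo i) g := by
      ext ζ
      unfold cut
      rw [lo_scale i ζ]
    rw [h5] at h3
    refine h3.trans (mul_le_mul_of_nonneg_right (mul_le_mul_of_nonneg_right hD3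
      (Real.exp_pos _).le) ?_)
    exact integral_nonneg fun y => mul_nonneg (AvAux.kk_nonneg _ _) (by positivity)
  · have h2 : (0 : ℝ) < (2 : ℝ) ^ i := by positivity
    have hf : CC (cut (sh i) g) := (hF.2.2.2.2.1 g i i hg).2.2
    have hup := kk_up hKK hB hF i hg x h1
    have hX : 0 ≤ (σ * (2 : ℝ) ^ i) ^ 2 * qa i g x :=
      mul_nonneg (sq_nonneg _) (qa_nonneg _ _ _)
    constructor
    · rw [mul_assoc]
      refine (gs_pt hKK hB hσ ξ hf x).trans ?_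
      calc Real.pi * ∫ y, KK σ (x - y) * ‖iF (cut (sh i) g) y‖ ^ 2
          ≤ Real.pi * ((σ * (2 : ℝ) ^ i) ^ 2 * qa i g x) :=
            mul_le_mul_of_nonneg_left hup hpi.le
        _ ≤ _ := mul_le_mul_of_nonneg_right hD4 hX
    · have hρ : (0 : ℝ) < (2 : ℝ) ^ (-i) := by positivity
      have hρσ : (2 : ℝ) ^ (-i) ≤ σ := by
        rw [zpow_neg, inv_le_iff_one_le_mul₀ h2]
        exact h1
      have hi := AvAux.sq_int hB hf
      have hm : Measurable (fun y => ‖iF (cut (sh i) g) y‖ ^ 2) :=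
        ((hB.1 _ hf).1.norm.pow 2).measurable
      obtain ⟨hq1, hq2⟩ := h₅ _ σ _ x hρ hρσ hi hm (fun y => by positivity)
      have hdr := fun y => h₄ i g y e hg he
      refine (gs_pt hKK hB hσ ξ (hdr 0).1 x).trans ?_
      have h6 : ∫ y, KK σ (x - y) * ‖iF (dr e (cut (sh i) g)) y‖ ^ 2
          ≤ ∫ y, (C₄ * (4 : ℝ) ^ i) * (KK σ (x - y) * qa i g y) := by
        refine integral_mono (AvAux.kk_mul_int hKK hσ (AvAux.sq_int hB (hdr 0).1) x)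
          ((AvAux.kk_mul_int hKK hσ hq1 x).const_mul _) fun y => ?_
        show KK σ (x - y) * ‖iF (dr e (cut (sh i) g)) y‖ ^ 2
          ≤ (C₄ * (4 : ℝ) ^ i) * (KK σ (x - y) * qa i g y)
        calc KK σ (x - y) * ‖iF (dr e (cut (sh i) g)) y‖ ^ 2
            ≤ KK σ (x - y) * (C₄ * ((4 : ℝ) ^ i * qa i g y)) :=
              mul_le_mul_of_nonneg_left (hdr y).2 (AvAux.kk_nonneg _ _)
          _ = _ := by ring
      rw [integral_const_mul] at h6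
      have h4i : (0 : ℝ) < (4 : ℝ) ^ i := by positivity
      calc Real.pi * ∫ y, KK σ (x - y) * ‖iF (dr e (cut (sh i) g)) y‖ ^ 2
          ≤ Real.pi * ((C₄ * (4 : ℝ) ^ i) * (C₅ * ((σ * (2 : ℝ) ^ i) ^ 2 * qa i g x))) := by
            refine mul_le_mul_of_nonneg_left (h6.trans ?_) hpi.le
            refine mul_le_mul_of_nonneg_left ?_ (by positivity)
            exact hq2.trans (mul_le_mul_of_nonneg_left hup hC₅.le)
        _ = (Real.pi * (C₄ * C₅)) * ((4 : ℝ) ^ i * ((σ * (2 : ℝ) ^ i) ^ 2 * qa i g x)) := by ring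
        _ ≤ D * ((4 : ℝ) ^ i * ((σ * (2 : ℝ) ^ i) ^ 2 * qa i g x)) :=
            mul_le_mul_of_nonneg_right hD5 (mul_nonneg h4i.le hX)
        _ = _ := by ring
  · have h2 : (0 : ℝ) < (2 : ℝ) ^ i := by positivity
    have h3 := h₂ σ ((2 : ℝ) ^ i) i ξ g x e hσ le_rfl (fun ζ hζ => by
      have h5 := bd_ne hF hζ
      rw [norm_scale, le_div_iff₀ h2] at h5
      have h6 : ‖ζ‖ ≤ ‖ζ - ξ‖ + ‖ξ‖ := by
        have := norm_sub_norm_le ζ ξ
        linarith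
      linarith) hg he
    have hX : 0 ≤ Real.exp (-(1 / 32 * σ ^ 2 * ((2 : ℝ) ^ i) ^ 2)) * qa i g x :=
      mul_nonneg (Real.exp_pos _).le (qa_nonneg _ _ _)
    have h5 : 1 / 32 * (σ * (2 : ℝ) ^ i) ^ 2 = 1 / 32 * σ ^ 2 * ((2 : ℝ) ^ i) ^ 2 := by ring
    rw [h5]
    constructor
    · rw [mul_assoc]
      exact h3.1.trans (mul_le_mul_of_nonneg_right hD2 hX)
    · rw [mul_assoc, mul_assoc]
      exact h3.2.trans (mul_le_mul_of_nonneg_right hD2 (mul_nonneg (by positivity) hX))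

end Pool.Agent.Lib.MP_dd244f_an.Rp
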