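import Pool.Agent.Lib.MP_dd244f_an.Unif.All
import Pool.Agent.Lib.MP_dd244f_an.Rp.Sch
import Pool.Agent.Lib.MP_dd244f_an.Rp.Dcy
import Pool.Agent.Lib.MP_dd244f_an.Rp.Pow
import Pool.Agent.Lib.MP_dd244f_an.Rp.IBP
import Pool.Agent.Lib.MP_dd244f_an.Rp.Psi
import Pool.Agent.Lib.MP_dd244f_an.Rp.Mono
import Pool.Agent.Lib.MP_dd244f_an.Rp.E1
import Pool.Agent.Lib.MP_dd244f_an.Rp.E1S
import Pool.Agent.Lib.MP_dd244f_an.Rp.TOT
import Pool.Agent.Lib.MP_dd244f_an.Rp.Tel
import Pool.Agent.Lib.MP_dd244f_an.Rp.Loc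
import Pool.Agent.Lib.MP_dd244f_an.Rp.WinB
import Pool.Agent.Lib.MP_dd244f_an.Rp.Qel
import Pool.Agent.Lib.MP_dd244f_an.Rp.ErrEI
import Pool.Agent.Lib.MP_dd244f_an.Rp.EIp
import Pool.Agent.Lib.MP_dd244f_an.Rp.Mul
import Pool.Agent.Lib.MP_dd244f_an.Rp.KKm
import Pool.Agent.Lib.MP_dd244f_an.Rp.HtB
import Pool.Agent.Lib.MP_dd244f_an.Rp.DomH
import Pool.Agent.Lib.MP_dd244f_an.Rp.Mp
import Pool.Agent.Lib.MP_dd244f_an.Rp.DDr
import Pool.Agent.Lib.MP_dd244f_an.Rp.RTL
import Pool.Agent.Lib.MP_dd244f_an.Rp.Sp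
import Pool.Agent.Lib.MP_dd244f_an.Rp.MS
import Pool.Agent.Lib.MP_dd244f_an.Rp.AprR
import Pool.Agent.Lib.MP_dd244f_an.Rp.Dec2S
import Pool.Agent.Lib.MP_dd244f_an.Rp.RT2
import Pool.Agent.Lib.MP_dd244f_an.Rp.BI
import Pool.Agent.Lib.MP_dd244f_an.Rp.BIav
import Pool.Agent.Lib.MP_dd244f_an.Rp.Heat
import Pool.Agent.Lib.MP_dd244f_an.Rp.DErr
import Pool.Agent.Lib.MP_dd244f_an.Rp.DECp
import Pool.Agent.Lib.MP_dd244f_an.Rp.Bdryp
import Pool.Agent.Lib.MP_dd244f_an.Rp.Synp
import Pool.Agent.Lib.MP_dd244f_an.Rp.SyN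
import Pool.Agent.Lib.MP_dd244f_an.Rp.ErrHp
import Pool.Agent.Lib.MP_dd244f_an.Rp.GRes
import Pool.Agent.Lib.MP_dd244f_an.Rp.BLKp
import Pool.Agent.Lib.MP_dd244f_an.Rp.Mainp
import Pool.Agent.Lib.MP_dd244f_an.Rp.Ratiop
import Pool.Agent.Lib.MP_dd244f_an.Rp.Finalp
import Pool.Agent.Lib.MP_dd244f_an.Rp.RatC

/-!
Full operator, all real `p`: the modules of part T put together.
-/

set_option autoImplicit false

namespace Pool.Agent.Lib.MP_dd244f_an.Rp

open Pool.Agent.Lib.MP_dd244f_an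

theorem all_sch : StmtSch := sch Four.fac
theorem all_ibp : StmtIBP := ibp pow all_sch
theorem all_psi : StmtPsi := psi pow all_sch dcy all_ibp
theorem all_mono : StmtMono := mono all_psi
theorem all_e1 : StmtE1 := e1 all_mono all_psi
theorem all_e1S : StmtE1S := e1S all_e1 all_sch
theorem all_tot : StmtTOT := tot all_e1 all_e1S all_sch
theorem all_tel : StmtTel := tel all_mono all_psi
theorem all_loc : StmtLoc := loc all_mono all_psi all_e1
theorem all_mul : StmtMul := mul Four.base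
theorem all_kkm : StmtKKm := kkm Four.kk Four.base Four.fac
theorem all_winB : StmtWinB := winB all_sch all_mul all_kkm Four.kk Four.base Four.fac
theorem all_htB : StmtHtB := htB all_mul
theorem all_domH : StmtDomH := domH Even.all_domF dcy Four.kk Four.base Four.fac
theorem all_mp : StmtMp := mp Even.hl Four.kk Four.base
theorem all_ddr : StmtDDr := ddr Even.hl Four.kk
theorem all_sp : StmtSp :=
  sp rtl Even.all_shK all_ddr Even.all_dens Four.l2 Four.base Four.fac Four.kk
theorem all_ms : StmtMS := ms all_sp Even.all_domF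
theorem all_errEI : StmtErrEI :=
  errEI all_winB qel all_psi all_ibp all_ms Even.all_domF all_domH all_sch Four.fac
theorem all_eip : StmtEIp :=
  eip all_loc all_errEI all_tel all_mp all_ms all_sp all_psi all_mono all_sch Four.fac Four.base
theorem all_aprR : StmtAprR := aprR Joint.all_final2 ratiop all_sch
theorem all_dec2S : StmtDec2S :=
  dec2S Four.all_r Four.all_pp Four.all_apr Four.base Four.fac Four.kk Four.all_lpk
theorem all_bi : StmtBI :=
  bi rt2 all_dec2S all_aprR all_sp all_mp all_kkm Even.all_domF Even.all_lpm Even.all_dens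
    Four.base Four.l2 Four.fac
theorem all_biav : StmtBIav :=
  biav all_bi all_sp all_mp all_aprR all_kkm all_sch Even.all_domF Even.all_lpm Four.base Four.fac
theorem all_heat : StmtHeat := heat all_psi all_sch Four.base
theorem all_derr : StmtDErr :=
  derr qel all_heat all_htB all_domH all_kkm all_sch all_ibp Four.fac Four.base
theorem all_decp : StmtDECp :=
  decp all_derr all_heat all_biav all_mp all_ms all_aprR all_sch Four.fac
theorem all_bdryp : StmtBdryp := bdryp qel all_sch Four.fac Four.base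
theorem all_synp : StmtSynp := synp all_sch all_e1 all_psi
theorem all_syN : StmtSyN := syN Four.base
theorem all_errHp : StmtErrHp := errHp Four.lapc Four.all_mm Four.fac
theorem all_gres : StmtGRes := gres all_psi all_e1
theorem all_blkp : StmtBLKp :=
  blkp all_synp all_gres all_tot all_e1 all_syN Even.all_errK Even.all_errLK all_errHp qel all_sch
    Four.fac Four.base
theorem all_mainp : StmtMainp :=
  mainp all_decp all_bdryp all_blkp all_eip all_sp all_aprR Four.shift all_sch Four.fac Four.base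
theorem all_finalp : StmtFinalp := finalp all_mainp ratiop Four.base Four.fac Four.l2

end Pool.Agent.Lib.MP_dd244f_an.Rp
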