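import Pool.Agent.Lib.MP_dd244f_an.Rp.StmtsH

/-!
The sharp Hardy-Littlewood-Paley inequality: the reflection formula (module Cosh).
-/

set_option autoImplicit false

namespace Pool.Agent.Lib.MP_dd244f_an.Rp

namespace CoshAux

lemma norm_sin_sq (x y : ℝ) : ‖Complex.sin ((x : ℂ) + (y : ℂ) * Complex.I)‖ ^ 2
    = (Real.cosh (2 * y) - Real.cos (2 * x)) / 2 := by
  rw [Complex.sin_add_mul_I, Complex.sq_norm, Complex.normSq_apply]
  have e1 : (Complex.sin (x : ℂ) * Complex.cosh (y : ℂ) +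
      Complex.cos (x : ℂ) * Complex.sinh (y : ℂ) * Complex.I).re = Real.sin x * Real.cosh y := by
    rw [← Complex.ofReal_sin, ← Complex.ofReal_cosh, ← Complex.ofReal_cos, ← Complex.ofReal_sinh]
    simp only [Complex.add_re, Complex.add_im, Complex.mul_re, Complex.mul_im, Complex.ofReal_re,
      Complex.ofReal_im, Complex.I_re, Complex.I_im]
    ring
  have e2 : (Complex.sin (x : ℂ) * Complex.cosh (y : ℂ) +
      Complex.cos (x : ℂ) * Complex.sinh (y : ℂ) * Complex.I).im = Real.cos x * Real.sinh y := by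
    rw [← Complex.ofReal_sin, ← Complex.ofReal_cosh, ← Complex.ofReal_cos, ← Complex.ofReal_sinh]
    simp only [Complex.add_re, Complex.add_im, Complex.mul_re, Complex.mul_im, Complex.ofReal_re,
      Complex.ofReal_im, Complex.I_re, Complex.I_im]
    ring
  rw [e1, e2, Real.cosh_two_mul, Real.cos_two_mul]
  have h1 := Real.cosh_sq y
  have h2 := Real.sin_sq_add_cos_sq x
  have h3 : Real.sin x ^ 2 = 1 - Real.cos x ^ 2 := by linarith
  have h4 : Real.sin x * Real.cosh y * (Real.sin x * Real.cosh y)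
      = Real.sin x ^ 2 * Real.cosh y ^ 2 := by ring
  rw [h4, h3, h1]
  ring

end CoshAux

open CoshAux in
/-- (Cosh) -/
theorem cosh_gam : StmtCosh := by
  intro t Y ht0 ht1
  set s : ℂ := (1 + t + Complex.I * Y) / 2 with hs
  have hsre : s.re = (1 + t) / 2 := by
    rw [hs]
    simp
  have hsre' : ((1 - t + Complex.I * Y) / 2 : ℂ).re = (1 - t) / 2 := by
    simp
  have n1 : Complex.Gamma s ≠ 0 := Complex.Gamma_ne_zero_of_re_pos (by rw [hsre]; linarith)
  have n2 : Complex.Gamma ((1 - t + Complex.I * Y) / 2) ≠ 0 :=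
    Complex.Gamma_ne_zero_of_re_pos (by rw [hsre']; linarith)
  have hrefl := Complex.Gamma_mul_Gamma_one_sub s
  have hc : (1 : ℂ) - s = starRingEnd ℂ ((1 - t + Complex.I * Y) / 2) := by
    rw [hs]
    simp only [map_div₀, map_add, map_sub, map_mul, map_one, Complex.conj_ofReal, Complex.conj_I,
      map_ofNat]
    ring
  have hn : ‖Complex.Gamma (1 - s)‖ = ‖Complex.Gamma ((1 - t + Complex.I * Y) / 2)‖ := by
    rw [hc, Complex.Gamma_conj, Complex.norm_conj]
  have hsin : (Real.pi : ℂ) * s = ((Real.pi * (1 + t) / 2 : ℝ) : ℂ)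
      + ((Real.pi * Y / 2 : ℝ) : ℂ) * Complex.I := by
    rw [hs]
    push_cast
    ring
  have hsq : ‖Complex.sin (Real.pi * s)‖ ^ 2
      = (Real.cosh (Real.pi * Y) + Real.cos (Real.pi * t)) / 2 := by
    rw [hsin, norm_sin_sq]
    have e1 : 2 * (Real.pi * Y / 2) = Real.pi * Y := by ring
    have e2 : 2 * (Real.pi * (1 + t) / 2) = Real.pi * t + Real.pi := by ring
    rw [e1, e2, Real.cos_add_pi]
    ring
  have hnorm := congrArg (fun z : ℂ => ‖z‖ ^ 2) hrefl
  simp only [norm_mul, norm_div, mul_pow, div_pow] at hnorm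
  rw [hn, hsq, Complex.norm_real, Real.norm_eq_abs, sq_abs] at hnorm
  have p1 : 0 < ‖Complex.Gamma s‖ ^ 2 := by positivity
  have p2 : 0 < ‖Complex.Gamma ((1 - t + Complex.I * Y) / 2)‖ ^ 2 := by positivity
  have hX : Real.cosh (Real.pi * Y) + Real.cos (Real.pi * t) ≠ 0 := by
    intro h
    rw [h] at hnorm
    norm_num at hnorm
    rcases hnorm with h | h
    · exact n1 h
    · exact n2 h
  rw [eq_div_iff (by positivity), hnorm]
  field_simp

end Pool.Agent.Lib.MP_dd244f_an.Rp
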