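import Pool.Agent.Lib.MP_dd244f_an.Even.Stmts
import Pool.Agent.Lib.MP_dd244f_an.Unif.Stmts
import Pool.Agent.Lib.MP_dd244f_an.Four.Basic

/-!
Full operator, all real `p`, `n → ∞`: definitions.
See the blueprint `dd244f_real_blueprint.md` in the team store.
Everything is written on the Fourier side: `g` is the Fourier transform, `iF g` the function.
-/

set_option autoImplicit false

namespace Pool.Agent.Lib.MP_dd244f_an.Rp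

open MeasureTheory Filter Topology
open Pool.Agent.Lib.MP_dd244f_an.Joint (st ct Mst ratio)
open Pool.Agent.Lib.MP_dd244f_an.Four
open Pool.Agent.Lib.MP_dd244f_an.Even
open Pool.Agent.Lib.MP_dd244f_an.Unif (SC)

/-- `p`-th power of the `L^p` norm of `iF g` -/
noncomputable def Np (p : ℝ) (g : ℂ → ℂ) : ℝ := ∫ x, ‖iF g x‖ ^ p

/-- energy seen through the Gaussian window of width `σ`, frequency `ξ` -/
noncomputable def Nw (p σ : ℝ) (ξ : ℂ) (g : ℂ → ℂ) : ℝ := Np p (gs σ ξ g)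

/-- `exp (-(4 π² s |ζ|² + 2 π ⟨y, ζ⟩)) g ζ`: heat flow at time `s`, complex shift `i y` -/
noncomputable def tw (s : ℝ) (y : ℂ) (g : ℂ → ℂ) (ζ : ℂ) : ℂ :=
  ((Real.exp (-(4 * Real.pi ^ 2 * s * ‖ζ‖ ^ 2
    + 2 * Real.pi * (y.re * ζ.re + y.im * ζ.im))) : ℝ) : ℂ) * g ζ

/-- the symbol of the derivative in the direction `e` -/
noncomputable def dr (e : ℂ) (g : ℂ → ℂ) (ζ : ℂ) : ℂ :=
  2 * (Real.pi : ℂ) * Complex.I * ((e.re * ζ.re + e.im * ζ.im : ℝ) : ℂ) * g ζ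

/-- the function `(s, y) ↦ ∫ |F_s (x + i y)|^p dx` -/
noncomputable def Psi (p : ℝ) (g : ℂ → ℂ) (s : ℝ) (y : ℂ) : ℝ := Np p (tw s y g)

/-- the second derivative of `|u|^p` at `u`, applied to `v`, `v` -/
noncomputable def Qf (p : ℝ) (u v : ℂ) : ℝ :=
  p * ‖u‖ ^ (p - 2) * ‖v‖ ^ 2 + p * (p - 2) * ‖u‖ ^ (p - 4) * (u.re * v.re + u.im * v.im) ^ 2

/-- the energy `∫ D²φ(F)(∇F, ∇F)`, `F = iF g` -/
noncomputable def gr (p : ℝ) (g : ℂ → ℂ) : ℝ :=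
  ∫ x, (Qf p (iF g x) (iF (dr 1 g) x) + Qf p (iF g x) (iF (dr Complex.I g) x))

/-- the energy `∫ |F|^(p-2) |∇F|²`, `F = iF g` -/
noncomputable def gl (p : ℝ) (g : ℂ → ℂ) : ℝ :=
  ∫ x, ‖iF g x‖ ^ (p - 2) * (‖iF (dr 1 g) x‖ ^ 2 + ‖iF (dr Complex.I g) x‖ ^ 2)

/-- Laplacian of a real function -/
noncomputable def lapR (f : ℂ → ℝ) (y : ℂ) : ℝ :=
  fderiv ℝ (fun z => fderiv ℝ f z 1) y 1 + fderiv ℝ (fun z => fderiv ℝ f z Complex.I) y Complex.I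

/-- the heat kernel of the plane at time `v` -/
noncomputable def hk (v : ℝ) (y : ℂ) : ℝ := Real.exp (-(‖y‖ ^ 2 / (4 * v))) / (4 * Real.pi * v)

/-- `Γ(1/p)/Γ(1-1/p)` -/
noncomputable def gamp (p : ℝ) : ℝ := Real.Gamma (1 / p) / Real.Gamma (1 - 1 / p)

/-- the sharp constant of the Hardy-Littlewood-Paley inequality -/
noncomputable def CHp (p : ℝ) : ℝ := Real.pi ^ (p - 2) * gamp p ^ p

/-- the central frequencies of the block `[s, s + L)` -/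
def Jp (s : ℤ) (L m : ℕ) : Set ℂ :=
  {ξ | (2 : ℝ) ^ (s + m - 1) ≤ ‖ξ‖ ∧ ‖ξ‖ ≤ (2 : ℝ) ^ (s + L - m + 1)}

/-- multiplication by a chirp centred at `q` -/
noncomputable def qc (β : ℝ) (u q : ℂ) (g : ℂ → ℂ) (ζ : ℂ) : ℂ :=
  Complex.exp (Complex.I * (β * ((ζ - q) ^ 2 * u ^ 2).im : ℝ)) * g ζ

/-- `ψ` is a bump of size `B` adapted to the disc of radius `8 * 2 ^ a` -/
def SB (m : ℕ) (a : ℤ) (B : ℝ) (ψ : ℂ → ℂ) : Prop :=
  ContDiff ℝ (2 * m : ℕ) ψ ∧ (∀ ζ, 8 * (2 : ℝ) ^ a < ‖ζ‖ → ψ ζ = 0) ∧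
  ∀ k ≤ 2 * m, ∀ ζ, ‖iteratedFDeriv ℝ k ψ ζ‖ ≤ B * (2 : ℝ) ^ (-(k * a : ℤ))

/-- local average of `|f_a| ^ 2` with a rapidly decreasing kernel -/
noncomputable def qm (m : ℕ) (a : ℤ) (g : ℂ → ℂ) (x : ℂ) : ℝ :=
  ∫ y, KKm m ((2 : ℝ) ^ (-a)) (x - y) * ‖iF (cut (sh a) g) y‖ ^ 2

/-- weight decreasing away from the block `[s, s + L)` -/
noncomputable def wt (s : ℤ) (L : ℕ) (i : ℤ) : ℝ := (2 : ℝ) ^ (min (i - s) 0 + min (s + L - i) 0)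

/-- the cutoff in the variable `y = - σ² ξ` -/
noncomputable def thc (n : ℕ) (Q : ℝ) (s : ℤ) (L : ℕ) (y : ℂ) : ℝ :=
  bd (s + 2) (s + L - 2) (y / ((win n Q s L) ^ 2 : ℝ))

/-- the time of the block -/
noncomputable def tb (n : ℕ) (Q : ℝ) (s : ℤ) (L : ℕ) : ℝ := (win n Q s L) ^ 2 / (4 * Real.pi)

/-- `κ = 1 / (4 π p² K²)` -/
noncomputable def kap (p : ℝ) (s : ℤ) : ℝ := 1 / (4 * Real.pi * p ^ 2 * (4 : ℝ) ^ s)

end Pool.Agent.Lib.MP_dd244f_an.Rp
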