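import Pool.Agent.Lib.MP_dd244f_an.Rp.StmtsH
import Pool.Agent.Lib.MP_dd244f_an.Four.L2

/-!
Full operator, all real `p`: the multilinear expansion of the energy (module Exp).
-/

set_option autoImplicit false

namespace Pool.Agent.Lib.MP_dd244f_an.Rp

open MeasureTheory Filter Topology
open Pool.Agent.Lib.MP_dd244f_an.Four

namespace ExpX

/-- the variables except the first one -/
abbrev YY (j : ℕ) : Type := (Fin j → ℂ) × (Fin j → ℂ)

/-- the sum of the variables -/
noncomputable def sY {j : ℕ} (Y : YY j) : ℂ := ∑ i, Y.1 i - ∑ i, Y.2 i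

/-- the product -/
noncomputable def BY {j : ℕ} (h : ℂ → ℂ) (Y : YY j) : ℂ :=
  (∏ i, h (Y.1 i)) * ∏ i, starRingEnd ℂ (h (Y.2 i))

/-- splitting off the first variable -/
noncomputable def eqv (j : ℕ) : XX j ≃ᵐ ℂ × YY j :=
  ((MeasurableEquiv.piFinSuccAbove (fun _ : Fin (j + 1) => ℂ) 0).prodCongr
    (MeasurableEquiv.refl (Fin j → ℂ))).trans MeasurableEquiv.prodAssoc

lemma eqv_apply {j : ℕ} (X : XX j) : eqv j X = (X.1 0, (fun i => X.1 i.succ, X.2)) := by
  simp only [eqv, MeasurableEquiv.trans_apply]
  rfl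

lemma eqv_mp (j : ℕ) : MeasurePreserving (eqv j) volume volume := by
  have h1 := volume_preserving_piFinSuccAbove (fun _ : Fin (j + 1) => ℂ) 0
  have h2 := h1.prod (MeasurePreserving.id (volume : Measure (Fin j → ℂ)))
  exact volume_preserving_prodAssoc.comp h2

lemma measurable_sY {j : ℕ} : Measurable (sY (j := j)) := by
  unfold sY
  fun_prop

lemma measurable_BY {j : ℕ} {h : ℂ → ℂ} (hm : Measurable h) : Measurable (BY (j := j) h) := by
  unfold BY
  refine Measurable.mul ?_ ?_
  · exact Finset.measurable_prod _ fun i _ => hm.comp ((measurable_pi_apply i).comp measurable_fst)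
  · exact Finset.measurable_prod _ fun i _ =>
      (continuous_star.measurable.comp hm).comp ((measurable_pi_apply i).comp measurable_snd)

lemma integrable_conj {h : ℂ → ℂ} (hi : Integrable h) :
    Integrable (fun z => starRingEnd ℂ (h z)) := by
  have := (Complex.conjCLE.toContinuousLinearMap).integrable_comp hi
  exact this

lemma integrable_BY {j : ℕ} {h : ℂ → ℂ} (hi : Integrable h) :
    Integrable (BY (j := j) h) := by
  have h1 : Integrable (fun a : Fin j → ℂ => ∏ i, h (a i)) :=
    Integrable.fintype_prod (fun _ => hi)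
  have h2 : Integrable (fun a : Fin j → ℂ => ∏ i, starRingEnd ℂ (h (a i))) :=
    Integrable.fintype_prod (fun _ => integrable_conj hi)
  exact h1.mul_prod h2

lemma ch_finset_sum {ι : Type*} (s : Finset ι) (x : ℂ) (f : ι → ℂ) :
    ch x (∑ i ∈ s, f i) = ∏ i ∈ s, ch x (f i) := by
  classical
  induction s using Finset.induction_on with
  | empty => simp [ch]
  | insert a s ha ih => rw [Finset.sum_insert ha, Finset.prod_insert ha, ch_add_right, ih]

lemma ch_neg_conj (x z : ℂ) : ch x (-z) = starRingEnd ℂ (ch x z) := by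
  unfold ch
  rw [← Complex.exp_conj]
  congr 1
  simp only [map_mul, Complex.conj_ofReal, Complex.conj_I, map_ofNat, Complex.neg_re,
    Complex.neg_im]
  push_cast
  ring

/-- the transform of the product -/
lemma int_BY {j : ℕ} (h : ℂ → ℂ) (x : ℂ) :
    ∫ Y : YY j, ch x (sY Y) * BY h Y = iF h x ^ j * starRingEnd ℂ (iF h x) ^ j := by
  have e1 : ∀ Y : YY j, ch x (sY Y) * BY h Y =
      (∏ i, (ch x (Y.1 i) * h (Y.1 i))) * ∏ i, starRingEnd ℂ (ch x (Y.2 i) * h (Y.2 i)) := by
    intro Y
    have e2 : ch x (sY Y) = (∏ i, ch x (Y.1 i)) * ∏ i, starRingEnd ℂ (ch x (Y.2 i)) := by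
      unfold sY
      rw [sub_eq_add_neg, ch_add_right, ch_finset_sum, ch_neg_conj, ch_finset_sum, map_prod]
    rw [e2]
    unfold BY
    simp only [map_mul, Finset.prod_mul_distrib]
    ring
  simp only [e1]
  have e3 := integral_prod_mul (μ := (volume : Measure (Fin j → ℂ)))
    (ν := (volume : Measure (Fin j → ℂ)))
    (fun a => ∏ i, (ch x (a i) * h (a i))) (fun b => ∏ i, starRingEnd ℂ (ch x (b i) * h (b i)))
  refine e3.trans ?_
  have e4 := integral_fintype_prod_volume_eq_prod (𝕜 := ℂ) (ι := Fin j) (E := fun _ => ℂ)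
    (fun _ z => ch x z * h z)
  have e5 := integral_fintype_prod_volume_eq_prod (𝕜 := ℂ) (ι := Fin j) (E := fun _ => ℂ)
    (fun _ z => starRingEnd ℂ (ch x z * h z))
  rw [e4, e5, Finset.prod_const, Finset.prod_const, Finset.card_univ, Fintype.card_fin,
    integral_conj]
  rfl

variable {h : ℂ → ℂ}

/-- the sheared integrand -/
lemma integrable_shear {j : ℕ} (hm : Measurable h) (hi : Integrable h) :
    Integrable (fun p : ℂ × YY j => h (p.1 - sY p.2) * BY h p.2) := by
  have hme : Measurable (fun p : ℂ × YY j => h (p.1 - sY p.2) * BY h p.2) :=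
    (hm.comp (measurable_fst.sub (measurable_sY.comp measurable_snd))).mul
      ((measurable_BY hm).comp measurable_snd)
  have key := integrable_prod_iff' (μ := (volume : Measure ℂ)) (ν := (volume : Measure (YY j)))
    hme.aestronglyMeasurable
  refine key.2 ⟨?_, ?_⟩
  · refine Eventually.of_forall fun Y => ?_
    exact (hi.comp_sub_right (sY Y)).mul_const (BY h Y)
  · have e : ∀ Y : YY j, ∫ z, ‖h (z - sY Y) * BY h Y‖ = (∫ z, ‖h z‖) * ‖BY h Y‖ := by
      intro Y
      simp only [norm_mul]
      rw [integral_mul_const, integral_sub_right_eq_self (fun z => ‖h z‖)]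
    simp only [e]
    exact (integrable_BY hi).norm.const_mul _

/-- the function whose transform is `F ^ (j + 1) (conj F) ^ j` -/
noncomputable def GG (j : ℕ) (h : ℂ → ℂ) (z : ℂ) : ℂ :=
  ∫ Y : YY j, h (z - sY Y) * BY h Y

lemma integrable_GG {j : ℕ} (hm : Measurable h) (hi : Integrable h) : Integrable (GG j h) :=
  (integrable_shear (j := j) hm hi).integral_prod_left

lemma GG_le {j : ℕ} {B : ℝ} (hi : Integrable h) (hB : ∀ ξ, ‖h ξ‖ ≤ B) (z : ℂ) :
    ‖GG j h z‖ ≤ B * ∫ Y : YY j, ‖BY h Y‖ := by
  unfold GG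
  rw [← integral_const_mul]
  refine norm_integral_le_of_norm_le ((integrable_BY hi).norm.const_mul _)
    (Eventually.of_forall fun Y => ?_)
  rw [norm_mul]
  exact mul_le_mul_of_nonneg_right (hB _) (norm_nonneg _)

lemma memLp_GG {j : ℕ} {B : ℝ} (hm : Measurable h) (hi : Integrable h) (hB : ∀ ξ, ‖h ξ‖ ≤ B) :
    MemLp (GG j h) 2 volume := by
  have h1 := integrable_GG (j := j) hm hi
  rw [memLp_two_iff_integrable_sq_norm h1.1]
  have h2 : Integrable (fun z => ‖GG j h z‖ * ‖GG j h z‖) :=
    h1.norm.bdd_mul (c := B * ∫ Y : YY j, ‖BY h Y‖) h1.1.norm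
      (Eventually.of_forall fun z => by rw [norm_norm]; exact GG_le hi hB z)
  simpa only [pow_two] using h2

lemma iF_GG {j : ℕ} (hm : Measurable h) (hi : Integrable h) (x : ℂ) :
    iF (GG j h) x = iF h x ^ (j + 1) * starRingEnd ℂ (iF h x) ^ j := by
  have h1 := integrable_shear (j := j) hm hi
  have h2 : Integrable (Function.uncurry fun (z : ℂ) (Y : YY j) =>
      ch x z * (h (z - sY Y) * BY h Y)) (volume.prod volume) := by
    refine h1.bdd_mul (c := 1) ?_ (Eventually.of_forall fun p => (norm_ch x p.1).le)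
    exact ((continuous_ch x).comp continuous_fst).aestronglyMeasurable
  have h3 := integral_integral_swap h2
  have e1 : iF (GG j h) x = ∫ z, ∫ Y : YY j, ch x z * (h (z - sY Y) * BY h Y) := by
    unfold iF GG
    congr 1
    ext z
    rw [integral_const_mul]
  rw [e1, h3]
  have e2 : ∀ Y : YY j, ∫ z, ch x z * (h (z - sY Y) * BY h Y) = iF h x * (ch x (sY Y) * BY h Y) := by
    intro Y
    have e3 : ∀ z, ch x z * (h (z - sY Y) * BY h Y)
        = (ch x (z - sY Y) * h (z - sY Y)) * (ch x (sY Y) * BY h Y) := by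
      intro z
      have : ch x z = ch x (z - sY Y) * ch x (sY Y) := by rw [← ch_add_right]; congr 1; ring
      rw [this]
      ring
    simp only [e3]
    rw [integral_mul_const, integral_sub_right_eq_self (fun z => ch x z * h z)]
    rfl
  simp only [e2]
  rw [integral_const_mul, int_BY]
  ring

end ExpX

open ExpX in
theorem exp_ : StmtExp := by
  intro j h hm hB hc
  obtain ⟨B, hB⟩ := hB
  have hi : Integrable h := by
    have hfin : volume (tsupport h) < ⊤ := hc.measure_lt_top
    have h1 : IntegrableOn h (tsupport h) :=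
      Measure.integrableOn_of_bounded hfin.ne hm.aestronglyMeasurable
        (Eventually.of_forall fun z => hB z)
    exact (integrableOn_iff_integrable_of_support_subset (subset_tsupport h)).1 h1
  have h2m : MemLp h 2 volume := by
    rw [memLp_two_iff_integrable_sq_norm hm.aestronglyMeasurable]
    have h2 : Integrable (fun z => ‖h z‖ * ‖h z‖) :=
      hi.norm.bdd_mul (c := B) hm.norm.aestronglyMeasurable
        (Eventually.of_forall fun z => by rw [norm_norm]; exact hB z)
    simpa only [pow_two] using h2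
  -- the integrand
  have ef : ∀ X : XX j, (∏ i, h (X.1 i)) * (∏ i, starRingEnd ℂ (h (X.2 i))) *
      starRingEnd ℂ (h (xl X)) = (fun p : ℂ × YY j => h p.1 * BY h p.2 *
        starRingEnd ℂ (h (p.1 + sY p.2))) (eqv j X) := by
    intro X
    rw [eqv_apply]
    simp only [BY, sY, xl]
    rw [Fin.prod_univ_succ, Fin.sum_univ_succ]
    have : X.1 0 + ∑ i : Fin j, X.1 i.succ - ∑ i, X.2 i
        = X.1 0 + (∑ i : Fin j, X.1 i.succ - ∑ i, X.2 i) := by ring
    rw [this]
    ring
  have hs := integrable_shear (j := j) hm hi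
  -- integrability of the product without the last factor
  have i0 : Integrable (fun p : ℂ × YY j => h p.1 * BY h p.2) := hi.mul_prod (integrable_BY hi)
  have hmc : Measurable (fun z => starRingEnd ℂ (h z)) := continuous_star.measurable.comp hm
  have i1 : Integrable (fun p : ℂ × YY j => h p.1 * BY h p.2 *
      starRingEnd ℂ (h (p.1 + sY p.2))) := by
    have h3 := i0.bdd_mul (c := B) (f := fun p : ℂ × YY j => starRingEnd ℂ (h (p.1 + sY p.2)))
      (hmc.comp (measurable_fst.add (measurable_sY.comp measurable_snd))).aestronglyMeasurable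
      (Eventually.of_forall fun p => by rw [RCLike.norm_conj]; exact hB _)
    refine h3.congr (Eventually.of_forall fun p => ?_)
    simp only
    ring
  have i2 : Integrable (fun p : ℂ × YY j => h (p.1 - sY p.2) * BY h p.2 *
      starRingEnd ℂ (h p.1)) := by
    have h3 := hs.bdd_mul (c := B) (f := fun p : ℂ × YY j => starRingEnd ℂ (h p.1))
      (hmc.comp measurable_fst).aestronglyMeasurable
      (Eventually.of_forall fun p => by rw [RCLike.norm_conj]; exact hB _)
    refine h3.congr (Eventually.of_forall fun p => ?_)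
    simp only
    ring
  have hFc : Continuous (iF h) := iF_continuous hi
  refine ⟨?_, ?_, ?_⟩
  · simp only [ef]
    exact (eqv_mp j).integrable_comp_of_integrable i1
  · have h3 : Integrable (fun x => ‖iF h x‖ ^ 2) :=
      (memLp_two_iff_integrable_sq_norm hFc.aestronglyMeasurable).1 (iF_memLp hi h2m)
    have h4 := h3.bdd_mul (c := (∫ ζ, ‖h ζ‖) ^ (2 * j)) (f := fun x => ‖iF h x‖ ^ (2 * j))
      (by fun_prop) (Eventually.of_forall fun x => by
        rw [norm_pow, norm_norm]
        exact pow_le_pow_left₀ (norm_nonneg _) (norm_iF_le h x) _)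
    refine h4.congr (Eventually.of_forall fun x => ?_)
    simp only
    rw [← pow_add]
    congr 1
  · simp only [ef]
    rw [(eqv_mp j).integral_comp' (g := fun p : ℂ × YY j => h p.1 * BY h p.2 *
        starRingEnd ℂ (h (p.1 + sY p.2)))]
    -- left side by Parseval
    have e1 : ((∫ x, ‖iF h x‖ ^ (2 * (j + 1)) : ℝ) : ℂ)
        = ∫ x, iF (GG j h) x * starRingEnd ℂ (iF h x) := by
      rw [← integral_complex_ofReal]
      congr 1
      ext x
      rw [iF_GG hm hi, mul_assoc, ← pow_succ, ← mul_pow, Complex.mul_conj,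
        Complex.normSq_eq_norm_sq]
      push_cast
      rw [← pow_mul]
    rw [e1, (iF_inner (integrable_GG hm hi) (memLp_GG hm hi hB) hi h2m).2]
    have e2 : ∫ z, GG j h z * starRingEnd ℂ (h z)
        = ∫ z, ∫ Y : YY j, h (z - sY Y) * BY h Y * starRingEnd ℂ (h z) := by
      congr 1
      ext z
      unfold GG
      rw [integral_mul_const]
    rw [e2]
    have e3 := integral_integral_swap (μ := (volume : Measure ℂ)) (ν := (volume : Measure (YY j)))
      (f := fun z Y => h (z - sY Y) * BY h Y * starRingEnd ℂ (h z)) i2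
    rw [e3]
    have e4 := integral_prod_symm (μ := (volume : Measure ℂ)) (ν := (volume : Measure (YY j)))
      (fun p : ℂ × YY j => h p.1 * BY h p.2 * starRingEnd ℂ (h (p.1 + sY p.2))) i1
    refine Eq.trans ?_ e4.symm
    congr 1
    ext Y
    have e5 := integral_sub_right_eq_self (μ := (volume : Measure ℂ))
      (fun z => h z * BY h Y * starRingEnd ℂ (h (z + sY Y))) (sY Y)
    rw [← e5]
    simp only [sub_add_cancel]

end Pool.Agent.Lib.MP_dd244f_an.Rp
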