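import Pool.Agent.Lib.MP_dd244f_an.Rp.StmtsH

/-!
The sharp Hardy-Littlewood-Paley inequality: Euler product of the Gamma function (module Gam).
-/

set_option autoImplicit false

namespace Pool.Agent.Lib.MP_dd244f_an.Rp

open Filter Topology

/-- (Gam) -/
theorem gam : StmtGam := by
  intro a y ha
  have hre : 0 < ((a : ℂ) + Complex.I * y).re := by simpa using ha
  have hne := Complex.Gamma_ne_zero_of_re_pos hre
  refine ⟨hne, ?_⟩
  rw [← tendsto_add_atTop_iff_nat 1]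
  have h1 := (Complex.GammaSeq_tendsto_Gamma ((a : ℂ) + Complex.I * y)).norm.pow 2
  have h2 := (Complex.GammaSeq_tendsto_Gamma (a : ℂ)).norm.pow 2
  have h3 := h2.div h1 (pow_ne_zero 2 (norm_ne_zero_iff.mpr hne))
  have e : ‖Complex.Gamma (a : ℂ)‖ ^ 2 = Real.Gamma a ^ 2 := by
    rw [Complex.Gamma_ofReal, Complex.norm_real, Real.norm_eq_abs, sq_abs]
  rw [e] at h3
  refine h3.congr' ?_
  filter_upwards [eventually_gt_atTop 0] with n hn
  have hn' : (0 : ℝ) < n := by exact_mod_cast hn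
  have hpow : ∀ s : ℂ, ‖((n : ℂ)) ^ s‖ = (n : ℝ) ^ s.re := fun s => by
    rw [← Complex.ofReal_natCast, Complex.norm_cpow_eq_rpow_re_of_pos hn']
  have hr : ((a : ℂ) + Complex.I * y).re = a := by simp
  change ‖Complex.GammaSeq (a : ℂ) n‖ ^ 2 / ‖Complex.GammaSeq ((a : ℂ) + Complex.I * y) n‖ ^ 2 = _
  simp only [Complex.GammaSeq, norm_mul, norm_div, norm_prod]
  rw [hpow, hpow, hr, Complex.ofReal_re]
  have hf : ((n.factorial : ℕ) : ℂ) ≠ 0 := by exact_mod_cast n.factorial_ne_zero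
  have hf' : ‖((n.factorial : ℕ) : ℂ)‖ ≠ 0 := norm_ne_zero_iff.mpr hf
  have hna : ((n : ℝ) ^ a) ≠ 0 := (Real.rpow_pos_of_pos hn' a).ne'
  have hP : ∏ j ∈ Finset.range (n + 1), ‖(a : ℂ) + (j : ℂ)‖ ≠ 0 := by
    refine Finset.prod_ne_zero_iff.mpr fun j _ => norm_ne_zero_iff.mpr fun h => ?_
    have := congrArg Complex.re h
    simp at this
    have hj : (0 : ℝ) ≤ j := Nat.cast_nonneg j
    linarith
  have hQ : ∏ j ∈ Finset.range (n + 1), ‖(a : ℂ) + Complex.I * y + (j : ℂ)‖ ≠ 0 := by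
    refine Finset.prod_ne_zero_iff.mpr fun j _ => norm_ne_zero_iff.mpr fun h => ?_
    have := congrArg Complex.re h
    simp at this
    have hj : (0 : ℝ) ≤ j := Nat.cast_nonneg j
    linarith
  have hmain : (((n : ℝ) ^ a * ‖((n.factorial : ℕ) : ℂ)‖ /
        ∏ j ∈ Finset.range (n + 1), ‖(a : ℂ) + (j : ℂ)‖) ^ 2) /
      (((n : ℝ) ^ a * ‖((n.factorial : ℕ) : ℂ)‖ /
        ∏ j ∈ Finset.range (n + 1), ‖(a : ℂ) + Complex.I * y + (j : ℂ)‖) ^ 2)
      = (∏ j ∈ Finset.range (n + 1), ‖(a : ℂ) + Complex.I * y + (j : ℂ)‖) ^ 2 /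
        (∏ j ∈ Finset.range (n + 1), ‖(a : ℂ) + (j : ℂ)‖) ^ 2 := by
    field_simp
  refine hmain.trans ?_
  rw [← Finset.prod_pow, ← Finset.prod_pow, ← Finset.prod_div_distrib]
  refine Finset.prod_congr rfl fun j _ => ?_
  have hj : (0 : ℝ) ≤ j := Nat.cast_nonneg j
  have haj : (a + j : ℝ) ≠ 0 := by positivity
  rw [Complex.sq_norm, Complex.sq_norm, Complex.normSq_apply, Complex.normSq_apply]
  simp
  field_simp

end Pool.Agent.Lib.MP_dd244f_an.Rp
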