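import Pool.Agent.Lib.MP_dd244f_an.Rp.StmtsH

/-!
(Grw) growth of the normalising factor `1 / c(z)` in the strip.
-/

set_option autoImplicit false

namespace Pool.Agent.Lib.MP_dd244f_an.Rp

open MeasureTheory Filter Topology Finset

namespace GrwAux

/-- one factor of the quotient of the two Euler products -/
lemma factor_le (a b y : ℝ) (ha : 0 < a) (hb : 0 < b) (hab : b ≤ a + 1) (j : ℕ) :
    (1 + y ^ 2 / (a + j) ^ 2) * (1 + y ^ 2 / (a + (j + 1 : ℕ)) ^ 2) ≤
      (1 + y ^ 2 / (a + j) ^ 2) * (1 + y ^ 2 / (b + j) ^ 2) := by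
  have hj : (0 : ℝ) ≤ j := Nat.cast_nonneg j
  have h1 : 0 ≤ 1 + y ^ 2 / (a + j) ^ 2 := by positivity
  refine mul_le_mul_of_nonneg_left ?_ h1
  have h2 : y ^ 2 / (a + (j + 1 : ℕ)) ^ 2 ≤ y ^ 2 / (b + j) ^ 2 := by
    apply div_le_div_of_nonneg_left (sq_nonneg y) (by positivity)
    apply pow_le_pow_left₀ (by positivity)
    push_cast
    linarith
  linarith

/-- telescoping bound -/
lemma prod_le (a b y : ℝ) (ha : 0 < a) (hb : 0 < b) (hab : b ≤ a + 1) (N : ℕ) :
    (∏ j ∈ Finset.range N, (1 + y ^ 2 / (a + j) ^ 2)) * (1 + y ^ 2 / (a + N) ^ 2) ≤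
      (1 + y ^ 2 / a ^ 2) * ∏ j ∈ Finset.range N, (1 + y ^ 2 / (b + j) ^ 2) := by
  induction N with
  | zero => simp
  | succ N ih =>
    rw [Finset.prod_range_succ, Finset.prod_range_succ]
    have hN : (0 : ℝ) ≤ N := Nat.cast_nonneg N
    have h1 := factor_le a b y ha hb hab N
    have h2 : 0 ≤ ∏ j ∈ Finset.range N, (1 + y ^ 2 / (b + j) ^ 2) :=
      Finset.prod_nonneg fun j _ => by positivity
    have h3 : 0 ≤ ∏ j ∈ Finset.range N, (1 + y ^ 2 / (a + j) ^ 2) :=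
      Finset.prod_nonneg fun j _ => by positivity
    have h4 : (0 : ℝ) ≤ 1 + y ^ 2 / (b + N) ^ 2 := by positivity
    calc (∏ j ∈ Finset.range N, (1 + y ^ 2 / (a + j) ^ 2)) * (1 + y ^ 2 / (a + N) ^ 2) *
          (1 + y ^ 2 / (a + (N + 1 : ℕ)) ^ 2)
        = (∏ j ∈ Finset.range N, (1 + y ^ 2 / (a + j) ^ 2)) * ((1 + y ^ 2 / (a + N) ^ 2) *
          (1 + y ^ 2 / (a + (N + 1 : ℕ)) ^ 2)) := by ring
      _ ≤ (∏ j ∈ Finset.range N, (1 + y ^ 2 / (a + j) ^ 2)) * ((1 + y ^ 2 / (a + N) ^ 2) *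
          (1 + y ^ 2 / (b + N) ^ 2)) := mul_le_mul_of_nonneg_left h1 h3
      _ = ((∏ j ∈ Finset.range N, (1 + y ^ 2 / (a + j) ^ 2)) * (1 + y ^ 2 / (a + N) ^ 2)) *
          (1 + y ^ 2 / (b + N) ^ 2) := by ring
      _ ≤ ((1 + y ^ 2 / a ^ 2) * ∏ j ∈ Finset.range N, (1 + y ^ 2 / (b + j) ^ 2)) *
          (1 + y ^ 2 / (b + N) ^ 2) := mul_le_mul_of_nonneg_right ih h4
      _ = (1 + y ^ 2 / a ^ 2) * ((∏ j ∈ Finset.range N, (1 + y ^ 2 / (b + j) ^ 2)) *
          (1 + y ^ 2 / (b + N) ^ 2)) := by ring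

/-- the quotient of two Gamma values on a vertical line -/
lemma gamma_quot (hG : StmtGam) (a b y : ℝ) (ha : 0 < a) (hb : 0 < b) (hab : b ≤ a + 1) :
    (Real.Gamma a ^ 2 / ‖Complex.Gamma (a + Complex.I * y)‖ ^ 2) ≤
      (1 + y ^ 2 / a ^ 2) * (Real.Gamma b ^ 2 / ‖Complex.Gamma (b + Complex.I * y)‖ ^ 2) := by
  have h1 := (hG a y ha).2
  have h2 := (hG b y hb).2
  have h3 : Tendsto (fun N : ℕ => (∏ j ∈ Finset.range N, (1 + y ^ 2 / (a + j) ^ 2))) atTop
      (𝓝 (Real.Gamma a ^ 2 / ‖Complex.Gamma (a + Complex.I * y)‖ ^ 2)) := h1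
  refine le_of_tendsto_of_tendsto' h1 (h2.const_mul (1 + y ^ 2 / a ^ 2)) ?_
  intro N
  refine le_trans ?_ (prod_le a b y ha hb hab N)
  have h4 : 0 ≤ ∏ j ∈ Finset.range N, (1 + y ^ 2 / (a + j) ^ 2) :=
    Finset.prod_nonneg fun j _ => by positivity
  have h5 : 0 ≤ y ^ 2 / (a + N) ^ 2 := by positivity
  nlinarith

lemma norm_pi_cpow (w : ℂ) : ‖(Real.pi : ℂ) ^ w‖ = Real.pi ^ w.re :=
  Complex.norm_cpow_eq_rpow_re_of_pos Real.pi_pos w

lemma norm_cz (z : ℂ) :
    ‖cz z‖ = Real.pi ^ (1 - 2 * z.re) * ‖Complex.Gamma z‖ / ‖Complex.Gamma (1 - z)‖ := by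
  unfold cz
  rw [norm_div, norm_mul, norm_pi_cpow]
  congr 3
  simp

lemma cz_ne_zero (z : ℂ) (h0 : 0 < z.re) (h1 : z.re < 1) : cz z ≠ 0 := by
  unfold cz
  have h2 : Complex.Gamma z ≠ 0 := Complex.Gamma_ne_zero_of_re_pos h0
  have h3 : Complex.Gamma (1 - z) ≠ 0 := by
    apply Complex.Gamma_ne_zero_of_re_pos
    simp; linarith
  have h4 : (Real.pi : ℂ) ^ (1 - 2 * z) ≠ 0 := by
    rw [Complex.cpow_def_of_ne_zero (by exact_mod_cast Real.pi_ne_zero)]
    exact Complex.exp_ne_zero _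
  exact div_ne_zero (mul_ne_zero h4 h2) h3

lemma cz_conj (z : ℂ) : ‖cz (starRingEnd ℂ z)‖ = ‖cz z‖ := by
  rw [norm_cz, norm_cz]
  have h1 : Complex.Gamma (starRingEnd ℂ z) = starRingEnd ℂ (Complex.Gamma z) :=
    Complex.Gamma_conj z
  have h2 : Complex.Gamma (1 - starRingEnd ℂ z) = starRingEnd ℂ (Complex.Gamma (1 - z)) := by
    rw [← Complex.Gamma_conj]; congr 1; simp
  rw [h1, h2, Complex.conj_re]
  simp

lemma gamma_im_symm (a y : ℝ) :
    ‖Complex.Gamma (a + Complex.I * (y : ℂ))‖ = ‖Complex.Gamma (a - Complex.I * (y : ℂ))‖ := by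
  have h : Complex.Gamma (a - Complex.I * (y : ℂ)) =
      starRingEnd ℂ (Complex.Gamma (a + Complex.I * (y : ℂ))) := by
    rw [← Complex.Gamma_conj]; congr 1; simp; ring
  rw [h]; simp

/-- the growth bound at one point -/
lemma inv_cz_le (hG : StmtGam) (z : ℂ) (h0 : 0 < z.re) (h1 : z.re ≤ 1 / 2) :
    ‖cz z‖⁻¹ ≤ (Real.Gamma (1 - z.re) / Real.Gamma z.re * (1 + 1 / z.re)) * (1 + |z.im|) := by
  set x := z.re with hx
  set y := z.im with hy
  have hz : z = (x : ℂ) + Complex.I * (y : ℂ) := by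
    rw [hx, hy, mul_comm]; exact (Complex.re_add_im z).symm
  have hz1 : 1 - z = ((1 - x : ℝ) : ℂ) - Complex.I * (y : ℂ) := by
    rw [hz]; push_cast; ring
  have hx1 : 0 < 1 - x := by linarith
  have hq := gamma_quot hG x (1 - x) y h0 hx1 (by linarith)
  have hGx : 0 < Real.Gamma x := Real.Gamma_pos_of_pos h0
  have hGx1 : 0 < Real.Gamma (1 - x) := Real.Gamma_pos_of_pos hx1
  have hA : 0 < ‖Complex.Gamma (x + Complex.I * y)‖ := norm_pos_iff.2 (hG x y h0).1
  have hB : 0 < ‖Complex.Gamma (((1 - x : ℝ) : ℂ) + Complex.I * y)‖ :=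
    norm_pos_iff.2 (hG (1 - x) y hx1).1
  set A := ‖Complex.Gamma (x + Complex.I * y)‖ with hAdef
  set B := ‖Complex.Gamma (((1 - x : ℝ) : ℂ) + Complex.I * y)‖ with hBdef
  have hcz : ‖cz z‖⁻¹ = (Real.pi ^ (1 - 2 * x))⁻¹ * (B / A) := by
    rw [norm_cz, hz1, ← gamma_im_symm, ← hBdef, ← hx]
    have : ‖Complex.Gamma z‖ = A := by rw [hAdef, ← hz]
    rw [this]
    field_simp
  have hpi : (Real.pi ^ (1 - 2 * x))⁻¹ ≤ 1 := by
    apply inv_le_one_of_one_le₀
    apply Real.one_le_rpow (by linarith [Real.pi_gt_three]) (by linarith)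
  have hBA : B / A ≤ Real.Gamma (1 - x) / Real.Gamma x * (1 + |y| / x) := by
    have h2 : (B / A) ^ 2 ≤ (Real.Gamma (1 - x) / Real.Gamma x * (1 + |y| / x)) ^ 2 := by
      have h3 : (B / A) ^ 2 = (Real.Gamma x ^ 2 / A ^ 2) * (B ^ 2 / Real.Gamma x ^ 2) := by
        field_simp
      have h4 : (Real.Gamma x ^ 2 / A ^ 2) * (B ^ 2 / Real.Gamma x ^ 2) ≤
          ((1 + y ^ 2 / x ^ 2) * (Real.Gamma (1 - x) ^ 2 / B ^ 2)) * (B ^ 2 / Real.Gamma x ^ 2) :=
        mul_le_mul_of_nonneg_right hq (by positivity)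
      have h5 : ((1 + y ^ 2 / x ^ 2) * (Real.Gamma (1 - x) ^ 2 / B ^ 2)) * (B ^ 2 / Real.Gamma x ^ 2)
          = (Real.Gamma (1 - x) / Real.Gamma x) ^ 2 * (1 + y ^ 2 / x ^ 2) := by
        field_simp
      have h6 : 1 + y ^ 2 / x ^ 2 ≤ (1 + |y| / x) ^ 2 := by
        have : y ^ 2 / x ^ 2 = (|y| / x) ^ 2 := by rw [div_pow, sq_abs]
        rw [this]
        have : 0 ≤ |y| / x := by positivity
        nlinarith
      rw [mul_pow, h3]
      calc _ ≤ _ := h4
        _ = _ := h5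
        _ ≤ _ := mul_le_mul_of_nonneg_left h6 (sq_nonneg _)
    exact (le_abs_self _).trans (abs_le_of_sq_le_sq h2 (by positivity))
  have hy0 : 0 ≤ |y| := abs_nonneg y
  rw [hcz]
  calc (Real.pi ^ (1 - 2 * x))⁻¹ * (B / A) ≤ 1 * (B / A) :=
        mul_le_mul_of_nonneg_right hpi (by positivity)
    _ = B / A := one_mul _
    _ ≤ Real.Gamma (1 - x) / Real.Gamma x * (1 + |y| / x) := hBA
    _ ≤ Real.Gamma (1 - x) / Real.Gamma x * ((1 + 1 / x) * (1 + |y|)) := by
        apply mul_le_mul_of_nonneg_left _ (by positivity)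
        have h7 : 0 < 1 / x := by positivity
        have h8 : |y| / x = (1 / x) * |y| := by ring
        rw [h8]
        nlinarith
    _ = _ := by ring

lemma differentiableAt_cz (z : ℂ) (h0 : 0 < z.re) (h1 : z.re < 1) : DifferentiableAt ℂ cz z := by
  have h2 : DifferentiableAt ℂ Complex.Gamma z := by
    apply Complex.differentiableAt_Gamma
    intro m hm
    have : z.re = -(m : ℝ) := by rw [hm]; simp
    have h3 : (0 : ℝ) ≤ m := Nat.cast_nonneg m
    linarith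
  have h3 : DifferentiableAt ℂ (fun z : ℂ => Complex.Gamma (1 - z)) z := by
    have h4 : DifferentiableAt ℂ Complex.Gamma (1 - z) := by
      apply Complex.differentiableAt_Gamma
      intro m hm
      have : (1 - z).re = -(m : ℝ) := by rw [hm]; simp
      have h5 : (0 : ℝ) ≤ m := Nat.cast_nonneg m
      simp at this
      linarith
    exact DifferentiableAt.comp z h4 (by fun_prop)
  have h4 : DifferentiableAt ℂ (fun z : ℂ => (Real.pi : ℂ) ^ (1 - 2 * z)) z := by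
    apply DifferentiableAt.const_cpow (by fun_prop)
    left
    exact_mod_cast Real.pi_ne_zero
  have h5 : Complex.Gamma (1 - z) ≠ 0 := by
    apply Complex.Gamma_ne_zero_of_re_pos
    simp; linarith
  unfold cz
  exact (h4.mul h2).div h3 h5

lemma cz_real (x : ℝ) :
    cz (x : ℂ) = ((Real.pi ^ (1 - 2 * x) * (Real.Gamma x / Real.Gamma (1 - x)) : ℝ) : ℂ) := by
  unfold cz
  have h1 : Complex.Gamma ((x : ℝ) : ℂ) = ((Real.Gamma x : ℝ) : ℂ) := Complex.Gamma_ofReal x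
  have h2 : Complex.Gamma (1 - (x : ℂ)) = ((Real.Gamma (1 - x) : ℝ) : ℂ) := by
    rw [← Complex.Gamma_ofReal]; congr 1; push_cast; ring
  have h3 : (Real.pi : ℂ) ^ (1 - 2 * (x : ℂ)) = ((Real.pi ^ (1 - 2 * x) : ℝ) : ℂ) := by
    rw [Complex.ofReal_cpow Real.pi_pos.le]; push_cast; rfl
  rw [h1, h2, h3]
  push_cast
  ring

end GrwAux

open GrwAux in
/-- (Grw) -/
theorem grw (hG : StmtGam) : StmtGrw := by
  intro x₀ hx₀ hx₁
  have hdiff : DifferentiableOn ℂ (fun z => (cz z)⁻¹) {z | 0 < z.re ∧ z.re < 1} := by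
    intro z hz
    exact ((differentiableAt_cz z hz.1 hz.2).inv (cz_ne_zero z hz.1 hz.2)).differentiableWithinAt
  refine ⟨?_, hdiff, hdiff.continuousOn, cz_conj, ?_⟩
  · -- the compactness argument
    have hcont : ContinuousOn
        (fun x : ℝ => Real.Gamma (1 - x) / Real.Gamma x * (1 + 1 / x)) (Set.Icc x₀ (1 / 2)) := by
      intro x hx
      have hxpos : 0 < x := lt_of_lt_of_le hx₀ hx.1
      have hx1 : 0 < 1 - x := by linarith [hx.2]
      have h1 : ContinuousAt Real.Gamma x := by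
        apply DifferentiableAt.continuousAt (𝕜 := ℝ)
        apply Real.differentiableAt_Gamma
        intro m hm
        have h3 : (0 : ℝ) ≤ m := Nat.cast_nonneg m
        linarith
      have h2 : ContinuousAt (fun x : ℝ => Real.Gamma (1 - x)) x := by
        have h4 : ContinuousAt Real.Gamma (1 - x) := by
          apply DifferentiableAt.continuousAt (𝕜 := ℝ)
          apply Real.differentiableAt_Gamma
          intro m hm
          have h3 : (0 : ℝ) ≤ m := Nat.cast_nonneg m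
          linarith
        exact ContinuousAt.comp (f := fun x : ℝ => 1 - x) h4 (by fun_prop)
      have h5 : ContinuousAt (fun x : ℝ => 1 + 1 / x) x := by
        apply ContinuousAt.add continuousAt_const
        exact ContinuousAt.div continuousAt_const continuousAt_id hxpos.ne'
      exact ((h2.div h1 (Real.Gamma_pos_of_pos hxpos).ne').mul h5).continuousWithinAt
    obtain ⟨C, hC⟩ := isCompact_Icc.bddAbove_image hcont
    refine ⟨max C 1, by positivity, ?_⟩
    intro z hz1 hz2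
    have hzpos : 0 < z.re := lt_of_lt_of_le hx₀ hz1
    refine ⟨cz_ne_zero z hzpos (by linarith), ?_⟩
    refine (inv_cz_le hG z hzpos hz2).trans ?_
    have h1 := hC ⟨z.re, ⟨hz1, hz2⟩, rfl⟩
    have h2 : 0 ≤ 1 + |z.im| := by positivity
    exact mul_le_mul_of_nonneg_right (le_trans h1 (le_max_left _ _)) h2
  · intro p hp
    have hp0 : 0 < p := by linarith
    have h1 : cz (1 / p : ℝ) = ((Real.pi ^ (1 - 2 / p) * gamp p : ℝ) : ℂ) := by
      rw [cz_real]
      unfold gamp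
      congr 3
      ring
    refine ⟨h1, ?_⟩
    have hg : 0 ≤ gamp p := by
      unfold gamp
      apply div_nonneg
      · exact (Real.Gamma_pos_of_pos (by positivity)).le
      · apply Real.Gamma_nonneg_of_nonneg
        have : 1 / p ≤ 1 / 2 := by
          apply one_div_le_one_div_of_le <;> linarith
        linarith
    rw [h1, Complex.norm_real, Real.norm_of_nonneg (by positivity)]
    unfold CHp
    rw [Real.mul_rpow (by positivity) hg, ← Real.rpow_mul Real.pi_pos.le]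
    congr 2
    field_simp

end Pool.Agent.Lib.MP_dd244f_an.Rp
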