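import Pool.Agent.Lib.MP_dd244f_an.Rp.StmtsH
import Pool.Agent.Lib.MP_dd244f_an.Four.Fac
import Pool.Agent.Lib.MP_dd244f_an.Four.L2

/-!
Full operator, all real `p`: module HLPd (density: from nice data to Schwartz functions).
-/

set_option autoImplicit false

namespace Pool.Agent.Lib.MP_dd244f_an.Rp

open MeasureTheory Filter Topology Finset
open Pool.Agent.Lib.MP_dd244f_an.Joint (st ct Mst ratio)
open Pool.Agent.Lib.MP_dd244f_an.Four
open Pool.Agent.Lib.MP_dd244f_an.Even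
open Pool.Agent.Lib.MP_dd244f_an.Unif (SC)
open scoped SchwartzMap ENNReal NNReal ContDiff

namespace HLPdAux

/-- the cutoff -/
noncomputable def bj (j : ℕ) (ζ : ℂ) : ℝ := bd (-(j : ℤ)) j ζ

theorem bj_cont (j : ℕ) : Continuous (bj j) := FacAux.bd_cont _ _

theorem bj_small {j : ℕ} {ζ : ℂ} (h : ‖ζ‖ ≤ (2 : ℝ) ^ (-(j : ℤ))) : bj j ζ = 0 := by
  unfold bj bd
  rw [FacAux.lo_one h, FacAux.lo_one (h.trans (zpow_le_zpow_right₀ (by norm_num) (by omega))),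
    sub_self]

theorem bj_large {j : ℕ} {ζ : ℂ} (h : 2 * (2 : ℝ) ^ (j : ℤ) ≤ ‖ζ‖) : bj j ζ = 0 := by
  have h1 : (2 : ℝ) ^ (-(j : ℤ)) ≤ (2 : ℝ) ^ (j : ℤ) :=
    zpow_le_zpow_right₀ (by norm_num) (by omega)
  have h2 : (0 : ℝ) < (2 : ℝ) ^ (-(j : ℤ)) := by positivity
  have h3 : (0 : ℝ) < (2 : ℝ) ^ (j : ℤ) := by positivity
  unfold bj bd
  rw [FacAux.lo_zero (by nlinarith), FacAux.lo_zero (by nlinarith), sub_self]

theorem bj_abs (j : ℕ) (ζ : ℂ) : |bj j ζ| ≤ 1 := by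
  have h1 := FacAux.lo_mem (-(j : ℤ)) ζ
  have h2 := FacAux.lo_mem (j : ℤ) ζ
  unfold bj bd
  rw [abs_le]
  constructor <;> linarith [h1.1, h1.2, h2.1, h2.2]

theorem bj_lim {ζ : ℂ} (hζ : ζ ≠ 0) : Tendsto (fun j : ℕ => bj j ζ) atTop (𝓝 1) := by
  have h0 : 0 < ‖ζ‖ := norm_pos_iff.2 hζ
  have e1 : ∀ᶠ R : ℕ in atTop, ‖ζ‖ ≤ (2 : ℝ) ^ R := by
    have := tendsto_pow_atTop_atTop_of_one_lt (r := (2 : ℝ)) (by norm_num)
    exact this.eventually_ge_atTop ‖ζ‖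
  have e2 : ∀ᶠ R : ℕ in atTop, 2 / ‖ζ‖ ≤ (2 : ℝ) ^ R := by
    have := tendsto_pow_atTop_atTop_of_one_lt (r := (2 : ℝ)) (by norm_num)
    exact this.eventually_ge_atTop (2 / ‖ζ‖)
  refine tendsto_const_nhds.congr' ?_
  filter_upwards [e1, e2] with R h1 h2
  have h3 : lo (R : ℤ) ζ = 1 := FacAux.lo_one (by simpa using h1)
  have h4 : lo (-(R : ℤ)) ζ = 0 := by
    apply FacAux.lo_zero
    have hp : (0 : ℝ) < (2 : ℝ) ^ R := by positivity
    have h5 : (2 : ℝ) ^ (-(R : ℤ)) = ((2 : ℝ) ^ R)⁻¹ := by simp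
    rw [h5]
    have h6 : 2 * ((2 : ℝ) ^ R)⁻¹ ≤ ‖ζ‖ := by
      rw [div_le_iff₀ h0] at h2
      rw [← div_eq_mul_inv, div_le_iff₀ hp]
      linarith
    have h7 : 0 ≤ ((2 : ℝ) ^ R)⁻¹ := by positivity
    nlinarith
  unfold bj bd
  rw [h3, h4]
  ring

/-- the cut function -/
noncomputable def Hj (h : ℂ → ℂ) (j : ℕ) (ζ : ℂ) : ℂ := ((bj j ζ : ℝ) : ℂ) * h ζ

theorem Hj_cont {h : ℂ → ℂ} (hc : Continuous h) (j : ℕ) : Continuous (Hj h j) :=
  (Complex.continuous_ofReal.comp (bj_cont j)).mul hc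

theorem norm_Hj_le (h : ℂ → ℂ) (j : ℕ) (ζ : ℂ) : ‖Hj h j ζ‖ ≤ ‖h ζ‖ := by
  unfold Hj
  rw [norm_mul, Complex.norm_real, Real.norm_eq_abs]
  exact mul_le_of_le_one_left (norm_nonneg _) (bj_abs j ζ)

/-- the density -/
noncomputable def uj (h : ℂ → ℂ) (p : ℝ) (j : ℕ) (ζ : ℂ) : ℝ := (‖Hj h j ζ‖ * ‖ζ‖ ^ 2) ^ p

theorem uj_ne {h : ℂ → ℂ} {p : ℝ} (hp : 0 < p) {j : ℕ} {ζ : ℂ} (hu : uj h p j ζ ≠ 0) :
    Hj h j ζ ≠ 0 ∧ ζ ≠ 0 := by
  constructor
  · intro h0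
    apply hu
    unfold uj
    rw [h0, norm_zero, zero_mul, Real.zero_rpow hp.ne']
  · intro h0
    apply hu
    unfold uj
    rw [h0, norm_zero]
    norm_num
    exact Real.zero_rpow hp.ne'

theorem hz_uj {h : ℂ → ℂ} {p : ℝ} (hp : 0 < p) (j : ℕ) (ζ : ℂ) :
    hz (uj h p j) (fun ζ => Complex.arg (Hj h j ζ)) ((1 / p : ℝ) : ℂ) ζ = Hj h j ζ := by
  unfold hz
  split_ifs with h0
  · by_contra hne
    have hH : Hj h j ζ ≠ 0 := fun h1 => hne h1.symm
    have hζ : ζ ≠ 0 := by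
      rintro rfl
      apply hH
      unfold Hj
      rw [bj_small (by rw [norm_zero]; positivity)]
      simp
    have h1 : 0 < ‖Hj h j ζ‖ * ‖ζ‖ ^ 2 := by
      have := norm_pos_iff.2 hH
      have := norm_pos_iff.2 hζ
      positivity
    have h2 : 0 < uj h p j ζ := Real.rpow_pos_of_pos h1 p
    exact h2.ne' h0
  · obtain ⟨hH, hζ⟩ := uj_ne hp h0
    have hn : 0 < ‖Hj h j ζ‖ := norm_pos_iff.2 hH
    have hz0 : 0 < ‖ζ‖ := norm_pos_iff.2 hζ
    have h1 : 0 < ‖Hj h j ζ‖ * ‖ζ‖ ^ 2 := by positivity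
    have h2 : Real.log (uj h p j ζ) = p * Real.log (‖Hj h j ζ‖ * ‖ζ‖ ^ 2) := Real.log_rpow h1 p
    rw [h2, Complex.exp_add]
    have h3 : ((1 / p : ℝ) : ℂ) * ((p * Real.log (‖Hj h j ζ‖ * ‖ζ‖ ^ 2) : ℝ) : ℂ)
        = ((Real.log (‖Hj h j ζ‖ * ‖ζ‖ ^ 2) : ℝ) : ℂ) := by
      rw [← Complex.ofReal_mul]
      congr 1
      field_simp
    rw [h3, ← Complex.ofReal_exp, Real.exp_log h1, mul_comm Complex.I]
    have h4 := Complex.norm_mul_exp_arg_mul_I (Hj h j ζ)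
    rw [← mul_assoc, ← Complex.ofReal_mul]
    have h5 : (‖ζ‖ ^ 2)⁻¹ * (‖Hj h j ζ‖ * ‖ζ‖ ^ 2) = ‖Hj h j ζ‖ := by
      field_simp
    rw [h5, h4]

theorem nice_uj {h : ℂ → ℂ} (hc : Continuous h) {p : ℝ} (hp : 0 < p) (j : ℕ) :
    Nice (uj h p j) (fun ζ => Complex.arg (Hj h j ζ)) := by
  refine ⟨?_, fun ζ => by unfold uj; positivity, ⟨(2 : ℝ) ^ (-(j : ℤ)), 2 * (2 : ℝ) ^ (j : ℤ),
    by positivity, fun ζ hu => ?_⟩, ?_⟩
  · unfold uj
    exact ((Hj_cont hc j).norm.mul (continuous_norm.pow 2)).rpow_const fun _ => Or.inr hp.le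
  · obtain ⟨hH, -⟩ := uj_ne hp hu
    have hb : bj j ζ ≠ 0 := by
      intro h0
      apply hH
      unfold Hj
      rw [h0]
      simp
    constructor
    · by_contra hlt
      push Not at hlt
      exact hb (bj_small hlt.le)
    · by_contra hlt
      push Not at hlt
      exact hb (bj_large hlt.le)
  · exact Complex.measurable_arg.comp (Hj_cont hc j).measurable

theorem uj_div {h : ℂ → ℂ} {p : ℝ} (hp : 2 ≤ p) (j : ℕ) (ζ : ℂ) :
    uj h p j ζ / ‖ζ‖ ^ 4 ≤ ‖h ζ‖ ^ p * ‖ζ‖ ^ (2 * p - 4) := by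
  have hp0 : 0 < p := by linarith
  by_cases hζ : ζ = 0
  · rw [hζ, norm_zero]
    norm_num
    positivity
  · have hz0 : 0 < ‖ζ‖ := norm_pos_iff.2 hζ
    unfold uj
    rw [Real.mul_rpow (norm_nonneg _) (by positivity), Real.rpow_sub hz0, ← Real.rpow_natCast ‖ζ‖ 2,
      ← Real.rpow_mul hz0.le]
    have e4 : ‖ζ‖ ^ (4 : ℝ) = ‖ζ‖ ^ 4 := by
      rw [← Real.rpow_natCast]; norm_num
    rw [e4, mul_div_assoc]
    have e5 : ((2 : ℕ) : ℝ) * p = 2 * p := by norm_num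
    rw [e5]
    exact mul_le_mul_of_nonneg_right
      (Real.rpow_le_rpow (norm_nonneg _) (norm_Hj_le h j ζ) hp0.le) (by positivity)

theorem int_rhs (h : 𝓢(ℂ, ℂ)) {p : ℝ} (hp : 2 ≤ p) :
    Integrable (fun ξ => ‖h ξ‖ ^ p * ‖ξ‖ ^ (2 * p - 4)) := by
  obtain ⟨k, hk⟩ := exists_nat_ge (2 * p - 4)
  obtain ⟨S, hS⟩ := h.decay 0 0
  have hS0 : 0 < S := hS.1
  have hS' : ∀ x, ‖h x‖ ≤ S := by
    intro x
    have := hS.2 x
    simpa using this
  have hI0 : Integrable (fun x => ‖x‖ ^ 0 * ‖h x‖) := h.integrable_pow_mul volume 0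
  have hIk : Integrable (fun x => ‖x‖ ^ k * ‖h x‖) := h.integrable_pow_mul volume k
  have hI : Integrable (fun x => S ^ (p - 1) * (‖x‖ ^ 0 * ‖h x‖ + ‖x‖ ^ k * ‖h x‖)) :=
    (hI0.add hIk).const_mul _
  refine hI.mono' ?_ (Eventually.of_forall fun x => ?_)
  · refine Continuous.aestronglyMeasurable ?_
    exact (h.continuous.norm.rpow_const fun _ => Or.inr (by linarith)).mul
      (continuous_norm.rpow_const fun _ => Or.inr (by linarith))
  · rw [Real.norm_of_nonneg (by positivity)]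
    have h1 : ‖h x‖ ^ p ≤ S ^ (p - 1) * ‖h x‖ := by
      rcases (norm_nonneg (h x)).eq_or_lt with h0 | h0
      · rw [← h0, Real.zero_rpow (by linarith)]
        simp
      · have : ‖h x‖ ^ p = ‖h x‖ ^ (p - 1) * ‖h x‖ := by
          rw [← Real.rpow_add_one h0.ne']
          congr 1
          ring
        rw [this]
        exact mul_le_mul_of_nonneg_right (Real.rpow_le_rpow h0.le (hS' x) (by linarith)) h0.le
    have h2 : ‖x‖ ^ (2 * p - 4) ≤ 1 + ‖x‖ ^ k := by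
      rcases le_or_gt ‖x‖ 1 with h0 | h0
      · have := Real.rpow_le_one (norm_nonneg x) h0 (by linarith : 0 ≤ 2 * p - 4)
        have h3 : 0 ≤ ‖x‖ ^ k := by positivity
        linarith
      · have := Real.rpow_le_rpow_of_exponent_le h0.le hk
        rw [Real.rpow_natCast] at this
        linarith
    calc ‖h x‖ ^ p * ‖x‖ ^ (2 * p - 4) ≤ (S ^ (p - 1) * ‖h x‖) * (1 + ‖x‖ ^ k) :=
          mul_le_mul h1 h2 (by positivity) (by positivity)
      _ = _ := by ring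

theorem gamp_nonneg {p : ℝ} (hp : 2 ≤ p) : 0 ≤ gamp p := by
  unfold gamp
  have h1 : 0 < 1 / p := by positivity
  have h2 : 1 / p ≤ 1 / 2 := one_div_le_one_div_of_le (by norm_num) hp
  have h3 : 0 < 1 - 1 / p := by linarith
  have := Real.Gamma_pos_of_pos h1
  have := Real.Gamma_pos_of_pos h3
  positivity

theorem CHp_nonneg {p : ℝ} (hp : 2 ≤ p) : 0 ≤ CHp p := by
  unfold CHp
  have := gamp_nonneg hp
  positivity

end HLPdAux

open HLPdAux

theorem hlpd : StmtHLPd := by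
  intro p κ hp hκ hN h
  have hp0 : 0 < p := by linarith
  have hc : Continuous (h : ℂ → ℂ) := h.continuous
  have hint : Integrable (h : ℂ → ℂ) := h.integrable
  have hjint : ∀ j, Integrable (Hj h j) := fun j =>
    hint.mono (Hj_cont hc j).aestronglyMeasurable (Eventually.of_forall fun ζ => norm_Hj_le h j ζ)
  set R : ℝ := κ * CHp p * ∫ ξ, ‖h ξ‖ ^ p * ‖ξ‖ ^ (2 * p - 4) with hR
  have hR0 : 0 ≤ R := by
    have h1 := CHp_nonneg hp
    have h2 : 0 ≤ ∫ ξ, ‖h ξ‖ ^ p * ‖ξ‖ ^ (2 * p - 4) := integral_nonneg fun _ => by positivity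
    positivity
  -- the bound for the cut functions
  have hb : ∀ j, ∫⁻ x, ‖iF (Hj h j) x‖ₑ ^ p ≤ ENNReal.ofReal R := by
    intro j
    have h1 := hN _ _ (nice_uj hc hp0 j)
    have e1 : hz (uj h p j) (fun ζ => Complex.arg (Hj h j ζ)) ((1 / p : ℝ) : ℂ) = Hj h j :=
      funext fun ζ => hz_uj hp0 j ζ
    rw [e1] at h1
    refine h1.trans (ENNReal.ofReal_le_ofReal ?_)
    refine mul_le_mul_of_nonneg_left ?_ (mul_nonneg hκ (CHp_nonneg hp))
    exact integral_mono_of_nonneg (Eventually.of_forall fun ζ => by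
        simp only [Pi.zero_apply]
        unfold uj
        positivity) (int_rhs h hp) (Eventually.of_forall fun ζ => uj_div hp j ζ)
  -- pointwise convergence
  have hlim : ∀ x, Tendsto (fun j => iF (Hj h j) x) atTop (𝓝 (iF h x)) := by
    intro x
    unfold iF
    refine tendsto_integral_of_dominated_convergence (fun ζ => ‖h ζ‖) (fun j => ?_) hint.norm
      (fun j => Eventually.of_forall fun ζ => ?_) ?_
    · exact ((continuous_ch x).mul (Hj_cont hc j)).aestronglyMeasurable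
    · rw [norm_mul, norm_ch, one_mul]
      exact norm_Hj_le h j ζ
    · have h0 : ∀ᵐ ζ : ℂ, ζ ≠ 0 := by
        simp [ae_iff]
      filter_upwards [h0] with ζ hζ
      refine Tendsto.const_mul _ ?_
      have h1 : Tendsto (fun j : ℕ => ((bj j ζ : ℝ) : ℂ) * h ζ) atTop (𝓝 (((1 : ℝ) : ℂ) * h ζ)) :=
        ((Complex.continuous_ofReal.tendsto _).comp (bj_lim hζ)).mul_const _
      simpa [Hj] using h1
  have hlim2 : ∀ x, Tendsto (fun j => ‖iF (Hj h j) x‖ₑ ^ p) atTop (𝓝 (‖iF h x‖ₑ ^ p)) := by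
    intro x
    exact (ENNReal.continuous_rpow_const.tendsto _).comp ((continuous_enorm.tendsto _).comp (hlim x))
  have hF : ∫⁻ x, ‖iF h x‖ₑ ^ p ≤ ENNReal.ofReal R := by
    calc ∫⁻ x, ‖iF h x‖ₑ ^ p = ∫⁻ x, liminf (fun j => ‖iF (Hj h j) x‖ₑ ^ p) atTop := by
          refine lintegral_congr fun x => ?_
          exact (hlim2 x).liminf_eq.symm
      _ ≤ liminf (fun j => ∫⁻ x, ‖iF (Hj h j) x‖ₑ ^ p) atTop := by
          refine lintegral_liminf_le fun j => ?_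
          exact ((iF_continuous (hjint j)).enorm.measurable).pow_const p
      _ ≤ ENNReal.ofReal R := by
          refine liminf_le_of_le (by isBoundedDefault) fun b hb' => ?_
          obtain ⟨j, hj⟩ := hb'.exists
          exact hj.trans (hb j)
  rw [integral_eq_lintegral_of_nonneg_ae (Eventually.of_forall fun x => by
    simp only [Pi.zero_apply]; positivity)
    (((iF_continuous hint).norm.rpow_const fun _ => Or.inr hp0.le).aestronglyMeasurable)]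
  have e2 : ∀ x, ENNReal.ofReal (‖iF h x‖ ^ p) = ‖iF h x‖ₑ ^ p := by
    intro x
    rw [← ENNReal.ofReal_rpow_of_nonneg (norm_nonneg _) hp0.le, ofReal_norm]
  simp only [e2]
  exact ENNReal.toReal_le_of_le_ofReal hR0 hF

end Pool.Agent.Lib.MP_dd244f_an.Rp
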