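import Pool.Agent.Lib.MP_dd244f_an.Rp.StmtsH

/-!
The sharp Hardy-Littlewood-Paley inequality: even exponents (module HLPev).
-/

set_option autoImplicit false

namespace Pool.Agent.Lib.MP_dd244f_an.Rp

open MeasureTheory Filter Topology
open Pool.Agent.Lib.MP_dd244f_an.Four
open Pool.Agent.Lib.MP_dd244f_an.Even
open scoped ENNReal SchwartzMap

namespace HLPevAux

/-- Bochner integral of a nonnegative function against the lower integral -/
lemma integral_le_toReal (f : ℂ → ℝ) (hf : ∀ x, 0 ≤ f x) :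
    ∫ x, f x ≤ (∫⁻ x, ENNReal.ofReal (f x)).toReal := by
  by_cases hm : AEStronglyMeasurable f volume
  · rw [integral_eq_lintegral_of_nonneg_ae (Eventually.of_forall hf) hm]
  · rw [integral_non_aestronglyMeasurable hm]
    exact ENNReal.toReal_nonneg

/-- Schwartz functions: weighted powers are integrable -/
lemma schwartz_int (h : 𝓢(ℂ, ℂ)) (m N : ℕ) (hN : 1 ≤ N) :
    Integrable (fun ξ : ℂ => ‖h ξ‖ ^ N * ‖ξ‖ ^ m) := by
  obtain ⟨M, rfl⟩ : ∃ M, N = M + 1 := ⟨N - 1, by omega⟩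
  obtain ⟨C, hC⟩ := h.decay 0 0
  have hB : ∀ x, ‖h x‖ ≤ C := by
    intro x
    have := hC.2 x
    simpa using this
  have hb := (h.integrable_pow_mul volume m).const_mul (C ^ M)
  refine hb.mono' ?_ (Eventually.of_forall fun ξ => ?_)
  · exact ((h.continuous.norm.pow _).mul (continuous_norm.pow _)).aestronglyMeasurable
  · rw [Real.norm_eq_abs, abs_of_nonneg (by positivity), pow_succ]
    have h1 : ‖h ξ‖ ^ M ≤ C ^ M := pow_le_pow_left₀ (norm_nonneg _) (hB ξ) M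
    have h2 : 0 ≤ ‖ξ‖ ^ m * ‖h ξ‖ := by positivity
    have := mul_le_mul_of_nonneg_right h1 h2
    linarith

lemma CHp_even (k : ℕ) : CHp (2 * k + 2) = CH k := by
  unfold CHp CH gamp gamK
  have e1 : (2 * (k : ℝ) + 2 - 2) = ((2 * k : ℕ) : ℝ) := by
    push_cast
    ring
  have e2 : (2 * (k : ℝ) + 2) = ((2 * k + 2 : ℕ) : ℝ) := by
    push_cast
    ring
  have e3 : 2 * ((k : ℝ) + 1) = 2 * (k : ℝ) + 2 := by ring
  rw [e3, e1, Real.rpow_natCast]
  congr 1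
  conv_lhs => rw [e2]
  rw [Real.rpow_natCast]
  push_cast
  rfl

end HLPevAux

open HLPevAux in
/-- (HLPev) -/
theorem hlpev (hK : Even.StmtHLPK) : StmtHLPev := by
  intro k hk h
  have hI := schwartz_int h (4 * k) (2 * k + 2) (by omega)
  have hint : Integrable (h : ℂ → ℂ) := h.integrable
  have key := hK k hk h hint
  have hCH : 0 ≤ CH k := by
    unfold CH gamK
    have hk0 : (0 : ℝ) ≤ k := Nat.cast_nonneg k
    have h1 : 0 < 1 / (2 * ((k : ℝ) + 1)) := by positivity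
    have h2 : 1 / (2 * ((k : ℝ) + 1)) < 1 := by
      rw [div_lt_one (by positivity)]
      linarith
    have g1 := Real.Gamma_pos_of_pos h1
    have g2 : 0 < Real.Gamma (1 - 1 / (2 * ((k : ℝ) + 1))) :=
      Real.Gamma_pos_of_pos (by linarith)
    positivity
  have hR : ∫⁻ ξ, ‖h ξ‖ₑ ^ (2 * k + 2) * ‖ξ‖ₑ ^ (4 * k)
      = ENNReal.ofReal (∫ ξ, ‖h ξ‖ ^ (2 * k + 2) * ‖ξ‖ ^ (4 * k)) := by
    rw [ofReal_integral_eq_lintegral_ofReal hI (Eventually.of_forall fun x => by positivity)]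
    refine lintegral_congr fun ξ => ?_
    rw [ENNReal.ofReal_mul (by positivity), ENNReal.ofReal_pow (norm_nonneg _),
      ENNReal.ofReal_pow (norm_nonneg _), ofReal_norm, ofReal_norm]
  have hL : ∫⁻ x, ENNReal.ofReal (‖iF h x‖ ^ (2 * k + 2)) = ∫⁻ x, ‖iF h x‖ₑ ^ (2 * k + 2) := by
    refine lintegral_congr fun x => ?_
    rw [ENNReal.ofReal_pow (norm_nonneg _), ofReal_norm]
  have hexp : (2 * (k : ℝ) + 2) = ((2 * k + 2 : ℕ) : ℝ) := by
    push_cast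
    ring
  have hexp2 : 2 * (2 * (k : ℝ) + 2) - 4 = ((4 * k : ℕ) : ℝ) := by
    push_cast
    ring
  have hI0 : 0 ≤ ∫ ξ, ‖h ξ‖ ^ (2 * k + 2) * ‖ξ‖ ^ (4 * k) :=
    integral_nonneg fun ξ => by positivity
  rw [one_mul, CHp_even]
  have eL : ∫ x, ‖iF h x‖ ^ (2 * (k : ℝ) + 2) = ∫ x, ‖iF h x‖ ^ (2 * k + 2) := by
    refine integral_congr_ae (Eventually.of_forall fun x => ?_)
    change ‖iF h x‖ ^ (2 * (k : ℝ) + 2) = ‖iF h x‖ ^ (2 * k + 2)
    rw [hexp, Real.rpow_natCast]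
  have eR : ∫ ξ, ‖h ξ‖ ^ (2 * (k : ℝ) + 2) * ‖ξ‖ ^ (2 * (2 * (k : ℝ) + 2) - 4)
      = ∫ ξ, ‖h ξ‖ ^ (2 * k + 2) * ‖ξ‖ ^ (4 * k) := by
    refine integral_congr_ae (Eventually.of_forall fun x => ?_)
    change ‖h x‖ ^ (2 * (k : ℝ) + 2) * ‖x‖ ^ (2 * (2 * (k : ℝ) + 2) - 4)
      = ‖h x‖ ^ (2 * k + 2) * ‖x‖ ^ (4 * k)
    rw [hexp2, hexp, Real.rpow_natCast, Real.rpow_natCast]
  rw [eL, eR]
  refine (integral_le_toReal _ fun x => by positivity).trans ?_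
  rw [hL]
  rw [hR, ← ENNReal.ofReal_mul hCH] at key
  exact ENNReal.toReal_le_of_le_ofReal (mul_nonneg hCH hI0) key

end Pool.Agent.Lib.MP_dd244f_an.Rp
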