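import Pool.Agent.Lib.MP_dd244f_an.Rp.LineTools

/-!
(LineL) positive definiteness on the lower line of a strip.
-/

set_option autoImplicit false

namespace Pool.Agent.Lib.MP_dd244f_an.Rp

open MeasureTheory Filter Topology Finset
open LineTools

/-- `(1 + Y² / n²) ^ n / cosh² (π Y / 2)` is positive definite -/
theorem pd_lower (hP : StmtPDc) (hG : StmtGam) (hC : StmtCosh) (n : ℕ) (hn : 1 ≤ n) :
    PD (fun Y => D n Y ^ n / Real.cosh (Real.pi * Y / 2) ^ 2) := by
  set m : ℕ := (n + 1) / 2 with hm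
  have hm1 : n ≤ 2 * m := by omega
  have hm2 : 2 * m ≤ n + 1 := by omega
  have hn0 : (0 : ℝ) < n := by exact_mod_cast hn
  have h1 : PD (fun Y => ∏ j ∈ Finset.range m, (D n Y / D (2 * j + 1) Y)) := by
    refine pd_prod hP _ _ (fun j hj => pd_div hP (by positivity) ?_)
    have := Finset.mem_range.1 hj
    have h2 : 2 * j + 1 ≤ n := by omega
    exact_mod_cast h2
  refine pd_congr (pd_mul hP (pd_mul hP (pd_pow hP (pd_tail hP hG hC m) 2) (pd_pow hP h1 2))
    (pd_pow hP (pd_inv hP hn0) (2 * m - n))) (fun Y => ?_)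
  have e1 : D n Y ^ (2 * m) = D n Y ^ n * D n Y ^ (2 * m - n) := by
    rw [← pow_add]
    congr 1
    omega
  rw [Finset.prod_div_distrib, Finset.prod_const, Finset.card_range]
  have q1 : ∏ j ∈ Finset.range m, D (2 * (j : ℝ) + 1) Y ≠ 0 :=
    Finset.prod_ne_zero_iff.2 (fun j _ => D_ne _ _)
  have q2 := (Real.cosh_pos (Real.pi * Y / 2)).ne'
  have q3 : D n Y ^ (2 * m - n) ≠ 0 := pow_ne_zero _ (D_ne _ _)
  rw [div_pow, div_pow, div_pow, one_pow, ← pow_mul, mul_comm m 2, e1]
  field_simp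

/-- (LineL) -/
theorem lineL (hP : StmtPDc) (hG : StmtGam) (hC : StmtCosh) : StmtLineL := by
  intro k t hk h1 h2
  have h := pd_fl hP hG hC k (by omega) (B := (k : ℝ) + 1) (by positivity) h1 h2 ?_
  · exact h
  · have := pd_lower hP hG hC (k + 1) (by omega)
    rwa [Nat.cast_add, Nat.cast_one] at this

end Pool.Agent.Lib.MP_dd244f_an.Rp
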