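import Pool.Agent.Lib.MP_dd244f_an.Rp.StmtsH

/-!
Tools for the modules (LineL), (LineU), (LineT): positive definite functions, the infinite
products, and the reduction of the line functions.
-/

set_option autoImplicit false

namespace Pool.Agent.Lib.MP_dd244f_an.Rp

namespace LineTools

open MeasureTheory Filter Topology Finset

/-- the factor `1 + Y² / a²` -/
noncomputable def D (a Y : ℝ) : ℝ := 1 + Y ^ 2 / a ^ 2

theorem D_pos (a Y : ℝ) : 0 < D a Y := by unfold D; positivity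

theorem D_ne (a Y : ℝ) : D a Y ≠ 0 := (D_pos a Y).ne'

theorem pd_congr {f g : ℝ → ℝ} (hf : PD f) (h : ∀ y, f y = g y) : PD g := by
  have : f = g := funext h
  rwa [← this]

theorem pd_const (h : StmtPDc) {c : ℝ} (hc : 0 ≤ c) : PD (fun _ => c) := h.1 c hc

theorem pd_mul (h : StmtPDc) {f g : ℝ → ℝ} (hf : PD f) (hg : PD g) :
    PD (fun y => f y * g y) := (h.2.1 f g 0 le_rfl hf hg).1

theorem pd_add (h : StmtPDc) {f g : ℝ → ℝ} (hf : PD f) (hg : PD g) :
    PD (fun y => f y + g y) := (h.2.1 f g 0 le_rfl hf hg).2.1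

theorem pd_smul (h : StmtPDc) {f : ℝ → ℝ} {c : ℝ} (hc : 0 ≤ c) (hf : PD f) :
    PD (fun y => c * f y) := (h.2.1 f f c hc hf hf).2.2

theorem pd_scale (h : StmtPDc) {f : ℝ → ℝ} (c : ℝ) (hf : PD f) :
    PD (fun y => f (c * y)) := h.2.2.1 f c hf

theorem pd_inv (h : StmtPDc) {A : ℝ} (hA : 0 < A) : PD (fun y => 1 / D A y) :=
  h.2.2.2.1 A hA

theorem pd_div (h : StmtPDc) {A B : ℝ} (hA : 0 < A) (hAB : A ≤ B) :
    PD (fun y => D B y / D A y) := h.2.2.2.2.1 A B hA hAB

theorem pd_lim (h : StmtPDc) {f : ℕ → ℝ → ℝ} {g : ℝ → ℝ} (hf : ∀ N, PD (f N))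
    (hl : ∀ y, Tendsto (fun N => f N y) atTop (𝓝 (g y))) (hg : Continuous g) : PD g :=
  h.2.2.2.2.2.1 f g hf hl hg

theorem pd_pow (h : StmtPDc) {f : ℝ → ℝ} (hf : PD f) (n : ℕ) : PD (fun y => f y ^ n) := by
  induction n with
  | zero => exact pd_congr (pd_const h zero_le_one) (fun y => by simp)
  | succ n ih => exact pd_congr (pd_mul h ih hf) (fun y => by rw [pow_succ])

theorem pd_prod (h : StmtPDc) {ι : Type} (s : Finset ι) (f : ι → ℝ → ℝ)
    (hf : ∀ i ∈ s, PD (f i)) : PD (fun y => ∏ i ∈ s, f i y) := by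
  classical
  induction s using Finset.induction_on with
  | empty => exact pd_congr (pd_const h zero_le_one) (fun y => by simp)
  | insert a s ha ih =>
    refine pd_congr (pd_mul h (hf a (Finset.mem_insert_self a s))
      (ih (fun i hi => hf i (Finset.mem_insert_of_mem hi)))) (fun y => ?_)
    rw [Finset.prod_insert ha]

/-! ### The product of the hyperbolic cosine -/

theorem cosh_add_one (u : ℝ) : Real.cosh (2 * u) + 1 = 2 * Real.cosh u ^ 2 := by
  rw [Real.cosh_two_mul]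
  have := Real.cosh_sq u
  linarith

theorem tendsto_cosh (hG : StmtGam) (hC : StmtCosh) (Y : ℝ) :
    Tendsto (fun N : ℕ => ∏ j ∈ Finset.range N, D (2 * j + 1) Y) atTop
      (𝓝 (Real.cosh (Real.pi * Y / 2))) := by
  obtain ⟨hne, ht⟩ := hG (1 / 2) (Y / 2) (by norm_num)
  have e1 : (((1 / 2 : ℝ) : ℂ) + Complex.I * ((Y / 2 : ℝ) : ℂ)) = (1 + Complex.I * Y) / 2 := by
    push_cast; ring
  rw [e1] at hne ht
  have hc := hC 0 Y (by norm_num) (by norm_num)
  have e2 : (1 + ((0 : ℝ) : ℂ) + Complex.I * Y) / 2 = (1 + Complex.I * Y) / 2 := by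
    push_cast; ring
  have e3 : (1 - ((0 : ℝ) : ℂ) + Complex.I * Y) / 2 = (1 + Complex.I * Y) / 2 := by
    push_cast; ring
  rw [e2, e3, mul_zero, Real.cos_zero] at hc
  set G : ℝ := ‖Complex.Gamma ((1 + Complex.I * Y) / 2)‖ ^ 2 with hGdef
  have hGpos : 0 < G := by
    have : 0 < ‖Complex.Gamma ((1 + Complex.I * Y) / 2)‖ := norm_pos_iff.2 hne
    positivity
  have h2 : Real.cosh (Real.pi * Y) + 1 = 2 * Real.cosh (Real.pi * Y / 2) ^ 2 := by
    rw [← cosh_add_one]
    congr 2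
    ring
  have h3 : Real.cosh (Real.pi * Y / 2) = Real.pi / G := by
    have h4 : Real.cosh (Real.pi * Y / 2) ^ 2 = (Real.pi / G) ^ 2 := by
      rw [h2] at hc
      have : 2 * Real.cosh (Real.pi * Y / 2) ^ 2 = 2 * (Real.pi / G) ^ 2 := by
        rw [hc]
        field_simp
      linarith
    have hp : 0 ≤ Real.cosh (Real.pi * Y / 2) := (Real.cosh_pos _).le
    have hq : 0 ≤ Real.pi / G := by positivity
    exact (sq_eq_sq₀ hp hq).1 h4
  have h5 : Real.Gamma (1 / 2) ^ 2 = Real.pi := by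
    rw [Real.Gamma_one_half_eq, Real.sq_sqrt Real.pi_pos.le]
  rw [h5, ← h3] at ht
  refine ht.congr (fun N => ?_)
  refine Finset.prod_congr rfl (fun j _ => ?_)
  unfold D
  have hj : (2 * (j : ℝ) + 1) ≠ 0 := by positivity
  have hj' : (1 / 2 + (j : ℝ)) ≠ 0 := by positivity
  field_simp
  ring

/-- the tails of the product of `1 / cosh` -/
theorem pd_tail (hP : StmtPDc) (hG : StmtGam) (hC : StmtCosh) (m : ℕ) :
    PD (fun Y => (∏ j ∈ Finset.range m, D (2 * j + 1) Y) / Real.cosh (Real.pi * Y / 2)) := by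
  refine pd_lim hP (f := fun N Y => ∏ j ∈ Finset.range N, (1 / D (2 * ((m + j : ℕ) : ℝ) + 1) Y))
    (fun N => ?_) (fun Y => ?_) ?_
  · refine pd_prod hP _ _ (fun j _ => pd_inv hP (by positivity))
  · have h1 := tendsto_cosh hG hC Y
    have h2 : Tendsto (fun N : ℕ => ∏ j ∈ Finset.range (m + N), D (2 * j + 1) Y) atTop
        (𝓝 (Real.cosh (Real.pi * Y / 2))) := by
      have := h1.comp (tendsto_add_atTop_nat m)
      refine this.congr (fun N => ?_)
      simp only [Function.comp_apply]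
      rw [add_comm]
    have h3 := (tendsto_const_nhds (x := ∏ j ∈ Finset.range m, D (2 * j + 1) Y)).div h2
      (Real.cosh_pos _).ne'
    refine h3.congr (fun N => ?_)
    change (∏ j ∈ Finset.range m, D (2 * (j : ℝ) + 1) Y) /
      (∏ j ∈ Finset.range (m + N), D (2 * (j : ℝ) + 1) Y) = _
    rw [Finset.prod_range_add]
    have h4 : ∏ j ∈ Finset.range m, D (2 * (j : ℝ) + 1) Y ≠ 0 :=
      Finset.prod_ne_zero_iff.2 (fun j _ => D_ne _ _)
    rw [div_mul_eq_div_div, div_self h4, Finset.prod_div_distrib, Finset.prod_const_one]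
  · refine Continuous.div ?_ (by fun_prop) (fun Y => (Real.cosh_pos _).ne')
    unfold D
    fun_prop

/-! ### The quotient of Gamma functions -/

theorem cont_gamma {a : ℝ} (ha : 0 < a) :
    Continuous (fun y : ℝ => ‖Complex.Gamma ((a : ℂ) + Complex.I * y)‖) := by
  refine continuous_norm.comp (continuous_iff_continuousAt.2 (fun y => ?_))
  have h1 : ContinuousAt Complex.Gamma ((a : ℂ) + Complex.I * y) := by
    refine (Complex.differentiableAt_Gamma _ (fun m hm => ?_)).continuousAt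
    have := congrArg Complex.re hm
    simp at this
    have hm0 : (0 : ℝ) ≤ m := Nat.cast_nonneg m
    linarith
  have h2 : ContinuousAt (fun y : ℝ => (a : ℂ) + Complex.I * (y : ℂ)) y := by fun_prop
  exact ContinuousAt.comp (f := fun y : ℝ => (a : ℂ) + Complex.I * (y : ℂ)) h1 h2

theorem pd_R (hP : StmtPDc) (hG : StmtGam) {x : ℝ} (hx0 : 0 < x) (hx1 : x < 1) :
    PD (fun y => ‖Complex.Gamma (((1 - x : ℝ) : ℂ) + Complex.I * y)‖ ^ 2 /
      ‖Complex.Gamma ((x : ℂ) + Complex.I * y)‖ ^ 2 / D x y) := by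
  have hx1' : 0 < 1 - x := by linarith
  set c : ℝ := Real.Gamma (1 - x) ^ 2 / Real.Gamma x ^ 2 with hc
  have hg1 : 0 < Real.Gamma (1 - x) := Real.Gamma_pos_of_pos hx1'
  have hg2 : 0 < Real.Gamma x := Real.Gamma_pos_of_pos hx0
  have hc0 : 0 < c := by positivity
  refine pd_lim hP (f := fun N y => c * ((∏ j ∈ Finset.range N,
    (D (x + ((j + 1 : ℕ) : ℝ)) y / D (1 - x + j) y)) * (1 / D (1 - x + N) y)))
    (fun N => ?_) (fun y => ?_) ?_
  · refine pd_smul hP hc0.le (pd_mul hP (pd_prod hP _ _ (fun j _ => ?_)) (pd_inv hP ?_))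
    · refine pd_div hP (by positivity) ?_
      push_cast
      linarith
    · positivity
  · obtain ⟨n1, t1⟩ := hG x y hx0
    obtain ⟨n2, t2⟩ := hG (1 - x) y hx1'
    have t1' := t1.comp (tendsto_add_atTop_nat 1)
    have t2' := t2.comp (tendsto_add_atTop_nat 1)
    have p1 : 0 < ‖Complex.Gamma ((x : ℂ) + Complex.I * y)‖ := norm_pos_iff.2 n1
    have p2 : 0 < ‖Complex.Gamma (((1 - x : ℝ) : ℂ) + Complex.I * y)‖ := norm_pos_iff.2 n2
    have h3 := (((t1'.div t2' (by positivity)).const_mul c).div_const (D x y))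
    have e : c * (Real.Gamma x ^ 2 / ‖Complex.Gamma ((x : ℂ) + Complex.I * y)‖ ^ 2 /
        (Real.Gamma (1 - x) ^ 2 / ‖Complex.Gamma (((1 - x : ℝ) : ℂ) + Complex.I * y)‖ ^ 2)) / D x y
        = ‖Complex.Gamma (((1 - x : ℝ) : ℂ) + Complex.I * y)‖ ^ 2 /
      ‖Complex.Gamma ((x : ℂ) + Complex.I * y)‖ ^ 2 / D x y := by
      congr 1
      rw [hc]
      field_simp
    rw [e] at h3
    refine h3.congr (fun N => ?_)
    simp only [Function.comp_apply, Pi.div_apply]
    change c * ((∏ j ∈ Finset.range (N + 1), D (x + j) y) /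
      ∏ j ∈ Finset.range (N + 1), D (1 - x + j) y) / D x y = _
    rw [Finset.prod_range_succ' (fun j : ℕ => D (x + j) y), Finset.prod_range_succ
      (fun j : ℕ => D (1 - x + j) y), Finset.prod_div_distrib]
    have q1 : ∏ j ∈ Finset.range N, D (1 - x + (j : ℝ)) y ≠ 0 :=
      Finset.prod_ne_zero_iff.2 (fun j _ => D_ne _ _)
    have q2 := D_ne (1 - x + N) y
    have q3 := D_ne x y
    simp only [Nat.cast_zero, add_zero]
    field_simp
  · have c1 := cont_gamma hx1'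
    have c2 := cont_gamma hx0
    refine Continuous.div (Continuous.div (c1.pow 2) (c2.pow 2) (fun y => ?_)) ?_
      (fun y => D_ne _ _)
    · have := (hG x y hx0).1
      have p1 : 0 < ‖Complex.Gamma ((x : ℂ) + Complex.I * y)‖ := norm_pos_iff.2 this
      positivity
    · unfold D
      fun_prop

/-! ### The dependence on the harmonic measure -/

theorem cosh_cos_pos {t : ℝ} (h1 : -1 < t) (h2 : t < 1) (Y : ℝ) :
    0 < Real.cosh (Real.pi * Y) + Real.cos (Real.pi * t) := by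
  have h3 : -1 < Real.cos (Real.pi * t) := by
    have h4 := Real.cos_pi
    rw [← Real.cos_abs (Real.pi * t), ← h4]
    refine Real.cos_lt_cos_of_nonneg_of_le_pi (abs_nonneg _) le_rfl ?_
    rw [abs_mul, abs_of_pos Real.pi_pos]
    have : |t| < 1 := abs_lt.2 ⟨h1, h2⟩
    nlinarith [Real.pi_pos]
  have h4 := Real.one_le_cosh (Real.pi * Y)
  linarith

theorem pd_cosh_cos (hP : StmtPDc) (hG : StmtGam) (hC : StmtCosh) {t : ℝ} (h1 : -1 < t)
    (h2 : t < 1) : PD (fun Y => 1 / (Real.cosh (Real.pi * Y) + Real.cos (Real.pi * t))) := by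
  have ha : 0 < (1 + t) / 2 := by linarith
  have hb : 0 < (1 - t) / 2 := by linarith
  set c : ℝ := Real.Gamma ((1 + t) / 2) ^ 2 * Real.Gamma ((1 - t) / 2) ^ 2 / (2 * Real.pi ^ 2)
    with hc
  have g1 := Real.Gamma_pos_of_pos ha
  have g2 := Real.Gamma_pos_of_pos hb
  have hc0 : 0 < c := by positivity
  refine pd_lim hP (f := fun N Y => c * ((∏ j ∈ Finset.range N,
    (1 / D ((1 + t) / 2 + j) (1 / 2 * Y))) * ∏ j ∈ Finset.range N,
    (1 / D ((1 - t) / 2 + j) (1 / 2 * Y)))) (fun N => ?_) (fun Y => ?_) ?_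
  · refine pd_smul hP hc0.le (pd_mul hP (pd_prod hP _ _ (fun j _ => ?_))
      (pd_prod hP _ _ (fun j _ => ?_)))
    · exact pd_scale hP (1 / 2) (pd_inv hP (A := (1 + t) / 2 + j) (by positivity))
    · exact pd_scale hP (1 / 2) (pd_inv hP (A := (1 - t) / 2 + j) (by positivity))
  · obtain ⟨n1, t1⟩ := hG ((1 + t) / 2) (1 / 2 * Y) ha
    obtain ⟨n2, t2⟩ := hG ((1 - t) / 2) (1 / 2 * Y) hb
    have hcc := hC t Y h1 h2
    have e1 : ((((1 + t) / 2 : ℝ) : ℂ) + Complex.I * ((1 / 2 * Y : ℝ) : ℂ))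
        = (1 + t + Complex.I * Y) / 2 := by
      push_cast; ring
    have e2 : ((((1 - t) / 2 : ℝ) : ℂ) + Complex.I * ((1 / 2 * Y : ℝ) : ℂ))
        = (1 - t + Complex.I * Y) / 2 := by
      push_cast; ring
    rw [e1] at n1 t1
    rw [e2] at n2 t2
    have p1 : 0 < ‖Complex.Gamma ((1 + t + Complex.I * Y) / 2)‖ := norm_pos_iff.2 n1
    have p2 : 0 < ‖Complex.Gamma ((1 - t + Complex.I * Y) / 2)‖ := norm_pos_iff.2 n2
    have i1 := t1.inv₀ (by positivity)
    have i2 := t2.inv₀ (by positivity)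
    have h3 := (i1.mul i2).const_mul c
    have e : c * ((Real.Gamma ((1 + t) / 2) ^ 2 /
        ‖Complex.Gamma ((1 + t + Complex.I * Y) / 2)‖ ^ 2)⁻¹ *
        (Real.Gamma ((1 - t) / 2) ^ 2 / ‖Complex.Gamma ((1 - t + Complex.I * Y) / 2)‖ ^ 2)⁻¹)
        = 1 / (Real.cosh (Real.pi * Y) + Real.cos (Real.pi * t)) := by
      rw [hcc, hc]
      field_simp
    rw [e] at h3
    refine h3.congr (fun N => ?_)
    simp only [← Finset.prod_inv_distrib]
    congr 2 <;>
    · refine Finset.prod_congr rfl (fun j _ => ?_)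
      exact (one_div _).symm
  · refine Continuous.div continuous_const (by fun_prop) (fun Y => (cosh_cos_pos h1 h2 Y).ne')

theorem pd_C (hP : StmtPDc) (hG : StmtGam) (hC : StmtCosh) {t : ℝ} (h1 : -1 < t)
    (h2 : t < 1) : PD (fun Y => (Real.cosh (Real.pi * Y) + 1) /
      (Real.cosh (Real.pi * Y) + Real.cos (Real.pi * t))) := by
  have hn : 0 ≤ 1 - Real.cos (Real.pi * t) := by
    have := Real.cos_le_one (Real.pi * t)
    linarith
  refine pd_congr (pd_add hP (pd_const hP zero_le_one)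
    (pd_smul hP hn (pd_cosh_cos hP hG hC h1 h2))) (fun Y => ?_)
  have := (cosh_cos_pos h1 h2 Y).ne'
  field_simp
  ring

/-! ### Reduction -/

theorem pd_fl (hP : StmtPDc) (hG : StmtGam) (hC : StmtCosh) (k : ℕ) (hk : 1 ≤ k) {B t : ℝ}
    (hB : 0 < B) (h1 : 0 < t) (h2 : t < 1)
    (hE : PD (fun Y => D B Y ^ (k + 1) / Real.cosh (Real.pi * Y / 2) ^ 2)) :
    PD (fl k (1 / (2 * k * B)) t) := by
  have hk0 : (0 : ℝ) < k := by exact_mod_cast hk
  have hk1 : (1 : ℝ) ≤ k := by exact_mod_cast hk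
  set x : ℝ := 1 / (2 * k) with hx
  have hx0 : 0 < x := by positivity
  have hx1 : x < 1 := by
    rw [hx, div_lt_one (by positivity)]
    linarith
  have hR := pd_R hP hG hx0 hx1
  have hCC := pd_C hP hG hC (t := t) (by linarith) h2
  refine pd_congr (pd_smul hP (c := x ^ 2 / 2) (by positivity)
    (pd_mul hP (pd_pow hP hR k) (pd_scale hP (2 * k * B) (pd_mul hP hE hCC)))) (fun y => ?_)
  unfold fl
  have e1 : (1 - 1 / (2 * (k : ℂ)) + Complex.I * y) = ((1 - x : ℝ) : ℂ) + Complex.I * y := by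
    rw [hx]; push_cast; ring
  have e2 : (1 / (2 * (k : ℂ)) + Complex.I * y) = (x : ℂ) + Complex.I * y := by
    rw [hx]; push_cast; ring
  rw [e1, e2]
  have e3 : Real.pi * y / (1 / (2 * k * B)) = Real.pi * (2 * k * B * y) := by
    field_simp
  rw [e3]
  set Y : ℝ := 2 * k * B * y with hY
  have e4 : D x y = D B Y := by
    unfold D
    rw [hY, hx]
    field_simp
  have e5 : y ^ 2 + (1 / (2 * (k : ℝ))) ^ 2 = x ^ 2 * D B Y := by
    rw [← e4]
    unfold D
    rw [← hx]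
    field_simp
    ring
  have e6 : Real.cosh (Real.pi * Y) + 1 = 2 * Real.cosh (Real.pi * Y / 2) ^ 2 := by
    rw [← cosh_add_one]
    congr 2
    ring
  have n1 : 0 < ‖Complex.Gamma ((x : ℂ) + Complex.I * y)‖ := norm_pos_iff.2 (hG x y hx0).1
  have n2 := (cosh_cos_pos (t := t) (by linarith) h2 Y).ne'
  have n3 := (Real.cosh_pos (Real.pi * Y / 2)).ne'
  have n4 := D_ne B Y
  rw [e5, e6, e4, pow_mul]
  generalize ‖Complex.Gamma (((1 - x : ℝ) : ℂ) + Complex.I * y)‖ = g1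
  generalize ‖Complex.Gamma ((x : ℂ) + Complex.I * y)‖ = g2 at *
  have hg2 : g2 ≠ 0 := n1.ne'
  rw [div_pow (g1 ^ 2 / g2 ^ 2) (D B Y) k, div_pow g1 g2 2]
  generalize (g1 ^ 2 / g2 ^ 2) ^ k = q
  have n5 : D B Y ^ k ≠ 0 := pow_ne_zero _ n4
  have n6 : D B Y ^ (k + 1) = D B Y ^ k * D B Y := pow_succ _ _
  rw [n6]
  field_simp

end LineTools

end Pool.Agent.Lib.MP_dd244f_an.Rp
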