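import Pool.Agent.Lib.MP_dd244f_an.Rp.LineTools

/-!
(LineU) positive definiteness on the upper line of a strip.
-/

set_option autoImplicit false

namespace Pool.Agent.Lib.MP_dd244f_an.Rp

open MeasureTheory Filter Topology Finset
open LineTools

/-- `1 / cosh` without its first `m` factors -/
noncomputable def tl (m : ℕ) (Y : ℝ) : ℝ :=
  (∏ j ∈ Finset.range m, D (2 * j + 1) Y) / Real.cosh (Real.pi * Y / 2)

theorem pd_tl (hP : StmtPDc) (hG : StmtGam) (hC : StmtCosh) (m : ℕ) : PD (tl m) :=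
  pd_tail hP hG hC m

/-- the basic quotient with two extra numerators -/
theorem pd_rN (hP : StmtPDc) (hG : StmtGam) (hC : StmtCosh) (m : ℕ) {B : ℝ} (hB : 1 ≤ B)
    (hN : (2 * (m : ℝ) + 1) ^ 2 ≤ 2 * B ^ 2 - 1) :
    PD (fun Y => D B Y ^ 2 * tl m Y / D 1 Y) := by
  have hB0 : 0 < B := by linarith
  have h1 := pd_smul hP (c := (2 * B ^ 2 - 1 - (2 * (m : ℝ) + 1) ^ 2) / B ^ 4)
    (by
      refine div_nonneg ?_ (by positivity)
      linarith) (pd_tl hP hG hC m)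
  have h2 := pd_smul hP (c := (2 * (m : ℝ) + 1) ^ 2 / B ^ 4) (by positivity)
    (pd_tl hP hG hC (m + 1))
  have h3 := pd_smul hP (c := (1 - 1 / B ^ 2) ^ 2) (by positivity)
    (pd_mul hP (pd_tl hP hG hC m) (pd_inv hP (A := 1) one_pos))
  refine pd_congr (pd_add hP (pd_add hP h1 h2) h3) (fun Y => ?_)
  have e1 : tl (m + 1) Y = tl m Y * D (2 * m + 1) Y := by
    unfold tl
    rw [Finset.prod_range_succ]
    ring
  rw [e1]
  generalize tl m Y = q
  unfold D
  have hm : (2 * (m : ℝ) + 1) ≠ 0 := by positivity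
  have hY : (1 + Y ^ 2 / 1 ^ 2 : ℝ) ≠ 0 := by positivity
  have hY' : (1 + Y ^ 2 : ℝ) ≠ 0 := by positivity
  field_simp
  ring

theorem prod_split (m : ℕ) (Y : ℝ) : ∏ j ∈ Finset.range (m + 1), D (2 * (j : ℝ) + 1) Y
    = (∏ j ∈ Finset.range m, D (2 * ((j + 1 : ℕ) : ℝ) + 1) Y) * D 1 Y := by
  rw [Finset.prod_range_succ' (fun j : ℕ => D (2 * (j : ℝ) + 1) Y)]
  norm_num

/-- the case `B = 2` -/
theorem pd_two (hP : StmtPDc) (hS : StmtSech) :
    PD (fun Y => D 2 Y ^ 4 / Real.cosh (Real.pi * Y / 2) ^ 2) := by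
  have h := hS (fun n => if n = 0 then 9 / 16 else if n = 1 then -1 / 4 else 3 / 2) 3 ?_
  · refine pd_congr (pd_pow hP h 2) (fun Y => ?_)
    have q := (Real.cosh_pos (Real.pi * Y / 2)).ne'
    unfold D
    simp [Finset.sum_range_succ, Finset.prod_range_succ]
    field_simp
    ring
  · intro q h0 h1
    simp [Finset.sum_range_succ]
    nlinarith [sq_nonneg (q - 1 / 12)]

/-- the case `B = 3` -/
theorem pd_three (hP : StmtPDc) (hG : StmtGam) (hC : StmtCosh) (hS : StmtSech) :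
    PD (fun Y => D 3 Y ^ 5 / Real.cosh (Real.pi * Y / 2) ^ 2) := by
  have h := hS (fun n => if n = 0 then 512 / 729 else if n = 1 then 128 / 729 else
    if n = 2 then -64 / 243 else 80 / 81) 4 ?_
  · have h2 := pd_mul hP (pd_div hP (A := 1) (B := 3) one_pos (by norm_num))
      (pd_tl hP hG hC 2)
    refine pd_congr (pd_mul hP h2 h) (fun Y => ?_)
    have q := (Real.cosh_pos (Real.pi * Y / 2)).ne'
    have q1 : (1 + Y ^ 2 : ℝ) ≠ 0 := by positivity
    unfold tl D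
    simp [Finset.sum_range_succ, Finset.prod_range_succ]
    field_simp
    ring
  · intro q h0 h1
    simp [Finset.sum_range_succ]
    have : 0 ≤ q ^ 3 := by positivity
    nlinarith

/-- the case of even `B ≥ 4` -/
theorem pd_even (hP : StmtPDc) (hG : StmtGam) (hC : StmtCosh) (m : ℕ) (hm : 1 ≤ m) :
    PD (fun Y => D ((2 * (m + 1) : ℕ) : ℝ) Y ^ (2 * (m + 1) + 2) /
      Real.cosh (Real.pi * Y / 2) ^ 2) := by
  have hm1 : (1 : ℝ) ≤ m := by exact_mod_cast hm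
  have hr := pd_rN hP hG hC (m + 1) (B := ((2 * (m + 1) : ℕ) : ℝ)) (by push_cast; linarith)
    (by push_cast; nlinarith)
  have hp : PD (fun Y => ∏ j ∈ Finset.range m,
      (D ((2 * (m + 1) : ℕ) : ℝ) Y / D (2 * ((j + 1 : ℕ) : ℝ) + 1) Y)) := by
    refine pd_prod hP _ _ (fun j hj => pd_div hP (by positivity) ?_)
    have := Finset.mem_range.1 hj
    have h2 : 2 * (j + 1) + 1 ≤ 2 * (m + 1) := by omega
    exact_mod_cast h2
  refine pd_congr (pd_mul hP (pd_pow hP hr 2) (pd_pow hP hp 2)) (fun Y => ?_)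
  rw [Finset.prod_div_distrib, Finset.prod_const, Finset.card_range]
  have q1 : ∏ j ∈ Finset.range m, D (2 * ((j + 1 : ℕ) : ℝ) + 1) Y ≠ 0 :=
    Finset.prod_ne_zero_iff.2 (fun j _ => D_ne _ _)
  have q2 := (Real.cosh_pos (Real.pi * Y / 2)).ne'
  have q3 := D_ne 1 Y
  unfold tl
  rw [prod_split]
  generalize D ((2 * (m + 1) : ℕ) : ℝ) Y = d
  have e1 : d ^ (2 * (m + 1) + 2) = (d ^ 2 * d ^ m) ^ 2 := by ring
  rw [e1]
  field_simp

/-- the case of odd `B ≥ 5` -/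
theorem pd_odd (hP : StmtPDc) (hG : StmtGam) (hC : StmtCosh) (m : ℕ) (hm : 2 ≤ m) :
    PD (fun Y => D ((2 * m + 1 : ℕ) : ℝ) Y ^ (2 * m + 1 + 2) /
      Real.cosh (Real.pi * Y / 2) ^ 2) := by
  have hm1 : (2 : ℝ) ≤ m := by exact_mod_cast hm
  have hr := pd_rN hP hG hC (m + 1) (B := ((2 * m + 1 : ℕ) : ℝ)) (by push_cast; linarith)
    (by push_cast; nlinarith)
  have hp : PD (fun Y => ∏ j ∈ Finset.range m,
      (D ((2 * m + 1 : ℕ) : ℝ) Y / D (2 * ((j + 1 : ℕ) : ℝ) + 1) Y)) := by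
    refine pd_prod hP _ _ (fun j hj => pd_div hP (by positivity) ?_)
    have := Finset.mem_range.1 hj
    have h2 : 2 * (j + 1) + 1 ≤ 2 * m + 1 := by omega
    exact_mod_cast h2
  have h1 := pd_div hP (A := 1) (B := ((2 * m + 1 : ℕ) : ℝ)) one_pos (by push_cast; linarith)
  refine pd_congr (pd_mul hP (pd_mul hP (pd_mul hP h1 hr) (pd_tl hP hG hC (m + 1)))
    (pd_pow hP hp 2)) (fun Y => ?_)
  rw [Finset.prod_div_distrib, Finset.prod_const, Finset.card_range]
  have q1 : ∏ j ∈ Finset.range m, D (2 * ((j + 1 : ℕ) : ℝ) + 1) Y ≠ 0 :=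
    Finset.prod_ne_zero_iff.2 (fun j _ => D_ne _ _)
  have q2 := (Real.cosh_pos (Real.pi * Y / 2)).ne'
  have q3 := D_ne 1 Y
  unfold tl
  rw [prod_split]
  generalize D ((2 * m + 1 : ℕ) : ℝ) Y = d
  have e1 : d ^ (2 * m + 1 + 2) = d ^ 3 * (d ^ m) ^ 2 := by ring
  rw [e1]
  field_simp

/-- `(1 + Y² / n²) ^ (n + 2) / cosh² (π Y / 2)` is positive definite -/
theorem pd_upper (hP : StmtPDc) (hG : StmtGam) (hC : StmtCosh) (hS : StmtSech) (n : ℕ)
    (hn : 2 ≤ n) : PD (fun Y => D n Y ^ (n + 2) / Real.cosh (Real.pi * Y / 2) ^ 2) := by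
  rcases Nat.even_or_odd' n with ⟨m, rfl | rfl⟩
  · rcases Nat.lt_or_ge m 2 with h | h
    · obtain rfl : m = 1 := by omega
      have := pd_two hP hS
      exact_mod_cast this
    · obtain ⟨m, rfl⟩ : ∃ m', m = m' + 1 := ⟨m - 1, by omega⟩
      exact pd_even hP hG hC m (by omega)
  · rcases Nat.lt_or_ge m 2 with h | h
    · obtain rfl : m = 1 := by omega
      have := pd_three hP hG hC hS
      exact_mod_cast this
    · exact pd_odd hP hG hC m h

/-- (LineU) -/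
theorem lineU (hP : StmtPDc) (hG : StmtGam) (hC : StmtCosh) (hS : StmtSech) : StmtLineU := by
  intro k t hk h1 h2
  obtain ⟨n, rfl⟩ : ∃ n, k = n + 1 := ⟨k - 1, by omega⟩
  have h := pd_fl hP hG hC (n + 1) (by omega) (B := (n : ℝ)) (by
    have : 0 < n := by omega
    exact_mod_cast this) h1 h2 (pd_upper hP hG hC hS n (by omega))
  have e : (((n + 1 : ℕ) : ℝ) - 1) = n := by push_cast; ring
  rw [e]
  exact h

end Pool.Agent.Lib.MP_dd244f_an.Rp
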