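import Pool.Agent.Lib.MP_dd244f_an.Rp.Stmts

/-!
# MP_dd244f_an, real exponents: module (Loc)

Localisation of the energy of a block.  The radial cut-off `th c₁ c₂` (a product of two bumps in
`Complex.normSq`), the heat kernel difference `hk v₂ - hk v₁` and an integration by parts (twice)
against `Ψ` compare the mass of the windowed power on the frequency annulus `Jp s L m` with the
part of the energy of the block; the error is controlled by the decay of the heat kernel and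
by a short time step.  Main theorem: `loc : StmtMono → StmtPsi → StmtE1 → StmtLoc`.
-/

set_option autoImplicit false

namespace Pool.Agent.Lib.MP_dd244f_an.Rp

open MeasureTheory Filter Topology Finset
open Pool.Agent.Lib.MP_dd244f_an.Joint (st ct Mst ratio)
open Pool.Agent.Lib.MP_dd244f_an.Four
open Pool.Agent.Lib.MP_dd244f_an.Even
open Pool.Agent.Lib.MP_dd244f_an.Unif (SC)
open scoped SchwartzMap ENNReal NNReal ContDiff

namespace LocAux

/-! ### radial functions -/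

theorem hf_normSq (y : ℂ) : HasFDerivAt (𝕜 := ℝ) (fun z : ℂ => Complex.normSq z)
    ((2 * y.re) • Complex.reCLM + (2 * y.im) • Complex.imCLM) y := by
  have h1 : HasFDerivAt (𝕜 := ℝ) (fun z : ℂ => z.re) Complex.reCLM y := Complex.reCLM.hasFDerivAt
  have h2 : HasFDerivAt (𝕜 := ℝ) (fun z : ℂ => z.im) Complex.imCLM y := Complex.imCLM.hasFDerivAt
  have h3 := (h1.mul h1).add (h2.mul h2)
  have h4 : HasFDerivAt (𝕜 := ℝ) (fun z : ℂ => Complex.normSq z)
      (y.re • Complex.reCLM + y.re • Complex.reCLM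
        + (y.im • Complex.imCLM + y.im • Complex.imCLM)) y := by
    refine h3.congr_of_eventuallyEq (Eventually.of_forall fun z => ?_)
    exact Complex.normSq_apply z
  convert h4 using 1
  ext
  simp; ring

theorem rad_hf {φ φ1 : ℝ → ℝ} (h : ∀ r, HasDerivAt φ (φ1 r) r) (y : ℂ) :
    HasFDerivAt (𝕜 := ℝ) (fun z : ℂ => φ (Complex.normSq z))
      (φ1 (Complex.normSq y) • ((2 * y.re) • Complex.reCLM + (2 * y.im) • Complex.imCLM)) y :=
  (h _).comp_hasFDerivAt y (hf_normSq y)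

theorem rad_lap {φ φ1 φ2 : ℝ → ℝ} (h : ∀ r, HasDerivAt φ (φ1 r) r)
    (h' : ∀ r, HasDerivAt φ1 (φ2 r) r) (y : ℂ) :
    lapR (fun z : ℂ => φ (Complex.normSq z)) y
      = 4 * Complex.normSq y * φ2 (Complex.normSq y) + 4 * φ1 (Complex.normSq y) := by
  have e1 : (fun z : ℂ => fderiv ℝ (fun z : ℂ => φ (Complex.normSq z)) z 1)
      = fun z => φ1 (Complex.normSq z) * (2 * z.re) := by
    funext z; rw [(rad_hf h z).fderiv]; simp
  have e2 : (fun z : ℂ => fderiv ℝ (fun z : ℂ => φ (Complex.normSq z)) z Complex.I)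
      = fun z => φ1 (Complex.normSq z) * (2 * z.im) := by
    funext z; rw [(rad_hf h z).fderiv]; simp
  have h1 : HasFDerivAt (𝕜 := ℝ) (fun z : ℂ => z.re) Complex.reCLM y := Complex.reCLM.hasFDerivAt
  have h2 : HasFDerivAt (𝕜 := ℝ) (fun z : ℂ => z.im) Complex.imCLM y := Complex.imCLM.hasFDerivAt
  have d1 := (rad_hf h' y).mul (h1.const_mul 2)
  have d2 := (rad_hf h' y).mul (h2.const_mul 2)
  unfold lapR
  rw [e1, e2]
  have f1 := d1.fderiv
  have f2 := d2.fderiv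
  rw [show (fun z : ℂ => φ1 (Complex.normSq z) * (2 * z.re))
    = (fun z : ℂ => φ1 (Complex.normSq z)) * (fun z : ℂ => 2 * z.re) from rfl, f1,
    show (fun z : ℂ => φ1 (Complex.normSq z) * (2 * z.im))
    = (fun z : ℂ => φ1 (Complex.normSq z)) * (fun z : ℂ => 2 * z.im) from rfl, f2]
  simp [Complex.normSq_apply]
  ring

/-! ### integration by parts -/

theorem ibp1 {f w : ℂ → ℝ} (hf : ContDiff ℝ 2 f) (hw : ContDiff ℝ 2 w)
    (hs : HasCompactSupport w) (e : ℂ) :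
    Integrable (fun y => fderiv ℝ (fun z => fderiv ℝ f z e) y e * w y) ∧
    Integrable (fun y => f y * fderiv ℝ (fun z => fderiv ℝ w z e) y e) ∧
    ∫ y, fderiv ℝ (fun z => fderiv ℝ f z e) y e * w y
      = ∫ y, f y * fderiv ℝ (fun z => fderiv ℝ w z e) y e := by
  have hf1 : ContDiff ℝ 1 (fun z => fderiv ℝ f z e) :=
    (hf.fderiv_right (m := 1) (by norm_num)).clm_apply contDiff_const
  have hw1 : ContDiff ℝ 1 (fun z => fderiv ℝ w z e) :=
    (hw.fderiv_right (m := 1) (by norm_num)).clm_apply contDiff_const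
  have hf2 : Continuous (fun y => fderiv ℝ (fun z => fderiv ℝ f z e) y e) :=
    (hf1.continuous_fderiv (by norm_num)).clm_apply continuous_const
  have hw2 : Continuous (fun y => fderiv ℝ (fun z => fderiv ℝ w z e) y e) :=
    (hw1.continuous_fderiv (by norm_num)).clm_apply continuous_const
  have s1 : HasCompactSupport (fun z => fderiv ℝ w z e) := hs.fderiv_apply (𝕜 := ℝ) e
  have s2 : HasCompactSupport (fun y => fderiv ℝ (fun z => fderiv ℝ w z e) y e) :=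
    s1.fderiv_apply (𝕜 := ℝ) e
  have i1 : Integrable (fun y => fderiv ℝ (fun z => fderiv ℝ f z e) y e * w y) :=
    (hf2.mul hw.continuous).integrable_of_hasCompactSupport hs.mul_left
  have i2 : Integrable (fun y => f y * fderiv ℝ (fun z => fderiv ℝ w z e) y e) :=
    (hf.continuous.mul hw2).integrable_of_hasCompactSupport s2.mul_left
  have i3 : Integrable (fun y => fderiv ℝ w y e * fderiv ℝ f y e) :=
    (hw1.continuous.mul hf1.continuous).integrable_of_hasCompactSupport s1.mul_right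
  have i4 : Integrable (fun y => w y * fderiv ℝ f y e) :=
    (hw.continuous.mul hf1.continuous).integrable_of_hasCompactSupport hs.mul_right
  have i5 : Integrable (fun y => f y * fderiv ℝ w y e) :=
    (hf.continuous.mul hw1.continuous).integrable_of_hasCompactSupport s1.mul_left
  refine ⟨i1, i2, ?_⟩
  have a1 := integral_mul_fderiv_eq_neg_fderiv_mul_of_integrable (μ := (volume : Measure ℂ))
    (f := w) (g := fun z => fderiv ℝ f z e) (v := e) i3
    (by simpa [mul_comm] using i1) i4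
    (fun x _ => hw.contDiffAt.differentiableAt (by norm_num))
    (fun x _ => hf1.contDiffAt.differentiableAt (by norm_num))
  have a2 := integral_mul_fderiv_eq_neg_fderiv_mul_of_integrable (μ := (volume : Measure ℂ))
    (f := f) (g := fun z => fderiv ℝ w z e) (v := e)
    (by simpa [mul_comm] using i3) i2 i5
    (fun x _ => hf.contDiffAt.differentiableAt (by norm_num))
    (fun x _ => hw1.contDiffAt.differentiableAt (by norm_num))
  rw [a2]
  calc ∫ y, fderiv ℝ (fun z => fderiv ℝ f z e) y e * w y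
      = ∫ y, w y * fderiv ℝ (fun z => fderiv ℝ f z e) y e := by
        refine integral_congr_ae (Eventually.of_forall fun y => ?_); exact mul_comm _ _
    _ = -∫ y, fderiv ℝ w y e * fderiv ℝ f y e := a1
    _ = -∫ y, fderiv ℝ f y e * fderiv ℝ w y e := by
        congr 1
        refine integral_congr_ae (Eventually.of_forall fun y => ?_); exact mul_comm _ _

theorem ibp2 {f w : ℂ → ℝ} (hf : ContDiff ℝ 2 f) (hw : ContDiff ℝ 2 w)
    (hs : HasCompactSupport w) :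
    ∫ y, lapR f y * w y = ∫ y, f y * lapR w y := by
  obtain ⟨a1, a2, a3⟩ := ibp1 hf hw hs 1
  obtain ⟨b1, b2, b3⟩ := ibp1 hf hw hs Complex.I
  unfold lapR
  simp_rw [add_mul, mul_add]
  rw [integral_add a1 b1, integral_add a2 b2, a3, b3]

theorem cont_lapR {f : ℂ → ℝ} (hf : ContDiff ℝ 2 f) : Continuous (lapR f) := by
  have h : ∀ e : ℂ, Continuous (fun y => fderiv ℝ (fun z => fderiv ℝ f z e) y e) := fun e =>
    (((hf.fderiv_right (m := 1) (by norm_num)).clm_apply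
      contDiff_const).continuous_fderiv (by norm_num)).clm_apply continuous_const
  exact (h 1).add (h Complex.I)

/-! ### the cutoff and the heat kernel as radial functions -/

/-- the radial cutoff -/
noncomputable def ph (c₁ c₂ r : ℝ) : ℝ := st (r / c₁ ^ 2) - st (r / c₂ ^ 2)

/-- its derivative -/
noncomputable def ph1 (c₁ c₂ r : ℝ) : ℝ :=
  deriv st (r / c₁ ^ 2) / c₁ ^ 2 - deriv st (r / c₂ ^ 2) / c₂ ^ 2

/-- its second derivative -/
noncomputable def ph2 (c₁ c₂ r : ℝ) : ℝ :=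
  deriv (deriv st) (r / c₁ ^ 2) / c₁ ^ 2 / c₁ ^ 2 - deriv (deriv st) (r / c₂ ^ 2) / c₂ ^ 2 / c₂ ^ 2

/-- the radial heat kernel -/
noncomputable def hh (v r : ℝ) : ℝ := Real.exp (-(r / (4 * v))) / (4 * Real.pi * v)

theorem hd_st (s : ℝ) : HasDerivAt st (deriv st s) s :=
  ((Joint.st_contDiff (k := 1)).differentiable (by norm_num) s).hasDerivAt

theorem hd_st1 (s : ℝ) : HasDerivAt (deriv st) (deriv (deriv st) s) s := by
  have h : ContDiff ℝ 1 (deriv st) := by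
    have h2 : ContDiff ℝ (1 + 1) st := Joint.st_contDiff (k := 2)
    exact (contDiff_succ_iff_deriv.1 h2).2.2
  exact (h.differentiable (by norm_num) s).hasDerivAt

theorem exists_M2 : ∃ M : ℝ, 0 ≤ M ∧ ∀ s, |deriv (deriv st) s| ≤ M := by
  have h : ContDiff ℝ 1 (deriv st) := by
    have h2 : ContDiff ℝ (1 + 1) st := Joint.st_contDiff (k := 2)
    exact (contDiff_succ_iff_deriv.1 h2).2.2
  have hc : Continuous (deriv (deriv st)) := h.continuous_deriv (by norm_num)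
  obtain ⟨M, hM⟩ := (isCompact_Icc (a := (1:ℝ)) (b := 2)).exists_bound_of_continuousOn
    hc.continuousOn
  refine ⟨max M 0, le_max_right _ _, fun s => ?_⟩
  rcases lt_or_ge s 1 with h1 | h1
  · have : deriv st =ᶠ[𝓝 s] fun _ => (0 : ℝ) := by
      filter_upwards [Iio_mem_nhds h1] with t ht
      exact Joint.deriv_st_left ht
    rw [this.deriv_eq]; simp
  rcases lt_or_ge 2 s with h2 | h2
  · have : deriv st =ᶠ[𝓝 s] fun _ => (0 : ℝ) := by
      filter_upwards [Ioi_mem_nhds h2] with t ht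
      exact Joint.deriv_st_right ht
    rw [this.deriv_eq]; simp
  · exact (hM s ⟨h1, h2⟩).trans (le_max_left _ _)

theorem mul_st1 {x : ℝ} (hx : 0 ≤ x) : |x * deriv st x| ≤ 2 * Mst := by
  rcases lt_or_ge 2 x with h2 | h2
  · rw [Joint.deriv_st_right h2]
    have := Joint.one_le_Mst
    simp; linarith
  · rw [abs_mul, abs_of_nonneg hx]
    exact mul_le_mul h2 (Joint.deriv_st_le x) (abs_nonneg _) (by norm_num)

theorem mul_st2 {M : ℝ} (hM0 : 0 ≤ M) (hM : ∀ s, |deriv (deriv st) s| ≤ M) {x : ℝ} (hx : 0 ≤ x) :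
    |x * deriv (deriv st) x| ≤ 2 * M := by
  rcases lt_or_ge 2 x with h2 | h2
  · have : deriv st =ᶠ[𝓝 x] fun _ => (0 : ℝ) := by
      filter_upwards [Ioi_mem_nhds h2] with t ht
      exact Joint.deriv_st_right ht
    rw [this.deriv_eq]; simp [hM0]
  · rw [abs_mul, abs_of_nonneg hx]
    exact mul_le_mul h2 (hM x) (abs_nonneg _) (by norm_num)

theorem hd_ph (c₁ c₂ r : ℝ) : HasDerivAt (ph c₁ c₂) (ph1 c₁ c₂ r) r := by
  have h : ∀ c : ℝ, HasDerivAt (fun r => st (r / c ^ 2)) (deriv st (r / c ^ 2) / c ^ 2) r := by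
    intro c
    have h1 : HasDerivAt (fun r : ℝ => r / c ^ 2) (1 / c ^ 2) r := (hasDerivAt_id r).div_const _
    have h2 : HasDerivAt (fun r => st (r / c ^ 2)) (deriv st (r / c ^ 2) * (1 / c ^ 2)) r :=
      HasDerivAt.comp (h₂ := st) (h := fun r : ℝ => r / c ^ 2) r (hd_st (r / c ^ 2)) h1
    refine h2.congr_deriv ?_
    ring
  exact (h c₁).sub (h c₂)

theorem hd_ph1 (c₁ c₂ r : ℝ) : HasDerivAt (ph1 c₁ c₂) (ph2 c₁ c₂ r) r := by
  have h : ∀ c : ℝ, HasDerivAt (fun r => deriv st (r / c ^ 2) / c ^ 2)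
      (deriv (deriv st) (r / c ^ 2) / c ^ 2 / c ^ 2) r := by
    intro c
    have h1 : HasDerivAt (fun r : ℝ => r / c ^ 2) (1 / c ^ 2) r := (hasDerivAt_id r).div_const _
    have h2 : HasDerivAt (fun r => deriv st (r / c ^ 2))
        (deriv (deriv st) (r / c ^ 2) * (1 / c ^ 2)) r :=
      HasDerivAt.comp (h₂ := deriv st) (h := fun r : ℝ => r / c ^ 2) r (hd_st1 (r / c ^ 2)) h1
    refine (h2.div_const (c ^ 2)).congr_deriv ?_
    ring
  exact (h c₁).sub (h c₂)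

theorem hd_hh (v r : ℝ) : HasDerivAt (hh v) (-(1 / (4 * v)) * hh v r) r := by
  have h1 : HasDerivAt (fun r : ℝ => -(r / (4 * v))) (-(1 / (4 * v))) r :=
    ((hasDerivAt_id r).div_const (4 * v)).neg
  refine (h1.exp.div_const (4 * Real.pi * v)).congr_deriv ?_
  unfold hh
  ring

theorem hh_pos {v : ℝ} (hv : 0 < v) (r : ℝ) : 0 < hh v r := by
  unfold hh; positivity

theorem hk_eq (v : ℝ) (y : ℂ) : hk v y = hh v (Complex.normSq y) := by
  unfold hk hh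
  rw [Complex.normSq_eq_norm_sq]

/-- the cutoff -/
noncomputable def th (c₁ c₂ : ℝ) (y : ℂ) : ℝ := ph c₁ c₂ (Complex.normSq y)

/-- the remainder -/
noncomputable def Rr (c₁ c₂ v r : ℝ) : ℝ :=
  -(2 * r / v) * ph1 c₁ c₂ r + 4 * r * ph2 c₁ c₂ r + 4 * ph1 c₁ c₂ r

theorem lap_w (c₁ c₂ : ℝ) {v : ℝ} (hv : 0 < v) (y : ℂ) :
    lapR (fun y => hk v y * th c₁ c₂ y) y
      = th c₁ c₂ y * ((Complex.normSq y / (4 * v ^ 2) - 1 / v) * hk v y)
        + hk v y * Rr c₁ c₂ v (Complex.normSq y) := by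
  have e : (fun y => hk v y * th c₁ c₂ y)
      = fun z : ℂ => (fun r => hh v r * ph c₁ c₂ r) (Complex.normSq z) := by
    funext z; simp only [hk_eq, th]
  have d1 : ∀ r, HasDerivAt (fun r => hh v r * ph c₁ c₂ r)
      (-(1 / (4 * v)) * hh v r * ph c₁ c₂ r + hh v r * ph1 c₁ c₂ r) r := fun r =>
    (hd_hh v r).mul (hd_ph c₁ c₂ r)
  have d2 : ∀ r, HasDerivAt (fun r => -(1 / (4 * v)) * hh v r * ph c₁ c₂ r + hh v r * ph1 c₁ c₂ r)
      ((-(1 / (4 * v)) * (-(1 / (4 * v)) * hh v r) * ph c₁ c₂ r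
        + -(1 / (4 * v)) * hh v r * ph1 c₁ c₂ r)
        + (-(1 / (4 * v)) * hh v r * ph1 c₁ c₂ r + hh v r * ph2 c₁ c₂ r)) r := fun r =>
    (((hd_hh v r).const_mul _).mul (hd_ph c₁ c₂ r)).add ((hd_hh v r).mul (hd_ph1 c₁ c₂ r))
  rw [e, rad_lap d1 d2, hk_eq, th]
  unfold Rr
  field_simp
  ring

theorem R_bound : ∃ C : ℝ, 0 < C ∧ ∀ c₁ c₂ v r : ℝ, 0 < c₁ → c₁ ≤ c₂ → 0 < v → v ≤ c₁ ^ 2 →
    0 ≤ r → |Rr c₁ c₂ v r| ≤ C / v := by
  obtain ⟨M, hM0, hM⟩ := exists_M2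
  have hMst := Joint.one_le_Mst
  refine ⟨8 * Mst + 8 * (2 * M + Mst), by linarith, fun c₁ c₂ v r hc1 hc hv hvc hr => ?_⟩
  have hc2 : 0 < c₂ := hc1.trans_le hc
  have key : ∀ c : ℝ, c₁ ≤ c → |r * (deriv st (r / c ^ 2) / c ^ 2)| ≤ 2 * Mst ∧
      |4 * r * (deriv (deriv st) (r / c ^ 2) / c ^ 2 / c ^ 2) + 4 * (deriv st (r / c ^ 2) / c ^ 2)|
        ≤ 4 * (2 * M + Mst) / v := by
    intro c hcc
    have hc0 : 0 < c := hc1.trans_le hcc
    have hx : 0 ≤ r / c ^ 2 := by positivity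
    have h1 := mul_st1 hx
    have h2 := mul_st2 hM0 hM hx
    have h3 := Joint.deriv_st_le (r / c ^ 2)
    constructor
    · calc |r * (deriv st (r / c ^ 2) / c ^ 2)| = |r / c ^ 2 * deriv st (r / c ^ 2)| := by
            congr 1; ring
        _ ≤ 2 * Mst := h1
    · have e : 4 * r * (deriv (deriv st) (r / c ^ 2) / c ^ 2 / c ^ 2)
          + 4 * (deriv st (r / c ^ 2) / c ^ 2)
          = 4 / c ^ 2 * (r / c ^ 2 * deriv (deriv st) (r / c ^ 2) + deriv st (r / c ^ 2)) := by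
        ring
      rw [e, abs_mul, abs_of_pos (by positivity : 0 < 4 / c ^ 2)]
      have h4 : |r / c ^ 2 * deriv (deriv st) (r / c ^ 2) + deriv st (r / c ^ 2)| ≤ 2 * M + Mst :=
        (abs_add_le _ _).trans (add_le_add h2 h3)
      have h5 : 4 / c ^ 2 ≤ 4 / v := by
        apply div_le_div_of_nonneg_left (by norm_num) hv
        exact hvc.trans (by gcongr)
      calc 4 / c ^ 2 * |r / c ^ 2 * deriv (deriv st) (r / c ^ 2) + deriv st (r / c ^ 2)|
          ≤ 4 / v * (2 * M + Mst) := mul_le_mul h5 h4 (abs_nonneg _) (by positivity)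
        _ = 4 * (2 * M + Mst) / v := by ring
  obtain ⟨a1, a2⟩ := key c₁ le_rfl
  obtain ⟨b1, b2⟩ := key c₂ hc
  have e : Rr c₁ c₂ v r = -(2 / v) * (r * (deriv st (r / c₁ ^ 2) / c₁ ^ 2)
      - r * (deriv st (r / c₂ ^ 2) / c₂ ^ 2))
      + ((4 * r * (deriv (deriv st) (r / c₁ ^ 2) / c₁ ^ 2 / c₁ ^ 2)
          + 4 * (deriv st (r / c₁ ^ 2) / c₁ ^ 2))
        - (4 * r * (deriv (deriv st) (r / c₂ ^ 2) / c₂ ^ 2 / c₂ ^ 2)
          + 4 * (deriv st (r / c₂ ^ 2) / c₂ ^ 2))) := by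
    unfold Rr ph1 ph2
    ring
  rw [e]
  have f1 : |-(2 / v) * (r * (deriv st (r / c₁ ^ 2) / c₁ ^ 2)
      - r * (deriv st (r / c₂ ^ 2) / c₂ ^ 2))| ≤ 2 / v * (2 * Mst + 2 * Mst) := by
    rw [abs_mul, abs_neg, abs_of_pos (by positivity : 0 < 2 / v)]
    exact mul_le_mul_of_nonneg_left ((abs_sub _ _).trans (add_le_add a1 b1)) (by positivity)
  have f2 := (abs_sub (4 * r * (deriv (deriv st) (r / c₁ ^ 2) / c₁ ^ 2 / c₁ ^ 2)
          + 4 * (deriv st (r / c₁ ^ 2) / c₁ ^ 2)) (4 * r * (deriv (deriv st) (r / c₂ ^ 2) / c₂ ^ 2 / c₂ ^ 2)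
          + 4 * (deriv st (r / c₂ ^ 2) / c₂ ^ 2))).trans (add_le_add a2 b2)
  refine (abs_add_le _ _).trans ((add_le_add f1 f2).trans (le_of_eq ?_))
  ring

/-! ### properties of the cutoff -/

theorem th_cd (c₁ c₂ : ℝ) : ContDiff ℝ 2 (th c₁ c₂) := by
  have h : ∀ c : ℝ, ContDiff ℝ 2 (fun y : ℂ => st (Complex.normSq y / c ^ 2)) := by
    intro c
    have h1 : ContDiff ℝ 2 (fun y : ℂ => Complex.normSq y) := by
      have : (fun y : ℂ => Complex.normSq y) = fun y : ℂ => y.re * y.re + y.im * y.im := by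
        funext y; exact Complex.normSq_apply y
      rw [this]
      exact (Complex.reCLM.contDiff.mul Complex.reCLM.contDiff).add
        (Complex.imCLM.contDiff.mul Complex.imCLM.contDiff)
    exact (Joint.st_contDiff (k := 2)).comp (h1.div_const _)
  exact (h c₁).sub (h c₂)

theorem th_zero_in {c₁ c₂ : ℝ} (h1 : 0 < c₁) (h : c₁ ≤ c₂) {y : ℂ}
    (hy : Complex.normSq y ≤ c₁ ^ 2) : th c₁ c₂ y = 0 := by
  have h2 : 0 < c₂ := h1.trans_le h
  unfold th ph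
  rw [Joint.st_zero, Joint.st_zero, sub_zero]
  · rw [div_le_one (by positivity)]; exact hy.trans (by gcongr)
  · rw [div_le_one (by positivity)]; exact hy

theorem th_zero_out {c₁ c₂ : ℝ} (h1 : 0 < c₁) (h : c₁ ≤ c₂) {y : ℂ}
    (hy : 2 * c₂ ^ 2 ≤ Complex.normSq y) : th c₁ c₂ y = 0 := by
  have h2 : 0 < c₂ := h1.trans_le h
  unfold th ph
  rw [Joint.st_one, Joint.st_one, sub_self]
  · rw [le_div_iff₀ (by positivity)]; exact hy
  · rw [le_div_iff₀ (by positivity)]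
    exact le_trans (by gcongr) hy

theorem th_one {c₁ c₂ : ℝ} (h1 : 0 < c₁) (h : c₁ ≤ c₂) {y : ℂ}
    (hy : 2 * c₁ ^ 2 ≤ Complex.normSq y) (hy' : Complex.normSq y ≤ c₂ ^ 2) : th c₁ c₂ y = 1 := by
  have h2 : 0 < c₂ := h1.trans_le h
  unfold th ph
  rw [Joint.st_one, Joint.st_zero, sub_zero]
  · rw [div_le_one (by positivity)]; exact hy'
  · rw [le_div_iff₀ (by positivity)]; exact hy

theorem th_nonneg {c₁ c₂ : ℝ} (h1 : 0 < c₁) (h : 2 * c₁ ≤ c₂) (y : ℂ) : 0 ≤ th c₁ c₂ y := by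
  have h2 : 0 < c₂ := by linarith
  rcases le_or_gt (Complex.normSq y) (c₂ ^ 2) with hy | hy
  · unfold th ph
    rw [Joint.st_zero (s := Complex.normSq y / c₂ ^ 2)
      (by rw [div_le_one (by positivity)]; exact hy), sub_zero]
    exact Joint.st_nonneg _
  · unfold th ph
    rw [Joint.st_one (s := Complex.normSq y / c₁ ^ 2)
      (by rw [le_div_iff₀ (by positivity)]; nlinarith)]
    linarith [Joint.st_le_one (Complex.normSq y / c₂ ^ 2)]

theorem th_le_one (c₁ c₂ : ℝ) (y : ℂ) : th c₁ c₂ y ≤ 1 := by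
  unfold th ph
  linarith [Joint.st_le_one (Complex.normSq y / c₁ ^ 2),
    Joint.st_nonneg (Complex.normSq y / c₂ ^ 2)]

theorem th_supp {c₁ c₂ : ℝ} (h1 : 0 < c₁) (h : c₁ ≤ c₂) {y : ℂ} (hy : 2 * c₂ < ‖y‖) :
    th c₁ c₂ y = 0 := by
  have h2 : 0 < c₂ := h1.trans_le h
  refine th_zero_out h1 h ?_
  rw [Complex.normSq_eq_norm_sq]
  nlinarith

theorem th_cs {c₁ c₂ : ℝ} (h1 : 0 < c₁) (h : c₁ ≤ c₂) : HasCompactSupport (th c₁ c₂) := by
  refine HasCompactSupport.intro (isCompact_closedBall (0 : ℂ) (2 * c₂)) fun ζ hζ => ?_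
  rw [mem_closedBall_zero_iff, not_le] at hζ
  exact th_supp h1 h hζ

theorem hk_cd (v : ℝ) : ContDiff ℝ 2 (hk v) := by
  unfold hk
  exact (Real.contDiff_exp.comp ((contDiff_norm_sq ℝ).div_const _).neg).div_const _

theorem hk_pos {v : ℝ} (hv : 0 < v) (y : ℂ) : 0 < hk v y := by
  unfold hk; positivity

/-- derivative of the heat kernel in the time -/
theorem hk_time {v : ℝ} (hv : 0 < v) (y : ℂ) :
    HasDerivAt (fun v => hk v y) ((Complex.normSq y / (4 * v ^ 2) - 1 / v) * hk v y) v := by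
  unfold hk
  have h1 : HasDerivAt (fun v : ℝ => 4 * v) 4 v := by
    simpa using (hasDerivAt_id v).const_mul 4
  have h2 : HasDerivAt (fun v : ℝ => -(‖y‖ ^ 2 / (4 * v)))
      (-((0 * (4 * v) - ‖y‖ ^ 2 * 4) / (4 * v) ^ 2)) v :=
    ((hasDerivAt_const v (‖y‖ ^ 2)).div h1 (by positivity)).neg
  have h3 : HasDerivAt (fun v : ℝ => 4 * Real.pi * v) (4 * Real.pi) v := by
    simpa using (hasDerivAt_id v).const_mul (4 * Real.pi)
  refine (h2.exp.div h3 (by positivity)).congr_deriv ?_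
  rw [Complex.normSq_eq_norm_sq]
  field_simp
  ring

/-! ### the inequality for a general function -/

/-- time derivative of the heat kernel -/
noncomputable def Dk (v : ℝ) (y : ℂ) : ℝ := (Complex.normSq y / (4 * v ^ 2) - 1 / v) * hk v y

theorem hk_contOn : ContinuousOn (fun z : ℝ × ℂ => hk z.1 z.2) (Set.Ioi 0 ×ˢ Set.univ) := by
  unfold hk
  refine ContinuousOn.div (Real.continuous_exp.comp_continuousOn (ContinuousOn.neg
    (ContinuousOn.div (by fun_prop) (by fun_prop) ?_))) (by fun_prop) ?_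
  · rintro ⟨v, y⟩ ⟨hv, -⟩
    have : (0 : ℝ) < v := hv
    show 4 * v ≠ 0
    positivity
  · rintro ⟨v, y⟩ ⟨hv, -⟩
    have : (0 : ℝ) < v := hv
    show 4 * Real.pi * v ≠ 0
    positivity

theorem Dk_contOn : ContinuousOn (fun z : ℝ × ℂ => Dk z.1 z.2) (Set.Ioi 0 ×ˢ Set.univ) := by
  unfold Dk
  refine ContinuousOn.mul (ContinuousOn.sub (ContinuousOn.div ?_ (by fun_prop) ?_)
    (ContinuousOn.div (by fun_prop) (by fun_prop) ?_)) hk_contOn
  · exact (Complex.continuous_normSq.comp continuous_snd).continuousOn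
  · rintro ⟨v, y⟩ ⟨hv, -⟩
    have : (0 : ℝ) < v := hv
    show 4 * v ^ 2 ≠ 0
    positivity
  · rintro ⟨v, y⟩ ⟨hv, -⟩
    have : (0 : ℝ) < v := hv
    show v ≠ 0
    positivity

theorem Icc_sub {v₁ v₂ : ℝ} (h : 0 < v₁) :
    Set.Icc v₁ v₂ ×ˢ (Set.univ : Set ℂ) ⊆ Set.Ioi 0 ×ˢ Set.univ := by
  rintro ⟨v, y⟩ ⟨hv, -⟩
  exact ⟨h.trans_le hv.1, trivial⟩

theorem hk_sub {v₁ v₂ : ℝ} (h1 : 0 < v₁) (h : v₁ ≤ v₂) (y : ℂ) :
    hk v₂ y - hk v₁ y = ∫ v in v₁..v₂, Dk v y := by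
  symm
  refine intervalIntegral.integral_eq_sub_of_hasDerivAt (f := fun v => hk v y) ?_ ?_
  · intro v hv
    rw [Set.uIcc_of_le h] at hv
    exact hk_time (h1.trans_le hv.1) y
  · refine ContinuousOn.intervalIntegrable ?_
    rw [Set.uIcc_of_le h]
    exact Dk_contOn.comp (f := fun v : ℝ => (v, y)) (by fun_prop)
      (fun v hv => ⟨h1.trans_le hv.1, trivial⟩)

theorem swap {f : ℝ → ℂ → ℝ} {v₁ v₂ : ℝ} {K : Set ℂ} (hK : IsCompact K)
    (hf : ContinuousOn (Function.uncurry f) (Set.Icc v₁ v₂ ×ˢ Set.univ))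
    (h0 : ∀ v y, y ∉ K → f v y = 0) (h : v₁ ≤ v₂) :
    ∫ y, ∫ v in v₁..v₂, f v y = ∫ v in v₁..v₂, ∫ y, f v y := by
  have hi : Integrable (Function.uncurry f)
      ((volume.restrict (Set.Ioc v₁ v₂)).prod (volume : Measure ℂ)) := by
    have e : (volume.restrict (Set.Ioc v₁ v₂)).prod (volume : Measure ℂ)
        = (volume.prod volume).restrict (Set.Ioc v₁ v₂ ×ˢ Set.univ) := by
      rw [← Measure.prod_restrict, Measure.restrict_univ]
    rw [e]
    have h1 : IntegrableOn (Function.uncurry f) (Set.Icc v₁ v₂ ×ˢ K)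
        ((volume : Measure ℝ).prod (volume : Measure ℂ)) := by
      refine ContinuousOn.integrableOn_compact (isCompact_Icc.prod hK) (hf.mono ?_)
      exact Set.prod_mono le_rfl (Set.subset_univ _)
    have h2 : IntegrableOn (Function.uncurry f) (Set.Icc v₁ v₂ ×ˢ Set.univ)
        ((volume : Measure ℝ).prod (volume : Measure ℂ)) := by
      refine h1.of_forall_sdiff_eq_zero (measurableSet_Icc.prod MeasurableSet.univ) ?_
      rintro ⟨v, y⟩ ⟨⟨hv, -⟩, h2⟩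
      refine h0 v y fun hy => h2 ⟨hv, hy⟩
    exact h2.mono_set (Set.prod_mono Set.Ioc_subset_Icc_self le_rfl)
  have h3 := integral_integral_swap hi
  simp_rw [intervalIntegral.integral_of_le h]
  exact h3.symm

theorem main_ineq : ∃ C : ℝ, 0 < C ∧ ∀ (Ψ : ℂ → ℝ) (c₁ c₂ v₁ v₂ A : ℝ), ContDiff ℝ 2 Ψ →
    (∀ y, 0 ≤ Ψ y) → 0 < c₁ → c₁ ≤ c₂ → 0 < v₁ → v₁ ≤ v₂ → v₂ ≤ c₁ ^ 2 →
    (∀ v, v₁ ≤ v → v ≤ v₂ → Integrable (fun y => Ψ y * hk v y) ∧ ∫ y, Ψ y * hk v y ≤ A) →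
    ∫ y, Ψ y * (th c₁ c₂ y * (hk v₂ y - hk v₁ y))
      ≤ (∫ v in v₁..v₂, ∫ y, lapR Ψ y * hk v y * th c₁ c₂ y) + (v₂ - v₁) * (C / v₁ * A) := by
  obtain ⟨C, hC, hR⟩ := R_bound
  refine ⟨C, hC, fun Ψ c₁ c₂ v₁ v₂ A hΨ h0 hc1 hc hv1 hv hv2 hA => ?_⟩
  set K : Set ℂ := Metric.closedBall (0 : ℂ) (2 * c₂) with hK
  have hKc : IsCompact K := isCompact_closedBall _ _
  have hth : ∀ y, y ∉ K → th c₁ c₂ y = 0 := by
    intro y hy
    rw [hK, mem_closedBall_zero_iff, not_le] at hy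
    exact th_supp hc1 hc hy
  have hthc : Continuous (th c₁ c₂) := (th_cd c₁ c₂).continuous
  have hcs := th_cs hc1 hc
  -- swap
  have cD : ContinuousOn (Function.uncurry fun v y => Ψ y * (th c₁ c₂ y * Dk v y))
      (Set.Icc v₁ v₂ ×ˢ Set.univ) := by
    have h1 : ContinuousOn (fun z : ℝ × ℂ => Dk z.1 z.2) (Set.Icc v₁ v₂ ×ˢ Set.univ) :=
      Dk_contOn.mono (Icc_sub hv1)
    have h2 : Continuous (fun z : ℝ × ℂ => Ψ z.2) := hΨ.continuous.comp continuous_snd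
    have h3 : Continuous (fun z : ℝ × ℂ => th c₁ c₂ z.2) := hthc.comp continuous_snd
    exact h2.continuousOn.mul (h3.continuousOn.mul h1)
  have cL : ContinuousOn (Function.uncurry fun v y => lapR Ψ y * hk v y * th c₁ c₂ y)
      (Set.Icc v₁ v₂ ×ˢ Set.univ) := by
    have h1 : ContinuousOn (fun z : ℝ × ℂ => hk z.1 z.2) (Set.Icc v₁ v₂ ×ˢ Set.univ) :=
      hk_contOn.mono (Icc_sub hv1)
    have h2 : Continuous (fun z : ℝ × ℂ => lapR Ψ z.2) := (cont_lapR hΨ).comp continuous_snd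
    have h3 : Continuous (fun z : ℝ × ℂ => th c₁ c₂ z.2) := hthc.comp continuous_snd
    exact (h2.continuousOn.mul h1).mul h3.continuousOn
  have z1 : ∀ (v : ℝ) (y : ℂ), y ∉ K → Ψ y * (th c₁ c₂ y * Dk v y) = 0 := by
    intro v y hy; rw [hth y hy]; simp
  have z2 : ∀ (v : ℝ) (y : ℂ), y ∉ K → lapR Ψ y * hk v y * th c₁ c₂ y = 0 := by
    intro v y hy; rw [hth y hy]; simp
  have e1 : ∫ y, Ψ y * (th c₁ c₂ y * (hk v₂ y - hk v₁ y))
      = ∫ v in v₁..v₂, ∫ y, Ψ y * (th c₁ c₂ y * Dk v y) := by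
    rw [← swap hKc cD z1 hv]
    refine integral_congr_ae (Eventually.of_forall fun y => ?_)
    simp only []
    rw [hk_sub hv1 hv, ← intervalIntegral.integral_const_mul, ← intervalIntegral.integral_const_mul]
  have i1 : IntervalIntegrable (fun v => ∫ y, Ψ y * (th c₁ c₂ y * Dk v y)) volume v₁ v₂ := by
    refine ContinuousOn.intervalIntegrable ?_
    rw [Set.uIcc_of_le hv]
    exact continuousOn_integral_of_compact_support hKc cD (fun p x _ hx => z1 p x hx)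
  have i2 : IntervalIntegrable (fun v => ∫ y, lapR Ψ y * hk v y * th c₁ c₂ y) volume v₁ v₂ := by
    refine ContinuousOn.intervalIntegrable ?_
    rw [Set.uIcc_of_le hv]
    exact continuousOn_integral_of_compact_support hKc cL (fun p x _ hx => z2 p x hx)
  rw [e1]
  have key : ∀ v ∈ Set.Icc v₁ v₂, (∫ y, Ψ y * (th c₁ c₂ y * Dk v y)) - C / v₁ * A
      ≤ ∫ y, lapR Ψ y * hk v y * th c₁ c₂ y := by
    intro v hv'
    have hv0 : 0 < v := hv1.trans_le hv'.1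
    have hw : ContDiff ℝ 2 (fun y => hk v y * th c₁ c₂ y) := (hk_cd v).mul (th_cd c₁ c₂)
    have hws : HasCompactSupport (fun y => hk v y * th c₁ c₂ y) := hcs.mul_left
    have e2 : ∫ y, lapR Ψ y * hk v y * th c₁ c₂ y
        = ∫ y, Ψ y * lapR (fun y => hk v y * th c₁ c₂ y) y := by
      rw [← ibp2 hΨ hw hws]
      refine integral_congr_ae (Eventually.of_forall fun y => ?_)
      simp only []; ring
    rw [e2]
    have j1 : Integrable (fun y => Ψ y * lapR (fun y => hk v y * th c₁ c₂ y) y) := by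
      have a1 := (ibp1 hΨ hw hws 1).2.1
      have a2 := (ibp1 hΨ hw hws Complex.I).2.1
      have := a1.add a2
      refine this.congr (Eventually.of_forall fun y => ?_)
      simp only [lapR, Pi.add_apply]; ring
    have j2 : Integrable (fun y => Ψ y * (th c₁ c₂ y * Dk v y)) := by
      have hD : Continuous (fun y => Dk v y) := by
        unfold Dk
        exact ((Complex.continuous_normSq.div_const _).sub continuous_const).mul
          (hk_cd v).continuous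
      exact (hΨ.continuous.mul (hthc.mul hD)).integrable_of_hasCompactSupport
        (hcs.mul_right.mul_left)
    obtain ⟨j3, hA'⟩ := hA v hv'.1 hv'.2
    have hpt : ∀ y, Ψ y * (th c₁ c₂ y * Dk v y) - C / v * (Ψ y * hk v y)
        ≤ Ψ y * lapR (fun y => hk v y * th c₁ c₂ y) y := by
      intro y
      rw [lap_w c₁ c₂ hv0 y]
      have hb := hR c₁ c₂ v (Complex.normSq y) hc1 hc hv0 (hv'.2.trans hv2) (Complex.normSq_nonneg y)
      have hb' := (abs_le.1 hb).1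
      have hk0 := (hk_pos hv0 y).le
      have h1 : 0 ≤ Ψ y * hk v y := mul_nonneg (h0 y) hk0
      have h2 := mul_le_mul_of_nonneg_left hb' h1
      have e3 : Ψ y * (th c₁ c₂ y * ((Complex.normSq y / (4 * v ^ 2) - 1 / v) * hk v y)
        + hk v y * Rr c₁ c₂ v (Complex.normSq y))
        = Ψ y * (th c₁ c₂ y * Dk v y) + Ψ y * hk v y * Rr c₁ c₂ v (Complex.normSq y) := by
        unfold Dk; ring
      rw [e3]
      linarith
    have h4 := integral_mono (j2.sub (j3.const_mul (C / v))) j1 hpt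
    have h5 : ∫ y, (Ψ y * (th c₁ c₂ y * Dk v y) - C / v * (Ψ y * hk v y))
        = (∫ y, Ψ y * (th c₁ c₂ y * Dk v y)) - C / v * ∫ y, Ψ y * hk v y := by
      rw [integral_sub j2 (j3.const_mul _), integral_const_mul]
    have h4' : (∫ y, Ψ y * (th c₁ c₂ y * Dk v y)) - C / v * ∫ y, Ψ y * hk v y
        ≤ ∫ y, Ψ y * lapR (fun y => hk v y * th c₁ c₂ y) y := by
      rw [← h5]; exact h4
    have h6 : C / v * ∫ y, Ψ y * hk v y ≤ C / v₁ * A := by
      refine mul_le_mul ?_ hA' (integral_nonneg fun y => mul_nonneg (h0 y) (hk_pos hv0 y).le)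
        (by positivity)
      exact div_le_div_of_nonneg_left hC.le hv1 hv'.1
    linarith
  have h7 := intervalIntegral.integral_mono_on hv (i1.sub intervalIntegrable_const) i2 key
  rw [intervalIntegral.integral_sub i1 intervalIntegrable_const,
    intervalIntegral.integral_const, smul_eq_mul] at h7
  linarith

/-! ### the parameters -/

theorem thc_eq (n : ℕ) (Q : ℝ) (s : ℤ) (L : ℕ) (h : 0 < win n Q s L) (y : ℂ) :
    thc n Q s L y = th ((win n Q s L) ^ 2 * (2 : ℝ) ^ (s + 2))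
      ((win n Q s L) ^ 2 * (2 : ℝ) ^ (s + L - 2)) y := by
  have key : ∀ a : ℤ, ct ((2 : ℝ) ^ a) (y / ((win n Q s L ^ 2 : ℝ) : ℂ))
      = st (Complex.normSq y / (win n Q s L ^ 2 * (2 : ℝ) ^ a) ^ 2) := by
    intro a
    unfold ct
    congr 1
    rw [Complex.normSq_div, Complex.normSq_ofReal]
    have h1 : (0 : ℝ) < (2 : ℝ) ^ a := by positivity
    field_simp
  unfold thc bd lo th ph
  rw [key, key]
  ring

theorem hk_shift {p σ K δ : ℝ} (hp : 0 < p) (hσ : 0 < σ) (hK : 0 < K) (hδ : δ = 1 / (p * σ ^ 2 * K))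
    (hδ1 : δ < 1) (ξ : ℂ) :
    hk (σ ^ 2 / (4 * Real.pi) / p - 1 / (4 * Real.pi * p ^ 2 * K)) (-((σ ^ 2 : ℝ) : ℂ) * ξ)
      = p / σ ^ 2 * Real.exp (-(Real.pi * p * σ ^ 2 * ‖ξ‖ ^ 2)) *
        (1 / (1 - δ) * Real.exp (-(Real.pi * ‖ξ‖ ^ 2 / (K * (1 - δ))))) := by
  have hπ := Real.pi_pos
  have h1 : 0 < 1 - δ := by linarith
  have ev : σ ^ 2 / (4 * Real.pi) / p - 1 / (4 * Real.pi * p ^ 2 * K)
      = σ ^ 2 / (4 * Real.pi * p) * (1 - δ) := by
    rw [hδ]; field_simp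
  have en : ‖-((σ ^ 2 : ℝ) : ℂ) * ξ‖ ^ 2 = σ ^ 4 * ‖ξ‖ ^ 2 := by
    rw [norm_mul, norm_neg, Complex.norm_real, Real.norm_of_nonneg (by positivity)]; ring
  unfold hk
  rw [ev, en]
  have e1 : -(σ ^ 4 * ‖ξ‖ ^ 2 / (4 * (σ ^ 2 / (4 * Real.pi * p) * (1 - δ))))
      = -(Real.pi * p * σ ^ 2 * ‖ξ‖ ^ 2) + -(Real.pi * ‖ξ‖ ^ 2 / (K * (1 - δ))) := by
    have h2 : p * σ ^ 2 * K * δ = 1 := by rw [hδ]; field_simp
    have h3 : K = 1 / (p * σ ^ 2 * δ) := by
      have hδ0 : 0 < δ := by rw [hδ]; positivity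
      field_simp
      linarith
    have hδ0 : 0 < δ := by rw [hδ]; positivity
    rw [h3]
    field_simp
    ring
  rw [e1, Real.exp_add]
  field_simp

theorem exists_m (ε : ℝ) (hε : 0 < ε) : ∃ m₀ : ℕ, 4 ≤ m₀ ∧ ∀ m ≥ m₀,
    1 / (1 + ε) ≤ Real.exp (-(8 * Real.pi / (4 : ℝ) ^ m))
      - 2 * Real.exp (-(Real.pi * (4 : ℝ) ^ m / 4)) := by
  have h4 : Tendsto (fun m : ℕ => (4 : ℝ) ^ m) atTop atTop :=
    tendsto_pow_atTop_atTop_of_one_lt (by norm_num)
  have h1 : Tendsto (fun m : ℕ => Real.exp (-(8 * Real.pi / (4 : ℝ) ^ m))) atTop (𝓝 1) := by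
    have := (h4.const_div_atTop (8 * Real.pi)).neg
    rw [neg_zero] at this
    have h5 := (Real.continuous_exp.tendsto 0).comp this
    rw [Real.exp_zero] at h5
    exact h5
  have h2 : Tendsto (fun m : ℕ => 2 * Real.exp (-(Real.pi * (4 : ℝ) ^ m / 4))) atTop (𝓝 0) := by
    have h6 : Tendsto (fun m : ℕ => Real.pi * (4 : ℝ) ^ m / 4) atTop atTop :=
      (h4.const_mul_atTop Real.pi_pos).atTop_div_const (by norm_num)
    have h7 := Real.tendsto_exp_neg_atTop_nhds_zero.comp h6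
    have h8 := h7.const_mul 2
    rw [mul_zero] at h8
    exact h8
  have h3 := h1.sub h2
  rw [sub_zero] at h3
  have h5 : 1 / (1 + ε) < 1 := by
    rw [div_lt_one (by linarith)]; linarith
  have h6 : ∀ᶠ m : ℕ in atTop, 1 / (1 + ε) ≤ Real.exp (-(8 * Real.pi / (4 : ℝ) ^ m)) -
      2 * Real.exp (-(Real.pi * (4 : ℝ) ^ m / 4)) :=
    (h3.eventually (Ioi_mem_nhds h5)).mono (fun _ h => le_of_lt h)
  obtain ⟨m₁, hm₁⟩ := eventually_atTop.1 h6
  exact ⟨max 4 m₁, le_max_left _ _, fun m hm => hm₁ m ((le_max_right _ _).trans hm)⟩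

theorem meas_Jp (s : ℤ) (L m : ℕ) : MeasurableSet (Jp s L m) := by
  have : Jp s L m = {ξ : ℂ | (2 : ℝ) ^ (s + m - 1) ≤ ‖ξ‖} ∩
      {ξ : ℂ | ‖ξ‖ ≤ (2 : ℝ) ^ (s + L - m + 1)} := rfl
  rw [this]
  exact (measurableSet_le measurable_const measurable_norm).inter
    (measurableSet_le measurable_norm measurable_const)

theorem Dk_nonneg {v : ℝ} (hv : 0 < v) {y : ℂ} (h : 4 * v ≤ Complex.normSq y) : 0 ≤ Dk v y := by
  unfold Dk
  refine mul_nonneg ?_ (hk_pos hv y).le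
  have : Complex.normSq y / (4 * v ^ 2) - 1 / v = (Complex.normSq y - 4 * v) / (4 * v ^ 2) := by
    field_simp
  rw [this]
  exact div_nonneg (by linarith) (by positivity)

theorem hk_mono {v₁ v₂ : ℝ} (h1 : 0 < v₁) (h : v₁ ≤ v₂) {y : ℂ}
    (hy : 4 * v₂ ≤ Complex.normSq y) : hk v₁ y ≤ hk v₂ y := by
  have h2 := hk_sub h1 h y
  have h3 : 0 ≤ ∫ v in v₁..v₂, Dk v y :=
    intervalIntegral.integral_nonneg h fun v hv =>
      Dk_nonneg (h1.trans_le hv.1) (by linarith [hv.2])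
  linarith

theorem hk_le {v t : ℝ} (hv : 0 < v) (hvt : v ≤ t) (y : ℂ) : hk v y ≤ t / v * hk t y := by
  have ht : 0 < t := hv.trans_le hvt
  unfold hk
  have h1 : Real.exp (-(‖y‖ ^ 2 / (4 * v))) ≤ Real.exp (-(‖y‖ ^ 2 / (4 * t))) := by
    refine Real.exp_le_exp.2 (neg_le_neg ?_)
    exact div_le_div_of_nonneg_left (by positivity) (by positivity) (by linarith)
  calc Real.exp (-(‖y‖ ^ 2 / (4 * v))) / (4 * Real.pi * v)
      ≤ Real.exp (-(‖y‖ ^ 2 / (4 * t))) / (4 * Real.pi * v) := by gcongr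
    _ = t / v * (Real.exp (-(‖y‖ ^ 2 / (4 * t))) / (4 * Real.pi * t)) := by field_simp

end LocAux

open LocAux

/-- (Loc) back to the windowed energy -/
theorem loc (hM : StmtMono) (hP : StmtPsi) (hE : StmtE1) : StmtLoc := by
  obtain ⟨C, hC, hmain⟩ := main_ineq
  intro p ε hp hε
  obtain ⟨m₀, hm4, hm₀⟩ := exists_m ε hε
  refine ⟨m₀, fun m hm L hmL Q ε₂ hQ hε₂ => ?_⟩
  have hp0 : 0 < p := by linarith
  have hπ := Real.pi_pos
  set η : ℝ := min (1 / 2) (ε₂ / (4 * C * (1 + ε))) with hη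
  have hη0 : 0 < η := lt_min (by norm_num) (by positivity)
  obtain ⟨n₀, hn₀⟩ := exists_nat_gt (Q ^ 2 * (4 : ℝ) ^ L / (p * η))
  refine ⟨n₀, fun n hn s g hg => ?_⟩
  have hQ0 : 0 < Q := by linarith
  have hnR : Q ^ 2 * (4 : ℝ) ^ L / (p * η) < n := hn₀.trans_le (by exact_mod_cast hn)
  have hn0 : (0 : ℝ) < n := lt_of_le_of_lt (by positivity) hnR
  set σ : ℝ := win n Q s L with hσ
  have h2s : (0 : ℝ) < (2 : ℝ) ^ s := by positivity
  have h4s : (0 : ℝ) < (4 : ℝ) ^ s := by positivity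
  have hσ0 : 0 < σ := by rw [hσ]; unfold win; positivity
  have e4 : ∀ a : ℤ, (4 : ℝ) ^ a = ((2 : ℝ) ^ a) ^ 2 := by
    intro a
    rw [← zpow_natCast, ← zpow_mul, mul_comm, zpow_mul]
    norm_num
  have hσ2 : σ ^ 2 = n / (Q ^ 2 * ((4 : ℝ) ^ s * (4 : ℝ) ^ L)) := by
    rw [hσ]
    unfold win
    rw [div_pow, Real.sq_sqrt hn0.le, mul_pow, ← e4, zpow_add₀ (by norm_num), zpow_natCast]
  set δ : ℝ := 1 / (p * σ ^ 2 * (4 : ℝ) ^ s) with hδ
  set δ' : ℝ := 1 / (p * σ ^ 2 * (4 : ℝ) ^ (s + (L : ℤ))) with hδ'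
  have hδ0 : 0 < δ := by positivity
  have hδ'0 : 0 < δ' := by positivity
  have hδη : δ ≤ η := by
    have : δ = Q ^ 2 * (4 : ℝ) ^ L / (p * n) := by
      rw [hδ, hσ2]; field_simp
    rw [this, div_le_iff₀ (by positivity)]
    rw [div_lt_iff₀ (by positivity)] at hnR
    nlinarith
  have hδ2 : δ ≤ 1 / 2 := hδη.trans (min_le_left _ _)
  have h4L : (4 : ℝ) ^ s ≤ (4 : ℝ) ^ (s + (L : ℤ)) :=
    zpow_le_zpow_right₀ (by norm_num) (by omega)
  have hδ'δ : δ' ≤ δ := by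
    rw [hδ, hδ']
    exact div_le_div_of_nonneg_left (by norm_num) (by positivity) (by gcongr)
  have hδ'2 : δ' ≤ 1 / 2 := hδ'δ.trans hδ2
  -- times
  set t : ℝ := tb n Q s L / p with ht
  have ht' : t = σ ^ 2 / (4 * Real.pi) / p := rfl
  have ht0 : 0 < t := by rw [ht']; positivity
  have hτ0 : 0 < tb n Q s L := by unfold tb; positivity
  set v₁ : ℝ := t - kap p s with hv₁
  set v₂ : ℝ := t - kap p (s + L) with hv₂
  have hk1 : kap p s = δ * t := by
    rw [ht', hδ]; unfold kap; field_simp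
  have hk2 : kap p (s + L) = δ' * t := by
    rw [ht', hδ']; unfold kap; field_simp
  have hv1t : t / 2 ≤ v₁ := by rw [hv₁, hk1]; nlinarith
  have hv10 : 0 < v₁ := lt_of_lt_of_le (by positivity) hv1t
  have hv12 : v₁ ≤ v₂ := by rw [hv₁, hv₂, hk1, hk2]; nlinarith
  have hv2t : v₂ ≤ t := by rw [hv₂, hk2]; nlinarith
  have hv20 : 0 < v₂ := hv10.trans_le hv12
  -- radii
  set c₁ : ℝ := σ ^ 2 * (2 : ℝ) ^ (s + 2) with hc₁
  set c₂ : ℝ := σ ^ 2 * (2 : ℝ) ^ (s + L - 2) with hc₂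
  have hc10 : 0 < c₁ := by positivity
  have hc12 : 2 * c₁ ≤ c₂ := by
    have : (2 : ℝ) * (2 : ℝ) ^ (s + 2) ≤ (2 : ℝ) ^ (s + L - 2) := by
      rw [← zpow_one_add₀ (by norm_num)]
      exact zpow_le_zpow_right₀ (by norm_num) (by omega)
    rw [hc₁, hc₂]
    have h3 : 0 < σ ^ 2 := by positivity
    nlinarith
  have hc12' : c₁ ≤ c₂ := by linarith
  have hc1t : 4 * t ≤ c₁ ^ 2 := by
    have e1 : c₁ ^ 2 = σ ^ 2 * (σ ^ 2 * (16 * (4 : ℝ) ^ s)) := by
      rw [hc₁, mul_pow, zpow_add₀ (by norm_num), mul_pow, ← e4]; norm_num; ring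
    have e2 : 4 * t = σ ^ 2 * (1 / (Real.pi * p)) := by rw [ht']; field_simp
    rw [e1, e2]
    refine mul_le_mul_of_nonneg_left ?_ (by positivity)
    rw [div_le_iff₀ (by positivity)]
    have h5 : 2 ≤ p * σ ^ 2 * (4 : ℝ) ^ s := by
      rw [hδ, div_le_div_iff₀ (by positivity) (by norm_num)] at hδ2
      linarith
    have h6 : 3 < Real.pi := Real.pi_gt_three
    nlinarith [mul_pos hπ (by linarith : (0:ℝ) < p * σ ^ 2 * (4 : ℝ) ^ s)]
  -- the function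
  set Ψ : ℂ → ℝ := Psi p g (tb n Q s L) with hΨ
  obtain ⟨P1, -, -, -, -, -, -, -⟩ := hP p g hp hg
  obtain ⟨M1, -, -, M4⟩ := hM p g hp hg
  obtain ⟨E1, E2, E3, -⟩ := hE p σ g hp hσ0 hg
  have hNp0 : ∀ h : ℂ → ℂ, 0 ≤ Np p h := fun h => integral_nonneg fun x => by positivity
  have hΨ0 : ∀ y, 0 ≤ Ψ y := fun y => hNp0 _
  have hΨc : ContDiff ℝ 2 Ψ := P1 _
  have hA : ∀ v, v₁ ≤ v → v ≤ v₂ → Integrable (fun y => Ψ y * hk v y) ∧
      ∫ y, Ψ y * hk v y ≤ 2 * Np p g := by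
    intro v h1 h2
    have hv0 : 0 < v := hv10.trans_le h1
    have i1 := (M1 (tb n Q s L) v hv0).1
    have i2 := (M1 (tb n Q s L) t ht0).1
    refine ⟨i1, ?_⟩
    have h3 : ∫ y, Ψ y * hk v y ≤ ∫ y, 2 * (Ψ y * hk t y) := by
      refine integral_mono i1 (i2.const_mul 2) fun y => ?_
      have h4 := hk_le hv0 (h2.trans hv2t) y
      have h5 : t / v ≤ 2 := by
        rw [div_le_iff₀ hv0]; linarith
      have h6 := hk_pos ht0 y
      have h7 : hk v y ≤ 2 * hk t y := h4.trans (by gcongr)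
      calc Ψ y * hk v y ≤ Ψ y * (2 * hk t y) := mul_le_mul_of_nonneg_left h7 (hΨ0 y)
        _ = 2 * (Ψ y * hk t y) := by ring
    rw [integral_const_mul] at h3
    have h8 := M4 (tb n Q s L) hτ0
    have h9 : ∫ y, Ψ y * hk t y ≤ Np p g := h8
    linarith
  have hineq := hmain Ψ c₁ c₂ v₁ v₂ (2 * Np p g) hΨc hΨ0 hc10 hc12' hv10 hv12
    (by linarith [hc1t, hv2t]) hA
  have hEb : (∫ v in v₁..v₂, ∫ y, lapR Ψ y * hk v y * th c₁ c₂ y) = Eb p n Q s L g := by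
    unfold Eb
    simp only [thc_eq n Q s L hσ0]
    rfl
  rw [hEb] at hineq
  -- error
  have herr : (v₂ - v₁) * (C / v₁ * (2 * Np p g)) ≤ 4 * C * δ * Np p g := by
    have h1 : v₂ - v₁ ≤ δ * t := by
      rw [hv₁, hv₂, hk1, hk2]; nlinarith
    have h2 : C / v₁ ≤ 2 * C / t := by
      rw [div_le_div_iff₀ hv10 ht0]; nlinarith
    have h3 := hNp0 g
    calc (v₂ - v₁) * (C / v₁ * (2 * Np p g)) ≤ (δ * t) * (2 * C / t * (2 * Np p g)) := by
          have h4 : 0 ≤ 2 * Np p g := by linarith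
          have h5 : 0 ≤ C / v₁ := div_nonneg hC.le hv10.le
          exact mul_le_mul h1 (mul_le_mul_of_nonneg_right h2 h4) (mul_nonneg h5 h4)
            (mul_nonneg (by linarith) ht0.le)
      _ = 4 * C * δ * Np p g := by field_simp; ring
  -- main term
  set G : ℂ → ℝ := fun y => Ψ y * (th c₁ c₂ y * (hk v₂ y - hk v₁ y)) with hG
  have hG0 : ∀ y, 0 ≤ G y := by
    intro y
    refine mul_nonneg (hΨ0 y) ?_
    rcases le_or_gt (Complex.normSq y) (c₁ ^ 2) with h1 | h1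
    · rw [th_zero_in hc10 hc12' h1]; simp
    · refine mul_nonneg (th_nonneg hc10 hc12 y) (sub_nonneg.2 (hk_mono hv10 hv12 ?_))
      linarith
  have hGc : Continuous G := hΨc.continuous.mul (((th_cd c₁ c₂).continuous).mul
    ((hk_cd v₂).continuous.sub (hk_cd v₁).continuous))
  have hGs : HasCompactSupport G := ((th_cs hc10 hc12').mul_right).mul_left
  have hGi : Integrable G := hGc.integrable_of_hasCompactSupport hGs
  have hchg : ∫ ξ : ℂ, G (-((σ ^ 2 : ℝ) : ℂ) * ξ) = (σ ^ 4)⁻¹ * ∫ y, G y := by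
    have h1 := Measure.integral_comp_smul (volume : Measure ℂ) G (-(σ ^ 2))
    have h2 : ∀ ξ : ℂ, (-(σ ^ 2)) • ξ = -((σ ^ 2 : ℝ) : ℂ) * ξ := by
      intro ξ; rw [Complex.real_smul]; push_cast; ring
    simp only [h2] at h1
    rw [h1, Complex.finrank_real_complex, smul_eq_mul]
    congr 1
    rw [neg_sq, ← pow_mul, abs_of_pos (by positivity)]
  have hGi2 : Integrable (fun ξ : ℂ => G (-((σ ^ 2 : ℝ) : ℂ) * ξ)) := by
    have h1 := hGi.comp_smul (R := -(σ ^ 2)) (by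
      have : 0 < σ ^ 2 := by positivity
      intro h; linarith)
    have h2 : ∀ ξ : ℂ, (-(σ ^ 2)) • ξ = -((σ ^ 2 : ℝ) : ℂ) * ξ := by
      intro ξ; rw [Complex.real_smul]; push_cast; ring
    simpa only [h2] using h1
  have hpt : ∀ ξ ∈ Jp s L m, p / σ ^ 2 / (1 + ε) * Nw p σ ξ g
      ≤ G (-((σ ^ 2 : ℝ) : ℂ) * ξ) := by
    intro ξ hξ
    obtain ⟨hξ1, hξ2⟩ := hξ
    have hN : Nw p σ ξ g = Real.exp (-(Real.pi * p * σ ^ 2 * ‖ξ‖ ^ 2)) *
        Ψ (-((σ ^ 2 : ℝ) : ℂ) * ξ) := E1 ξ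
    have a1 : hk v₁ (-((σ ^ 2 : ℝ) : ℂ) * ξ) = p / σ ^ 2 *
        Real.exp (-(Real.pi * p * σ ^ 2 * ‖ξ‖ ^ 2)) *
        (1 / (1 - δ) * Real.exp (-(Real.pi * ‖ξ‖ ^ 2 / ((4 : ℝ) ^ s * (1 - δ))))) :=
      hk_shift hp0 hσ0 h4s hδ (by linarith) ξ
    have a2 : hk v₂ (-((σ ^ 2 : ℝ) : ℂ) * ξ) = p / σ ^ 2 *
        Real.exp (-(Real.pi * p * σ ^ 2 * ‖ξ‖ ^ 2)) *
        (1 / (1 - δ') * Real.exp (-(Real.pi * ‖ξ‖ ^ 2 / ((4 : ℝ) ^ (s + (L : ℤ)) * (1 - δ'))))) :=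
      hk_shift hp0 hσ0 (by positivity) hδ' (by linarith) ξ
    have hns : Complex.normSq (-((σ ^ 2 : ℝ) : ℂ) * ξ) = (σ ^ 2) ^ 2 * ‖ξ‖ ^ 2 := by
      rw [Complex.normSq_eq_norm_sq, norm_mul, norm_neg, Complex.norm_real,
        Real.norm_of_nonneg (by positivity)]; ring
    have hth1 : th c₁ c₂ (-((σ ^ 2 : ℝ) : ℂ) * ξ) = 1 := by
      refine th_one hc10 hc12' ?_ ?_
      · rw [hns, hc₁, mul_pow]
        have h1 : (2 : ℝ) * (2 : ℝ) ^ (s + 2) ≤ ‖ξ‖ := by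
          rw [← zpow_one_add₀ (by norm_num)]
          exact (zpow_le_zpow_right₀ (by norm_num) (by omega)).trans hξ1
        have h2 : (0 : ℝ) < (2 : ℝ) ^ (s + 2) := by positivity
        have h3 : 2 * ((2 : ℝ) ^ (s + 2)) ^ 2 ≤ ‖ξ‖ ^ 2 := by nlinarith
        have h4 : 0 < (σ ^ 2) ^ 2 := by positivity
        nlinarith
      · rw [hns, hc₂, mul_pow]
        have h1 : ‖ξ‖ ≤ (2 : ℝ) ^ (s + L - 2) :=
          hξ2.trans (zpow_le_zpow_right₀ (by norm_num) (by omega))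
        gcongr
    set x : ℝ := ‖ξ‖ ^ 2 with hx
    have hx0 : 0 ≤ x := by positivity
    have hxlo : (4 : ℝ) ^ s * (4 : ℝ) ^ m / 4 ≤ x := by
      have h1 : ((2 : ℝ) ^ (s + m - 1)) ^ 2 ≤ ‖ξ‖ ^ 2 := by gcongr
      rw [← e4] at h1
      have h2 : (4 : ℝ) ^ (s + m - 1) = (4 : ℝ) ^ s * (4 : ℝ) ^ m / 4 := by
        rw [zpow_sub₀ (by norm_num), zpow_add₀ (by norm_num), zpow_natCast]; norm_num
      rw [h2] at h1
      exact h1
    have hxhi : x ≤ 4 * (4 : ℝ) ^ (s + (L : ℤ)) / (4 : ℝ) ^ m := by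
      have h1 : ‖ξ‖ ^ 2 ≤ ((2 : ℝ) ^ (s + L - m + 1)) ^ 2 := by gcongr
      rw [← e4] at h1
      have h2 : (4 : ℝ) ^ (s + L - m + 1) = 4 * (4 : ℝ) ^ (s + (L : ℤ)) / (4 : ℝ) ^ m := by
        rw [zpow_add₀ (by norm_num), zpow_sub₀ (by norm_num), zpow_natCast]; norm_num; ring
      rw [h2] at h1
      exact h1
    have hW2 : Real.exp (-(8 * Real.pi / (4 : ℝ) ^ m)) ≤ 1 / (1 - δ') *
        Real.exp (-(Real.pi * x / ((4 : ℝ) ^ (s + (L : ℤ)) * (1 - δ')))) := by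
      have h1 : 1 ≤ 1 / (1 - δ') := by
        rw [le_div_iff₀ (by linarith)]; linarith
      have h2 : Real.pi * x / ((4 : ℝ) ^ (s + (L : ℤ)) * (1 - δ')) ≤ 8 * Real.pi / (4 : ℝ) ^ m := by
        rw [div_le_div_iff₀ (by have : 0 < 1 - δ' := by linarith
                                positivity) (by positivity)]
        rw [le_div_iff₀ (by positivity)] at hxhi
        have h3 : (0 : ℝ) < (4 : ℝ) ^ (s + (L : ℤ)) := by positivity
        have h4 : 4 * (4 : ℝ) ^ (s + (L : ℤ)) ≤ 8 * (4 : ℝ) ^ (s + (L : ℤ)) * (1 - δ') := by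
          nlinarith
        calc Real.pi * x * (4 : ℝ) ^ m = Real.pi * (x * (4 : ℝ) ^ m) := by ring
          _ ≤ Real.pi * (8 * (4 : ℝ) ^ (s + (L : ℤ)) * (1 - δ')) := by
              exact mul_le_mul_of_nonneg_left (hxhi.trans h4) Real.pi_pos.le
          _ = 8 * Real.pi * ((4 : ℝ) ^ (s + (L : ℤ)) * (1 - δ')) := by ring
      have h3 : Real.exp (-(8 * Real.pi / (4 : ℝ) ^ m))
          ≤ Real.exp (-(Real.pi * x / ((4 : ℝ) ^ (s + (L : ℤ)) * (1 - δ')))) :=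
        Real.exp_le_exp.2 (neg_le_neg h2)
      calc Real.exp (-(8 * Real.pi / (4 : ℝ) ^ m))
          ≤ 1 * Real.exp (-(Real.pi * x / ((4 : ℝ) ^ (s + (L : ℤ)) * (1 - δ')))) := by
            rw [one_mul]; exact h3
        _ ≤ _ := by gcongr
    have hW1 : 1 / (1 - δ) * Real.exp (-(Real.pi * x / ((4 : ℝ) ^ s * (1 - δ))))
        ≤ 2 * Real.exp (-(Real.pi * (4 : ℝ) ^ m / 4)) := by
      have h1 : 1 / (1 - δ) ≤ 2 := by
        rw [div_le_iff₀ (by linarith)]; linarith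
      have h2 : Real.pi * (4 : ℝ) ^ m / 4 ≤ Real.pi * x / ((4 : ℝ) ^ s * (1 - δ)) := by
        have h5 : 0 < 1 - δ := by linarith
        rw [le_div_iff₀ (by positivity)]
        calc Real.pi * (4 : ℝ) ^ m / 4 * ((4 : ℝ) ^ s * (1 - δ))
            ≤ Real.pi * (4 : ℝ) ^ m / 4 * ((4 : ℝ) ^ s * 1) := by gcongr; linarith
          _ = Real.pi * ((4 : ℝ) ^ s * (4 : ℝ) ^ m / 4) := by ring
          _ ≤ Real.pi * x := by gcongr
      have h3 : Real.exp (-(Real.pi * x / ((4 : ℝ) ^ s * (1 - δ))))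
          ≤ Real.exp (-(Real.pi * (4 : ℝ) ^ m / 4)) := Real.exp_le_exp.2 (neg_le_neg h2)
      have h4 : 0 ≤ 1 / (1 - δ) := by
        have : 0 < 1 - δ := by linarith
        positivity
      gcongr
    have hmm := hm₀ m hm
    have hdiff : 1 / (1 + ε) ≤ 1 / (1 - δ') *
        Real.exp (-(Real.pi * x / ((4 : ℝ) ^ (s + (L : ℤ)) * (1 - δ'))))
        - 1 / (1 - δ) * Real.exp (-(Real.pi * x / ((4 : ℝ) ^ s * (1 - δ)))) := by
      linarith
    show p / σ ^ 2 / (1 + ε) * Nw p σ ξ g ≤ Ψ (-((σ ^ 2 : ℝ) : ℂ) * ξ) *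
      (th c₁ c₂ (-((σ ^ 2 : ℝ) : ℂ) * ξ) * (hk v₂ (-((σ ^ 2 : ℝ) : ℂ) * ξ)
        - hk v₁ (-((σ ^ 2 : ℝ) : ℂ) * ξ)))
    rw [a1, a2, hth1]
    have e5 : Ψ (-((σ ^ 2 : ℝ) : ℂ) * ξ) * (1 * (p / σ ^ 2 *
        Real.exp (-(Real.pi * p * σ ^ 2 * x)) *
        (1 / (1 - δ') * Real.exp (-(Real.pi * x / ((4 : ℝ) ^ (s + (L : ℤ)) * (1 - δ')))))
        - p / σ ^ 2 * Real.exp (-(Real.pi * p * σ ^ 2 * x)) *
        (1 / (1 - δ) * Real.exp (-(Real.pi * x / ((4 : ℝ) ^ s * (1 - δ)))))))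
        = p / σ ^ 2 * Nw p σ ξ g * (1 / (1 - δ') *
        Real.exp (-(Real.pi * x / ((4 : ℝ) ^ (s + (L : ℤ)) * (1 - δ'))))
        - 1 / (1 - δ) * Real.exp (-(Real.pi * x / ((4 : ℝ) ^ s * (1 - δ))))) := by
      rw [hN]; ring
    rw [e5]
    have hN0 : 0 ≤ Nw p σ ξ g := hNp0 _
    calc p / σ ^ 2 / (1 + ε) * Nw p σ ξ g = p / σ ^ 2 * Nw p σ ξ g * (1 / (1 + ε)) := by ring
      _ ≤ _ := mul_le_mul_of_nonneg_left hdiff (by positivity)
  have hfin : p / σ ^ 2 / (1 + ε) * ∫ ξ in Jp s L m, Nw p σ ξ g ≤ (σ ^ 4)⁻¹ * ∫ y, G y := by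
    rw [← hchg, ← integral_const_mul]
    refine le_trans (setIntegral_mono_on ((E3.const_mul _).integrableOn) hGi2.integrableOn
      (meas_Jp s L m) hpt) ?_
    exact setIntegral_le_integral hGi2 (Eventually.of_forall fun ξ => hG0 _)
  have hNp := hNp0 g
  have hδfin : (1 + ε) * (4 * C * δ * Np p g) ≤ ε₂ * Np p g := by
    have h1 : δ ≤ ε₂ / (4 * C * (1 + ε)) := hδη.trans (min_le_right _ _)
    rw [le_div_iff₀ (by positivity)] at h1
    calc (1 + ε) * (4 * C * δ * Np p g) = δ * (4 * C * (1 + ε)) * Np p g := by ring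
      _ ≤ ε₂ * Np p g := by gcongr
  have h10 : p * σ ^ 2 * ∫ ξ in Jp s L m, Nw p σ ξ g ≤ (1 + ε) * ∫ y, G y := by
    have h11 := mul_le_mul_of_nonneg_left hfin (by positivity : 0 ≤ (1 + ε) * σ ^ 4)
    have h12 : (1 + ε) * σ ^ 4 * (p / σ ^ 2 / (1 + ε) * ∫ ξ in Jp s L m, Nw p σ ξ g)
        = p * σ ^ 2 * ∫ ξ in Jp s L m, Nw p σ ξ g := by
      field_simp
    have h13 : (1 + ε) * σ ^ 4 * ((σ ^ 4)⁻¹ * ∫ y, G y) = (1 + ε) * ∫ y, G y := by
      field_simp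
    rw [h12, h13] at h11
    exact h11
  have h14 : (1 + ε) * ∫ y, G y ≤ (1 + ε) * (Eb p n Q s L g + 4 * C * δ * Np p g) := by
    refine mul_le_mul_of_nonneg_left ?_ (by positivity)
    exact hineq.trans (by linarith)
  calc p * σ ^ 2 * ∫ ξ in Jp s L m, Nw p σ ξ g ≤ (1 + ε) * ∫ y, G y := h10
    _ ≤ (1 + ε) * (Eb p n Q s L g + 4 * C * δ * Np p g) := h14
    _ = (1 + ε) * Eb p n Q s L g + (1 + ε) * (4 * C * δ * Np p g) := by ring
    _ ≤ (1 + ε) * Eb p n Q s L g + ε₂ * Np p g := by linarith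


end Pool.Agent.Lib.MP_dd244f_an.Rp
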