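import Pool.Agent.Lib.MP_dd244f_an.Rp.StmtsH

/-!
The Fourier transform of the weight of a line (module Om).
-/

set_option autoImplicit false

namespace Pool.Agent.Lib.MP_dd244f_an.Rp
namespace OmAux

open MeasureTheory Filter Topology
open scoped ENNReal NNReal FourierTransform

/-- Lorentzian: the integral of `e^{iyv} e^{-x|y|}` -/
theorem exp_int (x : ℝ) (hx : 0 < x) :
    Integrable (fun X : ℝ => ((Real.exp (-(x * |X|)) : ℝ) : ℂ)) ∧
    ∀ y : ℝ, ∫ X : ℝ, ((Real.exp (-(x * |X|)) : ℝ) : ℂ) * Complex.exp (Complex.I * (y * X : ℝ))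
      = ((2 * x / (x ^ 2 + y ^ 2) : ℝ) : ℂ) := by
  have e1 : ∀ y : ℝ, Set.EqOn (fun X : ℝ => ((Real.exp (-(x * |X|)) : ℝ) : ℂ) *
      Complex.exp (Complex.I * (y * X : ℝ)))
      (fun X : ℝ => Complex.exp ((-x + Complex.I * y) * X)) (Set.Ioi 0) := by
    intro y X hX
    have : |X| = X := abs_of_pos hX
    simp only
    rw [this]
    push_cast
    rw [← Complex.exp_add]
    congr 1
    ring
  have e2 : ∀ y : ℝ, Set.EqOn (fun X : ℝ => ((Real.exp (-(x * |X|)) : ℝ) : ℂ) *
      Complex.exp (Complex.I * (y * X : ℝ)))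
      (fun X : ℝ => Complex.exp ((x + Complex.I * y) * X)) (Set.Iic 0) := by
    intro y X hX
    have : |X| = -X := abs_of_nonpos hX
    simp only
    rw [this]
    push_cast
    rw [← Complex.exp_add]
    congr 1
    ring
  have r1 : ∀ y : ℝ, (-(x : ℂ) + Complex.I * y).re < 0 := by intro y; simp [hx]
  have r2 : ∀ y : ℝ, 0 < ((x : ℂ) + Complex.I * y).re := by intro y; simp [hx]
  have i1 : ∀ y : ℝ, IntegrableOn (fun X : ℝ => ((Real.exp (-(x * |X|)) : ℝ) : ℂ) *
      Complex.exp (Complex.I * (y * X : ℝ))) (Set.Ioi 0) := fun y =>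
    (integrableOn_congr_fun (e1 y) measurableSet_Ioi).mpr
      (integrableOn_exp_mul_complex_Ioi (r1 y) 0)
  have i2 : ∀ y : ℝ, IntegrableOn (fun X : ℝ => ((Real.exp (-(x * |X|)) : ℝ) : ℂ) *
      Complex.exp (Complex.I * (y * X : ℝ))) (Set.Iic 0) := fun y =>
    (integrableOn_congr_fun (e2 y) measurableSet_Iic).mpr
      (integrableOn_exp_mul_complex_Iic (r2 y) 0)
  have i3 : ∀ y : ℝ, Integrable (fun X : ℝ => ((Real.exp (-(x * |X|)) : ℝ) : ℂ) *
      Complex.exp (Complex.I * (y * X : ℝ))) := by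
    intro y
    rw [← integrableOn_univ, ← Set.Iic_union_Ioi (a := (0 : ℝ))]
    exact (i2 y).union (i1 y)
  refine ⟨?_, fun y => ?_⟩
  · refine (i3 0).congr (ae_of_all _ fun X => ?_)
    simp
  · rw [← intervalIntegral.integral_Iic_add_Ioi (i2 y) (i1 y),
      setIntegral_congr_fun measurableSet_Ioi (e1 y),
      setIntegral_congr_fun measurableSet_Iic (e2 y),
      integral_exp_mul_complex_Ioi (r1 y), integral_exp_mul_complex_Iic (r2 y)]
    have n1 : (-(x : ℂ) + Complex.I * y) ≠ 0 := fun h => by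
      have := congrArg Complex.re h
      simp at this
      exact hx.ne' this
    have n2 : ((x : ℂ) + Complex.I * y) ≠ 0 := fun h => by
      have := congrArg Complex.re h
      simp at this
      exact hx.ne' this
    have n4 : (x : ℂ) ^ 2 + (y : ℂ) ^ 2 ≠ 0 := by
      have : (0 : ℝ) < x ^ 2 + y ^ 2 := by positivity
      exact_mod_cast this.ne'
    push_cast
    simp only [mul_zero, Complex.exp_zero]
    have k1 : (-(x : ℂ) + Complex.I * y) * ((x : ℂ) + Complex.I * y) = -((x : ℂ) ^ 2 + (y : ℂ) ^ 2) := by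
      ring_nf
      rw [Complex.I_sq]
      ring
    have k3 : 1 / ((x : ℂ) + Complex.I * y) = -(-(x : ℂ) + Complex.I * y) / (x ^ 2 + y ^ 2) := by
      rw [div_eq_div_iff n2 n4]
      linear_combination k1
    have k4 : -1 / (-(x : ℂ) + Complex.I * y) = ((x : ℂ) + Complex.I * y) / (x ^ 2 + y ^ 2) := by
      rw [div_eq_div_iff n1 n4]
      linear_combination -k1
    rw [k3, k4]
    field_simp
    ring

theorem int_inv (x : ℝ) (hx : 0 < x) : Integrable (fun y : ℝ => 1 / (y ^ 2 + x ^ 2)) := by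
  have h := (integrable_inv_one_add_sq.comp_div hx.ne').const_mul (1 / x ^ 2)
  refine h.congr (ae_of_all _ fun y => ?_)
  simp only
  field_simp
  ring

/-- the inverse transform -/
theorem lor (x : ℝ) (hx : 0 < x) (v : ℝ) :
    ∫ y : ℝ, ((1 / (y ^ 2 + x ^ 2) : ℝ) : ℂ) * Complex.exp (Complex.I * (y * v : ℝ))
      = ((Real.pi / x * Real.exp (-(x * |v|)) : ℝ) : ℂ) := by
  set f : ℝ → ℂ := fun X => ((Real.exp (-(x * |X|)) : ℝ) : ℂ) with hf
  have hfc : Continuous f := by fun_prop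
  have hfi : Integrable f := (exp_int x hx).1
  have hF : 𝓕 f = fun ξ => ((2 * x / (x ^ 2 + (2 * Real.pi * ξ) ^ 2) : ℝ) : ℂ) := by
    funext ξ
    rw [Real.fourier_real_eq_integral_exp_smul]
    rw [show ((2 * x / (x ^ 2 + (2 * Real.pi * ξ) ^ 2) : ℝ) : ℂ)
      = ((2 * x / (x ^ 2 + (-(2 * Real.pi * ξ)) ^ 2) : ℝ) : ℂ) by congr 2; ring,
      ← (exp_int x hx).2 (-(2 * Real.pi * ξ))]
    refine integral_congr_ae (ae_of_all _ fun X => ?_)
    simp only [smul_eq_mul, hf]
    rw [mul_comm]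
    congr 2
    push_cast
    ring
  have hFi : Integrable (𝓕 f) := by
    rw [hF]
    have h := (((int_inv x hx).comp_mul_left' (R := 2 * Real.pi) (by positivity)).const_mul
      (2 * x)).ofReal (𝕜 := ℂ)
    refine h.congr (ae_of_all _ fun y => ?_)
    simp only
    have e : 2 * x * (1 / ((2 * Real.pi * y) ^ 2 + x ^ 2))
        = 2 * x / (x ^ 2 + (2 * Real.pi * y) ^ 2) := by rw [mul_one_div, add_comm]
    rw [e]
    rfl
  have hinv := hfc.fourierInv_fourier_eq hfi hFi
  have h1 := congrFun hinv v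
  rw [Real.fourierInv_eq'] at h1
  have h2 : ∫ ξ : ℝ, ((2 * x / (x ^ 2 + (2 * Real.pi * ξ) ^ 2) : ℝ) : ℂ) *
      Complex.exp (Complex.I * ((2 * Real.pi * ξ) * v : ℝ)) = f v := by
    rw [← h1]
    refine integral_congr_ae (ae_of_all _ fun ξ => ?_)
    simp only [smul_eq_mul, hF]
    rw [mul_comm]
    congr 2
    simp
    ring
  have h3 := MeasureTheory.Measure.integral_comp_mul_left
    (fun y : ℝ => ((2 * x / (x ^ 2 + y ^ 2) : ℝ) : ℂ) * Complex.exp (Complex.I * (y * v : ℝ)))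
    (2 * Real.pi)
  rw [h2] at h3
  have hp : 0 < 2 * Real.pi := by positivity
  rw [abs_of_pos (by positivity)] at h3
  have h4 : ∫ y : ℝ, ((2 * x / (x ^ 2 + y ^ 2) : ℝ) : ℂ) * Complex.exp (Complex.I * (y * v : ℝ))
      = (2 * x : ℝ) * ∫ y : ℝ, ((1 / (y ^ 2 + x ^ 2) : ℝ) : ℂ) *
        Complex.exp (Complex.I * (y * v : ℝ)) := by
    rw [← integral_const_mul]
    refine integral_congr_ae (ae_of_all _ fun y => ?_)
    simp only
    rw [← mul_assoc, ← Complex.ofReal_mul, mul_one_div, add_comm]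
  rw [h4] at h3
  rw [hf] at h3
  simp only at h3
  have hx' : (x : ℂ) ≠ 0 := by exact_mod_cast hx.ne'
  have hpi : (Real.pi : ℂ) ≠ 0 := by exact_mod_cast Real.pi_pos.ne'
  rw [Complex.real_smul] at h3
  set J : ℂ := ∫ y : ℝ, ((1 / (y ^ 2 + x ^ 2) : ℝ) : ℂ) *
        Complex.exp (Complex.I * (y * v : ℝ)) with hJ
  rw [Complex.ofReal_mul, h3]
  push_cast
  field_simp

/-- the weight in terms of `fl` -/
theorem wt_eq (k : ℕ) (w t y : ℝ) (hk : 1 ≤ k) :
    pk w t y / ‖cz (1 / (2 * k) + Complex.I * y)‖ ^ (2 * k)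
      = (Real.sin (Real.pi * t) / (2 * w) / (Real.pi ^ (1 - 2 * (1 / (2 * k)) : ℝ)) ^ (2 * k)) *
        (fl k w t y * (1 / (y ^ 2 + (1 / (2 * k)) ^ 2))) := by
  have hk0 : (0 : ℝ) < k := by exact_mod_cast hk
  have hx : (0 : ℝ) < 1 / (2 * k) := by positivity
  have hx1 : (1 : ℝ) / (2 * k) ≤ 1 / 2 := by
    rw [div_le_div_iff₀ (by positivity) (by norm_num)]
    have : (1 : ℝ) ≤ k := by exact_mod_cast hk
    linarith
  have hz : ((1 / (2 * k) + Complex.I * y : ℂ)).re = 1 / (2 * k) := by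
    rw [Complex.add_re]
    have : ((1 : ℂ) / (2 * k)) = ((1 / (2 * k) : ℝ) : ℂ) := by push_cast; ring
    rw [this, Complex.ofReal_re]
    simp
  have h1 : ‖(Real.pi : ℂ) ^ (1 - 2 * (1 / (2 * k) + Complex.I * y) : ℂ)‖
      = Real.pi ^ (1 - 2 * (1 / (2 * k)) : ℝ) := by
    rw [Complex.norm_cpow_eq_rpow_re_of_pos Real.pi_pos]
    congr 1
    rw [Complex.sub_re, Complex.mul_re, hz]
    simp
  have h2 : ‖Complex.Gamma (1 - (1 / (2 * k) + Complex.I * y))‖
      = ‖Complex.Gamma (1 - 1 / (2 * k) + Complex.I * y)‖ := by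
    rw [← Complex.norm_conj, ← Complex.Gamma_conj]
    congr 2
    simp only [map_sub, map_add, map_mul, map_one, map_div₀, Complex.conj_I, Complex.conj_ofReal,
      Complex.conj_natCast, map_ofNat]
    ring
  have g1 : Complex.Gamma (1 / (2 * k) + Complex.I * y) ≠ 0 :=
    Complex.Gamma_ne_zero_of_re_pos (by rw [hz]; exact hx)
  have g2 : Complex.Gamma (1 - 1 / (2 * k) + Complex.I * y) ≠ 0 := by
    refine Complex.Gamma_ne_zero_of_re_pos ?_
    have : ((1 : ℂ) - 1 / (2 * k) + Complex.I * y) = (((1 - 1 / (2 * k) : ℝ)) : ℂ) + Complex.I * y := by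
      push_cast; ring
    rw [this, Complex.add_re, Complex.ofReal_re]
    simp only [Complex.mul_re, Complex.I_re, Complex.ofReal_re, zero_mul, Complex.I_im,
      Complex.ofReal_im, mul_zero, sub_zero, add_zero]
    linarith
  have p1 : 0 < ‖Complex.Gamma (1 / (2 * k) + Complex.I * y)‖ := norm_pos_iff.mpr g1
  have p2 : 0 < ‖Complex.Gamma (1 - 1 / (2 * k) + Complex.I * y)‖ := norm_pos_iff.mpr g2
  have p3 : (0 : ℝ) < Real.pi ^ (1 - 2 * (1 / (2 * k)) : ℝ) := Real.rpow_pos_of_pos Real.pi_pos _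
  have p4 : 0 < y ^ 2 + (1 / (2 * (k : ℝ))) ^ 2 := by positivity
  unfold cz
  rw [norm_div, norm_mul, h1, h2]
  unfold pk fl
  set A := Real.pi ^ (1 - 2 * (1 / (2 * k)) : ℝ)
  set B := ‖Complex.Gamma (1 / (2 * k) + Complex.I * y)‖
  set C := ‖Complex.Gamma (1 - 1 / (2 * k) + Complex.I * y)‖
  set D := Real.cosh (Real.pi * y / w) + Real.cos (Real.pi * t)
  set E := y ^ 2 + (1 / (2 * (k : ℝ))) ^ 2
  rw [div_pow, mul_pow, div_pow]
  have p5 : E ≠ 0 := p4.ne'
  by_cases hD : D = 0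
  · rw [hD]; simp
  by_cases hw : w = 0
  · rw [hw]; simp
  field_simp

end OmAux

open MeasureTheory Filter Topology OmAux in
/-- (Om) -/
theorem om : StmtOm := by
  intro k w t hk hw ht0 ht1 hPD
  obtain ⟨μ, hμ, hch⟩ := hPD
  set x : ℝ := 1 / (2 * k) with hxdef
  have hk0 : (0 : ℝ) < k := by exact_mod_cast hk
  have hx : 0 < x := by rw [hxdef]; positivity
  set c : ℝ := Real.sin (Real.pi * t) / (2 * w) / (Real.pi ^ (1 - 2 * (1 / (2 * k)) : ℝ)) ^ (2 * k)
    with hc
  have hsin : 0 < Real.sin (Real.pi * t) := by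
    refine Real.sin_pos_of_pos_of_lt_pi (by positivity) ?_
    nlinarith [Real.pi_pos]
  have hc0 : 0 < c := by
    have : (0 : ℝ) < Real.pi ^ (1 - 2 * (1 / (2 * k)) : ℝ) := Real.rpow_pos_of_pos Real.pi_pos _
    rw [hc]; positivity
  have hW : ∀ y : ℝ, pk w t y / ‖cz (1 / (2 * k) + Complex.I * y)‖ ^ (2 * k)
      = c * (fl k w t y * (1 / (y ^ 2 + x ^ 2))) := fun y => wt_eq k w t y hk
  have hfl : ∀ y, fl k w t y = (charFun μ y).re := fun y => by rw [hch]; simp
  have hflm : Measurable (fl k w t) := by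
    have : fl k w t = fun y => (charFun μ y).re := funext hfl
    rw [this]
    exact Complex.measurable_re.comp measurable_charFun
  have hflb : ∀ y, |fl k w t y| ≤ μ.real Set.univ := by
    intro y
    have h1 := norm_charFun_le (μ := μ) y
    rw [hch y, Complex.norm_real, Real.norm_eq_abs] at h1
    exact h1
  have hWi : Integrable (fun y : ℝ => pk w t y / ‖cz (1 / (2 * k) + Complex.I * y)‖ ^ (2 * k)) := by
    simp_rw [hW]
    refine Integrable.const_mul ?_ c
    exact (int_inv x hx).bdd_mul hflm.aestronglyMeasurable (c := μ.real Set.univ)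
      (ae_of_all _ fun y => by rw [Real.norm_eq_abs]; exact hflb y)
  refine ⟨ENNReal.ofReal (c * (Real.pi / x)) • μ.map (fun s => -s), ?_, hWi, fun X => ?_⟩
  · have : IsFiniteMeasure (μ.map (fun s => -s)) := inferInstance
    exact Measure.smul_finite _ ENNReal.ofReal_ne_top
  · -- the double integral
    have hF : Integrable (Function.uncurry fun (y s : ℝ) =>
        ((1 / (y ^ 2 + x ^ 2) : ℝ) : ℂ) * Complex.exp (Complex.I * (y * (X + s) : ℝ)))
        (volume.prod μ) := by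
      have hm : Integrable (fun z : ℝ × ℝ => ((1 / (z.1 ^ 2 + x ^ 2) : ℝ) : ℂ) * (1 : ℂ))
          (volume.prod μ) := by
        refine Integrable.mul_prod (f := fun y : ℝ => ((1 / (y ^ 2 + x ^ 2) : ℝ) : ℂ))
          (g := fun _ : ℝ => (1 : ℂ)) (int_inv x hx).ofReal (integrable_const _)
      refine hm.mono (by fun_prop) (ae_of_all _ fun z => ?_)
      simp only [Function.uncurry]
      rw [norm_mul, norm_mul, mul_comm Complex.I, Complex.norm_exp_ofReal_mul_I]
      simp
    have h1 : ∀ y : ℝ, ((pk w t y / ‖cz (1 / (2 * k) + Complex.I * y)‖ ^ (2 * k) : ℝ) : ℂ) *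
        Complex.exp (Complex.I * (y * X : ℝ)) = (c : ℂ) * ∫ s, ((1 / (y ^ 2 + x ^ 2) : ℝ) : ℂ) *
          Complex.exp (Complex.I * (y * (X + s) : ℝ)) ∂μ := by
      intro y
      rw [hW y]
      push_cast
      rw [← hch y, charFun_apply_real, integral_const_mul]
      rw [show (∫ a, Complex.exp (Complex.I * ((y : ℂ) * ((X : ℂ) + (a : ℂ)))) ∂μ)
        = Complex.exp (Complex.I * (y * X)) * ∫ a, Complex.exp (y * a * Complex.I) ∂μ by
          rw [← integral_const_mul]
          refine integral_congr_ae (ae_of_all _ fun a => ?_)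
          simp only
          rw [← Complex.exp_add]
          congr 1
          ring]
      ring
    simp_rw [h1]
    rw [integral_const_mul, integral_integral_swap hF]
    have h2 : ∀ s : ℝ, ∫ y : ℝ, ((1 / (y ^ 2 + x ^ 2) : ℝ) : ℂ) *
        Complex.exp (Complex.I * (y * (X + s) : ℝ))
        = ((Real.pi / x * Real.exp (-(x * |X + s|)) : ℝ) : ℂ) := fun s => lor x hx (X + s)
    simp_rw [h2]
    rw [integral_complex_ofReal, ← Complex.ofReal_mul]
    congr 1
    rw [integral_smul_measure, integral_map (by fun_prop) (by fun_prop),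
      ENNReal.toReal_ofReal (by positivity), smul_eq_mul, integral_const_mul, ← mul_assoc]
    congr 1
    refine integral_congr_ae (ae_of_all _ fun s => ?_)
    simp only
    congr 2
    rw [sub_neg_eq_add, hxdef]
    ring

end Pool.Agent.Lib.MP_dd244f_an.Rp
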