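import Pool.Agent.Lib.MP_dd244f_an.Rp.StmtsH

set_option autoImplicit false

/-! (PDc) closure properties of positive definite functions. -/

namespace Pool.Agent.Lib.MP_dd244f_an.Rp
namespace PDcAux

open MeasureTheory Filter Topology
open scoped ENNReal NNReal

theorem cf_smul (c : ℝ≥0∞) (μ : Measure ℝ) (y : ℝ) :
    charFun (c • μ) y = ((c.toReal : ℝ) : ℂ) * charFun μ y := by
  rw [charFun_apply_real, charFun_apply_real, integral_smul_measure, Complex.real_smul]

theorem cf_add (μ ν : Measure ℝ) [IsFiniteMeasure μ] [IsFiniteMeasure ν] (y : ℝ) :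
    charFun (μ + ν) y = charFun μ y + charFun ν y := by
  rw [charFun_apply_real, charFun_apply_real, charFun_apply_real]
  have h : ∀ μ : Measure ℝ, IsFiniteMeasure μ →
      Integrable (fun x : ℝ => Complex.exp (y * x * Complex.I)) μ := by
    intro μ hμ
    refine Integrable.mono' (integrable_const (1 : ℝ)) (by fun_prop) (ae_of_all _ fun x => ?_)
    rw [show (y : ℂ) * x * Complex.I = ((y * x : ℝ) : ℂ) * Complex.I by push_cast; ring,
      Complex.norm_exp_ofReal_mul_I]
  exact integral_add_measure (h μ inferInstance) (h ν inferInstance)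

theorem pd_const (c : ℝ) (hc : 0 ≤ c) : PD (fun _ => c) := by
  refine ⟨ENNReal.ofReal c • Measure.dirac 0, ?_, fun y => ?_⟩
  · exact ⟨by simp⟩
  · rw [cf_smul, charFun_dirac]
    simp [ENNReal.toReal_ofReal hc]

theorem pd_smul {f : ℝ → ℝ} {c : ℝ} (hc : 0 ≤ c) (hf : PD f) : PD (fun y => c * f y) := by
  obtain ⟨μ, hμ, h⟩ := hf
  refine ⟨ENNReal.ofReal c • μ, ?_, fun y => ?_⟩
  · exact Measure.smul_finite μ ENNReal.ofReal_ne_top
  · rw [cf_smul, h, ENNReal.toReal_ofReal hc]
    push_cast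
    rfl

theorem pd_mul {f g : ℝ → ℝ} (hf : PD f) (hg : PD g) : PD (fun y => f y * g y) := by
  obtain ⟨μ, hμ, h⟩ := hf
  obtain ⟨ν, hν, k⟩ := hg
  refine ⟨μ ∗ ν, inferInstance, fun y => ?_⟩
  rw [charFun_conv, h, k]
  push_cast
  rfl

theorem pd_add {f g : ℝ → ℝ} (hf : PD f) (hg : PD g) : PD (fun y => f y + g y) := by
  obtain ⟨μ, hμ, h⟩ := hf
  obtain ⟨ν, hν, k⟩ := hg
  refine ⟨μ + ν, inferInstance, fun y => ?_⟩
  rw [cf_add, h, k]
  push_cast
  rfl

theorem pd_scale {f : ℝ → ℝ} (c : ℝ) (hf : PD f) : PD (fun y => f (c * y)) := by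
  obtain ⟨μ, hμ, h⟩ := hf
  refine ⟨μ.map (c * ·), inferInstance, fun y => ?_⟩
  rw [charFun_map_mul, h]

theorem pd_density (ψ g : ℝ → ℝ) (hi : Integrable ψ) (h0 : ∀ X, 0 ≤ ψ X)
    (h : ∀ y : ℝ, ∫ X, ((ψ X : ℝ) : ℂ) * Complex.exp (Complex.I * (y * X : ℝ)) = ((g y : ℝ) : ℂ)) :
    PD g := by
  refine ⟨volume.withDensity (fun X => ENNReal.ofReal (ψ X)), ?_, fun y => ?_⟩
  · refine isFiniteMeasure_withDensity_ofReal ?_
    exact hi.2
  · rw [charFun_apply_real, integral_withDensity_eq_integral_toReal_smul₀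
      hi.aestronglyMeasurable.aemeasurable.ennreal_ofReal (ae_of_all _ fun x => ENNReal.ofReal_lt_top),
      ← h y]
    refine integral_congr_ae (ae_of_all _ fun X => ?_)
    simp only
    rw [ENNReal.toReal_ofReal (h0 X), Complex.real_smul]
    congr 2
    push_cast
    ring

theorem pd_laplace (A : ℝ) (hA : 0 < A) : PD (fun y => 1 / (1 + y ^ 2 / A ^ 2)) := by
  -- the two half lines
  have e1 : ∀ y : ℝ, Set.EqOn (fun X : ℝ => ((A / 2 * Real.exp (-(A * |X|)) : ℝ) : ℂ) *
      Complex.exp (Complex.I * (y * X : ℝ)))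
      (fun X : ℝ => (A / 2 : ℂ) * Complex.exp ((-A + Complex.I * y) * X)) (Set.Ioi 0) := by
    intro y X hX
    have : |X| = X := abs_of_pos hX
    simp only
    rw [this]
    push_cast
    rw [mul_assoc, ← Complex.exp_add]
    congr 2
    ring
  have e2 : ∀ y : ℝ, Set.EqOn (fun X : ℝ => ((A / 2 * Real.exp (-(A * |X|)) : ℝ) : ℂ) *
      Complex.exp (Complex.I * (y * X : ℝ)))
      (fun X : ℝ => (A / 2 : ℂ) * Complex.exp ((A + Complex.I * y) * X)) (Set.Iic 0) := by
    intro y X hX
    have : |X| = -X := abs_of_nonpos hX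
    simp only
    rw [this]
    push_cast
    rw [mul_assoc, ← Complex.exp_add]
    congr 2
    ring
  have r1 : ∀ y : ℝ, (-(A : ℂ) + Complex.I * y).re < 0 := by intro y; simp [hA]
  have r2 : ∀ y : ℝ, 0 < ((A : ℂ) + Complex.I * y).re := by intro y; simp [hA]
  have i1 : ∀ y : ℝ, IntegrableOn (fun X : ℝ => ((A / 2 * Real.exp (-(A * |X|)) : ℝ) : ℂ) *
      Complex.exp (Complex.I * (y * X : ℝ))) (Set.Ioi 0) := fun y =>
    (integrableOn_congr_fun (e1 y) measurableSet_Ioi).mpr
      ((integrableOn_exp_mul_complex_Ioi (r1 y) 0).const_mul _)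
  have i2 : ∀ y : ℝ, IntegrableOn (fun X : ℝ => ((A / 2 * Real.exp (-(A * |X|)) : ℝ) : ℂ) *
      Complex.exp (Complex.I * (y * X : ℝ))) (Set.Iic 0) := fun y =>
    (integrableOn_congr_fun (e2 y) measurableSet_Iic).mpr
      ((integrableOn_exp_mul_complex_Iic (r2 y) 0).const_mul _)
  have i3 : ∀ y : ℝ, Integrable (fun X : ℝ => ((A / 2 * Real.exp (-(A * |X|)) : ℝ) : ℂ) *
      Complex.exp (Complex.I * (y * X : ℝ))) := by
    intro y
    rw [← integrableOn_univ, ← Set.Iic_union_Ioi (a := (0 : ℝ))]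
    exact (i2 y).union (i1 y)
  refine pd_density (fun X => A / 2 * Real.exp (-(A * |X|))) _ ?_ (fun X => by positivity) ?_
  · have := (i3 0).norm
    refine this.congr (ae_of_all _ fun X => ?_)
    simp only
    rw [norm_mul, Complex.norm_real, Real.norm_eq_abs, abs_of_pos (by positivity)]
    simp
  · intro y
    rw [← intervalIntegral.integral_Iic_add_Ioi (i2 y) (i1 y),
      setIntegral_congr_fun measurableSet_Ioi (e1 y),
      setIntegral_congr_fun measurableSet_Iic (e2 y), integral_const_mul, integral_const_mul,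
      integral_exp_mul_complex_Ioi (r1 y), integral_exp_mul_complex_Iic (r2 y)]
    have n1 : (-(A : ℂ) + Complex.I * y) ≠ 0 := fun h => by
      have := congrArg Complex.re h
      simp at this
      exact hA.ne' this
    have n2 : ((A : ℂ) + Complex.I * y) ≠ 0 := fun h => by
      have := congrArg Complex.re h
      simp at this
      exact hA.ne' this
    have n3 : (A : ℂ) ≠ 0 := by exact_mod_cast hA.ne'
    have n4 : (A : ℂ) ^ 2 + (y : ℂ) ^ 2 ≠ 0 := by
      have : (0 : ℝ) < A ^ 2 + y ^ 2 := by positivity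
      exact_mod_cast this.ne'
    have n5 : (1 + (y : ℂ) ^ 2 / (A : ℂ) ^ 2) ≠ 0 := by
      have : (0 : ℝ) < 1 + y ^ 2 / A ^ 2 := by positivity
      exact_mod_cast this.ne'
    push_cast
    simp only [mul_zero, Complex.exp_zero]
    have k1 : (-(A : ℂ) + Complex.I * y) * ((A : ℂ) + Complex.I * y) = -((A : ℂ) ^ 2 + (y : ℂ) ^ 2) := by
      ring_nf
      rw [Complex.I_sq]
      ring
    rw [eq_div_iff n5]
    have k3 : 1 / ((A : ℂ) + Complex.I * y) = -(-(A : ℂ) + Complex.I * y) / (A ^ 2 + y ^ 2) := by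
      rw [div_eq_div_iff n2 n4]
      linear_combination k1
    have k4 : -1 / (-(A : ℂ) + Complex.I * y) = ((A : ℂ) + Complex.I * y) / (A ^ 2 + y ^ 2) := by
      rw [div_eq_div_iff n1 n4]
      linear_combination -k1
    have k2 : (A / 2 : ℂ) * (1 / ((A : ℂ) + Complex.I * y)) +
        (A / 2 : ℂ) * (-1 / (-(A : ℂ) + Complex.I * y)) = A ^ 2 / (A ^ 2 + y ^ 2) := by
      rw [k3, k4]
      field_simp
      ring
    rw [k2]
    field_simp

theorem pd_ratio (A B : ℝ) (hA : 0 < A) (hAB : A ≤ B) :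
    PD (fun y => (1 + y ^ 2 / B ^ 2) / (1 + y ^ 2 / A ^ 2)) := by
  have hB : 0 < B := hA.trans_le hAB
  have h1 : 0 ≤ 1 - A ^ 2 / B ^ 2 := by
    rw [sub_nonneg, div_le_one (by positivity)]
    exact pow_le_pow_left₀ hA.le hAB 2
  have h := pd_add (pd_const (A ^ 2 / B ^ 2) (by positivity)) (pd_smul h1 (pd_laplace A hA))
  convert h using 2 with y
  have : (0 : ℝ) < 1 + y ^ 2 / A ^ 2 := by positivity
  have h2 : (0 : ℝ) < A ^ 2 + y ^ 2 := by positivity
  field_simp
  ring

theorem pd_zero_of {f : ℝ → ℝ} (hf : PD f) : 0 ≤ f 0 ∧ ∀ y, |f y| ≤ f 0 := by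
  obtain ⟨μ, hμ, h⟩ := hf
  have h0 : f 0 = μ.real Set.univ := by
    have := h 0
    rw [charFun_zero] at this
    exact_mod_cast this.symm
  refine ⟨by rw [h0]; positivity, fun y => ?_⟩
  have h1 := norm_charFun_le (μ := μ) y
  rw [h y, Complex.norm_real, Real.norm_eq_abs] at h1
  rw [h0]
  exact h1

theorem pd_limit (f : ℕ → ℝ → ℝ) (g : ℝ → ℝ) (hf : ∀ N, PD (f N))
    (hfg : ∀ y, Tendsto (fun N => f N y) atTop (𝓝 (g y))) (hg : Continuous g) : PD g := by
  have hg0 : 0 ≤ g 0 := ge_of_tendsto' (hfg 0) (fun N => (pd_zero_of (hf N)).1)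
  have hgy : ∀ y, |g y| ≤ g 0 := fun y =>
    le_of_tendsto_of_tendsto' (hfg y).abs (hfg 0) (fun N => (pd_zero_of (hf N)).2 y)
  rcases hg0.eq_or_lt with h0 | hpos
  · have : g = fun _ => 0 := by
      funext y
      have := hgy y
      rw [← h0] at this
      exact abs_nonpos_iff.mp this
    rw [this]
    exact pd_const 0 le_rfl
  · -- normalise
    obtain ⟨N₀, hN₀⟩ := eventually_atTop.mp ((hfg 0).eventually (lt_mem_nhds hpos))
    choose μ hμ hc using hf
    have hmass : ∀ N, (μ N).real Set.univ = f N 0 := by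
      intro N
      have := hc N 0
      rw [charFun_zero] at this
      exact_mod_cast this
    let ν : ℕ → Measure ℝ := fun N => (μ (N + N₀) Set.univ)⁻¹ • μ (N + N₀)
    have hpos' : ∀ N, 0 < f (N + N₀) 0 := fun N => hN₀ _ (by omega)
    have hne : ∀ N, μ (N + N₀) Set.univ ≠ 0 := by
      intro N h
      have := hmass (N + N₀)
      rw [Measure.real, h] at this
      simp at this
      exact (hpos' N).ne this
    have hν : ∀ N, IsProbabilityMeasure (ν N) := by
      intro N
      refine ⟨?_⟩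
      show (μ (N + N₀) Set.univ)⁻¹ * μ (N + N₀) Set.univ = 1
      exact ENNReal.inv_mul_cancel (hne N) (measure_ne_top _ _)
    have hcf : ∀ N y, charFun (ν N) y = ((f (N + N₀) y / f (N + N₀) 0 : ℝ) : ℂ) := by
      intro N y
      show charFun ((μ (N + N₀) Set.univ)⁻¹ • μ (N + N₀)) y = _
      rw [cf_smul, hc, ENNReal.toReal_inv]
      have : (μ (N + N₀) Set.univ).toReal = f (N + N₀) 0 := hmass _
      rw [this]
      push_cast
      rw [div_eq_inv_mul]
    have hlim : ∀ y, Tendsto (fun N => charFun (ν N) y) atTop (𝓝 ((g y / g 0 : ℝ) : ℂ)) := by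
      intro y
      simp_rw [hcf]
      refine (Complex.continuous_ofReal.tendsto _).comp ?_
      exact ((hfg y).comp (tendsto_add_atTop_nat N₀)).div ((hfg 0).comp (tendsto_add_atTop_nat N₀))
        hpos.ne'
    have htight : IsTightMeasureSet (Set.range ν) := by
      refine isTightMeasureSet_of_tendsto_charFun (f := fun y => ((g y / g 0 : ℝ) : ℂ)) ?_ hlim
      exact (Complex.continuous_ofReal.comp (hg.div_const _)).continuousAt
    let P : ℕ → ProbabilityMeasure ℝ := fun N => ⟨ν N, hν N⟩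
    have hcomp : IsCompact (closure (Set.range P)) := by
      refine isCompact_closure_of_isTightMeasureSet ?_
      convert htight using 1
      ext m
      constructor
      · rintro ⟨q, ⟨n, hn⟩, rfl⟩
        exact ⟨n, by rw [← hn]; rfl⟩
      · rintro ⟨n, rfl⟩
        exact ⟨P n, ⟨n, rfl⟩, rfl⟩
    have hU : (atTop : Filter ℕ).NeBot := inferInstance
    obtain ⟨μ', -, hμ'⟩ := hcomp.ultrafilter_le_nhds ((Ultrafilter.of (atTop : Filter ℕ)).map P)
      (by
        refine le_principal_iff.mpr ?_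
        refine mem_of_superset ?_ subset_closure
        exact Filter.mem_map.mpr (univ_mem' fun n => ⟨n, rfl⟩))
    have hμ'2 : Tendsto P (Ultrafilter.of (atTop : Filter ℕ)) (𝓝 μ') := hμ'
    have hcf' : ∀ y, charFun (μ' : Measure ℝ) y = ((g y / g 0 : ℝ) : ℂ) := by
      intro y
      have h1 := (ProbabilityMeasure.tendsto_iff_forall_integral_rclike_tendsto ℂ).mp hμ'2
        (BoundedContinuousFunction.innerProbChar y)
      have h2 : Tendsto (fun N => charFun (ν N) y) (Ultrafilter.of (atTop : Filter ℕ))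
          (𝓝 ((g y / g 0 : ℝ) : ℂ)) := (hlim y).mono_left (Ultrafilter.of_le _)
      have h3 : (fun N => charFun (ν N) y) =
          fun N => ∫ ω, BoundedContinuousFunction.innerProbChar y ω ∂(P N : Measure ℝ) := by
        funext N
        exact charFun_eq_integral_innerProbChar
      rw [h3] at h2
      have := tendsto_nhds_unique h1 h2
      rw [charFun_eq_integral_innerProbChar]
      exact this
    have hfin := pd_smul hpos.le (f := fun y => g y / g 0) ⟨(μ' : Measure ℝ), inferInstance, hcf'⟩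
    convert hfin using 2 with y
    field_simp

end PDcAux

open PDcAux in
theorem pdc : StmtPDc :=
  ⟨pd_const, fun _ _ _ hc hf hg => ⟨pd_mul hf hg, pd_add hf hg, pd_smul hc hf⟩,
    fun _ c hf => pd_scale c hf, pd_laplace, pd_ratio, pd_limit, pd_density⟩

end Pool.Agent.Lib.MP_dd244f_an.Rp
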