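import Pool.Agent.Lib.MP_dd244f_an.Rp.StmtsH

/-!
(Poi): the Poisson formula in a strip.
-/

set_option autoImplicit false

namespace Pool.Agent.Lib.MP_dd244f_an.Rp

open MeasureTheory Filter Topology Set

namespace PoiAux

/-! ### The kernel -/

lemma sinp {t : ℝ} (h0 : 0 < t) (h1 : t < 1) : 0 < Real.sin (Real.pi * t) :=
  Real.sin_pos_of_pos_of_lt_pi (by positivity) (by nlinarith [Real.pi_pos])

lemma cosp {t : ℝ} (h0 : 0 < t) (h1 : t < 1) : -1 < Real.cos (Real.pi * t) := by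
  rw [← Real.cos_pi]
  apply Real.cos_lt_cos_of_nonneg_of_le_pi (by positivity) le_rfl
  nlinarith [Real.pi_pos]

lemma dlt_pos {t : ℝ} (h0 : 0 < t) (h1 : t < 1) : 0 < min 1 (1 + Real.cos (Real.pi * t)) :=
  lt_min one_pos (by linarith [cosp h0 h1])

lemma den_ge (t u : ℝ) : min 1 (1 + Real.cos (Real.pi * t)) * Real.cosh u ≤
    Real.cosh u + Real.cos (Real.pi * t) := by
  have h := Real.one_le_cosh u
  have h2 : 0 ≤ 1 - min 1 (1 + Real.cos (Real.pi * t)) := by
    linarith [min_le_left 1 (1 + Real.cos (Real.pi * t))]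
  have h3 := min_le_right 1 (1 + Real.cos (Real.pi * t))
  nlinarith

lemma cosh_ge (u : ℝ) : Real.exp |u| / 2 ≤ Real.cosh u := by
  rw [← Real.cosh_abs, Real.cosh_eq]
  have := Real.exp_pos (-|u|)
  linarith

lemma den_pos {t : ℝ} (h0 : 0 < t) (h1 : t < 1) (u : ℝ) :
    0 < Real.cosh u + Real.cos (Real.pi * t) :=
  lt_of_lt_of_le (mul_pos (dlt_pos h0 h1) (Real.cosh_pos u)) (den_ge t u)

lemma pk_pos {w t : ℝ} (hw : 0 < w) (h0 : 0 < t) (h1 : t < 1) (y : ℝ) : 0 < pk w t y := by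
  unfold pk
  have := sinp h0 h1
  have := den_pos h0 h1 (Real.pi * y / w)
  positivity

lemma pk_le {w t : ℝ} (hw : 0 < w) (h0 : 0 < t) (h1 : t < 1) (y : ℝ) :
    pk w t y ≤ 1 / (w * min 1 (1 + Real.cos (Real.pi * t))) *
      Real.exp (-(Real.pi / w) * |y|) := by
  unfold pk
  have hd := dlt_pos h0 h1
  set δ := min 1 (1 + Real.cos (Real.pi * t)) with hδ
  have e : |Real.pi * y / w| = Real.pi / w * |y| := by
    rw [abs_div, abs_mul, abs_of_pos Real.pi_pos, abs_of_pos hw]; ring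
  have h2 : δ * (Real.exp (Real.pi / w * |y|) / 2) ≤
      Real.cosh (Real.pi * y / w) + Real.cos (Real.pi * t) := by
    refine le_trans ?_ (den_ge t _)
    apply mul_le_mul_of_nonneg_left _ hd.le
    rw [← e]
    exact cosh_ge _
  have h3 : 0 < δ * (Real.exp (Real.pi / w * |y|) / 2) := by positivity
  calc Real.sin (Real.pi * t) / (2 * w * (Real.cosh (Real.pi * y / w) + Real.cos (Real.pi * t)))
      ≤ 1 / (2 * w * (δ * (Real.exp (Real.pi / w * |y|) / 2))) := by
        apply div_le_div₀ zero_le_one (Real.sin_le_one _) (by positivity)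
        apply mul_le_mul_of_nonneg_left h2 (by positivity)
    _ = 1 / (w * δ) * Real.exp (-(Real.pi / w) * |y|) := by
        rw [neg_mul, Real.exp_neg]
        field_simp

lemma cont_pk {w t : ℝ} (hw : 0 < w) (h0 : 0 < t) (h1 : t < 1) : Continuous (pk w t) := by
  unfold pk
  apply Continuous.div continuous_const
  · fun_prop
  · intro y
    have := den_pos h0 h1 (Real.pi * y / w)
    positivity

lemma int_exp (b : ℝ) (hb : 0 < b) : Integrable (fun y : ℝ => Real.exp (-b * |y|)) := by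
  have h := (integrable_fun_norm_addHaar (volume : Measure ℝ)
    (f := fun y : ℝ => Real.exp (-b * y))).mpr ?_
  · simpa [Real.norm_eq_abs] using h
  · have := exp_neg_integrableOn_Ioi 0 hb
    simpa using this

lemma pow_le (N : ℕ) (b : ℝ) (hb : 0 < b) : ∃ C : ℝ, 0 < C ∧ ∀ y : ℝ,
    (1 + |y|) ^ N ≤ C * Real.exp (b * |y|) := by
  refine ⟨(N.factorial : ℝ) / b ^ N * Real.exp b, by positivity, fun y => ?_⟩
  have h := Real.pow_div_factorial_le_exp (b * (1 + |y|)) (by positivity) N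
  rw [div_le_iff₀ (by positivity), mul_pow] at h
  have e : Real.exp (b * (1 + |y|)) = Real.exp b * Real.exp (b * |y|) := by
    rw [← Real.exp_add]; ring_nf
  rw [e] at h
  have hbN : 0 < b ^ N := by positivity
  rw [div_mul_eq_mul_div, div_mul_eq_mul_div, le_div_iff₀ hbN]
  linarith

lemma int_pow_exp (N : ℕ) (b : ℝ) (hb : 0 < b) :
    Integrable (fun y : ℝ => (1 + |y|) ^ N * Real.exp (-b * |y|)) := by
  obtain ⟨C, hC, h⟩ := pow_le N (b / 2) (by positivity)
  refine ((int_exp (b / 2) (by positivity)).const_mul C).mono' (by fun_prop) ?_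
  refine Eventually.of_forall fun y => ?_
  rw [Real.norm_eq_abs, abs_of_nonneg (by positivity)]
  calc (1 + |y|) ^ N * Real.exp (-b * |y|) ≤ C * Real.exp (b / 2 * |y|) * Real.exp (-b * |y|) :=
        mul_le_mul_of_nonneg_right (h y) (Real.exp_pos _).le
    _ = C * Real.exp (-(b / 2) * |y|) := by
        rw [mul_assoc, ← Real.exp_add]; ring_nf

lemma int_pk {w t : ℝ} (hw : 0 < w) (h0 : 0 < t) (h1 : t < 1) (N : ℕ) :
    Integrable (fun y => (1 + |y|) ^ N * pk w t y) := by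
  refine ((int_pow_exp N (Real.pi / w) (by positivity)).const_mul
    (1 / (w * min 1 (1 + Real.cos (Real.pi * t))))).mono' ?_ ?_
  · exact (Continuous.mul (by fun_prop) (cont_pk hw h0 h1)).aestronglyMeasurable
  · refine Eventually.of_forall fun y => ?_
    have hp := pk_pos hw h0 h1 y
    rw [Real.norm_eq_abs, abs_of_nonneg (by positivity)]
    have := mul_le_mul_of_nonneg_left (pk_le hw h0 h1 y)
      (by positivity : (0 : ℝ) ≤ (1 + |y|) ^ N)
    linarith

/-- antiderivative -/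
lemma hasDeriv (t : ℝ) (h0 : 0 < t) (h1 : t < 1) (y : ℝ) :
    HasDerivAt (fun y : ℝ => 1 / Real.pi *
      Real.arctan (Real.tan (Real.pi * t / 2) * Real.tanh (Real.pi * y / 2))) (pk 1 t y) y := by
  have hpi := Real.pi_pos
  have hc : 0 < Real.cos (Real.pi * t / 2) :=
    Real.cos_pos_of_mem_Ioo ⟨by nlinarith, by nlinarith⟩
  have hch : 0 < Real.cosh (Real.pi * y / 2) := Real.cosh_pos _
  have d1 : HasDerivAt (fun y : ℝ => Real.pi * y / 2) (Real.pi / 2) y := by
    have := ((hasDerivAt_id y).const_mul (Real.pi)).div_const 2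
    simpa using this
  have d2 : HasDerivAt (fun y : ℝ => Real.tanh (Real.pi * y / 2))
      ((Real.cosh (Real.pi * y / 2) * (Real.pi / 2) * Real.cosh (Real.pi * y / 2) -
        Real.sinh (Real.pi * y / 2) * (Real.sinh (Real.pi * y / 2) * (Real.pi / 2))) /
        Real.cosh (Real.pi * y / 2) ^ 2) y := by
    have := (d1.sinh).div (d1.cosh) hch.ne'
    refine this.congr_of_eventuallyEq (Eventually.of_forall fun z => ?_)
    simp only [Real.tanh_eq_sinh_div_cosh, Pi.div_apply]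
  have d3 := (((d2.const_mul (Real.tan (Real.pi * t / 2))).arctan).const_mul (1 / Real.pi))
  refine d3.congr_deriv ?_
  unfold pk
  rw [Real.tan_eq_sin_div_cos, Real.tanh_eq_sinh_div_cosh]
  have e1 : Real.sin (Real.pi * t) = 2 * Real.sin (Real.pi * t / 2) * Real.cos (Real.pi * t / 2) := by
    rw [← Real.sin_two_mul]; ring_nf
  have e2 : Real.cos (Real.pi * t) = 2 * Real.cos (Real.pi * t / 2) ^ 2 - 1 := by
    rw [← Real.cos_two_mul]; ring_nf
  have e3 : Real.cosh (Real.pi * y / 1) = 2 * Real.cosh (Real.pi * y / 2) ^ 2 - 1 := by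
    have := Real.cosh_two_mul (Real.pi * y / 2)
    have h2 := Real.cosh_sq (Real.pi * y / 2)
    have e : Real.pi * y / 1 = 2 * (Real.pi * y / 2) := by ring
    rw [e, this]; linarith
  have hden := den_pos h0 h1 (Real.pi * y / 1)
  have hs2 := Real.sin_sq_add_cos_sq (Real.pi * t / 2)
  have hsh := Real.cosh_sq (Real.pi * y / 2)
  rw [e2, e3] at hden
  rw [e1, e2, e3]
  set s := Real.sin (Real.pi * t / 2)
  set c := Real.cos (Real.pi * t / 2)
  set C := Real.cosh (Real.pi * y / 2)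
  set S := Real.sinh (Real.pi * y / 2)
  have hden2 : 0 < c ^ 2 * C ^ 2 + s ^ 2 * S ^ 2 := by positivity
  have key : 2 * (c ^ 2 * C ^ 2 + s ^ 2 * S ^ 2) = 2 * C ^ 2 - 1 + (2 * c ^ 2 - 1) := by
    have a1 : s ^ 2 = 1 - c ^ 2 := by linarith
    have a2 : S ^ 2 = C ^ 2 - 1 := by linarith
    rw [a1, a2]; ring
  have e4 : 1 + (s / c * (S / C)) ^ 2 = (c ^ 2 * C ^ 2 + s ^ 2 * S ^ 2) / (c ^ 2 * C ^ 2) := by
    field_simp
  have e5 : (C * (Real.pi / 2) * C - S * (S * (Real.pi / 2))) = Real.pi / 2 := by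
    have : C * C - S * S = 1 := by nlinarith
    linear_combination (Real.pi / 2) * this
  rw [e4, e5, ← key]
  field_simp

lemma tanh_top : Tendsto Real.tanh atTop (𝓝 1) := by
  have h : ∀ x : ℝ, Real.tanh x = 1 - 2 / (Real.exp (2 * x) + 1) := by
    intro x
    rw [Real.tanh_eq_sinh_div_cosh, Real.sinh_eq, Real.cosh_eq]
    have : Real.exp (2 * x) = Real.exp x * Real.exp x := by rw [← Real.exp_add]; ring_nf
    rw [this, Real.exp_neg]
    have := Real.exp_pos x
    field_simp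
    ring
  simp_rw [funext h]
  have h2 : Tendsto (fun x : ℝ => 2 / (Real.exp (2 * x) + 1)) atTop (𝓝 0) := by
    apply Tendsto.div_atTop tendsto_const_nhds
    apply tendsto_atTop_add_const_right
    exact Real.tendsto_exp_atTop.comp (tendsto_id.const_mul_atTop two_pos)
  simpa using h2.const_sub 1

lemma mass1 {t : ℝ} (h0 : 0 < t) (h1 : t < 1) : ∫ y, pk 1 t y = t := by
  have hpi := Real.pi_pos
  have hint : Integrable (pk 1 t) := by simpa using int_pk one_pos h0 h1 0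
  have htop : Tendsto (fun y : ℝ => 1 / Real.pi *
      Real.arctan (Real.tan (Real.pi * t / 2) * Real.tanh (Real.pi * y / 2))) atTop
      (𝓝 (t / 2)) := by
    have a : Tendsto (fun y : ℝ => Real.tanh (Real.pi * y / 2)) atTop (𝓝 1) := by
      refine tanh_top.comp ?_
      have : (fun y : ℝ => Real.pi * y / 2) = fun y => (Real.pi / 2) * y := by ext; ring
      rw [this]
      exact tendsto_id.const_mul_atTop (by positivity)
    have b := ((Real.continuous_arctan.tendsto _).comp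
      (a.const_mul (Real.tan (Real.pi * t / 2)))).const_mul (1 / Real.pi)
    refine b.congr' ?_ |>.trans ?_
    · exact Eventually.of_forall fun y => rfl
    · rw [mul_one, Real.arctan_tan (by nlinarith) (by nlinarith)]
      apply le_of_eq
      congr 1
      field_simp
  have hbot : Tendsto (fun y : ℝ => 1 / Real.pi *
      Real.arctan (Real.tan (Real.pi * t / 2) * Real.tanh (Real.pi * y / 2))) atBot
      (𝓝 (-(t / 2))) := by
    have := (htop.comp tendsto_neg_atBot_atTop).neg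
    refine this.congr fun y => ?_
    simp only [Function.comp_apply]
    have : Real.pi * -y / 2 = -(Real.pi * y / 2) := by ring
    rw [this, Real.tanh_neg, mul_neg, Real.arctan_neg]
    ring
  rw [integral_of_hasDerivAt_of_tendsto (hasDeriv t h0 h1) hint hbot htop]
  ring

lemma pk_scale {w t : ℝ} (hw : 0 < w) (y : ℝ) : w * pk w t (w * y) = pk 1 t y := by
  unfold pk
  have : Real.pi * (w * y) / w = Real.pi * y / 1 := by field_simp
  rw [this]
  field_simp

lemma mass {w t : ℝ} (hw : 0 < w) (h0 : 0 < t) (h1 : t < 1) : ∫ y, pk w t y = t := by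
  have h := Measure.integral_comp_mul_left (pk w t) w
  rw [abs_of_pos (by positivity), smul_eq_mul] at h
  have h2 : ∫ y, pk w t y = w * ∫ y, pk w t (w * y) := by
    rw [h]; field_simp
  rw [h2, ← integral_const_mul]
  simp_rw [pk_scale hw]
  exact mass1 h0 h1

/-! ### The formula in the unit strip -/

lemma closure_strip {a b : ℝ} (h : a < b) {z : ℂ} (h1 : a ≤ z.re) (h2 : z.re ≤ b) :
    z ∈ closure {z : ℂ | a < z.re ∧ z.re < b} := by
  have e : {z : ℂ | a < z.re ∧ z.re < b} = Complex.re ⁻¹' (Ioo a b) := rfl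
  rw [e, Complex.closure_preimage_re, closure_Ioo h.ne]
  exact ⟨h1, h2⟩

lemma open_strip (a b : ℝ) : IsOpen {z : ℂ | a < z.re ∧ z.re < b} :=
  (isOpen_Ioo (a := a) (b := b)).preimage Complex.continuous_re

lemma cos_ne {θ : ℝ} (h0 : 0 < θ) (h1 : θ < 1) {ζ : ℂ} (hr0 : 0 ≤ ζ.re) (hr1 : ζ.re ≤ 1)
    (hne : ζ ≠ (θ : ℂ)) : Complex.cos (Real.pi * ζ) ≠ Complex.cos (Real.pi * θ) := by
  intro h
  have hpi : (Real.pi : ℂ) ≠ 0 := by exact_mod_cast Real.pi_ne_zero
  obtain ⟨k, hk⟩ := Complex.cos_eq_cos_iff.1 h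
  rcases hk with hk | hk
  · have e : (θ : ℂ) = 2 * k + ζ := by
      apply mul_left_cancel₀ hpi
      rw [hk]; ring
    have e1 : θ = 2 * k + ζ.re := by
      have := congrArg Complex.re e
      simpa using this
    have hk1 : (k : ℝ) < 1 := by linarith
    have hk2 : (-1 : ℝ) < k := by linarith
    have hk0 : k = 0 := by
      have : k < 1 := by exact_mod_cast hk1
      have : -1 < k := by exact_mod_cast hk2
      omega
    apply hne
    rw [e, hk0]; simp
  · have e : (θ : ℂ) = 2 * k - ζ := by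
      apply mul_left_cancel₀ hpi
      rw [hk]; ring
    have e1 : θ = 2 * k - ζ.re := by
      have := congrArg Complex.re e
      simpa using this
    have hk1 : (k : ℝ) < 1 := by linarith
    have hk2 : (0 : ℝ) < k := by linarith
    have : k < 1 := by exact_mod_cast hk1
    have : 0 < k := by exact_mod_cast hk2
    omega

/-- the integrand -/
noncomputable def GG (θ : ℝ) (Φ : ℂ → ℂ) (ζ : ℂ) : ℂ :=
  -((Real.pi * Real.sin (Real.pi * θ) : ℝ) : ℂ) * dslope Φ θ ζ /
    dslope (fun ζ : ℂ => Complex.cos (Real.pi * ζ)) θ ζ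

lemma GG_ne {θ : ℝ} {Φ : ℂ → ℂ} {ζ : ℂ} (h : ζ ≠ (θ : ℂ)) :
    GG θ Φ ζ = ((Real.pi * Real.sin (Real.pi * θ) : ℝ) : ℂ) * (Φ ζ - Φ θ) /
      (Complex.cos (Real.pi * θ) - Complex.cos (Real.pi * ζ)) := by
  have h1 : ζ - θ ≠ 0 := sub_ne_zero.2 h
  rw [GG, dslope_of_ne _ h, dslope_of_ne _ h, slope_def_field, slope_def_field]
  rw [neg_mul, ← mul_div_assoc, neg_div, div_div_div_cancel_right₀ h1, ← div_neg, neg_sub]

lemma der_cos (θ : ℂ) : HasDerivAt (fun ζ : ℂ => Complex.cos (Real.pi * ζ))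
    (-Complex.sin (Real.pi * θ) * Real.pi) θ := by
  have h : HasDerivAt (fun ζ : ℂ => (Real.pi : ℂ) * ζ) Real.pi θ := by
    simpa using (hasDerivAt_id θ).const_mul (Real.pi : ℂ)
  exact h.ccos

lemma dcos_ne {θ : ℝ} (h0 : 0 < θ) (h1 : θ < 1) {ζ : ℂ} (hr0 : 0 ≤ ζ.re) (hr1 : ζ.re ≤ 1) :
    dslope (fun ζ : ℂ => Complex.cos (Real.pi * ζ)) θ ζ ≠ 0 := by
  by_cases h : ζ = (θ : ℂ)
  · rw [h, dslope_same, (der_cos θ).deriv]
    have h2 : Complex.sin (Real.pi * θ) = ((Real.sin (Real.pi * θ) : ℝ) : ℂ) := by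
      push_cast; rfl
    rw [h2]
    have := (sinp h0 h1).ne'
    have h3 : ((Real.sin (Real.pi * θ) : ℝ) : ℂ) ≠ 0 := by exact_mod_cast this
    have hpi : (Real.pi : ℂ) ≠ 0 := by exact_mod_cast Real.pi_ne_zero
    exact mul_ne_zero (neg_ne_zero.2 h3) hpi
  · rw [dslope_of_ne _ h, slope_def_field]
    exact div_ne_zero (sub_ne_zero.2 (cos_ne h0 h1 hr0 hr1 h)) (sub_ne_zero.2 h)

section Unit

variable {θ : ℝ} {Φ : ℂ → ℂ} {C : ℝ} {N : ℕ}

lemma GG_left (h0 : 0 < θ) (y : ℝ) : GG θ Φ (((0 : ℝ) : ℂ) + y * Complex.I) =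
    -(2 * Real.pi) * ((pk 1 (1 - θ) y : ℂ) * (Φ (((0 : ℝ) : ℂ) + y * Complex.I) - Φ θ)) := by
  rw [GG_ne]
  · have e1 : (Real.pi : ℂ) * (((0 : ℝ) : ℂ) + y * Complex.I) =
        ((Real.pi * y : ℝ) : ℂ) * Complex.I := by push_cast; ring
    have e2 : Real.sin (Real.pi * (1 - θ)) = Real.sin (Real.pi * θ) := by
      rw [← Real.sin_pi_sub]; ring_nf
    have e3 : Real.cos (Real.pi * (1 - θ)) = -Real.cos (Real.pi * θ) := by
      rw [← Real.cos_pi_sub]; ring_nf
    have e4 : Complex.cos (Real.pi * θ) = ((Real.cos (Real.pi * θ) : ℝ) : ℂ) := by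
      push_cast; rfl
    rw [e1, Complex.cos_mul_I, ← Complex.ofReal_cosh, e4, pk, e2, e3]
    have e5 : Real.pi * y / 1 = Real.pi * y := by ring
    rw [e5]
    push_cast
    have h : (Complex.cosh (Real.pi * y) + -Complex.cos (Real.pi * θ)) =
      -(Complex.cos (Real.pi * θ) - Complex.cosh (Real.pi * y)) := by ring
    rw [h]
    by_cases hd : Complex.cos (Real.pi * θ) - Complex.cosh (Real.pi * y) = 0
    · simp [hd]
    · field_simp
  · intro h
    have := congrArg Complex.re h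
    simp at this
    linarith

lemma GG_right (h1 : θ < 1) (y : ℝ) : GG θ Φ (((1 : ℝ) : ℂ) + y * Complex.I) =
    (2 * Real.pi) * ((pk 1 θ y : ℂ) * (Φ (((1 : ℝ) : ℂ) + y * Complex.I) - Φ θ)) := by
  rw [GG_ne]
  · have e1 : (Real.pi : ℂ) * (((1 : ℝ) : ℂ) + y * Complex.I) =
        ((Real.pi * y : ℝ) : ℂ) * Complex.I + Real.pi := by push_cast; ring
    have e4 : Complex.cos (Real.pi * θ) = ((Real.cos (Real.pi * θ) : ℝ) : ℂ) := by
      push_cast; rfl
    rw [e1, Complex.cos_add_pi, Complex.cos_mul_I, ← Complex.ofReal_cosh, e4, pk]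
    have e5 : Real.pi * y / 1 = Real.pi * y := by ring
    rw [e5]
    push_cast
    have h : (Complex.cos (Real.pi * θ) - -Complex.cosh (Real.pi * y)) =
      Complex.cosh (Real.pi * y) + Complex.cos (Real.pi * θ) := by ring
    rw [h]
    by_cases hd : Complex.cosh (Real.pi * y) + Complex.cos (Real.pi * θ) = 0
    · simp [hd]
    · field_simp
  · intro h
    have := congrArg Complex.re h
    simp at this
    linarith

lemma cont_line (hΦ : DiffContOnCl ℂ Φ {z | 0 < z.re ∧ z.re < 1}) {x : ℝ} (h0 : 0 ≤ x)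
    (h1 : x ≤ 1) : Continuous (fun y : ℝ => Φ ((x : ℂ) + y * Complex.I)) := by
  refine hΦ.continuousOn.comp_continuous (by fun_prop) fun y => ?_
  apply closure_strip one_pos <;> simp [h0, h1]

lemma int_line (hΦ : DiffContOnCl ℂ Φ {z | 0 < z.re ∧ z.re < 1})
    (hb : ∀ z : ℂ, 0 ≤ z.re → z.re ≤ 1 → ‖Φ z‖ ≤ C * (1 + |z.im|) ^ N)
    {t x : ℝ} (ht0 : 0 < t) (ht1 : t < 1) (h0 : 0 ≤ x) (h1 : x ≤ 1) :
    Integrable (fun y : ℝ => (pk 1 t y : ℂ) * Φ ((x : ℂ) + y * Complex.I)) := by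
  refine ((int_pk one_pos ht0 ht1 N).const_mul C).mono' ?_ ?_
  · exact (Continuous.mul (Complex.continuous_ofReal.comp (cont_pk one_pos ht0 ht1))
      (cont_line hΦ h0 h1)).aestronglyMeasurable
  · refine Eventually.of_forall fun y => ?_
    have hp := pk_pos one_pos ht0 ht1 y
    rw [norm_mul, Complex.norm_real, Real.norm_eq_abs, abs_of_pos hp]
    have := hb ((x : ℂ) + y * Complex.I) (by simpa using h0) (by simpa using h1)
    simp only [Complex.add_im, Complex.ofReal_im, Complex.mul_im, Complex.ofReal_re, Complex.I_im,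
      Complex.I_re, mul_one, mul_zero, zero_add, add_zero] at this
    have h2 := mul_le_mul_of_nonneg_left this hp.le
    linarith

lemma int_pkc {t : ℝ} (ht0 : 0 < t) (ht1 : t < 1) : Integrable (fun y : ℝ => (pk 1 t y : ℂ)) := by
  have : Integrable (pk 1 t) := by simpa using int_pk one_pos ht0 ht1 0
  exact this.ofReal

lemma norm_cos_ge (x y : ℝ) (hy : 0 ≤ y) : Real.sinh y ≤ ‖Complex.cos ((x : ℂ) + y * Complex.I)‖ ∧
    Real.sinh y ≤ ‖Complex.cos ((x : ℂ) + ((-y : ℝ) : ℂ) * Complex.I)‖ := by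
  have key : ∀ y : ℝ, Real.sinh y ^ 2 ≤ ‖Complex.cos ((x : ℂ) + y * Complex.I)‖ ^ 2 := by
    intro y
    rw [Complex.cos_add_mul_I, Complex.sq_norm, Complex.normSq_apply]
    have e1 : (Complex.cos x * Complex.cosh y - Complex.sin x * Complex.sinh y * Complex.I).re =
        Real.cos x * Real.cosh y := by
      rw [← Complex.ofReal_cos, ← Complex.ofReal_cosh, ← Complex.ofReal_sin, ← Complex.ofReal_sinh]
      simp
      exact Or.inl (Complex.cos_ofReal_re x)
    have e2 : (Complex.cos x * Complex.cosh y - Complex.sin x * Complex.sinh y * Complex.I).im =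
        -(Real.sin x * Real.sinh y) := by
      rw [← Complex.ofReal_cos, ← Complex.ofReal_cosh, ← Complex.ofReal_sin, ← Complex.ofReal_sinh]
      simp
      rw [Complex.sin_ofReal_re, Complex.sinh_ofReal_re]
    rw [e1, e2]
    have h1 := Real.sin_sq_add_cos_sq x
    have h2 := Real.cosh_sq y
    nlinarith [sq_nonneg (Real.cos x)]
  have hs : 0 ≤ Real.sinh y := Real.sinh_nonneg_iff.2 hy
  constructor
  · exact le_of_sq_le_sq (key y) (norm_nonneg _)
  · have := key (-y)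
    rw [Real.sinh_neg, neg_sq] at this
    exact le_of_sq_le_sq this (norm_nonneg _)

lemma sinh_ge {R : ℝ} (hR : 1 ≤ R) : Real.exp (Real.pi * R) / 4 ≤ Real.sinh (Real.pi * R) - 1 := by
  rw [Real.sinh_eq]
  have hpi := Real.pi_gt_three
  have h1 : (3 : ℝ) ≤ Real.pi * R := by nlinarith
  have h2 : Real.exp (-(Real.pi * R)) ≤ 1 := by
    rw [Real.exp_le_one_iff]; linarith
  have h3 : (6 : ℝ) ≤ Real.exp (Real.pi * R) := by
    have h4 : Real.exp 3 ≤ Real.exp (Real.pi * R) := Real.exp_le_exp.2 h1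
    have h5 : (2 : ℝ) ≤ Real.exp 1 := by
      have := Real.add_one_le_exp (1 : ℝ); linarith
    have h6 : Real.exp 3 = Real.exp 1 * Real.exp 1 * Real.exp 1 := by
      rw [← Real.exp_add, ← Real.exp_add]; norm_num
    nlinarith
  linarith

lemma GG_hor (h0 : 0 < θ) (h1 : θ < 1) (hC : 0 ≤ C)
    (hb : ∀ z : ℂ, 0 ≤ z.re → z.re ≤ 1 → ‖Φ z‖ ≤ C * (1 + |z.im|) ^ N)
    {x R : ℝ} (hx0 : 0 ≤ x) (hx1 : x ≤ 1) (hR : 1 ≤ R) :
    ‖GG θ Φ ((x : ℂ) + (R : ℂ) * Complex.I)‖ ≤
      8 * Real.pi * C * ((1 + |R|) ^ N * Real.exp (-Real.pi * |R|)) ∧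
    ‖GG θ Φ ((x : ℂ) + ((-R : ℝ) : ℂ) * Complex.I)‖ ≤
      8 * Real.pi * C * ((1 + |R|) ^ N * Real.exp (-Real.pi * |R|)) := by
  have key : ∀ r : ℝ, |r| = R → Real.sinh (Real.pi * R) ≤
      ‖Complex.cos (Real.pi * ((x : ℂ) + (r : ℂ) * Complex.I))‖ →
      ‖GG θ Φ ((x : ℂ) + (r : ℂ) * Complex.I)‖ ≤
      8 * Real.pi * C * ((1 + |R|) ^ N * Real.exp (-Real.pi * |R|)) := by
    intro r hr hs
    have hne : (x : ℂ) + (r : ℂ) * Complex.I ≠ (θ : ℂ) := by
      intro h
      have := congrArg Complex.im h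
      simp at this
      rw [this] at hr
      simp at hr
      linarith
    rw [GG_ne hne, norm_div, norm_mul, Complex.norm_real]
    have hsin := sinp h0 h1
    have hpi := Real.pi_pos
    have hR0 : |R| = R := abs_of_nonneg (by linarith)
    have n1 : ‖Real.pi * Real.sin (Real.pi * θ)‖ ≤ Real.pi := by
      rw [Real.norm_eq_abs, abs_of_pos (by positivity)]
      nlinarith [Real.sin_le_one (Real.pi * θ)]
    have n2 : ‖Φ ((x : ℂ) + (r : ℂ) * Complex.I) - Φ θ‖ ≤ 2 * C * (1 + |R|) ^ N := by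
      have a1 := hb ((x : ℂ) + (r : ℂ) * Complex.I) (by simpa using hx0) (by simpa using hx1)
      have a2 := hb (θ : ℂ) (by simpa using h0.le) (by simpa using h1.le)
      simp only [Complex.add_im, Complex.ofReal_im, Complex.mul_im, Complex.ofReal_re,
        Complex.I_im, Complex.I_re, mul_one, mul_zero, zero_add, add_zero, abs_zero] at a1 a2
      rw [hr] at a1
      have a3 : (1 : ℝ) ^ N ≤ (1 + |R|) ^ N :=
        pow_le_pow_left₀ zero_le_one (by rw [hR0]; linarith) N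
      have a4 := mul_le_mul_of_nonneg_left a3 hC
      have a5 := norm_sub_le (Φ ((x : ℂ) + (r : ℂ) * Complex.I)) (Φ θ)
      rw [hR0] at a4 ⊢
      linarith
    have n3 : Real.exp (Real.pi * R) / 4 ≤ ‖Complex.cos (Real.pi * θ) -
        Complex.cos (Real.pi * ((x : ℂ) + (r : ℂ) * Complex.I))‖ := by
      have b1 : ‖Complex.cos (Real.pi * θ)‖ ≤ 1 := by
        have e4 : Complex.cos (Real.pi * θ) = ((Real.cos (Real.pi * θ) : ℝ) : ℂ) := by
          push_cast; rfl
        rw [e4, Complex.norm_real, Real.norm_eq_abs]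
        exact Real.abs_cos_le_one _
      have b2 := norm_sub_norm_le (Complex.cos (Real.pi * ((x : ℂ) + (r : ℂ) * Complex.I)))
        (Complex.cos (Real.pi * θ))
      rw [norm_sub_rev] at b2
      have b3 := sinh_ge hR
      linarith
    have he : 0 < Real.exp (Real.pi * R) / 4 := by positivity
    calc ‖Real.pi * Real.sin (Real.pi * θ)‖ * ‖Φ ((x : ℂ) + (r : ℂ) * Complex.I) - Φ θ‖ /
        ‖Complex.cos (Real.pi * θ) - Complex.cos (Real.pi * ((x : ℂ) + (r : ℂ) * Complex.I))‖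
        ≤ Real.pi * (2 * C * (1 + |R|) ^ N) / (Real.exp (Real.pi * R) / 4) := by
          apply div_le_div₀ (by positivity) _ he n3
          exact mul_le_mul n1 n2 (norm_nonneg _) hpi.le
      _ = 8 * Real.pi * C * ((1 + |R|) ^ N * Real.exp (-Real.pi * |R|)) := by
          rw [neg_mul, Real.exp_neg, hR0]
          field_simp
          ring
  have hc := norm_cos_ge (Real.pi * x) (Real.pi * R) (by positivity)
  have hR0 : |R| = R := abs_of_nonneg (by linarith)
  constructor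
  · refine key R hR0 ?_
    have e : (Real.pi : ℂ) * ((x : ℂ) + (R : ℂ) * Complex.I) =
        ((Real.pi * x : ℝ) : ℂ) + ((Real.pi * R : ℝ) : ℂ) * Complex.I := by push_cast; ring
    rw [e]; exact hc.1
  · refine key (-R) (by rw [abs_neg, hR0]) ?_
    have e : (Real.pi : ℂ) * ((x : ℂ) + ((-R : ℝ) : ℂ) * Complex.I) =
        ((Real.pi * x : ℝ) : ℂ) + ((-(Real.pi * R) : ℝ) : ℂ) * Complex.I := by push_cast; ring
    rw [e]; exact hc.2

lemma hor_tendsto : Tendsto (fun R : ℝ => 8 * Real.pi * C *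
    ((1 + |R|) ^ N * Real.exp (-Real.pi * |R|))) atTop (𝓝 0) := by
  obtain ⟨D, hD, h⟩ := pow_le N 1 one_pos
  have h2 : Tendsto (fun R : ℝ => D * Real.exp (-((Real.pi - 1) * R))) atTop (𝓝 0) := by
    have : Tendsto (fun R : ℝ => Real.exp (-((Real.pi - 1) * R))) atTop (𝓝 0) := by
      refine Real.tendsto_exp_neg_atTop_nhds_zero.comp ?_
      exact tendsto_id.const_mul_atTop (by linarith [Real.pi_gt_three])
    simpa using this.const_mul D
  have h3 : Tendsto (fun R : ℝ => (1 + |R|) ^ N * Real.exp (-Real.pi * |R|)) atTop (𝓝 0) := by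
    refine squeeze_zero' (Eventually.of_forall fun R => by positivity) ?_ h2
    filter_upwards [eventually_ge_atTop (0 : ℝ)] with R hR
    have e : |R| = R := abs_of_nonneg hR
    calc (1 + |R|) ^ N * Real.exp (-Real.pi * |R|)
        ≤ D * Real.exp (1 * |R|) * Real.exp (-Real.pi * |R|) :=
          mul_le_mul_of_nonneg_right (h R) (Real.exp_pos _).le
      _ = D * Real.exp (-((Real.pi - 1) * R)) := by
          rw [mul_assoc, ← Real.exp_add, e]; ring_nf
  simpa using h3.const_mul (8 * Real.pi * C)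

/-- The rectangle identity. -/
lemma rect (h0 : 0 < θ) (h1 : θ < 1) (hΦ : DiffContOnCl ℂ Φ {z | 0 < z.re ∧ z.re < 1})
    {R : ℝ} (hR : 1 ≤ R) :
    (∫ x : ℝ in (0 : ℝ)..1, GG θ Φ (x + ((-R : ℝ) : ℂ) * Complex.I)) -
      (∫ x : ℝ in (0 : ℝ)..1, GG θ Φ (x + (R : ℂ) * Complex.I)) +
      Complex.I • (∫ y : ℝ in (-R)..R, GG θ Φ (((1 : ℝ) : ℂ) + y * Complex.I)) -
      Complex.I • (∫ y : ℝ in (-R)..R, GG θ Φ (((0 : ℝ) : ℂ) + y * Complex.I)) = 0 := by
  have hdΦ : DifferentiableOn ℂ Φ {z | 0 < z.re ∧ z.re < 1} := hΦ.differentiableOn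
  have hcos : Differentiable ℂ (fun ζ : ℂ => Complex.cos (Real.pi * ζ)) := by fun_prop
  have hθ : (θ : ℂ) ∈ {z : ℂ | 0 < z.re ∧ z.re < 1} := by simp [h0, h1]
  have hdθ : DifferentiableAt ℂ Φ θ := hdΦ.differentiableAt ((open_strip 0 1).mem_nhds hθ)
  have := Complex.integral_boundary_rect_eq_zero_of_differentiable_on_off_countable
    (GG θ Φ) (⟨0, -R⟩ : ℂ) (⟨1, R⟩ : ℂ) {(θ : ℂ)} (countable_singleton _) ?_ ?_
  · exact this
  · have hmem : ∀ z ∈ ((uIcc (0 : ℝ) 1) ×ℂ (uIcc (-R) R)), 0 ≤ z.re ∧ z.re ≤ 1 := by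
      intro z hz
      rw [Complex.mem_reProdIm, uIcc_of_le zero_le_one] at hz
      exact hz.1
    have hnhds : ((uIcc (0 : ℝ) 1) ×ℂ (uIcc (-R) R)) ∈ 𝓝 (θ : ℂ) := by
      have : (Ioo (0 : ℝ) 1 ×ℂ Ioo (-R) R) ∈ 𝓝 (θ : ℂ) := by
        apply (isOpen_Ioo.reProdIm isOpen_Ioo).mem_nhds
        rw [Complex.mem_reProdIm]
        simp only [Complex.ofReal_re, Complex.ofReal_im, mem_Ioo]
        exact ⟨⟨h0, h1⟩, by linarith, by linarith⟩
      refine mem_of_superset this fun z hz => ?_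
      rw [Complex.mem_reProdIm] at hz ⊢
      rw [uIcc_of_le zero_le_one, uIcc_of_le (by linarith)]
      exact ⟨Ioo_subset_Icc_self hz.1, Ioo_subset_Icc_self hz.2⟩
    have c1 : ContinuousOn (dslope Φ θ) ((uIcc (0 : ℝ) 1) ×ℂ (uIcc (-R) R)) := by
      rw [continuousOn_dslope hnhds]
      refine ⟨hΦ.continuousOn.mono fun z hz => ?_, hdθ⟩
      exact closure_strip one_pos (hmem z hz).1 (hmem z hz).2
    have c2 : ContinuousOn (dslope (fun ζ : ℂ => Complex.cos (Real.pi * ζ)) θ)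
        ((uIcc (0 : ℝ) 1) ×ℂ (uIcc (-R) R)) := by
      rw [continuousOn_dslope hnhds]
      exact ⟨hcos.continuous.continuousOn, hcos _⟩
    exact (continuousOn_const.mul c1).div c2 fun z hz =>
      dcos_ne h0 h1 (hmem z hz).1 (hmem z hz).2
  · intro z hz
    simp only [Set.mem_sdiff, Complex.mem_reProdIm, mem_singleton_iff] at hz
    obtain ⟨⟨hz1, -⟩, hz3⟩ := hz
    rw [min_eq_left zero_le_one, max_eq_right zero_le_one] at hz1
    have d1 : DifferentiableAt ℂ (dslope Φ θ) z := by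
      rw [differentiableAt_dslope_of_ne hz3]
      exact hdΦ.differentiableAt ((open_strip 0 1).mem_nhds hz1)
    have d2 : DifferentiableAt ℂ (dslope (fun ζ : ℂ => Complex.cos (Real.pi * ζ)) θ) z := by
      rw [differentiableAt_dslope_of_ne hz3]
      exact hcos z
    exact (d1.const_mul _).div d2 (dcos_ne h0 h1 hz1.1.le hz1.2.le)

/-- The Poisson formula in the unit strip. -/
lemma unit (h0 : 0 < θ) (h1 : θ < 1) (hC : 0 ≤ C)
    (hΦ : DiffContOnCl ℂ Φ {z | 0 < z.re ∧ z.re < 1})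
    (hb : ∀ z : ℂ, 0 ≤ z.re → z.re ≤ 1 → ‖Φ z‖ ≤ C * (1 + |z.im|) ^ N) :
    Φ θ = (∫ y : ℝ, (pk 1 (1 - θ) y : ℂ) * Φ (((0 : ℝ) : ℂ) + y * Complex.I)) +
      ∫ y : ℝ, (pk 1 θ y : ℂ) * Φ (((1 : ℝ) : ℂ) + y * Complex.I) := by
  have g0 : 0 < 1 - θ := by linarith
  have g1 : 1 - θ < 1 := by linarith
  have iL := int_line hΦ hb g0 g1 le_rfl zero_le_one
  have iR := int_line hΦ hb h0 h1 zero_le_one le_rfl
  have kL : Integrable (fun y : ℝ => (pk 1 (1 - θ) y : ℂ) *
      (Φ (((0 : ℝ) : ℂ) + y * Complex.I) - Φ θ)) := by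
    have := iL.sub ((int_pkc g0 g1).mul_const (Φ θ))
    refine this.congr (Eventually.of_forall fun y => ?_)
    simp only [Pi.sub_apply]
    ring
  have kR : Integrable (fun y : ℝ => (pk 1 θ y : ℂ) *
      (Φ (((1 : ℝ) : ℂ) + y * Complex.I) - Φ θ)) := by
    have := iR.sub ((int_pkc h0 h1).mul_const (Φ θ))
    refine this.congr (Eventually.of_forall fun y => ?_)
    simp only [Pi.sub_apply]
    ring
  have jL : Integrable (fun y : ℝ => GG θ Φ (((0 : ℝ) : ℂ) + y * Complex.I)) := by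
    simp_rw [GG_left h0]
    exact kL.const_mul _
  have jR : Integrable (fun y : ℝ => GG θ Φ (((1 : ℝ) : ℂ) + y * Complex.I)) := by
    simp_rw [GG_right h1]
    exact kR.const_mul _
  have t1 : Tendsto (fun R : ℝ => ∫ x : ℝ in (0 : ℝ)..1,
      GG θ Φ (x + ((-R : ℝ) : ℂ) * Complex.I)) atTop (𝓝 0) := by
    refine squeeze_zero_norm' ?_ (hor_tendsto (C := C) (N := N))
    filter_upwards [eventually_ge_atTop (1 : ℝ)] with R hR
    have := intervalIntegral.norm_integral_le_of_norm_le_const (a := (0 : ℝ)) (b := 1)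
      (f := fun x : ℝ => GG θ Φ (x + ((-R : ℝ) : ℂ) * Complex.I))
      (C := 8 * Real.pi * C * ((1 + |R|) ^ N * Real.exp (-Real.pi * |R|))) (fun x hx => by
        rw [uIoc_of_le zero_le_one] at hx
        exact (GG_hor h0 h1 hC hb hx.1.le hx.2 hR).2)
    simpa using this
  have t2 : Tendsto (fun R : ℝ => ∫ x : ℝ in (0 : ℝ)..1,
      GG θ Φ (x + (R : ℂ) * Complex.I)) atTop (𝓝 0) := by
    refine squeeze_zero_norm' ?_ (hor_tendsto (C := C) (N := N))
    filter_upwards [eventually_ge_atTop (1 : ℝ)] with R hR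
    have := intervalIntegral.norm_integral_le_of_norm_le_const (a := (0 : ℝ)) (b := 1)
      (f := fun x : ℝ => GG θ Φ (x + (R : ℂ) * Complex.I))
      (C := 8 * Real.pi * C * ((1 + |R|) ^ N * Real.exp (-Real.pi * |R|))) (fun x hx => by
        rw [uIoc_of_le zero_le_one] at hx
        exact (GG_hor h0 h1 hC hb hx.1.le hx.2 hR).1)
    simpa using this
  have t3 := intervalIntegral_tendsto_integral jR tendsto_neg_atTop_atBot tendsto_id
  have t4 := intervalIntegral_tendsto_integral jL tendsto_neg_atTop_atBot tendsto_id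
  have t5 := ((t1.sub t2).add (t3.const_smul Complex.I)).sub (t4.const_smul Complex.I)
  have t6 : (0 : ℂ) = 0 - 0 + Complex.I • (∫ y : ℝ, GG θ Φ (((1 : ℝ) : ℂ) + y * Complex.I)) -
      Complex.I • (∫ y : ℝ, GG θ Φ (((0 : ℝ) : ℂ) + y * Complex.I)) := by
    refine tendsto_nhds_unique ?_ t5
    refine tendsto_const_nhds.congr' ?_
    filter_upwards [eventually_ge_atTop (1 : ℝ)] with R hR
    exact (rect h0 h1 hΦ hR).symm
  have t7 : (∫ y : ℝ, GG θ Φ (((1 : ℝ) : ℂ) + y * Complex.I)) =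
      ∫ y : ℝ, GG θ Φ (((0 : ℝ) : ℂ) + y * Complex.I) := by
    have h2 : Complex.I * ((∫ y : ℝ, GG θ Φ (((1 : ℝ) : ℂ) + y * Complex.I)) -
      ∫ y : ℝ, GG θ Φ (((0 : ℝ) : ℂ) + y * Complex.I)) = 0 := by
      rw [mul_sub]
      simp only [smul_eq_mul] at t6
      linear_combination -t6
    exact sub_eq_zero.1 ((mul_eq_zero.1 h2).resolve_left Complex.I_ne_zero)
  simp_rw [GG_left h0, GG_right h1] at t7
  rw [integral_const_mul, integral_const_mul] at t7
  have e1 : ∫ y : ℝ, (pk 1 (1 - θ) y : ℂ) * (Φ (((0 : ℝ) : ℂ) + y * Complex.I) - Φ θ) =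
      (∫ y : ℝ, (pk 1 (1 - θ) y : ℂ) * Φ (((0 : ℝ) : ℂ) + y * Complex.I)) - (1 - θ) * Φ θ := by
    simp_rw [mul_sub]
    rw [integral_sub iL ((int_pkc g0 g1).mul_const _), integral_mul_const, integral_complex_ofReal,
      mass one_pos g0 g1]
    push_cast; ring
  have e2 : ∫ y : ℝ, (pk 1 θ y : ℂ) * (Φ (((1 : ℝ) : ℂ) + y * Complex.I) - Φ θ) =
      (∫ y : ℝ, (pk 1 θ y : ℂ) * Φ (((1 : ℝ) : ℂ) + y * Complex.I)) - θ * Φ θ := by
    simp_rw [mul_sub]
    rw [integral_sub iR ((int_pkc h0 h1).mul_const _), integral_mul_const, integral_complex_ofReal,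
      mass one_pos h0 h1]
  rw [e1, e2] at t7
  have hpi : (2 * Real.pi : ℂ) ≠ 0 := by
    have := Real.pi_ne_zero
    have h3 : (Real.pi : ℂ) ≠ 0 := by exact_mod_cast this
    exact mul_ne_zero two_ne_zero h3
  have t8 : (2 * Real.pi : ℂ) * (Φ θ - ((∫ y : ℝ, (pk 1 (1 - θ) y : ℂ) *
      Φ (((0 : ℝ) : ℂ) + y * Complex.I)) +
      ∫ y : ℝ, (pk 1 θ y : ℂ) * Φ (((1 : ℝ) : ℂ) + y * Complex.I))) = 0 := by
    linear_combination -t7
  exact sub_eq_zero.1 ((mul_eq_zero.1 t8).resolve_left hpi)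

end Unit

end PoiAux

/-- (Poi) the Poisson formula in a strip -/
theorem poi : StmtPoi := by
  refine ⟨fun w t hw h0 h1 => ⟨PoiAux.pk_pos hw h0 h1, PoiAux.int_pk hw h0 h1,
    PoiAux.mass hw h0 h1⟩, ?_⟩
  intro a w t C N Φ hw h0 h1 hΦ hb
  have hC : 0 ≤ C := by
    have := hb (a : ℂ) (by simp) (by simp [hw.le])
    simp at this
    exact (norm_nonneg _).trans this
  set Ψ : ℂ → ℂ := fun ζ => Φ (a + w * ζ) with hΨ
  have hd : DiffContOnCl ℂ Ψ {z | 0 < z.re ∧ z.re < 1} := by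
    have hf : DiffContOnCl ℂ (fun ζ : ℂ => (a : ℂ) + w * ζ) {z | 0 < z.re ∧ z.re < 1} := by
      apply Differentiable.diffContOnCl
      fun_prop
    refine hΦ.comp hf fun z hz => ?_
    simp only [mem_ofPred_eq, Complex.add_re, Complex.ofReal_re, Complex.mul_re, Complex.ofReal_im,
      zero_mul, sub_zero] at hz ⊢
    constructor <;> nlinarith [hz.1, hz.2]
  have hbΨ : ∀ z : ℂ, 0 ≤ z.re → z.re ≤ 1 → ‖Ψ z‖ ≤ (C * (1 + w) ^ N) * (1 + |z.im|) ^ N := by
    intro z hz0 hz1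
    have := hb (a + w * z) (by simp; nlinarith) (by simp; nlinarith)
    simp only [Complex.add_im, Complex.ofReal_im, Complex.mul_im, Complex.ofReal_re, zero_mul,
      zero_add, add_zero] at this
    refine this.trans ?_
    rw [mul_assoc, ← mul_pow]
    apply mul_le_mul_of_nonneg_left _ hC
    apply pow_le_pow_left₀ (by positivity)
    rw [abs_mul, abs_of_pos hw]
    nlinarith [abs_nonneg z.im]
  have key := PoiAux.unit (θ := 1 - t) (Φ := Ψ) (C := C * (1 + w) ^ N) (N := N) (by linarith)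
    (by linarith) (by positivity) hd hbΨ
  have e0 : Φ ((a + (1 - t) * w : ℝ) : ℂ) = Ψ ((1 - t : ℝ) : ℂ) := by
    simp only [hΨ]
    congr 1
    push_cast
    ring
  have e1 : (1 : ℝ) - (1 - t) = t := by ring
  rw [e1] at key
  rw [e0, key]
  have sc : ∀ (τ : ℝ) (F : ℝ → ℂ), ∫ y : ℝ, (pk w τ y : ℂ) * F y =
      ∫ y : ℝ, (pk 1 τ y : ℂ) * F (w * y) := by
    intro τ F
    have h := Measure.integral_comp_mul_left (fun y : ℝ => (pk w τ y : ℂ) * F y) w
    have h2 : ∫ y : ℝ, (pk w τ y : ℂ) * F y =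
        (w : ℂ) * ∫ y : ℝ, (pk w τ (w * y) : ℂ) * F (w * y) := by
      rw [h, abs_of_pos (by positivity), Complex.real_smul]
      have : (w : ℂ) ≠ 0 := by exact_mod_cast hw.ne'
      push_cast
      field_simp
    rw [h2, ← integral_const_mul]
    congr 1
    ext y
    rw [← PoiAux.pk_scale hw y]
    push_cast
    ring
  congr 1
  · rw [sc t]
    congr 1
    ext y
    simp only [hΨ]
    congr 2
    push_cast
    ring
  · rw [sc (1 - t)]
    congr 1
    ext y
    simp only [hΨ]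
    congr 2
    push_cast
    ring

end Pool.Agent.Lib.MP_dd244f_an.Rp
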