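import Pool.Agent.Lib.MP_dd244f_an.Rp.StmtsH
import Pool.Agent.Lib.MP_dd244f_an.L2

/-!
The bound `n ^ (1 - 2 / p) (p - 1)` (module PowB).
-/

set_option autoImplicit false

namespace Pool.Agent.Lib.MP_dd244f_an.Rp
namespace PowBAux

open MeasureTheory Finset
open Pool.Agent.Lib.MP_dd244f_an.Joint (ratio)
open Pool.Agent.Lib.MP_dd244f_an.Unif
open scoped SchwartzMap ENNReal NNReal

theorem ratio_zero (p : ℝ) : ratio 0 p = 1 := by
  unfold ratio
  simp

theorem ratio_succ (n : ℕ) (p : ℝ) :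
    ratio (n + 1) p = ratio n p * ((n + 1 - 1 / p) / (n + 1 / p)) := by
  unfold ratio
  rw [ascPochhammer_succ_eval, ascPochhammer_succ_eval, mul_div_mul_comm]
  congr 2 <;> ring

theorem ratio_pos (n : ℕ) (p : ℝ) (hp : 1 < p) : 0 < ratio n p := by
  unfold ratio
  have h1 : 0 < 1 - 1 / p := by
    rw [sub_pos, div_lt_one (by linarith)]; exact hp
  exact div_pos (ascPochhammer_pos n _ h1) (ascPochhammer_pos n _ (by positivity))

/-- the comparison of one factor, with a gap -/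
theorem factor_le (j : ℕ) (hj : 1 ≤ j) (x : ℝ) (hx0 : 0 ≤ x) (hx1 : x ≤ 1 / 2) :
    ((j : ℝ) + 1 - x) / (j + x) ≤ (((j : ℝ) + 1) / j) ^ (1 - 2 * x) *
      Real.exp (-(2 / 3 * ((1 - 2 * x) - (1 - 2 * x) ^ 3) * (1 / (2 * j + 1)) ^ 3)) := by
  have hj' : (1 : ℝ) ≤ j := by exact_mod_cast hj
  set u : ℝ := 1 - 2 * x with hu
  have hu0 : 0 ≤ u := by rw [hu]; linarith
  have hu1 : u ≤ 1 := by rw [hu]; linarith
  set w : ℝ := 1 / (2 * j + 1) with hw
  have hw0 : 0 < w := by rw [hw]; positivity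
  have hw1 : w < 1 := by
    rw [hw, div_lt_one (by positivity)]
    linarith
  have huw0 : 0 ≤ u * w := by positivity
  have huw1 : u * w < 1 := by
    calc u * w ≤ 1 * w := mul_le_mul_of_nonneg_right hu1 hw0.le
      _ < 1 := by rw [one_mul]; exact hw1
  have s1 := (Real.hasSum_log_sub_log_of_abs_lt_one (x := w)
    (by rw [abs_of_pos hw0]; exact hw1)).mul_left u
  have s2 := Real.hasSum_log_sub_log_of_abs_lt_one (x := u * w)
    (by rw [abs_of_nonneg huw0]; exact huw1)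
  have s3 := s1.sub s2
  have h3 := le_hasSum s3 1 (fun k _ => by
    have e : u * (2 * (1 / (2 * (k : ℝ) + 1)) * w ^ (2 * k + 1)) -
        2 * (1 / (2 * (k : ℝ) + 1)) * (u * w) ^ (2 * k + 1)
        = 2 * (1 / (2 * (k : ℝ) + 1)) * w ^ (2 * k + 1) * (u - u ^ (2 * k + 1)) := by
      rw [mul_pow]; ring
    rw [e]
    have h4 : u ^ (2 * k + 1) ≤ u := by
      calc u ^ (2 * k + 1) ≤ u ^ 1 := pow_le_pow_of_le_one hu0 hu1 (by omega)
        _ = u := pow_one u
    have h5 : 0 ≤ u - u ^ (2 * k + 1) := by linarith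
    positivity)
  have e1 : Real.log (1 + w) - Real.log (1 - w) = Real.log (((j : ℝ) + 1) / j) := by
    rw [← Real.log_div (by linarith) (by linarith)]
    congr 1
    rw [hw]
    have : (2 * (j : ℝ) + 1) - 1 ≠ 0 := by
      have : 0 < (2 * (j : ℝ) + 1) - 1 := by linarith
      exact this.ne'
    have h6 : (j : ℝ) ≠ 0 := by positivity
    field_simp
    ring
  have e2 : Real.log (1 + u * w) - Real.log (1 - u * w)
      = Real.log (((j : ℝ) + 1 - x) / (j + x)) := by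
    rw [← Real.log_div (by linarith) (by linarith)]
    congr 1
    rw [hw, hu]
    have h6 : (j : ℝ) + x ≠ 0 := by positivity
    have h7 : 1 - (1 - 2 * x) * (1 / (2 * (j : ℝ) + 1)) ≠ 0 := by
      rw [← hu, ← hw]
      have : 0 < 1 - u * w := by linarith
      exact this.ne'
    rw [div_eq_div_iff h7 h6]
    have h8 : (2 * (j : ℝ) + 1) ≠ 0 := by positivity
    field_simp
    ring
  rw [e1, e2] at h3
  have hpos : 0 < ((j : ℝ) + 1 - x) / (j + x) := by
    apply div_pos <;> linarith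
  have hpos2 : 0 < ((j : ℝ) + 1) / j := by positivity
  have h9 : Real.log (((j : ℝ) + 1 - x) / (j + x)) ≤ u * Real.log (((j : ℝ) + 1) / j)
      - 2 / 3 * (u - u ^ 3) * w ^ 3 := by
    have e3 : u * (2 * (1 / (2 * ((1 : ℕ) : ℝ) + 1)) * w ^ (2 * 1 + 1)) -
        2 * (1 / (2 * ((1 : ℕ) : ℝ) + 1)) * (u * w) ^ (2 * 1 + 1)
        = 2 / 3 * (u - u ^ 3) * w ^ 3 := by
      push_cast; ring
    rw [e3] at h3
    linarith
  rw [← Real.log_le_log_iff hpos (by positivity), Real.log_mul (by positivity)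
    (Real.exp_pos _).ne', Real.log_exp, Real.log_rpow hpos2]
  linarith

theorem factor_le' (j : ℕ) (hj : 1 ≤ j) (x : ℝ) (hx0 : 0 ≤ x) (hx1 : x ≤ 1 / 2) :
    ((j : ℝ) + 1 - x) / (j + x) ≤ (((j : ℝ) + 1) / j) ^ (1 - 2 * x) := by
  refine (factor_le j hj x hx0 hx1).trans ?_
  have hj' : (1 : ℝ) ≤ j := by exact_mod_cast hj
  have h1 : 0 ≤ (1 - 2 * x) - (1 - 2 * x) ^ 3 := by
    have hu0 : 0 ≤ 1 - 2 * x := by linarith
    have hu1 : 1 - 2 * x ≤ 1 := by linarith
    have : (1 - 2 * x) ^ 3 ≤ (1 - 2 * x) ^ 1 := pow_le_pow_of_le_one hu0 hu1 (by omega)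
    rw [pow_one] at this
    linarith
  have h2 : Real.exp (-(2 / 3 * ((1 - 2 * x) - (1 - 2 * x) ^ 3) * (1 / (2 * j + 1)) ^ 3)) ≤ 1 := by
    rw [Real.exp_le_one_iff]
    have : 0 ≤ 2 / 3 * ((1 - 2 * x) - (1 - 2 * x) ^ 3) * (1 / (2 * (j : ℝ) + 1)) ^ 3 := by
      positivity
    linarith
  have h3 : 0 ≤ (((j : ℝ) + 1) / j) ^ (1 - 2 * x) := by positivity
  calc _ ≤ (((j : ℝ) + 1) / j) ^ (1 - 2 * x) * 1 := mul_le_mul_of_nonneg_left h2 h3
    _ = _ := mul_one _

theorem ratio_le (N : ℕ) (hN : 1 ≤ N) (n : ℕ) (hn : N ≤ n) (p : ℝ) (hp : 2 ≤ p) :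
    ratio n p ≤ ratio N p * ((n : ℝ) / N) ^ (1 - 2 / p) := by
  have hN' : (1 : ℝ) ≤ N := by exact_mod_cast hN
  induction n, hn using Nat.le_induction with
  | base =>
    rw [div_self (by positivity), Real.one_rpow, mul_one]
  | succ n hn ih =>
    have hn' : (N : ℝ) ≤ n := by exact_mod_cast hn
    have hn1 : 1 ≤ n := hN.trans hn
    have hx0 : 0 ≤ 1 / p := by positivity
    have hx1 : 1 / p ≤ 1 / 2 := one_div_le_one_div_of_le (by norm_num) hp
    rw [ratio_succ]
    have h1 := factor_le' n hn1 (1 / p) hx0 hx1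
    have h0 : 0 ≤ ((n : ℝ) + 1 - 1 / p) / (n + 1 / p) := by
      apply div_nonneg <;> linarith
    have e : (1 : ℝ) - 2 * (1 / p) = 1 - 2 / p := by ring
    rw [e] at h1
    calc _ ≤ (ratio N p * ((n : ℝ) / N) ^ (1 - 2 / p)) * (((n : ℝ) + 1) / n) ^ (1 - 2 / p) :=
          mul_le_mul ih h1 h0 (mul_nonneg (ratio_pos N p (by linarith)).le (by positivity))
      _ = ratio N p * (((n : ℝ) / N) * (((n : ℝ) + 1) / n)) ^ (1 - 2 / p) := by
          rw [mul_assoc, Real.mul_rpow (by positivity) (by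
            have : (0 : ℝ) < n := by linarith
            positivity)]
      _ = _ := by
          congr 2
          have : (n : ℝ) ≠ 0 := by
            have : (0 : ℝ) < n := by linarith
            exact this.ne'
          push_cast
          field_simp

theorem ratio_one (p : ℝ) (hp : 0 < p) : ratio 1 p = p - 1 := by
  have := ratio_succ 0 p
  rw [ratio_zero] at this
  norm_num at this
  rw [this]
  field_simp

/-- the upper bound with a gap -/
theorem ratio_gap (P : ℝ) (hP : 8 / 3 ≤ P) (n : ℕ) (hn : 2 ≤ n) (p : ℝ) (hp : 8 / 3 ≤ p)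
    (hpP : p ≤ P) : ratio n p * Real.exp (5 / 324 / P) ≤ (n : ℝ) ^ (1 - 2 / p) * (p - 1) := by
  have hp0 : 0 < p := by linarith
  have hP0 : 0 < P := by linarith
  have hx0 : 0 ≤ 1 / p := by positivity
  have hx1 : 1 / p ≤ 3 / 8 := by
    rw [div_le_iff₀ hp0]; linarith
  have hx2 : 1 / P ≤ 1 / p := one_div_le_one_div_of_le hp0 hpP
  have h1 := ratio_le 2 (by norm_num) n hn p (by linarith)
  have h2 : ratio 2 p ≤ (p - 1) * ((2 : ℝ) ^ (1 - 2 / p) * Real.exp (-(5 / 324 / P))) := by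
    have e := ratio_succ 1 p
    rw [ratio_one p hp0] at e
    rw [show (2 : ℕ) = 1 + 1 from rfl, e]
    refine mul_le_mul_of_nonneg_left ?_ (by linarith)
    have h3 := factor_le 1 le_rfl (1 / p) hx0 (by linarith)
    refine h3.trans ?_
    have e2 : (((1 : ℕ) : ℝ) + 1) / ((1 : ℕ) : ℝ) = 2 := by norm_num
    rw [e2, show (1 : ℝ) - 2 * (1 / p) = 1 - 2 / p by ring]
    refine mul_le_mul_of_nonneg_left ?_ (by positivity)
    rw [Real.exp_le_exp, neg_le_neg_iff]
    set u : ℝ := 1 - 2 / p with hu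
    have hu1 : 1 / 4 ≤ u := by
      have : 2 / p = 2 * (1 / p) := by ring
      rw [hu, this]; linarith
    have hu2 : 2 / P ≤ 1 - u := by
      have e3 : 2 / p = 2 * (1 / p) := by ring
      have e4 : 2 / P = 2 * (1 / P) := by ring
      rw [hu, e3, e4]; linarith
    have hPpos : 0 < 2 / P := by positivity
    have h4 : 1 / 4 * (2 / P) * (5 / 4) ≤ u - u ^ 3 := by
      have e5 : u - u ^ 3 = u * (1 - u) * (1 + u) := by ring
      rw [e5]
      refine mul_le_mul (mul_le_mul hu1 hu2 hPpos.le (by linarith)) (by linarith) (by norm_num) ?_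
      exact mul_nonneg (by linarith) (by linarith)
    have e6 : (1 / (2 * ((1 : ℕ) : ℝ) + 1)) ^ 3 = 1 / 27 := by norm_num
    rw [e6]
    have e7 : 5 / 324 / P = 2 / 3 * (1 / 4 * (2 / P) * (5 / 4)) * (1 / 27) := by
      field_simp
      norm_num
    rw [e7]
    linarith [h4]
  have hn0 : (0 : ℝ) < n := by
    have : 0 < n := by omega
    exact_mod_cast this
  have h5 : ratio n p ≤ ((n : ℝ) ^ (1 - 2 / p) * (p - 1)) * Real.exp (-(5 / 324 / P)) := by
    refine h1.trans ((mul_le_mul_of_nonneg_right h2 (by positivity)).trans (le_of_eq ?_))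
    rw [Real.div_rpow hn0.le (by norm_num)]
    have : ((2 : ℕ) : ℝ) ^ (1 - 2 / p) ≠ 0 := (Real.rpow_pos_of_pos (by norm_num) _).ne'
    push_cast at this ⊢
    field_simp
  calc ratio n p * Real.exp (5 / 324 / P)
      ≤ ((n : ℝ) ^ (1 - 2 / p) * (p - 1)) * Real.exp (-(5 / 324 / P)) * Real.exp (5 / 324 / P) :=
        mul_le_mul_of_nonneg_right h5 (Real.exp_pos _).le
    _ = _ := by
        rw [mul_assoc, ← Real.exp_add]
        simp

theorem ratio_num : ((1 + 1 / 2500) * ratio 11 (8 / 3)) ^ 4 / 11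
    ≤ Real.exp (2 + 6 / 529) := by
  have e : ratio 11 (8 / 3) = 5 / 3 * (13 / 11) * (21 / 19) * (29 / 27) * (37 / 35) * (45 / 43) *
      (53 / 51) * (61 / 59) * (69 / 67) * (77 / 75) * (85 / 83) := by
    simp only [ratio_succ, ratio_zero]
    norm_num
  rw [e, Real.exp_add]
  have h1 : (2.7182818283 : ℝ) ^ 2 ≤ Real.exp 2 := by
    have := pow_le_pow_left₀ (by norm_num) Real.exp_one_gt_d9.le 2
    rwa [← Real.exp_nat_mul, show ((2 : ℕ) : ℝ) * 1 = 2 by norm_num] at this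
  have h2 : (1 + 6 / 529 : ℝ) ≤ Real.exp (6 / 529) := by
    have := Real.add_one_le_exp (6 / 529 : ℝ)
    linarith
  calc _ ≤ (2.7182818283 : ℝ) ^ 2 * (1 + 6 / 529) := by norm_num
    _ ≤ _ := mul_le_mul h1 h2 (by norm_num) (Real.exp_pos _).le

theorem ratio_83 (n : ℕ) (hn : 11 ≤ n) :
    (1 + 1 / 2500) * ratio n (8 / 3) ≤ Real.exp (1 / 2 + 3 / 1058) * (n : ℝ) ^ (1 / 4 : ℝ) := by
  have h1 := ratio_le 11 (by norm_num) n hn (8 / 3) (by norm_num)
  rw [show (1 : ℝ) - 2 / (8 / 3) = 1 / 4 by norm_num] at h1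
  have hn0 : (0 : ℝ) < n := by
    have : 0 < n := by omega
    exact_mod_cast this
  have hr := ratio_pos 11 (8 / 3) (by norm_num)
  have h2 : (1 + 1 / 2500) * ratio 11 (8 / 3) * (1 / 11 : ℝ) ^ (1 / 4 : ℝ)
      ≤ Real.exp (1 / 2 + 3 / 1058) := by
    refine le_of_pow_le_pow_left₀ (n := 4) (by norm_num) (Real.exp_pos _).le ?_
    rw [mul_pow, ← Real.exp_nat_mul, ← Real.rpow_natCast ((1 / 11 : ℝ) ^ (1 / 4 : ℝ)) 4,
      ← Real.rpow_mul (by norm_num)]
    have e1 : (1 / 4 : ℝ) * ((4 : ℕ) : ℝ) = 1 := by norm_num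
    have e2 : ((4 : ℕ) : ℝ) * (1 / 2 + 3 / 1058) = 2 + 6 / 529 := by norm_num
    rw [e1, e2, Real.rpow_one]
    have := ratio_num
    rw [div_eq_mul_one_div] at this
    exact this
  calc (1 + 1 / 2500) * ratio n (8 / 3)
      ≤ (1 + 1 / 2500) * (ratio 11 (8 / 3) * ((n : ℝ) / (11 : ℕ)) ^ (1 / 4 : ℝ)) :=
        mul_le_mul_of_nonneg_left h1 (by norm_num)
    _ = ((1 + 1 / 2500) * ratio 11 (8 / 3) * (1 / 11 : ℝ) ^ (1 / 4 : ℝ)) * (n : ℝ) ^ (1 / 4 : ℝ) := by
        rw [mul_assoc ((1 + 1 / 2500) * ratio 11 (8 / 3)), ← Real.mul_rpow (by norm_num) hn0.le,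
          ← mul_assoc]
        congr 2
        push_cast
        ring
    _ ≤ _ := mul_le_mul_of_nonneg_right h2 (by positivity)

theorem log_lower (τ : ℝ) (h0 : 12 / 23 ≤ τ) (h1 : τ ≤ 1) :
    Real.exp (1 / 2 + 3 / 1058) ^ τ ≤ (4 + τ) / (4 - τ) := by
  have s := Real.hasSum_log_sub_log_of_abs_lt_one (x := τ / 4)
    (by rw [abs_of_nonneg (by linarith)]; linarith)
  have h2 := sum_le_hasSum (range 2) (fun k _ => by
    have : 0 ≤ τ / 4 := by linarith
    positivity) s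
  rw [sum_range_succ, sum_range_succ, sum_range_zero] at h2
  rw [← Real.log_div (by linarith) (by linarith)] at h2
  have e : (1 + τ / 4) / (1 - τ / 4) = (4 + τ) / (4 - τ) := by
    rw [div_eq_div_iff (by linarith) (by linarith)]
    ring
  rw [e] at h2
  have hpos : 0 < (4 + τ) / (4 - τ) := div_pos (by linarith) (by linarith)
  rw [← Real.exp_mul, ← Real.le_log_iff_exp_le hpos]
  refine le_trans ?_ h2
  norm_num
  have h3 : (12 / 23 : ℝ) ^ 2 ≤ τ ^ 2 := pow_le_pow_left₀ (by norm_num) h0 2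
  have h4 : 0 ≤ τ := by linarith
  nlinarith [mul_le_mul_of_nonneg_left h3 h4]

theorem conj_exp (r : ℝ) (hr : 2 ≤ r) : 1 / r + 1 / (r / (r - 1)) = 1 := by
  have : r - 1 ≠ 0 := by
    have : 0 < r - 1 := by linarith
    exact this.ne'
  field_simp
  ring

end PowBAux

open MeasureTheory PowBAux in
open scoped SchwartzMap ENNReal NNReal in
open Pool.Agent.Lib.MP_dd244f_an.Joint (ratio) in
open Pool.Agent.Lib.MP_dd244f_an.Unif in
/-- (PowB) -/
theorem powB (hA : StmtUnifA) (hRT : StmtRTS) (hFA : StmtFormAn) (hH : StmtHol) (hC : StmtConc) :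
    StmtPowB := by
  intro P
  set P' : ℝ := max P (8 / 3) with hP'
  have hP'1 : 8 / 3 ≤ P' := le_max_right _ _
  have hP'2 : P ≤ P' := le_max_left _ _
  have hP'0 : 0 < P' := by linarith
  have hε : 0 < Real.exp (5 / 324 / P') - 1 := by
    have : 1 < Real.exp (5 / 324 / P') := Real.one_lt_exp_iff.mpr (by positivity)
    linarith
  obtain ⟨n₁, hn₁⟩ := hA _ hε
  obtain ⟨n₂, hn₂⟩ := hA (1 / 2500) (by norm_num)
  refine ⟨max (max n₁ n₂) 11, fun n hn p hp hpP f => ?_⟩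
  have hn1 : n₁ ≤ n := (le_max_left _ _).trans ((le_max_left _ _).trans hn)
  have hn2 : n₂ ≤ n := (le_max_right _ _).trans ((le_max_left _ _).trans hn)
  have hn3 : 11 ≤ n := (le_max_right _ _).trans hn
  have hn0 : (0 : ℝ) < n := by
    have : 0 < n := by omega
    exact_mod_cast this
  rcases le_total (8 / 3) p with h83 | h83
  · refine (hn₁ n hn1 p h83 f).trans (mul_le_mul' (ENNReal.ofReal_le_ofReal ?_) le_rfl)
    have := ratio_gap P' hP'1 n (by omega) p h83 (hpP.trans hP'2)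
    rw [add_sub_cancel, mul_comm]
    exact this
  · -- interpolation
    have hp0 : 0 < p := by linarith
    set τ : ℝ := 4 - 8 / p with hτ
    have hx1 : 8 / p ≤ 8 / (23 / 10) := div_le_div_of_nonneg_left (by norm_num) (by norm_num) hp
    have hx2 : 8 / (8 / 3) ≤ 8 / p := div_le_div_of_nonneg_left (by norm_num) hp0 h83
    have hτ0 : 12 / 23 ≤ τ := by rw [hτ]; norm_num at hx1 ⊢; linarith
    have hτ1 : τ ≤ 1 := by rw [hτ]; norm_num at hx2; linarith
    have hp1 : 1 / p = (1 - τ) / 2 + τ / (8 / 3) := by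
      rw [hτ]; field_simp; ring
    have hr := ratio_pos n (8 / 3) (by norm_num)
    have b0 := hH n 2 2 1 le_rfl (by norm_num) (by norm_num) (fun f => by
      simp only [ENNReal.ofReal_one, one_mul]
      rw [show ENNReal.ofReal 2 = 2 by simp]
      exact Tn_L2 n f)
    have b1 := hH n (8 / 3) ((8 / 3) / (8 / 3 - 1)) ((1 + 1 / 2500) * ratio n (8 / 3)) (by norm_num)
      (conj_exp _ (by norm_num)) (by positivity) (fun f => hn₂ n hn2 (8 / 3) le_rfl f)
    have b2 := hRT (Bf n) 2 (8 / 3) p 2 ((8 / 3) / (8 / 3 - 1)) (p / (p - 1)) 1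
      ((1 + 1 / 2500) * ratio n (8 / 3)) τ le_rfl (by norm_num) (by norm_num) (by positivity)
      (by linarith) hτ1 (by norm_num) (conj_exp _ (by norm_num)) (conj_exp _ (by linarith)) hp1
      (hFA n) b0 b1
    have hM : 0 ≤ (n : ℝ) ^ (1 - 2 / p) * (p - 1) :=
      mul_nonneg (by positivity) (by linarith)
    refine hC n p (p / (p - 1)) _ (by linarith) (conj_exp _ (by linarith)) hM
      (fun φ γ hφ hγ => (b2 φ γ hφ hγ).trans ?_) f
    have hφ0 : 0 ≤ nr p φ := Real.rpow_nonneg (integral_nonneg fun x => by positivity) _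
    have hγ0 : 0 ≤ nr (p / (p - 1)) γ := Real.rpow_nonneg (integral_nonneg fun x => by positivity) _
    refine mul_le_mul_of_nonneg_right (mul_le_mul_of_nonneg_right ?_ hφ0) hγ0
    rw [Real.one_rpow, one_mul]
    have h1 := ratio_83 n hn3
    have h2 := log_lower τ hτ0 hτ1
    calc ((1 + 1 / 2500) * ratio n (8 / 3)) ^ τ
        ≤ (Real.exp (1 / 2 + 3 / 1058) * (n : ℝ) ^ (1 / 4 : ℝ)) ^ τ :=
          Real.rpow_le_rpow (by positivity) h1 (by linarith)
      _ = Real.exp (1 / 2 + 3 / 1058) ^ τ * (n : ℝ) ^ (1 / 4 * τ) := by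
          rw [Real.mul_rpow (Real.exp_pos _).le (by positivity), ← Real.rpow_mul hn0.le]
      _ ≤ (4 + τ) / (4 - τ) * (n : ℝ) ^ (1 / 4 * τ) :=
          mul_le_mul_of_nonneg_right h2 (by positivity)
      _ = _ := by
          rw [mul_comm]
          congr 1
          · congr 1
            rw [hτ]; field_simp; ring
          · rw [hτ]; field_simp; ring

end Pool.Agent.Lib.MP_dd244f_an.Rp
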