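import Pool.Agent.Lib.MP_dd244f_an.Rp.StmtsH

/-! Module (Ref): the reference form. -/

set_option autoImplicit false

namespace Pool.Agent.Lib.MP_dd244f_an.Rp

open MeasureTheory Filter Topology Finset
open scoped ENNReal NNReal

namespace RefAux

/-- the Riesz kernel -/
noncomputable def kk (a ζ : ℂ) : ℂ := (‖ζ‖ : ℂ) ^ (2 * a - 2)

theorem kk_meas (a : ℂ) : Measurable (kk a) := by
  unfold kk
  exact (Complex.measurable_ofReal.comp measurable_norm).pow_const _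

theorem kk_norm {a : ℂ} (ha : a.re < 1) (ζ : ℂ) : ‖kk a ζ‖ = ‖ζ‖ ^ (2 * a.re - 2) := by
  unfold kk
  rcases eq_or_ne ζ 0 with rfl | h
  · have h1 : 2 * a - 2 ≠ 0 := by
      intro h
      have h2 := congrArg Complex.re h
      simp at h2
      linarith
    rw [norm_zero, Complex.ofReal_zero, Complex.zero_cpow h1, norm_zero, Real.zero_rpow (by linarith)]
  · rw [Complex.norm_cpow_eq_rpow_re_of_pos (norm_pos_iff.2 h)]
    simp

theorem kk_real (a : ℝ) (ζ : ℂ) : kk (a : ℂ) ζ = ((‖ζ‖ ^ (2 * a - 2) : ℝ) : ℂ) := by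
  unfold kk
  rw [Complex.ofReal_cpow (norm_nonneg _)]
  push_cast
  rfl

theorem kk_neg (a ζ : ℂ) : kk a (-ζ) = kk a ζ := by
  unfold kk
  rw [norm_neg]

theorem cz_ne {z : ℂ} (h0 : 0 < z.re) (h1 : z.re < 1) : cz z ≠ 0 := by
  unfold cz
  have h2 : Complex.Gamma z ≠ 0 := Complex.Gamma_ne_zero_of_re_pos h0
  have h3 : Complex.Gamma (1 - z) ≠ 0 := Complex.Gamma_ne_zero_of_re_pos (by simp; linarith)
  have h4 : (Real.pi : ℂ) ≠ 0 := by exact_mod_cast Real.pi_ne_zero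
  have h5 : (Real.pi : ℂ) ^ (1 - 2 * z) ≠ 0 := by
    rw [Ne, Complex.cpow_eq_zero_iff]
    intro h
    exact h4 h.1
  exact div_ne_zero (mul_ne_zero h5 h2) h3

theorem cz_one_sub {z : ℂ} (h0 : 0 < z.re) (h1 : z.re < 1) : cz (1 - z) = (cz z)⁻¹ := by
  have h2 : Complex.Gamma z ≠ 0 := Complex.Gamma_ne_zero_of_re_pos h0
  have h3 : Complex.Gamma (1 - z) ≠ 0 := Complex.Gamma_ne_zero_of_re_pos (by simp; linarith)
  have h4 : (Real.pi : ℂ) ≠ 0 := by exact_mod_cast Real.pi_ne_zero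
  rw [eq_comm, inv_eq_iff_eq_inv, eq_comm, inv_eq_of_mul_eq_one_right]
  unfold cz
  have h5 : (Real.pi : ℂ) ^ (1 - 2 * z) * (Real.pi : ℂ) ^ (1 - 2 * (1 - z)) = 1 := by
    rw [← Complex.cpow_add _ _ h4]
    have : 1 - 2 * z + (1 - 2 * (1 - z)) = 0 := by ring
    rw [this, Complex.cpow_zero]
  have h6 : 1 - (1 - z) = z := by ring
  rw [h6]
  field_simp
  linear_combination h5

theorem cz_conj (z : ℂ) : cz (starRingEnd ℂ z) = starRingEnd ℂ (cz z) := by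
  unfold cz
  have h4 : Complex.arg (Real.pi : ℂ) ≠ Real.pi := by
    rw [Complex.arg_ofReal_of_nonneg Real.pi_pos.le]
    exact Real.pi_ne_zero.symm
  have h5 : (Real.pi : ℂ) ^ (1 - 2 * starRingEnd ℂ z) = starRingEnd ℂ ((Real.pi : ℂ) ^ (1 - 2 * z)) := by
    have h6 : starRingEnd ℂ (1 - 2 * z) = 1 - 2 * starRingEnd ℂ z := by
      rw [map_sub, map_mul, map_one, map_ofNat]
    rw [← h6, Complex.cpow_conj _ _ h4, Complex.conj_ofReal]
  rw [h5, map_div₀, map_mul, Complex.Gamma_conj, ← Complex.Gamma_conj (1 - z)]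
  simp

/-- data for which the composition formula holds -/
structure Gd {Ω : Type} [MeasureSpace Ω] (W s : Ω → ℂ) (A P : ℂ) : Prop where
  mW : Measurable W
  ms : Measurable s
  nz : ∀ ξ : ℂ, ξ ≠ 0 → ∀ᵐ ω, ξ + s ω ≠ 0
  pA : 0 ≤ A.re
  main : ∀ b ξ : ℂ, 0 < b.re → (b + A).re < 1 → ξ ≠ 0 →
    Integrable (fun ω => W ω * kk b (ξ + s ω)) ∧
    ∫ ω, W ω * kk b (ξ + s ω) = P * (cz b / cz (b + A)) * kk (b + A) ξ
  abs : ∀ b : ℂ, 0 < b.re → (b + A).re < 1 → ∃ C : ℝ, ∀ ξ : ℂ, ξ ≠ 0 →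
    ∫ ω, ‖W ω * kk b (ξ + s ω)‖ = C * ‖kk (b + A) ξ‖

/-- one variable -/
theorem gd_one (hR : StmtRieszC) {a : ℂ} (ha : 0 < a.re) (ha' : a.re < 1) :
    Gd (Ω := ℂ) (kk a) (fun ζ => -ζ) a (cz a) where
  mW := kk_meas a
  ms := measurable_neg
  nz ξ _ := by
    have : ∀ᵐ ζ : ℂ, ζ ≠ ξ := by
      rw [ae_iff]
      simp
    filter_upwards [this] with ζ hζ h
    exact hζ (by linear_combination -h)
  pA := ha.le
  main b ξ hb hab hξ := by
    have h := hR a b ξ ha hb (by rw [add_comm]; exact hab) hξ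
    refine ⟨h.1, ?_⟩
    have h2 := h.2
    rw [add_comm b a]
    show ∫ ζ : ℂ, (‖ζ‖ : ℂ) ^ (2 * a - 2) * (‖ξ - ζ‖ : ℂ) ^ (2 * b - 2) = _
    rw [h2]
    unfold kk
    ring
  abs b hb hab := by
    have hb1 : b.re < 1 := by
      have : (b + a).re = b.re + a.re := Complex.add_re _ _
      linarith
    refine ⟨‖cz (a.re : ℂ) * cz (b.re : ℂ) / cz ((a.re : ℂ) + (b.re : ℂ))‖, fun ξ hξ => ?_⟩
    have hab' : ((a.re : ℂ) + (b.re : ℂ)).re < 1 := by
      have : (b + a).re = b.re + a.re := Complex.add_re _ _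
      simp
      linarith
    have h := (hR (a.re : ℂ) (b.re : ℂ) ξ (by simpa using ha) (by simpa using hb) hab' hξ).2
    have h1 : ∀ ζ : ℂ, (‖ζ‖ : ℂ) ^ (2 * (a.re : ℂ) - 2) * (‖ξ - ζ‖ : ℂ) ^ (2 * (b.re : ℂ) - 2) =
        ((‖kk a ζ * kk b (ξ + -ζ)‖ : ℝ) : ℂ) := by
      intro ζ
      rw [norm_mul, kk_norm ha', kk_norm hb1, ← sub_eq_add_neg]
      have e1 := kk_real a.re ζ
      have e2 := kk_real b.re (ξ - ζ)
      unfold kk at e1 e2
      rw [e1, e2]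
      push_cast
      rfl
    simp_rw [h1] at h
    rw [integral_complex_ofReal] at h
    have h2 := congrArg norm h
    rw [Complex.norm_real, Real.norm_of_nonneg (integral_nonneg fun _ => norm_nonneg _), norm_mul] at h2
    rw [h2]
    congr 1
    have e3 : (‖ξ‖ : ℂ) ^ (2 * ((a.re : ℂ) + (b.re : ℂ)) - 2) = kk (((a.re + b.re : ℝ)) : ℂ) ξ := by
      unfold kk
      push_cast
      rfl
    rw [e3, kk_norm (by simpa using hab'), kk_norm hab]
    congr 1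
    simp
    ring

/-- no variable -/
theorem gd_zero {Ω : Type} [MeasureSpace Ω] (hv : volume (Set.univ : Set Ω) = 1) :
    Gd (Ω := Ω) (fun _ => 1) (fun _ => 0) 0 1 where
  mW := measurable_const
  ms := measurable_const
  nz ξ hξ := by
    refine Eventually.of_forall fun _ => ?_
    simpa using hξ
  pA := le_refl _
  main b ξ hb hab hξ := by
    have : IsProbabilityMeasure (volume : Measure Ω) := ⟨hv⟩
    refine ⟨integrable_const _, ?_⟩
    rw [integral_const]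
    simp only [add_zero] at hab ⊢
    rw [div_self (cz_ne hb hab)]
    simp
  abs b hb hab := by
    have : IsProbabilityMeasure (volume : Measure Ω) := ⟨hv⟩
    refine ⟨1, fun ξ hξ => ?_⟩
    rw [integral_const]
    simp

/-- products -/
theorem gd_prod {Ω₁ Ω₂ : Type} [MeasureSpace Ω₁] [MeasureSpace Ω₂]
    [SFinite (volume : Measure Ω₁)] [SFinite (volume : Measure Ω₂)] {W₁ s₁ : Ω₁ → ℂ}
    {W₂ s₂ : Ω₂ → ℂ} {A₁ A₂ P₁ P₂ : ℂ} (h₁ : Gd W₁ s₁ A₁ P₁) (h₂ : Gd W₂ s₂ A₂ P₂) :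
    Gd (Ω := Ω₁ × Ω₂) (fun ω => W₁ ω.1 * W₂ ω.2) (fun ω => s₁ ω.1 + s₂ ω.2) (A₁ + A₂) (P₁ * P₂) := by
  have mW : Measurable fun ω : Ω₁ × Ω₂ => W₁ ω.1 * W₂ ω.2 :=
    (h₁.mW.comp measurable_fst).mul (h₂.mW.comp measurable_snd)
  have ms : Measurable fun ω : Ω₁ × Ω₂ => s₁ ω.1 + s₂ ω.2 :=
    (h₁.ms.comp measurable_fst).add (h₂.ms.comp measurable_snd)
  have hre : (A₁ + A₂).re = A₁.re + A₂.re := Complex.add_re _ _
  have p1 := h₁.pA
  have p2 := h₂.pA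
  -- the integrand
  have key : ∀ b ξ : ℂ, 0 < b.re → (b + (A₁ + A₂)).re < 1 → ξ ≠ 0 →
      Integrable (fun ω : Ω₁ × Ω₂ => W₁ ω.1 * W₂ ω.2 * kk b (ξ + (s₁ ω.1 + s₂ ω.2))) := by
    intro b ξ hb hab hξ
    have hre2 : (b + (A₁ + A₂)).re = b.re + A₁.re + A₂.re := by simp; ring
    have hb2 : (b + A₂).re < 1 := by simp; linarith
    have hb2' : 0 < (b + A₂).re := by simp; linarith
    have hb3 : (b + A₂ + A₁).re < 1 := by simp; linarith
    have hm : Measurable (fun ω : Ω₁ × Ω₂ => W₁ ω.1 * W₂ ω.2 * kk b (ξ + (s₁ ω.1 + s₂ ω.2))) :=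
      mW.mul ((kk_meas b).comp (ms.const_add ξ))
    obtain ⟨C, hC⟩ := h₂.abs b hb hb2
    rw [Measure.volume_eq_prod, integrable_prod_iff hm.aestronglyMeasurable]
    constructor
    · filter_upwards [h₁.nz ξ hξ] with ω hω
      have := ((h₂.main b _ hb hb2 hω).1.const_mul (W₁ ω))
      refine this.congr (Eventually.of_forall fun ω' => ?_)
      show W₁ ω * (W₂ ω' * kk b (ξ + s₁ ω + s₂ ω')) = W₁ ω * W₂ ω' * kk b (ξ + (s₁ ω + s₂ ω'))
      rw [add_assoc]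
      ring
    · have h3 := ((h₁.main (b + A₂) ξ hb2' hb3 hξ).1.norm.const_mul C)
      refine h3.congr ?_
      filter_upwards [h₁.nz ξ hξ] with ω hω
      have h4 := hC (ξ + s₁ ω) hω
      have h5 : ∫ ω', ‖W₁ ω * W₂ ω' * kk b (ξ + (s₁ ω + s₂ ω'))‖ =
          ‖W₁ ω‖ * ∫ ω', ‖W₂ ω' * kk b (ξ + s₁ ω + s₂ ω')‖ := by
        rw [← integral_const_mul]
        congr 1
        funext ω'
        rw [← norm_mul, add_assoc, mul_assoc]
      show C * ‖W₁ ω * kk (b + A₂) (ξ + s₁ ω)‖ = ∫ ω', ‖W₁ ω * W₂ ω' * kk b (ξ + (s₁ ω + s₂ ω'))‖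
      rw [h5, h4, norm_mul]
      ring
  refine ⟨mW, ms, ?_, by rw [hre]; linarith, ?_, ?_⟩
  · intro ξ hξ
    have hset : MeasurableSet {ω : Ω₁ × Ω₂ | ξ + (s₁ ω.1 + s₂ ω.2) ≠ 0} :=
      (measurableSet_singleton (0 : ℂ)).compl.preimage (ms.const_add ξ)
    have h3 : ∀ᵐ ω, ω ∈ {ω : Ω₁ × Ω₂ | ξ + (s₁ ω.1 + s₂ ω.2) ≠ 0} := by
      rw [Measure.volume_eq_prod, Measure.ae_prod_mem_iff_ae_ae_mem hset]
      filter_upwards [h₁.nz ξ hξ] with ω hω
      filter_upwards [h₂.nz _ hω] with ω' hω'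
      show ξ + (s₁ ω + s₂ ω') ≠ 0
      rwa [← add_assoc]
    exact h3
  · intro b ξ hb hab hξ
    refine ⟨key b ξ hb hab hξ, ?_⟩
    have hre2 : (b + (A₁ + A₂)).re = b.re + A₁.re + A₂.re := by simp; ring
    have hb2 : (b + A₂).re < 1 := by simp; linarith
    have hb2' : 0 < (b + A₂).re := by simp; linarith
    have hb3 : (b + A₂ + A₁).re < 1 := by simp; linarith
    have hi := key b ξ hb hab hξ
    rw [Measure.volume_eq_prod] at hi ⊢
    rw [integral_prod _ hi]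
    have h3 : ∀ᵐ ω : Ω₁, ∫ ω', W₁ ω * W₂ ω' * kk b (ξ + (s₁ ω + s₂ ω')) =
        P₂ * (cz b / cz (b + A₂)) * (W₁ ω * kk (b + A₂) (ξ + s₁ ω)) := by
      filter_upwards [h₁.nz ξ hξ] with ω hω
      have h4 := (h₂.main b _ hb hb2 hω).2
      have h5 : ∫ ω', W₁ ω * W₂ ω' * kk b (ξ + (s₁ ω + s₂ ω')) =
          W₁ ω * ∫ ω', W₂ ω' * kk b (ξ + s₁ ω + s₂ ω') := by
        rw [← integral_const_mul]
        congr 1
        funext ω'
        rw [add_assoc, mul_assoc]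
      rw [h5, h4]
      ring
    rw [integral_congr_ae h3, integral_const_mul, (h₁.main (b + A₂) ξ hb2' hb3 hξ).2]
    have e : b + A₂ + A₁ = b + (A₁ + A₂) := by ring
    rw [e]
    have hne := cz_ne hb2' hb2
    field_simp
  · intro b hb hab
    have hre2 : (b + (A₁ + A₂)).re = b.re + A₁.re + A₂.re := by simp; ring
    have hb2 : (b + A₂).re < 1 := by simp; linarith
    have hb2' : 0 < (b + A₂).re := by simp; linarith
    have hb3 : (b + A₂ + A₁).re < 1 := by simp; linarith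
    obtain ⟨C₂, hC₂⟩ := h₂.abs b hb hb2
    obtain ⟨C₁, hC₁⟩ := h₁.abs (b + A₂) hb2' hb3
    refine ⟨C₂ * C₁, fun ξ hξ => ?_⟩
    have hi := (key b ξ hb hab hξ).norm
    rw [Measure.volume_eq_prod] at hi ⊢
    rw [integral_prod _ hi]
    have h3 : ∀ᵐ ω : Ω₁, ∫ ω', ‖W₁ ω * W₂ ω' * kk b (ξ + (s₁ ω + s₂ ω'))‖ =
        C₂ * ‖W₁ ω * kk (b + A₂) (ξ + s₁ ω)‖ := by
      filter_upwards [h₁.nz ξ hξ] with ω hω
      have h5 : ∫ ω', ‖W₁ ω * W₂ ω' * kk b (ξ + (s₁ ω + s₂ ω'))‖ =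
          ‖W₁ ω‖ * ∫ ω', ‖W₂ ω' * kk b (ξ + s₁ ω + s₂ ω')‖ := by
        rw [← integral_const_mul]
        congr 1
        funext ω'
        rw [← norm_mul, add_assoc, mul_assoc]
      rw [h5, hC₂ _ hω, norm_mul]
      ring
    rw [integral_congr_ae h3, integral_const_mul, hC₁ ξ hξ]
    have e : b + A₂ + A₁ = b + (A₁ + A₂) := by ring
    rw [e]
    ring

/-- transport along a measure preserving equivalence -/
theorem gd_map {Ω₁ Ω₂ : Type} [MeasureSpace Ω₁] [MeasureSpace Ω₂] {W s : Ω₁ → ℂ} {A P : ℂ}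
    (h : Gd W s A P) (e : Ω₂ ≃ᵐ Ω₁) (he : MeasurePreserving e) :
    Gd (Ω := Ω₂) (fun ω => W (e ω)) (fun ω => s (e ω)) A P where
  mW := h.mW.comp e.measurable
  ms := h.ms.comp e.measurable
  nz ξ hξ := he.quasiMeasurePreserving.ae (h.nz ξ hξ)
  pA := h.pA
  main b ξ hb hab hξ := by
    obtain ⟨h1, h2⟩ := h.main b ξ hb hab hξ
    refine ⟨(he.integrable_comp_emb e.measurableEmbedding).2 h1, ?_⟩
    rw [← h2]
    exact he.integral_comp e.measurableEmbedding (fun ω => W ω * kk b (ξ + s ω))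
  abs b hb hab := by
    obtain ⟨C, hC⟩ := h.abs b hb hab
    refine ⟨C, fun ξ hξ => ?_⟩
    rw [← hC ξ hξ]
    exact he.integral_comp e.measurableEmbedding (fun ω => ‖W ω * kk b (ξ + s ω)‖)

theorem gd_congr {Ω : Type} [MeasureSpace Ω] {W s W' s' : Ω → ℂ} {A P A' P' : ℂ}
    (h : Gd W s A P) (h1 : W = W') (h2 : s = s') (h3 : A = A') (h4 : P = P') : Gd W' s' A' P' := by
  subst h1 h2 h3 h4
  exact h

/-- `m` variables -/
theorem gd_pi (hR : StmtRieszC) {a : ℂ} (ha : 0 < a.re) (ha' : a.re < 1) (m : ℕ) :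
    Gd (Ω := Fin m → ℂ) (fun x => ∏ i, kk a (x i)) (fun x => -∑ i, x i) (m * a) (cz a ^ m) := by
  induction m with
  | zero =>
    refine gd_congr (gd_zero (Ω := Fin 0 → ℂ) ?_) ?_ ?_ ?_ ?_
    · rw [volume_pi, Measure.pi_of_empty]
      simp
    · funext x
      simp
    · funext x
      simp
    · simp
    · simp
  | succ m ih =>
    have h1 := gd_prod (gd_one hR ha ha') ih
    have h2 := gd_map h1 (MeasurableEquiv.piFinSuccAbove (fun _ => ℂ) 0)
      (volume_preserving_piFinSuccAbove (fun _ => ℂ) 0)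
    refine gd_congr h2 ?_ ?_ ?_ ?_
    · funext x
      rw [Fin.prod_univ_succ]
      simp [MeasurableEquiv.piFinSuccAbove, Fin.tail]
    · funext x
      rw [Fin.sum_univ_succ]
      simp [MeasurableEquiv.piFinSuccAbove, Fin.tail]
      ring
    · push_cast
      ring
    · ring

/-- change of sign -/
theorem gd_neg {m : ℕ} {a P : ℂ} (h : Gd (Ω := Fin m → ℂ) (fun x => ∏ i, kk a (x i))
    (fun x => -∑ i, x i) (m * a) P) :
    Gd (Ω := Fin m → ℂ) (fun x => ∏ i, kk a (x i)) (fun x => ∑ i, x i) (m * a) P := by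
  have h1 := gd_map h (MeasurableEquiv.neg (Fin m → ℂ)) (Measure.measurePreserving_neg volume)
  refine gd_congr h1 ?_ ?_ rfl rfl
  · funext x
    simp [kk_neg]
  · funext x
    simp

/-- the outer integral -/
theorem outer {Ω : Type} [MeasureSpace Ω] [SFinite (volume : Measure Ω)] {W s : Ω → ℂ}
    {A P z b : ℂ} (h : Gd W s A P) (h0 : 0 < z.re) (hb : 0 < b.re)
    (hbA : b + A = 1 - z) {φ : ℂ → ℝ} (hφ : Continuous φ) (hφc : HasCompactSupport φ)
    (hφ0 : ∀ᶠ ζ in 𝓝 (0 : ℂ), φ ζ = 0) :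
    Integrable (fun q : ℂ × Ω => ((φ q.1 : ℝ) : ℂ) * kk z q.1 * (W q.2 * kk b (q.1 + s q.2))) ∧
    ∫ q : ℂ × Ω, ((φ q.1 : ℝ) : ℂ) * kk z q.1 * (W q.2 * kk b (q.1 + s q.2)) =
      P * (cz b / cz (1 - z)) * ((∫ ζ, φ ζ / ‖ζ‖ ^ 2 : ℝ) : ℂ) := by
  have hab : (b + A).re < 1 := by
    rw [hbA]
    simp
    exact h0
  have hφz : φ 0 = 0 := hφ0.self_of_nhds
  -- the kernel
  have hker : ∀ ξ : ℂ, ξ ≠ 0 → kk z ξ * kk (b + A) ξ = ((1 / ‖ξ‖ ^ 2 : ℝ) : ℂ) := by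
    intro ξ hξ
    rw [hbA]
    unfold kk
    have hn : (‖ξ‖ : ℂ) ≠ 0 := by exact_mod_cast (norm_ne_zero_iff.2 hξ)
    rw [← Complex.cpow_add _ _ hn]
    have : 2 * z - 2 + (2 * (1 - z) - 2) = ((-2 : ℤ) : ℂ) := by push_cast; ring
    rw [this, Complex.cpow_intCast]
    push_cast
    rw [zpow_neg, one_div]
    norm_cast
  -- the one variable function
  have hc : Continuous fun ζ : ℂ => φ ζ / ‖ζ‖ ^ 2 := by
    rw [continuous_iff_continuousAt]
    intro ζ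
    rcases eq_or_ne ζ 0 with rfl | hζ
    · have : (fun ζ : ℂ => φ ζ / ‖ζ‖ ^ 2) =ᶠ[𝓝 0] fun _ => 0 := by
        filter_upwards [hφ0] with ζ hζ
        rw [hζ, zero_div]
      exact (continuousAt_const).congr this.symm
    · exact hφ.continuousAt.div (continuous_norm.continuousAt.pow 2)
        (pow_ne_zero 2 (norm_ne_zero_iff.2 hζ))
  have hsup : HasCompactSupport fun ζ : ℂ => φ ζ / ‖ζ‖ ^ 2 := by
    refine hφc.mono ?_
    intro ζ hζ
    simp only [Function.mem_support, ne_eq, div_eq_zero_iff, not_or] at hζ ⊢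
    exact hζ.1
  have hi : Integrable fun ζ : ℂ => φ ζ / ‖ζ‖ ^ 2 := hc.integrable_of_hasCompactSupport hsup
  obtain ⟨C, hC⟩ := h.abs b hb hab
  have hm : Measurable (fun q : ℂ × Ω => ((φ q.1 : ℝ) : ℂ) * kk z q.1 *
      (W q.2 * kk b (q.1 + s q.2))) := by
    have m1 : Measurable fun q : ℂ × Ω => ((φ q.1 : ℝ) : ℂ) * kk z q.1 :=
      (Complex.measurable_ofReal.comp (hφ.measurable.comp measurable_fst)).mul
        ((kk_meas z).comp measurable_fst)
    have m2 : Measurable fun q : ℂ × Ω => W q.2 * kk b (q.1 + s q.2) :=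
      (h.mW.comp measurable_snd).mul
        ((kk_meas b).comp (measurable_fst.add (h.ms.comp measurable_snd)))
    exact m1.mul m2
  have hI : Integrable (fun q : ℂ × Ω => ((φ q.1 : ℝ) : ℂ) * kk z q.1 *
      (W q.2 * kk b (q.1 + s q.2))) := by
    rw [Measure.volume_eq_prod, integrable_prod_iff hm.aestronglyMeasurable]
    constructor
    · refine Eventually.of_forall fun ζ => ?_
      rcases eq_or_ne ζ 0 with rfl | hζ
      · simp [hφz]
      · show Integrable fun ω => ((φ ζ : ℝ) : ℂ) * kk z ζ * (W ω * kk b (ζ + s ω))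
        exact (h.main b ζ hb hab hζ).1.const_mul _
    · refine (hi.norm.const_mul C).congr (Eventually.of_forall fun ζ => ?_)
      show C * ‖φ ζ / ‖ζ‖ ^ 2‖ = ∫ ω, ‖((φ ζ : ℝ) : ℂ) * kk z ζ * (W ω * kk b (ζ + s ω))‖
      rcases eq_or_ne ζ 0 with rfl | hζ
      · simp [hφz]
      · have h5 : ∫ ω, ‖((φ ζ : ℝ) : ℂ) * kk z ζ * (W ω * kk b (ζ + s ω))‖ =
            ‖((φ ζ : ℝ) : ℂ) * kk z ζ‖ * ∫ ω, ‖W ω * kk b (ζ + s ω)‖ := by
          rw [← integral_const_mul]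
          congr 1
          funext ω
          rw [norm_mul]
        have h6 := congrArg norm (hker ζ hζ)
        rw [norm_mul, Complex.norm_real, norm_div, norm_one] at h6
        rw [h5, hC ζ hζ, norm_mul, Complex.norm_real]
        have h7 : ‖φ ζ‖ * ‖kk z ζ‖ * (C * ‖kk (b + A) ζ‖) =
            C * (‖φ ζ‖ * (‖kk z ζ‖ * ‖kk (b + A) ζ‖)) := by ring
        rw [h7, h6, norm_div]
        ring
  refine ⟨hI, ?_⟩
  rw [Measure.volume_eq_prod] at hI ⊢
  rw [integral_prod _ hI]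
  have h3 : ∀ ζ : ℂ, ∫ ω, ((φ ζ : ℝ) : ℂ) * kk z ζ * (W ω * kk b (ζ + s ω)) =
      P * (cz b / cz (1 - z)) * ((φ ζ / ‖ζ‖ ^ 2 : ℝ) : ℂ) := by
    intro ζ
    rcases eq_or_ne ζ 0 with rfl | hζ
    · simp [hφz]
    · rw [integral_const_mul, (h.main b ζ hb hab hζ).2]
      have h8 := hker ζ hζ
      have h9 : ((φ ζ / ‖ζ‖ ^ 2 : ℝ) : ℂ) = (φ ζ : ℂ) * (kk z ζ * kk (b + A) ζ) := by
        rw [h8]
        push_cast
        ring
      rw [h9, ← hbA]
      ring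
  simp_rw [h3]
  rw [integral_const_mul, integral_complex_ofReal]

end RefAux

open RefAux

theorem ref (hR : StmtRieszC) : StmtRef := by
  intro j y φ hφ hφc hφ0
  set z : ℂ := 1 / (2 * (j + 1)) + Complex.I * y with hz
  set z' : ℂ := 1 / (2 * (j + 1)) - Complex.I * y with hz'
  have hj : (0 : ℝ) < 2 * (j + 1) := by positivity
  have hcast : (1 / (2 * (j + 1)) : ℂ) = ((1 / (2 * (j + 1)) : ℝ) : ℂ) := by push_cast; rfl
  have hre : z.re = 1 / (2 * (j + 1)) := by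
    rw [hz, hcast, Complex.add_re, Complex.ofReal_re]
    simp
  have hre' : z'.re = 1 / (2 * (j + 1)) := by
    rw [hz', hcast, Complex.sub_re, Complex.ofReal_re]
    simp
  have hconj : z' = starRingEnd ℂ z := by
    rw [hz, hz', map_add, map_mul, hcast, Complex.conj_ofReal, Complex.conj_ofReal, Complex.conj_I]
    ring
  have hpos : 0 < 1 / (2 * ((j : ℝ) + 1)) := by positivity
  have hlt : 1 / (2 * ((j : ℝ) + 1)) < 1 := by
    rw [div_lt_one hj]
    have : (0 : ℝ) ≤ j := Nat.cast_nonneg j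
    linarith
  have h0 : 0 < z.re := hre ▸ hpos
  have h1 : z.re < 1 := hre ▸ hlt
  have h0' : 0 < z'.re := hre' ▸ hpos
  have h1' : z'.re < 1 := hre' ▸ hlt
  have hjc : ((j : ℂ) + 1) ≠ 0 := by exact_mod_cast Nat.succ_ne_zero j
  have hsum : z' + (j * z + j * z') = 1 - z := by
    have : z + z' = 1 / (j + 1) := by
      rw [hz, hz']
      field_simp
      ring
    have h2 : (j + 1) * (z + z') = 1 := by
      rw [this]
      field_simp
    linear_combination h2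
  -- the inner data
  have hG := gd_prod (gd_neg (gd_pi hR h0 h1 j)) (gd_pi hR h0' h1' j)
  have hO := outer hG h0 h0' hsum hφ hφc hφ0
  -- the equivalence
  let e1 : XX j ≃ᵐ (ℂ × (Fin j → ℂ)) × (Fin j → ℂ) :=
    (MeasurableEquiv.piFinSuccAbove (fun _ => ℂ) 0).prodCongr (MeasurableEquiv.refl _)
  have he1 : MeasurePreserving e1 :=
    (volume_preserving_piFinSuccAbove (fun _ => ℂ) 0).prod (MeasurePreserving.id _)
  let e2 : (ℂ × (Fin j → ℂ)) × (Fin j → ℂ) ≃ᵐ ℂ × ((Fin j → ℂ) × (Fin j → ℂ)) :=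
    MeasurableEquiv.prodAssoc
  have he2 : MeasurePreserving e2 := volume_preserving_prodAssoc
  have he : MeasurePreserving (e1.trans e2) := he2.comp he1
  have hfun : (fun X : XX j => ((φ (X.1 0) : ℝ) : ℂ) *
      (∏ i, (‖X.1 i‖ : ℂ) ^ (2 * z - 2)) * (∏ i, (‖X.2 i‖ : ℂ) ^ (2 * z' - 2)) *
      (‖xl X‖ : ℂ) ^ (2 * z' - 2)) = fun X : XX j =>
      (fun q : ℂ × ((Fin j → ℂ) × (Fin j → ℂ)) => ((φ q.1 : ℝ) : ℂ) * kk z q.1 *
        (((∏ i, kk z (q.2.1 i)) * (∏ i, kk z' (q.2.2 i))) *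
          kk z' (q.1 + ((∑ i, q.2.1 i) + -∑ i, q.2.2 i)))) ((e1.trans e2) X) := by
    funext X
    have q1 : ((e1.trans e2) X).1 = X.1 0 := rfl
    have q2 : ∀ i, ((e1.trans e2) X).2.1 i = X.1 i.succ := fun i => rfl
    have q3 : ((e1.trans e2) X).2.2 = X.2 := rfl
    have q4 : xl X = X.1 0 + ((∑ i : Fin j, X.1 i.succ) + -∑ i, X.2 i) := by
      unfold xl
      rw [Fin.sum_univ_succ]
      ring
    simp only [q1, q2, q3]
    rw [Fin.prod_univ_succ, q4]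
    unfold kk
    ring
  have hI := (he.integrable_comp_emb (e1.trans e2).measurableEmbedding).2 hO.1
  have hV := he.integral_comp (e1.trans e2).measurableEmbedding
    (fun q : ℂ × ((Fin j → ℂ) × (Fin j → ℂ)) => ((φ q.1 : ℝ) : ℂ) * kk z q.1 *
        (((∏ i, kk z (q.2.1 i)) * (∏ i, kk z' (q.2.2 i))) *
          kk z' (q.1 + ((∑ i, q.2.1 i) + -∑ i, q.2.2 i))))
  constructor
  · rw [hfun]
    exact hI
  · rw [hfun, hV, hO.2, cz_one_sub h0 h1]
    have hcc : cz z' = starRingEnd ℂ (cz z) := by rw [hconj, cz_conj]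
    have hn : cz z * cz z' = ((‖cz z‖ ^ 2 : ℝ) : ℂ) := by
      rw [hcc, Complex.mul_conj, Complex.normSq_eq_norm_sq]
    have : cz z ^ j * cz z' ^ j * (cz z' / (cz z)⁻¹) = (cz z * cz z') ^ (j + 1) := by
      rw [div_inv_eq_mul]
      ring
    rw [this, hn]
    push_cast
    rw [← pow_mul]

end Pool.Agent.Lib.MP_dd244f_an.Rp
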