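import Pool.Agent.Lib.MP_dd244f_an.Rp.StmtsH
import Pool.Agent.Lib.MP_dd244f_an.Four.Riesz

set_option autoImplicit false

/-! (RieszC) composition of Riesz potentials of complex order. -/

namespace Pool.Agent.Lib.MP_dd244f_an.Rp
namespace RieszCAux

open MeasureTheory Filter Topology
open ProbabilityTheory (complexMGF integrableExpSet)
open scoped ENNReal NNReal

/-- the real density -/
noncomputable def w (a b : ℝ) (ξ ζ : ℂ) : ℝ := ‖ζ‖ ^ (2 * a - 2) * ‖ξ - ζ‖ ^ (2 * b - 2)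

theorem w_nonneg (a b : ℝ) (ξ ζ : ℂ) : 0 ≤ w a b ξ ζ := by unfold w; positivity

theorem w_meas (a b : ℝ) (ξ : ℂ) : Measurable (w a b ξ) := by unfold w; fun_prop

theorem ae_ne (ξ : ℂ) : ∀ᵐ ζ : ℂ, ζ ≠ 0 ∧ ξ - ζ ≠ 0 := by
  have hz : ∀ᵐ ζ : ℂ, ζ ≠ 0 := by simp [ae_iff, measure_singleton]
  have hz' : ∀ᵐ ζ : ℂ, ζ ≠ ξ := by simp [ae_iff, measure_singleton]
  filter_upwards [hz, hz'] with ζ h0 h1
  exact ⟨h0, sub_ne_zero.mpr (Ne.symm h1)⟩

theorem cz_real (a : ℝ) : cz a = ((Real.pi ^ (1 - 2 * a) * Real.Gamma a / Real.Gamma (1 - a) : ℝ) : ℂ) := by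
  unfold cz
  rw [Complex.Gamma_ofReal, show (1 : ℂ) - (a : ℂ) = ((1 - a : ℝ) : ℂ) by push_cast; rfl,
    Complex.Gamma_ofReal, show (1 : ℂ) - 2 * (a : ℂ) = ((1 - 2 * a : ℝ) : ℂ) by push_cast; rfl,
    ← Complex.ofReal_cpow Real.pi_pos.le]
  push_cast
  rfl

theorem real_case {a b : ℝ} (ha : 0 < a) (hb : 0 < b) (hab : a + b < 1) {ξ : ℂ} (hξ : ξ ≠ 0) :
    Integrable (w a b ξ) ∧ ((∫ ζ, w a b ξ ζ : ℝ) : ℂ) =
      cz a * cz b / cz (a + b : ℝ) * (‖ξ‖ : ℂ) ^ (2 * ((a + b : ℝ) : ℂ) - 2) := by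
  have g1 : 0 < Real.Gamma a := Real.Gamma_pos_of_pos ha
  have g2 : 0 < Real.Gamma b := Real.Gamma_pos_of_pos hb
  have g3 : 0 < Real.Gamma (a + b) := Real.Gamma_pos_of_pos (by linarith)
  have g4 : 0 < Real.Gamma (1 - a) := Real.Gamma_pos_of_pos (by linarith)
  have g5 : 0 < Real.Gamma (1 - b) := Real.Gamma_pos_of_pos (by linarith)
  have g6 : 0 < Real.Gamma (1 - (a + b)) := Real.Gamma_pos_of_pos (by linarith)
  have hn : 0 < ‖ξ‖ := norm_pos_iff.mpr hξ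
  obtain ⟨h1, h2⟩ := Four.riesz_int (α := 1 - a) (β := 1 - b) (by linarith) (by linarith)
    (by linarith) (by linarith) (by linarith) hξ
    (c := Real.pi * Real.Gamma a * Real.Gamma b * Real.Gamma (1 - (a + b)) /
      (Real.Gamma (1 - a) * Real.Gamma (1 - b) * Real.Gamma (a + b))) (by
        rw [show 2 - (1 - a) - (1 - b) = a + b by ring, show 1 - a + (1 - b) - 1 = 1 - (a + b) by ring,
          show 1 - (1 - a) = a by ring, show 1 - (1 - b) = b by ring]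
        field_simp)
  have e1 : (fun ζ : ℂ => ‖ζ‖ ^ (-(2 * (1 - a))) * ‖ξ - ζ‖ ^ (-(2 * (1 - b)))) = w a b ξ := by
    funext ζ
    unfold w
    congr 2 <;> ring
  rw [e1] at h1
  refine ⟨h1, ?_⟩
  have e2 : ∫ ζ, w a b ξ ζ = Real.pi * Real.Gamma a * Real.Gamma b * Real.Gamma (1 - (a + b)) /
      (Real.Gamma (1 - a) * Real.Gamma (1 - b) * Real.Gamma (a + b)) *
      (‖ξ‖ ^ 2) ^ (-(1 - a + (1 - b) - 1)) := by
    rw [← h2]
    refine integral_congr_ae (ae_of_all _ fun ζ => ?_)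
    exact (congrFun e1 ζ).symm
  have e3 : (‖ξ‖ ^ 2) ^ (-(1 - a + (1 - b) - 1)) = ‖ξ‖ ^ (2 * (a + b) - 2) := by
    rw [← Real.rpow_natCast, ← Real.rpow_mul hn.le]
    congr 1
    push_cast
    ring
  have e4 : (‖ξ‖ : ℂ) ^ (2 * ((a + b : ℝ) : ℂ) - 2) = ((‖ξ‖ ^ (2 * (a + b) - 2) : ℝ) : ℂ) := by
    rw [Complex.ofReal_cpow hn.le]
    push_cast
    rfl
  rw [e2, e3, e4, cz_real, cz_real, cz_real, ← Complex.ofReal_mul, ← Complex.ofReal_div,
    ← Complex.ofReal_mul]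
  congr 2
  have p1 : Real.pi ^ (1 - 2 * a) * Real.pi ^ (1 - 2 * b) = Real.pi * Real.pi ^ (1 - 2 * (a + b)) := by
    rw [← Real.rpow_add Real.pi_pos]
    conv_rhs => rw [← Real.rpow_one Real.pi, ← Real.rpow_mul Real.pi_pos.le]
    rw [one_mul, ← Real.rpow_add Real.pi_pos]
    congr 1
    ring
  have p2 : 0 < Real.pi ^ (1 - 2 * (a + b)) := Real.rpow_pos_of_pos Real.pi_pos _
  generalize Real.pi ^ (1 - 2 * (a + b)) = S at p1 p2 ⊢
  generalize Real.pi ^ (1 - 2 * a) = P at p1 ⊢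
  generalize Real.pi ^ (1 - 2 * b) = Q at p1 ⊢
  field_simp
  linear_combination (-1 : ℝ) * p1

theorem cz_diff {z : ℂ} (h0 : 0 < z.re) (h1 : z.re < 1) : DifferentiableAt ℂ cz z ∧ cz z ≠ 0 := by
  have n1 : ∀ m : ℕ, z ≠ -m := by
    intro m h
    rw [h] at h0
    simp at h0
    have : (0 : ℝ) ≤ m := Nat.cast_nonneg m
    linarith
  have h2 : 0 < (1 - z).re := by simp; linarith
  have n2 : ∀ m : ℕ, 1 - z ≠ -m := by
    intro m h
    rw [h] at h2
    simp at h2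
    have : (0 : ℝ) ≤ m := Nat.cast_nonneg m
    linarith
  have g1 : Complex.Gamma z ≠ 0 := Complex.Gamma_ne_zero n1
  have g2 : Complex.Gamma (1 - z) ≠ 0 := Complex.Gamma_ne_zero n2
  have hpi : (Real.pi : ℂ) ≠ 0 := by exact_mod_cast Real.pi_ne_zero
  constructor
  · unfold cz
    refine ((DifferentiableAt.const_cpow (by fun_prop) (Or.inl hpi)).mul
      (Complex.differentiableAt_Gamma z n1)).div ?_ g2
    exact (Complex.differentiableAt_Gamma (1 - z) n2).comp z (by fun_prop)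
  · unfold cz
    refine div_ne_zero (mul_ne_zero (fun h => ?_) g1) g2
    rw [Complex.cpow_def_of_ne_zero hpi] at h
    exact Complex.exp_ne_zero _ h

/-- the logarithm -/
noncomputable def LX (u v : ℝ) (ξ ζ : ℂ) : ℝ := 2 * u * Real.log ‖ζ‖ + 2 * v * Real.log ‖ξ - ζ‖

theorem exp_LX {a b u v : ℝ} {ξ ζ : ℂ} (h0 : ζ ≠ 0) (h1 : ξ - ζ ≠ 0) (z : ℂ) :
    ((w a b ξ ζ : ℝ) : ℂ) * Complex.exp (z * (LX u v ξ ζ : ℂ)) =
      (‖ζ‖ : ℂ) ^ (2 * (a + z * u) - 2) * (‖ξ - ζ‖ : ℂ) ^ (2 * (b + z * v) - 2) := by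
  have n0 : 0 < ‖ζ‖ := norm_pos_iff.mpr h0
  have n1 : 0 < ‖ξ - ζ‖ := norm_pos_iff.mpr h1
  have c0 : (‖ζ‖ : ℂ) ≠ 0 := by exact_mod_cast n0.ne'
  have c1 : (‖ξ - ζ‖ : ℂ) ≠ 0 := by exact_mod_cast n1.ne'
  unfold w LX
  rw [Complex.cpow_def_of_ne_zero c0, Complex.cpow_def_of_ne_zero c1, ← Complex.exp_add,
    Real.rpow_def_of_pos n0, Real.rpow_def_of_pos n1, ← Complex.ofReal_log n0.le,
    ← Complex.ofReal_log n1.le]
  push_cast
  rw [← Complex.exp_add, ← Complex.exp_add]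
  congr 1
  ring

/-- the finite measure -/
noncomputable def M (a b : ℝ) (ξ : ℂ) : Measure ℂ :=
  volume.withDensity (fun ζ => ENNReal.ofReal (w a b ξ ζ))

theorem int_M (a b : ℝ) (ξ : ℂ) (g : ℂ → ℂ) :
    ∫ ζ, g ζ ∂(M a b ξ) = ∫ ζ, ((w a b ξ ζ : ℝ) : ℂ) * g ζ := by
  unfold M
  rw [integral_withDensity_eq_integral_toReal_smul₀ (w_meas a b ξ).ennreal_ofReal.aemeasurable
    (ae_of_all _ fun _ => ENNReal.ofReal_lt_top)]
  refine integral_congr_ae (ae_of_all _ fun ζ => ?_)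
  simp only
  rw [ENNReal.toReal_ofReal (w_nonneg _ _ _ _), Complex.real_smul]

theorem mgf_eq (a b u v : ℝ) (ξ z : ℂ) : complexMGF (LX u v ξ) (M a b ξ) z =
    ∫ ζ : ℂ, (‖ζ‖ : ℂ) ^ (2 * (a + z * u) - 2) * (‖ξ - ζ‖ : ℂ) ^ (2 * (b + z * v) - 2) := by
  unfold complexMGF
  rw [int_M]
  refine integral_congr_ae ?_
  filter_upwards [ae_ne ξ] with ζ h
  exact exp_LX h.1 h.2 z

theorem real_pow {a b : ℝ} {ξ ζ : ℂ} :
    (‖ζ‖ : ℂ) ^ (2 * (a : ℂ) - 2) * (‖ξ - ζ‖ : ℂ) ^ (2 * (b : ℂ) - 2) = ((w a b ξ ζ : ℝ) : ℂ) := by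
  unfold w
  rw [Complex.ofReal_mul, Complex.ofReal_cpow (norm_nonneg _), Complex.ofReal_cpow (norm_nonneg _)]
  push_cast
  rfl

theorem mem_set {a b u v t : ℝ} {ξ : ℂ} (ha : 0 < a + t * u) (hb : 0 < b + t * v)
    (hab : (a + t * u) + (b + t * v) < 1) (hξ : ξ ≠ 0) :
    t ∈ integrableExpSet (LX u v ξ) (M a b ξ) := by
  show Integrable (fun ζ => Real.exp (t * LX u v ξ ζ)) (M a b ξ)
  unfold M
  rw [integrable_withDensity_iff_integrable_smul₀' (w_meas a b ξ).ennreal_ofReal.aemeasurable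
    (ae_of_all _ fun _ => ENNReal.ofReal_lt_top)]
  refine (real_case ha hb hab hξ).1.congr ?_
  filter_upwards [ae_ne ξ] with ζ h
  rw [ENNReal.toReal_ofReal (w_nonneg _ _ _ _), smul_eq_mul]
  have h1 := exp_LX (a := a) (b := b) (u := u) (v := v) h.1 h.2 (t : ℂ)
  rw [show (a : ℂ) + t * u = ((a + t * u : ℝ) : ℂ) by push_cast; rfl,
    show (b : ℂ) + t * v = ((b + t * v : ℝ) : ℂ) by push_cast; rfl, real_pow] at h1
  have h2 : Complex.exp ((t : ℂ) * (LX u v ξ ζ : ℂ)) = ((Real.exp (t * LX u v ξ ζ) : ℝ) : ℂ) := by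
    push_cast
    rfl
  rw [h2, ← Complex.ofReal_mul] at h1
  exact_mod_cast h1.symm

/-- the right side along the line -/
noncomputable def G (a b u v : ℝ) (ξ z : ℂ) : ℂ :=
  cz (a + z * u) * cz (b + z * v) / cz ((a + z * u) + (b + z * v)) *
    (‖ξ‖ : ℂ) ^ (2 * ((a + z * u) + (b + z * v)) - 2)

theorem G_diff {a b u v : ℝ} {ξ z : ℂ} (ha : 0 < a + z.re * u) (hb : 0 < b + z.re * v)
    (hab : (a + z.re * u) + (b + z.re * v) < 1) (hξ : ξ ≠ 0) :
    DifferentiableAt ℂ (G a b u v ξ) z := by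
  have hn : (‖ξ‖ : ℂ) ≠ 0 := by exact_mod_cast (norm_pos_iff.mpr hξ).ne'
  have r1 : ((a : ℂ) + z * u).re = a + z.re * u := by simp
  have r2 : ((b : ℂ) + z * v).re = b + z.re * v := by simp
  have r3 : (((a : ℂ) + z * u) + (b + z * v)).re = (a + z.re * u) + (b + z.re * v) := by simp
  have d1 := cz_diff (z := (a : ℂ) + z * u) (by rw [r1]; exact ha) (by rw [r1]; linarith)
  have d2 := cz_diff (z := (b : ℂ) + z * v) (by rw [r2]; exact hb) (by rw [r2]; linarith)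
  have d3 := cz_diff (z := ((a : ℂ) + z * u) + (b + z * v)) (by rw [r3]; linarith)
    (by rw [r3]; exact hab)
  unfold G
  refine DifferentiableAt.mul (DifferentiableAt.div (DifferentiableAt.mul ?_ ?_) ?_ d3.2) ?_
  · exact DifferentiableAt.comp (g := cz) (f := fun z : ℂ => (a : ℂ) + z * u) z d1.1 (by fun_prop)
  · exact DifferentiableAt.comp (g := cz) (f := fun z : ℂ => (b : ℂ) + z * v) z d2.1 (by fun_prop)
  · exact DifferentiableAt.comp (g := cz) (f := fun z : ℂ => ((a : ℂ) + z * u) + (b + z * v)) z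
      d3.1 (by fun_prop)
  · exact DifferentiableAt.const_cpow (by fun_prop) (Or.inl hn)

theorem G_real {a b u v t : ℝ} {ξ : ℂ} (ha : 0 < a + t * u) (hb : 0 < b + t * v)
    (hab : (a + t * u) + (b + t * v) < 1) (hξ : ξ ≠ 0) :
    complexMGF (LX u v ξ) (M a b ξ) (t : ℂ) = G a b u v ξ (t : ℂ) := by
  rw [mgf_eq]
  unfold G
  have e1 : (a : ℂ) + t * u = ((a + t * u : ℝ) : ℂ) := by push_cast; rfl
  have e2 : (b : ℂ) + t * v = ((b + t * v : ℝ) : ℂ) := by push_cast; rfl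
  rw [e1, e2, ← Complex.ofReal_add (a + t * u) (b + t * v), ← (real_case ha hb hab hξ).2,
    ← integral_complex_ofReal]
  refine integral_congr_ae ?_
  filter_upwards [ae_ne ξ] with ζ h
  exact real_pow

theorem main {α β ξ : ℂ} (hα : 0 < α.re) (hβ : 0 < β.re) (hαβ : (α + β).re < 1) (hξ : ξ ≠ 0) :
    ∫ ζ : ℂ, (‖ζ‖ : ℂ) ^ (2 * α - 2) * (‖ξ - ζ‖ : ℂ) ^ (2 * β - 2)
      = cz α * cz β / cz (α + β) * (‖ξ‖ : ℂ) ^ (2 * (α + β) - 2) := by
  set a := α.re with ha'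
  set b := β.re with hb'
  set u := α.im with hu'
  set v := β.im with hv'
  have hab : a + b < 1 := by simpa using hαβ
  -- the width of the strip
  obtain ⟨ε, hε, h1⟩ : ∃ ε : ℝ, 0 < ε ∧ ∀ t : ℝ, |t| < ε →
      0 < a + t * u ∧ 0 < b + t * v ∧ (a + t * u) + (b + t * v) < 1 := by
    have c1 : ∀ᶠ t : ℝ in 𝓝 0, 0 < a + t * u :=
      (by fun_prop : ContinuousAt (fun t : ℝ => a + t * u) 0).eventually
        (lt_mem_nhds (by simpa using hα))
    have c2 : ∀ᶠ t : ℝ in 𝓝 0, 0 < b + t * v :=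
      (by fun_prop : ContinuousAt (fun t : ℝ => b + t * v) 0).eventually
        (lt_mem_nhds (by simpa using hβ))
    have c3 : ∀ᶠ t : ℝ in 𝓝 0, (a + t * u) + (b + t * v) < 1 :=
      (by fun_prop : ContinuousAt (fun t : ℝ => (a + t * u) + (b + t * v)) 0).eventually
        (gt_mem_nhds (by simpa using hab))
    obtain ⟨ε, hε, h⟩ := Metric.eventually_nhds_iff.mp (c1.and (c2.and c3))
    refine ⟨ε, hε, fun t ht => ?_⟩
    have := h (y := t) (by simpa [Real.dist_eq] using ht)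
    exact ⟨this.1, this.2.1, this.2.2⟩
  let S : Set ℂ := {z | |z.re| < ε}
  have hSo : IsOpen S := isOpen_lt (by fun_prop) continuous_const
  have hSc : IsPreconnected S := by
    have : S = Complex.reCLM ⁻¹' (Set.Ioo (-ε) ε) := by
      ext z
      simp [S, abs_lt]
    rw [this]
    exact ((convex_Ioo (-ε) ε).linear_preimage Complex.reLm).isPreconnected
  have hsub : S ⊆ {z | z.re ∈ interior (integrableExpSet (LX u v ξ) (M a b ξ))} := by
    intro z hz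
    have hsub2 : Set.Ioo (-ε) ε ⊆ integrableExpSet (LX u v ξ) (M a b ξ) := by
      intro t ht
      obtain ⟨k1, k2, k3⟩ := h1 t (abs_lt.mpr ht)
      exact mem_set k1 k2 k3 hξ
    exact interior_maximal hsub2 isOpen_Ioo (abs_lt.mp hz)
  have hF : AnalyticOnNhd ℂ (complexMGF (LX u v ξ) (M a b ξ)) S :=
    ProbabilityTheory.analyticOnNhd_complexMGF.mono hsub
  have hG : AnalyticOnNhd ℂ (G a b u v ξ) S := by
    refine DifferentiableOn.analyticOnNhd (fun z hz => ?_) hSo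
    obtain ⟨k1, k2, k3⟩ := h1 z.re hz
    exact (G_diff k1 k2 k3 hξ).differentiableWithinAt
  have hfr : ∃ᶠ z in 𝓝[≠] (0 : ℂ), complexMGF (LX u v ξ) (M a b ξ) z = G a b u v ξ z := by
    have ht : Tendsto (fun t : ℝ => (t : ℂ)) (𝓝[≠] 0) (𝓝[≠] 0) := by
      refine tendsto_nhdsWithin_of_tendsto_nhds_of_eventually_within _ ?_ ?_
      · exact (Complex.continuous_ofReal.tendsto' 0 0 (by simp)).mono_left nhdsWithin_le_nhds
      · filter_upwards [self_mem_nhdsWithin] with t ht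
        simpa using ht
    refine ht.frequently (Eventually.frequently ?_)
    have : ∀ᶠ t : ℝ in 𝓝[≠] 0, |t| < ε := by
      refine nhdsWithin_le_nhds ?_
      exact (continuous_abs.tendsto' (0 : ℝ) 0 (by simp)).eventually (gt_mem_nhds hε)
    filter_upwards [this] with t ht
    obtain ⟨k1, k2, k3⟩ := h1 t ht
    exact G_real k1 k2 k3 hξ
  have hEq := hF.eqOn_of_preconnected_of_frequently_eq hG hSc (z₀ := 0) (by simpa [S] using hε) hfr
  have hI : Complex.I ∈ S := by simpa [S] using hε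
  have hfin := hEq hI
  rw [mgf_eq] at hfin
  unfold G at hfin
  have e1 : (a : ℂ) + Complex.I * u = α := by
    rw [ha', hu', mul_comm]
    exact Complex.re_add_im α
  have e2 : (b : ℂ) + Complex.I * v = β := by
    rw [hb', hv', mul_comm]
    exact Complex.re_add_im β
  rw [e1, e2] at hfin
  exact hfin

theorem integ {α β ξ : ℂ} (hα : 0 < α.re) (hβ : 0 < β.re) (hαβ : (α + β).re < 1) (hξ : ξ ≠ 0) :
    Integrable (fun ζ : ℂ => (‖ζ‖ : ℂ) ^ (2 * α - 2) * (‖ξ - ζ‖ : ℂ) ^ (2 * β - 2)) := by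
  have hab : α.re + β.re < 1 := by simpa using hαβ
  have h := (real_case hα hβ hab hξ).1
  refine Integrable.mono' h ?_ ?_
  · refine Measurable.aestronglyMeasurable ?_
    fun_prop
  · filter_upwards [ae_ne ξ] with ζ hz
    have n0 : 0 < ‖ζ‖ := norm_pos_iff.mpr hz.1
    have n1 : 0 < ‖ξ - ζ‖ := norm_pos_iff.mpr hz.2
    rw [norm_mul, Complex.norm_cpow_eq_rpow_re_of_pos n0, Complex.norm_cpow_eq_rpow_re_of_pos n1]
    unfold w
    refine le_of_eq ?_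
    congr 2 <;> simp

end RieszCAux

open RieszCAux in
theorem rieszC : StmtRieszC := fun _ _ _ hα hβ hαβ hξ =>
  ⟨integ hα hβ hαβ hξ, main hα hβ hαβ hξ⟩

end Pool.Agent.Lib.MP_dd244f_an.Rp
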