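import Pool.Agent.Lib.MP_dd244f_an.Rp.StmtsH

set_option autoImplicit false

/-! (SCL) the marginals of a dilation-invariant measure. -/

namespace Pool.Agent.Lib.MP_dd244f_an.Rp
namespace SCLAux

open MeasureTheory Filter Topology
open scoped ENNReal NNReal

/-- change of variables for holomorphic maps -/
theorem cov {f f' : ℂ → ℂ} {S : Set ℂ} (hS : MeasurableSet S)
    (hf : ∀ z ∈ S, HasDerivAt f (f' z) z) (hi : Set.InjOn f S) (g : ℂ → ℝ≥0∞) :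
    ∫⁻ ζ in f '' S, g ζ = ∫⁻ z in S, ENNReal.ofReal (‖f' z‖ ^ 2) * g (f z) := by
  have h := lintegral_image_eq_lintegral_abs_det_fderiv_mul (μ := volume) (f := f)
    (f' := fun z => (ContinuousLinearMap.toSpanSingleton ℂ (f' z)).restrictScalars ℝ) hS
    (fun z hz => ((hf z hz).hasFDerivAt.restrictScalars ℝ).hasFDerivWithinAt) hi g
  rw [h]
  refine lintegral_congr_ae (ae_of_all _ fun z => ?_)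
  simp only
  congr 2
  rw [ContinuousLinearMap.det]
  have e : (((ContinuousLinearMap.toSpanSingleton ℂ (f' z)).restrictScalars ℝ : ℂ →L[ℝ] ℂ) :
      ℂ →ₗ[ℝ] ℂ) = (((ContinuousLinearMap.toSpanSingleton ℂ (f' z)) : ℂ →ₗ[ℂ] ℂ)).restrictScalars ℝ :=
    rfl
  rw [e, LinearMap.det_restrictScalars, Algebra.norm_complex_eq]
  have e2 : LinearMap.det ((ContinuousLinearMap.toSpanSingleton ℂ (f' z)) : ℂ →ₗ[ℂ] ℂ) = f' z := by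
    simp
  rw [e2]
  simp [Complex.normSq_eq_norm_sq]

theorem enorm_sq (z : ℂ) : ENNReal.ofReal (‖z‖ ^ 2) = ‖z‖ₑ ^ 2 := by
  rw [ENNReal.ofReal_pow (norm_nonneg _), ofReal_norm]

theorem ae_mem : ∀ᵐ z : ℂ, z ∈ ({0}ᶜ : Set ℂ) := by
  simp [ae_iff, measure_singleton]

theorem restr (g : ℂ → ℝ≥0∞) : ∫⁻ z in ({0}ᶜ : Set ℂ), g z = ∫⁻ z, g z := by
  rw [Measure.restrict_eq_self_of_ae_mem ae_mem]

theorem scale {c : ℂ} (hc : c ≠ 0) (φ : ℂ → ℝ≥0∞) :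
    ∫⁻ l : ℂ, φ (l * c) / ‖l‖ₑ ^ 2 = ∫⁻ ζ, φ ζ / ‖ζ‖ₑ ^ 2 := by
  have him : (fun l : ℂ => l * c) '' ({0}ᶜ : Set ℂ) = {0}ᶜ := by
    ext z
    constructor
    · rintro ⟨l, hl, rfl⟩
      exact mul_ne_zero hl hc
    · intro hz
      exact ⟨z / c, div_ne_zero hz hc, div_mul_cancel₀ z hc⟩
  have h := cov (f := fun l : ℂ => l * c) (f' := fun _ => c) (S := {0}ᶜ)
    (measurableSet_singleton 0).compl (fun z _ => by simpa using (hasDerivAt_id z).mul_const c)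
    (fun a _ b _ hab => mul_right_cancel₀ hc hab) (fun ζ => φ ζ / ‖ζ‖ₑ ^ 2)
  rw [him, restr, restr] at h
  rw [h]
  refine lintegral_congr_ae ?_
  filter_upwards [ae_mem] with l hl
  have hl0 : ‖l‖ₑ ^ 2 ≠ 0 := pow_ne_zero 2 (enorm_ne_zero.mpr hl)
  have hc0 : ‖c‖ₑ ^ 2 ≠ 0 := pow_ne_zero 2 (enorm_ne_zero.mpr hc)
  have hct : ‖c‖ₑ ^ 2 ≠ ⊤ := ENNReal.pow_ne_top enorm_ne_top
  rw [enorm_sq, enorm_mul, mul_pow, ← mul_div_assoc, mul_comm (‖l‖ₑ ^ 2),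
    ENNReal.mul_div_mul_left _ _ hc0 hct]

theorem inv_scale {c : ℂ} (hc : c ≠ 0) (ψ : ℂ → ℝ≥0∞) :
    ∫⁻ l : ℂ, ψ (l⁻¹ * c) / ‖l‖ₑ ^ 2 = ∫⁻ ζ, ψ ζ / ‖ζ‖ₑ ^ 2 := by
  have him : (fun l : ℂ => l⁻¹ * c) '' ({0}ᶜ : Set ℂ) = {0}ᶜ := by
    ext z
    constructor
    · rintro ⟨l, hl, rfl⟩
      exact mul_ne_zero (inv_ne_zero hl) hc
    · intro hz
      have hz' : z ≠ 0 := hz
      refine ⟨c / z, div_ne_zero hc hz, ?_⟩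
      simp only
      field_simp
  have h := cov (f := fun l : ℂ => l⁻¹ * c) (f' := fun l => -(l ^ 2)⁻¹ * c) (S := {0}ᶜ)
    (measurableSet_singleton 0).compl (fun z hz => (hasDerivAt_inv hz).mul_const c)
    (fun a _ b _ hab => inv_injective (mul_right_cancel₀ hc hab)) (fun ζ => ψ ζ / ‖ζ‖ₑ ^ 2)
  rw [him, restr, restr] at h
  rw [h]
  refine lintegral_congr_ae ?_
  filter_upwards [ae_mem] with l hl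
  have hl' : l ≠ 0 := hl
  have hl0 : ‖l‖ₑ ^ 2 ≠ 0 := pow_ne_zero 2 (enorm_ne_zero.mpr hl)
  have hlt : ‖l‖ₑ ^ 2 ≠ ⊤ := ENNReal.pow_ne_top enorm_ne_top
  have hc0 : ‖c‖ₑ ^ 2 ≠ 0 := pow_ne_zero 2 (enorm_ne_zero.mpr hc)
  have hct : ‖c‖ₑ ^ 2 ≠ ⊤ := ENNReal.pow_ne_top enorm_ne_top
  have e1 : ‖-(l ^ 2)⁻¹ * c‖ₑ = (‖l‖ₑ ^ 2)⁻¹ * ‖c‖ₑ := by
    rw [enorm_mul, enorm_neg, enorm_inv (pow_ne_zero 2 hl'), enorm_pow]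
  have e2 : ‖l⁻¹ * c‖ₑ = ‖l‖ₑ⁻¹ * ‖c‖ₑ := by
    rw [enorm_mul, enorm_inv hl']
  rw [enorm_sq, e1, e2]
  have hn0 : ‖l‖ₑ ≠ 0 := enorm_ne_zero.mpr hl
  have hnt : ‖l‖ₑ ≠ ⊤ := enorm_ne_top
  have e3 : (‖l‖ₑ⁻¹ * ‖c‖ₑ) ^ 2 = ‖c‖ₑ ^ 2 / ‖l‖ₑ ^ 2 := by
    rw [mul_pow, ← ENNReal.inv_pow, mul_comm, div_eq_mul_inv]
  have e4 : ((‖l‖ₑ ^ 2)⁻¹ * ‖c‖ₑ) ^ 2 = (‖c‖ₑ ^ 2 / ‖l‖ₑ ^ 2) * (‖l‖ₑ ^ 2)⁻¹ := by
    rw [div_eq_mul_inv]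
    ring
  rw [e3, e4]
  have h5 : ‖c‖ₑ ^ 2 / ‖l‖ₑ ^ 2 ≠ 0 := ENNReal.div_ne_zero.mpr ⟨hc0, hlt⟩
  have h6 : ‖c‖ₑ ^ 2 / ‖l‖ₑ ^ 2 ≠ ⊤ := ENNReal.div_ne_top hct hl0
  generalize ‖c‖ₑ ^ 2 / ‖l‖ₑ ^ 2 = D at h5 h6
  have e5 : D * (‖l‖ₑ ^ 2)⁻¹ * (ψ (l⁻¹ * c) / D) = (D * D⁻¹) * (ψ (l⁻¹ * c) * (‖l‖ₑ ^ 2)⁻¹) := by
    rw [div_eq_mul_inv]
    ring
  rw [e5, ENNReal.mul_inv_cancel h5 h6, one_mul, div_eq_mul_inv]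

end SCLAux

open SCLAux MeasureTheory ENNReal in
theorem scl : StmtSCL := by
  intro j m hm hinv v v' hv hv' hhom hhom' hne hne' ψ φ hψ hφ hone
  set K : ℝ≥0∞ := ∫⁻ ζ, ψ ζ / ‖ζ‖ₑ ^ 2 with hK
  have s1 : ∫⁻ X, ψ (v X) ∂m = ∫⁻ X, (∫⁻ l : ℂ, ψ (v X) * (φ (l * v' X) / ‖l‖ₑ ^ 2)) ∂m := by
    refine lintegral_congr_ae ?_
    filter_upwards [hne'] with X hX
    rw [lintegral_const_mul _ (by fun_prop), scale hX, hone, mul_one]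
  have s2 : ∫⁻ X, (∫⁻ l : ℂ, ψ (v X) * (φ (l * v' X) / ‖l‖ₑ ^ 2)) ∂m =
      ∫⁻ l : ℂ, ∫⁻ X, ψ (v X) * (φ (l * v' X) / ‖l‖ₑ ^ 2) ∂m := by
    rw [lintegral_lintegral_swap]
    refine Measurable.aemeasurable ?_
    fun_prop
  have s3 : ∫⁻ l : ℂ, ∫⁻ X, ψ (v X) * (φ (l * v' X) / ‖l‖ₑ ^ 2) ∂m =
      ∫⁻ l : ℂ, ∫⁻ X, φ (v' X) * (ψ (l⁻¹ * v X) / ‖l‖ₑ ^ 2) ∂m := by
    refine lintegral_congr_ae ?_
    filter_upwards [ae_mem] with l hl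
    have hl' : l ≠ 0 := hl
    have hmeas : Measurable fun X : XX j => ψ (v X) * (φ (l * v' X) / ‖l‖ₑ ^ 2) := by fun_prop
    conv_lhs => rw [← hinv l⁻¹ (inv_ne_zero hl'), lintegral_map hmeas (measurable_const_smul _)]
    refine lintegral_congr_ae (ae_of_all _ fun X => ?_)
    simp only
    rw [hhom, hhom', ← mul_assoc l, mul_inv_cancel₀ hl', one_mul, ← mul_div_assoc, ← mul_div_assoc,
      mul_comm]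
  have s4 : ∫⁻ l : ℂ, ∫⁻ X, φ (v' X) * (ψ (l⁻¹ * v X) / ‖l‖ₑ ^ 2) ∂m =
      ∫⁻ X, (∫⁻ l : ℂ, φ (v' X) * (ψ (l⁻¹ * v X) / ‖l‖ₑ ^ 2)) ∂m := by
    rw [lintegral_lintegral_swap]
    refine Measurable.aemeasurable ?_
    fun_prop
  have s5 : ∫⁻ X, (∫⁻ l : ℂ, φ (v' X) * (ψ (l⁻¹ * v X) / ‖l‖ₑ ^ 2)) ∂m = ∫⁻ X, φ (v' X) * K ∂m := by
    refine lintegral_congr_ae ?_
    filter_upwards [hne] with X hX
    rw [lintegral_const_mul _ (by fun_prop), inv_scale hX]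
  rw [s1, s2, s3, s4, s5, lintegral_mul_const _ (by fun_prop)]

end Pool.Agent.Lib.MP_dd244f_an.Rp
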