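import Pool.Agent.Lib.MP_dd244f_an.Rp.StmtsH
import Pool.Agent.Lib.MP_dd244f_an.Rp.Poi

/-!
(Sech): the Fourier transforms of the odd powers of `sech`; polynomials in `sech²` times `sech`
which are nonnegative have positive definite transforms.
-/

set_option autoImplicit false

namespace Pool.Agent.Lib.MP_dd244f_an.Rp

open MeasureTheory Filter Topology Set

namespace SechAux

/-- `sech ^ m` -/
noncomputable def fs (m : ℕ) (X : ℝ) : ℝ := 1 / Real.cosh X ^ m

lemma fs_nonneg (m : ℕ) (X : ℝ) : 0 ≤ fs m X := by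
  have := Real.cosh_pos X
  unfold fs; positivity

lemma fs_cont (m : ℕ) : Continuous (fs m) := by
  unfold fs
  apply Continuous.div continuous_const (by fun_prop)
  intro X
  have := Real.cosh_pos X
  positivity

lemma fs_le {m : ℕ} (hm : 1 ≤ m) (X : ℝ) : fs m X ≤ 2 * Real.exp (-1 * |X|) := by
  have h1 := Real.one_le_cosh X
  have h2 : Real.cosh X ≤ Real.cosh X ^ m := by
    calc Real.cosh X = Real.cosh X ^ 1 := (pow_one _).symm
      _ ≤ Real.cosh X ^ m := pow_le_pow_right₀ h1 hm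
  have h3 := PoiAux.cosh_ge X
  have h4 : 0 < Real.exp |X| / 2 := by positivity
  calc fs m X ≤ 1 / (Real.exp |X| / 2) :=
        one_div_le_one_div_of_le h4 (h3.trans h2)
    _ = 2 * Real.exp (-1 * |X|) := by
        rw [neg_one_mul, Real.exp_neg]
        field_simp

lemma fs_int {m : ℕ} (hm : 1 ≤ m) : Integrable (fs m) := by
  refine ((PoiAux.int_exp 1 one_pos).const_mul 2).mono' (fs_cont m).aestronglyMeasurable ?_
  refine Eventually.of_forall fun X => ?_
  rw [Real.norm_eq_abs, abs_of_nonneg (fs_nonneg m X)]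
  exact fs_le hm X

lemma norm_ex (Y X : ℝ) : ‖Complex.exp (Complex.I * (Y * X : ℝ))‖ = 1 := by
  rw [mul_comm]
  exact Complex.norm_exp_ofReal_mul_I _

lemma fsc_int {m : ℕ} (hm : 1 ≤ m) (Y : ℝ) :
    Integrable (fun X : ℝ => ((fs m X : ℝ) : ℂ) * Complex.exp (Complex.I * (Y * X : ℝ))) := by
  refine (fs_int hm).mono' ?_ (Eventually.of_forall fun X => ?_)
  · exact (Continuous.mul (Complex.continuous_ofReal.comp (fs_cont m))
      (by fun_prop)).aestronglyMeasurable
  · rw [norm_mul, norm_ex, mul_one, Complex.norm_real, Real.norm_eq_abs,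
      abs_of_nonneg (fs_nonneg m X)]

/-- the transform of `sech ^ m` -/
noncomputable def JJ (m : ℕ) (Y : ℝ) : ℂ :=
  ∫ X : ℝ, ((fs m X : ℝ) : ℂ) * Complex.exp (Complex.I * (Y * X : ℝ))

lemma der_fs (m : ℕ) (X : ℝ) : HasDerivAt (fs m) (-(m : ℝ) * Real.sinh X * fs (m + 1) X) X := by
  have hc := Real.cosh_pos X
  have h := ((Real.hasDerivAt_cosh X).fun_pow m).fun_inv (by positivity)
  have e : fs m = fun X => (Real.cosh X ^ m)⁻¹ := by
    ext X; rw [fs, one_div]
  rw [e]
  refine h.congr_deriv ?_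
  rw [fs]
  rcases Nat.eq_zero_or_pos m with rfl | hm
  · simp
  · obtain ⟨k, rfl⟩ : ∃ k, m = k + 1 := ⟨m - 1, by omega⟩
    simp only [Nat.add_sub_cancel]
    field_simp
    ring

lemma der2 (m : ℕ) (X : ℝ) : HasDerivAt (fun X => -(m : ℝ) * Real.sinh X * fs (m + 1) X)
    ((m : ℝ) ^ 2 * fs m X - m * (m + 1) * fs (m + 2) X) X := by
  have hc := Real.cosh_pos X
  have h := ((Real.hasDerivAt_sinh X).const_mul (-(m : ℝ))).mul (der_fs (m + 1) X)
  refine (h.congr_of_eventuallyEq (Eventually.of_forall fun z => rfl)).congr_deriv ?_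
  rw [fs, fs, fs]
  have h2 := Real.cosh_sq X
  have h3 : Real.sinh X ^ 2 = Real.cosh X ^ 2 - 1 := by linarith
  push_cast
  field_simp
  ring_nf
  rw [h3]
  ring

lemma der_ex (Y X : ℝ) : HasDerivAt (fun X : ℝ => Complex.exp (Complex.I * (Y * X : ℝ)))
    (Complex.exp (Complex.I * (Y * X : ℝ)) * (Complex.I * Y)) X := by
  have h1 : HasDerivAt (fun X : ℝ => (Complex.I * Y) * (X : ℂ)) (Complex.I * Y) X := by
    simpa using (Complex.ofRealCLM.hasDerivAt (x := X)).const_mul (Complex.I * Y)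
  have h2 : (fun X : ℝ => Complex.I * ((Y * X : ℝ) : ℂ)) = fun X : ℝ => (Complex.I * Y) * (X : ℂ) := by
    ext X; push_cast; ring
  have h3 : HasDerivAt (fun X : ℝ => Complex.I * ((Y * X : ℝ) : ℂ)) (Complex.I * Y) X := by
    rw [h2]; exact h1
  exact h3.cexp

lemma JJ_rec {m : ℕ} (hm : 1 ≤ m) (Y : ℝ) :
    JJ (m + 2) Y = (((m : ℝ) ^ 2 + Y ^ 2) / (m * (m + 1)) : ℝ) * JJ m Y := by
  set h : ℝ → ℂ := fun X => (((-(m : ℝ) * Real.sinh X * fs (m + 1) X : ℝ) : ℂ) -
    Complex.I * Y * ((fs m X : ℝ) : ℂ)) * Complex.exp (Complex.I * (Y * X : ℝ)) with hh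
  set h' : ℝ → ℂ := fun X => ((((m : ℝ) ^ 2 + Y ^ 2 : ℝ) : ℂ) * (((fs m X : ℝ) : ℂ) *
      Complex.exp (Complex.I * (Y * X : ℝ))) -
    ((m * (m + 1) : ℝ) : ℂ) * (((fs (m + 2) X : ℝ) : ℂ) *
      Complex.exp (Complex.I * (Y * X : ℝ)))) with hh'
  have hder : ∀ X, HasDerivAt h (h' X) X := by
    intro X
    have d1 := (der2 m X).ofReal_comp
    have d2 := ((der_fs m X).ofReal_comp).const_mul (Complex.I * Y)
    have d3 := (d1.sub d2).mul (der_ex Y X)
    refine (d3.congr_of_eventuallyEq (Eventually.of_forall fun z => rfl)).congr_deriv ?_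
    simp only [hh', Pi.sub_apply]
    push_cast
    have hI : Complex.I * Complex.I = -1 := Complex.I_mul_I
    linear_combination (-(Y : ℂ) ^ 2 * (fs m X : ℂ) * Complex.exp (Complex.I * (Y * X))) * hI
  have hint' : Integrable h' :=
    ((fsc_int hm Y).const_mul _).sub ((fsc_int (by omega) Y).const_mul _)
  have hint : Integrable h := by
    refine ((fs_int hm).const_mul ((m : ℝ) + |Y|)).mono' ?_ (Eventually.of_forall fun X => ?_)
    · apply Continuous.aestronglyMeasurable
      have c1 := fs_cont (m + 1)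
      have c2 := fs_cont m
      have c3 : Continuous (fun X : ℝ => ((-(m : ℝ) * Real.sinh X * fs (m + 1) X : ℝ) : ℂ)) :=
        Complex.continuous_ofReal.comp ((by fun_prop : Continuous fun X : ℝ =>
          -(m : ℝ) * Real.sinh X).mul c1)
      have c4 : Continuous (fun X : ℝ => Complex.I * Y * ((fs m X : ℝ) : ℂ)) :=
        continuous_const.mul (Complex.continuous_ofReal.comp c2)
      exact (c3.sub c4).mul (by fun_prop)
    · simp only [hh]
      rw [norm_mul, norm_ex, mul_one]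
      refine (norm_sub_le _ _).trans ?_
      have n1 : ‖((-(m : ℝ) * Real.sinh X * fs (m + 1) X : ℝ) : ℂ)‖ =
          (m : ℝ) * |Real.sinh X| * fs (m + 1) X := by
        rw [Complex.norm_real, Real.norm_eq_abs, abs_mul, abs_mul, abs_neg, Nat.abs_cast,
          abs_of_nonneg (fs_nonneg (m + 1) X)]
      have n2 : ‖Complex.I * Y * ((fs m X : ℝ) : ℂ)‖ = |Y| * fs m X := by
        rw [norm_mul, norm_mul, Complex.norm_I, one_mul, Complex.norm_real, Complex.norm_real,
          Real.norm_eq_abs, Real.norm_eq_abs, abs_of_nonneg (fs_nonneg m X)]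
      rw [n1, n2]
      have hc := Real.cosh_pos X
      have h1 : |Real.sinh X| ≤ Real.cosh X := by
        rw [abs_le]
        constructor
        · have := Real.exp_pos X
          rw [Real.sinh_eq, Real.cosh_eq]; linarith
        · exact (Real.sinh_lt_cosh X).le
      have h2 : |Real.sinh X| * fs (m + 1) X ≤ fs m X := by
        calc |Real.sinh X| * fs (m + 1) X ≤ Real.cosh X * fs (m + 1) X :=
              mul_le_mul_of_nonneg_right h1 (fs_nonneg _ _)
          _ = fs m X := by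
              rw [fs, fs, pow_succ]; field_simp
      have h3 : (0 : ℝ) ≤ m := Nat.cast_nonneg m
      nlinarith [mul_le_mul_of_nonneg_left h2 h3]
  have hz := integral_eq_zero_of_hasDerivAt_of_integrable hder hint' hint
  simp only [hh'] at hz
  rw [integral_sub ((fsc_int hm Y).const_mul _) ((fsc_int (by omega) Y).const_mul _),
    integral_const_mul, integral_const_mul] at hz
  have hm' : (m : ℝ) * (m + 1) ≠ 0 := by positivity
  have hm'' : (((m : ℝ) * (m + 1) : ℝ) : ℂ) ≠ 0 := by exact_mod_cast hm'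
  rw [Complex.ofReal_div, div_mul_eq_mul_div, eq_div_iff hm'']
  unfold JJ
  linear_combination -hz

lemma JJ_one (Y : ℝ) : JJ 1 Y = ((Real.pi / Real.cosh (Real.pi * Y / 2) : ℝ) : ℂ) := by
  have hpi := Real.pi_pos
  have key := poi.2 (-(Real.pi / 2)) Real.pi (1 / 2) (Real.exp (Real.pi / 2 * |Y|)) 0
    (fun z => Complex.exp (Y * z)) hpi (by norm_num) (by norm_num)
    (by apply Differentiable.diffContOnCl; fun_prop) (by
      intro z hz1 hz2
      rw [Complex.norm_exp, pow_zero, mul_one]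
      apply Real.exp_le_exp.2
      simp only [Complex.mul_re, Complex.ofReal_re, Complex.ofReal_im, zero_mul, sub_zero]
      have h1 : |z.re| ≤ Real.pi / 2 := abs_le.2 ⟨by linarith, by linarith⟩
      calc Y * z.re ≤ |Y * z.re| := le_abs_self _
        _ = |z.re| * |Y| := by rw [abs_mul, mul_comm]
        _ ≤ Real.pi / 2 * |Y| := mul_le_mul_of_nonneg_right h1 (abs_nonneg Y))
  have e0 : (-(Real.pi / 2) + (1 - 1 / 2) * Real.pi : ℝ) = 0 := by ring
  rw [e0] at key
  have e1 : (1 : ℝ) - 1 / 2 = 1 / 2 := by norm_num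
  rw [e1] at key
  simp only [Complex.ofReal_zero, mul_zero, Complex.exp_zero] at key
  have hpk : ∀ y : ℝ, pk Real.pi (1 / 2) y = 1 / (2 * Real.pi) * fs 1 y := by
    intro y
    unfold pk fs
    have a1 : Real.pi * (1 / 2) = Real.pi / 2 := by ring
    have a2 : Real.pi * y / Real.pi = y := by field_simp
    rw [a1, a2, Real.sin_pi_div_two, Real.cos_pi_div_two, add_zero, pow_one]
    have := Real.cosh_pos y
    field_simp
  have i1 : ∫ y : ℝ, ((pk Real.pi (1 / 2) y : ℝ) : ℂ) *
      Complex.exp (Y * (((-(Real.pi / 2) : ℝ) : ℂ) + Complex.I * y)) =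
      ((Real.exp (-(Real.pi * Y / 2)) / (2 * Real.pi) : ℝ) : ℂ) * JJ 1 Y := by
    unfold JJ
    rw [← integral_const_mul]
    congr 1
    ext y
    have a3 : (Y : ℂ) * (((-(Real.pi / 2) : ℝ) : ℂ) + Complex.I * y) =
        ((-(Real.pi * Y / 2) : ℝ) : ℂ) + Complex.I * (Y * y : ℝ) := by push_cast; ring
    rw [hpk, a3, Complex.exp_add, ← Complex.ofReal_exp]
    push_cast
    ring
  have i2 : ∫ y : ℝ, ((pk Real.pi (1 / 2) y : ℝ) : ℂ) *
      Complex.exp (Y * (((-(Real.pi / 2) : ℝ) : ℂ) + Real.pi + Complex.I * y)) =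
      ((Real.exp (Real.pi * Y / 2) / (2 * Real.pi) : ℝ) : ℂ) * JJ 1 Y := by
    unfold JJ
    rw [← integral_const_mul]
    congr 1
    ext y
    have a3 : (Y : ℂ) * (((-(Real.pi / 2) : ℝ) : ℂ) + Real.pi + Complex.I * y) =
        ((Real.pi * Y / 2 : ℝ) : ℂ) + Complex.I * (Y * y : ℝ) := by push_cast; ring
    rw [hpk, a3, Complex.exp_add, ← Complex.ofReal_exp]
    push_cast
    ring
  rw [i1, i2] at key
  have hc := Real.cosh_pos (Real.pi * Y / 2)
  have e2 : Real.cosh (Real.pi * Y / 2) =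
      (Real.exp (Real.pi * Y / 2) + Real.exp (-(Real.pi * Y / 2))) / 2 := Real.cosh_eq _
  have e3 : ((Real.cosh (Real.pi * Y / 2) : ℝ) : ℂ) * JJ 1 Y = (Real.pi : ℂ) := by
    rw [e2]
    have hpi' : (Real.pi : ℂ) ≠ 0 := by exact_mod_cast hpi.ne'
    push_cast at key ⊢
    field_simp at key ⊢
    linear_combination -key
  have hc' : ((Real.cosh (Real.pi * Y / 2) : ℝ) : ℂ) ≠ 0 := by exact_mod_cast hc.ne'
  rw [Complex.ofReal_div, eq_div_iff hc', mul_comm]
  exact e3

lemma JJ_odd (n : ℕ) (Y : ℝ) : JJ (2 * n + 1) Y = ((Real.pi / Real.cosh (Real.pi * Y / 2) *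
    ∏ j ∈ Finset.range n, (((2 * j + 1) ^ 2 + Y ^ 2) / ((2 * j + 1) * (2 * j + 2))) : ℝ) : ℂ) := by
  induction n with
  | zero => simpa using JJ_one Y
  | succ n ih =>
    have e : 2 * (n + 1) + 1 = (2 * n + 1) + 2 := by ring
    rw [e, JJ_rec (by omega), ih, Finset.prod_range_succ, ← Complex.ofReal_mul]
    congr 1
    push_cast
    ring

end SechAux

/-- (Sech) polynomials in `sech²` times `sech` -/
theorem sech (hP : StmtPDc) : StmtSech := by
  intro c N hc
  have hpi := Real.pi_pos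
  obtain ⟨-, -, -, -, -, -, hlast⟩ := hP
  refine hlast (fun X => ∑ n ∈ Finset.range N, (c n / Real.pi) * SechAux.fs (2 * n + 1) X) _ ?_ ?_ ?_
  · exact integrable_finsetSum _ fun n _ => (SechAux.fs_int (by omega)).const_mul _
  · intro X
    have hX := Real.cosh_pos X
    have h1 := Real.one_le_cosh X
    have hq0 : 0 ≤ 1 / Real.cosh X ^ 2 := by positivity
    have hq1 : 1 / Real.cosh X ^ 2 ≤ 1 := by
      rw [div_le_one (by positivity)]
      nlinarith
    have h2 := hc _ hq0 hq1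
    have e : ∑ n ∈ Finset.range N, (c n / Real.pi) * SechAux.fs (2 * n + 1) X =
        1 / (Real.pi * Real.cosh X) *
          ∑ n ∈ Finset.range N, c n * (1 / Real.cosh X ^ 2) ^ n := by
      rw [Finset.mul_sum]
      refine Finset.sum_congr rfl fun n _ => ?_
      rw [SechAux.fs, pow_succ, pow_mul, one_div_pow]
      field_simp
    rw [e]
    positivity
  · intro y
    have hcy := Real.cosh_pos (Real.pi * y / 2)
    have e : ∀ X : ℝ, (((∑ n ∈ Finset.range N, (c n / Real.pi) *
        SechAux.fs (2 * n + 1) X : ℝ) : ℂ)) * Complex.exp (Complex.I * (y * X : ℝ)) =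
        ∑ n ∈ Finset.range N, ((c n / Real.pi : ℝ) : ℂ) *
          (((SechAux.fs (2 * n + 1) X : ℝ) : ℂ) * Complex.exp (Complex.I * (y * X : ℝ))) := by
      intro X
      rw [Complex.ofReal_sum, Finset.sum_mul]
      refine Finset.sum_congr rfl fun n _ => ?_
      rw [Complex.ofReal_mul]
      ring
    simp_rw [e]
    rw [integral_finsetSum _ fun n _ => (SechAux.fsc_int (by omega) y).const_mul _]
    have e2 : ∀ n ∈ Finset.range N, ∫ X : ℝ, ((c n / Real.pi : ℝ) : ℂ) *
          (((SechAux.fs (2 * n + 1) X : ℝ) : ℂ) * Complex.exp (Complex.I * (y * X : ℝ))) =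
        (((c n * (∏ j ∈ Finset.range n, (((2 * j + 1) ^ 2 + y ^ 2) / ((2 * j + 1) * (2 * j + 2))))) /
          Real.cosh (Real.pi * y / 2) : ℝ) : ℂ) := by
      intro n _
      rw [integral_const_mul]
      have := SechAux.JJ_odd n y
      unfold SechAux.JJ at this
      rw [this, ← Complex.ofReal_mul]
      congr 1
      field_simp
    rw [Finset.sum_congr rfl e2, ← Complex.ofReal_sum, Finset.sum_div]

end Pool.Agent.Lib.MP_dd244f_an.Rp
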