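import Pool.Agent.Lib.MP_dd244f_an.Rp.Stmts
import Pool.Agent.Lib.MP_dd244f_an.Even.QInt

/-!
(Sp) square function inequalities for real `p > 2`: interpolation between `2` and an even exponent.
-/

set_option autoImplicit false

namespace Pool.Agent.Lib.MP_dd244f_an.Rp

open MeasureTheory Filter Topology Finset
open Pool.Agent.Lib.MP_dd244f_an.Joint (st ct Mst ratio)
open Pool.Agent.Lib.MP_dd244f_an.Four
open Pool.Agent.Lib.MP_dd244f_an.Even
open scoped ENNReal NNReal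

namespace SpP

/-- the square function of `f`, convolution form -/
noncomputable def Sf (A : Finset ℤ) (f : ℂ → ℂ) (x : ℂ) : ℝ :=
  ∑ a ∈ A, ‖∫ y, QI.kn 0 a (a + 1) (x - y) * f y‖ ^ 2

/-- the square function, Fourier side -/
noncomputable def Sg (A : Finset ℤ) (g : ℂ → ℂ) (x : ℂ) : ℝ :=
  ∑ a ∈ A, ‖iF (cut (sh a) g) x‖ ^ 2

lemma mg_zero (g : ℂ → ℂ) : mg 0 g = g := by
  funext ζ
  simp [mg, mm]

lemma Sf_nonneg (A : Finset ℤ) (f : ℂ → ℂ) (x : ℂ) : 0 ≤ Sf A f x :=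
  Finset.sum_nonneg fun _ _ => by positivity

lemma Sg_nonneg (A : Finset ℤ) (g : ℂ → ℂ) (x : ℂ) : 0 ≤ Sg A g x :=
  Finset.sum_nonneg fun _ _ => by positivity

lemma S_eq (hF : StmtFac) (hDe : StmtDens) (A : Finset ℤ) (f : ℂ → ℂ) (hf : CC f) :
    ∀ᶠ R : ℕ in atTop, ∀ x, Sg A (QI.GR f R) x = Sf A f x := by
  have h1 : ∀ a ∈ A, ∀ᶠ R : ℕ in atTop, a + 1 + 1 ≤ (R : ℤ) ∧ 1 - a ≤ (R : ℤ) := by
    intro a _
    have ht : Tendsto (fun R : ℕ => (R : ℤ)) atTop atTop := tendsto_natCast_atTop_atTop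
    exact (ht.eventually_ge_atTop _).and (ht.eventually_ge_atTop _)
  rw [← Filter.eventually_all_finset] at h1
  filter_upwards [h1] with R hR x
  unfold Sg Sf
  refine Finset.sum_congr rfl fun a ha => ?_
  obtain ⟨r1, r2⟩ := hR a ha
  have e := QI.cut_GR hF (a := a) (b := a + 1) (by omega) r1 r2 0 f
  rw [mg_zero] at e
  have e0 : sh a = bd a (a + 1) := rfl
  rw [e0, e, (hDe.2 0 a (a + 1)).2.2.2.1 f hf x]
  rfl

lemma sh_nonneg (hF : StmtFac) (a : ℤ) (ζ : ℂ) : 0 ≤ sh a ζ := by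
  unfold sh bd
  rcases le_or_gt ‖ζ‖ ((2 : ℝ) ^ (a + 1)) with h | h
  · rw [hF.2.1 _ _ h]
    linarith [(hF.1 a ζ).2]
  · have h0 : (0 : ℝ) < (2 : ℝ) ^ a := by positivity
    rw [zpow_add_one₀ (by norm_num)] at h
    rw [hF.2.2.1 a ζ (by nlinarith)]
    linarith [(hF.1 (a + 1) ζ).1]

lemma sum_sh_le (hF : StmtFac) (A : Finset ℤ) (ζ : ℂ) : ∑ a ∈ A, sh a ζ ≤ 1 := by
  obtain ⟨m, k, hmk⟩ : ∃ (m : ℤ) (k : ℕ), A ⊆ (Finset.range k).image (fun i : ℕ => m + i) := by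
    rcases A.eq_empty_or_nonempty with h | h
    · exact ⟨0, 0, by simp [h]⟩
    · refine ⟨A.min' h, (A.max' h - A.min' h + 1).toNat, fun a ha => ?_⟩
      have h1 := A.min'_le a ha
      have h2 := A.le_max' a ha
      rw [Finset.mem_image]
      exact ⟨(a - A.min' h).toNat, by rw [Finset.mem_range]; omega, by omega⟩
  calc ∑ a ∈ A, sh a ζ ≤ ∑ a ∈ (Finset.range k).image (fun i : ℕ => m + i), sh a ζ :=
        Finset.sum_le_sum_of_subset_of_nonneg hmk fun a _ _ => sh_nonneg hF a ζ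
    _ = ∑ i ∈ Finset.range k, sh (m + i) ζ := by
        rw [Finset.sum_image]
        intro i _ j _ hij
        simpa using hij
    _ = lo (m + k) ζ - lo m ζ := by
        induction k with
        | zero => simp
        | succ k ih =>
          have ih' : ∀ k : ℕ, ∑ i ∈ Finset.range k, sh (m + i) ζ = lo (m + k) ζ - lo m ζ := by
            intro k
            induction k with
            | zero => simp
            | succ k ih2 =>
              rw [Finset.sum_range_succ, ih2]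
              unfold sh bd
              push_cast
              rw [← add_assoc]
              ring
          exact ih' (k + 1)
    _ ≤ 1 := by linarith [(hF.1 (m + k) ζ).2, (hF.1 m ζ).1]

lemma fF_eq (f : ℂ → ℂ) (ζ : ℂ) : fF f ζ = iF f (-ζ) := by
  unfold fF iF
  refine integral_congr_ae (ae_of_all _ fun x => ?_)
  simp only
  congr 1
  unfold ch
  congr 1
  simp only [Complex.neg_re, Complex.neg_im]
  push_cast
  ring

lemma cc_memLp {f : ℂ → ℂ} (hf : CC f) (q : ℝ≥0∞) : MemLp f q volume :=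
  hf.1.memLp_of_hasCompactSupport hf.2

lemma plan (hL2 : StmtL2) {f : ℂ → ℂ} (hf : CC f) :
    Integrable (fun ζ => ‖fF f ζ‖ ^ 2) ∧ ∫ ζ, ‖fF f ζ‖ ^ 2 = ∫ x, ‖f x‖ ^ 2 := by
  obtain ⟨h1, h2⟩ := hL2 f (memLp_one_iff_integrable.1 (cc_memLp hf 1)) (cc_memLp hf 2)
  have h3 : Integrable (fun ζ => ‖iF f ζ‖ ^ 2) := h1.integrable_norm_pow (by norm_num)
  simp only [fF_eq]
  refine ⟨h3.comp_neg, ?_⟩
  rw [integral_neg_eq_self (fun ζ => ‖iF f ζ‖ ^ 2), h2]

lemma hyp0 (hB : StmtBase) (hF : StmtFac) (hL2 : StmtL2) (hDe : StmtDens) (A : Finset ℤ)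
    (f : ℂ → ℂ) (hf : CC f) : ∫ x, Sf A f x ≤ ∫ x, ‖f x‖ ^ 2 := by
  obtain ⟨R, hR⟩ := (S_eq hF hDe A f hf).exists
  have hcc : CC (QI.GR f R) := QI.cc_GR hDe f hf R
  have e1 : (fun x => Sf A f x) = fun x => Sg A (QI.GR f R) x := by
    funext x; exact (hR x).symm
  rw [e1]
  unfold Sg
  have c : ∀ a, CC (cut (sh a) (QI.GR f R)) := fun a => (hF.2.2.2.2.1 _ a a hcc).2.2
  rw [integral_finsetSum _ fun a _ => (hB.1 _ (c a)).2.2.1]
  have e2 : ∀ a ∈ A, ∫ x, ‖iF (cut (sh a) (QI.GR f R)) x‖ ^ 2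
      = ∫ ζ, ‖cut (sh a) (QI.GR f R) ζ‖ ^ 2 := fun a _ => (hB.1 _ (c a)).2.2.2.2
  rw [Finset.sum_congr rfl e2]
  have hint : ∀ a ∈ A, Integrable (fun ζ => ‖cut (sh a) (QI.GR f R) ζ‖ ^ 2) := fun a _ =>
    (cc_memLp (c a) 2).integrable_norm_pow (by norm_num)
  rw [← integral_finsetSum _ hint, ← (plan hL2 hf).2]
  refine integral_mono (integrable_finsetSum _ hint) (plan hL2 hf).1 fun ζ => ?_
  simp only
  have h1 : ∀ a ∈ A, ‖cut (sh a) (QI.GR f R) ζ‖ ^ 2 ≤ sh a ζ * ‖fF f ζ‖ ^ 2 := by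
    intro a _
    have s0 := sh_nonneg hF a ζ
    have s1 : sh a ζ ≤ 1 := by
      have := sum_sh_le hF {a} ζ
      simpa using this
    have b0 : 0 ≤ bd (-(R : ℤ)) R ζ := by
      unfold bd
      rcases le_or_gt ‖ζ‖ ((2 : ℝ) ^ (R : ℤ)) with h | h
      · rw [hF.2.1 _ _ h]
        linarith [(hF.1 (-(R : ℤ)) ζ).2]
      · rcases Nat.eq_zero_or_pos R with h0 | h0
        · subst h0; simp
        · have h2 : (0 : ℝ) < (2 : ℝ) ^ (-(R : ℤ)) := by positivity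
          have h3 : (2 : ℝ) ^ (-(R : ℤ) + 1) ≤ (2 : ℝ) ^ (R : ℤ) :=
            zpow_le_zpow_right₀ one_le_two (by omega)
          rw [zpow_add_one₀ (by norm_num)] at h3
          rw [hF.2.2.1 (-(R : ℤ)) ζ (by nlinarith)]
          linarith [(hF.1 (R : ℤ) ζ).1]
    have b1 : bd (-(R : ℤ)) R ζ ≤ 1 := by
      unfold bd
      linarith [(hF.1 (R : ℤ) ζ).2, (hF.1 (-(R : ℤ)) ζ).1]
    unfold QI.GR cut
    rw [norm_mul, norm_mul, Complex.norm_real, Complex.norm_real, Real.norm_of_nonneg s0,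
      Real.norm_of_nonneg b0, mul_pow, mul_pow]
    have k1 : sh a ζ ^ 2 ≤ sh a ζ := by nlinarith
    have k2 : bd (-(R : ℤ)) R ζ ^ 2 ≤ 1 := by nlinarith
    have k3 : 0 ≤ ‖fF f ζ‖ ^ 2 := by positivity
    calc sh a ζ ^ 2 * (bd (-(R : ℤ)) R ζ ^ 2 * ‖fF f ζ‖ ^ 2)
        ≤ sh a ζ * (1 * ‖fF f ζ‖ ^ 2) := by gcongr
      _ = _ := by ring
  calc ∑ a ∈ A, ‖cut (sh a) (QI.GR f R) ζ‖ ^ 2 ≤ ∑ a ∈ A, sh a ζ * ‖fF f ζ‖ ^ 2 :=
        Finset.sum_le_sum h1
    _ = (∑ a ∈ A, sh a ζ) * ‖fF f ζ‖ ^ 2 := by rw [Finset.sum_mul]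
    _ ≤ 1 * ‖fF f ζ‖ ^ 2 := by
        gcongr
        exact sum_sh_le hF A ζ
    _ = _ := one_mul _

lemma hyp1 (hF : StmtFac) (hDe : StmtDens) {C : ℝ} (k : ℕ) (hk : 1 ≤ k)
    (hS : ∀ (A : Finset ℤ) (g : ℂ → ℂ), CC g →
      ∫ x, (∑ a ∈ A, ‖iF (cut (sh a) g) x‖ ^ 2) ^ (k + 1) ≤ C * NK (k + 1) g)
    (A : Finset ℤ) (f : ℂ → ℂ) (hf : CC f) :
    ∫ x, Sf A f x ^ (k + 1) ≤ C * ∫ x, ‖f x‖ ^ (2 * (k + 1)) := by
  have hlim : Tendsto (fun R : ℕ => C * NK (k + 1) (QI.GR f R)) atTop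
      (𝓝 (C * ∫ x, ‖f x‖ ^ (2 * (k + 1)))) := (QI.tend hDe k hk f hf).const_mul C
  refine ge_of_tendsto hlim ?_
  filter_upwards [S_eq hF hDe A f hf] with R hR
  refine le_trans (le_of_eq ?_) (hS A (QI.GR f R) (QI.cc_GR hDe f hf R))
  refine integral_congr_ae (ae_of_all _ fun x => ?_)
  have := hR x
  simp only [← this]
  rfl

/-- the interpolated bound, `f` in `C_c` -/
lemma interp (hRT : StmtRTL) (hB : StmtBase) (hF : StmtFac) (hL2 : StmtL2) (hDe : StmtDens)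
    {C : ℝ} (hC : 0 < C) (k : ℕ) (hk : 1 ≤ k)
    (hS : ∀ (A : Finset ℤ) (g : ℂ → ℂ), CC g →
      ∫ x, (∑ a ∈ A, ‖iF (cut (sh a) g) x‖ ^ 2) ^ (k + 1) ≤ C * NK (k + 1) g)
    {p : ℝ} (hp : 2 < p) (hpk : p ≤ 2 * ((k : ℝ) + 1)) :
    ∃ C' : ℝ, 0 < C' ∧ ∀ (A : Finset ℤ) (f : ℂ → ℂ), CC f →
      Integrable (fun x => Sf A f x ^ (p / 2)) ∧
      ∫ x, Sf A f x ^ (p / 2) ≤ C' * ∫ x, ‖f x‖ ^ p := by
  have hk0 : (0 : ℝ) < k := by exact_mod_cast hk
  set p₁ : ℝ := 2 * ((k : ℝ) + 1) with hp₁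
  have hp₁2 : 2 < p₁ := by rw [hp₁]; linarith
  set τ : ℝ := (1 / 2 - 1 / p) / (1 / 2 - 1 / p₁) with hτ
  have hd : 0 < 1 / 2 - 1 / p₁ := by
    have := one_div_lt_one_div_of_lt (by norm_num : (0 : ℝ) < 2) hp₁2
    linarith
  have hn : 0 ≤ 1 / 2 - 1 / p := by
    have := one_div_lt_one_div_of_lt (by norm_num : (0 : ℝ) < 2) hp
    linarith
  have hτ0 : 0 ≤ τ := div_nonneg hn hd.le
  have hτ1 : τ ≤ 1 := by
    rw [hτ, div_le_one hd]
    have := one_div_le_one_div_of_le (by linarith : (0 : ℝ) < p) hpk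
    linarith
  have hτe : 1 / p = (1 - τ) / 2 + τ / p₁ := by
    have h1 : τ * (1 / 2 - 1 / p₁) = 1 / 2 - 1 / p := div_mul_cancel₀ _ hd.ne'
    have h2 : (1 - τ) / 2 + τ / p₁ = 1 / 2 - τ * (1 / 2 - 1 / p₁) := by ring
    rw [h2, h1]
    ring
  set M₁ : ℝ := C ^ (1 / p₁) with hM₁
  have hM₁0 : 0 < M₁ := Real.rpow_pos_of_pos hC _
  refine ⟨(1 ^ (1 - τ) * M₁ ^ τ) ^ p, by positivity, fun A f hf => ?_⟩
  refine hRT A (fun a => QI.kn 0 a (a + 1)) 2 p₁ p 1 M₁ τ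
    (fun a _ => ⟨(hDe.2 0 _ _).1, (hDe.2 0 _ _).2.1, (hDe.2 0 _ _).2.2.1⟩) le_rfl hp₁2.le
    one_pos hM₁0 hτ0 hτ1 hτe ?_ ?_ f hf
  · intro f' hf'
    have h1 := hyp0 hB hF hL2 hDe A f' hf'
    have e1 : (2 : ℝ) / 2 = 1 := by norm_num
    have e4 : ∀ (φ : ℂ → ℂ) (x : ℂ), ‖φ x‖ ^ (2 : ℝ) = ‖φ x‖ ^ 2 := fun φ x => by
      rw [← Real.rpow_natCast]; norm_num
    simp only [e1, Real.rpow_one, e4, Real.one_rpow, one_mul]
    exact h1
  · intro f' hf'
    have h1 := hyp1 hF hDe k hk hS A f' hf'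
    have e1 : p₁ / 2 = ((k + 1 : ℕ) : ℝ) := by rw [hp₁]; push_cast; ring
    have e3 : M₁ ^ p₁ = C := by
      rw [hM₁, ← Real.rpow_mul hC.le, one_div_mul_cancel (by linarith), Real.rpow_one]
    have e4 : ∀ (φ : ℂ → ℂ) (x : ℂ), ‖φ x‖ ^ p₁ = ‖φ x‖ ^ (2 * (k + 1)) := fun φ x => by
      rw [← Real.rpow_natCast, hp₁]
      congr 1
      push_cast
      ring
    rw [e3]
    simp only [e1, Real.rpow_natCast, e4]
    exact h1

lemma Sf_tendsto (hF : StmtFac) (hDe : StmtDens) (A : Finset ℤ) (F : ℂ → ℂ) (hFc : Continuous F)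
    {B : ℝ} (hB : ∀ x, ‖F x‖ ≤ B) (x : ℂ) :
    Tendsto (fun j : ℕ => Sf A (cut (lo (j : ℤ)) F) x) atTop (𝓝 (Sf A F x)) := by
  unfold Sf
  refine tendsto_finsetSum _ fun a _ => ?_
  exact ((QI.conv_tendsto hF _ F (hDe.2 0 _ _).1 (hDe.2 0 _ _).2.1 hFc hB x).norm).pow 2

lemma Sf_iF (hDe : StmtDens) (A : Finset ℤ) (g : ℂ → ℂ) (hg : CC g) (x : ℂ) :
    Sf A (iF g) x = Sg A g x := by
  unfold Sf Sg
  refine Finset.sum_congr rfl fun a _ => ?_
  have e := (hDe.2 0 a (a + 1)).2.2.2.2 g hg x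
  rw [mg_zero] at e
  have e0 : sh a = bd a (a + 1) := rfl
  rw [e0, e]
  rfl

lemma np_int (hB : StmtBase) {p : ℝ} (hp : 2 ≤ p) {g : ℂ → ℂ} (hg : CC g) :
    Integrable (fun x => ‖iF g x‖ ^ p) := by
  obtain ⟨hFc, ⟨B, hBd⟩, hF2, -, -⟩ := hB.1 g hg
  have hc : Continuous fun x => ‖iF g x‖ ^ p :=
    hFc.norm.rpow_const fun x => Or.inr (by linarith)
  apply (hF2.const_mul (B ^ (p - 2))).mono' hc.aestronglyMeasurable
  refine ae_of_all _ fun x => ?_
  have h0 : 0 ≤ ‖iF g x‖ ^ p := Real.rpow_nonneg (norm_nonneg _) _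
  rw [Real.norm_of_nonneg h0]
  rcases eq_or_lt_of_le (norm_nonneg (iF g x)) with h1 | h1
  · rw [← h1, Real.zero_rpow (by linarith)]
    simp
  · have h2 : ‖iF g x‖ ^ p = ‖iF g x‖ ^ (p - 2) * ‖iF g x‖ ^ 2 := by
      rw [← Real.rpow_natCast, ← Real.rpow_add h1]
      congr 1
      push_cast
      ring
    rw [h2]
    gcongr
    exact hBd x

lemma sum_rpow_le (A : Finset ℤ) (t : ℤ → ℝ) (ht : ∀ a ∈ A, 0 ≤ t a) {q : ℝ} (hq : 1 ≤ q) :
    ∑ a ∈ A, t a ^ q ≤ (∑ a ∈ A, t a) ^ q := by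
  classical
  induction A using Finset.induction_on with
  | empty => simp [Real.zero_rpow (by linarith : q ≠ 0)]
  | insert b s hb ih =>
    rw [Finset.sum_insert hb, Finset.sum_insert hb]
    have h1 : 0 ≤ t b := ht b (Finset.mem_insert_self _ _)
    have h2 : 0 ≤ ∑ a ∈ s, t a :=
      Finset.sum_nonneg fun a ha => ht a (Finset.mem_insert_of_mem ha)
    have h3 := ih fun a ha => ht a (Finset.mem_insert_of_mem ha)
    exact (add_le_add_right h3 _).trans (Real.add_rpow_le_rpow_add h1 h2 hq)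

end SpP

open SpP in
/-- square function inequalities for real `p > 2` -/
theorem sp (hR : StmtRTL) (hSh : Even.StmtShK) (hD : StmtDDr) (hDens : Even.StmtDens)
    (hL2 : Four.StmtL2) (hB : Four.StmtBase) (hF : Four.StmtFac) (hKK : Four.StmtKK) :
    StmtSp := by
  intro p hp
  set k : ℕ := ⌈p⌉₊ with hk
  have hk1 : 1 ≤ k := Nat.one_le_iff_ne_zero.2 (by
    rw [hk]; exact (Nat.ceil_pos.2 (by linarith)).ne')
  have hpk : p ≤ 2 * ((k : ℝ) + 1) := by
    have := Nat.le_ceil p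
    rw [← hk] at this
    linarith
  obtain ⟨C₁, hC₁, hS⟩ := hSh k hk1
  obtain ⟨C, hC, hI⟩ := interp hR hB hF hL2 hDens hC₁ k hk1 (fun A g hg => (hS A g hg).2.1) hp hpk
  obtain ⟨D, hDD⟩ := hD (p / 2) (by linarith)
  refine ⟨C + D * C, by positivity, fun A g hg => ?_⟩
  obtain ⟨hFc, ⟨B, hBd⟩, hF2, -, -⟩ := hB.1 g hg
  have hexp : (0 : ℝ) ≤ p / 2 := by linarith
  have hNi := np_int hB hp.le hg
  have hN0 : 0 ≤ Np p g := integral_nonneg fun x => Real.rpow_nonneg (norm_nonneg _) _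
  have cc : ∀ a, CC (cut (sh a) g) := fun a => (hF.2.2.2.2.1 _ a a hg).2.2
  have hSc : Continuous fun x => Sg A g x := by
    unfold Sg
    exact continuous_finsetSum _ fun a _ => (hB.1 _ (cc a)).1.norm.pow 2
  have hPc : Continuous fun x => Sg A g x ^ (p / 2) :=
    Continuous.rpow_const hSc fun x => Or.inr hexp
  -- the square function
  have main : Integrable (fun x => Sg A g x ^ (p / 2)) ∧ ∫ x, Sg A g x ^ (p / 2) ≤ C * Np p g := by
    refine QI.fatou (fun j x => Sf A (cut (lo (j : ℤ)) (iF g)) x ^ (p / 2))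
      (fun x => Sg A g x ^ (p / 2)) (by positivity) ?_ ?_ ?_ hPc ?_
    · intro j
      exact (hI A _ (QI.cc_cut hF _ _ hFc)).1
    · intro j x
      exact Real.rpow_nonneg (Sf_nonneg _ _ _) _
    · intro j
      refine (hI A _ (QI.cc_cut hF _ _ hFc)).2.trans ?_
      have h1 : ∫ x, ‖cut (lo (j : ℤ)) (iF g) x‖ ^ p ≤ Np p g := by
        unfold Np
        apply integral_mono_of_nonneg
          (ae_of_all _ fun x => Real.rpow_nonneg (norm_nonneg _) _) hNi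
        refine ae_of_all _ fun x => ?_
        exact Real.rpow_le_rpow (norm_nonneg _) (QI.cut_norm_le hF _ _ x) (by linarith)
      gcongr
    · intro x
      have h1 := Sf_tendsto hF hDens A (iF g) hFc hBd x
      rw [Sf_iF hDens A g hg x] at h1
      exact h1.rpow_const (Or.inr hexp)
  have hle : C * Np p g ≤ (C + D * C) * Np p g := by
    have : 0 ≤ (D : ℝ) * C * Np p g := by positivity
    linarith
  -- the averaged square function
  have hφm : ∀ a, Measurable (fun y => ENNReal.ofReal (‖iF (cut (sh a) g) y‖ ^ 2)) := fun a =>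
    ((hB.1 _ (cc a)).1.norm.pow 2).measurable.ennreal_ofReal
  have hq : ∀ a x, ENNReal.ofReal (qa a g x) = ∫⁻ y, ENNReal.ofReal (KK ((2 : ℝ) ^ (-a)) (x - y)) *
      ENNReal.ofReal (‖iF (cut (sh a) g) y‖ ^ 2) := by
    intro a x
    have h2 : (0 : ℝ) < (2 : ℝ) ^ (-a) := by positivity
    obtain ⟨hi, -, hpos⟩ := hKK.1 _ h2
    have hKc : Continuous (KK ((2 : ℝ) ^ (-a))) := by
      unfold KK
      refine Continuous.div (by fun_prop) (by fun_prop) (fun x => ?_)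
      positivity
    have hint : Integrable (fun y => KK ((2 : ℝ) ^ (-a)) (x - y) * ‖iF (cut (sh a) g) y‖ ^ 2) := by
      refine ((hB.1 _ (cc a)).2.2.1.const_mul (1 / ((2 : ℝ) ^ (-a)) ^ 2)).mono'
        ((hKc.comp (continuous_const.sub continuous_id)).mul
          ((hB.1 _ (cc a)).1.norm.pow 2)).aestronglyMeasurable (ae_of_all _ fun y => ?_)
      have h3 := hpos (x - y)
      have h4 : 0 ≤ ‖iF (cut (sh a) g) y‖ ^ 2 := by positivity
      rw [norm_mul, Real.norm_of_nonneg h3.1.le, Real.norm_of_nonneg h4]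
      exact mul_le_mul_of_nonneg_right h3.2 h4
    unfold qa
    rw [ofReal_integral_eq_lintegral_ofReal hint (ae_of_all _ fun y =>
      mul_nonneg (hpos _).1.le (by positivity))]
    refine lintegral_congr fun y => ?_
    rw [ENNReal.ofReal_mul (hpos _).1.le]
  have hq0 : ∀ a x, 0 ≤ qa a g x := by
    intro a x
    unfold qa
    have h2 : (0 : ℝ) < (2 : ℝ) ^ (-a) := by positivity
    exact integral_nonneg fun y => mul_nonneg ((hKK.1 _ h2).2.2 _).1.le (by positivity)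
  have hs0 : ∀ x, 0 ≤ ∑ a ∈ A, qa a g x := fun x => Finset.sum_nonneg fun a _ => hq0 a x
  have e1 : ∀ x, ENNReal.ofReal ((∑ a ∈ A, qa a g x) ^ (p / 2)) =
      (∑ a ∈ A, ∫⁻ y, ENNReal.ofReal (KK ((2 : ℝ) ^ (-a)) (x - y)) *
        ENNReal.ofReal (‖iF (cut (sh a) g) y‖ ^ 2)) ^ (p / 2) := by
    intro x
    rw [← ENNReal.ofReal_rpow_of_nonneg (hs0 x) hexp,
      ENNReal.ofReal_sum_of_nonneg fun a _ => hq0 a x]
    congr 1
    exact Finset.sum_congr rfl fun a _ => hq a x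
  have e2 : ∀ x, (∑ a ∈ A, ENNReal.ofReal (‖iF (cut (sh a) g) x‖ ^ 2)) ^ (p / 2) =
      ENNReal.ofReal (Sg A g x ^ (p / 2)) := by
    intro x
    rw [← ENNReal.ofReal_rpow_of_nonneg (Sg_nonneg _ _ _) hexp]
    unfold Sg
    rw [ENNReal.ofReal_sum_of_nonneg fun a _ => by positivity]
  have hDA := hDD A (fun a y => ENNReal.ofReal (‖iF (cut (sh a) g) y‖ ^ 2)) hφm
  have hb : ∫⁻ x, ENNReal.ofReal ((∑ a ∈ A, qa a g x) ^ (p / 2)) ≤
      ENNReal.ofReal (D * C * Np p g) := by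
    calc ∫⁻ x, ENNReal.ofReal ((∑ a ∈ A, qa a g x) ^ (p / 2))
        = _ := lintegral_congr e1
      _ ≤ _ := hDA
      _ = D * ∫⁻ x, ENNReal.ofReal (Sg A g x ^ (p / 2)) := by
          congr 1
          exact lintegral_congr e2
      _ = D * ENNReal.ofReal (∫ x, Sg A g x ^ (p / 2)) := by
          rw [ofReal_integral_eq_lintegral_ofReal main.1
            (ae_of_all _ fun x => Real.rpow_nonneg (Sg_nonneg _ _ _) _)]
      _ ≤ D * ENNReal.ofReal (C * Np p g) := by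
          gcongr
          exact main.2
      _ = ENNReal.ofReal (D * C * Np p g) := by
          rw [mul_assoc, ENNReal.ofReal_mul (NNReal.coe_nonneg D), ENNReal.ofReal_coe_nnreal]
  -- measurability
  have hkm : ∀ a, Measurable (fun z : ℂ × ℂ => ENNReal.ofReal (KK ((2 : ℝ) ^ (-a)) (z.1 - z.2)) *
      ENNReal.ofReal (‖iF (cut (sh a) g) z.2‖ ^ 2)) := by
    intro a
    have hKc : Continuous (KK ((2 : ℝ) ^ (-a))) := by
      unfold KK
      refine Continuous.div (by fun_prop) (by fun_prop) (fun x => ?_)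
      have h2 : (0 : ℝ) < (2 : ℝ) ^ (-a) := by positivity
      positivity
    exact ((hKc.comp (continuous_fst.sub continuous_snd)).measurable.ennreal_ofReal).mul
      ((hφm a).comp measurable_snd)
  have hqm : ∀ a, Measurable (fun x => qa a g x) := by
    intro a
    have h1 : (fun x => qa a g x) = fun x => (∫⁻ y, ENNReal.ofReal (KK ((2 : ℝ) ^ (-a)) (x - y)) *
        ENNReal.ofReal (‖iF (cut (sh a) g) y‖ ^ 2)).toReal := by
      funext x
      rw [← hq a x, ENNReal.toReal_ofReal (hq0 a x)]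
    rw [h1]
    exact ((hkm a).lintegral_prod_right').ennreal_toReal
  have hqs : Measurable fun x => (∑ a ∈ A, qa a g x) ^ (p / 2) :=
    (Finset.measurable_fun_sum _ fun a _ => hqm a).pow_const _
  have hqi : Integrable fun x => (∑ a ∈ A, qa a g x) ^ (p / 2) := by
    refine ⟨hqs.aestronglyMeasurable, ?_⟩
    rw [hasFiniteIntegral_iff_ofReal (ae_of_all _ fun x => Real.rpow_nonneg (hs0 x) _)]
    exact hb.trans_lt ENNReal.ofReal_lt_top
  refine ⟨main.1, main.2.trans hle, ?_, hqi, ?_⟩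
  · calc ∑ a ∈ A, Np p (cut (sh a) g) = ∫ x, ∑ a ∈ A, ‖iF (cut (sh a) g) x‖ ^ p := by
          unfold Np
          rw [integral_finsetSum _ fun a _ => np_int hB hp.le (cc a)]
      _ ≤ ∫ x, Sg A g x ^ (p / 2) := by
          refine integral_mono (integrable_finsetSum _ fun a _ => np_int hB hp.le (cc a)) main.1
            fun x => ?_
          have h1 := sum_rpow_le A (fun a => ‖iF (cut (sh a) g) x‖ ^ 2)
            (fun a _ => by positivity) (q := p / 2) (by linarith)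
          refine le_trans (le_of_eq ?_) h1
          refine Finset.sum_congr rfl fun a _ => ?_
          rw [← Real.rpow_natCast, ← Real.rpow_mul (norm_nonneg _)]
          congr 1
          push_cast
          ring
      _ ≤ C * Np p g := main.2
      _ ≤ _ := hle
  · rw [← ofReal_integral_eq_lintegral_ofReal hqi
      (ae_of_all _ fun x => Real.rpow_nonneg (hs0 x) _)] at hb
    have h1 := (ENNReal.ofReal_le_ofReal_iff (by positivity)).1 hb
    refine h1.trans ?_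
    have : 0 ≤ C * Np p g := by positivity
    linarith

end Pool.Agent.Lib.MP_dd244f_an.Rp
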