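import Pool.Agent.Lib.MP_dd244f_an.Rp.Stmts

/-!
The sharp Hardy-Littlewood-Paley inequality for all real `p ≥ 8 / 3`: definitions and the
statements of the modules (nothing is proved here).
-/

set_option autoImplicit false

namespace Pool.Agent.Lib.MP_dd244f_an.Rp

open MeasureTheory Filter Topology Finset
open Pool.Agent.Lib.MP_dd244f_an.Joint (st ct Mst ratio)
open Pool.Agent.Lib.MP_dd244f_an.Four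
open Pool.Agent.Lib.MP_dd244f_an.Even
open Pool.Agent.Lib.MP_dd244f_an.Unif (SC)
open scoped SchwartzMap ENNReal NNReal ContDiff

/-! ### Positive definite functions -/

/-- positive definite: the characteristic function of a finite measure -/
def PD (f : ℝ → ℝ) : Prop :=
  ∃ μ : Measure ℝ, IsFiniteMeasure μ ∧ ∀ y, charFun μ y = ((f y : ℝ) : ℂ)

/-- (PDc) closure properties -/
def StmtPDc : Prop :=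
  (∀ c : ℝ, 0 ≤ c → PD (fun _ => c)) ∧
  (∀ (f g : ℝ → ℝ) (c : ℝ), 0 ≤ c → PD f → PD g → PD (fun y => f y * g y) ∧
    PD (fun y => f y + g y) ∧ PD (fun y => c * f y)) ∧
  (∀ (f : ℝ → ℝ) (c : ℝ), PD f → PD (fun y => f (c * y))) ∧
  (∀ A : ℝ, 0 < A → PD (fun y => 1 / (1 + y ^ 2 / A ^ 2))) ∧
  (∀ A B : ℝ, 0 < A → A ≤ B → PD (fun y => (1 + y ^ 2 / B ^ 2) / (1 + y ^ 2 / A ^ 2))) ∧
  (∀ (f : ℕ → ℝ → ℝ) (g : ℝ → ℝ), (∀ N, PD (f N)) → (∀ y, Tendsto (fun N => f N y) atTop (𝓝 (g y)))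
    → Continuous g → PD g) ∧
  (∀ (ψ : ℝ → ℝ) (g : ℝ → ℝ), Integrable ψ → (∀ X, 0 ≤ ψ X) →
    (∀ y : ℝ, ∫ X, ((ψ X : ℝ) : ℂ) * Complex.exp (Complex.I * (y * X : ℝ)) = ((g y : ℝ) : ℂ)) →
    PD g)

/-- (Gam) Euler product -/
def StmtGam : Prop := ∀ a y : ℝ, 0 < a →
  Complex.Gamma (a + Complex.I * y) ≠ 0 ∧
  Tendsto (fun N : ℕ => ∏ j ∈ Finset.range N, (1 + y ^ 2 / (a + j) ^ 2)) atTop
    (𝓝 (Real.Gamma a ^ 2 / ‖Complex.Gamma (a + Complex.I * y)‖ ^ 2))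

/-- (Cosh) -/
def StmtCosh : Prop := ∀ t Y : ℝ, -1 < t → t < 1 →
  Real.cosh (Real.pi * Y) + Real.cos (Real.pi * t) = 2 * Real.pi ^ 2 /
    (‖Complex.Gamma ((1 + t + Complex.I * Y) / 2)‖ ^ 2 *
      ‖Complex.Gamma ((1 - t + Complex.I * Y) / 2)‖ ^ 2)

/-- (Sech) polynomials in `sech²` times `sech` -/
def StmtSech : Prop := ∀ (c : ℕ → ℝ) (N : ℕ),
  (∀ q : ℝ, 0 ≤ q → q ≤ 1 → 0 ≤ ∑ n ∈ Finset.range N, c n * q ^ n) →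
  PD (fun Y => (∑ n ∈ Finset.range N, c n *
    ∏ j ∈ Finset.range n, (((2 * j + 1) ^ 2 + Y ^ 2) / ((2 * j + 1) * (2 * j + 2))))
      / Real.cosh (Real.pi * Y / 2))

/-- the function of a line of the strip -/
noncomputable def fl (k : ℕ) (w t y : ℝ) : ℝ :=
  (y ^ 2 + (1 / (2 * k)) ^ 2) *
    (‖Complex.Gamma (1 - 1 / (2 * k) + Complex.I * y)‖ /
      ‖Complex.Gamma (1 / (2 * k) + Complex.I * y)‖) ^ (2 * k) /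
    (Real.cosh (Real.pi * y / w) + Real.cos (Real.pi * t))

/-- (LineL) the line `2 k` of the strip `2 k, 2 (k + 1)` -/
def StmtLineL : Prop := ∀ (k : ℕ) (t : ℝ), 2 ≤ k → 0 < t → t < 1 →
  PD (fl k (1 / (2 * k * (k + 1))) t)

/-- (LineU) the line `2 k` of the strip `2 (k - 1), 2 k` -/
def StmtLineU : Prop := ∀ (k : ℕ) (t : ℝ), 3 ≤ k → 0 < t → t < 1 →
  PD (fl k (1 / (2 * k * (k - 1))) t)

/-- (LineT) the line `4` of the strip `2, 4` -/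
def StmtLineT : Prop := ∀ t : ℝ, 1 / 2 ≤ t → t < 1 → PD (fl 2 (1 / 4) t)

/-! ### The averaged inequality on a line -/

/-- `c(z)`: the Fourier transform of `|ξ| ^ (2 z - 2)` is `c(z) |x| ^ (- 2 z)` -/
noncomputable def cz (z : ℂ) : ℂ :=
  (Real.pi : ℂ) ^ (1 - 2 * z) * Complex.Gamma z / Complex.Gamma (1 - z)

/-- the Poisson kernel of a strip of width `w` on a line of harmonic measure `t` -/
noncomputable def pk (w t y : ℝ) : ℝ :=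
  Real.sin (Real.pi * t) / (2 * w * (Real.cosh (Real.pi * y / w) + Real.cos (Real.pi * t)))

/-- admissible data -/
def Nice (u α : ℂ → ℝ) : Prop := Continuous u ∧ (∀ ξ, 0 ≤ u ξ) ∧
  (∃ r R : ℝ, 0 < r ∧ ∀ ξ, u ξ ≠ 0 → r ≤ ‖ξ‖ ∧ ‖ξ‖ ≤ R) ∧ Measurable α

/-- the analytic family `|ξ| ^ (-2) u(ξ) ^ z exp (i α(ξ))` -/
noncomputable def hz (u α : ℂ → ℝ) (z ξ : ℂ) : ℂ :=
  if u ξ = 0 then 0 else
    (((‖ξ‖ ^ 2)⁻¹ : ℝ) : ℂ) * Complex.exp (z * (Real.log (u ξ) : ℂ) + Complex.I * (α ξ : ℂ))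

/-- the averaged inequality on the line `Re z = 1 / (2 k)` with constant `κ` -/
def AV (k : ℕ) (w t κ : ℝ) : Prop := ∀ u α : ℂ → ℝ, Nice u α →
  ∫⁻ y : ℝ, ENNReal.ofReal (pk w t y / ‖cz (1 / (2 * k) + Complex.I * y)‖ ^ (2 * k)) *
    ∫⁻ x : ℂ, ‖iF (hz u α (1 / (2 * k) + Complex.I * y)) x‖ₑ ^ (2 * k)
  ≤ ENNReal.ofReal (κ * t * ∫ ξ, u ξ / ‖ξ‖ ^ 4)

/-- (Om) the Fourier transform of the weight of a line -/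
def StmtOm : Prop := ∀ (k : ℕ) (w t : ℝ), 1 ≤ k → 0 < w → 0 < t → t < 1 → PD (fl k w t) →
  ∃ ρ : Measure ℝ, IsFiniteMeasure ρ ∧
    Integrable (fun y : ℝ => pk w t y / ‖cz (1 / (2 * k) + Complex.I * y)‖ ^ (2 * k)) ∧
    ∀ X : ℝ, ∫ y : ℝ, ((pk w t y / ‖cz (1 / (2 * k) + Complex.I * y)‖ ^ (2 * k) : ℝ) : ℂ) *
        Complex.exp (Complex.I * (y * X : ℝ))
      = ((∫ s, Real.exp (-(|X - s| / (2 * k))) ∂ρ : ℝ) : ℂ)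

/-- (RieszC) composition of Riesz potentials of complex order -/
def StmtRieszC : Prop := ∀ (α β : ℂ) (ξ : ℂ), 0 < α.re → 0 < β.re → (α + β).re < 1 → ξ ≠ 0 →
  Integrable (fun ζ : ℂ => (‖ζ‖ : ℂ) ^ (2 * α - 2) * (‖ξ - ζ‖ : ℂ) ^ (2 * β - 2)) ∧
  ∫ ζ : ℂ, (‖ζ‖ : ℂ) ^ (2 * α - 2) * (‖ξ - ζ‖ : ℂ) ^ (2 * β - 2)
    = cz α * cz β / cz (α + β) * (‖ξ‖ : ℂ) ^ (2 * (α + β) - 2)

/-- the space of the multilinear expansion -/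
abbrev XX (j : ℕ) : Type := (Fin (j + 1) → ℂ) × (Fin j → ℂ)

/-- the last variable -/
noncomputable def xl {j : ℕ} (X : XX j) : ℂ := ∑ i, X.1 i - ∑ i, X.2 i

/-- (Exp) the multilinear expansion of the energy -/
def StmtExp : Prop := ∀ (j : ℕ) (h : ℂ → ℂ), Measurable h → (∃ B, ∀ ξ, ‖h ξ‖ ≤ B) →
  HasCompactSupport h →
  Integrable (fun X : XX j => (∏ i, h (X.1 i)) * (∏ i, starRingEnd ℂ (h (X.2 i))) *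
    starRingEnd ℂ (h (xl X))) ∧
  Integrable (fun x => ‖iF h x‖ ^ (2 * (j + 1))) ∧
  ((∫ x, ‖iF h x‖ ^ (2 * (j + 1)) : ℝ) : ℂ) = ∫ X : XX j, (∏ i, h (X.1 i)) *
    (∏ i, starRingEnd ℂ (h (X.2 i))) * starRingEnd ℂ (h (xl X))

/-- (Ref) the reference form -/
def StmtRef : Prop := ∀ (j : ℕ) (y : ℝ) (φ : ℂ → ℝ), Continuous φ → HasCompactSupport φ →
  (∀ᶠ ζ in 𝓝 (0 : ℂ), φ ζ = 0) →
  Integrable (fun X : XX j => ((φ (X.1 0) : ℝ) : ℂ) *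
    (∏ i, (‖X.1 i‖ : ℂ) ^ (2 * (1 / (2 * (j + 1)) + Complex.I * y) - 2)) *
    (∏ i, (‖X.2 i‖ : ℂ) ^ (2 * (1 / (2 * (j + 1)) - Complex.I * y) - 2)) *
    (‖xl X‖ : ℂ) ^ (2 * (1 / (2 * (j + 1)) - Complex.I * y) - 2)) ∧
  ∫ X : XX j, ((φ (X.1 0) : ℝ) : ℂ) *
    (∏ i, (‖X.1 i‖ : ℂ) ^ (2 * (1 / (2 * (j + 1)) + Complex.I * y) - 2)) *
    (∏ i, (‖X.2 i‖ : ℂ) ^ (2 * (1 / (2 * (j + 1)) - Complex.I * y) - 2)) *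
    (‖xl X‖ : ℂ) ^ (2 * (1 / (2 * (j + 1)) - Complex.I * y) - 2)
  = ((‖cz (1 / (2 * (j + 1)) + Complex.I * y)‖ ^ (2 * (j + 1)) * ∫ ζ, φ ζ / ‖ζ‖ ^ 2 : ℝ) : ℂ)

/-- (SCL) scaling lemma: the marginals of a dilation-invariant measure -/
def StmtSCL : Prop := ∀ (j : ℕ) (m : Measure (XX j)), SFinite m →
  (∀ l : ℂ, l ≠ 0 → Measure.map (fun X => l • X) m = m) → ∀ v v' : XX j → ℂ,
  Measurable v → Measurable v' → (∀ (l : ℂ) X, v (l • X) = l * v X) →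
  (∀ (l : ℂ) X, v' (l • X) = l * v' X) → (∀ᵐ X ∂m, v X ≠ 0) → (∀ᵐ X ∂m, v' X ≠ 0) →
  ∀ ψ φ : ℂ → ℝ≥0∞, Measurable ψ → Measurable φ → ∫⁻ ζ, φ ζ / ‖ζ‖ₑ ^ 2 = 1 →
  ∫⁻ X, ψ (v X) ∂m = (∫⁻ X, φ (v' X) ∂m) * ∫⁻ ζ, ψ ζ / ‖ζ‖ₑ ^ 2

/-- (AVh) the averaged inequality from positive definiteness -/
def StmtAVh : Prop := ∀ (k : ℕ) (w t : ℝ), 2 ≤ k → 0 < w → 0 < t → t < 1 → PD (fl k w t) →
  AV k w t 1

/-- (AV1) the line `p = 2` -/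
def StmtAV1 : Prop := ∀ w t : ℝ, 0 < w → 0 < t → t < 1 → AV 1 w t 1

/-! ### Interpolation -/

/-- (Poi) the Poisson formula in a strip -/
def StmtPoi : Prop := (∀ w t : ℝ, 0 < w → 0 < t → t < 1 →
    (∀ y, 0 < pk w t y) ∧ (∀ N : ℕ, Integrable (fun y => (1 + |y|) ^ N * pk w t y)) ∧
    ∫ y, pk w t y = t) ∧
  ∀ (a w t C : ℝ) (N : ℕ) (Φ : ℂ → ℂ), 0 < w → 0 < t → t < 1 →
  DiffContOnCl ℂ Φ {z | a < z.re ∧ z.re < a + w} →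
  (∀ z : ℂ, a ≤ z.re → z.re ≤ a + w → ‖Φ z‖ ≤ C * (1 + |z.im|) ^ N) →
  Φ ((a + (1 - t) * w : ℝ) : ℂ) = (∫ y : ℝ, (pk w t y : ℂ) * Φ (a + Complex.I * y)) +
    ∫ y : ℝ, (pk w (1 - t) y : ℂ) * Φ (a + w + Complex.I * y)

/-- (Grw) growth of the normalising factor -/
def StmtGrw : Prop := ∀ x₀ : ℝ, 0 < x₀ → x₀ ≤ 1 / 2 →
  (∃ C, 0 < C ∧ ∀ z : ℂ, x₀ ≤ z.re → z.re ≤ 1 / 2 → cz z ≠ 0 ∧ ‖cz z‖⁻¹ ≤ C * (1 + |z.im|)) ∧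
  DifferentiableOn ℂ (fun z => (cz z)⁻¹) {z | 0 < z.re ∧ z.re < 1} ∧
  ContinuousOn (fun z => (cz z)⁻¹) {z | 0 < z.re ∧ z.re < 1} ∧
  (∀ z : ℂ, ‖cz (starRingEnd ℂ z)‖ = ‖cz z‖) ∧
  (∀ p : ℝ, 2 ≤ p → cz (1 / p : ℝ) = ((Real.pi ^ (1 - 2 / p) * gamp p : ℝ) : ℂ) ∧
    ‖cz (1 / p : ℝ)‖ ^ p = CHp p)

/-- (Two) interpolation between two lines -/
def StmtTwo : Prop := ∀ (k : ℕ) (t κ₁ κ₂ p : ℝ), 1 ≤ k → 0 < t → t < 1 → 0 ≤ κ₁ → 0 ≤ κ₂ →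
  1 / p = t / (2 * k) + (1 - t) / (2 * (k + 1)) →
  AV k (1 / (2 * k * (k + 1))) t κ₁ → AV (k + 1) (1 / (2 * k * (k + 1))) (1 - t) κ₂ →
  ∀ u α : ℂ → ℝ, Nice u α → ∫⁻ x : ℂ, ‖iF (hz u α (1 / p : ℝ)) x‖ₑ ^ p ≤
    ENNReal.ofReal ((t * κ₁ ^ (1 / (2 * k) : ℝ) + (1 - t) * κ₂ ^ (1 / (2 * (k + 1)) : ℝ)) ^ p *
      CHp p * ∫ ξ, u ξ / ‖ξ‖ ^ 4)

/-- (HLPd) density -/
def StmtHLPd : Prop := ∀ p κ : ℝ, 2 ≤ p → 0 ≤ κ →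
  (∀ u α : ℂ → ℝ, Nice u α → ∫⁻ x : ℂ, ‖iF (hz u α (1 / p : ℝ)) x‖ₑ ^ p ≤
    ENNReal.ofReal (κ * CHp p * ∫ ξ, u ξ / ‖ξ‖ ^ 4)) → HLPr p κ

/-- (HLPev) even exponents -/
def StmtHLPev : Prop := ∀ k : ℕ, 1 ≤ k → HLPr (2 * k + 2) 1

/-- (HLPall) the sharp inequality -/
def StmtHLPall : Prop := ∀ p : ℝ, 8 / 3 ≤ p → HLPr p 1

/-! ### Final statements -/

/-- (NumT) the loss of the interpolation between `2` and `8 / 3` -/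
def StmtNumT : Prop := ∀ (n : ℕ) (p τ : ℝ), 0 ≤ τ → τ ≤ 1 →
  1 / p = (1 - τ) / 2 + τ / (8 / 3) →
  ratio n (8 / 3) ^ τ ≤ 10045 / 10000 * ratio n p

/-- (UnifC) all `p ≥ 2` at once -/
def StmtUnifC : Prop := ∃ n₀ : ℕ, ∀ n ≥ n₀, ∀ p : ℝ, 2 ≤ p →
  ∀ f : 𝓢(ℂ, ℂ), eLpNorm (Tn n f) (ENNReal.ofReal p) volume ≤
    ENNReal.ofReal (1005 / 1000 * ratio n p) * eLpNorm f (ENNReal.ofReal p) volume

/-- (PowB) the bound `n ^ (1 - 2 / p) (p - 1)` -/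
def StmtPowB : Prop := ∀ P : ℝ, ∃ n₀ : ℕ, ∀ n ≥ n₀, ∀ p : ℝ, 23 / 10 ≤ p → p ≤ P →
  ∀ f : 𝓢(ℂ, ℂ), eLpNorm (Tn n f) (ENNReal.ofReal p) volume ≤
    ENNReal.ofReal ((n : ℝ) ^ (1 - 2 / p) * (p - 1)) * eLpNorm f (ENNReal.ofReal p) volume

end Pool.Agent.Lib.MP_dd244f_an.Rp
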