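import Pool.Agent.Lib.MP_dd244f_an.Rp.Stmts
import Pool.Agent.Lib.MP_dd244f_an.Even.MPt

/-!
(SyN) symbols of size `B` are bounded operators on `L^p`, `p ≥ 2`.
-/

set_option autoImplicit false

namespace Pool.Agent.Lib.MP_dd244f_an.Rp

open MeasureTheory Filter Topology Finset
open Pool.Agent.Lib.MP_dd244f_an.Joint (st ct Mst ratio)
open Pool.Agent.Lib.MP_dd244f_an.Four
open Pool.Agent.Lib.MP_dd244f_an.Even
open scoped ENNReal NNReal

namespace SyNP

/-- the symbol acts as a convolution -/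
theorem conv_rep (hB : StmtBase) {a : ℂ → ℂ} (ha : ContDiff ℝ 2 a) (hs : HasCompactSupport a)
    {g : ℂ → ℂ} (hg : CC g) (q x : ℂ) :
    iF (fun ζ => a (ζ - q) * g ζ) x = ∫ v, (iF a (-v) * ch v (-q)) * iF g (x + v) := by
  have hK : Integrable (fun v => iF a (-v)) := MPtAux.iF_int hB one_pos ha hs
  have hKq : Integrable (fun v => iF a (-v) * ch v (-q)) := by
    refine hK.mul_bdd (c := 1) ?_ ?_
    · exact (continuous_ch2.comp (by fun_prop : Continuous fun v : ℂ => (v, -q))).aestronglyMeasurable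
    · exact Eventually.of_forall fun v => (norm_ch _ _).le
  have hgi : Integrable g := hg.1.integrable_of_hasCompactSupport hg.2
  have hprod : Integrable (fun p : ℂ × ℂ => (iF a (-p.1) * ch p.1 (-q)) * (ch (x + p.1) p.2 * g p.2))
      ((volume : Measure ℂ).prod volume) := by
    have h3 : Integrable (fun p : ℂ × ℂ => (iF a (-p.1) * ch p.1 (-q)) * g p.2)
        ((volume : Measure ℂ).prod volume) :=
      Integrable.mul_prod (f := fun v => iF a (-v) * ch v (-q)) (g := g) hKq hgi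
    have h4 : Integrable (fun p : ℂ × ℂ => ch (x + p.1) p.2 * ((iF a (-p.1) * ch p.1 (-q)) * g p.2))
        ((volume : Measure ℂ).prod volume) := by
      refine h3.bdd_mul (c := 1) ?_ ?_
      · exact (continuous_ch2.comp
          (by fun_prop : Continuous fun p : ℂ × ℂ => (x + p.1, p.2))).aestronglyMeasurable
      · exact Eventually.of_forall fun p => (norm_ch _ _).le
    refine h4.congr (Eventually.of_forall fun p => ?_)
    simp only
    ring
  calc iF (fun ζ => a (ζ - q) * g ζ) x = ∫ ζ, ch x ζ * (a (ζ - q) * g ζ) := rfl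
    _ = ∫ ζ, ∫ v, (iF a (-v) * ch v (-q)) * (ch (x + v) ζ * g ζ) := by
        congr 1
        ext ζ
        rw [MPtAux.inv hB one_pos ha hs (ζ - q), ← integral_mul_const, ← integral_const_mul]
        congr 1
        ext v
        have e1 : ch v (ζ - q) = ch v ζ * ch v (-q) := by rw [← ch_add_right, sub_eq_add_neg]
        rw [e1, ch_add]
        ring
    _ = ∫ v, ∫ ζ, (iF a (-v) * ch v (-q)) * (ch (x + v) ζ * g ζ) :=
        (integral_integral_swap hprod).symm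
    _ = ∫ v, (iF a (-v) * ch v (-q)) * iF g (x + v) := by
        congr 1
        ext v
        rw [integral_const_mul]
        rfl

theorem conv_le (hB : StmtBase) {a : ℂ → ℂ} (ha : ContDiff ℝ 2 a) (hs : HasCompactSupport a)
    {g : ℂ → ℂ} (hg : CC g) (q x : ℂ) :
    ‖iF (fun ζ => a (ζ - q) * g ζ) x‖ₑ ≤ ∫⁻ v, ‖iF a (-v)‖ₑ * ‖iF g (x + v)‖ₑ := by
  rw [conv_rep hB ha hs hg]
  refine (enorm_integral_le_lintegral_enorm _).trans (le_of_eq (lintegral_congr fun v => ?_))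
  rw [enorm_mul, enorm_mul]
  have : ‖ch v (-q)‖ₑ = 1 := by
    rw [← ofReal_norm, norm_ch, ENNReal.ofReal_one]
  rw [this, mul_one]

/-- Hoelder with weight -/
theorem holder {p : ℝ} (hp : 1 < p) {k f : ℂ → ℝ≥0∞} (hk : Measurable k) (hf : Measurable f) :
    (∫⁻ v, k v * f v) ^ p ≤ (∫⁻ v, k v) ^ (p - 1) * ∫⁻ v, k v * f v ^ p := by
  have hp0 : 0 < p := by linarith
  set q : ℝ := p / (p - 1) with hq
  have hc : p.HolderConjugate q := Real.HolderConjugate.conjExponent hp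
  have hc' : q.HolderConjugate p := hc.symm
  have hq0 : 0 < q := hc'.pos
  have e : ∀ v, k v * f v = k v ^ (1 / q) * (k v ^ (1 / p) * f v) := by
    intro v
    rw [← mul_assoc, ← ENNReal.rpow_add_of_nonneg _ _ (by positivity) (by positivity)]
    have : 1 / q + 1 / p = 1 := by
      have := hc'.inv_add_inv_eq_one
      simpa [one_div] using this
    rw [this, ENNReal.rpow_one]
  have h1 := ENNReal.lintegral_mul_le_Lp_mul_Lq (volume : Measure ℂ) hc'
    (f := fun v => k v ^ (1 / q)) (g := fun v => k v ^ (1 / p) * f v)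
    (hk.pow_const _).aemeasurable ((hk.pow_const _).mul hf).aemeasurable
  have e2 : ∫⁻ v, k v * f v = ∫⁻ v, ((fun v => k v ^ (1 / q)) * fun v => k v ^ (1 / p) * f v) v :=
    lintegral_congr fun v => by rw [e v]; rfl
  rw [e2]
  refine (ENNReal.rpow_le_rpow h1 hp0.le).trans (le_of_eq ?_)
  rw [ENNReal.mul_rpow_of_nonneg _ _ hp0.le, ← ENNReal.rpow_mul, ← ENNReal.rpow_mul]
  have e3 : 1 / q * p = p - 1 := by
    rw [hq]
    field_simp
  have e4 : 1 / p * p = 1 := by field_simp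
  rw [e3, e4, ENNReal.rpow_one]
  congr 1
  · congr 1
    refine lintegral_congr fun v => ?_
    rw [← ENNReal.rpow_mul]
    have : 1 / q * q = 1 := by field_simp
    rw [this, ENNReal.rpow_one]
  · refine lintegral_congr fun v => ?_
    rw [ENNReal.mul_rpow_of_nonneg _ _ hp0.le, ← ENNReal.rpow_mul, e4, ENNReal.rpow_one]

/-- Young's inequality -/
theorem young {p : ℝ} (hp : 1 < p) {k f : ℂ → ℝ≥0∞} (hk : Measurable k) (hf : Measurable f) :
    ∫⁻ x, (∫⁻ v, k v * f (x + v)) ^ p ≤ (∫⁻ v, k v) ^ p * ∫⁻ x, f x ^ p := by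
  have h1 : ∀ x, (∫⁻ v, k v * f (x + v)) ^ p ≤
      (∫⁻ v, k v) ^ (p - 1) * ∫⁻ v, k v * f (x + v) ^ p := fun x =>
    holder hp hk (hf.comp (measurable_const_add x))
  have hm : Measurable (fun z : ℂ × ℂ => k z.2 * f (z.1 + z.2) ^ p) := by
    have h2 : Measurable (fun z : ℂ × ℂ => f (z.1 + z.2)) :=
      hf.comp (measurable_fst.add measurable_snd)
    exact (hk.comp measurable_snd).mul (h2.pow_const _)
  calc ∫⁻ x, (∫⁻ v, k v * f (x + v)) ^ p
      ≤ ∫⁻ x, (∫⁻ v, k v) ^ (p - 1) * ∫⁻ v, k v * f (x + v) ^ p := lintegral_mono h1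
    _ = (∫⁻ v, k v) ^ (p - 1) * ∫⁻ x, ∫⁻ v, k v * f (x + v) ^ p :=
        lintegral_const_mul _ hm.lintegral_prod_right'
    _ = (∫⁻ v, k v) ^ (p - 1) * ∫⁻ v, ∫⁻ x, k v * f (x + v) ^ p := by
        rw [lintegral_lintegral_swap hm.aemeasurable]
    _ = (∫⁻ v, k v) ^ (p - 1) * ∫⁻ v, k v * ∫⁻ x, f x ^ p := by
        congr 1
        refine lintegral_congr fun v => ?_
        have hm2 : Measurable (fun x => f (x + v) ^ p) :=
          (hf.comp (measurable_add_const v)).pow_const _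
        rw [lintegral_const_mul _ hm2]
        congr 1
        exact lintegral_add_right_eq_self (μ := (volume : Measure ℂ)) (fun x => f x ^ p) v
    _ = (∫⁻ v, k v) ^ (p - 1) * ((∫⁻ v, k v) * ∫⁻ x, f x ^ p) := by
        rw [lintegral_mul_const _ hk]
    _ = (∫⁻ v, k v) ^ p * ∫⁻ x, f x ^ p := by
        rw [← mul_assoc]
        congr 1
        have : (∫⁻ v, k v) ^ (p - 1) * ∫⁻ v, k v = (∫⁻ v, k v) ^ (p - 1) * (∫⁻ v, k v) ^ (1 : ℝ) := by
          rw [ENNReal.rpow_one]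
        rw [this, ← ENNReal.rpow_add_of_nonneg _ _ (by linarith) (by norm_num)]
        congr 1
        ring

/-- the integral of a Gaussian -/
theorem gauss_int {r : ℝ} (hr : 0 < r) :
    Integrable (fun δ : ℂ => Real.exp (-(r ^ 2 * ‖δ‖ ^ 2)) ^ 2) ∧
    ∫ δ : ℂ, Real.exp (-(r ^ 2 * ‖δ‖ ^ 2)) ^ 2 = Real.pi / (2 * r ^ 2) := by
  have e : ∀ δ : ℂ, Real.exp (-(r ^ 2 * ‖δ‖ ^ 2)) ^ 2 = Real.exp (-(2 * r ^ 2) * ‖δ‖ ^ 2) := by
    intro δ
    rw [← Real.exp_nat_mul]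
    congr 1
    push_cast
    ring
  simp only [e]
  have hb : (0 : ℝ) < 2 * r ^ 2 := by positivity
  have h1 := GaussianFourier.integral_rexp_neg_mul_sq_norm (V := ℂ) hb
  rw [Complex.finrank_real_complex] at h1
  have h1' : ∫ δ : ℂ, Real.exp (-(2 * r ^ 2) * ‖δ‖ ^ 2) = Real.pi / (2 * r ^ 2) := by
    rw [h1]; norm_num
  refine ⟨?_, h1'⟩
  by_contra hni
  rw [integral_undef hni] at h1'
  have : (0 : ℝ) < Real.pi / (2 * r ^ 2) := by positivity
  linarith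

theorem bb_bound {r B : ℝ} (hr : 0 < r) {a : ℂ → ℂ} (ha : SyB r B a) (hB0 : 0 ≤ B) (δ : ℂ) :
    ‖bb r a δ‖ ^ 2 ≤ 2 * B ^ 2 * Real.exp (-(r ^ 2 * ‖δ‖ ^ 2)) ^ 2 := by
  obtain ⟨h1, h2⟩ := ha.2.2 δ
  set E := Real.exp (-(r ^ 2 * ‖δ‖ ^ 2)) with hE
  have hE0 : 0 < E := Real.exp_pos _
  have h3 : ‖bb r a δ‖ ≤ B * E + B * r ^ 2 * E / (4 * Real.pi ^ 2 * r ^ 2) := by
    unfold bb
    refine (norm_sub_le _ _).trans (add_le_add h1 ?_)
    rw [norm_div, Complex.norm_real, Real.norm_of_nonneg (by positivity)]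
    gcongr
  have h4 : B * r ^ 2 * E / (4 * Real.pi ^ 2 * r ^ 2) = B * E / (4 * Real.pi ^ 2) := by
    field_simp
  have h5 : B * E / (4 * Real.pi ^ 2) ≤ B * E / 4 := by
    gcongr
    nlinarith [Real.pi_gt_three]
  have h6 : ‖bb r a δ‖ ≤ 5 / 4 * (B * E) := by
    rw [h4] at h3
    linarith
  have h7 : 0 ≤ B * E := by positivity
  nlinarith [norm_nonneg (bb r a δ), mul_nonneg h7 h7]

/-- the `L¹` norm of the kernel -/
theorem ker_l1 (hB : StmtBase) {r B : ℝ} (hr : 0 < r) (hB0 : 0 < B) {a : ℂ → ℂ}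
    (ha : SyB r B a) : ∫⁻ v, ‖iF a (-v)‖ₑ ≤ ENNReal.ofReal (4 * B) := by
  have hcc := bb_cc r ha.1 ha.2.1
  have h1 : Integrable (fun v => ‖iF (bb r a) (-v)‖ ^ 2) := (hB.1 _ hcc).2.2.1.comp_neg
  have h1e : ∫ v, ‖iF (bb r a) (-v)‖ ^ 2 = ∫ δ, ‖bb r a δ‖ ^ 2 := by
    rw [← (hB.1 _ hcc).2.2.2.2]
    exact integral_neg_eq_self (fun v => ‖iF (bb r a) v‖ ^ 2) volume
  have h2 : Integrable (fun v => r ^ 2 * KK r v) := (Four.kk.1 r hr).1.const_mul _
  have h2e : ∫ v, r ^ 2 * KK r v = r ^ 2 * Real.pi := by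
    rw [integral_const_mul, (Four.kk.1 r hr).2.1]
  have hbb : ∫ δ, ‖bb r a δ‖ ^ 2 ≤ 2 * B ^ 2 * (Real.pi / (2 * r ^ 2)) := by
    have h3 := gauss_int hr
    rw [← h3.2, ← integral_const_mul]
    refine integral_mono_of_nonneg (Eventually.of_forall fun _ => by positivity)
      (h3.1.const_mul _) (Eventually.of_forall fun δ => bb_bound hr ha hB0.le δ)
  have hint := MPtAux.iF_int hB hr ha.1 ha.2.1
  have h4 : ∫⁻ v, ‖iF a (-v)‖ₑ = ENNReal.ofReal (∫ v, ‖iF a (-v)‖) := by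
    rw [ofReal_integral_norm_eq_lintegral_enorm hint]
  rw [h4]
  refine ENNReal.ofReal_le_ofReal ?_
  have h5 : ∫ v, ‖iF a (-v)‖ ≤ ∫ v, (r ^ 2 / (2 * B) * ‖iF (bb r a) (-v)‖ ^ 2
      + B / (2 * r ^ 2) * (r ^ 2 * KK r v)) := by
    refine integral_mono hint.norm ((h1.const_mul _).add (h2.const_mul _)) fun v => ?_
    simp only
    rw [MPtAux.norm_iF_neg hr ha.1 ha.2.1, ← MPtAux.w1_sq hr]
    set X := ‖iF (bb r a) (-v)‖
    set Y := MPtAux.w1 r v
    have h6 : r ^ 2 / (2 * B) * X ^ 2 + B / (2 * r ^ 2) * Y ^ 2 - X * Y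
        = (r ^ 2 * X - B * Y) ^ 2 / (2 * B * r ^ 2) := by
      field_simp
      ring
    have h7 : 0 ≤ (r ^ 2 * X - B * Y) ^ 2 / (2 * B * r ^ 2) := by positivity
    linarith
  refine h5.trans ?_
  rw [integral_add (h1.const_mul _) (h2.const_mul _), integral_const_mul, integral_const_mul, h1e,
    h2e]
  have h8 : r ^ 2 / (2 * B) * ∫ δ, ‖bb r a δ‖ ^ 2 ≤ r ^ 2 / (2 * B) *
      (2 * B ^ 2 * (Real.pi / (2 * r ^ 2))) := by gcongr
  have h9 : r ^ 2 / (2 * B) * (2 * B ^ 2 * (Real.pi / (2 * r ^ 2))) = B * Real.pi / 2 := by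
    field_simp
  have h10 : B / (2 * r ^ 2) * (r ^ 2 * Real.pi) = B * Real.pi / 2 := by
    field_simp
  rw [h9] at h8
  rw [h10]
  nlinarith [Real.pi_lt_four, hB0]

theorem enorm_rpow {p : ℝ} (hp : 0 ≤ p) (z : ℂ) : ENNReal.ofReal (‖z‖ ^ p) = ‖z‖ₑ ^ p := by
  rw [← ENNReal.ofReal_rpow_of_nonneg (norm_nonneg _) hp, ofReal_norm]

theorem iF_cont (hB : StmtBase) {g : ℂ → ℂ} (hg : CC g) : Continuous (iF g) := (hB.1 g hg).1

theorem np_eq (hB : StmtBase) {p : ℝ} (hp : 0 ≤ p) {g : ℂ → ℂ} (hg : CC g) :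
    Np p g = (∫⁻ x, ‖iF g x‖ₑ ^ p).toReal := by
  unfold Np
  rw [integral_eq_lintegral_of_nonneg_ae (Eventually.of_forall fun _ => by positivity)]
  · congr 1
    exact lintegral_congr fun x => enorm_rpow hp _
  · have h1 : Continuous (fun x => ‖iF g x‖ ^ p) :=
      (iF_cont hB hg).norm.rpow_const fun _ => Or.inr hp
    exact h1.aestronglyMeasurable

theorem np_fin (hB : StmtBase) {p : ℝ} (hp : 2 ≤ p) {g : ℂ → ℂ} (hg : CC g) :
    ∫⁻ x, ‖iF g x‖ₑ ^ p ≠ ∞ := by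
  obtain ⟨hc, ⟨M, hM⟩, h2, -⟩ := hB.1 g hg
  have hM0 : 0 ≤ M := (norm_nonneg _).trans (hM 0)
  have h3 := (h2.const_mul (M ^ (p - 2))).lintegral_lt_top
  refine ne_of_lt (lt_of_le_of_lt (lintegral_mono fun x => ?_) h3)
  simp only
  rw [← enorm_rpow (by linarith)]
  refine ENNReal.ofReal_le_ofReal ?_
  have e : ‖iF g x‖ ^ p = ‖iF g x‖ ^ (p - 2) * ‖iF g x‖ ^ (2 : ℕ) := by
    rcases eq_or_lt_of_le (norm_nonneg (iF g x)) with h | h
    · rw [← h]
      rw [Real.zero_rpow (by linarith)]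
      simp
    · rw [← Real.rpow_natCast, ← Real.rpow_add h]
      congr 1
      push_cast
      ring
  rw [e]
  have h5 : ‖iF g x‖ ^ (p - 2) ≤ M ^ (p - 2) :=
    Real.rpow_le_rpow (norm_nonneg _) (hM x) (by linarith)
  gcongr

end SyNP

/-- (SyN) symbols of size `B` are bounded operators -/
theorem syN (hB : Four.StmtBase) : StmtSyN := by
  intro p hp
  refine ⟨4, by norm_num, fun r B a q g hr hB0 ha hg => ?_⟩
  have hp0 : 0 < p := by linarith
  have hcc : CC (fun ζ => a (ζ - q) * g ζ) := by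
    refine ⟨?_, hg.2.mul_left⟩
    have h1 := ha.1.continuous
    have h2 := hg.1
    fun_prop
  rcases eq_or_lt_of_le hB0 with h0 | h0
  · have hz : ∀ δ, a δ = 0 := by
      intro δ
      have h1 := (ha.2.2 δ).1
      rw [← h0, zero_mul] at h1
      exact norm_le_zero_iff.mp h1
    have h2 : Np p (fun ζ => a (ζ - q) * g ζ) = 0 := by
      unfold Np iF
      simp [hz, Real.zero_rpow hp0.ne']
    rw [h2, ← h0, mul_zero, Real.zero_rpow hp0.ne', zero_mul]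
  · rw [SyNP.np_eq hB hp0.le hcc, SyNP.np_eq hB hp0.le hg]
    have hk : Measurable (fun v => ‖iF a (-v)‖ₑ) :=
      ((SyNP.iF_cont hB ⟨ha.1.continuous, ha.2.1⟩).comp continuous_neg).measurable.enorm
    have hf : Measurable (fun v => ‖iF g v‖ₑ) := (SyNP.iF_cont hB hg).measurable.enorm
    have h1 : ∫⁻ x, ‖iF (fun ζ => a (ζ - q) * g ζ) x‖ₑ ^ p ≤
        ENNReal.ofReal (4 * B) ^ p * ∫⁻ x, ‖iF g x‖ₑ ^ p := by
      calc ∫⁻ x, ‖iF (fun ζ => a (ζ - q) * g ζ) x‖ₑ ^ p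
          ≤ ∫⁻ x, (∫⁻ v, ‖iF a (-v)‖ₑ * ‖iF g (x + v)‖ₑ) ^ p :=
            lintegral_mono fun x => ENNReal.rpow_le_rpow (SyNP.conv_le hB ha.1 ha.2.1 hg q x) hp0.le
        _ ≤ (∫⁻ v, ‖iF a (-v)‖ₑ) ^ p * ∫⁻ x, ‖iF g x‖ₑ ^ p :=
            SyNP.young (by linarith) hk hf
        _ ≤ _ := by
            gcongr
            exact SyNP.ker_l1 hB hr h0 ha
    have h2 := SyNP.np_fin hB hp hg
    have h3 : ENNReal.ofReal (4 * B) ^ p * ∫⁻ x, ‖iF g x‖ₑ ^ p ≠ ∞ :=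
      ENNReal.mul_ne_top (ENNReal.rpow_ne_top_of_nonneg hp0.le ENNReal.ofReal_ne_top) h2
    refine (ENNReal.toReal_mono h3 h1).trans (le_of_eq ?_)
    rw [ENNReal.toReal_mul, ← ENNReal.toReal_rpow, ENNReal.toReal_ofReal (by positivity)]

end Pool.Agent.Lib.MP_dd244f_an.Rp
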