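import Pool.Agent.Lib.MP_dd244f_an.Rp.TwoB

/-!
(Two) interpolation between two lines.
-/

set_option autoImplicit false

namespace Pool.Agent.Lib.MP_dd244f_an.Rp

open MeasureTheory Filter Topology Finset
open Pool.Agent.Lib.MP_dd244f_an.Four
open scoped ENNReal NNReal

namespace Two

/-- the auxiliary analytic function -/
noncomputable def Phi (u α v β : ℂ → ℝ) (U V : ℝ) (z : ℂ) : ℂ :=
  Complex.exp (-(z * (Real.log U : ℂ)) - (1 - z) * (Real.log V : ℂ)) * (cz z)⁻¹ *
    ∫ x, iF (hz u α z) x * vz v β z x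

theorem norm_pref {U V : ℝ} (hU : 0 < U) (hV : 0 < V) (z : ℂ) :
    ‖Complex.exp (-(z * (Real.log U : ℂ)) - (1 - z) * (Real.log V : ℂ))‖ =
      U ^ (-z.re) * V ^ (-(1 - z.re)) := by
  rw [Complex.norm_exp, Real.rpow_def_of_pos hU, Real.rpow_def_of_pos hV, ← Real.exp_add]
  congr 1
  simp
  ring

theorem cont_pk (w t : ℝ) : Measurable (pk w t) := by
  unfold pk
  have h1 : Measurable fun y : ℝ => Real.cosh (Real.pi * y / w) :=
    Real.measurable_cosh.comp ((measurable_id.const_mul Real.pi).div_const w)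
  exact measurable_const.div (measurable_const.mul (h1.add measurable_const))

section

variable {u α v β : ℂ → ℝ} {M R : ℝ}

theorem line (hP : StmtPoi) (hG : StmtGrw) (hu : Nice u α) (hv : Test v β M R) {K : ℕ}
    (hK : 1 ≤ K) {w t κ : ℝ} (hw : 0 < w) (ht : 0 < t) (ht1 : t < 1) (hκ : 0 ≤ κ)
    (hAV : AV K w t κ) (hU0 : 0 < ∫ ξ, u ξ / ‖ξ‖ ^ 4) (hV0 : 0 < ∫ x, v x) :
    ‖∫ y : ℝ, (pk w t y : ℂ) * Phi u α v β (∫ ξ, u ξ / ‖ξ‖ ^ 4) (∫ x, v x)
      ((1 / (2 * K) : ℝ) + Complex.I * y)‖ ≤ t * κ ^ (1 / (2 * K) : ℝ) := by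
  obtain ⟨U, hUd⟩ : ∃ U : ℝ, U = ∫ ξ, u ξ / ‖ξ‖ ^ 4 := ⟨_, rfl⟩
  obtain ⟨V, hVd⟩ : ∃ V : ℝ, V = ∫ x, v x := ⟨_, rfl⟩
  rw [← hUd] at hU0 ⊢
  rw [← hVd] at hV0 ⊢
  have hK0 : (1 : ℝ) ≤ K := by exact_mod_cast hK
  have hK2 : (1 : ℝ) < 2 * K := by linarith
  have hKne : (2 * K : ℝ) ≠ 0 := by linarith
  obtain ⟨x, hx⟩ : ∃ x : ℝ, x = 1 / (2 * K) := ⟨_, rfl⟩
  have hx0 : 0 < x := by rw [hx]; positivity
  have hx1 : x ≤ 1 / 2 := by
    rw [hx]
    apply one_div_le_one_div_of_le (by norm_num)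
    linarith
  rw [← hx]
  obtain ⟨-, -, hcc, -, -⟩ := hG x hx0 hx1
  obtain ⟨hpos, hint, hmass⟩ := hP.1 w t hw ht ht1
  have hre : ∀ y : ℝ, ((x : ℂ) + Complex.I * y).re = x := fun y => by simp
  -- the inverse of `cz` on the line
  have hczm : Measurable fun y : ℝ => (cz ((x : ℂ) + Complex.I * y))⁻¹ := by
    have h1 : Continuous fun y : ℝ => ((x : ℂ) + Complex.I * y) := by fun_prop
    have h2 := hcc.comp_continuous h1 (fun y => by
      show 0 < ((x : ℂ) + Complex.I * y).re ∧ ((x : ℂ) + Complex.I * y).re < 1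
      rw [hre]
      exact ⟨hx0, by linarith⟩)
    exact h2.measurable
  obtain ⟨k, hkd⟩ : ∃ k : ℝ → ℝ≥0∞, k = fun y => ENNReal.ofReal (pk w t y) := ⟨_, rfl⟩
  have hkm : Measurable k := by
    rw [hkd]
    exact (cont_pk w t).ennreal_ofReal
  obtain ⟨N, hNd⟩ : ∃ N : ℝ → ℝ≥0∞, N = fun y : ℝ =>
    ‖(cz ((x : ℂ) + Complex.I * y))⁻¹‖ₑ * NN u α K x y ^ x := ⟨_, rfl⟩
  have hNm : Measurable N := by
    rw [hNd]
    exact hczm.enorm.mul ((meas_NN hu K x).pow_const x)
  -- pointwise bound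
  have hpt : ∀ y : ℝ, ‖(pk w t y : ℂ) * Phi u α v β U V ((x : ℂ) + Complex.I * y)‖ₑ ≤
      ENNReal.ofReal (U ^ (-x)) * (k y * N y) := by
    intro y
    have h1 := holder_x hu hv hK y
    rw [← hx, ← hVd] at h1
    rw [enorm_mul, Phi, enorm_mul, enorm_mul, ← ofReal_norm (pk w t y : ℂ),
      Complex.norm_real, Real.norm_of_nonneg (hpos y).le,
      ← ofReal_norm (Complex.exp _), norm_pref hU0 hV0, hre]
    have h2 : ENNReal.ofReal (V ^ (-(1 - x))) * ENNReal.ofReal V ^ (1 - x) = 1 := by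
      rw [ENNReal.ofReal_rpow_of_pos hV0, ← ENNReal.ofReal_mul (by positivity),
        ← Real.rpow_add hV0]
      simp
    calc ENNReal.ofReal (pk w t y) * (ENNReal.ofReal (U ^ (-x) * V ^ (-(1 - x))) *
          ‖(cz ((x : ℂ) + Complex.I * y))⁻¹‖ₑ *
          ‖∫ x_1, iF (hz u α ((x : ℂ) + Complex.I * y)) x_1 *
            vz v β ((x : ℂ) + Complex.I * y) x_1‖ₑ) ≤
        ENNReal.ofReal (pk w t y) * (ENNReal.ofReal (U ^ (-x) * V ^ (-(1 - x))) *
          ‖(cz ((x : ℂ) + Complex.I * y))⁻¹‖ₑ *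
          (NN u α K x y ^ x * ENNReal.ofReal V ^ (1 - x))) := by gcongr
      _ = ENNReal.ofReal (U ^ (-x)) * (ENNReal.ofReal (pk w t y) *
          (‖(cz ((x : ℂ) + Complex.I * y))⁻¹‖ₑ * NN u α K x y ^ x)) *
          (ENNReal.ofReal (V ^ (-(1 - x))) * ENNReal.ofReal V ^ (1 - x)) := by
          rw [ENNReal.ofReal_mul (by positivity)]
          ring
      _ = _ := by rw [h2, mul_one, hkd, hNd]
  -- the mass
  have hk1 : ∫⁻ y, k y = ENNReal.ofReal t := by
    have h0 : Integrable (pk w t) := by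
      have := hint 0
      simpa using this
    have h1 := ofReal_integral_eq_lintegral_ofReal h0 (Eventually.of_forall fun y => (hpos y).le)
    rw [hmass] at h1
    rw [hkd]
    exact h1.symm
  -- the energy
  have hk2 : ∫⁻ y, k y * N y ^ (2 * K : ℝ) ≤ ENNReal.ofReal (κ * t * U) := by
    have h1 := hAV u α hu
    rw [← hUd] at h1
    refine le_trans (le_of_eq ?_) h1
    refine lintegral_congr fun y => ?_
    have hxc : (1 / (2 * K) : ℂ) = (x : ℂ) := by
      rw [hx]
      push_cast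
      rfl
    rw [hxc, hkd, hNd]
    show ENNReal.ofReal (pk w t y) * (‖(cz ((x : ℂ) + Complex.I * y))⁻¹‖ₑ *
      NN u α K x y ^ x) ^ (2 * K : ℝ) = _
    have hxK : x * (2 * K) = 1 := by
      rw [hx]
      field_simp
    rw [ENNReal.mul_rpow_of_nonneg _ _ (by positivity), ← ENNReal.rpow_mul, hxK, ENNReal.rpow_one,
      ← mul_assoc, div_eq_mul_inv, ENNReal.ofReal_mul (hpos y).le]
    congr 2
    rw [← ofReal_norm, norm_inv]
    have e : (2 * K : ℝ) = ((2 * K : ℕ) : ℝ) := by push_cast; ring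
    rw [e, ENNReal.rpow_natCast, ← ENNReal.ofReal_pow (by positivity), inv_pow]
  have hhol := holder_y hK2 hkm hNm
  rw [hk1, ← hx] at hhol
  have hfin : ‖∫ y : ℝ, (pk w t y : ℂ) * Phi u α v β U V ((x : ℂ) + Complex.I * y)‖ₑ ≤
      ENNReal.ofReal (t * κ ^ x) := by
    calc _ ≤ ∫⁻ y : ℝ, ‖(pk w t y : ℂ) * Phi u α v β U V ((x : ℂ) + Complex.I * y)‖ₑ :=
          enorm_integral_le_lintegral_enorm _
      _ ≤ ∫⁻ y : ℝ, ENNReal.ofReal (U ^ (-x)) * (k y * N y) := lintegral_mono hpt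
      _ = ENNReal.ofReal (U ^ (-x)) * ∫⁻ y : ℝ, k y * N y :=
          lintegral_const_mul _ (hkm.mul hNm)
      _ ≤ ENNReal.ofReal (U ^ (-x)) * (ENNReal.ofReal t ^ (1 - x) *
          (ENNReal.ofReal (κ * t * U)) ^ x) := by
          refine mul_le_mul_right (hhol.trans ?_) _
          exact mul_le_mul_right (ENNReal.rpow_le_rpow hk2 hx0.le) _
      _ = ENNReal.ofReal (t * κ ^ x) := by
          rw [ENNReal.ofReal_rpow_of_pos ht, ENNReal.ofReal_rpow_of_nonneg (by positivity) hx0.le,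
            ← ENNReal.ofReal_mul (by positivity), ← ENNReal.ofReal_mul (by positivity)]
          congr 1
          rw [Real.mul_rpow (by positivity) hU0.le, Real.mul_rpow hκ ht.le]
          have e1 : U ^ (-x) * U ^ x = 1 := by
            rw [← Real.rpow_add hU0]
            simp
          have e2 : t ^ (1 - x) * t ^ x = t := by
            rw [← Real.rpow_add ht]
            simp
          calc U ^ (-x) * (t ^ (1 - x) * (κ ^ x * t ^ x * U ^ x)) =
                (U ^ (-x) * U ^ x) * (t ^ (1 - x) * t ^ x) * κ ^ x := by ring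
            _ = t * κ ^ x := by rw [e1, e2, one_mul]
  rw [← ofReal_norm, ENNReal.ofReal_le_ofReal_iff (by positivity)] at hfin
  exact hfin

/-- analyticity and growth of the auxiliary function -/
theorem phi_an (hG : StmtGrw) (hu : Nice u α) (hv : Test v β M R) (hM : 1 ≤ M) {U V : ℝ}
    (hU : 0 < U) (hV : 0 < V) {a w : ℝ} (ha : 0 < a) (hw : 0 < w) (haw : a + w ≤ 1 / 2) :
    DiffContOnCl ℂ (Phi u α v β U V) {z | a < z.re ∧ z.re < a + w} ∧
    ∃ C : ℝ, ∀ z : ℂ, a ≤ z.re → z.re ≤ a + w →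
      ‖Phi u α v β U V z‖ ≤ C * (1 + |z.im|) ^ 1 := by
  obtain ⟨⟨C1, hC1, hcz⟩, hdc, -, -, -⟩ := hG a ha (by linarith)
  obtain ⟨C2, hC2⟩ := int_ww hu hv hM
  have hopen : IsOpen {z : ℂ | 0 < z.re ∧ z.re < 1} :=
    (isOpen_lt continuous_const Complex.continuous_re).inter
      (isOpen_lt Complex.continuous_re continuous_const)
  constructor
  · refine DifferentiableOn.diffContOnCl ?_
    have hcl : closure {z : ℂ | a < z.re ∧ z.re < a + w} ⊆ {z : ℂ | 0 < z.re ∧ z.re < 1} := by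
      have h1 : closure {z : ℂ | a < z.re ∧ z.re < a + w} ⊆
          {z : ℂ | a ≤ z.re ∧ z.re ≤ a + w} := by
        refine closure_minimal (fun z hz => ⟨hz.1.le, hz.2.le⟩) ?_
        exact (isClosed_le continuous_const Complex.continuous_re).inter
          (isClosed_le Complex.continuous_re continuous_const)
      intro z hz
      have h2 := h1 hz
      exact ⟨lt_of_lt_of_le ha h2.1, lt_of_le_of_lt h2.2 (by linarith)⟩
    refine DifferentiableOn.mono ?_ hcl
    intro z hzm
    have hz0 : 0 < z.re := hzm.1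
    have hz1 : z.re < 1 := hzm.2
    have h1 : DifferentiableAt ℂ
        (fun z : ℂ => Complex.exp (-(z * (Real.log U : ℂ)) - (1 - z) * (Real.log V : ℂ))) z := by
      fun_prop
    have h2 : DifferentiableAt ℂ (fun z : ℂ => (cz z)⁻¹) z :=
      (hdc z hzm).differentiableAt (hopen.mem_nhds hzm)
    have h3 : DifferentiableAt ℂ (fun z : ℂ => ∫ x, iF (hz u α z) x * vz v β z x) z := by
      have h4 := hol_exp (X := ℂ × ℂ) (μ := (volume : Measure ℂ).prod (volume : Measure ℂ))
        (meas_LL hu hv) (meas_ww hu hv).aestronglyMeasurable (a := 0) (b := 1)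
        (fun σ h0 h1 => (hC2 σ h0.le h1.le).1) hz0 hz1
      refine h4.congr_of_eventuallyEq ?_
      filter_upwards [hopen.mem_nhds hzm] with ζ hζ
      exact psi_eq hu hv hM hζ.1.le hζ.2.le
    exact ((h1.mul h2).mul h3).differentiableWithinAt
  · have hC2n : 0 ≤ C2 := by
      have h1 := (hC2 0 le_rfl zero_le_one).2
      refine le_trans (integral_nonneg fun q => ?_) h1
      positivity
    refine ⟨Real.exp (|Real.log U| + |Real.log V|) * C1 * C2, fun z h1 h2 => ?_⟩
    have hz0 : 0 < z.re := lt_of_lt_of_le ha h1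
    have hz1 : z.re ≤ 1 := by linarith
    unfold Phi
    rw [norm_mul, norm_mul, norm_pref hU hV, psi_eq hu hv hM hz0.le hz1]
    have e1 : U ^ (-z.re) * V ^ (-(1 - z.re)) ≤ Real.exp (|Real.log U| + |Real.log V|) := by
      rw [Real.rpow_def_of_pos hU, Real.rpow_def_of_pos hV, ← Real.exp_add]
      apply Real.exp_le_exp.2
      have h3 : Real.log U * (-z.re) ≤ |Real.log U| := by
        have h4 := neg_abs_le (Real.log U)
        have h5 := abs_nonneg (Real.log U)
        nlinarith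
      have h3' : Real.log V * (-(1 - z.re)) ≤ |Real.log V| := by
        have h4 := neg_abs_le (Real.log V)
        have h5 := abs_nonneg (Real.log V)
        nlinarith
      linarith
    have e2 : ‖(cz z)⁻¹‖ ≤ C1 * (1 + |z.im|) := by
      rw [norm_inv]
      exact (hcz z h1 (by linarith)).2
    have e3 : ‖∫ q, Complex.exp (z * (LL u v q : ℂ)) * ww u α v β q
        ∂((volume : Measure ℂ).prod (volume : Measure ℂ))‖ ≤ C2 := by
      refine (norm_integral_le_integral_norm _).trans ?_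
      refine le_trans (le_of_eq ?_) (hC2 z.re hz0.le hz1).2
      refine integral_congr_ae (Eventually.of_forall fun q => ?_)
      show ‖Complex.exp (z * (LL u v q : ℂ)) * ww u α v β q‖ = _
      rw [norm_mul, Complex.norm_exp]
      simp
    calc _ ≤ Real.exp (|Real.log U| + |Real.log V|) * (C1 * (1 + |z.im|)) * C2 := by
          gcongr
      _ = _ := by ring

end

end Two

open Two in
theorem two (hP : StmtPoi) (hG : StmtGrw) : StmtTwo := by
  intro k t κ₁ κ₂ p hk ht ht1 hκ₁ hκ₂ hp hAV1 hAV2 u α hu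
  have hk0 : (1 : ℝ) ≤ k := by exact_mod_cast hk
  have hk00 : (0 : ℝ) < k := by linarith
  obtain ⟨a, had⟩ : ∃ a : ℝ, a = 1 / (2 * (k + 1)) := ⟨_, rfl⟩
  obtain ⟨w, hwd⟩ : ∃ w : ℝ, w = 1 / (2 * k * (k + 1)) := ⟨_, rfl⟩
  have ha : 0 < a := by rw [had]; positivity
  have hw : 0 < w := by rw [hwd]; positivity
  have haw : a + w = 1 / (2 * k) := by
    rw [had, hwd]
    field_simp
    try ring
  have haw2 : a + w ≤ 1 / 2 := by
    rw [haw]
    apply one_div_le_one_div_of_le (by norm_num)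
    linarith
  have hpe : 1 / p = a + t * w := by
    rw [hp, had, hwd]
    field_simp
    try ring
  have hp1 : 0 < 1 / p := by rw [hpe]; positivity
  have hp0 : 0 < p := one_div_pos.1 hp1
  have hp12 : 1 / p ≤ 1 / 2 := by
    rw [hpe]
    nlinarith
  have hp2 : 2 ≤ p := by
    rw [div_le_div_iff₀ hp0 (by norm_num)] at hp12
    linarith
  rw [← hwd] at hAV1 hAV2
  have hbp0 : 0 ≤ 1 - 1 / p := by linarith
  obtain ⟨-, -, -, -, hCH⟩ := hG (1 / 2) (by norm_num) le_rfl
  obtain ⟨-, hCHp⟩ := hCH p hp2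
  have hCH0 : 0 ≤ CHp p := by
    rw [← hCHp]
    positivity
  -- trivial case
  by_cases hu0 : ∀ ξ, u ξ = 0
  · have h1 : hz u α (1 / p : ℝ) = fun _ => 0 := by
      funext ξ
      unfold hz
      rw [if_pos (hu0 ξ)]
    have h2 : ∀ x, iF (hz u α (1 / p : ℝ)) x = 0 := by
      intro x
      rw [h1]
      unfold iF
      simp
    simp only [h2, enorm_zero, ENNReal.zero_rpow_of_pos hp0, lintegral_zero]
    exact zero_le
  push Not at hu0
  obtain ⟨ξ₀, hξ₀⟩ := hu0
  obtain ⟨r, R', M', hr, hM', hub, hur⟩ := nice_bd hu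
  have hU0 : 0 < ∫ ξ, u ξ / ‖ξ‖ ^ 4 := by
    have hnear : ∀ ξ : ℂ, ‖ξ‖ < r → u ξ = 0 := by
      intro ξ hξ
      by_contra h
      exact absurd (hur ξ h).1 (not_le.2 hξ)
    refine Continuous.integral_pos_of_hasCompactSupport_nonneg_nonzero (x := ξ₀) ?_ ?_ ?_ ?_
    · rw [continuous_iff_continuousAt]
      intro ξ
      by_cases h : ξ = 0
      · subst h
        have h1 : (fun ξ : ℂ => u ξ / ‖ξ‖ ^ 4) =ᶠ[𝓝 0] fun _ => 0 := by
          filter_upwards [Metric.ball_mem_nhds (0 : ℂ) hr] with ξ hξ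
          rw [hnear ξ (by simpa using hξ), zero_div]
        exact h1.continuousAt
      · exact (hu.1.continuousAt).div (continuous_norm.continuousAt.pow 4)
          (pow_ne_zero _ (norm_ne_zero_iff.2 h))
    · refine HasCompactSupport.intro (isCompact_closedBall (0 : ℂ) R') fun ξ hξ => ?_
      have : u ξ = 0 := by
        by_contra h
        exact hξ (by simpa using (hur ξ h).2)
      rw [this, zero_div]
    · intro ξ
      have := hu.2.1 ξ
      show 0 ≤ u ξ / ‖ξ‖ ^ 4
      positivity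
    · refine div_ne_zero hξ₀ (pow_ne_zero _ (norm_ne_zero_iff.2 ?_))
      rintro rfl
      exact hξ₀ (hnear 0 (by simpa using hr))
  obtain ⟨F, hFd⟩ : ∃ F : ℂ → ℂ, F = iF (hz u α (1 / p : ℝ)) := ⟨_, rfl⟩
  have hFm : Measurable F := by
    rw [hFd]
    exact meas_iF1 hu _
  have hFb : ∀ x, ‖F x‖ ≤ ∫ ξ, ‖hz u α (1 / p : ℝ) ξ‖ := by
    intro x
    rw [hFd]
    unfold iF
    refine (norm_integral_le_integral_norm _).trans (le_of_eq ?_)
    refine integral_congr_ae (Eventually.of_forall fun ξ => ?_)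
    show ‖ch x ξ * hz u α (1 / p : ℝ) ξ‖ = _
    rw [norm_mul, Four.norm_ch, one_mul]
  rw [← hFd]
  set C1 : ℝ := t * κ₁ ^ (1 / (2 * k) : ℝ) + (1 - t) * κ₂ ^ (1 / (2 * (k + 1)) : ℝ) with hC1
  have hC10 : 0 ≤ C1 := by
    have : 0 ≤ 1 - t := by linarith
    positivity
  -- the bound on balls
  have hball : ∀ n : ℕ, ∫⁻ x in Metric.closedBall (0 : ℂ) n, ‖F x‖ₑ ^ p ≤
      ENNReal.ofReal (C1 ^ p * CHp p * ∫ ξ, u ξ / ‖ξ‖ ^ 4) := by
    intro n
    obtain ⟨v, hvd⟩ : ∃ v : ℂ → ℝ,
      v = (Metric.closedBall (0 : ℂ) n).indicator fun x => ‖F x‖ ^ p := ⟨_, rfl⟩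
    have hTest : Test v (fun x => -Complex.arg (F x))
        (max ((∫ ξ, ‖hz u α (1 / p : ℝ) ξ‖) ^ p) 1) n := by
      refine ⟨?_, ?_, ?_, ?_, ?_⟩
      · rw [hvd]
        exact (hFm.norm.pow_const p).indicator Metric.isClosed_closedBall.measurableSet
      · exact (Complex.measurable_arg.comp hFm).neg
      · intro x
        rw [hvd]
        exact Set.indicator_nonneg (fun _ _ => by positivity) x
      · intro x
        rw [hvd]
        by_cases hx : x ∈ Metric.closedBall (0 : ℂ) n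
        · rw [Set.indicator_of_mem hx]
          exact (Real.rpow_le_rpow (norm_nonneg _) (hFb x) hp0.le).trans (le_max_left _ _)
        · rw [Set.indicator_of_notMem hx]
          exact le_trans zero_le_one (le_max_right _ _)
      · intro x hx
        by_contra h
        rw [hvd, Set.indicator_of_notMem] at hx
        · exact hx rfl
        · simpa using h
    have hVl : ∫⁻ x in Metric.closedBall (0 : ℂ) n, ‖F x‖ₑ ^ p = ENNReal.ofReal (∫ x, v x) := by
      rw [ofReal_integral_eq_lintegral_ofReal (int_v hTest) (Eventually.of_forall hTest.nn),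
        ← lintegral_indicator Metric.isClosed_closedBall.measurableSet]
      refine lintegral_congr fun x => ?_
      rw [hvd]
      by_cases hx : x ∈ Metric.closedBall (0 : ℂ) n
      · rw [Set.indicator_of_mem hx, Set.indicator_of_mem hx,
          ← ENNReal.ofReal_rpow_of_nonneg (norm_nonneg _) hp0.le, ofReal_norm]
      · rw [Set.indicator_of_notMem hx, Set.indicator_of_notMem hx, ENNReal.ofReal_zero]
    rw [hVl]
    apply ENNReal.ofReal_le_ofReal
    have hVn : 0 ≤ ∫ x, v x := integral_nonneg hTest.nn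
    rcases hVn.eq_or_lt with hV0 | hV0
    · rw [← hV0]
      positivity
    · -- the Poisson formula
      have hl1 := line hP hG hu hTest hk hw ht ht1 hκ₁ hAV1 hU0 hV0
      have hl2 := line hP hG hu hTest (K := k + 1) (by omega) hw (t := 1 - t) (by linarith)
        (by linarith) hκ₂ hAV2 hU0 hV0
      obtain ⟨hdc, C, hC⟩ := phi_an hG hu hTest (le_max_right _ _) hU0 hV0 ha hw haw2
      have hpoi := hP.2 a w (1 - t) C 1 _ hw (by linarith) (by linarith) hdc hC
      rw [sub_sub_cancel, ← hpe] at hpoi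
      have hl1' : ‖∫ y : ℝ, (pk w t y : ℂ) * Phi u α v (fun x => -Complex.arg (F x))
          (∫ ξ, u ξ / ‖ξ‖ ^ 4) (∫ x, v x) (a + w + Complex.I * y)‖ ≤
          t * κ₁ ^ (1 / (2 * k) : ℝ) := by
        have e : ((1 / (2 * k) : ℝ) : ℂ) = a + w := by
          rw [← haw]
          push_cast
          rfl
        rw [e] at hl1
        exact hl1
      have hl2' : ‖∫ y : ℝ, (pk w (1 - t) y : ℂ) * Phi u α v (fun x => -Complex.arg (F x))
          (∫ ξ, u ξ / ‖ξ‖ ^ 4) (∫ x, v x) (a + Complex.I * y)‖ ≤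
          (1 - t) * κ₂ ^ (1 / (2 * (k + 1)) : ℝ) := by
        have e : (1 / (2 * ((k + 1 : ℕ) : ℝ)) : ℝ) = a := by
          rw [had]
          push_cast
          rfl
        rw [e] at hl2
        rw [had] at hl2 ⊢
        exact hl2
      have hbd : ‖Phi u α v (fun x => -Complex.arg (F x)) (∫ ξ, u ξ / ‖ξ‖ ^ 4) (∫ x, v x)
          ((1 / p : ℝ) : ℂ)‖ ≤ C1 := by
        rw [hpoi]
        refine (norm_add_le _ _).trans ?_
        rw [hC1]
        linarith
      -- the value
      have hint : ∫ x, iF (hz u α ((1 / p : ℝ) : ℂ)) x *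
          vz v (fun x => -Complex.arg (F x)) ((1 / p : ℝ) : ℂ) x = ((∫ x, v x : ℝ) : ℂ) := by
        rw [← hFd, ← integral_complex_ofReal]
        refine integral_congr_ae (Eventually.of_forall fun x => ?_)
        show F x * vz v (fun x => -Complex.arg (F x)) ((1 / p : ℝ) : ℂ) x = (v x : ℂ)
        unfold vz
        split_ifs with h
        · rw [h]
          simp
        · have hx : x ∈ Metric.closedBall (0 : ℂ) n := by
            by_contra hx
            apply h
            rw [hvd, Set.indicator_of_notMem hx]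
          have hvx : v x = ‖F x‖ ^ p := by rw [hvd, Set.indicator_of_mem hx]
          have hFx : 0 < ‖F x‖ := by
            rcases (norm_nonneg (F x)).eq_or_lt with h1 | h1
            · exfalso
              apply h
              rw [hvx, ← h1, Real.zero_rpow hp0.ne']
            · exact h1
          rw [hvx, Real.log_rpow hFx]
          have e1 : ((‖F x‖ : ℝ) : ℂ) = Complex.exp ((Real.log ‖F x‖ : ℝ) : ℂ) := by
            rw [← Complex.ofReal_exp, Real.exp_log hFx]
          have e2 : ((‖F x‖ ^ p : ℝ) : ℂ) = Complex.exp ((p * Real.log ‖F x‖ : ℝ) : ℂ) := by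
            rw [← Complex.ofReal_exp, Real.rpow_def_of_pos hFx, mul_comm]
          rw [e2]
          have e3 : Complex.exp ((1 - ((1 / p : ℝ) : ℂ)) * ((p * Real.log ‖F x‖ : ℝ) : ℂ) +
              Complex.I * ((-Complex.arg (F x) : ℝ) : ℂ)) =
              Complex.exp (((p - 1) * Real.log ‖F x‖ : ℝ) : ℂ) *
                Complex.exp (-((Complex.arg (F x) : ℂ) * Complex.I)) := by
            rw [← Complex.exp_add]
            congr 1
            have hpc : (p : ℂ) ≠ 0 := by exact_mod_cast hp0.ne'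
            push_cast
            field_simp
            try ring
          have e0 : F x = Complex.exp ((Real.log ‖F x‖ : ℝ) : ℂ) *
              Complex.exp ((Complex.arg (F x) : ℂ) * Complex.I) := by
            rw [← e1]
            exact (Complex.norm_mul_exp_arg_mul_I (F x)).symm
          calc F x * Complex.exp ((1 - ((1 / p : ℝ) : ℂ)) * ((p * Real.log ‖F x‖ : ℝ) : ℂ) +
              Complex.I * ((-Complex.arg (F x) : ℝ) : ℂ)) =
              (Complex.exp ((Real.log ‖F x‖ : ℝ) : ℂ) *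
                Complex.exp ((Complex.arg (F x) : ℂ) * Complex.I)) *
                (Complex.exp (((p - 1) * Real.log ‖F x‖ : ℝ) : ℂ) *
                  Complex.exp (-((Complex.arg (F x) : ℂ) * Complex.I))) := by rw [← e0, e3]
            _ = (Complex.exp ((Real.log ‖F x‖ : ℝ) : ℂ) *
                Complex.exp (((p - 1) * Real.log ‖F x‖ : ℝ) : ℂ)) *
                (Complex.exp ((Complex.arg (F x) : ℂ) * Complex.I) *
                  Complex.exp (-((Complex.arg (F x) : ℂ) * Complex.I))) := by ring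
            _ = _ := by
                rw [← Complex.exp_add, ← Complex.exp_add, add_neg_cancel, Complex.exp_zero,
                  mul_one]
                congr 1
                push_cast
                ring
      obtain ⟨U, hUd⟩ : ∃ U : ℝ, U = ∫ ξ, u ξ / ‖ξ‖ ^ 4 := ⟨_, rfl⟩
      obtain ⟨V, hVd⟩ : ∃ V : ℝ, V = ∫ x, v x := ⟨_, rfl⟩
      rw [← hUd, ← hVd] at hbd
      rw [← hVd] at hint hV0 ⊢
      rw [← hUd] at hU0 ⊢
      unfold Phi at hbd
      rw [hint, norm_mul, norm_mul, norm_pref hU0 hV0, norm_inv, Complex.norm_real,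
        Real.norm_of_nonneg hV0.le, Complex.ofReal_re] at hbd
      obtain ⟨⟨C0, -, hC0⟩, -, -, -, -⟩ := hG (1 / p) hp1 hp12
      have hcz0 : cz ((1 / p : ℝ) : ℂ) ≠ 0 :=
        (hC0 _ (by rw [Complex.ofReal_re]) (by rw [Complex.ofReal_re]; exact hp12)).1
      have hczp : 0 < ‖cz ((1 / p : ℝ) : ℂ)‖ := norm_pos_iff.2 hcz0
      have hV1 : V ^ (1 / p) ≤ C1 * ‖cz ((1 / p : ℝ) : ℂ)‖ * U ^ (1 / p) := by
        have e1 : V ^ (-(1 - 1 / p)) * V = V ^ (1 / p) := by
          conv_lhs => rw [← Real.rpow_one V, ← Real.rpow_mul hV0.le, ← Real.rpow_add hV0]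
          congr 1
          ring
        have e2 : U ^ (-(1 / p)) * U ^ (1 / p) = 1 := by
          rw [← Real.rpow_add hU0]
          simp
        have hUp : 0 < U ^ (1 / p) := Real.rpow_pos_of_pos hU0 _
        have h1 := mul_le_mul_of_nonneg_right hbd
          (mul_pos hczp hUp).le
        calc V ^ (1 / p) = V ^ (-(1 - 1 / p)) * V := e1.symm
          _ = (U ^ (-(1 / p)) * U ^ (1 / p)) * (V ^ (-(1 - 1 / p)) * V) *
              (‖cz ((1 / p : ℝ) : ℂ)‖⁻¹ * ‖cz ((1 / p : ℝ) : ℂ)‖) := by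
              rw [e2, inv_mul_cancel₀ hczp.ne', one_mul, mul_one]
          _ = U ^ (-(1 / p)) * V ^ (-(1 - 1 / p)) * ‖cz ((1 / p : ℝ) : ℂ)‖⁻¹ * V *
              (‖cz ((1 / p : ℝ) : ℂ)‖ * U ^ (1 / p)) := by ring
          _ ≤ C1 * (‖cz ((1 / p : ℝ) : ℂ)‖ * U ^ (1 / p)) := h1
          _ = _ := by ring
      calc V = (V ^ (1 / p)) ^ p := by
            rw [← Real.rpow_mul hV0.le, one_div, inv_mul_cancel₀ hp0.ne', Real.rpow_one]
        _ ≤ (C1 * ‖cz ((1 / p : ℝ) : ℂ)‖ * U ^ (1 / p)) ^ p :=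
            Real.rpow_le_rpow (by positivity) hV1 hp0.le
        _ = C1 ^ p * CHp p * U := by
            rw [Real.mul_rpow (by positivity) (by positivity),
              Real.mul_rpow hC10 hczp.le, hCHp, ← Real.rpow_mul hU0.le, one_div,
              inv_mul_cancel₀ hp0.ne', Real.rpow_one]
  have huniv : (⋃ n : ℕ, Metric.closedBall (0 : ℂ) n) = Set.univ := Metric.iUnion_closedBall_nat _
  have hdir : Directed (fun x1 x2 => x1 ⊆ x2) fun n : ℕ => Metric.closedBall (0 : ℂ) n := by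
    refine Monotone.directed_le fun m n hmn => ?_
    exact Metric.closedBall_subset_closedBall (by exact_mod_cast hmn)
  calc ∫⁻ x : ℂ, ‖F x‖ₑ ^ p = ∫⁻ x in ⋃ n : ℕ, Metric.closedBall (0 : ℂ) n, ‖F x‖ₑ ^ p := by
        rw [huniv, Measure.restrict_univ]
    _ = ⨆ n : ℕ, ∫⁻ x in Metric.closedBall (0 : ℂ) n, ‖F x‖ₑ ^ p :=
        setLIntegral_iUnion_of_directed _ hdir
    _ ≤ _ := iSup_le hball

end Pool.Agent.Lib.MP_dd244f_an.Rp
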