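import Pool.Agent.Lib.MP_dd244f_an.Rp.StmtsH

/-!
Interpolation between two lines: preparations (analyticity in the strip).
-/

set_option autoImplicit false

namespace Pool.Agent.Lib.MP_dd244f_an.Rp

open MeasureTheory Filter Topology Finset
open Pool.Agent.Lib.MP_dd244f_an.Four
open scoped ENNReal NNReal

namespace Two

/-- an exponential integral is analytic in the interior of its strip of convergence -/
theorem hol_exp {X : Type} [MeasurableSpace X] {μ : Measure X} {L : X → ℝ} {w : X → ℂ}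
    (hL : Measurable L) (hw : AEStronglyMeasurable w μ) {a b : ℝ}
    (hi : ∀ σ : ℝ, a < σ → σ < b → Integrable (fun X => Real.exp (σ * L X) * ‖w X‖) μ) {z : ℂ}
    (ha : a < z.re) (hb : z.re < b) :
    DifferentiableAt ℂ (fun z : ℂ => ∫ X, Complex.exp (z * (L X : ℂ)) * w X ∂μ) z := by
  obtain ⟨ε, hε, h1, h2⟩ : ∃ ε : ℝ, 0 < ε ∧ a < z.re - 2 * ε ∧ z.re + 2 * ε < b := by
    refine ⟨min (z.re - a) (b - z.re) / 3, ?_, ?_, ?_⟩
    · have : 0 < min (z.re - a) (b - z.re) := lt_min (by linarith) (by linarith)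
      positivity
    · have h3 := min_le_left (z.re - a) (b - z.re)
      have : 0 < min (z.re - a) (b - z.re) := lt_min (by linarith) (by linarith)
      linarith
    · have h3 := min_le_right (z.re - a) (b - z.re)
      have : 0 < min (z.re - a) (b - z.re) := lt_min (by linarith) (by linarith)
      linarith
  have hm : ∀ z : ℂ, AEStronglyMeasurable (fun X => Complex.exp (z * (L X : ℂ)) * w X) μ := by
    intro z
    refine AEStronglyMeasurable.mul ?_ hw
    exact (Complex.continuous_exp.measurable.comp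
      ((Complex.measurable_ofReal.comp hL).const_mul z)).aestronglyMeasurable
  have hn : ∀ (z : ℂ) (X : X), ‖Complex.exp (z * (L X : ℂ))‖ = Real.exp (z.re * L X) := by
    intro z X
    rw [Complex.norm_exp]
    congr 1
    simp
  have hmain := hasDerivAt_integral_of_dominated_loc_of_deriv_le (μ := μ) (𝕜 := ℂ) (x₀ := z)
    (F := fun (z : ℂ) X => Complex.exp (z * (L X : ℂ)) * w X)
    (F' := fun (z : ℂ) X => (L X : ℂ) * (Complex.exp (z * (L X : ℂ)) * w X))
    (bound := fun X => ε⁻¹ * (Real.exp ((z.re + 2 * ε) * L X) * ‖w X‖ +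
      Real.exp ((z.re - 2 * ε) * L X) * ‖w X‖))
    (Metric.ball_mem_nhds z hε) (Eventually.of_forall fun z => hm z) ?_ ?_ ?_ ?_ ?_
  · exact hmain.2.differentiableAt
  · refine (hi z.re ha hb).mono' (hm z) (Eventually.of_forall fun X => ?_)
    rw [norm_mul, hn]
  · exact ((Complex.measurable_ofReal.comp hL).aestronglyMeasurable).mul (hm z)
  · refine Eventually.of_forall fun X ζ hζ => ?_
    rw [norm_mul, norm_mul, hn, Complex.norm_real, Real.norm_eq_abs]
    have hre : |ζ.re - z.re| < ε := by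
      have h3 : ‖ζ - z‖ < ε := by
        rw [← dist_eq_norm]
        exact hζ
      have h4 := Complex.abs_re_le_norm (ζ - z)
      rw [Complex.sub_re] at h4
      linarith
    obtain ⟨h5, h6⟩ := abs_lt.1 hre
    have hkey : |L X| * Real.exp (ζ.re * L X) ≤ ε⁻¹ * (Real.exp ((z.re + 2 * ε) * L X) +
        Real.exp ((z.re - 2 * ε) * L X)) := by
      have e1 : |L X| ≤ ε⁻¹ * Real.exp (ε * |L X|) := by
        have := Real.add_one_le_exp (ε * |L X|)
        rw [le_inv_mul_iff₀ hε]
        linarith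
      have e2 : Real.exp (ε * |L X|) * Real.exp (ζ.re * L X) ≤
          Real.exp ((z.re + 2 * ε) * L X) + Real.exp ((z.re - 2 * ε) * L X) := by
        rw [← Real.exp_add]
        rcases le_total 0 (L X) with hL0 | hL0
        · rw [abs_of_nonneg hL0]
          refine le_trans (Real.exp_le_exp.2 ?_) (le_add_of_nonneg_right (Real.exp_pos _).le)
          nlinarith
        · rw [abs_of_nonpos hL0]
          refine le_trans (Real.exp_le_exp.2 ?_) (le_add_of_nonneg_left (Real.exp_pos _).le)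
          nlinarith
      calc |L X| * Real.exp (ζ.re * L X) ≤ (ε⁻¹ * Real.exp (ε * |L X|)) * Real.exp (ζ.re * L X) :=
            mul_le_mul_of_nonneg_right e1 (Real.exp_pos _).le
        _ = ε⁻¹ * (Real.exp (ε * |L X|) * Real.exp (ζ.re * L X)) := by ring
        _ ≤ _ := mul_le_mul_of_nonneg_left e2 (by positivity)
    calc |L X| * (Real.exp (ζ.re * L X) * ‖w X‖) = (|L X| * Real.exp (ζ.re * L X)) * ‖w X‖ := by ring
      _ ≤ (ε⁻¹ * (Real.exp ((z.re + 2 * ε) * L X) + Real.exp ((z.re - 2 * ε) * L X))) * ‖w X‖ :=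
          mul_le_mul_of_nonneg_right hkey (norm_nonneg _)
      _ = _ := by ring
  · exact ((hi _ (by linarith) h2).add (hi _ h1 (by linarith))).const_mul _
  · refine Eventually.of_forall fun X ζ _ => ?_
    have h3 : HasDerivAt (fun z : ℂ => z * (L X : ℂ)) (L X : ℂ) ζ := by
      simpa using (hasDerivAt_id ζ).mul_const (L X : ℂ)
    refine ((h3.cexp).mul_const (w X)).congr_deriv ?_
    ring

/-- the test functions -/
structure Test (v β : ℂ → ℝ) (M R : ℝ) : Prop where
  mv : Measurable v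
  mb : Measurable β
  nn : ∀ x, 0 ≤ v x
  le : ∀ x, v x ≤ M
  sup : ∀ x, v x ≠ 0 → ‖x‖ ≤ R

/-- `v ^ (1 - z) exp (i β)` -/
noncomputable def vz (v β : ℂ → ℝ) (z x : ℂ) : ℂ :=
  if v x = 0 then 0 else
    Complex.exp ((1 - z) * (Real.log (v x) : ℂ) + Complex.I * (β x : ℂ))

theorem norm_ch (x ζ : ℂ) : ‖ch x ζ‖ = 1 := by
  unfold ch
  rw [Complex.norm_exp]
  simp

theorem cont_ch : Continuous fun q : ℂ × ℂ => ch q.1 q.2 := by
  unfold ch
  fun_prop

/-- the exponent -/
noncomputable def LL (u v : ℂ → ℝ) (q : ℂ × ℂ) : ℝ := Real.log (u q.2) - Real.log (v q.1)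

/-- the weight -/
noncomputable def ww (u α v β : ℂ → ℝ) (q : ℂ × ℂ) : ℂ :=
  if u q.2 = 0 ∨ v q.1 = 0 then 0 else
    (((‖q.2‖ ^ 2)⁻¹ : ℝ) : ℂ) * (v q.1 : ℂ) *
      Complex.exp (Complex.I * ((α q.2 + β q.1 : ℝ) : ℂ)) * ch q.1 q.2

section

variable {u α v β : ℂ → ℝ} {M R : ℝ}

theorem meas_LL (hu : Nice u α) (hv : Test v β M R) : Measurable (LL u v) := by
  unfold LL
  exact (Real.measurable_log.comp (hu.1.measurable.comp measurable_snd)).sub
    (Real.measurable_log.comp (hv.mv.comp measurable_fst))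

theorem meas_ww (hu : Nice u α) (hv : Test v β M R) : Measurable (ww u α v β) := by
  unfold ww
  refine Measurable.ite ?_ measurable_const ?_
  · exact (measurableSet_eq_fun (hu.1.measurable.comp measurable_snd) measurable_const).union
      (measurableSet_eq_fun (hv.mv.comp measurable_fst) measurable_const)
  · refine Measurable.mul (Measurable.mul (Measurable.mul ?_ ?_) ?_) cont_ch.measurable
    · exact Complex.measurable_ofReal.comp ((measurable_snd.norm.pow_const 2).inv)
    · exact Complex.measurable_ofReal.comp (hv.mv.comp measurable_fst)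
    · exact Complex.continuous_exp.measurable.comp ((Complex.measurable_ofReal.comp
        ((hu.2.2.2.comp measurable_snd).add (hv.mb.comp measurable_fst))).const_mul _)

theorem norm_ww (hv : Test v β M R) (q : ℂ × ℂ) : ‖ww u α v β q‖ =
    if u q.2 = 0 ∨ v q.1 = 0 then 0 else (‖q.2‖ ^ 2)⁻¹ * v q.1 := by
  unfold ww
  split_ifs with h
  · simp
  · rw [norm_mul, norm_mul, norm_mul, norm_ch, mul_one, Complex.norm_real, Complex.norm_real,
      Real.norm_of_nonneg (hv.nn _), Real.norm_of_nonneg (by positivity)]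
    have : ‖Complex.exp (Complex.I * ((α q.2 + β q.1 : ℝ) : ℂ))‖ = 1 := by
      rw [mul_comm, Complex.norm_exp_ofReal_mul_I]
    rw [this, mul_one]

/-- bounds of the data -/
theorem nice_bd (hu : Nice u α) : ∃ r R' M' : ℝ, 0 < r ∧ 1 ≤ M' ∧ (∀ ξ, u ξ ≤ M') ∧
    ∀ ξ, u ξ ≠ 0 → r ≤ ‖ξ‖ ∧ ‖ξ‖ ≤ R' := by
  obtain ⟨hc, hn, ⟨r, R', hr, hR⟩, -⟩ := hu
  obtain ⟨C, hC⟩ := (isCompact_closedBall (0 : ℂ) R').exists_bound_of_continuousOn hc.continuousOn
  refine ⟨r, R', max C 1, hr, le_max_right _ _, fun ξ => ?_, hR⟩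
  by_cases h : u ξ = 0
  · rw [h]
    exact le_trans zero_le_one (le_max_right _ _)
  · have h1 := hC ξ (by simpa using (hR ξ h).2)
    exact ((Real.le_norm_self _).trans h1).trans (le_max_left _ _)

/-- pointwise bound of the integrand -/
theorem pt_bound {r M' : ℝ} (hr : 0 < r) (hM' : 1 ≤ M') (hub : ∀ ξ, u ξ ≤ M')
    (hM : 1 ≤ M) (hun : ∀ ξ, 0 ≤ u ξ) (hur : ∀ ξ, u ξ ≠ 0 → r ≤ ‖ξ‖) (hv : Test v β M R)
    {σ : ℝ} (h0 : 0 ≤ σ) (h1 : σ ≤ 1) (q : ℂ × ℂ) :
    Real.exp (σ * LL u v q) * ‖ww u α v β q‖ ≤ (r ^ 2)⁻¹ * M' * M := by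
  rw [norm_ww hv]
  split_ifs with h
  · rw [mul_zero]
    positivity
  · push Not at h
    obtain ⟨h2, h3⟩ := h
    have hu0 : 0 < u q.2 := lt_of_le_of_ne (hun _) (Ne.symm h2)
    have hv0 : 0 < v q.1 := lt_of_le_of_ne (hv.nn _) (Ne.symm h3)
    have e1 : Real.exp (σ * LL u v q) * v q.1 =
        Real.exp (σ * Real.log (u q.2)) * Real.exp ((1 - σ) * Real.log (v q.1)) := by
      unfold LL
      conv_lhs => rw [← Real.exp_log hv0]
      rw [← Real.exp_add, ← Real.exp_add, Real.log_exp]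
      congr 1
      ring
    have e2 : Real.exp (σ * Real.log (u q.2)) ≤ M' := by
      have : σ * Real.log (u q.2) ≤ Real.log M' := by
        have h4 : Real.log (u q.2) ≤ Real.log M' := Real.log_le_log hu0 (hub _)
        have h5 : 0 ≤ Real.log M' := Real.log_nonneg hM'
        nlinarith [mul_le_mul_of_nonneg_left h4 h0]
      calc _ ≤ Real.exp (Real.log M') := Real.exp_le_exp.2 this
        _ = M' := Real.exp_log (by linarith)
    have e3 : Real.exp ((1 - σ) * Real.log (v q.1)) ≤ M := by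
      have : (1 - σ) * Real.log (v q.1) ≤ Real.log M := by
        have h4 : Real.log (v q.1) ≤ Real.log M := Real.log_le_log hv0 (hv.le _)
        have h5 : 0 ≤ Real.log M := Real.log_nonneg hM
        have h6 : 0 ≤ 1 - σ := by linarith
        nlinarith [mul_le_mul_of_nonneg_left h4 h6]
      calc _ ≤ Real.exp (Real.log M) := Real.exp_le_exp.2 this
        _ = M := Real.exp_log (by linarith)
    have e4 : (‖q.2‖ ^ 2)⁻¹ ≤ (r ^ 2)⁻¹ := by
      apply inv_anti₀ (by positivity)
      exact pow_le_pow_left₀ hr.le (hur _ h2) 2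
    calc Real.exp (σ * LL u v q) * ((‖q.2‖ ^ 2)⁻¹ * v q.1) =
          (‖q.2‖ ^ 2)⁻¹ * (Real.exp (σ * LL u v q) * v q.1) := by ring
      _ = (‖q.2‖ ^ 2)⁻¹ * (Real.exp (σ * Real.log (u q.2)) *
          Real.exp ((1 - σ) * Real.log (v q.1))) := by rw [e1]
      _ ≤ (r ^ 2)⁻¹ * (M' * M) := by gcongr
      _ = _ := by ring

/-- integrability in the strip, with a bound which does not depend on the point -/
theorem int_ww (hu : Nice u α) (hv : Test v β M R) (hM : 1 ≤ M) : ∃ C : ℝ, ∀ σ : ℝ, 0 ≤ σ →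
    σ ≤ 1 → Integrable (fun q => Real.exp (σ * LL u v q) * ‖ww u α v β q‖)
      ((volume : Measure ℂ).prod (volume : Measure ℂ)) ∧
    ∫ q, Real.exp (σ * LL u v q) * ‖ww u α v β q‖ ∂((volume : Measure ℂ).prod (volume : Measure ℂ))
      ≤ C := by
  obtain ⟨r, R', M', hr, hM', hub, hur⟩ := nice_bd hu
  set S : Set (ℂ × ℂ) := Metric.closedBall 0 R ×ˢ Metric.closedBall 0 R' with hS
  have hSm : MeasurableSet S := Metric.isClosed_closedBall.measurableSet.prod
    Metric.isClosed_closedBall.measurableSet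
  have hSf : ((volume : Measure ℂ).prod (volume : Measure ℂ)) S < ⊤ := by
    rw [hS, Measure.prod_prod]
    exact ENNReal.mul_lt_top measure_closedBall_lt_top measure_closedBall_lt_top
  have hb : ∀ σ : ℝ, 0 ≤ σ → σ ≤ 1 → ∀ q, Real.exp (σ * LL u v q) * ‖ww u α v β q‖ ≤
      S.indicator (fun _ => (r ^ 2)⁻¹ * M' * M) q := by
    intro σ h0 h1 q
    by_cases hq : q ∈ S
    · rw [Set.indicator_of_mem hq]
      exact pt_bound hr hM' hub hM hu.2.1 (fun ξ hξ => (hur ξ hξ).1) hv h0 h1 q
    · rw [Set.indicator_of_notMem hq]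
      have : ‖ww u α v β q‖ = 0 := by
        rw [norm_ww hv, if_pos]
        by_contra h
        push Not at h
        refine hq ⟨?_, ?_⟩
        · simpa using hv.sup _ h.2
        · simpa using (hur _ h.1).2
      rw [this, mul_zero]
  have hint : Integrable (S.indicator (fun _ => (r ^ 2)⁻¹ * M' * M))
      ((volume : Measure ℂ).prod (volume : Measure ℂ)) :=
    (integrable_indicator_iff hSm).2 (integrableOn_const hSf.ne)
  refine ⟨∫ q, S.indicator (fun _ => (r ^ 2)⁻¹ * M' * M) q
    ∂((volume : Measure ℂ).prod (volume : Measure ℂ)), fun σ h0 h1 => ?_⟩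
  have hI : Integrable (fun q => Real.exp (σ * LL u v q) * ‖ww u α v β q‖)
      ((volume : Measure ℂ).prod (volume : Measure ℂ)) := by
    refine hint.mono' ?_ (Eventually.of_forall fun q => ?_)
    · exact ((Real.measurable_exp.comp ((meas_LL hu hv).const_mul σ)).mul
        (meas_ww hu hv).norm).aestronglyMeasurable
    · rw [Real.norm_of_nonneg (by positivity)]
      exact hb σ h0 h1 q
  exact ⟨hI, integral_mono hI hint (hb σ h0 h1)⟩

/-- the integral as an exponential integral -/
theorem psi_eq (hu : Nice u α) (hv : Test v β M R) (hM : 1 ≤ M) {z : ℂ} (h0 : 0 ≤ z.re)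
    (h1 : z.re ≤ 1) : ∫ x, iF (hz u α z) x * vz v β z x =
      ∫ q, Complex.exp (z * (LL u v q : ℂ)) * ww u α v β q
        ∂((volume : Measure ℂ).prod (volume : Measure ℂ)) := by
  obtain ⟨C, hC⟩ := int_ww hu hv hM
  have hI : Integrable (fun q => Complex.exp (z * (LL u v q : ℂ)) * ww u α v β q)
      ((volume : Measure ℂ).prod (volume : Measure ℂ)) := by
    refine (hC z.re h0 h1).1.mono' ?_ (Eventually.of_forall fun q => ?_)
    · exact ((Complex.continuous_exp.measurable.comp
        ((Complex.measurable_ofReal.comp (meas_LL hu hv)).const_mul z)).mul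
        (meas_ww hu hv)).aestronglyMeasurable
    · rw [norm_mul, Complex.norm_exp]
      simp
  rw [integral_prod _ hI]
  refine integral_congr_ae (Eventually.of_forall fun x => ?_)
  show iF (hz u α z) x * vz v β z x = ∫ ξ, _
  unfold iF
  rw [← integral_mul_const]
  refine integral_congr_ae (Eventually.of_forall fun ξ => ?_)
  show ch x ξ * hz u α z ξ * vz v β z x = Complex.exp (z * (LL u v (x, ξ) : ℂ)) * ww u α v β (x, ξ)
  unfold hz vz ww LL
  by_cases h2 : u ξ = 0
  · simp [h2]
  · by_cases h3 : v x = 0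
    · simp [h3]
    · simp only [h2, h3, if_false, or_self]
      have hv0 : 0 < v x := lt_of_le_of_ne (hv.nn _) (Ne.symm h3)
      have e1 : (v x : ℂ) = Complex.exp ((Real.log (v x) : ℝ) : ℂ) := by
        rw [← Complex.ofReal_exp, Real.exp_log hv0]
      have e2 : Complex.exp (z * (Real.log (u ξ) : ℂ) + Complex.I * (α ξ : ℂ)) *
          Complex.exp ((1 - z) * (Real.log (v x) : ℂ) + Complex.I * (β x : ℂ)) =
          Complex.exp (z * ((Real.log (u ξ) - Real.log (v x) : ℝ) : ℂ)) *
          (Complex.exp ((Real.log (v x) : ℝ) : ℂ) *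
          Complex.exp (Complex.I * ((α ξ + β x : ℝ) : ℂ))) := by
        rw [← Complex.exp_add, ← Complex.exp_add, ← Complex.exp_add]
        congr 1
        push_cast
        ring
      rw [← e1] at e2
      linear_combination (ch x ξ * (((‖ξ‖ ^ 2)⁻¹ : ℝ) : ℂ)) * e2

end

end Two

end Pool.Agent.Lib.MP_dd244f_an.Rp
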