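import Pool.Agent.Lib.MP_dd244f_an.Rp.TwoA

/-!
Interpolation between two lines: the estimate on a line.
-/

set_option autoImplicit false

namespace Pool.Agent.Lib.MP_dd244f_an.Rp

open MeasureTheory Filter Topology Finset
open Pool.Agent.Lib.MP_dd244f_an.Four
open scoped ENNReal NNReal

namespace Two

/-- the weighted power of the inverse Fourier transform on the line `Re z = x` -/
noncomputable def NN (u α : ℂ → ℝ) (K : ℕ) (x y : ℝ) : ℝ≥0∞ :=
  ∫⁻ ξ : ℂ, ‖iF (hz u α (x + Complex.I * y)) ξ‖ₑ ^ (2 * K)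

section

variable {u α v β : ℂ → ℝ} {M R : ℝ}

theorem meas_hz (hu : Nice u α) (x : ℝ) :
    Measurable fun q : (ℝ × ℂ) × ℂ => ch q.1.2 q.2 * hz u α (x + Complex.I * q.1.1) q.2 := by
  refine Measurable.mul (cont_ch.measurable.comp
    ((measurable_snd.comp measurable_fst).prodMk measurable_snd)) ?_
  unfold hz
  refine Measurable.ite ?_ measurable_const ?_
  · exact measurableSet_eq_fun (hu.1.measurable.comp measurable_snd) measurable_const
  · refine Measurable.mul ?_ ?_
    · exact Complex.measurable_ofReal.comp ((measurable_snd.norm.pow_const 2).inv)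
    · refine Complex.continuous_exp.measurable.comp ?_
      refine Measurable.add (Measurable.mul ?_ ?_) (Measurable.mul measurable_const ?_)
      · exact measurable_const.add (measurable_const.mul
          (Complex.measurable_ofReal.comp (measurable_fst.comp measurable_fst)))
      · exact Complex.measurable_ofReal.comp (Real.measurable_log.comp
          (hu.1.measurable.comp measurable_snd))
      · exact Complex.measurable_ofReal.comp (hu.2.2.2.comp measurable_snd)

theorem meas_iF (hu : Nice u α) (x : ℝ) :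
    Measurable fun q : ℝ × ℂ => iF (hz u α (x + Complex.I * q.1)) q.2 := by
  have h := (meas_hz hu x).stronglyMeasurable.integral_prod_right' (ν := (volume : Measure ℂ))
  exact h.measurable

theorem meas_iF1 (hu : Nice u α) (z : ℂ) : Measurable (iF (hz u α z)) := by
  have h := (meas_iF hu z.re).comp (measurable_const.prodMk measurable_id :
    Measurable fun x : ℂ => ((z.im : ℝ), x))
  have e : ((z.re : ℂ) + Complex.I * (z.im : ℂ)) = z := by
    rw [mul_comm]
    exact Complex.re_add_im z
  have e2 : (fun x : ℂ => iF (hz u α ((z.re : ℂ) + Complex.I * ((z.im : ℝ) : ℂ))) x) =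
      iF (hz u α z) := by
    rw [e]
  rw [← e2]
  exact h

theorem meas_NN (hu : Nice u α) (K : ℕ) (x : ℝ) : Measurable (NN u α K x) := by
  unfold NN
  exact ((meas_iF hu x).enorm.pow_const (2 * K)).lintegral_prod_right'

theorem enorm_vz (hv : Test v β M R) {z : ℂ} (hz1 : z.re < 1) (x : ℂ) :
    ‖vz v β z x‖ₑ = ENNReal.ofReal (v x) ^ (1 - z.re) := by
  unfold vz
  split_ifs with h
  · rw [h, ENNReal.ofReal_zero, ENNReal.zero_rpow_of_pos (by linarith)]
    simp
  · have hv0 : 0 < v x := lt_of_le_of_ne (hv.nn _) (Ne.symm h)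
    rw [ENNReal.ofReal_rpow_of_pos hv0, ← ofReal_norm_eq_enorm]
    congr 1
    rw [Complex.norm_exp, Real.rpow_def_of_pos hv0]
    congr 1
    simp
    ring

theorem int_v (hv : Test v β M R) : Integrable v := by
  have h : Integrable ((Metric.closedBall (0 : ℂ) R).indicator fun _ => M) :=
    (integrable_indicator_iff Metric.isClosed_closedBall.measurableSet).2
      (integrableOn_const measure_closedBall_lt_top.ne)
  refine h.mono' hv.mv.aestronglyMeasurable (Eventually.of_forall fun x => ?_)
  rw [Real.norm_of_nonneg (hv.nn x)]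
  by_cases hx : x ∈ Metric.closedBall (0 : ℂ) R
  · rw [Set.indicator_of_mem hx]
    exact hv.le x
  · rw [Set.indicator_of_notMem hx]
    by_contra h1
    push Not at h1
    exact hx (by simpa using hv.sup x h1.ne')

/-- Hölder in the space variable -/
theorem holder_x (hu : Nice u α) (hv : Test v β M R) {K : ℕ} (hK : 1 ≤ K) (y : ℝ) :
    ‖∫ x, iF (hz u α ((1 / (2 * K) : ℝ) + Complex.I * y)) x *
      vz v β ((1 / (2 * K) : ℝ) + Complex.I * y) x‖ₑ ≤
    NN u α K (1 / (2 * K)) y ^ (1 / (2 * K) : ℝ) *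
      ENNReal.ofReal (∫ x, v x) ^ (1 - 1 / (2 * K) : ℝ) := by
  have hK0 : (1 : ℝ) ≤ K := by exact_mod_cast hK
  have hK2 : (1 : ℝ) < 2 * K := by linarith
  have hconj : (2 * K : ℝ).HolderConjugate (2 * K : ℝ).conjExponent :=
    Real.HolderConjugate.conjExponent hK2
  have hq : (2 * K : ℝ).conjExponent⁻¹ = 1 - 1 / (2 * K) := by
    have := hconj.inv_add_inv_eq_one
    rw [one_div]
    linarith
  have hq0 : 0 < (2 * K : ℝ).conjExponent := hconj.symm.pos
  set z : ℂ := ((1 / (2 * K) : ℝ) : ℂ) + Complex.I * y with hzd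
  have hzre : z.re = 1 / (2 * K) := by
    rw [hzd]
    simp
  have hz1 : z.re < 1 := by
    rw [hzre, div_lt_one (by linarith)]
    exact hK2
  refine (enorm_integral_le_lintegral_enorm _).trans ?_
  have h1 := ENNReal.lintegral_mul_le_Lp_mul_Lq (volume : Measure ℂ) hconj
    (f := fun x => ‖iF (hz u α z) x‖ₑ) (g := fun x => ‖vz v β z x‖ₑ)
    (meas_iF1 hu z).enorm.aemeasurable (by
      have e : (fun x => ‖vz v β z x‖ₑ) = fun x => ENNReal.ofReal (v x) ^ (1 - z.re) := by
        funext x
        exact enorm_vz hv hz1 x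
      rw [e]
      exact (hv.mv.ennreal_ofReal.pow_const _).aemeasurable)
  have h2 : ∀ x, ‖iF (hz u α z) x * vz v β z x‖ₑ =
      ((fun x => ‖iF (hz u α z) x‖ₑ) * fun x => ‖vz v β z x‖ₑ) x := by
    intro x
    rw [enorm_mul]
    rfl
  simp only [h2]
  refine h1.trans (le_of_eq ?_)
  congr 1
  · unfold NN
    congr 1
    refine lintegral_congr fun x => ?_
    rw [← ENNReal.rpow_natCast]
    have e : ((2 * K : ℕ) : ℝ) = 2 * K := by push_cast; ring
    rw [e]
  · rw [ofReal_integral_eq_lintegral_ofReal (int_v hv) (Eventually.of_forall hv.nn)]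
    congr 1
    · refine lintegral_congr fun x => ?_
      rw [enorm_vz hv hz1, ← ENNReal.rpow_mul]
      have : (1 - z.re) * (2 * K : ℝ).conjExponent = 1 := by
        rw [hzre, ← hq]
        exact inv_mul_cancel₀ hq0.ne'
      rw [this, ENNReal.rpow_one]
    · rw [one_div, hq]

/-- Hölder on the line -/
theorem holder_y {p : ℝ} (hp : 1 < p) {k N : ℝ → ℝ≥0∞} (hk : Measurable k) (hN : Measurable N) :
    ∫⁻ y, k y * N y ≤ (∫⁻ y, k y) ^ (1 - 1 / p) * (∫⁻ y, k y * N y ^ p) ^ (1 / p) := by
  have hconj : p.HolderConjugate p.conjExponent := Real.HolderConjugate.conjExponent hp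
  have hq : p.conjExponent⁻¹ = 1 - 1 / p := by
    have := hconj.inv_add_inv_eq_one
    rw [one_div]
    linarith
  have hp0 : 0 < p := by linarith
  have hq0 : 0 < p.conjExponent := hconj.symm.pos
  have h1 := ENNReal.lintegral_mul_le_Lp_mul_Lq (volume : Measure ℝ) hconj.symm
    (f := fun y => k y ^ (1 - 1 / p)) (g := fun y => k y ^ (1 / p) * N y)
    (hk.pow_const _).aemeasurable ((hk.pow_const _).mul hN).aemeasurable
  have h0 : 0 ≤ 1 - 1 / p := by rw [← hq]; positivity
  have h2 : ∀ y, k y * N y = ((fun y => k y ^ (1 - 1 / p)) * fun y => k y ^ (1 / p) * N y) y := by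
    intro y
    show _ = k y ^ (1 - 1 / p) * (k y ^ (1 / p) * N y)
    rw [← mul_assoc, ← ENNReal.rpow_add_of_nonneg _ _ h0 (by positivity)]
    rw [sub_add_cancel, ENNReal.rpow_one]
  simp only [h2]
  refine h1.trans (le_of_eq ?_)
  congr 1
  · rw [one_div p.conjExponent, hq]
    congr 1
    refine lintegral_congr fun y => ?_
    rw [← ENNReal.rpow_mul, ← hq, inv_mul_cancel₀ hq0.ne', ENNReal.rpow_one]
  · congr 1
    refine lintegral_congr fun y => ?_
    rw [ENNReal.mul_rpow_of_nonneg _ _ hp0.le, ← ENNReal.rpow_mul, one_div,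
      inv_mul_cancel₀ hp0.ne', ENNReal.rpow_one]

end

end Two

end Pool.Agent.Lib.MP_dd244f_an.Rp
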